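import Pool.Agent.Lib.MP_e95c01_co.X.V2_16

/-!
# `λ = 10/3`: a `K6` has at most one port that is contained in the neighbourhood of a fragment `C`
and sees only `C` and `N C` otherwise
-/

namespace Pool.Agent.Lib.MP_e95c01_co.N

open Finset

variable {V : Type} [Fintype V] [DecidableEq V]

namespace CG

variable {G : CG V}

/-- `u`, `v` are the ports of a pair of twins of the `K6` `K`; both are in `N C` and all their
other neighbours are in `C ∪ N C` -/
structure AlP (G : CG V) (K C : Finset V) (u v : V) : Prop where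
  uN : u ∈ G.N C
  vN : v ∈ G.N C
  uK : u ∉ K
  vK : v ∉ K
  ne : u ≠ v
  q : ∃ q ∈ K, u ∈ G.nb q ∧ v ∈ G.nb q
  hu : ∀ w ∈ G.nb u, w ∈ K ∨ w ∈ C ∨ w ∈ G.N C
  hv : ∀ w ∈ G.nb v, w ∈ K ∨ w ∈ C ∨ w ∈ G.N C

/-- the neighbourhood of a vertex of a `K6` with two known ports -/
theorem k6_nb11 (hC : G.Crit) (h9 : 9 ≤ Fintype.card V) {K : Finset V} (hK : G.IsK6 K) {q u v : V}
    (hq : q ∈ K) (hu : u ∈ G.nb q) (hv : v ∈ G.nb q) (huK : u ∉ K) (hvK : v ∉ K) (hne : u ≠ v) :
    G.nb q = insert u (insert v (K.erase q)) := by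
  obtain ⟨-, w, -, -, hwu, -, -, hnb⟩ := stPort_16 G hC h9 K hK q hq u hu huK
  have hvw : v = w := by
    rw [hnb, mem_insert, mem_insert, mem_erase] at hv
    rcases hv with h | h | h
    · exact absurd h.symm hne
    · exact h
    · exact absurd h.2 hvK
  rw [hvw]
  exact hnb

/-- the remaining pair of a `K6` -/
theorem k6_third11 (hC : G.Crit) (h9 : 9 ≤ Fintype.card V) {K : Finset V} (hK : G.IsK6 K)
    {q1 q2 u1 v1 u2 v2 : V} (h1 : q1 ∈ K) (h2 : q2 ∈ K) (hu1 : u1 ∈ G.nb q1) (hv1 : v1 ∈ G.nb q1)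
    (hu1K : u1 ∉ K) (hv1K : v1 ∉ K) (hne1 : u1 ≠ v1) (hu2 : u2 ∈ G.nb q2) (hv2 : v2 ∈ G.nb q2)
    (hu2K : u2 ∉ K) (hv2K : v2 ∉ K) (hne2 : u2 ≠ v2) (hd : u1 ≠ u2 ∧ u1 ≠ v2) :
    ∃ q q' a b, q ∈ K ∧ q' ∈ K ∧ a ∉ K ∧ b ∉ K ∧ a ≠ b ∧
      G.nb q = insert a (insert b (K.erase q)) ∧ G.nb q' = insert a (insert b (K.erase q')) ∧
      (∀ w ∈ G.N K, w = u1 ∨ w = v1 ∨ w = u2 ∨ w = v2 ∨ w = a ∨ w = b) ∧
      (∀ z ∈ K, ∀ w ∈ G.nb z, w ∈ K ∨ (z = q ∨ z = q') ∨ (w = u1 ∨ w = v1 ∨ w = u2 ∨ w = v2)) := by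
  classical
  have hT := stTwHL_5 G
  have n1 := k6_nb11 hC h9 hK h1 hu1 hv1 hu1K hv1K hne1
  have n2 := k6_nb11 hC h9 hK h2 hu2 hv2 hu2K hv2K hne2
  obtain ⟨q1', t1⟩ := hK.2.1 q1 h1
  obtain ⟨q2', t2⟩ := hK.2.1 q2 h2
  have h1' := k6_twin16 hC h9 hK h1 t1
  have h2' := k6_twin16 hC h9 hK h2 t2
  -- neighbourhoods of twins
  have htn : ∀ x x' a b, x ∈ K → G.Tw x x' → a ∉ K → b ∉ K → a ≠ b → a ∈ G.nb x → b ∈ G.nb x →
      G.nb x' = insert a (insert b (K.erase x')) := by
    intro x x' a b hx t haK hbK hab ha hb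
    have hx' := k6_twin16 hC h9 hK hx t
    have ha' : a ∈ G.nb x' := by
      have h3 : a ∈ G.cl x' := by
        rw [← t.2.2]
        exact mem_insert_of_mem ha
      rcases mem_insert.1 h3 with h4 | h4
      · exact absurd (h4 ▸ hx') haK
      · exact h4
    have hb' : b ∈ G.nb x' := by
      have h3 : b ∈ G.cl x' := by
        rw [← t.2.2]
        exact mem_insert_of_mem hb
      rcases mem_insert.1 h3 with h4 | h4
      · exact absurd (h4 ▸ hx') hbK
      · exact h4
    exact k6_nb11 hC h9 hK hx' ha' hb' haK hbK hab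
  have n1' := htn q1 q1' u1 v1 h1 t1 hu1K hv1K hne1 hu1 hv1
  have n2' := htn q2 q2' u2 v2 h2 t2 hu2K hv2K hne2 hu2 hv2
  -- a vertex outside of the four
  have hP : ({q1, q1', q2, q2'} : Finset V).card ≤ 4 := by
    refine (card_insert_le _ _).trans ?_
    have := (card_insert_le q1' ({q2, q2'} : Finset V))
    have := (card_insert_le q2 ({q2'} : Finset V))
    rw [card_singleton] at this
    omega
  obtain ⟨q, hq, hqn⟩ : ∃ q ∈ K, q ∉ ({q1, q1', q2, q2'} : Finset V) := by
    by_contra hno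
    push Not at hno
    have h3 := card_le_card (fun x hx => hno x hx : K ⊆ ({q1, q1', q2, q2'} : Finset V))
    rw [hK.1] at h3
    omega
  obtain ⟨q', t⟩ := hK.2.1 q hq
  have hq' := k6_twin16 hC h9 hK hq t
  have h7 : (G.nb q).card = 7 := isTw_card16 (hK.2.1 q hq)
  obtain ⟨a, ha, haK⟩ : ∃ a ∈ G.nb q, a ∉ K := by
    by_contra hno
    push Not at hno
    have h3 : G.nb q ⊆ K.erase q := fun x hx =>
      mem_erase.2 ⟨fun h => G.irr q (h ▸ hx), hno x hx⟩
    have h4 := card_le_card h3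
    rw [card_erase_of_mem hq, hK.1] at h4
    omega
  obtain ⟨-, b, hb, hbK, hba, -, -, n3⟩ := stPort_16 G hC h9 K hK q hq a ha haK
  have n3' := htn q q' a b hq t haK hbK (Ne.symm hba) ha hb
  -- the six vertices
  have hq1n : ∀ x, x ∈ K → x = q1 ∨ x = q1' ∨ x = q2 ∨ x = q2' ∨ x = q ∨ x = q' := by
    have hne12 : q1 ≠ q2 := by
      intro h
      rw [← h, n1, mem_insert, mem_insert, mem_erase] at hu2
      rcases hu2 with h3 | h3 | h3
      · exact hd.1 h3.symm
      · rw [← h, n1, mem_insert, mem_insert, mem_erase] at hv2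
        rcases hv2 with h4 | h4 | h4
        · exact hd.2 h4.symm
        · exact hne2 (h3.trans h4.symm)
        · exact hv2K h4.2
      · exact hu2K h3.2
    have hne12' : q1 ≠ q2' := by
      intro h
      have hx : u1 ∈ G.nb q2' := h ▸ hu1
      rw [n2', mem_insert, mem_insert, mem_erase] at hx
      rcases hx with h3 | h3 | h3
      · exact hd.1 h3
      · exact hd.2 h3
      · exact hu1K h3.2
    have e1 : q1 ≠ q1' := fun h => G.irr q1 (by have := t1.1; rwa [← h] at this)
    have e2 : q2 ≠ q2' := fun h => G.irr q2 (by have := t2.1; rwa [← h] at this)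
    have e3 : q ≠ q' := fun h => G.irr q (by have := t.1; rwa [← h] at this)
    have s1 := hT.symm _ _ t1
    have s2 := hT.symm _ _ t2
    have s3 := hT.symm _ _ t
    have hn12 : q1' ≠ q2 := by
      intro h
      have h5 : G.Tw q2 q1 := h ▸ s1
      exact hne12' (hT.uniq h9 _ _ _ h5 t2)
    have hn12' : q1' ≠ q2' := by
      intro h
      have h5 : G.Tw q1' q2 := h ▸ s2
      exact hne12 (hT.uniq h9 _ _ _ s1 h5)
    rw [mem_insert, mem_insert, mem_insert, mem_singleton] at hqn
    push Not at hqn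
    obtain ⟨m1, m2, m3, m4⟩ := hqn
    have m5 : q' ≠ q1 := by
      intro h
      have h5 : G.Tw q1 q := h ▸ s3
      exact m2 (hT.uniq h9 _ _ _ h5 t1)
    have m6 : q' ≠ q1' := by
      intro h
      have h5 : G.Tw q1' q := h ▸ s3
      exact m1 (hT.uniq h9 _ _ _ h5 s1)
    have m7 : q' ≠ q2 := by
      intro h
      have h5 : G.Tw q2 q := h ▸ s3
      exact m4 (hT.uniq h9 _ _ _ h5 t2)
    have m8 : q' ≠ q2' := by
      intro h
      have h5 : G.Tw q2' q := h ▸ s3
      exact m3 (hT.uniq h9 _ _ _ h5 s2)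
    have hsub : ({q1, q1', q2, q2', q, q'} : Finset V) ⊆ K := by
      intro x hx
      simp only [mem_insert, mem_singleton] at hx
      rcases hx with rfl | rfl | rfl | rfl | rfl | rfl <;> assumption
    have hcard : ({q1, q1', q2, q2', q, q'} : Finset V).card = 6 := by
      rw [card_insert_of_notMem, card_insert_of_notMem, card_insert_of_notMem,
        card_insert_of_notMem, card_pair e3]
      · simp only [mem_insert, mem_singleton, not_or]
        exact ⟨Ne.symm m4, Ne.symm m8⟩
      · simp only [mem_insert, mem_singleton, not_or]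
        exact ⟨e2, Ne.symm m3, Ne.symm m7⟩
      · simp only [mem_insert, mem_singleton, not_or]
        exact ⟨hn12, hn12', Ne.symm m2, Ne.symm m6⟩
      · simp only [mem_insert, mem_singleton, not_or]
        exact ⟨e1, hne12, hne12', Ne.symm m1, Ne.symm m5⟩
    have heq := eq_of_subset_of_card_le hsub (by rw [hcard, hK.1])
    intro x hx
    rw [← heq] at hx
    simpa only [mem_insert, mem_singleton] using hx
  refine ⟨q, q', a, b, hq, hq', haK, hbK, Ne.symm hba, n3, n3', ?_, ?_⟩
  · intro w hw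
    obtain ⟨hwK, x, hx, hwx⟩ := mem_N76.1 hw
    rcases hq1n x hx with h | h | h | h | h | h
    · rw [h, n1, mem_insert, mem_insert, mem_erase] at hwx
      rcases hwx with h3 | h3 | h3
      · exact Or.inl h3
      · exact Or.inr (Or.inl h3)
      · exact absurd h3.2 hwK
    · rw [h, n1', mem_insert, mem_insert, mem_erase] at hwx
      rcases hwx with h3 | h3 | h3
      · exact Or.inl h3
      · exact Or.inr (Or.inl h3)
      · exact absurd h3.2 hwK
    · rw [h, n2, mem_insert, mem_insert, mem_erase] at hwx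
      rcases hwx with h3 | h3 | h3
      · exact Or.inr (Or.inr (Or.inl h3))
      · exact Or.inr (Or.inr (Or.inr (Or.inl h3)))
      · exact absurd h3.2 hwK
    · rw [h, n2', mem_insert, mem_insert, mem_erase] at hwx
      rcases hwx with h3 | h3 | h3
      · exact Or.inr (Or.inr (Or.inl h3))
      · exact Or.inr (Or.inr (Or.inr (Or.inl h3)))
      · exact absurd h3.2 hwK
    · rw [h, n3, mem_insert, mem_insert, mem_erase] at hwx
      rcases hwx with h3 | h3 | h3
      · exact Or.inr (Or.inr (Or.inr (Or.inr (Or.inl h3))))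
      · exact Or.inr (Or.inr (Or.inr (Or.inr (Or.inr h3))))
      · exact absurd h3.2 hwK
    · rw [h, n3', mem_insert, mem_insert, mem_erase] at hwx
      rcases hwx with h3 | h3 | h3
      · exact Or.inr (Or.inr (Or.inr (Or.inr (Or.inl h3))))
      · exact Or.inr (Or.inr (Or.inr (Or.inr (Or.inr h3))))
      · exact absurd h3.2 hwK
  · intro z hz w hw
    rcases hq1n z hz with h | h | h | h | h | h
    · rw [h, n1, mem_insert, mem_insert, mem_erase] at hw
      rcases hw with h3 | h3 | h3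
      · exact Or.inr (Or.inr (Or.inl h3))
      · exact Or.inr (Or.inr (Or.inr (Or.inl h3)))
      · exact Or.inl h3.2
    · rw [h, n1', mem_insert, mem_insert, mem_erase] at hw
      rcases hw with h3 | h3 | h3
      · exact Or.inr (Or.inr (Or.inl h3))
      · exact Or.inr (Or.inr (Or.inr (Or.inl h3)))
      · exact Or.inl h3.2
    · rw [h, n2, mem_insert, mem_insert, mem_erase] at hw
      rcases hw with h3 | h3 | h3
      · exact Or.inr (Or.inr (Or.inr (Or.inr (Or.inl h3))))
      · exact Or.inr (Or.inr (Or.inr (Or.inr (Or.inr h3))))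
      · exact Or.inl h3.2
    · rw [h, n2', mem_insert, mem_insert, mem_erase] at hw
      rcases hw with h3 | h3 | h3
      · exact Or.inr (Or.inr (Or.inr (Or.inr (Or.inl h3))))
      · exact Or.inr (Or.inr (Or.inr (Or.inr (Or.inr h3))))
      · exact Or.inl h3.2
    · exact Or.inr (Or.inl (Or.inl h))
    · exact Or.inr (Or.inl (Or.inr h))

/-- a `K6` has at most one port of this kind -/
theorem al_disjoint11 (hC : G.Crit) (h9 : 9 ≤ Fintype.card V) {K C : Finset V} (hK : G.IsK6 K)
    (hF : G.Frag C) (hKC : K ⊆ G.Co C) (hne : G.Co C ≠ K) {u1 v1 u2 v2 : V}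
    (h1 : G.AlP K C u1 v1) (h2 : G.AlP K C u2 v2) :
    ¬ (u1 ≠ u2 ∧ u1 ≠ v2 ∧ v1 ≠ u2 ∧ v1 ≠ v2) := by
  classical
  rintro ⟨d1, d2, d3, d4⟩
  obtain ⟨q1, hq1, hu1, hv1⟩ := h1.q
  obtain ⟨q2, hq2, hu2, hv2⟩ := h2.q
  obtain ⟨q, q', a, b, hq, hq', haK, hbK, hab, n3, n3', hN, hfull⟩ := k6_third11 hC h9 hK hq1 hq2
    hu1 hv1 h1.uK h1.vK h1.ne hu2 hv2 h2.uK h2.vK h2.ne ⟨d1, d2⟩
  set X : Finset V := C ∪ K ∪ {u1, v1, u2, v2} with hX
  have hXC : ∀ x, x ∈ C → x ∈ X := fun x hx => mem_union_left _ (mem_union_left _ hx)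
  have hXK : ∀ x, x ∈ K → x ∈ X := fun x hx => mem_union_left _ (mem_union_right _ hx)
  have hX4 : ∀ x, (x = u1 ∨ x = v1 ∨ x = u2 ∨ x = v2) → x ∈ X := by
    intro x hx
    refine mem_union_right _ ?_
    simpa only [mem_insert, mem_singleton] using hx
  have hNX : G.N X ⊆ (((((G.N C).erase u1).erase v1).erase u2).erase v2) ∪ {a, b} := by
    intro w hw
    obtain ⟨hwX, x, hx, hwx⟩ := mem_N76.1 hw
    have hwC : w ∉ C := fun h => hwX (hXC w h)
    have hwK : w ∉ K := fun h => hwX (hXK w h)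
    have hw4 : ¬ (w = u1 ∨ w = v1 ∨ w = u2 ∨ w = v2) := fun h => hwX (hX4 w h)
    push Not at hw4
    have key : w ∈ G.N C → w ∈ (((((G.N C).erase u1).erase v1).erase u2).erase v2) ∪ {a, b} := by
      intro h
      refine mem_union_left _ ?_
      simp only [mem_erase]
      exact ⟨hw4.2.2.2, hw4.2.2.1, hw4.2.1, hw4.1, h⟩
    rw [hX, mem_union, mem_union] at hx
    rcases hx with (hx | hx) | hx
    · exact key (mem_N76.2 ⟨hwC, x, hx, hwx⟩)
    · have h3 : w ∈ G.N K := mem_N76.2 ⟨hwK, x, hx, hwx⟩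
      rcases hN w h3 with h | h | h | h | h | h
      · exact absurd h hw4.1
      · exact absurd h hw4.2.1
      · exact absurd h hw4.2.2.1
      · exact absurd h hw4.2.2.2
      · refine mem_union_right _ ?_
        rw [mem_insert, mem_singleton]
        exact Or.inl h
      · refine mem_union_right _ ?_
        rw [mem_insert, mem_singleton]
        exact Or.inr h
    · simp only [mem_insert, mem_singleton] at hx
      have h3 : w ∈ K ∨ w ∈ C ∨ w ∈ G.N C := by
        rcases hx with rfl | rfl | rfl | rfl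
        · exact h1.hu w hwx
        · exact h1.hv w hwx
        · exact h2.hu w hwx
        · exact h2.hv w hwx
      rcases h3 with h | h | h
      · exact absurd h hwK
      · exact absurd h hwC
      · exact key h
  have hcard : (G.N X).card ≤ 4 := by
    refine (card_le_card hNX).trans ((card_union_le _ _).trans ?_)
    rw [card_pair hab, card_erase_of_mem, card_erase_of_mem, card_erase_of_mem,
      card_erase_of_mem h1.uN, hF.2.1]
    · exact mem_erase.2 ⟨Ne.symm h1.ne, h1.vN⟩
    · exact mem_erase.2 ⟨Ne.symm d3, mem_erase.2 ⟨Ne.symm d1, h2.uN⟩⟩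
    · exact mem_erase.2 ⟨Ne.symm h2.ne, mem_erase.2 ⟨Ne.symm d4, mem_erase.2 ⟨Ne.symm d2, h2.vN⟩⟩⟩
  have hall : ∀ x, x ∈ X ∨ x ∈ G.N X := by
    intro x
    by_contra hno
    push Not at hno
    have h6 := stN6_37 G X ⟨q1, hXK q1 hq1⟩ ⟨x, mem_Co76.2 hno⟩
    omega
  -- a vertex of `Co C` outside of `K`
  obtain ⟨t, htF, htK⟩ : ∃ t ∈ G.Co C, t ∉ K := by
    by_contra hno
    push Not at hno
    exact hne (Subset.antisymm hno hKC)
  have htC := mem_Co76.1 htF
  have ht4 : ∀ x, (x = u1 ∨ x = v1 ∨ x = u2 ∨ x = v2) → x ∈ G.N C := by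
    rintro x (rfl | rfl | rfl | rfl)
    · exact h1.uN
    · exact h1.vN
    · exact h2.uN
    · exact h2.vN
  have hF2 : ∀ x, x ∈ G.Co C → x ∉ K → x = a ∨ x = b := by
    intro x hx hxK
    have hxC := mem_Co76.1 hx
    rcases hall x with h | h
    · rw [hX, mem_union, mem_union] at h
      rcases h with (h | h) | h
      · exact absurd h hxC.1
      · exact absurd h hxK
      · simp only [mem_insert, mem_singleton] at h
        exact absurd (ht4 x h) hxC.2
    · have h3 := hNX h
      rw [mem_union] at h3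
      rcases h3 with h3 | h3
      · simp only [mem_erase] at h3
        exact absurd h3.2.2.2.2 hxC.2
      · rwa [mem_insert, mem_singleton] at h3
  -- the neighbours of `t`
  have hnt : G.nb t ⊆ insert q (insert q' (({a, b} : Finset V).erase t)) ∪
      (((((G.N C).erase u1).erase v1).erase u2).erase v2) := by
    intro w hw
    have hwt : t ∈ G.nb w := G.sym _ _ hw
    have hne' : w ≠ t := fun h => G.irr t (h ▸ hw)
    rw [mem_union]
    by_cases hwK : w ∈ K
    · left
      rcases hfull w hwK t hwt with h | h | h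
      · exact absurd h htK
      · rcases h with h | h
        · rw [h]
          exact mem_insert_self _ _
        · rw [h]
          exact mem_insert_of_mem (mem_insert_self _ _)
      · exact absurd (ht4 t h) htC.2
    by_cases hwF : w ∈ G.Co C
    · left
      refine mem_insert_of_mem (mem_insert_of_mem (mem_erase.2 ⟨hne', ?_⟩))
      rw [mem_insert, mem_singleton]
      exact hF2 w hwF hwK
    · right
      have hwC : w ∉ C := fun h => htC.2 (mem_N76.2 ⟨htC.1, w, h, hwt⟩)
      have hwN : w ∈ G.N C := by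
        by_contra h
        exact hwF (mem_Co76.2 ⟨hwC, h⟩)
      have hno : ∀ x, (∀ z ∈ G.nb x, z ∈ K ∨ z ∈ C ∨ z ∈ G.N C) → w ≠ x := by
        rintro x hx rfl
        rcases hx t hwt with h | h | h
        · exact htK h
        · exact htC.1 h
        · exact htC.2 h
      simp only [mem_erase]
      exact ⟨hno v2 h2.hv, hno u2 h2.hu, hno v1 h1.hv, hno u1 h1.hu, hwN⟩
  have h5 : (G.nb t).card ≤ 5 := by
    refine (card_le_card hnt).trans ((card_union_le _ _).trans ?_)
    have e1 : (((((G.N C).erase u1).erase v1).erase u2).erase v2).card = 2 := by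
      rw [card_erase_of_mem, card_erase_of_mem, card_erase_of_mem, card_erase_of_mem h1.uN, hF.2.1]
      · exact mem_erase.2 ⟨Ne.symm h1.ne, h1.vN⟩
      · exact mem_erase.2 ⟨Ne.symm d3, mem_erase.2 ⟨Ne.symm d1, h2.uN⟩⟩
      · exact mem_erase.2 ⟨Ne.symm h2.ne, mem_erase.2 ⟨Ne.symm d4,
          mem_erase.2 ⟨Ne.symm d2, h2.vN⟩⟩⟩
    have e2 : (({a, b} : Finset V).erase t).card = 1 := by
      rw [card_erase_of_mem, card_pair hab]
      rw [mem_insert, mem_singleton]
      exact hF2 t htF htK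
    have e3 := card_insert_le q (insert q' (({a, b} : Finset V).erase t))
    have e4 := card_insert_le q' (({a, b} : Finset V).erase t)
    omega
  have := G.deg t
  omega

end CG

end Pool.Agent.Lib.MP_e95c01_co.N
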