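import Pool.Agent.Lib.MP_e95c01_co.Y.AlC11

/-!
# `λ = 10/3`: two ports of a `K6` that see only `C`, `N C` and `N K`: the rest of the graph is small
-/

namespace Pool.Agent.Lib.MP_e95c01_co.N

open Finset

variable {V : Type} [Fintype V] [DecidableEq V]

namespace CG

variable {G : CG V}

/-- as `AlP`, but the other neighbours may also be ports of `K` -/
structure AlQ (G : CG V) (K C : Finset V) (u v : V) : Prop where
  uN : u ∈ G.N C
  vN : v ∈ G.N C
  uK : u ∉ K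
  vK : v ∉ K
  ne : u ≠ v
  q : ∃ q ∈ K, u ∈ G.nb q ∧ v ∈ G.nb q
  hu : ∀ w ∈ G.nb u, w ∈ K ∨ w ∈ C ∨ w ∈ G.N C ∨ w ∈ G.N K
  hv : ∀ w ∈ G.nb v, w ∈ K ∨ w ∈ C ∨ w ∈ G.N C ∨ w ∈ G.N K

/-- two disjoint ports of this kind: `Co C` is `K` and at most the two third ports -/
theorem al2_cover11 (hC : G.Crit) (h9 : 9 ≤ Fintype.card V) {K C : Finset V} (hK : G.IsK6 K)
    (hF : G.Frag C) {u1 v1 u2 v2 : V}
    (h1 : G.AlQ K C u1 v1) (h2 : G.AlQ K C u2 v2) (hd : u1 ≠ u2 ∧ u1 ≠ v2 ∧ v1 ≠ u2 ∧ v1 ≠ v2) :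
    ∃ q q' a b, q ∈ K ∧ q' ∈ K ∧ a ∉ K ∧ b ∉ K ∧ a ≠ b ∧
      G.nb q = insert a (insert b (K.erase q)) ∧ G.nb q' = insert a (insert b (K.erase q')) ∧
      (∀ w ∈ G.N K, w = u1 ∨ w = v1 ∨ w = u2 ∨ w = v2 ∨ w = a ∨ w = b) ∧
      (∀ z ∈ K, ∀ w ∈ G.nb z, w ∈ K ∨ (z = q ∨ z = q') ∨ (w = u1 ∨ w = v1 ∨ w = u2 ∨ w = v2)) ∧
      (∀ x ∈ G.Co C, x ∈ K ∨ x = a ∨ x = b) := by
  classical
  obtain ⟨d1, d2, d3, d4⟩ := hd
  obtain ⟨q1, hq1, hu1, hv1⟩ := h1.q
  obtain ⟨q2, hq2, hu2, hv2⟩ := h2.q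
  obtain ⟨q, q', a, b, hq, hq', haK, hbK, hab, n3, n3', hN, hfull⟩ := k6_third11 hC h9 hK hq1 hq2
    hu1 hv1 h1.uK h1.vK h1.ne hu2 hv2 h2.uK h2.vK h2.ne ⟨d1, d2⟩
  refine ⟨q, q', a, b, hq, hq', haK, hbK, hab, n3, n3', hN, hfull, ?_⟩
  set X : Finset V := C ∪ K ∪ {u1, v1, u2, v2} with hX
  have hXC : ∀ x, x ∈ C → x ∈ X := fun x hx => mem_union_left _ (mem_union_left _ hx)
  have hXK : ∀ x, x ∈ K → x ∈ X := fun x hx => mem_union_left _ (mem_union_right _ hx)
  have hX4 : ∀ x, (x = u1 ∨ x = v1 ∨ x = u2 ∨ x = v2) → x ∈ X := by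
    intro x hx
    refine mem_union_right _ ?_
    simpa only [mem_insert, mem_singleton] using hx
  have hNX : G.N X ⊆ (((((G.N C).erase u1).erase v1).erase u2).erase v2) ∪ {a, b} := by
    intro w hw
    obtain ⟨hwX, x, hx, hwx⟩ := mem_N76.1 hw
    have hwC : w ∉ C := fun h => hwX (hXC w h)
    have hwK : w ∉ K := fun h => hwX (hXK w h)
    have hw4 : ¬ (w = u1 ∨ w = v1 ∨ w = u2 ∨ w = v2) := fun h => hwX (hX4 w h)
    push Not at hw4
    have key : w ∈ G.N C → w ∈ (((((G.N C).erase u1).erase v1).erase u2).erase v2) ∪ {a, b} := by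
      intro h
      refine mem_union_left _ ?_
      simp only [mem_erase]
      exact ⟨hw4.2.2.2, hw4.2.2.1, hw4.2.1, hw4.1, h⟩
    have keyK : w ∈ G.N K → w ∈ (((((G.N C).erase u1).erase v1).erase u2).erase v2) ∪ {a, b} := by
      intro h3
      rcases hN w h3 with h | h | h | h | h | h
      · exact absurd h hw4.1
      · exact absurd h hw4.2.1
      · exact absurd h hw4.2.2.1
      · exact absurd h hw4.2.2.2
      · refine mem_union_right _ ?_
        rw [mem_insert, mem_singleton]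
        exact Or.inl h
      · refine mem_union_right _ ?_
        rw [mem_insert, mem_singleton]
        exact Or.inr h
    rw [hX, mem_union, mem_union] at hx
    rcases hx with (hx | hx) | hx
    · exact key (mem_N76.2 ⟨hwC, x, hx, hwx⟩)
    · exact keyK (mem_N76.2 ⟨hwK, x, hx, hwx⟩)
    · simp only [mem_insert, mem_singleton] at hx
      have h3 : w ∈ K ∨ w ∈ C ∨ w ∈ G.N C ∨ w ∈ G.N K := by
        rcases hx with rfl | rfl | rfl | rfl
        · exact h1.hu w hwx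
        · exact h1.hv w hwx
        · exact h2.hu w hwx
        · exact h2.hv w hwx
      rcases h3 with h | h | h | h
      · exact absurd h hwK
      · exact absurd h hwC
      · exact key h
      · exact keyK h
  have hcard : (G.N X).card ≤ 4 := by
    refine (card_le_card hNX).trans ((card_union_le _ _).trans ?_)
    rw [card_pair hab, card_erase_of_mem, card_erase_of_mem, card_erase_of_mem,
      card_erase_of_mem h1.uN, hF.2.1]
    · exact mem_erase.2 ⟨Ne.symm h1.ne, h1.vN⟩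
    · exact mem_erase.2 ⟨Ne.symm d3, mem_erase.2 ⟨Ne.symm d1, h2.uN⟩⟩
    · exact mem_erase.2 ⟨Ne.symm h2.ne, mem_erase.2 ⟨Ne.symm d4, mem_erase.2 ⟨Ne.symm d2, h2.vN⟩⟩⟩
  have hall : ∀ x, x ∈ X ∨ x ∈ G.N X := by
    intro x
    by_contra hno
    push Not at hno
    have h6 := stN6_37 G X ⟨q1, hXK q1 hq1⟩ ⟨x, mem_Co76.2 hno⟩
    omega
  have ht4 : ∀ x, (x = u1 ∨ x = v1 ∨ x = u2 ∨ x = v2) → x ∈ G.N C := by
    rintro x (rfl | rfl | rfl | rfl)
    · exact h1.uN
    · exact h1.vN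
    · exact h2.uN
    · exact h2.vN
  intro x hx
  have hxC := mem_Co76.1 hx
  rcases hall x with h | h
  · rw [hX, mem_union, mem_union] at h
    rcases h with (h | h) | h
    · exact absurd h hxC.1
    · exact Or.inl h
    · simp only [mem_insert, mem_singleton] at h
      exact absurd (ht4 x h) hxC.2
  · have h3 := hNX h
    rw [mem_union] at h3
    rcases h3 with h3 | h3
    · simp only [mem_erase] at h3
      exact absurd h3.2.2.2.2 hxC.2
    · rw [mem_insert, mem_singleton] at h3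
      exact Or.inr h3

/-- `Co C` has at most 8 vertices then -/
theorem al2_card11 (hC : G.Crit) (h9 : 9 ≤ Fintype.card V) {K C : Finset V} (hK : G.IsK6 K)
    (hF : G.Frag C) {u1 v1 u2 v2 : V}
    (h1 : G.AlQ K C u1 v1) (h2 : G.AlQ K C u2 v2)
    (hd : u1 ≠ u2 ∧ u1 ≠ v2 ∧ v1 ≠ u2 ∧ v1 ≠ v2) : (G.Co C).card ≤ 8 := by
  classical
  obtain ⟨q, q', a, b, -, -, -, -, -, -, -, -, -, h⟩ := al2_cover11 hC h9 hK hF h1 h2 hd
  have hsub : G.Co C ⊆ insert a (insert b K) := by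
    intro x hx
    rcases h x hx with h | h | h
    · exact mem_insert_of_mem (mem_insert_of_mem h)
    · rw [h]
      exact mem_insert_self _ _
    · rw [h]
      exact mem_insert_of_mem (mem_insert_self _ _)
  refine (card_le_card hsub).trans ?_
  have e1 := card_insert_le a (insert b K)
  have e2 := card_insert_le b K
  rw [hK.1] at e2
  omega

end CG

end Pool.Agent.Lib.MP_e95c01_co.N
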