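import Pool.Agent.Lib.MP_e95c01_co.X.H5_28

set_option autoImplicit false

/-!
# H5 strict: leaves with four hubs, every low of `N F` has two neighbours in `Co F`
-/

namespace Pool.Agent.Lib.MP_e95c01_co.N

open Finset

variable {V : Type} [Fintype V] [DecidableEq V]

namespace CG

variable {G : CG V} {F : Finset V}

namespace H5c

/-- two neighbours in `Co F` -/
theorem fr75 (hO : ∀ w ∈ G.N F, G.Low w → 2 ≤ G.d w (G.Co F)) {w : V}
    (hw : w ∈ G.N F) (hl : G.Low w) : (G.pT F w).card + G.d w F ≤ 4 := by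
  have h0 := hO w hw hl
  have h6 : (G.nb w).card = 6 := hl
  have h7 : (G.nb w ∩ G.Co F) ∪ ((G.nb w ∩ F) ∪ (G.nb w ∩ G.N F)) ⊆ G.nb w := by
    intro x hx
    simp only [mem_union, mem_inter] at hx
    tauto
  have h8 := card_le_card h7
  have d1 : Disjoint (G.nb w ∩ F) (G.nb w ∩ G.N F) := by
    rw [disjoint_left]
    intro x hx hx'
    exact (mem_N76.1 (mem_inter.1 hx').2).1 (mem_inter.1 hx).2
  have d2 : Disjoint (G.nb w ∩ G.Co F) ((G.nb w ∩ F) ∪ (G.nb w ∩ G.N F)) := by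
    rw [disjoint_left]
    intro x hx hx'
    have h9 := mem_Co76.1 (mem_inter.1 hx).2
    rcases mem_union.1 hx' with h10 | h10
    · exact h9.1 (mem_inter.1 h10).2
    · exact h9.2 (mem_inter.1 h10).2
  rw [card_union_of_disjoint d2, card_union_of_disjoint d1] at h8
  have h9 : (G.nb w ∩ F).card = G.d w F := rfl
  have h10 : (G.nb w ∩ G.N F).card = (G.pT F w).card := rfl
  have h11 : (G.nb w ∩ G.Co F).card = G.d w (G.Co F) := rfl
  omega

/-- three lows -/
theorem three75 (K : H5c G F) (hO : ∀ w ∈ G.N F, G.Low w → 2 ≤ G.d w (G.Co F)) {h : V}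
    (hh : h ∈ F) : 3 ≤ (D G F h).card := by
  have h1 := K.cntF hh
  have h2 : ∑ w ∈ D G F h, (((G.pT F w).card : ℤ) + (G.d w F : ℤ) - 1) ≤ ∑ _w ∈ D G F h, 3 := by
    refine sum_le_sum fun w hw => ?_
    rw [mem_D] at hw
    have h3 := fr75 hO hw.2.1 hw.2.2
    have h4 : ((G.pT F w).card : ℤ) + (G.d w F : ℤ) ≤ 4 := by exact_mod_cast h3
    linarith
  rw [sum_const, nsmul_eq_mul] at h2
  have h3 : (7 : ℤ) ≤ ((D G F h).card : ℤ) * 3 := h1.trans h2
  omega

/-- the share of `h` -/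
theorem sh75 (K : H5c G F) {h : V} :
    6 * (((D G F h).card : ℤ) + ∑ w ∈ D G F h, ((G.pT F w).card : ℤ)) ≤ Wh G F h ∧
    (6 * (((D G F h).card : ℤ) + ∑ w ∈ D G F h, ((G.pT F w).card : ℤ)) = Wh G F h →
      ∀ w ∈ D G F h, 6 * (1 + ((G.pT F w).card : ℤ)) = om G F w) := by
  have e1 : ((D G F h).card : ℤ) = ∑ _w ∈ D G F h, 1 := by
    rw [sum_const, nsmul_eq_mul, mul_one]
  have e2 : ∀ w ∈ D G F h, 6 * (1 + ((G.pT F w).card : ℤ)) ≤ om G F w := by
    intro w hw
    rw [mem_D] at hw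
    exact K.om6 hw.2.1 hw.2.2
  rw [e1, ← sum_add_distrib, mul_sum]
  unfold Wh
  exact ⟨sum_le_sum e2, fun h1 => (sum_eq_sum_iff_of_le e2).1 h1⟩

/-- the two kinds of lows -/
theorem kind75 (K : H5c G F) (hO : ∀ w ∈ G.N F, G.Low w → 2 ≤ G.d w (G.Co F)) {w : V}
    (hw : w ∈ G.N F) (hl : G.Low w) (ho : 6 * (1 + ((G.pT F w).card : ℤ)) = om G F w) :
    G.d w F = 2 ∨ (G.d w F = 3 ∧ ∃ v, G.Low v ∧ G.pT F w = {v}) := by
  have h1 := K.fr hw hl
  have h2 := fr75 hO hw hl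
  have h3 : G.d w F = 2 ∨ G.d w F = 3 ∨ G.d w F = 4 := by omega
  rcases h3 with h3 | h3 | h3
  · exact Or.inl h3
  · right
    refine ⟨h3, ?_⟩
    rcases K.sgv hw hl with h4 | ⟨-, -, h4⟩
    · exfalso
      unfold om Xv at ho
      rw [if_neg (by omega), if_pos h3, h3, h4] at ho
      push_cast at ho
      omega
    · rcases h4 with h4 | ⟨-, v, q, q', e1, e2, -⟩
      · exact absurd h4.1 (by omega)
      · exact ⟨v, e1, e2⟩
  · exfalso
    have h4 : (G.pT F w).card = 0 := by omega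
    have h5 := K.sg0 hw hl (by omega)
    unfold om Xv at ho
    rw [if_neg (by omega), if_neg (by omega), h3, h4, h5] at ho
    norm_num at ho

/-- the neighbours in `F` of the two special lows -/
theorem nbF75 (K : H5c G F) {b b' : V} (hb : b ∈ G.N F) (hbl : G.Low b) (hbd : G.d b F = 3)
    (hv : ∃ v, G.Low v ∧ G.pT F b = {v})
    (hB : ∀ w ∈ G.N F, G.Low w → w ≠ b' → w ≠ b → G.d w F = 2)
    (hbd' : G.d b' F = 3) (hne : b ≠ b') : G.nb b ∩ F ⊆ G.nb b' ∩ F := by
  obtain ⟨v, hvl, hpv⟩ := hv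
  have hvb : v ∈ G.nb b ∧ v ∈ G.N F := by
    have : v ∈ G.pT F b := by rw [hpv]; simp
    exact mem_inter.1 this
  have hvne : v ≠ b := by
    rintro rfl
    exact G.irr _ hvb.1
  have hcov : ∀ h ∈ F, h ∈ G.nb b → h ∈ G.nb v ∨ (h ∉ G.nb v ∧ G.LL b' v h b) := by
    intro h hh hhb
    by_cases hhv : h ∈ G.nb v
    · exact Or.inl hhv
    · right
      refine ⟨hhv, ?_⟩
      rcases K.covT hh (mem_Tz28.2 ⟨G.sym _ _ hhb, hb⟩) with h2 | h2 | h2
      · exfalso
        obtain ⟨w, hw, hwb, hn⟩ := h2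
        have hw' := mem_D.1 hw
        have h3 : w ∈ G.pT F b := mem_inter.2 ⟨G.sym _ _ hn, hw'.2.1⟩
        rw [hpv, mem_singleton] at h3
        rw [h3] at hw'
        exact hhv (G.sym _ _ hw'.1)
      · exfalso
        obtain ⟨a, ha, c, hc, hcb, hHL⟩ := h2
        have h3 : a ∈ G.pT F b := mem_inter.2 ⟨G.sym _ _ (HL_t76 hHL), (mem_Tz28.1 ha).2⟩
        rw [hpv, mem_singleton] at h3
        rw [h3] at hHL
        exact HL_not_low76 hHL hvl
      · obtain ⟨a, ha, c, hc, hab, hLL⟩ := h2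
        have h3 : c ∈ G.pT F b := mem_inter.2 ⟨G.sym _ _ (LL_u76 hLL), (mem_sdiff.1 hc).1⟩
        rw [hpv, mem_singleton] at h3
        rw [h3] at hLL
        have ha' := mem_D.1 ha
        have h4 : insert h (G.nb v ∩ F) ⊆ G.nb a ∩ F := by
          intro x hx
          rcases mem_insert.1 hx with rfl | hx
          · exact mem_inter.2 ⟨LL_t76 hLL, hh⟩
          · rw [mem_inter] at hx
            have hxb : x ≠ b := by
              rintro rfl
              exact (mem_N76.1 hb).1 hx.2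
            rcases LL_from76 hLL hx.1 hxb with h5 | h5
            · exact absurd (h5 ▸ hx.2) (mem_N76.1 ha'.2.1).1
            · exact mem_inter.2 ⟨h5, hx.2⟩
        have h5 := card_le_card h4
        rw [card_insert_of_notMem (by
          rw [mem_inter, not_and]
          intro h6
          exact absurd h6 hhv)] at h5
        have h6 := (K.fr hvb.2 hvl).1
        have h7 : (G.nb v ∩ F).card = G.d v F := rfl
        have h8 : (G.nb a ∩ F).card = G.d a F := rfl
        have h9 : a = b' := by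
          by_contra h10
          have := hB a ha'.2.1 ha'.2.2 h10 hab
          omega
        rw [h9] at hLL
        exact hLL
  -- `v` is `b'` or has only two neighbours in `F`
  by_cases hvb' : v = b'
  · intro x hx
    rw [mem_inter] at hx
    rcases hcov x hx.2 hx.1 with h1 | ⟨-, h1⟩
    · rw [hvb'] at h1
      exact mem_inter.2 ⟨h1, hx.2⟩
    · rw [hvb'] at h1
      exact absurd (LL_ab76 h1) (G.irr _)
  · have hdv := hB v hvb.2 hvl hvb' hvne
    obtain ⟨h, hhF, hhb, hhv⟩ : ∃ h ∈ F, h ∈ G.nb b ∧ h ∉ G.nb v := by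
      by_contra hcon
      have h1 : G.nb b ∩ F ⊆ G.nb v ∩ F := by
        intro x hx
        rw [mem_inter] at hx ⊢
        refine ⟨?_, hx.2⟩
        by_contra h2
        exact hcon ⟨x, hx.2, hx.1, h2⟩
      have h2 := card_le_card h1
      have h3 : (G.nb v ∩ F).card = G.d v F := rfl
      have h4 : (G.nb b ∩ F).card = G.d b F := rfl
      omega
    have hLL : G.LL b' v h b := by
      rcases hcov h hhF hhb with h1 | h1
      · exact absurd h1 hhv
      · exact h1.2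
    intro x hx
    rw [mem_inter] at hx
    refine mem_inter.2 ⟨?_, hx.2⟩
    rcases hcov x hx.2 hx.1 with h1 | ⟨-, h1⟩
    · have hxb : x ≠ b := by
        rintro rfl
        exact (mem_N76.1 hb).1 hx.2
      rcases LL_from76 hLL h1 hxb with h5 | h5
      · exfalso
        have h6 : (G.nb b' ∩ F).card = 3 := hbd'
        have h7 := K.hub x hx.2
        exact h7.1 (h5 ▸ hLL.1)
      · exact h5
    · exact LL_t76 h1

/-- the bound -/
theorem mains75 (K : H5c G F) (hO : ∀ w ∈ G.N F, G.Low w → 2 ≤ G.d w (G.Co F)) :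
    29 ≤ ∑ w ∈ G.N F, G.gam5 F w := by
  classical
  by_contra hcon
  have h1 := K.sumX
  have h2 := K.sumW
  have hN : ∑ w ∈ (G.N F).filter (fun w => G.Low w), Xv G F w ≤ 14 := by omega
  have hW : ∑ h ∈ F, Wh G F h ≤ 168 := by
    rw [h2]
    linarith
  have hlow : ∀ h ∈ F, 42 ≤ Wh G F h := by
    intro h hh
    have a1 := (K.sh75 (h := h)).1
    have a2 : (3 : ℤ) ≤ ((D G F h).card : ℤ) := by exact_mod_cast K.three75 hO hh
    have a3 : (4 : ℤ) ≤ ((G.Tz F h).card : ℤ) := by exact_mod_cast K.tz4 hh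
    have a4 := K.cntT hh
    linarith
  have h168 : ∑ _h ∈ F, (42 : ℤ) = 168 := by
    rw [sum_const, K.c]
    norm_num
  have heq : ∀ h ∈ F, (42 : ℤ) = Wh G F h := by
    apply (sum_eq_sum_iff_of_le hlow).1
    have := sum_le_sum hlow
    linarith
  have hD3 : ∀ h ∈ F, (D G F h).card = 3 ∧ ∑ w ∈ D G F h, ((G.pT F w).card : ℤ) = 4 ∧
      ∀ w ∈ D G F h, 6 * (1 + ((G.pT F w).card : ℤ)) = om G F w := by
    intro h hh
    have a1 := (K.sh75 (h := h)).1
    have a2 : (3 : ℤ) ≤ ((D G F h).card : ℤ) := by exact_mod_cast K.three75 hO hh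
    have a3 : (4 : ℤ) ≤ ((G.Tz F h).card : ℤ) := by exact_mod_cast K.tz4 hh
    have a4 := K.cntT hh
    have a5 := heq h hh
    have a6 : ((D G F h).card : ℤ) = 3 := by linarith
    have a7 : ∑ w ∈ D G F h, ((G.pT F w).card : ℤ) = 4 := by linarith
    refine ⟨by exact_mod_cast a6, a7, (K.sh75 (h := h)).2 ?_⟩
    rw [a6, a7, ← a5]
    norm_num
  set L : Finset V := (G.N F).filter (fun w => G.Low w) with hL
  have mL : ∀ {w}, w ∈ L ↔ w ∈ G.N F ∧ G.Low w := by
    intro w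
    rw [hL, mem_filter]
  have hkind : ∀ w ∈ L, G.d w F = 2 ∨ (G.d w F = 3 ∧ ∃ v, G.Low v ∧ G.pT F w = {v}) := by
    intro w hw
    rw [mL] at hw
    have b1 := (K.fr hw.1 hw.2).1
    have b2 : (G.nb w ∩ F).Nonempty := by
      rw [← card_pos]
      exact lt_of_lt_of_le (by norm_num) b1
    obtain ⟨h, hh⟩ := b2
    rw [mem_inter] at hh
    exact K.kind75 hO hw.1 hw.2
      ((hD3 h hh.2).2.2 w (mem_D.2 ⟨G.sym _ _ hh.1, hw.1, hw.2⟩))
  -- the sums
  have S1 : ∑ w ∈ L, (G.d w F : ℤ) = 12 := by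
    have a1 := swapD G F (fun _ => 1)
    have a2 : ∀ z ∈ F, ∑ _w ∈ D G F z, (1 : ℤ) = 3 := by
      intro z hz
      rw [sum_const, (hD3 z hz).1]
      norm_num
    rw [sum_congr rfl a2, sum_const, K.c] at a1
    simp only [mul_one] at a1
    rw [hL, ← a1]
    norm_num
  have S2 : ∑ w ∈ L, (G.d w F : ℤ) * ((G.pT F w).card : ℤ) = 16 := by
    have a1 := swapD G F (fun w => ((G.pT F w).card : ℤ))
    have a2 : ∀ z ∈ F, ∑ w ∈ D G F z, ((G.pT F w).card : ℤ) = 4 := fun z hz => (hD3 z hz).2.1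
    rw [sum_congr rfl a2, sum_const, K.c] at a1
    rw [hL, ← a1]
    norm_num
  set A : Finset V := L.filter (fun w => G.d w F = 2) with hA
  set B : Finset V := L.filter (fun w => ¬ G.d w F = 2) with hB
  have mA : ∀ {w}, w ∈ A ↔ w ∈ L ∧ G.d w F = 2 := by
    intro w
    rw [hA, mem_filter]
  have mB : ∀ {w}, w ∈ B ↔ w ∈ L ∧ ¬ G.d w F = 2 := by
    intro w
    rw [hB, mem_filter]
  have kB : ∀ w ∈ B, G.d w F = 3 ∧ ∃ v, G.Low v ∧ G.pT F w = {v} := by
    intro w hw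
    rw [mB] at hw
    exact (hkind w hw.1).resolve_left hw.2
  have tB : ∀ w ∈ B, (G.pT F w).card = 1 := by
    intro w hw
    obtain ⟨-, v, -, e⟩ := kB w hw
    rw [e, card_singleton]
  have T1 : 2 * (A.card : ℤ) + 3 * (B.card : ℤ) = 12 := by
    rw [← sum_filter_add_sum_filter_not L (fun w => G.d w F = 2)] at S1
    have a1 : ∑ w ∈ A, (G.d w F : ℤ) = ∑ _w ∈ A, (2 : ℤ) :=
      sum_congr rfl fun w hw => by rw [(mA.1 hw).2]; rfl
    have a2 : ∑ w ∈ B, (G.d w F : ℤ) = ∑ _w ∈ B, (3 : ℤ) :=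
      sum_congr rfl fun w hw => by rw [(kB w hw).1]; rfl
    rw [← hA, ← hB, a1, a2, sum_const, sum_const, nsmul_eq_mul, nsmul_eq_mul] at S1
    linarith
  have T2 : 2 * ∑ w ∈ A, ((G.pT F w).card : ℤ) + 3 * (B.card : ℤ) = 16 := by
    rw [← sum_filter_add_sum_filter_not L (fun w => G.d w F = 2)] at S2
    have a1 : ∑ w ∈ A, (G.d w F : ℤ) * ((G.pT F w).card : ℤ) =
        2 * ∑ w ∈ A, ((G.pT F w).card : ℤ) := by
      rw [mul_sum]
      exact sum_congr rfl fun w hw => by rw [(mA.1 hw).2]; rfl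
    have a2 : ∑ w ∈ B, (G.d w F : ℤ) * ((G.pT F w).card : ℤ) = ∑ _w ∈ B, (3 : ℤ) :=
      sum_congr rfl fun w hw => by rw [(kB w hw).1, tB w hw]; norm_num
    rw [← hA, ← hB, a1, a2, sum_const, nsmul_eq_mul] at S2
    linarith
  have T3 : A.card + B.card = L.card := card_filter_add_card_filter_not _
  -- a vertex of `N F` which is not low
  have hFne : F.Nonempty := by
    rw [← card_pos, K.c]
    norm_num
  obtain ⟨h0, hh0⟩ := hFne
  have T4 : L.card ≤ 5 := by
    by_contra hc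
    have a1 : L ⊆ G.N F := filter_subset _ _
    have a2 : L = G.N F := by
      apply eq_of_subset_of_card_le a1
      rw [K.c6]
      omega
    have a3 : G.Tz F h0 ⊆ D G F h0 := by
      intro w hw
      have a4 := mem_Tz28.1 hw
      have a5 : w ∈ L := by rw [a2]; exact a4.2
      exact mem_D.2 ⟨a4.1, a4.2, (mL.1 a5).2⟩
    have a4 := card_le_card a3
    have a5 := K.tz4 hh0
    have a6 := (hD3 h0 hh0).1
    omega
  have hBA : (B.card = 2 ∧ A.card = 3) ∨ A.card = 0 := by omega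
  rcases hBA with ⟨hB2, hA3⟩ | hA0
  swap
  · have a1 : A = ∅ := card_eq_zero.1 hA0
    rw [a1] at T2
    simp only [sum_empty] at T2
    rw [hA0] at T1
    push_cast at T1
    omega
  obtain ⟨b, b', hne, hBB⟩ := card_eq_two.1 hB2
  have mb : b ∈ B := by rw [hBB]; simp
  have mb' : b' ∈ B := by rw [hBB]; simp
  have hb := mL.1 (mB.1 mb).1
  have hb' := mL.1 (mB.1 mb').1
  have kb := kB b mb
  have kb' := kB b' mb'
  have hsub : G.nb b ∩ F ⊆ G.nb b' ∩ F := by
    refine K.nbF75 hb.1 hb.2 kb.1 kb.2 ?_ kb'.1 hne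
    intro w hw hwl h3 h4
    by_contra h5
    have h6 : w ∈ B := mB.2 ⟨mL.2 ⟨hw, hwl⟩, h5⟩
    rw [hBB, mem_insert, mem_singleton] at h6
    rcases h6 with h6 | h6
    · exact h4 h6
    · exact h3 h6
  obtain ⟨x, hx, hxb'⟩ : ∃ x ∈ F, x ∉ G.nb b' := by
    by_contra hcon2
    have h5 : F ⊆ G.nb b' := by
      intro z hz
      by_contra h6
      exact hcon2 ⟨z, hz, h6⟩
    have h6 : (G.nb b' ∩ F).card = 3 := kb'.1
    rw [inter_eq_right.2 h5, K.c] at h6
    omega
  have hxb : x ∉ G.nb b := fun h5 => hxb' (mem_inter.1 (hsub (mem_inter.2 ⟨h5, hx⟩))).1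
  have hDx : D G F x ⊆ A := by
    intro w hw
    have a1 := mem_D.1 hw
    have a2 : w ∈ L := mL.2 a1.2
    refine mA.2 ⟨a2, ?_⟩
    by_contra a3
    have a4 : w ∈ B := mB.2 ⟨a2, a3⟩
    rw [hBB, mem_insert, mem_singleton] at a4
    rcases a4 with a4 | a4
    · exact hxb (G.sym _ _ (a4 ▸ a1.1))
    · exact hxb' (G.sym _ _ (a4 ▸ a1.1))
  have hDA : D G F x = A := by
    apply eq_of_subset_of_card_le hDx
    rw [hA3, (hD3 x hx).1]
  have a1 := (hD3 x hx).2.1
  rw [hDA] at a1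
  rw [a1, hB2] at T2
  norm_num at T2

end H5c

/-- H5 strict -/
theorem st6HHHHs_75 (G : CG V) (hBas : G.StLBas) (hB : G.StLB) (hCnt : G.StLCnt) :
    ∀ F, G.L4 F → (∀ z ∈ F, G.Hub z) →
      (∀ w ∈ G.N F, G.Low w → 2 ≤ G.d w (G.Co F)) → 29 ≤ ∑ w ∈ G.N F, G.gam5 F w := by
  intro F hF hub hO
  exact H5c.mains75 (K := ⟨hBas, hB, hCnt, hF.1, hF.2, hub⟩) hO

end CG

end Pool.Agent.Lib.MP_e95c01_co.N
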