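import Pool.Agent.Lib.MP_e95c01_co.X.StmtsH76
import Pool.Agent.Lib.MP_e95c01_co.T.F3_33
import Pool.Agent.Lib.MP_e95c01_co.T.F4_42
import Pool.Agent.Lib.MP_e95c01_co.T.F5_30

/-!
# `λ = 3`, fragments with four vertices: two hubs and a pair of twins, sharp form

The proof of `X/H6_33` with the extra hypothesis that every low vertex of `N F` has two neighbours
in `Co F`.
-/

namespace Pool.Agent.Lib.MP_e95c01_co.N

open Finset

variable {V : Type} [Fintype V] [DecidableEq V]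

namespace CG

namespace H6s37

variable {G : CG V} {F : Finset V} {h h' v w : V}

theorem mem_pT {F : Finset V} {x y : V} : x ∈ G.pT F y ↔ x ∈ G.nb y ∧ x ∈ G.N F := mem_inter

/-- covers without crossing -/
def Cv (G : CG V) (F : Finset V) (x y : V) : Prop :=
  (∃ u ∈ F ∪ G.N F, G.Low u ∧ x ∈ G.nb u ∧ y ∈ G.nb u) ∨
  (∃ a ∈ F ∪ G.N F, ∃ b ∈ F ∪ G.N F, G.Tw a b ∧ x ∈ G.nb a ∧ x ∈ G.nb b ∧ y ∈ G.nb a ∧
    y ∈ G.nb b) ∨
  (∃ a b, G.HL a b y ∧ x ∈ G.nb b ∧ x ∈ G.nb a ∧ ((a ∈ F ∧ b ∈ F) ∨ (a ∈ G.N F ∧ b ∈ G.N F))) ∨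
  (∃ a b, G.HL a b x ∧ y ∈ G.nb b ∧ y ∈ G.nb a ∧ ((a ∈ F ∧ b ∈ F) ∨ (a ∈ G.N F ∧ b ∈ G.N F))) ∨
  (∃ a b, G.LL a b x y ∧ ((a ∈ F ∧ b ∈ F) ∨ (a ∈ G.N F ∧ b ∈ G.N F)))

/-- the facts that are used -/
structure Hy (G : CG V) (F : Finset V) : Prop where
  sat : G.Sat
  n9 : 9 ≤ Fintype.card V
  fr : G.Frag F
  c4 : F.card = 4
  cov : ∀ x ∈ F, ∀ y ∈ G.nb x, Cv G F x y
  f2 : ∀ y ∈ G.N F, 2 ≤ G.d y F
  fz : ∀ Z : Finset V, Z.Nonempty → Z ⊆ G.N F → (F \ G.N Z).Nonempty →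
    Z.card ≤ (G.N Z ∩ F).card ∧ ((G.N Z ∩ F).card = Z.card → G.Frag (F \ G.N Z))
  hub : ∀ y ∈ G.N F, G.Hub y → G.gam5 F y = 0
  low2 : ∀ y ∈ G.N F, G.Low y → G.d y F = 2 → (G.pT F y).card ≤ 3 ∧
    (¬ G.PairSet (G.pT F y) → 2 + 2 * ((G.pT F y).card : ℤ) ≤ G.gam5 F y)
  low3 : ∀ y ∈ G.N F, G.Low y → G.d y F = 3 → (G.pT F y).card ≤ 2 ∧
    6 ≤ G.gam5 F y ∧ ((G.pT F y).card ≠ 1 → 6 + 2 * ((G.pT F y).card : ℤ) ≤ G.gam5 F y)
  low4 : ∀ y ∈ G.N F, G.Low y → G.d y F = 4 → (G.pT F y).card ≤ 1 ∧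
    10 ≤ G.gam5 F y ∧ (∀ u ∈ G.pT F y, G.Low u → 12 ≤ G.gam5 F y)
  tw : ∀ y ∈ G.N F, G.IsTw y → G.d y F + (G.pT F y).card ≤ 5
  o : ∀ y ∈ G.N F, G.Low y → G.d y F + (G.pT F y).card ≤ 4

/-- two hubs and a pair -/
structure Cx (G : CG V) (F : Finset V) (h h' v w : V) : Prop where
  hy : Hy G F
  hF : h ∈ F
  hF' : h' ∈ F
  vF : v ∈ F
  wF : w ∈ F
  all : ∀ x ∈ F, x = h ∨ x = h' ∨ x = v ∨ x = w
  hh : G.Hub h
  hh' : G.Hub h'
  tw : G.Tw v w
  ne : h ≠ h'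

/-- indicator -/
noncomputable def ch (p : Prop) : ℕ := by
  classical
  exact if p then 1 else 0

theorem ch1 {p : Prop} (h : p) : ch p = 1 := by
  unfold ch
  rw [if_pos h]

theorem ch0 {p : Prop} (h : ¬ p) : ch p = 0 := by
  unfold ch
  rw [if_neg h]

theorem ch_le (p : Prop) : ch p ≤ 1 := by
  unfold ch
  split_ifs <;> omega

theorem ch_iff {p : Prop} : ch p = 1 ↔ p := by
  constructor
  · intro h
    by_contra h1
    rw [ch0 h1] at h
    omega
  · exact ch1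

theorem ch_eq0 {p : Prop} : ch p = 0 ↔ ¬ p := by
  constructor
  · intro h h1
    rw [ch1 h1] at h
    omega
  · exact ch0

omit [Fintype V] in
theorem card_ch (A B : Finset V) : (A ∩ B).card = ∑ x ∈ B, ch (x ∈ A) := by
  classical
  have h1 : A ∩ B = B.filter (fun x => x ∈ A) := by
    ext x
    rw [mem_inter, mem_filter]
    exact and_comm
  rw [h1, card_filter]
  refine sum_congr rfl fun x _ => ?_
  by_cases hx : x ∈ A
  · rw [ch1 hx, if_pos hx]
  · rw [ch0 hx, if_neg hx]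

omit [Fintype V] in
theorem sum6 {M : Type} [AddCommMonoid M] {T : Finset V} {x1 x2 x3 x4 x5 x6 : V}
    (hT : ∀ x ∈ T, x = x1 ∨ x = x2 ∨ x = x3 ∨ x = x4 ∨ x = x5 ∨ x = x6) (hc : T.card = 6)
    (f : V → M) : ∑ x ∈ T, f x = f x1 + (f x2 + (f x3 + (f x4 + (f x5 + f x6)))) := by
  have h1 : T ⊆ [x1, x2, x3, x4, x5, x6].toFinset := by
    intro x hx
    simpa using hT x hx
  have h2 := List.toFinset_card_le [x1, x2, x3, x4, x5, x6]
  have h3 : T = [x1, x2, x3, x4, x5, x6].toFinset :=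
    eq_of_subset_of_card_le h1 (by rw [hc]; exact h2)
  have h4 : [x1, x2, x3, x4, x5, x6].Nodup := by
    have h5 : [x1, x2, x3, x4, x5, x6].toFinset.card = 6 := by rw [← h3, hc]
    rw [List.toFinset] at h5
    exact (Multiset.toFinset_card_eq_card_iff_nodup
      (m := ([x1, x2, x3, x4, x5, x6] : Multiset V))).1 (by rw [h5]; rfl)
  rw [h3, List.sum_toFinset f h4]
  simp

namespace Cx

theorem symm (c : Cx G F h h' v w) : Cx G F h' h v w where
  hy := c.hy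
  hF := c.hF'
  hF' := c.hF
  vF := c.vF
  wF := c.wF
  all := fun x hx => by
    rcases c.all x hx with h1 | h1 | h1 | h1
    · exact Or.inr (Or.inl h1)
    · exact Or.inl h1
    · exact Or.inr (Or.inr (Or.inl h1))
    · exact Or.inr (Or.inr (Or.inr h1))
  hh := c.hh'
  hh' := c.hh
  tw := c.tw
  ne := c.ne.symm

theorem n9 (c : Cx G F h h' v w) : 9 ≤ Fintype.card V := c.hy.n9

theorem notF (_ : Cx G F h h' v w) {x : V} (hx : x ∈ G.N F) : x ∉ F := (mem_N76.1 hx).1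

theorem uniq (c : Cx G F h h' v w) {x y y' : V} (h : G.Tw x y) (h' : G.Tw x y') : y = y' :=
  (stTwHL_5 G).uniq c.n9 _ _ _ h h'

theorem noLow (c : Cx G F h h' v w) {x : V} (hx : x ∈ F) : ¬ G.Low x := by
  rcases c.all x hx with h1 | h1 | h1 | h1
  · rw [h1]
    exact c.hh.1
  · rw [h1]
    exact c.hh'.1
  · rw [h1]
    exact not_low33 ⟨_, c.tw⟩
  · rw [h1]
    exact not_low33 ⟨_, c.tw.sym33⟩

theorem lowN (c : Cx G F h h' v w) {x : V} (hl : G.Low x) (hx : x ∈ F ∪ G.N F) : x ∈ G.N F := by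
  rcases mem_union.1 hx with h1 | h1
  · exact absurd hl (c.noLow h1)
  · exact h1

theorem hv (c : Cx G F h h' v w) : h ≠ v := by
  rintro rfl
  exact c.hh.2 ⟨_, c.tw⟩

theorem hw (c : Cx G F h h' v w) : h ≠ w := by
  rintro rfl
  exact c.hh.2 ⟨_, c.tw.sym33⟩

theorem nev (c : Cx G F h h' v w) {x : V} (hx : x ∈ G.N F) : x ≠ v := by
  rintro rfl
  exact c.notF hx c.vF

theorem new (c : Cx G F h h' v w) {x : V} (hx : x ∈ G.N F) : x ≠ w := by
  rintro rfl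
  exact c.notF hx c.wF

/-- `v` and `w` have the same neighbours -/
theorem vw (c : Cx G F h h' v w) {x : V} (hx : x ∈ G.N F) : v ∈ G.nb x ↔ w ∈ G.nb x :=
  ⟨fun h => G.sym _ _ (Tw_nb5 c.tw (G.sym _ _ h) (c.new hx)),
    fun h => G.sym _ _ (Tw_nb5 c.tw.sym33 (G.sym _ _ h) (c.nev hx))⟩

/-- partners of vertices of `N F` -/
theorem par (c : Cx G F h h' v w) {x y : V} (hx : x ∈ G.N F) (h : G.Tw x y) : y ∈ G.N F := by
  have hy : y ∉ F := by
    intro hy
    rcases c.all y hy with rfl | rfl | rfl | rfl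
    · exact c.hh.2 ⟨_, h.sym33⟩
    · exact c.hh'.2 ⟨_, h.sym33⟩
    · exact c.notF hx (c.uniq h.sym33 c.tw ▸ c.wF)
    · exact c.notF hx (c.uniq h.sym33 c.tw.sym33 ▸ c.vF)
  obtain ⟨-, u, hu, hxu⟩ := mem_N76.1 hx
  have hne : u ≠ y := by
    rintro rfl
    exact hy hu
  exact mem_N76.2 ⟨hy, u, hu, G.sym _ _ (Tw_nb5 h (G.sym _ _ hxu) hne)⟩

theorem Feq (c : Cx G F h h' v w) : F = insert h (insert h' (insert v {w})) := by
  ext x
  rw [mem_insert, mem_insert, mem_insert, mem_singleton]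
  constructor
  · exact c.all x
  · rintro (h1 | h1 | h1 | h1) <;> rw [h1]
    exacts [c.hF, c.hF', c.vF, c.wF]

theorem sumF (c : Cx G F h h' v w) (f : V → ℕ) : ∑ x ∈ F, f x = f h + (f h' + (f v + f w)) := by
  rw [c.Feq, sum_insert, sum_insert, sum_insert, sum_singleton]
  · rw [mem_singleton]
    exact c.tw.ne33
  · rw [mem_insert, mem_singleton, not_or]
    exact ⟨c.symm.hv, c.symm.hw⟩
  · rw [mem_insert, mem_insert, mem_singleton, not_or, not_or]
    exact ⟨c.ne, c.hv, c.hw⟩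

theorem dF (c : Cx G F h h' v w) {y : V} (hy : y ∈ G.N F) :
    G.d y F = ch (h ∈ G.nb y) + ch (h' ∈ G.nb y) + 2 * ch (v ∈ G.nb y) := by
  rw [d, card_ch, c.sumF, show ch (w ∈ G.nb y) = ch (v ∈ G.nb y) by
    by_cases h1 : v ∈ G.nb y
    · rw [ch1 h1, ch1 ((c.vw hy).1 h1)]
    · rw [ch0 h1, ch0 (fun h2 => h1 ((c.vw hy).2 h2))]]
  ring

/-- `h` misses few vertices -/
theorem missh (c : Cx G F h h' v w) :
    (G.N F \ G.nb h).card + 1 ≤ ch (h' ∈ G.nb h) + 2 * ch (v ∈ G.nb h) := by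
  have h1 : G.d h F = ch (h' ∈ G.nb h) + 2 * ch (v ∈ G.nb h) := by
    rw [d, card_ch, c.sumF, ch0 (G.irr h), show ch (w ∈ G.nb h) = ch (v ∈ G.nb h) by
      by_cases h1 : v ∈ G.nb h
      · rw [ch1 h1, ch1 (G.sym _ _ (Tw_nb5 c.tw (G.sym _ _ h1) c.hw))]
      · rw [ch0 h1, ch0 (fun h2 => h1 (G.sym _ _ (Tw_nb5 c.tw.sym33 (G.sym _ _ h2) c.hv)))]]
    ring
  have h2 : (G.nb h).card ≤ G.d h F + (G.N F ∩ G.nb h).card := by
    have h3 : G.nb h ⊆ (G.nb h ∩ F) ∪ (G.N F ∩ G.nb h) := by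
      intro x hx
      rcases nbF42 c.hF hx with h4 | h4
      · exact mem_union_left _ (mem_inter.2 ⟨hx, h4⟩)
      · exact mem_union_right _ (mem_inter.2 ⟨h4, hx⟩)
    exact (card_le_card h3).trans (card_union_le _ _)
  have h3 := card_sdiff_add_card_inter (G.N F) (G.nb h)
  have h4 : (G.N F).card = 6 := c.hy.fr.2.1
  have h5 := G.deg h
  have h6 : (G.nb h).card ≠ 6 := c.hh.1
  omega

/-- `v` misses as many vertices as it has hubs -/
theorem missv (c : Cx G F h h' v w) :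
    (G.N F \ G.nb v).card = ch (h ∈ G.nb v) + ch (h' ∈ G.nb v) := by
  have h1 : G.d v F = ch (h ∈ G.nb v) + ch (h' ∈ G.nb v) + 1 := by
    rw [d, card_ch, c.sumF, ch0 (G.irr v), ch1 c.tw.1]
    ring
  have h2 : (G.nb v).card = G.d v F + (G.N F ∩ G.nb v).card := by
    have h3 : G.nb v = (G.nb v ∩ F) ∪ (G.N F ∩ G.nb v) := by
      ext x
      constructor
      · intro hx
        rcases nbF42 c.vF hx with h4 | h4
        · exact mem_union_left _ (mem_inter.2 ⟨hx, h4⟩)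
        · exact mem_union_right _ (mem_inter.2 ⟨h4, hx⟩)
      · intro hx
        rcases mem_union.1 hx with h4 | h4
        · exact (mem_inter.1 h4).1
        · exact (mem_inter.1 h4).2
    have h4 : Disjoint (G.nb v ∩ F) (G.N F ∩ G.nb v) := by
      rw [Finset.disjoint_left]
      intro x h5 h6
      exact c.notF (mem_inter.1 h6).1 (mem_inter.1 h5).2
    have h5 := card_union_of_disjoint h4
    rw [← h3] at h5
    exact h5
  have h3 := card_sdiff_add_card_inter (G.N F) (G.nb v)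
  have h4 : (G.N F).card = 6 := c.hy.fr.2.1
  have h6 : (G.nb v).card = 7 := c.tw.2.1
  omega

/-! ### covers -/

/-- covers at `v` -/
theorem covv (c : Cx G F h h' v w) {y : V} (hy : y ∈ G.nb v) :
    (∃ u ∈ G.N F, G.Low u ∧ v ∈ G.nb u ∧ y ∈ G.nb u) ∨
    (∃ a ∈ G.N F, ∃ b ∈ G.N F, G.Tw a b ∧ v ∈ G.nb a ∧ v ∈ G.nb b ∧ y ∈ G.nb a ∧ y ∈ G.nb b) ∨
    (∃ a ∈ G.N F, ∃ b ∈ G.N F, G.HL a b y ∧ v ∈ G.nb b ∧ v ∈ G.nb a) := by
  rcases c.hy.cov v c.vF y hy with h1 | h1 | h1 | h1 | h1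
  · obtain ⟨u, hu, h1, h2, h3⟩ := h1
    exact Or.inl ⟨u, c.lowN h1 hu, h1, h2, h3⟩
  · obtain ⟨a, ha, b, hb, h1, h2, h3, h4, h5⟩ := h1
    have key : ∀ a b, a ∈ F ∪ G.N F → G.Tw a b → v ∈ G.nb a → v ∈ G.nb b → a ∈ G.N F := by
      intro a b ha h1 h2 h3
      rcases mem_union.1 ha with h4 | h4
      · exfalso
        rcases c.all a h4 with rfl | rfl | rfl | rfl
        · exact c.hh.2 ⟨_, h1⟩
        · exact c.hh'.2 ⟨_, h1⟩
        · exact G.irr _ h2
        · rw [← c.uniq c.tw.sym33 h1] at h3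
          exact G.irr _ h3
      · exact h4
    exact Or.inr (Or.inl ⟨a, key a b ha h1 h2 h3, b, key b a hb h1.sym33 h3 h2, h1, h2, h3, h4,
      h5⟩)
  · obtain ⟨a, b, h1, h2, h3, h4 | h4⟩ := h1
    · exact absurd h1.2.1 (c.noLow h4.2)
    · exact Or.inr (Or.inr ⟨a, h4.1, b, h4.2, h1, h2, h3⟩)
  · obtain ⟨a, b, h1, -⟩ := h1
    exact absurd (c.hy.sat _ _ _ h1) (c.noLow c.vF)
  · obtain ⟨a, b, h1, -⟩ := h1
    exact absurd ⟨_, c.tw⟩ ((stTwHL_5 G).twLL _ _ _ _ h1).1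

/-- covers at `h` -/
theorem covh (c : Cx G F h h' v w) {y : V} (hy : y ∈ G.nb h) :
    (∃ u ∈ G.N F, G.Low u ∧ h ∈ G.nb u ∧ y ∈ G.nb u) ∨
    (v ∈ G.nb y ∧ h ∈ G.nb v) ∨
    (∃ a ∈ G.N F, ∃ b ∈ G.N F, G.Tw a b ∧ h ∈ G.nb a ∧ h ∈ G.nb b ∧ y ∈ G.nb a ∧ y ∈ G.nb b) ∨
    (∃ a ∈ G.N F, ∃ b ∈ G.N F, G.HL a b y ∧ h ∈ G.nb b ∧ h ∈ G.nb a) ∨
    (∃ a ∈ G.N F, ∃ b ∈ G.N F, G.LL a b h y) := by
  rcases c.hy.cov h c.hF y hy with h1 | h1 | h1 | h1 | h1
  · obtain ⟨u, hu, h1, h2, h3⟩ := h1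
    exact Or.inl ⟨u, c.lowN h1 hu, h1, h2, h3⟩
  · obtain ⟨a, ha, b, hb, h1, h2, h3, h4, h5⟩ := h1
    have key : ∀ a b, a ∈ F ∪ G.N F → G.Tw a b → h ∈ G.nb a → h ∈ G.nb b → y ∈ G.nb a →
        y ∈ G.nb b → a ∈ G.N F ∨ (v ∈ G.nb y ∧ h ∈ G.nb v) := by
      intro a b ha h1 h2 h3 h4 h5
      rcases mem_union.1 ha with h6 | h6
      · rcases c.all a h6 with rfl | rfl | rfl | rfl
        · exact absurd ⟨_, h1⟩ c.hh.2
        · exact absurd ⟨_, h1⟩ c.hh'.2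
        · exact Or.inr ⟨G.sym _ _ h4, h2⟩
        · rw [← c.uniq c.tw.sym33 h1] at h3 h5
          exact Or.inr ⟨G.sym _ _ h5, h3⟩
      · exact Or.inl h6
    rcases key a b ha h1 h2 h3 h4 h5 with h6 | h6
    · rcases key b a hb h1.sym33 h3 h2 h5 h4 with h7 | h7
      · exact Or.inr (Or.inr (Or.inl ⟨a, h6, b, h7, h1, h2, h3, h4, h5⟩))
      · exact Or.inr (Or.inl h7)
    · exact Or.inr (Or.inl h6)
  · obtain ⟨a, b, h1, h2, h3, h4 | h4⟩ := h1
    · exact absurd h1.2.1 (c.noLow h4.2)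
    · exact Or.inr (Or.inr (Or.inr (Or.inl ⟨a, h4.1, b, h4.2, h1, h2, h3⟩)))
  · obtain ⟨a, b, h1, -⟩ := h1
    exact absurd (c.hy.sat _ _ _ h1) (c.noLow c.hF)
  · obtain ⟨a, b, h1, h4 | h4⟩ := h1
    · exact absurd h1.1 (c.noLow h4.1)
    · exact Or.inr (Or.inr (Or.inr (Or.inr ⟨a, h4.1, b, h4.2, h1⟩)))

/-! ### no twins in `N F` -/

theorem lowd (c : Cx G F h h' v w) {u : V} (hu : u ∈ G.N F) (hl : G.Low u) :
    G.d u F + (G.pT F u).card ≤ 5 := by
  have h1 := c.hy.f2 u hu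
  have h2 := c.dF hu
  have h3 := ch_le (h ∈ G.nb u)
  have h4 := ch_le (h' ∈ G.nb u)
  have h5 := ch_le (v ∈ G.nb u)
  have h6 : G.d u F = 2 ∨ G.d u F = 3 ∨ G.d u F = 4 := by omega
  rcases h6 with h6 | h6 | h6
  · have := (c.hy.low2 u hu hl h6).1
    omega
  · have := (c.hy.low3 u hu hl h6).1
    omega
  · have := (c.hy.low4 u hu hl h6).1
    omega

/-- twins of `N F` are adjacent to the pair -/
theorem twA (c : Cx G F h h' v w) {p p' : V} (hp : p ∈ G.N F) (ht : G.Tw p p') :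
    v ∈ G.nb p := by
  by_contra hv
  have hp' := c.par hp ht
  have hv' : v ∉ G.nb p' := fun h1 => hv (Tw_nb5 ht.sym33 h1 (c.nev hp).symm)
  have hhp : h ∈ G.nb p := by
    have h1 := c.hy.f2 p hp
    have h2 := c.dF hp
    rw [ch0 hv] at h2
    have h3 := ch_le (h ∈ G.nb p)
    have h4 := ch_le (h' ∈ G.nb p)
    exact ch_iff.1 (by omega)
  have htw := c.hy.tw
  -- a low neighbour
  obtain ⟨u, hu, hul, hhu, hpu⟩ : ∃ u ∈ G.N F, G.Low u ∧ h ∈ G.nb u ∧ p ∈ G.nb u := by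
    rcases c.covh (G.sym _ _ hhp) with h1 | h1 | h1 | h1 | h1
    · exact h1
    · exact absurd h1.1 hv
    · exfalso
      obtain ⟨a, ha, b, hb, h1, h2, h3, h4, h5⟩ := h1
      have hap : a ≠ p := (ne_of_nb5 h4)
      have hap' : a ≠ p' := by
        rintro rfl
        rw [c.uniq h1 ht.sym33] at h5
        exact G.irr _ h5
      have hbp : b ≠ p := (ne_of_nb5 h5)
      have hbp' : b ≠ p' := by
        rintro rfl
        rw [c.uniq h1.sym33 ht.sym33] at h4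
        exact G.irr _ h4
      have h6 : p' ∈ G.nb a := ht.adj33 h4 hap'
      have h7 := three_le33 (a := b) (b := p) (c := p') (mem_pT.2 ⟨h1.1, hb⟩)
        (mem_pT.2 ⟨h4, hp⟩) (mem_pT.2 ⟨h6, hp'⟩) hbp hbp' ht.ne33
      have h8 := htw a ha ⟨_, h1⟩
      have h9 := c.hy.f2 a ha
      -- `a` is adjacent to `v`, since `v` misses at most two vertices
      have h10 : v ∈ G.nb a := by
        by_contra h10
        have h11 : ({p, p', a} : Finset V) ⊆ G.N F \ G.nb v := by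
          intro x hx
          simp only [mem_insert, mem_singleton] at hx
          rcases hx with rfl | rfl | rfl
          · exact mem_sdiff.2 ⟨hp, fun h12 => hv (G.sym _ _ h12)⟩
          · exact mem_sdiff.2 ⟨hp', fun h12 => hv' (G.sym _ _ h12)⟩
          · exact mem_sdiff.2 ⟨ha, fun h12 => h10 (G.sym _ _ h12)⟩
        have h12 := card_le_card h11
        rw [Finset.card_eq_three.2 ⟨p, p', a, ht.ne33, hap.symm, hap'.symm, rfl⟩, c.missv] at h12
        have h13 := ch_le (h ∈ G.nb v)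
        have h14 := ch_le (h' ∈ G.nb v)
        omega
      have h11 := c.dF ha
      rw [ch1 h2, ch1 h10] at h11
      omega
    · obtain ⟨a, ha, b, hb, h1, -⟩ := h1
      exact absurd (c.hy.sat _ _ _ h1) (not_low33 ⟨_, ht⟩)
    · obtain ⟨a, ha, b, hb, h1⟩ := h1
      exact absurd ⟨_, ht⟩ ((stTwHL_5 G).twLL _ _ _ _ h1).2
  have hup : u ≠ p := ne_of_nb5 hpu
  have hup' : u ≠ p' := by
    rintro rfl
    exact not_low33 ⟨_, ht.sym33⟩ hul
  have hpu' : p' ∈ G.nb u := ht.adj33 hpu hup'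
  have hvu : v ∈ G.nb u := by
    by_contra h10
    have h11 : ({p, p', u} : Finset V) ⊆ G.N F \ G.nb v := by
      intro x hx
      simp only [mem_insert, mem_singleton] at hx
      rcases hx with rfl | rfl | rfl
      · exact mem_sdiff.2 ⟨hp, fun h12 => hv (G.sym _ _ h12)⟩
      · exact mem_sdiff.2 ⟨hp', fun h12 => hv' (G.sym _ _ h12)⟩
      · exact mem_sdiff.2 ⟨hu, fun h12 => h10 (G.sym _ _ h12)⟩
    have h12 := card_le_card h11
    rw [Finset.card_eq_three.2 ⟨p, p', u, ht.ne33, hup.symm, hup'.symm, rfl⟩, c.missv] at h12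
    have h13 := ch_le (h ∈ G.nb v)
    have h14 := ch_le (h' ∈ G.nb v)
    omega
  have h1 := c.lowd hu hul
  have h2 := c.dF hu
  rw [ch1 hhu, ch1 hvu] at h2
  have hpT : G.pT F u = {p, p'} := by
    symm
    apply eq_of_subset_of_card_le
    · intro x hx
      rw [mem_insert, mem_singleton] at hx
      rcases hx with rfl | rfl
      · exact mem_pT.2 ⟨hpu, hp⟩
      · exact mem_pT.2 ⟨hpu', hp'⟩
    · rw [card_pair ht.ne33]
      omega
  have hT : ∀ x, x ∈ G.nb u → x ∈ G.N F → v ∉ G.nb x := by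
    intro x h3 h4
    have h5 : x ∈ G.pT F u := mem_pT.2 ⟨h3, h4⟩
    rw [hpT, mem_insert, mem_singleton] at h5
    rcases h5 with rfl | rfl
    · exact hv
    · exact hv'
  rcases c.covv (G.sym _ _ hvu) with h3 | h3 | h3
  · obtain ⟨x, h3, h4, h5, h6⟩ := h3
    exact hT x (G.sym _ _ h6) h3 h5
  · obtain ⟨a, h3, b, h4, h5, h6, h7, h8, h9⟩ := h3
    exact hT a (G.sym _ _ h8) h3 h6
  · obtain ⟨a, h3, b, h4, h5, h6, h7⟩ := h3
    exact hT a (G.sym _ _ (HL_t76 h5)) h3 h7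

/-- two hubs are no fragment -/
theorem nofr2 (c : Cx G F h h' v w) : ¬ G.Frag {h, h'} := by
  intro hfr
  rcases two33 c.ne hfr with ⟨h1, -⟩ | ⟨h1, -⟩ | ⟨t, -, h1, -⟩ | ⟨t, -, h1, -⟩
  · exact c.hh.1 h1
  · exact c.hh.2 ⟨_, h1⟩
  · exact c.hh'.1 h1.2.1
  · exact c.hh.1 h1.2.1

/-- one hub is no fragment -/
theorem nofr1 (c : Cx G F h h' v w) : ¬ G.Frag {h'} := by
  intro hfr
  have h1 : G.N {h'} = G.nb h' := by
    ext x
    rw [mem_N76, mem_singleton]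
    constructor
    · rintro ⟨-, u, hu, hx⟩
      rw [mem_singleton] at hu
      rw [← hu]
      exact hx
    · intro hx
      exact ⟨(ne_of_nb5 hx).symm, h', mem_singleton_self _, hx⟩
  have h2 := hfr.2.1
  rw [h1] at h2
  exact c.hh'.1 h2

/-- a vertex of `F` outside `N Z` has no neighbour in `Z` -/
theorem notNZ (c : Cx G F h h' v w) {Z : Finset V} (hZ : Z ⊆ G.N F) {x : V} (hx : x ∈ F) :
    x ∈ G.N Z ↔ ∃ z ∈ Z, x ∈ G.nb z := by
  rw [mem_N76]
  constructor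
  · rintro ⟨-, h1⟩
    exact h1
  · intro h1
    exact ⟨fun h2 => c.notF (hZ h2) hx, h1⟩

/-- at most one vertex of a pair of vertices of `N F` sees only the pair -/
theorem B0one (c : Cx G F h h' v w) {y y' : V} (hy : y ∈ G.N F) (hy' : y' ∈ G.N F) (hne : y ≠ y')
    (h1 : h ∉ G.nb y) (h2 : h' ∉ G.nb y) (h3 : h ∉ G.nb y') (h4 : h' ∉ G.nb y') : False := by
  have hZ : ({y, y'} : Finset V) ⊆ G.N F := by
    intro x hx
    rw [mem_insert, mem_singleton] at hx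
    rcases hx with rfl | rfl
    · exact hy
    · exact hy'
  have hn : ∀ x ∈ F, x ∈ G.N {y, y'} → x = v ∨ x = w := by
    intro x hx hxN
    rw [c.notNZ hZ hx] at hxN
    obtain ⟨z, hz, hxz⟩ := hxN
    rw [mem_insert, mem_singleton] at hz
    rcases c.all x hx with rfl | rfl | h6 | h6
    · rcases hz with rfl | rfl
      · exact absurd hxz h1
      · exact absurd hxz h3
    · rcases hz with rfl | rfl
      · exact absurd hxz h2
      · exact absurd hxz h4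
    · exact Or.inl h6
    · exact Or.inr h6
  have hh1 : h ∉ G.N {y, y'} := by
    intro h5
    rcases hn h c.hF h5 with h6 | h6
    · exact c.hv h6
    · exact c.hw h6
  have hh2 : h' ∉ G.N {y, y'} := by
    intro h5
    rcases hn h' c.hF' h5 with h6 | h6
    · exact c.symm.hv h6
    · exact c.symm.hw h6
  have hcard : (G.N {y, y'} ∩ F).card ≤ 2 := by
    have h5 : G.N {y, y'} ∩ F ⊆ {v, w} := by
      intro x hx
      obtain ⟨h6, h7⟩ := mem_inter.1 hx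
      rw [mem_insert, mem_singleton]
      exact hn x h7 h6
    have h6 := card_le_card h5
    rw [card_pair c.tw.ne33] at h6
    exact h6
  obtain ⟨h5, h6⟩ := c.hy.fz {y, y'} ⟨y, mem_insert_self _ _⟩ hZ
    ⟨h, mem_sdiff.2 ⟨c.hF, hh1⟩⟩
  rw [card_pair hne] at h5 h6
  have h7 := h6 (by omega)
  have hI : G.N {y, y'} ∩ F = {v, w} := by
    apply eq_of_subset_of_card_le
    · intro x hx
      obtain ⟨h8, h9⟩ := mem_inter.1 hx
      rw [mem_insert, mem_singleton]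
      exact hn x h9 h8
    · rw [card_pair c.tw.ne33]
      exact h5
  have h8 : F \ G.N {y, y'} = {h, h'} := by
    ext x
    rw [mem_sdiff, mem_insert, mem_singleton]
    constructor
    · rintro ⟨h9, h10⟩
      rcases c.all x h9 with h11 | h11 | h11 | h11
      · exact Or.inl h11
      · exact Or.inr h11
      · exfalso
        apply h10
        have : v ∈ G.N {y, y'} ∩ F := by
          rw [hI]
          exact mem_insert_self _ _
        rw [h11]
        exact (mem_inter.1 this).1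
      · exfalso
        apply h10
        have : w ∈ G.N {y, y'} ∩ F := by
          rw [hI]
          exact mem_insert_of_mem (mem_singleton_self _)
        rw [h11]
        exact (mem_inter.1 this).1
    · rintro (rfl | rfl)
      · exact ⟨c.hF, hh1⟩
      · exact ⟨c.hF', hh2⟩
  rw [h8] at h7
  exact c.nofr2 h7

/-- twins of `N F` adjacent to the pair and to `h` only -/
theorem twB (c : Cx G F h h' v w) {p p' : V} (hp : p ∈ G.N F) (ht : G.Tw p p')
    (hv : v ∈ G.nb p) (hhp : h ∈ G.nb p) (hhp' : h' ∉ G.nb p) : False := by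
  have hp' := c.par hp ht
  have hv' : v ∈ G.nb p' := Tw_nb5 ht hv (c.nev hp').symm
  have hnN : ∀ {x : V}, x ∈ G.N F → h' ≠ x := by
    rintro x hx rfl
    exact c.notF hx c.hF'
  have hnN0 : ∀ {x : V}, x ∈ G.N F → h ≠ x := by
    rintro x hx rfl
    exact c.notF hx c.hF
  have hh1 : h ∈ G.nb p' := Tw_nb5 ht hhp (hnN0 hp')
  have hh2 : h' ∉ G.nb p' := fun h1 => hhp' (Tw_nb5 ht.sym33 h1 (hnN hp))
  have hd : G.d p F = 3 := by
    rw [c.dF hp, ch1 hv, ch1 hhp, ch0 hhp']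
  have hd' : G.d p' F = 3 := by
    rw [c.dF hp', ch1 hv', ch1 hh1, ch0 hh2]
  have t1 := c.hy.tw p hp ⟨_, ht⟩
  have t1' := c.hy.tw p' hp' ⟨_, ht.sym33⟩
  rw [hd] at t1
  rw [hd'] at t1'
  -- the low neighbour
  obtain ⟨u, hu, hul, hvu, hpu⟩ : ∃ u ∈ G.N F, G.Low u ∧ v ∈ G.nb u ∧ p ∈ G.nb u := by
    rcases c.covv (G.sym _ _ hv) with h1 | h1 | h1
    · exact h1
    · exfalso
      obtain ⟨a, ha, b, hb, h1, h2, h3, h4, h5⟩ := h1
      have hap' : a ≠ p' := by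
        rintro rfl
        rw [c.uniq h1 ht.sym33] at h5
        exact G.irr _ h5
      have hbp' : b ≠ p' := by
        rintro rfl
        rw [c.uniq h1.sym33 ht.sym33] at h4
        exact G.irr _ h4
      have h7 := three_le33 (a := p') (b := a) (c := b) (mem_pT.2 ⟨ht.1, hp'⟩)
        (mem_pT.2 ⟨G.sym _ _ h4, ha⟩) (mem_pT.2 ⟨G.sym _ _ h5, hb⟩) hap'.symm hbp'.symm h1.ne33
      omega
    · obtain ⟨a, ha, b, hb, h1, -⟩ := h1
      exact absurd (c.hy.sat _ _ _ h1) (not_low33 ⟨_, ht⟩)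
  have hup : u ≠ p := ne_of_nb5 hpu
  have hup' : u ≠ p' := by
    rintro rfl
    exact not_low33 ⟨_, ht.sym33⟩ hul
  have hpu' : p' ∈ G.nb u := ht.adj33 hpu hup'
  -- neighbours of `p` in `N F`
  have hpT : ∀ x, x ∈ G.nb p → x ∈ G.N F → x = p' ∨ x = u := by
    have h1 : G.pT F p = {p', u} := by
      symm
      apply eq_of_subset_of_card_le
      · intro x hx
        rw [mem_insert, mem_singleton] at hx
        rcases hx with rfl | rfl
        · exact mem_pT.2 ⟨ht.1, hp'⟩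
        · exact mem_pT.2 ⟨G.sym _ _ hpu, hu⟩
      · rw [card_pair hup'.symm]
        omega
    intro x h2 h3
    have h4 : x ∈ G.pT F p := mem_pT.2 ⟨h2, h3⟩
    rw [h1, mem_insert, mem_singleton] at h4
    exact h4
  -- `u` sees `h'`
  have hZ : ({p, p', u} : Finset V) ⊆ G.N F := by
    intro x hx
    simp only [mem_insert, mem_singleton] at hx
    rcases hx with rfl | rfl | rfl <;> assumption
  have hZ3 : ({p, p', u} : Finset V).card = 3 :=
    Finset.card_eq_three.2 ⟨p, p', u, ht.ne33, hup.symm, hup'.symm, rfl⟩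
  have hhu : h' ∈ G.nb u := by
    by_contra hno
    have hnZ : h' ∉ G.N {p, p', u} := by
      rw [c.notNZ hZ c.hF']
      rintro ⟨z, hz, h1⟩
      simp only [mem_insert, mem_singleton] at hz
      rcases hz with rfl | rfl | rfl
      · exact hhp' h1
      · exact hh2 h1
      · exact hno h1
    obtain ⟨h5, h6⟩ := c.hy.fz {p, p', u} ⟨p, mem_insert_self _ _⟩ hZ
      ⟨h', mem_sdiff.2 ⟨c.hF', hnZ⟩⟩
    have hFe : F \ G.N {p, p', u} = {h'} := by
      ext x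
      rw [mem_sdiff, mem_singleton]
      constructor
      · rintro ⟨h9, h10⟩
        rw [c.notNZ hZ h9] at h10
        rcases c.all x h9 with h11 | h11 | h11 | h11
        · exact absurd ⟨p, mem_insert_self _ _, h11 ▸ hhp⟩ h10
        · exact h11
        · exact absurd ⟨p, mem_insert_self _ _, h11 ▸ hv⟩ h10
        · exact absurd ⟨p, mem_insert_self _ _, h11 ▸ (c.vw hp).1 hv⟩ h10
      · rintro rfl
        exact ⟨c.hF', hnZ⟩
    have h7 := card_sdiff_add_card_inter F (G.N {p, p', u})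
    rw [hFe, card_singleton, c.hy.c4, inter_comm] at h7
    have h8 := h6 (by omega)
    rw [hFe] at h8
    exact c.nofr1 h8
  have hl := c.lowd hu hul
  have h2le := two_le5 (a := p) (b := p') (mem_pT.2 ⟨hpu, hp⟩) (mem_pT.2 ⟨hpu', hp'⟩) ht.ne33
  have hdu := c.dF hu
  rw [ch1 hvu, ch1 hhu] at hdu
  have hhu' : h ∉ G.nb u := by
    intro h1
    rw [ch1 h1] at hdu
    omega
  rw [ch0 hhu'] at hdu
  have huT : ∀ x, x ∈ G.nb u → x ∈ G.N F → x = p ∨ x = p' := by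
    have h1 : G.pT F u = {p, p'} := by
      symm
      apply eq_of_subset_of_card_le
      · intro x hx
        rw [mem_insert, mem_singleton] at hx
        rcases hx with rfl | rfl
        · exact mem_pT.2 ⟨hpu, hp⟩
        · exact mem_pT.2 ⟨hpu', hp'⟩
      · rw [card_pair ht.ne33]
        omega
    intro x h2 h3
    have h4 : x ∈ G.pT F u := mem_pT.2 ⟨h2, h3⟩
    rw [h1, mem_insert, mem_singleton] at h4
    exact h4
  -- adjacencies in `F`
  have m1 := c.symm.missh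
  have m2 := c.missh
  have m3 : 2 ≤ (G.N F \ G.nb h').card :=
    two_le5 (a := p) (b := p') (mem_sdiff.2 ⟨hp, fun h1 => hhp' (G.sym _ _ h1)⟩)
      (mem_sdiff.2 ⟨hp', fun h1 => hh2 (G.sym _ _ h1)⟩) ht.ne33
  have m4 : 1 ≤ (G.N F \ G.nb h).card := by
    rw [Nat.succ_le_iff, Finset.card_pos]
    exact ⟨u, mem_sdiff.2 ⟨hu, fun h1 => hhu' (G.sym _ _ h1)⟩⟩
  have e1 := ch_le (h' ∈ G.nb h)
  have e2 := ch_le (v ∈ G.nb h)
  have e3 := ch_le (h ∈ G.nb h')
  have e4 := ch_le (v ∈ G.nb h')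
  have hvh' : v ∈ G.nb h' := ch_iff.1 (by omega)
  have hvh : v ∈ G.nb h := ch_iff.1 (by omega)
  have mv := c.missv
  rw [ch1 (G.sym _ _ hvh), ch1 (G.sym _ _ hvh')] at mv
  -- the sixth vertex
  obtain ⟨y, hy, hyv, hy1, hy2, hy3⟩ : ∃ y ∈ G.N F, v ∈ G.nb y ∧ y ≠ p ∧ y ≠ p' ∧ y ≠ u := by
    by_contra hcon
    push Not at hcon
    have h1 : G.N F ⊆ (G.N F \ G.nb v) ∪ {p, p', u} := by
      intro x hx
      rw [mem_union]
      by_cases h2 : v ∈ G.nb x
      · right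
        by_contra h3
        simp only [mem_insert, mem_singleton, not_or] at h3
        exact h3.2.2 (hcon x hx h2 h3.1 h3.2.1)
      · left
        exact mem_sdiff.2 ⟨hx, fun h3 => h2 (G.sym _ _ h3)⟩
    have h2 := card_le_card h1
    have h3 := card_union_le (G.N F \ G.nb v) {p, p', u}
    rw [hZ3, mv] at h3
    have h4 : (G.N F).card = 6 := c.hy.fr.2.1
    omega
  -- the vertices adjacent to `v` are `p`, `p'`, `u`, `y`
  have hall : ∀ x ∈ G.N F, v ∈ G.nb x → x = p ∨ x = p' ∨ x = u ∨ x = y := by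
    intro x hx hxv
    by_contra hcon
    push Not at hcon
    obtain ⟨k1, k2, k3, k4⟩ := hcon
    have h1 : insert x (insert y ({p, p', u} : Finset V)) ⊆ G.N F ∩ G.nb v := by
      intro z hz
      simp only [mem_insert, mem_singleton] at hz
      rcases hz with rfl | rfl | rfl | rfl | rfl
      · exact mem_inter.2 ⟨hx, G.sym _ _ hxv⟩
      · exact mem_inter.2 ⟨hy, G.sym _ _ hyv⟩
      · exact mem_inter.2 ⟨hp, G.sym _ _ hv⟩
      · exact mem_inter.2 ⟨hp', G.sym _ _ hv'⟩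
      · exact mem_inter.2 ⟨hu, G.sym _ _ hvu⟩
    have h2 := card_le_card h1
    rw [card_insert_of_notMem, card_insert_of_notMem, hZ3] at h2
    · have h3 := card_sdiff_add_card_inter (G.N F) (G.nb v)
      have h4 : (G.N F).card = 6 := c.hy.fr.2.1
      omega
    · simp only [mem_insert, mem_singleton, not_or]
      exact ⟨hy1, hy2, hy3⟩
    · simp only [mem_insert, mem_singleton, not_or]
      exact ⟨k4, k1, k2, k3⟩
  have hyu : y ∉ G.nb u := by
    intro h1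
    rcases huT y h1 hy with h2 | h2
    · exact hy1 h2
    · exact hy2 h2
  have hyp : y ∉ G.nb p := by
    intro h1
    rcases hpT y h1 hy with h2 | h2
    · exact hy2 h2
    · exact hy3 h2
  rcases c.covv (G.sym _ _ hyv) with h1 | h1 | h1
  · obtain ⟨x, h1, h2, h3, h4⟩ := h1
    rcases hall x h1 h3 with rfl | rfl | rfl | rfl
    · exact hyp h4
    · exact not_low33 ⟨_, ht.sym33⟩ h2
    · exact hyu h4
    · exact G.irr _ h4
  · obtain ⟨a, h1, b, h2, h3, h4, h5, h6, h7⟩ := h1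
    rcases hall a h1 h4 with rfl | rfl | rfl | rfl
    · exact hyp h6
    · rw [c.uniq h3 ht.sym33] at h7
      exact hyp h7
    · exact hyu h6
    · exact G.irr _ h6
  · obtain ⟨a, h1, b, h2, h3, h4, h5⟩ := h1
    have hbu : b = u := by
      rcases hall b h2 h4 with h6 | h6 | h6 | h6
      · exact absurd (h6 ▸ h3.2.1) (not_low33 ⟨_, ht⟩)
      · exact absurd (h6 ▸ h3.2.1) (not_low33 ⟨_, ht.sym33⟩)
      · exact h6
      · exact absurd h6.symm (HL_bt76 h3).2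
    have h6 : a ∈ G.nb u := by
      rw [← hbu]
      exact G.sym _ _ (HL_b76 h3)
    have h7 := (stTwHL_5 G).notHL c.n9 _ _ _ h3
    rcases huT a h6 h1 with rfl | rfl
    · exact h7 ⟨_, ht⟩
    · exact h7 ⟨_, ht.sym33⟩

/-- no twins in `N F` -/
theorem noTw (c : Cx G F h h' v w) {p : V} (hp : p ∈ G.N F) : ¬ G.IsTw p := by
  rintro ⟨p', ht⟩
  have hv := c.twA hp ht
  have hp' := c.par hp ht
  by_cases h1 : h ∈ G.nb p
  · by_cases h2 : h' ∈ G.nb p
    · have hd : G.d p F = 4 := by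
        rw [c.dF hp, ch1 hv, ch1 h1, ch1 h2]
      have t1 := c.hy.tw p hp ⟨_, ht⟩
      rw [hd] at t1
      have hpT : ∀ x, x ∈ G.nb p → x ∈ G.N F → x = p' := by
        intro x h2 h3
        by_contra h4
        have := two_le5 (a := x) (b := p') (mem_pT.2 ⟨h2, h3⟩) (mem_pT.2 ⟨ht.1, hp'⟩) h4
        omega
      rcases c.covv (G.sym _ _ hv) with h3 | h3 | h3
      · obtain ⟨u, h3, h4, h5, h6⟩ := h3
        rw [hpT u (G.sym _ _ h6) h3] at h4
        exact not_low33 ⟨_, ht.sym33⟩ h4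
      · obtain ⟨a, h3, b, h4, h5, h6, h7, h8, h9⟩ := h3
        exact h5.ne33 ((hpT a (G.sym _ _ h8) h3).trans (hpT b (G.sym _ _ h9) h4).symm)
      · obtain ⟨a, h3, b, h4, h5, -⟩ := h3
        exact not_low33 ⟨_, ht⟩ (c.hy.sat _ _ _ h5)
    · exact c.twB hp ht hv h1 h2
  · by_cases h2 : h' ∈ G.nb p
    · exact c.symm.twB hp ht hv h2 h1
    · have hn : ∀ {x : V}, x ∈ G.N F → h ≠ x := by
        rintro x hx rfl
        exact c.notF hx c.hF
      have hn' : ∀ {x : V}, x ∈ G.N F → h' ≠ x := by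
        rintro x hx rfl
        exact c.notF hx c.hF'
      exact c.B0one hp hp' ht.ne33 h1 h2 (fun h3 => h1 (Tw_nb5 ht.sym33 h3 (hn hp)))
        (fun h3 => h2 (Tw_nb5 ht.sym33 h3 (hn' hp)))

theorem noPS (c : Cx G F h h' v w) (y : V) : ¬ G.PairSet (G.pT F y) := by
  rintro ⟨a, b, h1, h2⟩
  have h3 : a ∈ G.pT F y := by
    rw [h2]
    exact mem_insert_self _ _
  exact c.noTw (mem_pT.1 h3).2 ⟨_, h1⟩

/-! ### the covers without twins -/

/-- covers at `v` -/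
theorem cv (c : Cx G F h h' v w) {y : V} (hy : y ∈ G.nb v) :
    (∃ u ∈ G.N F, G.Low u ∧ v ∈ G.nb u ∧ y ∈ G.nb u) ∨
    (∃ a ∈ G.N F, ∃ b ∈ G.N F, G.HL a b y ∧ v ∈ G.nb b ∧ v ∈ G.nb a) := by
  rcases c.covv hy with h1 | h1 | h1
  · exact Or.inl h1
  · obtain ⟨a, ha, b, -, h1, -⟩ := h1
    exact absurd ⟨_, h1⟩ (c.noTw ha)
  · exact Or.inr h1

/-- covers at `h` for vertices not adjacent to `v` -/
theorem chv (c : Cx G F h h' v w) {y : V} (hy : y ∈ G.nb h) (hv : v ∉ G.nb y) :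
    (∃ u ∈ G.N F, G.Low u ∧ h ∈ G.nb u ∧ y ∈ G.nb u) ∨
    (∃ a ∈ G.N F, ∃ b ∈ G.N F, G.HL a b y ∧ h ∈ G.nb b ∧ h ∈ G.nb a) ∨
    (∃ a ∈ G.N F, ∃ b ∈ G.N F, G.LL a b h y) := by
  rcases c.covh hy with h1 | h1 | h1 | h1 | h1
  · exact Or.inl h1
  · exact absurd h1.1 hv
  · obtain ⟨a, ha, b, -, h1, -⟩ := h1
    exact absurd ⟨_, h1⟩ (c.noTw ha)
  · exact Or.inr (Or.inl h1)
  · exact Or.inr (Or.inr h1)

/-! ### values -/

theorem dV (c : Cx G F h h' v w) {y : V} (hy : y ∈ G.N F) (hv : v ∈ G.nb y) :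
    G.d y F = ch (h ∈ G.nb y) + ch (h' ∈ G.nb y) + 2 := by
  rw [c.dF hy, ch1 hv]

theorem val (c : Cx G F h h' v w) {y : V} (hy : y ∈ G.N F) (hl : G.Low y) :
    (G.d y F = 2 ∧ (G.pT F y).card ≤ 3 ∧ 2 + 2 * ((G.pT F y).card : ℤ) ≤ G.gam5 F y) ∨
    (G.d y F = 3 ∧ (G.pT F y).card ≤ 2 ∧ 6 ≤ G.gam5 F y ∧
      ((G.pT F y).card ≠ 1 → 6 + 2 * ((G.pT F y).card : ℤ) ≤ G.gam5 F y)) ∨
    (G.d y F = 4 ∧ (G.pT F y).card ≤ 1 ∧ 10 ≤ G.gam5 F y) := by
  have h1 := c.hy.f2 y hy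
  have h2 := c.dF hy
  have h3 := ch_le (h ∈ G.nb y)
  have h4 := ch_le (h' ∈ G.nb y)
  have h5 := ch_le (v ∈ G.nb y)
  have h6 : G.d y F = 2 ∨ G.d y F = 3 ∨ G.d y F = 4 := by omega
  rcases h6 with h6 | h6 | h6
  · obtain ⟨h7, h8⟩ := c.hy.low2 y hy hl h6
    exact Or.inl ⟨h6, h7, h8 (c.noPS y)⟩
  · obtain ⟨h7, h8, h9⟩ := c.hy.low3 y hy hl h6
    exact Or.inr (Or.inl ⟨h6, h7, h8, h9⟩)
  · obtain ⟨h7, h8, -⟩ := c.hy.low4 y hy hl h6
    exact Or.inr (Or.inr ⟨h6, h7, h8⟩)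

theorem gam0 (c : Cx G F h h' v w) {y : V} (hy : y ∈ G.N F) (hl : ¬ G.Low y) :
    G.gam5 F y = 0 := c.hy.hub y hy ⟨hl, c.noTw hy⟩

theorem gam_nn (c : Cx G F h h' v w) {y : V} (hy : y ∈ G.N F) : 0 ≤ G.gam5 F y := by
  by_cases hl : G.Low y
  · have h0 : (0 : ℤ) ≤ ((G.pT F y).card : ℤ) := Int.natCast_nonneg _
    rcases c.val hy hl with h1 | h1 | h1
    · linarith [h1.2.2]
    · linarith [h1.2.2.1]
    · linarith [h1.2.2]
  · rw [c.gam0 hy hl]

/-- every low vertex adjacent to the pair -/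
theorem gmu (c : Cx G F h h' v w) {y : V} (hy : y ∈ G.N F) (hl : G.Low y) (hv : v ∈ G.nb y) :
    10 - 4 * ((ch (h ∉ G.nb y) : ℤ) + (ch (h' ∉ G.nb y) : ℤ)) ≤ G.gam5 F y ∧
    (2 ≤ (G.pT F y).card →
      14 - 4 * ((ch (h ∉ G.nb y) : ℤ) + (ch (h' ∉ G.nb y) : ℤ)) ≤ G.gam5 F y) := by
  have h2 := c.dV hy hv
  have e1 : ch (h ∈ G.nb y) + ch (h ∉ G.nb y) = 1 := by
    by_cases h3 : h ∈ G.nb y
    · rw [ch1 h3, ch0 (not_not.2 h3)]
    · rw [ch0 h3, ch1 h3]
  have e2 : ch (h' ∈ G.nb y) + ch (h' ∉ G.nb y) = 1 := by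
    by_cases h3 : h' ∈ G.nb y
    · rw [ch1 h3, ch0 (not_not.2 h3)]
    · rw [ch0 h3, ch1 h3]
  have h0 : (0 : ℤ) ≤ ((G.pT F y).card : ℤ) := Int.natCast_nonneg _
  rcases c.val hy hl with h1 | h1 | h1
  · obtain ⟨k1, k2, k3⟩ := h1
    constructor
    · omega
    · intro h4
      omega
  · obtain ⟨k1, k2, k3, k4⟩ := h1
    constructor
    · omega
    · intro h4
      have := k4 (by omega)
      omega
  · obtain ⟨k1, k2, k3⟩ := h1
    constructor
    · omega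
    · intro h4
      omega

open Classical in
/-- only low vertices count -/
theorem sumL (c : Cx G F h h' v w) :
    ∑ y ∈ G.N F, G.gam5 F y = ∑ y ∈ (G.N F).filter (fun y => G.Low y), G.gam5 F y := by
  rw [← sum_filter_add_sum_filter_not (G.N F) (fun y => G.Low y)]
  rw [sum_eq_zero (s := (G.N F).filter fun y => ¬ G.Low y), add_zero]
  intro y hy
  rw [mem_filter] at hy
  exact c.gam0 hy.1 hy.2

/-! ### the pair has no neighbour in `F` -/

open Classical in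
theorem case0 (c : Cx G F h h' v w) (hv : h ∉ G.nb v) (hv' : h' ∉ G.nb v) :
    29 ≤ ∑ y ∈ G.N F, G.gam5 F y := by
  have m0 := c.missv
  rw [ch0 hv, ch0 hv'] at m0
  have m1 := c.missh
  have m2 := c.symm.missh
  rw [ch0 (fun h1 => hv (G.sym _ _ h1))] at m1
  rw [ch0 (fun h1 => hv' (G.sym _ _ h1))] at m2
  have e1 := ch_le (h' ∈ G.nb h)
  have e2 := ch_le (h ∈ G.nb h')
  have all : ∀ x, (G.N F \ G.nb x).card = 0 → ∀ y ∈ G.N F, x ∈ G.nb y := by
    intro x hx y hy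
    rw [Finset.card_eq_zero] at hx
    by_contra h1
    have : y ∈ G.N F \ G.nb x := mem_sdiff.2 ⟨hy, fun h2 => h1 (G.sym _ _ h2)⟩
    rw [hx] at this
    simp at this
  have a0 := all v (by omega)
  have a1 := all h (by omega)
  have a2 := all h' (by omega)
  set L := (G.N F).filter (fun y => G.Low y) with hL
  have hsub : G.N F ⊆ L ∪ L.biUnion (fun u => G.pT F u) := by
    intro y hy
    rw [mem_union, mem_biUnion]
    rcases c.cv (G.sym _ _ (a0 y hy)) with h1 | h1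
    · obtain ⟨u, h1, h2, -, h4⟩ := h1
      exact Or.inr ⟨u, mem_filter.2 ⟨h1, h2⟩, mem_pT.2 ⟨h4, hy⟩⟩
    · obtain ⟨a, h1, b, h2, h3, -⟩ := h1
      exact Or.inl (mem_filter.2 ⟨hy, c.hy.sat _ _ _ h3⟩)
  have hg : ∀ y ∈ L, (G.pT F y).card ≤ 1 ∧ 10 ≤ G.gam5 F y := by
    intro y hy
    rw [mem_filter] at hy
    have hd := c.dV hy.1 (a0 y hy.1)
    rw [ch1 (a1 y hy.1), ch1 (a2 y hy.1)] at hd
    rcases c.val hy.1 hy.2 with h1 | h1 | h1
    · omega
    · omega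
    · exact h1.2
  have h1 := card_le_card hsub
  have h2 := card_union_le L (L.biUnion (fun u => G.pT F u))
  have h3 := card_biUnion_le_card_mul L (fun u => G.pT F u) 1 (fun y hy => (hg y hy).1)
  have h4 : (G.N F).card = 6 := c.hy.fr.2.1
  have h5 : 3 ≤ L.card := by omega
  rw [c.sumL, ← hL]
  have h6 := card_nsmul_le_sum L (fun y => G.gam5 F y) 10 (fun y hy => (hg y hy).2)
  rw [nsmul_eq_mul] at h6
  have h7 : (3 : ℤ) ≤ (L.card : ℤ) := by exact_mod_cast h5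
  linarith

/-! ### the pair has one neighbour in `F` -/

open Classical in
theorem case1 (c : Cx G F h h' v w) (hC : G.StLCnt) (hv : h ∈ G.nb v) (hv' : h' ∉ G.nb v) :
    29 ≤ ∑ y ∈ G.N F, G.gam5 F y := by
  have m0 := c.missv
  rw [ch1 hv, ch0 hv'] at m0
  have m1 := c.missh
  have m2 := c.symm.missh
  rw [ch1 (G.sym _ _ hv)] at m1
  rw [ch0 (fun h1 => hv' (G.sym _ _ h1))] at m2
  have e1 := ch_le (h' ∈ G.nb h)
  have e2 := ch_le (h ∈ G.nb h')
  have a2 : ∀ y ∈ G.N F, h' ∈ G.nb y := by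
    intro y hy
    by_contra h1
    have h2 : y ∈ G.N F \ G.nb h' := mem_sdiff.2 ⟨hy, fun h2 => h1 (G.sym _ _ h2)⟩
    have h3 : 0 < (G.N F \ G.nb h').card := Finset.card_pos.2 ⟨y, h2⟩
    omega
  set Y := (G.N F).filter (fun y => v ∈ G.nb y) with hY
  have hYc : Y.card = 5 := by
    have h1 := card_sdiff_add_card_inter (G.N F) (G.nb v)
    have h4 : (G.N F).card = 6 := c.hy.fr.2.1
    have h2 : Y = G.N F ∩ G.nb v := by
      ext x
      rw [mem_filter, mem_inter]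
      exact ⟨fun h3 => ⟨h3.1, G.sym _ _ h3.2⟩, fun h3 => ⟨h3.1, G.sym _ _ h3.2⟩⟩
    rw [h2]
    omega
  set L := Y.filter (fun y => G.Low y) with hL
  have hLm : ∀ y, y ∈ L ↔ y ∈ G.N F ∧ v ∈ G.nb y ∧ G.Low y := by
    intro y
    rw [hL, hY, mem_filter, mem_filter, and_assoc]
  -- the counting lemma
  have hcnt := (hC c.hy.sat c.n9 F Y Y Subset.rfl (filter_subset _ _) v (by
    intro y hy
    rw [hY, mem_filter] at hy
    rcases c.cv (G.sym _ _ hy.2) with h1 | h1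
    · obtain ⟨u, h1, h2, h3, h4⟩ := h1
      exact Or.inl ⟨u, mem_filter.2 ⟨h1, h3⟩, h2, h4⟩
    · obtain ⟨a, h1, b, h2, h3, h4, h5⟩ := h1
      exact Or.inr (Or.inr (Or.inl ⟨a, mem_filter.2 ⟨h1, h5⟩, b, mem_filter.2 ⟨h2, h4⟩,
        h3⟩)))).1
  have htau : 5 ≤ ∑ y ∈ L, (G.pT F y).card := by
    have h1 : ∀ y ∈ Y, G.wt3 G.Tw y * ((G.tT G.Tw F y).card : ℤ) ≤
        if G.Low y then 2 * ((G.pT F y).card : ℤ) else 0 := by
      intro y hy
      have hyN := (mem_filter.1 hy).1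
      by_cases hl : G.Low y
      · rw [if_pos hl, wt3_low30 hl]
        have h2 : (G.tT G.Tw F y).card ≤ (G.pT F y).card := card_le_card fun u hu =>
          mem_pT.2 ⟨(mem_tT30.1 hu).1, (mem_tT30.1 hu).2.1⟩
        have h3 : ((G.tT G.Tw F y).card : ℤ) ≤ ((G.pT F y).card : ℤ) := by exact_mod_cast h2
        linarith
      · rw [if_neg hl]
        have h2 : G.wt3 G.Tw y = 0 := by
          unfold wt3
          rw [if_neg hl, if_neg (show ¬ IsQ G.Tw y from c.noTw hyN)]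
        rw [h2, zero_mul]
    have h2 := hcnt.trans (sum_le_sum h1)
    rw [← sum_filter, ← hL, ← mul_sum, hYc] at h2
    have h3 : (5 : ℤ) ≤ ((∑ y ∈ L, (G.pT F y).card : ℕ) : ℤ) := by
      push_cast
      push_cast at h2
      linarith
    exact_mod_cast h3
  -- the values
  have hg : ∀ y ∈ L, 10 - 4 * (ch (h ∉ G.nb y) : ℤ) ≤ G.gam5 F y ∧ (G.pT F y).card ≤ 2 ∧
      (G.d y F = 3 ∨ G.d y F = 4) := by
    intro y hy
    obtain ⟨h1, h2, h3⟩ := (hLm y).1 hy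
    have h4 := (c.gmu h1 h3 h2).1
    rw [ch0 (not_not.2 (a2 y h1))] at h4
    have hd := c.dV h1 h2
    rw [ch1 (a2 y h1)] at hd
    have h5 := ch_le (h ∈ G.nb y)
    refine ⟨by push_cast at h4; linarith, ?_, by omega⟩
    have h6 := c.lowd h1 h3
    omega
  have hmiss : ∑ y ∈ L, ch (h ∉ G.nb y) ≤ 2 := by
    have h1 : ∑ y ∈ L, ch (h ∉ G.nb y) = (L.filter (fun y => h ∉ G.nb y)).card := by
      rw [card_filter]
      refine sum_congr rfl fun y _ => ?_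
      by_cases h2 : h ∉ G.nb y
      · rw [ch1 h2, if_pos h2]
      · rw [ch0 h2, if_neg h2]
    rw [h1]
    have h2 : L.filter (fun y => h ∉ G.nb y) ⊆ G.N F \ G.nb h := by
      intro y hy
      rw [mem_filter] at hy
      exact mem_sdiff.2 ⟨((hLm y).1 hy.1).1, fun h3 => hy.2 (G.sym _ _ h3)⟩
    have h3 := card_le_card h2
    omega
  have hsum : ∑ y ∈ L, G.gam5 F y ≤ ∑ y ∈ G.N F, G.gam5 F y :=
    sum_le_sum_of_subset_of_nonneg (fun y hy => ((hLm y).1 hy).1) fun y hy _ => c.gam_nn hy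
  by_cases hk : 4 ≤ L.card
  · have h1 := sum_le_sum (fun y hy => (hg y hy).1)
    rw [sum_sub_distrib, sum_const, ← mul_sum, nsmul_eq_mul] at h1
    have h2 : ((∑ y ∈ L, ch (h ∉ G.nb y) : ℕ) : ℤ) ≤ 2 := by exact_mod_cast hmiss
    push_cast at h2
    have h3 : (4 : ℤ) ≤ (L.card : ℤ) := by exact_mod_cast hk
    linarith
  · have h1 : ∑ y ∈ L, (G.pT F y).card ≤ L.card * 2 := by
      have := sum_le_card_nsmul L (fun y => (G.pT F y).card) 2 (fun y hy => (hg y hy).2.1)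
      rw [smul_eq_mul] at this
      exact this
    have h2 : L.card = 3 := by omega
    obtain ⟨x, y, z, hxy, hxz, hyz, hLe⟩ := Finset.card_eq_three.1 h2
    have hx : x ∈ L := by rw [hLe]; simp
    have hy : y ∈ L := by rw [hLe]; simp
    have hz : z ∈ L := by rw [hLe]; simp
    have s3 : ∀ {M : Type} [AddCommMonoid M] (f : V → M), ∑ u ∈ L, f u = f x + (f y + f z) := by
      intro M _ f
      rw [hLe, sum_insert, sum_pair hyz]
      rw [mem_insert, mem_singleton, not_or]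
      exact ⟨hxy, hxz⟩
    rw [s3] at htau hmiss
    rw [s3] at hsum
    have vx := c.val ((hLm x).1 hx).1 ((hLm x).1 hx).2.2
    have vy := c.val ((hLm y).1 hy).1 ((hLm y).1 hy).2.2
    have vz := c.val ((hLm z).1 hz).1 ((hLm z).1 hz).2.2
    have dx := (hg x hx).2.2
    have dy := (hg y hy).2.2
    have dz := (hg z hz).2.2
    have fx := c.dV ((hLm x).1 hx).1 ((hLm x).1 hx).2.1
    have fy := c.dV ((hLm y).1 hy).1 ((hLm y).1 hy).2.1
    have fz := c.dV ((hLm z).1 hz).1 ((hLm z).1 hz).2.1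
    rw [ch1 (a2 _ ((hLm x).1 hx).1)] at fx
    rw [ch1 (a2 _ ((hLm y).1 hy).1)] at fy
    rw [ch1 (a2 _ ((hLm z).1 hz).1)] at fz
    have cpl : ∀ u, ch (h ∈ G.nb u) + ch (h ∉ G.nb u) = 1 := by
      intro u
      by_cases h3 : h ∈ G.nb u
      · rw [ch1 h3, ch0 (not_not.2 h3)]
      · rw [ch0 h3, ch1 h3]
    have cx := cpl x
    have cy := cpl y
    have cz := cpl z
    rcases vx with ⟨k1, k2, k3⟩ | ⟨k1, k2, k3, k4⟩ | ⟨k1, k2, k3⟩
    · omega
    all_goals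
      rcases vy with ⟨l1, l2, l3⟩ | ⟨l1, l2, l3, l4⟩ | ⟨l1, l2, l3⟩
      · omega
    all_goals
      rcases vz with ⟨m1', m2', m3'⟩ | ⟨m1', m2', m3', m4'⟩ | ⟨m1', m2', m3'⟩
      · omega
    all_goals omega

end Cx

/-! ### both hubs are adjacent to the pair -/

/-- the situation: `a`, `a'` are the vertices of `N F` that miss the pair -/
structure Dx (G : CG V) (F : Finset V) (h h' v w a a' : V) : Prop where
  c : Cx G F h h' v w
  vh : h ∈ G.nb v
  vh' : h' ∈ G.nb v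
  aN : a ∈ G.N F
  aN' : a' ∈ G.N F
  av : v ∉ G.nb a
  av' : v ∉ G.nb a'
  aa : a ≠ a'
  all : ∀ x ∈ G.N F, v ∉ G.nb x → x = a ∨ x = a'

namespace Dx

variable {a a' : V}

/-- exchange the hubs -/
theorem sH (c : Dx G F h h' v w a a') : Dx G F h' h v w a a' where
  c := c.c.symm
  vh := c.vh'
  vh' := c.vh
  aN := c.aN
  aN' := c.aN'
  av := c.av
  av' := c.av'
  aa := c.aa
  all := c.all

/-- exchange the two vertices -/
theorem sA (c : Dx G F h h' v w a a') : Dx G F h h' v w a' a where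
  c := c.c
  vh := c.vh
  vh' := c.vh'
  aN := c.aN'
  aN' := c.aN
  av := c.av'
  av' := c.av
  aa := c.aa.symm
  all := fun x hx h1 => (c.all x hx h1).symm

theorem ah (c : Dx G F h h' v w a a') : h ∈ G.nb a := by
  have h1 := c.c.hy.f2 a c.aN
  have h2 := c.c.dF c.aN
  rw [ch0 c.av] at h2
  have h3 := ch_le (h ∈ G.nb a)
  have h4 := ch_le (h' ∈ G.nb a)
  exact ch_iff.1 (by omega)

theorem inA (c : Dx G F h h' v w a a') {x : V} (hx : x ∈ G.N F) (h1 : x ≠ a) (h2 : x ≠ a') :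
    v ∈ G.nb x := by
  by_contra h3
  rcases c.all x hx h3 with h4 | h4
  · exact h1 h4
  · exact h2 h4

/-- a vertex adjacent to `v` is not `a` -/
theorem nea (c : Dx G F h h' v w a a') {x : V} (h1 : v ∈ G.nb x) : x ≠ a := by
  rintro rfl
  exact c.av h1

/-- a low `a` has a neighbour in `N F` -/
theorem aval (c : Dx G F h h' v w a a') (hl : G.Low a) : 4 ≤ G.gam5 F a := by
  have ht : 1 ≤ (G.pT F a).card := by
    rw [Nat.succ_le_iff, Finset.card_pos]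
    rcases c.c.chv (G.sym _ _ c.ah) c.av with h1 | h1 | h1
    · obtain ⟨u, h1, -, -, h4⟩ := h1
      exact ⟨u, mem_pT.2 ⟨G.sym _ _ h4, h1⟩⟩
    · obtain ⟨x, h1, b, h2, h3, -⟩ := h1
      exact ⟨x, mem_pT.2 ⟨G.sym _ _ (HL_t76 h3), h1⟩⟩
    · obtain ⟨x, h1, b, h2, h3⟩ := h1
      exact ⟨b, mem_pT.2 ⟨G.sym _ _ (LL_u76 h3), h2⟩⟩
  have hd : G.d a F = 2 := by
    have h1 := c.c.hy.f2 a c.aN
    have h2 := c.c.dF c.aN
    rw [ch0 c.av] at h2
    have h3 := ch_le (h ∈ G.nb a)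
    have h4 := ch_le (h' ∈ G.nb a)
    omega
  have h1 := c.c.val c.aN hl
  rcases h1 with ⟨k1, k2, k3⟩ | ⟨k1, k2, k3, k4⟩ | ⟨k1, k2, k3⟩
  · omega
  · omega
  · omega

/-- `a` has a low neighbour adjacent to `v`, if `a` and `a'` are not low -/
theorem A1 (c : Dx G F h h' v w a a') (hl : ¬ G.Low a) (hl' : ¬ G.Low a') :
    ∃ d ∈ G.N F, G.Low d ∧ v ∈ G.nb d ∧ a ∈ G.nb d := by
  rcases c.c.chv (G.sym _ _ c.ah) c.av with h1 | h1 | h1
  · obtain ⟨u, h1, h2, h3, h4⟩ := h1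
    refine ⟨u, h1, h2, c.inA h1 ?_ ?_, h4⟩
    · rintro rfl
      exact hl h2
    · rintro rfl
      exact hl' h2
  · obtain ⟨x, h1, b, h2, h3, -⟩ := h1
    exact absurd (c.c.hy.sat _ _ _ h3) hl
  · obtain ⟨x, h1, b, h2, h3⟩ := h1
    refine ⟨b, h2, h3.2.1, c.inA h2 ?_ ?_, LL_u76 h3⟩
    · rintro rfl
      exact hl h3.2.1
    · rintro rfl
      exact hl' h3.2.1

/-- if no low vertex adjacent to `v` is adjacent to `a` or `a'` -/
theorem A0 (c : Dx G F h h' v w a a')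
    (hw : ∀ d ∈ G.N F, G.Low d → v ∈ G.nb d → a ∉ G.nb d ∧ a' ∉ G.nb d) :
    (G.Low a' ∧ a' ∈ G.nb a) ∨ ∃ g ∈ G.N F, ∃ b ∈ G.N F, G.HL g b a ∧ v ∈ G.nb g ∧ v ∈ G.nb b ∧
      h ∈ G.nb b := by
  rcases c.c.chv (G.sym _ _ c.ah) c.av with h1 | h1 | h1
  · obtain ⟨u, h1, h2, h3, h4⟩ := h1
    left
    by_cases hv : v ∈ G.nb u
    · exact absurd h4 (hw u h1 h2 hv).1
    · rcases c.all u h1 hv with h5 | h5
      · rw [h5] at h4
        exact absurd h4 (G.irr _)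
      · rw [h5] at h2 h4
        exact ⟨h2, G.sym _ _ h4⟩
  · obtain ⟨x, h1, b, h2, h3, h4, h5⟩ := h1
    have hax : a ∈ G.nb x := HL_t76 h3
    have hbx : b ∈ G.nb x := HL_b76 h3
    have hvb : v ∈ G.nb b := by
      by_contra hv
      rcases c.all b h2 hv with h6 | h6
      · exact (HL_bt76 h3).2 h6.symm
      · have hvx : v ∈ G.nb x := by
          refine c.inA h1 (ne_of_nb5 hax) ?_
          rw [← h6]
          exact ne_of_nb5 hbx
        rcases HL_sup76 h3 hvx (c.c.nev c.aN).symm with h7 | h7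
        · exact c.c.nev h2 h7.symm
        · exact hv h7
    right
    refine ⟨x, h1, b, h2, h3, ?_, hvb, h4⟩
    refine c.inA h1 (ne_of_nb5 hax) ?_
    rintro rfl
    exact (hw b h2 h3.2.1 hvb).2 (G.sym _ _ hbx)
  · exfalso
    obtain ⟨x, h1, b, h2, h3⟩ := h1
    have hab : a ∈ G.nb b := LL_u76 h3
    have hhb := LL_tb76 h3
    by_cases hv : v ∈ G.nb b
    · exact (hw b h2 h3.2.1 hv).1 hab
    · rcases c.all b h2 hv with h5 | h5
      · rw [h5] at hab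
        exact G.irr _ hab
      · rw [h5] at hhb
        exact hhb.1 c.sA.ah

/-- the sum over `N F` is at least the sum over some low vertices -/
theorem sumge (c : Dx G F h h' v w a a') (S : Finset V) (hS : ∀ x ∈ S, x ∈ G.N F ∧ v ∈ G.nb x) :
    G.gam5 F a + (G.gam5 F a' + ∑ y ∈ S, G.gam5 F y) ≤ ∑ y ∈ G.N F, G.gam5 F y := by
  have h1 : a' ∉ S := fun h2 => c.av' (hS a' h2).2
  have h2 : a ∉ insert a' S := by
    intro h3
    rcases mem_insert.1 h3 with h4 | h4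
    · exact c.aa h4
    · exact c.av (hS a h4).2
  rw [← sum_insert (f := fun y => G.gam5 F y) h1, ← sum_insert (f := fun y => G.gam5 F y) h2]
  refine sum_le_sum_of_subset_of_nonneg ?_ fun x hx _ => c.c.gam_nn hx
  intro x hx
  rcases mem_insert.1 hx with h3 | h3
  · rw [h3]
    exact c.aN
  · rcases mem_insert.1 h3 with h4 | h4
    · rw [h4]
      exact c.aN'
    · exact (hS x h4).1

/-- the misses of `h` -/
theorem miss2 (c : Dx G F h h' v w a a') : (G.N F \ G.nb h).card ≤ 2 := by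
  have m1 := c.c.missh
  have e1 := ch_le (h' ∈ G.nb h)
  have e2 := ch_le (v ∈ G.nb h)
  omega

/-- all four vertices adjacent to `v` are low -/
theorem k4 (c : Dx G F h h' v w a a') (Y : Finset V) (hY : Y.card = 4)
    (hYm : ∀ y, y ∈ Y ↔ y ∈ G.N F ∧ v ∈ G.nb y) (hlow : ∀ y ∈ Y, G.Low y) :
    29 ≤ ∑ y ∈ G.N F, G.gam5 F y := by
  classical
  have hs := c.sumge Y (fun x hx => (hYm x).1 hx)
  have n1 := c.c.gam_nn c.aN
  have n2 := c.c.gam_nn c.aN'
  have hmiss : ∀ x, (G.N F \ G.nb x).card ≤ 2 → ∑ y ∈ Y, ch (x ∉ G.nb y) ≤ 2 := by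
    intro x hx
    have h1 : ∑ y ∈ Y, ch (x ∉ G.nb y) = (Y.filter (fun y => x ∉ G.nb y)).card := by
      rw [card_filter]
      refine sum_congr rfl fun y _ => ?_
      by_cases h2 : x ∉ G.nb y
      · rw [ch1 h2, if_pos h2]
      · rw [ch0 h2, if_neg h2]
    rw [h1]
    have h2 : Y.filter (fun y => x ∉ G.nb y) ⊆ G.N F \ G.nb x := by
      intro y hy
      rw [mem_filter] at hy
      exact mem_sdiff.2 ⟨((hYm y).1 hy.1).1, fun h3 => hy.2 (G.sym _ _ h3)⟩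
    exact (card_le_card h2).trans hx
  have q1 := hmiss h c.miss2
  have q2 := hmiss h' c.sH.miss2
  have q1' : ((∑ y ∈ Y, ch (h ∉ G.nb y) : ℕ) : ℤ) ≤ 2 := by exact_mod_cast q1
  have q2' : ((∑ y ∈ Y, ch (h' ∉ G.nb y) : ℕ) : ℤ) ≤ 2 := by exact_mod_cast q2
  push_cast at q1' q2'
  have hg : ∀ y ∈ Y, 10 - 4 * ((ch (h ∉ G.nb y) : ℤ) + (ch (h' ∉ G.nb y) : ℤ)) ≤ G.gam5 F y :=
    fun y hy => (c.c.gmu ((hYm y).1 hy).1 (hlow y hy) ((hYm y).1 hy).2).1
  by_cases h2 : ∃ y ∈ Y, 2 ≤ (G.pT F y).card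
  · obtain ⟨y, hy, h3⟩ := h2
    exfalso
    have h4 : ∀ x ∈ Y, 1 + (if x = y then 1 else 0) ≤ ch (h ∉ G.nb x) + ch (h' ∉ G.nb x) := by
      intro x hx
      obtain ⟨hxN, hxv⟩ := (hYm x).1 hx
      have h5 : 1 ≤ (G.pT F x).card := by
        rw [Nat.succ_le_iff, Finset.card_pos]
        rcases c.c.cv (G.sym _ _ hxv) with ⟨u, h1, -, -, h6⟩ | ⟨u, h1, b, -, h6, -, -⟩
        · exact ⟨u, mem_pT.2 ⟨G.sym _ _ h6, h1⟩⟩
        · exact ⟨u, mem_pT.2 ⟨G.sym _ _ (HL_t76 h6), h1⟩⟩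
      have h6 := c.c.hy.o x hxN (hlow x hx)
      have h7 := c.c.dV hxN hxv
      have e1 : ch (h ∈ G.nb x) + ch (h ∉ G.nb x) = 1 := by
        by_cases h3 : h ∈ G.nb x
        · rw [ch1 h3, ch0 (not_not.2 h3)]
        · rw [ch0 h3, ch1 h3]
      have e2 : ch (h' ∈ G.nb x) + ch (h' ∉ G.nb x) = 1 := by
        by_cases h3 : h' ∈ G.nb x
        · rw [ch1 h3, ch0 (not_not.2 h3)]
        · rw [ch0 h3, ch1 h3]
      by_cases h8 : x = y
      · rw [if_pos h8]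
        rw [← h8] at h3
        omega
      · rw [if_neg h8]
        omega
    have h5 := sum_le_sum h4
    rw [sum_add_distrib, sum_add_distrib, sum_const, sum_ite_eq' Y y (fun _ => 1), if_pos hy, hY,
      smul_eq_mul] at h5
    omega
  · have h2' : ∀ y ∈ Y, (G.pT F y).card ≤ 1 := by
      intro y hy
      by_contra h3
      exact h2 ⟨y, hy, by omega⟩
    have h5 := sum_le_sum hg
    rw [sum_sub_distrib, sum_const, ← mul_sum, sum_add_distrib, nsmul_eq_mul, hY] at h5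
    push_cast at h5
    -- every vertex of `Y` has its neighbour in `Y`
    have hnb : ∀ y ∈ Y, ∃ u ∈ Y, G.pT F y = {u} := by
      intro y hy
      obtain ⟨hyN, hyv⟩ := (hYm y).1 hy
      rcases c.c.cv (G.sym _ _ hyv) with h1 | h1
      · obtain ⟨u, h1, h3, h4, h6⟩ := h1
        refine ⟨u, (hYm u).2 ⟨h1, h4⟩, ?_⟩
        symm
        apply eq_of_subset_of_card_le
        · intro x hx
          rw [mem_singleton] at hx
          rw [hx]
          exact mem_pT.2 ⟨G.sym _ _ h6, h1⟩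
        · rw [card_singleton]
          exact h2' y hy
      · exfalso
        obtain ⟨x, h1, b, h3, h4, h6, h7⟩ := h1
        exact HL_not_low76 h4 (hlow x ((hYm x).2 ⟨h1, h7⟩))
    have hw : ∀ d ∈ G.N F, G.Low d → v ∈ G.nb d → a ∉ G.nb d ∧ a' ∉ G.nb d := by
      intro d h1 _ h3
      obtain ⟨u, hu, hpu⟩ := hnb d ((hYm d).2 ⟨h1, h3⟩)
      have huv := ((hYm u).1 hu).2
      constructor
      · intro h4
        have h6 : a ∈ G.pT F d := mem_pT.2 ⟨h4, c.aN⟩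
        rw [hpu, mem_singleton] at h6
        exact c.av (h6 ▸ huv)
      · intro h4
        have h6 : a' ∈ G.pT F d := mem_pT.2 ⟨h4, c.aN'⟩
        rw [hpu, mem_singleton] at h6
        exact c.av' (h6 ▸ huv)
    have key : ∀ a a', Dx G F h h' v w a a' →
        (∀ d ∈ G.N F, G.Low d → v ∈ G.nb d → a ∉ G.nb d ∧ a' ∉ G.nb d) → G.Low a' := by
      intro a a' c hw
      rcases c.A0 hw with h1 | h1
      · exact h1.1
      · exfalso
        obtain ⟨g, h1, b, -, h3, h4, -⟩ := h1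
        exact HL_not_low76 h3 (hlow g ((hYm g).2 ⟨h1, h4⟩))
    have v1 := c.sA.aval (key a a' c hw)
    have v2 := c.aval (key a' a c.sA (fun d h1 h3 h4 => (hw d h1 h3 h4).symm))
    linarith

theorem chs (x y : V) : ch (x ∈ G.nb y) = ch (y ∈ G.nb x) := by
  by_cases h1 : x ∈ G.nb y
  · rw [ch1 h1, ch1 (G.sym _ _ h1)]
  · rw [ch0 h1, ch0 (fun h2 => h1 (G.sym _ _ h2))]

/-- a hub of `HL g b a`, `b` adjacent to the pair: then `b` sees both hubs if `g` does -/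
theorem HLsee (c : Dx G F h h' v w a a') {g b t x : V} (hb : b ∈ G.N F) (ht : t ∈ G.N F)
    (h1 : G.HL g b t) (hx : x ∈ F) (hxg : x ∈ G.nb g) : x ∈ G.nb b := by
  have h2 : x ≠ t := by
    rintro rfl
    exact c.c.notF ht hx
  rcases HL_sup76 h1 hxg h2 with h3 | h3
  · exact absurd (h3 ▸ hx) (c.c.notF hb)
  · exact h3

theorem HLsee' (c : Dx G F h h' v w a a') {g b t x : V} (hg : g ∈ G.N F)
    (h1 : G.HL g b t) (hx : x ∈ F) (hxb : x ∈ G.nb b) : x ∈ G.nb g := by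
  refine HL_sub76 h1 hxb ?_
  rintro rfl
  exact c.c.notF hg hx

/-- three low vertices and a hub adjacent to `v` -/
theorem k3 (c : Dx G F h h' v w a a') {d1 d2 d3 g : V} (n1 : d1 ∈ G.N F) (n2 : d2 ∈ G.N F)
    (n3 : d3 ∈ G.N F) (gN : g ∈ G.N F) (l1 : G.Low d1) (l2 : G.Low d2) (l3 : G.Low d3)
    (gl : ¬ G.Low g) (v1 : v ∈ G.nb d1) (v2 : v ∈ G.nb d2) (v3 : v ∈ G.nb d3) (gv : v ∈ G.nb g)
    (d12 : d1 ≠ d2) (d13 : d1 ≠ d3) (d23 : d2 ≠ d3)
    (all : ∀ x ∈ G.N F, x = d1 ∨ x = d2 ∨ x = d3 ∨ x = g ∨ x = a ∨ x = a') :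
    29 ≤ ∑ y ∈ G.N F, G.gam5 F y := by
  have hT6 : (G.N F).card = 6 := c.c.hy.fr.2.1
  have hs := c.sumge {d1, d2, d3} (by
    intro x hx
    simp only [mem_insert, mem_singleton] at hx
    rcases hx with rfl | rfl | rfl
    exacts [⟨n1, v1⟩, ⟨n2, v2⟩, ⟨n3, v3⟩])
  rw [sum_insert (by simp only [mem_insert, mem_singleton, not_or]; exact ⟨d12, d13⟩),
    sum_pair d23] at hs
  have g1n : d1 ≠ g := by
    rintro rfl
    exact gl l1
  have g2n : d2 ≠ g := by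
    rintro rfl
    exact gl l2
  have g3n : d3 ≠ g := by
    rintro rfl
    exact gl l3
  -- covers
  have cov : ∀ d ∈ G.N F, v ∈ G.nb d →
      ∃ e, (e = d1 ∨ e = d2 ∨ e = d3) ∧ e ≠ d ∧ (d ∈ G.nb e ∨ G.HL g e d) := by
    intro d hd hv
    have hlow : ∀ x ∈ G.N F, G.Low x → v ∈ G.nb x → x = d1 ∨ x = d2 ∨ x = d3 := by
      intro x hx hl hxv
      rcases all x hx with h1 | h1 | h1 | h1 | h1 | h1
      · exact Or.inl h1
      · exact Or.inr (Or.inl h1)
      · exact Or.inr (Or.inr h1)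
      · exact absurd (h1 ▸ hl) gl
      · exact absurd h1 (c.nea hxv)
      · exact absurd h1 (c.sA.nea hxv)
    rcases c.c.cv (G.sym _ _ hv) with h1 | h1
    · obtain ⟨u, h1, h2, h3, h4⟩ := h1
      exact ⟨u, hlow u h1 h2 h3, ne_of_nb5 h4, Or.inl h4⟩
    · obtain ⟨x, h1, b, h2, h3, h4, h5⟩ := h1
      have hxg : x = g := by
        have h6 := HL_not_low76 h3
        rcases all x h1 with h7 | h7 | h7 | h7 | h7 | h7
        · exact absurd (h7 ▸ l1) h6
        · exact absurd (h7 ▸ l2) h6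
        · exact absurd (h7 ▸ l3) h6
        · exact h7
        · exact absurd h7 (c.nea h5)
        · exact absurd h7 (c.sA.nea h5)
      rw [hxg] at h3
      exact ⟨b, hlow b h2 h3.2.1 h4, (HL_bt76 h3).2.symm, Or.inr h3⟩
  -- numbers of neighbours
  have hcard : ∀ d, (G.pT F d).card = ch (d1 ∈ G.nb d) + (ch (d2 ∈ G.nb d) + (ch (d3 ∈ G.nb d) +
      (ch (g ∈ G.nb d) + (ch (a ∈ G.nb d) + ch (a' ∈ G.nb d))))) := by
    intro d
    rw [pT, card_ch, sum6 all hT6]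
  have t1 := hcard d1
  have t2 := hcard d2
  have t3 := hcard d3
  rw [ch0 (G.irr d1)] at t1
  rw [ch0 (G.irr d2), chs d1 d2] at t2
  rw [ch0 (G.irr d3), chs d1 d3, chs d2 d3] at t3
  -- the neighbours of `g`
  have hg1 : 1 ≤ ch (g ∈ G.nb d1) + ch (g ∈ G.nb d2) + ch (g ∈ G.nb d3) := by
    obtain ⟨e, he, -, h1⟩ := cov g gN gv
    rcases h1 with h1 | h1
    · rcases he with rfl | rfl | rfl <;> rw [ch1 h1] <;> omega
    · exact absurd (HL_t76 h1) (G.irr _)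
  have one : ∀ p q r, (∃ e, (e = p ∨ e = q ∨ e = r) ∧ e ≠ r ∧ (r ∈ G.nb e ∨ G.HL g e r)) →
      q ∈ G.nb p → r ∉ G.nb p → r ∉ G.nb q → p ≠ g → q ≠ g →
      g ∈ G.nb p ∧ g ∈ G.nb q ∧ g ∈ G.nb r := by
    intro p q r h1 h2 h3 h4 h5 h6
    obtain ⟨e, he, her, h7⟩ := h1
    rcases he with rfl | rfl | rfl
    · have h8 := h7.resolve_left h3
      exact ⟨G.sym _ _ (HL_b76 h8), G.sym _ _ (HL_sub76 h8 h2 h6), G.sym _ _ (HL_t76 h8)⟩
    · have h8 := h7.resolve_left h4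
      exact ⟨G.sym _ _ (HL_sub76 h8 (G.sym _ _ h2) h5), G.sym _ _ (HL_b76 h8),
        G.sym _ _ (HL_t76 h8)⟩
    · exact absurd rfl her
  have htau : 5 + (ch (a ∈ G.nb d1) + ch (a' ∈ G.nb d1) + (ch (a ∈ G.nb d2) +
      ch (a' ∈ G.nb d2)) + (ch (a ∈ G.nb d3) + ch (a' ∈ G.nb d3))) ≤
      (G.pT F d1).card + (G.pT F d2).card + (G.pT F d3).card := by
    by_cases x12 : d2 ∈ G.nb d1
    · by_cases x13 : d3 ∈ G.nb d1
      · rw [ch1 x12] at t1 t2
        rw [ch1 x13] at t1 t3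
        omega
      · by_cases x23 : d3 ∈ G.nb d2
        · rw [ch1 x12] at t1 t2
          rw [ch1 x23] at t2 t3
          omega
        · obtain ⟨k1, k2, k3⟩ := one d1 d2 d3 (cov d3 n3 v3) x12 x13 x23 g1n g2n
          rw [ch1 x12, ch1 k1] at t1
          rw [ch1 x12, ch1 k2] at t2
          rw [ch1 k3] at t3
          omega
    · by_cases x13 : d3 ∈ G.nb d1
      · by_cases x23 : d3 ∈ G.nb d2
        · rw [ch1 x13] at t1 t3
          rw [ch1 x23] at t2 t3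
          omega
        · obtain ⟨k1, k2, k3⟩ := one d1 d3 d2 (by
            obtain ⟨e, he, h1⟩ := cov d2 n2 v2
            exact ⟨e, by tauto, h1⟩) x13 x12 (fun h1 => x23 (G.sym _ _ h1)) g1n g3n
          rw [ch1 x13, ch1 k1] at t1
          rw [ch1 k3] at t2
          rw [ch1 x13, ch1 k2] at t3
          omega
      · by_cases x23 : d3 ∈ G.nb d2
        · obtain ⟨k1, k2, k3⟩ := one d2 d3 d1 (by
            obtain ⟨e, he, h1⟩ := cov d1 n1 v1
            exact ⟨e, by tauto, h1⟩) x23 (fun h1 => x12 (G.sym _ _ h1))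
            (fun h1 => x13 (G.sym _ _ h1)) g2n g3n
          rw [ch1 k3] at t1
          rw [ch1 x23, ch1 k1] at t2
          rw [ch1 x23, ch1 k2] at t3
          omega
        · exfalso
          obtain ⟨e, he, hne, h1⟩ := cov d1 n1 v1
          obtain ⟨e', he', hne', h1'⟩ := cov d2 n2 v2
          have h2 : G.HL g e d1 := by
            rcases h1 with h1 | h1
            · exfalso
              rcases he with rfl | rfl | rfl
              · exact hne rfl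
              · exact x12 (G.sym _ _ h1)
              · exact x13 (G.sym _ _ h1)
            · exact h1
          have h2' : G.HL g e' d2 := by
            rcases h1' with h1' | h1'
            · exfalso
              rcases he' with rfl | rfl | rfl
              · exact x12 h1'
              · exact hne' rfl
              · exact x23 (G.sym _ _ h1')
            · exact h1'
          have h3 := ((stTwHL_5 G).two c.c.n9 _ _ _ _ _ h2 h2' d12).1
          rcases he with rfl | rfl | rfl <;> rcases he' with rfl | rfl | rfl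
          · exact hne rfl
          · exact hne rfl
          · exact hne rfl
          · exact x12 h3
          · exact G.irr _ h3
          · exact x23 (G.sym _ _ h3)
          · exact x13 h3
          · exact hne' rfl
          · exact G.irr _ h3
  -- the vertices `a`, `a'`
  have gA0 := c.c.gam_nn c.aN
  have gA0' := c.c.gam_nn c.aN'
  set W := ch (a ∈ G.nb d1) + ch (a' ∈ G.nb d1) + (ch (a ∈ G.nb d2) +
      ch (a' ∈ G.nb d2)) + (ch (a ∈ G.nb d3) + ch (a' ∈ G.nb d3)) with hW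
  have gA : (W = 0 → 8 ≤ G.gam5 F a + G.gam5 F a') ∧
      (4 ≤ G.gam5 F a + G.gam5 F a' ∨ 2 ≤ W) := by
    constructor
    · intro hW0
      have z1 : a ∉ G.nb d1 := ch_eq0.1 (by omega)
      have z2 : a' ∉ G.nb d1 := ch_eq0.1 (by omega)
      have z3 : a ∉ G.nb d2 := ch_eq0.1 (by omega)
      have z4 : a' ∉ G.nb d2 := ch_eq0.1 (by omega)
      have z5 : a ∉ G.nb d3 := ch_eq0.1 (by omega)
      have z6 : a' ∉ G.nb d3 := ch_eq0.1 (by omega)
      have hw : ∀ d ∈ G.N F, G.Low d → v ∈ G.nb d → a ∉ G.nb d ∧ a' ∉ G.nb d := by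
        intro d h1 h2 h3
        rcases all d h1 with rfl | rfl | rfl | rfl | rfl | rfl
        · exact ⟨z1, z2⟩
        · exact ⟨z3, z4⟩
        · exact ⟨z5, z6⟩
        · exact absurd h2 gl
        · exact absurd h3 c.av
        · exact absurd h3 c.av'
      have key : ∀ a a', Dx G F h h' v w a a' →
          (∀ x ∈ G.N F, x = d1 ∨ x = d2 ∨ x = d3 ∨ x = g ∨ x = a ∨ x = a') →
          (∀ d ∈ G.N F, G.Low d → v ∈ G.nb d → a ∉ G.nb d ∧ a' ∉ G.nb d) → G.Low a' := by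
        intro a a' c all hw
        rcases c.A0 hw with h1 | ⟨g1, k1, b1, k2, k3, k4, k5, k6⟩
        · exact h1.1
        rcases c.sH.A0 hw with h1 | ⟨g2, m1, b2, m2, m3, m4, m5, m6⟩
        · exact h1.1
        exfalso
        have hgg : ∀ x ∈ G.N F, v ∈ G.nb x → ¬ G.Low x → x = g := by
          intro x h1 h2 h3
          rcases all x h1 with h7 | h7 | h7 | h7 | h7 | h7
          · exact absurd (h7 ▸ l1) h3
          · exact absurd (h7 ▸ l2) h3
          · exact absurd (h7 ▸ l3) h3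
          · exact h7
          · exact absurd h7 (c.nea h2)
          · exact absurd h7 (c.sA.nea h2)
        have e1 := hgg g1 k1 k4 (HL_not_low76 k3)
        have e2 := hgg g2 m1 m4 (HL_not_low76 m3)
        rw [e1] at k3
        rw [e2] at m3
        -- `b1` sees both hubs
        have s1 : h' ∈ G.nb g := c.HLsee' gN m3 c.c.hF' m6
        have s2 : h' ∈ G.nb b1 := c.HLsee k2 c.aN k3 c.c.hF' s1
        have hd := c.c.dV k2 k5
        rw [ch1 k6, ch1 s2] at hd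
        have hb1 := k3.2.1
        have ht : (G.pT F b1).card ≤ 1 := by
          have := c.c.lowd k2 hb1
          omega
        have hg : ∀ x, x ∈ G.nb b1 → x ∈ G.N F → x = g := by
          intro x h1 h2
          by_contra h3
          have := two_le5 (a := x) (b := g) (mem_pT.2 ⟨h1, h2⟩)
            (mem_pT.2 ⟨G.sym _ _ (HL_b76 k3), gN⟩) h3
          omega
        obtain ⟨e, he, hne, h1⟩ := cov b1 k2 k5
        have heN : e ∈ G.N F ∧ G.Low e := by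
          rcases he with rfl | rfl | rfl
          exacts [⟨n1, l1⟩, ⟨n2, l2⟩, ⟨n3, l3⟩]
        rcases h1 with h1 | h1
        · rw [hg e (G.sym _ _ h1) heN.1] at heN
          exact gl heN.2
        · exact (stTwHL_5 G).nomut c.c.n9 _ _ _ _ _ h1 k3 rfl
      have w1 := c.sA.aval (key a a' c all hw)
      have w2 := c.aval (key a' a c.sA (fun x hx => by
        rcases all x hx with h7 | h7 | h7 | h7 | h7 | h7
        · exact Or.inl h7
        · exact Or.inr (Or.inl h7)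
        · exact Or.inr (Or.inr (Or.inl h7))
        · exact Or.inr (Or.inr (Or.inr (Or.inl h7)))
        · exact Or.inr (Or.inr (Or.inr (Or.inr (Or.inr h7))))
        · exact Or.inr (Or.inr (Or.inr (Or.inr (Or.inl h7)))))
        (fun d h1 h3 h4 => (hw d h1 h3 h4).symm))
      linarith
    · by_cases q1 : G.Low a
      · left
        have := c.aval q1
        linarith
      by_cases q2 : G.Low a'
      · left
        have := c.sA.aval q2
        linarith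
      right
      have p1 : 1 ≤ ch (a ∈ G.nb d1) + ch (a ∈ G.nb d2) + ch (a ∈ G.nb d3) := by
        obtain ⟨d, h1, h2, h3, h4⟩ := c.A1 q1 q2
        rcases all d h1 with rfl | rfl | rfl | rfl | rfl | rfl
        · rw [ch1 h4]
          omega
        · rw [ch1 h4]
          omega
        · rw [ch1 h4]
          omega
        · exact absurd h2 gl
        · exact absurd h3 c.av
        · exact absurd h3 c.av'
      have p2 : 1 ≤ ch (a' ∈ G.nb d1) + ch (a' ∈ G.nb d2) + ch (a' ∈ G.nb d3) := by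
        obtain ⟨d, h1, h2, h3, h4⟩ := c.sA.A1 q2 q1
        rcases all d h1 with rfl | rfl | rfl | rfl | rfl | rfl
        · rw [ch1 h4]
          omega
        · rw [ch1 h4]
          omega
        · rw [ch1 h4]
          omega
        · exact absurd h2 gl
        · exact absurd h3 c.av
        · exact absurd h3 c.av'
      omega
  clear_value W
  -- types
  have u1 := c.c.dV n1 v1
  have u2 := c.c.dV n2 v2
  have u3 := c.c.dV n3 v3
  have mh : ∀ x, (G.N F \ G.nb x).card ≤ 2 →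
      1 ≤ ch (x ∈ G.nb d1) + ch (x ∈ G.nb d2) + ch (x ∈ G.nb d3) := by
    intro x hx
    by_contra h1
    have y1 : x ∉ G.nb d1 := ch_eq0.1 (by omega)
    have y2 : x ∉ G.nb d2 := ch_eq0.1 (by omega)
    have y3 : x ∉ G.nb d3 := ch_eq0.1 (by omega)
    have := three_le33 (a := d1) (b := d2) (c := d3)
      (mem_sdiff.2 ⟨n1, fun h2 => y1 (G.sym _ _ h2)⟩)
      (mem_sdiff.2 ⟨n2, fun h2 => y2 (G.sym _ _ h2)⟩)
      (mem_sdiff.2 ⟨n3, fun h2 => y3 (G.sym _ _ h2)⟩) d12 d13 d23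
    omega
  have mh1 := mh h c.miss2
  have mh2 := mh h' c.sH.miss2
  have b0 : ∀ x y, x ∈ G.N F → y ∈ G.N F → x ≠ y →
      1 ≤ ch (h ∈ G.nb x) + ch (h' ∈ G.nb x) + ch (h ∈ G.nb y) + ch (h' ∈ G.nb y) := by
    intro x y hx hy hne
    by_contra h1
    exact c.c.B0one hx hy hne (ch_eq0.1 (by omega)) (ch_eq0.1 (by omega)) (ch_eq0.1 (by omega))
      (ch_eq0.1 (by omega))
  have b12 := b0 d1 d2 n1 n2 d12
  have b13 := b0 d1 d3 n1 n3 d13
  have b23 := b0 d2 d3 n2 n3 d23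
  have c1 := ch_le (h ∈ G.nb d1)
  have c2 := ch_le (h ∈ G.nb d2)
  have c3 := ch_le (h ∈ G.nb d3)
  have c1' := ch_le (h' ∈ G.nb d1)
  have c2' := ch_le (h' ∈ G.nb d2)
  have c3' := ch_le (h' ∈ G.nb d3)
  have w1 := c.c.hy.o d1 n1 l1
  have w2 := c.c.hy.o d2 n2 l2
  have w3 := c.c.hy.o d3 n3 l3
  exfalso
  omega

end Dx

/-- two low vertices and two hubs adjacent to `v` -/
structure K2 (G : CG V) (F : Finset V) (h h' v w a a' d1 d2 g g' : V) : Prop where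
  c : Dx G F h h' v w a a'
  n1 : d1 ∈ G.N F
  n2 : d2 ∈ G.N F
  gN : g ∈ G.N F
  gN' : g' ∈ G.N F
  l1 : G.Low d1
  l2 : G.Low d2
  gl : ¬ G.Low g
  gl' : ¬ G.Low g'
  v1 : v ∈ G.nb d1
  v2 : v ∈ G.nb d2
  gv : v ∈ G.nb g
  gv' : v ∈ G.nb g'
  d12 : d1 ≠ d2
  gg : g ≠ g'
  all : ∀ x ∈ G.N F, x = d1 ∨ x = d2 ∨ x = g ∨ x = g' ∨ x = a ∨ x = a'

namespace K2

variable {a a' d1 d2 g g' : V}

theorem sA (k : K2 G F h h' v w a a' d1 d2 g g') : K2 G F h h' v w a' a d1 d2 g g' where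
  c := k.c.sA
  n1 := k.n1
  n2 := k.n2
  gN := k.gN
  gN' := k.gN'
  l1 := k.l1
  l2 := k.l2
  gl := k.gl
  gl' := k.gl'
  v1 := k.v1
  v2 := k.v2
  gv := k.gv
  gv' := k.gv'
  d12 := k.d12
  gg := k.gg
  all := fun x hx => by
    have := k.all x hx
    tauto

theorem sH (k : K2 G F h h' v w a a' d1 d2 g g') : K2 G F h' h v w a a' d1 d2 g g' where
  c := k.c.sH
  n1 := k.n1
  n2 := k.n2
  gN := k.gN
  gN' := k.gN'
  l1 := k.l1
  l2 := k.l2
  gl := k.gl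
  gl' := k.gl'
  v1 := k.v1
  v2 := k.v2
  gv := k.gv
  gv' := k.gv'
  d12 := k.d12
  gg := k.gg
  all := k.all

theorem sD (k : K2 G F h h' v w a a' d1 d2 g g') : K2 G F h h' v w a a' d2 d1 g g' where
  c := k.c
  n1 := k.n2
  n2 := k.n1
  gN := k.gN
  gN' := k.gN'
  l1 := k.l2
  l2 := k.l1
  gl := k.gl
  gl' := k.gl'
  v1 := k.v2
  v2 := k.v1
  gv := k.gv
  gv' := k.gv'
  d12 := k.d12.symm
  gg := k.gg
  all := fun x hx => by
    have := k.all x hx
    tauto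

theorem sG (k : K2 G F h h' v w a a' d1 d2 g g') : K2 G F h h' v w a a' d1 d2 g' g where
  c := k.c
  n1 := k.n1
  n2 := k.n2
  gN := k.gN'
  gN' := k.gN
  l1 := k.l1
  l2 := k.l2
  gl := k.gl'
  gl' := k.gl
  v1 := k.v1
  v2 := k.v2
  gv := k.gv'
  gv' := k.gv
  d12 := k.d12
  gg := k.gg.symm
  all := fun x hx => by
    have := k.all x hx
    tauto

theorem lowY (k : K2 G F h h' v w a a' d1 d2 g g') {x : V} (hx : x ∈ G.N F) (hl : G.Low x)
    (hv : v ∈ G.nb x) : x = d1 ∨ x = d2 := by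
  rcases k.all x hx with h1 | h1 | h1 | h1 | h1 | h1
  · exact Or.inl h1
  · exact Or.inr h1
  · exact absurd (h1 ▸ hl) k.gl
  · exact absurd (h1 ▸ hl) k.gl'
  · exact absurd h1 (k.c.nea hv)
  · exact absurd h1 (k.c.sA.nea hv)

theorem hubY (k : K2 G F h h' v w a a' d1 d2 g g') {x : V} (hx : x ∈ G.N F) (hl : ¬ G.Low x)
    (hv : v ∈ G.nb x) : x = g ∨ x = g' := by
  rcases k.all x hx with h1 | h1 | h1 | h1 | h1 | h1
  · exact absurd (h1 ▸ k.l1) hl
  · exact absurd (h1 ▸ k.l2) hl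
  · exact Or.inl h1
  · exact Or.inr h1
  · exact absurd h1 (k.c.nea hv)
  · exact absurd h1 (k.c.sA.nea hv)

theorem cov (k : K2 G F h h' v w a a' d1 d2 g g') {d : V} (_hd : d ∈ G.N F) (hv : v ∈ G.nb d) :
    ∃ e, (e = d1 ∨ e = d2) ∧ e ≠ d ∧ (d ∈ G.nb e ∨ ∃ x, (x = g ∨ x = g') ∧ G.HL x e d) := by
  rcases k.c.c.cv (G.sym _ _ hv) with h1 | h1
  · obtain ⟨u, h1, h2, h3, h4⟩ := h1
    exact ⟨u, k.lowY h1 h2 h3, ne_of_nb5 h4, Or.inl h4⟩
  · obtain ⟨x, h1, b, h2, h3, h4, h5⟩ := h1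
    exact ⟨b, k.lowY h2 h3.2.1 h4, (HL_bt76 h3).2.symm,
      Or.inr ⟨x, k.hubY h1 (HL_not_low76 h3) h5, h3⟩⟩

/-- the hubs have a low neighbour -/
theorem covg (k : K2 G F h h' v w a a' d1 d2 g g') :
    1 ≤ ch (g ∈ G.nb d1) + ch (g ∈ G.nb d2) := by
  obtain ⟨e, he, -, h1⟩ := k.cov k.gN k.gv
  rcases h1 with h1 | ⟨x, -, h1⟩
  · rcases he with rfl | rfl <;> rw [ch1 h1] <;> omega
  · exact absurd (k.c.c.hy.sat _ _ _ h1) k.gl

/-- the low vertices are adjacent or they are both adjacent to both hubs -/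
theorem dich (k : K2 G F h h' v w a a' d1 d2 g g') : d2 ∈ G.nb d1 ∨
    (d2 ∉ G.nb d1 ∧ g ∈ G.nb d1 ∧ g ∈ G.nb d2 ∧ g' ∈ G.nb d1 ∧ g' ∈ G.nb d2) := by
  by_cases x12 : d2 ∈ G.nb d1
  · exact Or.inl x12
  right
  obtain ⟨e, he, hne, h1⟩ := k.cov k.n1 k.v1
  obtain ⟨e', he', hne', h1'⟩ := k.cov k.n2 k.v2
  have ee : e = d2 := he.resolve_left hne
  have ee' : e' = d1 := he'.resolve_right hne'
  subst ee
  subst ee'
  obtain ⟨x, hx, h2⟩ := h1.resolve_left (fun h3 => x12 (G.sym _ _ h3))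
  obtain ⟨y, hy, h2'⟩ := h1'.resolve_left x12
  have hxy : x ≠ y := by
    rintro rfl
    exact (stTwHL_5 G).nomut k.c.c.n9 _ _ _ _ _ h2 h2' rfl
  have p1 := G.sym _ _ (HL_b76 h2)
  have p2 := G.sym _ _ (HL_t76 h2)
  have p3 := G.sym _ _ (HL_b76 h2')
  have p4 := G.sym _ _ (HL_t76 h2')
  rcases hx with rfl | rfl <;> rcases hy with rfl | rfl
  · exact absurd rfl hxy
  · exact ⟨x12, p2, p1, p3, p4⟩
  · exact ⟨x12, p3, p4, p2, p1⟩
  · exact absurd rfl hxy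

theorem hsee (k : K2 G F h h' v w a a' d1 d2 g g') :
    1 ≤ ch (h ∈ G.nb d1) + ch (h ∈ G.nb d2) := by
  rcases k.c.c.cv k.c.vh with h1 | h1
  · obtain ⟨u, h1, h2, h3, h4⟩ := h1
    rcases k.lowY h1 h2 h3 with rfl | rfl <;> rw [ch1 h4] <;> omega
  · obtain ⟨x, -, b, -, h3, -⟩ := h1
    exact absurd (k.c.c.hy.sat _ _ _ h3) k.c.c.hh.1

theorem cards (k : K2 G F h h' v w a a' d1 d2 g g') :
    (G.pT F d1).card = ch (d2 ∈ G.nb d1) + (ch (g ∈ G.nb d1) + (ch (g' ∈ G.nb d1) +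
      (ch (a ∈ G.nb d1) + ch (a' ∈ G.nb d1)))) := by
  rw [pT, card_ch, sum6 k.all k.c.c.hy.fr.2.1, ch0 (G.irr d1), zero_add]

/-- the numbers -/
theorem nums (k : K2 G F h h' v w a a' d1 d2 g g') :
    (ch (a ∈ G.nb d1) = 0 ∧ ch (a' ∈ G.nb d1) = 0 ∧ ch (a ∈ G.nb d2) = 0 ∧
      ch (a' ∈ G.nb d2) = 0) ∧
    (ch (h ∈ G.nb d1) + ch (h ∈ G.nb d2) = 1) ∧ (ch (h' ∈ G.nb d1) + ch (h' ∈ G.nb d2) = 1) ∧
    (G.pT F d1).card + (ch (h ∈ G.nb d1) + ch (h' ∈ G.nb d1)) = 3 ∧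
    (G.pT F d2).card + (ch (h ∈ G.nb d2) + ch (h' ∈ G.nb d2)) = 3 := by
  have t1 := k.cards
  have t2 := k.sD.cards
  have u1 := k.c.c.dV k.n1 k.v1
  have u2 := k.c.c.dV k.n2 k.v2
  have w1 := k.c.c.lowd k.n1 k.l1
  have w2 := k.c.c.lowd k.n2 k.l2
  have s1 := k.hsee
  have s2 := k.sH.hsee
  have g1 := k.covg
  have g2 := k.sG.covg
  rw [Dx.chs d1 d2] at t2
  rcases k.dich with h1 | ⟨-, h1, h2, h3, h4⟩
  · rw [ch1 h1] at t1 t2
    omega
  · rw [ch1 h1, ch1 h3] at t1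
    rw [ch1 h2, ch1 h4] at t2
    omega

theorem noadj (k : K2 G F h h' v w a a' d1 d2 g g') :
    ∀ d ∈ G.N F, G.Low d → v ∈ G.nb d → a ∉ G.nb d ∧ a' ∉ G.nb d := by
  intro d h1 h2 h3
  obtain ⟨⟨z1, z2, z3, z4⟩, -⟩ := k.nums
  rcases k.lowY h1 h2 h3 with rfl | rfl
  · exact ⟨ch_eq0.1 z1, ch_eq0.1 z2⟩
  · exact ⟨ch_eq0.1 z3, ch_eq0.1 z4⟩

/-- `d1` sees both hubs of `F` -/
theorem low11 (k : K2 G F h h' v w a a' d1 d2 g g') (hh : h ∈ G.nb d1) (hh' : h' ∈ G.nb d1) :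
    d2 ∈ G.nb d1 ∧ (∀ x, x ∈ G.nb d1 → x ∈ G.N F → x = d2) ∧ G.Low a' := by
  obtain ⟨-, e1, e2, e3, e4⟩ := k.nums
  rw [ch1 hh] at e1
  rw [ch1 hh, ch1 hh'] at e3
  have x12 : d2 ∈ G.nb d1 := by
    rcases k.dich with h1 | ⟨-, h1, h2, h3, h4⟩
    · exact h1
    · exfalso
      have := two_le5 (a := g) (b := g') (mem_pT.2 ⟨h1, k.gN⟩) (mem_pT.2 ⟨h3, k.gN'⟩) k.gg
      omega
  have hp : ∀ x, x ∈ G.nb d1 → x ∈ G.N F → x = d2 := by
    intro x h1 h2
    by_contra h3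
    have := two_le5 (a := x) (b := d2) (mem_pT.2 ⟨h1, h2⟩) (mem_pT.2 ⟨x12, k.n2⟩) h3
    omega
  refine ⟨x12, hp, ?_⟩
  rcases k.c.A0 k.noadj with h1 | ⟨g1, k1, b1, k2, k3, k4, k5, k6⟩
  · exact h1.1
  · exfalso
    have hb : b1 = d1 := by
      rcases k.lowY k2 k3.2.1 k5 with h1 | h1
      · exact h1
      · rw [h1] at k6
        rw [ch1 k6] at e1
        omega
    rw [hb] at k3
    have := hp g1 (G.sym _ _ (HL_b76 k3)) k1
    rw [this] at k3
    exact HL_not_low76 k3 k.l2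

/-- `d1` sees `h` only -/
theorem low10 (k : K2 G F h h' v w a a' d1 d2 g g') (hh : h ∈ G.nb d1) (hh' : h' ∉ G.nb d1) :
    G.Low a' := by
  obtain ⟨-, e1, e2, e3, e4⟩ := k.nums
  rw [ch1 hh] at e1
  rw [ch0 hh'] at e2
  rw [ch1 hh, ch0 hh'] at e3
  have hd2 : ch (h ∈ G.nb d2) = 0 := by omega
  rcases k.c.A0 k.noadj with h1 | ⟨g1, k1, b1, k2, k3, k4, k5, k6⟩
  · exact h1.1
  exfalso
  have hb : b1 = d1 := by
    rcases k.lowY k2 k3.2.1 k5 with h1 | h1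
    · exact h1
    · rw [h1] at k6
      rw [ch1 k6] at hd2
      omega
  rw [hb] at k3
  have hg1l := HL_not_low76 k3
  have hg1 := k.hubY k1 hg1l k4
  have hg1d := G.sym _ _ (HL_b76 k3)
  have hd2g : d2 ≠ g1 := by
    rintro rfl
    exact hg1l k.l2
  rcases k.dich with x12 | ⟨x12, h1, h2, h3, h4⟩
  · have h5 := G.sym _ _ (HL_sub76 k3 x12 hd2g)
    have t1 := k.cards
    have t2 := k.sD.cards
    have y1 := k.covg
    have y2 := k.sG.covg
    rw [Dx.chs d1 d2] at t2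
    rw [ch1 x12] at t1 t2
    rcases hg1 with rfl | rfl
    · rw [ch1 hg1d] at t1
      rw [ch1 h5] at t2
      omega
    · rw [ch1 hg1d] at t1
      rw [ch1 h5] at t2
      omega
  · have h5 : d2 ∈ G.nb g1 := by
      rcases hg1 with rfl | rfl
      · exact G.sym _ _ h2
      · exact G.sym _ _ h4
    rcases HL_sup76 k3 h5 (k.c.nea k.v2) with h6 | h6
    · exact k.d12 h6.symm
    · exact x12 h6

/-- the sum -/
theorem main (k : K2 G F h h' v w a a' d1 d2 g g') : 29 ≤ ∑ y ∈ G.N F, G.gam5 F y := by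
  exfalso
  obtain ⟨-, -, -, e3, e4⟩ := k.nums
  have u1 := k.c.c.dV k.n1 k.v1
  have u2 := k.c.c.hy.o d1 k.n1 k.l1
  omega

end K2

theorem Dx.main {a a' : V} (c : Dx G F h h' v w a a') : 29 ≤ ∑ y ∈ G.N F, G.gam5 F y := by
  classical
  have hT6 : (G.N F).card = 6 := c.c.hy.fr.2.1
  have m0 := c.c.missv
  rw [ch1 c.vh, ch1 c.vh'] at m0
  set Y := (G.N F).filter (fun y => v ∈ G.nb y) with hY
  have hYm : ∀ y, y ∈ Y ↔ y ∈ G.N F ∧ v ∈ G.nb y := by
    intro y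
    rw [hY, mem_filter]
  have hYc : Y.card = 4 := by
    have h1 := card_sdiff_add_card_inter (G.N F) (G.nb v)
    have h2 : Y = G.N F ∩ G.nb v := by
      ext x
      rw [hYm, mem_inter]
      exact ⟨fun h3 => ⟨h3.1, G.sym _ _ h3.2⟩, fun h3 => ⟨h3.1, G.sym _ _ h3.2⟩⟩
    rw [h2]
    omega
  have hsplit := card_filter_add_card_filter_not (s := Y) (fun y => G.Low y)
  rw [hYc] at hsplit
  have hL : ∀ y, y ∈ Y.filter (fun y => G.Low y) ↔ y ∈ G.N F ∧ v ∈ G.nb y ∧ G.Low y := by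
    intro y
    rw [mem_filter, hYm, and_assoc]
  have hH : ∀ y, y ∈ Y.filter (fun y => ¬ G.Low y) ↔ y ∈ G.N F ∧ v ∈ G.nb y ∧ ¬ G.Low y := by
    intro y
    rw [mem_filter, hYm, and_assoc]
  have hall : ∀ x ∈ G.N F, x ∈ Y.filter (fun y => G.Low y) ∨ x ∈ Y.filter (fun y => ¬ G.Low y) ∨
      x = a ∨ x = a' := by
    intro x hx
    by_cases h1 : v ∈ G.nb x
    · by_cases h2 : G.Low x
      · exact Or.inl ((hL x).2 ⟨hx, h1, h2⟩)
      · exact Or.inr (Or.inl ((hH x).2 ⟨hx, h1, h2⟩))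
    · exact Or.inr (Or.inr (c.all x hx h1))
  -- at least two low vertices
  have h2 : 2 ≤ (Y.filter fun y => G.Low y).card := by
    obtain ⟨y, hy⟩ : Y.Nonempty := by
      rw [← Finset.card_pos]
      omega
    obtain ⟨hyN, hyv⟩ := (hYm y).1 hy
    obtain ⟨u, hu, hul, huv⟩ : ∃ u ∈ G.N F, G.Low u ∧ v ∈ G.nb u := by
      rcases c.c.cv (G.sym _ _ hyv) with h1 | h1
      · obtain ⟨u, h1, h2, h3, -⟩ := h1
        exact ⟨u, h1, h2, h3⟩
      · obtain ⟨x, h1, b, h2, h3, h4, -⟩ := h1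
        exact ⟨b, h2, h3.2.1, h4⟩
    obtain ⟨u', hu', hul', huv', hne⟩ : ∃ u' ∈ G.N F, G.Low u' ∧ v ∈ G.nb u' ∧ u' ≠ u := by
      rcases c.c.cv (G.sym _ _ huv) with h1 | h1
      · obtain ⟨u', h1, h2, h3, h4⟩ := h1
        exact ⟨u', h1, h2, h3, ne_of_nb5 h4⟩
      · obtain ⟨x, h1, b, h2, h3, h4, -⟩ := h1
        exact ⟨b, h2, h3.2.1, h4, (HL_bt76 h3).2.symm⟩
    exact two_le5 ((hL u').2 ⟨hu', huv', hul'⟩) ((hL u).2 ⟨hu, huv, hul⟩) hne
  have h5 : (Y.filter fun y => G.Low y).card = 2 ∨ (Y.filter fun y => G.Low y).card = 3 ∨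
      (Y.filter fun y => G.Low y).card = 4 := by omega
  rcases h5 with h5 | h5 | h5
  · obtain ⟨d1, d2, d12, e1⟩ := card_eq_two.1 h5
    obtain ⟨g, g', gg, e2⟩ := card_eq_two.1
      (show (Y.filter fun y => ¬ G.Low y).card = 2 by omega)
    obtain ⟨n1, v1, l1⟩ := (hL d1).1 (by rw [e1]; simp)
    obtain ⟨n2, v2, l2⟩ := (hL d2).1 (by rw [e1]; simp)
    obtain ⟨gN, gv, gl⟩ := (hH g).1 (by rw [e2]; simp)
    obtain ⟨gN', gv', gl'⟩ := (hH g').1 (by rw [e2]; simp)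
    refine K2.main (a := a) (a' := a') (d1 := d1) (d2 := d2) (g := g) (g' := g') (h := h)
      (h' := h') (v := v) (w := w) ⟨c, n1, n2, gN, gN', l1, l2, gl, gl', v1, v2, gv, gv', d12, gg,
        ?_⟩
    intro x hx
    have h6 := hall x hx
    rw [e1, e2, mem_insert, mem_singleton, mem_insert, mem_singleton] at h6
    tauto
  · obtain ⟨d1, d2, d3, d12, d13, d23, e1⟩ := Finset.card_eq_three.1 h5
    obtain ⟨g, e2⟩ := card_eq_one.1
      (show (Y.filter fun y => ¬ G.Low y).card = 1 by omega)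
    obtain ⟨n1, v1, l1⟩ := (hL d1).1 (by rw [e1]; simp)
    obtain ⟨n2, v2, l2⟩ := (hL d2).1 (by rw [e1]; simp)
    obtain ⟨n3, v3, l3⟩ := (hL d3).1 (by rw [e1]; simp)
    obtain ⟨gN, gv, gl⟩ := (hH g).1 (by rw [e2]; simp)
    refine c.k3 n1 n2 n3 gN l1 l2 l3 gl v1 v2 v3 gv d12 d13 d23 ?_
    intro x hx
    have h6 := hall x hx
    rw [e1, e2, mem_insert, mem_insert, mem_singleton, mem_singleton] at h6
    tauto
  · have e2 : Y.filter (fun y => ¬ G.Low y) = ∅ := by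
      rw [← Finset.card_eq_zero]
      omega
    refine c.k4 Y hYc hYm ?_
    intro y hy
    by_contra h6
    have : y ∈ Y.filter (fun y => ¬ G.Low y) := mem_filter.2 ⟨hy, h6⟩
    rw [e2] at this
    simp at this

theorem Cx.main (c : Cx G F h h' v w) (hC : G.StLCnt) : 29 ≤ ∑ y ∈ G.N F, G.gam5 F y := by
  by_cases h1 : h ∈ G.nb v
  · by_cases h2 : h' ∈ G.nb v
    · have m0 := c.missv
      rw [ch1 h1, ch1 h2] at m0
      obtain ⟨a, a', haa, he⟩ := card_eq_two.1 m0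
      have ha : a ∈ G.N F \ G.nb v := by rw [he]; simp
      have ha' : a' ∈ G.N F \ G.nb v := by rw [he]; simp
      obtain ⟨aN, av⟩ := mem_sdiff.1 ha
      obtain ⟨aN', av'⟩ := mem_sdiff.1 ha'
      refine Dx.main (a := a) (a' := a') (h := h) (h' := h') (v := v) (w := w)
        ⟨c, h1, h2, aN, aN', fun h3 => av (G.sym _ _ h3), fun h3 => av' (G.sym _ _ h3), haa, ?_⟩
      intro x hx hv
      have h3 : x ∈ G.N F \ G.nb v := mem_sdiff.2 ⟨hx, fun h4 => hv (G.sym _ _ h4)⟩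
      rw [he, mem_insert, mem_singleton] at h3
      exact h3
    · exact c.case1 hC h1 h2
  · by_cases h2 : h' ∈ G.nb v
    · exact c.symm.case1 hC h2 h1
    · exact c.case0 h1 h2

end H6s37

open H6s37 in
/-- H6, sharp: every low vertex of `N F` has two neighbours in `Co F` -/
theorem st6HHQs_37 (G : CG V) (hBas : G.StLBas) (hB : G.StLB) (hC : G.StLCnt) (F : Finset V)
    (hF : G.L4 F) (hO : ∀ w ∈ G.N F, G.Low w → 2 ≤ G.d w (G.Co F)) (h h' v w : V)
    (hFe : F = {h, h', v, w}) (hne : h ≠ h') (hh : G.Hub h) (hh' : G.Hub h') (htw : G.Tw v w) :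
    29 ≤ ∑ y ∈ G.N F, G.gam5 F y := by
  obtain ⟨hL, hc4⟩ := hF
  refine Cx.main (h := h) (h' := h') (v := v) (w := w) ⟨⟨hL.sat, ?_, hL.big.1, hc4, ?_,
    hBas.pos F hL, ?_, hB.hub F hL, ?_, ?_, ?_, ?_, ?_⟩, ?_, ?_, ?_, ?_, ?_, hh, hh', htw, hne⟩ hC
  · have := hL.n12
    omega
  · intro x hx y hy
    refine hL.cov x hx y ?_ hy
    rcases nbF42 hx hy with h1 | h1
    · exact mem_union_left _ h1
    · exact mem_union_right _ h1
  · intro Z hZ hZN hne
    obtain ⟨h1, h2⟩ := hBas.exp F hL Z hZN hZ hne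
    exact ⟨h1, fun h3 => (h2 h3.symm).2.1⟩
  · intro y hy hl hd
    obtain ⟨h1, h2, -⟩ := hB.low2 F hL y hy hl hd
    refine ⟨h1, fun h3 => ?_⟩
    rcases h2 with h2 | h2
    · exact h2
    · exact absurd h2.2.1 h3
  · intro y hy hl hd
    obtain ⟨h1, h2, h3, -⟩ := hB.low3 F hL y hy hl hd
    refine ⟨h1, h2, fun h4 => ?_⟩
    rcases h3 with h3 | ⟨x, q, q', -, h5, -⟩
    · exact h3
    · exact absurd (by rw [h5, card_singleton]) h4
  · intro y hy hl hd
    obtain ⟨h1, h2, h3⟩ := hB.low4 F hL y hy hl hd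
    refine ⟨h1, h2, fun u hu hul => ?_⟩
    rcases h3 with h3 | ⟨x, b, -, -, -, h5, h6⟩
    · have h7 : 1 ≤ (G.pT F y).card := by
        rw [Nat.succ_le_iff, Finset.card_pos]
        exact ⟨u, hu⟩
      have h8 : (1 : ℤ) ≤ ((G.pT F y).card : ℤ) := by exact_mod_cast h7
      linarith
    · rw [h5, mem_singleton] at hu
      rw [hu] at hul
      exact absurd hul h6.1
  · intro y hy ht
    exact (hB.tw F hL y hy ht).2.2.2.1
  · intro y hy hl
    have h1 := d_split76 (G := G) y F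
    have h2 : (G.nb y).card = 6 := hl
    have h3 := hO y hy hl
    have h4 : (G.pT F y).card = (G.nb y ∩ G.N F).card := rfl
    omega
  · rw [hFe]; simp
  · rw [hFe]; simp
  · rw [hFe]; simp
  · rw [hFe]; simp
  · intro x hx
    rw [hFe] at hx
    simpa using hx

end CG

end Pool.Agent.Lib.MP_e95c01_co.N
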