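import Pool.Agent.Lib.MP_e95c01_co.X.H7_53

/-!
# Leaves with four vertices, two pairs of twins: strict form

If every low vertex of `N F` has two neighbours in `Co F`, the sum of the values is at least 29.
-/

set_option autoImplicit false

namespace Pool.Agent.Lib.MP_e95c01_co.N

open Finset

variable {V : Type} [Fintype V] [DecidableEq V]

namespace CG

variable {G : CG V} {F : Finset V}

namespace Q53

variable {v w v' w' m1 m2 a1 a2 b1 b2 : V}

/-- a low vertex of `M` has no neighbour in `N F` -/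
theorem pT0s (C : G.Q53 F v w v' w' m1 m2 a1 a2 b1 b2)
    (hO : ∀ w ∈ G.N F, G.Low w → 2 ≤ G.d w (G.Co F)) (hl : G.Low m1) : G.pT F m1 = ∅ := by
  have k5 := C.dm
  have k7 := dg16 G F m1
  have k6 := hO m1 C.m1T hl
  have k8 : (G.nb m1).card = 6 := hl
  have k9 : (G.pO F m1).card = G.d m1 (G.Co F) := rfl
  have k10 : (G.pX F m1).card = G.d m1 F := rfl
  exact card_eq_zero.1 (by omega)

/-- nobody is helped -/
theorem nHAs (C : G.Q53 F v w v' w' m1 m2 a1 a2 b1 b2)
    (hO : ∀ w ∈ G.N F, G.Low w → 2 ≤ G.d w (G.Co F)) : ¬ HA G m1 m2 a1 a2 := by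
  have key : ∀ x, x ∈ G.N F → ¬ U G m1 m2 x := by
    rintro x hx ⟨hl, h⟩
    have h0 := C.pT0s hO hl
    rcases h with h | h
    · have h1 : x ∈ G.pT F m1 := mem_inter.2 ⟨h, hx⟩
      rw [h0] at h1
      exact absurd h1 (notMem_empty _)
    · have h1 : m2 ∈ G.pT F m1 := mem_inter.2 ⟨G.sym _ _ h.2.2.1, C.m2T⟩
      rw [h0] at h1
      exact absurd h1 (notMem_empty _)
  rintro (h | h)
  · exact key a1 C.a1T h
  · exact key a2 C.a2T h

/-- the six values -/
theorem sixs (C : G.Q53 F v w v' w' m1 m2 a1 a2 b1 b2) (hBas : G.StLBas) (hB : G.StLB)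
    (hO : ∀ w ∈ G.N F, G.Low w → 2 ≤ G.d w (G.Co F))
    (hm : G.Low m1) : 29 ≤ G.gam5 F m1 + G.gam5 F m2 + (G.gam5 F a1 + G.gam5 F a2) +
      (G.gam5 F b1 + G.gam5 F b2) := by
  have M1 := (C.valm hB hm).2
  have k1 := C.none hBas hB (C.nHAs hO) (C.mswap.nHAs hO)
  have k2 := C.swap.none hBas hB (C.swap.nHAs hO) (C.swap.mswap.nHAs hO)
  by_cases hm2 : G.Low m2
  · have M2 := (C.mswap.valm hB hm2).2
    omega
  · have M2 : 0 ≤ G.gam5 F m2 := by
      refine (hB.hub F C.lf m2 C.m2T ⟨hm2, ?_⟩).ge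
      rintro ⟨y, hy⟩
      have hyT := (hBas.twT F C.lf m2 y hy).1 C.m2T
      have hvy : v ∈ G.nb y := twn53 hy (G.sym _ _ C.m2v) (fun e => nF hyT (e ▸ C.vF))
      rcases C.nbv hyT hvy with e | e | e | e
      · rw [e] at hy; exact tnl53 (tws53 hy) hm
      · exact (ne_of_nb5 hy.1) e.symm
      · rw [e] at hy; exact C.mswap.ntam (tws53 hy)
      · rw [e] at hy; exact C.aswap.mswap.ntam (tws53 hy)
    omega

end Q53

theorem qqns86 (hBas : G.StLBas) (hB : G.StLB) (hCnt : G.StLCnt) (hL : G.Lf F)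
    {v w v' w' : V} (hF : F = {v, w, v', w'}) (ht : G.Tw v w) (ht' : G.Tw v' w')
    (h1 : v ≠ v') (h2 : v ≠ w') (hc : F.card = 4) (hn : v' ∉ G.nb v) :
    29 ≤ ∑ x ∈ G.N F, G.gam5 F x := by
  classical
  have hFm : ∀ x ∈ F, x = v ∨ x = w ∨ x = v' ∨ x = w' := by
    intro x hx
    rw [hF] at hx
    simpa only [mem_insert, mem_singleton] using hx
  have vF : v ∈ F := by rw [hF]; simp
  have wF : w ∈ F := by rw [hF]; simp
  have vF' : v' ∈ F := by rw [hF]; simp
  have wF' : w' ∈ F := by rw [hF]; simp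
  have hnl : ∀ x ∈ F, ¬ G.Low x := by
    intro x hx
    rcases hFm x hx with h | h | h | h
    · rw [h]; exact tnl53 ht
    · rw [h]; exact tnl53 (tws53 ht)
    · rw [h]; exact tnl53 ht'
    · rw [h]; exact tnl53 (tws53 ht')
  have hvw' : w' ∉ G.nb v := by
    intro h
    exact hn (G.sym _ _ (twn53 (tws53 ht') (G.sym _ _ h) h1))
  have T6 : (G.N F).card = 6 := hL.big.1.2.1
  have all : ∀ x y z z' : V, G.Tw x y → x ∈ F → (∀ u ∈ F, u = x ∨ u = y ∨ u = z ∨ u = z') →
      z ∉ G.nb x → z' ∉ G.nb x → ∀ a ∈ G.N F, a ∈ G.nb x := by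
    intro x y z z' hxy hx hm hz hz'
    have h3 : G.nb x ⊆ insert y (G.nb x ∩ G.N F) := by
      intro u hu
      by_cases huF : u ∈ F
      · rcases hm u huF with e | e | e | e
        · rw [e] at hu; exact absurd hu (G.irr _)
        · rw [e]; exact mem_insert_self _ _
        · rw [e] at hu; exact absurd hu hz
        · rw [e] at hu; exact absurd hu hz'
      · exact mem_insert_of_mem (mem_inter.2 ⟨hu, mem_N76.2 ⟨huF, x, hx, hu⟩⟩)
    have h4 := card_le_card h3
    have h5 := card_insert_le y (G.nb x ∩ G.N F)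
    have h6 := hxy.2.1
    have h7 : G.nb x ∩ G.N F = G.N F := eq_of_subset_of_card_le inter_subset_right (by omega)
    intro a ha
    rw [← h7] at ha
    exact (mem_inter.1 ha).1
  have allv := all v w v' w' ht vF hFm hn hvw'
  have allv' := all v' w' v w ht' vF' (fun u hu => by have := hFm u hu; tauto)
    (fun h => hn (G.sym _ _ h)) (fun h => by
      have h3 : w ∈ G.nb v' := h
      have h4 : v' ∈ G.nb w := G.sym _ _ h3
      exact hn (twn53 (tws53 ht) h4 (Ne.symm h1)))
  have nF : ∀ {x : V}, x ∈ G.N F → x ∉ F := fun h => (mem_N76.1 h).1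
  have d4 : ∀ a ∈ G.N F, G.d a F = 4 := by
    intro a ha
    have h3 : G.nb a ∩ F = F := by
      rw [inter_eq_right]
      intro x hx
      rcases hFm x hx with h | h | h | h
      · rw [h]; exact G.sym _ _ (allv a ha)
      · rw [h]
        exact twn53' ht (G.sym _ _ (allv a ha)) (fun e => nF ha (e ▸ wF))
      · rw [h]; exact G.sym _ _ (allv' a ha)
      · rw [h]
        exact twn53' ht' (G.sym _ _ (allv' a ha)) (fun e => nF ha (e ▸ wF'))
    rw [d, h3, hc]
  have h9 : 9 ≤ Fintype.card V := le_trans (by norm_num) hL.n12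
  have hcnt := (hCnt hL.sat h9 F (G.N F) (G.N F) (Subset.refl _) (Subset.refl _) v (by
    intro y hy
    have hlow : ∀ x ∈ F ∪ G.N F, G.Low x → x ∈ G.N F := by
      intro x hx hl
      rcases mem_union.1 hx with h | h
      · exact absurd hl (hnl x h)
      · exact h
    rcases hL.cov v vF y (mem_union_right _ hy) (allv y hy) with
      ⟨x, hx, hl, -, h4⟩ | ⟨p, hp, r, hr, htw, h3, h4, h5, h6⟩ | ⟨p, r, hh, h3, h4, h5⟩ |
      ⟨p, r, hh, -⟩ | ⟨p, r, hh, h3⟩
    · exact Or.inl ⟨x, hlow x hx hl, hl, h4⟩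
    · have hpT : p ∈ G.N F := by
        rcases mem_union.1 hp with hpF | hpT
        · exfalso
          have hrF := (hBas.twT F hL p r htw).2 hpF
          have k : ∀ u ∈ F, v ∈ G.nb u → u = w := by
            intro u hu hv
            rcases hFm u hu with e | e | e | e
            · rw [e] at hv; exact absurd hv (G.irr _)
            · exact e
            · rw [e] at hv; exact absurd (G.sym _ _ hv) hn
            · rw [e] at hv; exact absurd (G.sym _ _ hv) hvw'
          exact (ne_of_nb5 htw.1) ((k p hpF h3).trans (k r hrF h4).symm)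
        · exact hpT
      exact Or.inr (Or.inl ⟨p, hpT, r, (hBas.twT F hL p r htw).1 hpT, htw, h5, h6⟩)
    · rcases h5 with h5 | h5
      · exact absurd hh.2.1 (hnl r h5.2)
      · exact Or.inr (Or.inr (Or.inl ⟨p, h5.1, r, h5.2, hh⟩))
    · exact absurd (hL.sat _ _ _ hh) (hnl v vF)
    · exfalso
      have hr : r ∈ G.N F := by
        rcases h3 with h3 | h3
        · exact absurd hh.2.1 (hnl r h3.2)
        · exact h3.2
      exact hh.2.2.2.2.1 (mem_insert_of_mem (G.sym _ _ (allv r hr))))).1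
  rw [T6] at hcnt
  have hterm : ∀ x ∈ G.N F, 5 * (G.wt3 G.Tw x * ((G.tT G.Tw F x).card : ℤ)) ≤ G.gam5 F x := by
    intro x hx
    have dx := d4 x hx
    by_cases hl : G.Low x
    · obtain ⟨k1, k2, -⟩ := hB.low4 F hL x hx hl dx
      have k3 : (G.tT G.Tw F x).card ≤ (G.pT F x).card := card_le_card (filter_subset _ _)
      rw [wt3, if_pos hl]
      have : ((G.tT G.Tw F x).card : ℤ) ≤ 1 := by exact_mod_cast k3.trans k1
      linarith
    · by_cases hq : G.IsTw x
      · obtain ⟨-, -, k1, k2, -, k3⟩ := hB.tw F hL x hx hq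
        have k4 := k3 dx
        obtain ⟨y, hy⟩ := hq
        have k5 : (G.tT G.Tw F x).card = 0 := by
          rw [card_eq_zero, eq_empty_iff_forall_notMem]
          intro u hu
          rw [tT, mem_filter] at hu
          have k6 : y ∈ G.nb x ∩ G.N F := mem_inter.2 ⟨hy.1, (hBas.twT F hL x y hy).1 hx⟩
          have k7 : (G.nb x ∩ G.N F).card ≤ 1 := by
            have : (G.pT F x).card ≤ 1 := by omega
            exact this
          have k8 := card_le_one.1 k7 u hu.1 y k6
          exact hu.2 (k8 ▸ hy)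
        rw [k5]
        simp only [Nat.cast_zero, mul_zero]
        omega
      · rw [hB.hub F hL x hx ⟨hl, hq⟩]
        have k1 : G.wt3 G.Tw x = 0 := by
          rw [wt3, if_neg hl, if_neg]
          exact hq
        rw [k1]
        simp
  have h5 := sum_le_sum hterm
  rw [← mul_sum] at h5
  have h6 : (((6 : ℕ) : ℤ)) = 6 := rfl
  rw [h6] at hcnt
  linarith
theorem st6QQs_86 (G : CG V) (hBas : G.StLBas) (hB : G.StLB) (hCnt : G.StLCnt) :
    ∀ F, G.L4 F → (∀ w ∈ G.N F, G.Low w → 2 ≤ G.d w (G.Co F)) →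
    ∀ v w v' w', F = {v, w, v', w'} → G.Tw v w → G.Tw v' w' →
    v ≠ v' → v ≠ w' → 29 ≤ ∑ x ∈ G.N F, G.gam5 F x ∨
      (v' ∈ G.nb v ∧ G.K4T F ∧ 22 ≤ ∑ x ∈ G.N F, G.gam5 F x) := by
  classical
  rintro F ⟨hL, hc⟩ hO v w v' w' hF ht ht' h1 h2
  by_cases hn : v' ∈ G.nb v
  swap
  · exact Or.inl (qqns86 hBas hB hCnt hL hF ht ht' h1 h2 hc hn)
  have hFm : ∀ x ∈ F, x = v ∨ x = w ∨ x = v' ∨ x = w' := by
    intro x hx
    rw [hF] at hx
    simpa only [mem_insert, mem_singleton] using hx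
  have vF : v ∈ F := by rw [hF]; simp
  have wF : w ∈ F := by rw [hF]; simp
  have vF' : v' ∈ F := by rw [hF]; simp
  have wF' : w' ∈ F := by rw [hF]; simp
  have hnl : ∀ x ∈ F, ¬ G.Low x := by
    intro x hx
    rcases hFm x hx with h | h | h | h
    · rw [h]; exact tnl53 ht
    · rw [h]; exact tnl53 (tws53 ht)
    · rw [h]; exact tnl53 ht'
    · rw [h]; exact tnl53 (tws53 ht')
  have nF : ∀ {x : V}, x ∈ G.N F → x ∉ F := fun h => (mem_N76.1 h).1
  have T6 : (G.N F).card = 6 := hL.big.1.2.1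
  have hv'v : v ∈ G.nb v' := G.sym _ _ hn
  have hw'v : w' ∈ G.nb v := twn53' ht' hn h2
  have hww : v' ∈ G.nb w := by
    refine twn53 ht hn ?_
    rintro rfl
    have : F.card ≤ 3 := by
      rw [hF]
      refine le_trans (card_le_card (t := {v, v', w'}) ?_) card_le_three
      intro x hx
      simp only [mem_insert, mem_singleton] at hx ⊢
      tauto
    omega
  have hwne : w ≠ v' := by
    rintro rfl
    exact G.irr _ hww
  have hwne' : w ≠ w' := by
    rintro rfl
    have : F.card ≤ 3 := by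
      rw [hF]
      refine le_trans (card_le_card (t := {v, w, v'}) ?_) card_le_three
      intro x hx
      simp only [mem_insert, mem_singleton] at hx ⊢
      tauto
    omega
  have hwv' : w ∈ G.nb v' := G.sym _ _ hww
  -- four neighbours in `N F`
  have c7 : ∀ x y z z' : V, G.Tw x y → x ∈ F → (∀ u ∈ F, u = x ∨ u = y ∨ u = z ∨ u = z') →
      y ∈ F → z ∈ F → z' ∈ F → y ≠ z → y ≠ z' → z ≠ z' → z ∈ G.nb x → z' ∈ G.nb x →
      (G.nb x ∩ G.N F).card = 4 := by
    intro x y z z' hxy hx hm hy hz hz' e1 e2 e3 hzx hzx'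
    have h3 : G.nb x = {y, z, z'} ∪ (G.nb x ∩ G.N F) := by
      ext u
      constructor
      · intro hu
        by_cases huF : u ∈ F
        · rcases hm u huF with e | e | e | e
          · rw [e] at hu; exact absurd hu (G.irr _)
          · rw [e]; exact mem_union_left _ (by simp)
          · rw [e]; exact mem_union_left _ (by simp)
          · rw [e]; exact mem_union_left _ (by simp)
        · exact mem_union_right _ (mem_inter.2 ⟨hu, mem_N76.2 ⟨huF, x, hx, hu⟩⟩)
      · intro hu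
        rcases mem_union.1 hu with h | h
        · simp only [mem_insert, mem_singleton] at h
          rcases h with e | e | e
          · rw [e]; exact hxy.1
          · rw [e]; exact hzx
          · rw [e]; exact hzx'
        · exact (mem_inter.1 h).1
    have h4 : Disjoint ({y, z, z'} : Finset V) (G.nb x ∩ G.N F) := by
      rw [disjoint_left]
      intro u hu hu'
      have h5 : u ∈ F := by
        simp only [mem_insert, mem_singleton] at hu
        rcases hu with e | e | e
        · rw [e]; exact hy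
        · rw [e]; exact hz
        · rw [e]; exact hz'
      exact nF (mem_inter.1 hu').2 h5
    have h5 := card_union_of_disjoint h4
    rw [← h3, hxy.2.1, card_eq_three.2 ⟨y, z, z', e1, e2, e3, rfl⟩] at h5
    omega
  have hne' : v' ≠ w' := ne_of_nb5 ht'.1
  have hne : v ≠ w := ne_of_nb5 ht.1
  have cX := c7 v w v' w' ht vF hFm wF vF' wF' hwne hwne' hne' hn hw'v
  have cY := c7 v' w' v w ht' vF' (fun u hu => by have := hFm u hu; tauto) wF' vF wF
    (Ne.symm h2) (Ne.symm hwne') hne hv'v hwv'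
  set X := G.nb v ∩ G.N F with hX
  set Y := G.nb v' ∩ G.N F with hY
  have hXY : X ∪ Y = G.N F := by
    refine subset_antisymm (union_subset inter_subset_right inter_subset_right) ?_
    intro a ha
    obtain ⟨haF, u, hu, hau⟩ := mem_N76.1 ha
    rcases hFm u hu with e | e | e | e
    · rw [e] at hau; exact mem_union_left _ (mem_inter.2 ⟨hau, ha⟩)
    · rw [e] at hau
      exact mem_union_left _ (mem_inter.2 ⟨twn53 (tws53 ht) hau (fun e' => haF (e' ▸ vF)), ha⟩)
    · rw [e] at hau; exact mem_union_right _ (mem_inter.2 ⟨hau, ha⟩)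
    · rw [e] at hau
      exact mem_union_right _ (mem_inter.2 ⟨twn53 (tws53 ht') hau (fun e' => haF (e' ▸ vF')), ha⟩)
  have cU := card_union_add_card_inter X Y
  rw [hXY, T6, cX, cY] at cU
  have cM : (X ∩ Y).card = 2 := by omega
  have cA : (X \ Y).card = 2 := by
    have := card_sdiff_add_card_inter X Y
    omega
  have cB : (Y \ X).card = 2 := by
    have := card_sdiff_add_card_inter Y X
    rw [inter_comm] at this
    omega
  obtain ⟨m1, m2, m12, eM⟩ := card_eq_two.1 cM
  obtain ⟨a1, a2, a12, eA⟩ := card_eq_two.1 cA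
  obtain ⟨b1, b2, b12, eB⟩ := card_eq_two.1 cB
  have mM : ∀ x, (x = m1 ∨ x = m2) ↔ (x ∈ G.nb v ∧ x ∈ G.nb v' ∧ x ∈ G.N F) := by
    intro x
    have h3 : x ∈ X ∩ Y ↔ x ∈ ({m1, m2} : Finset V) := by rw [eM]
    rw [mem_inter, hX, hY, mem_inter, mem_inter, mem_insert, mem_singleton] at h3
    tauto
  have mA : ∀ x, (x = a1 ∨ x = a2) ↔ (x ∈ G.nb v ∧ x ∉ G.nb v' ∧ x ∈ G.N F) := by
    intro x
    have h3 : x ∈ X \ Y ↔ x ∈ ({a1, a2} : Finset V) := by rw [eA]
    rw [mem_sdiff, hX, hY, mem_inter, mem_inter, mem_insert, mem_singleton] at h3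
    tauto
  have mB : ∀ x, (x = b1 ∨ x = b2) ↔ (x ∉ G.nb v ∧ x ∈ G.nb v' ∧ x ∈ G.N F) := by
    intro x
    have h3 : x ∈ Y \ X ↔ x ∈ ({b1, b2} : Finset V) := by rw [eB]
    rw [mem_sdiff, hX, hY, mem_inter, mem_inter, mem_insert, mem_singleton] at h3
    tauto
  have fm1 := (mM m1).1 (Or.inl rfl)
  have fm2 := (mM m2).1 (Or.inr rfl)
  have fa1 := (mA a1).1 (Or.inl rfl)
  have fa2 := (mA a2).1 (Or.inr rfl)
  have fb1 := (mB b1).1 (Or.inl rfl)
  have fb2 := (mB b2).1 (Or.inr rfl)
  have hT : ∀ y ∈ G.N F, y = m1 ∨ y = m2 ∨ y = a1 ∨ y = a2 ∨ y = b1 ∨ y = b2 := by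
    intro y hy
    have h3 := mM y
    have h4 := mA y
    have h5 := mB y
    have h6 : y ∈ X ∪ Y := by rw [hXY]; exact hy
    rw [mem_union, hX, hY, mem_inter, mem_inter] at h6
    tauto
  have hsum : ∑ x ∈ G.N F, G.gam5 F x = G.gam5 F m1 + G.gam5 F m2 +
      (G.gam5 F a1 + G.gam5 F a2) + (G.gam5 F b1 + G.gam5 F b2) := by
    have h3 : G.N F = (X ∩ Y) ∪ (X \ Y) ∪ (Y \ X) := by
      rw [← hXY]
      ext x
      simp only [mem_union, mem_inter, mem_sdiff]
      tauto
    have h4 : Disjoint (X ∩ Y ∪ X \ Y) (Y \ X) := by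
      rw [disjoint_left]
      intro x hx hx'
      simp only [mem_union, mem_inter, mem_sdiff] at hx hx'
      tauto
    have h5 : Disjoint (X ∩ Y) (X \ Y) := by
      rw [disjoint_left]
      intro x hx hx'
      simp only [mem_inter, mem_sdiff] at hx hx'
      tauto
    rw [h3, sum_union h4, sum_union h5, eM, eA, eB, sum_pair m12, sum_pair a12, sum_pair b12]
  -- the edge `v v'`
  have hvv : G.Low m1 ∨ G.Low m2 ∨ G.Tw m1 m2 := by
    have hlow : ∀ x ∈ F ∪ G.N F, G.Low x → x ∈ G.N F := by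
      intro x hx hl
      rcases mem_union.1 hx with h | h
      · exact absurd hl (hnl x h)
      · exact h
    rcases hL.cov v vF v' (mem_union_left _ vF') hn with
      ⟨x, hx, hl, h3, h4⟩ | ⟨p, hp, r, hr, htw, h3, h4, h5, h6⟩ | ⟨p, r, hh, -⟩ |
      ⟨p, r, hh, -⟩ | ⟨p, r, hh, -⟩
    · rcases (mM x).2 ⟨G.sym _ _ h3, G.sym _ _ h4, hlow x hx hl⟩ with e | e
      · exact Or.inl (e ▸ hl)
      · exact Or.inr (Or.inl (e ▸ hl))
    · right; right
      have hpr : p ≠ r := ne_of_nb5 htw.1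
      have hpT : p ∈ G.N F := by
        rcases mem_union.1 hp with hpF | hpT
        · exfalso
          have hrF := (hBas.twT F hL p r htw).2 hpF
          -- `p`, `r` are `w`, `w'`
          have k : ∀ u ∈ F, v ∈ G.nb u → v' ∈ G.nb u → u = w ∨ u = w' := by
            intro u hu hv hv'
            rcases hFm u hu with e | e | e | e
            · rw [e] at hv; exact absurd hv (G.irr _)
            · exact Or.inl e
            · rw [e] at hv'; exact absurd hv' (G.irr _)
            · exact Or.inr e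
          have htt : G.Tw w w' := by
            rcases k p hpF h3 h5 with e | e <;> rcases k r hrF h4 h6 with e' | e'
            · exact absurd (e.trans e'.symm) hpr
            · rw [e, e'] at htw; exact htw
            · rw [e, e'] at htw; exact tws53 htw
            · exact absurd (e.trans e'.symm) hpr
          have k1 : a1 ∈ G.nb w := twn53 ht fa1.1 (fun e => nF fa1.2.2 (e ▸ wF))
          have k2 : a1 ∈ G.nb w' := twn53 htt k1 (fun e => nF fa1.2.2 (e ▸ wF'))
          exact fa1.2.1 (twn53 (tws53 ht') k2 (fun e => nF fa1.2.2 (e ▸ vF')))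
        · exact hpT
      have hrT := (hBas.twT F hL p r htw).1 hpT
      rcases (mM p).2 ⟨G.sym _ _ h3, G.sym _ _ h5, hpT⟩ with e | e <;>
        rcases (mM r).2 ⟨G.sym _ _ h4, G.sym _ _ h6, hrT⟩ with e' | e'
      · exact absurd (e.trans e'.symm) hpr
      · rw [e, e'] at htw; exact htw
      · rw [e, e'] at htw; exact tws53 htw
      · exact absurd (e.trans e'.symm) hpr
    · exact absurd (hL.sat _ _ _ hh) (hnl v' vF')
    · exact absurd (hL.sat _ _ _ hh) (hnl v vF)
    · exfalso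
      obtain ⟨hpl, hrl, hrp, hva, hvr, hap, heq⟩ := hh
      have h5 : v ∈ G.cl p := by
        have h6 : v ∈ insert v' (G.cl p) := by rw [heq]; exact mem_insert_self _ _
        rcases mem_insert.1 h6 with h7 | h7
        · exact absurd h7 hva
        · exact h7
      have hpv : v ∈ G.nb p := by
        rcases mem_insert.1 h5 with h7 | h7
        · rw [← h7] at hpl; exact absurd hpl (hnl v vF)
        · exact h7
      have hwp : w ∈ G.nb p := twn53' ht hpv (fun e => hnl w wF (e ▸ hpl))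
      have h8 : w ∈ insert v (G.cl r) := by
        rw [← heq]; exact mem_insert_of_mem (mem_insert_of_mem hwp)
      rcases mem_insert.1 h8 with h9 | h9
      · exact hne h9.symm
      · rcases mem_insert.1 h9 with h10 | h10
        · rw [← h10] at hrl; exact hnl w wF hrl
        · exact hvr (mem_insert_of_mem (twn53' (tws53 ht) h10 (fun e => hnl v vF (e ▸ hrl))))
  -- the situation
  have npair : G.Tw m1 m2 → a1 ∉ G.nb m1 ∧ a2 ∉ G.nb m1 ∧ b1 ∉ G.nb m1 ∧ b2 ∉ G.nb m1 := by
    intro hm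
    have h3 := hB.tw F hL m1 fm1.2.2 ⟨m2, hm⟩
    have hd : G.d m1 F = 4 := by
      have h4 : G.nb m1 ∩ F = F := by
        rw [inter_eq_right]
        intro x hx
        have hmF := nF fm1.2.2
        rcases hFm x hx with h | h | h | h
        · rw [h]; exact G.sym _ _ fm1.1
        · rw [h]; exact twn53' ht (G.sym _ _ fm1.1) (fun e => hmF (e ▸ wF))
        · rw [h]; exact G.sym _ _ fm1.2.1
        · rw [h]; exact twn53' ht' (G.sym _ _ fm1.2.1) (fun e => hmF (e ▸ wF'))
      rw [d, h4, hc]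
    have h4 : (G.pT F m1).card ≤ 1 := by
      have := h3.2.2.2.1
      omega
    have h5 : m2 ∈ G.pT F m1 := mem_inter.2 ⟨hm.1, fm2.2.2⟩
    have h6 : ∀ x ∈ G.N F, x ≠ m2 → x ∉ G.nb m1 := by
      intro x hx hne2 hx2
      exact hne2 (card_le_one.1 h4 x (mem_inter.2 ⟨hx2, hx⟩) m2 h5)
    refine ⟨h6 a1 fa1.2.2 ?_, h6 a2 fa2.2.2 ?_, h6 b1 fb1.2.2 ?_, h6 b2 fb2.2.2 ?_⟩
    · rintro rfl; exact fa1.2.1 fm2.2.1
    · rintro rfl; exact fa2.2.1 fm2.2.1
    · rintro rfl; exact fb1.1 fm2.1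
    · rintro rfl; exact fb2.1 fm2.1
  have C : G.Q53 F v w v' w' m1 m2 a1 a2 b1 b2 :=
    { lf := hL, hF := hFm, vF := vF, wF := wF, vF' := vF', wF' := wF', c4 := hc, tw := ht,
      tw' := ht', hT := hT, m1T := fm1.2.2, m2T := fm2.2.2, a1T := fa1.2.2, a2T := fa2.2.2,
      b1T := fb1.2.2, b2T := fb2.2.2, m12 := m12, a12 := a12, b12 := b12, m1v := fm1.1,
      m2v := fm2.1, a1v := fa1.1, a2v := fa2.1, b1v := fb1.1, b2v := fb2.1, m1v' := fm1.2.1,
      m2v' := fm2.2.1, b1v' := fb1.2.1, b2v' := fb2.2.1, a1v' := fa1.2.1, a2v' := fa2.2.1,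
      np := npair }
  rw [hsum]
  rcases hvv with hl | hl | hm
  · exact Or.inl (C.sixs hBas hB hO hl)
  · refine Or.inl ?_
    have h3 := C.mswap.sixs hBas hB hO hl
    linarith
  · refine Or.inr ⟨hn, ⟨m1, m2, hm, fm1.2.2, fm2.2.2, ?_⟩, C.pairM hBas hB hm⟩
    intro x hx
    have hmF := nF fm1.2.2
    rcases hFm x hx with h | h | h | h
    · rw [h]; exact G.sym _ _ fm1.1
    · rw [h]; exact twn53' ht (G.sym _ _ fm1.1) (fun e => hmF (e ▸ wF))
    · rw [h]; exact G.sym _ _ fm1.2.1
    · rw [h]; exact twn53' ht' (G.sym _ _ fm1.2.1) (fun e => hmF (e ▸ wF'))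

end CG

end Pool.Agent.Lib.MP_e95c01_co.N
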