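import Pool.Agent.Lib.MP_e95c01_co.Y.L3c_50
import Pool.Agent.Lib.MP_e95c01_co.X.G6_89

/-!
# Light leaves with three vertices: all cases
-/

set_option autoImplicit false

namespace Pool.Agent.Lib.MP_e95c01_co.N

open Finset

variable {V : Type} [Fintype V] [DecidableEq V]

namespace CG

variable {G : CG V} {F : Finset V}

theorem pT4_50 (hO : ∀ w ∈ G.N F, G.Low w → 2 ≤ G.d w F → 2 ≤ G.d w (G.Co F)) {y : V} (hy : y ∈ G.N F)
    (hl : G.Low y) (hd : 2 ≤ G.d y F) : G.d y F + (G.pT F y).card ≤ 4 := by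
  have h1 := HC50.sum6 (F := F) hl
  have h2 := hO y hy hl hd
  omega

/-! ### a hub and a pair of twins -/

section HQ

variable {h v w t : V} {Y : Finset V}

theorem C89.pT1_50 (hC : G.C89 F h v w t Y) (hO : ∀ w ∈ G.N F, G.Low w → 2 ≤ G.d w F → 2 ≤ G.d w (G.Co F))
    {y : V} (hy : y ∈ Y) (hl : G.Low y) (hh : h ∈ G.nb y) : (G.pT F y).card ≤ 1 := by
  have h2 := hC.d3 y hy hh
  have h1 := pT4_50 hO (hC.sub hy) hl (by omega)
  omega

theorem C89.pT2_50 (hC : G.C89 F h v w t Y) (hO : ∀ w ∈ G.N F, G.Low w → 2 ≤ G.d w F → 2 ≤ G.d w (G.Co F))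
    {y : V} (hy : y ∈ Y) (hl : G.Low y) (hh : h ∉ G.nb y) : (G.pT F y).card ≤ 2 := by
  have h2 := hC.d2 y hy hh
  have h1 := pT4_50 hO (hC.sub hy) hl (by omega)
  omega

/-- `t` has a neighbour in `Y` -/
theorem C89.noT_50 (hC : G.C89 F h v w t Y) (hn : ∀ x ∈ Y, t ∉ G.nb x) : False := by
  rcases hC.c0 with h6 | h6 | h6 | h6
  · obtain ⟨x, hx, -, -, h8⟩ := h6
    exact hn x hx h8
  · obtain ⟨x, hx, x', hx', -, -, h8, -⟩ := h6
    exact hn x hx h8
  · obtain ⟨a, ha, b, hb, h7, -, -⟩ := h6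
    exact hn a ha (HL_t76 h7)
  · obtain ⟨a, ha, b, hb, h7⟩ := h6
    exact hn b hb (LL_u76 h7)

/-- twins in `N F` -/
theorem D89.no50 {p p' d y1 y2 : V} (hD : G.D89 F h v w t Y p p' d y1 y2)
    (hO : ∀ w ∈ G.N F, G.Low w → 2 ≤ G.d w F → 2 ≤ G.d w (G.Co F)) : False := by
  classical
  have hC := hD.hC
  have mp : p ∈ G.pT F d := mem_pT89.2 ⟨hD.dp, hC.sub hD.pY⟩
  have mp' : p' ∈ G.pT F d := mem_pT89.2 ⟨hD.dp', hC.sub hD.pY'⟩
  have k2 : 2 ≤ (G.pT F d).card := two_le5 mp mp' hD.n1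
  have hd : h ∉ G.nb d := by
    intro h1
    have := hC.pT1_50 hO hD.dY hD.dl h1
    omega
  have k3 := hC.pT2_50 hO hD.dY hD.dl hd
  have pd : G.pT F d = {p, p'} := by
    symm
    apply eq_of_subset_of_card_le
    · intro y hy
      simp only [mem_insert, mem_singleton] at hy
      rcases hy with e | e <;> rw [e] <;> assumption
    · rw [card_pair hD.n1]; exact k3
  have nd : ∀ {x : V}, x ∈ G.N F → x ∈ G.nb d → x = p ∨ x = p' := by
    intro x hx h1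
    have h2 : x ∈ G.pT F d := mem_pT89.2 ⟨h1, hx⟩
    rw [pd] at h2
    simpa using h2
  have e1 : y1 ∉ G.nb d := by
    intro h1
    rcases nd (hC.sub hD.Y1) h1 with e | e
    · exact hD.n3 e.symm
    · exact hD.n6 e.symm
  have e2 : y2 ∉ G.nb d := by
    intro h1
    rcases nd (hC.sub hD.Y2) h1 with e | e
    · exact hD.n4 e.symm
    · exact hD.n7 e.symm
  have f2 := (hD.cv1 (fun h1 => e2 (G.sym _ _ (HL_b76 h1)))).resolve_right e1
  have f1 := (hD.swap.cv1 (fun h1 => e1 (G.sym _ _ (HL_b76 h1)))).resolve_right e2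
  have hy1 : h ∈ G.nb y1 :=
    (hC.miss y1 (hC.sub hD.Y1) d (hC.sub hD.dY) hD.n8.symm).resolve_right hd
  have hy2 : h ∈ G.nb y2 :=
    (hC.miss y2 (hC.sub hD.Y2) d (hC.sub hD.dY) hD.n9.symm).resolve_right hd
  have ht : ∀ {x : V}, x ∈ Y → x ≠ t := by
    rintro x hx rfl
    exact hC.tY hx
  have q1 := hC.pT1_50 hO hD.Y1 f1.1 hy1
  have q2 := hC.pT1_50 hO hD.Y2 f2.1 hy2
  apply hC.noT_50
  intro x hx h1
  rcases hD.ym x hx with e | e | e | e | e <;> rw [e] at h1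
  · rcases hD.nbp hC.tT h1 with e | e
    · exact ht hD.pY' e.symm
    · exact ht hD.dY e.symm
  · rcases hD.nbp' hC.tT h1 with e | e
    · exact ht hD.pY e.symm
    · exact ht hD.dY e.symm
  · rcases nd hC.tT h1 with e | e
    · exact ht hD.pY e.symm
    · exact ht hD.pY' e.symm
  · have h3 : 2 ≤ (G.pT F y1).card :=
      two_le5 (mem_pT89.2 ⟨f1.2, hC.sub hD.Y2⟩) (mem_pT89.2 ⟨h1, hC.tT⟩) (ht hD.Y2)
    omega
  · have h3 : 2 ≤ (G.pT F y2).card :=
      two_le5 (mem_pT89.2 ⟨f2.2, hC.sub hD.Y1⟩) (mem_pT89.2 ⟨h1, hC.tT⟩) (ht hD.Y1)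
    omega

/-- no twins in `N F` -/
theorem C89.no50 (hC : G.C89 F h v w t Y) (hO : ∀ w ∈ G.N F, G.Low w → 2 ≤ G.d w F → 2 ≤ G.d w (G.Co F))
    (hT : ∀ x ∈ Y, ¬ G.IsTw x) : False := by
  classical
  set L := Y.filter fun x => G.Low x with hL
  have hLm : ∀ x, x ∈ L ↔ x ∈ Y ∧ G.Low x := fun x => mem_filter
  have h6 := hC.cnt hT hLm
  -- one vertex misses `h`
  have b0 : (L.filter fun x => h ∉ G.nb x).card ≤ 1 := by
    rw [card_le_one]
    intro x hx y hy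
    obtain ⟨hx1, hx2⟩ := mem_filter.1 hx
    obtain ⟨hy1, hy2⟩ := mem_filter.1 hy
    by_contra hne
    rcases hC.miss x (hC.sub ((hLm x).1 hx1).1) y (hC.sub ((hLm y).1 hy1).1) hne with e | e
    · exact hx2 e
    · exact hy2 e
  have b1 : ∑ x ∈ L, (G.pT F x).card ≤ ∑ x ∈ L, (1 + if h ∉ G.nb x then 1 else 0) := by
    refine sum_le_sum fun x hx => ?_
    obtain ⟨hx1, hx2⟩ := (hLm x).1 hx
    by_cases hh : h ∈ G.nb x
    · rw [if_neg (not_not.2 hh)]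
      exact hC.pT1_50 hO hx1 hx2 hh
    · rw [if_pos hh]
      exact hC.pT2_50 hO hx1 hx2 hh
  rw [sum_add_distrib, ← card_filter, sum_const, smul_eq_mul, mul_one] at b1
  have b2 : L.card ≤ Y.card := card_le_card (filter_subset _ _)
  have hLY : L = Y := by
    apply eq_of_subset_of_card_le (filter_subset _ _)
    rw [← hL]
    have := hC.c5
    omega
  have hlow : ∀ x ∈ Y, G.Low x := by
    intro x hx
    rw [← hLY] at hx
    exact ((hLm x).1 hx).2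
  have cov : ∀ y ∈ Y, ∃ x ∈ Y, x ∈ G.nb y := by
    intro y hy
    rcases hC.c1 y hy with h7 | h7 | h7
    · obtain ⟨x, hx, -, h8⟩ := h7
      exact ⟨x, hx, G.sym _ _ h8⟩
    · obtain ⟨x, hx, x', hx', h8, -⟩ := h7
      exact absurd ⟨_, h8⟩ (hT x hx)
    · obtain ⟨a, ha, b, hb, h8⟩ := h7
      exact absurd (hlow a ha) (HL_not_low76 h8)
  have one : ∀ y ∈ Y, h ∈ G.nb y → ∀ a b, a ∈ G.nb y → b ∈ G.nb y → a ∈ G.N F → b ∈ G.N F →
      a = b := by
    intro y hy hh a b ha hb haN hbN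
    exact card_le_one.1 (hC.pT1_50 hO hy (hlow y hy) hh) a (mem_pT89.2 ⟨ha, haN⟩) b
      (mem_pT89.2 ⟨hb, hbN⟩)
  have ht : ∀ {x : V}, x ∈ Y → x ≠ t := by
    rintro x hx rfl
    exact hC.tY hx
  apply hC.noT_50
  intro s hs hst
  by_cases hsh : h ∈ G.nb s
  · obtain ⟨x, hx, hxs⟩ := cov s hs
    exact ht hx (one s hs hsh x t hxs hst (hC.sub hx) hC.tT)
  have hoth : ∀ x ∈ Y, x ≠ s → h ∈ G.nb x := fun x hx hne =>
    (hC.miss x (hC.sub hx) s (hC.sub hs) hne).resolve_right hsh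
  obtain ⟨a, ha, has⟩ := cov s hs
  have hane : a ≠ s := (ne_of_nb5 has).symm
  have hpa : ∀ x ∈ Y, x ∈ G.nb s → x = a := by
    intro x hx hxs
    by_contra hne
    have h1 : ({x, a, t} : Finset V) ⊆ G.pT F s := by
      intro z hz
      simp only [mem_insert, mem_singleton] at hz
      rcases hz with rfl | rfl | rfl
      · exact mem_pT89.2 ⟨hxs, hC.sub hx⟩
      · exact mem_pT89.2 ⟨has, hC.sub ha⟩
      · exact mem_pT89.2 ⟨hst, hC.tT⟩
    have h2 := card_le_card h1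
    have h3 : ({x, a, t} : Finset V).card = 3 := by
      rw [card_eq_three]
      exact ⟨x, a, t, hne, ht hx, ht ha, rfl⟩
    have h4 := hC.pT2_50 hO hs (hlow s hs) hsh
    omega
  have haN := hC.sub ha
  have hsN := hC.sub hs
  have hha := hoth a ha hane
  have hsa : s ∈ G.nb a := G.sym _ _ has
  have hc3 : ((Y.erase s).erase a).card = 3 := by
    rw [card_erase_of_mem (mem_erase.2 ⟨hane, ha⟩), card_erase_of_mem hs, hC.c5]
  have hmem : ∀ x, x ∈ (Y.erase s).erase a ↔ x ≠ a ∧ x ≠ s ∧ x ∈ Y := by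
    intro x
    rw [mem_erase, mem_erase]
  -- neighbours of the three other vertices
  have hin : ∀ x ∈ (Y.erase s).erase a, ∀ y ∈ Y, y ∈ G.nb x → y ∈ (Y.erase s).erase a := by
    intro x hx y hy hyx
    obtain ⟨x1, x2, x3⟩ := (hmem x).1 hx
    refine (hmem y).2 ⟨?_, ?_, hy⟩
    · rintro rfl
      exact x2 (one y hy hha x s (G.sym _ _ hyx) hsa (hC.sub x3) hsN)
    · rintro rfl
      exact x1 (hpa x x3 (G.sym _ _ hyx))
  obtain ⟨y1, hy1⟩ : ((Y.erase s).erase a).Nonempty := by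
    rw [← card_pos]
    omega
  obtain ⟨g1, g2, g3⟩ := (hmem y1).1 hy1
  obtain ⟨y2, hy2, h12⟩ := cov y1 g3
  have hy2' := hin y1 hy1 y2 hy2 h12
  obtain ⟨k1, k2, -⟩ := (hmem y2).1 hy2'
  have h21 : y1 ∈ G.nb y2 := G.sym _ _ h12
  have hne12 : y1 ≠ y2 := ne_of_nb5 h12
  have hcc : ((((Y.erase s).erase a).erase y1).erase y2).card = 1 := by
    rw [card_erase_of_mem (mem_erase.2 ⟨hne12.symm, hy2'⟩), card_erase_of_mem hy1, hc3]
  obtain ⟨y3, hy3⟩ := card_eq_one.1 hcc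
  have hm3 : ∀ x, x ∈ (Y.erase s).erase a → x ≠ y1 → x ≠ y2 → x = y3 := by
    intro x hx e1 e2
    have h7 : x ∈ (((Y.erase s).erase a).erase y1).erase y2 :=
      mem_erase.2 ⟨e2, mem_erase.2 ⟨e1, hx⟩⟩
    rw [hy3] at h7
    exact mem_singleton.1 h7
  have h3m : y3 ∈ (((Y.erase s).erase a).erase y1).erase y2 := by
    rw [hy3]
    exact mem_singleton_self _
  obtain ⟨m1, m2⟩ := mem_erase.1 h3m
  obtain ⟨m3, m4⟩ := mem_erase.1 m2
  obtain ⟨n1, n2, n3⟩ := (hmem y3).1 m4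
  obtain ⟨y4, hy4, h34⟩ := cov y3 n3
  have hy4' := hin y3 m4 y4 hy4 h34
  have h43 : y3 ∈ G.nb y4 := G.sym _ _ h34
  by_cases e1 : y4 = y1
  · rw [e1] at h43
    exact m1 (one y1 g3 (hoth y1 g3 g2) y3 y2 h43 h12 (hC.sub n3) (hC.sub hy2))
  by_cases e2 : y4 = y2
  · rw [e2] at h43
    exact m3 (one y2 hy2 (hoth y2 hy2 k2) y3 y1 h43 h21 (hC.sub n3) (hC.sub g3))
  have e3 := hm3 y4 hy4' e1 e2
  rw [e3] at h34
  exact G.irr _ h34

theorem hq50 (hC : G.C89 F h v w t Y) (hO : ∀ w ∈ G.N F, G.Low w → 2 ≤ G.d w F → 2 ≤ G.d w (G.Co F)) :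
    False := by
  by_cases hT : ∃ x ∈ Y, G.IsTw x
  · obtain ⟨p, hpY, hp⟩ := hT
    obtain ⟨p', d, y1, y2, hD⟩ := exD89 hC (st5B_16 G) hpY hp
    exact hD.no50 hO
  · exact hC.no50 hO fun x hx h1 => hT ⟨x, hx, h1⟩

end HQ

/-- light leaves with three vertices -/
theorem light3_50 (hcr : G.Crit) (hsat : G.Sat) (F : Finset V) (hF : G.GoodK F)
    (hc : F.card = 3) : 4 ≤ G.WS F := by
  classical
  have hn9 : 9 ≤ Fintype.card V := by
    have h1 := G.card_V37 hF.1.1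
    have h2 := hF.1.2.1
    have h3 := hF.1.2.2
    omega
  have hBas := stBas_33 G G.Tw
  have hTw := stTwHL_5 G
  have hB5 := st5B_16 G
  have hcov : ∀ z ∈ F, ∀ v ∈ G.nb z, v ∉ F → G.SCov z v := by
    intro z hz v hv hvF
    by_contra hcov
    rcases (G.stStruct_53 G.stN6_37 G.stCo_37) hcr F hF.1 z hz v hv hcov with ⟨B, hB, hBF, -⟩ | ⟨-, h⟩
    · have h1 := card_lt_card hBF
      have h2 := hB.2.1
      omega
    · exact hvF h
  have hs5 : G.S5 F := (st5F_16 G).sit hsat F hF.1 hc hcov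
  have hP0 : 0 ≤ G.P5 F := G.stF5_all76 hsat F hF.1 hc hcov
  -- a low in `F`
  by_cases hlF : ∃ z ∈ F, G.Low z
  · obtain ⟨z, hz, hzl⟩ := hlF
    exact ws_one50 hP0 hzl (thS_in33 hF.2 hz).ge
  have hnl : ∀ z ∈ F, ¬ G.Low z := fun z hz hl => hlF ⟨z, hz, hl⟩
  by_cases hO : ∃ w ∈ G.N F, G.Low w ∧ G.d w (G.Co F) ≤ 1 ∧ 2 ≤ G.d w F
  · obtain ⟨w, hw, hwl, hd1, hd2⟩ := hO
    exact ws_one50 hP0 hwl (thS_four50 hcr hn9 hF hw hd2 hd1).ge
  have hO' : ∀ w ∈ G.N F, G.Low w → 2 ≤ G.d w F → 2 ≤ G.d w (G.Co F) := by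
    intro w hw hl hd
    by_contra hno
    exact hO ⟨w, hw, hl, by omega, hd⟩
  -- the partner of a twin vertex of `F`
  have hpart : ∀ v w, G.Tw v w → v ∈ F → w ∈ F := by
    intro v w hvw hv
    by_contra hw
    have hwN : w ∈ G.N F := mem_N76.2 ⟨hw, v, hv, hvw.1⟩
    have h5 := hBas.out F hs5 w hwN
    rw [d, Nat.succ_le_iff, Finset.card_pos] at h5
    obtain ⟨x, hx⟩ := h5
    obtain ⟨hx1, hx2⟩ := mem_inter.1 hx
    obtain ⟨hx3, hx4⟩ := mem_Co76.1 hx2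
    have hxv : x ≠ v := by
      rintro rfl
      exact hx3 hv
    have h6 : x ∈ G.nb v := Tw_nb5 (hTw.symm _ _ hvw) hx1 hxv
    exact hx4 (mem_N76.2 ⟨hx3, v, hv, h6⟩)
  by_cases hQ : ∃ v ∈ F, G.IsTw v
  · exfalso
    obtain ⟨v, hv, w, hvw⟩ := hQ
    have hw := hpart v w hvw hv
    have hne : v ≠ w := ne_of_nb5 hvw.1
    have hcard : ((F.erase v).erase w).card = 1 := by
      rw [Finset.card_erase_of_mem (mem_erase.2 ⟨hne.symm, hw⟩), Finset.card_erase_of_mem hv, hc]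
    obtain ⟨z, hz⟩ := Finset.card_eq_one.1 hcard
    have hz1 : z ∈ (F.erase v).erase w := by rw [hz]; exact mem_singleton_self _
    have hzw : z ≠ w := (mem_erase.1 hz1).1
    have hzv : z ≠ v := (mem_erase.1 (mem_erase.1 hz1).2).1
    have hzF : z ∈ F := (mem_erase.1 (mem_erase.1 hz1).2).2
    have hFe : F = {z, v, w} := by
      ext x
      constructor
      · intro hx
        by_cases hxv : x = v
        · rw [hxv]; simp
        by_cases hxw : x = w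
        · rw [hxw]; simp
        have : x ∈ (F.erase v).erase w := mem_erase.2 ⟨hxw, mem_erase.2 ⟨hxv, hx⟩⟩
        rw [hz] at this
        rw [mem_singleton.1 this]; simp
      · intro hx
        simp only [mem_insert, mem_singleton] at hx
        rcases hx with h | h | h <;> rw [h] <;> assumption
    have hzt : ¬ G.IsTw z := by
      rintro ⟨z', hzz'⟩
      have h10 := hpart _ _ hzz' hzF
      have h11 : z' = z ∨ z' = v ∨ z' = w := by
        rw [hFe] at h10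
        simpa using h10
      rcases h11 with h | h | h
      · exact ne_of_nb5 hzz'.1 h.symm
      · rw [h] at hzz'
        exact hzw (hTw.uniq hn9 _ _ _ (hTw.symm _ _ hzz') hvw)
      · rw [h] at hzz'
        exact hzv (hTw.uniq hn9 _ _ _ (hTw.symm _ _ hzz') (hTw.symm _ _ hvw))
    obtain ⟨t, Y, hC⟩ := exC89 hs5 hFe ⟨hnl z hzF, hzt⟩ hvw
    exact hq50 hC hO'
  · have hhub : ∀ z ∈ F, G.Hub z := fun z hz => ⟨hnl z hz, fun h => hQ ⟨z, hz, h⟩⟩
    by_cases hT : ∃ P ∈ G.N F, G.IsTw P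
    · exfalso
      obtain ⟨P, hP, P', hPP⟩ := hT
      obtain ⟨l, hl, hlN, hlF, hpT⟩ := tw_low28 hBas hB5 hs5 hhub hP hPP
      have hPP2 := hTw.symm _ _ hPP
      have hP' := twN28 hs5 hhub hP hPP
      have hlP : l ∈ G.nb P := by
        have h1 : l ∈ G.pT F P := by rw [hpT]; simp
        exact (mem_inter.1 h1).1
      have nlP' : l ≠ P' := fun h1 => tw_not_low11 ⟨P, hPP2⟩ (h1 ▸ hl)
      have hlP' : l ∈ G.nb P' := Tw_nb5 hPP hlP nlP'
      have h2 : 2 ≤ (G.pT F l).card := two_le5 (mem_inter.2 ⟨G.sym _ _ hlP, hP⟩)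
        (mem_inter.2 ⟨G.sym _ _ hlP', hP'⟩) (ne_of_nb5 hPP.1)
      have h3 := pT4_50 hO' hlN hl (by omega)
      omega
    · exact HC50.main ⟨hcr, hn9, hF, hs5, hhub, fun v hv h => hT ⟨v, hv, h⟩⟩

end CG

end Pool.Agent.Lib.MP_e95c01_co.N
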