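import Pool.Agent.Lib.MP_e95c01_co.Y.Lf38e
import Pool.Agent.Lib.MP_e95c01_co.Y.L3d_50
import Pool.Agent.Lib.MP_e95c01_co.Y.H5s75
import Pool.Agent.Lib.MP_e95c01_co.Y.H6s37
import Pool.Agent.Lib.MP_e95c01_co.Y.H7s86
import Pool.Agent.Lib.MP_e95c01_co.X.H8_76
import Pool.Agent.Lib.MP_e95c01_co.X.Leaf76

/-!
# Light leaves
-/

set_option autoImplicit false

namespace Pool.Agent.Lib.MP_e95c01_co.N

open Finset

variable {V : Type} [Fintype V] [DecidableEq V]

namespace CG

/-- leaves with four vertices -/
theorem light4_76 {G : CG V} (hM : G.StM9) (hcr : G.Crit) (hsat : G.Sat) {F : Finset V}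
    (hF : G.GoodK F) (T : G.Tor F ∅) (h4 : F.card = 4) : 4 ≤ G.WS F := by
  classical
  have hcardV := G.card_V37 hF.1.1
  have hCF3 := hF.1.2.2
  have hn9 : 9 ≤ Fintype.card V := by omega
  have hnoK : ∀ S, G.IsK6 S → ¬ S ⊆ F := by
    intro S hS hSF
    obtain ⟨A, hA, -⟩ := T.k6 S hS hSF
    exact absurd hA (notMem_empty _)
  have hP0 : 0 ≤ G.P5 F := by
    have h1 := G.fine38 hM hcr hsat F hF
    have h2 : G.qLL F = 0 := by
      unfold qLL
      rw [card_eq_zero, filter_eq_empty_iff]
      rintro q hq ⟨S, hS, hqS, -⟩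
      exact hnoK S hS (Gd57.k6_sub hF.2 hS hqS hq)
    rw [h2] at h1
    push_cast at h1
    linarith
  have hth : 0 ≤ ∑ w ∈ univ.filter (fun w => G.Low w), G.thS F w :=
    sum_nonneg fun w _ => thS_nonneg33 F w
  by_contra hcon
  push Not at hcon
  have hWS : G.WS F = 3 * G.P5 F + ∑ w ∈ univ.filter (fun w => G.Low w), G.thS F w := rfl
  have hP : G.P5 F = 0 := by
    obtain ⟨k, hk⟩ := P5_even11 hn9 hF.1.1
    omega
  have hone : ∀ z, G.Low z → G.thS F z ≤ 3 := by
    intro z hl
    have h1 := single_le_sum (f := fun w => G.thS F w) (fun w _ => thS_nonneg33 F w)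
      (mem_filter.2 ⟨mem_univ z, hl⟩ : z ∈ univ.filter (fun w => G.Low w))
    linarith
  have hnl : ∀ z ∈ F, ¬ G.Low z := by
    intro z hz hl
    have h1 := hone z hl
    rw [thS_in33 hF.2 hz] at h1
    omega
  have hLf : G.Lf F := G.stLSit_11 hsat F hF.1 (by omega) (T.leaf rfl) (by
    intro z hz v hv
    by_contra h
    obtain ⟨A, hA, -⟩ := T.cov (by omega) z hz (fun A hA => absurd hA (notMem_empty _)) v hv h
    exact absurd hA (notMem_empty _))
  have hB := G.stLBas_11
  have hBB := G.stLB_16
  have hCn := G.stLCnt_30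
  have h4F : G.L4 F := ⟨hLf, h4⟩
  have hO : ∀ w ∈ G.N F, G.Low w → 2 ≤ G.d w (G.Co F) := by
    intro w hw hl
    by_contra h
    have h1 := hone w hl
    rw [thS_four50 hcr hn9 hF hw (hB.pos F hLf w hw) (by omega)] at h1
    omega
  have hp := G.stLP_16 F hF.1
  rw [h4, hP] at hp
  have hl0 : G.l F = 0 := by
    rw [l, card_eq_zero, filter_eq_empty_iff]
    exact fun z hz => hnl z hz
  rw [hl0] at hp
  push_cast at hp
  by_cases htw : ∃ v ∈ F, G.IsTw v
  · obtain ⟨v, hv, w, hvw⟩ := htw
    have hw := (hB.twT F hLf v w hvw).2 hv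
    have hne : v ≠ w := fun e => G.irr w (by have := hvw.1; rwa [e] at this)
    obtain ⟨e1, e2, e3, e4⟩ := rem_pair76 hv hw hne
    rw [h4] at e2
    obtain ⟨a, b, hab, e5⟩ := card_eq_two.1 (show ((F.erase v).erase w).card = 2 by omega)
    rw [e5] at e1 e3 e4
    have ha : a ∈ F := by rw [e1]; simp
    have hb : b ∈ F := by rw [e1]; simp
    have hFs : F = {a, b, v, w} := by
      rw [e1]; ext u; simp only [mem_insert, mem_singleton]; tauto
    have ea : a ≠ v ∧ a ≠ w := by
      simp only [mem_insert, mem_singleton, not_or] at e3 e4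
      exact ⟨Ne.symm e3.2.1, Ne.symm e4.1⟩
    have eb : b ≠ v ∧ b ≠ w := by
      simp only [mem_insert, mem_singleton, not_or] at e3 e4
      exact ⟨Ne.symm e3.2.2, Ne.symm e4.2⟩
    have hpart : ∀ x y, G.Tw x y → x ∈ F → x ≠ v → x ≠ w → y = a ∨ y = b := by
      intro x y hxy hx hxv hxw
      have hy := (hB.twT F hLf x y hxy).2 hx
      rw [e1] at hy
      simp only [mem_insert, mem_singleton] at hy
      rcases hy with rfl | rfl | h | h
      · exact absurd ((stTwHL_5 G).uniq hn9 _ _ _ ((stTwHL_5 G).symm _ _ hxy) hvw) hxw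
      · exact absurd ((stTwHL_5 G).uniq hn9 _ _ _ ((stTwHL_5 G).symm _ _ hxy)
          ((stTwHL_5 G).symm _ _ hvw)) hxv
      · exact Or.inl h
      · exact Or.inr h
    have hQQ : G.Tw a b → False := by
      intro hab'
      rcases st6QQs_86 G hB hBB hCn F h4F hO a b v w hFs hab' hvw ea.1 ea.2 with h | ⟨k1, k2, -⟩
      · omega
      · obtain ⟨q, q', hqq, hq, hq', hsub⟩ := k2
        have adj : ∀ {x y u : V}, G.Tw x y → u ∈ G.nb x → u ≠ y → u ∈ G.nb y := by
          intro x y u hxy hu huy
          have h1 : u ∈ G.cl x := mem_insert_of_mem hu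
          rw [hxy.2.2, cl, mem_insert] at h1
          exact h1.resolve_left huy
        have a1 : v ∈ G.nb a := k1
        have a2 : a ∈ G.nb v := G.sym _ _ a1
        have a3 : a ∈ G.nb w := adj hvw a2 ea.2
        have a4 : w ∈ G.nb a := G.sym _ _ a3
        have a5 : v ∈ G.nb b := adj hab' a1 eb.1.symm
        have a6 : w ∈ G.nb b := adj hab' a4 eb.2.symm
        have a7 : b ∈ G.nb a := hab'.1
        have a8 : w ∈ G.nb v := hvw.1
        have hqF : q ∉ F := (mem_N76.1 hq).1
        have hq'F : q' ∉ F := (mem_N76.1 hq').1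
        have hqne : q ≠ q' := fun e => G.irr q' (by have := hqq.1; rwa [e] at this)
        have hsub' : ∀ x ∈ F, x ∈ G.nb q' := by
          intro x hx
          exact adj hqq (hsub hx) (fun e => hq'F (e ▸ hx))
        refine hF.2 q hq ⟨insert q (insert q' F), ⟨?_, ?_, ?_⟩, mem_insert_self _ _⟩
        · rw [card_insert_of_notMem, card_insert_of_notMem hq'F, h4]
          rw [mem_insert, not_or]
          exact ⟨hqne, hqF⟩
        · intro x hx
          rw [mem_insert, mem_insert] at hx
          rcases hx with rfl | rfl | hx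
          · exact ⟨_, hqq⟩
          · exact ⟨_, (stTwHL_5 G).symm _ _ hqq⟩
          · rw [hFs] at hx
            simp only [mem_insert, mem_singleton] at hx
            rcases hx with rfl | rfl | rfl | rfl
            · exact ⟨_, hab'⟩
            · exact ⟨_, (stTwHL_5 G).symm _ _ hab'⟩
            · exact ⟨_, hvw⟩
            · exact ⟨_, (stTwHL_5 G).symm _ _ hvw⟩
        · have inF : ∀ x ∈ F, ∀ y ∈ F, x ≠ y → y ∈ G.nb x := by
            intro x hx y hy hxy
            rw [hFs] at hx hy
            simp only [mem_insert, mem_singleton] at hx hy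
            rcases hx with rfl | rfl | rfl | rfl <;> rcases hy with rfl | rfl | rfl | rfl <;>
              first
                | exact absurd rfl hxy
                | assumption
                | exact G.sym _ _ (by assumption)
          intro x hx y hy hxy
          rw [mem_insert, mem_insert] at hx hy
          rcases hx with rfl | rfl | hx <;> rcases hy with rfl | rfl | hy
          · exact absurd rfl hxy
          · exact hqq.1
          · exact hsub hy
          · exact G.sym _ _ hqq.1
          · exact absurd rfl hxy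
          · exact hsub' _ hy
          · exact G.sym _ _ (hsub hx)
          · exact G.sym _ _ (hsub' _ hx)
          · exact inF x hx y hy hxy
    by_cases hta : G.IsTw a
    · obtain ⟨y, hy⟩ := hta
      rcases hpart a y hy ha ea.1 ea.2 with rfl | rfl
      · exact absurd hy.1 (G.irr _)
      · exact hQQ hy
    by_cases htb : G.IsTw b
    · obtain ⟨y, hy⟩ := htb
      rcases hpart b y hy hb eb.1 eb.2 with rfl | rfl
      · exact hQQ ((stTwHL_5 G).symm _ _ hy)
      · exact absurd hy.1 (G.irr _)
    have la : G.Hub a := by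
      rcases low_or_hub76 hta with la | la
      · exact absurd la (hnl a ha)
      · exact la
    have lb : G.Hub b := by
      rcases low_or_hub76 htb with lb | lb
      · exact absurd lb (hnl b hb)
      · exact lb
    have := st6HHQs_37 G hB hBB hCn F h4F hO a b v w hFs hab la lb hvw
    omega
  · push Not at htw
    have := st6HHHHs_75 G hB hBB hCn F h4F (fun z hz => by
      rcases low_or_hub76 (htw z hz) with h | h
      · exact absurd h (hnl z hz)
      · exact h) hO
    omega

/-- light leaves -/
theorem light76 {G : CG V} (hM : G.StM9) (hcr : G.Crit) (hsat : G.Sat) {F : Finset V}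
    (hF : G.GoodK F) (T : G.Tor F ∅) : 4 ≤ G.WS F := by
  have h3 := hF.1.2.1
  rcases Nat.lt_or_ge F.card 5 with h | h
  · rcases Nat.lt_or_ge F.card 4 with h' | h'
    · exact light3_50 hcr hsat F hF (by omega)
    · exact light4_76 hM hcr hsat hF T (by omega)
  · exact leaf38 hM hcr hsat hF T h

end CG

end Pool.Agent.Lib.MP_e95c01_co.N
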