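import Pool.Agent.Lib.MP_e95c01_co.Y.Pre310_76
import Pool.Agent.Lib.MP_e95c01_co.Y.Light4_76

/-!
# `3 n ≤ 10 n_6` for all 6-contraction-critical graphs
-/

set_option autoImplicit false

namespace Pool.Agent.Lib.MP_e95c01_co.N

open Finset

variable {V : Type} [Fintype V] [DecidableEq V]

namespace CG

/-- all graphs: `3 n ≤ 10 n_6` -/
theorem c310_all76 (G : CG V) (hcr : G.Crit) : 3 * Fintype.card V ≤ 10 * G.l univ :=
  c310_leaf76 (fun G h1 h2 _ hF _ T _ h6 => leaf38 G.stM9_all76 h1 h2 hF T (by omega))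
    (fun G h1 h2 _ hF _ T _ => light76 G.stM9_all76 h1 h2 hF T) G hcr

end CG

end Pool.Agent.Lib.MP_e95c01_co.N
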