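import Pool.Agent.Lib.MP_e95c01_co.Y.PortB87
import Pool.Agent.Lib.MP_e95c01_co.X.T6_42
import Pool.Agent.Lib.MP_e95c01_co.X.C6fa_28

/-!
# Who asks an `LL` port of a `K6` that is a member of a thick torso

Only the partner and, if the port `u` is in a second neighbourhood `N B` and the low vertex `x` is
in `N B` only, possibly `x` (type GAMMA); then the port and its partner are rich.
-/

namespace Pool.Agent.Lib.MP_e95c01_co.N

open Finset

variable {V : Type} [Fintype V] [DecidableEq V]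

namespace CG

open K28 C6f

variable {G : CG V} {Fa : Finset (Finset V)} {K : Finset V} {q q' u v c d x y : V}

namespace LPt

theorem swapq (h : G.LPt Fa K q q' u v c d x y) : G.LPt Fa K q' q u v c d x y := by
  refine ⟨h.mem, h.k6, h.qK', h.qK, h.ne.symm, h.uK, h.vK, ?_, ?_, h.ll⟩
  · rw [h.nu]
    ext z
    simp only [mem_insert, mem_singleton]
    tauto
  · rw [h.nv]
    ext z
    simp only [mem_insert, mem_singleton]
    tauto

theorem nK (h : G.LPt Fa K q q' u v c d x y) {z : V} (hz : z ∈ R Fa) : z ∉ K :=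
  mem_R76.1 hz K h.mem

/-- the neighbours of `u` in the torso -/
theorem vis (h : G.LPt Fa K q q' u v c d x y) {z : V} (hz : z ∈ G.nb u) (hK : z ∉ K) :
    z = v ∨ z = c ∨ z = d ∨ z = x := by
  rcases h.memu.1 hz with h1 | h1 | h1 | h1 | h1 | h1
  · exact absurd (h1 ▸ h.qK) hK
  · exact absurd (h1 ▸ h.qK') hK
  all_goals tauto

theorem vc (h : G.LPt Fa K q q' u v c d x y) : v ∈ G.nb c := G.sym _ _ (h.memv.2 (by tauto))

theorem vd (h : G.LPt Fa K q q' u v c d x y) : v ∈ G.nb d := G.sym _ _ (h.memv.2 (by tauto))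

theorem vx (h : G.LPt Fa K q q' u v c d x y) : v ∉ G.nb x := fun h1 => h.xv (G.sym _ _ h1)

theorem vR (h : G.LPt Fa K q q' u v c d x y) (hG : G.Gen6 Fa) : v ∈ R Fa :=
  h.symm.uR hG.g5.reg

theorem KN (hG : G.Gen6 Fa) (hF : K ∈ Fa) (hK : G.IsK6 K) {w : V} (hw : w ∈ G.N K) :
    G.Low w := by
  obtain ⟨r, -, w', -, -, -, -, h7, -⟩ := partner hG hF hK hw
  exact h7

/-- twins adjacent to `u`, not both in `K`, are `c` and `d` -/
theorem pair_cd (h : G.LPt Fa K q q' u v c d x y) (hG : G.Gen6 Fa) {g g' : V}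
    (ht : G.Tw g g') (hg : g ∈ G.nb u) (hK : g ∉ K) : (g = c ∧ g' = d) ∨ (g = d ∧ g' = c) := by
  have hgt : G.IsTw g := ⟨g', ht⟩
  have hgt' : G.IsTw g' := tw_of76' ht
  have h1 : u ≠ g' := low_ne_tw h.lu hgt'
  have h2 : g' ∈ G.nb u := G.sym _ _ (Tw_nb5 ht (G.sym _ _ hg) h1)
  have hK' : g' ∉ K := by
    intro h3
    have h5 : ∀ {r r' : V}, G.LPt Fa K r r' u v c d x y → g' = r → False := by
      intro r r' h4 h6
      have h7 : g ∈ G.nb r := by
        rw [← h6]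
        exact G.sym _ _ ht.1
      rcases h4.nbq hG h7 hK with h8 | h8
      · exact tw_not_low76 hgt (h8 ▸ h.lu)
      · exact tw_not_low76 hgt (h8 ▸ h.lv)
    rcases h.nbK hG h2 h3 with h4 | h4
    · exact h5 h h4
    · exact h5 h.swapq h4
  have hgv : g ≠ v := (low_ne_tw h.lv hgt).symm
  have hgv' : g' ≠ v := (low_ne_tw h.lv hgt').symm
  have hne : g ≠ g' := tw_ne ht
  have key : ∀ {a b : V}, G.Tw a b → v ∈ G.nb a → b = x → False := by
    intro a b hab h3 h4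
    subst h4
    have h5 : v ≠ b := low_ne_tw h.lv (tw_of76' hab)
    exact h.vx (Tw_nb5 hab h3 h5)
  rcases h.vis hg hK with h3 | h3 | h3 | h3
  · exact absurd h3 hgv
  · rcases h.vis h2 hK' with h4 | h4 | h4 | h4
    · exact absurd h4 hgv'
    · exact absurd (h3.trans h4.symm) hne
    · exact Or.inl ⟨h3, h4⟩
    · exact (key ht (h3 ▸ h.vc) h4).elim
  · rcases h.vis h2 hK' with h4 | h4 | h4 | h4
    · exact absurd h4 hgv'
    · exact Or.inr ⟨h3, h4⟩
    · exact absurd (h3.trans h4.symm) hne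
    · exact (key ht (h3 ▸ h.vd) h4).elim
  · rcases h.vis h2 hK' with h4 | h4 | h4 | h4
    · exact absurd h4 hgv'
    · exact (key (tw_symm76 ht) (h4 ▸ h.vc) h3).elim
    · exact (key (tw_symm76 ht) (h4 ▸ h.vd) h3).elim
    · exact absurd (h3.trans h4.symm) hne

/-- nobody asks `u` for the type ALPHA -/
theorem no_AL6 (h : G.LPt Fa K q q' u v c d x y) (hG : G.Gen6 Fa) {z : V} :
    ¬ G.AL Fa z u := by
  rintro ⟨B, p, e, f, g, h1⟩
  have hB : B ∈ G.I Fa z := h1.I1 ▸ mem_singleton_self _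
  have hBF := (mem_I76.1 hB).1
  have h2 : u ∈ G.pT B z := by
    rw [h1.nT]
    simp
  have hz : z ∈ G.nb u := G.sym _ _ (mem_inter.1 h2).1
  have he : e ∈ G.nb u := G.sym _ _ (G.sym _ _ h1.ye)
  have he2 : e ∈ G.pO B z := by
    rw [h1.out]
    simp
  have hep : e ∉ ({z, p} : Finset V) := by
    intro h3
    have h4 := (mem_inter.1 he2).2
    rw [Co, mem_compl, mem_union, not_or] at h4
    rw [mem_insert, mem_singleton] at h3
    rcases h3 with rfl | rfl
    · exact h4.2 (mem_I76.1 hB).2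
    · have h5 : e ∈ G.pT B z := by
        rw [h1.nT]
        simp
      exact h4.2 (mem_inter.1 h5).2
  have hzK := h.nK h1.qR
  have h3 := h.pair_cd hG h1.t hz hzK
  have heK : e ∉ K := by
    intro h4
    have h5 : ∀ {r r' : V}, G.LPt Fa K r r' u v c d x y → e = r → False := by
      intro r r' h6 h7
      have h8 : z ∈ G.nb r := by
        rw [← h7]
        exact G.sym _ _ (mem_inter.1 he2).1
      rcases h6.nbq hG h8 hzK with h9 | h9
      · exact tw_not_low76 ⟨_, h1.t⟩ (h9 ▸ h.lu)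
      · exact tw_not_low76 ⟨_, h1.t⟩ (h9 ▸ h.lv)
    rcases h.nbK hG he h4 with h6 | h6
    · exact h5 h h6
    · exact h5 h.swapq h6
  have h4 := h.pair_cd hG h1.t' he heK
  apply hep
  rw [mem_insert, mem_singleton]
  rcases h3 with h3 | h3 <;> rcases h4 with h4 | h4
  · exact Or.inl (h4.1.trans h3.1.symm)
  · exact Or.inr (h4.1.trans h3.2.symm)
  · exact Or.inr (h4.1.trans h3.2.symm)
  · exact Or.inl (h4.1.trans h3.1.symm)

/-- a visible neighbour of `u` whose only low neighbour in the torso is `u` -/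
theorem only_x (h : G.LPt Fa K q q' u v c d x y) (hG : G.Gen6 Fa) {z : V} (hz : z ∈ G.nb u)
    (hR : z ∈ R Fa) (hone : ∀ w ∈ G.nb z, w ∈ R Fa → G.Low w → w = u) : z = v ∨ z = x := by
  have hne := h.uv
  rcases h.vis hz (h.nK hR) with h1 | h1 | h1 | h1
  · exact Or.inl h1
  · exact absurd (hone v (h1 ▸ h.vc) (h.vR hG) h.lv).symm hne
  · exact absurd (hone v (h1 ▸ h.vd) (h.vR hG) h.lv).symm hne
  · exact Or.inr h1

/-- no type `T3` at `u` -/
theorem no_t3 (h : G.LPt Fa K q q' u v c d x y) (hG : G.Gen6 Fa) {z q1 p1 q2 p2 w : V}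
    (h1 : G.T3s Fa z u q1 p1 q2 p2 w) (h2 : q2 ∉ G.nb q1) : False := by
  obtain ⟨h3, h4, h5, h6⟩ := h1.adj28 hG h2
  have h7 : q1 ∈ R Fa := nb_R76 h1.lR h1.I0 (by rw [h1.nb]; simp)
  have h8 : q2 ∈ R Fa := nb_R76 h1.lR h1.I0 (by rw [h1.nb]; simp)
  have h9 := h.pair_cd hG h1.t h3 (h.nK h7)
  have h10 := h.pair_cd hG h1.t' h5 (h.nK h8)
  have h11 := h1.low
  rw [Low, h1.nb] at h11
  have h12 := nodup_six87 h11
  have h13 : q1 ≠ q2 := by tauto
  have h14 : q2 = p1 := by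
    rcases h9 with h9 | h9 <;> rcases h10 with h10 | h10
    · exact absurd (h9.1.trans h10.1.symm) h13
    · exact h10.1.trans h9.2.symm
    · exact h10.1.trans h9.2.symm
    · exact absurd (h9.1.trans h10.1.symm) h13
  exact h2 (h14 ▸ h1.t.1)

/-- `q` and `q'` are twins -/
theorem tw (h : G.LPt Fa K q q' u v c d x y) (hG : G.Gen6 Fa) : G.Tw q q' := by
  obtain ⟨w, hw⟩ := h.k6.2.1 q h.qK
  have hwt : G.IsTw w := tw_of76' hw
  have h1 : u ≠ w := low_ne_tw h.lu hwt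
  have h2 : w ∈ G.nb u := G.sym _ _ (Tw_nb5 hw (G.sym _ _ (h.memu.2 (by tauto))) h1)
  have h3 : w ∈ K := by
    by_contra h3
    rcases h.nbq hG hw.1 h3 with h4 | h4
    · exact h1 h4.symm
    · exact tw_not_low76 hwt (h4 ▸ h.lv)
  rcases h.nbK hG h2 h3 with h4 | h4
  · exact absurd h4 (tw_ne hw).symm
  · exact h4 ▸ hw

/-- the only vertex that forms an `LL` pair with `u` over `x` -/
theorem LL_b (h : G.LPt Fa K q q' u v c d x y) (hG : G.Gen6 Fa) {b w : V} (hb : b ∈ R Fa)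
    (h1 : G.LL u b x w) : w = y := by
  have h2 : q ∈ insert x (G.cl b) := by
    rw [← h1.2.2.2.2.2.2]
    exact mem_insert_of_mem (mem_insert_of_mem (h.memu.2 (by tauto)))
  have h3 : b = v := by
    rw [mem_insert, cl, mem_insert] at h2
    rcases h2 with h2 | h2 | h2
    · exact absurd h2 h.nd.2.2.2.2.1
    · exact absurd (h2 ▸ h.qK) (h.nK hb)
    · rcases h.nbqR hG (G.sym _ _ h2) hb with h3 | h3
      · exact absurd (h3 ▸ h1.2.2.1) (G.irr _)
      · exact h3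
  subst h3
  exact LL_same h1 h.ll

/-- a member of the family at `u` -/
theorem mem_cases (h : G.LPt Fa K q q' u v c d x y) (hG : G.Gen6 Fa) {B : Finset V}
    (hB : B ∈ G.I Fa u) : B = K ∨ c ∈ B ∨ d ∈ B ∨ x ∈ B := by
  obtain ⟨hBF, hN⟩ := mem_I76.1 hB
  obtain ⟨-, b, hb, hub⟩ := mem_N76.1 hN
  by_cases hBK : B = K
  · exact Or.inl hBK
  · right
    have hbK : b ∉ K := by
      intro h1
      exact disjoint_left.1 (hG.g5.reg.dis B hBF K h.mem hBK).1 hb h1
    rcases h.vis (G.sym _ _ hub) hbK with h1 | h1 | h1 | h1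
    · exact absurd (h1 ▸ hb) (mem_R76.1 (h.vR hG) B hBF)
    · exact Or.inl (h1 ▸ hb)
    · exact Or.inr (Or.inl (h1 ▸ hb))
    · exact Or.inr (Or.inr (h1 ▸ hb))

/-- no type `T6` at `u` -/
theorem no_t6 (h : G.LPt Fa K q q' u v c d x y) (hG : G.Gen6 Fa) {z q1 p1 a1 a2 a3 : V}
    (h1 : G.T6s Fa z u q1 p1 a1 a2 a3) (h2 : 2 ≤ G.ch5 Fa u) : False := by
  classical
  have h9 := hG.g5.n9
  have hr := hG.g5.reg
  have hz : z ∈ G.nb u := G.sym _ _ h1.ml42
  have hzx : z = x := by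
    rcases h.only_x hG hz h1.lR (fun w hw _ hwl => h1.lown42 hw hwl) with h3 | h3
    · have h4 := h.symm.KI
      rw [← h3, h1.I0] at h4
      exact absurd h4 (notMem_empty _)
    · exact h3
  subst hzx
  obtain ⟨h3, h4⟩ := h1.adj42 hG
  have qR := h1.qR42
  have pR : p1 ∈ R Fa := nb_R76 h1.lR h1.I0 h1.mp42
  have h5 := h.pair_cd hG h1.t h3 (h.nK qR)
  have tq : G.IsTw q1 := ⟨_, h1.t⟩
  have tp : G.IsTw p1 := tw_of76' h1.t
  have hct : G.IsTw c ∧ c ∈ R Fa ∧ (G.I Fa c).card ≤ 1 := by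
    have kp : (G.I Fa p1).card ≤ 1 := by
      rw [((stTwHL_5 G).twI Fa hr q1 qR p1 h1.t).2]
      exact h1.kq
    rcases h5 with h5 | h5
    · exact h5.1 ▸ ⟨tq, qR, h1.kq⟩
    · exact h5.2 ▸ ⟨tp, pR, kp⟩
  have hdt : G.IsTw d ∧ d ∈ R Fa ∧ (G.I Fa d).card ≤ 1 := by
    have kp : (G.I Fa p1).card ≤ 1 := by
      rw [((stTwHL_5 G).twI Fa hr q1 qR p1 h1.t).2]
      exact h1.kq
    rcases h5 with h5 | h5
    · exact h5.2 ▸ ⟨tp, pR, kp⟩
    · exact h5.1 ▸ ⟨tq, qR, h1.kq⟩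
  have hIu : G.I Fa u = {K} := by
    ext B
    rw [mem_singleton]
    constructor
    · intro hB
      have hBF := (mem_I76.1 hB).1
      rcases h.mem_cases hG hB with h6 | h6 | h6 | h6
      · exact h6
      · exact absurd h6 (mem_R76.1 hct.2.1 B hBF)
      · exact absurd h6 (mem_R76.1 hdt.2.1 B hBF)
      · exact absurd h6 (mem_R76.1 h1.lR B hBF)
    · rintro rfl
      exact h.KI
  have cN : c ∉ G.N K := fun h6 => tw_not_low76 hct.1 (KN hG h.mem h.k6 h6)
  have dN : d ∉ G.N K := fun h6 => tw_not_low76 hdt.1 (KN hG h.mem h.k6 h6)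
  have xN : z ∉ G.N K := by
    intro h6
    have h7 : K ∈ G.I Fa z := mem_I76.2 ⟨h.mem, h6⟩
    rw [h1.I0] at h7
    exact absurd h7 (notMem_empty _)
  have cC : ∀ {w : V}, w ∉ K → w ∉ G.N K → w ∈ G.Co K := by
    intro w e1 e2
    rw [Co, mem_compl, mem_union]
    tauto
  have nds := h.nd
  by_cases hy : y ∈ G.N K
  · -- all hubs are adjacent to the pair
    have hyl := KN hG h.mem h.k6 hy
    have key : ∀ a, a ∈ G.nb z → G.Hub a → a ∈ G.nb q1 := by
      intro a ha hh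
      rcases h1.cov42 hG ha with ⟨h6, h7 | ⟨b, hb, h7⟩⟩ | h6
      · exfalso
        have haR : a ∈ R Fa := nb_R76 h1.lR h1.I0 ha
        rcases h.vis h7 (h.nK haR) with h8 | h8 | h8 | h8
        · exact hh.1 (h8 ▸ h.lv)
        · exact hh.2 (h8 ▸ hct.1)
        · exact hh.2 (h8 ▸ hdt.1)
        · exact hh.1 (h8 ▸ h1.low)
      · exact absurd ((h.LL_b hG hb h7) ▸ hyl) hh.1
      · exact h6.1
    have hv1 : v ∈ G.nb q1 := by
      rcases h5 with h5 | h5
      · exact h5.1 ▸ h.vc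
      · exact h5.1 ▸ h.vd
    have hvz : v ∉ G.cl z := by
      intro h6
      rcases mem_insert.1 h6 with h6 | h6
      · exact absurd h6 nds.2.2.2.2.2.2.2.2.2.2.2.1
      · exact h.vx h6
    have hsub : insert v (G.cl z) ⊆ G.cl q1 := by
      intro w hw
      rw [mem_insert, cl, mem_insert, h1.mem42] at hw
      rw [cl, mem_insert]
      rcases hw with hw | hw | hw | hw | hw | hw | hw | hw
      · exact Or.inr (hw ▸ hv1)
      · exact Or.inr (hw ▸ G.sym _ _ h1.mq42)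
      · exact Or.inr (hw ▸ G.sym _ _ h3)
      · exact Or.inl hw
      · exact Or.inr (hw ▸ h1.t.1)
      · exact Or.inr (hw ▸ key _ h1.mx42 h1.hx.1)
      · exact Or.inr (hw ▸ key _ h1.my42 h1.hy.1)
      · exact Or.inr (hw ▸ key _ h1.mz42 h1.hz.1)
    have e1 : (G.cl q1).card = 8 := by
      rw [cl, card_insert_of_notMem (G.irr _), isTw_card16 tq]
    have e2 : (insert v (G.cl z)).card = 8 := by
      rw [card_insert_of_notMem hvz, cl, card_insert_of_notMem (G.irr _), h1.low]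
    have e3 := eq_of_subset_of_card_le hsub (by rw [e1, e2])
    exact (stTwHL_5 G).notHL h9 q1 z v
      ⟨isTw_card16 tq, h1.low, G.sym _ _ h1.mq42, hvz, e3.symm⟩ tq
  · -- the flag
    have hfr := hr.frag K h.mem
    have hTu : G.pT K u = {v} := by
      ext w
      rw [pT, mem_inter, mem_singleton]
      constructor
      · rintro ⟨e1, e2⟩
        have e3 := (mem_N76.1 e2).1
        rcases h.vis e1 e3 with h6 | h6 | h6 | h6
        · exact h6
        · exact absurd (h6 ▸ e2) cN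
        · exact absurd (h6 ▸ e2) dN
        · exact absurd (h6 ▸ e2) xN
      · rintro rfl
        exact mem_inter.1 h.vT
    have hTv : G.pT K v = {u} := by
      ext w
      rw [pT, mem_inter, mem_singleton]
      constructor
      · rintro ⟨e1, e2⟩
        have e3 := (mem_N76.1 e2).1
        rcases h.symm.vis e1 e3 with h6 | h6 | h6 | h6
        · exact h6
        · exact absurd (h6 ▸ e2) cN
        · exact absurd (h6 ▸ e2) dN
        · exact absurd (h6 ▸ e2) hy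
      · rintro rfl
        exact mem_inter.1 h.symm.vT
    have hOv : (G.pO K v).card ≠ 1 := by
      intro e1
      obtain ⟨w, e2⟩ := card_eq_one.1 e1
      have e3 : c ∈ G.pO K v := mem_inter.2 ⟨h.memv.2 (by tauto), cC (h.nK hct.2.1) cN⟩
      have e4 : d ∈ G.pO K v := mem_inter.2 ⟨h.memv.2 (by tauto), cC (h.nK hdt.2.1) dN⟩
      rw [e2, mem_singleton] at e3 e4
      exact nds.2.2.2.2.2.2.2.2.2.2.2.2.1 (e3.trans e4.symm)
    have hS : G.S0 K u v := ⟨h.uN, h.lu, h.lv, hTu, ⟨q, q', h.tw hG, h.pXK hG,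
      h.memv.2 (by tauto)⟩, fun e => hOv e.2⟩
    have hCo := G.stCo_37 K hfr
    have f0 := low_pT h9 hfr h.lv h.vT
    have f1 : G.pT (G.Co K) u = G.pT K u := pT_Co hfr u
    have f2 := low_pT (B := G.Co K) h9 hCo.1 h.lv (f1 ▸ h.vT)
    rw [hCo.2.2] at f2
    have g1 : 1 ≤ G.flv K u := by
      have e1 := s5_one hS hTv
      rw [flv_low h.lu, if_neg f0.1, if_neg f2.2.1, if_neg f2.2.2]
      omega
    have g2 : G.flv (G.Co K) u ≤ 0 := by
      have e1 := flv_up (S := G.Co K) h.lu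
      have e2 : G.s5 (G.Co K) u = 0 := by
        apply s5_zero
        intro w e3
        have e4 := (S0_card e3).1
        have e5 : ({c, d, z} : Finset V) ⊆ G.pX (G.Co K) u := by
          intro w' hw'
          rw [mem_insert, mem_insert, mem_singleton] at hw'
          rcases hw' with rfl | rfl | rfl
          · exact mem_inter.2 ⟨h.memu.2 (by tauto), cC (h.nK hct.2.1) cN⟩
          · exact mem_inter.2 ⟨h.memu.2 (by tauto), cC (h.nK hdt.2.1) dN⟩
          · exact mem_inter.2 ⟨hz, cC (h.nK h1.lR) xN⟩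
        have e6 := card_le_card e5
        rw [card_eq_three.2 ⟨c, d, z, nds.2.2.2.2.2.2.2.2.2.2.2.2.1,
          nds.2.2.2.2.2.2.2.2.2.2.2.2.2.1, nds.2.2.2.2.2.2.2.2.2.2.2.2.2.2, rfl⟩] at e6
        omega
      rw [if_neg f2.1] at e1
      omega
    have g3 := (stCh5_28 G).low1 h9 Fa hr u (h.uR hr) h.lu K hIu
    have g4 := fg5_eq (G := G) hIu
    have g5 := G.d_split76 u K
    have g6 : G.d u K = 2 := by
      have h4' := h.pXK hG
      rw [pX] at h4'
      rw [CG.d, h4', card_pair h.ne]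
    have g7 : (G.nb u ∩ G.N K).card = 1 := by
      rw [pT] at hTu
      rw [hTu, card_singleton]
    have g8 := h.lu
    rw [Low] at g8
    have g9 : (G.NF Fa u).card ≤ 2 := by
      have e1 : G.NF Fa u ⊆ {v, z} := by
        intro w hw
        rw [NF, mem_filter, mem_nR76] at hw
        rw [mem_insert, mem_singleton]
        rcases h.vis hw.1.1 (h.nK hw.1.2) with h6 | h6 | h6 | h6
        · exact Or.inl h6
        · subst h6
          rcases hw.2 with e | e | e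
          · exact absurd e (tw_not_low76 hct.1)
          · have := hct.2.2
            omega
          · exact absurd e (tw_not_HL76 h9 hct.1 u)
        · subst h6
          rcases hw.2 with e | e | e
          · exact absurd e (tw_not_low76 hdt.1)
          · have := hdt.2.2
            omega
          · exact absurd e (tw_not_HL76 h9 hdt.1 u)
        · exact Or.inr h6
      exact (card_le_card e1).trans (card_le_two)
    have g10 : (G.NP Fa u).card = 0 := by
      rw [card_eq_zero, eq_empty_iff_forall_notMem]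
      intro w hw
      rw [NP, mem_filter, mem_nR76] at hw
      apply hw.2.2.2
      have e1 : K ∉ G.I Fa w := by
        intro e2
        exact tw_not_low76 hw.2.1 (KN hG h.mem h.k6 (mem_I76.1 e2).2)
      rw [m, hIu, card_eq_zero, eq_empty_iff_forall_notMem]
      intro B e2
      rw [mem_inter, mem_singleton] at e2
      exact e1 (e2.2 ▸ e2.1)
    omega

/-- the partner of the port `z` of `K` -/
theorem port_v (h : G.LPt Fa K q q' u v c d x y) (hG : G.Gen6 Fa) {z : V}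
    (hzu : u ≠ z) (hz : z ∈ G.N K)
    (hone : ∀ w ∈ G.nb z, w ∈ R Fa → w ∈ G.N K → G.Low w → w = u) : z = v := by
  obtain ⟨r, h2, w', h3, h4, h5, h6, h7, h8, h9⟩ := partner hG h.mem h.k6 hz
  have h10 := hone w' h6 h9 h3 h8
  rw [h10] at h5
  exact h.partner_eq hG h2 h4 h5 hz hzu.symm

/-- type `k2`: only the partner -/
theorem k2_v (h : G.LPt Fa K q q' u v c d x y) (hG : G.Gen6 Fa) {z : V} {B : Finset V}
    (hk : 2 ≤ (G.I Fa z).card) (hB : B ∈ G.I Fa z) (hS : G.S0 B z u)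
    (hneg : G.ch5 Fa z < 0) : z = v := by
  classical
  by_contra hzv
  have hr := hG.g5.reg
  have h9 := hG.g5.n9
  have hzR : z ∈ R Fa := N_sub_R76 hr (mem_I76.1 hB).1 hS.1
  obtain ⟨B1, B2, D⟩ := don2_S2 hG.g5 (don2_of hG.g5 hzR hk hB hS hneg)
  have hone : ∀ w ∈ G.nb z, w ∈ G.N B1 → w = u := by
    intro w h1 h2
    have h3 : w ∈ G.pT B1 z := mem_inter.2 ⟨h1, h2⟩
    rw [D.pT, mem_singleton] at h3
    exact h3
  by_cases hBK : B1 = K
  · subst hBK
    exact hzv (h.port_v hG D.ne.symm D.z1 fun w h1 _ h3 _ => hone w h1 h3)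
  · obtain ⟨g, g', hg, hX, hgu⟩ := D.s.2.2.2.2.1
    have hgB : g ∈ G.pX B1 z := by rw [hX]; exact mem_insert_self _ _
    have hgB' : g' ∈ G.pX B1 z := by rw [hX]; exact mem_insert_of_mem (mem_singleton_self _)
    have hgK : g ∉ K := fun h1 =>
      disjoint_left.1 (hr.dis B1 D.c.F1 K h.mem hBK).1 (mem_inter.1 hgB).2 h1
    have h2 := h.pair_cd hG hg (G.sym _ _ (G.sym _ _ hgu)) hgK
    have hcB : c ∈ B1 := by
      rcases h2 with h2 | h2
      · exact h2.1 ▸ (mem_inter.1 hgB).2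
      · exact h2.2 ▸ (mem_inter.1 hgB').2
    have hdB : d ∈ B1 := by
      rcases h2 with h2 | h2
      · exact h2.2 ▸ (mem_inter.1 hgB').2
      · exact h2.1 ▸ (mem_inter.1 hgB).2
    have hzx : z = x := by
      rcases h.vis D.znb (h.nK hzR) with h3 | h3 | h3 | h3
      · exact absurd h3 hzv
      · exact absurd (h3 ▸ hcB) (mem_R76.1 hzR B1 D.c.F1)
      · exact absurd (h3 ▸ hdB) (mem_R76.1 hzR B1 D.c.F1)
      · exact h3
    subst hzx
    have hB2 : B2 = K := by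
      have h3 := D.mem2
      have hBF := (mem_I76.1 h3).1
      have hdis := (hr.dis B1 D.c.F1 B2 hBF D.c.ne).1
      rcases h.mem_cases hG h3 with h4 | h4 | h4 | h4
      · exact h4
      · exact absurd h4 (disjoint_left.1 hdis hcB)
      · exact absurd h4 (disjoint_left.1 hdis hdB)
      · exact absurd h4 (mem_R76.1 hzR B2 hBF)
    subst hB2
    obtain ⟨r, k2, w', k3, k4, k5, k6, k7, k8, k9⟩ := partner hG h.mem h.k6 D.z2
    have hw'u : w' ≠ u := by
      intro e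
      rw [e] at k5
      exact hzv (h.partner_eq hG k2 k4 k5 D.z2 D.ne)
    have hw'B : w' ∉ G.N B1 := fun e => hw'u (hone w' k6 e)
    have e1 := D.c.ch
    have e2 := D.c.sum_ge (S := {w'})
      (singleton_subset_iff.2 (mem_nR76.2 ⟨k6, k9⟩))
    rw [sum_singleton, w5_low k8] at e2
    have e3 := D.c.m_le1 hw'B
    have e4 := D.f1
    have e5 := D.f2
    have e6 := s5_le (G := G) B1 z
    have e7 := s5_nonneg (G := G) (G.Co B1) z
    have e8 := s5_nonneg (G := G) (G.Co B2) z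
    have e9 : G.s5 B2 z = 0 := by
      apply s5_zero
      intro v' hv'
      have g1 := S0_uniq hv' (mem_inter.2 ⟨k6, k3⟩)
      have g2 := S0_uniq hv' D.vT'
      exact hw'u (g1.trans g2.symm)
    have e10 := D.neg
    omega

/-- type `S0`: only the partner -/
theorem s0_v (h : G.LPt Fa K q q' u v c d x y) (hG : G.Gen6 Fa) {z q1 p1 w : V} {B : Finset V}
    (h1 : G.S0s Fa B z u q1 p1 w) : z = v := by
  have hr := hG.g5.reg
  have hBz : B ∈ G.I Fa z := h1.I1 ▸ mem_singleton_self _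
  have hBF := (mem_I76.1 hBz).1
  have hT := h1.s0.2.2.2.1
  have hu : u ∈ G.pT B z := by rw [hT]; exact mem_singleton_self _
  have huz : u ≠ z := ne_of_nb5 (mem_inter.1 hu).1 |>.symm
  by_cases hBK : B = K
  · subst hBK
    refine h.port_v hG huz (mem_I76.1 hBz).2 fun w' e1 _ e3 _ => ?_
    have e4 : w' ∈ G.pT B z := mem_inter.2 ⟨e1, e3⟩
    rw [hT, mem_singleton] at e4
    exact e4
  · exfalso
    obtain ⟨g, g', hg, hX, hgu⟩ := h1.s0.2.2.2.2.1
    have hgB : g ∈ G.pX B z := by rw [hX]; exact mem_insert_self _ _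
    have hgB' : g' ∈ G.pX B z := by rw [hX]; exact mem_insert_of_mem (mem_singleton_self _)
    have hgK : g ∉ K := fun e =>
      disjoint_left.1 (hr.dis B hBF K h.mem hBK).1 (mem_inter.1 hgB).2 e
    have h2 := h.pair_cd hG hg hgu hgK
    have hqO : q1 ∈ G.pO B z := by rw [h1.out]; simp
    have hqR := (out_R h1.toL1 hqO).1
    have h3 := h.pair_cd hG h1.t h1.vq (h.nK hqR)
    have h4 : q1 ∉ B := mem_R76.1 hqR B hBF
    rcases h2 with h2 | h2 <;> rcases h3 with h3 | h3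
    · exact h4 ((h3.1.trans h2.1.symm) ▸ (mem_inter.1 hgB).2)
    · exact h4 ((h3.1.trans h2.2.symm) ▸ (mem_inter.1 hgB').2)
    · exact h4 ((h3.1.trans h2.2.symm) ▸ (mem_inter.1 hgB').2)
    · exact h4 ((h3.1.trans h2.1.symm) ▸ (mem_inter.1 hgB).2)

/-- type EPS: only the partner -/
theorem eps_v (h : G.LPt Fa K q q' u v c d x y) (hG : G.Gen6 Fa) {z q1 p1 : V} {B : Finset V}
    (h1 : G.Eps Fa B z u q1 p1) : z = v := by
  have hr := hG.g5.reg
  have hBz : B ∈ G.I Fa z := h1.I1 ▸ mem_singleton_self _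
  have hBF := (mem_I76.1 hBz).1
  have hu := mem_inter.1 h1.dT
  have huz : u ≠ z := (ne_of_nb5 hu.1).symm
  have hone : ∀ w ∈ G.nb z, w ∈ R Fa → G.Low w → w = u := by
    intro w e1 e2 e3
    have e5 : w ∈ G.NF Fa z := by
      classical
      rw [NF, mem_filter, nR, mem_inter]
      exact ⟨⟨e1, e2⟩, Or.inl e3⟩
    rw [h1.nf, mem_singleton] at e5
    exact e5
  by_cases hBK : B = K
  · subst hBK
    exact h.port_v hG huz (mem_I76.1 hBz).2 fun w' e1 e2 _ e4 => hone w' e1 e2 e4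
  · rcases h.only_x hG (G.sym _ _ hu.1) h1.lR hone with h2 | h2
    · exact h2
    · exfalso
      subst h2
      have hqO : q1 ∈ G.pO B z := by rw [h1.out]; simp
      have hpO : p1 ∈ G.pO B z := by rw [h1.out]; simp
      have hqR := (out_R h1.toL1 hqO).1
      have hpR := (out_R h1.toL1 hpO).1
      have h3 := h.pair_cd hG h1.t h1.dq (h.nK hqR)
      have h4 : B ∈ G.I Fa u := mem_I76.2 ⟨hBF, hu.2⟩
      rcases h.mem_cases hG h4 with h5 | h5 | h5 | h5
      · exact hBK h5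
      · rcases h3 with h3 | h3
        · exact mem_R76.1 hqR B hBF (h3.1 ▸ h5)
        · exact mem_R76.1 hpR B hBF (h3.2 ▸ h5)
      · rcases h3 with h3 | h3
        · exact mem_R76.1 hpR B hBF (h3.2 ▸ h5)
        · exact mem_R76.1 hqR B hBF (h3.1 ▸ h5)
      · exact mem_R76.1 h1.lR B hBF h5

end LPt

/-- the exception: `x` asks `u` -/
structure Exc6 (G : CG V) (Fa : Finset (Finset V)) (K B : Finset V) (u v c d x y : V) :
    Prop where
  BF : B ∈ Fa
  BK : B ≠ K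
  cB : c ∈ B
  xR : x ∈ R Fa
  dR : d ∈ R Fa
  yR : y ∈ R Fa
  lx : G.Low x
  hd : G.Hub d
  hy : G.Hub y
  Id : G.I Fa d = ∅
  ky : (G.I Fa y).card ≤ 1
  yB : y ∉ G.N B
  Ix : G.I Fa x = {B}
  Iu : G.I Fa u = {K, B}
  Iv : G.I Fa v = {K, B}
  dx : d ∈ G.nb x
  yx : y ∈ G.nb x
  ch : -2 ≤ G.ch5 Fa x

namespace LPt

theorem I_two6 (h : G.LPt Fa K q q' u v c d x y) (hG : G.Gen6 Fa) {B : Finset V} (hBF : B ∈ Fa)
    (cB : c ∈ B) (dR : d ∈ R Fa) (xR : x ∈ R Fa) (hBu : B ∈ G.I Fa u) :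
    G.I Fa u = {K, B} := by
  have hr := hG.g5.reg
  ext D
  rw [mem_insert, mem_singleton]
  constructor
  · intro hD
    have hDF := (mem_I76.1 hD).1
    rcases h.mem_cases hG hD with e3 | e3 | e3 | e3
    · exact Or.inl e3
    · right
      by_contra hne
      exact disjoint_left.1 (hr.dis D hDF B hBF hne).1 e3 cB
    · exact absurd e3 (mem_R76.1 dR D hDF)
    · exact absurd e3 (mem_R76.1 xR D hDF)
  · rintro (rfl | rfl)
    · exact h.KI
    · exact hBu

theorem gam_fin (h : G.LPt Fa K q q' u v c d x y) (hG : G.Gen6 Fa) {a1 a2 b1 b2 : V}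
    {B : Finset V} (h1 : G.Gam Fa B x u a1 a2) (cB : c ∈ B) (hBK : B ≠ K) (r1 : b1 ∈ R Fa)
    (r2 : b2 ∈ R Fa) (o1 : b1 ∉ G.N B ∧ b1 ∈ G.nb x) (o2 : b2 ∉ G.N B ∧ b2 ∈ G.nb x)
    (p1 : G.PH Fa x b1) (p2 : G.PH Fa x b2) (n1 : b1 ∈ G.nb u → (G.I Fa b1).card ≠ 1)
    (e1 : b1 = d) (e2 : b2 = y) : G.Exc6 Fa K B u v c d x y := by
  subst e1
  subst e2
  have hBz : B ∈ G.I Fa x := h1.I1 ▸ mem_singleton_self _
  have hBF := (mem_I76.1 hBz).1
  have hBu : B ∈ G.I Fa u := mem_I76.2 ⟨hBF, (mem_inter.1 h1.dT).2⟩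
  have hBv : B ∈ G.I Fa v := I_of_nb76 (h.vR hG) hBF (h.memv.2 (by tauto)) cB
  have e3 := n1 (h.memu.2 (by tauto))
  have e4 := p1.2.1
  exact { BF := hBF, BK := hBK, cB := cB, xR := h1.lR, dR := r1, yR := r2, lx := h1.low,
          hd := p1.1, hy := p2.1, Id := card_eq_zero.1 (by omega), ky := p2.2.1, yB := o2.1,
          Ix := h1.I1, Iu := h.I_two6 hG hBF cB r1 h1.lR hBu,
          Iv := h.symm.I_two6 hG hBF cB r1 r2 hBv, dx := o1.2, yx := o2.2, ch := h1.ge28 hG }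

/-- type GAMMA: the partner or the exception -/
theorem gam_v (h : G.LPt Fa K q q' u v c d x y) (hG : G.Gen6 Fa) {z a1 a2 : V} {B : Finset V}
    (h1 : G.Gam Fa B z u a1 a2)
    (hk : (G.I Fa u).card ≤ 1 ∨ ((a1 ∈ G.nb u → (G.I Fa a1).card ≠ 1) ∧
      (a2 ∈ G.nb u → (G.I Fa a2).card ≠ 1))) :
    z = v ∨ (z = x ∧ (G.Exc6 Fa K B u v c d x y ∨ G.Exc6 Fa K B u v d c x y)) := by
  classical
  have hr := hG.g5.reg
  have hBz : B ∈ G.I Fa z := h1.I1 ▸ mem_singleton_self _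
  have hBF := (mem_I76.1 hBz).1
  have hu := mem_inter.1 h1.dT
  have huz : u ≠ z := (ne_of_nb5 hu.1).symm
  have hone : ∀ w ∈ G.nb z, w ∈ R Fa → G.Low w → w = u := by
    intro w e1 e2 e3
    have e5 : w ∈ G.NF Fa z := by
      classical
      rw [NF, mem_filter, nR, mem_inter]
      exact ⟨⟨e1, e2⟩, Or.inl e3⟩
    rw [h1.nf, mem_singleton] at e5
    exact e5
  by_cases hBK : B = K
  · subst hBK
    exact Or.inl (h.port_v hG huz (mem_I76.1 hBz).2 fun w' e1 e2 _ e4 => hone w' e1 e2 e4)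
  rcases h.only_x hG (G.sym _ _ hu.1) h1.lR hone with h2 | h2
  · exact Or.inl h2
  right
  refine ⟨h2, ?_⟩
  subst h2
  obtain ⟨-, r1, r2, -, o1, o2⟩ := gam_mem hG h1
  have hBu : B ∈ G.I Fa u := mem_I76.2 ⟨hBF, hu.2⟩
  have hk2 : ¬ (G.I Fa u).card ≤ 1 := by
    intro e1
    have e2 := h.KI
    rw [card_le_one] at e1
    exact hBK (e1 B hBu K e2)
  obtain ⟨n1, n2⟩ := hk.resolve_left hk2
  have loc : ∀ a, G.Hub a → a ∈ R Fa → (a ∈ G.nb u ∨ ∃ b ∈ R Fa, G.LL u b z a) →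
      a = c ∨ a = d ∨ a = y := by
    intro a ha haR e
    rcases e with e | ⟨b, hb, e⟩
    · rcases h.vis e (h.nK haR) with e1 | e1 | e1 | e1
      · exact absurd h.lv (e1 ▸ ha.1)
      · exact Or.inl e1
      · exact Or.inr (Or.inl e1)
      · exact absurd h1.low (e1 ▸ ha.1)
    · exact Or.inr (Or.inr (h.LL_b hG hb e))
  have l1 := loc a1 h1.hx.1 r1 h1.covx
  have l2 := loc a2 h1.hy.1 r2 h1.covy
  have hBR : ∀ a ∈ R Fa, a ∉ B := fun a ha => mem_R76.1 ha B hBF
  have nO : ∀ a ∈ G.pO B z, a ∉ G.N B ∧ a ∈ G.nb z := by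
    intro a ha
    have e1 := mem_inter.1 ha
    rw [Co, mem_compl, mem_union] at e1
    tauto
  have hne := h1.ne
  rcases h.mem_cases hG hBu with h5 | h5 | h5 | h5
  · exact absurd h5 hBK
  · left
    have m1 : a1 ≠ c := fun e => hBR a1 r1 (e ▸ h5)
    have m2 : a2 ≠ c := fun e => hBR a2 r2 (e ▸ h5)
    rcases l1.resolve_left m1 with l1 | l1 <;> rcases l2.resolve_left m2 with l2 | l2
    · exact absurd (l1.trans l2.symm) hne
    · exact h.gam_fin hG h1 h5 hBK r1 r2 (nO _ o1) (nO _ o2) h1.hx h1.hy n1 l1 l2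
    · exact h.gam_fin hG h1 h5 hBK r2 r1 (nO _ o2) (nO _ o1) h1.hy h1.hx n2 l2 l1
    · exact absurd (l1.trans l2.symm) hne
  · right
    have m1 : a1 ≠ d := fun e => hBR a1 r1 (e ▸ h5)
    have m2 : a2 ≠ d := fun e => hBR a2 r2 (e ▸ h5)
    rcases l1 with l1 | l1 | l1
    · rcases l2 with l2 | l2 | l2
      · exact absurd (l1.trans l2.symm) hne
      · exact absurd l2 m2
      · exact h.swap.gam_fin hG h1 h5 hBK r1 r2 (nO _ o1) (nO _ o2) h1.hx h1.hy n1 l1 l2
    · exact absurd l1 m1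
    · rcases l2 with l2 | l2 | l2
      · exact h.swap.gam_fin hG h1 h5 hBK r2 r1 (nO _ o2) (nO _ o1) h1.hy h1.hx n2 l2 l1
      · exact absurd l2 m2
      · exact absurd (l1.trans l2.symm) hne
  · exact absurd h5 (hBR z h1.lR)

/-- who asks the port low `u`: its partner, or `x` in the exception -/
theorem asks6 (h : G.LPt Fa K q q' u v c d x y) (hG : G.Gen6 Fa) {z : V} (h1 : G.DL Fa z u) :
    z = v ∨ (z = x ∧ ∃ B, G.Exc6 Fa K B u v c d x y ∨ G.Exc6 Fa K B u v d c x y) := by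
  rcases h1 with ⟨h1, h2, h3⟩ | ⟨h1, h2, h3, h4⟩ | ⟨h1, h2, h3⟩ | ⟨h1, h2, h3⟩ | ⟨h1, h2, h3⟩ |
    ⟨h1, h2, h3⟩ | ⟨h1, h2, h3, h4⟩ | ⟨h1, h2, h3, h4⟩
  · rcases h.gam_v hG h1 h3 with h5 | h5
    · exact Or.inl h5
    · exact Or.inr ⟨h5.1, _, h5.2⟩
  · exact absurd h1.hl fun h5 => h.no_HL hG (N_sub_R76 hG.g5.reg
      (mem_I76.1 (h1.I1 ▸ mem_singleton_self _)).1 (mem_inter.1 h1.aT).2) h5
  · exact Or.inl (h.eps_v hG h1)
  · exact absurd h1.hl fun h5 => h.no_HL hG (N_sub_R76 hG.g5.reg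
      (mem_I76.1 (h1.I1 ▸ mem_singleton_self _)).1 (mem_inter.1 h1.aT).2) h5
  · exact Or.inl (h.s0_v hG h1)
  · exact (h.no_t3 hG h1 h2).elim
  · exact (h.no_t6 hG h1 h4).elim
  · exact Or.inl (h.k2_v hG h1 h2 h3 h4)

/-- in the exception `u` and `v` are rich -/
theorem rich6 (h : G.LPt Fa K q q' u v c d x y) (hG : G.Gen6 Fa) {B : Finset V}
    (E : G.Exc6 Fa K B u v c d x y) : 3 ≤ G.ch5 Fa u ∧ 3 ≤ G.ch5 Fa v := by
  classical
  have hr := hG.g5.reg
  have h9 := hG.g5.n9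
  have nds := h.nd
  have nds' := h.symm.nd
  have cu : Tw2 G Fa u K B := ⟨h9, hr, hG.g5.big, h.uR hr, h.lu, E.BK.symm, E.Iu⟩
  have cv : Tw2 G Fa v K B := ⟨h9, hr, hG.g5.big, h.vR hG, h.lv, E.BK.symm, E.Iv⟩
  have dK : d ∉ G.N K := fun e => by
    have : K ∈ G.I Fa d := mem_I76.2 ⟨h.mem, e⟩
    rw [E.Id] at this
    exact absurd this (notMem_empty _)
  have xK : x ∉ G.N K := fun e => by
    have : K ∈ G.I Fa x := mem_I76.2 ⟨h.mem, e⟩
    rw [E.Ix, mem_singleton] at this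
    exact E.BK this.symm
  have yK : y ∉ G.N K := fun e => E.hy.1 (KN hG h.mem h.k6 e)
  have md : ∀ w, G.m Fa d w = 0 := fun w => m_empty5 E.Id
  have uB : u ∈ G.N B := (mem_I76.1 cu.mem2).2
  have vB : v ∈ G.N B := (mem_I76.1 cv.mem2).2
  have cB1 : ∀ {u v x y : V}, G.LPt Fa K q q' u v c d x y → x ∈ R Fa → G.s5 B u = 0 := by
    intro u v x y h' hxR
    apply s5_zero
    intro w hw
    have e1 := (S0_card hw).1
    have e2 : G.pX B u ⊆ {c} := by
      intro b hb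
      rw [pX, mem_inter] at hb
      have hbK : b ∉ K := fun e3 =>
        disjoint_left.1 (hr.dis B E.BF K h.mem E.BK).1 hb.2 e3
      rw [mem_singleton]
      rcases h'.vis hb.1 hbK with e3 | e3 | e3 | e3
      · exact absurd (e3 ▸ hb.2) (mem_R76.1 (h'.vR hG) B E.BF)
      · exact e3
      · exact absurd (e3 ▸ hb.2) (mem_R76.1 E.dR B E.BF)
      · exact absurd (e3 ▸ hb.2) (mem_R76.1 hxR B E.BF)
    have e3 := card_le_card e2
    rw [card_singleton] at e3
    omega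
  constructor
  · have e1 := cu.ch
    have e2 := cu.sum_ge (S := {d, x}) (by
      intro w hw
      rw [mem_insert, mem_singleton] at hw
      rcases hw with rfl | rfl
      · exact mem_nR76.2 ⟨h.memu.2 (by tauto), E.dR⟩
      · exact mem_nR76.2 ⟨h.memu.2 (by tauto), E.xR⟩)
    rw [sum_pair nds.2.2.2.2.2.2.2.2.2.2.2.2.2.2, w5_low E.lx] at e2
    have e3 := w5_zero (md u)
    have e4 := cu.m_le1 xK
    have e5 := h.flvK hG
    have e6 := h.flvCo hG
    have e7 : ff G K u = G.flv (G.Co K) u - G.flv K u := rfl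
    have e8 := ff_low h9 (hr.frag B E.BF) h.lu h.lv (mem_inter.2 ⟨h.memu.2 (by tauto), vB⟩)
    have e9 := s5_nonneg (G := G) (G.Co B) u
    have e10 := cB1 h E.xR
    omega
  · have e1 := cv.ch
    have e2 := cv.sum_ge (S := {d, y}) (by
      intro w hw
      rw [mem_insert, mem_singleton] at hw
      rcases hw with rfl | rfl
      · exact mem_nR76.2 ⟨h.memv.2 (by tauto), E.dR⟩
      · exact mem_nR76.2 ⟨h.memv.2 (by tauto), E.yR⟩)
    rw [sum_pair nds'.2.2.2.2.2.2.2.2.2.2.2.2.2.2] at e2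
    have e3 := w5_zero (md v)
    have e4 := w5_zero (cv.m_zero yK E.yB)
    have e5 := h.symm.flvK hG
    have e6 := h.symm.flvCo hG
    have e7 : ff G K v = G.flv (G.Co K) v - G.flv K v := rfl
    have e8 := ff_low h9 (hr.frag B E.BF) h.lv h.lu (mem_inter.2 ⟨h.memv.2 (by tauto), uB⟩)
    have e9 := s5_nonneg (G := G) (G.Co B) v
    have e10 := cB1 h.symm E.yR
    omega

theorem dn_u6 (h : G.LPt Fa K q q' u v c d x y) (hG : G.Gen6 Fa) (z : V) : open Classical in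
    G.dn5 Fa u z = if G.DL Fa z u then -2 * G.ch5 Fa z else 0 := by
  classical
  rw [dn5_low76 hG.g5.n9 h.lu, if_neg (h.no_AL6 hG), add_zero]

/-- without the exception nobody but `v` asks `u` -/
theorem dn_zero6 (h : G.LPt Fa K q q' u v c d x y) (hG : G.Gen6 Fa)
    (hE : ¬ ∃ B, G.Exc6 Fa K B u v c d x y ∨ G.Exc6 Fa K B u v d c x y) {z : V} (hz : z ≠ v) :
    G.dn5 Fa u z = 0 := by
  classical
  rw [h.dn_u6 hG, if_neg]
  intro h1
  rcases h.asks6 hG h1 with h2 | h2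
  · exact hz h2
  · exact hE h2.2

/-- no exception if `u` is in one neighbourhood only -/
theorem no_exc6 (_h : G.LPt Fa K q q' u v c d x y) (hI : G.I Fa u = {K}) :
    ¬ ∃ B, G.Exc6 Fa K B u v c d x y ∨ G.Exc6 Fa K B u v d c x y := by
  rintro ⟨B, E | E⟩
  · have h1 : B ∈ G.I Fa u := by rw [E.Iu]; exact mem_insert_of_mem (mem_singleton_self _)
    rw [hI, mem_singleton] at h1
    exact E.BK h1
  · have h1 : B ∈ G.I Fa u := by rw [E.Iu]; exact mem_insert_of_mem (mem_singleton_self _)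
    rw [hI, mem_singleton] at h1
    exact E.BK h1

theorem fc_le6 (h : G.LPt Fa K q q' u v c d x y) (hG : G.Gen6 Fa)
    (hE : ¬ ∃ B, G.Exc6 Fa K B u v c d x y ∨ G.Exc6 Fa K B u v d c x y) :
    2 * G.ch5 Fa u + G.dn5 Fa v u - G.dn5 Fa u v ≤ G.fc Fa u := by
  classical
  have h1 : G.dn5 Fa v u ≤ ∑ x ∈ R Fa, G.dn5 Fa x u :=
    single_le_sum (f := fun x => G.dn5 Fa x u) (fun x _ => dn5_nonneg76 hG x u) (h.vR hG)
  have h2 : ∑ z ∈ R Fa, G.dn5 Fa u z = G.dn5 Fa u v :=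
    sum_eq_single_of_mem v (h.vR hG) fun z _ hz => h.dn_zero6 hG hE hz
  rw [fc, h2]
  omega

/-- in the exception -/
theorem fc_exc6 (h : G.LPt Fa K q q' u v c d x y) (hG : G.Gen6 Fa) {B : Finset V}
    (E : G.Exc6 Fa K B u v c d x y) : 8 ≤ G.fc Fa u + G.fc Fa v := by
  classical
  obtain ⟨r1, r2⟩ := h.rich6 hG E
  have a1 : 0 ≤ ∑ z ∈ R Fa, G.dn5 Fa z u := sum_nonneg fun z _ => dn5_nonneg76 hG z u
  have a2 : 0 ≤ ∑ z ∈ R Fa, G.dn5 Fa z v := sum_nonneg fun z _ => dn5_nonneg76 hG z v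
  have a3 : ∑ z ∈ R Fa, G.dn5 Fa u z ≤ 4 := by
    have h2 : ∑ z ∈ R Fa, G.dn5 Fa u z = G.dn5 Fa u x := by
      refine sum_eq_single_of_mem x E.xR fun z _ hz => ?_
      rw [h.dn_u6 hG, if_neg]
      intro h3
      have h4 := h3.neg hG
      rcases h.asks6 hG h3 with h5 | h5
      · rw [h5] at h4
        omega
      · exact hz h5.1
    rw [h2, h.dn_u6 hG]
    have h3 := E.ch
    split_ifs <;> omega
  have a4 : ∑ z ∈ R Fa, G.dn5 Fa v z = 0 := by
    apply sum_eq_zero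
    intro z _
    rw [h.symm.dn_u6 hG, if_neg]
    intro h3
    have h4 := h3.neg hG
    rcases h.symm.asks6 hG h3 with h5 | ⟨h5, B', h6 | h6⟩
    · rw [h5] at h4
      omega
    · exact E.hy.1 h6.lx
    · exact E.hy.1 h6.lx
  rw [fc, fc]
  omega

/-- the final charges of a port pair -/
theorem fc_pair6 (h : G.LPt Fa K q q' u v c d x y) (hG : G.Gen6 Fa) :
    2 * (G.ch5 Fa u + G.ch5 Fa v) ≤ G.fc Fa u + G.fc Fa v ∨ 8 ≤ G.fc Fa u + G.fc Fa v := by
  by_cases h1 : ∃ B, G.Exc6 Fa K B u v c d x y ∨ G.Exc6 Fa K B u v d c x y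
  · right
    obtain ⟨B, E | E⟩ := h1
    · exact h.fc_exc6 hG E
    · exact h.swap.fc_exc6 hG E
  by_cases h2 : ∃ B, G.Exc6 Fa K B v u c d y x ∨ G.Exc6 Fa K B v u d c y x
  · right
    rw [add_comm]
    obtain ⟨B, E | E⟩ := h2
    · exact h.symm.fc_exc6 hG E
    · exact h.symm.swap.fc_exc6 hG E
  left
  have h3 := h.fc_le6 hG h1
  have h4 := h.symm.fc_le6 hG h2
  omega

end LPt

end CG

end Pool.Agent.Lib.MP_e95c01_co.N
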