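import Pool.Agent.Lib.MP_e95c01_co.X.Ident50
import Pool.Agent.Lib.MP_e95c01_co.X.V2_16
import Pool.Agent.Lib.MP_e95c01_co.T.Aux76

/-!
# The functional `P5` of a `K6`
-/

set_option autoImplicit false

namespace Pool.Agent.Lib.MP_e95c01_co.N

open Finset

variable {V : Type} [Fintype V] [DecidableEq V]

namespace CG

/-- a vertex of a `K6` whose two ports form an `LL` pair -/
def PLq (G : CG V) (q : V) : Prop := ∃ S, G.IsK6 S ∧ q ∈ S ∧ ∃ u v x y, u ∈ G.nb q ∧ v ∈ G.nb q ∧
  u ∉ S ∧ v ∉ S ∧ G.LL u v x y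

open Classical in
/-- twice the number of pairs of `K6`'s inside `F` with an `LL` pair of ports -/
noncomputable def qLL (G : CG V) (F : Finset V) : ℕ := (F.filter fun q => G.PLq q).card

namespace K38

variable {G : CG V}

/-- the two ports of a vertex of a `K6` -/
theorem ports (hC : G.Crit) (h9 : 9 ≤ Fintype.card V) {S : Finset V} (hS : G.IsK6 S) {q : V}
    (hq : q ∈ S) : ∃ u v, u ≠ v ∧ u ∉ S ∧ v ∉ S ∧ G.Low u ∧ G.Low v ∧ v ∈ G.nb u ∧
      u ∈ G.nb q ∧ v ∈ G.nb q ∧ ∀ w, w ∈ G.nb q → w ∉ S → w = u ∨ w = v := by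
  classical
  have h7 := isTw_card16 (hS.2.1 q hq)
  obtain ⟨u, hu, huS⟩ : ∃ u ∈ G.nb q, u ∉ S := by
    by_contra hno
    push Not at hno
    have h1 : G.nb q ⊆ S.erase q := by
      intro w hw
      rw [mem_erase]
      exact ⟨fun h => G.irr q (by rw [h] at hw; exact hw), hno w hw⟩
    have h2 := card_le_card h1
    rw [card_erase_of_mem hq, hS.1] at h2
    omega
  obtain ⟨h1, v, hv, hvS, hvu, hvl, hvu', hnb⟩ := stPort_16 G hC h9 S hS q hq u hu huS
  refine ⟨u, v, hvu.symm, huS, hvS, h1, hvl, hvu', hu, hv, ?_⟩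
  intro w hw hwS
  rw [hnb, mem_insert, mem_insert, mem_erase] at hw
  rcases hw with h | h | h
  · exact Or.inl h
  · exact Or.inr h
  · exact absurd h.2 hwS

/-- every port has exactly two neighbours in the `K6` -/
theorem two (hC : G.Crit) (h9 : 9 ≤ Fintype.card V) {S : Finset V} (hS : G.IsK6 S)
    (hN : (G.N S).card = 6) : ∀ w ∈ G.N S, (G.nb w ∩ S).card = 2 := by
  classical
  have h1 := sum_card_bipartiteAbove_eq_sum_card_bipartiteBelow (s := S) (t := G.N S)
    (fun q w => w ∈ G.nb q)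
  have h2 : ∀ q ∈ S, ((G.N S).bipartiteAbove (fun q w => w ∈ G.nb q) q).card = 2 := by
    intro q hq
    obtain ⟨u, v, huv, huS, hvS, -, -, -, hu, hv, hall⟩ := ports hC h9 hS hq
    have h3 : (G.N S).bipartiteAbove (fun q w => w ∈ G.nb q) q = {u, v} := by
      ext w
      rw [mem_bipartiteAbove, mem_insert, mem_singleton, mem_N76]
      constructor
      · rintro ⟨⟨h4, -⟩, h5⟩
        exact hall w h5 h4
      · rintro (rfl | rfl)
        · exact ⟨⟨huS, q, hq, hu⟩, hu⟩
        · exact ⟨⟨hvS, q, hq, hv⟩, hv⟩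
    rw [h3, card_pair huv]
  have h4 : ∀ w ∈ G.N S, (S.bipartiteBelow (fun q w => w ∈ G.nb q) w).card =
      (G.nb w ∩ S).card := by
    intro w _
    congr 1
    ext q
    rw [mem_bipartiteBelow, mem_inter]
    exact ⟨fun h => ⟨G.sym _ _ h.2, h.1⟩, fun h => ⟨h.2, G.sym _ _ h.1⟩⟩
  rw [sum_congr rfl h2, sum_congr rfl h4, sum_const, hS.1] at h1
  have h5 : ∀ w ∈ G.N S, 2 ≤ (G.nb w ∩ S).card := fun w hw => (k6_low16 hC h9 hS hw).2.1
  have h6 : ∑ w ∈ G.N S, 2 = ∑ w ∈ G.N S, (G.nb w ∩ S).card := by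
    rw [← h1, sum_const, hN]
  intro w hw
  exact ((sum_eq_sum_iff_of_le h5).1 h6 w hw).symm

/-- exchange of the sums -/
theorem swap (hC : G.Crit) (h9 : 9 ≤ Fintype.card V) {S : Finset V} (hS : G.IsK6 S)
    (hN : (G.N S).card = 6) (f : V → ℤ) :
    2 * ∑ w ∈ G.N S, f w = ∑ q ∈ S, ∑ w ∈ (G.N S).filter (fun w => w ∈ G.nb q), f w := by
  classical
  have h1 : ∑ q ∈ S, ∑ w ∈ (G.N S).filter (fun w => w ∈ G.nb q), f w =
      ∑ w ∈ G.N S, ∑ _q ∈ S.filter (fun q => w ∈ G.nb q), f w := by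
    simp_rw [sum_filter]
    exact sum_comm
  rw [h1, mul_sum]
  apply sum_congr rfl
  intro w hw
  have h2 : S.filter (fun q => w ∈ G.nb q) = G.nb w ∩ S := by
    ext q
    rw [mem_filter, mem_inter]
    exact ⟨fun h => ⟨G.sym _ _ h.2, h.1⟩, fun h => ⟨h.2, G.sym _ _ h.1⟩⟩
  rw [sum_const, h2, two hC h9 hS hN w hw]
  simp

theorem LLs_symm {S : Finset V} {u v : V} (h : G.LLs S u v) : G.LLs S v u := by
  obtain ⟨⟨x, y, h1⟩, h2⟩ := h
  exact ⟨⟨y, x, LL_symm76 h1⟩, h2.symm⟩

/-- the value of a port before the reduction for `LL` pairs -/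
noncomputable def fK (G : CG V) (S : Finset V) (w : V) : ℤ :=
  2 + 2 * ((G.pT S w).card : ℤ) + G.s5 S w

theorem s5_nonneg (S : Finset V) (w : V) : 0 ≤ G.s5 S w := by
  unfold s5
  split_ifs <;> norm_num

/-- the value of a pair of ports -/
theorem pair_val (hC : G.Crit) (h9 : 9 ≤ Fintype.card V) {S : Finset V} (hS : G.IsK6 S)
    (hN : (G.N S).card = 6) {q u v : V} (hq : q ∈ S) (huS : u ∉ S) (hvS : v ∉ S)
    (hul : G.Low u) (hvl : G.Low v) (hvu : v ∈ G.nb u) (hu : u ∈ G.nb q) (hv : v ∈ G.nb q) :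
    10 ≤ fK G S u + fK G S v ∧ (¬ G.PLq q → 12 ≤ fK G S u + fK G S v) := by
  classical
  obtain ⟨q', htq⟩ := hS.2.1 q hq
  have hq'S := k6_twin16 hC h9 hS hq htq
  have hqq : q ≠ q' := fun h => G.irr q (by have := htq.1; rw [← h] at this; exact this)
  have huN : u ∈ G.N S := mem_N76.2 ⟨huS, q, hq, hu⟩
  have hvN : v ∈ G.N S := mem_N76.2 ⟨hvS, q, hq, hv⟩
  have huv' := G.sym _ _ hvu
  have tq' : ∀ w, w ∉ S → w ∈ G.nb q → w ∈ G.nb q' := by
    intro w hwS hw
    have h2 : w ∈ G.cl q' := by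
      rw [← htq.2.2]
      exact mem_insert_of_mem hw
    rcases mem_insert.1 h2 with h3 | h3
    · exact absurd (h3 ▸ hq'S) hwS
    · exact h3
  have hX : ∀ w, w ∉ S → w ∈ G.nb q → w ∈ G.N S → G.pX S w = {q, q'} := by
    intro w hwS hw hwN
    symm
    apply eq_of_subset_of_card_le
    · intro x hx
      rw [mem_insert, mem_singleton] at hx
      rw [pX, mem_inter]
      rcases hx with rfl | rfl
      · exact ⟨G.sym _ _ hw, hq⟩
      · exact ⟨G.sym _ _ (tq' w hwS hw), hq'S⟩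
    · rw [card_pair hqq]
      exact (two hC h9 hS hN w hwN).le
  have hXu := hX u huS hu huN
  have hXv := hX v hvS hv hvN
  have hvT : v ∈ G.pT S u := by
    rw [pT, mem_inter]
    exact ⟨hvu, hvN⟩
  have huT : u ∈ G.pT S v := by
    rw [pT, mem_inter]
    exact ⟨huv', huN⟩
  have htu : 1 ≤ (G.pT S u).card := card_pos.2 ⟨v, hvT⟩
  have htv : 1 ≤ (G.pT S v).card := card_pos.2 ⟨u, huT⟩
  -- the numbers of neighbours
  have hcard : ∀ w, G.Low w → w ∈ G.N S → (G.pX S w).card = 2 →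
      (G.pT S w).card + (G.pO S w).card = 4 := by
    intro w hw hwN hx
    have h1 : G.nb w = (G.pX S w ∪ G.pT S w) ∪ G.pO S w := by
      ext x
      rw [pX, pT, pO, mem_union, mem_union, mem_inter, mem_inter, mem_inter]
      constructor
      · intro h
        by_cases h2 : x ∈ S
        · exact Or.inl (Or.inl ⟨h, h2⟩)
        · by_cases h3 : x ∈ G.N S
          · exact Or.inl (Or.inr ⟨h, h3⟩)
          · exact Or.inr ⟨h, mem_Co76.2 ⟨h2, h3⟩⟩
      · rintro ((h | h) | h)
        · exact h.1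
        · exact h.1
        · exact h.1
    have h2 : Disjoint (G.pX S w) (G.pT S w) := by
      rw [disjoint_left]
      intro x h3 h4
      rw [pX, mem_inter] at h3
      rw [pT, mem_inter] at h4
      exact (mem_N76.1 h4.2).1 h3.2
    have h3 : Disjoint (G.pX S w ∪ G.pT S w) (G.pO S w) := by
      rw [disjoint_left]
      intro x h3 h4
      rw [pO, mem_inter] at h4
      rw [mem_union, pX, pT, mem_inter, mem_inter] at h3
      rcases h3 with h3 | h3
      · exact (mem_Co76.1 h4.2).1 h3.2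
      · exact (mem_Co76.1 h4.2).2 h3.2
    have h4 : (G.nb w).card = 6 := hw
    rw [h1, card_union_of_disjoint h3, card_union_of_disjoint h2] at h4
    omega
  have hcX : ∀ w, G.pX S w = {q, q'} → (G.pX S w).card = 2 := by
    intro w h
    rw [h, card_pair hqq]
  -- the flags
  have hS0 : ∀ w z, G.Low w → G.Low z → w ∈ G.N S → G.pX S w = {q, q'} → q ∈ G.nb z →
      G.pT S w = {z} → G.pX S z = {q, q'} → z ∈ G.N S → G.S0 S w z := by
    intro w z hw hz hwN hXw hqz hT hXz hzN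
    refine ⟨hwN, hw, hz, hT, ⟨q, q', htq, hXw, hqz⟩, ?_⟩
    rintro ⟨h1, h2⟩
    have h3 := hcard z hz hzN (hcX z hXz)
    rw [h1, card_singleton] at h3
    omega
  have hs2 : ∀ w z, G.S0 S w z → ¬ G.LLs S w z → G.s5 S w = 2 := by
    intro w z h1 h2
    unfold s5
    rw [if_pos ⟨z, h1, h2⟩]
  have hs1 : ∀ w z, G.S0 S w z → G.pT S z = {w} → 1 ≤ G.s5 S w := by
    intro w z h1 h2
    unfold s5
    split_ifs with h3 h4
    · norm_num
    · norm_num
    · exact absurd ⟨z, h1, h2⟩ h4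
  have hPL : G.LLs S u v → G.PLq q := by
    rintro ⟨⟨x, y, h1⟩, -⟩
    exact ⟨S, hS, hq, u, v, x, y, hu, hv, huS, hvS, h1⟩
  have hsu := s5_nonneg (G := G) S u
  have hsv := s5_nonneg (G := G) S v
  unfold fK
  by_cases h1 : (G.pT S u).card = 1
  · have hTu : G.pT S u = {v} := by
      obtain ⟨z, hz⟩ := card_eq_one.1 h1
      rw [hz, mem_singleton] at hvT
      rw [hz, hvT]
    have s1 := hS0 u v hul hvl huN hXu (G.sym _ _ hv) hTu hXv hvN
    by_cases h2 : (G.pT S v).card = 1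
    · have hTv : G.pT S v = {u} := by
        obtain ⟨z, hz⟩ := card_eq_one.1 h2
        rw [hz, mem_singleton] at huT
        rw [hz, huT]
      have s2 := hS0 v u hvl hul hvN hXv (G.sym _ _ hu) hTv hXu huN
      by_cases h3 : G.LLs S u v
      · have e1 := hs1 u v s1 hTv
        have e2 := hs1 v u s2 hTu
        refine ⟨by push_cast [h1, h2]; omega, fun h => absurd (hPL h3) h⟩
      · have e1 := hs2 u v s1 h3
        have e2 := hs2 v u s2 (fun h => h3 (LLs_symm h))
        constructor <;> (try intro _) <;> push_cast [h1, h2] <;> omega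
    · have h2' : 2 ≤ (G.pT S v).card := by omega
      by_cases h3 : G.LLs S u v
      · refine ⟨by push_cast [h1]; omega, fun h => absurd (hPL h3) h⟩
      · have e1 := hs2 u v s1 h3
        constructor <;> (try intro _) <;> push_cast [h1] <;> omega
  · have h1' : 2 ≤ (G.pT S u).card := by omega
    by_cases h2 : (G.pT S v).card = 1
    · have hTv : G.pT S v = {u} := by
        obtain ⟨z, hz⟩ := card_eq_one.1 h2
        rw [hz, mem_singleton] at huT
        rw [hz, huT]
      have s2 := hS0 v u hvl hul hvN hXv (G.sym _ _ hu) hTv hXu huN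
      by_cases h3 : G.LLs S v u
      · refine ⟨by push_cast [h2]; omega, fun h => absurd (hPL (LLs_symm h3)) h⟩
      · have e1 := hs2 v u s2 h3
        constructor <;> (try intro _) <;> push_cast [h2] <;> omega
    · have h2' : 2 ≤ (G.pT S v).card := by omega
      constructor <;> (try intro _) <;> omega

end K38

open K38

/-- the functional of a `K6`: every `LL` pair of ports costs 2 -/
theorem k6_P5_38 (G : CG V) (hC : G.Crit) (h9 : 9 ≤ Fintype.card V) {S : Finset V}
    (hS : G.IsK6 S) (hF : G.Frag S) : -(G.qLL S : ℤ) ≤ G.P5 S := by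
  classical
  have hN := hF.2.1
  have hlowN : ∀ w ∈ G.N S, G.Low w := fun w hw => (k6_low16 hC h9 hS hw).1
  have h2 := two hC h9 hS hN
  rw [stP5F_50 G S hF]
  have hl : G.l S = 0 := by
    rw [l, card_eq_zero, filter_eq_empty_iff]
    intro x hx hlow
    exact tw_not_low11 (hS.2.1 x hx) hlow
  have e1 : (G.N S).filter (fun w => G.Low w) = G.N S := filter_true_of_mem hlowN
  have e2 : (G.N S).filter (fun w => G.IsTw w) = ∅ := by
    rw [filter_eq_empty_iff]
    intro w hw h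
    exact tw_not_low11 h (hlowN w hw)
  rw [e1, e2, sum_empty, hl, hS.1]
  have hd : ∀ w ∈ G.N S, G.d w S = 2 := h2
  -- the flags
  have hpT : ∀ w ∈ G.N S, ∀ x ∈ G.pT S w, G.Low x := by
    intro w _ x hx
    rw [pT, mem_inter] at hx
    exact hlowN x hx.2
  obtain ⟨hCo, hCN, hCC⟩ := stCo_37 G S hF
  have hcard : ∀ w ∈ G.N S, (G.pT S w).card + (G.d w (G.Co S)) = 4 := by
    intro w hw
    have h1 := d_split76 (G := G) w S
    have h3 : (G.nb w).card = 6 := hlowN w hw
    have h4 := hd w hw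
    have h5 : (G.pT S w).card = (G.nb w ∩ G.N S).card := rfl
    omega
  have hpTC : ∀ w, G.pT (G.Co S) w = G.pT S w := by
    intro w
    rw [pT, pT, hCN]
  have f1 : ∀ w ∈ G.N S, G.s5 S w ≤ G.flv S w := by
    intro w hw
    have g1 : ¬ G.T3 S w := by
      rintro ⟨-, -, -, Q, Q', r, r', h, h1, -, -, h4, -⟩
      refine tw_not_low11 ⟨Q', h1⟩ (hpT w hw Q ?_)
      rw [h4]
      exact mem_insert_self _ _
    have g2 : ¬ G.HF S w := by
      rintro ⟨-, -, h1, -⟩
      have h3 := hd w hw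
      have h4 : (G.pX S w).card = G.d w S := rfl
      omega
    have g3 : ¬ G.RF S w := by
      rintro ⟨-, p', m, m', h1, -⟩
      exact tw_not_low11 ⟨p', h1⟩ (hlowN w hw)
    unfold flv
    rw [if_neg g1, if_neg g2, if_neg g3]
    split_ifs <;> linarith
  have f2 : ∀ w ∈ G.N S, G.flv (G.Co S) w ≤ 0 := by
    intro w hw
    have g0 : ∀ v, ¬ G.S0 (G.Co S) w v := by
      rintro v ⟨-, -, -, h1, ⟨q, q', h2, h3, -⟩, -⟩
      rw [hpTC] at h1
      have h4 := hcard w hw
      have h5 : G.d w (G.Co S) = 2 := by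
        have h6 : G.d w (G.Co S) = (G.pX (G.Co S) w).card := rfl
        rw [h6, h3, card_pair]
        exact fun h => G.irr q (by have := h2.1; rw [← h] at this; exact this)
      rw [h1, card_singleton] at h4
      omega
    have g1 : G.s5 (G.Co S) w = 0 := by
      unfold s5
      rw [if_neg, if_neg]
      · rintro ⟨v, h, -⟩
        exact g0 v h
      · rintro ⟨v, h, -⟩
        exact g0 v h
    have g2 : ¬ G.U3 (G.Co S) w := by
      rintro ⟨-, -, -, v, v', h1, h2⟩
      rw [hpTC] at h2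
      refine tw_not_low11 ⟨v', h1⟩ (hpT w hw v ?_)
      rw [h2]
      exact mem_insert_self _ _
    unfold flv
    rw [g1, if_neg g2]
    split_ifs <;> norm_num
  -- the sum over the ports
  have f3 : ∑ w ∈ G.N S, fK G S w ≤
      (∑ w ∈ G.N S, (4 * (G.d w S : ℤ) + 2 * (G.d w (G.N S) : ℤ) - 6)) +
        ∑ w ∈ G.N S, (G.flv S w - G.flv (G.Co S) w) := by
    rw [← sum_add_distrib]
    apply sum_le_sum
    intro w hw
    have h1 := f1 w hw
    have h2 := f2 w hw
    have h3 := hd w hw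
    have h4 : (G.pT S w).card = G.d w (G.N S) := rfl
    unfold fK
    rw [h4, h3]
    push_cast
    linarith
  -- pairs of ports
  have f4 : ∀ q ∈ S, (12 - 2 * (if G.PLq q then 1 else 0) : ℤ) ≤
      ∑ w ∈ (G.N S).filter (fun w => w ∈ G.nb q), fK G S w := by
    intro q hq
    obtain ⟨u, v, huv, huS, hvS, hul, hvl, hvu, hu, hv, hall⟩ := ports hC h9 hS hq
    have h1 : (G.N S).filter (fun w => w ∈ G.nb q) = {u, v} := by
      ext w
      rw [mem_filter, mem_insert, mem_singleton, mem_N76]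
      constructor
      · rintro ⟨⟨h4, -⟩, h5⟩
        exact hall w h5 h4
      · rintro (rfl | rfl)
        · exact ⟨⟨huS, q, hq, hu⟩, hu⟩
        · exact ⟨⟨hvS, q, hq, hv⟩, hv⟩
    rw [h1, sum_pair huv]
    obtain ⟨h2, h3⟩ := pair_val hC h9 hS hN hq huS hvS hul hvl hvu hu hv
    by_cases h4 : G.PLq q
    · rw [if_pos h4]
      linarith
    · rw [if_neg h4]
      have := h3 h4
      linarith
  have f5 := swap hC h9 hS hN (fK G S)
  have f6 := sum_le_sum f4
  rw [← f5, sum_sub_distrib, sum_const, hS.1, ← mul_sum, ← Nat.cast_ofNat (R := ℤ)] at f6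
  have f7 : (∑ q ∈ S, (if G.PLq q then 1 else 0 : ℤ)) = (G.qLL S : ℤ) := by
    unfold qLL
    rw [card_filter]
    push_cast
    rfl
  rw [f7] at f6
  simp only [nsmul_eq_mul] at f6
  push_cast at f6 ⊢
  linarith

end CG

end Pool.Agent.Lib.MP_e95c01_co.N
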