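import Pool.Agent.Lib.MP_e95c01_co.Y.Tor38
import Pool.Agent.Lib.MP_e95c01_co.Y.K6P38

/-!
# The fine form: two units for every `LL` pair of ports of a `K6`
-/

set_option autoImplicit false

namespace Pool.Agent.Lib.MP_e95c01_co.N

open Finset

variable {V : Type} [Fintype V] [DecidableEq V]

namespace CG

theorem qLL_mono38 (G : CG V) {A B : Finset V} (h : A ⊆ B) : G.qLL A ≤ G.qLL B := by
  classical
  unfold qLL
  exact card_le_card (filter_subset_filter _ h)

theorem qLL_sum38 (G : CG V) {F : Finset V} {Fa : Finset (Finset V)} (h : ∀ B ∈ Fa, B ⊆ F)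
    (hd : ∀ B ∈ Fa, ∀ B' ∈ Fa, B ≠ B' → Disjoint B B') : ∑ B ∈ Fa, G.qLL B ≤ G.qLL F := by
  classical
  unfold qLL
  rw [← card_biUnion]
  · apply card_le_card
    intro q hq
    rw [mem_biUnion] at hq
    obtain ⟨B, hB, hq⟩ := hq
    rw [mem_filter] at hq ⊢
    exact ⟨h B hB hq.1, hq.2⟩
  · intro B hB B' hB' hne
    rw [Function.onFun, disjoint_left]
    intro q h1 h2
    rw [mem_filter] at h1 h2
    exact (disjoint_left.1 (hd B hB B' hB' hne)) h1.1 h2.1

/-- the main lemma: good fragments -/
theorem fine38 (G : CG V) (hM : G.StM9) (hcr : G.Crit) (hsat : G.Sat) :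
    ∀ F : Finset V, G.GoodK F → -(G.qLL F : ℤ) ≤ G.P5 F := by
  intro F
  induction hn : F.card using Nat.strong_induction_on generalizing F with
  | _ n ih =>
  intro hF
  subst hn
  have hcardV := G.card_V37 hF.1.1
  have hF3 := hF.1.2.1
  have hCF3 := hF.1.2.2
  have hn9 : 9 ≤ Fintype.card V := by omega
  by_cases hK : G.IsK6 F
  · exact G.k6_P5_38 hcr hn9 hK hF.1.1
  · obtain ⟨Fa, hT⟩ := G.tor38 hM hcr hsat hF hK
    have h1 := hT.id
    have h2 := hT.sum
    have h3 : -(∑ B ∈ Fa, (G.qLL B : ℤ)) ≤ ∑ B ∈ Fa, G.P5 B := by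
      rw [← sum_neg_distrib]
      apply sum_le_sum
      intro B hB
      exact ih B.card (card_lt_card (hT.good B hB).2) B rfl (hT.good B hB).1
    have h4 : ∑ B ∈ Fa, (G.qLL B : ℤ) ≤ (G.qLL F : ℤ) := by
      have := G.qLL_sum38 (F := F) (Fa := Fa) (fun B hB => (hT.good B hB).2.1)
        (fun B hB B' hB' hne => (hT.dis B hB B' hB' hne).1)
      exact_mod_cast this
    linarith

/-- saturated graphs: `4 n ≤ 12 n_6 + 2 p`, where `p` is the number of pairs of `K6`'s with an `LL`
pair of ports -/
theorem fine_total38 (G : CG V) (hM : G.StM9) (hS12 : G.StS12) (hcr : G.Crit) (hsat : G.Sat)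
    (h9 : 9 ≤ Fintype.card V) :
    4 * (Fintype.card V : ℤ) ≤ 12 * (G.l univ : ℤ) + (G.qLL univ : ℤ) := by
  classical
  by_cases hex : ∃ S, G.IsK6 S
  · obtain ⟨S, hS⟩ := hex
    have hlowN : ∀ w ∈ G.N S, G.Low w := fun w hw => (k6_low16 hcr h9 hS hw).1
    have hlN : (G.N S).card ≤ G.l univ := by
      apply card_le_card
      intro w hw
      rw [mem_filter]
      exact ⟨mem_univ _, hlowN w hw⟩
    have hq0 : (0 : ℤ) ≤ (G.qLL univ : ℤ) := Int.natCast_nonneg _
    have hcardU : S.card + (G.N S).card + (G.Co S).card = Fintype.card V := by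
      have h1 : (S ∪ G.N S).card = S.card + (G.N S).card := by
        apply card_union_of_disjoint
        rw [disjoint_left]
        intro v hv hvN
        exact (mem_N37.1 hvN).1 hv
      rw [← h1, Co, card_compl]
      have := card_le_univ (S ∪ G.N S)
      omega
    by_cases hCo : (G.Co S).card < 3
    · -- few vertices
      by_cases hne : (G.Co S).Nonempty
      · have h1 : 6 ≤ (G.N S).card := stN6_37 G S (by
          rw [← card_pos, hS.1]; omega) hne
        have h2 : (G.N S).card = 6 := (Gd57.k6_N hcr h9 hS hne).2.1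
        have h3 := hS.1
        have h4 : Fintype.card V ≤ 14 := by omega
        have h5 : (6 : ℤ) ≤ (G.l univ : ℤ) := by exact_mod_cast (by omega : 6 ≤ G.l univ)
        have h6 : (Fintype.card V : ℤ) ≤ 14 := by exact_mod_cast h4
        linarith
      · rw [not_nonempty_iff_eq_empty] at hne
        rw [hne, card_empty] at hcardU
        have h3 := hS.1
        have h4 : Fintype.card V ≤ G.l univ + 6 := by omega
        have h5 : (Fintype.card V : ℤ) ≤ (G.l univ : ℤ) + 6 := by exact_mod_cast h4
        have h6 : (9 : ℤ) ≤ (Fintype.card V : ℤ) := by exact_mod_cast h9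
        linarith
    · have hne : (G.Co S).Nonempty := by
        rw [← card_pos]
        omega
      have hFr := Gd57.k6_N hcr h9 hS hne
      have hSG : G.GoodK S := ⟨⟨hFr, by rw [hS.1]; omega, by omega⟩,
        fun v hv => Gd57.low_not (hlowN v hv)⟩
      obtain ⟨hCf, hCN, hCC⟩ := G.stCo_37 S hFr
      have hCG : G.GoodK (G.Co S) := by
        refine ⟨⟨hCf, by omega, by rw [hCC, hS.1]; omega⟩, ?_⟩
        rw [hCN]
        exact fun v hv => Gd57.low_not (hlowN v hv)
      have h1 := G.fine38 hM hcr hsat S hSG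
      have h2 := G.fine38 hM hcr hsat _ hCG
      have h3 := G.stPs5_50 S hFr
      rw [G.stTot5_50] at h3
      have h4 : (G.qLL S : ℤ) + (G.qLL (G.Co S) : ℤ) ≤ (G.qLL univ : ℤ) := by
        have h5 : G.qLL S + G.qLL (G.Co S) ≤ G.qLL univ := by
          unfold qLL
          rw [← card_union_of_disjoint]
          · apply card_le_card
            intro q hq
            rw [mem_union, mem_filter, mem_filter] at hq
            rw [mem_filter]
            rcases hq with h | h
            · exact ⟨mem_univ _, h.2⟩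
            · exact ⟨mem_univ _, h.2⟩
          · rw [disjoint_left]
            intro q h1 h2
            rw [mem_filter] at h1 h2
            exact (mem_Co37.1 h2.1).1 h1.1
        exact_mod_cast h5
      linarith
  · -- no `K6`
    have h1 := G.stStV_of76 hM hS12 hcr hsat h9
    have h2 : G.kap univ = 0 := by
      rw [kap, card_eq_zero, filter_eq_empty_iff]
      rintro S - ⟨hS, -⟩
      exact hex ⟨S, hS⟩
    rw [h2] at h1
    have hq0 : (0 : ℤ) ≤ (G.qLL univ : ℤ) := Int.natCast_nonneg _
    push_cast at h1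
    linarith

end CG

end Pool.Agent.Lib.MP_e95c01_co.N
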