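import Pool.Agent.Lib.MP_e95c01_co.Y.Val33
import Pool.Agent.Lib.MP_e95c01_co.Y.Fine38

/-!
# The end: `3 n ≤ 10 n_6` from the claim on good fragments
-/

set_option autoImplicit false

namespace Pool.Agent.Lib.MP_e95c01_co.N

open Finset

variable {V : Type} [Fintype V] [DecidableEq V]

namespace CG

variable {G : CG V}

/-- the other side of a `K6` is big -/
theorem end_k6_38 (G : CG V) (hcr : G.Crit) (h9 : 9 ≤ Fintype.card V)
    (hW : ∀ F : Finset V, G.GoodK F → ¬ G.IsK6 F → 4 ≤ G.WS F) {S : Finset V} (hS : G.IsK6 S) :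
    3 * Fintype.card V ≤ 10 * G.l univ := by
  classical
  have hlowN : ∀ w ∈ G.N S, G.Low w := fun w hw => (k6_low16 hcr h9 hS hw).1
  have hlN : (G.N S).card ≤ G.l univ := by
    apply card_le_card
    intro w hw
    rw [mem_filter]
    exact ⟨mem_univ _, hlowN w hw⟩
  have hcardU : S.card + (G.N S).card + (G.Co S).card = Fintype.card V := by
    have h1 : (S ∪ G.N S).card = S.card + (G.N S).card := by
      apply card_union_of_disjoint
      rw [disjoint_left]
      intro v hv hvN
      exact (mem_N37.1 hvN).1 hv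
    rw [← h1, Co, card_compl]
    have := card_le_univ (S ∪ G.N S)
    omega
  have h6 := hS.1
  by_cases hne : (G.Co S).Nonempty
  · have hFr := Gd57.k6_N hcr h9 hS hne
    have hN6 : (G.N S).card = 6 := hFr.2.1
    by_cases h20 : Fintype.card V ≤ 20
    · omega
    · have hSG : G.GoodK S := ⟨⟨hFr, by omega, by omega⟩,
        fun v hv => Gd57.low_not (hlowN v hv)⟩
      obtain ⟨hCf, hCN, hCC⟩ := G.stCo_37 S hFr
      have hCG : G.GoodK (G.Co S) := by
        refine ⟨⟨hCf, by omega, by rw [hCC, hS.1]; omega⟩, ?_⟩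
        rw [hCN]
        exact fun v hv => Gd57.low_not (hlowN v hv)
      have hCK : ¬ G.IsK6 (G.Co S) := by
        intro h
        have := h.1
        omega
      have h1 := hW _ hCG hCK
      have h2 := G.stPs5_50 S hFr
      rw [G.stTot5_50] at h2
      have h3 := k6_P5_33 hcr h9 hS hFr
      have h4 : ∑ w ∈ univ.filter (fun w => G.Low w), G.thS (G.Co S) w ≤
          ∑ w ∈ univ.filter (fun w => G.Low w),
            (4 - (if w ∈ (G.N S).filter (fun w => G.Bad S w) then 4 else 0) : ℤ) := by
        apply sum_le_sum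
        intro w _
        split_ifs with h5
        · rw [mem_filter] at h5
          have h6' : G.thS (G.Co S) w = 0 := by
            unfold thS
            rw [if_pos]
            refine ⟨S, h5.2, ?_⟩
            rw [hCC, inter_self]
            exact hFr.1
          rw [h6']
          norm_num
        · rw [sub_zero]
          exact thS_le4_33 _ _
      rw [sum_sub_distrib, sum_const, ← sum_filter, sum_const] at h4
      have h5 : (univ.filter (fun w => G.Low w)).filter
          (fun w => w ∈ (G.N S).filter (fun w => G.Bad S w)) =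
          (G.N S).filter (fun w => G.Bad S w) := by
        ext w
        rw [mem_filter, mem_filter, mem_filter]
        constructor
        · exact fun h => h.2
        · exact fun h => ⟨⟨mem_univ _, hlowN w h.1⟩, h⟩
      rw [h5] at h4
      have h7 : (univ.filter (fun w => G.Low w)).card = G.l univ := rfl
      rw [h7] at h4
      simp only [nsmul_eq_mul] at h4
      rw [WS] at h1
      have h8 : (0 : ℤ) ≤ (((G.N S).filter fun w => G.Bad S w).card : ℤ) := Int.natCast_nonneg _
      have h10 : 3 * (Fintype.card V : ℤ) ≤ 10 * (G.l univ : ℤ) := by linarith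
      exact_mod_cast h10
  · rw [not_nonempty_iff_eq_empty] at hne
    rw [hne, card_empty] at hcardU
    omega

/-- saturated graphs -/
theorem sat310_38 (G : CG V) (hM : G.StM9) (hS12 : G.StS12) (hcr : G.Crit) (hsat : G.Sat)
    (h9 : 9 ≤ Fintype.card V)
    (hW : ∀ F : Finset V, G.GoodK F → ¬ G.IsK6 F → 4 ≤ G.WS F) :
    3 * Fintype.card V ≤ 10 * G.l univ := by
  classical
  by_cases hex : ∃ S, G.IsK6 S
  · obtain ⟨S, hS⟩ := hex
    exact G.end_k6_38 hcr h9 hW hS
  · have h1 := G.stStV_of76 hM hS12 hcr hsat h9
    have h2 : G.kap univ = 0 := by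
      rw [kap, card_eq_zero, filter_eq_empty_iff]
      rintro S - ⟨hS, -⟩
      exact hex ⟨S, hS⟩
    rw [h2] at h1
    push_cast at h1
    have h3 : (0 : ℤ) ≤ (G.l univ : ℤ) := Int.natCast_nonneg _
    have h10 : 3 * (Fintype.card V : ℤ) ≤ 10 * (G.l univ : ℤ) := by linarith
    exact_mod_cast h10

/-- `3 n ≤ 10 n_6` for all 6-contraction-critical graphs, from the claim on good fragments of
saturated graphs -/
theorem c310_of38 (hM : ∀ G : CG V, G.StM9) (hS : ∀ G : CG V, G.StS12)
    (hW : ∀ G : CG V, G.Crit → G.Sat → ∀ F : Finset V, G.GoodK F → ¬ G.IsK6 F → 4 ≤ G.WS F)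
    (G : CG V) (hcr : G.Crit) : 3 * Fintype.card V ≤ 10 * G.l univ := by
  have key : ∀ (m : ℕ) (G : CG V),
      Fintype.card V * Fintype.card V - ∑ v, (G.nb v).card = m → G.Crit →
      3 * Fintype.card V ≤ 10 * G.l univ := by
    intro m
    induction m using Nat.strong_induction_on with
    | _ m ih =>
    intro G hm hcr
    by_cases h8 : Fintype.card V ≤ 8
    · have := small5_76 hcr h8
      omega
    · have h9 : 9 ≤ Fintype.card V := by omega
      by_cases hsat : G.Sat
      · exact G.sat310_38 (hM G) (hS G) hcr hsat h9 (hW G hcr hsat)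
      · rw [Sat] at hsat
        push Not at hsat
        obtain ⟨a, b, t, hl, ht⟩ := hsat
        obtain ⟨G', h1, h3, h4, -⟩ := G.stSaV_11 hcr h9 a b t hl ht
        have h5 := deg_bound76 G'
        have h6 := ih _ (by omega) G' rfl h1
        omega
  exact key _ G rfl hcr

end CG

end Pool.Agent.Lib.MP_e95c01_co.N
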