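import Pool.Agent.Lib.MP_e95c01_co.Y.Val33

/-!
# Torsos without a `K6` among the members: `WS` does not decrease
-/

set_option autoImplicit false

namespace Pool.Agent.Lib.MP_e95c01_co.N

open Finset

variable {V : Type} [Fintype V] [DecidableEq V]

namespace CG

variable {G : CG V} {Fa : Finset (Finset V)} {F : Finset V}

/-- the gain of a low vertex, compared with the gain for `theta` -/
theorem gamS_ge33 (z : V) (T : G.Tor F Fa) : G.BadC (G.Co F) z ∧ G.gamS Fa F z = 0 ∨
    ¬ G.BadC (G.Co F) z ∧ G.gain6 Fa F z ≤ G.gamS Fa F z := by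
  by_cases hb : G.BadC (G.Co F) z
  · exact Or.inl ⟨hb, gamS_C33 T hb⟩
  · refine Or.inr ⟨hb, ?_⟩
    have h1 : G.thS F z = G.theta F z := by
      unfold thS
      rw [if_neg hb]
    have h2 : ∑ B ∈ G.ordS Fa, G.thS B z ≤ ∑ B ∈ G.ordS Fa, G.theta B z :=
      sum_le_sum fun B _ => thS_le33 B z
    have h3 := sum_parts33 (G := G) (Fa := Fa) (fun B => G.theta B z)
    have h4 : 0 ≤ ∑ K ∈ G.k6S Fa, G.theta K z := sum_nonneg fun K _ => theta_nonneg6 K z
    rw [gamS, gain6, h1]
    linarith

/-- a strip over an ordinary member -/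
theorem strip_ord33 {B : Finset V} (hF : G.GoodK F) (T : G.Tor F {B}) (hB : ¬ G.IsK6 B) :
    G.WS B ≤ G.WS F := by
  classical
  have h1 := WS_inner33 hF T
  have h2 : G.k6S {B} = ∅ := by
    rw [eq_empty_iff_forall_notMem]
    intro K hK
    obtain ⟨h3, h4⟩ := mem_k6S.1 hK
    rw [mem_singleton] at h3
    exact hB (h3 ▸ h4)
  have h3 : G.ordS {B} = {B} := by
    ext K
    rw [mem_ordS, mem_singleton]
    constructor
    · exact fun h => h.1
    · rintro rfl
      exact ⟨rfl, hB⟩
  rw [h2, h3, sum_singleton, sum_empty] at h1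
  have h4 := T.sum
  have h5 : 0 ≤ ∑ z ∈ (R (insert (G.Co F) {B})).filter (fun z => G.Low z),
      G.gamS {B} F z := by
    apply sum_nonneg
    intro z hz
    rw [mem_filter] at hz
    rcases gamS_ge33 z T with h6 | h6
    · rw [h6.2]
    · rcases gain_nonneg6 hF.1.1 T.reg T.notin hz.1 hz.2 with h7 | h7
      · linarith [h6.2]
      · exfalso
        have h8 := h7.2.2.1
        have h9 : (G.I (insert (G.Co F) {B}) z).card ≤ (insert (G.Co F) {B} :
            Finset (Finset V)).card := card_le_card (filter_subset _ _)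
        have h10 := card_insert_le (G.Co F) ({B} : Finset (Finset V))
        rw [card_singleton] at h10
        omega
  linarith

end CG

end Pool.Agent.Lib.MP_e95c01_co.N
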