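import Pool.Agent.Lib.MP_e95c01_co.X.All76
import Pool.Agent.Lib.MP_e95c01_co.Y.End38
import Pool.Agent.Lib.MP_e95c01_co.Y.Strip33

/-!
# `3 n ≤ 10 n_6` from the step of the induction
-/

set_option autoImplicit false

namespace Pool.Agent.Lib.MP_e95c01_co.N

open Finset

variable {V : Type} [Fintype V] [DecidableEq V]

namespace CG

/-- the cases of the step of the induction -/
structure Rows310 (G : CG V) : Prop where
  /-- a `K6` and at most three of its ports -/
  small : ∀ F K, G.GoodK F → G.IsK6 K → G.Tor F {K} → F \ K = G.N K ∩ F → (F \ K).card ≤ 3 →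
    4 ≤ G.WS F
  /-- thick torsos with a `K6` member -/
  thickK : ∀ F Fa, G.GoodK F → ¬ G.IsK6 F → G.Tor F Fa → G.Gen6 (insert (G.Co F) Fa) →
    (G.k6S Fa).Nonempty → (∀ B ∈ G.ordS Fa, 4 ≤ G.WS B) → 4 ≤ G.WS F
  /-- thick torsos with ordinary members only -/
  thickO : ∀ F Fa, G.GoodK F → ¬ G.IsK6 F → G.Tor F Fa → G.Gen6 (insert (G.Co F) Fa) →
    G.k6S Fa = ∅ → Fa.Nonempty → (∀ B ∈ G.ordS Fa, 4 ≤ G.WS B) → 4 ≤ G.WS F
  /-- thick leaves -/
  leaf : ∀ F, G.GoodK F → ¬ G.IsK6 F → G.Tor F ∅ → G.Gen6 (insert (G.Co F) ∅) → 6 ≤ F.card →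
    4 ≤ G.WS F
  /-- light leaves -/
  light : ∀ F, G.GoodK F → ¬ G.IsK6 F → G.Tor F ∅ → F.card ≤ 5 → 4 ≤ G.WS F

/-- the step -/
theorem step310_76 {G : CG V} (h : G.Rows310) : G.StepW33 where
  thick := by
    intro F Fa hF hK T hG hB
    by_cases h1 : (G.k6S Fa).Nonempty
    · exact h.thickK F Fa hF hK T hG h1 hB
    · rw [not_nonempty_iff_eq_empty] at h1
      by_cases h2 : Fa.Nonempty
      · exact h.thickO F Fa hF hK T hG h1 h2 hB
      · rw [not_nonempty_iff_eq_empty] at h2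
        subst h2
        by_cases h3 : F.card ≤ 5
        · exact h.light F hF hK T h3
        · exact h.leaf F hF hK T hG (by omega)
  strip := by
    intro F B hF _ T h1 h2 h3
    by_cases hB : G.IsK6 B
    · exact h.small F B hF hB T h1 h2
    · exact (h3 hB).trans (strip_ord33 hF T hB)
  light := h.light

/-- all 6-contraction-critical graphs, from the rows -/
theorem c310_of76 (h : ∀ G : CG V, G.Crit → G.Sat → G.Rows310) (G : CG V) (hcr : G.Crit) :
    3 * Fintype.card V ≤ 10 * G.l univ :=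
  c310_of38 (fun G => G.stM9_all76) (fun G => G.stS12_33)
    (fun G h1 h2 => WS_four33 G.stM9_all76 h1 h2 (step310_76 (h G h1 h2))) G hcr

end CG

end Pool.Agent.Lib.MP_e95c01_co.N
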