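import Pool.Agent.Lib.MP_e95c01_co.Y.Strip33

/-!
# Thick torsos with ordinary members only
-/

set_option autoImplicit false

namespace Pool.Agent.Lib.MP_e95c01_co.N

open Finset

variable {V : Type} [Fintype V] [DecidableEq V]

namespace CG

variable {G : CG V} {Fa : Finset (Finset V)} {F : Finset V}

/-- without `K6` members the functional is at least the sum over the members -/
theorem mono_ord33 (hF : G.GoodK F) (T : G.Tor F Fa) (hG : G.Gen6 (insert (G.Co F) Fa))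
    (hk : G.k6S Fa = ∅) : ∑ B ∈ G.ordS Fa, G.WS B ≤ G.WS F := by
  have h1 := surplus33 hF T hG (empty_subset _) (by
    intro z _ h2
    obtain ⟨K, hK⟩ := h2
    have h3 : K ∈ G.k6S Fa := mem_k6S.2 (mem_badS.1 hK).1
    rw [hk] at h3
    exact absurd h3 (notMem_empty _))
  rw [sum_empty] at h1
  linarith

/-- ordinary members only, at least one -/
theorem ord_only33 (hF : G.GoodK F) (T : G.Tor F Fa) (hG : G.Gen6 (insert (G.Co F) Fa))
    (hk : G.k6S Fa = ∅) (hne : (G.ordS Fa).Nonempty) (ih : ∀ B ∈ G.ordS Fa, 4 ≤ G.WS B) :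
    4 ≤ G.WS F := by
  obtain ⟨B, hB⟩ := hne
  have h1 := single_le_sum (f := fun B => G.WS B) (fun A hA => by
    have := ih A hA
    show 0 ≤ G.WS A
    omega) hB
  have h2 := mono_ord33 hF T hG hk
  have h3 := ih B hB
  omega

/-- the row `thickO` -/
theorem thickO_33 : ∀ F Fa, G.GoodK F → ¬ G.IsK6 F → G.Tor F Fa → G.Gen6 (insert (G.Co F) Fa) →
    G.k6S Fa = ∅ → Fa.Nonempty → (∀ B ∈ G.ordS Fa, 4 ≤ G.WS B) → 4 ≤ G.WS F := by
  intro F Fa hF _ T hG hk hne ih
  refine ord_only33 hF T hG hk ?_ ih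
  obtain ⟨B, hB⟩ := hne
  refine ⟨B, mem_ordS.2 ⟨hB, fun h => ?_⟩⟩
  have h1 : B ∈ G.k6S Fa := mem_k6S.2 ⟨hB, h⟩
  rw [hk] at h1
  exact absurd h1 (notMem_empty _)

end CG

end Pool.Agent.Lib.MP_e95c01_co.N
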