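import Pool.Agent.Lib.MP_e95c01_co.Y.PortA87

/-!
# `LL` ports of a `K6` that is a member of a thick torso: flags and charges of the ports
-/

namespace Pool.Agent.Lib.MP_e95c01_co.N

open Finset

variable {V : Type} [Fintype V] [DecidableEq V]

namespace CG

variable {G : CG V} {Fa : Finset (Finset V)} {K : Finset V} {q q' u v c d x y : V}

namespace LPt

theorem pXK (h : G.LPt Fa K q q' u v c d x y) (hG : G.Gen6 Fa) : G.pX K u = {q, q'} := by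
  ext z
  rw [pX, mem_inter, mem_insert, mem_singleton]
  constructor
  · rintro ⟨h1, h2⟩
    exact h.nbK hG h1 h2
  · rintro (rfl | rfl)
    · exact ⟨h.memu.2 (by tauto), h.qK⟩
    · exact ⟨h.memu.2 (by tauto), h.qK'⟩

theorem vT (h : G.LPt Fa K q q' u v c d x y) : v ∈ G.pT K u :=
  mem_inter.2 ⟨h.memu.2 (by tauto), h.symm.uN⟩

theorem LLsK (h : G.LPt Fa K q q' u v c d x y) (hG : G.Gen6 Fa) : G.LLs K u v :=
  ⟨⟨x, y, h.ll⟩, by rw [h.pXK hG, h.symm.pXK hG]⟩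

/-- the flags of `u`, seen from `Co K`, are not negative -/
theorem flvCo (h : G.LPt Fa K q q' u v c d x y) (hG : G.Gen6 Fa) :
    0 ≤ G.flv (G.Co K) u := by
  classical
  have hN : G.N (G.Co K) = G.N K := (G.stCo_37 K (hG.g5.reg.frag K h.mem)).2.1
  have hv : v ∈ G.pT (G.Co K) u := by
    rw [pT, hN]
    exact h.vT
  have h1 : ¬ G.T3 (G.Co K) u := by
    rintro ⟨-, -, -, Q, Q', r, r', g, ht, -, -, hT, -⟩
    rw [hT, mem_insert, mem_singleton] at hv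
    rcases hv with h2 | h2
    · exact tw_not_low76 ⟨_, ht⟩ (h2 ▸ h.lv)
    · exact tw_not_low76 ⟨_, tw_symm76 ht⟩ (h2 ▸ h.lv)
  have h2 : ¬ G.HF (G.Co K) u := by
    rintro ⟨-, -, -, a, b, hl, -, -, hT⟩
    rw [hT, mem_singleton] at hv
    have h3 := hl.1
    have h4 := h.lv
    rw [← hv] at h3
    rw [Low] at h4
    omega
  have h3 : ¬ G.RF (G.Co K) u := by
    rintro ⟨-, p', m, m', ht, -⟩
    exact tw_not_low76 ⟨_, ht⟩ h.lu
  rw [flv, if_neg h1, if_neg h2, if_neg h3]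
  have h4 := K38.s5_nonneg (G := G) (G.Co K) u
  split_ifs <;> omega

/-- the flags of `u`, seen from `K` -/
theorem flvK (h : G.LPt Fa K q q' u v c d x y) (hG : G.Gen6 Fa) :
    G.flv K u ≤ 1 ∧ ((∃ z ∈ G.nb u, z ∈ G.N K ∧ z ≠ v) → G.flv K u ≤ 0) := by
  classical
  have h1 : ¬ G.U3 K u := by
    rintro ⟨-, -, h2, -⟩
    rw [h.pXK hG, card_pair h.ne] at h2
    omega
  have h2 : G.s5 K u ≤ 1 := by
    rw [s5]
    rw [if_neg]
    · split_ifs <;> norm_num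
    · rintro ⟨v', h3, h4⟩
      have h5 := h.vT
      rw [h3.2.2.2.1, mem_singleton] at h5
      rw [← h5] at h4
      exact h4 (h.LLsK hG)
  have h3 : (∃ z ∈ G.nb u, z ∈ G.N K ∧ z ≠ v) → G.s5 K u ≤ 0 := by
    rintro ⟨z, hz, hzN, hzv⟩
    have h4 : ∀ v', ¬ G.S0 K u v' := by
      intro v' h5
      have h6 := h.vT
      have h7 : z ∈ G.pT K u := mem_inter.2 ⟨hz, hzN⟩
      rw [h5.2.2.2.1, mem_singleton] at h6 h7
      exact hzv (h7.trans h6.symm)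
    rw [s5, if_neg (by rintro ⟨v', h5, -⟩; exact h4 v' h5),
      if_neg (by rintro ⟨v', h5, -⟩; exact h4 v' h5)]
  have key : G.flv K u ≤ G.s5 K u := by
    rw [flv, if_neg h1]
    split_ifs <;> omega
  exact ⟨key.trans h2, fun h5 => key.trans (h3 h5)⟩

theorem fg5_eq (hI : G.I Fa u = {K}) :
    G.fg5 Fa u = G.flv (G.Co K) u - G.flv K u := by
  rw [fg5, hI, sum_singleton]

/-- the charge of `u` -/
theorem ch5_ge (h : G.LPt Fa K q q' u v c d x y) (hG : G.Gen6 Fa) (hI : G.I Fa u = {K}) :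
    G.fg5 Fa u ≤ G.ch5 Fa u ∧
      ((∃ z ∈ G.NF Fa u, z ∉ G.N K) → G.fg5 Fa u + 2 ≤ G.ch5 Fa u) := by
  classical
  have hr := hG.g5.reg
  have hK := hr.frag K h.mem
  have h1 := (stCh5_28 G).low1 hG.g5.n9 Fa hr u (h.uR hr) h.lu K hI
  have h2 := G.d_split76 u K
  have h3 := h.lu
  rw [Low] at h3
  have h4 : G.d u K = 2 := by
    have h4' := h.pXK hG
    rw [pX] at h4'
    rw [CG.d, h4', card_pair h.ne]
  have h5 : G.pT K u ⊆ G.NF Fa u := by
    intro z hz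
    obtain ⟨hz1, hz2⟩ := mem_inter.1 hz
    obtain ⟨r, -, w', -, -, -, -, h7, -⟩ := partner hG h.mem h.k6 hz2
    rw [NF, mem_filter, nR, mem_inter]
    exact ⟨⟨hz1, N_sub_R76 hr h.mem hz2⟩, Or.inl h7⟩
  have h6 := card_le_card h5
  have h6' : (G.pT K u).card = (G.nb u ∩ G.N K).card := rfl
  refine ⟨by omega, ?_⟩
  rintro ⟨z, hz, hzN⟩
  have h7 : insert z (G.pT K u) ⊆ G.NF Fa u := insert_subset hz h5
  have h8 := card_le_card h7
  have hz' : z ∉ G.pT K u := fun h9 => hzN (mem_inter.1 h9).2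
  rw [card_insert_of_notMem hz'] at h8
  omega

theorem ch5_neg (h : G.LPt Fa K q q' u v c d x y) (hG : G.Gen6 Fa) (hI : G.I Fa u = {K}) :
    -1 ≤ G.ch5 Fa u ∧ ((∃ z ∈ G.NF Fa u, z ∉ G.N K) → 1 ≤ G.ch5 Fa u) ∧
      ((∃ z ∈ G.nb u, z ∈ G.N K ∧ z ≠ v) → 0 ≤ G.ch5 Fa u) ∧
      ((∃ z ∈ G.nb u, z ∈ G.N K ∧ z ≠ v) → (∃ z ∈ G.NF Fa u, z ∉ G.N K) →
        2 ≤ G.ch5 Fa u) := by
  have h1 := h.ch5_ge hG hI
  have h2 := h.flvK hG
  have h3 := h.flvCo hG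
  have h4 := fg5_eq (G := G) hI
  refine ⟨by omega, fun h5 => ?_, fun h5 => ?_, fun h5 h6 => ?_⟩
  · have := h1.2 h5
    omega
  · have := h2.2 h5
    omega
  · have := h2.2 h5
    have := h1.2 h6
    omega

/-- the final charge of `u` -/
theorem fc_pos (h : G.LPt Fa K q q' u v c d x y) (hG : G.Gen6 Fa) (hI : G.I Fa u = {K})
    (h1 : 1 ≤ G.ch5 Fa u) (h2 : 0 ≤ G.ch5 Fa v) (h0 : ∀ z ∈ R Fa, G.Low z → G.I Fa z ≠ ∅) :
    0 < G.fc Fa u := by
  classical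
  have h9 := hG.g5.n9
  have hr := hG.g5.reg
  have h3 : 0 ≤ ∑ x ∈ R Fa, G.dn5 Fa x u := sum_nonneg fun x _ => dn5_nonneg76 hG x u
  have h4 : ∑ z ∈ R Fa, G.dn5 Fa u z = 0 := by
    apply sum_eq_zero
    intro z hz
    rw [dn5_low76 h9 h.lu, if_neg (h.no_AL hG hI), if_neg]
    · rfl
    · intro h5
      rcases h.asks hG h5 with h6 | h6 | ⟨B, h6, h7, h8, -⟩
      · have h7 := h5.neg hG
        rw [h6] at h7
        omega
      · exact h0 z hz h5.lowz h6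
      · rw [hI, mem_singleton] at h7
        exact h8 h7
  rw [fc, h4]
  omega

end LPt

end CG

end Pool.Agent.Lib.MP_e95c01_co.N
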