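import Pool.Agent.Lib.MP_e95c01_co.Y.Prt16
import Pool.Agent.Lib.MP_e95c01_co.Y.PortB87
import Pool.Agent.Lib.MP_e95c01_co.Y.AlQ11

/-!
# Port pairs with both common neighbours in one member which are not contained in the closed
neighbourhood of that member
-/

set_option autoImplicit false

namespace Pool.Agent.Lib.MP_e95c01_co.N

open Finset

variable {V : Type} [Fintype V] [DecidableEq V]

namespace CG

variable {G : CG V} {Fa : Finset (Finset V)} {K M B : Finset V} {u v q q' c c' x y : V}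

namespace Prt

/-- the structure of 87 -/
theorem toL (P : G.Prt Fa K u v q q' c c' x y) : G.LPt Fa K q q' u v c c' x y :=
  ⟨P.hK, P.hS, P.hq, P.hq', P.neU.1.1, P.uK, P.vK, P.nbu, P.nbv, P.ll⟩

/-- two adjacent vertices of the torso give charges to each other only -/
theorem fc_pair33 (hG : G.Gen6 Fa) (c6 : G.StC6) {u v : V} (hu : u ∈ R Fa) (hv : v ∈ R Fa)
    (hlv : G.Low v) (h : ∑ z ∈ R Fa, G.dn5 Fa u z = G.dn5 Fa u v)
    (h0 : 0 ≤ G.ch5 Fa v → G.dn5 Fa u v = 0) :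
    (0 ≤ G.ch5 Fa v → 2 * G.ch5 Fa u ≤ G.fc Fa u + G.fc Fa v) ∧
      (G.ch5 Fa v < 0 → 2 * (G.ch5 Fa u + G.ch5 Fa v) ≤ G.fc Fa u + G.fc Fa v) := by
  have h1 := c6 Fa hG v hv hlv
  have h2 : ∀ z, 0 ≤ ∑ x ∈ R Fa, G.dn5 Fa x z := fun z => sum_nonneg fun x _ => dn5_nonneg76 hG x z
  constructor
  · intro h3
    rw [max_eq_right (by omega)] at h1
    have h4 := h2 u
    have h5 := h2 v
    have h6 := h0 h3
    rw [fc, fc, h]
    omega
  · intro h3
    rw [max_eq_left (by omega)] at h1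
    have h4 := h2 u
    have h5 : G.dn5 Fa u v ≤ ∑ x ∈ R Fa, G.dn5 Fa x v :=
      single_le_sum (f := fun x => G.dn5 Fa x v) (fun x _ => dn5_nonneg76 hG x v) hu
    rw [fc, fc, h]
    omega

/-- only the partner asks a port without other neighbours in the torso -/
theorem ask33 (hG : G.Gen6 Fa) (P : G.Prt Fa K u v q q' c c' x y)
    (hn : ∀ z ∈ R Fa, z ∈ G.nb u → z = v) :
    ∑ z ∈ R Fa, G.dn5 Fa u z = G.dn5 Fa u v ∧ (0 ≤ G.ch5 Fa v → G.dn5 Fa u v = 0) := by
  classical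
  have h9 := hG.g5.n9
  have hAL : ∀ z, ¬ G.AL Fa z u := by
    rintro z ⟨B, p, e, f, g, h1⟩
    have h2 : u ∈ G.pT B z := by
      rw [h1.nT]
      simp
    have h3 := hn z h1.qR (G.sym _ _ (mem_inter.1 h2).1)
    exact tw_not_low76 (tw_of76 h1.t) (by rw [h3]; exact P.lv)
  have hDL : ∀ z, G.DL Fa z u → z ∈ R Fa → z = v := by
    intro z h hz
    rcases P.toL.asks hG h with h1 | h1 | ⟨B, h1, h2, h3, h4⟩
    · exact h1
    · have key : u ∈ G.nb z := by
        rcases h with ⟨h, -, -⟩ | ⟨h, -, -, -⟩ | ⟨h, -, -⟩ | ⟨h, -, -⟩ | ⟨h, -, -⟩ |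
          ⟨h, -, -⟩ | ⟨h, -, -, -⟩ | ⟨h, h', -, -⟩
        · exact absurd (h.I1.symm.trans h1) (singleton_ne_empty _)
        · exact absurd (h.I1.symm.trans h1) (singleton_ne_empty _)
        · exact absurd (h.I1.symm.trans h1) (singleton_ne_empty _)
        · exact absurd (h.I1.symm.trans h1) (singleton_ne_empty _)
        · exact absurd (h.I1.symm.trans h1) (singleton_ne_empty _)
        · rw [h.nb]
          exact mem_insert_self _ _
        · rw [h.nb]
          exact mem_insert_self _ _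
        · rw [h1] at h'
          exact absurd h' (notMem_empty _)
      exact hn z hz (G.sym _ _ key)
    · exact hn z hz (G.sym _ _ h4)
  have hd : ∀ z ∈ R Fa, z ≠ v → G.dn5 Fa u z = 0 := by
    intro z hz hne
    rw [dn5_low76 h9 P.lu, if_neg (fun h => hne (hDL z h hz)), if_neg (hAL z), add_zero]
  refine ⟨sum_eq_single_of_mem v P.vR fun z hz hne => hd z hz hne, fun h0 => ?_⟩
  rw [dn5_low76 h9 P.lu, if_neg, if_neg (hAL v), add_zero]
  intro h
  have := h.neg hG
  omega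

/-- the member families of `u` -/
theorem I_cases33 (P : G.Prt Fa K u v q q' c c' x y) (hr : G.Reg Fa) (hM : M ∈ Fa) (hc : c ∈ M)
    (hc' : c' ∈ M) (hB : B ∈ G.I Fa u) : B = K ∨ B = M ∨ x ∈ B := by
  obtain ⟨h1, h2⟩ := mem_I76.1 hB
  obtain ⟨-, w, hw, hwu⟩ := mem_N76.1 h2
  have eq : ∀ A ∈ Fa, w ∈ A → B = A := by
    intro A hA hwA
    by_contra hne
    exact disjoint_left.1 (hr.dis B h1 A hA hne).1 hw hwA
  rcases P.mem.1 (G.sym _ _ hwu) with h | h | h | h | h | h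
  · exact Or.inl (eq K P.hK (h ▸ P.hq))
  · exact Or.inl (eq K P.hK (h ▸ P.hq'))
  · exact absurd (h ▸ hw) (mem_R76.1 P.vR B h1)
  · exact Or.inr (Or.inl (eq M hM (h ▸ hc)))
  · exact Or.inr (Or.inl (eq M hM (h ▸ hc')))
  · exact Or.inr (Or.inr (h ▸ hw))

/-- a visible private neighbour outside the neighbourhoods is not covered -/
theorem no_cover33 (hG : G.Gen6 Fa) (P : G.Prt Fa K u v q q' c c' x y)
    (hn : ∀ z ∈ R Fa, z ∈ G.nb u → z = v ∨ z = x) (hx : x ∈ R Fa) (hm : G.m Fa u x = 0) :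
    False := by
  have hqa : ∀ a ∈ R Fa, q ∈ G.cl a → a = u ∨ a = v := by
    intro a ha h
    rcases mem_insert.1 h with h1 | h1
    · exact absurd (h1 ▸ P.hq) (mem_R76.1 ha K P.hK)
    · exact P.ports a (G.sym _ _ h1) (mem_R76.1 ha K P.hK)
  have hqu : q ∈ G.nb u := P.mem.2 (Or.inl rfl)
  have hqv : q ∈ G.nb v := P.memv.2 (Or.inl rfl)
  have hqu' : q ≠ u := fun h => P.uK (h ▸ P.hq)
  have hqv' : q ≠ v := P.neU.1.2.1
  have hqx : q ≠ x := P.neU.1.2.2.2.2
  rcases hG.g5.cov u P.uR x hx P.xu hm with ⟨w, hw, -, h1, h2⟩ | ⟨w, hw, w', -, -, h1, h2, -⟩ |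
    ⟨a, ha, b, hb, h1, h2, h3⟩ | ⟨a, ha, b, hb, h1, h2, h3⟩ | ⟨a, ha, b, hb, h1⟩
  · rcases hn w hw (G.sym _ _ h1) with h | h
    · exact P.xv (h ▸ h2)
    · exact G.irr x (h ▸ h2)
  · rcases hn w hw (G.sym _ _ h1) with h | h
    · exact P.xv (h ▸ h2)
    · exact G.irr x (h ▸ h2)
  · -- `HL a b u`
    have h4 : u ∈ G.cl a := by
      rw [h1.2.2.2.2]
      exact mem_insert_self _ _
    have h5 : u ∈ G.nb a := by
      rcases mem_insert.1 h4 with h6 | h6
      · exfalso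
        apply h1.2.2.2.1
        rw [h6]
        exact mem_insert_of_mem (G.sym _ _ h1.2.2.1)
      · exact h6
    rcases hn a ha (G.sym _ _ h5) with h | h
    · have h6 := h1.1
      have h7 := P.lv
      rw [Low, ← h] at h7
      omega
    · exact h3 h.symm
  · -- `HL a b x`
    rcases hn b hb (G.sym _ _ h2) with h | h
    · subst h
      have h4 : q ∈ G.cl a := by
        rw [h1.2.2.2.2]
        exact mem_insert_of_mem (mem_insert_of_mem hqv)
      rcases hqa a ha h4 with h5 | h5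
      · exact h3 h5.symm
      · exact G.irr b (by have := h1.2.2.1; rwa [h5] at this)
    · exact h1.2.2.2.1 (h ▸ mem_insert_self _ _)
  · -- `LL a b u x`
    have h2 : u ∈ G.nb a := LL_t76 h1
    rcases hn a ha (G.sym _ _ h2) with h | h
    · subst h
      have h4 : q ∈ G.cl b := by
        have h5 : q ∈ insert x (G.cl a) := mem_insert_of_mem (mem_insert_of_mem hqv)
        rw [h1.2.2.2.2.2.2] at h5
        rcases mem_insert.1 h5 with h6 | h6
        · exact absurd h6 hqu'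
        · exact h6
      rcases hqa b hb h4 with h5 | h5
      · exact h1.2.2.2.2.1 (h5 ▸ mem_insert_self _ _)
      · exact G.irr a (by have := h1.2.2.1; rwa [h5] at this)
    · exact h1.2.2.2.2.2.1 (h ▸ mem_insert_self _ _)

/-- the charges of a port with the private neighbour in a third member -/
theorem ch_third33 (hG : G.Gen6 Fa) (P : G.Prt Fa K u v q q' c c' x y) (hM : M ∈ Fa)
    (hMK : M ≠ K) (hc : c ∈ M) (hc' : c' ∈ M) (hB : B ∈ Fa) (hBK : B ≠ K) (hBM : B ≠ M)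
    (hx : x ∈ B) : (∀ z ∈ R Fa, z ∈ G.nb u → z = v) ∧ 4 ≤ G.ch5 Fa u ∧
      (y ∉ B → 5 ≤ G.ch5 Fa u ∧ (y ∉ M → 6 ≤ G.ch5 Fa u)) := by
  classical
  have hr := hG.g5.reg
  have hnR : ∀ z ∈ R Fa, z ∈ G.nb u → z = v := by
    intro z hz hzu
    rcases P.mem.1 hzu with h | h | h | h | h | h
    · exact absurd (h ▸ P.hq) (mem_R76.1 hz K P.hK)
    · exact absurd (h ▸ P.hq') (mem_R76.1 hz K P.hK)
    · exact h
    · exact absurd (h ▸ hc) (mem_R76.1 hz M hM)
    · exact absurd (h ▸ hc') (mem_R76.1 hz M hM)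
    · exact absurd (h ▸ hx) (mem_R76.1 hz B hB)
  have hnR' : G.nR Fa u = {v} := by
    ext z
    rw [nR, mem_inter, mem_singleton]
    constructor
    · exact fun h => hnR z h.2 h.1
    · rintro rfl
      exact ⟨P.vu, P.vR⟩
  have hMI : M ∈ G.I Fa u := in_I16 hM hc (mem_R76.1 P.uR M hM) P.cu
  have hBI : B ∈ G.I Fa u := in_I16 hB hx (mem_R76.1 P.uR B hB) P.xu
  have hI : G.I Fa u = {K, M, B} := by
    ext A
    rw [mem_insert, mem_insert, mem_singleton]
    constructor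
    · intro hA
      rcases P.I_cases33 hr hM hc hc' hA with h | h | h
      · exact Or.inl h
      · exact Or.inr (Or.inl h)
      · right; right
        by_contra hne
        exact disjoint_left.1 (hr.dis A (mem_I76.1 hA).1 B hB hne).1 h hx
    · rintro (rfl | rfl | rfl)
      · exact P.KI
      · exact hMI
      · exact hBI
  have hK1 : K ∉ ({M, B} : Finset (Finset V)) := by
    rw [mem_insert, mem_singleton]
    rintro (h | h)
    · exact hMK h.symm
    · exact hBK h.symm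
  have hIc : (G.I Fa u).card = 3 := by
    rw [hI, card_insert_of_notMem hK1, card_pair hBM.symm]
  have hch := (stCh5_28 G).low2 hG.g5.n9 Fa hr u P.uR P.lu
  have hfg : G.fg5 Fa u = (G.flv (G.Co K) u - G.flv K u) + ((G.flv (G.Co M) u - G.flv M u) +
      (G.flv (G.Co B) u - G.flv B u)) := by
    rw [fg5, hI, sum_insert hK1, sum_pair hBM.symm]
  rw [hIc, hnR', sum_singleton, hfg, w5_free16 hG.g5.n9 P.lu (Or.inl P.lv)] at hch
  push_cast at hch
  have hvM : v ∈ G.N M := mem_N76.2 ⟨mem_R76.1 P.vR M hM, c, hc, G.sym _ _ P.cv⟩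
  have f1 := (P.fl_K hr).1
  have f2 := P.fl_M hr hM hMK hvM
  have hcB : c ∉ B := fun h => disjoint_left.1 (hr.dis B hB M hM hBM).1 h hc
  have hm1 := m_le16 (G := G) Fa v u
  rw [hIc] at hm1
  have hmv : (G.m Fa v u : ℤ) ≤ 3 := by exact_mod_cast hm1.2
  by_cases hyB : y ∈ B
  · -- `v` is in `N B`
    have hvB : v ∈ G.N B := mem_N76.2 ⟨mem_R76.1 P.vR B hB, y, hyB, G.sym _ _ P.swap.xu⟩
    have f3 := (P.fl_M hr hB hBK hvB).2.1 (fun h => hcB h.1)
    have hyM : y ∉ M := fun h => disjoint_left.1 (hr.dis B hB M hM hBM).1 hyB h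
    have f4 := f2.2.2.1 hyM
    exact ⟨hnR, by omega, fun h => absurd hyB h⟩
  · have hvB : v ∉ G.N B := by
      intro h
      obtain ⟨-, w, hw, hwv⟩ := mem_N76.1 h
      rcases P.memv.1 (G.sym _ _ hwv) with h | h | h | h | h | h
      · exact P.dis hr hB hBK hw (h ▸ P.hq)
      · exact P.dis hr hB hBK hw (h ▸ P.hq')
      · exact mem_R76.1 P.uR B hB (h ▸ hw)
      · exact hcB (h ▸ hw)
      · exact disjoint_left.1 (hr.dis B hB M hM hBM).1 hw (h ▸ hc')
      · exact hyB (h ▸ hw)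
    have hm2 : G.m Fa v u ≤ 2 := by
      rw [m]
      have h1 : G.I Fa v ∩ G.I Fa u ⊆ {K, M} := by
        intro A hA
        obtain ⟨h2, h3⟩ := mem_inter.1 hA
        rw [hI, mem_insert, mem_insert, mem_singleton] at h3
        rw [mem_insert, mem_singleton]
        rcases h3 with h3 | h3 | h3
        · exact Or.inl h3
        · exact Or.inr h3
        · exact absurd (mem_I76.1 (h3 ▸ h2)).2 hvB
      exact (card_le_card h1).trans card_le_two
    have hm2' : (G.m Fa v u : ℤ) ≤ 2 := by exact_mod_cast hm2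
    have hHF : ¬ G.HF (G.Co B) u := by
      rintro ⟨-, -, -, a, b, -, -, -, h5⟩
      have h6 : a ∈ G.pT (G.Co B) u := by
        rw [h5]
        exact mem_singleton_self _
      rw [((stTy5_87 G).co B (hr.frag B hB) u).2.1] at h6
      obtain ⟨h7, h8⟩ := mem_inter.1 h6
      have h9 := hnR a (N_sub_R76 hr hB h8) h7
      exact hvB (h9 ▸ h8)
    have f3 := (P.fl_x hr hB hBK (mem_I76.1 hBI).2 hvB).2.2.2.2 hHF
    refine ⟨hnR, by omega, fun _ => ⟨by omega, fun hyM => ?_⟩⟩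
    have f4 := f2.2.2.1 hyM
    omega

/-- the charges of the partner -/
theorem ch_partner33 (hG : G.Gen6 Fa) (P : G.Prt Fa K u v q q' c c' x y) (hM : M ∈ Fa)
    (hMK : M ≠ K) (hc : c ∈ M) (hc' : c' ∈ M) (hy : ∀ B ∈ Fa, y ∈ B → B = M) (hxM : x ∉ M) :
    -2 ≤ G.ch5 Fa v ∧ (y ∈ M → -1 ≤ G.ch5 Fa v) := by
  classical
  have hr := hG.g5.reg
  have hMI : M ∈ G.I Fa v := in_I16 hM hc (mem_R76.1 P.vR M hM) P.cv
  have hI : G.I Fa v = {K, M} := by
    ext A
    rw [mem_insert, mem_singleton]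
    constructor
    · intro hA
      rcases P.swap.I_cases33 hr hM hc hc' hA with h | h | h
      · exact Or.inl h
      · exact Or.inr h
      · exact Or.inr (hy A (mem_I76.1 hA).1 h)
    · rintro (rfl | rfl)
      · exact P.swap.KI
      · exact hMI
  have hIc : (G.I Fa v).card = 2 := by
    rw [hI, card_pair hMK.symm]
  have hch := (stCh5_28 G).low2 hG.g5.n9 Fa hr v P.vR P.lv
  have hfg : G.fg5 Fa v = (G.flv (G.Co K) v - G.flv K v) + (G.flv (G.Co M) v - G.flv M v) := by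
    rw [fg5, hI, sum_pair hMK.symm]
  have hw : 0 ≤ ∑ z ∈ G.nR Fa v, G.w5 Fa z v :=
    sum_nonneg fun z _ => w5_nonneg16 P.lv (by rw [hIc]) z
  rw [hIc, hfg] at hch
  push_cast at hch
  have huM : u ∈ G.N M := mem_N76.2 ⟨mem_R76.1 P.uR M hM, c, hc, G.sym _ _ P.cu⟩
  have f1 := (P.swap.fl_K hr).1
  have f2 := P.swap.fl_M hr hM hMK huM
  have f3 := f2.2.2.1 hxM
  refine ⟨by omega, fun hyM => ?_⟩
  have f4 := f2.2.2.2.2 hyM
  omega

/-- row 7c, with the private neighbour of `u` outside -/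
theorem pd_aux33 (hG : G.Gen6 Fa) (c6 : G.StC6) (P : G.Prt Fa K u v q q' c c' x y) (hM : M ∈ Fa)
    (hMK : M ≠ K) (hc : c ∈ M) (hc' : c' ∈ M) (hxM : x ∉ M) (hxN : x ∉ G.N M)
    (hxK : x ∉ G.N K) : 8 ≤ G.fc Fa u + G.fc Fa v := by
  classical
  have hr := hG.g5.reg
  by_cases hxR : x ∈ R Fa
  · exfalso
    refine P.no_cover33 hG (fun z hz hzu => ?_) hxR ?_
    · rcases P.mem.1 hzu with h | h | h | h | h | h
      · exact absurd (h ▸ P.hq) (mem_R76.1 hz K P.hK)
      · exact absurd (h ▸ P.hq') (mem_R76.1 hz K P.hK)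
      · exact Or.inl h
      · exact absurd (h ▸ hc) (mem_R76.1 hz M hM)
      · exact absurd (h ▸ hc') (mem_R76.1 hz M hM)
      · exact Or.inr h
    · rw [m, card_eq_zero, eq_empty_iff_forall_notMem]
      intro A hA
      obtain ⟨h1, h2⟩ := mem_inter.1 hA
      have h3 := mem_I76.1 h2
      rcases P.I_cases33 hr hM hc hc' h1 with h | h | h
      · exact hxK (h ▸ h3.2)
      · exact hxN (h ▸ h3.2)
      · exact (mem_N76.1 h3.2).1 h
  · obtain ⟨B, hB, hxB⟩ : ∃ B ∈ Fa, x ∈ B := by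
      by_contra hno
      push Not at hno
      exact hxR (mem_R76.2 hno)
    have hBK : B ≠ K := fun h => P.xK (h ▸ hxB)
    have hBM : B ≠ M := fun h => hxM (h ▸ hxB)
    obtain ⟨h1, h2, h3⟩ := P.ch_third33 hG hM hMK hc hc' hB hBK hBM hxB
    obtain ⟨h4, h5⟩ := P.ask33 hG h1
    obtain ⟨h6, h7⟩ := fc_pair33 hG c6 P.uR P.vR P.lv h4 h5
    have h8 : 4 ≤ G.ch5 Fa u + G.ch5 Fa v := by
      by_cases hyB : y ∈ B
      · have h9 := (P.swap.ch_third33 hG hM hMK hc hc' hB hBK hBM hyB).2.1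
        omega
      · obtain ⟨h9, h10⟩ := h3 hyB
        by_cases hyM : y ∈ M
        · have hy : ∀ A ∈ Fa, y ∈ A → A = M := by
            intro A hA hyA
            by_contra hne
            exact disjoint_left.1 (hr.dis A hA M hM hne).1 hyA hyM
          have h11 := (P.ch_partner33 hG hM hMK hc hc' hy hxM).2 hyM
          omega
        · by_cases hyR : ∀ A ∈ Fa, y ∉ A
          · have hy : ∀ A ∈ Fa, y ∈ A → A = M := fun A hA hyA => absurd hyA (hyR A hA)
            have h11 := (P.ch_partner33 hG hM hMK hc hc' hy hxM).1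
            have h12 := h10 hyM
            omega
          · push Not at hyR
            obtain ⟨A, hA, hyA⟩ := hyR
            have hAK : A ≠ K := fun h => P.swap.xK (h ▸ hyA)
            have hAM : A ≠ M := fun h => hyM (h ▸ hyA)
            have h11 := (P.swap.ch_third33 hG hM hMK hc hc' hA hAK hAM hyA).2.1
            omega
    by_cases h9 : 0 ≤ G.ch5 Fa v
    · have := h6 h9
      omega
    · have := h7 (by omega)
      omega

end Prt

/-- row 7c: both common neighbours in the member `M`, the port pair is not contained in the closed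
neighbourhood of `M` -/
theorem pd33 (hG : G.Gen6 Fa) (c6 : G.StC6) (P : G.Prt Fa K u v q q' c c' x y) (hM : M ∈ Fa)
    (hMK : M ≠ K) (hc : c ∈ M) (hc' : c' ∈ M) (hA : ¬ G.AlQ K M u v) :
    8 ≤ G.fc Fa u + G.fc Fa v := by
  by_cases hx : x ∉ M ∧ x ∉ G.N M ∧ x ∉ G.N K
  · exact P.pd_aux33 hG c6 hM hMK hc hc' hx.1 hx.2.1 hx.2.2
  by_cases hy : y ∉ M ∧ y ∉ G.N M ∧ y ∉ G.N K
  · rw [add_comm]
    exact P.swap.pd_aux33 hG c6 hM hMK hc hc' hy.1 hy.2.1 hy.2.2
  exfalso
  have hvM : v ∈ G.N M := mem_N76.2 ⟨mem_R76.1 P.vR M hM, c, hc, G.sym _ _ P.cv⟩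
  have huM : u ∈ G.N M := mem_N76.2 ⟨mem_R76.1 P.uR M hM, c, hc, G.sym _ _ P.cu⟩
  apply hA
  refine ⟨huM, hvM, P.uK, P.vK, fun h => G.irr u (by have := P.vu; rwa [← h] at this),
    ⟨q, P.hq, G.sym _ _ (P.mem.2 (Or.inl rfl)), G.sym _ _ (P.memv.2 (Or.inl rfl))⟩, ?_, ?_⟩
  · intro w hw
    rcases P.mem.1 hw with h | h | h | h | h | h
    · exact Or.inl (h ▸ P.hq)
    · exact Or.inl (h ▸ P.hq')
    · exact Or.inr (Or.inr (Or.inl (h ▸ hvM)))
    · exact Or.inr (Or.inl (h ▸ hc))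
    · exact Or.inr (Or.inl (h ▸ hc'))
    · subst h
      by_contra hno
      push Not at hno
      exact hx ⟨hno.2.1, hno.2.2.1, hno.2.2.2⟩
  · intro w hw
    rcases P.memv.1 hw with h | h | h | h | h | h
    · exact Or.inl (h ▸ P.hq)
    · exact Or.inl (h ▸ P.hq')
    · exact Or.inr (Or.inr (Or.inl (h ▸ huM)))
    · exact Or.inr (Or.inl (h ▸ hc))
    · exact Or.inr (Or.inl (h ▸ hc'))
    · subst h
      by_contra hno
      push Not at hno
      exact hy ⟨hno.2.1, hno.2.2.1, hno.2.2.2⟩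

end CG

end Pool.Agent.Lib.MP_e95c01_co.N
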