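import Pool.Agent.Lib.MP_e95c01_co.Y.Small11

/-!
# Rows for the induction: small fragments, `AlQ` ports at `Co F`
-/

set_option autoImplicit false

namespace Pool.Agent.Lib.MP_e95c01_co.N

open Finset

variable {V : Type} [Fintype V] [DecidableEq V]

namespace CG

variable {G : CG V} {F : Finset V} {Fa : Finset (Finset V)}

theorem card9_11 (hF : G.GoodK F) : 9 ≤ Fintype.card V := by
  have h1 := G.card_V37 hF.1.1
  have h2 := hF.1.2.1
  have h3 := hF.1.2.2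
  omega

/-- the field `small` of `Rows310` -/
theorem rowSmall11 (hC : G.Crit) : ∀ F K, G.GoodK F → G.IsK6 K → G.Tor F {K} →
    F \ K = G.N K ∩ F → (F \ K).card ≤ 3 → 4 ≤ G.WS F := by
  intro F K hF hK T h1 h2
  have hKF := (T.good K (mem_singleton_self _)).2
  refine small_WS11 hC (card9_11 hF) hF hK hKF.1 ?_ ?_ h2
  · rintro rfl
    exact hKF.2 Subset.rfl
  · rw [h1]
    exact inter_subset_left

/-- at most one port of each member faces `Co F`, or `F` is small -/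
theorem small_or_hal11 (hC : G.Crit) (hF : G.GoodK F) (T : G.Tor F Fa) :
    4 ≤ G.WS F ∨ ∀ K ∈ G.k6S Fa, ∀ u1 v1 u2 v2, G.AlQ K (G.Co F) u1 v1 → G.AlQ K (G.Co F) u2 v2 →
      ¬ (u1 ≠ u2 ∧ u1 ≠ v2 ∧ v1 ≠ u2 ∧ v1 ≠ v2) := by
  classical
  by_cases h : ∃ K ∈ G.k6S Fa, F \ K ⊆ G.N K ∧ (F \ K).card ≤ 3
  · obtain ⟨K, hK, h1, h2⟩ := h
    left
    rw [mem_k6S] at hK
    have hKF := (T.good K hK.1).2
    refine small_WS11 hC (card9_11 hF) hF hK.2 hKF.1 ?_ h1 h2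
    rintro rfl
    exact hKF.2 Subset.rfl
  · right
    push Not at h
    rintro K hK u1 v1 u2 v2 h1 h2 ⟨e1, e2, e3, e4⟩
    have hK' := mem_k6S.1 hK
    have hno : ¬ (F \ K ⊆ G.N K ∧ (F \ K).card ≤ 3) := fun h3 =>
      absurd h3.2 (not_le.2 (h K hK h3.1))
    rcases alQ_uniq11 hC (card9_11 hF) hF hK'.2 (T.good K hK'.1).2.1 hno
      (stCo_37 G F hF.1.1).1 (Or.inl rfl) h1 h2 with h3 | h3
    · exact e1 h3.1.symm
    · exact e3 h3.1.symm

end CG

end Pool.Agent.Lib.MP_e95c01_co.N
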