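import Pool.Agent.Lib.MP_e95c01_co.Y.PortA87
import Pool.Agent.Lib.MP_e95c01_co.Y.AlQ11

/-!
# `LL` ports of a `K6` that is a member of a thick torso: statements of the rows 6 - 9

A port `{u, v}` of the member `K` is irregular if it is not `AlQ` at another member.
-/

namespace Pool.Agent.Lib.MP_e95c01_co.N

open Finset

variable {V : Type} [Fintype V] [DecidableEq V] (G : CG V)

namespace CG

/-- the port `e = {u, v}` is sponsored by the hub `x`: `u` and `v` are in no other neighbourhood,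
their other common neighbours are twins, `u` and the twins pay `x` -/
def SpH (Fa : Finset (Finset V)) (e : Finset V) (x : V) : Prop :=
  ∃ K q q' u v c d y, G.LPt Fa K q q' u v c d x y ∧ G.I Fa u = {K} ∧ G.I Fa v = {K} ∧
    G.Tw c d ∧ x ∈ R Fa ∧ G.Hub x ∧ (G.I Fa x).card ≤ 1 ∧ x ∈ G.nb c ∧ x ∉ G.N K ∧
    (¬ ∃ b, G.HL x b u) ∧ ¬ G.PQ Fa c x ∧ e = {u, v}

/-- the port `e = {u, v}` is sponsored by the twin vertex `c` (the twins get back their payments) -/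
def SpP (Fa : Finset (Finset V)) (e : Finset V) (c : V) : Prop :=
  ∃ K q q' u v d x y, G.LPt Fa K q q' u v c d x y ∧ G.I Fa u = {K} ∧ G.I Fa v = {K} ∧
    G.Tw c d ∧ x ∈ R Fa ∧ G.Hub x ∧ (G.I Fa x).card ≤ 1 ∧ x ∈ G.nb c ∧ x ∉ G.N K ∧
    (¬ ∃ b, G.HL x b u) ∧ G.PQ Fa c x ∧ e = {u, v}

/-- row 6 (67, 99): who asks `u` and `v`. The second alternative is for a low private neighbour `x`
of type GAMMA (`x`, `u` in `N B`, `c` in `B`, `d` and `y` hubs outside of `N B`: `3 ≤ ch5 u`,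
`3 ≤ ch5 v`, `x` asks at most 4) and for `2 ≤ card (I x)`, `c`, `d` in `B` -/
def StAsk36 : Prop := ∀ Fa, G.Gen6 Fa → ∀ K q q' u v c d x y, G.LPt Fa K q q' u v c d x y →
  2 * (G.ch5 Fa u + G.ch5 Fa v) ≤ G.fc Fa u + G.fc Fa v ∨ 8 ≤ G.fc Fa u + G.fc Fa v

/-- row 6, `u` in one neighbourhood only: nobody but `v` asks `u` -/
def StAsk1 : Prop := ∀ Fa, G.Gen6 Fa → ∀ K q q' u v c d x y, G.LPt Fa K q q' u v c d x y →
  G.I Fa u = {K} → ∀ z ∈ R Fa, z ≠ v → G.dn5 Fa u z = 0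

/-- row 7 (16): `c` is hidden in another member -/
def StPc : Prop := ∀ Fa, G.Gen6 Fa → ∀ K q q' u v c d x y, G.LPt Fa K q q' u v c d x y →
  ¬ (x ∈ G.N K ∧ y ∈ G.N K) → (∀ M ∈ Fa, M ≠ K → ¬ G.AlQ K M u v) →
  (∃ M ∈ Fa, M ≠ K ∧ c ∈ M) → 2 ≤ G.ch5 Fa u + G.ch5 Fa v

/-- row 7 (62): `c` and `d` are visible, `x` is hidden in another member -/
def StPx : Prop := ∀ Fa, G.Gen6 Fa → ∀ K q q' u v c d x y, G.LPt Fa K q q' u v c d x y →
  ¬ (x ∈ G.N K ∧ y ∈ G.N K) → (∀ M ∈ Fa, M ≠ K → ¬ G.AlQ K M u v) →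
  c ∈ R Fa → d ∈ R Fa → (∃ M ∈ Fa, M ≠ K ∧ x ∈ M) → 2 ≤ G.ch5 Fa u + G.ch5 Fa v

/-- row 7 (70): `c` and `d` are hidden in the same member `M` (a double neck), but the port is not
regular at `M`: `x` (or `y`) is hidden in a third member -/
def StPd : Prop := ∀ Fa, G.Gen6 Fa → ∀ K q q' u v c d x y, G.LPt Fa K q q' u v c d x y →
  ∀ M ∈ Fa, M ≠ K → c ∈ M → d ∈ M → ¬ G.AlQ K M u v → 8 ≤ G.fc Fa u + G.fc Fa v

/-- row 7, result: all irregular ports with a second neighbourhood -/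
def StP7 : Prop := ∀ Fa, G.Gen6 Fa → ∀ K q q' u v c d x y, G.LPt Fa K q q' u v c d x y →
  ¬ (x ∈ G.N K ∧ y ∈ G.N K) → (∀ M ∈ Fa, M ≠ K → ¬ G.AlQ K M u v) →
  2 ≤ (G.I Fa u).card ∨ 2 ≤ (G.I Fa v).card → 4 ≤ G.fc Fa u + G.fc Fa v

/-- row 8 (43): `u` and `v` in one neighbourhood only, `c` and `d` no twins -/
def StP8n : Prop := ∀ Fa, G.Gen6 Fa → ∀ K q q' u v c d x y, G.LPt Fa K q q' u v c d x y →
  ¬ (x ∈ G.N K ∧ y ∈ G.N K) → G.I Fa u = {K} → G.I Fa v = {K} → ¬ G.Tw c d → 2 ≤ G.fc Fa u + G.fc Fa v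

/-- row 8 (28): the same, `c` and `d` twins -/
def StP8t : Prop := ∀ Fa, G.Gen6 Fa → ∀ K q q' u v c d x y, G.LPt Fa K q q' u v c d x y →
  ¬ (x ∈ G.N K ∧ y ∈ G.N K) → G.I Fa u = {K} → G.I Fa v = {K} → G.Tw c d →
  2 ≤ G.fc Fa u + G.fc Fa v ∨ G.SpH Fa {u, v} x ∨ G.SpH Fa {u, v} y ∨ G.SpP Fa {u, v} c

open Classical in
/-- row 9 (84): a hub pays for all the ports that it sponsors -/
def StP9h : Prop := ∀ Fa, G.Gen6 Fa → ∀ x ∈ R Fa, G.Hub x →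
  2 * ((univ.filter fun e : Finset V => G.SpH Fa e x).card : ℤ) ≤ G.fc Fa x

/-- row 9 (64): the twins that get back their payments -/
def StP9p : Prop := ∀ Fa, G.Gen6 Fa → ∀ e c, G.SpP Fa e c →
  2 ≤ G.fc Fa c ∧ ∀ e', G.SpP Fa e' c → e' = e

end CG

end Pool.Agent.Lib.MP_e95c01_co.N
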