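import Pool.Agent.Lib.MP_e95c01_co.Y.PortP1_16
import Pool.Agent.Lib.MP_e95c01_co.Y.StPort36

/-!
# Irregular ports of a `K6` with a second neighbourhood: a hidden common neighbour, and the result
-/

set_option autoImplicit false

namespace Pool.Agent.Lib.MP_e95c01_co.N

open Finset

variable {V : Type} [Fintype V] [DecidableEq V]

namespace CG

variable {G : CG V} {Fa : Finset (Finset V)} {K : Finset V} {q q' u v c d x y : V}

/-- the structure with the partner in `K` -/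
theorem LPt.toPrt16 (h : G.LPt Fa K q q' u v c d x y) (hG : G.Gen6 Fa) :
    G.Prt Fa K u v q q' c d x y := by
  obtain ⟨q2, c2, d2, P⟩ := prt_mk16 hG.g5 h.mem h.k6 h.qK (G.sym _ _ (h.memu.2 (Or.inl rfl)))
    (G.sym _ _ (h.memv.2 (Or.inl rfl))) h.uK h.vK h.ll
  obtain ⟨⟨n1, n2, n3, n4, n5⟩, ⟨n6, n7, n8, n9⟩, ⟨n10, n11, n12⟩, ⟨n13, n14⟩, n15⟩ := P.neU
  have hq2 : q2 = q' := by
    rcases h.nbK hG (P.mem.2 (Or.inr (Or.inl rfl))) P.hq' with h1 | h1
    · exact absurd h1.symm n1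
    · exact h1
  subst hq2
  have hc2 : c2 = c ∨ c2 = d := by
    rcases h.memu.1 P.cu with h1 | h1 | h1 | h1 | h1 | h1
    · exact absurd h1.symm n3
    · exact absurd h1.symm n7
    · exact absurd h1.symm n10
    · exact Or.inl h1
    · exact Or.inr h1
    · exact absurd h1 n14
  have hd2 : d2 = c ∨ d2 = d := by
    rcases h.memu.1 P.cu' with h1 | h1 | h1 | h1 | h1 | h1
    · exact absurd h1.symm n4
    · exact absurd h1.symm n8
    · exact absurd h1.symm n11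
    · exact Or.inl h1
    · exact Or.inr h1
    · exact absurd h1 n15
  rcases hc2 with rfl | rfl <;> rcases hd2 with rfl | rfl
  · exact absurd rfl n13
  · exact P
  · exact P.sw
  · exact absurd rfl n13

/-- row 7: a common neighbour is hidden in another member -/
theorem stPc16 (G : CG V) : G.StPc := by
  rintro Fa hG K q q' u v c d x y h - hn ⟨M, hM, hMK, hc⟩
  exact (h.toPrt16 hG).P1 hG.g5 hM hc (hn M hM hMK)

/-- another member at `u` -/
theorem LPt.other16 (h : G.LPt Fa K q q' u v c d x y) (hG : G.Gen6 Fa)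
    (h2 : 2 ≤ (G.I Fa u).card) : ∃ M ∈ Fa, M ≠ K ∧ (c ∈ M ∨ d ∈ M ∨ x ∈ M) := by
  obtain ⟨M, hM, hne⟩ := exists_mem_ne (by omega : 1 < (G.I Fa u).card) K
  have P := h.toPrt16 hG
  refine ⟨M, (mem_I76.1 hM).1, hne, ?_⟩
  rcases P.I_cases hG.g5.reg hM with h1 | h1
  · exact absurd h1 hne
  · exact h1

/-- row 7, result -/
theorem stP7_16 (hA : G.StAsk36) (hx : G.StPx) : G.StP7 := by
  intro Fa hG K q q' u v c d x y h hb hn h2
  have hs : ∀ M ∈ Fa, M ≠ K → ¬ G.AlQ K M v u := by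
    intro M hM hMK h1
    exact hn M hM hMK ⟨h1.vN, h1.uN, h1.vK, h1.uK, h1.ne.symm, by
      obtain ⟨q, h3, h4, h5⟩ := h1.q
      exact ⟨q, h3, h5, h4⟩, h1.hv, h1.hu⟩
  have key : 2 ≤ G.ch5 Fa u + G.ch5 Fa v := by
    by_cases hc : ∃ M ∈ Fa, M ≠ K ∧ c ∈ M
    · exact stPc16 G Fa hG K q q' u v c d x y h hb hn hc
    by_cases hd : ∃ M ∈ Fa, M ≠ K ∧ d ∈ M
    · exact stPc16 G Fa hG K q q' u v d c x y h.swap hb hn hd
    have P := h.toPrt16 hG
    have vis : ∀ w, w ∉ K → (¬ ∃ M ∈ Fa, M ≠ K ∧ w ∈ M) → w ∈ R Fa := by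
      intro w hw h1
      by_contra h3
      obtain ⟨A, hA, hwA⟩ := hidR16 h3
      exact h1 ⟨A, hA, fun h4 => hw (h4 ▸ hwA), hwA⟩
    have hcR := vis c P.cK hc
    have hdR := vis d P.cK' hd
    rcases h2 with h2 | h2
    · obtain ⟨M, hM, hne, h3⟩ := h.other16 hG h2
      rcases h3 with h3 | h3 | h3
      · exact absurd ⟨M, hM, hne, h3⟩ hc
      · exact absurd ⟨M, hM, hne, h3⟩ hd
      · exact hx Fa hG K q q' u v c d x y h hb hn hcR hdR ⟨M, hM, hne, h3⟩
    · obtain ⟨M, hM, hne, h3⟩ := h.symm.other16 hG h2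
      rcases h3 with h3 | h3 | h3
      · exact absurd ⟨M, hM, hne, h3⟩ hc
      · exact absurd ⟨M, hM, hne, h3⟩ hd
      · have := hx Fa hG K q q' v u c d y x h.symm (fun h4 => hb ⟨h4.2, h4.1⟩) hs hcR hdR
          ⟨M, hM, hne, h3⟩
        omega
  rcases hA Fa hG K q q' u v c d x y h with h3 | h3
  · omega
  · omega

end CG

end Pool.Agent.Lib.MP_e95c01_co.N
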