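import Pool.Agent.Lib.MP_e95c01_co.Y.Thick31
import Pool.Agent.Lib.MP_e95c01_co.Y.RowSm11
import Pool.Agent.Lib.MP_e95c01_co.Y.Ord33
import Pool.Agent.Lib.MP_e95c01_co.Y.PD33
import Pool.Agent.Lib.MP_e95c01_co.Y.StP7_16
import Pool.Agent.Lib.MP_e95c01_co.Y.Fin310_76

/-!
# The rows of the induction step, from the remaining statements
-/

set_option autoImplicit false

namespace Pool.Agent.Lib.MP_e95c01_co.N

open Finset

variable {V : Type} [Fintype V] [DecidableEq V]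

namespace CG

/-- row 7 (double necks) in the form of `36` -/
theorem stPd33 (G : CG V) : G.StPd := by
  intro Fa hG K q q' u v c d x y h M hM hMK hc hd hA
  exact pd33 hG G.rows6.c6 (h.toPrt16 hG) hM hMK hc hd hA

/-- the remaining statements -/
structure Rest33 (G : CG V) : Prop where
  /-- who asks a port -/
  ask : G.StAsk36
  /-- row 7, the private neighbour in another member -/
  px : G.StPx
  /-- the bonus -/
  hs : ∀ F Fa, G.GoodK F → G.Tor F Fa → G.Gen6 (insert (G.Co F) Fa) →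
    ∃ hx, G.Hx31 (insert (G.Co F) Fa) hx ∧ ∑ w ∈ G.ptS Fa, hx w ≤
      ∑ z ∈ R (insert (G.Co F) Fa) \ G.ptS Fa, G.valS Fa F z
  /-- direct necks -/
  kk : ∀ F Fa, G.GoodK F → G.Tor F Fa → G.Gen6 (insert (G.Co F) Fa) → G.StKK31 F Fa
  /-- thick leaves -/
  leaf : ∀ F, G.GoodK F → ¬ G.IsK6 F → G.Tor F ∅ → G.Gen6 (insert (G.Co F) ∅) → 6 ≤ F.card →
    4 ≤ G.WS F
  /-- light leaves -/
  light : ∀ F, G.GoodK F → ¬ G.IsK6 F → G.Tor F ∅ → F.card ≤ 5 → 4 ≤ G.WS F

/-- all rows -/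
theorem rows310_33 {G : CG V} (hcr : G.Crit) (h : G.Rest33) : G.Rows310 where
  small := rowSmall11 hcr
  thickK := thickK31 hcr (stP7_16 h.ask h.px) G.stPd33 h.hs h.kk
  thickO := thickO_33
  leaf := h.leaf
  light := h.light

/-- all 6-contraction-critical graphs -/
theorem c310_33 (h : ∀ G : CG V, G.Crit → G.Sat → G.Rest33) (G : CG V) (hcr : G.Crit) :
    3 * Fintype.card V ≤ 10 * G.l univ :=
  c310_of76 (fun G h1 h2 => rows310_33 h1 (h G h1 h2)) G hcr

end CG

end Pool.Agent.Lib.MP_e95c01_co.N
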