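import Pool.Agent.Lib.MP_e95c01_co.X.Ident50
import Pool.Agent.Lib.MP_e95c01_co.X.K3b_28
import Pool.Agent.Lib.MP_e95c01_co.X.H0b_16

/-!
# `P5` of a fragment is even, the sum of the balances of a torso is even
-/

namespace Pool.Agent.Lib.MP_e95c01_co.N

open Finset

variable {V : Type} [Fintype V] [DecidableEq V]

namespace CG

variable {G : CG V} {Fa : Finset (Finset V)}

omit [Fintype V] [DecidableEq V] in
/-- a sum of equal values over the orbits of an involution without fixed points is even -/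
theorem even_inv11 {s : Finset V} {f : V → ℤ} (g : V → V) (hs : ∀ a ∈ s, g a ∈ s)
    (hi : ∀ a ∈ s, g (g a) = a) (hne : ∀ a ∈ s, g a ≠ a) (hf : ∀ a ∈ s, f (g a) = f a) :
    Even (∑ a ∈ s, f a) := by
  have h1 : (∑ a ∈ s, ((f a : ℤ) : ZMod 2)) = 0 := by
    refine sum_involution (fun a _ => g a) ?_ ?_ ?_ ?_
    · intro a ha
      show ((f a : ℤ) : ZMod 2) + ((f (g a) : ℤ) : ZMod 2) = 0
      rw [hf a ha]
      exact CharTwo.add_self_eq_zero _
    · intro a ha _
      exact hne a ha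
    · intro a ha
      exact hs a ha
    · intro a ha
      exact hi a ha
  have h2 : ((∑ a ∈ s, f a : ℤ) : ZMod 2) = 0 := by
    push_cast
    exact h1
  have h3 := (ZMod.intCast_zmod_eq_zero_iff_dvd (∑ a ∈ s, f a) 2).1 h2
  exact even_iff_two_dvd.2 (by exact_mod_cast h3)

theorem cl_d11 {v w : V} (h : G.Tw v w) {S : Finset V} (hv : v ∉ S) (hw : w ∉ S) :
    G.nb v ∩ S = G.nb w ∩ S := by
  have h1 : ∀ x ∈ S, x ∈ G.cl v ↔ x ∈ G.nb v := by
    intro x hx
    rw [cl, mem_insert]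
    constructor
    · rintro (h2 | h2)
      · exact absurd (h2 ▸ hx) hv
      · exact h2
    · exact Or.inr
  have h2 : ∀ x ∈ S, x ∈ G.cl w ↔ x ∈ G.nb w := by
    intro x hx
    rw [cl, mem_insert]
    constructor
    · rintro (h3 | h3)
      · exact absurd (h3 ▸ hx) hw
      · exact h3
    · exact Or.inr
  ext x
  rw [mem_inter, mem_inter]
  constructor
  · rintro ⟨h3, h4⟩
    refine ⟨?_, h4⟩
    rw [← h2 x h4, ← h.2.2, h1 x h4]
    exact h3
  · rintro ⟨h3, h4⟩
    refine ⟨?_, h4⟩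
    rw [← h1 x h4, h.2.2, h2 x h4]
    exact h3

open Classical in
/-- the twin of a vertex -/
noncomputable def tw11 (G : CG V) (v : V) : V := if h : ∃ w, G.Tw v w then h.choose else v

theorem tw11_spec {v : V} (h : G.IsTw v) : G.Tw v (G.tw11 v) := by
  have h' : ∃ w, G.Tw v w := h
  rw [tw11, dif_pos h']
  exact h'.choose_spec

theorem tw11_eq (n9 : 9 ≤ Fintype.card V) {v w : V} (h : G.Tw v w) : G.tw11 v = w :=
  uniq_5 n9 (tw11_spec ⟨w, h⟩) h

theorem tw11_inv (n9 : 9 ≤ Fintype.card V) {v : V} (h : G.IsTw v) : G.tw11 (G.tw11 v) = v :=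
  tw11_eq n9 (symm_5 (tw11_spec h))

theorem tw11_ne {v : V} (h : G.IsTw v) : G.tw11 v ≠ v := fun h1 =>
  G.irr v (by have := (tw11_spec h).1; rwa [h1] at this)

open Classical in
/-- the twin vertices of `N F` -/
theorem even_tw11 (n9 : 9 ≤ Fintype.card V) {F : Finset V} (hF : G.Frag F) (f : V → ℤ)
    (hf : ∀ v ∈ G.N F, ∀ w ∈ G.N F, G.Tw v w → f w = f v) :
    Even (∑ w ∈ (G.N F).filter (fun w => G.IsTw w), f w) := by
  refine even_inv11 G.tw11 ?_ ?_ ?_ ?_
  · intro a ha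
    rw [mem_filter] at ha ⊢
    exact ⟨twN16 hF (tw11_spec ha.2) ha.1, a, symm_5 (tw11_spec ha.2)⟩
  · intro a ha
    rw [mem_filter] at ha
    exact tw11_inv n9 ha.2
  · intro a ha
    rw [mem_filter] at ha
    exact tw11_ne ha.2
  · intro a ha
    rw [mem_filter] at ha
    exact hf a ha.1 _ (twN16 hF (tw11_spec ha.2) ha.1) (tw11_spec ha.2)

theorem notMem_of_N11 {F : Finset V} {v : V} (h : v ∈ G.N F) : v ∉ F ∧ v ∉ G.Co F :=
  ⟨(mem_N76.1 h).1, fun h1 => (mem_Co76.1 h1).2 h⟩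

/-- `RF` is a property of the pair of twins -/
theorem RF_symm11 (n9 : 9 ≤ Fintype.card V) {S : Finset V} {v w : V} (hw : w ∈ G.N S)
    (hvS : v ∉ S ∧ v ∉ G.Co S) (hwS : w ∉ S ∧ w ∉ G.Co S) (h : G.Tw v w) (hv : v ∈ G.N S)
    (hR : G.RF S v) : G.RF S w := by
  obtain ⟨-, p, m, m', h1, h2, h3, h4, h5, h6⟩ := hR
  have hp : p = w := uniq_5 n9 h1 h
  refine ⟨hw, v, m, m', symm_5 h, h2, ?_, ?_, ?_, h6⟩
  · -- `pT`
    rw [hp] at h3
    ext x
    rw [pT, mem_inter, mem_singleton]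
    constructor
    · rintro ⟨k1, k2⟩
      by_contra hx
      have k3 : x ∈ G.cl v := by
        rw [h.2.2]
        exact mem_insert_of_mem k1
      rcases mem_insert.1 k3 with k4 | k4
      · exact hx k4
      · have k5 : x ∈ G.pT S v := mem_inter.2 ⟨k4, k2⟩
        rw [h3, mem_singleton] at k5
        exact G.irr w (k5 ▸ k1)
    · rintro rfl
      exact ⟨(symm_5 h).1, hv⟩
  · rw [pX, ← cl_d11 h hvS.1 hwS.1]
    exact h4
  · rw [pO, ← cl_d11 h hvS.2 hwS.2]
    exact h5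

open Classical in
theorem even_RF11 (n9 : 9 ≤ Fintype.card V) {F S : Finset V} (hF : G.Frag F) (hS : G.N S = G.N F) :
    Even (∑ w ∈ G.N F, (if G.RF S w then (1 : ℤ) else 0)) := by
  have h1 : ∑ w ∈ G.N F, (if G.RF S w then (1 : ℤ) else 0) =
      ∑ w ∈ (G.N F).filter (fun w => G.IsTw w), (if G.RF S w then (1 : ℤ) else 0) := by
    rw [sum_filter]
    refine sum_congr rfl fun w _ => ?_
    by_cases hR : G.RF S w
    · have h2 : G.IsTw w := by
        obtain ⟨-, p, m, m', h1, -⟩ := hR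
        exact ⟨p, h1⟩
      rw [if_pos h2]
    · rw [if_neg hR]
      split_ifs <;> rfl
  rw [h1]
  refine even_tw11 n9 hF _ ?_
  intro v hv w hw h
  have hv' : v ∈ G.N S := hS ▸ hv
  have hw' : w ∈ G.N S := hS ▸ hw
  have k1 := notMem_of_N11 hv'
  have k2 := notMem_of_N11 hw'
  by_cases hR : G.RF S v
  · rw [if_pos hR, if_pos (RF_symm11 n9 hw' k1 k2 h hv' hR)]
  · have hR' : ¬ G.RF S w := fun h3 => hR (RF_symm11 n9 hv' k2 k1 (symm_5 h) hw' h3)
    rw [if_neg hR, if_neg hR']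

theorem LLs_symm11 {S : Finset V} {u v : V} (h : G.LLs S u v) : G.LLs S v u := by
  obtain ⟨⟨x, y, h1⟩, h2⟩ := h
  exact ⟨⟨y, x, LL_symm5 h1⟩, h2.symm⟩

theorem S0_symm11 {S : Finset V} {u v : V} (h : G.S0 S u v) (hL : G.LLs S u v)
    (hv : G.pT S v = {u}) : G.S0 S v u := by
  obtain ⟨h1, h2, h3, h4, ⟨q, q', h5, h6, h7⟩, -⟩ := h
  have hvN : v ∈ G.N S := by
    have : v ∈ G.pT S u := by
      rw [h4]
      exact mem_singleton_self _
    exact (mem_inter.1 this).2
  have hqu : q ∈ G.nb u := by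
    have : q ∈ G.pX S u := by
      rw [h6]
      exact mem_insert_self _ _
    exact (mem_inter.1 this).1
  refine ⟨hvN, h3, h2, hv, ⟨q, q', h5, hL.2.trans h6, hqu⟩, ?_⟩
  rintro ⟨-, h8⟩
  have h9 := K28.six_low h2 S
  have e1 : (G.nb u ∩ S).card = 2 := by
    have : G.nb u ∩ S = {q, q'} := h6
    rw [this, card_pair (fun h => G.irr q (by have := h5.1; rwa [← h] at this))]
  have e2 : (G.nb u ∩ G.N S).card = 1 := by
    have : G.nb u ∩ G.N S = {v} := h4
    rw [this, card_singleton]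
  have e3 : (G.nb u ∩ G.Co S).card = 1 := h8
  omega

/-- the flag `s5` has the value 1 -/
def One11 (G : CG V) (S : Finset V) (u v : V) : Prop :=
  G.S0 S u v ∧ G.LLs S u v ∧ G.pT S v = {u}

theorem One11.symm {S : Finset V} {u v : V} (h : G.One11 S u v) : G.One11 S v u :=
  ⟨S0_symm11 h.1 h.2.1 h.2.2, LLs_symm11 h.2.1, h.1.2.2.2.1⟩

theorem One11.mem {S : Finset V} {u v : V} (h : G.One11 S u v) : u ∈ G.N S := h.1.1

theorem One11.eq {S : Finset V} {u v w : V} (h : G.One11 S u v) (h' : G.One11 S u w) : v = w := by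
  have h1 := h.1.2.2.2.1
  rw [h'.1.2.2.2.1] at h1
  exact (singleton_injective h1).symm

theorem One11.ne {S : Finset V} {u v : V} (h : G.One11 S u v) : v ≠ u := by
  intro h1
  have h2 : v ∈ G.pT S u := by
    rw [h.1.2.2.2.1]
    exact mem_singleton_self _
  exact G.irr u (h1 ▸ (mem_inter.1 h2).1)

open Classical in
theorem s5_mod11 (S : Finset V) (u : V) :
    ∃ k : ℤ, G.s5 S u = 2 * k + (if ∃ v, G.One11 S u v then 1 else 0) := by
  unfold s5
  by_cases h1 : ∃ v, G.S0 S u v ∧ ¬ G.LLs S u v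
  · rw [if_pos h1, if_neg]
    · exact ⟨1, by ring⟩
    · rintro ⟨w, h2, h3, -⟩
      obtain ⟨v, h4, h5⟩ := h1
      have h6 : v = w := by
        have h7 := h2.2.2.2.1
        rw [h4.2.2.2.1] at h7
        exact singleton_injective h7
      exact h5 (h6 ▸ h3)
  · rw [if_neg h1]
    by_cases h2 : ∃ v, G.S0 S u v ∧ G.pT S v = {u}
    · rw [if_pos h2, if_pos]
      · exact ⟨0, by ring⟩
      · obtain ⟨v, h3, h4⟩ := h2
        refine ⟨v, h3, ?_, h4⟩
        by_contra h5
        exact h1 ⟨v, h3, h5⟩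
    · rw [if_neg h2, if_neg]
      · exact ⟨0, by ring⟩
      · rintro ⟨v, h3, -, h4⟩
        exact h2 ⟨v, h3, h4⟩

open Classical in
theorem even_s5_11 (G : CG V) (S : Finset V) : Even (∑ u ∈ G.N S, G.s5 S u) := by
  choose k hk using fun u => s5_mod11 (G := G) S u
  rw [sum_congr rfl fun u _ => hk u, sum_add_distrib, ← mul_sum]
  refine (even_two_mul _).add ?_
  rw [← sum_filter]
  let g : V → V := fun u => if h : ∃ v, G.One11 S u v then h.choose else u
  have hg : ∀ u, (∃ v, G.One11 S u v) → G.One11 S u (g u) := by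
    intro u h
    show G.One11 S u (if h : ∃ v, G.One11 S u v then h.choose else u)
    rw [dif_pos h]
    exact h.choose_spec
  refine even_inv11 g ?_ ?_ ?_ ?_
  · intro a ha
    rw [mem_filter] at ha ⊢
    have h1 := (hg a ha.2).symm
    exact ⟨h1.mem, a, h1⟩
  · intro a ha
    rw [mem_filter] at ha
    have h1 := (hg a ha.2).symm
    exact (hg (g a) ⟨a, h1⟩).eq h1
  · intro a ha
    rw [mem_filter] at ha
    exact (hg a ha.2).ne
  · intro a _
    rfl

open Classical in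
theorem even_flv11 (n9 : 9 ≤ Fintype.card V) {F S : Finset V} (hF : G.Frag F)
    (hS : G.N S = G.N F) : Even (∑ w ∈ G.N F, G.flv S w) := by
  have h1 : ∀ w ∈ G.N F, G.flv S w = G.s5 S w - (if G.RF S w then 1 else 0) +
      2 * ((if G.U3 S w then 1 else 0) - (if G.T3 S w then 1 else 0) -
        (if G.HF S w then 1 else 0)) := by
    intro w _
    unfold flv
    ring
  rw [sum_congr rfl h1, sum_add_distrib, sum_sub_distrib, ← mul_sum]
  refine Even.add (Even.sub ?_ (even_RF11 n9 hF hS)) (even_two_mul _)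
  rw [← hS]
  exact even_s5_11 G S

/-- `P5` of a fragment is even -/
theorem P5_even11 (n9 : 9 ≤ Fintype.card V) {F : Finset V} (hF : G.Frag F) : Even (G.P5 F) := by
  classical
  obtain ⟨-, h2, -⟩ := G.stCo_37 F hF
  rw [P5, ← mul_sum]
  refine (even_two_mul _).add ?_
  rw [sum_add_distrib, sum_sub_distrib]
  refine Even.add ?_ ((even_flv11 n9 hF rfl).sub (even_flv11 n9 hF h2))
  have h3 : ∀ w ∈ G.N F, G.a5 w + G.c5 w * ((G.d w F : ℤ) - (G.d w (G.Co F) : ℤ)) =
      2 * ((if G.Low w then 2 + ((G.d w F : ℤ) - (G.d w (G.Co F) : ℤ)) else -1)) +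
        (if G.IsTw w then ((G.d w F : ℤ) - (G.d w (G.Co F) : ℤ)) else 0) := by
    intro w _
    rw [a5, c5]
    by_cases hl : G.Low w
    · have ht : ¬ G.IsTw w := fun h => tw_not_low11 h hl
      rw [if_pos hl, if_pos hl, if_pos hl, if_neg ht]
      ring
    · by_cases ht : G.IsTw w
      · rw [if_neg hl, if_neg hl, if_neg hl, if_pos ht, if_pos ht]
        ring
      · rw [if_neg hl, if_neg hl, if_neg hl, if_neg ht, if_neg ht]
        ring
  rw [sum_congr rfl h3, sum_add_distrib, ← mul_sum]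
  refine (even_two_mul _).add ?_
  rw [← sum_filter]
  have h4 := even_tw11 n9 hF (fun w => ((G.d w F : ℤ) - (G.d w (G.Co F) : ℤ))) ?_
  · convert h4
  · intro v hv w hw h
    have k1 := notMem_of_N11 hv
    have k2 := notMem_of_N11 hw
    have e1 : G.d w F = G.d v F := by
      rw [d, d, cl_d11 h k1.1 k2.1]
    have e2 : G.d w (G.Co F) = G.d v (G.Co F) := by
      rw [d, d, cl_d11 h k1.2 k2.2]
    show ((G.d w F : ℤ) - (G.d w (G.Co F) : ℤ)) = ((G.d v F : ℤ) - (G.d v (G.Co F) : ℤ))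
    rw [e1, e2]

/-- the sum of the balances of a torso is even -/
theorem bal5_even11 (n9 : 9 ≤ Fintype.card V) (h : G.Reg Fa) :
    Even (∑ z ∈ R Fa, G.bal5 Fa z) := by
  rw [← stId5_50 G Fa h, ← mul_sum]
  refine (even_two_mul _).sub ?_
  exact Finset.even_sum _ fun B hB => P5_even11 n9 (h.frag B hB)

end CG

end Pool.Agent.Lib.MP_e95c01_co.N
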