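import Pool.Agent.Lib.MP_e95c01_co.Y.WS33
import Pool.Agent.Lib.MP_e95c01_co.Y.AlQ11
import Pool.Agent.Lib.MP_e95c01_co.Y.Par11

/-!
# The count in a torso with `K6` members

Scale: `shS w` is four times the value of the port `w`; a port which belongs to two members counts
half at each of them. A pair of ports of a member has at least 8 if it faces an ordinary member,
`-8` or `-24` if it faces the opposite side, and 16 or 20 otherwise.
-/

set_option autoImplicit false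

namespace Pool.Agent.Lib.MP_e95c01_co.N

open Finset

variable {V : Type} [Fintype V] [DecidableEq V]

namespace CG

/-- the two ports `u`, `v` of the vertex `q` of the `K6` `K` -/
structure Pr (G : CG V) (K : Finset V) (q u v : V) : Prop where
  qK : q ∈ K
  uK : u ∉ K
  vK : v ∉ K
  ne : u ≠ v
  nb : G.nb q = insert u (insert v (K.erase q))

/-- the ports of the `K6` members -/
noncomputable def ptS (G : CG V) (Fa : Finset (Finset V)) : Finset V := (G.k6S Fa).biUnion G.N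

/-- the number of the `K6` members with the port `w` -/
noncomputable def kpS (G : CG V) (Fa : Finset (Finset V)) (w : V) : ℕ :=
  ((G.k6S Fa).filter fun K => w ∈ G.N K).card

/-- the share of the port `w` at each of its `K6` members -/
noncomputable def shS (G : CG V) (Fa : Finset (Finset V)) (F : Finset V) (hx : V → ℤ) (w : V) : ℤ :=
  (if G.kpS Fa w ≤ 1 then 2 else 1) * (G.valS Fa F w + hx w)

/-- the pair `u`, `v` is a costly port pair of a `K6` on the other side of `F` -/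
def Rch (G : CG V) (F : Finset V) (u v : V) : Prop := G.BadC (G.Co F) u ∨ G.BadC (G.Co F) v

variable {G : CG V} {Fa : Finset (Finset V)} {F : Finset V}

namespace C31

omit [Fintype V] in
/-- six different elements -/
theorem six_ne {a b c d e f : V} (h : 6 ≤ ({a, b, c, d, e, f} : Finset V).card) :
    a ∉ ({b, c, d, e, f} : Finset V) ∧ b ∉ ({c, d, e, f} : Finset V) ∧
      c ∉ ({d, e, f} : Finset V) ∧ d ∉ ({e, f} : Finset V) ∧ e ∉ ({f} : Finset V) := by
  have h5 := card_le_five (a := b) (b := c) (c := d) (d := e) (e := f)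
  have h4 := card_le_four (a := c) (b := d) (c := e) (d := f)
  have h3 := card_le_three (a := d) (b := e) (c := f)
  have h2 := card_le_two (a := e) (b := f)
  have e1 := card_insert_le a ({b, c, d, e, f} : Finset V)
  have e2 := card_insert_le b ({c, d, e, f} : Finset V)
  have e3 := card_insert_le c ({d, e, f} : Finset V)
  have e4 := card_insert_le d ({e, f} : Finset V)
  have e5 := card_insert_le e ({f} : Finset V)
  have e6 : ({f} : Finset V).card = 1 := card_singleton f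
  refine ⟨fun h' => ?_, fun h' => ?_, fun h' => ?_, fun h' => ?_, fun h' => ?_⟩
  · rw [insert_eq_of_mem h'] at h
    omega
  · have e7 : ({b, c, d, e, f} : Finset V).card = ({c, d, e, f} : Finset V).card := by
      rw [insert_eq_of_mem h']
    omega
  · have e7 : ({c, d, e, f} : Finset V).card = ({d, e, f} : Finset V).card := by
      rw [insert_eq_of_mem h']
    omega
  · have e7 : ({d, e, f} : Finset V).card = ({e, f} : Finset V).card := by
      rw [insert_eq_of_mem h']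
    omega
  · have e7 : ({e, f} : Finset V).card = ({f} : Finset V).card := by
      rw [insert_eq_of_mem h']
    omega

/-- the six ports of a `K6` -/
theorem six (hC : G.Crit) (h9 : 9 ≤ Fintype.card V) {K : Finset V} (hK : G.IsK6 K)
    (hN : (G.N K).card = 6) : ∃ q1 u1 v1 q2 u2 v2 q3 u3 v3, G.Pr K q1 u1 v1 ∧ G.Pr K q2 u2 v2 ∧
      G.Pr K q3 u3 v3 ∧ G.N K = {u1, v1, u2, v2, u3, v3} := by
  classical
  have hKne : K.Nonempty := by
    rw [← card_pos, hK.1]
    norm_num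
  obtain ⟨q1, hq1⟩ := hKne
  obtain ⟨u1, v1, hne1, hu1K, hv1K, -, -, -, hu1, hv1, hall1⟩ := K38.ports hC h9 hK hq1
  have hw : ∃ w ∈ G.N K, w ≠ u1 ∧ w ≠ v1 := by
    by_contra hno
    push Not at hno
    have h1 : G.N K ⊆ {u1, v1} := by
      intro w hw
      rw [mem_insert, mem_singleton]
      by_cases h : w = u1
      · exact Or.inl h
      · exact Or.inr (hno w hw h)
    have h2 := card_le_card h1
    have h3 := card_le_two (a := u1) (b := v1)
    omega
  obtain ⟨w, hwN, hwu, hwv⟩ := hw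
  obtain ⟨hwK, q2, hq2, hwq⟩ := mem_N76.1 hwN
  obtain ⟨u2, v2, hne2, hu2K, hv2K, -, -, -, hu2, hv2, hall2⟩ := K38.ports hC h9 hK hq2
  -- `q1` and `q2` have no common port
  have key : ∀ x, x ∉ K → x ∈ G.nb q1 → x ∉ G.nb q2 := by
    intro x hxK hx1 hx2
    obtain ⟨q1', t1⟩ := hK.2.1 q1 hq1
    have hq1' := k6_twin16 hC h9 hK hq1 t1
    have hqq : q1 ≠ q1' := fun h => G.irr q1 (by have := t1.1; rw [← h] at this; exact this)
    have tw : ∀ y, y ∉ K → y ∈ G.nb q1' → y ∈ G.nb q1 := by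
      intro y hyK hy
      have h2 : y ∈ G.cl q1 := by
        rw [t1.2.2]
        exact mem_insert_of_mem hy
      rcases mem_insert.1 h2 with h3 | h3
      · exact absurd (h3 ▸ hq1) hyK
      · exact h3
    have hx1' : x ∈ G.nb q1' := by
      have h2 : x ∈ G.cl q1' := by
        rw [← t1.2.2]
        exact mem_insert_of_mem hx1
      rcases mem_insert.1 h2 with h3 | h3
      · exact absurd (h3 ▸ hq1') hxK
      · exact h3
    have h2 := K38.two hC h9 hK hN x (mem_N76.2 ⟨hxK, q1, hq1, hx1⟩)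
    have h3 : ({q1, q1'} : Finset V) = G.nb x ∩ K := by
      apply eq_of_subset_of_card_le
      · intro y hy
        rw [mem_insert, mem_singleton] at hy
        rcases hy with rfl | rfl
        · exact mem_inter.2 ⟨G.sym _ _ hx1, hq1⟩
        · exact mem_inter.2 ⟨G.sym _ _ hx1', hq1'⟩
      · rw [h2, card_pair hqq]
    have h4 : q2 ∈ ({q1, q1'} : Finset V) := by
      rw [h3]
      exact mem_inter.2 ⟨G.sym _ _ hx2, hq2⟩
    rw [mem_insert, mem_singleton] at h4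
    have h5 : w ∈ G.nb q1 := by
      rcases h4 with rfl | rfl
      · exact hwq
      · exact tw w hwK hwq
    rcases hall1 w h5 hwK with h | h
    · exact hwu h
    · exact hwv h
  have hd : u1 ≠ u2 ∧ u1 ≠ v2 := by
    constructor
    · rintro rfl
      exact key _ hu1K hu1 hu2
    · rintro rfl
      exact key _ hu1K hu1 hv2
  obtain ⟨q, q', a, b, hq, -, haK, hbK, hab, n3, -, hNs, -⟩ := k6_third11 hC h9 hK hq1 hq2 hu1 hv1
    hu1K hv1K hne1 hu2 hv2 hu2K hv2K hne2 hd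
  refine ⟨q1, u1, v1, q2, u2, v2, q, a, b,
    ⟨hq1, hu1K, hv1K, hne1, k6_nb11 hC h9 hK hq1 hu1 hv1 hu1K hv1K hne1⟩,
    ⟨hq2, hu2K, hv2K, hne2, k6_nb11 hC h9 hK hq2 hu2 hv2 hu2K hv2K hne2⟩,
    ⟨hq, haK, hbK, hab, n3⟩, ?_⟩
  apply Subset.antisymm
  · intro x hx
    simp only [mem_insert, mem_singleton]
    exact hNs x hx
  · intro x hx
    simp only [mem_insert, mem_singleton] at hx
    rcases hx with rfl | rfl | rfl | rfl | rfl | rfl
    · exact mem_N76.2 ⟨hu1K, q1, hq1, hu1⟩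
    · exact mem_N76.2 ⟨hv1K, q1, hq1, hv1⟩
    · exact mem_N76.2 ⟨hu2K, q2, hq2, hu2⟩
    · exact mem_N76.2 ⟨hv2K, q2, hq2, hv2⟩
    · exact mem_N76.2 ⟨haK, q, hq, by rw [n3]; exact mem_insert_self _ _⟩
    · exact mem_N76.2 ⟨hbK, q, hq, by rw [n3]; exact mem_insert_of_mem (mem_insert_self _ _)⟩

omit [Fintype V] in
/-- the sum over the six ports -/
theorem six_sum {a b c d e f : V} (h : 6 ≤ ({a, b, c, d, e, f} : Finset V).card) (g : V → ℤ) :
    ∑ w ∈ ({a, b, c, d, e, f} : Finset V), g w =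
      (g a + g b) + (g c + g d) + (g e + g f) := by
  obtain ⟨h1, h2, h3, h4, h5⟩ := six_ne h
  rw [sum_insert h1, sum_insert h2, sum_insert h3, sum_insert h4, sum_insert h5, sum_singleton]
  ring

/-- a low vertex is a port of at most two of the `K6`'s -/
theorem kp_le2 (hC : G.Crit) (h9 : 9 ≤ Fintype.card V)
    (hd : ∀ B ∈ Fa, ∀ B' ∈ Fa, B ≠ B' → Disjoint B B') (w : V) : G.kpS Fa w ≤ 2 := by
  classical
  by_contra hno
  have h3 : 3 ≤ ((G.k6S Fa).filter fun K => w ∈ G.N K).card := by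
    have : ¬ ((G.k6S Fa).filter fun K => w ∈ G.N K).card ≤ 2 := hno
    omega
  obtain ⟨T, hT, hT3⟩ := exists_subset_card_eq h3
  obtain ⟨K1, K2, K3, h12, h13, h23, rfl⟩ := card_eq_three.1 hT3
  have hm : ∀ K ∈ ({K1, K2, K3} : Finset (Finset V)), K ∈ Fa ∧ G.IsK6 K ∧ w ∈ G.N K := by
    intro K hK
    have h := mem_filter.1 (hT hK)
    exact ⟨(mem_k6S.1 h.1).1, (mem_k6S.1 h.1).2, h.2⟩
  have m1 := hm K1 (by simp)
  have m2 := hm K2 (by simp)
  have m3 := hm K3 (by simp)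
  obtain ⟨hl, c1, v, hv, hvl⟩ := k6_low16 hC h9 m1.2.1 m1.2.2
  obtain ⟨-, c2, -⟩ := k6_low16 hC h9 m2.2.1 m2.2.2
  obtain ⟨-, c3, -⟩ := k6_low16 hC h9 m3.2.1 m3.2.2
  have d12 : Disjoint (G.nb w ∩ K1) (G.nb w ∩ K2) :=
    (hd K1 m1.1 K2 m2.1 h12).mono inter_subset_right inter_subset_right
  have d123 : Disjoint (G.nb w ∩ K1 ∪ G.nb w ∩ K2) (G.nb w ∩ K3) := by
    rw [disjoint_union_left]
    exact ⟨(hd K1 m1.1 K3 m3.1 h13).mono inter_subset_right inter_subset_right,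
      (hd K2 m2.1 K3 m3.1 h23).mono inter_subset_right inter_subset_right⟩
  have hvn : v ∉ (G.nb w ∩ K1 ∪ G.nb w ∩ K2) ∪ G.nb w ∩ K3 := by
    intro h
    rw [mem_union, mem_union, mem_inter, mem_inter, mem_inter] at h
    rcases h with (h | h) | h
    · exact tw_not_low11 (m1.2.1.2.1 v h.2) hvl
    · exact tw_not_low11 (m2.2.1.2.1 v h.2) hvl
    · exact tw_not_low11 (m3.2.1.2.1 v h.2) hvl
  have h6 : insert v ((G.nb w ∩ K1 ∪ G.nb w ∩ K2) ∪ G.nb w ∩ K3) ⊆ G.nb w := by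
    intro x hx
    rcases mem_insert.1 hx with rfl | hx
    · exact hv
    · rw [mem_union, mem_union, mem_inter, mem_inter, mem_inter] at hx
      rcases hx with (h | h) | h <;> exact h.1
  have h7 := card_le_card h6
  rw [card_insert_of_notMem hvn, card_union_of_disjoint d123, card_union_of_disjoint d12] at h7
  have hl' : (G.nb w).card = 6 := hl
  omega

/-- the double count -/
theorem share_sum (hC : G.Crit) (h9 : 9 ≤ Fintype.card V)
    (hd : ∀ B ∈ Fa, ∀ B' ∈ Fa, B ≠ B' → Disjoint B B') (hx : V → ℤ) :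
    ∑ K ∈ G.k6S Fa, ∑ w ∈ G.N K, G.shS Fa F hx w =
      2 * ∑ w ∈ G.ptS Fa, (G.valS Fa F w + hx w) := by
  classical
  have h1 : ∀ K ∈ G.k6S Fa, ∑ w ∈ G.N K, G.shS Fa F hx w =
      ∑ w ∈ G.ptS Fa, (if w ∈ G.N K then G.shS Fa F hx w else 0) := by
    intro K hK
    rw [← sum_filter]
    apply sum_congr _ (fun _ _ => rfl)
    ext w
    rw [mem_filter]
    constructor
    · intro hw
      exact ⟨mem_biUnion.2 ⟨K, hK, hw⟩, hw⟩
    · exact fun hw => hw.2
  rw [sum_congr rfl h1, sum_comm, mul_sum]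
  apply sum_congr rfl
  intro w hw
  rw [← sum_filter, sum_const, nsmul_eq_mul]
  change ((G.kpS Fa w : ℕ) : ℤ) * G.shS Fa F hx w = _
  have h2 := kp_le2 (G := G) (Fa := Fa) hC h9 hd w
  have h3 : 1 ≤ G.kpS Fa w := by
    obtain ⟨K, hK, hwK⟩ := mem_biUnion.1 hw
    exact card_pos.2 ⟨K, mem_filter.2 ⟨hK, hwK⟩⟩
  rw [shS]
  by_cases h4 : G.kpS Fa w ≤ 1
  · have h5 : G.kpS Fa w = 1 := by omega
    rw [if_pos h4, h5]
    ring
  · have h5 : G.kpS Fa w = 2 := by omega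
    rw [if_neg h4, h5]
    ring

omit [Fintype V] in
theorem perm2 (a b c d e f : V) : ({a, b, c, d, e, f} : Finset V) = {c, d, a, b, e, f} := by
  ext x
  simp only [mem_insert, mem_singleton]
  constructor <;> (rintro (h | h | h | h | h | h) <;> simp [h])

omit [Fintype V] in
theorem perm3 (a b c d e f : V) : ({a, b, c, d, e, f} : Finset V) = {e, f, a, b, c, d} := by
  ext x
  simp only [mem_insert, mem_singleton]
  constructor <;> (rintro (h | h | h | h | h | h) <;> simp [h])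

/-- two ports of a member do not both face the same ordinary member -/
theorem al_ord (hC : G.Crit) (h9 : 9 ≤ Fintype.card V) (hF : G.GoodK F) (T : G.Tor F Fa)
    {K B : Finset V} (hK : K ∈ G.k6S Fa) (hB : B ∈ G.ordS Fa) {u1 v1 u2 v2 : V}
    (h1 : G.AlQ K B u1 v1) (h2 : G.AlQ K B u2 v2)
    (hd : u1 ≠ u2 ∧ u1 ≠ v2 ∧ v1 ≠ u2 ∧ v1 ≠ v2) : False := by
  classical
  have hK' := mem_k6S.1 hK
  have hB' := mem_ordS.1 hB
  have gB := T.good B hB'.1
  have gK := T.good K hK'.1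
  have hne : B ≠ K := fun h => hB'.2 (h ▸ hK'.2)
  have h8 := al2_card11 hC h9 hK'.2 gB.1.1.1 h1 h2 hd
  have hKB : K ⊆ G.Co B := by
    intro x hx
    rw [mem_Co76]
    exact ⟨fun h => disjoint_left.1 (T.dis B hB'.1 K hK'.1 hne).1 h hx,
      fun h => disjoint_left.1 (T.dis B hB'.1 K hK'.1 hne).2 h hx⟩
  have hFB : G.Co F ⊆ G.Co B := Co_anti33 gB.2.1
  have hdis : Disjoint K (G.Co F) := by
    rw [disjoint_left]
    intro x hx hx'
    exact (mem_Co76.1 hx').1 (gK.2.1 hx)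
  have h3 := card_le_card (union_subset hKB hFB)
  rw [card_union_of_disjoint hdis, hK'.2.1] at h3
  have h4 := hF.1.2.2
  omega

/-- if a port pair of `K` faces the opposite side, then not all ports are in `N F` -/
theorem not_all (hF : G.GoodK F) (T : G.Tor F Fa) {K : Finset V}
    (hK : K ∈ G.k6S Fa) {u v : V} (h1 : G.AlQ K (G.Co F) u v) (hall : G.N K ⊆ G.N F) : False := by
  classical
  have hK' := mem_k6S.1 hK
  have gK := T.good K hK'.1
  obtain ⟨hCf, hCN, hCC⟩ := G.stCo_37 F hF.1.1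
  set A : Finset V := F \ K with hA
  have hAne : A.Nonempty := by
    rw [nonempty_iff_ne_empty]
    intro h
    have h2 : F ⊆ K := sdiff_eq_empty_iff_subset.1 h
    exact (gK.2.2 h2)
  have hNA : G.N A ⊆ ((G.N F).erase u).erase v := by
    intro w hw
    obtain ⟨hwA, z, hz, hwz⟩ := mem_N76.1 hw
    have hzF : z ∈ F := (mem_sdiff.1 hz).1
    have hzK : z ∉ K := (mem_sdiff.1 hz).2
    have hznN : z ∉ G.N F := fun h => (mem_N76.1 h).1 hzF
    have hznC : z ∉ G.Co F := fun h => (mem_Co76.1 h).1 hzF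
    have hwF : w ∉ F := by
      intro hwF
      have hwK : w ∈ K := by
        by_contra h
        exact hwA (mem_sdiff.2 ⟨hwF, h⟩)
      exact hznN (hall (mem_N76.2 ⟨hzK, w, hwK, G.sym _ _ hwz⟩))
    have hwN : w ∈ G.N F := mem_N76.2 ⟨hwF, z, hzF, hwz⟩
    rw [mem_erase, mem_erase]
    refine ⟨?_, ?_, hwN⟩
    · rintro rfl
      rcases h1.hv z (G.sym _ _ hwz) with h | h | h | h
      · exact hzK h
      · exact hznC h
      · rw [hCN] at h
        exact hznN h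
      · exact hznN (hall h)
    · rintro rfl
      rcases h1.hu z (G.sym _ _ hwz) with h | h | h | h
      · exact hzK h
      · exact hznC h
      · rw [hCN] at h
        exact hznN h
      · exact hznN (hall h)
  have huN : u ∈ G.N F := by
    rw [← hCN]
    exact h1.uN
  have hvN : v ∈ G.N F := by
    rw [← hCN]
    exact h1.vN
  have hcard : (G.N A).card ≤ 4 := by
    refine (card_le_card hNA).trans ?_
    rw [card_erase_of_mem, card_erase_of_mem huN, hF.1.1.2.1]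
    exact mem_erase.2 ⟨Ne.symm h1.ne, hvN⟩
  have hCoA : (G.Co A).Nonempty := by
    have h2 : G.Co F ⊆ G.Co A := Co_anti33 sdiff_subset
    exact hF.1.1.2.2.mono h2
  have h6 := stN6_37 G A hAne hCoA
  omega

end C31

open C31

/-- a member with a costly double pair at `C` and pairs at two ordinary members -/
def Full31 (G : CG V) (F B B' K : Finset V) : Prop := ∃ q1 u1 v1 q2 u2 v2 q3 u3 v3,
  G.Pr K q1 u1 v1 ∧ G.Pr K q2 u2 v2 ∧ G.Pr K q3 u3 v3 ∧ G.N K = {u1, v1, u2, v2, u3, v3} ∧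
    G.AlQ K (G.Co F) u1 v1 ∧ G.Rch F u1 v1 ∧ G.AlQ K B u2 v2 ∧ G.AlQ K B' u3 v3

/-- the values of the pairs of ports of the members -/
structure Val31 (G : CG V) (F : Finset V) (Fa : Finset (Finset V)) (hx : V → ℤ) : Prop where
  /-- at the opposite side -/
  c1 : ∀ K ∈ G.k6S Fa, ∀ q u v, G.Pr K q u v → G.AlQ K (G.Co F) u v →
    -24 ≤ G.shS Fa F hx u + G.shS Fa F hx v
  c2 : ∀ K ∈ G.k6S Fa, ∀ q u v, G.Pr K q u v → G.AlQ K (G.Co F) u v → ¬ G.Rch F u v →
    -8 ≤ G.shS Fa F hx u + G.shS Fa F hx v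
  /-- at an ordinary member -/
  b : ∀ K ∈ G.k6S Fa, ∀ q u v, G.Pr K q u v → ∀ B ∈ G.ordS Fa, G.AlQ K B u v →
    8 ≤ G.shS Fa F hx u + G.shS Fa F hx v
  /-- all other pairs -/
  i : ∀ K ∈ G.k6S Fa, ∀ q u v, G.Pr K q u v → ¬ G.AlQ K (G.Co F) u v →
    (∀ B ∈ G.ordS Fa, ¬ G.AlQ K B u v) → 16 ≤ G.shS Fa F hx u + G.shS Fa F hx v ∧
      (G.ordS Fa = ∅ → (G.k6S Fa).card = 1 → ¬ (u ∈ G.N F ∧ v ∈ G.N F) →
        20 ≤ G.shS Fa F hx u + G.shS Fa F hx v)

theorem Pr.al_symm {K C : Finset V} {u v : V} (h : G.AlQ K C u v) : G.AlQ K C v u :=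
  ⟨h.vN, h.uN, h.vK, h.uK, h.ne.symm, by obtain ⟨q, a, b, c⟩ := h.q; exact ⟨q, a, c, b⟩, h.hv, h.hu⟩

/-- the count at one member -/
theorem one31 (hC : G.Crit) (h9 : 9 ≤ Fintype.card V) (hF : G.GoodK F) (T : G.Tor F Fa)
    {hx : V → ℤ} (hv : G.Val31 F Fa hx)
    (hal : ∀ K ∈ G.k6S Fa, ∀ u1 v1 u2 v2, G.AlQ K (G.Co F) u1 v1 → G.AlQ K (G.Co F) u2 v2 →
      ¬ (u1 ≠ u2 ∧ u1 ≠ v2 ∧ v1 ≠ u2 ∧ v1 ≠ v2))
    {K : Finset V} (hK : K ∈ G.k6S Fa) :
    (G.ordS Fa = ∅ → 8 ≤ ∑ w ∈ G.N K, G.shS Fa F hx w ∧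
      ((G.k6S Fa).card = 1 → 12 ≤ ∑ w ∈ G.N K, G.shS Fa F hx w)) ∧
      (0 ≤ ∑ w ∈ G.N K, G.shS Fa F hx w ∨
        (-8 ≤ ∑ w ∈ G.N K, G.shS Fa F hx w ∧ ∃ B ∈ G.ordS Fa, ∃ B' ∈ G.ordS Fa, B ≠ B' ∧
          G.Full31 F B B' K)) ∧
      ((¬ ∃ q u v, G.Pr K q u v ∧ G.AlQ K (G.Co F) u v) →
        24 ≤ ∑ w ∈ G.N K, G.shS Fa F hx w) := by
  classical
  have hK' := mem_k6S.1 hK
  have gK := T.good K hK'.1
  have hN6 : (G.N K).card = 6 := gK.1.1.1.2.1
  obtain ⟨q1, u1, v1, q2, u2, v2, q3, u3, v3, p1, p2, p3, hNK⟩ := six hC h9 hK'.2 hN6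
  have hc6 : 6 ≤ ({u1, v1, u2, v2, u3, v3} : Finset V).card := by rw [← hNK, hN6]
  have hsum := six_sum hc6 (G.shS Fa F hx)
  obtain ⟨n1, n2, n3, n4, n5⟩ := six_ne hc6
  simp only [mem_insert, mem_singleton, not_or] at n1 n2 n3 n4 n5
  rw [hNK, hsum]
  have d12 : u1 ≠ u2 ∧ u1 ≠ v2 ∧ v1 ≠ u2 ∧ v1 ≠ v2 := ⟨n1.2.1, n1.2.2.1, n2.1, n2.2.1⟩
  have d13 : u1 ≠ u3 ∧ u1 ≠ v3 ∧ v1 ≠ u3 ∧ v1 ≠ v3 := ⟨n1.2.2.2.1, n1.2.2.2.2, n2.2.2.1, n2.2.2.2⟩
  have d23 : u2 ≠ u3 ∧ u2 ≠ v3 ∧ v2 ≠ u3 ∧ v2 ≠ v3 := ⟨n3.2.1, n3.2.2, n4.1, n4.2⟩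
  have d21 : u2 ≠ u1 ∧ u2 ≠ v1 ∧ v2 ≠ u1 ∧ v2 ≠ v1 := ⟨d12.1.symm, d12.2.2.1.symm,
    d12.2.1.symm, d12.2.2.2.symm⟩
  have d31 : u3 ≠ u1 ∧ u3 ≠ v1 ∧ v3 ≠ u1 ∧ v3 ≠ v1 := ⟨d13.1.symm, d13.2.2.1.symm,
    d13.2.1.symm, d13.2.2.2.symm⟩
  have d32 : u3 ≠ u2 ∧ u3 ≠ v2 ∧ v3 ≠ u2 ∧ v3 ≠ v2 := ⟨d23.1.symm, d23.2.2.1.symm,
    d23.2.1.symm, d23.2.2.2.symm⟩
  -- the value of a pair which does not face the opposite side
  have low : ∀ q u v, G.Pr K q u v → ¬ G.AlQ K (G.Co F) u v →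
      8 ≤ G.shS Fa F hx u + G.shS Fa F hx v ∧
      ((∀ B ∈ G.ordS Fa, ¬ G.AlQ K B u v) → 16 ≤ G.shS Fa F hx u + G.shS Fa F hx v ∧
        (G.ordS Fa = ∅ → (G.k6S Fa).card = 1 → ¬ (u ∈ G.N F ∧ v ∈ G.N F) →
          20 ≤ G.shS Fa F hx u + G.shS Fa F hx v)) := by
    intro q u v p hn
    refine ⟨?_, fun h => hv.i K hK q u v p hn h⟩
    by_cases h : ∃ B ∈ G.ordS Fa, G.AlQ K B u v
    · obtain ⟨B, hB, h⟩ := h
      exact hv.b K hK q u v p B hB h
    · push Not at h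
      have := (hv.i K hK q u v p hn h).1
      omega
  -- one pair faces the opposite side
  have main : ∀ (q u v : V) (q' u' v' : V) (q'' u'' v'' : V), G.Pr K q u v → G.Pr K q' u' v' →
      G.Pr K q'' u'' v'' → G.N K = {u, v, u', v', u'', v''} →
      (u ≠ u' ∧ u ≠ v' ∧ v ≠ u' ∧ v ≠ v') → (u ≠ u'' ∧ u ≠ v'' ∧ v ≠ u'' ∧ v ≠ v'') →
      (u' ≠ u'' ∧ u' ≠ v'' ∧ v' ≠ u'' ∧ v' ≠ v'') → G.AlQ K (G.Co F) u v →
      (G.ordS Fa = ∅ → 8 ≤ (G.shS Fa F hx u + G.shS Fa F hx v) +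
        (G.shS Fa F hx u' + G.shS Fa F hx v') + (G.shS Fa F hx u'' + G.shS Fa F hx v'') ∧
        ((G.k6S Fa).card = 1 → 12 ≤ (G.shS Fa F hx u + G.shS Fa F hx v) +
        (G.shS Fa F hx u' + G.shS Fa F hx v') + (G.shS Fa F hx u'' + G.shS Fa F hx v''))) ∧
      (0 ≤ (G.shS Fa F hx u + G.shS Fa F hx v) +
        (G.shS Fa F hx u' + G.shS Fa F hx v') + (G.shS Fa F hx u'' + G.shS Fa F hx v'') ∨
      (-8 ≤ (G.shS Fa F hx u + G.shS Fa F hx v) +
        (G.shS Fa F hx u' + G.shS Fa F hx v') + (G.shS Fa F hx u'' + G.shS Fa F hx v'') ∧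
        ∃ B ∈ G.ordS Fa, ∃ B' ∈ G.ordS Fa, B ≠ B' ∧ G.Full31 F B B' K)) := by
    intro q u v q' u' v' q'' u'' v'' p p' p'' hN e1 e2 e3 ha
    have ha' : ¬ G.AlQ K (G.Co F) u' v' := fun h => hal K hK _ _ _ _ ha h e1
    have ha'' : ¬ G.AlQ K (G.Co F) u'' v'' := fun h => hal K hK _ _ _ _ ha h e2
    obtain ⟨l1, l2⟩ := low q' u' v' p' ha'
    obtain ⟨m1, m2⟩ := low q'' u'' v'' p'' ha''
    have hc := hv.c1 K hK q u v p ha
    constructor
    · intro h0
      have hno : ∀ x y, ∀ B ∈ G.ordS Fa, ¬ G.AlQ K B x y := by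
        intro x y B hB
        rw [h0] at hB
        exact absurd hB (notMem_empty _)
      obtain ⟨l3, l4⟩ := l2 (hno _ _)
      obtain ⟨m3, m4⟩ := m2 (hno _ _)
      refine ⟨by omega, fun hk1 => ?_⟩
      replace l4 := l4 h0 hk1
      replace m4 := m4 h0 hk1
      by_cases h3 : u' ∈ G.N F ∧ v' ∈ G.N F
      · have h4 : ¬ (u'' ∈ G.N F ∧ v'' ∈ G.N F) := by
          intro h4
          apply not_all hF T hK ha
          have hCN := (G.stCo_37 F hF.1.1).2.1
          have g1 := ha.uN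
          have g2 := ha.vN
          rw [hCN] at g1 g2
          rw [hN]
          intro x hx
          simp only [mem_insert, mem_singleton] at hx
          rcases hx with rfl | rfl | rfl | rfl | rfl | rfl
          · exact g1
          · exact g2
          · exact h3.1
          · exact h3.2
          · exact h4.1
          · exact h4.2
        have := m4 h4
        omega
      · have := l4 h3
        omega
    · by_cases hr : G.Rch F u v
      · by_cases hB1 : ∃ B ∈ G.ordS Fa, G.AlQ K B u' v'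
        · obtain ⟨B, hB, h1⟩ := hB1
          by_cases hB2 : ∃ B ∈ G.ordS Fa, G.AlQ K B u'' v''
          · obtain ⟨B', hB', h2⟩ := hB2
            right
            refine ⟨by omega, B, hB, B', hB', ?_, ?_⟩
            · rintro rfl
              exact al_ord hC h9 hF T hK hB h1 h2 e3
            · exact ⟨q, u, v, q', u', v', q'', u'', v'', p, p', p'', hN, ha, hr, h1, h2⟩
          · push Not at hB2
            have := (m2 hB2).1
            left
            omega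
        · push Not at hB1
          have := (l2 hB1).1
          left
          omega
      · have := hv.c2 K hK q u v p ha hr
        left
        omega
  by_cases a1 : G.AlQ K (G.Co F) u1 v1
  · have := main q1 u1 v1 q2 u2 v2 q3 u3 v3 p1 p2 p3 hNK d12 d13 d23 a1
    exact ⟨this.1, this.2, fun h => absurd ⟨q1, u1, v1, p1, a1⟩ h⟩
  · by_cases a2 : G.AlQ K (G.Co F) u2 v2
    · have hN' : G.N K = {u2, v2, u1, v1, u3, v3} := by
        rw [hNK]
        exact perm2 _ _ _ _ _ _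
      have := main q2 u2 v2 q1 u1 v1 q3 u3 v3 p2 p1 p3 hN' d21 d23 d13 a2
      rw [add_comm (G.shS Fa F hx u2 + G.shS Fa F hx v2) (G.shS Fa F hx u1 + G.shS Fa F hx v1)]
        at this
      exact ⟨this.1, this.2, fun h => absurd ⟨q2, u2, v2, p2, a2⟩ h⟩
    · by_cases a3 : G.AlQ K (G.Co F) u3 v3
      · have hN' : G.N K = {u3, v3, u1, v1, u2, v2} := by
          rw [hNK]
          exact perm3 _ _ _ _ _ _
        have := main q3 u3 v3 q1 u1 v1 q2 u2 v2 p3 p1 p2 hN' d31 d32 d12 a3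
        rw [show (G.shS Fa F hx u3 + G.shS Fa F hx v3) + (G.shS Fa F hx u1 + G.shS Fa F hx v1) +
          (G.shS Fa F hx u2 + G.shS Fa F hx v2) = (G.shS Fa F hx u1 + G.shS Fa F hx v1) +
          (G.shS Fa F hx u2 + G.shS Fa F hx v2) + (G.shS Fa F hx u3 + G.shS Fa F hx v3) by ring]
          at this
        exact ⟨this.1, this.2, fun h => absurd ⟨q3, u3, v3, p3, a3⟩ h⟩
      · have l1 := (low q1 u1 v1 p1 a1).1
        have l2 := (low q2 u2 v2 p2 a2).1
        have l3 := (low q3 u3 v3 p3 a3).1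
        exact ⟨fun _ => ⟨by omega, fun _ => by omega⟩, Or.inl (by omega), fun _ => by omega⟩

theorem Full31.symm {B B' K : Finset V} (h : G.Full31 F B B' K) : G.Full31 F B' B K := by
  obtain ⟨q1, u1, v1, q2, u2, v2, q3, u3, v3, p1, p2, p3, hN, a, r, b, c⟩ := h
  refine ⟨q1, u1, v1, q3, u3, v3, q2, u2, v2, p1, p3, p2, ?_, a, r, c, b⟩
  rw [hN]
  ext x
  simp only [mem_insert, mem_singleton]
  constructor <;> (rintro (h | h | h | h | h | h) <;> simp [h])

/-- at most three members have a pair of ports at the opposite side -/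
theorem three31 (hF : G.GoodK F) (T : G.Tor F Fa) (S : Finset (Finset V)) (hS : S ⊆ G.k6S Fa)
    (h : ∀ K ∈ S, ∃ q u v, G.Pr K q u v ∧ G.AlQ K (G.Co F) u v) : S.card ≤ 3 := by
  classical
  obtain ⟨hCf, hCN, hCC⟩ := G.stCo_37 F hF.1.1
  have h1 : ∀ K ∈ S, ∃ P : Finset V, P.card = 2 ∧ P ⊆ G.N F ∧ ∀ w ∈ P, w ∈ G.N K ∧
      ∀ z ∈ G.nb w, z ∈ K ∨ z ∈ G.Co F ∨ z ∈ G.N (G.Co F) ∨ z ∈ G.N K := by
    intro K hK
    obtain ⟨q, u, v, p, a⟩ := h K hK
    refine ⟨{u, v}, card_pair p.ne, ?_, ?_⟩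
    · intro x hx
      rw [mem_insert, mem_singleton] at hx
      rcases hx with rfl | rfl
      · rw [← hCN]
        exact a.uN
      · rw [← hCN]
        exact a.vN
    · intro x hx
      rw [mem_insert, mem_singleton] at hx
      rcases hx with rfl | rfl
      · exact ⟨mem_N76.2 ⟨p.uK, q, p.qK, by rw [p.nb]; exact mem_insert_self _ _⟩, a.hu⟩
      · exact ⟨mem_N76.2 ⟨p.vK, q, p.qK, by
          rw [p.nb]; exact mem_insert_of_mem (mem_insert_self _ _)⟩, a.hv⟩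
  choose! P hP2 hPN hPw using h1
  have h2 : ∀ K ∈ S, ∀ K' ∈ S, K ≠ K' → Disjoint (P K) (P K') := by
    intro K hK K' hK' hne
    rw [disjoint_left]
    intro w hw hw'
    have m1 := mem_k6S.1 (hS hK)
    have m2 := mem_k6S.1 (hS hK')
    obtain ⟨-, z, hz, hzw⟩ := mem_N76.1 (hPw K' hK' w hw').1
    have d := T.dis K m1.1 K' m2.1 hne
    have hzF : z ∈ F := (T.good K' m2.1).2.1 hz
    rcases (hPw K hK w hw).2 z (G.sym _ _ hzw) with h | h | h | h
    · exact disjoint_left.1 d.1 h hz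
    · exact (mem_Co76.1 h).1 hzF
    · rw [hCN] at h
      exact (mem_N76.1 h).1 hzF
    · exact disjoint_left.1 d.2 h hz
  have h3 : (S.biUnion P).card = ∑ K ∈ S, (P K).card := card_biUnion h2
  have h4 : S.biUnion P ⊆ G.N F := by
    intro x hx
    obtain ⟨K, hK, hxK⟩ := mem_biUnion.1 hx
    exact hPN K hK hxK
  have h5 := card_le_card h4
  rw [h3, sum_congr rfl hP2, sum_const, smul_eq_mul, hF.1.1.2.1] at h5
  omega

/-- row 2: the count in a torso with at least one `K6` member -/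
theorem count31 (hC : G.Crit) (h9 : 9 ≤ Fintype.card V) (hF : G.GoodK F) (T : G.Tor F Fa)
    {hx : V → ℤ} (hv : G.Val31 F Fa hx) (hne : (G.k6S Fa).Nonempty)
    (hsum : ∑ w ∈ G.ptS Fa, hx w ≤
      ∑ z ∈ R (insert (G.Co F) Fa) \ G.ptS Fa, G.valS Fa F z)
    (hid : ∑ z ∈ R (insert (G.Co F) Fa), G.valS Fa F z ≤
      2 * (G.WS F - ∑ B ∈ G.ordS Fa, G.WS B))
    (hIH : ∀ B ∈ G.ordS Fa, 4 ≤ G.WS B) (hev : Even (G.WS F))
    (hal : ∀ K ∈ G.k6S Fa, ∀ u1 v1 u2 v2, G.AlQ K (G.Co F) u1 v1 → G.AlQ K (G.Co F) u2 v2 →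
      ¬ (u1 ≠ u2 ∧ u1 ≠ v2 ∧ v1 ≠ u2 ∧ v1 ≠ v2))
    (hx2 : ∀ B B', B ≠ B' → G.ordS Fa = {B, B'} → ∀ K1 ∈ G.k6S Fa, ∀ K2 ∈ G.k6S Fa,
      ∀ K3 ∈ G.k6S Fa, K1 ≠ K2 → K1 ≠ K3 → K2 ≠ K3 → G.Full31 F B B' K1 → G.Full31 F B B' K2 →
      G.Full31 F B B' K3 → 4 ≤ G.WS F) : 4 ≤ G.WS F := by
  classical
  -- the double count
  have e1 := share_sum (G := G) (Fa := Fa) (F := F) hC h9
    (fun B hB B' hB' hne => (T.dis B hB B' hB' hne).1) hx
  have hpt : G.ptS Fa ⊆ R (insert (G.Co F) Fa) := by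
    intro w hw
    obtain ⟨K, hK, hwK⟩ := mem_biUnion.1 hw
    exact N_sub_R76 T.reg (mem_insert_of_mem (mem_k6S.1 hK).1) hwK
  have e2 := sum_sdiff hpt (f := fun z => G.valS Fa F z)
  have e3 : 4 * ((G.ordS Fa).card : ℤ) ≤ ∑ B ∈ G.ordS Fa, G.WS B := by
    have := sum_le_sum hIH
    rw [sum_const, nsmul_eq_mul] at this
    linarith
  rw [sum_add_distrib] at e1
  have e4 : ∑ K ∈ G.k6S Fa, ∑ w ∈ G.N K, G.shS Fa F hx w ≤
      4 * G.WS F - 16 * ((G.ordS Fa).card : ℤ) := by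
    linarith
  clear e1 e2 e3 hid hsum
  have hone := fun K (hK : K ∈ G.k6S Fa) => one31 hC h9 hF T hv hal hK
  -- no ordinary member
  by_cases hb0 : G.ordS Fa = ∅
  · have e5 : 8 * ((G.k6S Fa).card : ℤ) ≤ ∑ K ∈ G.k6S Fa, ∑ w ∈ G.N K, G.shS Fa F hx w := by
      have := sum_le_sum fun K (hK : K ∈ G.k6S Fa) => ((hone K hK).1 hb0).1
      rw [sum_const, nsmul_eq_mul] at this
      linarith
    rw [hb0, card_empty] at e4
    push_cast at e4
    obtain ⟨r, hr⟩ := hev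
    by_cases h1 : (G.k6S Fa).card = 1
    · have e7 : 12 * ((G.k6S Fa).card : ℤ) ≤
          ∑ K ∈ G.k6S Fa, ∑ w ∈ G.N K, G.shS Fa F hx w := by
        have := sum_le_sum fun K (hK : K ∈ G.k6S Fa) => ((hone K hK).1 hb0).2 h1
        rw [sum_const, nsmul_eq_mul] at this
        linarith
      rw [h1] at e7
      push_cast at e7
      omega
    · have h2 : 2 ≤ (G.k6S Fa).card := by
        have := hne.card_pos
        omega
      have h3 : (2 : ℤ) ≤ ((G.k6S Fa).card : ℤ) := by exact_mod_cast h2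
      omega
  -- the members with a negative value
  set S := (G.k6S Fa).filter fun K => ∑ w ∈ G.N K, G.shS Fa F hx w < 0 with hSdef
  have hSf : ∀ K ∈ S, -8 ≤ ∑ w ∈ G.N K, G.shS Fa F hx w ∧ ∃ B ∈ G.ordS Fa, ∃ B' ∈ G.ordS Fa,
      B ≠ B' ∧ G.Full31 F B B' K := by
    intro K hK
    obtain ⟨h1, h2⟩ := mem_filter.1 hK
    rcases (hone K h1).2.1 with h3 | h3
    · omega
    · exact h3
  have e5 : -8 * (S.card : ℤ) ≤ ∑ K ∈ G.k6S Fa, ∑ w ∈ G.N K, G.shS Fa F hx w := by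
    have h1 : ∀ K ∈ G.k6S Fa, (if ∑ w ∈ G.N K, G.shS Fa F hx w < 0 then (-8 : ℤ) else 0) ≤
        ∑ w ∈ G.N K, G.shS Fa F hx w := by
      intro K hK
      split_ifs with h
      · exact (hSf K (mem_filter.2 ⟨hK, h⟩)).1
      · omega
    have h2 := sum_le_sum h1
    rw [← sum_filter, sum_const, nsmul_eq_mul] at h2
    linarith
  have e6 : S.card ≤ 3 := by
    apply three31 hF T S (filter_subset _ _)
    intro K hK
    obtain ⟨-, B, -, B', -, -, q1, u1, v1, -, -, -, -, -, -, p1, -, -, -, a, -⟩ := hSf K hK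
    exact ⟨q1, u1, v1, p1, a⟩
  have e7 : (S.card : ℤ) ≤ 3 := by exact_mod_cast e6
  have e8 : 1 ≤ (G.ordS Fa).card := by
    rw [Nat.one_le_iff_ne_zero]
    intro h
    exact hb0 (card_eq_zero.1 h)
  have e8' : (1 : ℤ) ≤ ((G.ordS Fa).card : ℤ) := by exact_mod_cast e8
  rcases S.eq_empty_or_nonempty with hS0 | ⟨K0, hK0⟩
  · rw [hS0, card_empty] at e5
    push_cast at e5
    omega
  · obtain ⟨-, B, hB, B', hB', hBB, hfull⟩ := hSf K0 hK0
    have h2 : 2 ≤ (G.ordS Fa).card := by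
      rw [← card_pair hBB]
      apply card_le_card
      intro x hx
      rw [mem_insert, mem_singleton] at hx
      rcases hx with rfl | rfl
      · exact hB
      · exact hB'
    by_cases h3 : 3 ≤ (G.ordS Fa).card
    · have h3' : (3 : ℤ) ≤ ((G.ordS Fa).card : ℤ) := by exact_mod_cast h3
      omega
    · have h4 : (G.ordS Fa).card = 2 := by omega
      by_cases h5 : S.card ≤ 2
      · have h5' : (S.card : ℤ) ≤ 2 := by exact_mod_cast h5
        rw [h4] at e4
        push_cast at e4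
        omega
      · have h6 : S.card = 3 := by omega
        obtain ⟨K1, K2, K3, h12, h13, h23, hS3⟩ := card_eq_three.1 h6
        have hord : G.ordS Fa = {B, B'} := by
          symm
          apply eq_of_subset_of_card_le
          · intro x hx
            rw [mem_insert, mem_singleton] at hx
            rcases hx with rfl | rfl
            · exact hB
            · exact hB'
          · rw [h4, card_pair hBB]
        have key : ∀ K ∈ S, G.Full31 F B B' K := by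
          intro K hK
          obtain ⟨-, A, hA, A', hA', hAA, hf⟩ := hSf K hK
          rw [hord, mem_insert, mem_singleton] at hA hA'
          rcases hA with rfl | rfl
          · rcases hA' with rfl | rfl
            · exact absurd rfl hAA
            · exact hf
          · rcases hA' with rfl | rfl
            · exact hf.symm
            · exact absurd rfl hAA
        have m1 : K1 ∈ S := by rw [hS3]; simp
        have m2 : K2 ∈ S := by rw [hS3]; simp
        have m3 : K3 ∈ S := by rw [hS3]; simp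
        exact hx2 B B' hBB hord K1 (mem_filter.1 m1).1 K2 (mem_filter.1 m2).1 K3
          (mem_filter.1 m3).1 h12 h13 h23 (key K1 m1) (key K2 m2) (key K3 m3)

end CG

end Pool.Agent.Lib.MP_e95c01_co.N
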