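import Pool.Agent.Lib.MP_e95c01_co.Y.WS33
import Pool.Agent.Lib.MP_e95c01_co.Y.Par11

/-!
# `WS` is even
-/

set_option autoImplicit false

namespace Pool.Agent.Lib.MP_e95c01_co.N

open Finset

variable {V : Type} [Fintype V] [DecidableEq V]

namespace CG

variable {G : CG V}

theorem thS_even33 (F : Finset V) (w : V) : Even (G.thS F w) := by
  have h : Even (G.theta F w) := by
    rw [theta]
    split_ifs <;> decide
  unfold thS
  split_ifs
  · exact ⟨0, rfl⟩
  · exact h

/-- `WS F` is even -/
theorem WS_even33 (h9 : 9 ≤ Fintype.card V) {F : Finset V} (hF : G.Frag F) :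
    Even (G.WS F) := by
  rw [WS]
  refine Even.add ?_ ?_
  · exact (P5_even11 h9 hF).mul_left 3
  · exact even_sum _ fun w _ => thS_even33 F w

end CG

end Pool.Agent.Lib.MP_e95c01_co.N
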