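import Pool.Agent.Lib.MP_e95c01_co.X.Ident50

/-!
# The functional `WT` with the weights `theta`, its identity, and the gains of the lows

`WT F = 3 P5 F + Σ theta F w` over all lows `w`.
-/

namespace Pool.Agent.Lib.MP_e95c01_co.N

open Finset

variable {V : Type} [Fintype V] [DecidableEq V]

namespace CG

variable {G : CG V} {Fa : Finset (Finset V)}

/-- weight of a low vertex `w`, seen from `F` -/
def theta (G : CG V) (F : Finset V) (w : V) : ℤ :=
  if w ∈ F then 4 else if w ∈ G.N F then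
    (if G.d w F ≤ 1 then 0 else if G.d w (G.Co F) ≤ 1 then 4 else 2) else 0

/-- the functional `WT` -/
noncomputable def WT (G : CG V) (F : Finset V) : ℤ :=
  3 * G.P5 F + ∑ w ∈ univ.filter (fun w => G.Low w), G.theta F w

/-- the gain of a low vertex in a torso: `Fa` inside `F` -/
def gain6 (G : CG V) (Fa : Finset (Finset V)) (F : Finset V) (w : V) : ℤ :=
  G.theta F w - ∑ B ∈ Fa, G.theta B w

theorem theta_nonneg6 (F : Finset V) (w : V) : 0 ≤ G.theta F w := by
  rw [theta]; split_ifs <;> norm_num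

theorem theta_le6 (F : Finset V) (w : V) : G.theta F w ≤ 4 := by
  rw [theta]; split_ifs <;> norm_num

theorem theta_in6 {F : Finset V} {w : V} (h : w ∈ F) : G.theta F w = 4 := by
  rw [theta, if_pos h]

theorem theta_out6 {F : Finset V} {w : V} (h : w ∉ F) (h' : w ∉ G.N F) : G.theta F w = 0 := by
  rw [theta, if_neg h, if_neg h']

theorem theta_N6 {F : Finset V} {w : V} (h : w ∈ G.N F) : G.theta F w =
    if G.d w F ≤ 1 then 0 else if G.d w (G.Co F) ≤ 1 then 4 else 2 := by
  rw [theta, if_neg (mem_N76.1 h).1, if_pos h]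

theorem d_mono6 (w : V) {A B : Finset V} (h : A ⊆ B) : G.d w A ≤ G.d w B :=
  card_le_card (inter_subset_inter_left h)

/-- the two sides of a fragment -/
theorem theta_add6 {F : Finset V} (hF : G.Frag F) (w : V) :
    G.theta F w + G.theta (G.Co F) w ≤ 4 := by
  obtain ⟨-, h2, h3⟩ := G.stCo_37 F hF
  by_cases a : w ∈ F
  · rw [theta_in6 a, theta_out6 (fun h => (mem_Co76.1 h).1 a)
      (by rw [h2]; exact fun h => (mem_N76.1 h).1 a)]
    norm_num
  by_cases b : w ∈ G.N F
  · rw [theta_N6 b, theta_N6 (h2.symm ▸ b : w ∈ G.N (G.Co F)), h3]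
    split_ifs <;> norm_num
  · rw [theta_out6 a b]
    have := theta_le6 (G := G) (G.Co F) w
    linarith

/-- the end: the sum over the two sides of a fragment -/
theorem WT_add_Co6 {F : Finset V} (hF : G.Frag F) :
    G.WT F + G.WT (G.Co F) ≤ 40 * (G.l univ : ℤ) - 12 * (Fintype.card V : ℤ) := by
  have h1 := G.stPs5_50 F hF
  rw [G.stTot5_50] at h1
  have h2 : ∑ w ∈ univ.filter (fun w => G.Low w), G.theta F w +
      ∑ w ∈ univ.filter (fun w => G.Low w), G.theta (G.Co F) w ≤ 4 * (G.l univ : ℤ) := by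
    rw [← sum_add_distrib]
    refine (sum_le_sum fun w _ => theta_add6 hF w).trans ?_
    rw [sum_const, nsmul_eq_mul, l]
    linarith
  rw [WT, WT]
  linarith

/-- members inside `F` -/
theorem sub_of_reg6 {F : Finset V} (hF : G.Frag F) (h : G.Reg (insert (G.Co F) Fa))
    (hn : G.Co F ∉ Fa) {B : Finset V} (hB : B ∈ Fa) : B ⊆ F := by
  obtain ⟨-, h2, h3⟩ := G.stCo_37 F hF
  have hne : G.Co F ≠ B := fun h => hn (h ▸ hB)
  obtain ⟨a, b⟩ := h.dis _ (mem_insert_self _ _) _ (mem_insert_of_mem hB) hne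
  intro v hv
  by_contra hvF
  have h4 : v ∉ G.N F := fun h5 => disjoint_left.1 b (h2.symm ▸ h5) hv
  exact disjoint_left.1 a (mem_Co76.2 ⟨hvF, h4⟩) hv

/-- the identity of a torso -/
theorem WT_inner6 {F : Finset V} (hF : G.Frag F) (h : G.Reg (insert (G.Co F) Fa))
    (hn : G.Co F ∉ Fa) :
    G.WT F = ∑ B ∈ Fa, G.WT B + 3 * ∑ z ∈ R (insert (G.Co F) Fa), G.bal5 (insert (G.Co F) Fa) z +
      ∑ z ∈ (R (insert (G.Co F) Fa)).filter (fun z => G.Low z), G.gain6 Fa F z := by
  obtain ⟨-, h2, h3⟩ := G.stCo_37 F hF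
  have h1 := G.stId5_50 _ h
  rw [sum_insert hn] at h1
  have h4 := G.stPs5_50 F hF
  have h5 : ∑ B ∈ Fa, G.WT B = 3 * ∑ B ∈ Fa, G.P5 B +
      ∑ w ∈ univ.filter (fun w => G.Low w), ∑ B ∈ Fa, G.theta B w := by
    rw [sum_comm, mul_sum, ← sum_add_distrib]
    rfl
  have h6 : ∑ w ∈ univ.filter (fun w => G.Low w), G.gain6 Fa F w =
      ∑ z ∈ (R (insert (G.Co F) Fa)).filter (fun z => G.Low z), G.gain6 Fa F z := by
    symm
    apply sum_subset (filter_subset_filter _ (subset_univ _))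
    intro w hw hw'
    have hl : G.Low w := (mem_filter.1 hw).2
    have hR : w ∉ R (insert (G.Co F) Fa) := fun h => hw' (mem_filter.2 ⟨h, hl⟩)
    rw [mem_R76] at hR
    push Not at hR
    obtain ⟨B0, hB0, hwB⟩ := hR
    rw [gain6]
    rcases mem_insert.1 hB0 with rfl | hB0'
    · have c1 := mem_Co76.1 hwB
      rw [theta_out6 c1.1 c1.2, sum_eq_zero, sub_zero]
      intro B hB
      have hne : B ≠ G.Co F := fun h => hn (h ▸ hB)
      obtain ⟨a, b⟩ := h.dis B (mem_insert_of_mem hB) _ hB0 hne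
      exact theta_out6 (fun h => disjoint_left.1 a h hwB) (fun h => disjoint_left.1 b h hwB)
    · rw [theta_in6 (sub_of_reg6 hF h hn hB0' hwB), sum_eq_single_of_mem B0 hB0', theta_in6 hwB,
        sub_self]
      intro B hB hne
      obtain ⟨a, b⟩ := h.dis B (mem_insert_of_mem hB) _ hB0 hne
      exact theta_out6 (fun h => disjoint_left.1 a h hwB) (fun h => disjoint_left.1 b h hwB)
  have h7 : ∑ w ∈ univ.filter (fun w => G.Low w), G.gain6 Fa F w =
      ∑ w ∈ univ.filter (fun w => G.Low w), G.theta F w -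
      ∑ w ∈ univ.filter (fun w => G.Low w), ∑ B ∈ Fa, G.theta B w := by
    rw [← sum_sub_distrib]
    rfl
  rw [h5, ← h6, h7, WT]
  linarith

/-! ### the gains -/

theorem d_pos6 {z : V} {B : Finset V} (h : z ∈ G.N B) : 1 ≤ G.d z B := by
  obtain ⟨-, u, hu, hv⟩ := mem_N76.1 h
  rw [Nat.one_le_iff_ne_zero, d, Ne, card_eq_zero, ← Ne, ← nonempty_iff_ne_empty]
  exact ⟨u, mem_inter.2 ⟨G.sym _ _ hv, hu⟩⟩

/-- at most three members see two neighbours of a low vertex -/
theorem three6 (h : G.Reg Fa) {z : V} (hz : z ∈ R Fa) (hl : G.Low z) {A : Finset (Finset V)}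
    (hA : A ⊆ G.I Fa z) (h2 : ∀ B ∈ A, 2 ≤ G.d z B) :
    A.card ≤ 3 ∧ (A.card = 3 → G.nR Fa z = ∅ ∧ (G.I Fa z).card = 3 ∧
      ∀ B ∈ G.I Fa z, G.d z B = 2) := by
  have h1 := nb_split76 h hz
  have hl' : (G.nb z).card = 6 := hl
  rw [hl'] at h1
  have h3 : ∑ B ∈ A, (G.d z B : ℤ) ≤ ∑ B ∈ G.I Fa z, (G.d z B : ℤ) :=
    sum_le_sum_of_subset_of_nonneg hA fun _ _ _ => by positivity
  have h4 : (A.card : ℤ) * 2 ≤ ∑ B ∈ A, (G.d z B : ℤ) := by
    rw [← nsmul_eq_mul]
    exact card_nsmul_le_sum _ _ _ fun B hB => by exact_mod_cast h2 B hB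
  have h5 : (0 : ℤ) ≤ ((G.nR Fa z).card : ℤ) := by positivity
  push_cast at h1
  refine ⟨by omega, fun hc => ?_⟩
  have h6 : A = G.I Fa z := by
    by_contra hne
    obtain ⟨B, hB, hBA⟩ := exists_of_ssubset (hA.ssubset_of_ne hne)
    have h7 : ∑ B ∈ insert B A, (G.d z B : ℤ) ≤ ∑ B ∈ G.I Fa z, (G.d z B : ℤ) :=
      sum_le_sum_of_subset_of_nonneg (insert_subset hB hA) fun _ _ _ => by positivity
    rw [sum_insert hBA] at h7
    have h8 := d_pos6 (mem_I76.1 hB).2
    omega
  rw [← h6]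
  rw [← h6] at h1
  refine ⟨card_eq_zero.1 (by omega), hc, fun B hB => ?_⟩
  have h9 : ∑ C ∈ A, ((G.d z C : ℤ) - 2) = 0 := by
    rw [sum_sub_distrib, sum_const, nsmul_eq_mul, hc]
    rw [hc] at h4
    push_cast at h4 ⊢
    linarith
  have h10 := (sum_eq_zero_iff_of_nonneg (fun C hC => by
    have := h2 C hC
    omega)).1 h9 B hB
  omega

/-- the gain of a low vertex is nonnegative, except for the type `(2, 2, 2)` -/
theorem gain_nonneg6 {F : Finset V} (hF : G.Frag F) (h : G.Reg (insert (G.Co F) Fa))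
    (hn : G.Co F ∉ Fa) {z : V} (hz : z ∈ R (insert (G.Co F) Fa)) (hl : G.Low z) :
    0 ≤ G.gain6 Fa F z ∨ (G.gain6 Fa F z = -2 ∧ G.nR (insert (G.Co F) Fa) z = ∅ ∧
      (G.I (insert (G.Co F) Fa) z).card = 3 ∧
      ∀ B ∈ G.I (insert (G.Co F) Fa) z, G.d z B = 2) := by
  classical
  obtain ⟨-, c2, c3⟩ := G.stCo_37 F hF
  set Fb := insert (G.Co F) Fa with hFb
  set A := Fa.filter fun B => z ∈ G.N B ∧ 2 ≤ G.d z B with hA
  have hAI : A ⊆ G.I Fb z := by
    intro B hB
    rw [hA, mem_filter] at hB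
    exact mem_I76.2 ⟨mem_insert_of_mem hB.1, hB.2.1⟩
  have hA2 : ∀ B ∈ A, 2 ≤ G.d z B := fun B hB => (mem_filter.1 hB).2.2
  have hCz : z ∉ G.Co F := mem_R76.1 hz _ (mem_insert_self _ _)
  have hzB : ∀ B ∈ Fa, z ∉ B := fun B hB => mem_R76.1 hz _ (mem_insert_of_mem hB)
  have hsum : ∑ B ∈ Fa, G.theta B z =
      ∑ B ∈ A, (if G.d z (G.Co B) ≤ 1 then (4 : ℤ) else 2) := by
    rw [hA, sum_filter]
    refine sum_congr rfl fun B hB => ?_
    by_cases a : z ∈ G.N B
    · rw [theta_N6 a]
      by_cases b : G.d z B ≤ 1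
      · rw [if_pos b, if_neg (fun h => by omega)]
      · have c : z ∈ G.N B ∧ 2 ≤ G.d z B := ⟨a, by omega⟩
        rw [if_neg b]
        simp only [c, and_self, if_true]
    · have c : ¬ (z ∈ G.N B ∧ 2 ≤ G.d z B) := fun h => a h.1
      rw [theta_out6 (hzB B hB) a, if_neg c]
  -- a member is in the opposite side of the other members
  have hopp : ∀ B ∈ Fb, ∀ B' ∈ Fb, B ≠ B' → B' ⊆ G.Co B := by
    intro B hB B' hB' hne v hv
    obtain ⟨a, b⟩ := h.dis B hB B' hB' hne
    exact mem_Co76.2 ⟨fun h => disjoint_left.1 a h hv, fun h => disjoint_left.1 b h hv⟩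
  have hFF : z ∈ F ∨ z ∈ G.N F := by
    by_contra hcon
    push Not at hcon
    exact hCz (mem_Co76.2 hcon)
  have h3 := three6 h hz hl hAI hA2
  by_cases hc : ∃ B0 ∈ A, G.d z (G.Co B0) ≤ 1
  · obtain ⟨B0, hB0, hd⟩ := hc
    have hB0F : B0 ∈ Fa := (mem_filter.1 hB0).1
    have hA1 : A = {B0} := by
      apply Subset.antisymm _ (singleton_subset_iff.2 hB0)
      intro B hB
      rw [mem_singleton]
      by_contra hne
      have h4 := d_mono6 (G := G) z (hopp B0 (mem_insert_of_mem hB0F) B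
        (mem_insert_of_mem (mem_filter.1 hB).1) (Ne.symm hne))
      have h5 := hA2 B hB
      omega
    left
    rw [gain6, hsum, hA1, sum_singleton, if_pos hd]
    rcases hFF with hzF | hzN
    · rw [theta_in6 hzF]
      norm_num
    · have h4 := d_mono6 (G := G) z (hopp B0 (mem_insert_of_mem hB0F) _ (mem_insert_self _ _)
        (fun h => hn (h ▸ hB0F)))
      have h5 := d_mono6 (G := G) z (sub_of_reg6 hF h hn hB0F)
      have h6 := hA2 B0 hB0
      rw [theta_N6 hzN, if_neg (by omega), if_pos (by omega)]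
      norm_num
  · push Not at hc
    have hs2 : ∑ B ∈ Fa, G.theta B z = 2 * (A.card : ℤ) := by
      rw [hsum, sum_congr rfl (g := fun _ => (2 : ℤ)), sum_const, nsmul_eq_mul, mul_comm]
      intro B hB
      rw [if_neg (by have := hc B hB; omega)]
    rw [gain6, hs2]
    rcases hFF with hzF | hzN
    · rw [theta_in6 hzF]
      by_cases hA3 : A.card = 3
      · right
        refine ⟨by rw [hA3]; norm_num, h3.2 hA3⟩
      · left
        have := h3.1
        omega
    · -- the outer member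
      have hCA : G.Co F ∉ A := fun h => hn (mem_filter.1 h).1
      have hCI : G.Co F ∈ G.I Fb z := mem_I76.2 ⟨mem_insert_self _ _, by rw [c2]; exact hzN⟩
      have hdC := d_pos6 (G := G) (z := z) (B := G.Co F) (by rw [c2]; exact hzN)
      have h1 := nb_split76 h hz
      have hl' : (G.nb z).card = 6 := hl
      rw [hl'] at h1
      push_cast at h1
      have h4 : ∑ B ∈ insert (G.Co F) A, (G.d z B : ℤ) ≤ ∑ B ∈ G.I Fb z, (G.d z B : ℤ) :=
        sum_le_sum_of_subset_of_nonneg (insert_subset hCI hAI) fun _ _ _ => by positivity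
      rw [sum_insert hCA] at h4
      have h5 : (A.card : ℤ) * 2 ≤ ∑ B ∈ A, (G.d z B : ℤ) := by
        rw [← nsmul_eq_mul]
        exact card_nsmul_le_sum _ _ _ fun B hB => by exact_mod_cast hA2 B hB
      have h6 : (0 : ℤ) ≤ ((G.nR Fb z).card : ℤ) := by positivity
      rw [theta_N6 hzN]
      by_cases e1 : G.d z F ≤ 1
      · have : A = ∅ := by
          rw [eq_empty_iff_forall_notMem]
          intro B hB
          have h7 := d_mono6 (G := G) z (sub_of_reg6 hF h hn (mem_filter.1 hB).1)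
          have h8 := hA2 B hB
          omega
        rw [this, if_pos e1]
        left
        simp
      · rw [if_neg e1]
        by_cases e2 : G.d z (G.Co F) ≤ 1
        · rw [if_pos e2]
          left
          omega
        · rw [if_neg e2]
          by_cases hA3 : A.card = 2
          · right
            have h9 := three6 h hz hl (insert_subset hCI hAI) (by
              intro B hB
              rcases mem_insert.1 hB with rfl | hB
              · omega
              · exact hA2 B hB)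
            have h10 : (insert (G.Co F) A).card = 3 := by
              rw [card_insert_of_notMem hCA, hA3]
            exact ⟨by rw [hA3]; norm_num, h9.2 h10⟩
          · left
            omega

end CG

end Pool.Agent.Lib.MP_e95c01_co.N
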