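import Pool.Agent.Lib.MP_e95c01_co.X.AuxT76
import Pool.Agent.Lib.MP_e95c01_co.Y.WT6

/-!
# Final charges of a thick torso
-/

namespace Pool.Agent.Lib.MP_e95c01_co.N

open Finset

variable {V : Type} [Fintype V] [DecidableEq V]

namespace CG

variable {G : CG V} {Fa : Finset (Finset V)}

/-- the final charge of `z` (halves of the unit of `bal5`) -/
noncomputable def fc (G : CG V) (Fa : Finset (Finset V)) (z : V) : ℤ :=
  2 * G.ch5 Fa z + ∑ x ∈ R Fa, G.dn5 Fa x z - ∑ x ∈ R Fa, G.dn5 Fa z x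

/-- the sum of the final charges -/
theorem sum_fc6 : ∑ z ∈ R Fa, G.fc Fa z = 2 * ∑ z ∈ R Fa, G.bal5 Fa z := by
  rw [← (stCh5_28 G).sum Fa]
  have h1 : ∑ z ∈ R Fa, G.fc Fa z = ∑ z ∈ R Fa, (2 * G.ch5 Fa z + ∑ x ∈ R Fa, G.dn5 Fa x z -
      ∑ x ∈ R Fa, G.dn5 Fa z x) := rfl
  rw [h1, sum_sub_distrib, sum_add_distrib, sum_comm (f := fun z x => G.dn5 Fa x z), mul_sum]
  ring

/-- the final charges are nonnegative up to the budget of the `K6`'s -/
theorem fc_ge6 (h5 : G.StM5) (h6 : G.StM6) (hk : G.StK3) (c6 : G.StC6) (c7 : G.StC7)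
    (c8 : G.StC8) (hG : G.Gen6 Fa) {z : V} (hz : z ∈ R Fa) : open Classical in
    -(if G.InK6 Fa z then 2 else 0 : ℤ) ≤ G.fc Fa z := by
  classical
  have h9 := hG.g5.n9
  have e3 : (0 : ℤ) ≤ if G.InK6 Fa z then 2 else 0 := by split_ifs <;> norm_num
  rw [fc]
  rcases trich76 (G := G) z with hl | hl | hl
  · suffices 0 ≤ 2 * G.ch5 Fa z + ∑ x ∈ R Fa, G.dn5 Fa x z - ∑ x ∈ R Fa, G.dn5 Fa z x by omega
    have e1 := c6 Fa hG z hz hl
    have e2 : 0 ≤ ∑ x ∈ R Fa, G.dn5 Fa x z := sum_nonneg fun x _ => dn5_nonneg76 hG x z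
    by_cases h1 : 0 ≤ G.ch5 Fa z
    · rw [max_eq_right (by omega)] at e1
      omega
    · rw [max_eq_left (by omega)] at e1
      suffices h : 0 ≤ 2 * G.ch5 Fa z + ∑ x ∈ R Fa, G.dn5 Fa x z by omega
      by_cases h0 : (G.I Fa z).card = 0
      · exact h5 Fa hG z ⟨hz, hl, card_eq_zero.1 h0⟩ (by omega)
      by_cases h1' : (G.I Fa z).card = 1
      · obtain ⟨B, hB⟩ := card_eq_one.1 h1'
        exact h6 Fa hG B z ⟨hz, hl, hB⟩ (by omega)
      · have h2 : 2 ≤ (G.I Fa z).card := by omega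
        obtain ⟨B, hB, v, hs, hv, -⟩ := hk.low Fa hG z hz hl h2 (by omega)
        have h3 : G.DL Fa z v := DL.k2 h2 hB hs (by omega)
        have h4 : -2 * G.ch5 Fa z ≤ G.dn5 Fa v z := by
          rw [dn5_low76 h9 hs.2.2.1, if_pos h3]
          have : (0 : ℤ) ≤ if G.AL Fa z v then 2 else 0 := by split_ifs <;> norm_num
          omega
        have h7 := single_le_sum (f := fun x => G.dn5 Fa x z)
          (fun x _ => dn5_nonneg76 hG x z) hv
        omega
  · have e1 := c7 Fa hG z hz hl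
    omega
  · have e1 := c8 Fa hG z hz hl
    have e2 : 0 ≤ ∑ x ∈ R Fa, G.dn5 Fa x z := sum_nonneg fun x _ => dn5_nonneg76 hG x z
    omega

/-- a low donor has a neighbour in `R` -/
theorem DL.nR6 (hG : G.Gen6 Fa) {z x : V} (h : G.DL Fa z x) :
    (G.nR Fa x).Nonempty := by
  have key : ∀ y ∈ R Fa, y ∈ G.nb x → (G.nR Fa x).Nonempty := fun y h1 h2 =>
    ⟨y, mem_inter.2 ⟨h2, h1⟩⟩
  have hT : ∀ {B : Finset V} {y : V}, B ∈ Fa → y ∈ G.N B → y ∈ R Fa := fun hB hy =>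
    N_sub_R76 hG.g5.reg hB hy
  cases h with
  | gam h1 => exact key z h1.lR (G.sym _ _ (mem_inter.1 h1.dT).1)
  | the h1 =>
    have h2 := (mem_inter.1 h1.aT).2
    have hB : _ ∈ G.I Fa z := h1.I1 ▸ mem_singleton_self _
    exact key _ (hT (mem_I76.1 hB).1 h2) (G.sym _ _ (h1.hl.2.2.1))
  | eps h1 => exact key z h1.lR (G.sym _ _ (mem_inter.1 h1.dT).1)
  | eta h1 =>
    have h2 := (mem_inter.1 h1.aT).2
    have hB : _ ∈ G.I Fa z := h1.I1 ▸ mem_singleton_self _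
    exact key _ (hT (mem_I76.1 hB).1 h2) (G.sym _ _ (h1.hl.2.2.1))
  | s0 h1 =>
    have h2 := h1.s0.2.2.2.1
    refine key z h1.lR (G.sym _ _ ?_)
    have h3 : x ∈ G.pT _ z := h2 ▸ mem_singleton_self _
    exact (mem_inter.1 h3).1
  | t3 h1 => exact key z h1.lR (G.sym _ _ (by rw [h1.nb]; simp))
  | t6 h1 => exact key z h1.lR (G.sym _ _ (by rw [h1.nb]; simp))
  | k2 h1 h2 h3 h4 =>
    have h5 : x ∈ G.pT _ z := h3.2.2.2.1 ▸ mem_singleton_self _
    have h6 : z ∈ R Fa := hT (mem_I76.1 h2).1 h3.1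
    exact key z h6 (G.sym _ _ (mem_inter.1 h5).1)

/-- a low vertex without neighbours in `R` gives nothing -/
theorem ask_zero6 (hG : G.Gen6 Fa) {w : V} (hl : G.Low w)
    (hn : G.nR Fa w = ∅) : ∑ x ∈ R Fa, G.dn5 Fa w x = 0 := by
  classical
  refine sum_eq_zero fun x hx => ?_
  rw [dn5_low76 hG.g5.n9 hl, if_neg, if_neg, add_zero]
  · rintro ⟨B, p, e, f, h, h1⟩
    have h2 : x ∈ G.nR Fa w := mem_inter.2 ⟨G.sym _ _ (by
      have h3 : w ∈ G.pT B x := h1.nT ▸ (by simp)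
      exact (mem_inter.1 h3).1), h1.qR⟩
    rw [hn] at h2
    exact absurd h2 (notMem_empty _)
  · intro h1
    have := h1.nR6 hG
    rw [hn] at this
    exact not_nonempty_empty this

theorem flv_zero6 {S : Finset V} {z : V} (hT : G.pT S z = ∅) :
    G.flv S z = 0 := by
  classical
  have h1 : ∀ v, ¬ G.S0 S z v := fun v h => by
    have := h.2.2.2.1
    rw [hT] at this
    exact absurd this.symm (singleton_ne_empty v)
  have h2 : ¬ G.U3 S z := by
    rintro ⟨-, -, -, v, w, -, h⟩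
    rw [hT] at h
    exact absurd h.symm (insert_ne_empty _ _)
  have h3 : ¬ G.T3 S z := by
    rintro ⟨-, -, -, Q, Q', r, r', h, -, -, -, h5, -⟩
    rw [hT] at h5
    exact absurd h5.symm (insert_ne_empty _ _)
  have h4 : ¬ G.HF S z := by
    rintro ⟨-, -, -, a, b, -, -, -, h5⟩
    rw [hT] at h5
    exact absurd h5.symm (singleton_ne_empty _)
  have h5 : ¬ G.RF S z := by
    rintro ⟨-, p, m, m', -, -, h5, -⟩
    rw [hT] at h5
    exact absurd h5.symm (singleton_ne_empty _)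
  rw [flv, s5, if_neg (fun ⟨v, h⟩ => h1 v h.1), if_neg (fun ⟨v, h⟩ => h1 v h.1), if_neg h2,
    if_neg h3, if_neg h4, if_neg h5]
  norm_num

/-- the balance of a low vertex in three neighbourhoods without neighbours in `R` -/
theorem bal_222_6 (h : G.Reg Fa) {z : V} (hl : G.Low z) (hn : G.nR Fa z = ∅)
    (hI : (G.I Fa z).card = 3) : G.bal5 Fa z = 8 := by
  have hl' : (G.nb z).card = 6 := hl
  rw [bal5, hn, sum_empty, hI, hl', a5, c5, if_pos hl, if_pos hl]
  have h1 : ∀ B ∈ G.I Fa z, G.flv (G.Co B) z - G.flv B z = 0 := by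
    intro B hB
    have hB' := mem_I76.1 hB
    have e1 : G.pT B z = ∅ := by
      rw [eq_empty_iff_forall_notMem]
      intro v hv
      have h2 : v ∈ G.nR Fa z := mem_inter.2 ⟨(mem_inter.1 hv).1,
        N_sub_R76 h hB'.1 (mem_inter.1 hv).2⟩
      rw [hn] at h2
      exact absurd h2 (notMem_empty _)
    have e2 : G.pT (G.Co B) z = ∅ := by
      rw [pT, (G.stCo_37 B (h.frag B hB'.1)).2.1]
      exact e1
    rw [flv_zero6 e1, flv_zero6 e2]
    norm_num
  rw [sum_eq_zero h1]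
  norm_num

/-- the final charge of such a vertex -/
theorem fc_222_6 (hG : G.Gen6 Fa) {z : V} (hl : G.Low z) (hn : G.nR Fa z = ∅)
    (hI : (G.I Fa z).card = 3) : 16 ≤ G.fc Fa z := by
  have h1 : G.ch5 Fa z = 8 := by
    rw [ch5, hn, sum_empty, bal_222_6 hG.g5.reg hl hn hI, add_zero]
  have h2 : 0 ≤ ∑ x ∈ R Fa, G.dn5 Fa x z := sum_nonneg fun x _ => dn5_nonneg76 hG x z
  rw [fc, h1, ask_zero6 hG hl hn]
  omega

/-- the value of a vertex of the torso in `2 (WT F - Σ WT B)` -/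
noncomputable def val6 (G : CG V) (Fa : Finset (Finset V)) (F : Finset V) (z : V) : ℤ :=
  3 * G.fc (insert (G.Co F) Fa) z + (if G.Low z then 2 * G.gain6 Fa F z else 0)

/-- the sum of the values -/
theorem sum_val6 {F : Finset V} (hF : G.Frag F) (h : G.Reg (insert (G.Co F) Fa))
    (hn : G.Co F ∉ Fa) :
    ∑ z ∈ R (insert (G.Co F) Fa), G.val6 Fa F z = 2 * (G.WT F - ∑ B ∈ Fa, G.WT B) := by
  have h1 := WT_inner6 hF h hn
  have h2 := sum_fc6 (G := G) (Fa := insert (G.Co F) Fa)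
  have h3 : ∑ z ∈ R (insert (G.Co F) Fa), (if G.Low z then 2 * G.gain6 Fa F z else 0) =
      2 * ∑ z ∈ (R (insert (G.Co F) Fa)).filter (fun z => G.Low z), G.gain6 Fa F z := by
    rw [mul_sum, sum_filter]
  have h4 : ∑ z ∈ R (insert (G.Co F) Fa), G.val6 Fa F z =
      3 * ∑ z ∈ R (insert (G.Co F) Fa), G.fc (insert (G.Co F) Fa) z +
      ∑ z ∈ R (insert (G.Co F) Fa), (if G.Low z then 2 * G.gain6 Fa F z else 0) := by
    rw [mul_sum, ← sum_add_distrib]
    rfl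
  rw [h4, h3, h2, h1]
  ring

/-- rows M5 - M8 together -/
structure Rows6 (G : CG V) : Prop where
  m5 : G.StM5
  m6 : G.StM6
  k3 : G.StK3
  c6 : G.StC6
  c7 : G.StC7
  c8 : G.StC8

theorem fc_nonneg6 (h : G.Rows6) (hG : G.Gen6 Fa) {z : V} (hz : z ∈ R Fa)
    (hK : ¬ G.InK6 Fa z) : 0 ≤ G.fc Fa z := by
  have h1 := fc_ge6 h.m5 h.m6 h.k3 h.c6 h.c7 h.c8 hG hz
  rw [if_neg hK] at h1
  omega

section

variable {F : Finset V} (hr : G.Rows6) (hF : G.Frag F) (hn : G.Co F ∉ Fa)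
  (hG : G.Gen6 (insert (G.Co F) Fa)) (hK : ∀ z, ¬ G.InK6 (insert (G.Co F) Fa) z)

include hr hF hn hG hK

omit hF hn in
/-- the value is at least the gain -/
theorem val_ge_gain6 {z : V} (hz : z ∈ R (insert (G.Co F) Fa)) (hl : G.Low z) :
    2 * G.gain6 Fa F z ≤ G.val6 Fa F z := by
  have h1 := fc_nonneg6 hr hG hz (hK z)
  rw [val6, if_pos hl]
  omega

omit hr hK in
/-- the value is at least `3 fc`, except for the type `(2, 2, 2)` -/
theorem val_ge_fc6 {z : V} (hz : z ∈ R (insert (G.Co F) Fa))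
    (he : (G.nR (insert (G.Co F) Fa) z).Nonempty) :
    3 * G.fc (insert (G.Co F) Fa) z ≤ G.val6 Fa F z := by
  rw [val6]
  split_ifs with hl
  · rcases gain_nonneg6 hF hG.g5.reg hn hz hl with h1 | h1
    · omega
    · rw [h1.2.1] at he
      exact absurd he not_nonempty_empty
  · omega

/-- all values are nonnegative -/
theorem val_nonneg6 {z : V} (hz : z ∈ R (insert (G.Co F) Fa)) : 0 ≤ G.val6 Fa F z := by
  have h1 := fc_nonneg6 hr hG hz (hK z)
  rw [val6]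
  split_ifs with hl
  · rcases gain_nonneg6 hF hG.g5.reg hn hz hl with h2 | h2
    · omega
    · have h3 := fc_222_6 hG hl h2.2.1 h2.2.2.1
      omega
  · omega

/-- the surplus of the torso is at least the sum of the values over any set -/
theorem surplus6 {S : Finset V} (hS : S ⊆ R (insert (G.Co F) Fa)) :
    ∑ z ∈ S, G.val6 Fa F z ≤ 2 * (G.WT F - ∑ B ∈ Fa, G.WT B) := by
  rw [← sum_val6 hF hG.g5.reg hn]
  exact sum_le_sum_of_subset_of_nonneg hS fun z hz _ => val_nonneg6 hr hF hn hG hK hz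

/-- `WT` does not decrease -/
theorem WT_mono6 : ∑ B ∈ Fa, G.WT B ≤ G.WT F := by
  have h := surplus6 hr hF hn hG hK (empty_subset _)
  rw [sum_empty] at h
  omega

end

end CG

end Pool.Agent.Lib.MP_e95c01_co.N
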