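import Pool.Agent.Lib.MP_e95c01_co.X.G5_28

/-!
# G5, sharp: three hubs, every low vertex of `N F` has two neighbours on the other side
-/

set_option autoImplicit false

namespace Pool.Agent.Lib.MP_e95c01_co.N

open Finset

variable {V : Type} [Fintype V] [DecidableEq V]

namespace CG

variable {G : CG V} {F : Finset V}

/-- type of a low vertex -/
theorem dt37 {w : V} (hl : G.Low w) (hO : 2 ≤ G.d w (G.Co F)) :
    G.d w F + (G.pT F w).card ≤ 4 := by
  have h1 := d_split76 (G := G) w F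
  have h2 : (G.nb w).card = 6 := hl
  have h4 : (G.pT F w).card = (G.nb w ∩ G.N F).card := rfl
  omega

/-- G5, sharp -/
theorem st5HHHs_37 (G : CG V) (h3 : G.St11Bas G.Tw) (h5 : G.St11Cnt G.Tw) (hB : G.St5B)
    (F : Finset V) (hF : G.S5 F) (hhub : ∀ z ∈ F, G.Hub z)
    (hO : ∀ w ∈ G.N F, G.Low w → 2 ≤ G.d w (G.Co F)) : 25 ≤ ∑ w ∈ G.N F, G.gam5 F w := by
  classical
  have h6 : (G.N F).card = 6 := hF.big.1.2.1
  have hdt : ∀ w ∈ G.N F, G.Low w → G.d w F + (G.pT F w).card ≤ 4 :=
    fun w hw hl => dt37 hl (hO w hw hl)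
  -- no twins
  have hP : ¬ ∃ P ∈ G.N F, G.IsTw P := by
    rintro ⟨P, hP, P', hPP⟩
    obtain ⟨l, hl, hlN, hld, hpT⟩ := tw_low28 h3 hB hF hhub hP hPP
    have hP' := twN28 hF hhub hP hPP
    have hlP : l ∈ G.nb P := by
      have : l ∈ G.pT F P := by rw [hpT]; simp
      exact (mem_inter.1 this).1
    have hlP' : l ∈ G.nb P' := by
      refine Tw_nb5 hPP hlP ?_
      rintro rfl
      exact tw_not_low11 ⟨P, (stTwHL_5 G).symm _ _ hPP⟩ hl
    have h1 : ({P, P'} : Finset V) ⊆ G.pT F l := by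
      intro x hx
      rw [mem_insert, mem_singleton] at hx
      rcases hx with rfl | rfl
      · exact mem_inter.2 ⟨G.sym _ _ hlP, hP⟩
      · exact mem_inter.2 ⟨G.sym _ _ hlP', hP'⟩
    have h2 := card_le_card h1
    rw [card_pair (ne_of_nb5 hPP.1)] at h2
    have h4 := hdt l hlN hl
    omega
  have hR : Rs28 G F (G.N F) := ⟨subset_rfl, fun w _ => inter_subset_right,
    fun w hw h1 => hP ⟨w, hw, h1⟩⟩
  set A := L3_28 G F (G.N F) with hA
  set B := L2_28 G F (G.N F) with hBd
  have memA : ∀ {w : V}, w ∈ A ↔ w ∈ G.N F ∧ G.Low w ∧ G.d w F = 3 := by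
    intro w
    rw [hA, L3_28, mem_filter]
  have memB : ∀ {w : V}, w ∈ B ↔ w ∈ G.N F ∧ G.Low w ∧ G.d w F = 2 := by
    intro w
    rw [hBd, L2_28, mem_filter]
  have hdis : Disjoint A B := by
    rw [disjoint_left]
    intro w h1 h2
    have := (memA.1 h1).2.2
    have := (memB.1 h2).2.2
    omega
  have hlow : ∀ w ∈ G.N F, G.Low w → w ∈ A ∪ B := by
    intro w hw hl
    rw [mem_union, memA, memB]
    rcases d23_28 h3 hF hhub w hw with h | h
    · exact Or.inr ⟨hw, hl, h⟩
    · exact Or.inl ⟨hw, hl, h⟩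
  have hnp : ∀ w ∈ G.N F, ¬ G.PairSet (G.pT F w) := by
    rintro w hw ⟨v, v', h1, h2⟩
    have h4 : v ∈ G.pT F w := by rw [h2]; simp
    exact hR.ntw v (hR.cl w hw h4) ⟨v', h1⟩
  have hpos : ∀ w ∈ G.N F, 1 ≤ (G.pT F w).card := fun w hw => posR28 h3 hF hhub hR hw
  have tA : ∀ w ∈ A, (G.pT F w).card = 1 := by
    intro w hw
    obtain ⟨w1, w2, w3⟩ := memA.1 hw
    have := hdt w w1 w2
    have := hpos w w1
    omega
  have tB : ∀ w ∈ B, (G.pT F w).card ≤ 2 := by
    intro w hw
    obtain ⟨w1, w2, w3⟩ := memB.1 hw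
    have := hdt w w1 w2
    omega
  have sAB : ∑ w ∈ A, (G.pT F w).card = A.card := by
    rw [sum_congr rfl tA, sum_const, smul_eq_mul, mul_one]
  obtain ⟨T, hT⟩ : ∃ T, T = ∑ w ∈ B, (G.pT F w).card := ⟨_, rfl⟩
  -- the sum
  have hsum : 6 * (A.card : ℤ) + 2 * (B.card : ℤ) + 2 * (T : ℤ) ≤ ∑ w ∈ G.N F, G.gam5 F w ∧
      ((∃ w ∈ A, 8 ≤ G.gam5 F w) →
        6 * (A.card : ℤ) + 2 * (B.card : ℤ) + 2 * (T : ℤ) + 2 ≤ ∑ w ∈ G.N F, G.gam5 F w) := by
    have h1 : ∑ w ∈ G.N F, G.gam5 F w = ∑ w ∈ A, G.gam5 F w + ∑ w ∈ B, G.gam5 F w := by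
      rw [← sum_union hdis]
      symm
      apply sum_subset
      · intro w hw
        rcases mem_union.1 hw with h | h
        · exact (memA.1 h).1
        · exact (memB.1 h).1
      · intro w hw h2
        exact hB.hub F hF w hw ⟨fun hl => h2 (hlow w hw hl), hR.ntw w hw⟩
    have h2 : ∀ w ∈ A, (6 : ℤ) ≤ G.gam5 F w := by
      intro w hw
      obtain ⟨w1, w2, w3⟩ := memA.1 hw
      exact (hB.low3 F hF w w1 w2 w3).2.1
    have h4 : ∑ w ∈ B, (2 + 2 * ((G.pT F w).card : ℤ)) ≤ ∑ w ∈ B, G.gam5 F w := by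
      refine sum_le_sum fun w hw => ?_
      obtain ⟨w1, w2, w3⟩ := memB.1 hw
      exact (hB.low2 F hF w w1 w2 w3).2.1 (hnp w w1)
    rw [sum_add_distrib, sum_const, nsmul_eq_mul, ← mul_sum] at h4
    have h7 : (T : ℤ) = ∑ w ∈ B, ((G.pT F w).card : ℤ) := by
      rw [hT]
      push_cast
      rfl
    have h8 : ∑ _w ∈ A, (6 : ℤ) ≤ ∑ w ∈ A, G.gam5 F w := sum_le_sum h2
    rw [sum_const, nsmul_eq_mul] at h8
    refine ⟨by rw [h1, h7]; linarith, ?_⟩
    rintro ⟨w, hw, h9⟩
    have h10 : ∑ x ∈ A, (6 + if x = w then (2 : ℤ) else 0) ≤ ∑ w ∈ A, G.gam5 F w := by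
      refine sum_le_sum fun x hx => ?_
      split_ifs with h
      · rw [h]
        linarith
      · linarith [h2 x hx]
    rw [sum_add_distrib, sum_const, nsmul_eq_mul, sum_ite_eq' A w (fun _ => (2 : ℤ)),
      if_pos hw] at h10
    rw [h1, h7]
    linarith
  -- counting
  have cN : ∀ z ∈ F, 5 ≤ ∑ w ∈ (G.Tz F z ∩ G.N F).filter (fun w => G.Low w),
      (G.pT F w).card := by
    intro z hz
    have h1 := (cardS28 h3 hF hhub hR hz).trans (cnt28 h3 h5 hF hhub hR hz)
    rw [h6] at h1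
    exact_mod_cast (by push_cast at h1 ⊢; linarith : (5 : ℤ) ≤ ((∑ w ∈ (G.Tz F z ∩ G.N F).filter
      (fun w => G.Low w), (G.pT F w).card : ℕ) : ℤ))
  have c1 : 5 ≤ A.card + T := by
    have hne : F.Nonempty := by
      rw [← card_pos, hF.c3]
      norm_num
    obtain ⟨z, hz⟩ := hne
    rw [← sAB, hT, ← sum_union hdis]
    refine (cN z hz).trans (sum_le_sum_of_subset ?_)
    intro w hw
    rw [mem_filter, mem_inter] at hw
    exact hlow w hw.1.2 hw.2
  have c2 : ∀ b ∈ B, 5 + (G.pT F b).card ≤ A.card + T := by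
    intro b hb
    obtain ⟨b1, b2, b3⟩ := memB.1 hb
    obtain ⟨z, hz, hzb⟩ := miss28 hF b3
    have h1 : ∑ w ∈ (A ∪ B).erase b, (G.pT F w).card + (G.pT F b).card = A.card + T := by
      rw [sum_erase_add _ _ (mem_union_right _ hb), ← sAB, hT, ← sum_union hdis]
    have h2 : ∑ w ∈ (G.Tz F z ∩ G.N F).filter (fun w => G.Low w), (G.pT F w).card ≤
        ∑ w ∈ (A ∪ B).erase b, (G.pT F w).card := by
      refine sum_le_sum_of_subset ?_
      intro w hw
      rw [mem_filter, mem_inter] at hw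
      refine mem_erase.2 ⟨?_, hlow w hw.1.2 hw.2⟩
      rintro rfl
      exact hzb (G.sym _ _ (mem_Tz28.1 hw.1.1).1)
    have := cN z hz
    omega
  have c3 : B.card * 5 + T ≤ B.card * (A.card + T) := by
    have h1 := sum_le_sum c2
    rw [sum_add_distrib, sum_const, sum_const, smul_eq_mul, smul_eq_mul, ← hT] at h1
    exact h1
  have c4 : T ≤ 2 * B.card := by
    rw [hT]
    refine (sum_le_sum tB).trans ?_
    rw [sum_const, smul_eq_mul, mul_comm]
  have c5 : B.card ≤ T := by
    rw [hT, card_eq_sum_ones]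
    exact sum_le_sum fun w hw => hpos w (memB.1 hw).1
  have hfew := few28 h3 hF hhub
  have hBsub : B ⊆ (G.N F).filter fun w => G.d w F = 2 := by
    intro w hw
    obtain ⟨w1, w2, w3⟩ := memB.1 hw
    exact mem_filter.2 ⟨w1, w3⟩
  have c6 : B.card ≤ 3 := (card_le_card hBsub).trans hfew
  by_contra hcon
  push Not at hcon
  -- the numbers
  have hnum : A.card = 1 ∧ B.card = 3 ∧ T = 6 := by
    have hs := hsum.1
    have hk : B.card = 0 ∨ B.card = 1 ∨ B.card = 2 ∨ B.card = 3 := by omega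
    rcases hk with h | h | h | h <;> rw [h] at c3 c4 c5 hs ⊢ <;> push_cast at hs <;> omega
  obtain ⟨a1, k3, T6⟩ := hnum
  -- all vertices of `B` have two neighbours in `N F`
  have tB2 : ∀ w ∈ B, (G.pT F w).card = 2 := by
    intro w hw
    by_contra h
    have h1 : ∑ w ∈ B, (G.pT F w).card < ∑ _w ∈ B, 2 :=
      sum_lt_sum tB ⟨w, hw, lt_of_le_of_ne (tB w hw) h⟩
    rw [sum_const, smul_eq_mul, ← hT] at h1
    omega
  obtain ⟨w1, hw1⟩ := card_eq_one.1 a1
  have hw1A : w1 ∈ A := by rw [hw1]; exact mem_singleton_self _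
  obtain ⟨w1N, w1l, w1d⟩ := memA.1 hw1A
  obtain ⟨v1, hv1⟩ := card_eq_one.1 (tA w1 hw1A)
  have v1l : G.Low v1 := by
    by_contra h
    have h1 := (hB.low3 F hF w1 w1N w1l w1d).2.2.2.1 v1 (by rw [hv1]; simp) h
    rw [hv1, card_singleton] at h1
    have h2 := hsum.2 ⟨w1, hw1A, by push_cast at h1; linarith⟩
    rw [a1, k3, T6] at h2
    push_cast at h2
    linarith
  -- the hubs
  have hBe : (G.N F).filter (fun w => G.d w F = 2) = B :=
    (eq_of_subset_of_card_le hBsub (by rw [k3]; exact hfew)).symm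
  have hub3 : ∀ g ∈ G.N F, ¬ G.Low g → F ⊆ G.nb g := by
    intro g hg hgl
    have h1 : G.d g F = 3 := by
      rcases d23_28 h3 hF hhub g hg with h | h
      · exfalso
        have h2 : g ∈ B := by
          rw [← hBe]
          exact mem_filter.2 ⟨hg, h⟩
        exact hgl (memB.1 h2).2.1
      · exact h
    have h2 : G.nb g ∩ F = F := eq_of_subset_of_card_le inter_subset_right (by
      rw [hF.c3]
      exact h1.ge)
    rw [← h2]
    exact inter_subset_left
  have v1N : v1 ∈ G.N F := by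
    have h : v1 ∈ G.pT F w1 := by rw [hv1]; exact mem_singleton_self _
    exact (mem_inter.1 h).2
  have v1w1 : v1 ∈ G.nb w1 := by
    have h : v1 ∈ G.pT F w1 := by rw [hv1]; exact mem_singleton_self _
    exact (mem_inter.1 h).1
  have only1 : ∀ u ∈ G.N F, u ∈ G.nb w1 → u = v1 := by
    intro u hu h
    have h1 : u ∈ G.pT F w1 := mem_inter.2 ⟨h, hu⟩
    rw [hv1, mem_singleton] at h1
    exact h1
  have isA : ∀ u ∈ G.N F, G.Low u → F ⊆ G.nb u → u = w1 := by
    intro u hu hl h
    have h1 : u ∈ A := by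
      rw [memA]
      refine ⟨hu, hl, ?_⟩
      have h2 : G.nb u ∩ F = F := inter_eq_right.2 h
      unfold d
      rw [h2, hF.c3]
    rw [hw1, mem_singleton] at h1
    exact h1
  have v1B : v1 ∈ B := by
    rcases mem_union.1 (hlow v1 v1N v1l) with h | h
    · exfalso
      rw [hw1, mem_singleton] at h
      rw [h] at v1w1
      exact G.irr _ v1w1
    · exact h
  -- the other vertices of `B` are adjacent to `v1`
  have key : ∀ x ∈ B, ∀ y ∈ B, x ≠ v1 → y ≠ v1 → x ≠ y → (∀ u ∈ B, u = v1 ∨ u = x ∨ u = y) →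
      x ∈ G.nb v1 := by
    intro x hx y hy hxv hyv hxy hall
    by_contra hadj
    obtain ⟨xN, xl, xd⟩ := memB.1 hx
    obtain ⟨yN, yl, yd⟩ := memB.1 hy
    obtain ⟨z, hz, hzy⟩ := miss28 hF yd
    have hyz : y ∉ G.nb z := fun h => hzy (G.sym _ _ h)
    have one : ∀ u ∈ G.N F, u ∉ G.nb z → u = y := fun u hu h =>
      one_miss28 h3 hF hhub hz hu yN h hyz
    have hxz : x ∈ G.nb z := by
      by_contra h
      exact hxy (one x xN h)
    have hzx : x ∈ G.Tz F z ∩ G.N F := mem_inter.2 ⟨mem_Tz28.2 ⟨hxz, xN⟩, xN⟩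
    rcases coverR28 h3 hF hhub hR hz hzx with h | h | h
    · obtain ⟨w, hw, h1, h2⟩ := h
      have hwN := (mem_inter.1 hw).2
      rcases mem_union.1 (hlow w hwN h1) with h4 | h4
      · rw [hw1, mem_singleton] at h4
        rw [h4] at h2
        exact hxv (only1 x xN h2)
      · rcases hall w h4 with rfl | rfl | rfl
        · exact hadj h2
        · exact G.irr _ h2
        · exact hyz (mem_Tz28.1 (mem_inter.1 hw).1).1
    · obtain ⟨a, ha, b, hb, h1⟩ := h
      have haN := (mem_inter.1 ha).2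
      have hbN := (mem_inter.1 hb).2
      have hal : ¬ G.Low a := HL_not_low76 h1
      have hFb : F ⊆ G.nb b := by
        intro u hu
        have hux : u ≠ x := by
          rintro rfl
          exact (mem_N76.1 xN).1 hu
        rcases HL_sup76 h1 (hub3 a haN hal hu) hux with h5 | h5
        · exact absurd (h5 ▸ hu) (mem_N76.1 hbN).1
        · exact h5
      have hbw := isA b hbN h1.2.1 hFb
      rw [hbw] at h1
      exact hal (by rw [only1 a haN (G.sym _ _ (HL_b76 h1))]; exact v1l)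
    · obtain ⟨a, ha, b, hb, h1⟩ := h
      have haN := (mem_inter.1 ha).2
      have hbN := (mem_sdiff.1 hb).1
      have hby : b = y := by
        apply one b hbN
        intro h
        exact (mem_sdiff.1 hb).2 (mem_inter.2 ⟨mem_Tz28.2 ⟨h, hbN⟩, hbN⟩)
      rw [hby] at h1
      have hFa : F ⊆ G.nb a := by
        intro u hu
        have hua : u ≠ a := by
          rintro rfl
          exact (mem_N76.1 haN).1 hu
        by_cases huz : u = z
        · rw [huz]
          exact LL_t76 h1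
        · have huy : u ∈ G.nb y := by
            by_contra h
            have h2 : insert u (insert z (G.nb y ∩ F)) ⊆ F := by
              intro t ht
              rw [mem_insert, mem_insert] at ht
              rcases ht with rfl | rfl | ht
              · exact hu
              · exact hz
              · exact (mem_inter.1 ht).2
            have h4 := card_le_card h2
            rw [card_insert_of_notMem, card_insert_of_notMem, hF.c3] at h4
            · have h5' : (G.nb y ∩ F).card = 2 := yd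
              omega
            · exact fun h5 => hzy (mem_inter.1 h5).1
            · rw [mem_insert, not_or]
              exact ⟨huz, fun h5 => h (mem_inter.1 h5).1⟩
          have hux : u ≠ x := by
            rintro rfl
            exact (mem_N76.1 xN).1 hu
          rcases LL_from76 h1 huy hux with h5 | h5
          · exact absurd h5 hua
          · exact h5
      have haw := isA a haN h1.1 hFa
      rw [haw] at h1
      exact hyv (only1 y yN (LL_ab76 h1))
  have hBc : (B.erase v1).card = 2 := by rw [card_erase_of_mem v1B, k3]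
  obtain ⟨x, y, hxy, he⟩ := card_eq_two.1 hBc
  have hx : x ∈ B.erase v1 := by rw [he]; simp
  have hy : y ∈ B.erase v1 := by rw [he]; simp
  rw [mem_erase] at hx hy
  have hall : ∀ u ∈ B, u = v1 ∨ u = x ∨ u = y := by
    intro u hu
    by_cases h : u = v1
    · exact Or.inl h
    · right
      have h1 : u ∈ B.erase v1 := mem_erase.2 ⟨h, hu⟩
      rw [he, mem_insert, mem_singleton] at h1
      exact h1
  have q1 := key x hx.2 y hy.2 hx.1 hy.1 hxy hall
  have q2 := key y hy.2 x hx.2 hy.1 hx.1 hxy.symm (fun u hu => by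
    have := hall u hu
    tauto)
  have hsub : ({w1, x, y} : Finset V) ⊆ G.pT F v1 := by
    intro u hu
    simp only [mem_insert, mem_singleton] at hu
    rcases hu with rfl | rfl | rfl
    · exact mem_inter.2 ⟨G.sym _ _ v1w1, w1N⟩
    · exact mem_inter.2 ⟨q1, (memB.1 hx.2).1⟩
    · exact mem_inter.2 ⟨q2, (memB.1 hy.2).1⟩
  have h1 := card_le_card hsub
  have n1 : w1 ≠ x := fun h => disjoint_left.1 hdis hw1A (h ▸ hx.2)
  have n2 : w1 ≠ y := fun h => disjoint_left.1 hdis hw1A (h ▸ hy.2)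
  rw [card_insert_of_notMem (by simp [n1, n2]), card_pair hxy] at h1
  have h2 := tB v1 v1B
  omega

end CG

end Pool.Agent.Lib.MP_e95c01_co.N
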