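import Pool.Agent.Lib.MP_e95c01_co.X.G6_89
import Pool.Agent.Lib.MP_e95c01_co.Y.G5s37

/-!
# G6, sharp: a hub and a pair of twins, every low vertex of `N F` has two neighbours on the other
side
-/

set_option autoImplicit false

namespace Pool.Agent.Lib.MP_e95c01_co.N

open Finset

variable {V : Type} [Fintype V] [DecidableEq V]

namespace CG

variable {G : CG V} {F : Finset V} {h v w t : V} {Y : Finset V}

/-- twins in `N F` are impossible -/
theorem D89.false37 {p p' d y1 y2 : V} (hD : G.D89 F h v w t Y p p' d y1 y2) (hB : G.St5B)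
    (hO : ∀ w ∈ G.N F, G.Low w → 2 ≤ G.d w (G.Co F)) : False := by
  classical
  have hC := hD.hC
  have hdt : ∀ w ∈ G.N F, G.Low w → G.d w F + (G.pT F w).card ≤ 4 :=
    fun w hw hl => dt37 hl (hO w hw hl)
  have mp : p ∈ G.pT F d := mem_pT89.2 ⟨hD.dp, hC.sub hD.pY⟩
  have mp' : p' ∈ G.pT F d := mem_pT89.2 ⟨hD.dp', hC.sub hD.pY'⟩
  have d1 := hdt d (hC.sub hD.dY) hD.dl
  have d2 : 2 ≤ (G.pT F d).card := two_le5 mp mp' hD.n1
  have hd : h ∉ G.nb d := by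
    intro hd
    have := hC.d3 d hD.dY hd
    omega
  have nd : ∀ {x : V}, x ∈ G.N F → x ∈ G.nb d → x = p ∨ x = p' := by
    intro x hx h1
    by_contra h2
    push Not at h2
    have h3 : ({x, p, p'} : Finset V) ⊆ G.pT F d := by
      intro y hy
      simp only [mem_insert, mem_singleton] at hy
      rcases hy with rfl | rfl | rfl
      · exact mem_pT89.2 ⟨h1, hx⟩
      · exact mp
      · exact mp'
    have h4 := card_le_card h3
    rw [card_insert_of_notMem (by simp [h2.1, h2.2]), card_pair hD.n1] at h4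
    have := hC.d2 d hD.dY hd
    omega
  by_cases h1 : G.Low y2 ∧ y1 ∈ G.nb y2
  swap
  · exact (hD.sub2 hB hd h1).elim
  by_cases h2 : G.Low y1 ∧ y2 ∈ G.nb y1
  swap
  · exact (hD.swap.sub2 hB hd h2).elim
  have hy1 : h ∈ G.nb y1 :=
    (hC.miss y1 (hC.sub hD.Y1) d (hC.sub hD.dY) hD.n8.symm).resolve_right hd
  have hy2 : h ∈ G.nb y2 :=
    (hC.miss y2 (hC.sub hD.Y2) d (hC.sub hD.dY) hD.n9.symm).resolve_right hd
  have tp : t ∉ G.nb p := by
    intro h1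
    rcases hD.nbp hC.tT h1 with e | e
    · exact hC.tY (by rw [e]; exact hD.pY')
    · exact hC.tY (by rw [e]; exact hD.dY)
  have tp' : t ∉ G.nb p' := by
    intro h1
    rcases hD.nbp' hC.tT h1 with e | e
    · exact hC.tY (by rw [e]; exact hD.pY)
    · exact hC.tY (by rw [e]; exact hD.dY)
  have ht : ∀ {x : V}, x ∈ Y → t ≠ x := by
    rintro x hx rfl
    exact hC.tY hx
  have td : t ∉ G.nb d := by
    intro h1
    rcases nd hC.tT h1 with e | e
    · exact ht hD.pY e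
    · exact ht hD.pY' e
  have key : t ∈ G.nb y1 ∨ t ∈ G.nb y2 := by
    have one : ∀ x ∈ Y, t ∈ G.nb x → t ∈ G.nb y1 ∨ t ∈ G.nb y2 := by
      intro x hx h8
      rcases hD.ym x hx with e | e | e | e | e <;> rw [e] at h8
      · exact absurd h8 tp
      · exact absurd h8 tp'
      · exact absurd h8 td
      · exact Or.inl h8
      · exact Or.inr h8
    rcases hC.c0 with h6 | h6 | h6 | h6
    · obtain ⟨x, hx, h7, h9, h8⟩ := h6
      exact one x hx h8
    · obtain ⟨x, hx, x', hx', h7, h9, h8, -⟩ := h6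
      exact one x hx h8
    · obtain ⟨a, ha, b, hb, h7, h8, h9⟩ := h6
      exact one a ha (HL_t76 h7)
    · obtain ⟨a, ha, b, hb, h7⟩ := h6
      exact one b hb (LL_u76 h7)
  rcases key with h3 | h3
  · have k1 := hdt y1 (hC.sub hD.Y1) h2.1
    have k2 := hC.d3 y1 hD.Y1 hy1
    have k3 : 2 ≤ (G.pT F y1).card := two_le5 (mem_pT89.2 ⟨h2.2, hC.sub hD.Y2⟩)
      (mem_pT89.2 ⟨h3, hC.tT⟩) (ht hD.Y2).symm
    omega
  · have k1 := hdt y2 (hC.sub hD.Y2) h1.1
    have k2 := hC.d3 y2 hD.Y2 hy2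
    have k3 : 2 ≤ (G.pT F y2).card := two_le5 (mem_pT89.2 ⟨h1.2, hC.sub hD.Y1⟩)
      (mem_pT89.2 ⟨h3, hC.tT⟩) (ht hD.Y1).symm
    omega

/-- no twins in `N F` -/
theorem C89.case1s37 (hC : G.C89 F h v w t Y) (hB : G.St5B) (hT : ∀ x ∈ Y, ¬ G.IsTw x)
    (hO : ∀ w ∈ G.N F, G.Low w → 2 ≤ G.d w (G.Co F)) : 25 ≤ ∑ y ∈ G.N F, G.gam5 F y := by
  classical
  have hdt : ∀ w ∈ G.N F, G.Low w → G.d w F + (G.pT F w).card ≤ 4 :=
    fun w hw hl => dt37 hl (hO w hw hl)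
  set L := Y.filter fun x => G.Low x with hL
  have hLm : ∀ x, x ∈ L ↔ x ∈ Y ∧ G.Low x := fun x => mem_filter
  have h6 := hC.cnt hT hLm
  have h0 := hC.g0i hB hT
  have hLN : L ⊆ G.N F := fun x hx => hC.sub ((hLm x).1 hx).1
  have hL5 : L.card ≤ 5 := by
    rw [← hC.c5]
    exact card_le_card (filter_subset _ _)
  have hnp : ∀ y, ¬ G.PairSet (G.pT F y) := by
    rintro y ⟨a, b, hab, h1⟩
    have h2 : a ∈ G.pT F y := by rw [h1]; exact mem_insert_self _ _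
    obtain ⟨h3, h4⟩ := mem_pT89.1 h2
    rcases hC.all a h4 with e | h5
    · rw [e] at hab
      have h6 := (hB.tw F hC.hF t hC.tT ⟨_, hab⟩).1
      have h7 := hC.dt
      omega
    · exact hT a h5 ⟨_, hab⟩
  have hsub := sum_le_sum_of_subset_of_nonneg (f := fun y => G.gam5 F y) hLN
    (fun y hy _ => h0 y hy)
  have one : ∀ x ∈ L, h ∈ G.nb x → (G.pT F x).card ≤ 1 ∧ 6 ≤ G.gam5 F x := by
    intro x hx hh
    have h1 := hC.v3 hB ((hLm x).1 hx).1 ((hLm x).1 hx).2 hh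
    have h2 := hdt x (hLN hx) ((hLm x).1 hx).2
    have h3 := hC.d3 x ((hLm x).1 hx).1 hh
    exact ⟨by omega, h1.2.1⟩
  by_cases hA : ∀ x ∈ L, h ∈ G.nb x
  · exfalso
    have h1 : ∑ x ∈ L, (G.pT F x).card ≤ ∑ _x ∈ L, 1 :=
      sum_le_sum fun x hx => (one x hx (hA x hx)).1
    rw [sum_const, smul_eq_mul, mul_one] at h1
    omega
  · push Not at hA
    obtain ⟨s, hs, hsh⟩ := hA
    have hsm := (hLm s).1 hs
    obtain ⟨-, hs2⟩ := hC.v2 hB hsm.1 hsm.2 hsh (hnp s)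
    have hs4 := hdt s (hLN hs) hsm.2
    have hs5 := hC.d2 s hsm.1 hsh
    have hoth : ∀ x ∈ L.erase s, h ∈ G.nb x := by
      intro x hx
      obtain ⟨h1, h2⟩ := mem_erase.1 hx
      exact (hC.miss x (hLN h2) s (hLN hs) h1).resolve_right hsh
    have e1 : ∑ x ∈ L, G.gam5 F x = G.gam5 F s + ∑ x ∈ L.erase s, G.gam5 F x :=
      (add_sum_erase _ _ hs).symm
    have e2 : ∑ x ∈ L, (G.pT F x).card = (G.pT F s).card + ∑ x ∈ L.erase s, (G.pT F x).card :=
      (add_sum_erase _ _ hs).symm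
    have b1 : ∑ _x ∈ L.erase s, (6 : ℤ) ≤ ∑ x ∈ L.erase s, G.gam5 F x :=
      sum_le_sum fun x hx => (one x (mem_erase.1 hx).2 (hoth x hx)).2
    have b3 : ∑ x ∈ L.erase s, (G.pT F x).card ≤ ∑ _x ∈ L.erase s, 1 :=
      sum_le_sum fun x hx => (one x (mem_erase.1 hx).2 (hoth x hx)).1
    rw [sum_const, nsmul_eq_mul] at b1
    rw [sum_const, smul_eq_mul, mul_one] at b3
    have c1 := card_erase_of_mem hs
    have c2 : (L.erase s).card = 4 := by omega
    have c3 : (G.pT F s).card = 2 := by omega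
    rw [c2] at b1
    rw [c3] at hs2
    push_cast at b1 hs2
    linarith

/-- G6, sharp -/
theorem st5HQs_37 (G : CG V) (hB : G.St5B) (F : Finset V) (hF : G.S5 F) (h v w : V)
    (hFe : F = {h, v, w}) (hh : G.Hub h) (hvw : G.Tw v w)
    (hO : ∀ w ∈ G.N F, G.Low w → 2 ≤ G.d w (G.Co F)) : 25 ≤ ∑ w ∈ G.N F, G.gam5 F w := by
  classical
  obtain ⟨t, Y, hC⟩ := exC89 hF hFe hh hvw
  by_cases hT : ∃ x ∈ Y, G.IsTw x
  · obtain ⟨p, hpY, hp⟩ := hT
    obtain ⟨p', d, y1, y2, hD⟩ := exD89 hC hB hpY hp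
    exact (hD.false37 hB hO).elim
  · exact hC.case1s37 hB (fun x hx h1 => hT ⟨x, hx, h1⟩) hO

end CG

end Pool.Agent.Lib.MP_e95c01_co.N
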