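import Pool.Agent.Lib.MP_e95c01_co.X.V2_16
import Pool.Agent.Lib.MP_e95c01_co.U.FamE37
import Pool.Agent.Lib.MP_e95c01_co.N.StStruct53
import Pool.Agent.Lib.MP_e95c01_co.N.Basic37

/-!
# GoodK fragments: no vertex of a `K6` in the neighbourhood
-/

namespace Pool.Agent.Lib.MP_e95c01_co.N

open Finset

variable {V : Type} [Fintype V] [DecidableEq V]

namespace CG

/-- vertex of a `K6` -/
def InK (G : CG V) (v : V) : Prop := ∃ S, G.IsK6 S ∧ v ∈ S

/-- big fragment without vertices of a `K6` in its neighbourhood -/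
def GoodK (G : CG V) (F : Finset V) : Prop := G.Big F ∧ ∀ v ∈ G.N F, ¬ G.InK v

/-- the family of maximal good subfragments -/
def StFamG (G : CG V) : Prop := G.Crit → 9 ≤ Fintype.card V → ∀ F : Finset V, G.GoodK F →
  4 ≤ F.card → ∃ Fa : Finset (Finset V),
    (∀ B ∈ Fa, G.GoodK B ∧ B ⊂ F) ∧
    (∀ B ∈ Fa, ∀ B' ∈ Fa, B ≠ B' → Disjoint B B' ∧ Disjoint (G.N B) B') ∧
    (∀ z ∈ F, (∀ A ∈ Fa, z ∉ A) → ∀ v ∈ G.nb z, ¬ G.SCov z v →
      ∃ A ∈ Fa, z ∈ G.N A ∧ (v ∈ A ∨ v ∈ G.N A)) ∧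
    (∀ B ∈ Fa, ∀ Z : Finset V, Z.Nonempty → Z ⊆ F → Z ⊆ G.N B →
      (∀ z ∈ Z, ∀ A ∈ Fa, A ≠ B → z ∉ G.N A) →
      Z.card < (G.N Z ∩ G.Co B).card ∨ (Fa = {B} ∧ Z = F \ B)) ∧
    (Fa.Nonempty → ∀ Z : Finset V, Z.Nonempty → Z ⊆ G.N F → (∀ z ∈ Z, ∀ A ∈ Fa, z ∉ G.N A) →
      Z.card < (G.N Z ∩ F).card ∨ ∃ B, Fa = {B} ∧ G.N Z ∩ F = F \ B ∧ (F \ B).card = Z.card) ∧
    (Fa = ∅ → ∀ B, G.GoodK B → ¬ B ⊂ F) ∧
    (Fa.Nonempty → ∀ B, G.GoodK B → B ⊆ F → ∃ A ∈ Fa, ¬ Disjoint B (A ∪ G.N A))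

namespace Gd57

variable {G : CG V}

/-! ### vertices of a `K6` -/

theorem low_not {v : V} (h : G.Low v) : ¬ G.InK v := by
  rintro ⟨S, hS, hv⟩
  have h1 := isTw_card16 (hS.2.1 v hv)
  have h2 : (G.nb v).card = 6 := h
  omega

theorem port (hC : G.Crit) (h9 : 9 ≤ Fintype.card V) {S : Finset V} (hS : G.IsK6 S) {k u : V}
    (hk : k ∈ S) (hu : u ∈ G.nb k) (huS : u ∉ S) : G.Low u ∧ ∃ v ∈ G.nb k, v ∉ S ∧ v ≠ u ∧
      G.Low v ∧ v ∈ G.nb u ∧ G.nb k = insert u (insert v (S.erase k)) :=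
  stPort_16 G hC h9 S hS k hk u hu huS

/-- a vertex of a `K6` with a neighbour in `K6 ∪ ...`: the whole `K6` is in a set closed under
neighbours -/
theorem sub_of_adj {S A T : Finset V} (hS : G.IsK6 S) {s : V} (hs : s ∈ S) (hsA : s ∈ A)
    (hcl : ∀ u ∈ A, ∀ w ∈ G.nb u, w ∈ A ∨ w ∈ T) (hT : ∀ w ∈ T, ¬ G.InK w) : S ⊆ A := by
  intro t ht
  by_cases h : s = t
  · rw [← h]; exact hsA
  · rcases hcl s hsA t (hS.2.2 s hs t ht h) with h1 | h1
    · exact h1
    · exact absurd ⟨S, hS, ht⟩ (hT t h1)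

theorem nb_or {A : Finset V} {u w : V} (hu : u ∈ A) (hw : w ∈ G.nb u) : w ∈ A ∨ w ∈ G.N A := by
  by_cases h : w ∈ A
  · exact Or.inl h
  · exact Or.inr (mem_N37.2 ⟨h, u, hu, hw⟩)

/-- a `K6` with a vertex in `F` is inside `F` if `N F` has no vertices of `K6`'s -/
theorem k6_sub {S F : Finset V} (hF : ∀ v ∈ G.N F, ¬ G.InK v) (hS : G.IsK6 S) {s : V}
    (hs : s ∈ S) (hsF : s ∈ F) : S ⊆ F :=
  sub_of_adj hS hs hsF (fun _ hu _ hw => nb_or hu hw) hF

theorem Co_nb {F : Finset V} {u w : V} (hu : u ∈ G.Co F) (hw : w ∈ G.nb u) :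
    w ∈ G.Co F ∨ w ∈ G.N F := by
  rw [mem_Co37'] at hu
  by_cases h : w ∈ F
  · exact absurd (G.sym _ _ hw) (fun h1 => hu.2 w h h1)
  · by_cases h1 : w ∈ G.N F
    · exact Or.inr h1
    · exact Or.inl (mem_Co37.2 ⟨h, h1⟩)

theorem k6_sub_Co {S F : Finset V} (hF : ∀ v ∈ G.N F, ¬ G.InK v) (hS : G.IsK6 S) {s : V}
    (hs : s ∈ S) (hsF : s ∈ G.Co F) : S ⊆ G.Co F :=
  sub_of_adj hS hs hsF (fun _ hu _ hw => Co_nb hu hw) hF

/-- the neighbourhood of a `K6` has six vertices -/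
theorem k6_N (hC : G.Crit) (h9 : 9 ≤ Fintype.card V) {S : Finset V} (hS : G.IsK6 S)
    (hne : (G.Co S).Nonempty) : G.Frag S := by
  classical
  have hSne : S.Nonempty := by rw [← card_pos, hS.1]; omega
  refine ⟨hSne, ?_, hne⟩
  apply le_antisymm _ (stN6_37 G S hSne hne)
  have h1 := sum_card_bipartiteAbove_eq_sum_card_bipartiteBelow (s := S) (t := G.N S)
    (fun q w => w ∈ G.nb q)
  have h2 : ∀ q ∈ S, ((G.N S).bipartiteAbove (fun q w => w ∈ G.nb q) q).card = 2 := by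
    intro q hq
    have h3 : (G.N S).bipartiteAbove (fun q w => w ∈ G.nb q) q = G.nb q \ (S.erase q) := by
      ext w
      rw [mem_bipartiteAbove, mem_sdiff, mem_erase, mem_N37]
      constructor
      · rintro ⟨⟨h4, -⟩, h5⟩
        exact ⟨h5, fun h => h4 h.2⟩
      · rintro ⟨h4, h5⟩
        have h6 : w ≠ q := fun h => G.irr q (by rw [h] at h4; exact h4)
        exact ⟨⟨fun h => h5 ⟨h6, h⟩, q, hq, h4⟩, h4⟩
    have h4 : S.erase q ⊆ G.nb q := by
      intro x hx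
      rw [mem_erase] at hx
      exact hS.2.2 q hq x hx.2 (Ne.symm hx.1)
    rw [h3, card_sdiff_of_subset h4, card_erase_of_mem hq, hS.1, isTw_card16 (hS.2.1 q hq)]
  have h3 : ∀ w ∈ G.N S, 2 ≤ (S.bipartiteBelow (fun q w => w ∈ G.nb q) w).card := by
    intro w hw
    have h4 : S.bipartiteBelow (fun q w => w ∈ G.nb q) w = G.nb w ∩ S := by
      ext q
      rw [mem_bipartiteBelow, mem_inter]
      exact ⟨fun h => ⟨G.sym _ _ h.2, h.1⟩, fun h => ⟨h.2, G.sym _ _ h.1⟩⟩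
    rw [h4]
    exact (k6_low16 hC h9 hS hw).2.1
  rw [sum_congr rfl h2, sum_const, hS.1] at h1
  have h5 := sum_le_sum h3
  rw [sum_const, ← h1] at h5
  simp only [smul_eq_mul] at h5
  omega

/-- a `K6` inside a big fragment is a good fragment -/
theorem k6_good (hC : G.Crit) (h9 : 9 ≤ Fintype.card V) {S F : Finset V} (hF : G.Big F)
    (hS : G.IsK6 S) (hSF : S ⊆ F) : G.GoodK S := by
  have h1 : G.Co F ⊆ G.Co S := Co_anti37 hSF
  refine ⟨⟨k6_N hC h9 hS (hF.1.2.2.mono h1), by rw [hS.1]; omega,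
    hF.2.2.trans (card_le_card h1)⟩, fun v hv => low_not (k6_low16 hC h9 hS hv).1⟩

/-! ### pushing a fragment away from the `K6`'s -/

/-- vertices of `N E` have neighbours in `E` and in `Co E` -/
theorem nbr_Co {E : Finset V} (hE : G.Frag E) {k : V} (hk : k ∈ G.N E) :
    ∃ u ∈ G.Co E, u ∈ G.nb k := by
  obtain ⟨-, h1, -⟩ := stCo_37 G E hE
  rw [← h1] at hk
  exact nbr_in37 hk

theorem tw_mem {k k' w : V} (h : G.Tw k k') (hw : w ∈ G.nb k) (hne : w ≠ k') : w ∈ G.nb k' := by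
  have h1 : w ∈ G.cl k' := by
    rw [← h.2.2]
    exact mem_insert_of_mem hw
  exact (mem_insert.1 h1).resolve_left hne

theorem twin_N {E : Finset V} (hE : G.Frag E) {k k' : V} (hk : k ∈ G.N E) (h : G.Tw k k') :
    k' ∈ G.N E := by
  obtain ⟨u, hu, huk⟩ := nbr_in37 hk
  obtain ⟨w, hw, hwk⟩ := nbr_Co hE hk
  have hd := mem_Co37.1 hw
  by_cases h1 : k' ∈ E
  · exfalso
    have hne : w ≠ k' := fun h2 => hd.1 (h2 ▸ h1)
    rcases nb_or h1 (tw_mem h hwk hne) with h2 | h2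
    · exact hd.1 h2
    · exact hd.2 h2
  · by_cases h2 : k' ∈ G.N E
    · exact h2
    · exfalso
      have h3 : k' ∈ G.Co E := mem_Co37.2 ⟨h1, h2⟩
      have hne : u ≠ k' := fun h4 => h1 (h4 ▸ hu)
      rcases Co_nb h3 (tw_mem h huk hne) with h4 | h4
      · exact (mem_Co37.1 h4).1 hu
      · exact (mem_N37.1 h4).1 hu

theorem push_step (hC : G.Crit) (h9 : 9 ≤ Fintype.card V) {E S : Finset V} (hE : G.Frag E)
    (h3 : 3 ≤ (G.Co E).card) {x z k s : V} (hx : x ∈ G.N E) (hz : z ∈ G.N E)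
    (hxK : ¬ G.InK x) (hzK : ¬ G.InK z) (hS : G.IsK6 S) (hk : k ∈ S) (hkE : k ∈ G.N E)
    (hs : s ∈ S) (hsE : s ∈ E) :
    ∃ E2, G.Frag E2 ∧ x ∈ G.N E2 ∧ z ∈ G.N E2 ∧ k ∉ G.N E2 ∧
      ∀ w ∈ G.N E2, G.InK w → w ∈ G.N E := by
  classical
  obtain ⟨k', htw⟩ := hS.2.1 k hk
  have hk'S := k6_twin16 hC h9 hS hk htw
  have hk'E := twin_N hE hkE htw
  have hkk : k ≠ k' := fun h => G.irr k (by have := htw.1; rw [← h] at this; exact this)
  have hSE : ∀ t ∈ S, t ∈ E ∨ t ∈ G.N E := by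
    intro t ht
    by_cases h : s = t
    · left; rw [← h]; exact hsE
    · exact nb_or hsE (hS.2.2 s hs t ht h)
  obtain ⟨u, huC, huk⟩ := nbr_Co hE hkE
  have hud := mem_Co37.1 huC
  have huS : u ∉ S := by
    intro h
    rcases hSE u h with h1 | h1
    · exact hud.1 h1
    · exact hud.2 h1
  obtain ⟨hul, v, hvk, hvS, hvu, hvl, hvu', hnb⟩ := port hC h9 hS hk huk huS
  have hNE : ({k, k'} : Finset V) ⊆ G.N E := by
    intro t ht
    rw [mem_insert, mem_singleton] at ht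
    rcases ht with rfl | rfl
    · exact hkE
    · exact hk'E
  have hcard : (G.N E \ {k, k'}).card = 4 := by
    rw [card_sdiff_of_subset hNE, hE.2.1, card_pair hkk]
  -- the new neighbourhood
  have hN : ∀ w ∈ G.N (E ∪ {k, k'}), w ∈ G.N E \ {k, k'} ∨ w = u ∨ (w = v ∧ v ∈ G.Co E) := by
    intro w hw
    obtain ⟨h1, y, hy, hwy⟩ := mem_N37.1 hw
    rw [mem_union, not_or] at h1
    have key : w ∈ G.nb k → w ∈ G.N E \ {k, k'} ∨ w = u ∨ (w = v ∧ v ∈ G.Co E) := by
      intro h2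
      rw [hnb, mem_insert, mem_insert, mem_erase] at h2
      rcases h2 with h2 | h2 | h2
      · exact Or.inr (Or.inl h2)
      · by_cases h5 : v ∈ G.Co E
        · exact Or.inr (Or.inr ⟨h2, h5⟩)
        · left
          rw [mem_sdiff]
          refine ⟨?_, h1.2⟩
          by_contra h6
          exact h5 (h2 ▸ mem_Co37.2 ⟨h1.1, h6⟩)
      · left
        rw [mem_sdiff]
        exact ⟨(hSE w h2.2).resolve_left h1.1, h1.2⟩
    rw [mem_union, mem_insert, mem_singleton] at hy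
    rcases hy with hy | rfl | rfl
    · left
      rw [mem_sdiff]
      exact ⟨(nb_or hy hwy).resolve_left h1.1, h1.2⟩
    · exact key hwy
    · apply key
      have h2 : w ∈ G.cl k := by
        rw [htw.2.2]
        exact mem_insert_of_mem hwy
      refine (mem_insert.1 h2).resolve_left fun h3 => h1.2 ?_
      rw [h3]
      exact mem_insert_self _ _
  have hCo2 : (G.Co (E ∪ {k, k'})).Nonempty := by
    have h1 : ∃ t ∈ G.Co E, t ∉ ({u, v} : Finset V) := by
      by_contra hno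
      push Not at hno
      have h2 := card_le_card (fun t ht => hno t ht : G.Co E ⊆ {u, v})
      have h4 := card_le_two (a := u) (b := v)
      omega
    obtain ⟨t, ht, htn⟩ := h1
    have ht' := mem_Co37.1 ht
    refine ⟨t, mem_Co37.2 ⟨?_, ?_⟩⟩
    · rw [mem_union, not_or]
      exact ⟨ht'.1, fun h => ht'.2 (hNE h)⟩
    · intro h
      rw [mem_insert, mem_singleton, not_or] at htn
      rcases hN t h with h1 | h1 | h1
      · exact ht'.2 (mem_sdiff.1 h1).1
      · exact htn.1 h1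
      · exact htn.2 h1.1
  have hne2 : (E ∪ {k, k'}).Nonempty := hE.1.mono subset_union_left
  have h6 := stN6_37 G _ hne2 hCo2
  have hvC : v ∈ G.Co E := by
    by_contra hv
    have h1 : G.N (E ∪ {k, k'}) ⊆ insert u (G.N E \ {k, k'}) := by
      intro w hw
      rw [mem_insert]
      rcases hN w hw with h1 | h1 | h1
      · exact Or.inr h1
      · exact Or.inl h1
      · exact absurd h1.2 hv
    have h2 := (card_le_card h1).trans (card_insert_le _ _)
    omega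
  have hsub : G.N (E ∪ {k, k'}) ⊆ insert u (insert v (G.N E \ {k, k'})) := by
    intro w hw
    rw [mem_insert, mem_insert]
    rcases hN w hw with h1 | h1 | h1
    · exact Or.inr (Or.inr h1)
    · exact Or.inl h1
    · exact Or.inr (Or.inl h1.1)
  have hle : (insert u (insert v (G.N E \ {k, k'}))).card ≤ 6 := by
    have h1 := card_insert_le u (insert v (G.N E \ {k, k'}))
    have h2 := card_insert_le v (G.N E \ {k, k'})
    omega
  have heq := eq_of_subset_of_card_le hsub (hle.trans h6)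
  have hin : ∀ y, y ∈ G.N E → ¬ G.InK y → y ∈ G.N (E ∪ {k, k'}) := by
    intro y hy hyK
    rw [heq, mem_insert, mem_insert, mem_sdiff, mem_insert, mem_singleton, not_or]
    refine Or.inr (Or.inr ⟨hy, ?_, ?_⟩)
    · rintro rfl; exact hyK ⟨S, hS, hk⟩
    · rintro rfl; exact hyK ⟨S, hS, hk'S⟩
  refine ⟨E ∪ {k, k'}, ⟨hne2, le_antisymm ((card_le_card hsub).trans hle) h6, hCo2⟩,
    hin x hx hxK, hin z hz hzK, ?_, ?_⟩
  · intro h
    exact (mem_N37.1 h).1 (mem_union_right _ (mem_insert_self _ _))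
  · intro w hw hwK
    rcases hN w hw with h1 | h1 | h1
    · exact (mem_sdiff.1 h1).1
    · exact absurd (h1 ▸ hwK) (low_not hul)
    · exact absurd (h1.1 ▸ hwK) (low_not hvl)

/-- every edge that is not covered by a small fragment is covered by a good fragment -/
theorem push (hC : G.Crit) (h9 : 9 ≤ Fintype.card V) {x z : V} (hxK : ¬ G.InK x)
    (hzK : ¬ G.InK z) (hns : ¬ G.SCov x z) {E : Finset V} (hE : G.Frag E) (hx : x ∈ G.N E)
    (hz : z ∈ G.N E) : ∃ E', G.GoodK E' ∧ x ∈ G.N E' ∧ z ∈ G.N E' := by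
  classical
  induction hn : ((G.N E).filter fun v => G.InK v).card using Nat.strong_induction_on
    generalizing E with
  | _ n ih =>
  subst hn
  obtain ⟨hE', hNE', hCE'⟩ := stCo_37 G E hE
  have c1 : 3 ≤ E.card := by
    by_contra h
    exact hns ⟨E, hE, by omega, hx, hz⟩
  have c2 : 3 ≤ (G.Co E).card := by
    by_contra h
    exact hns ⟨G.Co E, hE', by omega, by rw [hNE']; exact hx, by rw [hNE']; exact hz⟩
  by_cases hall : ∀ v ∈ G.N E, ¬ G.InK v
  · exact ⟨E, ⟨⟨hE, c1, c2⟩, hall⟩, hx, hz⟩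
  push Not at hall
  obtain ⟨k, hkE, S, hS, hk⟩ := hall
  have hsN : ∃ s ∈ S, s ∉ G.N E := by
    by_contra hno
    push Not at hno
    have h1 : S = G.N E := eq_of_subset_of_card_le hno (by rw [hE.2.1, hS.1])
    exact hxK ⟨S, hS, by rw [h1]; exact hx⟩
  obtain ⟨s, hs, hsN⟩ := hsN
  have fin : ∀ E2 : Finset V, G.Frag E2 → x ∈ G.N E2 → z ∈ G.N E2 → k ∉ G.N E2 →
      (∀ w ∈ G.N E2, G.InK w → w ∈ G.N E) → ∃ E', G.GoodK E' ∧ x ∈ G.N E' ∧ z ∈ G.N E' := by
    intro E2 h1 h2 h3 h4 h5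
    refine ih _ ?_ h1 h2 h3 rfl
    apply card_lt_card
    refine ⟨fun w hw => ?_, fun h => ?_⟩
    · rw [mem_filter] at hw ⊢
      exact ⟨h5 w hw.1 hw.2, hw.2⟩
    · have h6 := h (mem_filter.2 ⟨hkE, S, hS, hk⟩)
      exact h4 (mem_filter.1 h6).1
  by_cases hsE : s ∈ E
  · obtain ⟨E2, h1, h2, h3, h4, h5⟩ := push_step hC h9 hE c2 hx hz hxK hzK hS hk hkE hs hsE
    exact fin E2 h1 h2 h3 h4 h5
  · have hsC : s ∈ G.Co E := mem_Co37.2 ⟨hsE, hsN⟩
    obtain ⟨E2, h1, h2, h3, h4, h5⟩ := push_step hC h9 hE' (by rw [hCE']; exact c1)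
      (by rw [hNE']; exact hx) (by rw [hNE']; exact hz) hxK hzK hS hk
      (by rw [hNE']; exact hkE) hs hsC
    rw [hNE'] at h5
    exact fin E2 h1 h2 h3 h4 h5

/-! ### the structure lemma -/

section

open Struct53

/-- The corner inequality and the fragment in the case of equality; `E` may be replaced by the
opposite side. -/
theorem cornerG (G : CG V) (h6 : G.StN6) {F E : Finset V} (hF : G.Big F) {z v : V} (hzF : z ∈ F)
    (hv : v ∈ G.nb z) (hzE : z ∈ G.N E) (hvE : v ∈ G.N E) (hS : ¬ G.SCov z v) :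
    ((F ∩ E).Nonempty → 6 ≤ (G.N F ∩ E).card + (G.N F ∩ G.N E).card + (F ∩ G.N E).card) ∧
    ((F ∩ E).Nonempty → (G.N F ∩ E).card + (G.N F ∩ G.N E).card + (F ∩ G.N E).card = 6 →
      G.Big (F ∩ E) ∧ F ∩ E ⊂ F ∧ z ∈ G.N (F ∩ E) ∧ v ∈ G.N (F ∩ E)) := by
  have hsub := N_inter G F E
  have hcard : (G.N (F ∩ E)).card ≤
      (G.N F ∩ E).card + (G.N F ∩ G.N E).card + (F ∩ G.N E).card :=
    (card_le_card hsub).trans ((card_union_le _ _).trans
      (Nat.add_le_add_right (card_union_le _ _) _))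
  have hCo : G.Co F ⊆ G.Co (F ∩ E) := by
    intro x hx
    rw [mem_Co] at hx ⊢
    refine ⟨fun h => hx.1 (mem_inter.1 h).1, fun h => ?_⟩
    obtain ⟨⟨u, hu, hxu⟩, hn⟩ := (mem_N G).1 h
    rcases nb_mem G (mem_inter.1 hu).1 hxu with h1 | h1
    · exact hx.1 h1
    · exact hx.2 h1
  have hCoN : (G.Co (F ∩ E)).Nonempty := hF.1.2.2.mono hCo
  refine ⟨fun hne => (h6 _ hne hCoN).trans hcard, fun hne he => ?_⟩
  have hN6 := h6 _ hne hCoN
  have hNcard : (G.N (F ∩ E)).card = 6 := by omega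
  have hun : ((G.N F ∩ E) ∪ (G.N F ∩ G.N E) ∪ (F ∩ G.N E)).card ≤ 6 := by
    have := (card_union_le (G.N F ∩ E ∪ G.N F ∩ G.N E) (F ∩ G.N E)).trans
      (Nat.add_le_add_right (card_union_le _ _) _)
    omega
  have heq : G.N (F ∩ E) = (G.N F ∩ E) ∪ (G.N F ∩ G.N E) ∪ (F ∩ G.N E) :=
    eq_of_subset_of_card_le hsub (by omega)
  have hz : z ∈ G.N (F ∩ E) := by
    rw [heq]
    exact mem_union_right _ (mem_inter.2 ⟨hzF, hzE⟩)
  have hvN : v ∈ G.N (F ∩ E) := by
    rw [heq]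
    rcases nb_mem G hzF hv with h1 | h1
    · exact mem_union_right _ (mem_inter.2 ⟨h1, hvE⟩)
    · exact mem_union_left _ (mem_union_right _ (mem_inter.2 ⟨h1, hvE⟩))
  have hfrag : G.Frag (F ∩ E) := ⟨hne, hNcard, hCoN⟩
  have h3 : 3 ≤ (F ∩ E).card := by
    by_contra h
    exact hS ⟨_, hfrag, by omega, hz, hvN⟩
  refine ⟨⟨hfrag, h3, hF.2.2.trans (card_le_card hCo)⟩, ?_, hz, hvN⟩
  refine ⟨inter_subset_left, fun h => ?_⟩
  exact ((mem_N G).1 hz).2 (h hzF)

/-- the structure lemma for good fragments -/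
theorem structG (G : CG V) (h6 : G.StN6) (hCo : G.StCo) (hC : G.Crit)
    (h9 : 9 ≤ Fintype.card V) {F : Finset V} (hFg : G.GoodK F) {z : V} (hzF : z ∈ F)
    (hzK : ¬ G.InK z) {v : V} (hv : v ∈ G.nb z) (hvK : ¬ G.InK v) (hS : ¬ G.SCov z v) :
    (∃ B, G.GoodK B ∧ B ⊂ F ∧ z ∈ G.N B ∧ v ∈ G.N B) ∨ (F.card = 3 ∧ v ∈ F) := by
  have hF := hFg.1
  obtain ⟨E0, hE0, hzE0, hvE0⟩ := hC z v hv
  obtain ⟨E, hEg, hzE, hvE⟩ := push hC h9 hzK hvK hS hE0 hzE0 hvE0
  have hE := hEg.1.1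
  obtain ⟨hE', hNE', hCE'⟩ := hCo E hE
  have c1 : 3 ≤ E.card := by
    by_contra h
    exact hS ⟨E, hE, by omega, hzE, hvE⟩
  have c2 : 3 ≤ (G.Co E).card := by
    by_contra h
    exact hS ⟨G.Co E, hE', by omega, by rw [hNE']; exact hzE, by rw [hNE']; exact hvE⟩
  obtain ⟨hF', hNF', hCF'⟩ := hCo F hF.1
  have k1 := cornerG G h6 hF hzF hv hzE hvE hS
  have k2 := cornerG G h6 (E := G.Co E) hF hzF hv (by rw [hNE']; exact hzE)
    (by rw [hNE']; exact hvE) hS
  rw [hNE'] at k2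
  have goodN : ∀ E' : Finset V, (∀ w ∈ G.N E', ¬ G.InK w) → ∀ w ∈ G.N (F ∩ E'), ¬ G.InK w := by
    intro E' hE' w hw
    have h1 := N_inter G F E' hw
    simp only [mem_union, mem_inter] at h1
    rcases h1 with (h1 | h1) | h1
    · exact hFg.2 w h1.1
    · exact hFg.2 w h1.1
    · exact hE' w h1.2
  -- the corners on the other side
  have k3 : ∀ X : Finset V, (G.Co F ∩ X).Nonempty →
      6 ≤ (G.N F ∩ X).card + (G.N F ∩ G.N X).card + (G.Co F ∩ G.N X).card := by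
    intro X hne
    have hsub := N_inter G (G.Co F) X
    rw [hNF'] at hsub
    have hC2 : F ⊆ G.Co (G.Co F ∩ X) := by
      intro x hx
      rw [mem_Co]
      refine ⟨fun h => ((mem_Co G).1 (mem_inter.1 h).1).1 hx, fun h => ?_⟩
      obtain ⟨⟨u, hu, hxu⟩, hn⟩ := (mem_N G).1 h
      have h1 := (mem_Co G).1 (mem_inter.1 hu).1
      have h2 := nb_mem G hx (G.sym _ _ hxu)
      tauto
    have := h6 _ hne (hF.1.1.mono hC2)
    exact this.trans ((card_le_card hsub).trans ((card_union_le _ _).trans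
      (Nat.add_le_add_right (card_union_le _ _) _)))
  have k4 := k3 E
  have k5 := k3 (G.Co E)
  rw [hNE'] at k5
  have p1 := card_part G (G.N F) E
  have p2 := card_part G F E
  have p3 := card_part G (G.Co F) E
  have p4 : (G.N E).card = (F ∩ G.N E).card + (G.N F ∩ G.N E).card + (G.Co F ∩ G.N E).card := by
    have := card_part G (G.N E) F
    rw [inter_comm (G.N E) F, inter_comm (G.N E) (G.N F), inter_comm (G.N E) (G.Co F)] at this
    exact this
  have p5 : E.card = (F ∩ E).card + (G.N F ∩ E).card + (G.Co F ∩ E).card := by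
    have := card_part G E F
    rw [inter_comm E F, inter_comm E (G.N F), inter_comm E (G.Co F)] at this
    exact this
  have p6 : (G.Co E).card =
      (F ∩ G.Co E).card + (G.N F ∩ G.Co E).card + (G.Co F ∩ G.Co E).card := by
    have := card_part G (G.Co E) F
    rw [inter_comm (G.Co E) F, inter_comm (G.Co E) (G.N F),
      inter_comm (G.Co E) (G.Co F)] at this
    exact this
  have q1 := hF.1.2.1
  have q2 := hE.2.1
  have q3 := hF.2.1
  have q4 := hF.2.2
  simp only [← card_pos] at k1 k2 k4 k5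
  by_cases u1 : 0 < (F ∩ E).card ∧
      (G.N F ∩ E).card + (G.N F ∩ G.N E).card + (F ∩ G.N E).card = 6
  · obtain ⟨g1, g2, g3, g4⟩ := k1.2 u1.1 u1.2
    exact Or.inl ⟨_, ⟨g1, goodN E hEg.2⟩, g2, g3, g4⟩
  by_cases u2 : 0 < (F ∩ G.Co E).card ∧
      (G.N F ∩ G.Co E).card + (G.N F ∩ G.N E).card + (F ∩ G.N E).card = 6
  · obtain ⟨g1, g2, g3, g4⟩ := k2.2 u2.1 u2.2
    exact Or.inl ⟨_, ⟨g1, goodN (G.Co E) (by rw [hNE']; exact hEg.2)⟩, g2, g3, g4⟩
  have k1' := k1.1
  have k2' := k2.1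
  have main : F.card = 3 ∧ (G.N F ∩ G.N E).card = 0 := by
    clear k1 k2
    constructor <;> omega
  refine Or.inr ⟨main.1, ?_⟩
  rcases nb_mem G hzF hv with h1 | h1
  · exact h1
  · exfalso
    have h2 : v ∈ G.N F ∩ G.N E := mem_inter.2 ⟨h1, hvE⟩
    rw [card_eq_zero] at main
    rw [main.2] at h2
    exact absurd h2 (notMem_empty v)

end

/-! ### the family -/

theorem good_union {A B : Finset V} (hA : ∀ v ∈ G.N A, ¬ G.InK v)
    (hB : ∀ v ∈ G.N B, ¬ G.InK v) : ∀ v ∈ G.N (A ∪ B), ¬ G.InK v := by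
  intro v hv
  rcases mem_union.1 (N_union37 (G := G) A B hv) with h | h
  · exact hB v (mem_sdiff.1 h).1
  · exact hA v (mem_sdiff.1 h).1

theorem good_sdiff {A B : Finset V} (hd : Disjoint A B) (hB : ∀ v ∈ G.N B, ¬ G.InK v)
    (hA : ∀ v ∈ G.N A, ¬ G.InK v) : ∀ v ∈ G.N (B \ G.N A), ¬ G.InK v := by
  intro v hv
  rcases mem_union.1 (N_sdiff37 (G := G) A B hd hv) with h | h
  · exact hB v (mem_sdiff.1 h).1
  · exact hA v (mem_inter.1 h).2

theorem low_frag (h9 : 9 ≤ Fintype.card V) {w : V} (hw : G.Low w) : G.Frag {w} := by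
  classical
  have h1 : G.N {w} = G.nb w := by
    ext x
    rw [mem_N37, mem_singleton]
    constructor
    · rintro ⟨-, u, hu, hx⟩
      rw [mem_singleton] at hu
      rwa [hu] at hx
    · intro hx
      exact ⟨fun h => G.irr w (by rw [h] at hx; exact hx), w, mem_singleton_self w, hx⟩
  have hw6 : (G.nb w).card = 6 := hw
  refine ⟨singleton_nonempty w, by rw [h1]; exact hw, ?_⟩
  by_contra h2
  rw [not_nonempty_iff_eq_empty] at h2
  have h3 : (univ : Finset V) ⊆ insert w (G.nb w) := by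
    intro x _
    by_contra h4
    rw [mem_insert, not_or] at h4
    have h5 : x ∈ G.Co {w} := mem_Co37.2 ⟨by rw [mem_singleton]; exact h4.1, by rw [h1]; exact h4.2⟩
    rw [h2] at h5
    exact absurd h5 (notMem_empty x)
  have h4 := card_le_card h3
  have h5 := card_insert_le w (G.nb w)
  rw [card_univ] at h4
  omega

theorem pair_frag (h9 : 9 ≤ Fintype.card V) {q q' : V} (h : G.Tw q q') : G.Frag {q, q'} := by
  classical
  have hne : q ≠ q' := fun h1 => G.irr q (by have := h.1; rw [← h1] at this; exact this)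
  have h7 : (G.nb q).card = 7 := h.2.1
  have h1 : G.N {q, q'} = (G.nb q).erase q' := by
    ext x
    rw [mem_N37, mem_insert, mem_singleton, mem_erase, not_or]
    constructor
    · rintro ⟨⟨hx1, hx2⟩, u, hu, hx⟩
      refine ⟨hx2, ?_⟩
      rw [mem_insert, mem_singleton] at hu
      rcases hu with rfl | rfl
      · exact hx
      · have h2 : x ∈ G.cl q := by
          rw [h.2.2]
          exact mem_insert_of_mem hx
        exact (mem_insert.1 h2).resolve_left hx1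
    · rintro ⟨hx1, hx2⟩
      exact ⟨⟨fun h3 => G.irr q (by rw [h3] at hx2; exact hx2), hx1⟩, q, mem_insert_self _ _, hx2⟩
  have h2 : (G.N {q, q'}).card = 6 := by
    rw [h1, card_erase_of_mem h.1, h7]
  refine ⟨⟨q, mem_insert_self _ _⟩, h2, ?_⟩
  by_contra h3
  rw [not_nonempty_iff_eq_empty] at h3
  have h4 : (univ : Finset V) ⊆ insert q (G.nb q) := by
    intro x _
    by_contra h5
    rw [mem_insert, not_or] at h5
    have h6 : x ∈ G.Co {q, q'} := by
      rw [mem_Co37, h1, mem_erase, mem_insert, mem_singleton, not_or]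
      refine ⟨⟨h5.1, ?_⟩, fun h6 => h5.2 h6.2⟩
      intro h6
      exact h5.2 (h6 ▸ h.1)
    rw [h3] at h6
    exact absurd h6 (notMem_empty x)
  have h5 := card_le_card h4
  have h6 := card_insert_le q (G.nb q)
  rw [card_univ] at h5
  omega

/-- edges at a vertex of a `K6` are covered by small fragments -/
theorem k6_scov (hC : G.Crit) (h9 : 9 ≤ Fintype.card V) {S : Finset V} (hS : G.IsK6 S) {z v : V}
    (hz : z ∈ S) (hv : v ∈ G.nb z) : G.SCov z v := by
  classical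
  by_cases hvS : v ∈ S
  · obtain ⟨z', hz'⟩ := hS.2.1 z hz
    obtain ⟨v', hv'⟩ := hS.2.1 v hvS
    have h1 : ∃ q ∈ S, q ∉ ({z, z', v, v'} : Finset V) := by
      by_contra h
      push Not at h
      have h2 : S ⊆ ({z, z', v, v'} : Finset V) := h
      have h3 := card_le_card h2
      have h4 := card_le_four (a := z) (b := z') (c := v) (d := v')
      have := hS.1
      omega
    obtain ⟨q, hq, hq4⟩ := h1
    rw [mem_insert, mem_insert, mem_insert, mem_singleton, not_or, not_or, not_or] at hq4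
    obtain ⟨q', hq'⟩ := hS.2.1 q hq
    have hq'S := k6_twin16 hC h9 hS hq hq'
    have hT := stTwHL_5 G
    have a1 : z ≠ q' := by
      intro h
      rw [← h] at hq'
      exact hq4.2.1 (hT.uniq h9 z q z' (hT.symm _ _ hq') hz')
    have a2 : v ≠ q' := by
      intro h
      rw [← h] at hq'
      exact hq4.2.2.2 (hT.uniq h9 v q v' (hT.symm _ _ hq') hv')
    refine ⟨{q, q'}, pair_frag h9 hq', card_le_two, ?_, ?_⟩
    · rw [mem_N37, mem_insert, mem_singleton, not_or]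
      exact ⟨⟨fun h => hq4.1 h.symm, a1⟩, q, mem_insert_self _ _, hS.2.2 q hq z hz hq4.1⟩
    · rw [mem_N37, mem_insert, mem_singleton, not_or]
      exact ⟨⟨fun h => hq4.2.2.1 h.symm, a2⟩, q, mem_insert_self _ _,
        hS.2.2 q hq v hvS hq4.2.2.1⟩
  · obtain ⟨-, w, hw1, hw2, hw3, hw4, hw5, -⟩ := port hC h9 hS hz hv hvS
    refine ⟨{w}, low_frag h9 hw4, by rw [card_singleton]; omega, ?_, ?_⟩
    · rw [mem_N37, mem_singleton]
      exact ⟨fun h => hw2 (h ▸ hz), w, mem_singleton_self w, G.sym _ _ hw1⟩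
    · rw [mem_N37, mem_singleton]
      exact ⟨fun h => hw3 h.symm, w, mem_singleton_self w, G.sym _ _ hw5⟩

/-- the family of a `K6` is empty -/
theorem famK (hC : G.Crit) (h9 : 9 ≤ Fintype.card V) {F : Finset V} (hF : G.GoodK F)
    (hK : G.IsK6 F) : ∃ Fa : Finset (Finset V),
    (∀ B ∈ Fa, G.GoodK B ∧ B ⊂ F) ∧
    (∀ B ∈ Fa, ∀ B' ∈ Fa, B ≠ B' → Disjoint B B' ∧ Disjoint (G.N B) B') ∧
    (∀ z ∈ F, (∀ A ∈ Fa, z ∉ A) → ∀ v ∈ G.nb z, ¬ G.SCov z v →
      ∃ A ∈ Fa, z ∈ G.N A ∧ (v ∈ A ∨ v ∈ G.N A)) ∧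
    (∀ B ∈ Fa, ∀ Z : Finset V, Z.Nonempty → Z ⊆ F → Z ⊆ G.N B →
      (∀ z ∈ Z, ∀ A ∈ Fa, A ≠ B → z ∉ G.N A) →
      Z.card < (G.N Z ∩ G.Co B).card ∨ (Fa = {B} ∧ Z = F \ B)) ∧
    (Fa.Nonempty → ∀ Z : Finset V, Z.Nonempty → Z ⊆ G.N F → (∀ z ∈ Z, ∀ A ∈ Fa, z ∉ G.N A) →
      Z.card < (G.N Z ∩ F).card ∨ ∃ B, Fa = {B} ∧ G.N Z ∩ F = F \ B ∧ (F \ B).card = Z.card) ∧
    (Fa = ∅ → ∀ B, G.GoodK B → ¬ B ⊂ F) ∧
    (Fa.Nonempty → ∀ B, G.GoodK B → B ⊆ F → ∃ A ∈ Fa, ¬ Disjoint B (A ∪ G.N A)) := by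
  refine ⟨∅, by simp, by simp, ?_, by simp, by simp, ?_, by simp⟩
  · intro z hz _ v hv hn
    exact absurd (k6_scov hC h9 hK hz hv) hn
  · intro _ B hB hBF
    obtain ⟨b, hb⟩ := hB.1.1.1
    obtain ⟨s, hs, hsB⟩ := exists_of_ssubset hBF
    have hne : b ≠ s := fun h => hsB (h ▸ hb)
    exact hB.2 s (mem_N37.2 ⟨hsB, b, hb, hK.2.2 b (hBF.1 hb) s hs hne⟩) ⟨F, hK, hs⟩

theorem famUG (G : CG V) (h6 : G.StN6) (hu : G.StUnion) (hC : G.Crit)
    (h9 : 9 ≤ Fintype.card V) {F : Finset V} (hFg : G.GoodK F) : ∀ U : Finset V, U ⊆ F →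
    (∀ S, G.IsK6 S → ∀ z ∈ U, ∀ k ∈ S, k ∈ G.nb z → S ⊆ U) →
    ∃ Fa : Finset (Finset V),
    (∀ B ∈ Fa, G.GoodK B ∧ B ⊆ U) ∧
    (∀ B ∈ Fa, ∀ B' ∈ Fa, B ≠ B' → Disjoint B B' ∧ Disjoint (G.N B) B') ∧
    (∀ B, G.GoodK B → B ⊆ U → ∀ z ∈ F, (∀ A ∈ Fa, z ∉ A) → z ∈ G.N B → ∀ v ∈ G.nb z, v ∈ G.N B →
      ¬ G.SCov z v → ∃ A ∈ Fa, z ∈ G.N A ∧ (v ∈ A ∨ v ∈ G.N A)) ∧
    (∀ B ∈ Fa, ∀ Z : Finset V, Z.Nonempty → Z ⊆ U → Z ⊆ G.N B →
      (∀ z ∈ Z, ∀ A ∈ Fa, A ≠ B → z ∉ G.N A) → Z.card < (G.N Z ∩ G.Co B).card) ∧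
    (∀ B, G.GoodK B → B ⊆ U → ∃ A ∈ Fa, ¬ Disjoint B (A ∪ G.N A)) := by
  classical
  have hF := hFg.1
  intro U
  induction hn : U.card using Nat.strong_induction_on generalizing U with
  | _ n ih =>
  intro hUF hUK
  subst hn
  by_cases hex : ∃ B, G.GoodK B ∧ B ⊆ U
  swap
  · refine ⟨∅, by simp, by simp, ?_, by simp, ?_⟩
    · intro B hB hBU
      exact absurd ⟨B, hB, hBU⟩ hex
    · intro B hB hBU
      exact absurd ⟨B, hB, hBU⟩ hex
  -- a maximal big subset
  obtain ⟨B1, hB1m, hmax⟩ := exists_max_image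
    ((univ : Finset (Finset V)).filter fun B => G.GoodK B ∧ B ⊆ U) (fun B => B.card)
    (by obtain ⟨B, h⟩ := hex; exact ⟨B, by simpa using h⟩)
  simp only [mem_filter, mem_univ, true_and] at hB1m hmax
  obtain ⟨hB1g, hB1U⟩ := hB1m
  have hB1 := hB1g.1
  have hB1F : B1 ⊆ F := hB1U.trans hUF
  set U1 := U ∩ G.Co B1 with hU1
  have hU1U : U1 ⊆ U := inter_subset_left
  have hU1C : U1 ⊆ G.Co B1 := inter_subset_right
  have hlt : U1.card < U.card := by
    apply card_lt_card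
    refine ⟨hU1U, fun h => ?_⟩
    obtain ⟨b, hb⟩ := hB1.1.1
    have := hU1C (h (hB1U hb))
    rw [mem_Co37] at this
    exact this.1 hb
  have hUK1 : ∀ S, G.IsK6 S → ∀ z ∈ U1, ∀ k ∈ S, k ∈ G.nb z → S ⊆ U1 := by
    intro S hS z hz k hk hkz
    refine subset_inter (hUK S hS z (hU1U hz) k hk hkz) (k6_sub_Co hB1g.2 hS hk ?_)
    rcases Co_nb (hU1C hz) hkz with h | h
    · exact h
    · exact absurd ⟨S, hS, hk⟩ (hB1g.2 k h)
  obtain ⟨Fa, f1, f2, f3, f4, f5⟩ := ih U1.card hlt U1 rfl (hU1U.trans hUF) hUK1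
  -- members of `Fa` are opposite to `B1`
  have hco : ∀ B ∈ Fa, B ⊆ G.Co B1 := fun B hB => (f1 B hB).2.trans hU1C
  have nadj : ∀ B ∈ Fa, Disjoint B1 B ∧ Disjoint (G.N B1) B ∧ Disjoint (G.N B) B1 := by
    intro B hB
    refine ⟨?_, ?_, ?_⟩
    · rw [disjoint_right]
      intro v hv
      exact (mem_Co37.1 (hco B hB hv)).1
    · rw [disjoint_right]
      intro v hv
      exact (mem_Co37.1 (hco B hB hv)).2
    · rw [disjoint_left]
      intro v hv hv1
      rw [mem_N37] at hv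
      obtain ⟨-, u, hu, hvu⟩ := hv
      exact (mem_Co37'.1 (hco B hB hu)).2 v hv1 (G.sym _ _ hvu)
  refine ⟨insert B1 Fa, ?_, ?_, ?_, ?_, ?_⟩
  · intro B hB
    rcases mem_insert.1 hB with rfl | hB
    · exact ⟨hB1g, hB1U⟩
    · exact ⟨(f1 B hB).1, (f1 B hB).2.trans hU1U⟩
  · intro B hB B' hB' hne
    rcases mem_insert.1 hB with h1 | h1
    · rcases mem_insert.1 hB' with h2 | h2
      · exact absurd (h1.trans h2.symm) hne
      · rw [h1]
        exact ⟨(nadj B' h2).1, (nadj B' h2).2.1⟩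
    · rcases mem_insert.1 hB' with h2 | h2
      · rw [h2]
        exact ⟨(nadj B h1).1.symm, (nadj B h1).2.2⟩
      · exact f2 B h1 B' h2 hne
  · intro B hBg hBU z hz hzA hzB v hv hvB hns
    have hB := hBg.1
    have hzB1 : z ∉ B1 := hzA B1 (mem_insert_self _ _)
    by_cases hi : (B ∩ B1).Nonempty
    · -- union
      have h1 := hu F B B1 hF.1 hB.1 hB1.1 (hBU.trans hUF) hB1F hi
      have h2 : G.Big (B ∪ B1) := big_of37 h6 hF (union_subset (hBU.trans hUF) hB1F)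
        (hB.2.1.trans (card_le_card subset_union_left)) h1.1.2.1.le
      have h3 := hmax (B ∪ B1) ⟨⟨h2, good_union hBg.2 hB1g.2⟩, union_subset hBU hB1U⟩
      have h4 : B1 = B ∪ B1 := eq_of_subset_of_card_le subset_union_right h3
      have h5 : B ⊆ B1 := by rw [h4]; exact subset_union_left
      refine ⟨B1, mem_insert_self _ _, ?_, ?_⟩
      · obtain ⟨-, u, hu', hzu⟩ := mem_N37.1 hzB
        exact mem_N37.2 ⟨hzB1, u, h5 hu', hzu⟩
      · by_cases hv1 : v ∈ B1
        · exact Or.inl hv1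
        · obtain ⟨-, u, hu', hvu⟩ := mem_N37.1 hvB
          exact Or.inr (mem_N37.2 ⟨hv1, u, h5 hu', hvu⟩)
    · have hd : Disjoint B1 B := by
        rw [disjoint_iff_inter_eq_empty, inter_comm]
        exact not_nonempty_iff_eq_empty.1 hi
      have hcr := cross37 h6 hF hB1 hB hB1F (hBU.trans hUF) hd
      by_cases he : (B \ G.N B1).Nonempty
      · obtain ⟨hfr, hsub⟩ := hcr.2 he
        by_cases hv1 : v ∈ B1
        · refine ⟨B1, mem_insert_self _ _, mem_N37.2 ⟨hzB1, v, hv1, G.sym _ _ hv⟩, Or.inl hv1⟩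
        · have hzn : z ∈ G.N (B \ G.N B1) := hsub (mem_sdiff.2 ⟨hzB, hzB1⟩)
          have hvn : v ∈ G.N (B \ G.N B1) := hsub (mem_sdiff.2 ⟨hvB, hv1⟩)
          have h3 : 3 ≤ (B \ G.N B1).card := by
            by_contra h
            exact hns ⟨B \ G.N B1, hfr, by omega, hzn, hvn⟩
          have hbig : G.Big (B \ G.N B1) :=
            big_of37 h6 hF (sdiff_subset.trans (hBU.trans hUF)) h3 hfr.2.1.le
          have hsU : B \ G.N B1 ⊆ U1 := by
            intro w hw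
            rw [mem_sdiff] at hw
            refine mem_inter.2 ⟨hBU hw.1, mem_Co37.2 ⟨?_, hw.2⟩⟩
            exact (disjoint_right.1 hd) hw.1
          obtain ⟨A, hA, h⟩ := f3 _ ⟨hbig, good_sdiff hd hBg.2 hB1g.2⟩ hsU z hz
            (fun A hA => hzA A (mem_insert_of_mem hA)) hzn v hv hvn hns
          exact ⟨A, mem_insert_of_mem hA, h⟩
      · exfalso
        have h1 := hcr.1 (not_nonempty_iff_eq_empty.1 he)
        have h2 : G.Big (B1 ∪ B) := big_of37 h6 hF (union_subset hB1F (hBU.trans hUF))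
          (hB1.2.1.trans (card_le_card subset_union_left)) h1
        have h3 := hmax (B1 ∪ B) ⟨⟨h2, good_union hB1g.2 hBg.2⟩, union_subset hB1U hBU⟩
        rw [card_union_of_disjoint hd] at h3
        have := hB.2.1
        omega
  · intro B hB Z hZ hZU hZB hZA
    rcases mem_insert.1 hB with rfl | hB
    · by_contra hcon
      push Not at hcon
      have hdZ : Disjoint B Z := by
        rw [disjoint_right]
        intro v hv
        exact (mem_N37.1 (hZB hv)).1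
      have h1 : G.N (B ∪ Z) ⊆ (G.N B \ Z) ∪ (G.N Z ∩ G.Co B) := by
        intro w hw
        rw [mem_N37] at hw
        obtain ⟨h1, u, hu', hwu⟩ := hw
        rw [mem_union, not_or] at h1
        by_cases hwB : w ∈ G.N B
        · exact mem_union_left _ (mem_sdiff.2 ⟨hwB, h1.2⟩)
        · refine mem_union_right _ (mem_inter.2 ⟨?_, mem_Co37.2 ⟨h1.1, hwB⟩⟩)
          rcases mem_union.1 hu' with hu' | hu'
          · exact absurd (mem_N37.2 ⟨h1.1, u, hu', hwu⟩) hwB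
          · exact mem_N37.2 ⟨h1.2, u, hu', hwu⟩
      have h2 : (G.N (B ∪ Z)).card ≤ 6 := by
        have h3 := (card_le_card h1).trans (card_union_le _ _)
        have h4 : (G.N B \ Z).card + Z.card = 6 := by
          rw [← hB1.1.2.1]
          exact card_sdiff_add_card_eq_card hZB
        omega
      have h5 : G.Big (B ∪ Z) := big_of37 h6 hF (union_subset hB1F (hZU.trans hUF))
        (hB1.2.1.trans (card_le_card subset_union_left)) h2
      have hgd : ∀ w ∈ G.N (B ∪ Z), ¬ G.InK w := by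
        intro w hw hwK
        rcases mem_union.1 (h1 hw) with h7 | h7
        · exact hB1g.2 w (mem_sdiff.1 h7).1 hwK
        · obtain ⟨S, hS, hwS⟩ := hwK
          rw [mem_inter] at h7
          obtain ⟨-, z, hz, hwz⟩ := mem_N37.1 h7.1
          have h8 : S ⊆ U1 := subset_inter (hUK S hS z (hZU hz) w hwS hwz)
            (k6_sub_Co hB1g.2 hS hwS h7.2)
          obtain ⟨A, hA, h9'⟩ := f5 S (k6_good hC h9 hF hS (h8.trans (hU1U.trans hUF))) h8
          obtain ⟨s, hs, hs'⟩ := not_disjoint_iff.1 h9'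
          have h10 : s ∈ A := by
            rcases mem_union.1 hs' with h11 | h11
            · exact h11
            · exact absurd ⟨S, hS, hs⟩ ((f1 A hA).1.2 s h11)
          have h11 : w ∈ A := k6_sub (f1 A hA).1.2 hS hs h10 hwS
          have h12 : z ∉ A := fun h => (mem_Co37.1 (hco A hA h)).2 (hZB hz)
          refine hZA z hz A (mem_insert_of_mem hA) ?_ (mem_N37.2 ⟨h12, w, h11, G.sym _ _ hwz⟩)
          rintro rfl
          exact (mem_Co37.1 h7.2).1 h11
      have h6 := hmax (B ∪ Z) ⟨⟨h5, hgd⟩, union_subset hB1U hZU⟩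
      rw [card_union_of_disjoint hdZ] at h6
      have := hZ.card_pos
      omega
    · have hne : B1 ≠ B := by
        rintro rfl
        obtain ⟨b, hb⟩ := hB1.1.1
        exact (mem_Co37.1 (hco _ hB hb)).1 hb
      apply f4 B hB Z hZ ?_ hZB ?_
      · intro z hz
        refine mem_inter.2 ⟨hZU hz, mem_Co37.2 ⟨?_, ?_⟩⟩
        · exact (disjoint_left.1 (nadj B hB).2.2) (hZB hz)
        · exact hZA z hz B1 (mem_insert_self _ _) hne
      · intro z hz A hA hAB
        exact hZA z hz A (mem_insert_of_mem hA) hAB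
  · intro B hB hBU
    by_cases hd : Disjoint B (B1 ∪ G.N B1)
    · obtain ⟨A, hA, h⟩ := f5 B hB (fun b hb => mem_inter.2 ⟨hBU hb, mem_Co37.2
        ⟨fun h => (disjoint_left.1 hd) hb (mem_union_left _ h),
          fun h => (disjoint_left.1 hd) hb (mem_union_right _ h)⟩⟩)
      exact ⟨A, mem_insert_of_mem hA, h⟩
    · exact ⟨B1, mem_insert_self _ _, hd⟩

end Gd57

open Gd57

/-- the family of maximal good subfragments exists -/
theorem stFamG_57 (G : CG V) : G.StFamG := by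
  classical
  have h6 := G.stN6_37
  have hu := G.stUnion_37
  intro hcr h9 F hFg h4
  have hF := hFg.1
  by_cases hFK : G.IsK6 F
  · exact famK hcr h9 hFg hFK
  have hKF : ∀ S, G.IsK6 S → ∀ k ∈ S, k ∈ F → S ⊂ F ∧ G.GoodK S := by
    intro S hS k hk hkF
    have h1 := k6_sub hFg.2 hS hk hkF
    refine ⟨lt_of_le_of_ne h1 fun h => hFK (h ▸ hS), k6_good hcr h9 hF hS h1⟩
  have hnbF : ∀ z ∈ F, ∀ k ∈ G.nb z, G.InK k → k ∈ F := by
    intro z hz k hk hkK
    rcases nb_or hz hk with h | h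
    · exact h
    · exact absurd hkK (hFg.2 k h)
  by_cases hex : ∃ B, G.GoodK B ∧ B ⊂ F
  swap
  · refine ⟨∅, by simp, by simp, ?_, by simp, by simp, ?_, by simp⟩
    · intro z hz _ v hv hns
      have hzK : ¬ G.InK z := by
        rintro ⟨S, hS, hzS⟩
        obtain ⟨h1, h2⟩ := hKF S hS z hzS hz
        exact hex ⟨S, h2, h1⟩
      have hvK : ¬ G.InK v := by
        intro hvK
        have hvF := hnbF z hz v hv hvK
        obtain ⟨S, hS, hvS⟩ := hvK
        obtain ⟨h1, h2⟩ := hKF S hS v hvS hvF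
        exact hex ⟨S, h2, h1⟩
      rcases structG G h6 G.stCo_37 hcr h9 hFg hz hzK hv hvK hns with ⟨B, hB, hBF, -⟩ | ⟨h, -⟩
      · exact absurd ⟨B, hB, hBF⟩ hex
      · omega
    · intro _ B hB hBF
      exact hex ⟨B, hB, hBF⟩
  obtain ⟨B1, hB1m, hmax⟩ := exists_max_image
    ((univ : Finset (Finset V)).filter fun B => G.GoodK B ∧ B ⊂ F) (fun B => B.card)
    (by obtain ⟨B, h⟩ := hex; exact ⟨B, by simpa using h⟩)
  simp only [mem_filter, mem_univ, true_and] at hB1m hmax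
  obtain ⟨hB1g, hB1F⟩ := hB1m
  have hB1 := hB1g.1
  set U1 := F ∩ G.Co B1 with hU1
  have hU1F : U1 ⊆ F := inter_subset_left
  have hU1C : U1 ⊆ G.Co B1 := inter_subset_right
  have hUK1 : ∀ S, G.IsK6 S → ∀ z ∈ U1, ∀ k ∈ S, k ∈ G.nb z → S ⊆ U1 := by
    intro S hS z hz k hk hkz
    refine subset_inter (hKF S hS k hk (hnbF z (hU1F hz) k hkz ⟨S, hS, hk⟩)).1.1
      (k6_sub_Co hB1g.2 hS hk ?_)
    rcases Co_nb (hU1C hz) hkz with h | h
    · exact h
    · exact absurd ⟨S, hS, hk⟩ (hB1g.2 k h)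
  obtain ⟨Fa, f1, f2, f3, f4, f5⟩ := famUG G h6 hu hcr h9 hFg U1 hU1F hUK1
  have hco : ∀ B ∈ Fa, B ⊆ G.Co B1 := fun B hB => (f1 B hB).2.trans hU1C
  have nadj : ∀ B ∈ Fa, Disjoint B1 B ∧ Disjoint (G.N B1) B ∧ Disjoint (G.N B) B1 := by
    intro B hB
    refine ⟨?_, ?_, ?_⟩
    · rw [disjoint_right]
      intro v hv
      exact (mem_Co37.1 (hco B hB hv)).1
    · rw [disjoint_right]
      intro v hv
      exact (mem_Co37.1 (hco B hB hv)).2
    · rw [disjoint_left]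
      intro v hv hv1
      rw [mem_N37] at hv
      obtain ⟨-, u, hu, hvu⟩ := hv
      exact (mem_Co37'.1 (hco B hB hu)).2 v hv1 (G.sym _ _ hvu)
  have hne1 : ∀ B ∈ Fa, B1 ≠ B := by
    intro B hB
    rintro rfl
    obtain ⟨b, hb⟩ := hB1.1.1
    exact (mem_Co37.1 (hco _ hB hb)).1 hb
  have hprop : ∀ B ∈ Fa, B ⊂ F := by
    intro B hB
    refine ⟨(f1 B hB).2.trans hU1F, fun h => ?_⟩
    obtain ⟨b, hb⟩ := hB1.1.1
    exact (disjoint_left.1 (nadj B hB).1) hb (h (hB1F.1 hb))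
  -- a `K6` inside `F` is inside a member
  have hmem : ∀ S, G.IsK6 S → ∀ k ∈ S, k ∈ F → ∃ A ∈ insert B1 Fa, k ∈ A := by
    intro S hS k hk hkF
    obtain ⟨h1, h2⟩ := hKF S hS k hk hkF
    by_cases hkB : k ∈ B1
    · exact ⟨B1, mem_insert_self _ _, hkB⟩
    have hkC : k ∈ G.Co B1 := mem_Co37.2 ⟨hkB, fun h => hB1g.2 k h ⟨S, hS, hk⟩⟩
    obtain ⟨A, hA, h3⟩ := f5 S h2 (subset_inter h1.1 (k6_sub_Co hB1g.2 hS hk hkC))
    obtain ⟨s, hs, hs'⟩ := not_disjoint_iff.1 h3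
    refine ⟨A, mem_insert_of_mem hA, ?_⟩
    rcases mem_union.1 hs' with h4 | h4
    · exact k6_sub (f1 A hA).1.2 hS hs h4 hk
    · exact absurd ⟨S, hS, hs⟩ ((f1 A hA).1.2 s h4)
  -- a good subfragment containing `B1` is `B1` or `F`
  have hmx : ∀ A, G.GoodK A → B1 ⊆ A → A ⊆ F → A = B1 ∨ A = F := by
    intro A hA h1 h2
    by_cases h : A = F
    · exact Or.inr h
    · left
      have h3 := hmax A ⟨hA, lt_of_le_of_ne h2 h⟩
      exact (eq_of_subset_of_card_le h1 h3).symm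
  refine ⟨insert B1 Fa, ?_, ?_, ?_, ?_, ?_, ?_, ?_⟩
  · intro B hB
    rcases mem_insert.1 hB with rfl | hB
    · exact ⟨hB1g, hB1F⟩
    · exact ⟨(f1 B hB).1, hprop B hB⟩
  · intro B hB B' hB' hne
    rcases mem_insert.1 hB with h1 | h1
    · rcases mem_insert.1 hB' with h2 | h2
      · exact absurd (h1.trans h2.symm) hne
      · rw [h1]
        exact ⟨(nadj B' h2).1, (nadj B' h2).2.1⟩
    · rcases mem_insert.1 hB' with h2 | h2
      · rw [h2]
        exact ⟨(nadj B h1).1.symm, (nadj B h1).2.2⟩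
      · exact f2 B h1 B' h2 hne
  · intro z hz hzA v hv hns
    have hzB1 : z ∉ B1 := hzA B1 (mem_insert_self _ _)
    have hzK : ¬ G.InK z := by
      rintro ⟨S, hS, hzS⟩
      obtain ⟨A, hA, h1⟩ := hmem S hS z hzS hz
      exact hzA A hA h1
    by_cases hvK : G.InK v
    · have hvF := hnbF z hz v hv hvK
      obtain ⟨S, hS, hvS⟩ := hvK
      obtain ⟨A, hA, h1⟩ := hmem S hS v hvS hvF
      exact ⟨A, hA, mem_N37.2 ⟨hzA A hA, v, h1, G.sym _ _ hv⟩, Or.inl h1⟩
    rcases structG G h6 G.stCo_37 hcr h9 hFg hz hzK hv hvK hns with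
      ⟨B, hBg, hBF, hzB, hvB⟩ | ⟨h, -⟩
    swap
    · omega
    have hB := hBg.1
    by_cases hi : (B ∩ B1).Nonempty
    · have h1 := hu F B B1 hF.1 hB.1 hB1.1 hBF.1 hB1F.1 hi
      have h2 : G.Big (B ∪ B1) := big_of37 h6 hF (union_subset hBF.1 hB1F.1)
        (hB.2.1.trans (card_le_card subset_union_left)) h1.1.2.1.le
      rcases hmx _ ⟨h2, good_union hBg.2 hB1g.2⟩ subset_union_right
        (union_subset hBF.1 hB1F.1) with h3 | h3
      · have h5 : B ⊆ B1 := by rw [← h3]; exact subset_union_left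
        refine ⟨B1, mem_insert_self _ _, ?_, ?_⟩
        · obtain ⟨-, u, hu', hzu⟩ := mem_N37.1 hzB
          exact mem_N37.2 ⟨hzB1, u, h5 hu', hzu⟩
        · by_cases hv1 : v ∈ B1
          · exact Or.inl hv1
          · obtain ⟨-, u, hu', hvu⟩ := mem_N37.1 hvB
            exact Or.inr (mem_N37.2 ⟨hv1, u, h5 hu', hvu⟩)
      · exfalso
        rw [← h3, mem_union] at hz
        rcases hz with h | h
        · exact (mem_N37.1 hzB).1 h
        · exact hzB1 h
    · have hd : Disjoint B1 B := by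
        rw [disjoint_iff_inter_eq_empty, inter_comm]
        exact not_nonempty_iff_eq_empty.1 hi
      have hcr := cross37 h6 hF hB1 hB hB1F.1 hBF.1 hd
      by_cases he : (B \ G.N B1).Nonempty
      · obtain ⟨hfr, hsub⟩ := hcr.2 he
        by_cases hv1 : v ∈ B1
        · refine ⟨B1, mem_insert_self _ _, mem_N37.2 ⟨hzB1, v, hv1, G.sym _ _ hv⟩, Or.inl hv1⟩
        · have hzn : z ∈ G.N (B \ G.N B1) := hsub (mem_sdiff.2 ⟨hzB, hzB1⟩)
          have hvn : v ∈ G.N (B \ G.N B1) := hsub (mem_sdiff.2 ⟨hvB, hv1⟩)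
          have h3 : 3 ≤ (B \ G.N B1).card := by
            by_contra h
            exact hns ⟨B \ G.N B1, hfr, by omega, hzn, hvn⟩
          have hbig : G.Big (B \ G.N B1) :=
            big_of37 h6 hF (sdiff_subset.trans hBF.1) h3 hfr.2.1.le
          have hsU : B \ G.N B1 ⊆ U1 := by
            intro w hw
            rw [mem_sdiff] at hw
            refine mem_inter.2 ⟨hBF.1 hw.1, mem_Co37.2 ⟨?_, hw.2⟩⟩
            exact (disjoint_right.1 hd) hw.1
          obtain ⟨A, hA, h⟩ := f3 _ ⟨hbig, good_sdiff hd hBg.2 hB1g.2⟩ hsU z hz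
            (fun A hA => hzA A (mem_insert_of_mem hA)) hzn v hv hvn hns
          exact ⟨A, mem_insert_of_mem hA, h⟩
      · exfalso
        have h1 := hcr.1 (not_nonempty_iff_eq_empty.1 he)
        have h2 : G.Big (B1 ∪ B) := big_of37 h6 hF (union_subset hB1F.1 hBF.1)
          (hB1.2.1.trans (card_le_card subset_union_left)) h1
        rcases hmx _ ⟨h2, good_union hB1g.2 hBg.2⟩ subset_union_left
          (union_subset hB1F.1 hBF.1) with h3 | h3
        · obtain ⟨b, hb⟩ := hB.1.1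
          have : b ∈ B1 := by rw [← h3]; exact mem_union_right _ hb
          exact (disjoint_left.1 hd) this hb
        · rw [← h3, mem_union] at hz
          rcases hz with h | h
          · exact hzB1 h
          · exact (mem_N37.1 hzB).1 h
  · intro B hB Z hZ hZF hZB hZA
    rcases mem_insert.1 hB with h0 | hB
    · rw [h0] at hZB hZA ⊢
      by_contra hcon
      push Not at hcon
      obtain ⟨hc1, hc2⟩ := hcon
      have hdZ : Disjoint B1 Z := by
        rw [disjoint_right]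
        intro v hv
        exact (mem_N37.1 (hZB hv)).1
      have h2 : (G.N (B1 ∪ Z)).card ≤ 6 := by
        have h3 := (card_le_card (N_add37 (G := G) B1 Z)).trans (card_union_le _ _)
        have h4 : (G.N B1 \ Z).card + Z.card = 6 := by
          rw [← hB1.1.2.1]
          exact card_sdiff_add_card_eq_card hZB
        omega
      have h5 : G.Big (B1 ∪ Z) := big_of37 h6 hF (union_subset hB1F.1 hZF)
        (hB1.2.1.trans (card_le_card subset_union_left)) h2
      have hgd : ∀ w ∈ G.N (B1 ∪ Z), ¬ G.InK w := by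
        intro w hw hwK
        rcases mem_union.1 (N_add37 (G := G) B1 Z hw) with h7 | h7
        · exact hB1g.2 w (mem_sdiff.1 h7).1 hwK
        · rw [mem_inter] at h7
          obtain ⟨-, z, hz, hwz⟩ := mem_N37.1 h7.1
          have hwF := hnbF z (hZF hz) w hwz hwK
          obtain ⟨S, hS, hwS⟩ := hwK
          obtain ⟨A, hA, h8⟩ := hmem S hS w hwS hwF
          have hAB : A ≠ B1 := by
            rintro rfl
            exact (mem_Co37.1 h7.2).1 h8
          have hAF : A ∈ Fa := (mem_insert.1 hA).resolve_left hAB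
          have h12 : z ∉ A := fun h => (mem_Co37.1 (hco A hAF h)).2 (hZB hz)
          exact hZA z hz A hA hAB (mem_N37.2 ⟨h12, w, h8, G.sym _ _ hwz⟩)
      rcases hmx _ ⟨h5, hgd⟩ subset_union_left (union_subset hB1F.1 hZF) with h3 | h3
      · obtain ⟨b, hb⟩ := hZ
        have : b ∈ B1 := by rw [← h3]; exact mem_union_right _ hb
        exact (disjoint_left.1 hdZ) this hb
      · have hZe : Z = F \ B1 := by
          rw [← h3, union_sdiff_left]
          exact (sdiff_eq_self_of_disjoint hdZ.symm).symm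
        have hFa : Fa = ∅ := by
          rw [eq_empty_iff_forall_notMem]
          intro A hA
          obtain ⟨a, ha⟩ := (f1 A hA).1.1.1.1
          have h7 : a ∈ Z := by
            rw [hZe, mem_sdiff]
            exact ⟨(hprop A hA).1 ha, (disjoint_right.1 (nadj A hA).1) ha⟩
          exact (mem_Co37.1 (hco A hA ha)).2 (hZB h7)
        exact hc2 (by rw [hFa, insert_empty_eq]) hZe
    · left
      apply f4 B hB Z hZ ?_ hZB ?_
      · intro z hz
        refine mem_inter.2 ⟨hZF hz, mem_Co37.2 ⟨?_, ?_⟩⟩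
        · exact (disjoint_left.1 (nadj B hB).2.2) (hZB hz)
        · exact hZA z hz B1 (mem_insert_self _ _) (hne1 B hB)
      · intro z hz A hA hAB
        exact hZA z hz A (mem_insert_of_mem hA) hAB
  · intro _ Z hZ hZF hZA
    by_contra hcon
    push Not at hcon
    obtain ⟨hc1, hc2⟩ := hcon
    have hB1s : ∀ A ∈ insert B1 Fa, A ⊆ F → A ⊆ F \ G.N Z := by
      intro A hA hAF a ha
      rw [mem_sdiff]
      refine ⟨hAF ha, fun h => ?_⟩
      obtain ⟨-, u, hu, hau⟩ := mem_N37.1 h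
      apply hZA u hu A hA
      rw [mem_N37]
      refine ⟨fun h => ?_, a, ha, G.sym _ _ hau⟩
      exact (mem_N37.1 (hZF hu)).1 (hAF h)
    have hb1 := hB1s B1 (mem_insert_self _ _) hB1F.1
    have hcard : (G.N (F \ G.N Z)).card ≤ (G.N F \ Z).card + (G.N Z ∩ F).card :=
      (card_le_card (N_sub37 (G := G) hZF)).trans (card_union_le _ _)
    have h4 : (G.N F \ Z).card + Z.card = 6 := by
      rw [← hF.1.2.1]
      exact card_sdiff_add_card_eq_card hZF
    have hbig : G.Big (F \ G.N Z) := big_of37 h6 hF sdiff_subset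
      (hB1.2.1.trans (card_le_card hb1)) (by omega)
    have h6' : 6 ≤ (G.N (F \ G.N Z)).card := hbig.1.2.1.ge
    have hne : F \ G.N Z ≠ F := by
      intro h
      obtain ⟨z, hz⟩ := hZ
      obtain ⟨u, hu, huz⟩ := nbr_in37 (hZF hz)
      have h1 : u ∈ F \ G.N Z := by rw [h]; exact hu
      rw [mem_sdiff] at h1
      exact h1.2 (mem_N37.2 ⟨fun h => (mem_N37.1 (hZF h)).1 hu, z, hz, huz⟩)
    have hgd : ∀ w ∈ G.N (F \ G.N Z), ¬ G.InK w := by
      intro w hw hwK
      rcases mem_union.1 (N_sub37 (G := G) hZF hw) with h7 | h7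
      · exact hFg.2 w (mem_sdiff.1 h7).1 hwK
      · rw [mem_inter] at h7
        obtain ⟨-, z, hz, hwz⟩ := mem_N37.1 h7.1
        obtain ⟨S, hS, hwS⟩ := hwK
        obtain ⟨A, hA, h8⟩ := hmem S hS w hwS h7.2
        have hAF : A ⊆ F := by
          rcases mem_insert.1 hA with rfl | hA
          · exact hB1F.1
          · exact (hprop A hA).1
        exact hZA z hz A hA (mem_N37.2 ⟨fun h => (mem_N37.1 (hZF hz)).1 (hAF h), w, h8,
          G.sym _ _ hwz⟩)
    rcases hmx _ ⟨hbig, hgd⟩ hb1 sdiff_subset with h3 | h3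
    · have h5 : G.N Z ∩ F = F \ B1 := by
        ext w
        rw [← h3, mem_inter, mem_sdiff, mem_sdiff]
        tauto
      have hFa : Fa = ∅ := by
        rw [eq_empty_iff_forall_notMem]
        intro A hA
        obtain ⟨a, ha⟩ := (f1 A hA).1.1.1.1
        have h7 := hB1s A (mem_insert_of_mem hA) (hprop A hA).1 ha
        rw [h3] at h7
        exact (disjoint_left.1 (nadj A hA).1) h7 ha
      refine hc2 B1 (by rw [hFa, insert_empty_eq]) h5 ?_
      rw [← h5]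
      omega
    · exact hne h3
  · intro h
    exact absurd h (insert_ne_empty _ _)
  · intro _ B hB hBF
    by_cases hd : Disjoint B (B1 ∪ G.N B1)
    · obtain ⟨A, hA, h⟩ := f5 B hB (fun b hb => mem_inter.2 ⟨hBF hb, mem_Co37.2
        ⟨fun h => (disjoint_left.1 hd) hb (mem_union_left _ h),
          fun h => (disjoint_left.1 hd) hb (mem_union_right _ h)⟩⟩)
      exact ⟨A, mem_insert_of_mem hA, h⟩
    · exact ⟨B1, mem_insert_self _ _, hd⟩

end CG

end Pool.Agent.Lib.MP_e95c01_co.N
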