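import Pool.Agent.Lib.MP_e95c01_co.Y.Val6
import Pool.Agent.Lib.MP_e95c01_co.Y.Cnt31

/-!
# The shares of the port pairs that cost nothing
-/

set_option autoImplicit false

namespace Pool.Agent.Lib.MP_e95c01_co.N

open Finset

variable {V : Type} [Fintype V] [DecidableEq V]

namespace CG

variable {G : CG V} {Fa : Finset (Finset V)} {F : Finset V}

namespace Vl6

theorem sh_ge {hx : V → ℤ} {w : V} (hw : 0 ≤ hx w) (h1 : 1 ≤ G.kpS Fa w)
    (h : 4 * (kp G Fa w : ℤ) ≤ G.valS Fa F w) : 8 ≤ G.shS Fa F hx w := by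
  have h2 : G.kpS Fa w = kp G Fa w := rfl
  rw [shS]
  split_ifs with h3
  · have : (1 : ℤ) ≤ (kp G Fa w : ℤ) := by exact_mod_cast h2 ▸ h1
    linarith
  · have : (2 : ℤ) ≤ (kp G Fa w : ℤ) := by
      have : 2 ≤ kp G Fa w := by omega
      exact_mod_cast this
    linarith

theorem sh_nonneg {hx : V → ℤ} {w : V} (hw : 0 ≤ hx w)
    (h : 0 ≤ G.valS Fa F w) : 0 ≤ G.shS Fa F hx w := by
  rw [shS]
  split_ifs <;> linarith

/-- a port of `K` is a port of a member -/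
theorem kp_pos {K : Finset V} {w : V} (hK : K ∈ G.k6S Fa) (hw : w ∈ G.N K) :
    1 ≤ G.kpS Fa w := card_pos.2 ⟨K, mem_filter.2 ⟨hK, hw⟩⟩

/-- ROW 12, in the form of `Val31`: a port pair of the member `K` which costs nothing at `K` and is
costly for no other member -/
theorem row12_31 (hC : G.Crit) (hr : G.Rows6) (hF : G.GoodK F) (T : G.Tor F Fa)
    (hG : G.Gen6 (insert (G.Co F) Fa)) {hx : V → ℤ} (hx0 : ∀ w, 0 ≤ hx w) {K : Finset V}
    (hK : K ∈ G.k6S Fa) {q u v : V} (hp : G.Pr K q u v) (hn : ¬ G.PLb K q)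
    (hd : ¬ ∃ K' ∈ G.k6S Fa, K' ≠ K ∧ G.Bad K' u) :
    0 ≤ G.shS Fa F hx u + G.shS Fa F hx v ∧
    (¬ G.AlQ K (G.Co F) u v → 16 ≤ G.shS Fa F hx u + G.shS Fa F hx v ∧
      (G.ordS Fa = ∅ → (G.k6S Fa).card ≤ 1 → ¬ (u ∈ G.N F ∧ v ∈ G.N F) →
        20 ≤ G.shS Fa F hx u + G.shS Fa F hx v)) ∧
    (∀ B ∈ G.ordS Fa, G.AlQ K B u v → 8 ≤ G.shS Fa F hx u + G.shS Fa F hx v) := by
  classical
  have h9 := hG.g5.n9
  obtain ⟨hKF, hK6⟩ := mem_k6S.1 hK
  have hu : u ∈ G.nb q := by rw [hp.nb]; exact mem_insert_self _ _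
  have hv : v ∈ G.nb q := by rw [hp.nb]; exact mem_insert_of_mem (mem_insert_self _ _)
  have huN : u ∈ G.N K := mem_N76.2 ⟨hp.uK, q, hp.qK, hu⟩
  have hvN : v ∈ G.N K := mem_N76.2 ⟨hp.vK, q, hp.qK, hv⟩
  have huR := N_sub_R76 T.reg (mem_insert_of_mem hKF) huN
  have hvR := N_sub_R76 T.reg (mem_insert_of_mem hKF) hvN
  have hul := (k6_low16 hC h9 hK6 huN).1
  have hvl := (k6_low16 hC h9 hK6 hvN).1
  have ku := kp_pos hK huN
  have kv := kp_pos hK hvN
  rcases pair_free hC T hG hK hp.qK hu hv hp.uK hp.vK hp.ne hn with ⟨b1, b2, h1⟩ |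
    ⟨K', hK', hne, hb, -⟩
  swap
  · exact absurd ⟨K', hK', hne, hb⟩ hd
  have n1 := valS_nonneg hC hr hF T hG huR b1
  have n2 := valS_nonneg hC hr hF T hG hvR b2
  have n3 := fc_nn hr T hG huR
  have n4 := fc_nn hr T hG hvR
  have s1 := sh_nonneg (G := G) (Fa := Fa) (F := F) (hx0 u) (by linarith : 0 ≤ G.valS Fa F u)
  have s2 := sh_nonneg (G := G) (Fa := Fa) (F := F) (hx0 v) (by linarith : 0 ≤ G.valS Fa F v)
  rcases h1 with ⟨c1, c2⟩ | ⟨c1, c2, x, y, c3, c4, c5, S, c6, c7, c8⟩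
  · -- not costly on the other side
    have e1 := valS_free hC hr hF T hG huR hul c1
    have e2 := valS_free hC hr hF T hG hvR hvl c2
    rw [b1, card_empty] at e1
    rw [b2, card_empty] at e2
    push_cast at e1 e2
    have t1 := sh_ge (G := G) (Fa := Fa) (F := F) (hx0 u) ku
      (by linarith : 4 * (kp G Fa u : ℤ) ≤ G.valS Fa F u)
    have t2 := sh_ge (G := G) (Fa := Fa) (F := F) (hx0 v) kv
      (by linarith : 4 * (kp G Fa v : ℤ) ≤ G.valS Fa F v)
    -- a vertex in `F` if there are no ordinary members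
    have key : ∀ w, w ∈ R (insert (G.Co F) Fa) → G.Low w → w ∈ G.N K → w ∉ G.N F →
        G.badS Fa w = ∅ → G.ordS Fa = ∅ → (G.k6S Fa).card ≤ 1 →
        4 * (kp G Fa w : ℤ) + 2 * G.fc (insert (G.Co F) Fa) w ≤ G.valS Fa F w →
        12 ≤ G.shS Fa F hx w := by
      intro w hwR hwl hwN hwF hbw ho hk1 he
      have hwF' : w ∈ F := by
        by_contra h
        exact (mem_R76.1 hwR _ (mem_insert_self _ _)) (mem_Co76.2 ⟨h, hwF⟩)
      have e3 := valS_in hr hF T hG hwR hwl ho hwF'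
      rw [hbw, card_empty] at e3
      push_cast at e3
      have n5 := fc_nn hr T hG hwR
      have kw := kp_pos hK hwN
      have k2 : G.kpS Fa w = kp G Fa w := rfl
      rw [shS]
      split_ifs with h3
      · have := hx0 w
        linarith
      · exact absurd ((card_le_card (filter_subset _ _)).trans hk1) h3
    refine ⟨by linarith, fun _ => ⟨by linarith, fun ho hk1 hnn => ?_⟩, fun B _ _ => by linarith⟩
    by_cases a : u ∈ G.N F
    · have b : v ∉ G.N F := fun h => hnn ⟨a, h⟩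
      have := key v hvR hvl hvN b b2 ho hk1 (by linarith)
      linarith
    · have := key u huR hul huN a b1 ho hk1 (by linarith)
      linarith
  · -- costly on the other side
    have hal := reach_AlQ hC hF T hG hK hp.qK hu hv hp.uK hp.vK c3 c4 c5 c6 c7 c8
    refine ⟨by linarith, fun h => absurd hal h, fun B hB hAB => ?_⟩
    exfalso
    -- `u` has no neighbour in `B`
    obtain ⟨qu, ⟨hS6, hqu, -⟩, hu1, hu2⟩ := c6
    have hSC : S ⊆ G.Co F := good_k6_Co hF.2 S hS6 c8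
    have hneC : G.Co F ≠ K := fun h => T.notin (h ▸ hKF)
    obtain ⟨d1, d2⟩ := T.reg.dis _ (mem_insert_self _ _) K (mem_insert_of_mem hKF) hneC
    have hdis : Disjoint K S := (d1.mono_left hSC).symm
    obtain ⟨-, w, hwB, hwu⟩ := mem_N76.1 hAB.uN
    have hB' := mem_ordS.1 hB
    have hneB : G.Co F ≠ B := fun h => T.notin (h ▸ hB'.1)
    have hneK : B ≠ K := fun h => hB'.2 (h ▸ hK6)
    have f1 := two_k6_nb hC h9 hK6 hS6 hdis huN (mem_N76.2 ⟨hu2, qu, hqu, hu1⟩) c3 c4 w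
      (G.sym _ _ hwu)
    rcases f1 with f | f | f | f
    · exact disjoint_left.1 (T.reg.dis B (mem_insert_of_mem hB'.1) K (mem_insert_of_mem hKF)
        hneK).1 hwB f
    · exact disjoint_left.1 (T.reg.dis _ (mem_insert_self _ _) B (mem_insert_of_mem hB'.1)
        hneB).1 (hSC f) hwB
    · exact (mem_R76.1 hvR B (mem_insert_of_mem hB'.1)) (f ▸ hwB)
    · exact (mem_R76.1 (N_sub_R76 T.reg (mem_insert_of_mem hKF) c4) B
        (mem_insert_of_mem hB'.1)) (f ▸ hwB)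

end Vl6

end CG

end Pool.Agent.Lib.MP_e95c01_co.N
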