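import Pool.Agent.Lib.MP_e95c01_co.Y.StPort36
import Pool.Agent.Lib.MP_e95c01_co.Y.ValI6

/-!
# The sponsors of the poor port pairs pay for them
-/

set_option autoImplicit false

namespace Pool.Agent.Lib.MP_e95c01_co.N

open Finset

variable {V : Type} [Fintype V] [DecidableEq V]

namespace CG

variable {G : CG V} {Fa : Finset (Finset V)} {F : Finset V}

namespace Hs6

/-- the port `e = {u, v}` is poor -/
def Poor (G : CG V) (Fb : Finset (Finset V)) (e : Finset V) : Prop :=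
  ∃ K q q' u v c d x y, G.LPt Fb K q q' u v c d x y ∧ ¬ (x ∈ G.N K ∧ y ∈ G.N K) ∧
    G.I Fb u = {K} ∧ G.I Fb v = {K} ∧ G.fc Fb u + G.fc Fb v < 2 ∧ e = {u, v}

/-- `x` sponsors the port `e` -/
def Sp (G : CG V) (Fb : Finset (Finset V)) (e : Finset V) (x : V) : Prop :=
  G.SpH Fb e x ∨ G.SpP Fb e x

theorem poor_sp (h8n : G.StP8n) (h8t : G.StP8t) {Fb : Finset (Finset V)} (hG : G.Gen6 Fb)
    {e : Finset V} (he : Poor G Fb e) : ∃ x, Sp G Fb e x := by
  obtain ⟨K, q, q', u, v, c, d, x, y, h, hxy, hu, hv, hf, rfl⟩ := he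
  by_cases ht : G.Tw c d
  · rcases h8t Fb hG K q q' u v c d x y h hxy hu hv ht with h1 | h1 | h1 | h1
    · omega
    · exact ⟨x, Or.inl h1⟩
    · exact ⟨y, Or.inl h1⟩
    · exact ⟨c, Or.inr h1⟩
  · have := h8n Fb hG K q q' u v c d x y h hxy hu hv ht
    omega

theorem spP_tw {Fb : Finset (Finset V)} {e : Finset V} {c : V} (h : G.SpP Fb e c) : G.IsTw c := by
  obtain ⟨K, q, q', u, v, d, x, y, -, -, -, ht, -⟩ := h
  exact ⟨d, ht⟩

theorem spH_hub {Fb : Finset (Finset V)} {e : Finset V} {x : V} (h : G.SpH Fb e x) :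
    G.Hub x ∧ x ∈ R Fb := by
  obtain ⟨K, q, q', u, v, c, d, y, -, -, -, -, hR, hH, -⟩ := h
  exact ⟨hH, hR⟩

theorem spP_R {Fb : Finset (Finset V)} (hG : G.Gen6 Fb) {e : Finset V} {c : V}
    (h : G.SpP Fb e c) : c ∈ R Fb := by
  obtain ⟨K, q, q', u, v, d, x, y, h, hu, -⟩ := h
  by_contra hc
  have hc' : ∃ B ∈ Fb, c ∈ B := by
    by_contra hno
    push Not at hno
    exact hc (by
      rw [R, mem_compl, mem_biUnion]
      rintro ⟨B, hB, hcB⟩
      exact hno B hB hcB)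
  obtain ⟨B, hB, hcB⟩ := hc'
  have huR := h.uR hG.g5.reg
  have huB : u ∉ B := mem_R76.1 huR B hB
  have huN : u ∈ G.N B := mem_N76.2 ⟨huB, c, hcB, G.sym _ _ (h.memu.2 (by tauto))⟩
  have hI : B ∈ G.I Fb u := mem_I76.2 ⟨hB, huN⟩
  rw [hu, mem_singleton] at hI
  exact h.cK hG (hI ▸ hcB)

theorem sp_mem {Fb : Finset (Finset V)} (hG : G.Gen6 Fb) {e : Finset V} {x : V}
    (h : Sp G Fb e x) : x ∈ R Fb ∧ ¬ G.Low x := by
  rcases h with h | h
  · exact ⟨(spH_hub h).2, (spH_hub h).1.1⟩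
  · exact ⟨spP_R hG h, fun hl => tw_not_low11 (spP_tw h) hl⟩

theorem pt_low (hC : G.Crit) (h9 : 9 ≤ Fintype.card V) {w : V} (hw : w ∈ G.ptS Fa) :
    G.Low w := by
  rw [ptS, mem_biUnion] at hw
  obtain ⟨K, hK, hwN⟩ := hw
  exact (k6_low16 hC h9 (mem_k6S.1 hK).2 hwN).1

theorem bad_empty {z : V} (hz : z ∉ G.ptS Fa) : G.badS Fa z = ∅ := by
  classical
  rw [badS, filter_eq_empty_iff]
  intro K hK hb
  apply hz
  rw [ptS, mem_biUnion]
  obtain ⟨q, ⟨-, hq, -⟩, h1, h2⟩ := hb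
  exact ⟨K, hK, mem_N76.2 ⟨h2, q, hq, h1⟩⟩

/-- what a vertex of the torso pays -/
theorem pay (hC : G.Crit) (h9h : G.StP9h) (h9p : G.StP9p) (hF : G.GoodK F) (T : G.Tor F Fa)
    (hG : G.Gen6 (insert (G.Co F) Fa)) {E : Finset (Finset V)} {z : V}
    (hz : z ∈ R (insert (G.Co F) Fa)) (hp : z ∉ G.ptS Fa)
    (hE : ∀ e ∈ E, Sp G (insert (G.Co F) Fa) e z) :
    6 * (E.card : ℤ) ≤ G.valS Fa F z := by
  classical
  rcases E.eq_empty_or_nonempty with rfl | ⟨e0, he0⟩
  · rw [card_empty]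
    have h1 := Vl6.valS_nonneg hC (rows6 G) hF T hG hz (bad_empty hp)
    have h2 := Vl6.fc_nn (rows6 G) T hG hz
    push_cast
    linarith
  · have hl : ¬ G.Low z := (sp_mem hG (hE e0 he0)).2
    rw [Vl6.valS_not_low hl]
    rcases hE e0 he0 with h0 | h0
    · have hH := (spH_hub h0).1
      have h1 := h9h _ hG z hz hH
      have h2 : E.card ≤ (univ.filter fun e : Finset V => G.SpH (insert (G.Co F) Fa) e z).card := by
        apply card_le_card
        intro e he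
        rw [mem_filter]
        refine ⟨mem_univ _, ?_⟩
        rcases hE e he with h3 | h3
        · exact h3
        · exact absurd (spP_tw h3) hH.2
      have h3 : (E.card : ℤ) ≤
          ((univ.filter fun e : Finset V => G.SpH (insert (G.Co F) Fa) e z).card : ℤ) := by
        exact_mod_cast h2
      linarith
    · obtain ⟨h1, h2⟩ := h9p _ hG e0 z h0
      have h3 : E ⊆ {e0} := by
        intro e he
        rw [mem_singleton]
        rcases hE e he with h4 | h4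
        · exact absurd (spP_tw h0) (spH_hub h4).1.2
        · exact h2 e h4
      have h4 : (E.card : ℤ) ≤ 1 := by
        exact_mod_cast (card_le_card h3).trans (card_singleton e0).le
      linarith

end Hs6

open Hs6 in
/-- the input `hHs` of `thickK31` -/
theorem hs6 (hC : G.Crit) (h8n : G.StP8n) (h8t : G.StP8t) (h9h : G.StP9h) (h9p : G.StP9p)
    (hF : G.GoodK F) (T : G.Tor F Fa) (hG : G.Gen6 (insert (G.Co F) Fa)) :
    ∃ hx : V → ℤ, ((∀ z, 0 ≤ hx z) ∧
      ∀ K q q' u v c d x y, G.LPt (insert (G.Co F) Fa) K q q' u v c d x y →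
        ¬ (x ∈ G.N K ∧ y ∈ G.N K) → G.I (insert (G.Co F) Fa) u = {K} →
        G.I (insert (G.Co F) Fa) v = {K} →
        2 ≤ G.fc (insert (G.Co F) Fa) u + G.fc (insert (G.Co F) Fa) v ∨ 6 ≤ hx u + hx v) ∧
      ∑ w ∈ G.ptS Fa, hx w ≤ ∑ z ∈ R (insert (G.Co F) Fa) \ G.ptS Fa, G.valS Fa F z := by
  classical
  set Fb := insert (G.Co F) Fa with hFb
  set E : Finset (Finset V) := univ.filter (Poor G Fb) with hE
  set U : Finset V := E.biUnion id with hU
  have h9 := hG.g5.n9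
  refine ⟨fun z => if z ∈ U then 3 else 0, ⟨?_, ?_⟩, ?_⟩
  · intro z
    dsimp only
    split_ifs <;> norm_num
  · intro K q q' u v c d x y h hxy hu hv
    by_cases hf : 2 ≤ G.fc Fb u + G.fc Fb v
    · exact Or.inl hf
    · right
      have he : ({u, v} : Finset V) ∈ E := by
        rw [hE, mem_filter]
        exact ⟨mem_univ _, K, q, q', u, v, c, d, x, y, h, hxy, hu, hv, not_le.1 hf, rfl⟩
      have h1 : u ∈ U := mem_biUnion.2 ⟨_, he, mem_insert_self _ _⟩
      have h2 : v ∈ U := mem_biUnion.2 ⟨_, he, mem_insert_of_mem (mem_singleton_self _)⟩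
      dsimp only
      rw [if_pos h1, if_pos h2]
      norm_num
  · have h1 : ∑ w ∈ G.ptS Fa, (if w ∈ U then (3 : ℤ) else 0) ≤ 3 * (U.card : ℤ) := by
      rw [← sum_filter, sum_const, nsmul_eq_mul, mul_comm]
      have h2 : ((G.ptS Fa).filter fun w => w ∈ U).card ≤ U.card :=
        card_le_card fun w hw => (mem_filter.1 hw).2
      have h3 : (((G.ptS Fa).filter fun w => w ∈ U).card : ℤ) ≤ U.card := by exact_mod_cast h2
      linarith
    have h2 : U.card ≤ 2 * E.card := by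
      rw [hU, mul_comm]
      refine card_biUnion_le_card_mul _ _ _ fun e he => ?_
      obtain ⟨K, q, q', u, v, c, d, x, y, -, -, -, -, -, rfl⟩ := (mem_filter.1 he).2
      exact card_le_two
    set P := R Fb \ G.ptS Fa with hP
    have h3 : E.card ≤ ∑ z ∈ P, (E.filter fun e => Sp G Fb e z).card := by
      refine le_trans (card_le_card fun e he => ?_) card_biUnion_le
      obtain ⟨x, hx⟩ := poor_sp h8n h8t hG (mem_filter.1 he).2
      obtain ⟨hxR, hxl⟩ := sp_mem hG hx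
      rw [mem_biUnion]
      refine ⟨x, ?_, mem_filter.2 ⟨he, hx⟩⟩
      rw [hP, mem_sdiff]
      exact ⟨hxR, fun h => hxl (pt_low hC h9 h)⟩
    have h4 : ∀ z ∈ P, 6 * ((E.filter fun e => Sp G Fb e z).card : ℤ) ≤ G.valS Fa F z := by
      intro z hz
      rw [hP, mem_sdiff] at hz
      exact pay hC h9h h9p hF T hG hz.1 hz.2 fun e he => (mem_filter.1 he).2
    have h5 : (E.card : ℤ) ≤ ∑ z ∈ P, ((E.filter fun e => Sp G Fb e z).card : ℤ) := by
      exact_mod_cast h3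
    have h6 : 6 * ∑ z ∈ P, ((E.filter fun e => Sp G Fb e z).card : ℤ) ≤
        ∑ z ∈ P, G.valS Fa F z := by
      rw [mul_sum]
      exact sum_le_sum h4
    have h7 : (U.card : ℤ) ≤ 2 * E.card := by exact_mod_cast h2
    calc ∑ w ∈ G.ptS Fa, (if w ∈ U then (3 : ℤ) else 0) ≤ 3 * (U.card : ℤ) := h1
      _ ≤ 6 * (E.card : ℤ) := by linarith
      _ ≤ 6 * ∑ z ∈ P, ((E.filter fun e => Sp G Fb e z).card : ℤ) := by linarith
      _ ≤ _ := h6

end CG

end Pool.Agent.Lib.MP_e95c01_co.N
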