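import Pool.Agent.Lib.MP_e95c01_co.X.J7_30

/-!
# J7, sharp: leaves with five hubs, every low vertex of `N F` has two neighbours on the other side
-/

set_option autoImplicit false

namespace Pool.Agent.Lib.MP_e95c01_co.N

open Finset

variable {V : Type} [Fintype V] [DecidableEq V]

namespace CG

open J7h30 in
/-- five hubs: the sum is at least 36 if every low vertex of `N F` has two neighbours in `Co F` -/
theorem st7HHHHHs_37 {G : CG V} (hBas : G.StLBas) (hB : G.StLB) (h7 : G.St7Bas) (F : Finset V)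
    (hL : G.L5 F) (hH : ∀ z ∈ F, G.Hub z)
    (hO : ∀ w ∈ G.N F, G.Low w → 2 ≤ G.d w (G.Co F)) : 36 ≤ ∑ w ∈ G.N F, G.gam5 F w := by
  classical
  have c : Hx G F := ⟨hL, hH, hBas, hB, h7⟩
  -- the types
  have hdt : ∀ w ∈ G.N F, G.Low w → G.d w F + J7h30.tt G F w ≤ 4 := by
    intro w hw hl
    have h1 := d_split76 (G := G) w F
    have h2 : (G.nb w).card = 6 := hl
    have h3 := hO w hw hl
    have h4 : J7h30.tt G F w = (G.nb w ∩ G.N F).card := rfl
    omega
  -- weight of a hub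
  have wt : ∀ h ∈ F, 210 ≤ ∑ w ∈ D G F h, om G F w := by
    intro h hh
    have t3 := c.tauF hh
    have h1 : ∀ w ∈ D G F h, J7h30.tt G F w + G.d w F ≤ 4 := by
      intro w hw
      obtain ⟨h2, h3, -⟩ := mem_D.1 hw
      have := hdt w h2 h3
      omega
    have h2 := sum_le_sum h1
    rw [sum_const, smul_eq_mul] at h2
    have t4 := c.tau4 hh (by omega)
    have h3 : ∀ w ∈ D G F h, 30 * (1 + J7h30.tt G F w) ≤ om G F w := by
      intro w hw
      obtain ⟨h4, h5, -⟩ := mem_D.1 hw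
      obtain ⟨-, -, h6⟩ := c.val h4 h5
      rcases h6 with h | h | h | h | h | h
      · rw [h.2.2.2]
      · rw [h.2.2.2]
        omega
      · rw [h.2.2.2.1]
        omega
      · rw [h.2.2.2]
        omega
      · rw [h.2.2.2.1]
        omega
      · rw [h.2.2.2]
        omega
    have h4 := sum_le_sum h3
    rw [← mul_sum, sum_add_distrib, sum_const, smul_eq_mul, mul_one] at h4
    omega
  set L := (G.N F).filter fun w => G.Low w with hLd
  have memL : ∀ w, w ∈ L ↔ w ∈ G.N F ∧ G.Low w := fun w => by rw [hLd, mem_filter]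
  have s1 : ((∑ w ∈ L, 2 * vl G F w : ℕ) : ℤ) ≤ ∑ w ∈ G.N F, G.gam5 F w := by
    push_cast
    calc ∑ w ∈ L, 2 * (vl G F w : ℤ) ≤ ∑ w ∈ L, G.gam5 F w := by
          refine sum_le_sum fun w hw => ?_
          have := (c.val ((memL w).1 hw).1 ((memL w).1 hw).2).1
          push_cast at this
          exact this
      _ ≤ ∑ w ∈ G.N F, G.gam5 F w :=
          sum_le_sum_of_subset_of_nonneg (filter_subset _ _) fun w hw _ => h7.nn F hL w hw
  have swap : ∀ g : V → ℕ, ∑ h ∈ F, ∑ w ∈ D G F h, g w = ∑ w ∈ L, g w * G.d w F := by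
    intro g
    have h1 : ∀ h, ∑ w ∈ D G F h, g w = ∑ w ∈ L, if h ∈ G.nb w then g w else 0 := by
      intro h
      rw [← sum_filter]
      congr 1
      ext w
      rw [mem_D, mem_filter, memL]
      tauto
    rw [sum_congr rfl fun h _ => h1 h, sum_comm]
    refine sum_congr rfl fun w _ => ?_
    rw [← sum_filter, sum_const, smul_eq_mul, mul_comm]
    congr 1
    unfold CG.d
    congr 1
    ext x
    rw [mem_filter, mem_inter]
    tauto
  have s3 : ∑ h ∈ F, ∑ w ∈ D G F h, om G F w = 60 * ∑ w ∈ L, vl G F w := by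
    rw [swap, mul_sum]
    exact sum_congr rfl fun w hw => (c.val ((memL w).1 hw).1 ((memL w).1 hw).2).2.1
  have s4 : ∑ _h ∈ F, 210 ≤ ∑ h ∈ F, ∑ w ∈ D G F h, om G F w := sum_le_sum wt
  rw [sum_const, hL.2, smul_eq_mul, s3] at s4
  have s5 : 18 ≤ ∑ w ∈ L, vl G F w := by omega
  rw [← mul_sum] at s1
  have s6 : (36 : ℤ) ≤ ((2 * ∑ w ∈ L, vl G F w : ℕ) : ℤ) := by
    exact_mod_cast (by omega : 36 ≤ 2 * ∑ w ∈ L, vl G F w)
  exact s6.trans s1

end CG

end Pool.Agent.Lib.MP_e95c01_co.N
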