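import Pool.Agent.Lib.MP_e95c01_co.X.J8_28

/-!
# J8, strict form: leaves with three hubs and a pair of twins do not occur, if every low of
`N F` has two neighbours in `Co F`
-/

namespace Pool.Agent.Lib.MP_e95c01_co.N

open Finset

variable {V : Type} [Fintype V] [DecidableEq V]

namespace CG

variable {G : CG V} {F : Finset V} {v w : V}

open H5c (D mem_D)

namespace J8c

/-- a low of `N F` with two neighbours in `Co F` -/
theorem fr52 (hO : ∀ z ∈ G.N F, G.Low z → 2 ≤ G.d z (G.Co F)) {y : V} (hy : y ∈ G.N F)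
    (hl : G.Low y) : G.d y F + (G.pT F y).card ≤ 4 := by
  have h0 := hO y hy hl
  have h6 : (G.nb y).card = 6 := hl
  have h7 : (G.nb y ∩ G.Co F) ∪ ((G.nb y ∩ F) ∪ (G.nb y ∩ G.N F)) ⊆ G.nb y := by
    intro x hx
    simp only [mem_union, mem_inter] at hx
    tauto
  have h8 := card_le_card h7
  have k1 : Disjoint (G.nb y ∩ F) (G.nb y ∩ G.N F) := by
    rw [disjoint_left]
    intro x hx hx'
    exact (mem_N76.1 (mem_inter.1 hx').2).1 (mem_inter.1 hx).2
  have k2 : Disjoint (G.nb y ∩ G.Co F) ((G.nb y ∩ F) ∪ (G.nb y ∩ G.N F)) := by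
    rw [disjoint_left]
    intro x hx hx'
    have h9 := mem_Co76.1 (mem_inter.1 hx).2
    rcases mem_union.1 hx' with h10 | h10
    · exact h9.1 (mem_inter.1 h10).2
    · exact h9.2 (mem_inter.1 h10).2
  rw [card_union_of_disjoint k2, card_union_of_disjoint k1] at h8
  have h9 : (G.nb y ∩ F).card = G.d y F := rfl
  have h10 : (G.nb y ∩ G.N F).card = (G.pT F y).card := rfl
  have h11 : (G.nb y ∩ G.Co F).card = G.d y (G.Co F) := rfl
  omega

theorem tb52 (K : J8c G F v w) (hO : ∀ z ∈ G.N F, G.Low z → 2 ≤ G.d z (G.Co F)) :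
    ∑ y ∈ D G F v, ((G.nb y ∩ G.Tz F v).card : ℤ) + ∑ h ∈ Hb F v w, nn G F v h ≤
      2 * ((D G F v).card : ℤ) := by
  have h1 : ∑ y ∈ D G F v, (((G.nb y ∩ G.Tz F v).card : ℤ) + (G.d y F : ℤ)) ≤
      ∑ _y ∈ D G F v, 4 := by
    refine sum_le_sum fun y hy => ?_
    have hy' := (mem_D.1 hy).2
    have h2 := fr52 hO hy'.1 hy'.2
    have h3 : (G.nb y ∩ G.Tz F v).card ≤ (G.pT F y).card := by
      apply card_le_card
      intro x hx
      rw [mem_inter] at hx
      exact mem_inter.2 ⟨hx.1, (mem_Tz28.1 hx.2).2⟩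
    have h4 : (G.nb y ∩ G.Tz F v).card + G.d y F ≤ 4 := by omega
    exact_mod_cast h4
  rw [sum_add_distrib, K.dsum, sum_const, nsmul_eq_mul] at h1
  linarith

/-- no such leaf -/
theorem no52 (K : J8c G F v w) (hO : ∀ z ∈ G.N F, G.Low z → 2 ≤ G.d z (G.Co F)) : False := by
  classical
  have h1 := K.th1
  have h2 := K.dle K.hv
  have h4 := K.tb52 hO
  have h5 := K.nsum
  have h6 := K.cntY
  have h7 := K.degv
  have h9 := Dle G F v
  have h3 : G.d v F = 2 ∨ G.d v F = 3 ∨ G.d v F = 4 := by omega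
  rcases h3 with h3 | h3 | h3
  · have e : (G.Tz F v).card = 5 := by omega
    rw [h3] at h5
    rw [e] at h6
    push_cast at h5 h6
    linarith
  · have e : (G.Tz F v).card = 4 := by omega
    rw [h3] at h5
    rw [e] at h6 h9
    push_cast at h5 h6
    have h10 : ((D G F v).card : ℤ) ≤ 4 := by exact_mod_cast h9
    linarith
  · have e : (G.Tz F v).card = 3 := by omega
    rw [h3] at h5
    have h6' := h6
    rw [e] at h6' h9
    push_cast at h5 h6'
    have h10 : ((D G F v).card : ℤ) ≤ 3 := by exact_mod_cast h9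
    have h11 : (D G F v).card = (G.Tz F v).card := by
      have h12 : (3 : ℤ) ≤ ((D G F v).card : ℤ) := by linarith
      have h13 : 3 ≤ (D G F v).card := by exact_mod_cast h12
      omega
    have hDT : D G F v = G.Tz F v := eq_of_subset_of_card_le (filter_subset _ _) (by omega)
    obtain ⟨y1, y2, y3, n12, n13, n23, hT⟩ := card_eq_three.1 e
    have hTY : ∀ x, ((G.nb x ∩ G.Tz F v).card : ℤ) = ad G x y1 + (ad G x y2 + ad G x y3) := by
      intro x
      rw [card_sum, hT, sum_insert (by simp [n12, n13]), sum_pair n23]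
      rfl
    have hTs : ∑ y ∈ D G F v, ((G.nb y ∩ G.Tz F v).card : ℤ) =
        2 * (ad G y1 y2 + ad G y1 y3 + ad G y2 y3) := by
      rw [sum_congr rfl fun y _ => hTY y, hDT, hT, sum_insert (by simp [n12, n13]), sum_pair n23,
        ad_self, ad_self, ad_self, ad_comm y2 y1, ad_comm y3 y1, ad_comm y3 y2]
      ring
    have h14 : ((D G F v).card : ℤ) = 3 := by
      rw [h11, e]
      rfl
    rw [hTs] at h4 h6'
    rw [h14] at h4
    push_cast at h4
    have h15 : ad G y1 y2 + ad G y1 y3 + ad G y2 y3 ≤ 1 := by omega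
    omega

end J8c

/-- J8, strict form (there is no such leaf) -/
theorem no7HHHQ52 (G : CG V) (hBas : G.StLBas) (hB : G.StLB) (hCnt : G.StLCnt)
    (h7 : G.St7Bas) (F : Finset V) (hF : G.L5 F) (v w : V) (hv : v ∈ F) (hw : w ∈ F)
    (htw : G.Tw v w) (hub : ∀ z ∈ F, z ≠ v → z ≠ w → G.Hub z)
    (hO : ∀ z ∈ G.N F, G.Low z → 2 ≤ G.d z (G.Co F)) : False :=
  J8c.no52 (K := ⟨hBas, hB, hCnt, h7, hF, hv, hw, htw, hub⟩) hO

/-- J8 in the form of the other strict rows -/
theorem st7HHHQs_52 (G : CG V) (hBas : G.StLBas) (hB : G.StLB) (hCnt : G.StLCnt)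
    (h7 : G.St7Bas) : ∀ F, G.L5 F → (∀ z ∈ G.N F, G.Low z → 2 ≤ G.d z (G.Co F)) → ∀ v ∈ F,
      ∀ w ∈ F, G.Tw v w → (∀ z ∈ F, z ≠ v → z ≠ w → G.Hub z) →
      33 ≤ ∑ w ∈ G.N F, G.gam5 F w := fun F hF hO v hv w hw htw hub =>
  (no7HHHQ52 G hBas hB hCnt h7 F hF v w hv hw htw hub hO).elim

end CG

end Pool.Agent.Lib.MP_e95c01_co.N
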