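import Pool.Agent.Lib.MP_e95c01_co.X.J9_86
import Pool.Agent.Lib.MP_e95c01_co.X.H0b_16

set_option autoImplicit false

namespace Pool.Agent.Lib.MP_e95c01_co.N

open Finset

variable {V : Type} [Fintype V] [DecidableEq V]

namespace CG

variable {G : CG V} {F : Finset V} {h v w v' w' : V}

/-! ### `h ~ Q1 ~ Q2`, `h` not adjacent to `Q2` -/

theorem Q9.caseCs (q : G.Q9 F h v w v' w') (hBas : G.StLBas) (lb : G.StLB) (b7 : G.St7Bas)
    (hO : ∀ w ∈ G.N F, G.Low w → 2 ≤ G.d w (G.Co F))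
    (a1 : h ∈ G.nb v) (a2 : v' ∈ G.nb v) (a3 : h ∉ G.nb v') :
    33 ≤ ∑ y ∈ G.N F, G.gam5 F y := by
  classical
  have n9 := q.n9
  have cV : (G.Ms F v).card = 3 := by
    have h1 := q.cMs hBas q.mv
    rw [q.dv, if_pos a1, if_pos a2, q.t1.2.1] at h1
    omega
  have cV' : (G.Ms F v').card = 2 := by
    have h1 := q.symm.cMs hBas q.symm.mv
    rw [q.symm.dv, if_neg a3, if_pos (G.sym _ _ a2), q.t2.2.1] at h1
    omega
  have cB : (G.Bt F v v').card = 1 := by
    have h1 := q.card hBas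
    omega
  have cH : (G.Ms F h).card ≤ 1 := by
    have h1 := q.cMs hBas q.mh
    have h2 := q.hub7
    rw [q.dh, if_pos (G.sym _ _ a1), if_neg fun k => a3 (G.sym _ _ k)] at h1
    omega
  obtain ⟨z, hz⟩ := card_eq_one.1 cB
  obtain ⟨y1, y2, yne, hy⟩ := card_eq_two.1 cV'
  obtain ⟨u1, u2, u3, u12, u13, u23, hu⟩ := card_eq_three.1 cV
  have mz : z ∈ G.N F ∧ v ∈ G.nb z ∧ v' ∈ G.nb z := by
    rw [← mem_Bt9, hz]
    exact mem_singleton_self _
  have zU : ∀ y, y ∈ G.N F → v ∈ G.nb y → v' ∈ G.nb y → y = z := by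
    intro y k1 k2 k3
    have : y ∈ G.Bt F v v' := mem_Bt9.2 ⟨k1, k2, k3⟩
    rw [hz, mem_singleton] at this
    exact this
  -- members
  have my1 : y1 ∈ G.N F ∧ v' ∉ G.nb y1 := by
    rw [← mem_Ms9, hy]
    simp
  have my2 : y2 ∈ G.N F ∧ v' ∉ G.nb y2 := by
    rw [← mem_Ms9, hy]
    simp
  have mu1 : u1 ∈ G.N F ∧ v ∉ G.nb u1 := by
    rw [← mem_Ms9, hu]
    simp
  have mu2 : u2 ∈ G.N F ∧ v ∉ G.nb u2 := by
    rw [← mem_Ms9, hu]
    simp
  have mu3 : u3 ∈ G.N F ∧ v ∉ G.nb u3 := by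
    rw [← mem_Ms9, hu]
    simp
  have vy : ∀ {y}, y ∈ G.N F ∧ v' ∉ G.nb y → v ∈ G.nb y := fun k =>
    (q.not_both hBas k.1).resolve_right k.2
  have vu : ∀ {y}, y ∈ G.N F ∧ v ∉ G.nb y → v' ∈ G.nb y := fun k =>
    (q.not_both hBas k.1).resolve_left k.2
  have zy : ∀ {y}, y ∈ G.N F ∧ v' ∉ G.nb y → z ≠ y := fun k e => k.2 (e ▸ mz.2.2)
  have zu : ∀ {y}, y ∈ G.N F ∧ v ∉ G.nb y → z ≠ y := fun k e => k.2 (e ▸ mz.2.1)
  have dy : ∀ {y}, y ∈ G.N F ∧ v' ∉ G.nb y → (h ∈ G.nb y → G.d y F = 3) ∧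
      (h ∉ G.nb y → G.d y F = 2) := by
    intro y k
    constructor
    · intro k1
      rw [q.dT k.1, if_pos k1, if_pos (vy k), if_neg k.2]
    · intro k1
      rw [q.dT k.1, if_neg k1, if_pos (vy k), if_neg k.2]
  have du : ∀ {y}, y ∈ G.N F ∧ v ∉ G.nb y → (h ∈ G.nb y → G.d y F = 3) ∧
      (h ∉ G.nb y → G.d y F = 2) := by
    intro y k
    constructor
    · intro k1
      rw [q.dT k.1, if_pos k1, if_neg k.2, if_pos (vu k)]
    · intro k1
      rw [q.dT k.1, if_neg k1, if_neg k.2, if_pos (vu k)]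
  have uH : ∀ {x y}, x ∈ G.N F → y ∈ G.N F → h ∉ G.nb x → h ∉ G.nb y → x = y := by
    intro x y k1 k2 k3 k4
    exact card_le_one.1 cH x (mem_Ms9.2 ⟨k1, k3⟩) y (mem_Ms9.2 ⟨k2, k4⟩)
  -- `z` is low
  have zl : G.Low z := by
    rcases q.covQQ hBas a2 with ⟨a, k1, k2, k3, k4⟩ | ⟨a, k1, b, k2, k3, k4, k5, k6, k7⟩
    · rw [← zU a k1 k3 k4]
      exact k2
    · exfalso
      exact ne_of_nb5 k3.1 ((zU a k1 k4 k6).trans (zU b k2 k5 k7).symm)
  have pT1 : (G.pT F z).card ≤ 1 := by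
    by_cases k : h ∈ G.nb z
    · have k1 : 5 ≤ G.d z F := by
        rw [q.dT mz.1, if_pos k, if_pos mz.2.1, if_pos mz.2.2]
      rw [(lb.low5 F q.L.1 z mz.1 zl k1).2.1]
      simp
    · have k1 : G.d z F = 4 := by
        rw [q.dT mz.1, if_neg k, if_pos mz.2.1, if_pos mz.2.2]
      exact (lb.low4 F q.L.1 z mz.1 zl k1).1
  have pz : ∀ x ∈ G.N F, ∀ y ∈ G.N F, x ≠ y → x ∈ G.nb z → y ∈ G.nb z → False := by
    intro x k1 y k2 k3 k4 k5
    exact k3 (card_le_one.1 pT1 x (mem_inter.2 ⟨k4, k1⟩) y (mem_inter.2 ⟨k5, k2⟩))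
  have pe : h ∈ G.nb z → ∀ x ∈ G.N F, x ∉ G.nb z := by
    intro k x k1 k2
    have k3 : 5 ≤ G.d z F := by
      rw [q.dT mz.1, if_pos k, if_pos mz.2.1, if_pos mz.2.2]
    have k4 : x ∈ G.pT F z := mem_inter.2 ⟨k2, k1⟩
    rw [(lb.low5 F q.L.1 z mz.1 zl k3).2.1] at k4
    exact absurd k4 (notMem_empty _)
  -- no `HL` with `z`
  have hE : ∀ {a b y}, a ∈ G.N F → b ∈ G.N F → y ∈ G.N F → G.HL a b y → a ≠ z ∧ b ≠ z := by
    intro a b y k1 k2 k3 k4
    refine ⟨fun e => HL_not_low76 k4 (e ▸ zl), fun e => ?_⟩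
    by_cases k : h ∈ G.nb z
    · refine pe k a k1 ?_
      rw [← e]
      exact G.sym _ _ (HL_b76 k4)
    · have k5 : a ≠ z := fun e => HL_not_low76 k4 (e ▸ zl)
      have k6 : h ∈ G.nb a := by
        by_contra k7
        exact k5 (uH k1 mz.1 k7 k)
      have k7 : h ≠ y := by
        rintro rfl
        exact notF9 k3 q.mh
      rcases HL_sup76 k4 k6 k7 with k8 | k8
      · exact notF9 k2 (k8 ▸ q.mh)
      · exact k (e ▸ k8)
  -- covers at `v`
  have cy : ∀ {y x}, (y ∈ G.N F ∧ v' ∉ G.nb y) → (x ∈ G.N F ∧ v' ∉ G.nb x) →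
      (∀ a, a ∈ G.N F → v ∈ G.nb a → a = z ∨ a = y ∨ a = x) →
      z ∈ G.nb y ∨ (G.Low x ∧ x ∈ G.nb y) := by
    intro y x ky kx hall
    rcases q.cov hBas (mem_union_right _ ky.1) (G.sym _ _ (vy ky)) (fun _ => ky.2) with
      ⟨a, k1, k2, k3, k4⟩ | ⟨a, k1, b, k2, k3, k4, k5, k6, k7⟩ | ⟨a, k1, b, k2, k3, k4, k5⟩
    · rcases hall a k1 k3 with e | e | e
      · exact Or.inl (G.sym _ _ (e ▸ k4))
      · exact absurd (e ▸ k4) (G.irr _)
      · exact Or.inr ⟨e ▸ k2, G.sym _ _ (e ▸ k4)⟩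
    · exfalso
      have e1 : a = x := by
        rcases hall a k1 k4 with e | e | e
        · exact absurd zl (e ▸ tw_nl9 k3)
        · exact absurd (e ▸ k6) (G.irr _)
        · exact e
      have e2 : b = x := by
        rcases hall b k2 k5 with e | e | e
        · exact absurd zl (e ▸ tw_nl9 (symm_5 k3))
        · exact absurd (e ▸ k7) (G.irr _)
        · exact e
      exact ne_of_nb5 k3.1 (e1.trans e2.symm)
    · exfalso
      obtain ⟨n1, n2⟩ := hE k1 k2 ky.1 k3
      have e1 : a = x := by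
        rcases hall a k1 k4 with e | e | e
        · exact absurd e n1
        · exact absurd (e ▸ HL_t76 k3) (G.irr _)
        · exact e
      have e2 : b = x := by
        rcases hall b k2 k5 with e | e | e
        · exact absurd e n2
        · exact absurd e.symm (HL_bt76 k3).2
        · exact e
      exact ne_of_nb5 (HL_b76 k3) (e1.trans e2.symm)
  have hally : ∀ a, a ∈ G.N F → v ∈ G.nb a → a = z ∨ a = y1 ∨ a = y2 := by
    intro a k1 k2
    by_cases k3 : v' ∈ G.nb a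
    · exact Or.inl (zU a k1 k2 k3)
    · have k4 : a ∈ G.Ms F v' := mem_Ms9.2 ⟨k1, k3⟩
      rw [hy, mem_insert, mem_singleton] at k4
      exact Or.inr k4
  have c1 := cy my1 my2 hally
  have c2 := cy my2 my1 fun a k1 k2 => by
    rcases hally a k1 k2 with k | k | k
    · exact Or.inl k
    · exact Or.inr (Or.inr k)
    · exact Or.inr (Or.inl k)
  -- covers at `v'`
  have cu : ∀ {y x x'}, (y ∈ G.N F ∧ v ∉ G.nb y) → (x ∈ G.N F ∧ v ∉ G.nb x) →
      (x' ∈ G.N F ∧ v ∉ G.nb x') →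
      (∀ a, a ∈ G.N F → v' ∈ G.nb a → a = z ∨ a = y ∨ a = x ∨ a = x') →
      G.Cv9 z y x x' := by
    intro y x x' ky kx kx' hall
    rcases q.symm.cov hBas (mem_union_right _ ky.1) (G.sym _ _ (vu ky)) (fun _ => ky.2) with
      ⟨a, k1, k2, k3, k4⟩ | ⟨a, k1, b, k2, k3, k4, k5, k6, k7⟩ | ⟨a, k1, b, k2, k3, k4, k5⟩
    · rcases hall a k1 k3 with e | e | e | e
      · exact Or.inl (G.sym _ _ (e ▸ k4))
      · exact absurd (e ▸ k4) (G.irr _)
      · exact Or.inr (Or.inl ⟨e ▸ k2, G.sym _ _ (e ▸ k4)⟩)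
      · exact Or.inr (Or.inr (Or.inl ⟨e ▸ k2, G.sym _ _ (e ▸ k4)⟩))
    · have e1 : a = x ∨ a = x' := by
        rcases hall a k1 k4 with e | e | e
        · exact absurd zl (e ▸ tw_nl9 k3)
        · exact absurd (e ▸ k6) (G.irr _)
        · exact e
      have e2 : b = x ∨ b = x' := by
        rcases hall b k2 k5 with e | e | e
        · exact absurd zl (e ▸ tw_nl9 (symm_5 k3))
        · exact absurd (e ▸ k7) (G.irr _)
        · exact e
      have e3 := ne_of_nb5 k3.1
      rcases e1 with rfl | rfl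
      · rcases e2 with rfl | rfl
        · exact absurd rfl e3
        · exact Or.inr (Or.inr (Or.inr (Or.inl ⟨k3, G.sym _ _ k6, G.sym _ _ k7⟩)))
      · rcases e2 with rfl | rfl
        · exact Or.inr (Or.inr (Or.inr (Or.inl ⟨symm_5 k3, G.sym _ _ k7, G.sym _ _ k6⟩)))
        · exact absurd rfl e3
    · obtain ⟨n1, n2⟩ := hE k1 k2 ky.1 k3
      refine Or.inr (Or.inr (Or.inr (Or.inr ⟨q.L.1.sat _ _ _ k3, ?_⟩)))
      rcases hall b k2 k5 with e | e | e | e
      · exact absurd e n2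
      · exact absurd e.symm (HL_bt76 k3).2
      · exact Or.inl (e ▸ k3.2.1)
      · exact Or.inr (e ▸ k3.2.1)
  have hallu : ∀ a, a ∈ G.N F → v' ∈ G.nb a → a = z ∨ a = u1 ∨ a = u2 ∨ a = u3 := by
    intro a k1 k2
    by_cases k3 : v ∈ G.nb a
    · exact Or.inl (zU a k1 k3 k2)
    · have k4 : a ∈ G.Ms F v := mem_Ms9.2 ⟨k1, k3⟩
      rw [hu, mem_insert, mem_insert, mem_singleton] at k4
      exact Or.inr k4
  have e1 := cu mu1 mu2 mu3 hallu
  have e2 := cu mu2 mu1 mu3 fun a k1 k2 => by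
    rcases hallu a k1 k2 with k | k | k | k
    · exact Or.inl k
    · exact Or.inr (Or.inr (Or.inl k))
    · exact Or.inr (Or.inl k)
    · exact Or.inr (Or.inr (Or.inr k))
  have e3 := cu mu3 mu1 mu2 fun a k1 k2 => by
    rcases hallu a k1 k2 with k | k | k | k
    · exact Or.inl k
    · exact Or.inr (Or.inr (Or.inl k))
    · exact Or.inr (Or.inr (Or.inr k))
    · exact Or.inr (Or.inl k)
  -- the sum
  rw [q.sum hBas, hu, hy, hz, sum_insert, sum_insert, sum_singleton, sum_pair yne, sum_singleton]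
  · have three : h ∈ G.nb u1 → h ∈ G.nb u2 → h ∈ G.nb u3 →
        12 ≤ G.gam5 F u1 + (G.gam5 F u2 + G.gam5 F u3) := fun k1 k2 k3 =>
      three9 q.L lb b7 mz.1 mu1.1 mu2.1 mu3.1 u12 u13 u23 (zu mu1) (zu mu2) (zu mu3)
        ((du mu1).1 k1) ((du mu2).1 k2) ((du mu3).1 k3) pz e1 e2 e3
    by_cases k : h ∈ G.nb z
    · exfalso
      have k5 : 5 ≤ G.d z F := by
        rw [q.dT mz.1, if_pos k, if_pos mz.2.1, if_pos mz.2.2]
      have k6 := hO z mz.1 zl
      have k7 := dg16 G F z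
      have k8 : (G.nb z).card = 6 := zl
      have k9 : (G.pO F z).card = G.d z (G.Co F) := rfl
      have k10 : (G.pX F z).card = G.d z F := rfl
      omega
    · have k5 : G.d z F = 4 := by
        rw [q.dT mz.1, if_neg k, if_pos mz.2.1, if_pos mz.2.2]
      have gz := (lb.low4 F q.L.1 z mz.1 zl k5).2.1
      have all : ∀ {y}, y ∈ G.N F → z ≠ y → h ∈ G.nb y := by
        intro y p1 p2
        by_contra p
        exact p2 (uH mz.1 p1 k p)
      have t := three (all mu1.1 (zu mu1)) (all mu2.1 (zu mu2)) (all mu3.1 (zu mu3))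
      have k7 := dg16 G F z
      have k6 := hO z mz.1 zl
      have k8 : (G.nb z).card = 6 := zl
      have k9 : (G.pO F z).card = G.d z (G.Co F) := rfl
      have k10 : (G.pX F z).card = G.d z F := rfl
      have k11 : G.pT F z = ∅ := card_eq_zero.1 (by omega)
      have pe' : ∀ x ∈ G.N F, x ∉ G.nb z := by
        intro x k1 k2
        have k4 : x ∈ G.pT F z := mem_inter.2 ⟨k2, k1⟩
        rw [k11] at k4
        exact absurd k4 (notMem_empty _)
      have ly2 : G.Low y2 := by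
        rcases c1 with c | c
        · exact absurd (G.sym _ _ c) (pe' _ my1.1)
        · exact c.1
      have ly1 : G.Low y1 := by
        rcases c2 with c | c
        · exact absurd (G.sym _ _ c) (pe' _ my2.1)
        · exact c.1
      have g1 := (lb.low3 F q.L.1 y1 my1.1 ly1 ((dy my1).1 (all my1.1 (zy my1)))).2.1
      have g2 := (lb.low3 F q.L.1 y2 my2.1 ly2 ((dy my2).1 (all my2.1 (zy my2)))).2.1
      omega
  · rw [mem_singleton]
    exact u23
  · rw [mem_insert, mem_singleton, not_or]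
    exact ⟨u12, u13⟩


theorem Q9.caseAs (q : G.Q9 F h v w v' w') (hBas : G.StLBas) (lb : G.StLB) (b7 : G.St7Bas)
    (hC : G.StLCnt) (a1 : h ∈ G.nb v) (a2 : v' ∉ G.nb v) (a3 : h ∈ G.nb v') :
    33 ≤ ∑ y ∈ G.N F, G.gam5 F y := by
  classical
  have a2' : v ∉ G.nb v' := fun k => a2 (G.sym _ _ k)
  have cV : (G.Ms F v).card = 1 := by
    have h1 := q.cMs hBas q.mv
    rw [q.dv, if_pos a1, if_neg a2, q.t1.2.1] at h1
    omega
  have cV' : (G.Ms F v').card = 1 := by
    have h1 := q.symm.cMs hBas q.symm.mv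
    rw [q.symm.dv, if_pos a3, if_neg a2', q.t2.2.1] at h1
    omega
  have cH : (G.Ms F h).card ≤ 3 := by
    have h1 := q.cMs hBas q.mh
    have h2 := q.hub7
    rw [q.dh, if_pos (G.sym _ _ a1), if_pos (G.sym _ _ a3)] at h1
    omega
  obtain ⟨s, hs⟩ := card_eq_one.1 cV
  obtain ⟨t, ht⟩ := card_eq_one.1 cV'
  have ms : s ∈ G.Ms F v := by rw [hs]; exact mem_singleton_self _
  have mt : t ∈ G.Ms F v' := by rw [ht]; exact mem_singleton_self _
  have ms' := mem_Ms9.1 ms
  have mt' := mem_Ms9.1 mt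
  have k1 := q.cnt hBas lb hC a1 a2 ht
  have k2 := q.symm.cnt hBas lb hC a3 a2' hs
  rw [C9_comm] at k2
  obtain ⟨t1, t2, t3⟩ := q.fT hBas lb b7 mt
  obtain ⟨s1, s2, -⟩ := q.symm.fT hBas lb b7 ms
  have c0 : G.C9 F h v v' ⊆ G.Ms F h := by
    intro y hy
    rw [mem_C9, mem_Bt9] at hy
    exact mem_Ms9.2 ⟨hy.1.1, hy.2.2⟩
  have c1 := card_le_card c0
  have tC : t ∉ G.C9 F h v v' := fun k => mt'.2 (mem_Bt9.1 (mem_C9.1 k).1).2.2
  have sC : s ∉ G.C9 F h v v' := fun k => ms'.2 (mem_Bt9.1 (mem_C9.1 k).1).2.1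
  have st : s ≠ t := by
    rintro rfl
    rcases q.not_both hBas ms'.1 with k | k
    · exact ms'.2 k
    · exact mt'.2 k
  have c2 : h ∉ G.nb t → (G.C9 F h v v').card + 1 ≤ 3 := by
    intro k
    have m1 : insert t (G.C9 F h v v') ⊆ G.Ms F h :=
      insert_subset (mem_Ms9.2 ⟨mt'.1, k⟩) c0
    have m2 := card_le_card m1
    rw [card_insert_of_notMem tC] at m2
    omega
  have c3 : h ∉ G.nb t → h ∉ G.nb s → (G.C9 F h v v').card + 2 ≤ 3 := by
    intro k k'
    have m1 : insert s (insert t (G.C9 F h v v')) ⊆ G.Ms F h :=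
      insert_subset (mem_Ms9.2 ⟨ms'.1, k'⟩) (insert_subset (mem_Ms9.2 ⟨mt'.1, k⟩) c0)
    have m2 := card_le_card m1
    rw [card_insert_of_notMem, card_insert_of_notMem tC] at m2
    · omega
    · rw [mem_insert, not_or]
      exact ⟨st, sC⟩
  have ht1 : h ∈ G.nb t := by
    by_contra k
    have m1 := c2 k
    by_cases k' : h ∈ G.nb s
    · have := s2 k'
      omega
    · have := c3 k k'
      omega
  have m1 := t2 ht1
  have tl : G.Low t := by
    by_contra k
    have := t3 k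
    omega
  have td : G.d t F = 3 := by
    rw [q.dT mt'.1, if_pos ht1, if_neg mt'.2, if_pos ((q.not_both hBas mt'.1).resolve_right mt'.2)]
  have g1 := (lb.low3 F q.L.1 t mt'.1 tl td).2.1
  have g2 := b7.nn F q.L s ms'.1
  have g3 : 10 * ((G.C9 F h v v').card : ℤ) ≤ ∑ y ∈ G.Bt F v v', G.gam5 F y := by
    have n2 : ((G.C9 F h v v').card : ℤ) =
        ∑ y ∈ G.Bt F v v', (if G.Low y ∧ h ∉ G.nb y then (1 : ℤ) else 0) := by
      unfold C9
      rw [card_filter]
      push_cast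
      rfl
    rw [n2, mul_sum]
    apply sum_le_sum
    intro y hy
    have hy' := mem_Bt9.1 hy
    split_ifs with n3
    · have n4 : G.d y F = 4 := by
        rw [q.dT hy'.1, if_neg n3.2, if_pos hy'.2.1, if_pos hy'.2.2]
      have := (lb.low4 F q.L.1 y hy'.1 n3.1 n4).2.1
      omega
    · have := b7.nn F q.L y hy'.1
      omega
  rw [q.sum hBas, hs, ht, sum_singleton, sum_singleton]
  omega


/-- J9 -/
theorem st7HQQs_86 (hBas : G.StLBas) (lb : G.StLB) (b7 : G.St7Bas) (hC : G.StLCnt) :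
    ∀ F, G.L5 F → (∀ w ∈ G.N F, G.Low w → 2 ≤ G.d w (G.Co F)) → ∀ h v w v' w', F = {h, v, w, v', w'} → G.Hub h → G.Tw v w →
  G.Tw v' w' → v ≠ v' → v ≠ w' → 33 ≤ ∑ w ∈ G.N F, G.gam5 F w := by
  classical
  intro F L hO h v w v' w' e hub t1 t2 n1 n2
  have q : G.Q9 F h v w v' w' := ⟨L, e, hub, t1, t2⟩
  by_cases a2 : v' ∈ G.nb v
  · by_cases a1 : h ∈ G.nb v
    · by_cases a3 : h ∈ G.nb v'
      · exfalso
        have cV : (G.Ms F v).card = 3 := by
          have h1 := q.cMs hBas q.mv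
          rw [q.dv, if_pos a1, if_pos a2, q.t1.2.1] at h1
          omega
        have cV' : (G.Ms F v').card = 3 := by
          have h1 := q.symm.cMs hBas q.symm.mv
          rw [q.symm.dv, if_pos a3, if_pos (G.sym _ _ a2), q.t2.2.1] at h1
          omega
        have cB : (G.Bt F v v').card = 0 := by
          have h1 := q.card hBas
          omega
        have hB := card_eq_zero.1 cB
        rcases q.covQQ hBas a2 with ⟨a, k1, k2, k3, k4⟩ | ⟨a, k1, b, k2, k3, k4, k5, k6, k7⟩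
        · have : a ∈ G.Bt F v v' := mem_Bt9.2 ⟨k1, k3, k4⟩
          rw [hB] at this
          exact absurd this (notMem_empty _)
        · have : a ∈ G.Bt F v v' := mem_Bt9.2 ⟨k1, k4, k6⟩
          rw [hB] at this
          exact absurd this (notMem_empty _)
      · exact q.caseCs hBas lb b7 hO a1 a2 a3
    · by_cases a3 : h ∈ G.nb v'
      · exact q.symm.caseCs hBas lb b7 hO a3 (G.sym _ _ a2) a1
      · exfalso
        have h1 := hBas.inn F L.1 h q.mh
        rw [q.dh, if_neg fun k => a1 (G.sym _ _ k), if_neg fun k => a3 (G.sym _ _ k)] at h1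
        omega
  · have hv : h ∈ G.nb v := by
      by_contra k
      obtain ⟨x, hx, y, hy, hxy⟩ := b7.conn F L {v, w} (by
        intro x hx
        rw [mem_insert, mem_singleton] at hx
        rcases hx with rfl | rfl
        · exact q.mv
        · exact q.mw) ⟨v, by simp⟩ (by
          intro e
          have h1 := L.2
          rw [← e, card_pair q.dist.2.2.2.2.1] at h1
          omega)
      obtain ⟨d1, d2, d3, d4, d5, d6, d7, d8, d9, d10⟩ := q.dist
      have hy' : y ∈ G.nb v := by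
        rw [mem_sdiff, mem_insert, mem_singleton, not_or] at hy
        rw [mem_insert, mem_singleton] at hx
        rcases hx with rfl | rfl
        · exact hxy
        · exact Tw_nb5 (symm_5 t1) hxy hy.2.1
      rw [mem_sdiff, e] at hy
      simp only [mem_insert, mem_singleton, not_or] at hy
      obtain ⟨hy1, hy2, hy3⟩ := hy
      rcases hy1 with rfl | rfl | rfl | rfl | rfl
      · exact k hy'
      · exact hy2 rfl
      · exact hy3 rfl
      · exact a2 hy'
      · exact a2 ((tw_iff9 t2 d6 d7).2 hy')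
    have hv' : h ∈ G.nb v' := by
      by_contra k
      obtain ⟨x, hx, y, hy, hxy⟩ := b7.conn F L {v', w'} (by
        intro x hx
        rw [mem_insert, mem_singleton] at hx
        rcases hx with rfl | rfl
        · exact q.symm.mv
        · exact q.symm.mw) ⟨v', by simp⟩ (by
          intro e
          have h1 := L.2
          rw [← e, card_pair q.symm.dist.2.2.2.2.1] at h1
          omega)
      obtain ⟨d1, d2, d3, d4, d5, d6, d7, d8, d9, d10⟩ := q.dist
      have hy' : y ∈ G.nb v' := by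
        rw [mem_sdiff, mem_insert, mem_singleton, not_or] at hy
        rw [mem_insert, mem_singleton] at hx
        rcases hx with rfl | rfl
        · exact hxy
        · exact Tw_nb5 (symm_5 t2) hxy hy.2.1
      rw [mem_sdiff, e] at hy
      simp only [mem_insert, mem_singleton, not_or] at hy
      obtain ⟨hy1, hy2, hy3⟩ := hy
      rcases hy1 with rfl | rfl | rfl | rfl | rfl
      · exact k hy'
      · exact a2 (G.sym _ _ hy')
      · exact a2 (G.sym _ _ ((tw_iff9 t1 d6.symm d8.symm).2 hy'))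
      · exact hy2 rfl
      · exact hy3 rfl
    exact q.caseAs hBas lb b7 hC hv a2 hv'

end CG

end Pool.Agent.Lib.MP_e95c01_co.N
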