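import Pool.Agent.Lib.MP_e95c01_co.Y.PortK87

/-!
# Direct necks: the charges of an `LL` port pair of two members `K` and `K'`
-/

namespace Pool.Agent.Lib.MP_e95c01_co.N

open Finset

variable {V : Type} [Fintype V] [DecidableEq V]

namespace CG

variable {G : CG V} {Fa : Finset (Finset V)} {K K' : Finset V} {q q' p p' u v c d x y : V}

/-- a vertex that asks is a neighbour -/
theorem DL_nb87 (hG : G.Gen6 Fa) {z : V} (h1 : G.DL Fa z u)
    (hno : ∀ a ∈ R Fa, ¬ G.HL a u z) : u ∈ G.nb z := by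
  rcases h1 with ⟨h1, h2, h3⟩ | ⟨h1, h2, h3, h4⟩ | ⟨h1, h2, h3⟩ | ⟨h1, h2, h3⟩ | ⟨h1, h2, h3⟩ |
    ⟨h1, h2, h3⟩ | ⟨h1, h2, h3, h4⟩ | ⟨h1, h2, h3, h4⟩
  · exact (mem_inter.1 h1.dT).1
  · exact absurd h1.hl (hno _ (N_sub_R76 hG.g5.reg
      (mem_I76.1 (h1.I1 ▸ mem_singleton_self _)).1 (mem_inter.1 h1.aT).2))
  · exact (mem_inter.1 h1.dT).1
  · exact absurd h1.hl (hno _ (N_sub_R76 hG.g5.reg
      (mem_I76.1 (h1.I1 ▸ mem_singleton_self _)).1 (mem_inter.1 h1.aT).2))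
  · have h5 := h1.s0.2.2.2.1
    have h6 : u ∈ ({u} : Finset V) := mem_singleton_self _
    rw [← h5] at h6
    exact (mem_inter.1 h6).1
  · rw [h1.nb]
    simp
  · rw [h1.nb]
    simp
  · have h5 := h3.2.2.2.1
    have h6 : u ∈ ({u} : Finset V) := mem_singleton_self _
    rw [← h5] at h6
    exact (mem_inter.1 h6).1

theorem card_inter_pair87 {α : Type*} [DecidableEq α] {A : Finset α} {a b : α} (hab : a ≠ b) :
    ((A ∩ {a, b}).card : ℤ) = (if a ∈ A then 1 else 0) + (if b ∈ A then 1 else 0) := by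
  rw [inter_comm]
  by_cases h1 : a ∈ A <;> by_cases h2 : b ∈ A
  · rw [insert_inter_of_mem h1, singleton_inter_of_mem h2, card_pair hab, if_pos h1, if_pos h2]
    norm_num
  · rw [insert_inter_of_mem h1, singleton_inter_of_notMem h2, if_pos h1, if_neg h2]
    simp
  · rw [insert_inter_of_notMem h1, singleton_inter_of_mem h2, if_neg h1, if_pos h2]
    simp
  · rw [insert_inter_of_notMem h1, singleton_inter_of_notMem h2, if_neg h1, if_neg h2]
    simp

namespace LPt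

theorem KK' (h : G.LPt Fa K q q' u v p p' x y) (h' : G.LPt Fa K' p p' u v q q' x y)
    (hG : G.Gen6 Fa) : K ≠ K' := by
  rintro rfl
  exact h.cK hG h'.qK

/-- a visible private neighbour is a low port -/
theorem low_vis (h : G.LPt Fa K q q' u v p p' x y) (h' : G.LPt Fa K' p p' u v q q' x y)
    (hG : G.Gen6 Fa) (hx : x ∈ R Fa) : G.Low x ∧ (x ∈ G.N K ∨ x ∈ G.N K') := by
  have h1 := h.m_pos h' hG hx
  rw [m] at h1
  obtain ⟨B, hB⟩ := card_ne_zero.1 h1
  obtain ⟨hB1, hB2⟩ := mem_inter.1 hB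
  rw [h.I_vis h' hG hx, mem_insert, mem_singleton] at hB1
  have h2 := (mem_I76.1 hB2).2
  rcases hB1 with rfl | rfl
  · obtain ⟨r, -, w', -, -, -, -, h7, -⟩ := partner hG h.mem h.k6 h2
    exact ⟨h7, Or.inl h2⟩
  · obtain ⟨r, -, w', -, -, -, -, h7, -⟩ := partner hG h'.mem h'.k6 h2
    exact ⟨h7, Or.inr h2⟩

theorem I_ne_vis (h : G.LPt Fa K q q' u v p p' x y) (h' : G.LPt Fa K' p p' u v q q' x y)
    (hG : G.Gen6 Fa) (hx : x ∈ R Fa) : G.I Fa x ≠ ∅ := by
  intro h1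
  rcases (h.low_vis h' hG hx).2 with h2 | h2
  · have h3 : K ∈ G.I Fa x := mem_I76.2 ⟨h.mem, h2⟩
    rw [h1] at h3
    exact absurd h3 (notMem_empty _)
  · have h3 : K' ∈ G.I Fa x := mem_I76.2 ⟨h'.mem, h2⟩
    rw [h1] at h3
    exact absurd h3 (notMem_empty _)

/-- `u` gives nothing, except perhaps to its partner -/
theorem dn_zero (h : G.LPt Fa K q q' u v p p' x y) (h' : G.LPt Fa K' p p' u v q q' x y)
    (hG : G.Gen6 Fa) {z : V} (hz : z ∈ R Fa) (hv : z ≠ v) : G.dn5 Fa u z = 0 := by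
  classical
  have hr := hG.g5.reg
  have hx : u ∈ G.nb z → z = x := by
    intro h1
    exact (h.nR_sub h' (mem_nR76.2 ⟨G.sym _ _ h1, hz⟩)).resolve_left hv
  rw [dn5_low76 hG.g5.n9 h.lu, if_neg, if_neg, add_zero]
  · rintro ⟨B, r, e, f, g, h1⟩
    have h2 : u ∈ G.pT B z := by
      rw [h1.nT]
      simp
    have h3 := hx (mem_inter.1 h2).1
    subst h3
    exact tw_not_low76 ⟨_, h1.t⟩ (h.low_vis h' hG hz).1
  · intro h1
    have hno : ∀ a ∈ R Fa, ¬ G.HL a u z := fun a ha => h.no_HL hG ha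
    have h3 := hx (DL_nb87 hG h1 hno)
    subst h3
    rcases DL_cases87 hG h1 hno with h4 | ⟨B, h4, h5, h6⟩
    · exact h.I_ne_vis h' hG hz h4
    · have h7 := (mem_I76.1 h4).2
      have h8 : B ∈ G.I Fa u := mem_I76.2 ⟨(mem_I76.1 h4).1, (mem_inter.1 h5).2⟩
      rw [h.I_vis h' hG hz, mem_insert, mem_singleton] at h8
      have h9 : G.IsK6 B := by
        rcases h8 with rfl | rfl
        · exact h.k6
        · exact h'.k6
      obtain ⟨r, g2, w', g3, g4, g5, g6, g7, g8, g9⟩ := partner hG (mem_I76.1 h4).1 h9 h7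
      have g10 := h6 w' g6 g9 g3 g8
      subst g10
      have g11 : z ≠ w' := ne_of_nb5 g6
      rcases h8 with rfl | rfl
      · exact hv (h.partner_eq hG g2 g4 g5 h7 g11)
      · exact hv (h'.partner_eq hG g2 g4 g5 h7 g11)

/-- the final charges of the pair -/
theorem fc_pair (h : G.LPt Fa K q q' u v p p' x y) (h' : G.LPt Fa K' p p' u v q q' x y)
    (hG : G.Gen6 Fa) : 2 * (G.ch5 Fa u + G.ch5 Fa v) ≤ G.fc Fa u + G.fc Fa v := by
  have hr := hG.g5.reg
  have hu := h.uR hr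
  have hv := h.symm.uR hr
  have h1 : ∑ z ∈ R Fa, G.dn5 Fa u z = G.dn5 Fa u v :=
    sum_eq_single v (fun z hz hzv => h.dn_zero h' hG hz hzv) (fun h2 => absurd hv h2)
  have h2 : ∑ z ∈ R Fa, G.dn5 Fa v z = G.dn5 Fa v u :=
    sum_eq_single u (fun z hz hzv => h.symm.dn_zero h'.symm hG hz hzv) (fun h2 => absurd hu h2)
  have h3 : G.dn5 Fa v u ≤ ∑ z ∈ R Fa, G.dn5 Fa z u :=
    single_le_sum (f := fun z => G.dn5 Fa z u) (fun z _ => dn5_nonneg76 hG z u) hv
  have h4 : G.dn5 Fa u v ≤ ∑ z ∈ R Fa, G.dn5 Fa z v :=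
    single_le_sum (f := fun z => G.dn5 Fa z v) (fun z _ => dn5_nonneg76 hG z v) hu
  rw [fc, fc, h1, h2]
  omega

/-- flags seen from `K` -/
theorem flv_le (h : G.LPt Fa K q q' u v c d x y) (hG : G.Gen6 Fa) :
    G.flv K u ≤ if x ∈ G.N K ∨ y ∈ G.N K then 0 else 1 := by
  have hnd := h.nd
  have hnd' := h.symm.nd
  split_ifs with h1
  · rcases h1 with h1 | h1
    · exact (h.flvK hG).2 ⟨x, h.memu.2 (by tauto), h1, by tauto⟩
    · exact h.flvK' hG ⟨y, h.memv.2 (by tauto), h1, by tauto⟩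
  · exact (h.flvK hG).1

/-- the charge of `u` if its private neighbour is visible -/
theorem ch_vis (h : G.LPt Fa K q q' u v p p' x y) (h' : G.LPt Fa K' p p' u v q q' x y)
    (hG : G.Gen6 Fa) (hx : x ∈ R Fa) :
    4 - 2 * (if x ∈ G.N K then 1 else 0) - 2 * (if x ∈ G.N K' then 1 else 0) -
      (if x ∈ G.N K ∨ y ∈ G.N K then 0 else 1) - (if x ∈ G.N K' ∨ y ∈ G.N K' then 0 else 1) ≤
      G.ch5 Fa u := by
  have hr := hG.g5.reg
  have hne := h.KK' h' hG
  have hI := h.I_vis h' hG hx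
  have hnd := h.nd
  have h1 := (stCh5_28 G).low2 hG.g5.n9 Fa hr u (h.uR hr) h.lu
  have h2 : G.nR Fa u = {v, x} := by
    ext z
    rw [mem_insert, mem_singleton]
    refine ⟨h.nR_sub h', ?_⟩
    rintro (rfl | rfl)
    · exact mem_nR76.2 ⟨h.memu.2 (by tauto), h.symm.uR hr⟩
    · exact mem_nR76.2 ⟨h.memu.2 (by tauto), hx⟩
  have h3 : (G.m Fa v u : ℤ) = 2 := by
    rw [m, hI, card_inter_pair87 hne, if_pos h.symm.KI, if_pos h'.symm.KI]
    norm_num
  have h4 : (G.m Fa x u : ℤ) = (if x ∈ G.N K then 1 else 0) + (if x ∈ G.N K' then 1 else 0) := by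
    rw [m, hI, card_inter_pair87 hne]
    have e1 : K ∈ G.I Fa x ↔ x ∈ G.N K := ⟨fun h5 => (mem_I76.1 h5).2, fun h5 =>
      mem_I76.2 ⟨h.mem, h5⟩⟩
    have e2 : K' ∈ G.I Fa x ↔ x ∈ G.N K' := ⟨fun h5 => (mem_I76.1 h5).2, fun h5 =>
      mem_I76.2 ⟨h'.mem, h5⟩⟩
    simp only [e1, e2]
  have h5 : G.fg5 Fa u = (G.flv (G.Co K) u - G.flv K u) + (G.flv (G.Co K') u - G.flv K' u) := by
    rw [fg5, hI, sum_pair hne]
  have h6 : ∑ z ∈ G.nR Fa u, G.w5 Fa z u = G.w5 Fa v u + G.w5 Fa x u := by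
    rw [h2, sum_pair (by tauto)]
  have h7 : (G.I Fa u).card = 2 := by rw [hI, card_pair hne]
  rw [h6, h5, h7, w5, w5, pay5_low87 u v h.lv, pay5_low87 u x (h.low_vis h' hG hx).1, h3,
    h4] at h1
  have g1 := h.flvCo hG
  have g2 := h'.flvCo hG
  have g3 := h.flv_le hG
  have g4 := h'.flv_le hG
  push_cast at h1
  split_ifs at g3 g4 h1 ⊢ <;> omega

/-- the charge of `u` if its private neighbour is hidden -/
theorem ch_hid (h : G.LPt Fa K q q' u v p p' x y) (h' : G.LPt Fa K' p p' u v q q' x y)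
    (hG : G.Gen6 Fa) (hx : x ∉ R Fa) : 4 ≤ G.ch5 Fa u := by
  have hr := hG.g5.reg
  have hne := h.KK' h' hG
  obtain ⟨M, hM, hxM⟩ : ∃ M ∈ Fa, x ∈ M := by
    by_contra hno
    push Not at hno
    exact hx (mem_R76.2 hno)
  have hMK : M ≠ K := by
    rintro rfl
    exact h.xK hG hxM
  have hMK' : M ≠ K' := by
    rintro rfl
    exact h'.xK hG hxM
  have hI := h.I_hid h' hG hM hxM
  have h1 := (stCh5_28 G).low2 hG.g5.n9 Fa hr u (h.uR hr) h.lu
  have h2 : G.nR Fa u = {v} := by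
    ext z
    rw [mem_singleton]
    constructor
    · intro h3
      rcases h.nR_sub h' h3 with h4 | h4
      · exact h4
      · exact absurd (mem_nR76.1 h3).2 (h4 ▸ hx)
    · rintro rfl
      exact mem_nR76.2 ⟨h.memu.2 (by tauto), h.symm.uR hr⟩
  have h7 : (G.I Fa u).card = 3 := by
    rw [hI, card_insert_of_notMem, card_pair hMK'.symm]
    rw [mem_insert, mem_singleton]
    push Not
    exact ⟨hne, hMK.symm⟩
  have h3 : (G.m Fa v u : ℤ) ≤ 3 := by
    have h4 := card_le_card (inter_subset_right (s₁ := G.I Fa v) (s₂ := G.I Fa u))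
    rw [h7] at h4
    rw [m]
    exact_mod_cast h4
  have h5 : G.fg5 Fa u = (G.flv (G.Co K) u - G.flv K u) + ((G.flv (G.Co K') u - G.flv K' u) +
      (G.flv (G.Co M) u - G.flv M u)) := by
    rw [fg5, hI, sum_insert, sum_pair hMK'.symm]
    rw [mem_insert, mem_singleton]
    push Not
    exact ⟨hne, hMK.symm⟩
  rw [h2, sum_singleton, h5, h7, w5, pay5_low87 u v h.lv] at h1
  have g1 := h.flvCo hG
  have g2 := h'.flvCo hG
  have g3 := (h.flvK hG).1
  have g4 := (h'.flvK hG).1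
  have g5 := h.flvM h' hG hM hxM
  push_cast at h1
  omega

/-- the charges of the pair -/
theorem ch_pair (h : G.LPt Fa K q q' u v p p' x y) (h' : G.LPt Fa K' p p' u v q q' x y)
    (hG : G.Gen6 Fa) :
    2 * (if x ∈ G.N K ∧ y ∈ G.N K then 0 else 1) + 2 * (if x ∈ G.N K' ∧ y ∈ G.N K' then 0 else 1) ≤
      G.ch5 Fa u + G.ch5 Fa v := by
  by_cases hx : x ∈ R Fa <;> by_cases hy : y ∈ R Fa
  · have h1 := h.ch_vis h' hG hx
    have h2 := h.symm.ch_vis h'.symm hG hy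
    have h3 := (h.low_vis h' hG hx).2
    have h4 := (h.symm.low_vis h'.symm hG hy).2
    by_cases a1 : x ∈ G.N K <;> by_cases a2 : x ∈ G.N K' <;> by_cases a3 : y ∈ G.N K <;>
      by_cases a4 : y ∈ G.N K' <;> simp only [a1, a2, a3, a4, if_true, if_false, and_self,
        and_true, true_and, false_and, and_false, or_true, true_or, or_false, false_or,
        or_self] at h1 h2 h3 h4 ⊢ <;> omega
  · have h1 := h.ch_vis h' hG hx
    have h2 := h.symm.ch_hid h'.symm hG hy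
    have h3 : 0 ≤ G.ch5 Fa u := by
      by_cases a1 : x ∈ G.N K <;> by_cases a2 : x ∈ G.N K' <;> by_cases a3 : y ∈ G.N K <;>
        by_cases a4 : y ∈ G.N K' <;> simp only [a1, a2, a3, a4, if_true, if_false,
          or_true, true_or, or_false, or_self] at h1 <;> omega
    split_ifs <;> omega
  · have h1 := h.symm.ch_vis h'.symm hG hy
    have h2 := h.ch_hid h' hG hx
    have h3 : 0 ≤ G.ch5 Fa v := by
      by_cases a1 : x ∈ G.N K <;> by_cases a2 : x ∈ G.N K' <;> by_cases a3 : y ∈ G.N K <;>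
        by_cases a4 : y ∈ G.N K' <;> simp only [a1, a2, a3, a4, if_true, if_false,
          or_true, true_or, or_false, or_self] at h1 <;> omega
    split_ifs <;> omega
  · have h1 := h.ch_hid h' hG hx
    have h2 := h.symm.ch_hid h'.symm hG hy
    split_ifs <;> omega

/-- the final charges of a direct neck -/
theorem direct (h : G.LPt Fa K q q' u v p p' x y) (h' : G.LPt Fa K' p p' u v q q' x y)
    (hG : G.Gen6 Fa) :
    4 * (if x ∈ G.N K ∧ y ∈ G.N K then 0 else 1) + 4 * (if x ∈ G.N K' ∧ y ∈ G.N K' then 0 else 1) ≤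
      G.fc Fa u + G.fc Fa v := by
  have h1 := h.fc_pair h' hG
  have h2 := h.ch_pair h' hG
  omega

end LPt

end CG

end Pool.Agent.Lib.MP_e95c01_co.N
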