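import Pool.Agent.Lib.MP_e95c01_co.Y.ValI31
import Pool.Agent.Lib.MP_e95c01_co.Y.PortM87

/-!
# Direct necks: the values
-/

set_option autoImplicit false

namespace Pool.Agent.Lib.MP_e95c01_co.N

open Finset

variable {V : Type} [Fintype V] [DecidableEq V]

namespace CG

variable {G : CG V} {Fa : Finset (Finset V)} {F : Finset V}

namespace KK31

/-- a costly pair: its private neighbours -/
theorem not_in {K K' : Finset V} (hG : G.Gen6 (insert (G.Co F) Fa)) {q q' u v c d x y : V}
    (L : G.LPt (insert (G.Co F) Fa) K q q' u v c d x y) (hK' : (G.N K').card = 6)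
    (hK6 : G.IsK6 K') (hb : G.Bad K' u) (hu : u ∈ G.N K') :
    ¬ (x ∈ G.N K' ∧ y ∈ G.N K') := by
  have hC := hG.g5.crit
  have h9 := hG.g5.n9
  obtain ⟨s, hsP, hsu, huK'⟩ := hb
  obtain ⟨-, hs, a, b, x', y', h1, h2, h3, h4, h5, h6, -⟩ := hsP
  have hab : a ≠ b := fun h => G.irr a (by have := h5.2.2.1; rw [← h] at this; exact this)
  -- the pair is `u`, `v`
  have key : ∀ w x' y', G.LL u w x' y' → w = v → x' = x ∧ y' = y := by
    intro w x' y' h hw
    subst hw
    have e1 := LL_t76 h
    have e2 := (LL_tb76 h).1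
    have e3 := LL_t76 (LL_symm76 h)
    have e4 := (LL_tb76 (LL_symm76 h)).1
    constructor
    · rcases L.memu.1 e1 with h | h | h | h | h | h
      · exact absurd (L.memv.2 (by tauto)) e2
      · exact absurd (L.memv.2 (by tauto)) e2
      · exact absurd h (LL_tb76 ‹G.LL u w x' y'›).2
      · exact absurd (L.memv.2 (by tauto)) e2
      · exact absurd (L.memv.2 (by tauto)) e2
      · exact h
    · rcases L.memv.1 e3 with h | h | h | h | h | h
      · exact absurd (L.memu.2 (by tauto)) e4
      · exact absurd (L.memu.2 (by tauto)) e4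
      · exact absurd h (LL_tb76 (LL_symm76 ‹G.LL u w x' y'›)).2
      · exact absurd (L.memu.2 (by tauto)) e4
      · exact absurd (L.memu.2 (by tauto)) e4
      · exact h
  -- `v` is a port at `s`
  obtain ⟨hvK', hvs⟩ := Vl6.partner hC h9 hK6 hK' hs huK' hsu L.ll
  have e1 := Vl6.two_ports hC h9 hK6 hs h1 h2 h3 h4 hab hsu huK'
  have e2 := Vl6.two_ports hC h9 hK6 hs h1 h2 h3 h4 hab hvs hvK'
  have huv := L.uv
  rcases e1 with rfl | rfl <;> rcases e2 with rfl | rfl
  · exact absurd rfl huv
  · obtain ⟨rfl, rfl⟩ := key _ _ _ h5 rfl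
    exact h6
  · obtain ⟨rfl, rfl⟩ := key _ _ _ (LL_symm76 h5) rfl
    exact fun h => h6 ⟨h.2, h.1⟩
  · exact absurd rfl huv

/-- the value of one port of a direct neck -/
theorem val_one (hF : G.GoodK F) (T : G.Tor F Fa) (hG : G.Gen6 (insert (G.Co F) Fa))
    {K K' : Finset V} (hK : K ∈ G.k6S Fa) (hK' : K' ∈ G.k6S Fa) (hne : K ≠ K')
    {q q' p p' u v x y : V} (L : G.LPt (insert (G.Co F) Fa) K q q' u v p p' x y)
    (L' : G.LPt (insert (G.Co F) Fa) K' p p' u v q q' x y) :
    ((G.Bad K u ∨ G.Bad K' u) →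
      3 * G.fc (insert (G.Co F) Fa) u + 8 - 6 * ((if x ∈ G.N K ∧ y ∈ G.N K then 0 else 1) +
      (if x ∈ G.N K' ∧ y ∈ G.N K' then 0 else 1)) ≤ G.valS Fa F u) ∧
      (¬ (G.Bad K u ∨ G.Bad K' u) → 8 ≤ G.valS Fa F u) := by
  classical
  have hC := hG.g5.crit
  have h9 := hG.g5.n9
  have mK := mem_k6S.1 hK
  have mK' := mem_k6S.1 hK'
  have hKF : K ⊆ F := (T.good K mK.1).2.1
  have hKF' : K' ⊆ F := (T.good K' mK'.1).2.1
  have huR := L.uR hG.g5.reg
  have hCo : ∀ w, w ∈ G.nb u → w ∈ G.Co F → w = v ∨ w = x := by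
    intro w hw hwC
    have h1 := mem_Co76.1 hwC
    rcases L.memu.1 hw with rfl | rfl | h | rfl | rfl | h
    · exact absurd (hKF L.qK) h1.1
    · exact absurd (hKF L.qK') h1.1
    · exact Or.inl h
    · exact absurd (hKF' L'.qK) h1.1
    · exact absurd (hKF' L'.qK') h1.1
    · exact Or.inr h
  -- not costly on the other side
  have hnb : ¬ G.BadC (G.Co F) u := by
    rintro ⟨S, hb, hS⟩
    have hS6 : G.IsK6 S := by
      obtain ⟨s, ⟨hS, -⟩, -⟩ := hb
      exact hS
    have hSC : S ⊆ G.Co F := good_k6_Co hF.2 S hS6 hS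
    have h1 := (k6_low16 hC h9 hS6 (hb.low hC h9).2).2.1
    have h2 : G.nb u ∩ S ⊆ {x} := by
      intro w hw
      obtain ⟨a, b⟩ := mem_inter.1 hw
      rcases hCo w a (hSC b) with rfl | rfl
      · exact absurd L.lv (tw_not_low11 (hS6.2.1 _ b))
      · exact mem_singleton_self _
    have h3 := card_le_card h2
    rw [card_singleton] at h3
    have h4 : G.d u S = (G.nb u ∩ S).card := rfl
    omega
  -- no other member
  have hmem : ∀ M ∈ G.k6S Fa, u ∈ G.N M → M = K ∨ M = K' := by
    intro M hM hu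
    by_contra hno
    rw [not_or] at hno
    have hM6 := (mem_k6S.1 hM).2
    have d1 := T.reg.dis M (mem_insert_of_mem (mem_k6S.1 hM).1) K (mem_insert_of_mem mK.1) hno.1
    have d2 := T.reg.dis M (mem_insert_of_mem (mem_k6S.1 hM).1) K' (mem_insert_of_mem mK'.1) hno.2
    have h1 := (k6_low16 hC h9 hM6 hu).2.1
    have h2 : G.nb u ∩ M ⊆ {x} := by
      intro w hw
      obtain ⟨a, b⟩ := mem_inter.1 hw
      rcases L.memu.1 a with rfl | rfl | rfl | rfl | rfl | rfl
      · exact absurd L.qK (disjoint_left.1 d1.1 b)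
      · exact absurd L.qK' (disjoint_left.1 d1.1 b)
      · exact absurd L.lv (tw_not_low11 (hM6.2.1 _ b))
      · exact absurd L'.qK (disjoint_left.1 d2.1 b)
      · exact absurd L'.qK' (disjoint_left.1 d2.1 b)
      · exact mem_singleton_self _
    have h3 := card_le_card h2
    rw [card_singleton] at h3
    have h4 : G.d u M = (G.nb u ∩ M).card := rfl
    omega
  constructor
  · intro hbb
    have h0 : (G.badS Fa u).Nonempty := by
      rcases hbb with h | h
      · exact ⟨K, mem_badS.2 ⟨mK, h⟩⟩
      · exact ⟨K', mem_badS.2 ⟨mK', h⟩⟩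
    -- the number of the costly members
    have hcard : ((G.badS Fa u).card : ℤ) ≤ (if x ∈ G.N K ∧ y ∈ G.N K then 0 else 1) +
        (if x ∈ G.N K' ∧ y ∈ G.N K' then 0 else 1) := by
      have h1 : G.badS Fa u ⊆ (if G.Bad K u then {K} else ∅) ∪ (if G.Bad K' u then {K'} else ∅) := by
        intro M hM
        obtain ⟨h1, h2⟩ := mem_badS.1 hM
        rcases hmem M (mem_k6S.2 h1) (h2.low hC h9).2 with rfl | rfl
        · rw [if_pos h2]
          exact mem_union_left _ (mem_singleton_self _)
        · rw [if_pos h2]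
          exact mem_union_right _ (mem_singleton_self _)
      have h2 := (card_le_card h1).trans (card_union_le _ _)
      have h3 : (if G.Bad K u then ({K} : Finset (Finset V)) else ∅).card ≤
          (if x ∈ G.N K ∧ y ∈ G.N K then 0 else 1) := by
        by_cases hb : G.Bad K u
        · rw [if_pos hb, card_singleton,
            if_neg (not_in hG L (Vl6.N_card T mK.1) mK.2 hb L.uN)]
        · rw [if_neg hb, card_empty]
          exact Nat.zero_le _
      have h4 : (if G.Bad K' u then ({K'} : Finset (Finset V)) else ∅).card ≤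
          (if x ∈ G.N K' ∧ y ∈ G.N K' then 0 else 1) := by
        by_cases hb : G.Bad K' u
        · rw [if_pos hb, card_singleton,
            if_neg (not_in hG L (Vl6.N_card T mK'.1) mK'.2 hb L'.uN)]
        · rw [if_neg hb, card_empty]
          exact Nat.zero_le _
      have h5 := h2.trans (add_le_add h3 h4)
      split_ifs at h5 ⊢ <;> omega
    rcases VC31.in_F_or huR with hu | hu
    · rw [val_in33 hC h9 hF T h0 hu]
      linarith
    · have h1 : G.d u (G.Co F) ≤ 1 := by
        have h2 : G.nb u ∩ G.Co F ⊆ {x} := by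
          intro w hw
          obtain ⟨a, b⟩ := mem_inter.1 hw
          rcases hCo w a b with rfl | rfl
          · exfalso
            -- the partner is a vertex of the torso
            have := L.symm.uR hG.g5.reg
            exact mem_R76.1 this _ (mem_insert_self _ _) b
          · exact mem_singleton_self _
        have h3 := card_le_card h2
        rw [card_singleton] at h3
        exact h3
      rw [val_N33 hC h9 T h0 hu hnb, if_pos h1]
      linarith
  · intro hbb
    rw [not_or] at hbb
    have h0 : G.badS Fa u = ∅ := by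
      rw [← not_nonempty_iff_eq_empty]
      rintro ⟨M, hM⟩
      obtain ⟨h1, h2⟩ := mem_badS.1 hM
      rcases hmem M (mem_k6S.2 h1) (h2.low hC h9).2 with rfl | rfl
      · exact hbb.1 h2
      · exact hbb.2 h2
    have h1 := valS_four33 hF T hG huR L.lu h0 hnb
    have h2 : ({K, K'} : Finset (Finset V)) ⊆ G.atS Fa u := by
      intro M hM
      rw [mem_insert, mem_singleton] at hM
      rcases hM with rfl | rfl
      · exact mem_atS.2 ⟨mK, L.uN⟩
      · exact mem_atS.2 ⟨mK', L'.uN⟩
    have h3 := card_le_card h2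
    rw [card_pair hne] at h3
    have h4 : (2 : ℤ) ≤ ((G.atS Fa u).card : ℤ) := by exact_mod_cast h3
    linarith

/-- a vertex of a `K6` is costly for both ports -/
theorem bad_both {K : Finset V} {q q' u v c d x y : V}
    (L : G.LPt (insert (G.Co F) Fa) K q q' u v c d x y) (hG : G.Gen6 (insert (G.Co F) Fa))
    (hN : (G.N K).card = 6) (h : G.Bad K u) : G.Bad K v := by
  have h1 : u ∈ G.nb q := G.sym _ _ (L.memu.2 (by tauto))
  have h2 : v ∈ G.nb q := G.sym _ _ (L.memv.2 (by tauto))
  exact (Vl6.bad_iff hG.g5.crit hG.g5.n9 hN L.qK L.vK h2).2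
    ((Vl6.bad_iff hG.g5.crit hG.g5.n9 hN L.qK L.uK h1).1 h)

end KK31

open KK31 VI31

/-- row 5: direct necks -/
theorem stKK31 (hF : G.GoodK F) (T : G.Tor F Fa) (hG : G.Gen6 (insert (G.Co F) Fa)) :
    G.StKK31 F Fa := by
  classical
  intro K hK K' hK' hne q u v x y p hL huK' hvK'
  have hC := hG.g5.crit
  have h9 := hG.g5.n9
  have mK := mem_k6S.1 hK
  have mK' := mem_k6S.1 hK'
  obtain ⟨q', c, d, L⟩ := lpt (F := F) hG hK p hL
  -- two of the neighbours of `u` are in `K'`
  have hdis := (T.reg.dis K (mem_insert_of_mem mK.1) K' (mem_insert_of_mem mK'.1) hne).1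
  have h2 := (k6_low16 hC h9 mK'.2 huK').2.1
  have hcd : c ∈ K' ∨ d ∈ K' := by
    by_contra hno
    rw [not_or] at hno
    have h3 : G.nb u ∩ K' ⊆ {x} := by
      intro w hw
      obtain ⟨a, b⟩ := mem_inter.1 hw
      rcases L.memu.1 a with rfl | rfl | rfl | rfl | rfl | rfl
      · exact absurd b (disjoint_left.1 hdis L.qK)
      · exact absurd b (disjoint_left.1 hdis L.qK')
      · exact absurd L.lv (tw_not_low11 (mK'.2.2.1 _ b))
      · exact absurd b hno.1
      · exact absurd b hno.2
      · exact mem_singleton_self _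
    have h4 := card_le_card h3
    rw [card_singleton] at h4
    have h5 : G.d u K' = (G.nb u ∩ K').card := rfl
    omega
  -- the two structures
  have main : ∀ c d, G.LPt (insert (G.Co F) Fa) K q q' u v c d x y → c ∈ K' →
      16 ≤ G.valS Fa F u + G.valS Fa F v := by
    intro c d L hc
    have L' := L.other hG (mem_insert_of_mem mK'.1) mK'.2 hne hc
    have h6 := L.direct L' hG
    have h7 := val_one hF T hG hK hK' hne L L'
    have h8 := val_one hF T hG hK hK' hne L.symm L'.symm
    have hsw : ∀ A : Finset V, (if y ∈ A ∧ x ∈ A then (0 : ℤ) else 1) =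
        if x ∈ A ∧ y ∈ A then 0 else 1 := by
      intro A
      by_cases a1 : x ∈ A <;> by_cases a2 : y ∈ A <;> simp [a1, a2]
    rw [hsw, hsw] at h8
    have nK := Vl6.N_card T mK.1
    have nK' := Vl6.N_card T mK'.1
    have fu := fc_nonneg33 T hG (L.uR hG.g5.reg)
    have fv := fc_nonneg33 T hG (L.symm.uR hG.g5.reg)
    by_cases hbb : G.Bad K u ∨ G.Bad K' u
    · have hbv : G.Bad K v ∨ G.Bad K' v := by
        rcases hbb with h | h
        · exact Or.inl (bad_both L hG nK h)
        · exact Or.inr (bad_both L' hG nK' h)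
      have := h7.1 hbb
      have := h8.1 hbv
      linarith
    · have hbv : ¬ (G.Bad K v ∨ G.Bad K' v) := by
        rintro (h | h)
        · exact hbb (Or.inl (bad_both L.symm hG nK h))
        · exact hbb (Or.inr (bad_both L'.symm hG nK' h))
      have := h7.2 hbb
      have := h8.2 hbv
      linarith
  rcases hcd with h | h
  · exact main c d L h
  · exact main d c L.swap h

end CG

end Pool.Agent.Lib.MP_e95c01_co.N
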