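import Pool.Agent.Lib.MP_e95c01_co.Y.WS33

/-!
# Values of the vertices of a torso in `WS`
-/

set_option autoImplicit false

namespace Pool.Agent.Lib.MP_e95c01_co.N

open Finset

variable {V : Type} [Fintype V] [DecidableEq V]

namespace CG

open K38

variable {G : CG V} {Fa : Finset (Finset V)} {F : Finset V}

/-- the value of a pair of ports which is not costly -/
theorem pair_val33 (hC : G.Crit) (h9 : 9 ≤ Fintype.card V) {S : Finset V} (hS : G.IsK6 S)
    (hN : (G.N S).card = 6) {q u v : V} (hq : q ∈ S) (huv : u ≠ v) (huS : u ∉ S) (hvS : v ∉ S)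
    (hul : G.Low u) (hvl : G.Low v) (hvu : v ∈ G.nb u) (hu : u ∈ G.nb q) (hv : v ∈ G.nb q)
    (h : ¬ G.PLb S q) : 12 ≤ fK G S u + fK G S v := by
  classical
  by_cases hP : G.PLq q
  · obtain ⟨S', hS', hq', u', v', x, y, a, b, c, d, e⟩ := hP
    obtain rfl := k6_eq16 hC h9 hS hS' hq hq'
    have huN : u ∈ G.N S := mem_N76.2 ⟨huS, q, hq, hu⟩
    have hvN : v ∈ G.N S := mem_N76.2 ⟨hvS, q, hq, hv⟩
    -- a port with its partner and another neighbour among the ports
    have key : ∀ a b x : V, b ∈ G.N S → x ∈ G.N S → b ∈ G.nb a → x ∈ G.nb a → b ≠ x →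
        6 ≤ fK G S a := by
      intro a b x hb hx hba hxa hne
      have h1 : ({b, x} : Finset V) ⊆ G.pT S a := by
        intro w hw
        rw [mem_insert, mem_singleton] at hw
        rw [pT, mem_inter]
        rcases hw with rfl | rfl
        · exact ⟨hba, hb⟩
        · exact ⟨hxa, hx⟩
      have h2 := card_le_card h1
      rw [card_pair hne] at h2
      have h3 := s5_nonneg (G := G) S a
      unfold fK
      have h4 : (2 : ℤ) ≤ ((G.pT S a).card : ℤ) := by exact_mod_cast h2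
      linarith
    obtain ⟨u0, v0, h1, h2, h3, h4, h5, h6, h7, h8, hall⟩ := ports hC h9 hS hq
    have e1 := hall u hu huS
    have e2 := hall v hv hvS
    have e3 := hall u' a c
    have e4 := hall v' b d
    have hne' : u' ≠ v' := fun h => G.irr u' (by have := e.2.2.1; rwa [← h] at this)
    have hcase : (u' = u ∧ v' = v) ∨ (u' = v ∧ v' = u) := by
      rcases e1 with rfl | rfl <;> rcases e2 with rfl | rfl <;> rcases e3 with rfl | rfl <;>
        rcases e4 with rfl | rfl <;> simp_all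
    -- both cases of a pair that is not costly
    have fin : ∀ a b x y : V, a ∈ G.N S → b ∈ G.N S → G.LL a b x y →
        ((x ∈ G.N S ∧ y ∈ G.N S) ∨ ¬ Disjoint (G.nb a ∩ G.nb b) (G.N S)) →
        12 ≤ fK G S a + fK G S b := by
      rintro a b x y ha hb hL (h | h)
      · have g1 := key a b x hb h.1 hL.2.2.1 (LL_t76 hL) (LL_tb76 hL).2.symm
        have g2 := key b a y ha h.2 (G.sym _ _ hL.2.2.1) (LL_u76 hL) (LL_ua76 hL).2.symm
        linarith
      · obtain ⟨w, hw, hwN⟩ := not_disjoint_iff.1 h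
        obtain ⟨hwa, hwb⟩ := mem_inter.1 hw
        have g1 := key a b w hb hwN hL.2.2.1 hwa (fun h => G.irr b (by rwa [← h] at hwb))
        have g2 := key b a w ha hwN (G.sym _ _ hL.2.2.1) hwb (fun h => G.irr a (by rwa [← h] at hwa))
        linarith
    have hfree : (x ∈ G.N S ∧ y ∈ G.N S) ∨ ¬ Disjoint (G.nb u' ∩ G.nb v') (G.N S) := by
      by_contra hh
      push Not at hh
      exact h ⟨hS, hq, u', v', x, y, a, b, c, d, e, fun hxy => hh.1 hxy.1 hxy.2, hh.2⟩
    rcases hcase with ⟨rfl, rfl⟩ | ⟨rfl, rfl⟩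
    · exact fin _ _ _ _ huN hvN e hfree
    · have := fin _ _ _ _ hvN huN e hfree
      linarith
  · exact (pair_val hC h9 hS hN hq huS hvS hul hvl hvu hu hv).2 hP

open Classical in
/-- the functional of a `K6`: every costly port costs 1 -/
theorem k6_P5_33 (hC : G.Crit) (h9 : 9 ≤ Fintype.card V) {S : Finset V}
    (hS : G.IsK6 S) (hF : G.Frag S) :
    -(((G.N S).filter fun w => G.Bad S w).card : ℤ) ≤ G.P5 S := by
  classical
  have hN := hF.2.1
  have hlowN : ∀ w ∈ G.N S, G.Low w := fun w hw => (k6_low16 hC h9 hS hw).1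
  have h2 := two hC h9 hS hN
  rw [stP5F_50 G S hF]
  have hl : G.l S = 0 := by
    rw [l, card_eq_zero, filter_eq_empty_iff]
    intro x hx hlow
    exact tw_not_low11 (hS.2.1 x hx) hlow
  have e1 : (G.N S).filter (fun w => G.Low w) = G.N S := filter_true_of_mem hlowN
  have e2 : (G.N S).filter (fun w => G.IsTw w) = ∅ := by
    rw [filter_eq_empty_iff]
    intro w hw h
    exact tw_not_low11 h (hlowN w hw)
  rw [e1, e2, sum_empty, hl, hS.1]
  have hd : ∀ w ∈ G.N S, G.d w S = 2 := h2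
  -- the flags
  have hpT : ∀ w ∈ G.N S, ∀ x ∈ G.pT S w, G.Low x := by
    intro w _ x hx
    rw [pT, mem_inter] at hx
    exact hlowN x hx.2
  obtain ⟨hCo, hCN, hCC⟩ := stCo_37 G S hF
  have hcard : ∀ w ∈ G.N S, (G.pT S w).card + (G.d w (G.Co S)) = 4 := by
    intro w hw
    have h1 := d_split76 (G := G) w S
    have h3 : (G.nb w).card = 6 := hlowN w hw
    have h4 := hd w hw
    have h5 : (G.pT S w).card = (G.nb w ∩ G.N S).card := rfl
    omega
  have hpTC : ∀ w, G.pT (G.Co S) w = G.pT S w := by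
    intro w
    rw [pT, pT, hCN]
  have f1 : ∀ w ∈ G.N S, G.s5 S w ≤ G.flv S w := by
    intro w hw
    have g1 : ¬ G.T3 S w := by
      rintro ⟨-, -, -, Q, Q', r, r', h, h1, -, -, h4, -⟩
      refine tw_not_low11 ⟨Q', h1⟩ (hpT w hw Q ?_)
      rw [h4]
      exact mem_insert_self _ _
    have g2 : ¬ G.HF S w := by
      rintro ⟨-, -, h1, -⟩
      have h3 := hd w hw
      have h4 : (G.pX S w).card = G.d w S := rfl
      omega
    have g3 : ¬ G.RF S w := by
      rintro ⟨-, p', m, m', h1, -⟩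
      exact tw_not_low11 ⟨p', h1⟩ (hlowN w hw)
    unfold flv
    rw [if_neg g1, if_neg g2, if_neg g3]
    split_ifs <;> linarith
  have f2 : ∀ w ∈ G.N S, G.flv (G.Co S) w ≤ 0 := by
    intro w hw
    have g0 : ∀ v, ¬ G.S0 (G.Co S) w v := by
      rintro v ⟨-, -, -, h1, ⟨q, q', h2, h3, -⟩, -⟩
      rw [hpTC] at h1
      have h4 := hcard w hw
      have h5 : G.d w (G.Co S) = 2 := by
        have h6 : G.d w (G.Co S) = (G.pX (G.Co S) w).card := rfl
        rw [h6, h3, card_pair]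
        exact fun h => G.irr q (by have := h2.1; rw [← h] at this; exact this)
      rw [h1, card_singleton] at h4
      omega
    have g1 : G.s5 (G.Co S) w = 0 := by
      unfold s5
      rw [if_neg, if_neg]
      · rintro ⟨v, h, -⟩
        exact g0 v h
      · rintro ⟨v, h, -⟩
        exact g0 v h
    have g2 : ¬ G.U3 (G.Co S) w := by
      rintro ⟨-, -, -, v, v', h1, h2⟩
      rw [hpTC] at h2
      refine tw_not_low11 ⟨v', h1⟩ (hpT w hw v ?_)
      rw [h2]
      exact mem_insert_self _ _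
    unfold flv
    rw [g1, if_neg g2]
    split_ifs <;> norm_num
  -- the sum over the ports
  have f3 : ∑ w ∈ G.N S, fK G S w ≤
      (∑ w ∈ G.N S, (4 * (G.d w S : ℤ) + 2 * (G.d w (G.N S) : ℤ) - 6)) +
        ∑ w ∈ G.N S, (G.flv S w - G.flv (G.Co S) w) := by
    rw [← sum_add_distrib]
    apply sum_le_sum
    intro w hw
    have h1 := f1 w hw
    have h2 := f2 w hw
    have h3 := hd w hw
    have h4 : (G.pT S w).card = G.d w (G.N S) := rfl
    unfold fK
    rw [h4, h3]
    push_cast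
    linarith
  -- pairs of ports
  have f4 : ∀ q ∈ S, (12 : ℤ) ≤ ∑ w ∈ (G.N S).filter (fun w => w ∈ G.nb q),
      (fK G S w + if G.Bad S w then 1 else 0) := by
    intro q hq
    obtain ⟨u, v, huv, huS, hvS, hul, hvl, hvu, hu, hv, hall⟩ := ports hC h9 hS hq
    have h1 : (G.N S).filter (fun w => w ∈ G.nb q) = {u, v} := by
      ext w
      rw [mem_filter, mem_insert, mem_singleton, mem_N76]
      constructor
      · rintro ⟨⟨h4, -⟩, h5⟩
        exact hall w h5 h4
      · rintro (rfl | rfl)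
        · exact ⟨⟨huS, q, hq, hu⟩, hu⟩
        · exact ⟨⟨hvS, q, hq, hv⟩, hv⟩
    rw [h1, sum_pair huv]
    by_cases h4 : G.PLb S q
    · have h2 := (pair_val hC h9 hS hN hq huS hvS hul hvl hvu hu hv).1
      rw [if_pos ⟨q, h4, hu, huS⟩, if_pos ⟨q, h4, hv, hvS⟩]
      linarith
    · have h2 := pair_val33 hC h9 hS hN hq huv huS hvS hul hvl hvu hu hv h4
      split_ifs <;> linarith
  have f5 := swap hC h9 hS hN (fun w => fK G S w + if G.Bad S w then 1 else 0)
  have f6 := sum_le_sum f4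
  rw [← f5, sum_const, hS.1] at f6
  simp only [nsmul_eq_mul] at f6
  rw [sum_add_distrib] at f6
  have f7 : (∑ w ∈ G.N S, (if G.Bad S w then 1 else 0 : ℤ)) =
      (((G.N S).filter fun w => G.Bad S w).card : ℤ) := by
    rw [card_filter]
    push_cast
    rfl
  rw [f7] at f6
  push_cast at f6 ⊢
  linarith

/-! ### costly ports in a torso -/

theorem mem_badS {K : Finset V} {z : V} :
    K ∈ G.badS Fa z ↔ (K ∈ Fa ∧ G.IsK6 K) ∧ G.Bad K z := by
  classical
  rw [badS, mem_filter, mem_k6S]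

/-- a member is on the other side of the other members -/
theorem sub_Co33 (T : G.Tor F Fa) {K B : Finset V} (hK : K ∈ Fa) (hB : B ∈ Fa) (hne : B ≠ K) :
    K ⊆ G.Co B := by
  obtain ⟨a, b⟩ := T.dis B hB K hK hne
  exact fun v hv => mem_Co76.2 ⟨fun h => disjoint_left.1 a h hv, fun h => disjoint_left.1 b h hv⟩

theorem badC_member33 (T : G.Tor F Fa) {K B : Finset V} {z : V} (hK : K ∈ G.badS Fa z)
    (hB : B ∈ Fa) (hne : B ≠ K) : G.BadC (G.Co B) z := by
  obtain ⟨⟨h1, h2⟩, h3⟩ := mem_badS.1 hK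
  refine ⟨K, h3, ?_⟩
  rw [inter_eq_left.2 (sub_Co33 T h1 hB hne), ← card_pos, h2.1]
  norm_num

/-- a costly port of a member keeps its weight -/
theorem gamS_bad33 (T : G.Tor F Fa) {z : V} (h : (G.badS Fa z).Nonempty) :
    G.gamS Fa F z = G.thS F z := by
  obtain ⟨K, hK⟩ := h
  rw [gamS, sum_eq_zero, sub_zero]
  intro B hB
  obtain ⟨h1, h2⟩ := mem_ordS.1 hB
  have hne : B ≠ K := fun h => h2 (h ▸ (mem_badS.1 hK).1.2)
  unfold thS
  rw [if_pos (badC_member33 T hK h1 hne)]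

/-- a costly port of a `K6` on the other side -/
theorem gamS_C33 (T : G.Tor F Fa) {z : V} (h : G.BadC (G.Co F) z) : G.gamS Fa F z = 0 := by
  have h1 : G.thS F z = 0 := by
    unfold thS
    rw [if_pos h]
  rw [gamS, h1, sum_eq_zero, sub_zero]
  intro B hB
  exact thS_zero33 h (T.good B (mem_ordS.1 hB).1).2.1

/-- the number of neighbours of a port in `F` -/
theorem bad_d33 (hC : G.Crit) (h9 : 9 ≤ Fintype.card V) (T : G.Tor F Fa) {z : V}
    (h : (G.badS Fa z).Nonempty) : 2 ≤ G.d z F := by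
  obtain ⟨K, hK⟩ := h
  obtain ⟨⟨h1, h2⟩, h3⟩ := mem_badS.1 hK
  have h4 := h3.low hC h9
  have h5 := (k6_low16 hC h9 h2 h4.2).2.1
  exact h5.trans (card_le_card (inter_subset_inter_left (T.good K h1).2.1))

theorem bad_low33 (hC : G.Crit) (h9 : 9 ≤ Fintype.card V) {z : V}
    (h : (G.badS Fa z).Nonempty) : G.Low z := by
  obtain ⟨K, hK⟩ := h
  exact ((mem_badS.1 hK).2.low hC h9).1

/-- value of a costly port inside `F` -/
theorem val_in33 (hC : G.Crit) (h9 : 9 ≤ Fintype.card V) (hF : G.GoodK F) (T : G.Tor F Fa)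
    {z : V} (h : (G.badS Fa z).Nonempty) (hz : z ∈ F) : G.valS Fa F z =
      3 * G.fc (insert (G.Co F) Fa) z + 8 - 6 * ((G.badS Fa z).card : ℤ) := by
  rw [valS, if_pos (bad_low33 hC h9 h), gamS_bad33 T h, thS_in33 hF.2 hz]
  ring

/-- value of a costly port in `N F` which is no costly port on the other side -/
theorem val_N33 (hC : G.Crit) (h9 : 9 ≤ Fintype.card V) (T : G.Tor F Fa)
    {z : V} (h : (G.badS Fa z).Nonempty) (hz : z ∈ G.N F) (hb : ¬ G.BadC (G.Co F) z) :
    G.valS Fa F z = 3 * G.fc (insert (G.Co F) Fa) z +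
      (if G.d z (G.Co F) ≤ 1 then 8 else 4) - 6 * ((G.badS Fa z).card : ℤ) := by
  have h1 := bad_d33 hC h9 T h
  rw [valS, if_pos (bad_low33 hC h9 h), gamS_bad33 T h, thS, if_neg hb, theta_N6 hz,
    if_neg (by omega)]
  split_ifs <;> ring

/-- value of a port of a `K6` on the other side -/
theorem val_C33 (T : G.Tor F Fa) {z : V} (hl : G.Low z) (h : G.BadC (G.Co F) z) :
    G.valS Fa F z = 3 * G.fc (insert (G.Co F) Fa) z - 6 * ((G.badS Fa z).card : ℤ) := by
  rw [valS, if_pos hl, gamS_C33 T h]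
  ring

open Classical in
/-- the `K6` members at `z` -/
noncomputable def atS (G : CG V) (Fa : Finset (Finset V)) (z : V) : Finset (Finset V) :=
  (G.k6S Fa).filter fun K => z ∈ G.N K

theorem mem_atS {K : Finset V} {z : V} :
    K ∈ G.atS Fa z ↔ (K ∈ Fa ∧ G.IsK6 K) ∧ z ∈ G.N K := by
  classical
  rw [atS, mem_filter, mem_k6S]

/-- value of a low vertex which is no costly port -/
theorem val_free33 (hC : G.Crit) (h9 : 9 ≤ Fintype.card V) {z : V} (hl : G.Low z)
    (h : G.badS Fa z = ∅) (hb : ¬ G.BadC (G.Co F) z) :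
    3 * G.fc (insert (G.Co F) Fa) z + 2 * G.gain6 Fa F z + 4 * ((G.atS Fa z).card : ℤ) ≤
      G.valS Fa F z := by
  classical
  have h1 : G.thS F z = G.theta F z := by
    unfold thS
    rw [if_neg hb]
  have h2 : ∑ B ∈ G.ordS Fa, G.thS B z ≤ ∑ B ∈ G.ordS Fa, G.theta B z :=
    sum_le_sum fun B _ => thS_le33 B z
  have h3 := sum_parts33 (G := G) (Fa := Fa) (fun B => G.theta B z)
  have h4 : 2 * ((G.atS Fa z).card : ℤ) ≤ ∑ K ∈ G.k6S Fa, G.theta K z := by
    have h5 : ∑ K ∈ G.atS Fa z, (2 : ℤ) ≤ ∑ K ∈ G.atS Fa z, G.theta K z := by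
      apply sum_le_sum
      intro K hK
      obtain ⟨⟨-, h6⟩, h7⟩ := mem_atS.1 hK
      have h8 : 2 ≤ G.d z K := (k6_low16 hC h9 h6 h7).2.1
      rw [theta_N6 h7, if_neg (by omega)]
      split_ifs <;> norm_num
    rw [sum_const, nsmul_eq_mul] at h5
    have h6 : ∑ K ∈ G.atS Fa z, G.theta K z ≤ ∑ K ∈ G.k6S Fa, G.theta K z :=
      sum_le_sum_of_subset_of_nonneg (filter_subset _ _) fun K _ _ => theta_nonneg6 K z
    linarith
  rw [valS, if_pos hl, gamS, gain6, h1, h, card_empty]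
  push_cast
  linarith

theorem valS_hub33 {z : V} (hl : ¬ G.Low z) :
    G.valS Fa F z = 3 * G.fc (insert (G.Co F) Fa) z := by
  rw [valS, if_neg hl, add_zero]

/-- no vertex of the torso is in a `K6` -/
theorem fc_nonneg33 (T : G.Tor F Fa) (hG : G.Gen6 (insert (G.Co F) Fa)) {z : V}
    (hz : z ∈ R (insert (G.Co F) Fa)) : 0 ≤ G.fc (insert (G.Co F) Fa) z :=
  fc_nonneg6 G.rows6 hG hz fun ⟨S, h1, _, _, h2⟩ => T.noK z hz ⟨S, h1, h2⟩

/-- values of the other vertices -/
theorem valS_nonneg33 (hF : G.GoodK F) (T : G.Tor F Fa) (hG : G.Gen6 (insert (G.Co F) Fa))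
    {z : V} (hz : z ∈ R (insert (G.Co F) Fa)) (h : G.badS Fa z = ∅) : 0 ≤ G.valS Fa F z := by
  have h1 := fc_nonneg33 T hG hz
  by_cases hl : G.Low z
  · by_cases hb : G.BadC (G.Co F) z
    · rw [val_C33 T hl hb, h, card_empty]
      push_cast
      linarith
    · have h2 := val_free33 (F := F) hG.g5.crit hG.g5.n9 hl h hb
      have h3 : (0 : ℤ) ≤ ((G.atS Fa z).card : ℤ) := Int.natCast_nonneg _
      rcases gain_nonneg6 hF.1.1 T.reg T.notin hz hl with h4 | h4
      · linarith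
      · have h5 := fc_222_6 hG hl h4.2.1 h4.2.2.1
        rw [h4.1] at h2
        linarith
  · rw [valS_hub33 hl]
    linarith

/-- the values of the low vertices at a `K6` member which are not costly -/
theorem valS_four33 (hF : G.GoodK F) (T : G.Tor F Fa) (hG : G.Gen6 (insert (G.Co F) Fa))
    {z : V} (hz : z ∈ R (insert (G.Co F) Fa)) (hl : G.Low z) (h : G.badS Fa z = ∅)
    (hb : ¬ G.BadC (G.Co F) z) : 4 * ((G.atS Fa z).card : ℤ) ≤ G.valS Fa F z := by
  have h1 := fc_nonneg33 T hG hz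
  have h2 := val_free33 (F := F) hG.g5.crit hG.g5.n9 hl h hb
  rcases gain_nonneg6 hF.1.1 T.reg T.notin hz hl with h4 | h4
  · linarith
  · have h5 := fc_222_6 hG hl h4.2.1 h4.2.2.1
    rw [h4.1] at h2
    linarith

/-! ### the sum of the values -/

/-- the surplus of a torso over its ordinary members is at least half the sum of the values -/
theorem sum_valS33 (hC : G.Crit) (h9 : 9 ≤ Fintype.card V) (hF : G.GoodK F) (T : G.Tor F Fa) :
    ∑ z ∈ R (insert (G.Co F) Fa), G.valS Fa F z ≤ 2 * (G.WS F - ∑ B ∈ G.ordS Fa, G.WS B) := by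
  classical
  set Fb := insert (G.Co F) Fa with hFb
  have h1 := WS_inner33 hF T
  have h2 := sum_fc6 (G := G) (Fa := Fb)
  have hRl : ∀ K ∈ Fa, G.N K ⊆ R Fb := fun K hK => N_sub_R76 T.reg (mem_insert_of_mem hK)
  have h3 : ∑ z ∈ R Fb, G.valS Fa F z = 3 * ∑ z ∈ R Fb, G.fc Fb z +
      2 * ∑ z ∈ (R Fb).filter (fun z => G.Low z), G.gamS Fa F z -
      6 * ∑ z ∈ (R Fb).filter (fun z => G.Low z), ((G.badS Fa z).card : ℤ) := by
    have h4 : ∑ z ∈ R Fb, G.valS Fa F z = ∑ z ∈ R Fb, 3 * G.fc Fb z +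
        ∑ z ∈ R Fb, (if G.Low z then 2 * (G.gamS Fa F z - 3 * ((G.badS Fa z).card : ℤ)) else 0) := by
      rw [← sum_add_distrib]
      rfl
    rw [h4, ← sum_filter, ← mul_sum, ← mul_sum, sum_sub_distrib, ← mul_sum]
    ring
  have h5 : ∑ z ∈ (R Fb).filter (fun z => G.Low z), ((G.badS Fa z).card : ℤ) =
      ∑ K ∈ G.k6S Fa, (((G.N K).filter fun w => G.Bad K w).card : ℤ) := by
    have h6 := sum_card_bipartiteAbove_eq_sum_card_bipartiteBelow (s := G.k6S Fa)
      (t := (R Fb).filter (fun z => G.Low z)) (fun K z => G.Bad K z)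
    have h7 : ∀ K ∈ G.k6S Fa, ((R Fb).filter (fun z => G.Low z)).bipartiteAbove
        (fun K z => G.Bad K z) K = (G.N K).filter fun w => G.Bad K w := by
      intro K hK
      ext w
      rw [mem_bipartiteAbove, mem_filter, mem_filter]
      constructor
      · rintro ⟨-, h⟩
        exact ⟨(h.low hC h9).2, h⟩
      · rintro ⟨ha, h⟩
        exact ⟨⟨hRl K (mem_k6S.1 hK).1 ha, (h.low hC h9).1⟩, h⟩
    have h8 : ∀ z ∈ (R Fb).filter (fun z => G.Low z), (G.k6S Fa).bipartiteBelow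
        (fun K z => G.Bad K z) z = G.badS Fa z := by
      intro z _
      ext K
      rw [mem_bipartiteBelow, badS, mem_filter]
    have h9 : ∑ K ∈ G.k6S Fa, ((G.N K).filter fun w => G.Bad K w).card =
        ∑ z ∈ (R Fb).filter (fun z => G.Low z), (G.badS Fa z).card := by
      rw [← sum_congr rfl fun K hK => congrArg card (h7 K hK), h6]
      exact sum_congr rfl fun z hz => congrArg card (h8 z hz)
    exact_mod_cast h9.symm
  have h6 : -∑ K ∈ G.k6S Fa, (((G.N K).filter fun w => G.Bad K w).card : ℤ) ≤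
      ∑ K ∈ G.k6S Fa, G.P5 K := by
    rw [← sum_neg_distrib]
    apply sum_le_sum
    intro K hK
    obtain ⟨a, b⟩ := mem_k6S.1 hK
    exact k6_P5_33 hC h9 b (T.good K a).1.1.1
  rw [h3, h5, h1, h2]
  linarith

/-- all vertices outside `S` have nonnegative values -/
theorem surplus33 (hF : G.GoodK F) (T : G.Tor F Fa) (hG : G.Gen6 (insert (G.Co F) Fa))
    {S : Finset V} (hS : S ⊆ R (insert (G.Co F) Fa))
    (hb : ∀ z ∈ R (insert (G.Co F) Fa), (G.badS Fa z).Nonempty → z ∈ S) :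
    ∑ z ∈ S, G.valS Fa F z ≤ 2 * (G.WS F - ∑ B ∈ G.ordS Fa, G.WS B) := by
  refine le_trans ?_ (sum_valS33 hG.g5.crit hG.g5.n9 hF T)
  refine sum_le_sum_of_subset_of_nonneg hS fun z hz hzS => ?_
  apply valS_nonneg33 hF T hG hz
  by_contra h
  exact hzS (hb z hz (nonempty_iff_ne_empty.2 h))

/-! ### the induction -/

/-- rows of the induction step -/
structure StepW33 (G : CG V) : Prop where
  /-- thick torsos -/
  thick : ∀ F Fa, G.GoodK F → ¬ G.IsK6 F → G.Tor F Fa → G.Gen6 (insert (G.Co F) Fa) →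
    (∀ B ∈ G.ordS Fa, 4 ≤ G.WS B) → 4 ≤ G.WS F
  /-- strips -/
  strip : ∀ F B, G.GoodK F → ¬ G.IsK6 F → G.Tor F {B} → F \ B = G.N B ∩ F → (F \ B).card ≤ 3 →
    (¬ G.IsK6 B → 4 ≤ G.WS B) → 4 ≤ G.WS F
  /-- light leaves -/
  light : ∀ F, G.GoodK F → ¬ G.IsK6 F → G.Tor F ∅ → F.card ≤ 5 → 4 ≤ G.WS F

/-- the main lemma -/
theorem WS_four33 (hM : G.StM9) (hcr : G.Crit) (hsat : G.Sat) (hs : G.StepW33) :
    ∀ F : Finset V, G.GoodK F → ¬ G.IsK6 F → 4 ≤ G.WS F := by
  intro F
  induction hn : F.card using Nat.strong_induction_on generalizing F with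
  | _ n ih =>
  intro hF hK
  subst hn
  obtain ⟨Fa, hT⟩ := G.tor38 hM hcr hsat hF hK
  have hIH : ∀ B ∈ G.ordS Fa, 4 ≤ G.WS B := by
    intro B hB
    obtain ⟨h1, h2⟩ := mem_ordS.1 hB
    exact ih B.card (card_lt_card (hT.good B h1).2) B rfl (hT.good B h1).1 h2
  rcases hT.cases with h | ⟨B, h, h1, h2⟩ | ⟨h, h1⟩
  · exact hs.thick F Fa hF hK hT h.1 hIH
  · subst h
    refine hs.strip F B hF hK hT h1 h2 fun h3 => hIH B (mem_ordS.2 ⟨mem_singleton_self _, h3⟩)
  · subst h
    exact hs.light F hF hK hT h1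

end CG

end Pool.Agent.Lib.MP_e95c01_co.N
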