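import Pool.Agent.Lib.MP_e95c01_co.Y.WS33
import Pool.Agent.Lib.MP_e95c01_co.Y.AlQ11

/-!
# Values of the vertices of a torso: ports that cost nothing, the partner of a port
-/

set_option autoImplicit false

namespace Pool.Agent.Lib.MP_e95c01_co.N

open Finset

variable {V : Type} [Fintype V] [DecidableEq V]

namespace CG

variable {G : CG V} {Fa : Finset (Finset V)} {F : Finset V}

namespace Vl6

/-! ### ports of a `K6` -/

/-- neighbours of a vertex of a `K6` outside are neighbours of its twin -/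
theorem tw_out (hC : G.Crit) (h9 : 9 ≤ Fintype.card V) {S : Finset V} (hS : G.IsK6 S) {q : V}
    (hq : q ∈ S) : ∃ t, G.Tw q t ∧ t ∈ S ∧ t ≠ q ∧ ∀ w, w ∉ S → w ∈ G.nb q → w ∈ G.nb t := by
  obtain ⟨t, ht⟩ := hS.2.1 q hq
  have htS := k6_twin16 hC h9 hS hq ht
  refine ⟨t, ht, htS, fun h => G.irr q (by have := ht.1; rw [h] at this; exact this), ?_⟩
  intro w hw hwq
  have h2 : w ∈ G.cl t := by
    rw [← ht.2.2]
    exact mem_insert_of_mem hwq
  rcases mem_insert.1 h2 with h3 | h3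
  · exact absurd (h3 ▸ htS) hw
  · exact h3

/-- the two neighbours of a port in the `K6` have the same neighbours outside -/
theorem port_eq (hC : G.Crit) (h9 : 9 ≤ Fintype.card V) {S : Finset V} (hS : G.IsK6 S)
    (hN : (G.N S).card = 6) {q q' w v : V} (hq : q ∈ S) (hq' : q' ∈ S) (hw : w ∉ S) (hv : v ∉ S)
    (hwq : w ∈ G.nb q) (hwq' : w ∈ G.nb q') (hvq : v ∈ G.nb q) : v ∈ G.nb q' := by
  classical
  obtain ⟨t, -, htS, htq, ht⟩ := tw_out hC h9 hS hq
  have h2 := K38.two hC h9 hS hN w (mem_N76.2 ⟨hw, q, hq, hwq⟩)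
  have h3 : G.nb w ∩ S = {q, t} := by
    symm
    apply eq_of_subset_of_card_le
    · intro x hx
      rw [mem_insert, mem_singleton] at hx
      rw [mem_inter]
      rcases hx with rfl | rfl
      · exact ⟨G.sym _ _ hwq, hq⟩
      · exact ⟨G.sym _ _ (ht w hw hwq), htS⟩
    · rw [card_pair (Ne.symm htq)]
      exact h2.le
  have h4 : q' ∈ G.nb w ∩ S := mem_inter.2 ⟨G.sym _ _ hwq', hq'⟩
  rw [h3, mem_insert, mem_singleton] at h4
  rcases h4 with rfl | rfl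
  · exact hvq
  · exact ht v hv hvq

/-- the partner of a port of an `LL` pair is a port of every other `K6` that sees it -/
theorem partner (hC : G.Crit) (h9 : 9 ≤ Fintype.card V) {S : Finset V} (hS : G.IsK6 S)
    (hN : (G.N S).card = 6) {q w w' x y : V} (hq : q ∈ S) (hw : w ∉ S) (hwq : w ∈ G.nb q)
    (hL : G.LL w w' x y) : w' ∉ S ∧ w' ∈ G.nb q := by
  classical
  have hw'S : w' ∉ S := fun h => tw_not_low11 (hS.2.1 w' h) hL.2.1
  refine ⟨hw'S, ?_⟩
  obtain ⟨t, -, htS, htq, ht⟩ := tw_out hC h9 hS hq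
  have key : ∀ s ∈ S, w ∈ G.nb s → s = x ∨ w' ∈ G.nb s := by
    intro s hs hws
    have h1 : s ∈ insert y (G.cl w) :=
      mem_insert_of_mem (mem_insert_of_mem (G.sym _ _ hws))
    rw [hL.2.2.2.2.2.2, mem_insert] at h1
    rcases h1 with h1 | h1
    · exact Or.inl h1
    · rcases mem_insert.1 h1 with h2 | h2
      · exact absurd (h2 ▸ hs) hw'S
      · exact Or.inr (G.sym _ _ h2)
  rcases key q hq hwq with h1 | h1
  · rcases key t htS (ht w hw hwq) with h2 | h2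
    · exact absurd (h2.trans h1.symm) htq
    · exact port_eq hC h9 hS hN htS hq hw hw'S (ht w hw hwq) hwq h2
  · exact h1

/-- the ports of a vertex of a `K6` -/
theorem two_ports (hC : G.Crit) (h9 : 9 ≤ Fintype.card V) {S : Finset V} (hS : G.IsK6 S)
    {q u v w : V} (hq : q ∈ S) (hu : u ∈ G.nb q) (hv : v ∈ G.nb q) (huS : u ∉ S) (hvS : v ∉ S)
    (huv : u ≠ v) (hw : w ∈ G.nb q) (hwS : w ∉ S) : w = u ∨ w = v := by
  obtain ⟨a, b, -, -, -, -, -, -, -, -, hall⟩ := K38.ports hC h9 hS hq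
  rcases hall u hu huS with rfl | rfl <;> rcases hall v hv hvS with rfl | rfl <;>
    rcases hall w hw hwS with rfl | rfl <;> tauto

/-- `PLb` for the twin -/
theorem PLb_eq (hC : G.Crit) (h9 : 9 ≤ Fintype.card V) {S : Finset V} (hN : (G.N S).card = 6)
    {q q' w : V} (hq' : q' ∈ S) (hw : w ∉ S) (hwq : w ∈ G.nb q) (hwq' : w ∈ G.nb q')
    (h : G.PLb S q) : G.PLb S q' := by
  obtain ⟨hS, hq, u, v, x, y, h1, h2, h3, h4, h5, h6⟩ := h
  exact ⟨hS, hq', u, v, x, y, port_eq hC h9 hS hN hq hq' hw h3 hwq hwq' h1,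
    port_eq hC h9 hS hN hq hq' hw h4 hwq hwq' h2, h3, h4, h5, h6⟩

/-- a port costs something iff its vertex has a costly pair -/
theorem bad_iff (hC : G.Crit) (h9 : 9 ≤ Fintype.card V) {S : Finset V} (hN : (G.N S).card = 6)
    {q w : V} (hq : q ∈ S) (hw : w ∉ S) (hwq : w ∈ G.nb q) : G.Bad S w ↔ G.PLb S q := by
  constructor
  · rintro ⟨q1, h1, h2, -⟩
    exact PLb_eq hC h9 hN hq hw h2 hwq h1
  · intro h
    exact ⟨q, h, hwq, hw⟩

/-- the `LL` pair of a costly port -/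
theorem bad_pair (hC : G.Crit) (h9 : 9 ≤ Fintype.card V) {S : Finset V} {w : V}
    (h : G.Bad S w) : ∃ q w' x y, q ∈ S ∧ w ∈ G.nb q ∧ w' ∈ G.nb q ∧ w ∉ S ∧ w' ∉ S ∧ w ≠ w' ∧
      G.LL w w' x y ∧ ¬ (x ∈ G.N S ∧ y ∈ G.N S) ∧ G.Bad S w' := by
  obtain ⟨q, ⟨hS, hq, u, v, x, y, h1, h2, h3, h4, h5, h6⟩, h7, h8⟩ := h
  have hne : u ≠ v := fun h => G.irr u (by have := h5.2.2.1; rw [← h] at this; exact this)
  have hP : G.PLb S q := ⟨hS, hq, u, v, x, y, h1, h2, h3, h4, h5, h6⟩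
  rcases two_ports hC h9 hS hq h1 h2 h3 h4 hne h7 h8 with rfl | rfl
  · exact ⟨q, v, x, y, hq, h1, h2, h3, h4, hne, h5, h6.1, q, hP, h2, h4⟩
  · exact ⟨q, u, y, x, hq, h2, h1, h4, h3, Ne.symm hne, LL_symm76 h5, fun h => h6.1 ⟨h.2, h.1⟩,
      q, hP, h1, h3⟩

/-- the common neighbours of a pair of ports of two `K6`'s are in the two `K6`'s -/
theorem two_disj (hC : G.Crit) (h9 : 9 ≤ Fintype.card V) {S S' : Finset V} (hS : G.IsK6 S)
    (hS' : G.IsK6 S') (hne : S ≠ S') {q q' u v x y : V} (hq : q ∈ S) (hu : u ∈ G.nb q)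
    (hv : v ∈ G.nb q) (huS : u ∉ S) (hvS : v ∉ S) (hq' : q' ∈ S') (hu' : u ∈ G.nb q')
    (hv' : v ∈ G.nb q') (huS' : u ∉ S') (hvS' : v ∉ S') (hL : G.LL u v x y) :
    Disjoint (G.nb u ∩ G.nb v) (G.N S) := by
  classical
  obtain ⟨t, -, htS, htq, ht⟩ := tw_out hC h9 hS hq
  obtain ⟨t', -, htS', htq', ht'⟩ := tw_out hC h9 hS' hq'
  have hd : ∀ a ∈ S, ∀ b ∈ S', a ≠ b := fun a ha b hb h =>
    hne (k6_eq16 hC h9 hS hS' ha (by rw [h]; exact hb))
  rw [disjoint_left]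
  intro z hz hzN
  have hzl : G.Low z := (k6_low16 hC h9 hS hzN).1
  have hzS : z ∉ S := (mem_N76.1 hzN).1
  have hzS' : z ∉ S' := fun h => tw_not_low11 (hS'.2.1 z h) hzl
  have h1 : ({z, q, t, q', t'} : Finset V) ⊆ G.nb u ∩ G.nb v := by
    intro w hw
    simp only [mem_insert, mem_singleton] at hw
    rcases hw with rfl | rfl | rfl | rfl | rfl
    · exact hz
    · exact mem_inter.2 ⟨G.sym _ _ hu, G.sym _ _ hv⟩
    · exact mem_inter.2 ⟨G.sym _ _ (ht u huS hu), G.sym _ _ (ht v hvS hv)⟩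
    · exact mem_inter.2 ⟨G.sym _ _ hu', G.sym _ _ hv'⟩
    · exact mem_inter.2 ⟨G.sym _ _ (ht' u huS' hu'), G.sym _ _ (ht' v hvS' hv')⟩
  have h2 : ({z, q, t, q', t'} : Finset V).card = 5 := by
    rw [card_insert_of_notMem, card_insert_of_notMem, card_insert_of_notMem, card_pair htq'.symm]
    · simp only [mem_insert, mem_singleton, not_or]
      exact ⟨hd t htS q' hq', hd t htS t' htS'⟩
    · simp only [mem_insert, mem_singleton, not_or]
      exact ⟨htq.symm, hd q hq q' hq', hd q hq t' htS'⟩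
    · simp only [mem_insert, mem_singleton, not_or]
      exact ⟨fun h => hzS (h ▸ hq), fun h => hzS (h ▸ htS), fun h => hzS' (h ▸ hq'),
        fun h => hzS' (h ▸ htS')⟩
  have h3 : G.nb u ∩ G.nb v ⊆ ((G.nb u).erase v).erase x := by
    intro w hw
    obtain ⟨hw1, hw2⟩ := mem_inter.1 hw
    rw [mem_erase, mem_erase]
    exact ⟨fun h => (LL_tb76 hL).1 (h ▸ hw2), fun h => G.irr v (h ▸ hw2), hw1⟩
  have h4 := card_le_card (h1.trans h3)
  rw [h2, card_erase_of_mem (mem_erase.2 ⟨(LL_tb76 hL).2, LL_t76 hL⟩),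
    card_erase_of_mem hL.2.2.1] at h4
  have h5 : (G.nb u).card = 6 := hL.1
  omega

/-- a port of the `K6` `S` which is costly for the `K6` `S'`: the two pairs are the same -/
theorem bad_other (hC : G.Crit) (h9 : 9 ≤ Fintype.card V) {S S' : Finset V} (hS : G.IsK6 S)
    (hN : (G.N S).card = 6) {q u v : V} (hq : q ∈ S) (hu : u ∈ G.nb q) (hv : v ∈ G.nb q)
    (huS : u ∉ S) (hvS : v ∉ S) (huv : u ≠ v) (hb : G.Bad S' u) :
    G.Bad S' v ∧ ∃ x y, G.LL u v x y ∧ ¬ (x ∈ G.N S' ∧ y ∈ G.N S') ∧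
      (¬ G.PLb S q → x ∈ G.N S ∧ y ∈ G.N S) := by
  obtain ⟨q', w', x, y, h1, h2, h3, h4, h5, h6, h7, h8, h9'⟩ := bad_pair hC h9 hb
  obtain ⟨p1, p2⟩ := partner hC h9 hS hN hq huS hu h7
  have hw' : w' = v := by
    rcases two_ports hC h9 hS hq hu hv huS hvS huv p2 p1 with h | h
    · exact absurd h.symm h6
    · exact h
  subst hw'
  refine ⟨h9', x, y, h7, h8, fun hn => ?_⟩
  by_contra hcon
  have hS' : G.IsK6 S' := by
    obtain ⟨-, ⟨h, -⟩, -⟩ := hb
    exact h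
  have hne : S ≠ S' := by
    rintro rfl
    exact hn ((bad_iff hC h9 hN hq huS hu).1 hb)
  exact hn ⟨hS, hq, u, w', x, y, hu, hv, huS, hvS, h7, hcon,
    two_disj hC h9 hS hS' hne hq hu hv huS hvS h1 h2 h3 h4 h5 h7⟩

/-! ### values -/

/-- number of the `K6` members with the port `z` -/
noncomputable def kp (G : CG V) (Fa : Finset (Finset V)) (z : V) : ℕ :=
  ((G.k6S Fa).filter fun K => z ∈ G.N K).card

theorem fc_nn (hr : G.Rows6) (T : G.Tor F Fa) (hG : G.Gen6 (insert (G.Co F) Fa)) {z : V}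
    (hz : z ∈ R (insert (G.Co F) Fa)) : 0 ≤ G.fc (insert (G.Co F) Fa) z :=
  fc_nonneg6 hr hG hz fun ⟨S, h1, _, _, h2⟩ => T.noK z hz ⟨S, h1, h2⟩

/-- members which are `K6`'s are disjoint from the ordinary members and their neighbourhoods -/
theorem k6_Co (T : G.Tor F Fa) {K B : Finset V} (hK : K ∈ G.k6S Fa) (hB : B ∈ G.ordS Fa) :
    K ⊆ G.Co B := by
  have h1 := mem_k6S.1 hK
  have h2 := mem_ordS.1 hB
  have hne : B ≠ K := fun h => h2.2 (h ▸ h1.2)
  obtain ⟨a, b⟩ := T.reg.dis B (mem_insert_of_mem h2.1) K (mem_insert_of_mem h1.1) hne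
  intro v hv
  exact mem_Co76.2 ⟨fun h => disjoint_left.1 a h hv, fun h => disjoint_left.1 b h hv⟩

theorem N_card (T : G.Tor F Fa) {K : Finset V} (hK : K ∈ Fa) : (G.N K).card = 6 :=
  ((T.good K hK).1.1.1).2.1

/-- costly for a member: no weight in the ordinary members -/
theorem thS_bad (T : G.Tor F Fa) {K B : Finset V} {z : V} (hK : K ∈ G.k6S Fa) (hb : G.Bad K z)
    (hB : B ∈ G.ordS Fa) : G.thS B z = 0 := by
  unfold thS
  rw [if_pos]
  refine ⟨K, hb, ?_⟩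
  have h1 := (mem_k6S.1 hK).2
  rw [inter_eq_left.2 (k6_Co T hK hB), ← card_pos, h1.1]
  norm_num

theorem gamS_bad (T : G.Tor F Fa) {K : Finset V} {z : V} (hK : K ∈ G.k6S Fa) (hb : G.Bad K z) :
    G.gamS Fa F z = G.thS F z := by
  rw [gamS, sum_eq_zero fun B hB => thS_bad T hK hb hB, sub_zero]

/-- costly for a `K6` in `Co F`: nothing -/
theorem gamS_reach (T : G.Tor F Fa) {z : V} (h : G.BadC (G.Co F) z) : G.gamS Fa F z = 0 := by
  rw [gamS, sum_eq_zero fun B hB => thS_zero33 h (T.good B (mem_ordS.1 hB).1).2.1, sub_zero, thS,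
    if_pos h]

theorem valS_reach (T : G.Tor F Fa) {z : V} (hl : G.Low z) (h : G.BadC (G.Co F) z) :
    G.valS Fa F z = 3 * G.fc (insert (G.Co F) Fa) z - 6 * ((G.badS Fa z).card : ℤ) := by
  rw [valS, if_pos hl, gamS_reach T h]
  ring

theorem valS_not_low {z : V} (hl : ¬ G.Low z) :
    G.valS Fa F z = 3 * G.fc (insert (G.Co F) Fa) z := by
  rw [valS, if_neg hl, add_zero]

/-- the weight of a port at a `K6` is at least 2 -/
theorem theta_k6 (hC : G.Crit) (h9 : 9 ≤ Fintype.card V) {K : Finset V} (hK : G.IsK6 K) {z : V}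
    (hz : z ∈ G.N K) : 2 ≤ G.theta K z := by
  have h1 : 2 ≤ G.d z K := (k6_low16 hC h9 hK hz).2.1
  rw [theta_N6 hz, if_neg (by omega)]
  split_ifs <;> norm_num

/-- the gain without the reductions -/
theorem gamS_ge (hC : G.Crit) (h9 : 9 ≤ Fintype.card V) {z : V}
    (h : ¬ G.BadC (G.Co F) z) : G.gain6 Fa F z + 2 * (kp G Fa z : ℤ) ≤ G.gamS Fa F z := by
  classical
  have h1 : ∑ B ∈ G.ordS Fa, G.thS B z ≤ ∑ B ∈ G.ordS Fa, G.theta B z :=
    sum_le_sum fun B _ => thS_le33 B z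
  have h2 : 2 * (kp G Fa z : ℤ) ≤ ∑ K ∈ G.k6S Fa, G.theta K z := by
    have h3 : ∑ K ∈ (G.k6S Fa).filter (fun K => z ∈ G.N K), (2 : ℤ) ≤
        ∑ K ∈ G.k6S Fa, G.theta K z := by
      refine (sum_le_sum fun K hK => ?_).trans
        (sum_le_sum_of_subset_of_nonneg (filter_subset _ _) fun K _ _ => theta_nonneg6 K z)
      have h4 := mem_filter.1 hK
      exact theta_k6 hC h9 (mem_k6S.1 h4.1).2 h4.2
    rw [sum_const, nsmul_eq_mul] at h3
    rw [kp]
    linarith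
  have h3 := sum_parts33 (G := G) (Fa := Fa) (fun B => G.theta B z)
  rw [gamS, gain6, thS, if_neg h, h3]
  linarith

/-- (b): a low vertex of `R` that is a port of no costly pair of a `K6` of the torso -/
theorem valS_free (hC : G.Crit) (hr : G.Rows6) (hF : G.GoodK F) (T : G.Tor F Fa)
    (hG : G.Gen6 (insert (G.Co F) Fa)) {z : V} (hz : z ∈ R (insert (G.Co F) Fa)) (hl : G.Low z)
    (h : ¬ G.BadC (G.Co F) z) :
    4 * (kp G Fa z : ℤ) + 2 * G.fc (insert (G.Co F) Fa) z ≤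
      G.valS Fa F z + 6 * ((G.badS Fa z).card : ℤ) := by
  have h1 := gamS_ge (F := F) (Fa := Fa) hC hG.g5.n9 h
  have h2 := fc_nn hr T hG hz
  rw [valS, if_pos hl]
  rcases gain_nonneg6 hF.1.1 T.reg T.notin hz hl with h3 | h3
  · linarith
  · have h4 := fc_222_6 hG hl h3.2.1 h3.2.2.1
    linarith [h3.1]

/-- (a): values of the vertices that are not costly -/
theorem valS_nonneg (hC : G.Crit) (hr : G.Rows6) (hF : G.GoodK F) (T : G.Tor F Fa)
    (hG : G.Gen6 (insert (G.Co F) Fa)) {z : V} (hz : z ∈ R (insert (G.Co F) Fa))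
    (h : G.badS Fa z = ∅) : 2 * G.fc (insert (G.Co F) Fa) z ≤ G.valS Fa F z := by
  have h2 := fc_nn hr T hG hz
  by_cases hl : G.Low z
  · by_cases hb : G.BadC (G.Co F) z
    · rw [valS_reach T hl hb, h, card_empty]
      push_cast
      linarith
    · have h1 := valS_free hC hr hF T hG hz hl hb
      rw [h, card_empty] at h1
      have h3 : (0 : ℤ) ≤ (kp G Fa z : ℤ) := by positivity
      push_cast at h1
      linarith
  · rw [valS_not_low hl]
    linarith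

/-- no ordinary members: the gain is the weight -/
theorem gamS_ord_empty (h : G.ordS Fa = ∅) (z : V) : G.gamS Fa F z = G.thS F z := by
  rw [gamS, h, sum_empty, sub_zero]

/-- not costly at the member `K` -/
theorem pair_free (hC : G.Crit) (T : G.Tor F Fa) (hG : G.Gen6 (insert (G.Co F) Fa))
    {K : Finset V} (hK : K ∈ G.k6S Fa) {q u v : V} (hq : q ∈ K) (hu : u ∈ G.nb q)
    (hv : v ∈ G.nb q) (huK : u ∉ K) (hvK : v ∉ K) (huv : u ≠ v) (hn : ¬ G.PLb K q) :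
    (G.badS Fa u = ∅ ∧ G.badS Fa v = ∅ ∧
      ((¬ G.BadC (G.Co F) u ∧ ¬ G.BadC (G.Co F) v) ∨
        (G.BadC (G.Co F) u ∧ G.BadC (G.Co F) v ∧ ∃ x y, G.LL u v x y ∧ x ∈ G.N K ∧ y ∈ G.N K ∧
          ∃ S, G.Bad S u ∧ G.Bad S v ∧ (S ∩ G.Co F).Nonempty))) ∨
    ∃ K' ∈ G.k6S Fa, K' ≠ K ∧ G.Bad K' u ∧ G.Bad K' v ∧ ∃ x y, G.LL u v x y ∧ x ∈ G.N K ∧
      y ∈ G.N K := by
  classical
  have h9 := hG.g5.n9
  have hKS := (mem_k6S.1 hK).2
  have hN := N_card T (mem_k6S.1 hK).1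
  by_cases h1 : G.badS Fa u = ∅ ∧ G.badS Fa v = ∅
  · refine Or.inl ⟨h1.1, h1.2, ?_⟩
    by_cases h2 : G.BadC (G.Co F) u
    · right
      obtain ⟨S, hS, hne⟩ := h2
      obtain ⟨p1, x, y, p2, -, p3⟩ := bad_other hC h9 hKS hN hq hu hv huK hvK huv hS
      obtain ⟨p4, p5⟩ := p3 hn
      exact ⟨⟨S, hS, hne⟩, ⟨S, p1, hne⟩, x, y, p2, p4, p5, S, hS, p1, hne⟩
    · left
      refine ⟨h2, fun h3 => h2 ?_⟩
      obtain ⟨S, hS, hne⟩ := h3
      obtain ⟨p1, -⟩ := bad_other hC h9 hKS hN hq hv hu hvK huK (Ne.symm huv) hS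
      exact ⟨S, p1, hne⟩
  · right
    have hex : ∃ K' ∈ G.k6S Fa, G.Bad K' u := by
      by_contra hcon
      push Not at hcon
      apply h1
      constructor
      · rw [badS, filter_eq_empty_iff]
        exact hcon
      · rw [badS, filter_eq_empty_iff]
        intro K' hK' hb
        exact hcon K' hK' (bad_other hC h9 hKS hN hq hv hu hvK huK (Ne.symm huv) hb).1
    obtain ⟨K', hK', hb⟩ := hex
    obtain ⟨p1, x, y, p2, -, p3⟩ := bad_other hC h9 hKS hN hq hu hv huK hvK huv hb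
    obtain ⟨p4, p5⟩ := p3 hn
    refine ⟨K', hK', ?_, hb, p1, x, y, p2, p4, p5⟩
    rintro rfl
    exact hn ((bad_iff hC h9 hN hq huK hu).1 hb)

/-- the private neighbours of an `LL` pair -/
theorem LL_priv {u v x y : V} (h : G.LL u v x y) : x ∈ G.nb u := by
  have h1 : x ∈ insert y (G.cl u) := by
    rw [h.2.2.2.2.2.2]
    exact mem_insert_self _ _
  rcases mem_insert.1 h1 with h2 | h2
  · exact absurd h2 h.2.2.2.1
  · rcases mem_insert.1 h2 with h3 | h3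
    · exact absurd (h3 ▸ (mem_insert_of_mem (G.sym _ _ h.2.2.1) : u ∈ G.cl v)) h.2.2.2.2.1
    · exact h3

/-- neighbours of a port of two `K6`'s: all known -/
theorem two_k6_nb (hC : G.Crit) (h9 : 9 ≤ Fintype.card V) {K S : Finset V} (hK : G.IsK6 K)
    (hS : G.IsK6 S) (hd : Disjoint K S) {u v x y : V} (huK : u ∈ G.N K) (huS : u ∈ G.N S)
    (hL : G.LL u v x y) (hx : x ∈ G.N K) : ∀ w ∈ G.nb u, w ∈ K ∨ w ∈ S ∨ w = v ∨ w = x := by
  classical
  have h1 : 2 ≤ (G.nb u ∩ K).card := (k6_low16 hC h9 hK huK).2.1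
  have h2 : 2 ≤ (G.nb u ∩ S).card := (k6_low16 hC h9 hS huS).2.1
  have hvl := hL.2.1
  have hxl : G.Low x := (k6_low16 hC h9 hK hx).1
  have nK : ∀ w, G.Low w → w ∉ K := fun w hw h => tw_not_low11 (hK.2.1 w h) hw
  have nS : ∀ w, G.Low w → w ∉ S := fun w hw h => tw_not_low11 (hS.2.1 w h) hw
  have hxv : x ≠ v := fun h => hL.2.2.2.2.1 (h ▸ mem_insert_self _ _)
  have h3 : Disjoint (G.nb u ∩ K) (G.nb u ∩ S) :=
    hd.mono inter_subset_right inter_subset_right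
  have h4 : Disjoint ((G.nb u ∩ K) ∪ (G.nb u ∩ S)) {v, x} := by
    rw [disjoint_left]
    intro w hw hw'
    rw [mem_insert, mem_singleton] at hw'
    rw [mem_union, mem_inter, mem_inter] at hw
    rcases hw' with rfl | rfl
    · rcases hw with h | h
      · exact nK _ hvl h.2
      · exact nS _ hvl h.2
    · rcases hw with h | h
      · exact nK _ hxl h.2
      · exact nS _ hxl h.2
  have h5 : ((G.nb u ∩ K) ∪ (G.nb u ∩ S)) ∪ {v, x} = G.nb u := by
    apply eq_of_subset_of_card_le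
    · intro w hw
      rw [mem_union, mem_union, mem_inter, mem_inter, mem_insert, mem_singleton] at hw
      rcases hw with (h | h) | rfl | rfl
      · exact h.1
      · exact h.1
      · exact hL.2.2.1
      · exact LL_priv hL
    · rw [card_union_of_disjoint h4, card_union_of_disjoint h3, card_pair (Ne.symm hxv)]
      have h6 : (G.nb u).card = 6 := hL.1
      omega
  intro w hw
  rw [← h5, mem_union, mem_union, mem_inter, mem_inter, mem_insert, mem_singleton] at hw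
  tauto

/-- a double neck to `Co F` which is not costly at the member: all neighbours are known -/
theorem reach_AlQ (hC : G.Crit) (hF : G.GoodK F) (T : G.Tor F Fa)
    (hG : G.Gen6 (insert (G.Co F) Fa)) {K : Finset V} (hK : K ∈ G.k6S Fa) {q u v x y : V}
    (hq : q ∈ K) (hu : u ∈ G.nb q) (hv : v ∈ G.nb q) (huK : u ∉ K) (hvK : v ∉ K)
    (hL : G.LL u v x y) (hx : x ∈ G.N K) (hy : y ∈ G.N K) {S : Finset V} (hbu : G.Bad S u)
    (hbv : G.Bad S v) (hne : (S ∩ G.Co F).Nonempty) : G.AlQ K (G.Co F) u v := by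
  have h9 := hG.g5.n9
  obtain ⟨hKF, hK6⟩ := mem_k6S.1 hK
  obtain ⟨qu, ⟨hS6, hqu, -⟩, hu1, hu2⟩ := hbu
  obtain ⟨qv, ⟨-, hqv, -⟩, hv1, hv2⟩ := hbv
  have hSC : S ⊆ G.Co F := good_k6_Co hF.2 S hS6 hne
  have hneC : G.Co F ≠ K := fun h => T.notin (h ▸ hKF)
  obtain ⟨d1, d2⟩ := T.reg.dis _ (mem_insert_self _ _) K (mem_insert_of_mem hKF) hneC
  have hdis : Disjoint K S := (d1.mono_left hSC).symm
  have huN : u ∈ G.N K := mem_N76.2 ⟨huK, q, hq, hu⟩
  have hvN : v ∈ G.N K := mem_N76.2 ⟨hvK, q, hq, hv⟩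
  have huR := N_sub_R76 T.reg (mem_insert_of_mem hKF) huN
  have hvR := N_sub_R76 T.reg (mem_insert_of_mem hKF) hvN
  have huC : u ∈ G.N (G.Co F) :=
    mem_N76.2 ⟨mem_R76.1 huR _ (mem_insert_self _ _), qu, hSC hqu, hu1⟩
  have hvC : v ∈ G.N (G.Co F) :=
    mem_N76.2 ⟨mem_R76.1 hvR _ (mem_insert_self _ _), qv, hSC hqv, hv1⟩
  have huv : u ≠ v := fun h => G.irr u (by have := hL.2.2.1; rw [← h] at this; exact this)
  refine ⟨huC, hvC, huK, hvK, huv, ⟨q, hq, hu, hv⟩, ?_, ?_⟩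
  · intro w hw
    rcases two_k6_nb hC h9 hK6 hS6 hdis huN (mem_N76.2 ⟨hu2, qu, hqu, hu1⟩) hL hx w hw with
      h | h | h | h
    · exact Or.inl h
    · exact Or.inr (Or.inl (hSC h))
    · exact Or.inr (Or.inr (Or.inl (h ▸ hvC)))
    · exact Or.inr (Or.inr (Or.inr (h ▸ hx)))
  · intro w hw
    rcases two_k6_nb hC h9 hK6 hS6 hdis hvN (mem_N76.2 ⟨hv2, qv, hqv, hv1⟩) (LL_symm76 hL) hy w
      hw with h | h | h | h
    · exact Or.inl h
    · exact Or.inr (Or.inl (hSC h))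
    · exact Or.inr (Or.inr (Or.inl (h ▸ huC)))
    · exact Or.inr (Or.inr (Or.inr (h ▸ hy)))

/-- without ordinary members a vertex in `F` brings 8 -/
theorem valS_in (hr : G.Rows6) (hF : G.GoodK F) (T : G.Tor F Fa)
    (hG : G.Gen6 (insert (G.Co F) Fa)) {z : V} (hz : z ∈ R (insert (G.Co F) Fa)) (hl : G.Low z)
    (ho : G.ordS Fa = ∅) (hzF : z ∈ F) :
    8 + 3 * G.fc (insert (G.Co F) Fa) z ≤ G.valS Fa F z + 6 * ((G.badS Fa z).card : ℤ) := by
  rw [valS, if_pos hl, gamS_ord_empty ho, thS_in33 hF.2 hzF]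
  linarith

/-- ROW 12: a port pair of a member `K` which is not costly at `K` -/
theorem row12 (hC : G.Crit) (hr : G.Rows6) (hF : G.GoodK F) (T : G.Tor F Fa)
    (hG : G.Gen6 (insert (G.Co F) Fa)) {K : Finset V} (hK : K ∈ G.k6S Fa) {q u v : V}
    (hq : q ∈ K) (hu : u ∈ G.nb q) (hv : v ∈ G.nb q) (huK : u ∉ K) (hvK : v ∉ K) (huv : u ≠ v)
    (hn : ¬ G.PLb K q) :
    (G.badS Fa u = ∅ ∧ G.badS Fa v = ∅ ∧ 0 ≤ G.valS Fa F u ∧ 0 ≤ G.valS Fa F v ∧
      ((4 * (kp G Fa u : ℤ) + 2 * G.fc (insert (G.Co F) Fa) u ≤ G.valS Fa F u ∧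
        4 * (kp G Fa v : ℤ) + 2 * G.fc (insert (G.Co F) Fa) v ≤ G.valS Fa F v ∧
        (G.ordS Fa = ∅ → u ∈ F → 8 ≤ G.valS Fa F u) ∧
        (G.ordS Fa = ∅ → v ∈ F → 8 ≤ G.valS Fa F v)) ∨
      G.AlQ K (G.Co F) u v)) ∨
    ∃ K' ∈ G.k6S Fa, K' ≠ K ∧ G.Bad K' u ∧ G.Bad K' v ∧ ∃ x y, G.LL u v x y ∧ x ∈ G.N K ∧
      y ∈ G.N K := by
  have h9 := hG.g5.n9
  obtain ⟨hKF, hK6⟩ := mem_k6S.1 hK
  have huN : u ∈ G.N K := mem_N76.2 ⟨huK, q, hq, hu⟩
  have hvN : v ∈ G.N K := mem_N76.2 ⟨hvK, q, hq, hv⟩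
  have huR := N_sub_R76 T.reg (mem_insert_of_mem hKF) huN
  have hvR := N_sub_R76 T.reg (mem_insert_of_mem hKF) hvN
  have hul := (k6_low16 hC h9 hK6 huN).1
  have hvl := (k6_low16 hC h9 hK6 hvN).1
  rcases pair_free hC T hG hK hq hu hv huK hvK huv hn with ⟨b1, b2, h1⟩ | h1
  · left
    have n1 := valS_nonneg hC hr hF T hG huR b1
    have n2 := valS_nonneg hC hr hF T hG hvR b2
    have n3 := fc_nn hr T hG huR
    have n4 := fc_nn hr T hG hvR
    refine ⟨b1, b2, by linarith, by linarith, ?_⟩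
    rcases h1 with ⟨c1, c2⟩ | ⟨c1, c2, x, y, c3, c4, c5, S, c6, c7, c8⟩
    · left
      have e1 := valS_free hC hr hF T hG huR hul c1
      have e2 := valS_free hC hr hF T hG hvR hvl c2
      rw [b1, card_empty] at e1
      rw [b2, card_empty] at e2
      push_cast at e1 e2
      refine ⟨by linarith, by linarith, fun ho hF' => ?_, fun ho hF' => ?_⟩
      · have e3 := valS_in hr hF T hG huR hul ho hF'
        rw [b1, card_empty] at e3
        push_cast at e3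
        linarith
      · have e3 := valS_in hr hF T hG hvR hvl ho hF'
        rw [b2, card_empty] at e3
        push_cast at e3
        linarith
    · right
      exact reach_AlQ hC hF T hG hK hq hu hv huK hvK c3 c4 c5 c6 c7 c8
  · exact Or.inr h1

end Vl6

end CG

end Pool.Agent.Lib.MP_e95c01_co.N
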