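import Pool.Agent.Lib.MP_e95c01_co.Y.Fc6
import Pool.Agent.Lib.MP_e95c01_co.Y.AlQ11
import Pool.Agent.Lib.MP_e95c01_co.Y.K6P38
import Pool.Agent.Lib.MP_e95c01_co.X.Dn_53
import Pool.Agent.Lib.MP_e95c01_co.X.S0_87

/-!
# Port pairs of the `K6` members of a thick torso: names, weights, flags
-/

set_option autoImplicit false

namespace Pool.Agent.Lib.MP_e95c01_co.N

open Finset

variable {V : Type} [Fintype V] [DecidableEq V]

namespace CG

variable {G : CG V} {Fa : Finset (Finset V)}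

/-- an `LL` pair `u`, `v` of ports of the member `K`, a `K6` -/
structure Prt (G : CG V) (Fa : Finset (Finset V)) (K : Finset V) (u v q q' c c' x y : V) :
    Prop where
  hK : K ∈ Fa
  hS : G.IsK6 K
  hq : q ∈ K
  hq' : q' ∈ K
  tw : G.Tw q q'
  uR : u ∈ R Fa
  vR : v ∈ R Fa
  ll : G.LL u v x y
  nbu : G.nb u = {q, q', v, c, c', x}
  nbv : G.nb v = {q, q', u, c, c', y}
  inK : ∀ w ∈ K, w ∈ G.nb u ∨ w ∈ G.nb v → w = q ∨ w = q'
  ports : ∀ w ∈ G.nb q, w ∉ K → w = u ∨ w = v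

omit [Fintype V] in
omit [Fintype V] in
theorem nodup6_16 {a b c d e f : V} (h : ({a, b, c, d, e, f} : Finset V).card = 6) :
    [a, b, c, d, e, f].Nodup := by
  have h1 : (([a, b, c, d, e, f] : List V) : Multiset V).toFinset = {a, b, c, d, e, f} := by
    ext x
    simp
  rw [← h1] at h
  exact Multiset.coe_nodup.1 (Multiset.toFinset_card_eq_card_iff_nodup.1 h)

omit [Fintype V] in
/-- the fifteen inequalities -/
theorem ne6_16 {a b c d e f : V} (h : ({a, b, c, d, e, f} : Finset V).card = 6) :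
    (a ≠ b ∧ a ≠ c ∧ a ≠ d ∧ a ≠ e ∧ a ≠ f) ∧ (b ≠ c ∧ b ≠ d ∧ b ≠ e ∧ b ≠ f) ∧
      (c ≠ d ∧ c ≠ e ∧ c ≠ f) ∧ (d ≠ e ∧ d ≠ f) ∧ e ≠ f := by
  have hn := nodup6_16 h
  simp only [List.nodup_cons, List.mem_cons, List.not_mem_nil, not_or, or_false] at hn
  obtain ⟨⟨n1, n2, n3, n4, n5⟩, ⟨n7, n8, n9, n10⟩, ⟨n12, n13, n14⟩, ⟨n16, n17⟩, n19, -⟩ := hn
  exact ⟨⟨n1, n2, n3, n4, n5⟩, ⟨n7, n8, n9, n10⟩, ⟨n12, n13, n14⟩, ⟨n16, n17⟩, n19⟩

/-- a member whose neighbourhood contains `z` -/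
theorem in_I16 {M : Finset V} {z w : V} (hM : M ∈ Fa) (hw : w ∈ M) (hz : z ∉ M)
    (h : w ∈ G.nb z) : M ∈ G.I Fa z :=
  mem_I76.2 ⟨hM, mem_N76.2 ⟨hz, w, hw, G.sym _ _ h⟩⟩

/-- names for a port pair -/
theorem prt_mk16 (hG : G.Gen5 Fa) {K : Finset V} {u v q x y : V} (hK : K ∈ Fa) (hS : G.IsK6 K)
    (hq : q ∈ K) (hu : u ∈ G.nb q) (hv : v ∈ G.nb q) (huK : u ∉ K) (hvK : v ∉ K)
    (hl : G.LL u v x y) : ∃ q' c c', G.Prt Fa K u v q q' c c' x y := by
  classical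
  have h9 := hG.n9
  have hC := hG.crit
  have hlu : G.Low u := hl.1
  have hlv : G.Low v := hl.2.1
  have hvu : v ∈ G.nb u := hl.2.2.1
  have huv : u ∈ G.nb v := G.sym _ _ hvu
  have hxu : x ∈ G.nb u := LL_t76 hl
  have hyv : y ∈ G.nb v := LL_u76 hl
  obtain ⟨hxv, hxv'⟩ := LL_tb76 hl
  obtain ⟨hyu, hyu'⟩ := LL_ua76 hl
  obtain ⟨q', htq⟩ := hS.2.1 q hq
  have hq' := k6_twin16 hC h9 hS hq htq
  have hR : ∀ w, w ∉ K → w ∈ G.nb q → w ∈ R Fa := by
    intro w hw hwq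
    rw [mem_R76]
    intro B hB hwB
    by_cases hBK : B = K
    · exact hw (hBK ▸ hwB)
    · exact disjoint_left.1 (hG.reg.dis K hK B hB (Ne.symm hBK)).2
        (mem_N76.2 ⟨hw, q, hq, hwq⟩) hwB
  have tq : ∀ w, w ∉ K → w ∈ G.nb q → w ∈ G.nb q' := by
    intro w hwS hw
    have h2 : w ∈ G.cl q' := by
      rw [← htq.2.2]
      exact mem_insert_of_mem hw
    rcases mem_insert.1 h2 with h3 | h3
    · exact absurd (h3 ▸ hq') hwS
    · exact h3
  have hN : (G.N K).card = 6 := (hG.reg.frag K hK).2.1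
  have h2 := K38.two hC h9 hS hN
  have hqq : q ≠ q' := Tw_ne87 htq
  have hin : ∀ w, w ∉ K → w ∈ G.nb q → G.nb w ∩ K = {q, q'} := by
    intro w hw hwq
    symm
    apply eq_of_subset_of_card_le
    · intro z hz
      rw [mem_insert, mem_singleton] at hz
      rcases hz with rfl | rfl
      · exact mem_inter.2 ⟨G.sym _ _ hwq, hq⟩
      · exact mem_inter.2 ⟨G.sym _ _ (tq w hw hwq), hq'⟩
    · rw [card_pair hqq, h2 w (mem_N76.2 ⟨hw, q, hq, hwq⟩)]
  have hinK : ∀ w ∈ K, w ∈ G.nb u ∨ w ∈ G.nb v → w = q ∨ w = q' := by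
    rintro w hw (h | h)
    · have h3 : w ∈ G.nb u ∩ K := mem_inter.2 ⟨h, hw⟩
      rw [hin u huK hu] at h3
      simpa only [mem_insert, mem_singleton] using h3
    · have h3 : w ∈ G.nb v ∩ K := mem_inter.2 ⟨h, hw⟩
      rw [hin v hvK hv] at h3
      simpa only [mem_insert, mem_singleton] using h3
  have hqv := G.sym _ _ hv
  have hqu := G.sym _ _ hu
  have hqx : q ≠ x := fun h => hxv (h ▸ hqv)
  have hqx' : q' ≠ x := fun h => hxv (h ▸ G.sym _ _ (tq v hvK hv))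
  have hqy : q ≠ y := fun h => hyu (h ▸ hqu)
  have hqy' : q' ≠ y := fun h => hyu (h ▸ G.sym _ _ (tq u huK hu))
  have hqv1 : q ≠ v := fun h => hvK (h ▸ hq)
  have hqv2 : q' ≠ v := fun h => hvK (h ▸ hq')
  have hqu1 : q ≠ u := fun h => huK (h ▸ hq)
  have hqu2 : q' ≠ u := fun h => huK (h ▸ hq')
  have hvx : v ≠ x := fun h => hxv' h.symm
  have huy : u ≠ y := fun h => hyu' h.symm
  obtain ⟨S, hSd⟩ : ∃ S : Finset V, S = ((((G.nb u).erase v).erase x).erase q).erase q' := ⟨_, rfl⟩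
  have hScard : S.card = 2 := by
    rw [hSd, card_erase_of_mem, card_erase_of_mem, card_erase_of_mem, card_erase_of_mem hvu]
    · have : (G.nb u).card = 6 := hlu
      omega
    · exact mem_erase.2 ⟨Ne.symm hvx, hxu⟩
    · exact mem_erase.2 ⟨hqx, mem_erase.2 ⟨hqv1, hqu⟩⟩
    · exact mem_erase.2 ⟨Ne.symm hqq, mem_erase.2 ⟨hqx', mem_erase.2 ⟨hqv2,
        G.sym _ _ (tq u huK hu)⟩⟩⟩
  obtain ⟨c, c', hcc, hSc⟩ := card_eq_two.1 hScard
  have hmS : ∀ z, z ∈ S ↔ z ≠ q' ∧ z ≠ q ∧ z ≠ x ∧ z ≠ v ∧ z ∈ G.nb u := by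
    intro z
    rw [hSd]
    simp only [mem_erase]
  have hnbu : G.nb u = {q, q', v, c, c', x} := by
    ext z
    have h3 : (z = c ∨ z = c') ↔ z ∈ S := by
      rw [hSc, mem_insert, mem_singleton]
    simp only [mem_insert, mem_singleton]
    rw [show (z = q ∨ z = q' ∨ z = v ∨ z = c ∨ z = c' ∨ z = x) ↔
      (z = q ∨ z = q' ∨ z = v ∨ (z = c ∨ z = c') ∨ z = x) by tauto, h3, hmS]
    constructor
    · intro h
      by_cases h4 : z = q
      · exact Or.inl h4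
      by_cases h5 : z = q'
      · exact Or.inr (Or.inl h5)
      by_cases h6 : z = v
      · exact Or.inr (Or.inr (Or.inl h6))
      by_cases h7 : z = x
      · exact Or.inr (Or.inr (Or.inr (Or.inr h7)))
      exact Or.inr (Or.inr (Or.inr (Or.inl ⟨h5, h4, h7, h6, h⟩)))
    · rintro (rfl | rfl | rfl | h | rfl)
      · exact hqu
      · exact G.sym _ _ (tq u huK hu)
      · exact hvu
      · exact h.2.2.2.2
      · exact hxu
  have hto : ∀ z, z ∈ G.nb v → z ≠ u → z ≠ y → z ∈ G.nb u := fun z hz h1 h2 => by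
    rcases LL_from76 hl hz h2 with h3 | h3
    · exact absurd h3 h1
    · exact h3
  have hnbv : G.nb v = {q, q', u, c, c', y} := by
    ext z
    have h3 : (z = c ∨ z = c') ↔ z ∈ S := by
      rw [hSc, mem_insert, mem_singleton]
    simp only [mem_insert, mem_singleton]
    rw [show (z = q ∨ z = q' ∨ z = u ∨ z = c ∨ z = c' ∨ z = y) ↔
      (z = q ∨ z = q' ∨ z = u ∨ (z = c ∨ z = c') ∨ z = y) by tauto, h3, hmS]
    constructor
    · intro h
      by_cases h4 : z = q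
      · exact Or.inl h4
      by_cases h5 : z = q'
      · exact Or.inr (Or.inl h5)
      by_cases h6 : z = u
      · exact Or.inr (Or.inr (Or.inl h6))
      by_cases h7 : z = y
      · exact Or.inr (Or.inr (Or.inr (Or.inr h7)))
      refine Or.inr (Or.inr (Or.inr (Or.inl ⟨h5, h4, ?_, ?_, hto z h h6 h7⟩)))
      · rintro rfl
        exact hxv h
      · rintro rfl
        exact G.irr _ h
    · rintro (rfl | rfl | rfl | h | rfl)
      · exact hqv
      · exact G.sym _ _ (tq v hvK hv)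
      · exact huv
      · rcases LL_to76 hl h.2.2.2.2 h.2.2.1 with h4 | h4
        · exact absurd h4 h.2.2.2.1
        · exact h4
      · exact hyv
  refine ⟨q', c, c', ⟨hK, hS, hq, hq', htq, hR u huK hu, hR v hvK hv, hl, hnbu, hnbv, hinK, ?_⟩⟩
  intro w hw hwK
  obtain ⟨a, b, hab, -, -, -, -, -, ha, hb, hall⟩ := K38.ports hC h9 hS hq
  rcases hall u hu huK with h3 | h3 <;> rcases hall v hv hvK with h4 | h4 <;>
    rcases hall w hw hwK with h5 | h5
  · exact absurd (h3.trans h4.symm) (ne_of_nb5 hvu)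
  · exact absurd (h3.trans h4.symm) (ne_of_nb5 hvu)
  · exact Or.inl (h5.trans h3.symm)
  · exact Or.inr (h5.trans h4.symm)
  · exact Or.inr (h5.trans h4.symm)
  · exact Or.inl (h5.trans h3.symm)
  · exact absurd (h3.trans h4.symm) (ne_of_nb5 hvu)
  · exact absurd (h3.trans h4.symm) (ne_of_nb5 hvu)

namespace Prt

variable {K M : Finset V} {u v q q' c c' x y : V}

theorem swap (P : G.Prt Fa K u v q q' c c' x y) : G.Prt Fa K v u q q' c c' y x where
  hK := P.hK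
  hS := P.hS
  hq := P.hq
  hq' := P.hq'
  tw := P.tw
  uR := P.vR
  vR := P.uR
  ll := LL_symm76 P.ll
  nbu := P.nbv
  nbv := P.nbu
  inK w hw h := P.inK w hw h.symm
  ports w hw h := (P.ports w hw h).symm

theorem sw (P : G.Prt Fa K u v q q' c c' x y) : G.Prt Fa K u v q q' c' c x y where
  hK := P.hK
  hS := P.hS
  hq := P.hq
  hq' := P.hq'
  tw := P.tw
  uR := P.uR
  vR := P.vR
  ll := P.ll
  nbu := by rw [P.nbu, insert_comm c c']
  nbv := by rw [P.nbv, insert_comm c c']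
  inK := P.inK
  ports := P.ports

theorem neU (P : G.Prt Fa K u v q q' c c' x y) :
    (q ≠ q' ∧ q ≠ v ∧ q ≠ c ∧ q ≠ c' ∧ q ≠ x) ∧ (q' ≠ v ∧ q' ≠ c ∧ q' ≠ c' ∧ q' ≠ x) ∧
      (v ≠ c ∧ v ≠ c' ∧ v ≠ x) ∧ (c ≠ c' ∧ c ≠ x) ∧ c' ≠ x :=
  ne6_16 (by rw [← P.nbu]; exact P.ll.1)

theorem lu (P : G.Prt Fa K u v q q' c c' x y) : G.Low u := P.ll.1

theorem lv (P : G.Prt Fa K u v q q' c c' x y) : G.Low v := P.ll.2.1

theorem mem (P : G.Prt Fa K u v q q' c c' x y) {w : V} : w ∈ G.nb u ↔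
    w = q ∨ w = q' ∨ w = v ∨ w = c ∨ w = c' ∨ w = x := by
  rw [P.nbu]
  simp only [mem_insert, mem_singleton]

theorem memv (P : G.Prt Fa K u v q q' c c' x y) {w : V} : w ∈ G.nb v ↔
    w = q ∨ w = q' ∨ w = u ∨ w = c ∨ w = c' ∨ w = y := P.swap.mem

theorem uK (P : G.Prt Fa K u v q q' c c' x y) : u ∉ K := mem_R76.1 P.uR K P.hK

theorem vK (P : G.Prt Fa K u v q q' c c' x y) : v ∉ K := P.swap.uK

theorem uN (P : G.Prt Fa K u v q q' c c' x y) : u ∈ G.N K :=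
  mem_N76.2 ⟨P.uK, q, P.hq, G.sym _ _ (P.mem.2 (Or.inl rfl))⟩

theorem vN (P : G.Prt Fa K u v q q' c c' x y) : v ∈ G.N K := P.swap.uN

theorem KI (P : G.Prt Fa K u v q q' c c' x y) : K ∈ G.I Fa u := mem_I76.2 ⟨P.hK, P.uN⟩

theorem vu (P : G.Prt Fa K u v q q' c c' x y) : v ∈ G.nb u :=
  P.mem.2 (Or.inr (Or.inr (Or.inl rfl)))

theorem cu (P : G.Prt Fa K u v q q' c c' x y) : c ∈ G.nb u :=
  P.mem.2 (Or.inr (Or.inr (Or.inr (Or.inl rfl))))

theorem cv (P : G.Prt Fa K u v q q' c c' x y) : c ∈ G.nb v := P.swap.cu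

theorem cu' (P : G.Prt Fa K u v q q' c c' x y) : c' ∈ G.nb u := P.sw.cu

theorem cv' (P : G.Prt Fa K u v q q' c c' x y) : c' ∈ G.nb v := P.swap.cu'

theorem xu (P : G.Prt Fa K u v q q' c c' x y) : x ∈ G.nb u := LL_t76 P.ll

theorem xv (P : G.Prt Fa K u v q q' c c' x y) : x ∉ G.nb v := (LL_tb76 P.ll).1

theorem cK (P : G.Prt Fa K u v q q' c c' x y) : c ∉ K := by
  intro h
  have h1 := P.neU
  rcases P.inK c h (Or.inl P.cu) with h2 | h2
  · exact h1.1.2.2.1 h2.symm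
  · exact h1.2.1.2.1 h2.symm

theorem cK' (P : G.Prt Fa K u v q q' c c' x y) : c' ∉ K := P.sw.cK

theorem xK (P : G.Prt Fa K u v q q' c c' x y) : x ∉ K := by
  intro h
  have h1 := P.neU
  rcases P.inK x h (Or.inl P.xu) with h2 | h2
  · exact h1.1.2.2.2.2 h2.symm
  · exact h1.2.1.2.2.2 h2.symm

/-- the neighbours in `K` -/
theorem pXK (P : G.Prt Fa K u v q q' c c' x y) : G.pX K u = {q, q'} := by
  ext w
  rw [pX, mem_inter, mem_insert, mem_singleton]
  constructor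
  · rintro ⟨h1, h2⟩
    exact P.inK w h2 (Or.inl h1)
  · rintro (rfl | rfl)
    · exact ⟨P.mem.2 (Or.inl rfl), P.hq⟩
    · exact ⟨P.mem.2 (Or.inr (Or.inl rfl)), P.hq'⟩

/-- other members are disjoint from `K` -/
theorem dis (P : G.Prt Fa K u v q q' c c' x y) (hr : G.Reg Fa) (hM : M ∈ Fa) (hMK : M ≠ K)
    {w : V} (h : w ∈ M) : w ∉ K := fun h2 =>
  disjoint_left.1 (hr.dis M hM K P.hK hMK).1 h h2

/-- the vertices of `K` are in `Co M` -/
theorem KCo (P : G.Prt Fa K u v q q' c c' x y) (hr : G.Reg Fa) (hM : M ∈ Fa) (hMK : M ≠ K)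
    {w : V} (h : w ∈ K) : w ∈ G.Co M :=
  mem_Co76.2 ⟨fun h2 => P.dis hr hM hMK h2 h,
    fun h2 => disjoint_left.1 (hr.dis M hM K P.hK hMK).2 h2 h⟩

end Prt

/-! ### weights of neighbours -/

theorem m_le16 (Fa : Finset (Finset V)) (w z : V) : G.m Fa w z ≤ (G.I Fa w).card ∧
    G.m Fa w z ≤ (G.I Fa z).card :=
  ⟨card_le_card inter_subset_left, card_le_card inter_subset_right⟩

theorem pay_le16 {z : V} (hz : G.Low z) (w : V) : G.pay5 Fa z w ≤ 2 := by
  rw [pay5]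
  split_ifs <;> norm_num

theorem w5_ge16 {z : V} (hz : G.Low z) (h2 : 2 ≤ (G.I Fa z).card) (w : V) :
    4 - 2 * ((G.I Fa z).card : ℤ) ≤ G.w5 Fa w z := by
  have h1 := m_le16 (G := G) Fa w z
  rw [w5]
  by_cases h3 : 2 ≤ (G.I Fa w).card
  · rw [K28.pay_to_many h3]
    omega
  · have h4 := pay_le16 (Fa := Fa) hz w
    omega

theorem w5_nonneg16 {z : V} (hz : G.Low z) (h2 : (G.I Fa z).card ≤ 2) (w : V) :
    0 ≤ G.w5 Fa w z := by
  have h1 := m_le16 (G := G) Fa w z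
  rw [w5]
  by_cases h3 : 2 ≤ (G.I Fa w).card
  · rw [K28.pay_to_many h3]
    omega
  · have h4 := pay_le16 (Fa := Fa) hz w
    omega

theorem w5_two16 {z : V} (hz : G.Low z) {w : V} (h : G.m Fa w z = 0) : 2 ≤ G.w5 Fa w z := by
  have h4 := pay_le16 (Fa := Fa) hz w
  rw [w5, h]
  omega

/-- no payment -/
theorem w5_free16 (h9 : 9 ≤ Fintype.card V) {z w : V} (hz : G.Low z)
    (h : G.Low w ∨ ∃ b, G.HL w b z) : G.w5 Fa w z = 4 - 2 * (G.m Fa w z : ℤ) := by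
  rw [w5]
  suffices G.pay5 Fa z w = 0 by omega
  rcases h with h | h
  · exact K28.pay_to_low h
  · rw [pay5]
    have h1 : ¬ G.Low w := fun hl => low_not_HL76 hl z h
    have h2 : ¬ G.IsTw w := fun ht => tw_not_HL76 h9 ht z h
    rw [if_neg h1, if_neg h2, if_pos h, if_pos hz]
    split_ifs <;> rfl

/-! ### flags -/

theorem flv_up16 {S : Finset V} {z : V} (hz : G.Low z) (hU : ¬ G.U3 S z) :
    G.flv S z ≤ G.s5 S z := by
  classical
  have h1 : ¬ G.RF S z := fun h => ((stTy5_87 G).rf S z h).2.1 hz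
  rw [flv, if_neg hU, if_neg h1]
  split_ifs <;> omega

theorem flv_lo16 {S : Finset V} {z : V} (hz : G.Low z) (hT : ¬ G.T3 S z) (hH : ¬ G.HF S z) :
    0 ≤ G.flv S z := by
  classical
  have h1 : ¬ G.RF S z := fun h => ((stTy5_87 G).rf S z h).2.1 hz
  have h2 := s5_nonneg87 (G := G) S z
  rw [flv, if_neg hT, if_neg hH, if_neg h1]
  split_ifs <;> omega

theorem flv_lo16' {S : Finset V} {z : V} (hz : G.Low z) (hT : ¬ G.T3 S z) :
    -2 ≤ G.flv S z := by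
  classical
  have h1 : ¬ G.RF S z := fun h => ((stTy5_87 G).rf S z h).2.1 hz
  have h2 := s5_nonneg87 (G := G) S z
  rw [flv, if_neg hT, if_neg h1]
  split_ifs <;> omega

namespace Prt

variable {K M : Finset V} {u v q q' c c' x y : V}

/-- a low vertex in `pT`: no `T3` -/
theorem no_T3 {S : Finset V} {z w : V} (hw : G.Low w) (h : w ∈ G.pT S z) : ¬ G.T3 S z := by
  rintro ⟨-, -, -, Q, Q', r, r', h', h1, -, -, h2, -⟩
  rw [h2, mem_insert, mem_singleton] at h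
  rcases h with rfl | rfl
  · exact tw_not_low76 (tw_of76 h1) hw
  · exact tw_not_low76 (tw_of76' h1) hw

theorem no_U3 {S : Finset V} {z w : V} (hw : G.Low w) (h : w ∈ G.pT S z) : ¬ G.U3 S z := by
  rintro ⟨-, -, -, Q, Q', h1, h2⟩
  rw [h2, mem_insert, mem_singleton] at h
  rcases h with rfl | rfl
  · exact tw_not_low76 (tw_of76 h1) hw
  · exact tw_not_low76 (tw_of76' h1) hw

theorem no_HF {S : Finset V} {z w : V} (hw : G.Low w) (h : w ∈ G.pT S z) : ¬ G.HF S z := by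
  rintro ⟨-, -, -, a, b, h1, -, -, h2⟩
  rw [h2, mem_singleton] at h
  subst h
  exact HL_not_low76 h1 hw

/-- `S0` with `v` in `pT` -/
theorem S0_eq {S : Finset V} {z w w' : V} (h : w ∈ G.pT S z) (h0 : G.S0 S z w') : w' = w := by
  have h1 := h0.2.2.2.1
  rw [h1, mem_singleton] at h
  exact h.symm

/-- flags at `K` -/
theorem fl_K (P : G.Prt Fa K u v q q' c c' x y) (hr : G.Reg Fa) :
    -1 ≤ G.flv (G.Co K) u - G.flv K u ∧ ((∃ w ∈ G.nb u, w ≠ v ∧ w ∈ G.N K) →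
      0 ≤ G.flv (G.Co K) u - G.flv K u) := by
  classical
  have hF := hr.frag K P.hK
  obtain ⟨hN, -⟩ := (stTy5_87 G).nt K hF
  obtain ⟨e1, e2, e3⟩ := (stTy5_87 G).co K hF u
  have hvT : v ∈ G.pT K u := mem_inter.2 ⟨P.vu, P.vN⟩
  have hvT' : v ∈ G.pT (G.Co K) u := by rw [e2]; exact hvT
  have h1 := flv_up16 P.lu (no_U3 P.lv hvT)
  have h2 := flv_lo16 P.lu (no_T3 P.lv hvT') (no_HF P.lv hvT')
  have hXv := P.pXK
  have hXu := P.swap.pXK
  constructor
  · suffices G.s5 K u ≤ 1 by omega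
    unfold s5
    rw [if_neg]
    · split_ifs <;> norm_num
    · rintro ⟨v', h3, h4⟩
      obtain rfl := S0_eq hvT h3
      exact h4 ⟨⟨x, y, P.ll⟩, by rw [hXv, hXu]⟩
  · rintro ⟨w, hw, hwv, hwN⟩
    suffices G.s5 K u = 0 by omega
    by_contra h3
    obtain ⟨v', h4⟩ := s5_S0_87 h3
    have h5 := S0_eq hvT h4
    have h6 := S0_eq (mem_inter.2 ⟨hw, hwN⟩ : w ∈ G.pT K u) h4
    exact hwv (h6.symm.trans h5)

/-- flags at another member `M` with `u` and `v` in `N M` -/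
theorem fl_M (P : G.Prt Fa K u v q q' c c' x y) (hr : G.Reg Fa) (hM : M ∈ Fa) (hMK : M ≠ K)
    (hv : v ∈ G.N M) :
    -2 ≤ G.flv (G.Co M) u - G.flv M u ∧
      (¬ (c ∈ M ∧ c' ∈ M) → 0 ≤ G.flv (G.Co M) u - G.flv M u) ∧
      (y ∉ M → -1 ≤ G.flv (G.Co M) u - G.flv M u) ∧
      ((∃ w ∈ G.nb u, w ≠ v ∧ w ∈ G.N M) → 0 ≤ G.flv (G.Co M) u - G.flv M u) ∧
      (x ∈ M → 0 ≤ G.flv (G.Co M) u - G.flv M u) := by
  classical
  have hF := hr.frag M hM
  obtain ⟨hN, -⟩ := (stTy5_87 G).nt M hF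
  obtain ⟨e1, e2, e3⟩ := (stTy5_87 G).co M hF u
  have hvT : v ∈ G.pT M u := mem_inter.2 ⟨P.vu, hv⟩
  have hvT' : v ∈ G.pT (G.Co M) u := by rw [e2]; exact hvT
  have h1 := flv_up16 P.lu (no_U3 P.lv hvT)
  have h2 := flv_lo16 P.lu (no_T3 P.lv hvT') (no_HF P.lv hvT')
  have h3 := ((stTy5_87 G).s1 M u).2
  have hvM : v ∉ M := (mem_N76.1 hv).1
  have key : G.s5 M u ≠ 0 → G.pX M u = {c, c'} ∧ c ∈ M ∧ c' ∈ M := by
    intro h4
    obtain ⟨v', h5⟩ := s5_S0_87 h4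
    obtain rfl := S0_eq hvT h5
    obtain ⟨r, r', h6, h7, h8⟩ := h5.2.2.2.2.1
    have hr1 : r ∈ G.pX M u := by rw [h7]; exact mem_insert_self _ _
    have hr2 : r' ∈ G.pX M u := by rw [h7]; exact mem_insert_of_mem (mem_singleton_self _)
    have hne : r ≠ r' := Tw_ne87 h6
    have h9 : r' ∈ G.nb v' := by
      have h10 : v' ∈ G.cl r' := by
        rw [← h6.2.2]
        exact mem_insert_of_mem (G.sym _ _ h8)
      rcases mem_insert.1 h10 with h11 | h11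
      · exact absurd (h11 ▸ (mem_inter.1 hr2).2) hvM
      · exact G.sym _ _ h11
    have h12 : ∀ z, z ∈ G.nb u → z ∈ M → z ∈ G.nb v' → z = c ∨ z = c' := by
      intro z hz hzM hzv
      rcases P.mem.1 hz with h | h | h | h | h | h
      · exact absurd (h ▸ P.hq) (P.dis hr hM hMK hzM)
      · exact absurd (h ▸ P.hq') (P.dis hr hM hMK hzM)
      · exact absurd (h ▸ hzM) hvM
      · exact Or.inl h
      · exact Or.inr h
      · exact absurd (h ▸ hzv) P.xv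
    have h13 := h12 r (mem_inter.1 hr1).1 (mem_inter.1 hr1).2 h8
    have h14 := h12 r' (mem_inter.1 hr2).1 (mem_inter.1 hr2).2 h9
    rcases h13 with rfl | rfl <;> rcases h14 with h15 | h15
    · exact absurd h15.symm hne
    · subst h15
      exact ⟨h7, (mem_inter.1 hr1).2, (mem_inter.1 hr2).2⟩
    · subst h15
      exact ⟨by rw [h7, pair_comm], (mem_inter.1 hr2).2, (mem_inter.1 hr1).2⟩
    · exact absurd h15.symm hne
  refine ⟨by omega, ?_, ?_, ?_, ?_⟩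
  · intro h4
    have h5 : G.s5 M u = 0 := by
      by_contra h6
      exact h4 (key h6).2
    omega
  · intro h4
    suffices G.s5 M u ≤ 1 by omega
    by_cases h5 : G.s5 M u = 0
    · omega
    obtain ⟨h6, h7, h8⟩ := key h5
    unfold s5
    rw [if_neg]
    · split_ifs <;> norm_num
    · rintro ⟨v', h9, h10⟩
      obtain rfl := S0_eq hvT h9
      apply h10
      refine ⟨⟨x, y, P.ll⟩, ?_⟩
      rw [h6]
      ext w
      rw [pX, mem_inter, mem_insert, mem_singleton]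
      constructor
      · rintro ⟨h11, h12⟩
        rcases P.memv.1 h11 with h | h | h | h | h | h
        · exact absurd (h ▸ P.hq) (P.dis hr hM hMK h12)
        · exact absurd (h ▸ P.hq') (P.dis hr hM hMK h12)
        · exact absurd (h ▸ h12) (mem_R76.1 P.uR M hM)
        · exact Or.inl h
        · exact Or.inr h
        · exact absurd (h ▸ h12) h4
      · rintro (rfl | rfl)
        · exact ⟨P.cv, h7⟩
        · exact ⟨P.cv', h8⟩
  · rintro ⟨w, hw, hwv, hwN⟩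
    suffices G.s5 M u = 0 by omega
    by_contra h4
    obtain ⟨v', h5⟩ := s5_S0_87 h4
    have h6 := S0_eq hvT h5
    have h7 := S0_eq (mem_inter.2 ⟨hw, hwN⟩ : w ∈ G.pT M u) h5
    exact hwv (h7.symm.trans h6)
  · intro hxM
    have h5 : G.s5 M u = 0 := by
      by_contra h6
      have h7 := (key h6).1
      have h8 : x ∈ G.pX M u := mem_inter.2 ⟨P.xu, hxM⟩
      rw [h7, mem_insert, mem_singleton] at h8
      have h9 := P.neU
      rcases h8 with h | h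
      · exact h9.2.2.2.1.2 h.symm
      · exact h9.2.2.2.2 h.symm
    omega

/-- flags at a member `M` with `u` but not `v` in `N M` -/
theorem fl_x (P : G.Prt Fa K u v q q' c c' x y) (hr : G.Reg Fa) (hM : M ∈ Fa) (hMK : M ≠ K)
    (hu : u ∈ G.N M) (hv : v ∉ G.N M) :
    x ∈ M ∧ c ∉ M ∧ c' ∉ M ∧ -2 ≤ G.flv (G.Co M) u - G.flv M u ∧
      (¬ G.HF (G.Co M) u → 0 ≤ G.flv (G.Co M) u - G.flv M u) := by
  classical
  have hF := hr.frag M hM
  obtain ⟨e1, e2, e3⟩ := (stTy5_87 G).co M hF u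
  have hvM : v ∉ M := mem_R76.1 P.vR M hM
  have hcM : c ∉ M := fun h => hv (mem_N76.2 ⟨hvM, c, h, G.sym _ _ P.cv⟩)
  have hcM' : c' ∉ M := fun h => hv (mem_N76.2 ⟨hvM, c', h, G.sym _ _ P.cv'⟩)
  have hX : ∀ w ∈ G.pX M u, w = x := by
    intro w hw
    obtain ⟨h1, h2⟩ := mem_inter.1 hw
    rcases P.mem.1 h1 with h | h | h | h | h | h
    · exact absurd (h ▸ P.hq) (P.dis hr hM hMK h2)
    · exact absurd (h ▸ P.hq') (P.dis hr hM hMK h2)
    · exact absurd (h ▸ h2) hvM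
    · exact absurd (h ▸ h2) hcM
    · exact absurd (h ▸ h2) hcM'
    · exact h
  obtain ⟨-, w, hw, hwu⟩ := mem_N76.1 hu
  have hwX : w ∈ G.pX M u := mem_inter.2 ⟨G.sym _ _ hwu, hw⟩
  have hxM : x ∈ M := (hX w hwX) ▸ hw
  have hX1 : (G.pX M u).card ≤ 1 := card_le_one.2 fun a ha b hb => (hX a ha).trans (hX b hb).symm
  have hU : ¬ G.U3 M u := fun h => by
    have := ((stTy5_87 G).u3 M u h).1
    omega
  have hs : G.s5 M u = 0 := by
    by_contra h
    have := ((stTy5_87 G).s2 M u h).2.2.1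
    omega
  have h1 := flv_up16 P.lu hU
  have hO : 3 ≤ (G.pX (G.Co M) u).card := by
    have h2 : ({q, q', v} : Finset V) ⊆ G.pX (G.Co M) u := by
      intro w hw
      simp only [mem_insert, mem_singleton] at hw
      rcases hw with rfl | rfl | rfl
      · exact mem_inter.2 ⟨P.mem.2 (Or.inl rfl), P.KCo hr hM hMK P.hq⟩
      · exact mem_inter.2 ⟨P.mem.2 (Or.inr (Or.inl rfl)), P.KCo hr hM hMK P.hq'⟩
      · exact mem_inter.2 ⟨P.vu, mem_Co76.2 ⟨hvM, hv⟩⟩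
    have h3 := P.neU
    have h4 : ({q, q', v} : Finset V).card = 3 := by
      rw [card_insert_of_notMem, card_pair h3.2.1.1]
      simp only [mem_insert, mem_singleton, not_or]
      exact ⟨h3.1.1, h3.1.2.1⟩
    rw [← h4]
    exact card_le_card h2
  have hT : ¬ G.T3 (G.Co M) u := fun h => by
    have := ((stTy5_87 G).t3 _ u h).1
    omega
  have h2 := flv_lo16' P.lu hT
  refine ⟨hxM, hcM, hcM', by omega, fun hH => ?_⟩
  have h3 := flv_lo16 P.lu hT hH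
  omega

end Prt

end CG

end Pool.Agent.Lib.MP_e95c01_co.N
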