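import Pool.Agent.Lib.MP_e95c01_co.Y.ValC31
import Pool.Agent.Lib.MP_e95c01_co.Y.StPort36
import Pool.Agent.Lib.MP_e95c01_co.Y.Prt16

/-!
# Values of the other pairs of ports
-/

set_option autoImplicit false

namespace Pool.Agent.Lib.MP_e95c01_co.N

open Finset

variable {V : Type} [Fintype V] [DecidableEq V]

namespace CG

variable {G : CG V} {Fa : Finset (Finset V)} {F : Finset V}

/-- the bonus of the ports -/
structure Hx31 (G : CG V) (Fb : Finset (Finset V)) (hx : V → ℤ) : Prop where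
  nn : ∀ z, 0 ≤ hx z
  six : ∀ K q q' u v c d x y, G.LPt Fb K q q' u v c d x y → ¬ (x ∈ G.N K ∧ y ∈ G.N K) →
    G.I Fb u = {K} → G.I Fb v = {K} → 2 ≤ G.fc Fb u + G.fc Fb v ∨ 6 ≤ hx u + hx v

/-- direct necks -/
def StKK31 (G : CG V) (F : Finset V) (Fa : Finset (Finset V)) : Prop :=
  ∀ K ∈ G.k6S Fa, ∀ K' ∈ G.k6S Fa, K ≠ K' → ∀ q u v x y, G.Pr K q u v → G.LL u v x y →
    u ∈ G.N K' → v ∈ G.N K' → 16 ≤ G.valS Fa F u + G.valS Fa F v

namespace VI31

theorem pr_symm {K : Finset V} {q u v : V} (p : G.Pr K q u v) : G.Pr K q v u :=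
  ⟨p.qK, p.vK, p.uK, p.ne.symm, by rw [p.nb, insert_comm]⟩

/-- a costly pair is an `LL` pair -/
theorem pr_LL {K : Finset V} {q u v : V} (p : G.Pr K q u v) (h : G.PLb K q) :
    ∃ x y, G.LL u v x y ∧ ¬ (x ∈ G.N K ∧ y ∈ G.N K) := by
  obtain ⟨-, -, a, b, x, y, h1, h2, h3, h4, h5, h6, -⟩ := h
  have hab : a ≠ b := fun h => G.irr a (by have := h5.2.2.1; rw [← h] at this; exact this)
  have key : ∀ w, w ∈ G.nb q → w ∉ K → w = u ∨ w = v := by
    intro w hw hwK
    rw [p.nb, mem_insert, mem_insert] at hw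
    rcases hw with h | h | h
    · exact Or.inl h
    · exact Or.inr h
    · exact absurd (mem_of_mem_erase h) hwK
  rcases key a h1 h3 with rfl | rfl <;> rcases key b h2 h4 with rfl | rfl
  · exact absurd rfl hab
  · exact ⟨x, y, h5, h6⟩
  · exact ⟨y, x, LL_symm76 h5, fun h => h6 ⟨h.2, h.1⟩⟩
  · exact absurd rfl hab

/-- the port of `87` -/
theorem lpt (hG : G.Gen6 (insert (G.Co F) Fa)) {K : Finset V} (hK : K ∈ G.k6S Fa) {q u v x y : V}
    (p : G.Pr K q u v) (h : G.LL u v x y) :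
    ∃ q' c d, G.LPt (insert (G.Co F) Fa) K q q' u v c d x y := by
  have hK' := mem_k6S.1 hK
  obtain ⟨q', c, c', P⟩ := prt_mk16 hG.g5 (mem_insert_of_mem hK'.1) hK'.2 p.qK
    (by rw [p.nb]; exact mem_insert_self _ _)
    (by rw [p.nb]; exact mem_insert_of_mem (mem_insert_self _ _)) p.uK p.vK h
  exact ⟨q', c, c', P.hK, P.hS, P.hq, P.hq',
    fun h => G.irr q (by have := P.tw.1; rw [← h] at this; exact this), P.uK, P.vK, P.nbu, P.nbv,
    P.ll⟩

/-- the share of a port -/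
theorem sh_ge {hx : V → ℤ} {w : V} (h : G.kpS Fa w ≤ 1) :
    G.shS Fa F hx w = 2 * (G.valS Fa F w + hx w) := by
  rw [shS, if_pos h]

theorem sh_two {hx : V → ℤ} {w : V} (h : ¬ G.kpS Fa w ≤ 1) :
    G.shS Fa F hx w = G.valS Fa F w + hx w := by
  rw [shS, if_neg h, one_mul]

/-- the number of the members at a port of two members -/
theorem kp_two {K K' : Finset V} (hK : K ∈ G.k6S Fa) (hK' : K' ∈ G.k6S Fa) (hne : K ≠ K') {w : V}
    (h : w ∈ G.N K) (h' : w ∈ G.N K') : ¬ G.kpS Fa w ≤ 1 := by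
  classical
  intro h1
  rw [kpS, card_le_one] at h1
  exact hne (h1 K (mem_filter.2 ⟨hK, h⟩) K' (mem_filter.2 ⟨hK', h'⟩))

theorem kp_one {K : Finset V} {w : V} (h : ∀ K' ∈ G.k6S Fa, K' ≠ K → w ∉ G.N K') :
    G.kpS Fa w ≤ 1 := by
  classical
  rw [kpS, card_le_one]
  have key : ∀ K' ∈ (G.k6S Fa).filter (fun K => w ∈ G.N K), K' = K := by
    intro K' hK'
    obtain ⟨h1, h2⟩ := mem_filter.1 hK'
    by_contra hne
    exact h K' h1 hne h2
  intro a ha b hb
  rw [key a ha, key b hb]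

/-- the value of a port in `F` -/
theorem val_F (hF : G.GoodK F) (T : G.Tor F Fa) (hG : G.Gen6 (insert (G.Co F) Fa)) {u : V}
    (h0 : (G.badS Fa u).Nonempty) (h1 : (G.badS Fa u).card ≤ 1) (hu : u ∈ F) :
    3 * G.fc (insert (G.Co F) Fa) u + 2 ≤ G.valS Fa F u := by
  have hc : ((G.badS Fa u).card : ℤ) ≤ 1 := by exact_mod_cast h1
  rw [val_in33 hG.g5.crit hG.g5.n9 hF T h0 hu]
  linarith

/-- the value of a port in `N F` -/
theorem val_N (T : G.Tor F Fa) (hG : G.Gen6 (insert (G.Co F) Fa)) {u : V}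
    (h0 : (G.badS Fa u).Nonempty) (h1 : (G.badS Fa u).card ≤ 1) (hu : u ∈ G.N F)
    (hb : ¬ G.BadC (G.Co F) u) :
    3 * G.fc (insert (G.Co F) Fa) u - 2 ≤ G.valS Fa F u ∧
      (G.d u (G.Co F) ≤ 1 → 3 * G.fc (insert (G.Co F) Fa) u + 2 ≤ G.valS Fa F u) := by
  have hc : ((G.badS Fa u).card : ℤ) ≤ 1 := by exact_mod_cast h1
  rw [val_N33 hG.g5.crit hG.g5.n9 T h0 hu hb]
  constructor
  · split_ifs <;> linarith
  · intro h
    rw [if_pos h]
    linarith

/-- a port whose partner is in `F` has at most one neighbour in `Co F` -/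
theorem half (T : G.Tor F Fa) {K : Finset V} (hK : K ∈ G.k6S Fa)
    {q q' u v c d x y : V} (L : G.LPt (insert (G.Co F) Fa) K q q' u v c d x y) (hu : u ∈ F) :
    G.d v (G.Co F) ≤ 1 := by
  classical
  have h1 : G.nb v ∩ G.Co F ⊆ {y} := by
    intro w hw
    obtain ⟨h2, h3⟩ := mem_inter.1 hw
    have hKF : K ⊆ F := (T.good K (mem_k6S.1 hK).1).2.1
    have hC := mem_Co76.1 h3
    have key : ∀ z, z ∈ G.nb u → z ∉ G.Co F := by
      intro z hz hzC
      have h4 := mem_Co76.1 hzC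
      exact h4.2 (mem_N76.2 ⟨h4.1, u, hu, hz⟩)
    rcases L.memv.1 h2 with rfl | rfl | rfl | rfl | rfl | rfl
    · exact absurd (hKF L.qK) hC.1
    · exact absurd (hKF L.qK') hC.1
    · exact absurd hu hC.1
    · exact absurd h3 (key _ (L.memu.2 (by tauto)))
    · exact absurd h3 (key _ (L.memu.2 (by tauto)))
    · exact mem_singleton_self _
  have h2 := card_le_card h1
  rw [card_singleton] at h2
  exact h2

/-- a double neck to `Co F`: the common neighbours are in `Co F` -/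
theorem double (hC : G.Crit) (h9 : 9 ≤ Fintype.card V) (hF : G.GoodK F) (T : G.Tor F Fa)
    {K : Finset V} (hK : K ∈ G.k6S Fa) {q q' u v c d x y : V}
    (L : G.LPt (insert (G.Co F) Fa) K q q' u v c d x y) (hb : G.BadC (G.Co F) u) :
    c ∈ G.Co F ∧ d ∈ G.Co F ∧ G.BadC (G.Co F) v := by
  classical
  obtain ⟨S, hbu, hne⟩ := hb
  obtain ⟨s, w', x', y', h1, h2, h3, h4, h5, h6, h7, h8, h10⟩ := Vl6.bad_pair hC h9 hbu
  have hS : G.IsK6 S := by
    obtain ⟨s', ⟨hS, -⟩, -⟩ := hbu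
    exact hS
  have hSC : S ⊆ G.Co F := good_k6_Co hF.2 S hS hne
  have hKF : K ⊆ F := (T.good K (mem_k6S.1 hK).1).2.1
  have hSK : ∀ z ∈ S, z ∉ K := fun z hz hzK => (mem_Co76.1 (hSC hz)).1 (hKF hzK)
  -- the partner is `v`
  have hvS : v ∉ S := fun h => tw_not_low11 (hS.2.1 v h) L.lv
  obtain ⟨t, -, htS, hts, ht⟩ := Vl6.tw_out hC h9 hS h1
  have n0 := L.nd
  -- the neighbours of `u` in `S`
  have hsx : ∀ z ∈ S, z ∈ G.nb u → z = c ∨ z = d ∨ z = x := by
    intro z hz hzu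
    rcases L.memu.1 hzu with rfl | rfl | rfl | rfl | rfl | rfl
    · exact absurd L.qK (hSK _ hz)
    · exact absurd L.qK' (hSK _ hz)
    · exact absurd hz hvS
    · exact Or.inl rfl
    · exact Or.inr (Or.inl rfl)
    · exact Or.inr (Or.inr rfl)
  have hus := G.sym _ _ h2
  have hut := G.sym _ _ (ht u h4 h2)
  -- `w' = v`
  have hvw : w' = v := by
    have g1 : v ∈ G.nb s ∨ v ∈ G.nb t := by
      rcases hsx s h1 hus with rfl | rfl | rfl
      · exact Or.inl (G.sym _ _ (L.memv.2 (by tauto)))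
      · exact Or.inl (G.sym _ _ (L.memv.2 (by tauto)))
      · rcases hsx t htS hut with rfl | rfl | rfl
        · exact Or.inr (G.sym _ _ (L.memv.2 (by tauto)))
        · exact Or.inr (G.sym _ _ (L.memv.2 (by tauto)))
        · exact absurd rfl hts
    have hne' := L.uv
    rcases g1 with g1 | g1
    · rcases Vl6.two_ports hC h9 hS h1 h2 h3 h4 h5 h6 g1 hvS with h | h
      · exact absurd h hne'.symm
      · exact h.symm
    · rcases Vl6.two_ports hC h9 hS htS (ht u h4 h2) (ht w' h5 h3) h4 h5 h6 g1 hvS with h | h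
      · exact absurd h hne'.symm
      · exact h.symm
  subst hvw
  have hvs := G.sym _ _ h3
  have hvt := G.sym _ _ (ht w' h5 h3)
  have hcd : ∀ z ∈ S, z ∈ G.nb u → z ∈ G.nb w' → z = c ∨ z = d := by
    intro z hz h1 h2
    rcases hsx z hz h1 with h | h | h
    · exact Or.inl h
    · exact Or.inr h
    · rw [h] at h2
      exact absurd h2 L.xv
  refine ⟨?_, ?_, S, h10, hne⟩
  · rcases hcd s h1 hus hvs with h | h
    · exact h ▸ hSC h1
    · rcases hcd t htS hut hvt with h' | h'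
      · exact h' ▸ hSC htS
      · exact absurd (h'.trans h.symm) hts
  · rcases hcd s h1 hus hvs with h | h
    · rcases hcd t htS hut hvt with h' | h'
      · exact absurd (h'.trans h.symm) hts
      · exact h' ▸ hSC htS
    · exact h ▸ hSC h1

/-- a costly port is costly -/
theorem bad_mem {K : Finset V} (hK : K ∈ G.k6S Fa) {q u v : V} (p : G.Pr K q u v)
    (h : G.PLb K q) : K ∈ G.badS Fa u :=
  mem_badS.2 ⟨mem_k6S.1 hK, q, h, by rw [p.nb]; exact mem_insert_self _ _, p.uK⟩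

/-- the clause `i` for the costly pairs in one member -/
theorem solo (hP7 : G.StP7) (hPd : G.StPd) (hF : G.GoodK F) (T : G.Tor F Fa)
    (hG : G.Gen6 (insert (G.Co F) Fa)) {hx : V → ℤ} (H : G.Hx31 (insert (G.Co F) Fa) hx)
    {K : Finset V} (hK : K ∈ G.k6S Fa) {q u v : V} (p : G.Pr K q u v) (hb : G.PLb K q)
    (hn : ¬ G.AlQ K (G.Co F) u v) (ho : ∀ B ∈ G.ordS Fa, ¬ G.AlQ K B u v)
    (su : ∀ K' ∈ G.k6S Fa, K' ≠ K → u ∉ G.N K') (sv : ∀ K' ∈ G.k6S Fa, K' ≠ K → v ∉ G.N K') :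
    16 ≤ G.shS Fa F hx u + G.shS Fa F hx v ∧
      (¬ (u ∈ G.N F ∧ v ∈ G.N F) → 20 ≤ G.shS Fa F hx u + G.shS Fa F hx v) := by
  classical
  have hC := hG.g5.crit
  have h9 := hG.g5.n9
  have ku := kp_one (Fa := Fa) su
  have kv := kp_one (Fa := Fa) sv
  rw [sh_ge ku, sh_ge kv]
  have bu := VC31.bad_le hC h9 ku
  have bv := VC31.bad_le hC h9 kv
  have nu : (G.badS Fa u).Nonempty := ⟨K, bad_mem hK p hb⟩
  have nv : (G.badS Fa v).Nonempty := ⟨K, bad_mem hK (pr_symm p) hb⟩
  obtain ⟨x, y, hL, hxy⟩ := pr_LL p hb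
  obtain ⟨q', c, d, L⟩ := lpt (F := F) hG hK p hL
  obtain ⟨huN, hvN⟩ := VC31.pr_N p
  have uR := VC31.port_R T hK huN
  have vR := VC31.port_R T hK hvN
  have fu := fc_nonneg33 T hG uR
  have fv := fc_nonneg33 T hG vR
  have xu := H.nn u
  have xv := H.nn v
  have lu : G.Low u := L.lu
  have lv : G.Low v := L.lv
  have hKb : K ∈ insert (G.Co F) Fa := mem_insert_of_mem (mem_k6S.1 hK).1
  have hKC : G.Co F ≠ K := fun h => T.notin (h ▸ (mem_k6S.1 hK).1)
  obtain ⟨-, hCN, -⟩ := G.stCo_37 F hF.1.1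
  have irr : ∀ M ∈ insert (G.Co F) Fa, M ≠ K → ¬ G.AlQ K M u v := by
    intro M hM hMK
    rcases mem_insert.1 hM with rfl | hM
    · exact hn
    · by_cases h6 : G.IsK6 M
      · exact fun h => su M (mem_k6S.2 ⟨hM, h6⟩) hMK h.uN
      · exact ho M (mem_ordS.2 ⟨hM, h6⟩)
  by_cases hI : G.I (insert (G.Co F) Fa) u = {K} ∧ G.I (insert (G.Co F) Fa) v = {K}
  · -- both ports are in no other neighbourhood
    have inF : ∀ w, w ∈ R (insert (G.Co F) Fa) → G.I (insert (G.Co F) Fa) w = {K} → w ∈ F := by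
      intro w hw h
      rcases VC31.in_F_or hw with h1 | h1
      · exact h1
      · exfalso
        have h2 : G.Co F ∈ G.I (insert (G.Co F) Fa) w :=
          mem_I76.2 ⟨mem_insert_self _ _, by rw [hCN]; exact h1⟩
        rw [h, mem_singleton] at h2
        exact hKC h2
    have vu := val_F hF T hG nu bu (inF u uR hI.1)
    have vv := val_F hF T hG nv bv (inF v vR hI.2)
    rcases H.six K q q' u v c d x y L hxy hI.1 hI.2 with h | h
    · exact ⟨by linarith, fun _ => by linarith⟩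
    · exact ⟨by linarith, fun _ => by linarith⟩
  · have hk : 2 ≤ (G.I (insert (G.Co F) Fa) u).card ∨ 2 ≤ (G.I (insert (G.Co F) Fa) v).card := by
      by_contra hno
      push Not at hno
      apply hI
      constructor
      · refine (eq_of_subset_of_card_le (singleton_subset_iff.2 L.KI) ?_).symm
        rw [card_singleton]
        omega
      · refine (eq_of_subset_of_card_le (singleton_subset_iff.2 L.symm.KI) ?_).symm
        rw [card_singleton]
        omega
    have h7 := hP7 _ hG K q q' u v c d x y L hxy irr hk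
    by_cases hr : G.BadC (G.Co F) u ∨ G.BadC (G.Co F) v
    · -- a double neck
      have h8 : 8 ≤ G.fc (insert (G.Co F) Fa) u + G.fc (insert (G.Co F) Fa) v ∧
          G.BadC (G.Co F) u ∧ G.BadC (G.Co F) v := by
        rcases hr with h | h
        · obtain ⟨a, b, e⟩ := double hC h9 hF T hK L h
          exact ⟨hPd _ hG K q q' u v c d x y L _ (mem_insert_self _ _) hKC a b hn, h, e⟩
        · obtain ⟨a, b, e⟩ := double hC h9 hF T hK L.symm h
          exact ⟨hPd _ hG K q q' u v c d x y L _ (mem_insert_self _ _) hKC a b hn, e, h⟩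
      have bu' : ((G.badS Fa u).card : ℤ) ≤ 1 := by exact_mod_cast bu
      have bv' : ((G.badS Fa v).card : ℤ) ≤ 1 := by exact_mod_cast bv
      have vu := val_C33 T lu h8.2.1
      have vv := val_C33 T lv h8.2.2
      exact ⟨by linarith, fun _ => by linarith⟩
    · rw [not_or] at hr
      rcases VC31.in_F_or uR with hu | hu
      · have vu := val_F hF T hG nu bu hu
        rcases VC31.in_F_or vR with hv | hv
        · have vv := val_F hF T hG nv bv hv
          exact ⟨by linarith, fun _ => by linarith⟩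
        · have vv := (val_N T hG nv bv hv hr.2).2 (half T hK L hu)
          exact ⟨by linarith, fun _ => by linarith⟩
      · rcases VC31.in_F_or vR with hv | hv
        · have vv := val_F hF T hG nv bv hv
          have vu := (val_N T hG nu bu hu hr.1).2 (half T hK L.symm hv)
          exact ⟨by linarith, fun _ => by linarith⟩
        · have vu := (val_N T hG nu bu hu hr.1).1
          have vv := (val_N T hG nv bv hv hr.2).1
          exact ⟨by linarith, fun h => absurd ⟨hu, hv⟩ h⟩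

end VI31

open VI31

/-- all clauses of `Val31` -/
theorem valRow31 (hP7 : G.StP7) (hPd : G.StPd) (hF : G.GoodK F) (T : G.Tor F Fa)
    (hG : G.Gen6 (insert (G.Co F) Fa)) {hx : V → ℤ} (H : G.Hx31 (insert (G.Co F) Fa) hx)
    (hKK : G.StKK31 F Fa) : G.Val31 F Fa hx := by
  classical
  have hC := hG.g5.crit
  have h9 := hG.g5.n9
  refine ⟨fun K hK q u v p a => (VC31.c12 hF T hG H.nn hK p a).1,
    fun K hK q u v p a => (VC31.c12 hF T hG H.nn hK p a).2,
    fun K hK q u v p B hB a => VC31.b hF T hG H.nn hK hB p a, ?_⟩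
  intro K hK q u v p hn ho
  obtain ⟨huN, hvN⟩ := VC31.pr_N p
  have hKS := (mem_k6S.1 hK).2
  have huq : u ∈ G.nb q := by
    rw [p.nb]
    exact mem_insert_self _ _
  have hvq : v ∈ G.nb q := by
    rw [p.nb]
    exact mem_insert_of_mem (mem_insert_self _ _)
  -- direct necks
  have direct : ∀ K' ∈ G.k6S Fa, K' ≠ K → ∀ x y, G.LL u v x y → u ∈ G.N K' → v ∈ G.N K' →
      16 ≤ G.shS Fa F hx u + G.shS Fa F hx v ∧
      (G.ordS Fa = ∅ → (G.k6S Fa).card = 1 → ¬ (u ∈ G.N F ∧ v ∈ G.N F) →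
        20 ≤ G.shS Fa F hx u + G.shS Fa F hx v) := by
    intro K' hK' hne x y hL hu hv
    have h1 := hKK K hK K' hK' hne.symm q u v x y p hL hu hv
    rw [sh_two (kp_two hK hK' hne.symm huN hu), sh_two (kp_two hK hK' hne.symm hvN hv)]
    have xu := H.nn u
    have xv := H.nn v
    refine ⟨by linarith, fun _ h2 => ?_⟩
    obtain ⟨A, hA⟩ := card_eq_one.1 h2
    rw [hA, mem_singleton] at hK hK'
    exact absurd (hK'.trans hK.symm) hne
  by_cases hb : G.PLb K q
  · obtain ⟨x, y, hL, hxy⟩ := pr_LL p hb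
    by_cases hs : ∃ K' ∈ G.k6S Fa, K' ≠ K ∧ (u ∈ G.N K' ∨ v ∈ G.N K')
    · obtain ⟨K', hK', hne, h⟩ := hs
      have hK6 := (mem_k6S.1 hK').2
      have hN6 := Vl6.N_card T (mem_k6S.1 hK').1
      rcases h with h | h
      · obtain ⟨h1, s, h2, h3⟩ := mem_N76.1 h
        obtain ⟨h4, h5⟩ := Vl6.partner hC h9 hK6 hN6 h2 h1 h3 hL
        exact direct K' hK' hne x y hL h (mem_N76.2 ⟨h4, s, h2, h5⟩)
      · obtain ⟨h1, s, h2, h3⟩ := mem_N76.1 h
        obtain ⟨h4, h5⟩ := Vl6.partner hC h9 hK6 hN6 h2 h1 h3 (LL_symm76 hL)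
        exact direct K' hK' hne x y hL (mem_N76.2 ⟨h4, s, h2, h5⟩) h
    · push Not at hs
      have h1 := solo hP7 hPd hF T hG H hK p hb hn ho (fun K' hK' hne => (hs K' hK' hne).1)
        (fun K' hK' hne => (hs K' hK' hne).2)
      exact ⟨h1.1, fun _ _ => h1.2⟩
  · rcases Vl6.row12 hC G.rows6 hF T hG hK p.qK huq hvq p.uK p.vK p.ne hb with
      ⟨b1, b2, v1, v2, h | h⟩ | ⟨K', hK', hne, h1, h2, x, y, h3, h4, h5⟩
    · obtain ⟨g1, g2, g3, g4⟩ := h
      have xu := H.nn u
      have xv := H.nn v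
      have fu := fc_nonneg33 T hG (VC31.port_R T hK huN)
      have fv := fc_nonneg33 T hG (VC31.port_R T hK hvN)
      have key : ∀ w, w ∈ G.N K → 4 * (Vl6.kp G Fa w : ℤ) + 2 * G.fc (insert (G.Co F) Fa) w ≤
          G.valS Fa F w → 0 ≤ G.fc (insert (G.Co F) Fa) w → 0 ≤ hx w →
          8 ≤ G.shS Fa F hx w := by
        intro w hw e1 e2 e3
        have e4 : 1 ≤ G.kpS Fa w := card_pos.2 ⟨K, mem_filter.2 ⟨hK, hw⟩⟩
        have e5 : Vl6.kp G Fa w = G.kpS Fa w := rfl
        rw [e5] at e1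
        have e6 : (1 : ℤ) ≤ (G.kpS Fa w : ℤ) := by exact_mod_cast e4
        by_cases e7 : G.kpS Fa w ≤ 1
        · rw [sh_ge e7]
          linarith
        · have e8 : (2 : ℤ) ≤ (G.kpS Fa w : ℤ) := by
            have : 2 ≤ G.kpS Fa w := by omega
            exact_mod_cast this
          rw [sh_two e7]
          linarith
      have su := key u huN g1 fu xu
      have sv := key v hvN g2 fv xv
      refine ⟨by linarith, fun h0 hk hNF => ?_⟩
      have solo1 : ∀ w, G.kpS Fa w ≤ 1 := by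
        intro w
        rw [← hk]
        exact card_le_card (filter_subset _ _)
      rw [sh_ge (solo1 u), sh_ge (solo1 v)] at *
      rcases VC31.in_F_or (VC31.port_R T hK huN) with hu | hu
      · have := g3 h0 hu
        linarith
      · rcases VC31.in_F_or (VC31.port_R T hK hvN) with hv | hv
        · have := g4 h0 hv
          linarith
        · exact absurd ⟨hu, hv⟩ hNF
    · exact absurd h hn
    · exact direct K' hK' hne x y h3 (h1.low hC h9).2 (h2.low hC h9).2

end CG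

end Pool.Agent.Lib.MP_e95c01_co.N
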