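import Pool.Agent.Lib.MP_e95c01_co.Y.PortM87
import Pool.Agent.Lib.MP_e95c01_co.Y.ValI31
import Pool.Agent.Lib.MP_e95c01_co.Y.Val6
import Pool.Agent.Lib.MP_e95c01_co.Y.Val33

/-!
# Direct necks: the values of the two ports
-/

set_option autoImplicit false

namespace Pool.Agent.Lib.MP_e95c01_co.N

open Finset

variable {V : Type} [Fintype V] [DecidableEq V]

namespace CG

variable {G : CG V} {Fa : Finset (Finset V)} {F K K' : Finset V} {q q' p p' u v c d x y : V}

namespace LPt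

/-- the ports of `q` -/
theorem pr (h : G.LPt Fa K q q' u v c d x y) (hG : G.Gen6 Fa) : G.Pr K q u v := by
  refine ⟨h.qK, h.uK, h.vK, h.uv, ?_⟩
  ext z
  rw [mem_insert, mem_insert, mem_erase]
  constructor
  · intro hz
    by_cases hzK : z ∈ K
    · refine Or.inr (Or.inr ⟨fun h1 => G.irr q (by rwa [h1] at hz), hzK⟩)
    · rcases h.nbq hG hz hzK with h1 | h1
      · exact Or.inl h1
      · exact Or.inr (Or.inl h1)
  · rintro (rfl | rfl | ⟨h1, h2⟩)
    · exact G.sym _ _ (h.memu.2 (by tauto))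
    · exact G.sym _ _ (h.memv.2 (by tauto))
    · exact h.k6.2.2 q h.qK z h2 (Ne.symm h1)

/-- the private neighbours are unique -/
theorem priv (h : G.LPt Fa K q q' u v c d x y) {x' y' : V} (h' : G.LL u v x' y') : x' = x := by
  have h1 : x' ∈ G.nb u := LL_t76 h'
  have h2 : x' ∉ G.cl v := h'.2.2.2.2.1
  have h3 : ∀ z, z ∈ G.nb v → x' ≠ z := fun z hz h4 => h2 (h4 ▸ mem_insert_of_mem hz)
  rcases h.memu.1 h1 with h4 | h4 | h4 | h4 | h4 | h4
  · exact absurd h4 (h3 _ (h.memv.2 (by tauto)))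
  · exact absurd h4 (h3 _ (h.memv.2 (by tauto)))
  · exact absurd (h4 ▸ mem_insert_self _ _) h2
  · exact absurd h4 (h3 _ (h.memv.2 (by tauto)))
  · exact absurd h4 (h3 _ (h.memv.2 (by tauto)))
  · exact h4

/-- a costly port has a private neighbour outside of `N K` -/
theorem cost (h : G.LPt Fa K q q' u v c d x y) (hG : G.Gen6 Fa) (hb : G.Bad K u) :
    ¬ (x ∈ G.N K ∧ y ∈ G.N K) := by
  have hN := h.NK hG.g5.reg
  have h1 := (Vl6.bad_iff hG.g5.crit hG.g5.n9 hN h.qK h.uK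
    (G.sym _ _ (h.memu.2 (by tauto)))).1 hb
  obtain ⟨x', y', h2, h3⟩ := VI31.pr_LL (h.pr hG) h1
  have h4 := h.priv h2
  have h5 := h.symm.priv (LL_symm76 h2)
  subst h4
  subst h5
  exact h3

/-- the partner costs as well -/
theorem cost_symm (h : G.LPt Fa K q q' u v c d x y) (hG : G.Gen6 Fa) (hb : G.Bad K u) :
    G.Bad K v := by
  have hN := h.NK hG.g5.reg
  exact (Vl6.bad_iff hG.g5.crit hG.g5.n9 hN h.qK h.vK (G.sym _ _ (h.memv.2 (by tauto)))).2
    ((Vl6.bad_iff hG.g5.crit hG.g5.n9 hN h.qK h.uK (G.sym _ _ (h.memu.2 (by tauto)))).1 hb)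

/-- `u` is a port of no other `K6` -/
theorem only (h : G.LPt Fa K q q' u v p p' x y) (h' : G.LPt Fa K' p p' u v q q' x y)
    (hG : G.Gen6 Fa) {S : Finset V} (hb : G.Bad S u) : S = K ∨ S = K' := by
  have hC := hG.g5.crit
  have h9 := hG.g5.n9
  obtain ⟨q0, ⟨hS, hq0, -⟩, hu, huS⟩ := hb
  have key : ∀ z ∈ S, z ∈ G.nb u → z = x ∨ S = K ∨ S = K' := by
    intro z hz hzu
    rcases h.memu.1 hzu with rfl | rfl | rfl | rfl | rfl | rfl
    · exact Or.inr (Or.inl (k6_eq16 hC h9 hS h.k6 hz h.qK))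
    · exact Or.inr (Or.inl (k6_eq16 hC h9 hS h.k6 hz h.qK'))
    · exact absurd h.lv (tw_not_low76 (hS.2.1 _ hz))
    · exact Or.inr (Or.inr (k6_eq16 hC h9 hS h'.k6 hz h'.qK))
    · exact Or.inr (Or.inr (k6_eq16 hC h9 hS h'.k6 hz h'.qK'))
    · exact Or.inl rfl
  rcases key q0 hq0 (G.sym _ _ hu) with h1 | h1
  · obtain ⟨t, -, ht, htq, h2⟩ := Vl6.tw_out hC h9 hS hq0
    rcases key t ht (G.sym _ _ (h2 u huS hu)) with h3 | h3
    · exact absurd (h3.trans h1.symm) htq
    · exact h3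
  · exact h1

section

variable (h : G.LPt (insert (G.Co F) Fa) K q q' u v p p' x y)
  (h' : G.LPt (insert (G.Co F) Fa) K' p p' u v q q' x y) (hF : G.GoodK F) (T : G.Tor F Fa)
  (hG : G.Gen6 (insert (G.Co F) Fa)) (hK : K ∈ G.k6S Fa) (hK' : K' ∈ G.k6S Fa)

include h h' T hG hK hK'

/-- the members lie in `F` -/
theorem not_BadC : ¬ G.BadC (G.Co F) u := by
  rintro ⟨S, hS, z, hz⟩
  obtain ⟨h1, h2⟩ := mem_inter.1 hz
  rcases h.only h' hG hS with rfl | rfl
  · exact (mem_Co76.1 h2).1 ((T.good _ (mem_k6S.1 hK).1).2.1 h1)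
  · exact (mem_Co76.1 h2).1 ((T.good _ (mem_k6S.1 hK').1).2.1 h1)

theorem card_badS : ((G.badS Fa u).card : ℤ) ≤
    (if x ∈ G.N K ∧ y ∈ G.N K then 0 else 1) + (if x ∈ G.N K' ∧ y ∈ G.N K' then 0 else 1) := by
  classical
  have h1 : G.badS Fa u ⊆ (if x ∈ G.N K ∧ y ∈ G.N K then ∅ else {K}) ∪
      (if x ∈ G.N K' ∧ y ∈ G.N K' then ∅ else {K'}) := by
    intro S hS
    obtain ⟨-, h2⟩ := mem_badS.1 hS
    rcases h.only h' hG h2 with rfl | rfl
    · rw [if_neg (h.cost hG h2)]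
      exact mem_union_left _ (mem_singleton_self _)
    · rw [if_neg (h'.cost hG h2)]
      exact mem_union_right _ (mem_singleton_self _)
  have h2 := (card_le_card h1).trans (card_union_le _ _)
  have h3 : ((G.badS Fa u).card : ℤ) ≤
      ((if x ∈ G.N K ∧ y ∈ G.N K then (∅ : Finset (Finset V)) else {K}).card : ℤ) +
      ((if x ∈ G.N K' ∧ y ∈ G.N K' then (∅ : Finset (Finset V)) else {K'}).card : ℤ) := by
    exact_mod_cast h2
  refine h3.trans ?_
  split_ifs <;> simp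

theorem badS_sub : G.badS Fa u ⊆ G.badS Fa v := by
  intro S hS
  obtain ⟨h1, h2⟩ := mem_badS.1 hS
  refine mem_badS.2 ⟨h1, ?_⟩
  rcases h.only h' hG h2 with rfl | rfl
  · exact h.cost_symm hG h2
  · exact h'.cost_symm hG h2

theorem dCo : G.d u (G.Co F) ≤ 1 := by
  rw [CG.d]
  have h1 : G.nb u ∩ G.Co F ⊆ {x} := by
    intro z hz
    obtain ⟨h1, h2⟩ := mem_inter.1 hz
    have h3 := (mem_Co76.1 h2).1
    have hKF := (T.good _ (mem_k6S.1 hK).1).2.1
    have hKF' := (T.good _ (mem_k6S.1 hK').1).2.1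
    rw [mem_singleton]
    rcases h.memu.1 h1 with rfl | rfl | rfl | rfl | rfl | rfl
    · exact absurd (hKF h.qK) h3
    · exact absurd (hKF h.qK') h3
    · exact absurd h2 (mem_R76.1 (h.symm.uR hG.g5.reg) _ (mem_insert_self _ _))
    · exact absurd (hKF' h'.qK) h3
    · exact absurd (hKF' h'.qK') h3
    · rfl
  have h2 := card_le_card h1
  rwa [card_singleton] at h2

include hF

/-- the value of `u` -/
theorem val_one : ((G.badS Fa u).Nonempty → 3 * G.fc (insert (G.Co F) Fa) u + 8 -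
      6 * ((G.badS Fa u).card : ℤ) ≤ G.valS Fa F u) ∧
    (G.badS Fa u = ∅ → 8 ≤ G.valS Fa F u) := by
  classical
  have hC := hG.g5.crit
  have h9 := hG.g5.n9
  have hne := h.KK' h' hG
  have huR := h.uR hG.g5.reg
  constructor
  · intro hb
    have h1 : u ∉ G.Co F := mem_R76.1 huR _ (mem_insert_self _ _)
    by_cases hu : u ∈ F
    · rw [val_in33 hC h9 hF T hb hu]
    · have huN : u ∈ G.N F := by
        by_contra h2
        exact h1 (mem_Co76.2 ⟨hu, h2⟩)
      rw [val_N33 hC h9 T hb huN (h.not_BadC h' T hG hK hK'), if_pos (h.dCo h' T hG hK hK')]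
  · intro hb
    have h1 := valS_four33 hF T hG huR h.lu hb (h.not_BadC h' T hG hK hK')
    have h2 : ({K, K'} : Finset (Finset V)) ⊆ G.atS Fa u := by
      intro S hS
      rw [mem_insert, mem_singleton] at hS
      rcases hS with rfl | rfl
      · exact mem_atS.2 ⟨mem_k6S.1 hK, h.uN⟩
      · exact mem_atS.2 ⟨mem_k6S.1 hK', h'.uN⟩
    have h3 := card_le_card h2
    rw [card_pair hne] at h3
    have h4 : (2 : ℤ) ≤ ((G.atS Fa u).card : ℤ) := by exact_mod_cast h3
    linarith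

/-- the values of the two ports -/
theorem val_two : 16 ≤ G.valS Fa F u + G.valS Fa F v := by
  have h1 := h.val_one h' hF T hG hK hK'
  have h2 := h.symm.val_one h'.symm hF T hG hK hK'
  have h3 := h.badS_sub h' T hG hK hK'
  have h4 := h.symm.badS_sub h'.symm T hG hK hK'
  have h5 : G.badS Fa u = G.badS Fa v := Subset.antisymm h3 h4
  by_cases hb : G.badS Fa u = ∅
  · have g1 := h1.2 hb
    have g2 := h2.2 (h5 ▸ hb)
    linarith
  · have g1 := h1.1 (nonempty_iff_ne_empty.2 hb)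
    have g2 := h2.1 (h5 ▸ nonempty_iff_ne_empty.2 hb)
    rw [← h5] at g2
    have g3 := h.card_badS h' T hG hK hK'
    have g4 := h.direct h' hG
    linarith

end

end LPt

/-- direct necks -/
theorem stKK_87 (hF : G.GoodK F) (T : G.Tor F Fa) (hG : G.Gen6 (insert (G.Co F) Fa)) :
    G.StKK31 F Fa := by
  classical
  intro K hK K' hK' hne q u v x y p hL hu _
  have hC := hG.g5.crit
  have h9 := hG.g5.n9
  have hr := hG.g5.reg
  have k' := mem_k6S.1 hK'
  obtain ⟨q', c, d, h⟩ := VI31.lpt hG hK p hL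
  have hK'b : K' ∈ insert (G.Co F) Fa := mem_insert_of_mem k'.1
  have h2 := K38.two hC h9 k'.2 (hr.frag K' hK'b).2.1 u hu
  have hdis := (hr.dis K h.mem K' hK'b hne).1
  have hcd : c ∈ K' ∨ d ∈ K' := by
    by_contra hno
    push Not at hno
    have h3 : G.nb u ∩ K' ⊆ {x} := by
      intro z hz
      obtain ⟨h4, h5⟩ := mem_inter.1 hz
      rw [mem_singleton]
      rcases h.memu.1 h4 with rfl | rfl | rfl | rfl | rfl | rfl
      · exact absurd h5 (disjoint_left.1 hdis h.qK)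
      · exact absurd h5 (disjoint_left.1 hdis h.qK')
      · exact absurd h.lv (tw_not_low76 (k'.2.2.1 _ h5))
      · exact absurd h5 hno.1
      · exact absurd h5 hno.2
      · rfl
    have h4 := card_le_card h3
    rw [card_singleton] at h4
    omega
  rcases hcd with hc | hd
  · exact h.val_two (h.other hG hK'b k'.2 hne hc) hF T hG hK hK'
  · exact h.swap.val_two (h.swap.other hG hK'b k'.2 hne hd) hF T hG hK hK'

end CG

end Pool.Agent.Lib.MP_e95c01_co.N
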