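import Pool.Agent.Lib.MP_e95c01_co.Y.WS33
import Pool.Agent.Lib.MP_e95c01_co.X.Leaf76

/-!
# Light leaves with three vertices: costly ports in `N F`
-/

set_option autoImplicit false

namespace Pool.Agent.Lib.MP_e95c01_co.N

open Finset

variable {V : Type} [Fintype V] [DecidableEq V]

namespace CG

theorem ws_ge50 (G : CG V) (F s : Finset V) (hs : ∀ w ∈ s, G.Low w) :
    3 * G.P5 F + ∑ w ∈ s, G.thS F w ≤ G.WS F := by
  unfold WS
  have h1 : ∑ w ∈ s, G.thS F w ≤ ∑ w ∈ univ.filter (fun w => G.Low w), G.thS F w :=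
    sum_le_sum_of_subset_of_nonneg (fun w hw => mem_filter.2 ⟨mem_univ _, hs w hw⟩)
      fun w _ _ => thS_nonneg33 F w
  linarith

/-- `w` is a costly port of a `K6` in `Co F`, `p` is the other port, `q`, `q'` the twins -/
structure Bd50 (G : CG V) (F : Finset V) (w p q q' x y : V) : Prop where
  wl : G.Low w
  pl : G.Low p
  ll : G.LL w p x y
  tw : G.Tw q q'
  qC : q ∈ G.Co F
  qC' : q' ∈ G.Co F
  wq : q ∈ G.nb w
  wq' : q' ∈ G.nb w
  pq : q ∈ G.nb p
  pq' : q' ∈ G.nb p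
  wb : G.BadC (G.Co F) w
  pb : G.BadC (G.Co F) p
  all : ∀ z ∈ G.nb q, G.Low z → z = w ∨ z = p

variable {G : CG V} {F : Finset V}

theorem bd50 (hC : G.Crit) (h9 : 9 ≤ Fintype.card V) (hF : G.GoodK F) {w : V}
    (hb : G.BadC (G.Co F) w) : ∃ p q q' x y, G.Bd50 F w p q q' x y := by
  classical
  have hb0 := hb
  obtain ⟨S, ⟨q, hP, hwq, hwS⟩, hSC⟩ := hb
  have hP0 := hP
  obtain ⟨hS, hq, u, v, x, y, hu, hv, huS, hvS, hL, hxy⟩ := hP
  have hsub := good_k6_Co hF.2 S hS hSC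
  obtain ⟨u0, v0, -, -, -, a1, a2, -, -, -, hall⟩ := K38.ports hC h9 hS hq
  obtain ⟨q', htw⟩ := hS.2.1 q hq
  have hq'S : q' ∈ S := by
    by_contra hno
    have h1 : G.Low q' := by
      rcases hall q' htw.1 hno with e | e
      · rw [e]; exact a1
      · rw [e]; exact a2
    exact tw_not_low11 ⟨q, (stTwHL_5 G).symm _ _ htw⟩ h1
  have hne : u ≠ v := fun e => G.irr u (by have := hL.2.2.1; rwa [← e] at this)
  have hall2 : ∀ z ∈ G.nb q, G.Low z → z = u ∨ z = v := by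
    intro z hz hzl
    have hzS : z ∉ S := fun h => tw_not_low11 (hS.2.1 z h) hzl
    have e1 := hall z hz hzS
    have e2 := hall u hu huS
    have e3 := hall v hv hvS
    rcases e1 with rfl | rfl <;> rcases e2 with rfl | rfl <;> rcases e3 with rfl | rfl <;>
      simp_all
  have hq'n : ∀ z, z ∈ G.nb q → z ∉ S → q' ∈ G.nb z := fun z hz hzS =>
    G.sym _ _ (Tw_nb5 htw hz (fun e => hzS (e ▸ hq'S)))
  have hub : G.BadC (G.Co F) u := ⟨S, ⟨q, hP0, hu, huS⟩, hSC⟩
  have hvb : G.BadC (G.Co F) v := ⟨S, ⟨q, hP0, hv, hvS⟩, hSC⟩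
  have hwl : G.Low w := by
    rcases hall w hwq hwS with e | e
    · rw [e]; exact a1
    · rw [e]; exact a2
  rcases hall2 w hwq hwl with rfl | rfl
  · exact ⟨v, q, q', x, y, hwl, hL.2.1, hL, htw, hsub hq, hsub hq'S, G.sym _ _ hwq,
      hq'n _ hwq hwS, G.sym _ _ hv, hq'n _ hv hvS, hb0, hvb, hall2⟩
  · exact ⟨u, q, q', y, x, hwl, hL.1, LL_symm76 hL, htw, hsub hq, hsub hq'S, G.sym _ _ hwq,
      hq'n _ hwq hwS, G.sym _ _ hu, hq'n _ hu huS, hb0, hub,
      fun z hz hzl => (hall2 z hz hzl).symm⟩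

namespace Bd50

variable {w p q q' x y : V}

theorem swap (h : G.Bd50 F w p q q' x y) : G.Bd50 F p w q q' y x :=
  ⟨h.pl, h.wl, LL_symm76 h.ll, h.tw, h.qC, h.qC', h.pq, h.pq', h.wq, h.wq', h.pb, h.wb,
    fun z hz hzl => (h.all z hz hzl).symm⟩

theorem pF (h : G.Bd50 F w p q q' x y) : p ∉ F := by
  intro hp
  have h1 := mem_Co76.1 h.qC
  exact h1.2 (mem_N76.2 ⟨h1.1, p, hp, h.pq⟩)

theorem wF (h : G.Bd50 F w p q q' x y) : w ∉ F := h.swap.pF

theorem wp (h : G.Bd50 F w p q q' x y) : p ∈ G.nb w := h.ll.2.2.1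

theorem ne (h : G.Bd50 F w p q q' x y) : w ≠ p := fun e =>
  G.irr w (by have := h.wp; rwa [← e] at this)

theorem qq (h : G.Bd50 F w p q q' x y) : q ≠ q' := ne_of_nb5 h.tw.1

theorem two (h : G.Bd50 F w p q q' x y) : 2 ≤ G.d w (G.Co F) := by
  have h1 : ({q, q'} : Finset V) ⊆ G.nb w ∩ G.Co F := by
    intro z hz
    rw [mem_insert, mem_singleton] at hz
    rcases hz with rfl | rfl
    · exact mem_inter.2 ⟨h.wq, h.qC⟩
    · exact mem_inter.2 ⟨h.wq', h.qC'⟩
  have h2 := card_le_card h1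
  rw [card_pair h.qq] at h2
  exact h2

theorem sum6 (h : G.Bd50 F w p q q' x y) : G.d w F + (G.pT F w).card + G.d w (G.Co F) = 6 := by
  have h1 := d_split76 (G := G) w F
  have h2 : (G.nb w).card = 6 := h.wl
  rw [h2] at h1
  exact h1

theorem pN (h : G.Bd50 F w p q q' x y) (hd : 2 ≤ G.d w F) : p ∈ G.N F := by
  obtain ⟨z, hz, hzx⟩ : ∃ z ∈ G.nb w ∩ F, z ≠ x := by
    by_contra hno
    push Not at hno
    have h1 : G.nb w ∩ F ⊆ {x} := fun z hz => mem_singleton.2 (hno z hz)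
    have h2 := card_le_card h1
    rw [card_singleton] at h2
    unfold d at hd
    omega
  obtain ⟨h1, h2⟩ := mem_inter.1 hz
  rcases LL_to76 h.ll h1 hzx with e | e
  · rw [e] at h2
    exact absurd h2 h.pF
  · exact mem_N76.2 ⟨h.pF, z, h2, G.sym _ _ e⟩

theorem pTp (h : G.Bd50 F w p q q' x y) (hd : 2 ≤ G.d w F) : p ∈ G.pT F w :=
  mem_inter.2 ⟨h.wp, h.pN hd⟩

/-- the partner is unique -/
theorem uniq (h : G.Bd50 F w p q q' x y) (hd : 2 ≤ G.d w F) {p2 r r' x2 y2 : V}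
    (h2 : G.Bd50 F p2 w r r' x2 y2) (hp2 : p2 ∈ G.N F) : p2 = p := by
  by_contra hne
  have h3 : ({p, p2} : Finset V) ⊆ G.pT F w := by
    intro z hz
    rw [mem_insert, mem_singleton] at hz
    rcases hz with rfl | rfl
    · exact h.pTp hd
    · exact mem_inter.2 ⟨h2.swap.wp, hp2⟩
  have h4 := card_le_card h3
  rw [card_pair (Ne.symm hne)] at h4
  have h5 := h.sum6
  have h6 : ({q, q'} : Finset V) = G.nb w ∩ G.Co F := by
    apply eq_of_subset_of_card_le
    · intro z hz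
      rw [mem_insert, mem_singleton] at hz
      rcases hz with rfl | rfl
      · exact mem_inter.2 ⟨h.wq, h.qC⟩
      · exact mem_inter.2 ⟨h.wq', h.qC'⟩
    · rw [card_pair h.qq]
      have : (G.nb w ∩ G.Co F).card = G.d w (G.Co F) := rfl
      omega
  have h7 : r ∈ ({q, q'} : Finset V) := by
    rw [h6]
    exact mem_inter.2 ⟨h2.pq, h2.qC⟩
  rw [mem_insert, mem_singleton] at h7
  have h8 : p2 ∈ G.nb q := by
    rcases h7 with rfl | rfl
    · exact G.sym _ _ h2.wq
    · refine Tw_nb5 ((stTwHL_5 G).symm _ _ h.tw) (G.sym _ _ h2.wq) ?_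
      rintro rfl
      exact tw_not_low11 ⟨_, h.tw⟩ h2.wl
  rcases h.all p2 h8 h2.wl with e | e
  · exact h2.ne e
  · exact hne e

/-- three vertices in `F` -/
theorem d3 (h : G.Bd50 F w p q q' x y) (hc : F.card = 3) (hd : G.d w F = 3) :
    x ∈ F ∧ y ∉ F ∧ G.nb p ∩ F = F.erase x ∧ G.d p F = 2 ∧ G.pT F w = {p} := by
  have h1 : F ⊆ G.nb w := by
    have h2 : G.nb w ∩ F = F := by
      apply eq_of_subset_of_card_le inter_subset_right
      rw [hc]
      exact hd.ge
    rw [← h2]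
    exact inter_subset_left
  have hpN := h.pN (by omega)
  have hxF : x ∈ F := by
    by_contra hxF
    -- all vertices of `F` are common neighbours
    have h2 : insert q (insert q' F) ⊆ ((G.nb w).erase p).erase x := by
      have hxq : ∀ z, z ∈ G.nb w → z ∈ G.nb p → z ∈ ((G.nb w).erase p).erase x := by
        intro z hz hz'
        refine mem_erase.2 ⟨?_, mem_erase.2 ⟨?_, hz⟩⟩
        · rintro rfl
          exact (LL_tb76 h.ll).1 hz'
        · rintro rfl
          exact G.irr _ hz'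
      intro z hz
      rcases mem_insert.1 hz with rfl | hz
      · exact hxq _ h.wq h.pq
      rcases mem_insert.1 hz with rfl | hz
      · exact hxq _ h.wq' h.pq'
      · have hzx : z ≠ x := fun e => hxF (e ▸ hz)
        rcases LL_to76 h.ll (h1 hz) hzx with e | e
        · exact absurd (e ▸ hz) h.pF
        · exact hxq _ (h1 hz) e
    have h3 := card_le_card h2
    have hqF : q' ∉ F := (mem_Co76.1 h.qC').1
    have hqF' : q ∉ insert q' F := by
      rw [mem_insert, not_or]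
      exact ⟨h.qq, (mem_Co76.1 h.qC).1⟩
    rw [card_insert_of_notMem hqF', card_insert_of_notMem hqF, hc,
      card_erase_of_mem (mem_erase.2 ⟨(LL_tb76 h.ll).2, LL_t76 h.ll⟩),
      card_erase_of_mem h.wp] at h3
    have h4 : (G.nb w).card = 6 := h.wl
    omega
  have hyF : y ∉ F := fun hy => (LL_ua76 h.ll).1 (h1 hy)
  have h5 : G.nb p ∩ F = F.erase x := by
    ext z
    rw [mem_inter, mem_erase]
    constructor
    · rintro ⟨a, b⟩
      exact ⟨fun e => (LL_tb76 h.ll).1 (e ▸ a), b⟩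
    · rintro ⟨a, b⟩
      refine ⟨?_, b⟩
      rcases LL_to76 h.ll (h1 b) a with e | e
      · exact absurd (e ▸ b) h.pF
      · exact e
  refine ⟨hxF, hyF, h5, ?_, ?_⟩
  · rw [d, h5, card_erase_of_mem hxF, hc]
  · symm
    apply eq_of_subset_of_card_le
    · exact singleton_subset_iff.2 (h.pTp (by omega))
    · rw [card_singleton]
      have h6 := h.sum6
      have h7 := h.two
      omega

theorem pT2 (h : G.Bd50 F w p q q' x y) (hd : 2 ≤ G.d w F) : (G.pT F w).card ≤ 2 := by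
  have h6 := h.sum6
  have h7 := h.two
  omega

end Bd50

/-- weights of the lows which are no costly ports -/
theorem thS_non50 {w : V} (hw : w ∈ G.N F) (hb : ¬ G.BadC (G.Co F) w) (hd : 2 ≤ G.d w F) :
    2 ≤ G.thS F w := by
  rw [thS, if_neg hb, theta_N6 hw, if_neg (by omega)]
  split_ifs <;> norm_num

theorem thS_four50 (hC : G.Crit) (h9 : 9 ≤ Fintype.card V) (hF : G.GoodK F) {w : V}
    (hw : w ∈ G.N F) (hd : 2 ≤ G.d w F) (hd' : G.d w (G.Co F) ≤ 1) : G.thS F w = 4 := by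
  have hb : ¬ G.BadC (G.Co F) w := by
    intro hb
    obtain ⟨p, q, q', x, y, h⟩ := bd50 hC h9 hF hb
    have := h.two
    omega
  rw [thS, if_neg hb, theta_N6 hw, if_neg (by omega), if_pos hd']

/-- `WS` from one or two lows -/
theorem ws_one50 (hP : 0 ≤ G.P5 F) {w : V} (hl : G.Low w) (h : 4 ≤ G.thS F w) : 4 ≤ G.WS F := by
  have h1 := ws_ge50 G F {w} (by
    intro z hz
    rw [mem_singleton.1 hz]
    exact hl)
  rw [sum_singleton] at h1
  linarith

theorem ws_two50 (hP : 0 ≤ G.P5 F) {w w' : V} (hl : G.Low w) (hl' : G.Low w') (hne : w ≠ w')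
    (h : 2 ≤ G.thS F w) (h' : 2 ≤ G.thS F w') : 4 ≤ G.WS F := by
  have h1 := ws_ge50 G F {w, w'} (by
    intro z hz
    rw [mem_insert, mem_singleton] at hz
    rcases hz with rfl | rfl <;> assumption)
  rw [sum_pair hne] at h1
  linarith

end CG

end Pool.Agent.Lib.MP_e95c01_co.N
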