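import Pool.Agent.Lib.MP_e95c01_co.Y.L3a_50

/-!
# Light leaves with three vertices: three hubs
-/

set_option autoImplicit false

namespace Pool.Agent.Lib.MP_e95c01_co.N

open Finset

variable {V : Type} [Fintype V] [DecidableEq V]

namespace CG

/-- three hubs, no twins in `N F` -/
structure HC50 (G : CG V) (F : Finset V) : Prop where
  cr : G.Crit
  n9 : 9 ≤ Fintype.card V
  gd : G.GoodK F
  s5 : G.S5 F
  hub : ∀ z ∈ F, G.Hub z
  nt : ∀ v ∈ G.N F, ¬ G.IsTw v

variable {G : CG V} {F : Finset V}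

namespace HC50

theorem d23 (h : G.HC50 F) : ∀ w ∈ G.N F, G.d w F = 2 ∨ G.d w F = 3 :=
  d23_28 (stBas_33 G G.Tw) h.s5 h.hub

theorem le2 (h : G.HC50 F) {w : V} (hw : w ∈ G.N F) : 2 ≤ G.d w F := by
  rcases h.d23 w hw with e | e <;> omega

theorem le3 (h : G.HC50 F) {w : V} (hw : w ∈ G.N F) : G.d w F ≤ 3 := by
  rcases h.d23 w hw with e | e <;> omega

theorem lowF (h : G.HC50 F) {z : V} (hz : z ∈ F) : ¬ G.Low z := (h.hub z hz).1

theorem sum6 {w : V} (hl : G.Low w) :
    G.d w F + (G.pT F w).card + G.d w (G.Co F) = 6 := by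
  have h1 := d_split76 (G := G) w F
  have h2 : (G.nb w).card = 6 := hl
  rw [h2] at h1
  exact h1

theorem out (h : G.HC50 F) {w : V} (hw : w ∈ G.N F) : 1 ≤ G.d w (G.Co F) :=
  (stBas_33 G G.Tw).out F h.s5 w hw

/-- every vertex of `N F` has a low neighbour in `N F` or is the third vertex of `HL` in `N F` -/
theorem cov (h : G.HC50 F) {y : V} (hy : y ∈ G.N F) :
    (∃ b ∈ G.N F, G.Low b ∧ y ∈ G.nb b) ∨ ∃ a ∈ G.N F, ∃ b ∈ G.N F, G.HL a b y := by
  obtain ⟨-, z, hz, hyz⟩ := mem_N76.1 hy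
  have hFU : ∀ b, b ∈ F ∪ G.N F → G.Low b → b ∈ G.N F := by
    intro b hb hbl
    rcases mem_union.1 hb with e | e
    · exact absurd hbl (h.lowF e)
    · exact e
  have d1 : ∀ a ∈ G.N F, ∀ z, G.nb a ∩ F = {z} → False := by
    intro a ha z hz
    have h1 := h.le2 ha
    rw [d, hz, card_singleton] at h1
    omega
  rcases h.s5.cov z hz y hy hyz with h1 | h1 | h1 | h1 | h1
  · obtain ⟨w, hw, hl, -, h2⟩ := h1
    exact Or.inl ⟨w, hFU w hw hl, hl, h2⟩
  · obtain ⟨v, hv, w, -, h2, -⟩ := h1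
    exfalso
    rcases mem_union.1 hv with e | e
    · exact (h.hub v e).2 ⟨w, h2⟩
    · exact h.nt v e ⟨w, h2⟩
  · obtain ⟨a, b, h2, -, -, h3⟩ := h1
    rcases h3 with ⟨-, h4⟩ | ⟨h3, h4⟩
    · exact absurd h2.2.1 (h.lowF h4)
    · exact Or.inr ⟨a, h3, b, h4, h2⟩
  · obtain ⟨a, b, h2, h3, -, h4⟩ := h1
    rcases h4 with ⟨-, h4⟩ | ⟨-, h4⟩ | ⟨h4, -, h5⟩
    · exact absurd h2.2.1 (h.lowF h4)
    · exact Or.inl ⟨b, h4, h2.2.1, h3⟩
    · exact (d1 a h4 z h5).elim
  · obtain ⟨a, b, h2, h4⟩ := h1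
    rcases h4 with ⟨h4, -⟩ | ⟨-, h4⟩ | ⟨h4, -, h5⟩
    · exact absurd h2.1 (h.lowF h4)
    · exact Or.inl ⟨b, hFU b h4 h2.2.1, h2.2.1, LL_u76 h2⟩
    · exact (d1 a h4 z h5).elim

theorem one (h : G.HC50 F) {z u v : V} (hz : z ∈ F) (hu : u ∈ G.N F) (hv : v ∈ G.N F)
    (huz : z ∉ G.nb u) (hvz : z ∉ G.nb v) : u = v :=
  one_miss28 (stBas_33 G G.Tw) h.s5 h.hub hz hu hv (fun e => huz (G.sym _ _ e))
    (fun e => hvz (G.sym _ _ e))

/-- upper bound for the values of the lows -/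
theorem ub (h : G.HC50 F) {w : V} (hw : w ∈ G.N F) (hl : G.Low w) :
    G.gam5 F w ≤ 4 * (G.d w F : ℤ) + 2 * ((G.pT F w).card : ℤ) - 6 := by
  classical
  have hFr := h.gd.1.1
  have a1 : G.flv F w ≤ 0 := by
    rw [flv_low16 hl]
    have b1 : G.s5 F w = 0 := by
      by_contra hne
      obtain ⟨v, hv⟩ := s5_type16 hne
      obtain ⟨-, -, -, -, ⟨q, q', h1, h2, -⟩, -⟩ := hv
      have h3 : q ∈ G.pX F w := by rw [h2]; exact mem_insert_self _ _
      exact (h.hub q (mem_inter.1 h3).2).2 ⟨q', h1⟩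
    have b2 : ¬ G.U3 F w := by
      rintro ⟨-, -, -, v, v', h1, h2⟩
      have h3 : v ∈ G.pT F w := by rw [h2]; exact mem_insert_self _ _
      exact h.nt v (mem_inter.1 h3).2 ⟨v', h1⟩
    rw [b1, if_neg b2]
    split_ifs <;> omega
  have a2 : 0 ≤ G.flv (G.Co F) w := by
    rw [flv_low16 hl]
    have b1 := (s5_nn16 G (G.Co F) w).1
    have b2 : ¬ G.T3 (G.Co F) w := by
      rintro ⟨-, -, -, Q, Q', r, r', x, h1, -, -, h4, -⟩
      rw [pT_co16 hFr] at h4
      have h3 : Q ∈ G.pT F w := by rw [h4]; exact mem_insert_self _ _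
      exact h.nt Q (mem_inter.1 h3).2 ⟨Q', h1⟩
    have b3 : ¬ G.HF (G.Co F) w := by
      rintro ⟨-, -, h1, a, b, -, -, -, h4⟩
      rw [pT_co16 hFr] at h4
      have h5 := sum6 (F := F) hl
      rw [h4, card_singleton] at h5
      have h6 : (G.pX (G.Co F) w).card = G.d w (G.Co F) := rfl
      have h7 := h.le2 hw
      omega
    rw [if_neg b2, if_neg b3]
    split_ifs <;> omega
  rw [gam_low16 hl]
  linarith

end HC50

/-- the values of two costly ports -/
structure Pr50 (G : CG V) (F : Finset V) (u v : V) : Prop where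
  hu : u ∈ G.N F
  hv : v ∈ G.N F
  bd : ∃ q q' x y, G.Bd50 F u v q q' x y

namespace Pr50

variable {u v : V}

theorem swap (h : G.Pr50 F u v) : G.Pr50 F v u := by
  obtain ⟨q, q', x, y, hb⟩ := h.bd
  exact ⟨h.hv, h.hu, q, q', y, x, hb.swap⟩

theorem ul (h : G.Pr50 F u v) : G.Low u := by
  obtain ⟨q, q', x, y, hb⟩ := h.bd
  exact hb.wl

theorem ub (h : G.Pr50 F u v) : G.BadC (G.Co F) u := by
  obtain ⟨q, q', x, y, hb⟩ := h.bd
  exact hb.wb

theorem ne (h : G.Pr50 F u v) : u ≠ v := by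
  obtain ⟨q, q', x, y, hb⟩ := h.bd
  exact hb.ne

theorem uv (h : G.Pr50 F u v) : v ∈ G.nb u := by
  obtain ⟨q, q', x, y, hb⟩ := h.bd
  exact hb.wp

theorem pT (h : G.Pr50 F u v) : v ∈ G.pT F u := mem_inter.2 ⟨h.uv, h.hv⟩

theorem pT2 (hc : G.HC50 F) (h : G.Pr50 F u v) : (G.pT F u).card ≤ 2 := by
  obtain ⟨q, q', x, y, hb⟩ := h.bd
  exact hb.pT2 (hc.le2 h.hu)

theorem pT1 (h : G.Pr50 F u v) : 1 ≤ (G.pT F u).card :=
  Nat.succ_le_iff.2 (card_pos.2 ⟨v, h.pT⟩)

theorem d3 (hc : G.HC50 F) (h : G.Pr50 F u v) (hd : G.d u F = 3) :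
    G.d v F = 2 ∧ G.pT F u = {v} := by
  obtain ⟨q, q', x, y, hb⟩ := h.bd
  obtain ⟨-, -, -, h1, h2⟩ := hb.d3 hc.s5.c3 hd
  exact ⟨h1, h2⟩

theorem uniq (hc : G.HC50 F) (h : G.Pr50 F u v) {v2 : V} (h2 : G.Pr50 F v2 u) : v2 = v := by
  obtain ⟨q, q', x, y, hb⟩ := h.bd
  obtain ⟨r, r', x2, y2, hb2⟩ := h2.bd
  exact hb.uniq (hc.le2 h.hu) hb2 h2.hu

/-- lower bounds for the values -/
theorem lb (hc : G.HC50 F) (h : G.Pr50 F u v) : 2 * (G.d u F : ℤ) ≤ G.gam5 F u ∧
    (G.d u F = 2 → 2 + 2 * ((G.pT F u).card : ℤ) ≤ G.gam5 F u) := by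
  have hB := st5B_16 G
  have hnp : ¬ G.PairSet (G.pT F u) := by
    rintro ⟨a, b, h1, h2⟩
    have h3 : a ∈ G.pT F u := by rw [h2]; exact mem_insert_self _ _
    exact hc.nt a (mem_inter.1 h3).2 ⟨b, h1⟩
  have h1 := h.pT1
  have h1' : (1 : ℤ) ≤ ((G.pT F u).card : ℤ) := by exact_mod_cast h1
  rcases hc.d23 u h.hu with e | e
  · have h2 := (hB.low2 F hc.s5 u h.hu h.ul e).2.1 hnp
    refine ⟨?_, fun _ => h2⟩
    rw [e]
    push_cast
    linarith
  · have h2 := (hB.low3 F hc.s5 u h.hu h.ul e).2.1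
    refine ⟨?_, fun h3 => by omega⟩
    rw [e]
    push_cast
    linarith

/-- two neighbours in `F`: the other neighbours in `N F` are common -/
theorem comm2 (hc : G.HC50 F) (h : G.Pr50 F u v) (hu : G.d u F = 2) (hv : G.d v F = 2) {o : V}
    (ho : o ∈ G.N F) (hou : o ∈ G.nb u) (hov : o ≠ v) : o ∈ G.nb v := by
  obtain ⟨q, q', x, y, hb⟩ := h.bd
  by_cases hox : o = x
  · exfalso
    have h1 : G.nb u ∩ F ⊆ G.nb v ∩ F := by
      intro z hz
      obtain ⟨a, b⟩ := mem_inter.1 hz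
      have hzx : z ≠ x := by
        rintro rfl
        rw [← hox] at b
        exact (mem_N76.1 ho).1 b
      rcases LL_to76 hb.ll a hzx with e | e
      · exact absurd (e ▸ b) hb.pF
      · exact mem_inter.2 ⟨e, b⟩
    have h2 : G.nb u ∩ F = G.nb v ∩ F := by
      apply eq_of_subset_of_card_le h1
      have a1 : (G.nb u ∩ F).card = 2 := hu
      have a2 : (G.nb v ∩ F).card = 2 := hv
      omega
    obtain ⟨z, hz, hzu⟩ := miss28 hc.s5 hu
    have hzv : z ∉ G.nb v := by
      intro h3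
      have h4 : z ∈ G.nb u ∩ F := by rw [h2]; exact mem_inter.2 ⟨h3, hz⟩
      exact hzu (mem_inter.1 h4).1
    exact h.ne (hc.one hz h.hu h.hv hzu hzv)
  · rcases LL_to76 hb.ll hou hox with e | e
    · exact absurd e hov
    · exact e

/-- a third vertex adjacent to the pair -/
theorem ext (hc : G.HC50 F) (h : G.Pr50 F u v) {o : V} (ho : o ∈ G.N F) (hou : o ≠ u)
    (hov : o ≠ v) (had : o ∈ G.nb u ∨ o ∈ G.nb v) :
    2 * ((G.d u F : ℤ) + (G.d v F : ℤ)) + 4 ≤ G.gam5 F u + G.gam5 F v := by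
  classical
  -- one of the cases
  have key : ∀ {u v : V}, G.Pr50 F u v → o ≠ u → o ≠ v → G.d u F = 3 →
      (o ∈ G.nb u ∨ o ∈ G.nb v) →
      2 * ((G.d u F : ℤ) + (G.d v F : ℤ)) + 4 ≤ G.gam5 F u + G.gam5 F v := by
    intro u v h hou hov hd3 had
    obtain ⟨hd2, hpT⟩ := h.d3 hc hd3
    have hou' : o ∉ G.nb u := by
      intro h1
      have h2 : o ∈ G.pT F u := mem_inter.2 ⟨h1, ho⟩
      rw [hpT, mem_singleton] at h2
      exact hov h2
    have hov' : o ∈ G.nb v := had.resolve_left hou'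
    obtain ⟨q, q', x, y, hb⟩ := h.bd
    have hoy : o = y := by
      by_contra hne
      rcases LL_from76 hb.ll hov' hne with e | e
      · exact hou e
      · exact hou' e
    have hyN : y ∈ G.N F := hoy ▸ ho
    have hpv : 2 ≤ (G.pT F v).card := by
      have h1 : ({u, o} : Finset V) ⊆ G.pT F v := by
        intro z hz
        rw [mem_insert, mem_singleton] at hz
        rcases hz with rfl | rfl
        · exact h.swap.pT
        · exact mem_inter.2 ⟨hov', ho⟩
      have h2 := card_le_card h1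
      rwa [card_pair (Ne.symm hou)] at h2
    have hgv := (h.swap.lb hc).2 hd2
    have hpv' : (2 : ℤ) ≤ ((G.pT F v).card : ℤ) := by exact_mod_cast hpv
    -- the flags of `u`
    have hFr := hc.gd.1.1
    have hxF : x ∈ F := (hb.d3 hc.s5.c3 hd3).1
    have hpX : G.pX (G.Co F) v = G.pX (G.Co F) u := by
      ext z
      rw [pX, pX, mem_inter, mem_inter]
      constructor
      · rintro ⟨a, b⟩
        refine ⟨?_, b⟩
        have hzy : z ≠ y := by
          rintro rfl
          exact (mem_Co76.1 b).2 hyN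
        rcases LL_from76 hb.ll a hzy with e | e
        · exact absurd (e ▸ b) (fun h1 => (mem_Co76.1 h1).2 h.hu)
        · exact e
      · rintro ⟨a, b⟩
        refine ⟨?_, b⟩
        have hzx : z ≠ x := by
          rintro rfl
          exact (mem_Co76.1 b).1 hxF
        rcases LL_to76 hb.ll a hzx with e | e
        · exact absurd (e ▸ b) (fun h1 => (mem_Co76.1 h1).2 h.hv)
        · exact e
    have hS0 : ∀ v', G.S0 (G.Co F) u v' → v' = v := by
      intro v' h1
      have h2 := h1.2.2.2.1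
      rw [pT_co16 hFr, hpT] at h2
      exact (singleton_injective h2).symm
    have hs5 : G.s5 (G.Co F) u = 0 := by
      unfold s5
      rw [if_neg, if_neg]
      · rintro ⟨v', h1, h2⟩
        rw [hS0 v' h1, pT_co16 hFr] at h2
        have h3 : o ∈ G.pT F v := mem_inter.2 ⟨hov', ho⟩
        rw [h2, mem_singleton] at h3
        exact hou h3
      · rintro ⟨v', h1, h2⟩
        rw [hS0 v' h1] at h2
        exact h2 ⟨⟨x, y, hb.ll⟩, hpX⟩
    have hco : G.flv (G.Co F) u ≤ 0 := by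
      rw [flv_low16 h.ul, hs5]
      have b2 : ¬ G.U3 (G.Co F) u := by
        intro h1
        have h2 := (U3Co16 hFr h1).1
        have h3 : (G.pX F u).card = G.d u F := rfl
        omega
      rw [if_neg b2]
      split_ifs <;> omega
    have hF0 : 0 ≤ G.flv F u := by
      rw [flv_low16 h.ul]
      have b1 := (s5_nn16 G F u).1
      have b2 : ¬ G.T3 F u := by
        intro h1
        have h2 := (T3_type16 h1).2.1
        have h3 : (G.pX F u).card = G.d u F := rfl
        omega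
      have b3 : ¬ G.HF F u := by
        intro h1
        have h2 := (HF_type16 h1).2.1
        have h3 : (G.pX F u).card = G.d u F := rfl
        omega
      rw [if_neg b2, if_neg b3]
      split_ifs <;> omega
    have hgu := gam_low16 (F := F) h.ul
    rw [hpT, card_singleton, hd3] at hgu
    rw [hd3, hd2]
    push_cast at hgu ⊢
    linarith
  rcases hc.d23 u h.hu with eu | eu
  · rcases hc.d23 v h.hv with ev | ev
    · -- (2, 2)
      have hou' : o ∈ G.nb u := had.elim (fun e => e)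
        (fun e => h.swap.comm2 hc ev eu ho e hou)
      have hov' : o ∈ G.nb v := h.comm2 hc eu ev ho hou' hov
      have h1 : ({v, o} : Finset V) ⊆ G.pT F u := by
        intro z hz
        rw [mem_insert, mem_singleton] at hz
        rcases hz with rfl | rfl
        · exact h.pT
        · exact mem_inter.2 ⟨hou', ho⟩
      have h2 : ({u, o} : Finset V) ⊆ G.pT F v := by
        intro z hz
        rw [mem_insert, mem_singleton] at hz
        rcases hz with rfl | rfl
        · exact h.swap.pT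
        · exact mem_inter.2 ⟨hov', ho⟩
      have h3 := card_le_card h1
      have h4 := card_le_card h2
      rw [card_pair (Ne.symm hov)] at h3
      rw [card_pair (Ne.symm hou)] at h4
      have h5 := (h.lb hc).2 eu
      have h6 := (h.swap.lb hc).2 ev
      have h7 : (2 : ℤ) ≤ ((G.pT F u).card : ℤ) := by exact_mod_cast h3
      have h8 : (2 : ℤ) ≤ ((G.pT F v).card : ℤ) := by exact_mod_cast h4
      rw [eu, ev]
      push_cast
      linarith
    · have := key h.swap hov hou ev had.symm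
      linarith
  · exact key h hou hov eu had

/-- at most one third vertex is adjacent to the pair -/
theorem ext1 (hc : G.HC50 F) (h : G.Pr50 F u v) {o o' : V} (ho : o ∈ G.N F) (ho' : o' ∈ G.N F)
    (hou : o ≠ u) (hov : o ≠ v) (hou' : o' ≠ u) (hov' : o' ≠ v)
    (had : o ∈ G.nb u ∨ o ∈ G.nb v) (had' : o' ∈ G.nb u ∨ o' ∈ G.nb v) : o = o' := by
  by_contra hne
  have key : ∀ {u v : V}, G.Pr50 F u v → o ≠ u → o' ≠ u → o ∈ G.nb v → o' ∈ G.nb v → False := by
    intro u v h h1 h1' h2 h2'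
    have h3 : ({u, o, o'} : Finset V) ⊆ G.pT F v := by
      intro z hz
      simp only [mem_insert, mem_singleton] at hz
      rcases hz with rfl | rfl | rfl
      · exact h.swap.pT
      · exact mem_inter.2 ⟨h2, ho⟩
      · exact mem_inter.2 ⟨h2', ho'⟩
    have h4 := card_le_card h3
    have h5 : ({u, o, o'} : Finset V).card = 3 := by
      rw [card_eq_three]
      exact ⟨u, o, o', Ne.symm h1, Ne.symm h1', hne, rfl⟩
    have h6 := h.swap.pT2 hc
    omega
  have no3 : ∀ {u v o : V}, G.Pr50 F u v → G.d u F = 3 → o ∈ G.N F → o ≠ v → o ∉ G.nb u := by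
    intro u v o h h1 h2 h3 h4
    have h5 : o ∈ G.pT F u := mem_inter.2 ⟨h4, h2⟩
    rw [(h.d3 hc h1).2, mem_singleton] at h5
    exact h3 h5
  rcases hc.d23 u h.hu with eu | eu
  · rcases hc.d23 v h.hv with ev | ev
    · have a1 : o ∈ G.nb u := had.elim (fun e => e) (fun e => h.swap.comm2 hc ev eu ho e hou)
      have a2 : o' ∈ G.nb u := had'.elim (fun e => e) (fun e => h.swap.comm2 hc ev eu ho' e hou')
      exact key h.swap hov hov' a1 a2
    · exact key h.swap hov hov' (had.resolve_right (no3 h.swap ev ho hou))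
        (had'.resolve_right (no3 h.swap ev ho' hou'))
  · exact key h hou hou' (had.resolve_left (no3 h eu ho hov))
      (had'.resolve_left (no3 h eu ho' hov'))

/-- no `HL` at the pair -/
theorem noHL (hc : G.HC50 F) (h : G.Pr50 F u v) {a w : V} (ha : a ∈ G.N F) (hw : w ∈ G.N F)
    (hL : G.HL a u w) : False := by
  have hal := HL_not_low76 hL
  have hav : v ≠ a := by
    rintro rfl
    exact hal h.swap.ul
  have h1 : v ∈ G.nb a := HL_sub76 hL h.uv hav
  have hau : a ∈ G.nb u := G.sym _ _ (HL_b76 hL)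
  have hav' : a ∈ G.nb v := G.sym _ _ h1
  have hne : a ≠ u := by
    rintro rfl
    exact hal h.ul
  have hd : G.d u F = 2 := by
    rcases hc.d23 u h.hu with e | e
    · exact e
    · exfalso
      have h5 : a ∈ G.pT F u := mem_inter.2 ⟨hau, ha⟩
      rw [(h.d3 hc e).2, mem_singleton] at h5
      exact hav h5.symm
  obtain ⟨z, hz, hzu⟩ := miss28 hc.s5 hd
  have hza : z ∉ G.nb a := by
    intro h2
    have h3 : z ≠ w := by
      rintro rfl
      exact (mem_N76.1 hw).1 hz
    rcases HL_sup76 hL h2 h3 with e | e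
    · rw [e] at hz
      exact (mem_N76.1 h.hu).1 hz
    · exact hzu e
  exact hne (hc.one hz ha h.hu hza hzu)

end Pr50

end CG

end Pool.Agent.Lib.MP_e95c01_co.N
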