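import Pool.Agent.Lib.MP_e95c01_co.Y.L3b_50

/-!
# Light leaves with three vertices: three hubs, the count
-/

set_option autoImplicit false

namespace Pool.Agent.Lib.MP_e95c01_co.N

open Finset

variable {V : Type} [Fintype V] [DecidableEq V]

namespace CG

variable {G : CG V} {F : Finset V}

/-- the six vertices of `N F`: two costly pairs and two other vertices -/
structure Six50 (G : CG V) (F : Finset V) (u v u2 v2 a b : V) : Prop where
  hc : G.HC50 F
  p1 : G.Pr50 F u v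
  p2 : G.Pr50 F u2 v2
  ha : a ∈ G.N F
  hb : b ∈ G.N F
  ab : a ≠ b
  na : ¬ (a = u ∨ a = v ∨ a = u2 ∨ a = v2)
  nb : ¬ (b = u ∨ b = v ∨ b = u2 ∨ b = v2)
  all : ∀ z ∈ G.N F, z = u ∨ z = v ∨ z = u2 ∨ z = v2 ∨ z = a ∨ z = b
  sum : ∑ z ∈ G.N F, G.gam5 F z = G.gam5 F u + G.gam5 F v + G.gam5 F u2 + G.gam5 F v2 +
    G.gam5 F a + G.gam5 F b
  ds : (15 : ℤ) ≤ (G.d u F : ℤ) + G.d v F + G.d u2 F + G.d v2 F + G.d a F + G.d b F

namespace Six50

variable {u v u2 v2 a b : V}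

theorem swp (h : G.Six50 F u v u2 v2 a b) : G.Six50 F u2 v2 u v a b where
  hc := h.hc
  p1 := h.p2
  p2 := h.p1
  ha := h.ha
  hb := h.hb
  ab := h.ab
  na := fun e => h.na (by tauto)
  nb := fun e => h.nb (by tauto)
  all := fun z hz => by have := h.all z hz; tauto
  sum := by rw [h.sum]; ring
  ds := by have := h.ds; linarith

theorem swab (h : G.Six50 F u v u2 v2 a b) : G.Six50 F u v u2 v2 b a where
  hc := h.hc
  p1 := h.p1
  p2 := h.p2
  ha := h.hb
  hb := h.ha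
  ab := h.ab.symm
  na := h.nb
  nb := h.na
  all := fun z hz => by have := h.all z hz; tauto
  sum := by rw [h.sum]; ring
  ds := by have := h.ds; linarith

/-- a low vertex and a hub -/
theorem caseN (h : G.Six50 F u v u2 v2 a b) (hal : G.Low a) (hab : ¬ G.BadC (G.Co F) a)
    (hbl : ¬ G.Low b) : 26 ≤ ∑ z ∈ G.N F, G.gam5 F z := by
  classical
  have hc := h.hc
  have hB := st5B_16 G
  have hbh : G.Hub b := ⟨hbl, hc.nt b h.hb⟩
  have gb : G.gam5 F b = 0 := hB.hub F hc.s5 b h.hb hbh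
  have l1 := (h.p1.lb hc).1
  have l2 := (h.p1.swap.lb hc).1
  have l3 := (h.p2.lb hc).1
  have l4 := (h.p2.swap.lb hc).1
  have hdb := hc.le3 h.hb
  have hbad : ∀ z ∈ G.N F, G.Low z → z ≠ a → ∃ z', G.Pr50 F z z' := by
    intro z hz hzl hza
    rcases h.all z hz with rfl | rfl | rfl | rfl | rfl | rfl
    · exact ⟨_, h.p1⟩
    · exact ⟨_, h.p1.swap⟩
    · exact ⟨_, h.p2⟩
    · exact ⟨_, h.p2.swap⟩
    · exact absurd rfl hza
    · exact absurd hzl hbl
  -- the low vertex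
  have la : 2 * (G.d a F : ℤ) ≤ G.gam5 F a := by
    have hne : (G.pT F a).Nonempty := by
      rcases hc.cov h.ha with ⟨z, hz, -, hz2⟩ | ⟨x, hx, y, hy, hL⟩
      · exact ⟨z, mem_inter.2 ⟨G.sym _ _ hz2, hz⟩⟩
      · exact ⟨x, mem_inter.2 ⟨G.sym _ _ (HL_t76 hL), hx⟩⟩
    have h1 : (1 : ℤ) ≤ ((G.pT F a).card : ℤ) := by
      exact_mod_cast Nat.succ_le_iff.2 (card_pos.2 hne)
    have hnp : ¬ G.PairSet (G.pT F a) := by
      rintro ⟨x, y, h1, h2⟩
      have h3 : x ∈ G.pT F a := by rw [h2]; exact mem_insert_self _ _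
      exact hc.nt x (mem_inter.1 h3).2 ⟨y, h1⟩
    rcases hc.d23 a h.ha with e | e
    · have h2 := (hB.low2 F hc.s5 a h.ha hal e).2.1 hnp
      rw [e]
      push_cast
      linarith
    · have h2 := (hB.low3 F hc.s5 a h.ha hal e).2.1
      rw [e]
      push_cast
      linarith
  -- a costly port with two neighbours in `N F`
  have hex : ∃ z z', G.Pr50 F z z' ∧ 2 ≤ (G.pT F z).card := by
    by_contra hno
    push Not at hno
    have h1 : ∀ z z', G.Pr50 F z z' → G.pT F z = {z'} := by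
      intro z z' hz
      symm
      apply eq_of_subset_of_card_le (singleton_subset_iff.2 hz.pT)
      rw [card_singleton]
      have := hno z z' hz
      omega
    rcases hc.cov h.ha with ⟨z, hz, hzl, hz2⟩ | ⟨x, hx, y, hy, hL⟩
    · have hza : z ≠ a := by
        rintro rfl
        exact G.irr _ hz2
      obtain ⟨z', hz'⟩ := hbad z hz hzl hza
      have h2 : a ∈ G.pT F z := mem_inter.2 ⟨hz2, h.ha⟩
      rw [h1 z z' hz', mem_singleton] at h2
      exact hab (h2 ▸ hz'.swap.ub)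
    · have hya : y ≠ a := (HL_bt76 hL).2.symm
      obtain ⟨y', hy'⟩ := hbad y hy hL.2.1 hya
      have h2 : x ∈ G.pT F y := mem_inter.2 ⟨G.sym _ _ (HL_b76 hL), hx⟩
      rw [h1 y y' hy', mem_singleton] at h2
      exact HL_not_low76 hL (h2 ▸ hy'.swap.ul)
  obtain ⟨z, z', hz, hz2⟩ := hex
  have hz3 : (2 : ℤ) ≤ ((G.pT F z).card : ℤ) := by exact_mod_cast hz2
  have hzd : G.d z F = 2 := by
    rcases hc.d23 z hz.hu with e | e
    · exact e
    · rw [(hz.d3 hc e).2, card_singleton] at hz2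
      omega
  have hz4 := (hz.lb hc).2 hzd
  have hz5 : 2 * (G.d z F : ℤ) + 2 ≤ G.gam5 F z := by
    rw [hzd]
    push_cast
    linarith
  rw [h.sum, gb]
  have hds := h.ds
  have hdb' : (G.d b F : ℤ) ≤ 3 := by exact_mod_cast hdb
  have hzb : z = u ∨ z = v ∨ z = u2 ∨ z = v2 := by
    rcases h.all z hz.hu with e | e | e | e | e | e
    · exact Or.inl e
    · exact Or.inr (Or.inl e)
    · exact Or.inr (Or.inr (Or.inl e))
    · exact Or.inr (Or.inr (Or.inr e))
    · exact absurd (e ▸ hz.ub) hab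
    · exact absurd (e ▸ hz.ul) hbl
  rcases hzb with rfl | rfl | rfl | rfl <;> linarith

/-- two hubs: the first pair has a hub as a neighbour -/
theorem adj (h : G.Six50 F u v u2 v2 a b) (hal : ¬ G.Low a) (hbl : ¬ G.Low b) :
    ∃ o, (o = a ∨ o = b) ∧ (o ∈ G.nb u ∨ o ∈ G.nb v) := by
  classical
  by_contra hno
  push Not at hno
  have hc := h.hc
  -- low vertices of `N F` adjacent to a hub
  have hlow : ∀ o, (o = a ∨ o = b) → ∀ z ∈ G.N F, G.Low z → o ∈ G.nb z → z = u2 ∨ z = v2 := by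
    intro o ho z hz hzl hoz
    rcases h.all z hz with rfl | rfl | rfl | rfl | rfl | rfl
    · exact absurd hoz (hno o ho).1
    · exact absurd hoz (hno o ho).2
    · exact Or.inl rfl
    · exact Or.inr rfl
    · exact absurd hzl hal
    · exact absurd hzl hbl
  have hnl : ∀ o, (o = a ∨ o = b) → ¬ G.Low o := by
    rintro o (rfl | rfl) <;> assumption
  have hoN : ∀ o, (o = a ∨ o = b) → o ∈ G.N F := by
    rintro o (rfl | rfl)
    exacts [h.ha, h.hb]
  have hnonlow : ∀ z ∈ G.N F, ¬ G.Low z → z = a ∨ z = b := by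
    intro z hz hzl
    rcases h.all z hz with rfl | rfl | rfl | rfl | rfl | rfl
    · exact absurd h.p1.ul hzl
    · exact absurd h.p1.swap.ul hzl
    · exact absurd h.p2.ul hzl
    · exact absurd h.p2.swap.ul hzl
    · exact Or.inl rfl
    · exact Or.inr rfl
  have hn2 : ∀ o, (o = a ∨ o = b) → o ≠ u2 ∧ o ≠ v2 := by
    rintro o (rfl | rfl)
    · exact ⟨fun e => h.na (by tauto), fun e => h.na (by tauto)⟩
    · exact ⟨fun e => h.nb (by tauto), fun e => h.nb (by tauto)⟩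
  -- a hub adjacent to the second pair
  have step1 : ∃ o, (o = a ∨ o = b) ∧ (o ∈ G.nb u2 ∨ o ∈ G.nb v2) := by
    rcases hc.cov h.ha with ⟨z, hz, hzl, hz2⟩ | ⟨x, hx, y, hy, hL⟩
    · refine ⟨a, Or.inl rfl, ?_⟩
      rcases hlow a (Or.inl rfl) z hz hzl hz2 with rfl | rfl
      · exact Or.inl hz2
      · exact Or.inr hz2
    · have hxo := hnonlow x hx (HL_not_low76 hL)
      refine ⟨x, hxo, ?_⟩
      have hxy : x ∈ G.nb y := G.sym _ _ (HL_b76 hL)
      rcases hlow x hxo y hy hL.2.1 hxy with rfl | rfl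
      · exact Or.inl hxy
      · exact Or.inr hxy
  obtain ⟨o, ho, hoa⟩ := step1
  obtain ⟨o', ho', hne⟩ : ∃ o', (o' = a ∨ o' = b) ∧ o' ≠ o := by
    rcases ho with rfl | rfl
    · exact ⟨b, Or.inr rfl, h.ab.symm⟩
    · exact ⟨a, Or.inl rfl, h.ab⟩
  rcases hc.cov (hoN o' ho') with ⟨z, hz, hzl, hz2⟩ | ⟨x, hx, y, hy, hL⟩
  · have h1 : o' ∈ G.nb u2 ∨ o' ∈ G.nb v2 := by
      rcases hlow o' ho' z hz hzl hz2 with rfl | rfl
      · exact Or.inl hz2
      · exact Or.inr hz2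
    exact hne (h.p2.ext1 hc (hoN o' ho') (hoN o ho) (hn2 o' ho').1 (hn2 o' ho').2
      (hn2 o ho).1 (hn2 o ho).2 h1 hoa)
  · have hxo := hnonlow x hx (HL_not_low76 hL)
    have hxy : x ∈ G.nb y := G.sym _ _ (HL_b76 hL)
    rcases hlow x hxo y hy hL.2.1 hxy with rfl | rfl
    · exact h.p2.noHL hc hx (hoN o' ho') hL
    · exact h.p2.swap.noHL hc hx (hoN o' ho') hL

/-- two hubs -/
theorem caseH (h : G.Six50 F u v u2 v2 a b) (hal : ¬ G.Low a) (hbl : ¬ G.Low b) :
    26 ≤ ∑ z ∈ G.N F, G.gam5 F z := by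
  have hc := h.hc
  have hB := st5B_16 G
  have ga : G.gam5 F a = 0 := hB.hub F hc.s5 a h.ha ⟨hal, hc.nt a h.ha⟩
  have gb : G.gam5 F b = 0 := hB.hub F hc.s5 b h.hb ⟨hbl, hc.nt b h.hb⟩
  have ext : ∀ {u v u2 v2 : V}, G.Six50 F u v u2 v2 a b →
      2 * ((G.d u F : ℤ) + (G.d v F : ℤ)) + 4 ≤ G.gam5 F u + G.gam5 F v := by
    intro u v u2 v2 h
    obtain ⟨o, ho, hoa⟩ := h.adj hal hbl
    rcases ho with rfl | rfl
    · exact h.p1.ext hc h.ha (fun e => h.na (by tauto)) (fun e => h.na (by tauto)) hoa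
    · exact h.p1.ext hc h.hb (fun e => h.nb (by tauto)) (fun e => h.nb (by tauto)) hoa
  have h1 := ext h
  have h2 := ext h.swp
  have h3 := h.ds
  have h4 : (G.d a F : ℤ) ≤ 3 := by exact_mod_cast hc.le3 h.ha
  have h5 : (G.d b F : ℤ) ≤ 3 := by exact_mod_cast hc.le3 h.hb
  rw [h.sum, ga, gb]
  linarith

end Six50

namespace HC50

/-- the vertices of `F` have at least 15 neighbours in `N F`, with multiplicities -/
theorem dsum (hc : G.HC50 F) : (15 : ℤ) ≤ ∑ w ∈ G.N F, (G.d w F : ℤ) := by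
  classical
  have h1 := sum_card_bipartiteAbove_eq_sum_card_bipartiteBelow (s := G.N F) (t := F)
    (fun w z => z ∈ G.nb w)
  have h2 : ∀ w ∈ G.N F, (F.bipartiteAbove (fun w z => z ∈ G.nb w) w).card = G.d w F := by
    intro w _
    rw [d]
    congr 1
    ext z
    rw [mem_bipartiteAbove, mem_inter, and_comm]
  have h3 : ∀ z ∈ F, 5 ≤ ((G.N F).bipartiteBelow (fun w z => z ∈ G.nb w) z).card := by
    intro z hz
    refine le_trans ((stBas_33 G G.Tw).miss F hc.s5 z hz (hc.lowF hz)) (card_le_card ?_)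
    intro w hw
    obtain ⟨a, b⟩ := mem_inter.1 hw
    rw [mem_bipartiteBelow]
    exact ⟨b, G.sym _ _ a⟩
  rw [sum_congr rfl h2] at h1
  have h4 : ∑ z ∈ F, 5 ≤ ∑ z ∈ F, ((G.N F).bipartiteBelow (fun w z => z ∈ G.nb w) z).card :=
    sum_le_sum h3
  rw [sum_const, hc.s5.c3, smul_eq_mul, ← h1] at h4
  have h5 : 15 ≤ ∑ w ∈ G.N F, G.d w F := by omega
  exact_mod_cast h5

theorem pair (hc : G.HC50 F) {w : V} (hw : w ∈ G.N F) (hb : G.BadC (G.Co F) w) :
    ∃ p, G.Pr50 F w p := by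
  obtain ⟨p, q, q', x, y, h⟩ := bd50 hc.cr hc.n9 hc.gd hb
  exact ⟨p, hw, h.pN (hc.le2 hw), q, q', x, y, h⟩

/-- three hubs, no twins -/
theorem main (hc : G.HC50 F) : 4 ≤ G.WS F := by
  classical
  have hB := st5B_16 G
  have hP := (st5F_16 G).P F hc.gd.1 hc.s5.c3
  have hl0 : G.l F = 0 := by
    rw [l, card_eq_zero, filter_eq_empty_iff]
    intro z hz hl
    exact hc.lowF hz hl
  rw [hl0] at hP
  push_cast at hP
  have h24 : 24 ≤ ∑ w ∈ G.N F, G.gam5 F w :=
    st5HHH_28 G (stBas_33 G G.Tw) (st11Cnt_30 (G := G) (q := G.Tw)) hB F hc.s5 hc.hub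
  have hP0 : 0 ≤ G.P5 F := by linarith
  have h6 : (G.N F).card = 6 := hc.gd.1.1.2.1
  have hws : 26 ≤ ∑ w ∈ G.N F, G.gam5 F w → 4 ≤ G.WS F := by
    intro h
    have h1 := ws_ge50 G F ∅ (by simp)
    rw [sum_empty] at h1
    linarith
  by_cases hNB : ∃ a ∈ G.N F, ∃ b ∈ G.N F, a ≠ b ∧ G.Low a ∧ G.Low b ∧
      ¬ G.BadC (G.Co F) a ∧ ¬ G.BadC (G.Co F) b
  · obtain ⟨a, ha, b, hb, hne, hal, hbl, hab, hbb⟩ := hNB
    exact ws_two50 hP0 hal hbl hne (thS_non50 ha hab (hc.le2 ha)) (thS_non50 hb hbb (hc.le2 hb))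
  have hNB' : ∀ a ∈ G.N F, ∀ b ∈ G.N F, G.Low a → G.Low b → ¬ G.BadC (G.Co F) a →
      ¬ G.BadC (G.Co F) b → a = b := by
    intro a ha b hb hal hbl hab hbb
    by_contra hne
    exact hNB ⟨a, ha, b, hb, hne, hal, hbl, hab, hbb⟩
  have hhub : ∀ w ∈ G.N F, ¬ G.Low w → G.gam5 F w = 0 := fun w hw hl =>
    hB.hub F hc.s5 w hw ⟨hl, hc.nt w hw⟩
  -- value of a low which is no costly port
  have hval : ∀ w ∈ G.N F, G.Low w → G.gam5 F w ≤ 10 ∧
      (2 ≤ G.d w (G.Co F) → G.gam5 F w ≤ 8) := by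
    intro w hw hl
    have h1 := hc.ub hw hl
    have h2 := sum6 (F := F) hl
    have h3 := hc.le3 hw
    have h4 := hc.out hw
    constructor
    · have : (2 * (G.d w F : ℤ) + 2 * ((G.d w F : ℤ) + ((G.pT F w).card : ℤ))) ≤ 16 := by
        have a1 : (G.d w F : ℤ) ≤ 3 := by exact_mod_cast h3
        have a2 : (G.d w F : ℤ) + ((G.pT F w).card : ℤ) ≤ 5 := by
          have : G.d w F + (G.pT F w).card ≤ 5 := by omega
          exact_mod_cast this
        linarith
      linarith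
    · intro h5
      have : (2 * (G.d w F : ℤ) + 2 * ((G.d w F : ℤ) + ((G.pT F w).card : ℤ))) ≤ 14 := by
        have a1 : (G.d w F : ℤ) ≤ 3 := by exact_mod_cast h3
        have a2 : (G.d w F : ℤ) + ((G.pT F w).card : ℤ) ≤ 4 := by
          have : G.d w F + (G.pT F w).card ≤ 4 := by omega
          exact_mod_cast this
        linarith
      linarith
  by_cases hb1 : ∃ u ∈ G.N F, G.BadC (G.Co F) u
  swap
  · -- no costly port
    exfalso
    push Not at hb1
    have h1 : ∑ w ∈ G.N F, G.gam5 F w ≤ 10 := by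
      by_cases hl : ∃ n ∈ G.N F, G.Low n
      · obtain ⟨n, hn, hnl⟩ := hl
        rw [sum_eq_single_of_mem n hn]
        · exact (hval n hn hnl).1
        · intro w hw hne
          apply hhub w hw
          intro hwl
          exact hne (hNB' w hw n hn hwl hnl (hb1 w hw) (hb1 n hn))
      · push Not at hl
        rw [sum_eq_zero fun w hw => hhub w hw (hl w hw)]
        norm_num
    linarith
  obtain ⟨u, hu, hub⟩ := hb1
  obtain ⟨v, h1⟩ := hc.pair hu hub
  have hv := h1.hv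
  have huv := h1.ne
  set S := ((G.N F).erase u).erase v with hS
  have hvS : v ∈ (G.N F).erase u := mem_erase.2 ⟨huv.symm, hv⟩
  have hSm : ∀ z, z ∈ S ↔ z ≠ v ∧ z ≠ u ∧ z ∈ G.N F := by
    intro z
    rw [hS, mem_erase, mem_erase]
  have hsumS : ∀ f : V → ℤ, ∑ z ∈ G.N F, f z = f u + f v + ∑ z ∈ S, f z := by
    intro f
    rw [← add_sum_erase _ _ hu, ← add_sum_erase _ _ hvS]
    ring
  by_cases hb2 : ∃ u2 ∈ S, G.BadC (G.Co F) u2
  swap
  · -- one costly pair
    push Not at hb2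
    have hcost : G.gam5 F u + G.gam5 F v ≤ 14 := by
      have key : ∀ {u v : V}, G.Pr50 F u v → G.gam5 F u ≤ 2 * (G.d u F : ℤ) + 2 := by
        intro u v h
        have a1 := hc.ub h.hu h.ul
        obtain ⟨q, q', x, y, hb⟩ := h.bd
        have a2 := hb.two
        have a3 := hb.sum6
        have a4 : (G.d u F : ℤ) + ((G.pT F u).card : ℤ) ≤ 4 := by
          have : G.d u F + (G.pT F u).card ≤ 4 := by omega
          exact_mod_cast this
        linarith
      have a1 := key h1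
      have a2 := key h1.swap
      have a3 : (G.d u F : ℤ) + (G.d v F : ℤ) ≤ 5 := by
        have : G.d u F + G.d v F ≤ 5 := by
          rcases hc.d23 u hu with e | e
          · have := hc.le3 hv
            omega
          · have := (h1.d3 hc e).1
            omega
        exact_mod_cast this
      linarith
    have hs := hsumS (fun z => G.gam5 F z)
    by_cases hl : ∃ n ∈ S, G.Low n
    · obtain ⟨n, hn, hnl⟩ := hl
      have hnN := ((hSm n).1 hn).2.2
      have h2 : ∑ z ∈ S, G.gam5 F z = G.gam5 F n := by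
        apply sum_eq_single_of_mem n hn
        intro w hw hne
        have hwN := ((hSm w).1 hw).2.2
        apply hhub w hwN
        intro hwl
        exact hne (hNB' w hwN n hnN hwl hnl (hb2 w hw) (hb2 n hn))
      rw [h2] at hs
      by_cases hd : 2 ≤ G.d n (G.Co F)
      · exfalso
        have := (hval n hnN hnl).2 hd
        linarith
      · exact ws_one50 hP0 hnl (thS_four50 hc.cr hc.n9 hc.gd hnN (hc.le2 hnN) (by omega)).ge
    · exfalso
      push Not at hl
      have h2 : ∑ z ∈ S, G.gam5 F z = 0 :=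
        sum_eq_zero fun w hw => hhub w ((hSm w).1 hw).2.2 (hl w hw)
      rw [h2] at hs
      linarith
  obtain ⟨u2, hu2S, hub2⟩ := hb2
  obtain ⟨hu2v, hu2u, hu2⟩ := (hSm u2).1 hu2S
  obtain ⟨v2, h2⟩ := hc.pair hu2 hub2
  have hv2 := h2.hv
  have hv2u : v2 ≠ u := by
    rintro rfl
    exact hu2v (h1.uniq hc h2)
  have hv2v : v2 ≠ v := by
    rintro rfl
    exact hu2u (h1.swap.uniq hc h2)
  have huv2 := h2.ne
  have hv2S : v2 ∈ S.erase u2 := mem_erase.2 ⟨huv2.symm, (hSm v2).2 ⟨hv2v, hv2u, hv2⟩⟩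
  have hc2 : ((S.erase u2).erase v2).card = 2 := by
    rw [card_erase_of_mem hv2S, card_erase_of_mem hu2S, hS, card_erase_of_mem hvS,
      card_erase_of_mem hu, h6]
  obtain ⟨a, b, hab, hS2⟩ := card_eq_two.1 hc2
  have ha : a ∈ (S.erase u2).erase v2 := by rw [hS2]; exact mem_insert_self _ _
  have hb : b ∈ (S.erase u2).erase v2 := by
    rw [hS2]
    exact mem_insert_of_mem (mem_singleton_self _)
  have hm2 : ∀ z, z ∈ (S.erase u2).erase v2 ↔ z ≠ v2 ∧ z ≠ u2 ∧ z ≠ v ∧ z ≠ u ∧ z ∈ G.N F := by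
    intro z
    rw [mem_erase, mem_erase, hSm]
  have ha' := (hm2 a).1 ha
  have hb' := (hm2 b).1 hb
  have hall : ∀ z ∈ G.N F, z = u ∨ z = v ∨ z = u2 ∨ z = v2 ∨ z = a ∨ z = b := by
    intro z hz
    by_contra hno
    push Not at hno
    obtain ⟨e1, e2, e3, e4, e5, e6⟩ := hno
    have h3 : z ∈ (S.erase u2).erase v2 := (hm2 z).2 ⟨e4, e3, e2, e1, hz⟩
    rw [hS2, mem_insert, mem_singleton] at h3
    rcases h3 with e | e
    · exact e5 e
    · exact e6 e
  have hsum6 : ∀ f : V → ℤ, ∑ z ∈ G.N F, f z = f u + f v + f u2 + f v2 + f a + f b := by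
    intro f
    rw [hsumS, ← add_sum_erase _ _ hu2S, ← add_sum_erase _ _ hv2S, hS2, sum_pair hab]
    ring
  have hds := hc.dsum
  rw [hsum6] at hds
  have h3 : G.Six50 F u v u2 v2 a b := ⟨hc, h1, h2, ha'.2.2.2.2, hb'.2.2.2.2, hab,
    by tauto, by tauto, hall, hsum6 _, hds⟩
  -- a third pair
  have third : ∀ {a b : V}, G.Six50 F u v u2 v2 a b → G.BadC (G.Co F) a → 4 ≤ G.WS F := by
    intro a b h hba
    obtain ⟨p, hp⟩ := hc.pair h.ha hba
    have hna := h.na
    push Not at hna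
    have hpb : p = b := by
      rcases h.all p hp.hv with rfl | rfl | rfl | rfl | rfl | rfl
      · exact absurd (h.p1.uniq hc hp) hna.2.1
      · exact absurd (h.p1.swap.uniq hc hp) hna.1
      · exact absurd (h.p2.uniq hc hp) hna.2.2.2
      · exact absurd (h.p2.swap.uniq hc hp) hna.2.2.1
      · exact absurd rfl hp.ne
      · rfl
    subst hpb
    have l1 := (h.p1.lb hc).1
    have l2 := (h.p1.swap.lb hc).1
    have l3 := (h.p2.lb hc).1
    have l4 := (h.p2.swap.lb hc).1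
    have l5 := (hp.lb hc).1
    have l6 := (hp.swap.lb hc).1
    have hd := h.ds
    apply hws
    rw [h.sum]
    linarith
  by_cases hba : G.BadC (G.Co F) a
  · exact third h3 hba
  by_cases hbb : G.BadC (G.Co F) b
  · exact third h3.swab hbb
  by_cases hal : G.Low a
  · by_cases hbl : G.Low b
    · exact absurd (hNB' a h3.ha b h3.hb hal hbl hba hbb) hab
    · exact hws (h3.caseN hal hba hbl)
  · by_cases hbl : G.Low b
    · exact hws (h3.swab.caseN hbl hbb hal)
    · exact hws (h3.caseH hal hbl)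

end HC50

end CG

end Pool.Agent.Lib.MP_e95c01_co.N
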