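import Pool.Agent.Lib.MP_e95c01_co.Y.Good57
import Pool.Agent.Lib.MP_e95c01_co.Y.K6P38
import Pool.Agent.Lib.MP_e95c01_co.U.Bridge76

/-!
# A pair of twins that shares an `LL` port with a `K6` has a third low neighbour
-/

namespace Pool.Agent.Lib.MP_e95c01_co.N

open Finset

variable {V : Type} [Fintype V] [DecidableEq V]

namespace CG

namespace T98

variable {G : CG V}

/-- vertices `W'` of `N B` whose neighbours in `B` lie in the smaller set `W` -/
theorem shrink {B W W' : Finset V} (hB : G.Frag B) (hW' : W' ⊆ G.N B)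
    (h : ∀ w ∈ W', ∀ z ∈ G.nb w, z ∈ B → z ∈ W) (hc : W.card < W'.card) : B ⊆ W := by
  by_contra hno
  have hne : (B \ W).Nonempty := by
    obtain ⟨z, hz, hzW⟩ := not_subset.1 hno
    exact ⟨z, mem_sdiff.2 ⟨hz, hzW⟩⟩
  have hCo : (G.Co (B \ W)).Nonempty := hB.2.2.mono (Co_anti37 sdiff_subset)
  have h6 := stN6_37 G _ hne hCo
  have hsub : G.N (B \ W) ⊆ (G.N B \ W') ∪ W := by
    intro w hw
    obtain ⟨h1, z, hz, hwz⟩ := mem_N37.1 hw
    rw [mem_sdiff] at hz
    rw [mem_union, mem_sdiff]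
    by_cases hwB : w ∈ B
    · right
      by_contra h2
      exact h1 (mem_sdiff.2 ⟨hwB, h2⟩)
    · left
      exact ⟨mem_N37.2 ⟨hwB, z, hz.1, hwz⟩, fun h2 => hz.2 (h w h2 z (G.sym _ _ hwz) hz.1)⟩
  have h7 := (card_le_card hsub).trans (card_union_le _ _)
  rw [card_sdiff_of_subset hW', hB.2.1] at h7
  have h8 := (card_le_card hW').trans_eq hB.2.1
  omega

/-- the situation -/
structure Cfg (G : CG V) (S : Finset V) (q q' u v x y r r' : V) : Prop where
  hC : G.Crit
  h9 : 9 ≤ Fintype.card V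
  hS : G.IsK6 S
  qS : q ∈ S
  qS' : q' ∈ S
  uS : u ∉ S
  vS : v ∉ S
  uv : u ≠ v
  lu : G.Low u
  lv : G.Low v
  nu : G.nb u = {q, q', v, r, r', x}
  nv : G.nb v = {q, q', u, r, r', y}
  xv : x ∉ G.nb v
  yu : y ∉ G.nb u
  xS : x ∉ S
  yS : y ∉ S
  tr : G.Tw r r'
  rK : ¬ G.InK r
  no3 : ∀ w ∈ G.nb r, G.Low w → w = u ∨ w = v

theorem Cfg.symm {S : Finset V} {q q' u v x y r r' : V} (h : Cfg G S q q' u v x y r r') :
    Cfg G S q q' v u y x r r' where
  hC := h.hC
  h9 := h.h9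
  hS := h.hS
  qS := h.qS
  qS' := h.qS'
  uS := h.vS
  vS := h.uS
  uv := h.uv.symm
  lu := h.lv
  lv := h.lu
  nu := h.nv
  nv := h.nu
  xv := h.yu
  yu := h.xv
  xS := h.yS
  yS := h.xS
  tr := h.tr
  rK := h.rK
  no3 := fun w hw hl => (h.no3 w hw hl).symm

section

variable {S : Finset V} {q q' u v x y r r' : V}

theorem Cfg.mu (h : Cfg G S q q' u v x y r r') {w : V} :
    w ∈ G.nb u ↔ w = q ∨ w = q' ∨ w = v ∨ w = r ∨ w = r' ∨ w = x := by
  rw [h.nu]; simp only [mem_insert, mem_singleton]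

theorem Cfg.mv (h : Cfg G S q q' u v x y r r') {w : V} :
    w ∈ G.nb v ↔ w = q ∨ w = q' ∨ w = u ∨ w = r ∨ w = r' ∨ w = y := h.symm.mu

theorem Cfg.r7 (h : Cfg G S q q' u v x y r r') : (G.nb r).card = 7 := h.tr.2.1

theorem Cfg.tr' (h : Cfg G S q q' u v x y r r') : G.Tw r' r := (stTwHL_5 G).symm _ _ h.tr

theorem Cfg.rl (h : Cfg G S q q' u v x y r r') : ¬ G.Low r := by
  intro h1
  have h2 : (G.nb r).card = 6 := h1
  have := h.r7
  omega

theorem Cfg.rl' (h : Cfg G S q q' u v x y r r') : ¬ G.Low r' := by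
  intro h1
  have h2 : (G.nb r').card = 6 := h1
  have := h.tr'.2.1
  omega

theorem Cfg.ru (h : Cfg G S q q' u v x y r r') : u ∈ G.nb r :=
  G.sym _ _ (h.mu.2 (Or.inr (Or.inr (Or.inr (Or.inl rfl)))))

theorem Cfg.rv (h : Cfg G S q q' u v x y r r') : v ∈ G.nb r := h.symm.ru

theorem Cfg.rr (h : Cfg G S q q' u v x y r r') : r' ∈ G.nb r := h.tr.1

theorem Cfg.rK' (h : Cfg G S q q' u v x y r r') : ¬ G.InK r' := by
  rintro ⟨T, hT, hr⟩
  exact h.rK ⟨T, hT, k6_twin16 h.hC h.h9 hT hr h.tr'⟩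

/-- vertices of `S` are not adjacent to `r` -/
theorem Cfg.sr (h : Cfg G S q q' u v x y r r') {s : V} (hs : s ∈ S) : r ∉ G.nb s := by
  intro h1
  have h2 : r ∉ S := fun h3 => h.rK ⟨S, h.hS, h3⟩
  exact h.rl (k6_low16 h.hC h.h9 h.hS (mem_N37.2 ⟨h2, s, hs, h1⟩)).1

theorem Cfg.sl (h : Cfg G S q q' u v x y r r') {s : V} (hs : s ∈ S) : ¬ G.Low s := by
  intro h1
  have h2 : (G.nb s).card = 6 := h1
  have := isTw_card16 (h.hS.2.1 s hs)
  omega

/-- the cases of a small cover of the edge `r z` -/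
theorem Cfg.cov (h : Cfg G S q q' u v x y r r') {z : V} (hz : z ∈ G.nb r)
    (hs : G.SCov r z) : z ∈ G.nb u ∨ z ∈ G.nb v ∨
      ∃ a b, G.Tw a b ∧ r ∈ G.nb a ∧ z ∈ G.nb a ∧ r ≠ b ∧ z ≠ b := by
  obtain ⟨E, hE, hc, hrE, hzE⟩ := hs
  have hrz : r ≠ z := fun h1 => G.irr r (by rw [← h1] at hz; exact hz)
  -- the vertex `b` of `HL` is not a neighbour of `r`
  have key : ∀ a b, G.HL a b z → (b = u ∨ b = v) → r ≠ a → False := by
    intro a b hab hb hra
    have hrb : r ∈ G.nb b := by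
      rcases hb with rfl | rfl
      · exact G.sym _ _ h.ru
      · exact G.sym _ _ h.rv
    have hqb : q ∈ G.nb b := by
      rcases hb with rfl | rfl
      · exact h.mu.2 (Or.inl rfl)
      · exact h.mv.2 (Or.inl rfl)
    have h1 : r ∈ G.nb a := HL_sub76 hab hrb hra
    have haS : a ∉ S := fun h2 => h.sr h2 h1
    have h2 : q ∈ G.nb a := HL_sub76 hab hqb (fun h3 => haS (h3 ▸ h.qS))
    have h3 : a ∈ G.N S := mem_N37.2 ⟨haS, q, h.qS, G.sym _ _ h2⟩
    exact HL_not_low76 hab (k6_low16 h.hC h.h9 h.hS h3).1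
  rcases stSmall_76 G E hE hc r z hrE hzE hrz with ⟨w, -, hl, h1, h2⟩ | ⟨a, -, b, -, h1⟩ |
    ⟨a, -, b, -, h1, h2, h3⟩ | ⟨a, -, b, -, h1, h2, h3⟩ | ⟨a, -, b, -, h1⟩
  · rcases h.no3 w (G.sym _ _ h1) hl with h3 | h3
    · left; rw [← h3]; exact h2
    · right; left; rw [← h3]; exact h2
  · exact Or.inr (Or.inr ⟨a, b, h1⟩)
  · exfalso
    have h4 : r ∈ G.nb a := HL_t76 h1
    have ha' : r' ≠ a := by
      rintro rfl
      exact (stTwHL_5 G).notHL h.h9 _ _ _ h1 ⟨r, h.tr'⟩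
    have h5 : a ∈ G.nb r' := Tw_nb5 h.tr (G.sym _ _ h4) (Ne.symm ha')
    have hrr : r' ≠ r := fun h6 => G.irr r (by have := h.rr; rwa [h6] at this)
    rcases HL_sup76 h1 (G.sym _ _ h5) hrr with h6 | h6
    · exact h.rl' (by rw [h6]; exact h1.2.1)
    · have h7 : b ∈ G.nb r' := G.sym _ _ h6
      have h8 : b ∈ G.nb r := Tw_nb5 h.tr' h7 (HL_bt76 h1).2.symm
      exact (HL_bt76 h1).1 (G.sym _ _ h8)
  · exfalso
    exact key a b h1 (h.no3 b (G.sym _ _ h2) h1.2.1) h3
  · exfalso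
    have hr1 : r ∈ G.nb a := LL_t76 h1
    have hrb := LL_tb76 h1
    have hb1 : b ∈ G.nb a := LL_ab76 h1
    have key2 : ∀ u v x y, Cfg G S q q' u v x y r r' → a = u → False := by
      intro u v x y h h4
      rw [h4] at hb1 hr1
      rcases h.mu.1 hb1 with h5 | h5 | h5 | h5 | h5 | h5
      · exact h.sl h.qS (by rw [← h5]; exact h1.2.1)
      · exact h.sl h.qS' (by rw [← h5]; exact h1.2.1)
      · exact hrb.1 (by rw [h5]; exact G.sym _ _ h.rv)
      · exact h.rl (by rw [← h5]; exact h1.2.1)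
      · exact h.rl' (by rw [← h5]; exact h1.2.1)
      · have hq : q ∈ G.nb a := by rw [h4]; exact h.mu.2 (Or.inl rfl)
        rcases LL_to76 h1 hq (fun h6 => h.sr h.qS (by
          exfalso
          exact h.rK ⟨S, h.hS, h6 ▸ h.qS⟩)) with h6 | h6
        · exact h.sl h.qS (by rw [h6]; exact h1.2.1)
        · have h7 : x ∈ G.N S := mem_N37.2 ⟨h.xS, q, h.qS, by rw [← h5]; exact G.sym _ _ h6⟩
          have h8 : x ∈ G.nb q := by rw [← h5]; exact G.sym _ _ h6
          have h9 : u ∈ G.nb q := G.sym _ _ (h.mu.2 (Or.inl rfl))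
          obtain ⟨a1, v1, -, a2, a3, -, -, a4⟩ := stPort_16 G h.hC h.h9 S h.hS q h.qS u h9 h.uS
          have h10 : v ∈ G.nb q := G.sym _ _ (h.mv.2 (Or.inl rfl))
          have h11 : v = v1 := by
            rw [a4, mem_insert, mem_insert, mem_erase] at h10
            rcases h10 with h12 | h12 | h12
            · exact absurd h12 h.uv.symm
            · exact h12
            · exact absurd h12.2 h.vS
          rw [a4, mem_insert, mem_insert, mem_erase] at h8
          have hx1 : x ∈ G.nb u := h.mu.2 (Or.inr (Or.inr (Or.inr (Or.inr (Or.inr rfl)))))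
          rcases h8 with h12 | h12 | h12
          · exact G.irr u (by rw [h12] at hx1; exact hx1)
          · exact hrb.1 (by rw [h5, h12, ← h11]; exact G.sym _ _ h.rv)
          · exact h.xS h12.2
    rcases h.no3 a (G.sym _ _ hr1) h1.1 with h4 | h4
    · exact key2 u v x y h h4
    · exact key2 v u y x h.symm h4

theorem Cfg.xu (h : Cfg G S q q' u v x y r r') : x ∈ G.nb u :=
  h.mu.2 (Or.inr (Or.inr (Or.inr (Or.inr (Or.inr rfl)))))

/-- the private neighbour of a port is no twin vertex -/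
theorem Cfg.xt (h : Cfg G S q q' u v x y r r') {b : V} : ¬ G.Tw x b := by
  intro ht
  have htw := stTwHL_5 G
  have hub : u ≠ b := by
    rintro rfl
    have h1 := (htw.symm _ _ ht).2.1
    have h2 : (G.nb u).card = 6 := h.lu
    omega
  have h1 : u ∈ G.nb b := Tw_nb5 ht (G.sym _ _ h.xu) hub
  rcases h.mu.1 (G.sym _ _ h1) with h2 | h2 | h2 | h2 | h2 | h2
  · exact h.xS (k6_twin16 h.hC h.h9 h.hS (by rw [h2]; exact h.qS) (htw.symm _ _ ht))
  · exact h.xS (k6_twin16 h.hC h.h9 h.hS (by rw [h2]; exact h.qS') (htw.symm _ _ ht))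
  · have h3 := (htw.symm _ _ ht).2.1
    have h4 : (G.nb v).card = 6 := h.lv
    rw [h2] at h3
    omega
  · have h3 : r' = x := htw.uniq h.h9 _ _ _ h.tr (by rw [← h2]; exact htw.symm _ _ ht)
    exact h.xv (by rw [← h3]; exact h.mv.2 (Or.inr (Or.inr (Or.inr (Or.inr (Or.inl rfl))))))
  · have h3 : r = x := htw.uniq h.h9 _ _ _ h.tr' (by rw [← h2]; exact htw.symm _ _ ht)
    exact h.xv (by rw [← h3]; exact h.mv.2 (Or.inr (Or.inr (Or.inr (Or.inl rfl)))))
  · exact G.irr x (by have := ht.1; rwa [h2] at this)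

/-- neighbours of `r` are no vertices of `K6`'s -/
theorem Cfg.nK (h : Cfg G S q q' u v x y r r') {z : V} (hz : z ∈ G.nb r) : ¬ G.InK z := by
  rintro ⟨T, hT, hzT⟩
  have h2 : r ∉ T := fun h3 => h.rK ⟨T, hT, h3⟩
  exact h.rl (k6_low16 h.hC h.h9 hT (mem_N37.2 ⟨h2, z, hzT, G.sym _ _ hz⟩)).1

/-- the four other neighbours of `r` -/
def S4 (G : CG V) (r r' u v : V) : Finset V := (((G.nb r).erase r').erase u).erase v

theorem mem_S4 {z : V} : z ∈ S4 G r r' u v ↔ z ≠ v ∧ z ≠ u ∧ z ≠ r' ∧ z ∈ G.nb r := by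
  rw [S4, mem_erase, mem_erase, mem_erase]

theorem Cfg.r'u (h : Cfg G S q q' u v x y r r') : r' ≠ u := fun h1 => h.rl' (h1 ▸ h.lu)

theorem Cfg.card4 (h : Cfg G S q q' u v x y r r') : (S4 G r r' u v).card = 4 := by
  rw [S4, card_erase_of_mem, card_erase_of_mem, card_erase_of_mem h.rr, h.r7]
  · exact mem_erase.2 ⟨h.r'u.symm, h.ru⟩
  · exact mem_erase.2 ⟨h.uv.symm, mem_erase.2 ⟨h.symm.r'u.symm, h.rv⟩⟩

/-- covered by a port or by a pair of twins adjacent to `r` -/
def Cv (G : CG V) (x y r r' u v z : V) : Prop := z = x ∨ z = y ∨ ∃ a b, G.Tw a b ∧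
  a ∈ S4 G r r' u v ∧ b ∈ S4 G r r' u v ∧ a ≠ x ∧ a ≠ y ∧ b ≠ x ∧ b ≠ y ∧ z ∈ G.nb a ∧ z ≠ b

theorem Cfg.cv (h : Cfg G S q q' u v x y r r') {z : V} (hz : z ∈ S4 G r r' u v)
    (hs : G.SCov r z) : Cv G x y r r' u v z := by
  have hz4 := mem_S4.1 hz
  have htw := stTwHL_5 G
  have key : ∀ u v x y, Cfg G S q q' u v x y r r' → z ≠ v → z ∈ G.nb u → z = x := by
    intro u v x y h hzv hzu
    rcases h.mu.1 hzu with h1 | h1 | h1 | h1 | h1 | h1
    · exact absurd (G.sym _ _ hz4.2.2.2) (by rw [h1]; exact h.sr h.qS)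
    · exact absurd (G.sym _ _ hz4.2.2.2) (by rw [h1]; exact h.sr h.qS')
    · exact absurd h1 hzv
    · exact absurd hz4.2.2.2 (by rw [h1]; exact G.irr r)
    · exact absurd h1 hz4.2.2.1
    · exact h1
  rcases h.cov hz4.2.2.2 hs with h1 | h1 | ⟨a, b, h1, h2, h3, h4, h5⟩
  · exact Or.inl (key u v x y h hz4.1 h1)
  · exact Or.inr (Or.inl (key v u y x h.symm hz4.2.1 h1))
  · right; right
    have hb := htw.symm _ _ h1
    have h6 : r ∈ G.nb b := Tw_nb5 h1 h2 h4
    have hlow : ∀ c d, G.Tw c d → c ≠ u ∧ c ≠ v := by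
      intro c d hcd
      have h7 := hcd.2.1
      have h8 : (G.nb u).card = 6 := h.lu
      have h9 : (G.nb v).card = 6 := h.lv
      constructor
      · rintro rfl; omega
      · rintro rfl; omega
    have ha1 : a ≠ r' := by
      rintro rfl
      exact h4 (htw.uniq h.h9 _ _ _ h.tr' h1)
    have hb1 : b ≠ r' := by
      rintro rfl
      have h7 : r = a := htw.uniq h.h9 _ _ _ h.tr' hb
      exact G.irr r (by rw [← h7] at h2; exact h2)
    refine ⟨a, b, h1, mem_S4.2 ⟨(hlow a b h1).2, (hlow a b h1).1, ha1, G.sym _ _ h2⟩,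
      mem_S4.2 ⟨(hlow b a hb).2, (hlow b a hb).1, hb1, G.sym _ _ h6⟩, ?_, ?_, ?_, ?_, h3, h5⟩
    · rintro rfl; exact h.xt h1
    · rintro rfl; exact h.symm.xt h1
    · rintro rfl; exact h.xt hb
    · rintro rfl; exact h.symm.xt hb

/-- three mutually adjacent pairs -/
theorem Cfg.no6 (h : Cfg G S q q' u v x y r r') {a b c d : V} (h1 : G.Tw a b) (h2 : G.Tw c d)
    (ha : a ∈ S4 G r r' u v) (hb : b ∈ S4 G r r' u v) (hc : c ∈ S4 G r r' u v)
    (hd : d ∈ S4 G r r' u v) (hac : a ∈ G.nb c) (had : a ≠ d) : False := by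
  have htw := stTwHL_5 G
  have h1' := htw.symm _ _ h1
  have h2' := htw.symm _ _ h2
  have e1 : r' ∈ G.nb r := h.rr
  have ra := (mem_S4.1 ha).2.2.2
  have rb := (mem_S4.1 hb).2.2.2
  have rc := (mem_S4.1 hc).2.2.2
  have rd := (mem_S4.1 hd).2.2.2
  have ra' : a ∈ G.nb r' := Tw_nb5 h.tr ra (mem_S4.1 ha).2.2.1
  have rb' : b ∈ G.nb r' := Tw_nb5 h.tr rb (mem_S4.1 hb).2.2.1
  have rc' : c ∈ G.nb r' := Tw_nb5 h.tr rc (mem_S4.1 hc).2.2.1
  have rd' : d ∈ G.nb r' := Tw_nb5 h.tr rd (mem_S4.1 hd).2.2.1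
  have ab := h1.1
  have cd := h2.1
  have da : a ∈ G.nb d := Tw_nb5 h2 hac had
  have hcb : c ≠ b := by
    rintro rfl
    exact had (htw.uniq h.h9 _ _ _ h1' h2)
  have cb : c ∈ G.nb b := Tw_nb5 h1 (G.sym _ _ hac) hcb
  have hdb : d ≠ b := by
    rintro rfl
    have h3 : a = c := htw.uniq h.h9 _ _ _ h1' h2'
    exact G.irr c (by rw [h3] at hac; exact hac)
  have db : d ∈ G.nb b := Tw_nb5 h1 (G.sym _ _ da) hdb
  have ne : ∀ {s t : V}, t ∈ G.nb s → s ≠ t := fun {s t} hst => ne_of_nb5 hst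
  apply h.rK
  refine ⟨{r, r', a, b, c, d}, ⟨?_, ?_, ?_⟩, mem_insert_self _ _⟩
  · rw [card_insert_of_notMem, card_insert_of_notMem, card_insert_of_notMem,
      card_insert_of_notMem, card_pair (ne cd)]
    · simp only [mem_insert, mem_singleton, not_or]
      exact ⟨hcb.symm, hdb.symm⟩
    · simp only [mem_insert, mem_singleton, not_or]
      exact ⟨ne ab, (ne hac).symm, (ne da).symm⟩
    · simp only [mem_insert, mem_singleton, not_or]
      exact ⟨ne ra', ne rb', ne rc', ne rd'⟩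
    · simp only [mem_insert, mem_singleton, not_or]
      exact ⟨ne e1, ne ra, ne rb, ne rc, ne rd⟩
  · intro z hz
    simp only [mem_insert, mem_singleton] at hz
    rcases hz with rfl | rfl | rfl | rfl | rfl | rfl
    · exact ⟨_, h.tr⟩
    · exact ⟨_, h.tr'⟩
    · exact ⟨_, h1⟩
    · exact ⟨_, h1'⟩
    · exact ⟨_, h2⟩
    · exact ⟨_, h2'⟩
  · intro z hz w hw hzw
    simp only [mem_insert, mem_singleton] at hz hw
    rcases hz with rfl | rfl | rfl | rfl | rfl | rfl <;>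
    rcases hw with rfl | rfl | rfl | rfl | rfl | rfl <;>
    first
      | exact absurd rfl hzw
      | assumption
      | (apply G.sym; assumption)

/-- no member of a covering pair is covered itself -/
theorem Cfg.noP (h : Cfg G S q q' u v x y r r') {a b : V} (h1 : G.Tw a b)
    (ha : a ∈ S4 G r r' u v) (hb : b ∈ S4 G r r' u v) (hax : a ≠ x) (hay : a ≠ y)
    (hc : Cv G x y r r' u v a) : False := by
  rcases hc with h2 | h2 | ⟨c, d, h2, h3, h4, -, -, -, -, h5, h6⟩
  · exact hax h2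
  · exact hay h2
  · exact h.no6 h1 h2 ha hb h3 h4 h5 h6

/-- not all four are covered -/
theorem Cfg.fin1 (h : Cfg G S q q' u v x y r r')
    (hall : ∀ z ∈ S4 G r r' u v, Cv G x y r r' u v z) : False := by
  obtain ⟨z0, hz0, hn⟩ : ∃ z ∈ S4 G r r' u v, z ∉ ({x, y} : Finset V) := by
    by_contra hno
    push Not at hno
    have h1 := card_le_card (fun z hz => hno z hz : S4 G r r' u v ⊆ {x, y})
    rw [h.card4] at h1
    have h2 := card_le_two (a := x) (b := y)
    omega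
  rw [mem_insert, mem_singleton, not_or] at hn
  rcases hall z0 hz0 with h1 | h1 | ⟨a, b, h1, h2, h3, h4, h5, -, -, -, -⟩
  · exact hn.1 h1
  · exact hn.2 h1
  · exact h.noP h1 h2 h3 h4 h5 (hall a h2)

/-! ### `r` in the neighbourhood of `B` -/

theorem Cfg.fin2 (h : Cfg G S q q' u v x y r r') {B : Finset V} (hB : G.Big B)
    (hSB : S ⊆ G.Co B) (hr : r ∈ G.N B)
    (hall : ∀ z ∈ S4 G r r' u v, z ∈ B → Cv G x y r r' u v z) : False := by
  classical
  have htw := stTwHL_5 G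
  obtain ⟨hCo, hNCo, hCCo⟩ := stCo_37 G B hB.1
  have hr' : r' ∈ G.N B := Gd57.twin_N hB.1 hr h.tr
  have hrB : r ∉ B := (mem_N37.1 hr).1
  have hr'B : r' ∉ B := (mem_N37.1 hr').1
  -- `u`, `v` are not in `B`
  have huB : ∀ u v x y, Cfg G S q q' u v x y r r' → u ∉ B := by
    intro u v x y h h1
    have h2 := mem_Co37.1 (hSB h.qS)
    rcases Gd57.nb_or h1 (h.mu.2 (Or.inl rfl)) with h3 | h3
    · exact h2.1 h3
    · exact h2.2 h3
  -- neighbours of `u` in `B`
  have hux : ∀ u v x y, Cfg G S q q' u v x y r r' → ∀ z ∈ G.nb u, z ∈ B → z = x := by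
    intro u v x y h z hz hzB
    rcases h.mu.1 hz with h1 | h1 | h1 | h1 | h1 | h1
    · exact absurd hzB (by rw [h1]; exact (mem_Co37.1 (hSB h.qS)).1)
    · exact absurd hzB (by rw [h1]; exact (mem_Co37.1 (hSB h.qS')).1)
    · exact absurd hzB (by rw [h1]; exact huB v u y x h.symm)
    · exact absurd hzB (by rw [h1]; exact hrB)
    · exact absurd hzB (by rw [h1]; exact hr'B)
    · exact h1
  have hZ4 : ∀ z ∈ G.nb r, z ∈ B → z ∈ S4 G r r' u v := by
    intro z hz hzB
    refine mem_S4.2 ⟨?_, ?_, ?_, hz⟩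
    · rintro rfl; exact huB _ _ _ _ h.symm hzB
    · rintro rfl; exact huB _ _ _ _ h hzB
    · rintro rfl; exact hr'B hzB
  set Z : Finset V := G.nb r ∩ B with hZ
  have hrZ : ∀ w ∈ ({r, r'} : Finset V), ∀ z ∈ G.nb w, z ∈ B → z ∈ Z := by
    intro w hw z hz hzB
    rw [mem_insert, mem_singleton] at hw
    rcases hw with rfl | rfl
    · exact mem_inter.2 ⟨hz, hzB⟩
    · exact mem_inter.2 ⟨Tw_nb5 h.tr' hz (fun h1 => hrB (h1 ▸ hzB)), hzB⟩
  have hrr : r ≠ r' := ne_of_nb5 h.rr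
  have hN2 : ({r, r'} : Finset V) ⊆ G.N B := by
    intro w hw
    rw [mem_insert, mem_singleton] at hw
    rcases hw with rfl | rfl
    · exact hr
    · exact hr'
  have hZ2 : 2 ≤ Z.card := by
    by_contra h1
    have h2 := card_le_card (shrink hB.1 hN2 hrZ (by rw [card_pair hrr]; omega))
    have h3 := hB.2.1
    omega
  -- three vertices `r`, `r'`, `u` with `x` in `B`
  have hfin3 : ∀ u v x y, Cfg G S q q' u v x y r r' → ∀ W : Finset V, Z ⊆ W → W.card ≤ 2 →
      x ∈ W → x ∈ B → False := by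
    intro u v x y h W hZW hW2 hxW hxB
    have huN : u ∈ G.N B := mem_N37.2 ⟨huB u v x y h, x, hxB, G.sym _ _ h.xu⟩
    have hur : u ∉ ({r, r'} : Finset V) := by
      rw [mem_insert, mem_singleton, not_or]
      exact ⟨fun h1 => h.rl (h1 ▸ h.lu), h.r'u.symm⟩
    have h2 := card_le_card (shrink (W := W) (W' := insert u {r, r'}) hB.1 ?_ ?_ ?_)
    · have h3 := hB.2.1
      omega
    · intro w hw
      rcases mem_insert.1 hw with rfl | hw
      · exact huN
      · exact hN2 hw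
    · intro w hw z hz hzB
      rcases mem_insert.1 hw with rfl | hw
      · rw [hux _ v x y h z hz hzB]; exact hxW
      · exact hZW (hrZ w hw z hz hzB)
    · rw [card_insert_of_notMem hur, card_pair hrr]
      omega
  by_cases hsub : ∀ z ∈ Z, z = x ∨ z = y
  · have hZxy : Z ⊆ {x, y} := by
      intro z hz
      rw [mem_insert, mem_singleton]
      exact hsub z hz
    have h1 := card_le_two (a := x) (b := y)
    have h2 : Z = {x, y} := eq_of_subset_of_card_le hZxy (by omega)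
    have hx : x ∈ Z := by rw [h2]; exact mem_insert_self _ _
    exact hfin3 u v x y h Z (fun z hz => hz) (by rw [h2]; exact h1) hx (mem_inter.1 hx).2
  push Not at hsub
  obtain ⟨z0, hz0, hz0x, hz0y⟩ := hsub
  have hz0' := mem_inter.1 hz0
  rcases hall z0 (hZ4 z0 hz0'.1 hz0'.2) hz0'.2 with h1 | h1 |
    ⟨a, b, hab, ha4, hb4, hax, hay, hbx, hby, hza, hzb⟩
  · exact hz0x h1
  · exact hz0y h1
  have hba := htw.symm _ _ hab
  have haB : a ∉ B := fun h1 => h.noP hab ha4 hb4 hax hay (hall a ha4 h1)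
  have haN : a ∈ G.N B := mem_N37.2 ⟨haB, z0, hz0'.2, G.sym _ _ hza⟩
  have hbN : b ∈ G.N B := Gd57.twin_N hB.1 haN hab
  have hbB : b ∉ B := (mem_N37.1 hbN).1
  have habn : a ≠ b := ne_of_nb5 hab.1
  -- `Z` and the pair `a`, `b` make up the four neighbours
  have hZab : Z ⊆ ((S4 G r r' u v).erase a).erase b := by
    intro z hz
    have hz' := mem_inter.1 hz
    rw [mem_erase, mem_erase]
    exact ⟨fun h1 => hbB (h1 ▸ hz'.2), fun h1 => haB (h1 ▸ hz'.2), hZ4 z hz'.1 hz'.2⟩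
  have hc2 : (((S4 G r r' u v).erase a).erase b).card = 2 := by
    rw [card_erase_of_mem (mem_erase.2 ⟨habn.symm, hb4⟩), card_erase_of_mem ha4, h.card4]
  have hZeq : Z = ((S4 G r r' u v).erase a).erase b := eq_of_subset_of_card_le hZab (by omega)
  have hZc : Z.card = 2 := by rw [hZeq, hc2]
  by_cases hxZ : x ∈ Z
  · exact hfin3 u v x y h Z (fun z hz => hz) (by omega) hxZ (mem_inter.1 hxZ).2
  by_cases hyZ : y ∈ Z
  · exact hfin3 v u y x h.symm Z (fun z hz => hz) (by omega) hyZ (mem_inter.1 hyZ).2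
  -- all of `Z` is adjacent to `a`
  have hZa : ∀ z ∈ Z, z ∈ G.nb a := by
    intro z hz
    have hz' := mem_inter.1 hz
    rcases hall z (hZ4 z hz'.1 hz'.2) hz'.2 with h1 | h1 |
      ⟨c, d, hcd, hc4, hd4, hcx, hcy, -, -, hzc, hzd⟩
    · exact absurd (h1 ▸ hz) hxZ
    · exact absurd (h1 ▸ hz) hyZ
    have hcB : c ∉ B := fun h1 => h.noP hcd hc4 hd4 hcx hcy (hall c hc4 h1)
    have hcZ : c ∉ Z := fun h1 => hcB (mem_inter.1 h1).2
    rw [hZeq, mem_erase, mem_erase] at hcZ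
    push Not at hcZ
    by_cases hcb : c = b
    · rw [hcb] at hzc
      exact Tw_nb5 hba hzc (fun h1 => haB (h1 ▸ hz'.2))
    by_cases hca : c = a
    · rw [← hca]; exact hzc
    · exact absurd hc4 (hcZ hcb hca)
  -- neighbours of `a` outside
  set X : Finset V := G.nb a ∩ G.Co B with hX
  have hab2 : ({a, b} : Finset V).card = 2 := card_pair habn
  have hX2 : 2 ≤ X.card := by
    by_contra h1
    have h2 := card_le_card (shrink (B := G.Co B) (W := X) (W' := {a, b}) hCo ?_ ?_ (by omega))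
    · have h3 := card_le_card hSB
      rw [h.hS.1] at h3
      omega
    · rw [hNCo]
      intro w hw
      rw [mem_insert, mem_singleton] at hw
      rcases hw with rfl | rfl
      · exact haN
      · exact hbN
    · intro w hw z hz hzB
      rw [mem_insert, mem_singleton] at hw
      rcases hw with rfl | rfl
      · exact mem_inter.2 ⟨hz, hzB⟩
      · exact mem_inter.2 ⟨Tw_nb5 hba hz (fun h1 => (mem_Co37.1 hzB).2 (h1 ▸ haN)), hzB⟩
  -- neighbours of `a` in `B`
  have hYZ : ∀ z ∈ G.nb a, z ∈ B → z ∈ Z := by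
    intro z hz hzB
    by_contra hzZ
    have hsub : insert z (Z ∪ X ∪ {b, r, r'}) ⊆ G.nb a := by
      intro w hw
      rw [mem_insert, mem_union, mem_union] at hw
      rcases hw with rfl | (hw | hw) | hw
      · exact hz
      · exact hZa w hw
      · exact (mem_inter.1 hw).1
      · rw [mem_insert, mem_insert, mem_singleton] at hw
        rcases hw with rfl | rfl | rfl
        · exact hab.1
        · exact G.sym _ _ (mem_S4.1 ha4).2.2.2
        · exact G.sym _ _ (Tw_nb5 h.tr (mem_S4.1 ha4).2.2.2 (mem_S4.1 ha4).2.2.1)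
    have hNd : ∀ w ∈ ({b, r, r'} : Finset V), w ∈ G.N B := by
      intro w hw
      rw [mem_insert, mem_insert, mem_singleton] at hw
      rcases hw with rfl | rfl | rfl
      · exact hbN
      · exact hr
      · exact hr'
    have hd1 : Disjoint Z X := by
      rw [disjoint_left]
      intro w hw hw'
      exact (mem_Co37.1 (mem_inter.1 hw').2).1 (mem_inter.1 hw).2
    have hd2 : Disjoint (Z ∪ X) ({b, r, r'} : Finset V) := by
      rw [disjoint_left]
      intro w hw hw'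
      have h1 := hNd w hw'
      rcases mem_union.1 hw with h2 | h2
      · exact (mem_N37.1 h1).1 (mem_inter.1 h2).2
      · exact (mem_Co37.1 (mem_inter.1 h2).2).2 h1
    have h3 : ({b, r, r'} : Finset V).card = 3 := by
      rw [card_insert_of_notMem, card_pair hrr]
      rw [mem_insert, mem_singleton, not_or]
      refine ⟨?_, (mem_S4.1 hb4).2.2.1⟩
      rintro rfl
      exact G.irr _ (mem_S4.1 hb4).2.2.2
    have hzn : z ∉ Z ∪ X ∪ {b, r, r'} := by
      rw [mem_union, mem_union, not_or, not_or]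
      exact ⟨⟨hzZ, fun h1 => (mem_Co37.1 (mem_inter.1 h1).2).1 hzB⟩,
        fun h1 => (mem_N37.1 (hNd z h1)).1 hzB⟩
    have h4 := card_le_card hsub
    rw [card_insert_of_notMem hzn, card_union_of_disjoint hd2, card_union_of_disjoint hd1, hZc,
      h3, hab.2.1] at h4
    omega
  have hr4 : ({a, b, r, r'} : Finset V).card = 4 := by
    rw [card_insert_of_notMem, card_insert_of_notMem, card_pair hrr]
    · rw [mem_insert, mem_singleton, not_or]
      refine ⟨?_, (mem_S4.1 hb4).2.2.1⟩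
      rintro rfl
      exact G.irr _ (mem_S4.1 hb4).2.2.2
    · rw [mem_insert, mem_insert, mem_singleton, not_or, not_or]
      refine ⟨habn, ?_, (mem_S4.1 ha4).2.2.1⟩
      rintro rfl
      exact G.irr _ (mem_S4.1 ha4).2.2.2
  have h2 := card_le_card (shrink (W := Z) (W' := {a, b, r, r'}) hB.1 ?_ ?_ (by omega))
  · have h3 := hB.2.1
    omega
  · intro w hw
    rw [mem_insert, mem_insert, mem_insert, mem_singleton] at hw
    rcases hw with rfl | rfl | rfl | rfl
    · exact haN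
    · exact hbN
    · exact hr
    · exact hr'
  · intro w hw z hz hzB
    rw [mem_insert, mem_insert] at hw
    rcases hw with rfl | rfl | hw
    · exact hYZ z hz hzB
    · exact hYZ z (Tw_nb5 hba hz (fun h1 => haB (h1 ▸ hzB))) hzB
    · exact hrZ w hw z hz hzB

/-- the induction: no good fragment `B` with `S` outside and `r` in `B` or in `N B` -/
theorem Cfg.none (h : Cfg G S q q' u v x y r r') : ∀ n : ℕ, ∀ B : Finset V, B.card = n →
    G.GoodK B → S ⊆ G.Co B → r ∈ B ∨ r ∈ G.N B → False := by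
  intro n
  induction n using Nat.strong_induction_on with
  | _ n ih =>
  intro B hn hB hSB hrB
  have h6 := stN6_37 G
  have hmin : ∀ B' : Finset V, G.GoodK B' → B' ⊂ B → r ∈ G.N B' → False := by
    intro B' h1 h2 h3
    exact ih _ (by rw [← hn]; exact card_lt_card h2) B' rfl h1
      (hSB.trans (Co_anti37 h2.1)) (Or.inr h3)
  rcases hrB with hr | hr
  · -- `r` in `B`
    apply h.fin1
    intro z hz
    have hz4 := mem_S4.1 hz
    apply h.cv hz
    by_contra hs
    rcases Gd57.structG G h6 (stCo_37 G) h.hC h.h9 hB hr h.rK hz4.2.2.2 (h.nK hz4.2.2.2) hs with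
      ⟨B', h1, h2, h3, -⟩ | ⟨h3, hzB⟩
    · exact hmin B' h1 h2 h3
    -- three vertices
    have huB : ∀ u v x y, Cfg G S q q' u v x y r r' → u ∈ G.N B := by
      intro u v x y h
      refine mem_N37.2 ⟨fun h1 => ?_, r, hr, h.ru⟩
      have h2 := mem_Co37.1 (hSB h.qS)
      rcases Gd57.nb_or h1 (h.mu.2 (Or.inl rfl)) with h3 | h3
      · exact h2.1 h3
      · exact h2.2 h3
    have huN := huB u v x y h
    have hvN := huB v u y x h.symm
    have hzu : ∀ u v x y, Cfg G S q q' u v x y r r' → z ∉ G.nb u := by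
      intro u v x y h h1
      refine hs ⟨{u}, Gd57.low_frag h.h9 h.lu, ?_, ?_, ?_⟩
      · rw [card_singleton]; omega
      · rw [N_single76]; exact G.sym _ _ h.ru
      · rw [N_single76]; exact h1
    have hr'B : r' ∈ B := by
      rcases Gd57.nb_or hr h.rr with h1 | h1
      · exact h1
      · exact absurd (Gd57.twin_N hB.1.1 h1 h.tr') (fun h2 => (mem_N37.1 h2).1 hr)
    have hrr : r ≠ r' := ne_of_nb5 h.rr
    have hrz : r ≠ z := ne_of_nb5 hz4.2.2.2
    have hB3 : B = {r, r', z} := by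
      symm
      apply eq_of_subset_of_card_le
      · intro w hw
        rw [mem_insert, mem_insert, mem_singleton] at hw
        rcases hw with rfl | rfl | rfl
        · exact hr
        · exact hr'B
        · exact hzB
      · rw [h3, card_insert_of_notMem, card_pair hz4.2.2.1.symm]
        rw [mem_insert, mem_singleton, not_or]
        exact ⟨hrr, hrz⟩
    have hsub : G.nb z ⊆ {r, r'} ∪ ((G.N B).erase u).erase v := by
      intro w hw
      rw [mem_union]
      rcases Gd57.nb_or hzB hw with h1 | h1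
      · left
        rw [hB3, mem_insert, mem_insert, mem_singleton] at h1
        rw [mem_insert, mem_singleton]
        rcases h1 with h2 | h2 | h2
        · exact Or.inl h2
        · exact Or.inr h2
        · exact absurd hw (by rw [h2]; exact G.irr z)
      · right
        rw [mem_erase, mem_erase]
        refine ⟨?_, ?_, h1⟩
        · rintro rfl
          exact hzu _ _ _ _ h.symm (G.sym _ _ hw)
        · rintro rfl
          exact hzu _ _ _ _ h (G.sym _ _ hw)
    have h7 := (card_le_card hsub).trans (card_union_le _ _)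
    rw [card_pair hrr, card_erase_of_mem (mem_erase.2 ⟨h.uv.symm, hvN⟩), card_erase_of_mem huN,
      hB.1.1.2.1] at h7
    have h8 := G.deg z
    rcases h.no3 z hz4.2.2.2 (by show (G.nb z).card = 6; omega) with h9 | h9
    · exact hz4.2.1 h9
    · exact hz4.1 h9
  · -- `r` in `N B`
    have hrB : r ∉ B := (mem_N37.1 hr).1
    apply h.fin2 hB.1 hSB hr
    intro z hz hzB
    have hz4 := mem_S4.1 hz
    apply h.cv hz
    by_contra hs
    have hs' : ¬ G.SCov z r := by
      rintro ⟨E, h1, h2, h3, h4⟩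
      exact hs ⟨E, h1, h2, h4, h3⟩
    rcases Gd57.structG G h6 (stCo_37 G) h.hC h.h9 hB hzB (h.nK hz4.2.2.2)
      (G.sym _ _ hz4.2.2.2) h.rK hs' with ⟨B', h1, h2, -, h3⟩ | ⟨-, h3⟩
    · exact hmin B' h1 h2 h3
    · exact hrB h3

theorem Cfg.false (h : Cfg G S q q' u v x y r r') : False := by
  classical
  have hrS : r ∉ S := fun h1 => h.rK ⟨S, h.hS, h1⟩
  have hrN : r ∉ G.N S := fun h1 => h.rl (k6_low16 h.hC h.h9 h.hS h1).1
  have hne : (G.Co S).Nonempty := ⟨r, mem_Co37.2 ⟨hrS, hrN⟩⟩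
  have hF := Gd57.k6_N h.hC h.h9 h.hS hne
  obtain ⟨h1, h2, h3⟩ := stCo_37 G S hF
  have hsub : ((G.nb r).erase u).erase v ⊆ G.Co S := by
    intro w hw
    rw [mem_erase, mem_erase] at hw
    refine mem_Co37.2 ⟨fun h4 => h.sr h4 (G.sym _ _ hw.2.2), fun h4 => ?_⟩
    rcases h.no3 w hw.2.2 (k6_low16 h.hC h.h9 h.hS h4).1 with h5 | h5
    · exact hw.2.1 h5
    · exact hw.1 h5
  have h4 := card_le_card hsub
  rw [card_erase_of_mem (mem_erase.2 ⟨h.uv.symm, h.rv⟩), card_erase_of_mem h.ru, h.r7] at h4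
  refine h.none _ (G.Co S) rfl ⟨⟨h1, by omega, by rw [h3, h.hS.1]; omega⟩, ?_⟩
    (by rw [h3]) (Or.inl (mem_Co37.2 ⟨hrS, hrN⟩))
  intro w hw
  rw [h2] at hw
  exact Gd57.low_not (k6_low16 h.hC h.h9 h.hS hw).1

end

end T98

open T98 in
/-- LEMMA T: if the ports `u`, `v` of a vertex `q` of a `K6` form an `LL` pair and are adjacent to
the pair `r`, `r'` of twins (in no `K6`), then `r` has a third low neighbour -/
theorem third98 {G : CG V} (hC : G.Crit) (h9 : 9 ≤ Fintype.card V) {S : Finset V}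
    (hS : G.IsK6 S) {q u v x y r r' : V} (hq : q ∈ S) (hu : u ∈ G.nb q) (hv : v ∈ G.nb q)
    (huS : u ∉ S) (hvS : v ∉ S) (hLL : G.LL u v x y) (hr : G.Tw r r') (hrK : ¬ G.InK r)
    (hru : r ∈ G.nb u) (hrv : r ∈ G.nb v) : ∃ w, G.Low w ∧ w ∈ G.nb r ∧ w ≠ u ∧ w ≠ v := by
  classical
  by_contra hno
  push Not at hno
  have htw := stTwHL_5 G
  obtain ⟨q', hqq⟩ := hS.2.1 q hq
  have hq'S := k6_twin16 hC h9 hS hq hqq
  have hrl : ¬ G.Low r := by
    intro h1
    have h2 : (G.nb r).card = 6 := h1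
    have := hr.2.1
    omega
  have hrl' : ¬ G.Low r' := by
    intro h1
    have h2 : (G.nb r').card = 6 := h1
    have := (htw.symm _ _ hr).2.1
    omega
  have huv : v ∈ G.nb u := LL_ab76 hLL
  have hrS : r ∉ S := fun h1 => hrK ⟨S, hS, h1⟩
  have hr'S : r' ∉ S := fun h1 => hrK ⟨S, hS, k6_twin16 hC h9 hS h1 (htw.symm _ _ hr)⟩
  -- the neighbours of a port
  have key : ∀ u v x y, G.LL u v x y → u ∈ G.nb q → v ∈ G.nb q → u ∉ S → v ∉ S →
      r ∈ G.nb u → r ∈ G.nb v → G.nb u = {q, q', v, r, r', x} ∧ x ∉ G.nb v ∧ x ∉ S := by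
    intro u v x y hLL hu hv huS hvS hru hrv
    have hlu : G.Low u := hLL.1
    have hlv : G.Low v := hLL.2.1
    have hxu := LL_t76 hLL
    have hxv := LL_tb76 hLL
    have hq'v : q' ∈ G.nb v := G.sym _ _ (Tw_nb5 hqq hv (fun h1 => hvS (h1 ▸ hq'S)))
    have hq'u : q' ∈ G.nb u := G.sym _ _ (Tw_nb5 hqq hu (fun h1 => huS (h1 ▸ hq'S)))
    have hr'v : r' ∈ G.nb v := G.sym _ _ (Tw_nb5 hr (G.sym _ _ hrv) (fun h1 => hrl' (h1 ▸ hlv)))
    have hr'u : r' ∈ G.nb u := G.sym _ _ (Tw_nb5 hr (G.sym _ _ hru) (fun h1 => hrl' (h1 ▸ hlu)))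
    have hsub : ({q, q', v, r, r', x} : Finset V) ⊆ G.nb u := by
      intro w hw
      simp only [mem_insert, mem_singleton] at hw
      rcases hw with rfl | rfl | rfl | rfl | rfl | rfl
      · exact G.sym _ _ hu
      · exact hq'u
      · exact LL_ab76 hLL
      · exact hru
      · exact hr'u
      · exact hxu
    have hne1 : q ≠ q' := ne_of_nb5 hqq.1
    have hne2 : r ≠ r' := ne_of_nb5 hr.1
    have hqr : q ≠ r := fun h1 => hrS (h1 ▸ hq)
    have hqr' : q ≠ r' := fun h1 => hr'S (h1 ▸ hq)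
    have hq'r : q' ≠ r := fun h1 => hrS (h1 ▸ hq'S)
    have hq'r' : q' ≠ r' := fun h1 => hr'S (h1 ▸ hq'S)
    have hqv : q ≠ v := fun h1 => hvS (h1 ▸ hq)
    have hq'v' : q' ≠ v := fun h1 => hvS (h1 ▸ hq'S)
    have hvr : v ≠ r := fun h1 => hrl (h1 ▸ hlv)
    have hvr' : v ≠ r' := fun h1 => hrl' (h1 ▸ hlv)
    have hqx : q ≠ x := fun h1 => hxv.1 (h1 ▸ G.sym _ _ hv)
    have hq'x : q' ≠ x := fun h1 => hxv.1 (h1 ▸ hq'v)
    have hvx : v ≠ x := hxv.2.symm
    have hrx : r ≠ x := fun h1 => hxv.1 (h1 ▸ hrv)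
    have hr'x : r' ≠ x := fun h1 => hxv.1 (h1 ▸ hr'v)
    have hc : ({q, q', v, r, r', x} : Finset V).card = 6 := by
      rw [card_insert_of_notMem, card_insert_of_notMem, card_insert_of_notMem,
        card_insert_of_notMem, card_pair hr'x]
      · simp only [mem_insert, mem_singleton, not_or]
        exact ⟨hne2, hrx⟩
      · simp only [mem_insert, mem_singleton, not_or]
        exact ⟨hvr, hvr', hvx⟩
      · simp only [mem_insert, mem_singleton, not_or]
        exact ⟨hq'v', hq'r, hq'r', hq'x⟩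
      · simp only [mem_insert, mem_singleton, not_or]
        exact ⟨hne1, hqv, hqr, hqr', hqx⟩
    have hnu : G.nb u = {q, q', v, r, r', x} := by
      symm
      apply eq_of_subset_of_card_le hsub
      rw [hc]
      exact hlu.le
    refine ⟨hnu, hxv.1, fun hxS => ?_⟩
    -- `u` has only two neighbours in `S`
    have hne : (G.Co S).Nonempty :=
      ⟨r, mem_Co37.2 ⟨hrS, fun h1 => hrl (k6_low16 hC h9 hS h1).1⟩⟩
    have h2 := K38.two hC h9 hS (Gd57.k6_N hC h9 hS hne).2.1 u (mem_N37.2 ⟨huS, q, hq, hu⟩)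
    have h3 : ({q, q', x} : Finset V) ⊆ G.nb u ∩ S := by
      intro w hw
      simp only [mem_insert, mem_singleton] at hw
      rcases hw with rfl | rfl | rfl
      · exact mem_inter.2 ⟨G.sym _ _ hu, hq⟩
      · exact mem_inter.2 ⟨hq'u, hq'S⟩
      · exact mem_inter.2 ⟨hxu, hxS⟩
    have h4 := card_le_card h3
    rw [h2, card_insert_of_notMem, card_pair hq'x] at h4
    · omega
    · simp only [mem_insert, mem_singleton, not_or]
      exact ⟨hne1, hqx⟩
  obtain ⟨k1, k2, k3⟩ := key u v x y hLL hu hv huS hvS hru hrv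
  obtain ⟨m1, m2, m3⟩ := key v u y x (LL_symm76 hLL) hv hu hvS huS hrv hru
  refine T98.Cfg.false (G := G) (S := S) (q := q) (q' := q') (u := u) (v := v) (x := x) (y := y)
    (r := r) (r' := r') ⟨hC, h9, hS, hq, hq'S, huS, hvS, ne_of_nb5 huv, hLL.1, hLL.2.1, k1, m1,
      k2, m2, k3, m3, hr, hrK, ?_⟩
  intro w hw hl
  by_contra h1
  push Not at h1
  exact h1.2 (hno w hl hw h1.1)

end CG

end Pool.Agent.Lib.MP_e95c01_co.N
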