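import Pool.Agent.Lib.MP_e95c01_co.Y.Val33
import Pool.Agent.Lib.MP_e95c01_co.Y.Third98
import Pool.Agent.Lib.MP_e95c01_co.Y.Fine38

/-!
# Leaves with at least five vertices and without low vertices: ports and values
-/

set_option autoImplicit false

namespace Pool.Agent.Lib.MP_e95c01_co.N

open Finset

variable {V : Type} [Fintype V] [DecidableEq V]

namespace CG

namespace Lf38

variable {G : CG V} {F : Finset V}

/-- the situation -/
structure Li (G : CG V) (F : Finset V) : Prop where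
  f : G.Lf F
  c5 : 5 ≤ F.card
  crit : G.Crit
  good : G.GoodK F
  nolow : ∀ z ∈ F, ¬ G.Low z
  noK : ∀ S, G.IsK6 S → ¬ S ⊆ F
  P0 : G.P5 F = 0
  sm : ∑ w ∈ univ.filter (fun w => G.Low w), G.thS F w ≤ 3

theorem Li.n9 (c : Li G F) : 9 ≤ Fintype.card V := le_trans (by norm_num) c.f.n12

theorem Li.c6 (c : Li G F) : (G.N F).card = 6 := c.f.big.1.2.1

theorem Li.l0 (c : Li G F) : G.l F = 0 := by
  rw [l, card_eq_zero, filter_eq_empty_iff]
  exact fun x hx => c.nolow x hx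

/-- the sum of the values -/
theorem Li.sum (c : Li G F) : ∑ w ∈ G.N F, G.gam5 F w = 4 * (F.card : ℤ) + 12 := by
  have h1 := G.stLP_16 F c.f.big
  rw [c.P0, c.l0] at h1
  push_cast at h1
  linarith

theorem Li.pos (c : Li G F) {w : V} (hw : w ∈ G.N F) : 2 ≤ G.d w F :=
  G.stLBas_11.pos F c.f w hw

/-- numbers of neighbours -/
theorem Li.split (_ : Li G F) (w : V) :
    (G.nb w).card = G.d w F + (G.pT F w).card + G.d w (G.Co F) := (d_split76 w F).symm

theorem Li.low_in (c : Li G F) {w : V} (hw : w ∈ G.N F)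
    (hb : ¬ G.BadC (G.Co F) w) : 2 ≤ G.thS F w ∧ (G.d w (G.Co F) ≤ 1 → G.thS F w = 4) := by
  have h1 := c.pos hw
  unfold thS
  rw [if_neg hb, theta_N6 hw, if_neg (by omega)]
  constructor
  · split_ifs <;> norm_num
  · intro h
    rw [if_pos h]

theorem Li.th_le (c : Li G F) (A : Finset V) (hA : ∀ w ∈ A, G.Low w) :
    ∑ w ∈ A, G.thS F w ≤ 3 := by
  refine le_trans ?_ c.sm
  apply sum_le_sum_of_subset_of_nonneg
  · intro w hw
    exact mem_filter.2 ⟨mem_univ _, hA w hw⟩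
  · exact fun w _ _ => thS_nonneg33 F w

/-- at most one low vertex is no port -/
theorem Li.one (c : Li G F) {w w' : V} (hw : w ∈ G.N F) (hl : G.Low w)
    (hb : ¬ G.BadC (G.Co F) w) (hw' : w' ∈ G.N F) (hl' : G.Low w')
    (hb' : ¬ G.BadC (G.Co F) w') : w = w' := by
  by_contra hne
  have h1 := (c.low_in hw hb).1
  have h2 := (c.low_in hw' hb').1
  have h3 := c.th_le {w, w'} (by
    intro x hx
    rw [mem_insert, mem_singleton] at hx
    rcases hx with rfl | rfl
    · exact hl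
    · exact hl')
  rw [sum_pair hne] at h3
  linarith

theorem Li.mem_or (_ : Li G F) {u w : V} (hu : u ∈ F) (hw : w ∈ G.nb u) : w ∈ F ∨ w ∈ G.N F := by
  by_cases h : w ∈ F
  · exact Or.inl h
  · exact Or.inr (mem_N76.2 ⟨h, u, hu, hw⟩)

/-- a neighbour of a vertex on the other side is not in `F` -/
theorem Li.Co_nb (_ : Li G F) {u w : V} (hu : u ∈ G.Co F) (hw : w ∈ G.nb u) : w ∉ F := by
  intro h
  have h1 := mem_Co76.1 hu
  exact h1.2 (mem_N76.2 ⟨h1.1, w, h, G.sym _ _ hw⟩)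

/-- `u` and `u'` are the ports of the pair `q`, `q'` of a `K6` on the other side -/
structure Po (G : CG V) (F S : Finset V) (q q' u u' x y : V) : Prop where
  hS : G.IsK6 S
  hSC : S ⊆ G.Co F
  hq : q ∈ S
  hq' : q' ∈ S
  tw : G.Tw q q'
  uq : u ∈ G.nb q
  uq' : u' ∈ G.nb q
  uS : u ∉ S
  uS' : u' ∉ S
  LL : G.LL u u' x y
  uN : u ∈ G.N F
  uN' : u' ∈ G.N F
  bu : G.BadC (G.Co F) u
  bu' : G.BadC (G.Co F) u'

theorem Po.symm {S : Finset V} {q q' u u' x y : V} (p : Po G F S q q' u u' x y) :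
    Po G F S q q' u' u y x :=
  ⟨p.hS, p.hSC, p.hq, p.hq', p.tw, p.uq', p.uq, p.uS', p.uS, LL_symm76 p.LL, p.uN', p.uN,
    p.bu', p.bu⟩

/-- the relation between the two ports -/
def Pa (G : CG V) (F : Finset V) (u u' : V) : Prop := ∃ S q q' x y, Po G F S q q' u u' x y

theorem Pa.symm {u u' : V} (h : Pa G F u u') : Pa G F u' u := by
  obtain ⟨S, q, q', x, y, p⟩ := h
  exact ⟨S, q, q', y, x, p.symm⟩

theorem Po.adjq' {S : Finset V} {q q' u u' x y : V} (p : Po G F S q q' u u' x y) :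
    u ∈ G.nb q' := by
  have h1 : u ∈ G.cl q' := by
    rw [← p.tw.2.2]
    exact mem_insert_of_mem p.uq
  rcases mem_insert.1 h1 with h2 | h2
  · exact absurd (h2 ▸ p.hq') p.uS
  · exact h2

theorem Po.qq {S : Finset V} {q q' u u' x y : V} (p : Po G F S q q' u u' x y) : q ≠ q' :=
  ne_of_nb5 p.tw.1

/-- the visible neighbours of a port -/
theorem Po.vis (c : Li G F) {S : Finset V} {q q' u u' x y : V} (p : Po G F S q q' u u' x y) :
    G.d u F + (G.pT F u).card ≤ 4 ∧ 2 ≤ G.d u (G.Co F) ∧ 1 ≤ (G.pT F u).card := by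
  have h1 := c.split u
  have h2 : (G.nb u).card = 6 := p.LL.1
  have h3 : 2 ≤ G.d u (G.Co F) := by
    have h4 : ({q, q'} : Finset V) ⊆ G.nb u ∩ G.Co F := by
      intro z hz
      rw [mem_insert, mem_singleton] at hz
      rw [mem_inter]
      rcases hz with rfl | rfl
      · exact ⟨G.sym _ _ p.uq, p.hSC p.hq⟩
      · exact ⟨G.sym _ _ p.adjq', p.hSC p.hq'⟩
    have h5 := card_le_card h4
    rw [card_pair p.qq] at h5
    exact h5
  have h6 : 1 ≤ (G.pT F u).card := card_pos.2 ⟨u', mem_inter.2 ⟨p.LL.2.2.1, p.uN'⟩⟩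
  omega

/-- every costly port has a partner in `N F` -/
theorem Li.partner (c : Li G F) {u : V} (hu : u ∈ G.N F) (hb : G.BadC (G.Co F) u) :
    ∃ u', Pa G F u u' := by
  obtain ⟨S, hB, hne⟩ := hb
  have hSC : S ⊆ G.Co F := good_k6_Co c.good.2 S hB.choose_spec.1.1 hne
  obtain ⟨q, hPL, huq, huS⟩ := hB
  obtain ⟨hS, hq, u1, u2, x, y, h1, h2, h3, h4, h5, h6⟩ := hPL
  have h7 := hS.2.1 q hq
  obtain ⟨q', htw⟩ := h7
  have hq' := k6_twin16 c.crit c.n9 hS hq htw
  obtain ⟨a, b, hab, -, -, -, -, -, -, -, hall⟩ := K38.ports c.crit c.n9 hS hq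
  have hne12 : u1 ≠ u2 := ne_of_nb5 h5.2.2.1
  -- one of the two is `u`
  have hcase : u = u1 ∨ u = u2 := by
    have e1 := hall u huq huS
    have e2 := hall u1 h1 h3
    have e3 := hall u2 h2 h4
    rcases e1 with rfl | rfl <;> rcases e2 with rfl | rfl <;> rcases e3 with rfl | rfl <;>
      simp_all
  have main : ∀ u u' x y, G.LL u u' x y → u ∈ G.nb q → u' ∈ G.nb q → u ∉ S → u' ∉ S →
      (¬ (x ∈ G.N S ∧ y ∈ G.N S) ∧ Disjoint (G.nb u ∩ G.nb u') (G.N S)) → u ∈ G.N F →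
      ∃ u', Pa G F u u' := by
    intro u u' x y hL a1 a2 a3 a4 a5 a6
    have hPL' : G.PLb S q := ⟨hS, hq, u, u', x, y, a1, a2, a3, a4, hL, a5⟩
    have b1 : G.BadC (G.Co F) u := ⟨S, ⟨q, hPL', a1, a3⟩, hne⟩
    have b2 : G.BadC (G.Co F) u' := ⟨S, ⟨q, hPL', a2, a4⟩, hne⟩
    have hu'F : u' ∉ F := c.Co_nb (hSC hq) a2
    refine ⟨u', S, q, q', x, y, hS, hSC, hq, hq', htw, a1, a2, a3, a4, hL, a6, ?_, b1, b2⟩
    by_contra hN
    have hu'C : u' ∈ G.Co F := mem_Co76.2 ⟨hu'F, hN⟩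
    -- then `u` has at most one neighbour in `F`
    have h8 := c.pos a6
    have h9 : G.nb u ∩ F ⊆ {x} := by
      intro z hz
      rw [mem_inter] at hz
      rw [mem_singleton]
      have h10 : z ∈ insert x (G.cl u') := by
        rw [← hL.2.2.2.2.2.2]
        exact mem_insert_of_mem (mem_insert_of_mem hz.1)
      rcases mem_insert.1 h10 with h11 | h11
      · exact h11
      · rcases mem_insert.1 h11 with h12 | h12
        · exact absurd (h12 ▸ hz.2) hu'F
        · exact absurd hz.2 (c.Co_nb hu'C h12)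
    have h10 := card_le_card h9
    rw [card_singleton] at h10
    have h11 : (G.nb u ∩ F).card = G.d u F := rfl
    omega
  rcases hcase with rfl | rfl
  · exact main u u2 x y h5 h1 h2 h3 h4 h6 hu
  · exact main u u1 y x (LL_symm76 h5) h2 h1 h4 h3
      ⟨fun h => h6.1 ⟨h.2, h.1⟩, by rw [inter_comm]; exact h6.2⟩ hu

/-- the partner is unique -/
theorem Pa.uniq (c : Li G F) {u a b : V} (ha : Pa G F u a) (hb : Pa G F u b) : a = b := by
  obtain ⟨S, q, q', x, y, p⟩ := ha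
  obtain ⟨S2, r, r', x2, y2, p2⟩ := hb
  -- `r` is in `{q, q'}`
  have h1 : r = q ∨ r = q' := by
    by_contra hno
    push Not at hno
    have hr' : r' ≠ q ∧ r' ≠ q' := by
      constructor
      · rintro rfl
        have := (stTwHL_5 G).uniq c.n9 _ _ _ p.tw ((stTwHL_5 G).symm _ _ p2.tw)
        exact hno.2 this.symm
      · rintro rfl
        have := (stTwHL_5 G).uniq c.n9 _ _ _ ((stTwHL_5 G).symm _ _ p.tw)
          ((stTwHL_5 G).symm _ _ p2.tw)
        exact hno.1 this.symm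
    have h2 : ({q, q', r, r'} : Finset V) ⊆ G.nb u ∩ G.Co F := by
      intro z hz
      simp only [mem_insert, mem_singleton] at hz
      rw [mem_inter]
      rcases hz with rfl | rfl | rfl | rfl
      · exact ⟨G.sym _ _ p.uq, p.hSC p.hq⟩
      · exact ⟨G.sym _ _ p.adjq', p.hSC p.hq'⟩
      · exact ⟨G.sym _ _ p2.uq, p2.hSC p2.hq⟩
      · exact ⟨G.sym _ _ p2.adjq', p2.hSC p2.hq'⟩
    have h3 := card_le_card h2
    rw [card_insert_of_notMem, card_insert_of_notMem, card_pair p2.qq] at h3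
    · have h4 := c.split u
      have h5 : (G.nb u).card = 6 := p.LL.1
      have h6 := c.pos p.uN
      have h7 := (Po.vis c p).2.2
      have h8 : (G.nb u ∩ G.Co F).card = G.d u (G.Co F) := rfl
      omega
    · simp only [mem_insert, mem_singleton, not_or]
      exact ⟨hno.2.symm, hr'.2.symm⟩
    · simp only [mem_insert, mem_singleton, not_or]
      exact ⟨p.qq, hno.1.symm, hr'.1.symm⟩
  have hrS : r ∈ S := by
    rcases h1 with rfl | rfl
    · exact p.hq
    · exact p.hq'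
  have hSS : S2 = S := k6_eq16 c.crit c.n9 p2.hS p.hS p2.hq hrS
  subst hSS
  obtain ⟨a1, b1, hab, -, -, -, -, -, -, -, hall⟩ := K38.ports c.crit c.n9 p.hS hrS
  -- all three are ports of `r`
  have hu : u ∈ G.nb r := p2.uq
  have hb' : b ∈ G.nb r := p2.uq'
  have ha' : a ∈ G.nb r := by
    rcases h1 with rfl | rfl
    · exact p.uq'
    · exact (Po.adjq' p.symm)
  have e1 := hall u hu p.uS
  have e2 := hall a ha' p.uS'
  have e3 := hall b hb' p2.uS'
  have n1 : u ≠ a := ne_of_nb5 p.LL.2.2.1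
  have n2 : u ≠ b := ne_of_nb5 p2.LL.2.2.1
  rcases e1 with rfl | rfl <;> rcases e2 with rfl | rfl <;> rcases e3 with rfl | rfl <;> simp_all

open Classical in
/-- the ports in `N F` -/
noncomputable def pts (G : CG V) (F : Finset V) : Finset V :=
  (G.N F).filter fun w => G.BadC (G.Co F) w

theorem mem_pts {w : V} : w ∈ pts G F ↔ w ∈ G.N F ∧ G.BadC (G.Co F) w := by
  classical
  rw [pts, mem_filter]

/-- a set of ports that contains all the partners is even -/
theorem even_closed (c : Li G F) {X : Finset V} (hX : ∀ u ∈ X, ∃ u' ∈ X, Pa G F u u') :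
    Even X.card := by
  classical
  have h1 : ∀ u, ∃ u', u ∈ X → u' ∈ X ∧ Pa G F u u' := by
    intro u
    by_cases h : u ∈ X
    · obtain ⟨u', h2, h3⟩ := hX u h
      exact ⟨u', fun _ => ⟨h2, h3⟩⟩
    · exact ⟨u, fun h2 => absurd h2 h⟩
  choose f hf using h1
  have h2 : ∑ _u ∈ X, (1 : ZMod 2) = 0 := by
    refine sum_involution (fun u _ => f u) ?_ ?_ ?_ ?_
    · intro u _
      decide
    · intro u hu _ h3
      obtain ⟨S, q, q', x, y, p⟩ := (hf u hu).2
      exact G.irr u (by have := p.LL.2.2.1; rwa [h3] at this)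
    · exact fun u hu => (hf u hu).1
    · intro u hu
      have h3 := (hf u hu).2
      have h4 := (hf (f u) (hf u hu).1).2
      exact Pa.uniq c h4 h3.symm
  rw [sum_const, nsmul_eq_mul, mul_one] at h2
  exact (ZMod.natCast_eq_zero_iff_even).1 h2

/-- the sum over the ports -/
theorem Li.sum_pts (c : Li G F) (f : V → ℤ) (k : ℤ) (h : ∀ u u', Pa G F u u' → f u + f u' ≤ 2 * k) :
    ∑ u ∈ pts G F, f u ≤ k * ((pts G F).card : ℤ) := by
  classical
  have h1 : ∀ u, ∃ u', u ∈ pts G F → Pa G F u u' := by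
    intro u
    by_cases h : u ∈ pts G F
    · obtain ⟨u', h3⟩ := c.partner (mem_pts.1 h).1 (mem_pts.1 h).2
      exact ⟨u', fun _ => h3⟩
    · exact ⟨u, fun h2 => absurd h2 h⟩
  choose g hg using h1
  have hm : ∀ u ∈ pts G F, g u ∈ pts G F := by
    intro u hu
    obtain ⟨S, q, q', x, y, p⟩ := hg u hu
    exact mem_pts.2 ⟨p.uN', p.bu'⟩
  have hgg : ∀ u ∈ pts G F, g (g u) = u := fun u hu =>
    Pa.uniq c (hg (g u) (hm u hu)) (hg u hu).symm
  have h2 : ∑ u ∈ pts G F, f (g u) = ∑ u ∈ pts G F, f u :=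
    sum_nbij' g g hm hm hgg hgg fun _ _ => rfl
  have h3 : ∑ u ∈ pts G F, (f u + f (g u)) ≤ ∑ u ∈ pts G F, 2 * k :=
    sum_le_sum fun u hu => h u (g u) (hg u hu)
  rw [sum_add_distrib, h2, sum_const, nsmul_eq_mul] at h3
  linarith

/-! ### values -/

theorem Li.N_Co (c : Li G F) : G.N (G.Co F) = G.N F := (G.stCo_37 F c.f.big.1).2.1

theorem Li.Co_Co (c : Li G F) : G.Co (G.Co F) = F := (G.stCo_37 F c.f.big.1).2.2

theorem Li.pT_Co (c : Li G F) (w : V) : G.pT (G.Co F) w = G.pT F w := by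
  rw [pT, pT, c.N_Co]

theorem s5_le2 (S : Finset V) (w : V) : G.s5 S w ≤ 2 := by
  unfold s5
  split_ifs <;> norm_num

theorem s5_pos {S : Finset V} {w : V} (h : 0 < G.s5 S w) :
    (G.pX S w).card = 2 ∧ (G.pT S w).card = 1 := by
  have key : ∀ v, G.S0 S w v → (G.pX S w).card = 2 ∧ (G.pT S w).card = 1 := by
    rintro v ⟨-, -, -, h1, ⟨q, q', h2, h3, -⟩, -⟩
    rw [h1, h3, card_singleton, card_pair (ne_of_nb5 h2.1)]
    exact ⟨rfl, rfl⟩
  unfold s5 at h
  split_ifs at h with h1 h2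
  · obtain ⟨v, h3, -⟩ := h1
    exact key v h3
  · obtain ⟨v, h3, -⟩ := h2
    exact key v h3
  · norm_num at h

open Classical in
/-- upper bound for the value of a low vertex -/
theorem Li.gam_low (c : Li G F) {w : V} (hw : w ∈ G.N F) (hl : G.Low w)
    (h2 : 2 ≤ G.d w (G.Co F)) : G.d w F + (G.pT F w).card ≤ 4 ∧
    G.gam5 F w ≤ 4 * (G.d w F : ℤ) + 2 * ((G.pT F w).card : ℤ) - 6 + G.s5 F w -
      G.s5 (G.Co F) w + 2 * (if G.T3 (G.Co F) w then 1 else 0) := by
  have h1 := c.split w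
  have h3 : (G.nb w).card = 6 := hl
  have h4 := c.pos hw
  refine ⟨by omega, ?_⟩
  have g1 : ¬ G.U3 F w := by
    rintro ⟨-, -, h5, v, v', h6, h7⟩
    have h8 : (G.pX F w).card = G.d w F := rfl
    rw [h7, card_pair (ne_of_nb5 h6.1)] at h1
    omega
  have g2 : ¬ G.HF (G.Co F) w := by
    rintro ⟨-, -, h5, a, b, -, -, -, h6⟩
    have h8 : (G.pX (G.Co F) w).card = G.d w (G.Co F) := rfl
    rw [c.pT_Co] at h6
    rw [h6, card_singleton] at h1
    omega
  have g3 : ∀ S, ¬ G.RF S w := by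
    rintro S ⟨-, p', m, m', h5, -⟩
    exact tw_not_low11 ⟨p', h5⟩ hl
  rw [gam5, if_pos hl, flv, flv, if_neg g1, if_neg g2, if_neg (g3 _), if_neg (g3 _)]
  split_ifs <;> linarith

/-- the value of a low vertex -/
theorem Li.gam_le10 (c : Li G F) {w : V} (hw : w ∈ G.N F) (hl : G.Low w)
    (h2 : 2 ≤ G.d w (G.Co F)) : G.gam5 F w ≤ 10 := by
  classical
  obtain ⟨h3, h4⟩ := c.gam_low hw hl h2
  have h5 := c.pos hw
  have h6 := K38.s5_nonneg (G := G) (G.Co F) w
  have h7 := s5_le2 (G := G) F w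
  have h9 : (if G.T3 (G.Co F) w then 1 else 0 : ℤ) ≤ 1 := by split_ifs <;> norm_num
  have hcase : (G.d w F = 2 ∧ (G.pT F w).card ≤ 2) ∨ (G.d w F = 3 ∧ (G.pT F w).card ≤ 1) ∨
      (G.d w F = 4 ∧ (G.pT F w).card = 0) := by omega
  rcases hcase with ⟨a, b⟩ | ⟨a, b⟩ | ⟨a, b⟩
  · by_cases h8 : 0 < G.s5 F w
    · have := (s5_pos h8).2
      rw [a, this] at h4
      push_cast at h4
      linarith
    · have b' : ((G.pT F w).card : ℤ) ≤ 2 := by exact_mod_cast b
      rw [a] at h4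
      push_cast at h4
      linarith
  · have h8 : ¬ 0 < G.s5 F w := by
      intro h8
      have := (s5_pos h8).1
      have h10 : (G.pX F w).card = G.d w F := rfl
      omega
    have h10 : ¬ G.T3 (G.Co F) w := by
      rintro ⟨-, -, -, Q, Q', r, r', h, h11, -, -, h12, -⟩
      rw [c.pT_Co] at h12
      rw [h12, card_pair (ne_of_nb5 h11.1)] at b
      omega
    have b' : ((G.pT F w).card : ℤ) ≤ 1 := by exact_mod_cast b
    rw [a, if_neg h10] at h4
    push_cast at h4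
    linarith
  · have h8 : ¬ 0 < G.s5 F w := by
      intro h8
      have := (s5_pos h8).1
      have h10 : (G.pX F w).card = G.d w F := rfl
      omega
    have h10 : ¬ G.T3 (G.Co F) w := by
      rintro ⟨-, -, -, Q, Q', r, r', h, h11, -, -, h12, -⟩
      rw [c.pT_Co] at h12
      rw [h12, card_pair (ne_of_nb5 h11.1)] at b
      omega
    rw [a, b, if_neg h10] at h4
    push_cast at h4
    linarith

/-- a port: no flag `T3` -/
theorem Po.noT3 (c : Li G F) {S : Finset V} {q q' u u' x y : V} (p : Po G F S q q' u u' x y) :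
    ¬ G.T3 (G.Co F) u := by
  rintro ⟨-, -, -, Q, Q', r, r', h, h11, -, -, h12, -⟩
  rw [c.pT_Co] at h12
  have h1 : u' ∈ G.pT F u := mem_inter.2 ⟨p.LL.2.2.1, p.uN'⟩
  rw [h12, mem_insert, mem_singleton] at h1
  have h2 : G.Low u' := p.LL.2.1
  rcases h1 with rfl | rfl
  · exact tw_not_low11 ⟨_, h11⟩ h2
  · exact tw_not_low11 ⟨_, (stTwHL_5 G).symm _ _ h11⟩ h2

/-- a port with three neighbours in `F` has the flag -/
theorem Po.flag (c : Li G F) {S : Finset V} {q q' u u' x y : V} (p : Po G F S q q' u u' x y)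
    (h3 : G.d u F = 3) (h1 : (G.pT F u').card = 1) : 1 ≤ G.s5 (G.Co F) u := by
  obtain ⟨a1, a2, a3⟩ := Po.vis c p
  have h4 := c.split u
  have h5 : (G.nb u).card = 6 := p.LL.1
  have hT : G.pT F u = {u'} := by
    have h6 : (G.pT F u).card = 1 := by omega
    obtain ⟨z, hz⟩ := card_eq_one.1 h6
    have h7 : u' ∈ G.pT F u := mem_inter.2 ⟨p.LL.2.2.1, p.uN'⟩
    rw [hz, mem_singleton] at h7
    rw [hz, h7]
  have hT' : G.pT F u' = {u} := by
    obtain ⟨z, hz⟩ := card_eq_one.1 h1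
    have h7 : u ∈ G.pT F u' := mem_inter.2 ⟨G.sym _ _ p.LL.2.2.1, p.uN⟩
    rw [hz, mem_singleton] at h7
    rw [hz, h7]
  have hX : G.pX (G.Co F) u = {q, q'} := by
    symm
    apply eq_of_subset_of_card_le
    · intro z hz
      rw [mem_insert, mem_singleton] at hz
      rw [pX, mem_inter]
      rcases hz with rfl | rfl
      · exact ⟨G.sym _ _ p.uq, p.hSC p.hq⟩
      · exact ⟨G.sym _ _ p.adjq', p.hSC p.hq'⟩
    · rw [card_pair p.qq]
      have h8 : (G.pX (G.Co F) u).card = G.d u (G.Co F) := rfl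
      omega
  have hS0 : G.S0 (G.Co F) u u' := by
    refine ⟨by rw [c.N_Co]; exact p.uN, p.LL.1, p.LL.2.1, by rw [c.pT_Co]; exact hT,
      ⟨q, q', p.tw, hX, G.sym _ _ p.uq'⟩, ?_⟩
    rintro ⟨-, h8⟩
    rw [pO, c.Co_Co] at h8
    have h9 := c.pos p.uN'
    have h10 : (G.nb u' ∩ F).card = G.d u' F := rfl
    omega
  unfold s5
  split_ifs with h8 h9
  · norm_num
  · norm_num
  · exact absurd ⟨u', hS0, by rw [c.pT_Co]; exact hT'⟩ h9

/-- the value of the two ports -/
theorem Po.gam (c : Li G F) {S : Finset V} {q q' u u' x y : V} (p : Po G F S q q' u u' x y) :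
    G.gam5 F u + G.gam5 F u' ≤ 14 := by
  classical
  obtain ⟨a1, a2, a3⟩ := Po.vis c p
  obtain ⟨b1, b2, b3⟩ := Po.vis c p.symm
  obtain ⟨-, g1⟩ := c.gam_low p.uN p.LL.1 a2
  obtain ⟨-, g2⟩ := c.gam_low p.uN' p.LL.2.1 b2
  rw [if_neg (Po.noT3 c p)] at g1
  rw [if_neg (Po.noT3 c p.symm)] at g2
  have a4 := c.pos p.uN
  have b4 := c.pos p.uN'
  have n1 := K38.s5_nonneg (G := G) (G.Co F) u
  have n2 := K38.s5_nonneg (G := G) (G.Co F) u'
  have m1 := s5_le2 (G := G) F u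
  have m2 := s5_le2 (G := G) F u'
  -- flags inside
  have k : ∀ w, (G.d w F ≠ 2 ∨ (G.pT F w).card ≠ 1) → G.s5 F w ≤ 0 := by
    intro w h
    by_contra h1
    obtain ⟨h2, h3⟩ := s5_pos (G := G) (S := F) (w := w) (by omega)
    have h4 : (G.pX F w).card = G.d w F := rfl
    omega
  have ca : (G.d u F = 2 ∧ (G.pT F u).card = 1) ∨ (G.d u F = 2 ∧ (G.pT F u).card = 2) ∨
      (G.d u F = 3 ∧ (G.pT F u).card = 1) := by omega
  have cb : (G.d u' F = 2 ∧ (G.pT F u').card = 1) ∨ (G.d u' F = 2 ∧ (G.pT F u').card = 2) ∨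
      (G.d u' F = 3 ∧ (G.pT F u').card = 1) := by omega
  rcases ca with ⟨a, a'⟩ | ⟨a, a'⟩ | ⟨a, a'⟩ <;> rcases cb with ⟨b, b'⟩ | ⟨b, b'⟩ | ⟨b, b'⟩ <;>
    rw [a, a'] at g1 <;> rw [b, b'] at g2 <;> push_cast at g1 g2
  · linarith
  · linarith
  · have := k u' (Or.inl (by omega))
    have := Po.flag c p.symm b a'
    linarith
  · linarith
  · linarith [k u (Or.inr (by omega)), k u' (Or.inr (by omega))]
  · linarith [k u (Or.inr (by omega)), k u' (Or.inl (by omega))]
  · have := k u (Or.inl (by omega))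
    have := Po.flag c p a b'
    linarith
  · linarith [k u (Or.inl (by omega)), k u' (Or.inr (by omega))]
  · have := k u (Or.inl (by omega))
    have := k u' (Or.inl (by omega))
    have := Po.flag c p a b'
    have := Po.flag c p.symm b a'
    linarith

/-- the value of a twin vertex -/
theorem Li.gam_tw (c : Li G F) {w : V} (hw : w ∈ G.N F) (ht : G.IsTw w) : G.gam5 F w ≤ 2 ∧
    (2 ≤ G.gam5 F w → G.d w F = 4 ∧ (G.pT F w).card = 1) := by
  classical
  have hl : ¬ G.Low w := fun h => tw_not_low11 ht h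
  obtain ⟨w', htw⟩ := ht
  have h7 : (G.nb w).card = 7 := htw.2.1
  have h1 := c.split w
  have h2 := c.pos hw
  have h3 := G.stLBas_11.outq F c.f w hw ⟨w', htw⟩
  have hw' : w' ∈ G.N F := (G.stLBas_11.twT F c.f w w' htw).1 hw
  have h4 : 1 ≤ (G.pT F w).card := card_pos.2 ⟨w', mem_inter.2 ⟨htw.1, hw'⟩⟩
  have k0 : ∀ S v, ¬ G.S0 S w v := fun S v h => hl h.2.1
  have k1 : ∀ S, G.s5 S w = 0 := by
    intro S
    unfold s5
    rw [if_neg, if_neg]
    · rintro ⟨v, h, -⟩
      exact k0 S v h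
    · rintro ⟨v, h, -⟩
      exact k0 S v h
  have k2 : ∀ S, ¬ G.U3 S w := fun S h => hl h.2.1
  have k3 : ∀ S, ¬ G.T3 S w := fun S h => hl h.2.1
  have k4 : ∀ S, ¬ G.HF S w := fun S h => hl h.2.1
  have e1 : G.gam5 F w = 2 * (G.d w F : ℤ) + ((G.pT F w).card : ℤ) - 7 -
      (if G.RF F w then 1 else 0) + (if G.RF (G.Co F) w then 1 else 0) := by
    rw [gam5, if_neg hl, if_pos ⟨w', htw⟩, flv, flv, k1, k1, if_neg (k2 _), if_neg (k2 _),
      if_neg (k3 _), if_neg (k3 _), if_neg (k4 _), if_neg (k4 _)]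
    ring
  have e2 : (0 : ℤ) ≤ (if G.RF F w then 1 else 0) := by split_ifs <;> norm_num
  by_cases h5 : G.RF (G.Co F) w
  · have h6 : G.d w (G.Co F) = 4 := by
      obtain ⟨-, p', m, m', -, -, -, h6, -⟩ := h5
      exact h6
    have h8 : G.d w F = 2 ∧ (G.pT F w).card = 1 := by omega
    rw [if_pos h5, h8.1, h8.2] at e1
    push_cast at e1
    constructor
    · linarith
    · intro h9
      exfalso
      linarith
  · rw [if_neg h5] at e1
    have h6 : G.d w F + (G.pT F w).card ≤ 5 := by omega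
    have h6' : (G.d w F : ℤ) + ((G.pT F w).card : ℤ) ≤ 5 := by exact_mod_cast h6
    have h8 : (G.d w F : ℤ) ≤ 4 := by
      have : G.d w F ≤ 4 := by omega
      exact_mod_cast this
    constructor
    · linarith
    · intro h9
      have h10 : (4 : ℤ) ≤ (G.d w F : ℤ) := by linarith
      have h11 : 4 ≤ G.d w F := by exact_mod_cast h10
      omega

end Lf38

end CG

end Pool.Agent.Lib.MP_e95c01_co.N
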