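import Pool.Agent.Lib.MP_e95c01_co.Y.Lf38a
import Pool.Agent.Lib.MP_e95c01_co.X.M1_86

/-!
# Leaves with at least five vertices and without low vertices: the neighbourhood
-/

set_option autoImplicit false

namespace Pool.Agent.Lib.MP_e95c01_co.N

open Finset

variable {V : Type} [Fintype V] [DecidableEq V]

namespace CG

namespace Lf38

variable {G : CG V} {F : Finset V}

theorem pts_low (c : Li G F) {u : V} (hu : u ∈ pts G F) : G.Low u ∧ 2 ≤ G.d u (G.Co F) := by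
  obtain ⟨u', S, q, q', x, y, p⟩ := c.partner (mem_pts.1 hu).1 (mem_pts.1 hu).2
  exact ⟨p.LL.1, (Po.vis c p).2.1⟩

/-- every low vertex of `N F` has two neighbours on the other side -/
theorem Li.low_out (c : Li G F) {w : V} (hw : w ∈ G.N F) (hl : G.Low w) :
    2 ≤ G.d w (G.Co F) := by
  by_cases hb : G.BadC (G.Co F) w
  · exact (pts_low c (mem_pts.2 ⟨hw, hb⟩)).2
  · by_contra h
    have h1 := (c.low_in hw hb).2 (by omega)
    have h2 := c.th_le {w} (by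
      intro x hx
      rw [mem_singleton.1 hx]
      exact hl)
    rw [sum_singleton, h1] at h2
    norm_num at h2

theorem pts_even (c : Li G F) : Even (pts G F).card := by
  apply even_closed c
  intro u hu
  obtain ⟨u', h⟩ := c.partner (mem_pts.1 hu).1 (mem_pts.1 hu).2
  refine ⟨u', ?_, h⟩
  obtain ⟨S, q, q', x, y, p⟩ := h
  exact mem_pts.2 ⟨p.uN', p.bu'⟩

/-- a big part of `F` has at least seven neighbours -/
theorem Li.seven (c : Li G F) {Y : Finset V} (hY : Y ⊆ F) (hne : Y ≠ F) (h3 : 3 ≤ Y.card) :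
    7 ≤ (G.N Y).card := by
  by_contra h
  have hCo : G.Co F ⊆ G.Co Y := Co_anti33 hY
  have hCo3 : 3 ≤ (G.Co Y).card := le_trans c.f.big.2.2 (card_le_card hCo)
  have h6 : 6 ≤ (G.N Y).card := stN6_37 G Y (card_pos.1 (by omega)) (card_pos.1 (by omega))
  have hFr : G.Frag Y := ⟨card_pos.1 (by omega), by omega, card_pos.1 (by omega)⟩
  exact c.f.leaf Y ⟨hFr, h3, hCo3⟩ (lt_of_le_of_ne hY hne)

/-- the twins of `N F`: cover of the edges -/
theorem Li.covP (c : Li G F) {h p p' : V} (hh : h ∈ F) (hp : p ∈ G.N F) (ht : G.Tw p p')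
    (hT : G.pT F p = {p'}) (hhp : h ∈ G.nb p) : ∃ e e', e ∈ F ∧ e' ∈ F ∧ G.Tw e e' ∧
      p ∈ G.nb e ∧ h ∈ G.nb e ∧ h ∈ G.nb e' := by
  have hpl : ¬ G.Low p := fun h1 => tw_not_low11 ⟨p', ht⟩ h1
  rcases c.f.cov h hh p (mem_union_right _ hp) (G.sym _ _ hhp) with h1 | h1 | h1 | h1 | h1
  · exfalso
    obtain ⟨w, hw, h2, h3, h4⟩ := h1
    rcases mem_union.1 hw with h5 | h5
    · exact c.nolow w h5 h2
    · have h6 : w ∈ G.pT F p := mem_inter.2 ⟨G.sym _ _ h4, h5⟩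
      rw [hT, mem_singleton] at h6
      subst h6
      exact tw_not_low11 ⟨p, (stTwHL_5 G).symm _ _ ht⟩ h2
  · obtain ⟨a, ha, b, hb, h2, h3, h4, h5, h6⟩ := h1
    rcases mem_union.1 ha with h7 | h7
    · refine ⟨a, b, h7, (G.stLBas_11.twT F c.f a b h2).2 h7, h2, h5, h3, h4⟩
    · exfalso
      have h8 : a ∈ G.pT F p := mem_inter.2 ⟨G.sym _ _ h5, h7⟩
      rw [hT, mem_singleton] at h8
      subst h8
      have := (stTwHL_5 G).uniq c.n9 _ _ _ ((stTwHL_5 G).symm _ _ ht) h2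
      rw [← this] at h6
      exact G.irr _ h6
  · obtain ⟨a, b, h2, -⟩ := h1
    exact absurd (c.f.sat _ _ _ h2) hpl
  · obtain ⟨a, b, h2, -⟩ := h1
    exact absurd (c.f.sat _ _ _ h2) (c.nolow h hh)
  · obtain ⟨a, b, h2, -⟩ := h1
    exact absurd ⟨p', ht⟩ ((stTwHL_5 G).twLL _ _ _ _ h2).2

/-- no pair of twins of this kind -/
theorem Li.noP (c : Li G F) {p p' : V} (hp : p ∈ G.N F) (ht : G.Tw p p')
    (hT : G.pT F p = {p'}) : False := by
  have h1 : 0 < (G.nb p ∩ F).card := by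
    have := c.pos hp
    have h2 : (G.nb p ∩ F).card = G.d p F := rfl
    omega
  obtain ⟨h0, hh0⟩ := card_pos.1 h1
  rw [mem_inter] at hh0
  have hp' : p' ∈ G.N F := (G.stLBas_11.twT F c.f p p' ht).1 hp
  have hne : ∀ z ∈ F, z ≠ p' := by
    rintro z hz rfl
    exact (mem_N76.1 hp').1 hz
  obtain ⟨e, e', he, he', hte, hpe, -, -⟩ := c.covP hh0.2 hp ht hT hh0.1
  obtain ⟨a, a', ha, ha', hta, hpa, hea, hea'⟩ := c.covP he hp ht hT (G.sym _ _ hpe)
  have h2 : a ≠ e' := by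
    rintro rfl
    have := (stTwHL_5 G).uniq c.n9 _ _ _ ((stTwHL_5 G).symm _ _ hte) hta
    rw [← this] at hea'
    exact G.irr _ hea'
  have h3 := k6_of86 c.n9 ht (G.sym _ _ hpe) (hne e he) hte (G.sym _ _ hpa) (hne a ha) hta
    (G.sym _ _ hea) h2
  exact c.good.2 p hp ⟨_, h3, mem_insert_self _ _⟩

/-- the two types -/
structure Ty2 (G : CG V) (F : Finset V) (w0 g : V) : Prop where
  p4 : (pts G F).card = 4
  m6 : F.card ≤ 6
  wN : w0 ∈ G.N F
  gN : g ∈ G.N F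
  wl : G.Low w0
  wb : ¬ G.BadC (G.Co F) w0
  gh : G.Hub g
  all : ∀ w ∈ G.N F, w ∈ pts G F ∨ w = w0 ∨ w = g

theorem Li.types (c : Li G F) : (∀ w ∈ G.N F, ¬ G.IsTw w) ∧
    ((pts G F = G.N F ∧ F.card ≤ 7) ∨ ∃ w0 g, Ty2 G F w0 g) := by
  classical
  have hps : pts G F ⊆ G.N F := fun w hw => (mem_pts.1 hw).1
  set A := (G.N F \ pts G F).filter (fun w => G.Low w) with hA
  set W := (G.N F \ pts G F).filter (fun w => ¬ G.Low w ∧ G.IsTw w) with hW
  set H := (G.N F \ pts G F).filter (fun w => ¬ G.Low w ∧ ¬ G.IsTw w) with hH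
  have mA : ∀ w, w ∈ A ↔ (w ∈ G.N F ∧ w ∉ pts G F) ∧ G.Low w := fun w => by
    rw [hA, mem_filter, mem_sdiff]
  have mW : ∀ w, w ∈ W ↔ (w ∈ G.N F ∧ w ∉ pts G F) ∧ ¬ G.Low w ∧ G.IsTw w := fun w => by
    rw [hW, mem_filter, mem_sdiff]
  have mH : ∀ w, w ∈ H ↔ (w ∈ G.N F ∧ w ∉ pts G F) ∧ ¬ G.Low w ∧ ¬ G.IsTw w := fun w => by
    rw [hH, mem_filter, mem_sdiff]
  have split : ∀ f : V → ℤ, ∑ w ∈ G.N F, f w = ∑ w ∈ pts G F, f w + ∑ w ∈ A, f w +
      (∑ w ∈ W, f w + ∑ w ∈ H, f w) := by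
    intro f
    rw [← sum_sdiff hps, ← sum_filter_add_sum_filter_not (G.N F \ pts G F) (fun w => G.Low w) f,
      ← sum_filter_add_sum_filter_not ((G.N F \ pts G F).filter (fun w => ¬ G.Low w))
        (fun w => G.IsTw w) f, filter_filter, filter_filter]
    ring
  have hcard : (6 : ℤ) = (pts G F).card + A.card + (W.card + H.card) := by
    have h1 := split (fun _ => 1)
    simp only [sum_const, nsmul_eq_mul, mul_one] at h1
    rw [c.c6] at h1
    exact_mod_cast h1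
  have hsum := c.sum
  rw [split] at hsum
  have hA1 : A.card ≤ 1 := by
    rw [card_le_one]
    intro a ha b hb
    rw [mA] at ha hb
    exact c.one ha.1.1 ha.2 (fun h => ha.1.2 (mem_pts.2 ⟨ha.1.1, h⟩)) hb.1.1 hb.2
      (fun h => hb.1.2 (mem_pts.2 ⟨hb.1.1, h⟩))
  have s1 : ∑ w ∈ pts G F, G.gam5 F w ≤ 7 * ((pts G F).card : ℤ) := by
    apply c.sum_pts
    rintro u u' ⟨S, q, q', x, y, p⟩
    exact Po.gam c p
  have s2 : ∑ w ∈ A, G.gam5 F w ≤ 10 * (A.card : ℤ) := by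
    have h1 : ∑ w ∈ A, G.gam5 F w ≤ ∑ _w ∈ A, (10 : ℤ) := by
      apply sum_le_sum
      intro w hw
      rw [mA] at hw
      exact c.gam_le10 hw.1.1 hw.2 (c.low_out hw.1.1 hw.2)
    rw [sum_const, nsmul_eq_mul] at h1
    linarith
  have s3 : ∑ w ∈ W, G.gam5 F w ≤ 2 * (W.card : ℤ) := by
    have h1 : ∑ w ∈ W, G.gam5 F w ≤ ∑ _w ∈ W, (2 : ℤ) := by
      apply sum_le_sum
      intro w hw
      rw [mW] at hw
      exact (c.gam_tw hw.1.1 hw.2.2).1
    rw [sum_const, nsmul_eq_mul] at h1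
    linarith
  have s4 : ∑ w ∈ H, G.gam5 F w = 0 := by
    apply sum_eq_zero
    intro w hw
    rw [mH] at hw
    exact G.stLB_16.hub F c.f w hw.1.1 hw.2
  have hW1 : W.card ≠ 1 := by
    intro h
    obtain ⟨p, hp⟩ := card_eq_one.1 h
    have h1 : p ∈ W := by rw [hp]; exact mem_singleton_self _
    rw [mW] at h1
    obtain ⟨p', ht⟩ := h1.2.2
    have hp' : p' ∈ W := by
      rw [mW]
      have h2 : ¬ G.Low p' := fun h => tw_not_low11 ⟨p, (stTwHL_5 G).symm _ _ ht⟩ h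
      exact ⟨⟨(G.stLBas_11.twT F c.f p p' ht).1 h1.1.1, fun h3 => h2 (pts_low c h3).1⟩, h2,
        p, (stTwHL_5 G).symm _ _ ht⟩
    rw [hp, mem_singleton] at hp'
    exact (ne_of_nb5 ht.1) hp'.symm
  have hev := pts_even c
  have hm : (5 : ℤ) ≤ (F.card : ℤ) := by exact_mod_cast c.c5
  -- integers
  have hc6 : (pts G F).card + A.card + (W.card + H.card) = 6 := by exact_mod_cast hcard.symm
  have key : 4 * F.card + 12 ≤ 7 * (pts G F).card + 10 * A.card + 2 * W.card := by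
    have : (4 * (F.card : ℤ) + 12) ≤ 7 * ((pts G F).card : ℤ) + 10 * (A.card : ℤ) +
      2 * (W.card : ℤ) := by linarith
    exact_mod_cast this
  have c5 := c.c5
  obtain ⟨k, hk⟩ := hev
  have hcases : (pts G F).card = 6 ∨ ((pts G F).card = 4 ∧ A.card = 1 ∧ W.card = 0 ∧ H.card = 1) ∨
      ((pts G F).card = 4 ∧ A.card = 0 ∧ W.card = 2 ∧ F.card = 5) := by omega
  rcases hcases with h6 | ⟨h4, ha, hw, hh⟩ | ⟨h4, ha, hw, h5⟩
  · have he : pts G F = G.N F := eq_of_subset_of_card_le hps (by rw [h6, c.c6])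
    refine ⟨?_, Or.inl ⟨he, by omega⟩⟩
    intro w hw h
    rw [← he] at hw
    exact tw_not_low11 h (pts_low c hw).1
  · obtain ⟨w0, hw0⟩ := card_eq_one.1 ha
    obtain ⟨g, hg⟩ := card_eq_one.1 hh
    have h1 : w0 ∈ A := by rw [hw0]; exact mem_singleton_self _
    have h2 : g ∈ H := by rw [hg]; exact mem_singleton_self _
    rw [mA] at h1
    rw [mH] at h2
    have hW0 : W = ∅ := card_eq_zero.1 hw
    refine ⟨?_, Or.inr ⟨w0, g, h4, by omega, h1.1.1, h2.1.1, h1.2,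
      fun h => h1.1.2 (mem_pts.2 ⟨h1.1.1, h⟩), h2.2, ?_⟩⟩
    · intro w hwN hwt
      have h3 : ¬ G.Low w := fun h => tw_not_low11 hwt h
      have h5 : w ∈ W := (mW w).2 ⟨⟨hwN, fun h => h3 (pts_low c h).1⟩, h3, hwt⟩
      rw [hW0] at h5
      exact notMem_empty _ h5
    · intro w hwN
      by_cases h3 : w ∈ pts G F
      · exact Or.inl h3
      by_cases h5 : G.Low w
      · have h6 : w ∈ A := (mA w).2 ⟨⟨hwN, h3⟩, h5⟩
        rw [hw0, mem_singleton] at h6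
        exact Or.inr (Or.inl h6)
      by_cases h6 : G.IsTw w
      · have h7 : w ∈ W := (mW w).2 ⟨⟨hwN, h3⟩, h5, h6⟩
        rw [hW0] at h7
        exact absurd h7 (notMem_empty _)
      · have h7 : w ∈ H := (mH w).2 ⟨⟨hwN, h3⟩, h5, h6⟩
        rw [hg, mem_singleton] at h7
        exact Or.inr (Or.inr h7)
  · exfalso
    -- every twin vertex has the value two
    have hA0 : A = ∅ := card_eq_zero.1 ha
    rw [hA0, sum_empty, s4] at hsum
    rw [h4] at s1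
    have h5' : (F.card : ℤ) = 5 := by exact_mod_cast h5
    rw [h5'] at hsum
    push_cast at s1
    have h6 : (4 : ℤ) ≤ ∑ w ∈ W, G.gam5 F w := by linarith
    obtain ⟨p, p2, hne, hW2⟩ := card_eq_two.1 hw
    rw [hW2, sum_pair hne] at h6
    have hp : p ∈ W := by rw [hW2]; exact mem_insert_self _ _
    have hp2 : p2 ∈ W := by rw [hW2]; exact mem_insert_of_mem (mem_singleton_self _)
    rw [mW] at hp hp2
    have h7 := c.gam_tw hp.1.1 hp.2.2
    have h8 := c.gam_tw hp2.1.1 hp2.2.2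
    obtain ⟨-, h9⟩ := h7.2 (by linarith [h8.1])
    obtain ⟨p', ht⟩ := hp.2.2
    have hp' : p' ∈ G.N F := (G.stLBas_11.twT F c.f p p' ht).1 hp.1.1
    have h10 : p' ∈ G.pT F p := mem_inter.2 ⟨ht.1, hp'⟩
    obtain ⟨z, hz⟩ := card_eq_one.1 h9
    rw [hz, mem_singleton] at h10
    exact c.noP hp.1.1 ht (by rw [hz, h10])

end Lf38

end CG

end Pool.Agent.Lib.MP_e95c01_co.N
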