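import Pool.Agent.Lib.MP_e95c01_co.Y.Lf38b

/-!
# Leaves with at least five vertices and without low vertices: no twins in the leaf
-/

set_option autoImplicit false

namespace Pool.Agent.Lib.MP_e95c01_co.N

open Finset

variable {V : Type} [Fintype V] [DecidableEq V]

namespace CG

namespace Lf38

variable {G : CG V} {F : Finset V}

/-- at most four visible neighbours -/
theorem vs_card (c : Li G F) {x : V} (hx : x ∈ G.N F) (hl : G.Low x) :
    (G.nb x ∩ (F ∪ G.N F)).card ≤ 4 := by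
  have h1 := c.split x
  have h2 := c.low_out hx hl
  have h3 : (G.nb x).card = 6 := hl
  have h4 : (G.nb x ∩ (F ∪ G.N F)).card ≤ (G.nb x ∩ F).card + (G.nb x ∩ G.N F).card := by
    rw [inter_union_distrib_left]
    exact card_union_le _ _
  have h5 : (G.nb x ∩ F).card = G.d x F := rfl
  have h6 : (G.nb x ∩ G.N F).card = (G.pT F x).card := rfl
  omega

theorem five_false (c : Li G F) {x a b e d f : V} (hx : x ∈ G.N F) (hl : G.Low x)
    (h : ∀ z ∈ ({a, b, e, d, f} : Finset V), z ∈ G.nb x ∧ z ∈ F ∪ G.N F)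
    (hc : ({a, b, e, d, f} : Finset V).card = 5) : False := by
  have h1 : ({a, b, e, d, f} : Finset V) ⊆ G.nb x ∩ (F ∪ G.N F) := fun z hz =>
    mem_inter.2 (h z hz)
  have h2 := card_le_card h1
  have h3 := vs_card c hx hl
  omega

/-- a port at the pair of twins `v`, `w` -/
structure Pq (G : CG V) (F : Finset V) (v w u u' : V) : Prop where
  pa : Pa G F u u'
  vu : v ∈ G.nb u
  wu : w ∈ G.nb u
  vu' : v ∈ G.nb u'
  wu' : w ∈ G.nb u'
  ext : ∀ z1 z2, z1 ∈ G.nb u → z2 ∈ G.nb u → z1 ∈ F ∪ G.N F → z2 ∈ F ∪ G.N F →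
    z1 ≠ u' → z1 ≠ v → z1 ≠ w → z2 ≠ u' → z2 ≠ v → z2 ≠ w → z1 = z2
  com : ∀ z, z ∈ G.nb u → z ∈ G.nb u' → z ∈ F ∪ G.N F → z = v ∨ z = w

theorem wF (c : Li G F) {v w : V} (hv : v ∈ F) (ht : G.Tw v w) : w ∈ F :=
  (G.stLBas_11.twT F c.f v w ht).2 hv

theorem tsymm {v w : V} (ht : G.Tw v w) : G.Tw w v := (stTwHL_5 G).symm _ _ ht

theorem notNF {x : V} (hx : x ∈ F) : x ∉ G.N F := fun h => (mem_N76.1 h).1 hx

theorem mkPq (c : Li G F) {v w u u' : V} (hv : v ∈ F) (ht : G.Tw v w) (hp : Pa G F u u')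
    (hvu : v ∈ G.nb u) : Pq G F v w u u' := by
  obtain ⟨S, q, q', x, y, p⟩ := hp
  have hwF := wF c hv ht
  have hvw : v ≠ w := ne_of_nb5 ht.1
  have huF : u ∉ F := fun h => (mem_N76.1 p.uN).1 h
  have hu'F : u' ∉ F := fun h => (mem_N76.1 p.uN').1 h
  have nuw : u ≠ w := fun h => huF (h ▸ hwF)
  have nu'w : u' ≠ w := fun h => hu'F (h ▸ hwF)
  have nu'v : u' ≠ v := fun h => hu'F (h ▸ hv)
  have nuv : u ≠ v := fun h => huF (h ▸ hv)
  have hwu : w ∈ G.nb u := G.sym _ _ (Tw_nb5 ht (G.sym _ _ hvu) nuw)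
  have hcl := p.LL.2.2.2.2.2.2
  -- one of `v`, `w` is adjacent to `u'`, so both
  have key : ∀ z, z ∈ G.nb u → z ≠ x → z ∈ F → z ∈ G.nb u' := by
    intro z hz hzx hzF
    have h1 : z ∈ insert x (G.cl u') := by
      rw [← hcl]
      exact mem_insert_of_mem (mem_insert_of_mem hz)
    rcases mem_insert.1 h1 with h2 | h2
    · exact absurd h2 hzx
    · rcases mem_insert.1 h2 with h3 | h3
      · exact absurd (h3 ▸ hzF) hu'F
      · exact h3
  have hvu' : v ∈ G.nb u' := by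
    by_cases hvx : v = x
    · have hwx : w ≠ x := fun h => hvw (hvx.trans h.symm)
      have h1 := key w hwu hwx hwF
      exact G.sym _ _ (Tw_nb5 (tsymm ht) (G.sym _ _ h1) nu'v)
    · exact key v hvu hvx hv
  have hwu' : w ∈ G.nb u' := G.sym _ _ (Tw_nb5 ht (G.sym _ _ hvu') nu'w)
  have hu'u : u' ∈ G.nb u := p.LL.2.2.1
  refine ⟨⟨S, q, q', x, y, p⟩, hvu, hwu, hvu', hwu', ?_, ?_⟩
  · intro z1 z2 h1 h2 h3 h4 a1 a2 a3 b1 b2 b3
    by_contra hne
    refine five_false c (x := u) (a := u') (b := v) (e := w) (d := z1) (f := z2) p.uN p.LL.1 ?_ ?_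
    · intro z hz
      simp only [mem_insert, mem_singleton] at hz
      rcases hz with rfl | rfl | rfl | rfl | rfl
      · exact ⟨hu'u, mem_union_right _ p.uN'⟩
      · exact ⟨hvu, mem_union_left _ hv⟩
      · exact ⟨hwu, mem_union_left _ hwF⟩
      · exact ⟨h1, h3⟩
      · exact ⟨h2, h4⟩
    · rw [card_insert_of_notMem, card_insert_of_notMem, card_insert_of_notMem, card_pair hne]
      · simp only [mem_insert, mem_singleton, not_or]
        exact ⟨a3.symm, b3.symm⟩
      · simp only [mem_insert, mem_singleton, not_or]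
        exact ⟨hvw, a2.symm, b2.symm⟩
      · simp only [mem_insert, mem_singleton, not_or]
        exact ⟨nu'v, nu'w, a1.symm, b1.symm⟩
  · intro z hz hz' hzF
    by_contra hno
    push Not at hno
    have hq : q ∈ G.Co F := p.hSC p.hq
    have hq' : q' ∈ G.Co F := p.hSC p.hq'
    have nF : ∀ t ∈ G.Co F, t ∉ F ∪ G.N F := by
      intro t ht h
      have h1 := mem_Co76.1 ht
      rcases mem_union.1 h with h2 | h2
      · exact h1.1 h2
      · exact h1.2 h2
    have e1 : ∀ t ∈ F ∪ G.N F, q ≠ t := by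
      rintro t ht rfl
      exact nF _ hq ht
    have e2 : ∀ t ∈ F ∪ G.N F, q' ≠ t := by
      rintro t ht rfl
      exact nF _ hq' ht
    have nz : z ≠ u := by
      rintro rfl
      exact G.irr _ hz
    have nz' : z ≠ u' := by
      rintro rfl
      exact G.irr _ hz'
    have hset : ({u, u', q, q', v, w, z} : Finset V) ⊆ G.cl u := by
      intro t ht'
      simp only [mem_insert, mem_singleton] at ht'
      rcases ht' with rfl | rfl | rfl | rfl | rfl | rfl | rfl
      · exact mem_insert_self _ _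
      · exact mem_insert_of_mem hu'u
      · exact mem_insert_of_mem (G.sym _ _ p.uq)
      · exact mem_insert_of_mem (G.sym _ _ p.adjq')
      · exact mem_insert_of_mem hvu
      · exact mem_insert_of_mem hwu
      · exact mem_insert_of_mem hz
    have hset' : ({u, u', q, q', v, w, z} : Finset V) ⊆ G.cl u' := by
      intro t ht'
      simp only [mem_insert, mem_singleton] at ht'
      rcases ht' with rfl | rfl | rfl | rfl | rfl | rfl | rfl
      · exact mem_insert_of_mem (G.sym _ _ hu'u)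
      · exact mem_insert_self _ _
      · exact mem_insert_of_mem (G.sym _ _ p.uq')
      · exact mem_insert_of_mem (G.sym _ _ p.symm.adjq')
      · exact mem_insert_of_mem hvu'
      · exact mem_insert_of_mem hwu'
      · exact mem_insert_of_mem hz'
    have huN := mem_union_right F p.uN
    have huN' := mem_union_right F p.uN'
    have hc : ({u, u', q, q', v, w, z} : Finset V).card = 7 := by
      rw [card_insert_of_notMem, card_insert_of_notMem, card_insert_of_notMem,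
        card_insert_of_notMem, card_insert_of_notMem, card_pair hno.2.symm]
      all_goals simp only [mem_insert, mem_singleton, not_or]
      · exact ⟨hvw, hno.1.symm⟩
      · exact ⟨e2 v (mem_union_left _ hv), e2 w (mem_union_left _ hwF), e2 z hzF⟩
      · exact ⟨p.qq, e1 v (mem_union_left _ hv), e1 w (mem_union_left _ hwF), e1 z hzF⟩
      · exact ⟨(e1 u' huN').symm, (e2 u' huN').symm, nu'v, nu'w, nz'.symm⟩
      · exact ⟨ne_of_nb5 hu'u, (e1 u huN).symm, (e2 u huN).symm, nuv, nuw, nz.symm⟩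
    have hcu : (G.cl u).card = 7 := by
      have h1 : (G.nb u).card = 6 := p.LL.1
      rw [cl, card_insert_of_notMem (G.irr u), h1]
    have heq : ({u, u', q, q', v, w, z} : Finset V) = G.cl u :=
      eq_of_subset_of_card_le hset (by rw [hc, hcu])
    have hx : x ∈ G.cl u := by
      have h1 : x ∈ insert y (G.cl u) := by
        rw [hcl]
        exact mem_insert_self _ _
      rcases mem_insert.1 h1 with h2 | h2
      · exact absurd h2 p.LL.2.2.2.1
      · exact h2
    rw [← heq] at hx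
    exact p.LL.2.2.2.2.1 (hset' hx)

/-- the situation: twins `v`, `w` in `F`, no twins in `N F` -/
structure Sq (G : CG V) (F : Finset V) (v w : V) (A T S : Finset V) : Prop where
  c : Li G F
  nt : ∀ x ∈ G.N F, ¬ G.IsTw x
  hv : v ∈ F
  ht : G.Tw v w
  hA : A = (G.nb v ∩ F).erase w
  hT : T = G.nb v ∩ G.N F
  hS : S = F \ (insert v (insert w A))

section

variable {v w : V} {A T S : Finset V}

theorem Sq.mA (s : Sq G F v w A T S) {z : V} : z ∈ A ↔ z ≠ w ∧ z ∈ G.nb v ∧ z ∈ F := by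
  rw [s.hA, mem_erase, mem_inter]

theorem Sq.mT (s : Sq G F v w A T S) {z : V} : z ∈ T ↔ z ∈ G.nb v ∧ z ∈ G.N F := by
  rw [s.hT, mem_inter]

theorem Sq.mS (s : Sq G F v w A T S) {z : V} :
    z ∈ S ↔ z ∈ F ∧ z ≠ v ∧ z ≠ w ∧ z ∉ G.nb v := by
  rw [s.hS, mem_sdiff, mem_insert, mem_insert, s.mA]
  tauto

theorem Sq.vw (s : Sq G F v w A T S) : v ≠ w := ne_of_nb5 s.ht.1

theorem Sq.AT (s : Sq G F v w A T S) : A.card + T.card = 6 := by
  have h1 := s.ht.2.1
  have h2 : G.nb v = (G.nb v ∩ F) ∪ (G.nb v ∩ G.N F) := by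
    ext z
    rw [mem_union, mem_inter, mem_inter]
    constructor
    · intro h
      rcases s.c.mem_or s.hv h with h3 | h3
      · exact Or.inl ⟨h, h3⟩
      · exact Or.inr ⟨h, h3⟩
    · rintro (h | h)
      · exact h.1
      · exact h.1
  have h3 : Disjoint (G.nb v ∩ F) (G.nb v ∩ G.N F) := by
    rw [disjoint_left]
    intro z h4 h5
    exact notNF (mem_inter.1 h4).2 (mem_inter.1 h5).2
  rw [h2, card_union_of_disjoint h3, ← s.hT] at h1
  have h4 : w ∈ G.nb v ∩ F := mem_inter.2 ⟨s.ht.1, wF s.c s.hv s.ht⟩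
  have h5 : A.card = (G.nb v ∩ F).card - 1 := by rw [s.hA, card_erase_of_mem h4]
  have h6 : 0 < (G.nb v ∩ F).card := card_pos.2 ⟨w, h4⟩
  omega

theorem Sq.FS (s : Sq G F v w A T S) : F.card = 2 + A.card + S.card := by
  have h1 : insert v (insert w A) ⊆ F := by
    intro z hz
    rw [mem_insert, mem_insert] at hz
    rcases hz with rfl | rfl | hz
    · exact s.hv
    · exact wF s.c s.hv s.ht
    · exact (s.mA.1 hz).2.2
  have h2 : (insert v (insert w A)).card = A.card + 2 := by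
    rw [card_insert_of_notMem, card_insert_of_notMem]
    · intro h
      exact (s.mA.1 h).1 rfl
    · rw [mem_insert, not_or]
      exact ⟨s.vw, fun h => G.irr v (s.mA.1 h).2.1⟩
  have h3 := card_sdiff_add_card_eq_card h1
  rw [← s.hS, h2] at h3
  omega

/-- the count over the vertices of `S` -/
theorem Sq.cnt (s : Sq G F v w A T S) :
    8 * S.card ≤ S.card * (S.card + A.card) + ∑ x ∈ G.N F, (G.nb x ∩ S).card := by
  classical
  have h1 : ∑ x ∈ G.N F, (G.nb x ∩ S).card = ∑ z ∈ S, (G.nb z ∩ G.N F).card := by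
    have h2 := sum_card_bipartiteAbove_eq_sum_card_bipartiteBelow (s := S) (t := G.N F)
      (fun z x => x ∈ G.nb z)
    have h3 : ∀ z ∈ S, ((G.N F).bipartiteAbove (fun z x => x ∈ G.nb z) z).card =
        (G.nb z ∩ G.N F).card := by
      intro z _
      congr 1
      ext x
      rw [mem_bipartiteAbove, mem_inter]
      tauto
    have h4 : ∀ x ∈ G.N F, (S.bipartiteBelow (fun z x => x ∈ G.nb z) x).card =
        (G.nb x ∩ S).card := by
      intro x _
      congr 1
      ext z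
      rw [mem_bipartiteBelow, mem_inter]
      exact ⟨fun h => ⟨G.sym _ _ h.2, h.1⟩, fun h => ⟨h.2, G.sym _ _ h.1⟩⟩
    rw [sum_congr rfl h3, sum_congr rfl h4] at h2
    exact h2.symm
  rw [h1]
  have h2 : ∀ z ∈ S, 8 ≤ (S.card + A.card) + (G.nb z ∩ G.N F).card := by
    intro z hz
    obtain ⟨a1, a2, a3, a4⟩ := s.mS.1 hz
    have h3 := G.deg z
    have h4 : (G.nb z).card ≠ 6 := s.c.nolow z a1
    have h5 : G.nb z ⊆ (S.erase z ∪ A) ∪ (G.nb z ∩ G.N F) := by
      intro y hy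
      rcases s.c.mem_or a1 hy with h6 | h6
      · apply mem_union_left
        have n1 : y ≠ v := by
          rintro rfl
          exact a4 (G.sym _ _ hy)
        have n2 : y ≠ w := by
          rintro rfl
          exact a4 (Tw_nb5 (tsymm s.ht) (G.sym _ _ hy) a2)
        have n3 : y ≠ z := by
          rintro rfl
          exact G.irr _ hy
        by_cases h7 : y ∈ G.nb v
        · exact mem_union_right _ (s.mA.2 ⟨n2, h7, h6⟩)
        · exact mem_union_left _ (mem_erase.2 ⟨n3, s.mS.2 ⟨h6, n1, n2, h7⟩⟩)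
      · exact mem_union_right _ (mem_inter.2 ⟨hy, h6⟩)
    have h6 := card_le_card h5
    have h7 := card_union_le (S.erase z ∪ A) (G.nb z ∩ G.N F)
    have h8 := card_union_le (S.erase z) A
    rw [card_erase_of_mem hz] at h8
    have h9 : 0 < S.card := card_pos.2 ⟨z, hz⟩
    omega
  have h3 := sum_le_sum h2
  rw [sum_const, sum_add_distrib, sum_const] at h3
  simp only [smul_eq_mul] at h3
  linarith

/-- the cover of the edges at `v` -/
theorem Sq.cov (s : Sq G F v w A T S) {a : V} (ha : a ∈ G.nb v) (haw : a ≠ w) :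
    (∃ z ∈ T, G.Low z ∧ a ∈ G.nb z) ∨
    (∃ e ∈ A, ∃ e' ∈ A, G.Tw e e' ∧ a ∈ G.nb e ∧ a ∈ G.nb e') ∨
    (G.Low a ∧ ∃ g b, G.HL g b a ∧ g ∈ G.N F ∧ b ∈ T) := by
  have hvt : G.IsTw v := ⟨w, s.ht⟩
  have haF : a ∈ F ∪ G.N F := by
    rw [mem_union]
    exact s.c.mem_or s.hv ha
  rcases s.c.f.cov v s.hv a haF ha with h1 | h1 | h1 | h1 | h1
  · obtain ⟨z, hz, h2, h3, h4⟩ := h1
    rcases mem_union.1 hz with h5 | h5
    · exact absurd h2 (s.c.nolow z h5)
    · exact Or.inl ⟨z, s.mT.2 ⟨G.sym _ _ h3, h5⟩, h2, h4⟩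
  · obtain ⟨e, he, e', he', h2, h3, h4, h5, h6⟩ := h1
    right; left
    rcases mem_union.1 he with h7 | h7
    · have h8 : e' ∈ F := wF s.c h7 h2
      have n1 : e ≠ w := by
        rintro rfl
        have := (stTwHL_5 G).uniq s.c.n9 _ _ _ (tsymm s.ht) h2
        rw [← this] at h4
        exact G.irr _ h4
      have n2 : e' ≠ w := by
        rintro rfl
        have := (stTwHL_5 G).uniq s.c.n9 _ _ _ (tsymm s.ht) (tsymm h2)
        rw [← this] at h3
        exact G.irr _ h3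
      exact ⟨e, s.mA.2 ⟨n1, G.sym _ _ h3, h7⟩, e', s.mA.2 ⟨n2, G.sym _ _ h4, h8⟩, h2, h5, h6⟩
    · exact absurd ⟨e', h2⟩ (s.nt e h7)
  · obtain ⟨g, b, h2, h3, h4, h5⟩ := h1
    right; right
    refine ⟨s.c.f.sat _ _ _ h2, g, b, h2, ?_⟩
    rcases h5 with ⟨h6, h7⟩ | ⟨h6, h7⟩
    · exact absurd h2.2.1 (s.c.nolow b h7)
    · exact ⟨h6, s.mT.2 ⟨G.sym _ _ h3, h7⟩⟩
  · obtain ⟨g, b, h2, -⟩ := h1
    exact absurd (s.c.f.sat _ _ _ h2) (s.c.nolow v s.hv)
  · obtain ⟨g, b, h2, -⟩ := h1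
    exact absurd hvt ((stTwHL_5 G).twLL _ _ _ _ h2).1

/-- the ports at `v` come in pairs -/
theorem Sq.port (s : Sq G F v w A T S) {u : V} (hu : u ∈ T) (hp : u ∈ pts G F) :
    ∃ u' ∈ T, u' ∈ pts G F ∧ u' ≠ u ∧ Pq G F v w u u' ∧ Pq G F v w u' u := by
  obtain ⟨u', h⟩ := s.c.partner (mem_pts.1 hp).1 (mem_pts.1 hp).2
  have h1 := mkPq s.c s.hv s.ht h (G.sym _ _ (s.mT.1 hu).1)
  have h2 := mkPq s.c s.hv s.ht h.symm h1.vu'
  obtain ⟨S', q, q', x, y, p⟩ := h
  refine ⟨u', s.mT.2 ⟨G.sym _ _ h1.vu', p.uN'⟩, mem_pts.2 ⟨p.uN', p.bu'⟩, ?_, h1, h2⟩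
  exact (ne_of_nb5 p.LL.2.2.1).symm

theorem Sq.even (s : Sq G F v w A T S) : Even (T ∩ pts G F).card := by
  apply even_closed s.c
  intro u hu
  rw [mem_inter] at hu
  obtain ⟨u', h1, h2, -, h3, -⟩ := s.port hu.1 hu.2
  exact ⟨u', mem_inter.2 ⟨h1, h2⟩, h3.pa⟩

/-- a third low vertex -/
theorem Sq.third (s : Sq G F v w A T S) {u u' : V} (h : Pq G F v w u u') :
    ∃ z ∈ T, G.Low z ∧ z ≠ u ∧ z ≠ u' := by
  obtain ⟨S', q, q', x, y, p⟩ := h.pa
  have hK : ¬ G.InK v := by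
    rintro ⟨S2, hS2, hv2⟩
    exact s.c.noK S2 hS2 (Gd57.k6_sub s.c.good.2 hS2 hv2 s.hv)
  obtain ⟨z, h1, h2, h3, h4⟩ := third98 s.c.crit s.c.n9 p.hS p.hq p.uq p.uq' p.uS p.uS' p.LL
    s.ht hK h.vu h.vu'
  refine ⟨z, s.mT.2 ⟨h2, ?_⟩, h1, h3, h4⟩
  rcases s.c.mem_or s.hv h2 with h5 | h5
  · exact absurd h1 (s.c.nolow z h5)
  · exact h5

/-- a port at `v` sees at most one vertex of `S ∪ A` -/
theorem Sq.slot (s : Sq G F v w A T S) {u : V} (hu : u ∈ T) (hp : u ∈ pts G F) :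
    (G.nb u ∩ S).card + (G.nb u ∩ A).card ≤ 1 := by
  obtain ⟨u', -, hp', -, h, -⟩ := s.port hu hp
  have h1 : (G.nb u ∩ S).card + (G.nb u ∩ A).card = (G.nb u ∩ (S ∪ A)).card := by
    rw [inter_union_distrib_left, card_union_of_disjoint]
    rw [disjoint_left]
    intro z h1 h2
    exact (s.mS.1 (mem_inter.1 h1).2).2.2.2 (s.mA.1 (mem_inter.1 h2).2).2.1
  rw [h1, card_le_one]
  have key : ∀ z ∈ G.nb u ∩ (S ∪ A), z ∈ G.nb u ∧ z ∈ F ∧ z ≠ v ∧ z ≠ w ∧ z ≠ u' := by
    intro z hz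
    rw [mem_inter, mem_union] at hz
    have hzF : z ∈ F ∧ z ≠ v ∧ z ≠ w := by
      rcases hz.2 with h2 | h2
      · exact ⟨(s.mS.1 h2).1, (s.mS.1 h2).2.1, (s.mS.1 h2).2.2.1⟩
      · refine ⟨(s.mA.1 h2).2.2, ?_, (s.mA.1 h2).1⟩
        rintro rfl
        exact G.irr _ (s.mA.1 h2).2.1
    refine ⟨hz.1, hzF.1, hzF.2.1, hzF.2.2, ?_⟩
    rintro rfl
    exact notNF hzF.1 (mem_pts.1 hp').1
  intro a ha b hb
  obtain ⟨a1, a2, a3, a4, a5⟩ := key a ha
  obtain ⟨b1, b2, b3, b4, b5⟩ := key b hb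
  exact h.ext a b a1 b1 (mem_union_left _ a2) (mem_union_left _ b2) a5 a3 a4 b5 b3 b4

theorem sum_slot (s : Sq G F v w A T S) {X : Finset V} (hX : X ⊆ T) (hp : X ⊆ pts G F) :
    ∑ u ∈ X, (G.nb u ∩ S).card + ∑ u ∈ X, (G.nb u ∩ A).card ≤ X.card := by
  rw [← sum_add_distrib]
  calc ∑ u ∈ X, ((G.nb u ∩ S).card + (G.nb u ∩ A).card) ≤ ∑ _u ∈ X, 1 :=
        sum_le_sum fun u hu => s.slot (hX hu) (hp hu)
    _ = X.card := by rw [sum_const, smul_eq_mul, mul_one]

/-- covered vertices of `A` -/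
theorem covered {X A : Finset V} (h : ∀ a ∈ A, ∃ u ∈ X, a ∈ G.nb u) :
    A.card ≤ ∑ u ∈ X, (G.nb u ∩ A).card := by
  have h1 : A ⊆ X.biUnion fun u => G.nb u ∩ A := by
    intro a ha
    obtain ⟨u, hu, h2⟩ := h a ha
    exact mem_biUnion.2 ⟨u, hu, mem_inter.2 ⟨h2, ha⟩⟩
  exact (card_le_card h1).trans card_biUnion_le

/-- type (I) -/
theorem Sq.typeI (s : Sq G F v w A T S) (hp : pts G F = G.N F) (h7 : F.card ≤ 7) : False := by
  classical
  have hTp : T ⊆ pts G F := by
    rw [hp]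
    intro z hz
    exact (s.mT.1 hz).2
  have hTN : T ⊆ G.N F := fun z hz => (s.mT.1 hz).2
  have hev := s.even
  rw [inter_eq_left.2 hTp] at hev
  have hAT := s.AT
  have hFS := s.FS
  have hT6 : T.card ≤ 6 := by
    rw [← s.c.c6]
    exact card_le_card hTN
  have hT4 : T.card = 4 ∨ T.card = 6 := by
    by_cases h0 : T = ∅
    · rw [h0, card_empty] at hAT
      omega
    · obtain ⟨u, hu⟩ := nonempty_iff_ne_empty.2 h0
      obtain ⟨u', h1, -, h2, h3, -⟩ := s.port hu (hTp hu)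
      obtain ⟨z, h4, -, h5, h6⟩ := s.third h3
      have h8 : ({u, u', z} : Finset V) ⊆ T := by
        intro y hy
        simp only [mem_insert, mem_singleton] at hy
        rcases hy with rfl | rfl | rfl
        · exact hu
        · exact h1
        · exact h4
      have h9 := card_le_card h8
      rw [card_eq_three.2 ⟨u, u', z, h2.symm, h5.symm, h6.symm, rfl⟩] at h9
      obtain ⟨k, hk⟩ := hev
      omega
  have hcnt := s.cnt
  have hsplit : ∑ x ∈ G.N F, (G.nb x ∩ S).card = ∑ x ∈ G.N F \ T, (G.nb x ∩ S).card +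
      ∑ x ∈ T, (G.nb x ∩ S).card := (sum_sdiff hTN).symm
  have hrest : ∑ x ∈ G.N F \ T, (G.nb x ∩ S).card ≤ (6 - T.card) * S.card := by
    have h1 : ∑ x ∈ G.N F \ T, (G.nb x ∩ S).card ≤ ∑ _x ∈ G.N F \ T, S.card :=
      sum_le_sum fun x _ => card_le_card inter_subset_right
    rw [sum_const, smul_eq_mul, card_sdiff_of_subset hTN, s.c.c6] at h1
    exact h1
  have hsl := sum_slot s (subset_refl T) hTp
  have c5 := s.c.c5
  rcases hT4 with h4 | h6
  · have hA2 : A.card = 2 := by omega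
    have hcov : A.card ≤ ∑ u ∈ T, (G.nb u ∩ A).card := by
      apply covered
      intro a ha
      obtain ⟨a1, a2, a3⟩ := s.mA.1 ha
      rcases s.cov a2 a1 with h | h | h
      · obtain ⟨z, h5, -, h6⟩ := h
        exact ⟨z, h5, h6⟩
      · exfalso
        obtain ⟨e, he, e', he', h5, h6, h8⟩ := h
        have h9 : ({a, e, e'} : Finset V) ⊆ A := by
          intro y hy
          simp only [mem_insert, mem_singleton] at hy
          rcases hy with rfl | rfl | rfl
          · exact ha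
          · exact he
          · exact he'
        have h10 := card_le_card h9
        rw [card_eq_three.2 ⟨a, e, e', (ne_of_nb5 h6).symm, (ne_of_nb5 h8).symm,
          ne_of_nb5 h5.1, rfl⟩] at h10
        omega
      · exact absurd h.1 (s.c.nolow a a3)
    rw [h4] at hrest hsl
    rw [hA2] at hcnt hcov
    have hs : S.card = 1 ∨ S.card = 2 ∨ S.card = 3 := by omega
    rcases hs with h | h | h <;> rw [h] at hcnt hrest <;> omega
  · rw [h6] at hrest hsl
    have hA0 : A.card = 0 := by omega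
    rw [hA0] at hcnt
    have hs : S.card = 3 ∨ S.card = 4 ∨ S.card = 5 := by omega
    rcases hs with h | h | h <;> rw [h] at hcnt hrest <;> omega

end

end Lf38

end CG

end Pool.Agent.Lib.MP_e95c01_co.N
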