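import Pool.Agent.Lib.MP_e95c01_co.Y.Lf38c

/-!
# Leaves with at least five vertices and without low vertices: no twins in the leaf, type (II)
-/

set_option autoImplicit false

namespace Pool.Agent.Lib.MP_e95c01_co.N

open Finset

variable {V : Type} [Fintype V] [DecidableEq V]

namespace CG

namespace Lf38

variable {G : CG V} {F : Finset V}

section

variable {v w w0 g : V} {A T S : Finset V}

theorem Ty2.w0p (y : Ty2 G F w0 g) : w0 ∉ pts G F := fun h => y.wb (mem_pts.1 h).2

theorem Ty2.gp (c : Li G F) (y : Ty2 G F w0 g) : g ∉ pts G F :=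
  fun h => y.gh.1 (pts_low c h).1

theorem Ty2.w0g (y : Ty2 G F w0 g) : w0 ≠ g := by
  rintro rfl
  exact y.gh.1 y.wl

theorem Ty2.eqN (y : Ty2 G F w0 g) : G.N F = insert w0 (insert g (pts G F)) := by
  ext z
  rw [mem_insert, mem_insert]
  constructor
  · intro h
    rcases y.all z h with h1 | h1 | h1
    · exact Or.inr (Or.inr h1)
    · exact Or.inl h1
    · exact Or.inr (Or.inl h1)
  · rintro (rfl | rfl | h)
    · exact y.wN
    · exact y.gN
    · exact (mem_pts.1 h).1

theorem Ty2.sumN (c : Li G F) (y : Ty2 G F w0 g) (f : V → ℕ) :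
    ∑ x ∈ G.N F, f x = f w0 + (f g + ∑ x ∈ pts G F, f x) := by
  rw [y.eqN, sum_insert, sum_insert (y.gp c)]
  rw [mem_insert, not_or]
  exact ⟨y.w0g, y.w0p⟩

/-- at most two further visible neighbours of `w0` -/
theorem w0_two (s : Sq G F v w A T S) (y : Ty2 G F w0 g) (h : w0 ∈ T) {X : Finset V}
    (hX : ∀ z ∈ X, z ∈ G.nb w0 ∧ z ∈ F ∪ G.N F ∧ z ≠ v ∧ z ≠ w) : X.card ≤ 2 := by
  have h1 := vs_card s.c y.wN y.wl
  have hv : v ∈ G.nb w0 := G.sym _ _ (s.mT.1 h).1
  have hwF := wF s.c s.hv s.ht
  have hw : w ∈ G.nb w0 := G.sym _ _ (Tw_nb5 s.ht (s.mT.1 h).1 (by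
    rintro rfl
    exact notNF hwF y.wN))
  have h2 : insert v (insert w X) ⊆ G.nb w0 ∩ (F ∪ G.N F) := by
    intro z hz
    rw [mem_insert, mem_insert] at hz
    rcases hz with rfl | rfl | hz
    · exact mem_inter.2 ⟨hv, mem_union_left _ s.hv⟩
    · exact mem_inter.2 ⟨hw, mem_union_left _ hwF⟩
    · exact mem_inter.2 ⟨(hX z hz).1, (hX z hz).2.1⟩
  have h3 := card_le_card h2
  rw [card_insert_of_notMem, card_insert_of_notMem] at h3
  · omega
  · exact fun h4 => (hX w h4).2.2.2 rfl
  · rw [mem_insert, not_or]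
    exact ⟨s.vw, fun h4 => (hX v h4).2.2.1 rfl⟩

/-- type (II), four ports at the twins -/
theorem Sq.four (s : Sq G F v w A T S) (y : Ty2 G F w0 g) (hp : pts G F ⊆ T) : False := by
  classical
  have hAT := s.AT
  have hFS := s.FS
  have c5 := s.c.c5
  have hm6 := y.m6
  have hcnt := s.cnt
  have hp4 := y.p4
  rw [y.sumN s.c] at hcnt
  have hsl := sum_slot s hp (subset_refl _)
  rw [hp4] at hsl
  have hTe : T ⊆ insert w0 (insert g (pts G F)) := by
    rw [← y.eqN]
    exact fun z hz => (s.mT.1 hz).2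
  have hT4 : 4 ≤ T.card := by
    rw [← hp4]
    exact card_le_card hp
  have hS1 : ∀ x, (G.nb x ∩ S).card ≤ S.card := fun x => card_le_card inter_subset_right
  have hcovA : ∀ a ∈ A, w0 ∉ T → ∃ u ∈ pts G F, a ∈ G.nb u := by
    intro a ha hw
    obtain ⟨a1, a2, a3⟩ := s.mA.1 ha
    rcases s.cov a2 a1 with h | h | h
    · obtain ⟨z, h5, h6, h7⟩ := h
      rcases y.all z (s.mT.1 h5).2 with h8 | h8 | h8
      · exact ⟨z, h8, h7⟩
      · exact absurd (h8 ▸ h5) hw
      · exact absurd (h8 ▸ h6) y.gh.1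
    · exfalso
      obtain ⟨e, he, e', he', h5, h6, h8⟩ := h
      have h9 : ({a, e, e'} : Finset V) ⊆ A := by
        intro y hy
        simp only [mem_insert, mem_singleton] at hy
        rcases hy with rfl | rfl | rfl
        · exact ha
        · exact he
        · exact he'
      have h10 := card_le_card h9
      rw [card_eq_three.2 ⟨a, e, e', (ne_of_nb5 h6).symm, (ne_of_nb5 h8).symm,
        ne_of_nb5 h5.1, rfl⟩] at h10
      omega
    · exact absurd h.1 (s.c.nolow a a3)
  by_cases hw : w0 ∈ T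
  · have h1 : (G.nb w0 ∩ S).card ≤ 2 := by
      apply w0_two s y hw
      intro z hz
      rw [mem_inter] at hz
      obtain ⟨b1, b2, b3, -⟩ := s.mS.1 hz.2
      exact ⟨hz.1, mem_union_left _ b1, b2, b3⟩
    have h2 := hS1 g
    have h3 : 5 ≤ T.card := by
      have h4 : insert w0 (pts G F) ⊆ T := by
        intro z hz
        rcases mem_insert.1 hz with rfl | hz
        · exact hw
        · exact hp hz
      have h5 := card_le_card h4
      rw [card_insert_of_notMem y.w0p, hp4] at h5
      exact h5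
    have hcase : (A.card = 1 ∧ (S.card = 2 ∨ S.card = 3)) ∨
        (A.card = 0 ∧ (S.card = 3 ∨ S.card = 4)) := by omega
    rcases hcase with ⟨ha, h | h⟩ | ⟨ha, h | h⟩ <;> rw [ha, h] at hcnt <;> omega
  · have h1 := covered (fun a ha => hcovA a ha hw)
    have h2 := hS1 g
    have h3 := hS1 w0
    have h4 : T.card ≤ 5 := by
      have h5 : T ⊆ insert g (pts G F) := by
        intro z hz
        rcases mem_insert.1 (hTe hz) with h6 | h6
        · exact absurd (h6 ▸ hz) hw
        · exact h6
      have h6 := card_le_card h5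
      have h7 := card_insert_le g (pts G F)
      omega
    have hcase : (A.card = 2 ∧ (S.card = 1 ∨ S.card = 2)) ∨
        (A.card = 1 ∧ (S.card = 2 ∨ S.card = 3)) := by omega
    rcases hcase with ⟨ha, h | h⟩ | ⟨ha, h | h⟩ <;> rw [ha, h] at hcnt <;> rw [ha] at h1 <;> omega

/-- the number of ports at the twins -/
theorem Sq.nports (s : Sq G F v w A T S) (y : Ty2 G F w0 g) :
    (T ∩ pts G F).card = 0 ∨ (T ∩ pts G F).card = 2 ∨ (T ∩ pts G F).card = 4 := by
  obtain ⟨k, hk⟩ := s.even
  have h1 : (T ∩ pts G F).card ≤ 4 := by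
    rw [← y.p4]
    exact card_le_card inter_subset_right
  omega

/-- a pair of twins `e`, `e'` of `A` adjacent to `w0`: the visible neighbours of `w0` -/
theorem w0_vis (s : Sq G F v w A T S) (y : Ty2 G F w0 g) (h : w0 ∈ T) {e e' : V} (he : e ∈ A)
    (he' : e' ∈ A) (ht : G.Tw e e') (h0 : w0 ∈ G.nb e) {z : V} (hz : z ∈ G.nb w0)
    (hzF : z ∈ F ∪ G.N F) : z = v ∨ z = w ∨ z = e ∨ z = e' := by
  by_contra hno
  push Not at hno
  obtain ⟨n1, n2, n3, n4⟩ := hno
  have hne : w0 ≠ e' := by
    rintro rfl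
    exact notNF (s.mA.1 he').2.2 y.wN
  have h0' : w0 ∈ G.nb e' := Tw_nb5 ht h0 hne
  have h1 := w0_two s y h (X := {e, e', z}) (by
    intro x hx
    simp only [mem_insert, mem_singleton] at hx
    rcases hx with rfl | rfl | rfl
    · refine ⟨G.sym _ _ h0, mem_union_left _ (s.mA.1 he).2.2, ?_, (s.mA.1 he).1⟩
      rintro rfl
      exact G.irr _ (s.mA.1 he).2.1
    · refine ⟨G.sym _ _ h0', mem_union_left _ (s.mA.1 he').2.2, ?_, (s.mA.1 he').1⟩
      rintro rfl
      exact G.irr _ (s.mA.1 he').2.1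
    · exact ⟨hz, hzF, n1, n2⟩)
  rw [card_eq_three.2 ⟨e, e', z, ne_of_nb5 ht.1, n3.symm, n4.symm, rfl⟩] at h1
  omega

/-- neighbours of a set of four vertices of the leaf -/
theorem four_seven (s : Sq G F v w A T S) {e e' : V} (he : e ∈ A) (he' : e' ∈ A)
    (ht : G.Tw e e') {X : Finset V} (hX : ∀ z ∈ F ∪ G.N F, z ∈ G.nb v ∨ z ∈ G.nb e →
      z = v ∨ z = w ∨ z = e ∨ z = e' ∨ z ∈ X) : 7 ≤ X.card := by
  classical
  have hwF := wF s.c s.hv s.ht
  obtain ⟨e1, e2, e3⟩ := s.mA.1 he
  obtain ⟨f1, f2, f3⟩ := s.mA.1 he'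
  have hev : e ≠ v := by
    rintro rfl
    exact G.irr _ e2
  have hfv : e' ≠ v := by
    rintro rfl
    exact G.irr _ f2
  have hc : ({v, w, e, e'} : Finset V).card = 4 := by
    rw [card_insert_of_notMem, card_insert_of_notMem, card_pair (ne_of_nb5 ht.1)]
    · simp only [mem_insert, mem_singleton, not_or]
      exact ⟨e1.symm, f1.symm⟩
    · simp only [mem_insert, mem_singleton, not_or]
      exact ⟨s.vw, hev.symm, hfv.symm⟩
  have hsub : ({v, w, e, e'} : Finset V) ⊆ F := by
    intro z hz
    simp only [mem_insert, mem_singleton] at hz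
    rcases hz with rfl | rfl | rfl | rfl
    · exact s.hv
    · exact hwF
    · exact e3
    · exact f3
  have h1 := s.c.seven hsub (by
    intro h
    have := s.c.c5
    rw [← h, hc] at this
    omega) (by omega)
  refine le_trans h1 (card_le_card ?_)
  intro z hz
  obtain ⟨h2, t, h3, h4⟩ := mem_N76.1 hz
  simp only [mem_insert, mem_singleton, not_or] at h2 h3
  have hzF : z ∈ F ∪ G.N F := by
    rw [mem_union]
    exact s.c.mem_or (hsub (by simpa using h3)) h4
  have h5 : z ∈ G.nb v ∨ z ∈ G.nb e := by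
    rcases h3 with rfl | rfl | rfl | rfl
    · exact Or.inl h4
    · exact Or.inl (Tw_nb5 (tsymm s.ht) h4 h2.1)
    · exact Or.inr h4
    · exact Or.inr (Tw_nb5 (tsymm ht) h4 h2.2.2.1)
  rcases hX z hzF h5 with h6 | h6 | h6 | h6 | h6
  · exact absurd h6 h2.1
  · exact absurd h6 h2.2.1
  · exact absurd h6 h2.2.2.1
  · exact absurd h6 h2.2.2.2
  · exact h6

/-- type (II), no port at the twins -/
theorem Sq.zero (s : Sq G F v w A T S) (y : Ty2 G F w0 g) (hp : (T ∩ pts G F).card = 0) :
    False := by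
  classical
  have hAT := s.AT
  have hFS := s.FS
  have hm6 := y.m6
  have hTe : ∀ z ∈ T, z = w0 ∨ z = g := by
    intro z hz
    rcases y.all z (s.mT.1 hz).2 with h | h | h
    · have : z ∈ T ∩ pts G F := mem_inter.2 ⟨hz, h⟩
      rw [card_eq_zero.1 hp] at this
      exact absurd this (notMem_empty _)
    · exact Or.inl h
    · exact Or.inr h
  have hTs : T ⊆ {w0, g} := by
    intro z hz
    rw [mem_insert, mem_singleton]
    exact hTe z hz
  have hT2 : T.card ≤ 2 := by
    have := card_le_card hTs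
    rw [card_pair y.w0g] at this
    exact this
  have hT2' : T.card = 2 := by omega
  have hTeq : T = {w0, g} := eq_of_subset_of_card_le hTs (by rw [card_pair y.w0g, hT2'])
  have hS0 : S.card = 0 := by omega
  have hA4 : A.card = 4 := by omega
  have hw0 : w0 ∈ T := by rw [hTeq]; exact mem_insert_self _ _
  have hg : g ∈ T := by rw [hTeq]; exact mem_insert_of_mem (mem_singleton_self _)
  -- the cover of `v w0`
  have hwF := wF s.c s.hv s.ht
  have hlow : ∀ z ∈ T, G.Low z → z = w0 := by
    intro z hz hl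
    rcases hTe z hz with h | h
    · exact h
    · exact absurd (h ▸ hl) y.gh.1
  obtain ⟨e, he, e', he', hte, h0, h0'⟩ : ∃ e ∈ A, ∃ e' ∈ A, G.Tw e e' ∧ w0 ∈ G.nb e ∧
      w0 ∈ G.nb e' := by
    rcases s.cov (s.mT.1 hw0).1 (by
      rintro rfl
      exact notNF hwF y.wN) with h | h | h
    · exfalso
      obtain ⟨z, h1, h2, h3⟩ := h
      rw [hlow z h1 h2] at h3
      exact G.irr _ h3
    · exact h
    · exfalso
      obtain ⟨-, a, b, h1, -, h2⟩ := h
      have := hlow b h2 h1.2.1
      rw [this] at h1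
      exact (HL_bt76 h1).2 rfl
  -- the other vertices of `A` are adjacent to `e`
  have hadj : ∀ a ∈ A, a ≠ e → a ≠ e' → a ∈ G.nb e := by
    intro a ha n1 n2
    obtain ⟨a1, a2, a3⟩ := s.mA.1 ha
    rcases s.cov a2 a1 with h | h | h
    · exfalso
      obtain ⟨z, h1, h2, h3⟩ := h
      rw [hlow z h1 h2] at h3
      rcases w0_vis s y hw0 he he' hte h0 h3 (mem_union_left _ a3) with h4 | h4 | h4 | h4
      · rw [h4] at a2
        exact G.irr _ a2
      · exact a1 h4
      · exact n1 h4
      · exact n2 h4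
    · obtain ⟨b, hb, b', hb', h1, h2, h3⟩ := h
      by_cases hbe : b = e
      · rw [← hbe]
        exact h2
      by_cases hbe' : b' = e
      · rw [← hbe']
        exact h3
      exfalso
      have k1 : b ≠ e' := by
        rintro rfl
        exact hbe' ((stTwHL_5 G).uniq s.c.n9 _ _ _ h1 (tsymm hte))
      have k2 : b' ≠ e' := by
        rintro rfl
        exact hbe ((stTwHL_5 G).uniq s.c.n9 _ _ _ (tsymm h1) (tsymm hte))
      have h4 : ({a, b, b', e, e'} : Finset V) ⊆ A := by
        intro x hx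
        simp only [mem_insert, mem_singleton] at hx
        rcases hx with rfl | rfl | rfl | rfl | rfl
        · exact ha
        · exact hb
        · exact hb'
        · exact he
        · exact he'
      have h5 := card_le_card h4
      rw [card_insert_of_notMem, card_insert_of_notMem, card_insert_of_notMem,
        card_pair (ne_of_nb5 hte.1)] at h5
      · omega
      · simp only [mem_insert, mem_singleton, not_or]
        exact ⟨hbe', k2⟩
      · simp only [mem_insert, mem_singleton, not_or]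
        exact ⟨ne_of_nb5 h1.1, hbe, k1⟩
      · simp only [mem_insert, mem_singleton, not_or]
        exact ⟨(ne_of_nb5 h2).symm, (ne_of_nb5 h3).symm, n1, n2⟩
    · exact absurd h.1 (s.c.nolow a a3)
  -- the neighbours of `e`
  set B := (A.erase e).erase e' with hB
  have mB : ∀ z, z ∈ B ↔ z ≠ e' ∧ z ≠ e ∧ z ∈ A := fun z => by rw [hB, mem_erase, mem_erase]
  have hBc : B.card = 2 := by
    rw [hB, card_erase_of_mem (mem_erase.2 ⟨(ne_of_nb5 hte.1).symm, he'⟩), card_erase_of_mem he,
      hA4]
  have hwA : w ∉ A := fun h => (s.mA.1 h).1 rfl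
  have hvA : v ∉ A := fun h => G.irr _ (s.mA.1 h).2.1
  have hve : v ∈ G.nb e := G.sym _ _ (s.mA.1 he).2.1
  have hwe : w ∈ G.nb e := G.sym _ _ (Tw_nb5 s.ht (s.mA.1 he).2.1 (s.mA.1 he).1)
  set X := insert w0 (insert v (insert w (insert e' B))) with hX
  have hXe : X ⊆ G.nb e := by
    intro z hz
    rw [hX, mem_insert, mem_insert, mem_insert, mem_insert] at hz
    rcases hz with rfl | rfl | rfl | rfl | hz
    · exact h0
    · exact hve
    · exact hwe
    · exact hte.1
    · have := (mB z).1 hz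
      exact hadj z this.2.2 this.2.1 this.1
  have hXc : X.card = 6 := by
    rw [hX, card_insert_of_notMem, card_insert_of_notMem, card_insert_of_notMem,
      card_insert_of_notMem, hBc]
    · intro h
      exact ((mB e').1 h).1 rfl
    · rw [mem_insert, not_or]
      exact ⟨fun h => hwA (h ▸ he'), fun h => hwA ((mB w).1 h).2.2⟩
    · rw [mem_insert, mem_insert, not_or, not_or]
      exact ⟨s.vw, fun h => hvA (h ▸ he'), fun h => hvA ((mB v).1 h).2.2⟩
    · rw [mem_insert, mem_insert, mem_insert, not_or, not_or, not_or]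
      have k : ∀ z ∈ F, w0 ≠ z := by
        rintro z hz rfl
        exact notNF hz y.wN
      exact ⟨k v s.hv, k w hwF, k e' (s.mA.1 he').2.2, fun h => k w0 (s.mA.1 ((mB w0).1 h).2.2).2.2 rfl⟩
  have h7 : (G.nb e).card = 7 := hte.2.1
  obtain ⟨b3, hb3⟩ : ∃ b3, G.nb e \ X = {b3} := card_eq_one.1 (by
    rw [card_sdiff_of_subset hXe, h7, hXc])
  have h8 := four_seven s he he' hte (X := insert w0 (insert g (insert b3 B))) (by
    intro z hzF hz
    rcases hz with hz | hz
    · by_cases h1 : z = w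
      · exact Or.inr (Or.inl h1)
      by_cases h2 : z = e
      · exact Or.inr (Or.inr (Or.inl h2))
      by_cases h3 : z = e'
      · exact Or.inr (Or.inr (Or.inr (Or.inl h3)))
      right; right; right; right
      rcases mem_union.1 hzF with h4 | h4
      · exact mem_insert_of_mem (mem_insert_of_mem (mem_insert_of_mem
          ((mB z).2 ⟨h3, h2, s.mA.2 ⟨h1, hz, h4⟩⟩)))
      · rcases hTe z (s.mT.2 ⟨hz, h4⟩) with h5 | h5
        · rw [h5]
          exact mem_insert_self _ _
        · rw [h5]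
          exact mem_insert_of_mem (mem_insert_self _ _)
    · by_cases h1 : z ∈ X
      · rw [hX, mem_insert, mem_insert, mem_insert, mem_insert] at h1
        rcases h1 with h1 | h1 | h1 | h1 | h1
        · rw [h1]
          exact Or.inr (Or.inr (Or.inr (Or.inr (mem_insert_self _ _))))
        · exact Or.inl h1
        · exact Or.inr (Or.inl h1)
        · exact Or.inr (Or.inr (Or.inr (Or.inl h1)))
        · exact Or.inr (Or.inr (Or.inr (Or.inr (mem_insert_of_mem (mem_insert_of_mem
            (mem_insert_of_mem h1))))))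
      · have h2 : z ∈ G.nb e \ X := mem_sdiff.2 ⟨hz, h1⟩
        rw [hb3, mem_singleton] at h2
        rw [h2]
        exact Or.inr (Or.inr (Or.inr (Or.inr (mem_insert_of_mem (mem_insert_of_mem
          (mem_insert_self _ _)))))))
  have h9 := card_insert_le w0 (insert g (insert b3 B))
  have h10 := card_insert_le g (insert b3 B)
  have h11 := card_insert_le b3 B
  omega

end

end Lf38

end CG

end Pool.Agent.Lib.MP_e95c01_co.N
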