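import Pool.Agent.Lib.MP_e95c01_co.Y.Lf38a
import Pool.Agent.Lib.MP_e95c01_co.X.J7_30

/-!
# Leaves with at least five vertices: all vertices of `F` are hubs, no twins in `N F`
-/

set_option autoImplicit false

namespace Pool.Agent.Lib.MP_e95c01_co.N

open Finset

variable {V : Type} [Fintype V] [DecidableEq V]

namespace CG

namespace Lf38

variable {G : CG V} {F : Finset V}

/-- a low vertex of `N F` sees at most four vertices of `F` and `N F` -/
theorem Li.vis96 (c : Li G F) {w : V} (hw : w ∈ G.N F) (hl : G.Low w) :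
    G.d w F + (G.pT F w).card ≤ 4 := by
  by_cases hb : G.BadC (G.Co F) w
  · obtain ⟨u', S, q, q', x, y, p⟩ := c.partner hw hb
    exact (Po.vis c p).1
  · have h1 := c.split w
    have h3 : (G.nb w).card = 6 := hl
    have h2 : 2 ≤ G.d w (G.Co F) := by
      by_contra h4
      have h5 := (c.low_in hw hb).2 (by omega)
      have h6 := c.th_le {w} (by
        intro x hx
        rw [mem_singleton] at hx
        rw [hx]
        exact hl)
      rw [sum_singleton, h5] at h6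
      norm_num at h6
    omega

/-- a cover of an edge at `F` (no twins) -/
theorem Li.cov96 (c : Li G F) (hF : ∀ z ∈ F, ¬ G.IsTw z) (hN : ∀ w ∈ G.N F, ¬ G.IsTw w)
    {x y : V} (hx : x ∈ F) (hy : y ∈ G.nb x) :
    (∃ w ∈ G.N F, G.Low w ∧ x ∈ G.nb w ∧ y ∈ G.nb w) ∨
    (∃ a ∈ G.N F, ∃ b ∈ G.N F, G.HL a b y ∧ x ∈ G.nb a ∧ x ∈ G.nb b) ∨
    (∃ a ∈ G.N F, ∃ b ∈ G.N F, G.LL a b x y) := by
  have hyU : y ∈ F ∪ G.N F := mem_union.2 (c.mem_or hx hy)
  rcases c.f.cov x hx y hyU hy with h1 | h1 | h1 | h1 | h1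
  · obtain ⟨w, hw, h2, h3, h4⟩ := h1
    rcases mem_union.1 hw with h5 | h5
    · exact absurd h2 (c.nolow w h5)
    · exact Or.inl ⟨w, h5, h2, h3, h4⟩
  · obtain ⟨v, hv, w, hw, h2, -⟩ := h1
    rcases mem_union.1 hv with h7 | h7
    · exact absurd ⟨w, h2⟩ (hF v h7)
    · exact absurd ⟨w, h2⟩ (hN v h7)
  · obtain ⟨a, b, h2, h3, h4, h5⟩ := h1
    rcases h5 with h5 | h5
    · exact absurd h2.2.1 (c.nolow b h5.2)
    · exact Or.inr (Or.inl ⟨a, h5.1, b, h5.2, h2, h4, h3⟩)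
  · obtain ⟨a, b, h2, -⟩ := h1
    exact absurd (c.f.sat _ _ _ h2) (c.nolow x hx)
  · obtain ⟨a, b, h2, h5⟩ := h1
    rcases h5 with h5 | h5
    · exact absurd h2.1 (c.nolow a h5.1)
    · exact Or.inr (Or.inr ⟨a, h5.1, b, h5.2, h2⟩)

/-- without twins every port has exactly two neighbours in `F` -/
theorem Li.two96 (c : Li G F) (hF : ∀ z ∈ F, ¬ G.IsTw z) (hN : ∀ w ∈ G.N F, ¬ G.IsTw w)
    {u : V} (hu : u ∈ pts G F) : G.d u F = 2 := by
  obtain ⟨hu1, hu2⟩ := mem_pts.1 hu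
  obtain ⟨u', S, q, q', x, y, p⟩ := c.partner hu1 hu2
  obtain ⟨a1, a2, a3⟩ := Po.vis c p
  have a4 := c.pos hu1
  by_contra hne
  have h3 : G.d u F = 3 := by omega
  have ht : (G.pT F u).card = 1 := by omega
  have hT : G.pT F u = {u'} := by
    obtain ⟨z, hz⟩ := card_eq_one.1 ht
    have h7 : u' ∈ G.pT F u := mem_inter.2 ⟨p.LL.2.2.1, p.uN'⟩
    rw [hz, mem_singleton] at h7
    rw [hz, h7]
  have hTu : ∀ w, w ∈ G.N F → u ∈ G.nb w → w = u' := by
    intro w hw huw
    have h7 : w ∈ G.pT F u := mem_inter.2 ⟨G.sym _ _ huw, hw⟩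
    rwa [hT, mem_singleton] at h7
  have hxu' := LL_tb76 p.LL
  -- `x` is in `F`
  have hx : x ∈ F := by
    have hxu : x ∈ G.nb u := LL_t76 p.LL
    have hX : G.nb u ∩ G.Co F = {q, q'} := by
      symm
      apply eq_of_subset_of_card_le
      · intro z hz
        rw [mem_insert, mem_singleton] at hz
        rw [mem_inter]
        rcases hz with rfl | rfl
        · exact ⟨G.sym _ _ p.uq, p.hSC p.hq⟩
        · exact ⟨G.sym _ _ p.adjq', p.hSC p.hq'⟩
      · rw [card_pair p.qq]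
        have h4 := c.split u
        have h5 : (G.nb u).card = 6 := p.LL.1
        have h8 : (G.nb u ∩ G.Co F).card = G.d u (G.Co F) := rfl
        omega
    by_contra hxF
    by_cases hxN : x ∈ G.N F
    · exact hxu'.2 (hTu x hxN (G.sym _ _ hxu))
    · have h8 : x ∈ G.nb u ∩ G.Co F := mem_inter.2 ⟨hxu, mem_Co76.2 ⟨hxF, hxN⟩⟩
      rw [hX, mem_insert, mem_singleton] at h8
      rcases h8 with h8 | h8
      · apply hxu'.1
        rw [h8]
        exact G.sym _ _ p.uq'
      · apply hxu'.1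
        rw [h8]
        exact G.sym _ _ (Po.adjq' p.symm)
  rcases c.cov96 hF hN hx (G.sym _ _ (LL_t76 p.LL)) with h1 | h1 | h1
  · obtain ⟨w, hw, -, h4, h5⟩ := h1
    rw [hTu w hw h5] at h4
    exact hxu'.1 h4
  · obtain ⟨a, ha, b, -, h4, -⟩ := h1
    have h5 := hTu a ha (HL_t76 h4)
    rw [h5] at h4
    exact HL_not_low76 h4 p.LL.2.1
  · obtain ⟨a, ha, b, hb, h4⟩ := h1
    have h5 := hTu b hb (LL_u76 h4)
    rw [h5] at h4
    -- `a` is a port of `q`
    have h6 : q ∈ insert u (G.cl a) := by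
      rw [h4.2.2.2.2.2.2]
      exact mem_insert_of_mem (mem_insert_of_mem (G.sym _ _ p.uq'))
    have h7 : a ∈ G.nb q := by
      rcases mem_insert.1 h6 with h8 | h8
      · exact absurd (h8 ▸ p.hq) p.uS
      · rcases mem_insert.1 h8 with h9 | h9
        · exfalso
          have := mem_Co76.1 (p.hSC p.hq)
          rw [h9] at this
          exact this.2 ha
        · exact G.sym _ _ h9
    have h8 : a ∉ S := fun h => (mem_Co76.1 (p.hSC h)).2 ha
    obtain ⟨a1, b1, hab, -, -, -, -, -, -, -, hall⟩ := K38.ports c.crit c.n9 p.hS p.hq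
    have e1 := hall u p.uq p.uS
    have e2 := hall u' p.uq' p.uS'
    have e3 := hall a h7 h8
    have n1 : u ≠ u' := ne_of_nb5 p.LL.2.2.1
    have n2 : a ≠ u' := ne_of_nb5 h4.2.2.1
    have n3 : u ≠ a := (LL_ua76 h4).2
    rcases e1 with rfl | rfl <;> rcases e2 with rfl | rfl <;> rcases e3 with rfl | rfl <;>
      simp_all

open Classical in
/-- the low vertices of `N F` -/
noncomputable def lows96 (G : CG V) (F : Finset V) : Finset V := (G.N F).filter fun w => G.Low w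

theorem mem_lows96 {w : V} : w ∈ lows96 G F ↔ w ∈ G.N F ∧ G.Low w := by
  classical
  rw [lows96, mem_filter]

/-- the low vertices of `N F` adjacent to `x` -/
noncomputable def D96 (G : CG V) (F : Finset V) (x : V) : Finset V :=
  (lows96 G F).filter fun w => x ∈ G.nb w

theorem mem_D96 {w x : V} : w ∈ D96 G F x ↔ w ∈ G.N F ∧ G.Low w ∧ x ∈ G.nb w := by
  rw [D96, mem_filter, mem_lows96, and_assoc]

/-- every vertex of `F` has at least three low neighbours in `N F` -/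
theorem Li.three96 (c : Li G F) (hF : ∀ z ∈ F, ¬ G.IsTw z) (hN : ∀ w ∈ G.N F, ¬ G.IsTw w)
    {x : V} (hx : x ∈ F) : 3 ≤ (D96 G F x).card := by
  classical
  have hnF : ∀ {z : V}, z ∈ F → z ∉ G.N F := fun h h' => (mem_sdiff.1 h').2 h
  have h1 := J7h30.cntJ (G := G) c.n9 (S := D96 G F x) (M := G.nb x) (U := (F ∪ G.N F).erase x) (z := x)
    (by
      intro y hy
      refine mem_erase.2 ⟨?_, mem_union.2 (c.mem_or hx hy)⟩
      rintro rfl
      exact G.irr _ hy) (by
      intro y hy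
      rcases c.cov96 hF hN hx hy with h1 | h1 | h1
      · obtain ⟨w, hw, h2, h3, h4⟩ := h1
        exact Or.inl ⟨w, mem_D96.2 ⟨hw, h2, h3⟩, h4⟩
      · obtain ⟨a, ha, b, hb, h2, h3, h4⟩ := h1
        have h5 := c.f.sat _ _ _ h2
        have h6 : y ∈ G.N F := by
          rcases c.mem_or hx hy with h7 | h7
          · exact absurd h5 (c.nolow y h7)
          · exact h7
        exact Or.inr (Or.inl ⟨a, G.sym _ _ h3, b, mem_D96.2 ⟨hb, h2.2.1, h4⟩,
          mem_D96.2 ⟨h6, h5, G.sym _ _ hy⟩, h2⟩)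
      · obtain ⟨a, ha, b, hb, h2⟩ := h1
        refine Or.inr (Or.inr ⟨a, mem_D96.2 ⟨ha, h2.1, LL_t76 h2⟩, b,
          mem_sdiff.2 ⟨mem_erase.2 ⟨?_, mem_union_right _ hb⟩, ?_⟩, h2⟩)
        · rintro rfl
          exact hnF hx hb
        · intro h3
          exact (LL_tb76 h2).1 (G.sym _ _ h3))
  have h2 : ∀ w ∈ D96 G F x, (G.nb w ∩ (F ∪ G.N F).erase x).card ≤ 3 := by
    intro w hw
    obtain ⟨h2, h3, h4⟩ := mem_D96.1 hw
    have e0 := c.vis96 h2 h3
    have e1 : G.nb w ∩ (F ∪ G.N F).erase x = (G.nb w ∩ (F ∪ G.N F)).erase x := by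
      ext z
      simp only [mem_inter, mem_erase]
      tauto
    have e2 : (G.nb w ∩ (F ∪ G.N F)).card = (G.pT F w).card + G.d w F := by
      rw [inter_union_distrib_left, card_union_of_disjoint, add_comm]
      · rfl
      · rw [disjoint_left]
        intro z h5 h6
        exact hnF (mem_inter.1 h5).2 (mem_inter.1 h6).2
    have e3 : x ∈ G.nb w ∩ (F ∪ G.N F) := mem_inter.2 ⟨h4, mem_union_left _ hx⟩
    rw [e1, card_erase_of_mem e3]
    omega
  have h3 := sum_le_card_nsmul _ _ 3 h2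
  rw [smul_eq_mul] at h3
  have h4 := G.deg x
  have h5 : (G.nb x).card ≠ 6 := c.nolow x hx
  omega

/-- PART (C): impossible -/
theorem Li.hubs96 (c : Li G F) (hF : ∀ z ∈ F, ¬ G.IsTw z) (hN : ∀ w ∈ G.N F, ¬ G.IsTw w)
    (hT : pts G F = G.N F ∨ (pts G F).card ≤ 4) : False := by
  classical
  have h1 : ∑ x ∈ F, (D96 G F x).card = ∑ w ∈ lows96 G F, G.d w F := by
    have h2 : ∀ x ∈ F, (D96 G F x).card = ∑ w ∈ lows96 G F, (if x ∈ G.nb w then 1 else 0) := by
      intro x _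
      rw [← card_filter]
      rfl
    have h3 : ∀ w ∈ lows96 G F, G.d w F = ∑ x ∈ F, (if x ∈ G.nb w then 1 else 0) := by
      intro w _
      rw [← card_filter]
      show (G.nb w ∩ F).card = _
      congr 1
      ext x
      rw [mem_inter, mem_filter]
      tauto
    rw [sum_congr rfl h2, sum_congr rfl h3, sum_comm]
  have h2 : F.card * 3 ≤ ∑ x ∈ F, (D96 G F x).card := by
    have h3 := card_nsmul_le_sum F (fun x => (D96 G F x).card) 3
      (fun x hx => c.three96 hF hN hx)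
    rwa [smul_eq_mul] at h3
  have h5 := c.c5
  -- the ports
  have hp : ∀ w ∈ lows96 G F ∩ pts G F, G.d w F ≤ 2 := fun w hw =>
    le_of_eq (c.two96 hF hN (mem_inter.1 hw).2)
  have hq : ∀ w ∈ lows96 G F \ pts G F, G.d w F ≤ 4 := by
    intro w hw
    obtain ⟨h6, h7⟩ := mem_lows96.1 (mem_sdiff.1 hw).1
    have := c.vis96 h6 h7
    omega
  have h6 := sum_le_card_nsmul _ _ 2 hp
  have h7 := sum_le_card_nsmul _ _ 4 hq
  rw [smul_eq_mul] at h6 h7
  have h8 : (lows96 G F ∩ pts G F).card ≤ (pts G F).card := card_le_card inter_subset_right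
  have h9 : (lows96 G F \ pts G F).card ≤ 1 := by
    rw [card_le_one]
    intro a ha b hb
    obtain ⟨ha1, ha2⟩ := mem_sdiff.1 ha
    obtain ⟨hb1, hb2⟩ := mem_sdiff.1 hb
    obtain ⟨ha3, ha4⟩ := mem_lows96.1 ha1
    obtain ⟨hb3, hb4⟩ := mem_lows96.1 hb1
    exact c.one ha3 ha4 (fun h => ha2 (mem_pts.2 ⟨ha3, h⟩)) hb3 hb4
      (fun h => hb2 (mem_pts.2 ⟨hb3, h⟩))
  have h10 : ∑ w ∈ lows96 G F, G.d w F = ∑ w ∈ lows96 G F \ pts G F, G.d w F +
      ∑ w ∈ lows96 G F ∩ pts G F, G.d w F := by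
    have := sum_inter_add_sum_sdiff (lows96 G F) (pts G F) (fun w => G.d w F)
    omega
  rcases hT with hT | hT
  · have h11 : lows96 G F \ pts G F = ∅ := by
      rw [sdiff_eq_empty_iff_subset, hT]
      exact fun w hw => (mem_lows96.1 hw).1
    rw [h11, card_empty] at h7
    have h12 : (pts G F).card = 6 := by rw [hT]; exact c.c6
    rw [h11] at h10
    rw [sum_empty] at h10
    omega
  · omega

end Lf38

end CG

end Pool.Agent.Lib.MP_e95c01_co.N
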