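import Pool.Agent.Lib.MP_e95c01_co.Y.Lf38d
import Pool.Agent.Lib.MP_e95c01_co.Y.Lf96c
import Pool.Agent.Lib.MP_e95c01_co.Y.Par11

/-!
# Leaves with at least five vertices
-/

set_option autoImplicit false

namespace Pool.Agent.Lib.MP_e95c01_co.N

open Finset

variable {V : Type} [Fintype V] [DecidableEq V]

namespace CG

namespace Lf38

variable {G : CG V} {F : Finset V}

omit [Fintype V] in
theorem six38 (a b c d e f : V) : ({a, b, c, d, e, f} : Finset V).card ≤ 6 := by
  refine (card_insert_le _ _).trans ?_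
  have h1 := card_insert_le b ({c, d, e, f} : Finset V)
  have h2 := card_insert_le c ({d, e, f} : Finset V)
  have h3 := card_insert_le d ({e, f} : Finset V)
  have h4 := card_insert_le e ({f} : Finset V)
  rw [card_singleton] at h4
  omega

section

variable {v w w0 g : V} {A T S : Finset V}

/-- the two ports at the twins, `w0` is adjacent to the twins -/
structure Sp (G : CG V) (F : Finset V) (v w w0 g u u' : V) (A T S : Finset V) : Prop where
  s : Sq G F v w A T S
  y : Ty2 G F w0 g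
  h : Pq G F v w u u'
  h' : Pq G F v w u' u
  hT : T ∩ pts G F = {u, u'}
  hw : w0 ∈ T

variable {u u' : V}

theorem Sp.symm (k : Sp G F v w w0 g u u' A T S) : Sp G F v w w0 g u' u A T S :=
  ⟨k.s, k.y, k.h', k.h, by rw [k.hT, pair_comm], k.hw⟩

theorem Sp.uT (k : Sp G F v w w0 g u u' A T S) : u ∈ T ∧ u ∈ pts G F := by
  have : u ∈ T ∩ pts G F := by rw [k.hT]; exact mem_insert_self _ _
  exact mem_inter.1 this

theorem Sp.memT (k : Sp G F v w w0 g u u' A T S) {z : V} (hz : z ∈ T) :
    z = u ∨ z = u' ∨ z = w0 ∨ z = g := by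
  rcases k.y.all z (k.s.mT.1 hz).2 with h | h | h
  · have : z ∈ T ∩ pts G F := mem_inter.2 ⟨hz, h⟩
    rw [k.hT, mem_insert, mem_singleton] at this
    rcases this with h1 | h1
    · exact Or.inl h1
    · exact Or.inr (Or.inl h1)
  · exact Or.inr (Or.inr (Or.inl h))
  · exact Or.inr (Or.inr (Or.inr h))

theorem Sp.lowT (k : Sp G F v w w0 g u u' A T S) {z : V} (hz : z ∈ T) (hl : G.Low z) :
    z = u ∨ z = u' ∨ z = w0 := by
  rcases k.memT hz with h | h | h | h
  · exact Or.inl h
  · exact Or.inr (Or.inl h)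
  · exact Or.inr (Or.inr h)
  · exact absurd (h ▸ hl) k.y.gh.1

theorem Sp.uu (k : Sp G F v w w0 g u u' A T S) : u ≠ u' := by
  obtain ⟨S', q, q', x, y, p⟩ := k.h.pa
  exact ne_of_nb5 p.LL.2.2.1

theorem Sp.w0u (k : Sp G F v w w0 g u u' A T S) : w0 ≠ u := by
  rintro rfl
  exact k.y.w0p k.uT.2

/-- the other neighbours of `v` -/
theorem Sp.B (k : Sp G F v w w0 g u u' A T S) :
    (((((G.nb v).erase w).erase u).erase u').erase w0).card = 3 := by
  have h1 := k.s.ht.2.1
  have a1 := k.uT.1
  have a2 := k.symm.uT.1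
  have hwF := wF k.s.c k.s.hv k.s.ht
  have nF : ∀ z ∈ T, z ≠ w := by
    rintro z hz rfl
    exact notNF hwF (k.s.mT.1 hz).2
  have b0 : w ∈ G.nb v := k.s.ht.1
  have b1 : u ∈ (G.nb v).erase w := mem_erase.2 ⟨nF u a1, (k.s.mT.1 a1).1⟩
  have b2 : u' ∈ ((G.nb v).erase w).erase u :=
    mem_erase.2 ⟨k.uu.symm, mem_erase.2 ⟨nF u' a2, (k.s.mT.1 a2).1⟩⟩
  have b3 : w0 ∈ (((G.nb v).erase w).erase u).erase u' :=
    mem_erase.2 ⟨k.symm.w0u, mem_erase.2 ⟨k.w0u, mem_erase.2 ⟨nF w0 k.hw, (k.s.mT.1 k.hw).1⟩⟩⟩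
  rw [card_erase_of_mem b3, card_erase_of_mem b2, card_erase_of_mem b1, card_erase_of_mem b0, h1]

theorem Sp.mB (k : Sp G F v w w0 g u u' A T S) {z : V}
    (hz : z ∈ ((((G.nb v).erase w).erase u).erase u').erase w0) :
    z ∈ G.nb v ∧ z ≠ w ∧ z ≠ u ∧ z ≠ u' ∧ z ≠ w0 ∧ z ≠ v ∧ (z ∈ A ∨ z = g) ∧ ¬ G.Low z ∧
      z ∈ F ∪ G.N F := by
  rw [mem_erase, mem_erase, mem_erase, mem_erase] at hz
  obtain ⟨a1, a2, a3, a4, a5⟩ := hz
  have hv : z ≠ v := by
    rintro rfl
    exact G.irr _ a5
  rcases k.s.c.mem_or k.s.hv a5 with h | h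
  · exact ⟨a5, a4, a3, a2, a1, hv, Or.inl (k.s.mA.2 ⟨a4, a5, h⟩), k.s.c.nolow z h,
      mem_union_left _ h⟩
  · rcases k.memT (k.s.mT.2 ⟨a5, h⟩) with h1 | h1 | h1 | h1
    · exact absurd h1 a3
    · exact absurd h1 a2
    · exact absurd h1 a1
    · exact ⟨a5, a4, a3, a2, a1, hv, Or.inr h1, by rw [h1]; exact k.y.gh.1, mem_union_right _ h⟩

theorem Sp.A3 (k : Sp G F v w w0 g u u' A T S) : A.card ≤ 3 := by
  have h1 := k.s.AT
  have h2 : ({u, u', w0} : Finset V) ⊆ T := by
    intro z hz
    simp only [mem_insert, mem_singleton] at hz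
    rcases hz with rfl | rfl | rfl
    · exact k.uT.1
    · exact k.symm.uT.1
    · exact k.hw
  have h3 := card_le_card h2
  rw [card_eq_three.2 ⟨u, u', w0, k.uu, k.w0u.symm, k.symm.w0u.symm, rfl⟩] at h3
  omega

/-- `w0` is not adjacent to the ports -/
theorem Sp.one (k : Sp G F v w w0 g u u' A T S) (h : w0 ∈ G.nb u) : False := by
  classical
  have hw0N := k.y.wN
  have huN := (k.s.mT.1 k.uT.1).2
  have hu'N := (k.s.mT.1 k.symm.uT.1).2
  have hwF := wF k.s.c k.s.hv k.s.ht
  have nv : ∀ z ∈ F, z ≠ w0 ∧ z ≠ u ∧ z ≠ u' := by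
    intro z hz
    refine ⟨?_, ?_, ?_⟩
    · rintro rfl
      exact notNF hz hw0N
    · rintro rfl
      exact notNF hz huN
    · rintro rfl
      exact notNF hz hu'N
  have ext1 : ∀ z, z ∈ G.nb u → z ∈ F ∪ G.N F → z ≠ u' → z ≠ v → z ≠ w → z = w0 := by
    intro z h1 h2 h3 h4 h5
    exact k.h.ext z w0 h1 h h2 (mem_union_right _ hw0N) h3 h4 h5 k.symm.w0u
      (nv v k.s.hv).1.symm (nv w hwF).1.symm
  -- no twins in `A`
  have noP : ∀ e ∈ A, ∀ e' ∈ A, ¬ G.Tw e e' := by
    intro e he e' he' hte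
    obtain ⟨e1, e2, e3⟩ := k.s.mA.1 he
    obtain ⟨f1, f2, f3⟩ := k.s.mA.1 he'
    have hev : e ≠ v := by
      rintro rfl
      exact G.irr _ e2
    have hfv : e' ≠ v := by
      rintro rfl
      exact G.irr _ f2
    rcases k.s.cov e2 e1 with h1 | h1 | h1
    · obtain ⟨z, h2, h3, h4⟩ := h1
      have h4' : e' ∈ G.nb z := by
        refine G.sym _ _ (Tw_nb5 hte (G.sym _ _ h4) ?_)
        rintro rfl
        exact notNF f3 (k.s.mT.1 h2).2
      rcases k.lowT h2 h3 with h5 | h5 | h5
      · rw [h5] at h4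
        exact (nv e e3).1 (ext1 e h4 (mem_union_left _ e3) (nv e e3).2.2 hev e1)
      · rw [h5] at h4 h4'
        exact (ne_of_nb5 hte.1) (k.h'.ext e e' h4 h4' (mem_union_left _ e3)
          (mem_union_left _ f3) (nv e e3).2.1 hev e1 (nv e' f3).2.1 hfv f1)
      · rw [h5] at h4 h4'
        have h6 := w0_two k.s k.y k.hw (X := {e, e', u}) (by
          intro x hx
          simp only [mem_insert, mem_singleton] at hx
          rcases hx with rfl | rfl | rfl
          · exact ⟨h4, mem_union_left _ e3, hev, e1⟩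
          · exact ⟨h4', mem_union_left _ f3, hfv, f1⟩
          · exact ⟨G.sym _ _ h, mem_union_right _ huN, (nv v k.s.hv).2.1.symm,
              (nv w hwF).2.1.symm⟩)
        rw [card_eq_three.2 ⟨e, e', u, ne_of_nb5 hte.1, (nv e e3).2.1, (nv e' f3).2.1, rfl⟩] at h6
        omega
    · obtain ⟨b, hb, b', hb', h2, h3, h4⟩ := h1
      have k1 : b ≠ e := (ne_of_nb5 h3)
      have k2 : b' ≠ e := (ne_of_nb5 h4)
      have k3 : b ≠ e' := by
        rintro rfl
        exact k2 ((stTwHL_5 G).uniq k.s.c.n9 _ _ _ h2 (tsymm hte))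
      have k4 : b' ≠ e' := by
        rintro rfl
        exact k1 ((stTwHL_5 G).uniq k.s.c.n9 _ _ _ (tsymm h2) (tsymm hte))
      have h5 : ({b, b', e, e'} : Finset V) ⊆ A := by
        intro x hx
        simp only [mem_insert, mem_singleton] at hx
        rcases hx with rfl | rfl | rfl | rfl
        · exact hb
        · exact hb'
        · exact he
        · exact he'
      have h6 := card_le_card h5
      rw [card_insert_of_notMem, card_insert_of_notMem, card_pair (ne_of_nb5 hte.1)] at h6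
      · have := k.A3
        omega
      · simp only [mem_insert, mem_singleton, not_or]
        exact ⟨k2, k4⟩
      · simp only [mem_insert, mem_singleton, not_or]
        exact ⟨ne_of_nb5 h2.1, k1, k3⟩
    · exact k.s.c.nolow e e3 h1.1
  set B := ((((G.nb v).erase w).erase u).erase u').erase w0 with hB
  have hBc : B.card = 3 := k.B
  have hcov : ∀ z ∈ B, z ∈ G.nb u' ∨ z ∈ G.nb w0 := by
    intro z hz
    obtain ⟨a1, a2, a3, a4, a5, a6, a7, a8, a9⟩ := k.mB hz
    rcases k.s.cov a1 a2 with h1 | h1 | h1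
    · obtain ⟨t, h2, h3, h4⟩ := h1
      rcases k.lowT h2 h3 with h5 | h5 | h5
      · rw [h5] at h4
        exact absurd (ext1 z h4 a9 a4 a6 a2) a5
      · rw [← h5]
        exact Or.inl h4
      · rw [← h5]
        exact Or.inr h4
    · obtain ⟨b, hb, b', hb', h2, -⟩ := h1
      exact absurd h2 (noP b hb b' hb')
    · exact absurd h1.1 a8
  have h1 : B ⊆ (B.filter fun z => z ∈ G.nb u') ∪ B.filter fun z => z ∈ G.nb w0 := by
    intro z hz
    rw [mem_union, mem_filter, mem_filter]
    rcases hcov z hz with h2 | h2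
    · exact Or.inl ⟨hz, h2⟩
    · exact Or.inr ⟨hz, h2⟩
  have h2 := (card_le_card h1).trans (card_union_le _ _)
  have h3 : (B.filter fun z => z ∈ G.nb u').card ≤ 1 := by
    rw [card_le_one]
    intro a ha b hb
    rw [mem_filter] at ha hb
    obtain ⟨a1, a2, a3, a4, a5, a6, a7, a8, a9⟩ := k.mB ha.1
    obtain ⟨b1, b2, b3, b4, b5, b6, b7, b8, b9⟩ := k.mB hb.1
    exact k.h'.ext a b ha.2 hb.2 a9 b9 a3 a6 a2 b3 b6 b2
  have h4 : (insert u (B.filter fun z => z ∈ G.nb w0)).card ≤ 2 := by
    apply w0_two k.s k.y k.hw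
    intro x hx
    rcases mem_insert.1 hx with rfl | hx
    · exact ⟨G.sym _ _ h, mem_union_right _ huN, (nv v k.s.hv).2.1.symm, (nv w hwF).2.1.symm⟩
    · rw [mem_filter] at hx
      obtain ⟨a1, a2, a3, a4, a5, a6, a7, a8, a9⟩ := k.mB hx.1
      exact ⟨hx.2, a9, a6, a2⟩
  rw [card_insert_of_notMem] at h4
  · omega
  · intro h5
    exact (k.mB (mem_filter.1 h5).1).2.2.1 rfl

/-- `HL` is no cover of `w0` -/
theorem Sp.noHL (k : Sp G F v w w0 g u u' A T S) {a : V} (ha : a ∈ G.N F)
    (h : G.HL a u w0) : False := by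
  obtain ⟨S', q, q', x, y, p⟩ := k.h.pa
  have hwF := wF k.s.c k.s.hv k.s.ht
  have h1 : u' ∈ G.cl a := by
    rw [h.2.2.2.2]
    exact mem_insert_of_mem (mem_insert_of_mem p.LL.2.2.1)
  rcases mem_insert.1 h1 with h2 | h2
  · have h3 := h.1
    rw [← h2] at h3
    have h4 : (G.nb u').card = 6 := p.LL.2.1
    omega
  · rcases k.h.com a (G.sym _ _ h.2.2.1) (G.sym _ _ h2) (mem_union_right _ ha) with h3 | h3
    · exact notNF k.s.hv (h3 ▸ ha)
    · exact notNF hwF (h3 ▸ ha)

/-- a pair of twins in `A` adjacent to `w0` -/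
theorem Sp.pair (k : Sp G F v w w0 g u u' A T S) :
    ∃ e ∈ A, ∃ e' ∈ A, G.Tw e e' ∧ w0 ∈ G.nb e ∧ w0 ∈ G.nb e' := by
  have hwF := wF k.s.c k.s.hv k.s.ht
  rcases k.s.cov (k.s.mT.1 k.hw).1 (by
    rintro rfl
    exact notNF hwF k.y.wN) with h | h | h
  · exfalso
    obtain ⟨z, h1, h2, h3⟩ := h
    rcases k.lowT h1 h2 with h4 | h4 | h4
    · exact k.one (h4 ▸ h3)
    · exact k.symm.one (h4 ▸ h3)
    · rw [h4] at h3
      exact G.irr _ h3
  · exact h
  · exfalso
    obtain ⟨-, a, b, h1, h2, h3⟩ := h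
    rcases k.lowT h3 h1.2.1 with h4 | h4 | h4
    · exact k.noHL h2 (h4 ▸ h1)
    · exact k.symm.noHL h2 (h4 ▸ h1)
    · rw [h4] at h1
      exact (HL_bt76 h1).2 rfl

/-- two ports at the twins: the data -/
theorem Sq.mkSp (s : Sq G F v w A T S) (y : Ty2 G F w0 g) (hp : (T ∩ pts G F).card = 2) :
    ∃ u u', Sp G F v w w0 g u u' A T S := by
  obtain ⟨u, hu⟩ := card_pos.1 (show 0 < (T ∩ pts G F).card by omega)
  rw [mem_inter] at hu
  obtain ⟨u', h1, h2, h3, h4, h5⟩ := s.port hu.1 hu.2
  have hT : T ∩ pts G F = {u, u'} := by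
    symm
    apply eq_of_subset_of_card_le
    · intro z hz
      rw [mem_insert, mem_singleton] at hz
      rcases hz with rfl | rfl
      · exact mem_inter.2 hu
      · exact mem_inter.2 ⟨h1, h2⟩
    · rw [hp, card_pair h3.symm]
  obtain ⟨z, h6, h7, h8, h9⟩ := s.third h4
  refine ⟨u, u', s, y, h4, h5, hT, ?_⟩
  rcases y.all z (s.mT.1 h6).2 with h10 | h10 | h10
  · have : z ∈ T ∩ pts G F := mem_inter.2 ⟨h6, h10⟩
    rw [hT, mem_insert, mem_singleton] at this
    rcases this with h11 | h11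
    · exact absurd h11 h8
    · exact absurd h11 h9
  · exact h10 ▸ h6
  · exact absurd (h10 ▸ h7) y.gh.1

theorem mkSq (c : Li G F) (hN : ∀ x ∈ G.N F, ¬ G.IsTw x) (hv : v ∈ F) (ht : G.Tw v w) :
    Sq G F v w ((G.nb v ∩ F).erase w) (G.nb v ∩ G.N F)
      (F \ (insert v (insert w ((G.nb v ∩ F).erase w)))) :=
  ⟨c, hN, hv, ht, rfl, rfl, rfl⟩

theorem port_set (s : Sq G F v w A T S) (y : Ty2 G F w0 g) (h : (T ∩ pts G F).card = 4) :
    pts G F ⊆ T := by
  have h1 : T ∩ pts G F = pts G F := eq_of_subset_of_card_le inter_subset_right (by rw [h, y.p4])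
  rw [← h1]
  exact inter_subset_left

/-- two ports at the twins -/
theorem Sp.false (k : Sp G F v w w0 g u u' A T S) : False := by
  classical
  obtain ⟨e, he, e', he', hte, h0, h0'⟩ := k.pair
  obtain ⟨e1, e2, e3⟩ := k.s.mA.1 he
  obtain ⟨f1, f2, f3⟩ := k.s.mA.1 he'
  have hwF := wF k.s.c k.s.hv k.s.ht
  have hev : e ≠ v := by
    rintro rfl
    exact G.irr _ e2
  have hfv : e' ≠ v := by
    rintro rfl
    exact G.irr _ f2
  have c := k.s.c
  have s2 := mkSq c k.s.nt e3 hte
  -- the ports at `v` are not ports at `e`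
  have nu : ∀ {u u' : V}, Sp G F v w w0 g u u' A T S → e ∉ G.nb u := by
    intro u u' k' h
    have huN := (k.s.mT.1 k'.uT.1).2
    have hu'N := (k.s.mT.1 k'.symm.uT.1).2
    have h2 : e' ∈ G.nb u := by
      refine G.sym _ _ (Tw_nb5 hte (G.sym _ _ h) ?_)
      rintro rfl
      exact notNF f3 huN
    have n1 : ∀ z ∈ F, z ≠ u' := by
      rintro z hz rfl
      exact notNF hz hu'N
    exact (ne_of_nb5 hte.1) (k'.h.ext e e' h h2 (mem_union_left _ e3) (mem_union_left _ f3)
      (n1 e e3) hev e1 (n1 e' f3) hfv f1)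
  have nu1 := nu k
  have nu2 := nu k.symm
  rcases s2.nports k.y with hp | hp | hp
  · exact s2.zero k.y hp
  · obtain ⟨u2, u2', k2⟩ := s2.mkSp k.y hp
    -- `w0` sees the four twin vertices only
    have hvis : ∀ z, z ∈ G.nb w0 → z ∈ F ∪ G.N F → z = v ∨ z = w ∨ z = e ∨ z = e' :=
      fun z h1 h2 => w0_vis k.s k.y k.hw he he' hte h0 h1 h2
    -- all the ports
    have hpts : ∀ z ∈ pts G F, z = u ∨ z = u' ∨ z = u2 ∨ z = u2' := by
      have h1 : ({u, u'} : Finset V) ∪ {u2, u2'} ⊆ pts G F := by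
        intro z hz
        simp only [mem_union, mem_insert, mem_singleton] at hz
        rcases hz with (rfl | rfl) | (rfl | rfl)
        · exact k.uT.2
        · exact k.symm.uT.2
        · exact k2.uT.2
        · exact k2.symm.uT.2
      have h2 : Disjoint ({u, u'} : Finset V) {u2, u2'} := by
        rw [disjoint_left]
        intro z hz hz2
        simp only [mem_insert, mem_singleton] at hz hz2
        have h3 : e ∈ G.nb z := by
          rcases hz2 with rfl | rfl
          · exact G.sym _ _ (k2.s.mT.1 k2.uT.1).1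
          · exact G.sym _ _ (k2.s.mT.1 k2.symm.uT.1).1
        rcases hz with rfl | rfl
        · exact nu1 h3
        · exact nu2 h3
      have h3 : ({u, u'} : Finset V) ∪ {u2, u2'} = pts G F := by
        apply eq_of_subset_of_card_le h1
        rw [card_union_of_disjoint h2, card_pair k.uu, card_pair k2.uu, k.y.p4]
      intro z hz
      rw [← h3] at hz
      simp only [mem_union, mem_insert, mem_singleton] at hz
      tauto
    -- `b` and `b2`
    have hB := k.B
    set B := ((((G.nb v).erase w).erase u).erase u').erase w0 with hBd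
    have hB2 := k2.B
    set B2 := ((((G.nb e).erase e').erase u2).erase u2').erase w0 with hB2d
    have heB : e ∈ B := by
      rw [hBd, mem_erase, mem_erase, mem_erase, mem_erase]
      refine ⟨?_, ?_, ?_, e1, e2⟩
      · rintro rfl
        exact notNF e3 k.y.wN
      · rintro rfl
        exact notNF e3 (k.s.mT.1 k.symm.uT.1).2
      · rintro rfl
        exact notNF e3 (k.s.mT.1 k.uT.1).2
    have he'B : e' ∈ B := by
      rw [hBd, mem_erase, mem_erase, mem_erase, mem_erase]
      refine ⟨?_, ?_, ?_, f1, f2⟩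
      · rintro rfl
        exact notNF f3 k.y.wN
      · rintro rfl
        exact notNF f3 (k.s.mT.1 k.symm.uT.1).2
      · rintro rfl
        exact notNF f3 (k.s.mT.1 k.uT.1).2
    have hve : v ∈ G.nb e := G.sym _ _ e2
    have hwe : w ∈ G.nb e := G.sym _ _ (Tw_nb5 k.s.ht e2 e1)
    have hvB2 : v ∈ B2 := by
      rw [hB2d, mem_erase, mem_erase, mem_erase, mem_erase]
      refine ⟨?_, ?_, ?_, hfv.symm, hve⟩
      · intro h
        exact notNF k.s.hv (h ▸ k.y.wN)
      · intro h
        exact notNF k.s.hv (h ▸ (k2.s.mT.1 k2.symm.uT.1).2)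
      · intro h
        exact notNF k.s.hv (h ▸ (k2.s.mT.1 k2.uT.1).2)
    have hwB2 : w ∈ B2 := by
      rw [hB2d, mem_erase, mem_erase, mem_erase, mem_erase]
      refine ⟨?_, ?_, ?_, f1.symm, hwe⟩
      · intro h
        exact notNF hwF (h ▸ k.y.wN)
      · intro h
        exact notNF hwF (h ▸ (k2.s.mT.1 k2.symm.uT.1).2)
      · intro h
        exact notNF hwF (h ▸ (k2.s.mT.1 k2.uT.1).2)
    obtain ⟨b, hb⟩ : ∃ b, (B.erase e).erase e' = {b} := card_eq_one.1 (by
      rw [card_erase_of_mem (mem_erase.2 ⟨(ne_of_nb5 hte.1).symm, he'B⟩), card_erase_of_mem heB,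
        hB])
    obtain ⟨b2, hb2⟩ : ∃ b2, (B2.erase v).erase w = {b2} := card_eq_one.1 (by
      rw [card_erase_of_mem (mem_erase.2 ⟨k.s.vw.symm, hwB2⟩), card_erase_of_mem hvB2, hB2])
    have nbv : ∀ z, z ∈ G.nb v → z = w ∨ z = u ∨ z = u' ∨ z = w0 ∨ z = e ∨ z = e' ∨ z = b := by
      intro z hz
      by_contra hno
      push Not at hno
      obtain ⟨n1, n2, n3, n4, n5, n6, n7⟩ := hno
      have h1 : z ∈ (B.erase e).erase e' := by
        rw [mem_erase, mem_erase, hBd, mem_erase, mem_erase, mem_erase, mem_erase]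
        exact ⟨n6, n5, n4, n3, n2, n1, hz⟩
      rw [hb, mem_singleton] at h1
      exact n7 h1
    have nbe : ∀ z, z ∈ G.nb e → z = e' ∨ z = u2 ∨ z = u2' ∨ z = w0 ∨ z = v ∨ z = w ∨
        z = b2 := by
      intro z hz
      by_contra hno
      push Not at hno
      obtain ⟨n1, n2, n3, n4, n5, n6, n7⟩ := hno
      have h1 : z ∈ (B2.erase v).erase w := by
        rw [mem_erase, mem_erase, hB2d, mem_erase, mem_erase, mem_erase, mem_erase]
        exact ⟨n6, n5, n4, n3, n2, n1, hz⟩
      rw [hb2, mem_singleton] at h1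
      exact n7 h1
    have hbb : b ≠ b2 := by
      intro hbb
      have h1 := four_seven k.s he he' hte (X := {u, u', u2, u2', w0, b}) (by
        intro z _ hz
        simp only [mem_insert, mem_singleton]
        rcases hz with hz | hz
        · rcases nbv z hz with h | h | h | h | h | h | h <;> tauto
        · rcases nbe z hz with h | h | h | h | h | h | h
          · tauto
          · tauto
          · tauto
          · tauto
          · tauto
          · tauto
          · rw [← hbb] at h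
            tauto)
      have h2 := six38 u u' u2 u2' w0 b
      omega
    -- a further vertex of `F`
    have hc4 : ({v, w, e, e'} : Finset V).card ≤ 4 := by
      have h1 := card_insert_le v ({w, e, e'} : Finset V)
      have h2 := card_insert_le w ({e, e'} : Finset V)
      have h3 := card_insert_le e ({e'} : Finset V)
      rw [card_singleton] at h3
      omega
    have hsub4 : ({v, w, e, e'} : Finset V) ⊆ F := by
      intro z hz
      simp only [mem_insert, mem_singleton] at hz
      rcases hz with rfl | rfl | rfl | rfl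
      · exact k.s.hv
      · exact hwF
      · exact e3
      · exact f3
    have hc4' : ({v, w, e, e'} : Finset V).card = 4 := by
      rw [card_insert_of_notMem, card_insert_of_notMem, card_pair (ne_of_nb5 hte.1)]
      · simp only [mem_insert, mem_singleton, not_or]
        exact ⟨e1.symm, f1.symm⟩
      · simp only [mem_insert, mem_singleton, not_or]
        exact ⟨k.s.vw, hev.symm, hfv.symm⟩
    obtain ⟨z, hz⟩ : (F \ {v, w, e, e'}).Nonempty := by
      rw [← card_pos, card_sdiff_of_subset hsub4]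
      have := c.c5
      omega
    rw [mem_sdiff] at hz
    have hz4 := hz.2
    simp only [mem_insert, mem_singleton, not_or] at hz4
    obtain ⟨z1, z2, z3, z4⟩ := hz4
    have hzN : ∀ t ∈ G.N F, z ≠ t := by
      rintro t ht rfl
      exact notNF hz.1 ht
    have hzv : z ∈ G.nb v → z = b := by
      intro h
      rcases nbv z h with h1 | h1 | h1 | h1 | h1 | h1 | h1
      · exact absurd h1 z2
      · exact absurd h1 (hzN u (k.s.mT.1 k.uT.1).2)
      · exact absurd h1 (hzN u' (k.s.mT.1 k.symm.uT.1).2)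
      · exact absurd h1 (hzN w0 k.y.wN)
      · exact absurd h1 z3
      · exact absurd h1 z4
      · exact h1
    have hze : z ∈ G.nb e → z = b2 := by
      intro h
      rcases nbe z h with h1 | h1 | h1 | h1 | h1 | h1 | h1
      · exact absurd h1 z4
      · exact absurd h1 (hzN u2 (k2.s.mT.1 k2.uT.1).2)
      · exact absurd h1 (hzN u2' (k2.s.mT.1 k2.symm.uT.1).2)
      · exact absurd h1 (hzN w0 k.y.wN)
      · exact absurd h1 z1
      · exact absurd h1 z2
      · exact h1
    -- the neighbours of `z`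
    have hP : (G.nb z ∩ {v, w, e, e'}).card ≤ 2 := by
      by_cases h1 : z ∈ G.nb v
      · have h2 : z ∉ G.nb e := fun h2 => hbb ((hzv h1).symm.trans (hze h2))
        have h3 : G.nb z ∩ {v, w, e, e'} ⊆ {v, w} := by
          intro t ht
          simp only [mem_inter, mem_insert, mem_singleton] at ht ⊢
          rcases ht with ⟨h4, rfl | rfl | rfl | rfl⟩
          · exact Or.inl rfl
          · exact Or.inr rfl
          · exact absurd (G.sym _ _ h4) h2
          · exact absurd (Tw_nb5 (tsymm hte) (G.sym _ _ h4) z3) h2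
        exact (card_le_card h3).trans (card_le_two)
      · have h3 : G.nb z ∩ {v, w, e, e'} ⊆ {e, e'} := by
          intro t ht
          simp only [mem_inter, mem_insert, mem_singleton] at ht ⊢
          rcases ht with ⟨h4, rfl | rfl | rfl | rfl⟩
          · exact absurd (G.sym _ _ h4) h1
          · exact absurd (Tw_nb5 (tsymm k.s.ht) (G.sym _ _ h4) z1) h1
          · exact Or.inl rfl
          · exact Or.inr rfl
        exact (card_le_card h3).trans (card_le_two)
    have hone : ∀ {v w u u' : V}, Pq G F v w u u' → u ≠ u' → z ≠ v → z ≠ w →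
        (G.nb z ∩ {u, u'}).card ≤ 1 := by
      intro v w u u' h hne n1 n2
      by_contra hcon
      have h1 : G.nb z ∩ {u, u'} = {u, u'} := eq_of_subset_of_card_le inter_subset_right (by
        rw [card_pair hne]
        omega)
      have h2 : u ∈ G.nb z ∩ {u, u'} := by rw [h1]; exact mem_insert_self _ _
      have h3 : u' ∈ G.nb z ∩ {u, u'} := by
        rw [h1]
        exact mem_insert_of_mem (mem_singleton_self _)
      rcases h.com z (G.sym _ _ (mem_inter.1 h2).1) (G.sym _ _ (mem_inter.1 h3).1)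
        (mem_union_left _ hz.1) with h4 | h4
      · exact n1 h4
      · exact n2 h4
    have hU1 := hone k.h k.uu z1 z2
    have hU2 := hone k2.h k2.uu z3 z4
    have hR : ((F \ {v, w, e, e'}).erase z).card ≤ 1 := by
      rw [card_erase_of_mem (mem_sdiff.2 hz), card_sdiff_of_subset hsub4, hc4']
      have := k.y.m6
      omega
    have hall : G.nb z ⊆ (((G.nb z ∩ {v, w, e, e'}) ∪ (F \ {v, w, e, e'}).erase z) ∪
        ((G.nb z ∩ {u, u'}) ∪ (G.nb z ∩ {u2, u2'}))) ∪ {g} := by
      intro t ht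
      rcases c.mem_or hz.1 ht with h1 | h1
      · apply mem_union_left
        apply mem_union_left
        by_cases h2 : t ∈ ({v, w, e, e'} : Finset V)
        · exact mem_union_left _ (mem_inter.2 ⟨ht, h2⟩)
        · refine mem_union_right _ (mem_erase.2 ⟨?_, mem_sdiff.2 ⟨h1, h2⟩⟩)
          rintro rfl
          exact G.irr _ ht
      · rcases k.y.all t h1 with h2 | h2 | h2
        · apply mem_union_left
          apply mem_union_right
          rcases hpts t h2 with h3 | h3 | h3 | h3
          · exact mem_union_left _ (mem_inter.2 ⟨ht, by rw [h3]; exact mem_insert_self _ _⟩)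
          · exact mem_union_left _ (mem_inter.2 ⟨ht, by
              rw [h3]
              exact mem_insert_of_mem (mem_singleton_self _)⟩)
          · exact mem_union_right _ (mem_inter.2 ⟨ht, by rw [h3]; exact mem_insert_self _ _⟩)
          · exact mem_union_right _ (mem_inter.2 ⟨ht, by
              rw [h3]
              exact mem_insert_of_mem (mem_singleton_self _)⟩)
        · exfalso
          rw [h2] at ht
          rcases hvis z (G.sym _ _ ht) (mem_union_left _ hz.1) with h3 | h3 | h3 | h3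
          · exact z1 h3
          · exact z2 h3
          · exact z3 h3
          · exact z4 h3
        · exact mem_union_right _ (by rw [h2]; exact mem_singleton_self _)
    have h1 := card_le_card hall
    have h2 := card_union_le (((G.nb z ∩ {v, w, e, e'}) ∪ (F \ {v, w, e, e'}).erase z) ∪
        ((G.nb z ∩ {u, u'}) ∪ (G.nb z ∩ {u2, u2'}))) {g}
    have h3 := card_union_le ((G.nb z ∩ {v, w, e, e'}) ∪ (F \ {v, w, e, e'}).erase z)
        ((G.nb z ∩ {u, u'}) ∪ (G.nb z ∩ {u2, u2'}))
    have h4 := card_union_le (G.nb z ∩ {v, w, e, e'}) ((F \ {v, w, e, e'}).erase z)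
    have h5 := card_union_le (G.nb z ∩ {u, u'}) (G.nb z ∩ {u2, u2'})
    rw [card_singleton] at h2
    have h6 := G.deg z
    have h7 : (G.nb z).card ≠ 6 := c.nolow z hz.1
    omega
  · have h1 := port_set s2 k.y hp
    have h2 := h1 k.uT.2
    exact nu1 (G.sym _ _ (s2.mT.1 h2).1)

end

/-- no twins in the leaf -/
theorem Li.noTw (c : Li G F) : ∀ z ∈ F, ¬ G.IsTw z := by
  rintro v hv ⟨w, ht⟩
  obtain ⟨hN, h⟩ := c.types
  have s := mkSq c hN hv ht
  rcases h with ⟨h1, h2⟩ | ⟨w0, g, y⟩
  · exact s.typeI h1 h2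
  · rcases s.nports y with hp | hp | hp
    · exact s.zero y hp
    · obtain ⟨u, u', k⟩ := s.mkSp y hp
      exact k.false
    · exact s.four y (port_set s y hp)

/-- there is no such leaf -/
theorem Li.false (c : Li G F) : False := by
  obtain ⟨hN, h⟩ := c.types
  refine c.hubs96 c.noTw hN ?_
  rcases h with ⟨h1, -⟩ | ⟨w0, g, y⟩
  · exact Or.inl h1
  · exact Or.inr (by rw [y.p4])

end Lf38

open Lf38

/-- leaves with at least five vertices -/
theorem leaf38 {G : CG V} (hM : G.StM9) (hcr : G.Crit) (hsat : G.Sat) {F : Finset V}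
    (hF : G.GoodK F) (T : G.Tor F ∅) (h5 : 5 ≤ F.card) : 4 ≤ G.WS F := by
  classical
  have hcardV := G.card_V37 hF.1.1
  have hF3 := hF.1.2.1
  have hCF3 := hF.1.2.2
  have hn9 : 9 ≤ Fintype.card V := by omega
  have hnoK : ∀ S, G.IsK6 S → ¬ S ⊆ F := by
    intro S hS hSF
    obtain ⟨A, hA, -⟩ := T.k6 S hS hSF
    exact absurd hA (notMem_empty _)
  have hP0 : 0 ≤ G.P5 F := by
    have h1 := G.fine38 hM hcr hsat F hF
    have h2 : G.qLL F = 0 := by
      unfold qLL
      rw [card_eq_zero, filter_eq_empty_iff]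
      rintro q hq ⟨S, hS, hqS, -⟩
      exact hnoK S hS (Gd57.k6_sub hF.2 hS hqS hq)
    rw [h2] at h1
    push_cast at h1
    linarith
  have hth : 0 ≤ ∑ w ∈ univ.filter (fun w => G.Low w), G.thS F w :=
    sum_nonneg fun w _ => thS_nonneg33 F w
  by_contra hcon
  push Not at hcon
  have hWS : G.WS F = 3 * G.P5 F + ∑ w ∈ univ.filter (fun w => G.Low w), G.thS F w := rfl
  have hP : G.P5 F = 0 := by
    obtain ⟨k, hk⟩ := P5_even11 hn9 hF.1.1
    omega
  have hnl : ∀ z ∈ F, ¬ G.Low z := by
    intro z hz hl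
    have h1 := single_le_sum (f := fun w => G.thS F w) (fun w _ => thS_nonneg33 F w)
      (mem_filter.2 ⟨mem_univ z, hl⟩ : z ∈ univ.filter (fun w => G.Low w))
    simp only [thS_in33 hF.2 hz] at h1
    omega
  have hLf : G.Lf F := G.stLSit_11 hsat F hF.1 (by omega) (T.leaf rfl) (by
    intro z hz v hv
    by_contra h
    obtain ⟨A, hA, -⟩ := T.cov (by omega) z hz (fun A hA => absurd hA (notMem_empty _)) v hv h
    exact absurd hA (notMem_empty _))
  exact Li.false (F := F) (G := G) ⟨hLf, h5, hcr, hF, hnl, hnoK, hP, by omega⟩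

end CG

end Pool.Agent.Lib.MP_e95c01_co.N
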