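import Pool.Agent.Lib.MP_e95c01_co.Y.Val33
import Pool.Agent.Lib.MP_e95c01_co.Y.AlQ11

/-!
# A `K6` in `F` with a port that sees only `C` has a port inside `F`
-/

set_option autoImplicit false

namespace Pool.Agent.Lib.MP_e95c01_co.N

open Finset

variable {V : Type} [Fintype V] [DecidableEq V]

namespace CG

variable {G : CG V} {F : Finset V}

/-- not all ports of `K` are in `N F` -/
theorem not_all_N33 (hF : G.GoodK F) {K : Finset V} (hK : G.IsK6 K)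
    (hKF : K ⊂ F) {u v : V} (h : G.AlQ K (G.Co F) u v) : ∃ w ∈ G.N K, w ∉ G.N F := by
  classical
  obtain ⟨hCf, hCN, hCC⟩ := G.stCo_37 F hF.1.1
  by_contra hno
  push Not at hno
  -- the rest of `F`
  set D := F \ K with hD
  have hDne : D.Nonempty := by
    obtain ⟨d, hd, hdK⟩ := exists_of_ssubset hKF
    exact ⟨d, mem_sdiff.2 ⟨hd, hdK⟩⟩
  have hDN : ∀ d ∈ D, d ∉ G.N F := fun d hd h => (mem_N76.1 h).1 (mem_sdiff.1 hd).1
  have h1 : ∀ z ∈ G.N D, z ∈ G.N F := by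
    intro z hz
    obtain ⟨hzD, d, hd, hdz⟩ := mem_N76.1 hz
    obtain ⟨hdF, hdK⟩ := mem_sdiff.1 hd
    by_cases hzF : z ∈ F
    · have hzK : z ∈ K := by
        by_contra hzK
        exact hzD (mem_sdiff.2 ⟨hzF, hzK⟩)
      exact absurd (hno d (mem_N76.2 ⟨hdK, z, hzK, G.sym _ _ hdz⟩)) (hDN d hd)
    · exact mem_N76.2 ⟨hzF, d, hdF, hdz⟩
  have key : ∀ w, (∀ t ∈ G.nb w, t ∈ K ∨ t ∈ G.Co F ∨ t ∈ G.N (G.Co F) ∨ t ∈ G.N K) →
      w ∉ G.N D := by
    intro w hw hwD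
    obtain ⟨-, d, hd, hdw⟩ := mem_N76.1 hwD
    rcases hw d (G.sym _ _ hdw) with h2 | h2 | h2 | h2
    · exact (mem_sdiff.1 hd).2 h2
    · exact (mem_Co76.1 h2).1 (mem_sdiff.1 hd).1
    · rw [hCN] at h2
      exact hDN d hd h2
    · exact hDN d hd (hno d h2)
  have hu := key u h.hu
  have hv := key v h.hv
  have huN : u ∈ G.N F := by
    have := h.uN
    rwa [hCN] at this
  have hvN : v ∈ G.N F := by
    have := h.vN
    rwa [hCN] at this
  have h2 : G.N D ⊆ ((G.N F).erase u).erase v := by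
    intro z hz
    rw [mem_erase, mem_erase]
    exact ⟨fun e => hv (e ▸ hz), fun e => hu (e ▸ hz), h1 z hz⟩
  have h3 := card_le_card h2
  rw [card_erase_of_mem (mem_erase.2 ⟨h.ne.symm, hvN⟩), card_erase_of_mem huN, hF.1.1.2.1] at h3
  obtain ⟨q, hq⟩ : K.Nonempty := by
    rw [← card_pos, hK.1]
    norm_num
  have h4 : (G.Co D).Nonempty := by
    refine ⟨q, mem_Co76.2 ⟨fun h => (mem_sdiff.1 h).2 hq, fun h => ?_⟩⟩
    exact (mem_N76.1 (h1 q h)).1 (hKF.1 hq)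
  have h5 := G.stN6_37 D hDne h4
  omega

end CG

end Pool.Agent.Lib.MP_e95c01_co.N
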