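import Pool.Agent.Lib.MP_e95c01_co.Y.PortB87

/-!
# `LL` ports of a `K6` in one neighbourhood only whose other common neighbours are no twins

The two port vertices keep at least 2, if nobody but the partner asks them (row 6, `StAsk1`).
-/

namespace Pool.Agent.Lib.MP_e95c01_co.N

open Finset

variable {V : Type} [Fintype V] [DecidableEq V]

namespace CG

variable {G : CG V} {Fa : Finset (Finset V)} {K : Finset V} {q q' u v c d x y : V}

namespace LPt

theorem vu97 (h : G.LPt Fa K q q' u v c d x y) : v ∈ G.nb u :=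
  h.memu.2 (Or.inr (Or.inr (Or.inl rfl)))

theorem cu97 (h : G.LPt Fa K q q' u v c d x y) : c ∈ G.nb u :=
  h.memu.2 (Or.inr (Or.inr (Or.inr (Or.inl rfl))))

theorem xu97 (h : G.LPt Fa K q q' u v c d x y) : x ∈ G.nb u :=
  h.memu.2 (Or.inr (Or.inr (Or.inr (Or.inr (Or.inr rfl)))))

theorem qu97 (h : G.LPt Fa K q q' u v c d x y) : q ∈ G.nb u := h.memu.2 (Or.inl rfl)

/-- the neighbours of `u` outside of `K` are visible -/
theorem nbR97 (h : G.LPt Fa K q q' u v c d x y) (hG : G.Gen6 Fa) (hI : G.I Fa u = {K}) {z : V}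
    (hz : z ∈ G.nb u) (hK : z ∉ K) : z ∈ R Fa := by
  refine mem_R76.2 fun B hB hzB => ?_
  have h1 : B ∈ G.I Fa u := mem_I76.2 ⟨hB, mem_N76.2
    ⟨mem_R76.1 (h.uR hG.g5.reg) B hB, z, hzB, G.sym _ _ hz⟩⟩
  rw [hI, mem_singleton] at h1
  exact hK (h1 ▸ hzB)

/-- a vertex of the neighbourhood of `K` is low -/
theorem lowN97 (h : G.LPt Fa K q q' u v c d x y) (hG : G.Gen6 Fa) {w : V} (hw : w ∈ G.N K) :
    G.Low w := by
  obtain ⟨-, -, -, -, -, -, -, h7, -⟩ := partner hG h.mem h.k6 hw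
  exact h7

/-- at most one of `c`, `d`, `x`, `y` is in the neighbourhood of `K` -/
theorem one97 (h : G.LPt Fa K q q' u v c d x y) (hG : G.Gen6 Fa) (hI : G.I Fa u = {K})
    (hJ : G.I Fa v = {K}) {a b : V} (hab : a ≠ b) (ha : a ∈ ({c, d, x, y} : Finset V))
    (hb : b ∈ ({c, d, x, y} : Finset V)) (ha' : a ∈ G.N K) (hb' : b ∈ G.N K) : False := by
  have hr := hG.g5.reg
  have h1 := hG.g5.exp K h.mem {u, v} ⟨u, mem_insert_self _ _⟩
    (by rw [card_pair h.uv]; norm_num) (by
      intro z hz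
      rw [mem_insert, mem_singleton] at hz
      rcases hz with rfl | rfl
      · exact ⟨h.uR hr, hI⟩
      · exact ⟨h.symm.uR hr, hJ⟩)
  rw [card_pair h.uv] at h1
  have h2 : G.N {u, v} ∩ G.Co K ⊆ (({c, d, x, y} : Finset V).erase a).erase b := by
    intro z hz
    obtain ⟨h3, h4⟩ := mem_inter.1 hz
    obtain ⟨h5, w, h6, h7⟩ := mem_N76.1 h3
    obtain ⟨h8, h9⟩ := mem_Co76.1 h4
    have h10 : z ∈ ({c, d, x, y} : Finset V) := by
      rw [mem_insert, mem_singleton] at h5 h6
      push Not at h5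
      simp only [mem_insert, mem_singleton]
      rcases h6 with rfl | rfl
      · rcases h.memu.1 h7 with g | g | g | g | g | g
        · exact absurd h.qK (g ▸ h8)
        · exact absurd h.qK' (g ▸ h8)
        · exact absurd g h5.2
        · exact Or.inl g
        · exact Or.inr (Or.inl g)
        · exact Or.inr (Or.inr (Or.inl g))
      · rcases h.memv.1 h7 with g | g | g | g | g | g
        · exact absurd h.qK (g ▸ h8)
        · exact absurd h.qK' (g ▸ h8)
        · exact absurd g h5.1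
        · exact Or.inl g
        · exact Or.inr (Or.inl g)
        · exact Or.inr (Or.inr (Or.inr g))
    refine mem_erase.2 ⟨?_, mem_erase.2 ⟨?_, h10⟩⟩
    · rintro rfl
      exact h9 hb'
    · rintro rfl
      exact h9 ha'
  have h3 := card_le_card h2
  rw [card_erase_of_mem (mem_erase.2 ⟨hab.symm, hb⟩), card_erase_of_mem ha] at h3
  have h4 : ({c, d, x, y} : Finset V).card ≤ 4 := card_le_four
  omega

/-- `x` outside of the neighbourhood of `K`: the cover of the edge `u x` -/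
theorem cov97 (h : G.LPt Fa K q q' u v c d x y) (hG : G.Gen6 Fa) (hI : G.I Fa u = {K})
    (hJ : G.I Fa v = {K}) (ht : ¬ G.Tw c d) (hx : x ∉ G.N K) :
    (∃ z ∈ G.NF Fa u, z ∉ G.N K) ∨ (c ∈ G.N K ∧ x ∈ G.nb c) ∨ (d ∈ G.N K ∧ x ∈ G.nb d) := by
  classical
  have hr := hG.g5.reg
  have hnd := h.nd
  have hux : x ∈ G.nb u := h.xu97
  have huR := h.uR hr
  have hxR := h.nbR97 hG hI hux (h.xK hG)
  have hne : u ≠ x := ne_of_nb5 hux
  have hm : G.m Fa u x = 0 := by
    rw [m, hI, card_eq_zero, eq_empty_iff_forall_notMem]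
    intro B hB
    obtain ⟨h1, h2⟩ := mem_inter.1 hB
    rw [mem_singleton] at h1
    subst h1
    exact hx (mem_I76.1 h2).2
  have hqR : ∀ z ∈ R Fa, z ∈ G.nb u → z = v ∨ z = c ∨ z = d ∨ z = x := by
    intro z hz hzu
    rcases h.memu.1 hzu with g | g | g | g | g | g
    · exact absurd h.qK (g ▸ mem_R76.1 hz K h.mem)
    · exact absurd h.qK' (g ▸ mem_R76.1 hz K h.mem)
    · exact Or.inl g
    · exact Or.inr (Or.inl g)
    · exact Or.inr (Or.inr (Or.inl g))
    · exact Or.inr (Or.inr (Or.inr g))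
  have hvx : v ∉ G.nb x := fun g => h.xv (G.sym _ _ g)
  have hNF : ∀ z ∈ R Fa, z ∈ G.nb u → (G.Low z ∨ ∃ b, G.HL z b u) → z ∈ G.NF Fa u := by
    intro z hz hzu h1
    rw [NF, mem_filter, nR, mem_inter]
    exact ⟨⟨hzu, hz⟩, by tauto⟩
  have hcu : c ∈ G.nb u := h.cu97
  have hdu : d ∈ G.nb u := h.swap.cu97
  have hcR := h.nbR97 hG hI hcu (h.cK hG)
  have hdR := h.nbR97 hG hI hdu (h.swap.cK hG)
  -- a low vertex outside of the neighbourhood
  have low : ∀ w, w = c ∨ w = d → G.Low w → (w ∈ G.N K → x ∈ G.nb w) →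
      (∃ z ∈ G.NF Fa u, z ∉ G.N K) ∨ (c ∈ G.N K ∧ x ∈ G.nb c) ∨ (d ∈ G.N K ∧ x ∈ G.nb d) := by
    intro w hw hwl hwx
    by_cases h1 : w ∈ G.N K
    · rcases hw with rfl | rfl
      · exact Or.inr (Or.inl ⟨h1, hwx h1⟩)
      · exact Or.inr (Or.inr ⟨h1, hwx h1⟩)
    · refine Or.inl ⟨w, hNF w ?_ ?_ (Or.inl hwl), h1⟩
      · rcases hw with rfl | rfl
        · exact hcR
        · exact hdR
      · rcases hw with rfl | rfl
        · exact hcu
        · exact hdu
  rcases hG.g5.cov u huR x hxR hux hm with ⟨w, hw, h1, h2, h3⟩ | ⟨a, ha, b, hb, h1, h2, h3, h4, h5⟩ |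
    ⟨a, ha, b, hb, h1, h2, h3⟩ | ⟨a, ha, b, hb, h1, h2, h3⟩ | ⟨a, ha, b, hb, h1⟩
  · -- a low common neighbour
    rcases hqR w hw (G.sym _ _ h2) with g | g | g | g
    · exact absurd (g ▸ h3) h.xv
    · exact low w (Or.inl g) h1 fun _ => h3
    · exact low w (Or.inr g) h1 fun _ => h3
    · exact absurd rfl (ne_of_nb5 (g ▸ h3))
  · -- twins
    exfalso
    have hal : ¬ G.Low a := tw_not_low76 ⟨_, h1⟩
    have hbl : ¬ G.Low b := tw_not_low76 ⟨_, tw_symm76 h1⟩
    have hub : u ∈ G.nb b := by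
      have h6 : u ∈ G.cl b := by
        rw [← h1.2.2]
        exact mem_cl76.2 (Or.inr h2)
      exact (mem_cl76.1 h6).resolve_left h4
    have g1 := hqR a ha (G.sym _ _ h2)
    have g2 := hqR b hb (G.sym _ _ hub)
    have g3 : a ≠ b := ne_of_nb5 h1.1
    have g4 : a ≠ v := fun e => hal (e ▸ h.lv)
    have g5 : b ≠ v := fun e => hbl (e ▸ h.lv)
    have g6 : a ≠ x := ne_of_nb5 h3
    have g7 : b ≠ x := fun e => h5 e.symm
    rcases g1 with g1 | g1 | g1 | g1
    · exact g4 g1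
    · subst g1
      rcases g2 with g2 | g2 | g2 | g2
      · exact g5 g2
      · exact g3 g2.symm
      · exact ht (g2 ▸ h1)
      · exact g7 g2
    · subst g1
      rcases g2 with g2 | g2 | g2 | g2
      · exact g5 g2
      · exact ht (g2 ▸ tw_symm76 h1)
      · exact g3 g2.symm
      · exact g7 g2
    · exact g6 g1
  · -- `HL a b u`
    left
    have h4 : u ∈ G.cl a := by
      rw [h1.2.2.2.2]
      exact mem_insert_self _ _
    have hal : ¬ G.Low a := by
      intro g
      rw [Low, h1.1] at g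
      omega
    have h5 : u ∈ G.nb a := by
      rcases mem_cl76.1 h4 with g | g
      · exact absurd h.lu (g ▸ hal)
      · exact g
    exact ⟨a, hNF a ha (G.sym _ _ h5) (Or.inr ⟨b, h1⟩), fun g => hal (h.lowN97 hG g)⟩
  · -- `HL a b x`
    have hal : ¬ G.Low a := by
      intro g
      rw [Low, h1.1] at g
      omega
    have hbx : x ∉ G.cl b := h1.2.2.2.1
    have hbN : b ∉ G.N K := by
      intro g
      obtain ⟨-, r, hr1, hr2⟩ := mem_N76.1 g
      have h6 : r ∈ G.cl a := by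
        rw [h1.2.2.2.2]
        exact mem_insert_of_mem (mem_cl76.2 (Or.inr (G.sym _ _ hr2)))
      rcases mem_cl76.1 h6 with g1 | g1
      · exact mem_R76.1 ha K h.mem (g1 ▸ hr1)
      · exact hal (h.lowN97 hG (mem_N76.2 ⟨mem_R76.1 ha K h.mem, r, hr1, G.sym _ _ g1⟩))
    rcases hqR b hb (G.sym _ _ h2) with g | g | g | g
    · exact absurd (g ▸ h1) (fun g1 => h.symm.no_HL hG ha g1)
    · exact low b (Or.inl g) h1.2.1 fun g1 => absurd g1 hbN
    · exact low b (Or.inr g) h1.2.1 fun g1 => absurd g1 hbN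
    · exact absurd (mem_cl76.2 (Or.inl g.symm)) hbx
  · -- `LL a b u x`
    obtain ⟨l1, l2, l3, l4, l5, l6, l7⟩ := h1
    have h8 : u ∈ G.cl a := by
      have g : u ∈ insert x (G.cl a) := by
        rw [l7]
        exact mem_insert_self _ _
      exact (mem_insert.1 g).resolve_left hne
    have hau : a ≠ u := by
      rintro rfl
      exact l6 (mem_cl76.2 (Or.inr hux))
    have hua : a ∈ G.nb u := G.sym _ _ ((mem_cl76.1 h8).resolve_left (Ne.symm hau))
    have hcl : ∀ z ∈ G.cl a, z ≠ u → z ∈ G.cl b := by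
      intro z hz hzu
      have g : z ∈ insert u (G.cl b) := by
        rw [← l7]
        exact mem_insert_of_mem hz
      exact (mem_insert.1 g).resolve_left hzu
    have hbu : b ≠ u := by
      rintro rfl
      exact l5 (mem_cl76.2 (Or.inl rfl))
    have key : ∀ w, w = c ∨ w = d → a = w →
        (∃ z ∈ G.NF Fa u, z ∉ G.N K) ∨ (c ∈ G.N K ∧ x ∈ G.nb c) ∨ (d ∈ G.N K ∧ x ∈ G.nb d) := by
      rintro w hw rfl
      refine low a hw l1 fun haN => ?_
      exfalso
      obtain ⟨haK, r, hr1, hr2⟩ := mem_N76.1 haN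
      have g1 : r ∈ G.cl b := hcl r (mem_cl76.2 (Or.inr (G.sym _ _ hr2)))
        (fun e => h.uK (e ▸ hr1))
      have hbK := mem_R76.1 hb K h.mem
      have g2 : b ∈ G.N K := by
        rcases mem_cl76.1 g1 with g2 | g2
        · exact absurd hr1 (g2 ▸ hbK)
        · exact mem_N76.2 ⟨hbK, r, hr1, G.sym _ _ g2⟩
      have hva : v ∈ G.nb a := by
        rcases hw with g0 | g0
        · rw [g0]
          exact G.sym _ _ h.symm.cu97
        · rw [g0]
          exact G.sym _ _ h.symm.swap.cu97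
      have g3 : v ∈ G.cl b := hcl v (mem_cl76.2 (Or.inr hva)) h.uv.symm
      have hbv : b ≠ v := by
        intro g0
        exact l5 (g0 ▸ mem_cl76.2 (Or.inr h.symm.vu97))
      have g4 : b ∈ G.nb v := G.sym _ _ ((mem_cl76.1 g3).resolve_left (Ne.symm hbv))
      have g5 : b = c ∨ b = d ∨ b = y := by
        rcases h.memv.1 g4 with g | g | g | g | g | g
        · exact absurd h.qK (g ▸ hbK)
        · exact absurd h.qK' (g ▸ hbK)
        · exact absurd g hbu
        · exact Or.inl g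
        · exact Or.inr (Or.inl g)
        · exact Or.inr (Or.inr g)
      refine h.one97 hG hI hJ (ne_of_nb5 l3) ?_ ?_ haN g2
      · simp only [mem_insert, mem_singleton]
        rcases hw with g | g
        · exact Or.inl g
        · exact Or.inr (Or.inl g)
      · simp only [mem_insert, mem_singleton]
        rcases g5 with g | g | g
        · exact Or.inl g
        · exact Or.inr (Or.inl g)
        · exact Or.inr (Or.inr (Or.inr g))
    rcases hqR a ha hua with g | g | g | g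
    · exfalso
      subst g
      have g1 : q ∈ G.cl b := hcl q (mem_cl76.2 (Or.inr h.symm.qu97))
        (fun e => h.uK (e ▸ h.qK))
      rcases mem_cl76.1 g1 with g2 | g2
      · exact mem_R76.1 hb K h.mem (g2 ▸ h.qK)
      · rcases h.nbqR hG (G.sym _ _ g2) hb with g3 | g3
        · exact hbu g3
        · exact ne_of_nb5 l3 g3.symm
    · exact key c (Or.inl rfl) g
    · exact key d (Or.inr rfl) g
    · exact absurd (mem_cl76.2 (Or.inl g.symm)) l6

/-- a port `c` of `K` is not adjacent to `u`, `v`, `x` and `y` -/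
theorem seven97 (h : G.LPt Fa K q q' u v c d x y) (hG : G.Gen6 Fa) (hc : c ∈ G.N K)
    (hx : x ∉ G.N K) (hy : y ∉ G.N K) (hxc : x ∈ G.nb c) (hyc : y ∈ G.nb c) : False := by
  have hnd := h.nd
  have hnd' := h.symm.nd
  have huc : u ∈ G.nb c := G.sym _ _ h.cu97
  have hvc : v ∈ G.nb c := G.sym _ _ h.symm.cu97
  have h1 := K38.two hG.g5.crit hG.g5.n9 h.k6 (h.NK hG.g5.reg) c hc
  obtain ⟨r, g1, w, g2, g3, g4, g5, g6, g7, g8⟩ := partner hG h.mem h.k6 hc
  have hwu : w ≠ u := by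
    rintro rfl
    exact hnd.2.2.2.2.2.2.2.2.2.1 (h.partner_eq hG g1 g3 g4 hc (ne_of_nb5 huc)).symm
  have hwv : w ≠ v := by
    rintro rfl
    exact ne_of_nb5 huc (h.symm.partner_eq hG g1 g3 g4 hc (ne_of_nb5 hvc))
  have hwx : w ≠ x := fun e => hx (e ▸ g2)
  have hwy : w ≠ y := fun e => hy (e ▸ g2)
  have hux : u ≠ x := ne_of_nb5 h.xu97
  have hvy : v ≠ y := ne_of_nb5 h.symm.xu97
  have huy : u ≠ y := hnd'.2.2.2.2.2.2.2.2.2.2.2.1
  have hvx : v ≠ x := hnd.2.2.2.2.2.2.2.2.2.2.2.1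
  have h2 : (G.nb c ∩ K) ∪ {w, u, v, x, y} ⊆ G.nb c := by
    intro z hz
    rcases mem_union.1 hz with h3 | h3
    · exact (mem_inter.1 h3).1
    · simp only [mem_insert, mem_singleton] at h3
      rcases h3 with rfl | rfl | rfl | rfl | rfl <;> assumption
  have h3 : Disjoint (G.nb c ∩ K) {w, u, v, x, y} := by
    rw [disjoint_left]
    intro z hz hz'
    have h4 := (mem_inter.1 hz).2
    simp only [mem_insert, mem_singleton] at hz'
    rcases hz' with rfl | rfl | rfl | rfl | rfl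
    · exact (mem_N76.1 g2).1 h4
    · exact h.uK h4
    · exact h.vK h4
    · exact h.xK hG h4
    · exact h.symm.xK hG h4
  have h4 := card_le_card h2
  have h5 : ({w, u, v, x, y} : Finset V).card = 5 := by
    rw [card_insert_of_notMem, card_insert_of_notMem, card_insert_of_notMem, card_pair h.xy]
    · simp only [mem_insert, mem_singleton, not_or]
      exact ⟨hvx, hvy⟩
    · simp only [mem_insert, mem_singleton, not_or]
      exact ⟨h.uv, hux, huy⟩
    · simp only [mem_insert, mem_singleton, not_or]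
      exact ⟨hwu, hwv, hwx, hwy⟩
  rw [card_union_of_disjoint h3, h1, h5] at h4
  have h6 := h.lowN97 hG hc
  rw [Low] at h6
  omega

/-- the charges of the port -/
theorem ch97 (h : G.LPt Fa K q q' u v c d x y) (hG : G.Gen6 Fa) (hI : G.I Fa u = {K})
    (hJ : G.I Fa v = {K}) (ht : ¬ G.Tw c d) : 1 ≤ G.ch5 Fa u + G.ch5 Fa v := by
  have hnd := h.nd
  have hnd' := h.symm.nd
  obtain ⟨u0, u1, u2, u3⟩ := h.ch5_neg hG hI
  obtain ⟨v0, v1, v2, v3⟩ := h.symm.ch5_neg hG hJ
  have hone := fun {a b : V} => h.one97 hG hI hJ (a := a) (b := b)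
  have hux : x ∈ G.nb u := h.xu97
  have hvy : y ∈ G.nb v := h.symm.xu97
  have hcu : c ∈ G.nb u := h.cu97
  have hdu : d ∈ G.nb u := h.swap.cu97
  have hcv : c ∈ G.nb v := h.symm.cu97
  have hdv : d ∈ G.nb v := h.symm.swap.cu97
  have hcv' : c ≠ v := (ne_of_nb5 hcv).symm
  have hdv' : d ≠ v := (ne_of_nb5 hdv).symm
  have hcu' : c ≠ u := (ne_of_nb5 hcu).symm
  have hdu' : d ≠ u := (ne_of_nb5 hdu).symm
  obtain ⟨-, -, -, -, -, -, -, -, -, -, -, hvx, hcd, hcx, hdx⟩ := hnd
  obtain ⟨-, -, -, -, -, -, -, -, -, -, -, huy, -, hcy, hdy⟩ := hnd'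
  by_cases hx : x ∈ G.N K
  · have hy : y ∉ G.N K := fun g => hone h.xy (by simp) (by simp) hx g
    have h1 := u2 ⟨x, hux, hx, hvx.symm⟩
    rcases h.symm.cov97 hG hJ hI ht hy with g | g | g
    · have := v1 g
      omega
    · exact (hone hcx (by simp) (by simp) g.1 hx).elim
    · exact (hone hdx (by simp) (by simp) g.1 hx).elim
  · by_cases hy : y ∈ G.N K
    · have h1 := v2 ⟨y, hvy, hy, huy.symm⟩
      rcases h.cov97 hG hI hJ ht hx with g | g | g
      · have := u1 g
        omega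
      · exact (hone hcy (by simp) (by simp) g.1 hy).elim
      · exact (hone hdy (by simp) (by simp) g.1 hy).elim
    · rcases h.cov97 hG hI hJ ht hx with g | g | g <;>
        rcases h.symm.cov97 hG hJ hI ht hy with g' | g' | g'
      · have := u1 g
        have := v1 g'
        omega
      · have := u1 g
        have := v2 ⟨c, hcv, g'.1, hcu'⟩
        omega
      · have := u1 g
        have := v2 ⟨d, hdv, g'.1, hdu'⟩
        omega
      · have := v1 g'
        have := u2 ⟨c, hcu, g.1, hcv'⟩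
        omega
      · exact (h.seven97 hG g.1 hx hy g.2 g'.2).elim
      · exact (hone hcd (by simp) (by simp) g.1 g'.1).elim
      · have := v1 g'
        have := u2 ⟨d, hdu, g.1, hdv'⟩
        omega
      · exact (hone hcd (by simp) (by simp) g'.1 g.1).elim
      · exact (h.swap.seven97 hG g.1 hx hy g.2 g'.2).elim

/-- the final charges of a port, if nobody but the partners ask -/
theorem fc97 (h : G.LPt Fa K q q' u v c d x y) (hG : G.Gen6 Fa)
    (hu0 : ∀ z ∈ R Fa, z ≠ v → G.dn5 Fa u z = 0) (hv0 : ∀ z ∈ R Fa, z ≠ u → G.dn5 Fa v z = 0) :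
    2 * (G.ch5 Fa u + G.ch5 Fa v) ≤ G.fc Fa u + G.fc Fa v := by
  have hr := hG.g5.reg
  have hu := h.uR hr
  have hv := h.symm.uR hr
  have h1 : ∑ z ∈ R Fa, G.dn5 Fa u z = G.dn5 Fa u v :=
    sum_eq_single v (fun z hz hzv => hu0 z hz hzv) (fun h2 => absurd hv h2)
  have h2 : ∑ z ∈ R Fa, G.dn5 Fa v z = G.dn5 Fa v u :=
    sum_eq_single u (fun z hz hzv => hv0 z hz hzv) (fun h2 => absurd hu h2)
  have h3 : G.dn5 Fa v u ≤ ∑ z ∈ R Fa, G.dn5 Fa z u :=
    single_le_sum (f := fun z => G.dn5 Fa z u) (fun z _ => dn5_nonneg76 hG z u) hv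
  have h4 : G.dn5 Fa u v ≤ ∑ z ∈ R Fa, G.dn5 Fa z v :=
    single_le_sum (f := fun z => G.dn5 Fa z v) (fun z _ => dn5_nonneg76 hG z v) hu
  rw [fc, fc, h1, h2]
  omega

end LPt

/-- row 8, `c` and `d` no twins (`StAsk1 → StP8n`; the guard `¬ (x ∈ N K ∧ y ∈ N K)` is not needed,
the expansion of `{u, v}` gives it) -/
theorem p8n_97 (hask : ∀ Fa, G.Gen6 Fa → ∀ K q q' u v c d x y, G.LPt Fa K q q' u v c d x y →
      G.I Fa u = {K} → ∀ z ∈ R Fa, z ≠ v → G.dn5 Fa u z = 0) :
    ∀ Fa, G.Gen6 Fa → ∀ K q q' u v c d x y, G.LPt Fa K q q' u v c d x y →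
      G.I Fa u = {K} → G.I Fa v = {K} → ¬ G.Tw c d → 2 ≤ G.fc Fa u + G.fc Fa v := by
  intro Fa hG K q q' u v c d x y h hI hJ ht
  have h1 := h.fc97 hG (hask Fa hG K q q' u v c d x y h hI)
    (hask Fa hG K q q' v u c d y x h.symm hJ)
  have h2 := h.ch97 hG hI hJ ht
  omega

end CG

end Pool.Agent.Lib.MP_e95c01_co.N
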