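import Pool.Agent.Lib.MP_e95c01_co.Y.PortB87
import Pool.Agent.Lib.MP_e95c01_co.Y.StPort36

/-!
# `LL` ports of a `K6` in one neighbourhood, with a pair of twins: values or sponsors
-/

namespace Pool.Agent.Lib.MP_e95c01_co.N

open Finset

variable {V : Type} [Fintype V] [DecidableEq V]

namespace CG

variable {G : CG V} {Fa : Finset (Finset V)} {K : Finset V} {q q' u v c d x y : V}

namespace LPt

theorem swapq28 (h : G.LPt Fa K q q' u v c d x y) : G.LPt Fa K q' q u v c d x y := by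
  refine ⟨h.mem, h.k6, h.qK', h.qK, h.ne.symm, h.uK, h.vK, ?_, ?_, h.ll⟩
  · rw [h.nu]
    ext z
    simp only [mem_insert, mem_singleton]
    tauto
  · rw [h.nv]
    ext z
    simp only [mem_insert, mem_singleton]
    tauto

/-- the neighbours of `u` outside of `K` are in the torso -/
theorem vis28 (h : G.LPt Fa K q q' u v c d x y) (hG : G.Gen6 Fa) (hI : G.I Fa u = {K}) {z : V}
    (hz : z ∈ G.nb u) (hK : z ∉ K) : z ∈ R Fa := by
  rw [mem_R76]
  intro B hB hzB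
  have hu := mem_R76.1 (h.uR hG.g5.reg) B hB
  have h1 : B ∈ G.I Fa u := mem_I76.2 ⟨hB, mem_N76.2 ⟨hu, z, hzB, G.sym _ _ hz⟩⟩
  rw [hI, mem_singleton] at h1
  exact hK (h1 ▸ hzB)

theorem qR28 (h : G.LPt Fa K q q' u v c d x y) : q ∉ R Fa := fun h1 =>
  mem_R76.1 h1 K h.mem h.qK

/-- a neighbour of `u` in the torso -/
theorem nbR28 (h : G.LPt Fa K q q' u v c d x y) {z : V} (hz : z ∈ G.nb u) (hR : z ∈ R Fa) :
    z = v ∨ z = c ∨ z = d ∨ z = x := by
  rcases h.memu.1 hz with h1 | h1 | h1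
  · exact absurd (h1 ▸ hR) h.qR28
  · exact absurd (h1 ▸ hR) h.swapq28.qR28
  · exact h1

/-- `x` is no twin vertex -/
theorem xtw28 (h : G.LPt Fa K q q' u v c d x y) (hG : G.Gen6 Fa) (hI : G.I Fa u = {K})
    (ht : G.Tw c d) : ¬ G.IsTw x := by
  rintro ⟨p, hp⟩
  have hnd := h.nd
  have hxu : x ∈ G.nb u := h.memu.2 (by tauto)
  have hxR : x ∈ R Fa := h.vis28 hG hI hxu (h.xK hG)
  have h1 : u ∈ G.cl p := by
    rw [← hp.2.2]
    exact mem_insert_of_mem (G.sym _ _ hxu)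
  have hup : u ≠ p := by
    rintro rfl
    exact tw_not_low76 (tw_of76' hp) h.lu
  have h2 : p ∈ G.nb u := G.sym _ _ ((mem_insert.1 h1).resolve_left hup)
  have hxp : x ≠ p := ne_of_nb5 hp.1
  have hxu' : x ≠ u := (ne_of_nb5 hxu).symm
  rcases h.memu.1 h2 with h3 | h3 | h3 | h3 | h3 | h3
  · subst h3
    rcases h.nbqR hG (G.sym _ _ hp.1) hxR with h4 | h4
    · exact hxu' h4
    · exact hnd.2.2.2.2.2.2.2.2.2.2.2.1 h4.symm
  · subst h3
    rcases h.swapq28.nbqR hG (G.sym _ _ hp.1) hxR with h4 | h4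
    · exact hxu' h4
    · exact hnd.2.2.2.2.2.2.2.2.2.2.2.1 h4.symm
  · subst h3
    exact tw_not_low76 (tw_of76' hp) h.lv
  · subst h3
    have h4 := (stTwHL_5 G).uniq hG.g5.n9 _ _ _ (tw_symm76 hp) ht
    exact hnd.2.2.2.2.2.2.2.2.2.2.2.2.2.2 h4.symm
  · subst h3
    have h4 := (stTwHL_5 G).uniq hG.g5.n9 _ _ _ (tw_symm76 hp) (tw_symm76 ht)
    exact hnd.2.2.2.2.2.2.2.2.2.2.2.2.2.1 h4.symm
  · exact hxp h3.symm

/-- the edge `u x` is covered by the twins only -/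
theorem cov28 (h : G.LPt Fa K q q' u v c d x y) (hG : G.Gen6 Fa) (hI : G.I Fa u = {K})
    (ht : G.Tw c d) (hx : G.Hub x) (hxK : x ∉ G.N K) : x ∈ G.nb c := by
  have hnd := h.nd
  have hr := hG.g5.reg
  have hxu : x ∈ G.nb u := h.memu.2 (by tauto)
  have hxR : x ∈ R Fa := h.vis28 hG hI hxu (h.xK hG)
  have huR := h.uR hr
  have hm : G.m Fa u x = 0 := by
    rw [m, card_eq_zero, eq_empty_iff_forall_notMem]
    intro B hB
    obtain ⟨h1, h2⟩ := mem_inter.1 hB
    rw [hI, mem_singleton] at h1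
    subst h1
    exact hxK (mem_I76.1 h2).2
  have hd : x ∈ G.nb d → x ∈ G.nb c := by
    intro h1
    have h2 : x ∈ G.cl c := by
      rw [ht.2.2]
      exact mem_insert_of_mem h1
    exact (mem_insert.1 h2).resolve_left (by tauto)
  rcases hG.g5.cov u huR x hxR hxu hm with ⟨w, hw, hl, h1, h2⟩ | ⟨w, hw, w', hw', htw, h1, h2, h3, h4⟩ |
    ⟨a, ha, b, hb, hl, h1, h2⟩ | ⟨a, ha, b, hb, hl, h1, h2⟩ | ⟨a, ha, b, hb, hl⟩
  · rcases h.nbR28 (G.sym _ _ h1) hw with h3 | h3 | h3 | h3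
    · subst h3
      exact absurd h2 h.xv
    · subst h3
      exact absurd hl (tw_not_low76 ⟨_, ht⟩)
    · subst h3
      exact absurd hl (tw_not_low76 (tw_of76' ht))
    · subst h3
      exact absurd rfl (ne_of_nb5 h2)
  · rcases h.nbR28 (G.sym _ _ h1) hw with h5 | h5 | h5 | h5
    · subst h5
      exact absurd h.lv (tw_not_low76 ⟨_, htw⟩)
    · subst h5
      exact h2
    · subst h5
      exact hd h2
    · subst h5
      exact absurd rfl (ne_of_nb5 h2)
  · have h3 : u ∈ G.cl a := by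
      rw [hl.2.2.2.2]
      exact mem_insert_self _ _
    have h4 : u ≠ a := by
      rintro rfl
      have h5 := hl.1
      have h6 := h.lu
      rw [Low] at h6
      omega
    have h5 : a ∈ G.nb u := G.sym _ _ ((mem_insert.1 h3).resolve_left h4)
    rcases h.nbR28 h5 ha with h6 | h6 | h6 | h6
    · subst h6
      have h5 := hl.1
      have h6 := h.lv
      rw [Low] at h6
      omega
    · subst h6
      exact absurd ⟨_, hl⟩ (tw_not_HL76 hG.g5.n9 ⟨_, ht⟩ u)
    · subst h6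
      exact absurd ⟨_, hl⟩ (tw_not_HL76 hG.g5.n9 (tw_of76' ht) u)
    · exact absurd h6.symm h2
  · rcases h.nbR28 (G.sym _ _ h1) hb with h3 | h3 | h3 | h3
    · subst h3
      exact (h.symm.no_HL hG ha hl).elim
    · subst h3
      exact absurd hl.2.1 (tw_not_low76 ⟨_, ht⟩)
    · subst h3
      exact absurd hl.2.1 (tw_not_low76 (tw_of76' ht))
    · subst h3
      exact absurd hl.2.1 hx.1
  · obtain ⟨h1, h2, h3, h4, h5, h6, h7⟩ := hl
    have h8 : u ∈ insert x (G.cl a) := by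
      rw [h7]
      exact mem_insert_self _ _
    have h9 : u ∈ G.cl a := (mem_insert.1 h8).resolve_left h4
    have h10 : u ≠ a := by
      rintro rfl
      exact h5 (mem_insert_of_mem (G.sym _ _ h3))
    have h11 : a ∈ G.nb u := G.sym _ _ ((mem_insert.1 h9).resolve_left h10)
    rcases h.nbR28 h11 ha with h12 | h12 | h12 | h12
    · subst h12
      exfalso
      have h13 : q ∈ insert x (G.cl a) :=
        mem_insert_of_mem (mem_insert_of_mem (h.memv.2 (by tauto)))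
      rw [h7] at h13
      have h14 : q ∈ G.cl b := by
        refine (mem_insert.1 h13).resolve_left ?_
        rintro rfl
        exact h.uK h.qK
      rcases mem_insert.1 h14 with h15 | h15
      · exact h.qR28 (h15 ▸ hb)
      · rcases h.nbqR hG (G.sym _ _ h15) hb with h16 | h16
        · subst h16
          exact h5 (mem_insert_self _ _)
        · exact (ne_of_nb5 h3) h16.symm
    · subst h12
      exact absurd h1 (tw_not_low76 ⟨_, ht⟩)
    · subst h12
      exact absurd h1 (tw_not_low76 (tw_of76' ht))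
    · subst h12
      exact absurd h1 hx.1

/-- `u` pays `x`: a sponsor -/
theorem spo28 (h : G.LPt Fa K q q' u v c d x y) (hG : G.Gen6 Fa) (hI : G.I Fa u = {K})
    (hI' : G.I Fa v = {K}) (ht : G.Tw c d) (hxK : x ∉ G.N K) (hx : x ∉ G.NF Fa u) :
    G.SpH Fa {u, v} x ∨ G.SpP Fa {u, v} c := by
  classical
  have hxu : x ∈ G.nb u := h.memu.2 (by tauto)
  have hxR : x ∈ R Fa := h.vis28 hG hI hxu (h.xK hG)
  have h1 : ¬ (G.Low x ∨ 2 ≤ (G.I Fa x).card ∨ ∃ b, G.HL x b u) := by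
    intro h2
    apply hx
    rw [NF, mem_filter, nR, mem_inter]
    exact ⟨⟨hxu, hxR⟩, h2⟩
  rw [not_or, not_or] at h1
  obtain ⟨h2, h3, h4⟩ := h1
  have h5 : G.Hub x := ⟨h2, h.xtw28 hG hI ht⟩
  have h6 := h.cov28 hG hI ht h5 hxK
  by_cases h7 : G.PQ Fa c x
  · exact Or.inr ⟨K, q, q', u, v, d, x, y, h, hI, hI', ht, hxR, h5, by omega, h6, hxK, h4, h7, rfl⟩
  · exact Or.inl ⟨K, q, q', u, v, c, d, y, h, hI, hI', ht, hxR, h5, by omega, h6, hxK, h4, h7, rfl⟩

/-- the pair: the asks between `u` and `v` cancel -/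
theorem pair28 (h : G.LPt Fa K q q' u v c d x y) (hG : G.Gen6 Fa)
    (h1 : ∀ z ∈ R Fa, z ≠ v → G.dn5 Fa u z = 0) (h2 : ∀ z ∈ R Fa, z ≠ u → G.dn5 Fa v z = 0) :
    2 * (G.ch5 Fa u + G.ch5 Fa v) ≤ G.fc Fa u + G.fc Fa v := by
  have hr := hG.g5.reg
  have hu := h.uR hr
  have hv := h.symm.uR hr
  have e1 : ∑ z ∈ R Fa, G.dn5 Fa u z = G.dn5 Fa u v :=
    sum_eq_single v h1 (fun h2 => absurd hv h2)
  have e2 : ∑ z ∈ R Fa, G.dn5 Fa v z = G.dn5 Fa v u :=
    sum_eq_single u h2 (fun h2 => absurd hu h2)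
  have h3 : G.dn5 Fa v u ≤ ∑ z ∈ R Fa, G.dn5 Fa z u :=
    single_le_sum (f := fun z => G.dn5 Fa z u) (fun z _ => dn5_nonneg76 hG z u) hv
  have h4 : G.dn5 Fa u v ≤ ∑ z ∈ R Fa, G.dn5 Fa z v :=
    single_le_sum (f := fun z => G.dn5 Fa z v) (fun z _ => dn5_nonneg76 hG z v) hu
  rw [fc, fc, e1, e2]
  omega

/-- row 8, twins: one port pair -/
theorem p8t28 (h : G.LPt Fa K q q' u v c d x y) (hG : G.Gen6 Fa)
    (hA : 2 * (G.ch5 Fa u + G.ch5 Fa v) ≤ G.fc Fa u + G.fc Fa v ∨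
      8 ≤ G.fc Fa u + G.fc Fa v) (hg : ¬ (x ∈ G.N K ∧ y ∈ G.N K)) (hI : G.I Fa u = {K})
    (hI' : G.I Fa v = {K}) (ht : G.Tw c d) :
    2 ≤ G.fc Fa u + G.fc Fa v ∨ G.SpH Fa {u, v} x ∨ G.SpH Fa {u, v} y ∨
      G.SpP Fa {u, v} c := by
  have hnd := h.nd
  have hnd' := h.symm.nd
  have hvu : ({v, u} : Finset V) = {u, v} := pair_comm v u
  by_cases hx : x ∈ G.N K
  · have hy : y ∉ G.N K := fun h1 => hg ⟨hx, h1⟩
    by_cases hF : y ∈ G.NF Fa v
    · left
      have h1 := (h.symm.ch5_neg hG hI').2.1 ⟨y, hF, hy⟩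
      have h2 := (h.ch5_neg hG hI).2.2.1 ⟨x, h.memu.2 (by tauto), hx, by tauto⟩
      omega
    · right
      rcases h.symm.spo28 hG hI' hI ht hy hF with h1 | h1
      · rw [hvu] at h1
        exact Or.inr (Or.inl h1)
      · rw [hvu] at h1
        exact Or.inr (Or.inr h1)
  · by_cases hFx : x ∈ G.NF Fa u
    · by_cases hy : y ∈ G.N K
      · left
        have h1 := (h.ch5_neg hG hI).2.1 ⟨x, hFx, hx⟩
        have h2 := (h.symm.ch5_neg hG hI').2.2.1 ⟨y, h.memv.2 (by tauto), hy, by tauto⟩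
        omega
      · by_cases hF : y ∈ G.NF Fa v
        · left
          have h1 := (h.symm.ch5_neg hG hI').2.1 ⟨y, hF, hy⟩
          have h2 := (h.ch5_neg hG hI).2.1 ⟨x, hFx, hx⟩
          omega
        · right
          rcases h.symm.spo28 hG hI' hI ht hy hF with h1 | h1
          · rw [hvu] at h1
            exact Or.inr (Or.inl h1)
          · rw [hvu] at h1
            exact Or.inr (Or.inr h1)
    · right
      rcases h.spo28 hG hI hI' ht hx hFx with h1 | h1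
      · exact Or.inl h1
      · exact Or.inr (Or.inr h1)

end LPt

/-- row 8, twins -/
theorem stP8t_28 (hA : G.StAsk36) : G.StP8t :=
  fun Fa hG _ _ _ _ _ _ _ _ _ h hg hI hI' ht =>
    h.p8t28 hG (hA Fa hG _ _ _ _ _ _ _ _ _ h) hg hI hI' ht

/-- the same from the statement about ports in one neighbourhood -/
theorem stP8t_28' (hA : G.StAsk1) : G.StP8t :=
  fun Fa hG _ _ _ _ _ _ _ _ _ h hg hI hI' ht =>
    h.p8t28 hG (Or.inl (h.pair28 hG (hA Fa hG _ _ _ _ _ _ _ _ _ h hI)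
      (hA Fa hG _ _ _ _ _ _ _ _ _ h.symm hI'))) hg hI hI' ht

end CG

end Pool.Agent.Lib.MP_e95c01_co.N
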