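import Pool.Agent.Lib.MP_e95c01_co.Y.PortB87
import Pool.Agent.Lib.MP_e95c01_co.X.C8e_50

/-!
# `LL` ports of a `K6` with a common poor pair of twins: the pair keeps something
-/

namespace Pool.Agent.Lib.MP_e95c01_co.N

open Finset

variable {V : Type} [Fintype V] [DecidableEq V]

namespace CG

variable {G : CG V} {Fa : Finset (Finset V)} {K : Finset V} {q q' u v c d x y : V}

namespace LPt

/-- `q` is not adjacent to a vertex of the torso other than `u` and `v` -/
theorem qc64 (h : G.LPt Fa K q q' u v c d x y) (hG : G.Gen6 Fa) {z : V} (hz : z ∈ R Fa)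
    (hzu : z ≠ u) (hzv : z ≠ v) : q ∉ G.nb z := by
  intro h1
  rcases h.nbqR hG (G.sym _ _ h1) hz with h2 | h2
  · exact hzu h2
  · exact hzv h2

theorem qswap64 (h : G.LPt Fa K q q' u v c d x y) : G.LPt Fa K q' q u v c d x y := by
  refine ⟨h.mem, h.k6, h.qK', h.qK, h.ne.symm, h.uK, h.vK, ?_, ?_, h.ll⟩
  · rw [h.nu]
    ext z
    simp only [mem_insert, mem_singleton]
    tauto
  · rw [h.nv]
    ext z
    simp only [mem_insert, mem_singleton]
    tauto

/-- common neighbours of `u` and `c` -/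
theorem uc_card64 (h : G.LPt Fa K q q' u v c d x y) (hG : G.Gen6 Fa) (hc : c ∈ R Fa) :
    (G.nb u ∩ G.nb c).card ≤ 3 := by
  have hn := h.nd
  have hcu : c ≠ u := ne_of_nb5 (G.sym _ _ (h.memu.2 (by tauto)))
  have hsub : G.nb u ∩ G.nb c ⊆ {v, d, x} := by
    intro z hz
    obtain ⟨h1, h2⟩ := mem_inter.1 hz
    simp only [mem_insert, mem_singleton]
    rcases h.memu.1 h1 with rfl | rfl | rfl | rfl | rfl | rfl
    · exact absurd h2 (h.qc64 hG hc hcu hn.2.2.2.2.2.2.2.2.2.1.symm)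
    · exact absurd h2 (h.qswap64.qc64 hG hc hcu hn.2.2.2.2.2.2.2.2.2.1.symm)
    · exact Or.inl rfl
    · exact absurd h2 (G.irr _)
    · exact Or.inr (Or.inl rfl)
    · exact Or.inr (Or.inr rfl)
  exact (card_le_card hsub).trans card_le_three

/-- `u` sees one pair of twins only -/
theorem one_pair64 (h : G.LPt Fa K q q' u v c d x y) {e f : V} (he : e ∈ G.nb u)
    (hf : f ∈ G.nb u) (hef : e ≠ f) (hte : G.IsTw e) (htf : G.IsTw f) (heK : e ∉ K)
    (hfK : f ∉ K) : e = c ∨ e = d ∨ f = c ∨ f = d := by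
  have hlv := h.lv
  have h1 : ∀ z ∈ G.nb u, G.IsTw z → z ∉ K → z = c ∨ z = d ∨ z = x := by
    intro z hz hzt hzK
    rcases h.memu.1 hz with rfl | rfl | rfl | h2 | h2 | h2
    · exact absurd h.qK hzK
    · exact absurd h.qK' hzK
    · exact absurd hlv (tw_not_low76 hzt)
    · exact Or.inl h2
    · exact Or.inr (Or.inl h2)
    · exact Or.inr (Or.inr h2)
  have h2 := h1 e he hte heK
  have h3 := h1 f hf htf hfK
  rcases h2 with h2 | h2 | h2
  · exact Or.inl h2
  · exact Or.inr (Or.inl h2)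
  · rcases h3 with h3 | h3 | h3
    · exact Or.inr (Or.inr (Or.inl h3))
    · exact Or.inr (Or.inr (Or.inr h3))
    · exact absurd (h2.trans h3.symm) hef

end LPt

omit [Fintype V] in
/-- different vertices of a set with seven elements -/
theorem nd7_64 {a b c d e f g : V} (h : ({a, b, c, d, e, f, g} : Finset V).card = 7) :
    a ≠ d ∧ a ≠ e ∧ b ≠ c ∧ b ≠ d ∧ c ≠ d := by
  have h1 := nodup7_86 h
  simp only [List.nodup_cons, List.mem_cons, List.not_mem_nil, or_false, not_or, List.nodup_nil,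
    and_true, not_false_eq_true] at h1
  tauto

omit [Fintype V] [DecidableEq V] in
/-- the third of three -/
theorem third64 {a b e u v : V} (hab : a ≠ b) (hae : a ≠ e) (hbe : b ≠ e)
    (hu : u = a ∨ u = b ∨ u = e) (hv : v = a ∨ v = b ∨ v = e) (huv : u ≠ v) :
    ∃ w, (w = a ∨ w = b ∨ w = e) ∧ w ≠ u ∧ w ≠ v ∧
      ∀ z, (z = a ∨ z = b ∨ z = e) → z = u ∨ z = v ∨ z = w := by
  rcases hu with rfl | rfl | rfl <;> rcases hv with rfl | rfl | rfl
  · exact absurd rfl huv
  · exact ⟨e, by tauto, hae.symm, hbe.symm, by tauto⟩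
  · exact ⟨b, by tauto, hab.symm, hbe, by tauto⟩
  · exact ⟨e, by tauto, hbe.symm, hae.symm, by tauto⟩
  · exact absurd rfl huv
  · exact ⟨a, by tauto, hab, hae, by tauto⟩
  · exact ⟨b, by tauto, hbe, hab.symm, by tauto⟩
  · exact ⟨a, by tauto, hae, hab, by tauto⟩
  · exact absurd rfl huv

/-- the structure at a poor pair of twins adjacent to two `LL` ports -/
structure PQx (G : CG V) (Fa : Finset (Finset V)) (u v c d y : V) : Prop where
  cR : c ∈ R Fa
  I0 : G.I Fa c = ∅
  tw : G.Tw c d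
  ly : G.Low y
  yc : y ∈ G.nb c
  low : ∀ z ∈ G.nb c, G.Low z → z = u ∨ z = v ∨ z = y
  twin : ∀ z ∈ G.nb c, G.IsTw z → z = d

namespace LPt

/-- who is adjacent to `c` -/
theorem poor64 (h : G.LPt Fa K q q' u v c d x y) (hG : G.Gen6 Fa) (ht : G.Tw c d)
    {x' : V} (hp : G.PQ Fa c x') : ∃ w, w ∈ G.nb c ∧ G.Low w ∧ w ≠ u ∧ w ≠ v ∧
      (∀ z ∈ G.nb c, G.Low z → z = u ∨ z = v ∨ z = w) ∧ ∀ z ∈ G.nb c, G.IsTw z → z = d := by
  obtain ⟨hcR, -, hI, hcond, -⟩ := hp
  have hM := stM1_86 G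
  have hn := h.nd
  have hu : u ∈ G.nb c := G.sym _ _ (h.memu.2 (by tauto))
  have hv : v ∈ G.nb c := G.sym _ _ (h.memv.2 (by tauto))
  have hcu := h.uc_card64 hG hcR
  have hcv := h.symm.uc_card64 hG hcR
  have h7 : (G.nb c).card = 7 := ht.2.1
  have hnt : ∀ {z w : V}, G.Tw z w → ¬ G.Low w := fun h1 => tw_not_low76 (tw_of76' h1)
  have hnt' : ∀ {z w : V}, G.Tw z w → ¬ G.Low z := fun h1 => tw_not_low76 (tw_of76 h1)
  have huv := h.uv
  rcases hM.poor Fa hG c hcR d ht hI hcond with ⟨l, l', a, b, e, f, h1, h2, h3, h4, h5, h6, h8⟩ |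
    ⟨l, l', e, f, a, b, h1, h2, h3, h4, h5, h6⟩ | ⟨l, l', l'', a, b, e, h1, h2, h3, h4, h5, h6, h8⟩
  · exfalso
    obtain ⟨e1, e2, -⟩ := hM.t204 Fa hG c hcR d ht hI l l' a b e f h1 h2 h3 h4 h5 h6 h8
    have hu' := hu
    rw [h1] at hu'
    simp only [mem_insert, mem_singleton] at hu'
    rcases hu' with rfl | rfl | rfl | rfl | rfl | rfl | rfl
    · exact hnt ht h.lu
    · omega
    · omega
    · exact h4.1 h.lu
    · exact h5.1 h.lu
    · exact h6.1 h.lu
    · exact h8.1 h.lu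
  · exfalso
    have hu' := hu
    have hv' := hv
    rw [h1] at hu' hv'
    simp only [mem_insert, mem_singleton] at hu' hv'
    have hul : u = l ∨ u = l' := by
      rcases hu' with h9 | h9 | h9 | h9 | h9 | h9 | h9
      · exact absurd h.lu (h9 ▸ hnt ht)
      · exact Or.inl h9
      · exact Or.inr h9
      · exact absurd h.lu (h9 ▸ hnt' h4)
      · exact absurd h.lu (h9 ▸ hnt h4)
      · exact absurd h.lu (h9 ▸ h5.1)
      · exact absurd h.lu (h9 ▸ h6.1)
    have hvl : v = l ∨ v = l' := by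
      rcases hv' with h9 | h9 | h9 | h9 | h9 | h9 | h9
      · exact absurd h.lv (h9 ▸ hnt ht)
      · exact Or.inl h9
      · exact Or.inr h9
      · exact absurd h.lv (h9 ▸ hnt' h4)
      · exact absurd h.lv (h9 ▸ hnt h4)
      · exact absurd h.lv (h9 ▸ h5.1)
      · exact absurd h.lv (h9 ▸ h6.1)
    have hef := ne_of_nb5 h4.1
    have hdis : e ≠ d ∧ f ≠ d := by
      have h9 := h7
      rw [h1] at h9
      have h10 := nd7_64 h9
      exact ⟨h10.1.symm, h10.2.1.symm⟩
    have hec : e ∈ G.nb c := by rw [h1]; simp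
    have hfc : f ∈ G.nb c := by rw [h1]; simp
    have heK : e ∉ K := mem_R76.1 (nb_R76 hcR hI hec) K h.mem
    have hfK : f ∉ K := mem_R76.1 (nb_R76 hcR hI hfc) K h.mem
    rcases hM.t212 Fa hG c hcR d ht hI l l' e f a b h1 h2 h3 h4 h5 h6 with ⟨e1, e2, -⟩ |
      ⟨l1, l2, y1, y2, e1, -, -, e2, e3, -⟩
    · rcases hul with rfl | rfl <;> omega
    · have hl1 : l1 = u ∨ l1 = v := by
        rcases e1 with e1 | e1 <;> rcases hul with h9 | h9 <;> rcases hvl with h10 | h10
        · exact absurd (h9.trans h10.symm) huv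
        · exact Or.inl (e1.1.trans h9.symm)
        · exact Or.inr (e1.1.trans h10.symm)
        · exact absurd (h9.trans h10.symm) huv
        · exact absurd (h9.trans h10.symm) huv
        · exact Or.inr (e1.1.trans h10.symm)
        · exact Or.inl (e1.1.trans h9.symm)
        · exact absurd (h9.trans h10.symm) huv
      have hen : e ∈ G.nb l1 ∧ f ∈ G.nb l1 := by
        have h9 : e ∈ G.nR Fa l1 ∧ f ∈ G.nR Fa l1 := by
          rcases e3 with e3 | e3
          · rw [e3.1]; simp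
          · rw [e3.1]; simp
        exact ⟨(mem_inter.1 h9.1).1, (mem_inter.1 h9.2).1⟩
      have h11 : e = c ∨ e = d ∨ f = c ∨ f = d := by
        rcases hl1 with rfl | rfl
        · exact h.one_pair64 hen.1 hen.2 hef (tw_of76 h4) (tw_of76' h4) heK hfK
        · exact h.symm.one_pair64 hen.1 hen.2 hef (tw_of76 h4) (tw_of76' h4) heK hfK
      rcases h11 with h11 | h11 | h11 | h11
      · exact G.irr c (by rw [h11] at hec; exact hec)
      · exact hdis.1 h11
      · exact G.irr c (by rw [h11] at hfc; exact hfc)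
      · exact hdis.2 h11
  · have hlow : ∀ z ∈ G.nb c, G.Low z → z = l ∨ z = l' ∨ z = l'' := by
      intro z hz hzl
      rw [h1] at hz
      simp only [mem_insert, mem_singleton] at hz
      rcases hz with h9 | h9 | h9 | h9 | h9 | h9 | h9
      · exact absurd hzl (h9 ▸ hnt ht)
      · exact Or.inl h9
      · exact Or.inr (Or.inl h9)
      · exact Or.inr (Or.inr h9)
      · exact absurd hzl (h9 ▸ h5.1)
      · exact absurd hzl (h9 ▸ h6.1)
      · exact absurd hzl (h9 ▸ h8.1)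
    have h9 := h7
    rw [h1] at h9
    have h10 := nd7_64 h9
    obtain ⟨w, w1, w2, w3, w4⟩ := third64 (a := l) (b := l') (e := l'') h10.2.2.1 h10.2.2.2.1
      h10.2.2.2.2 (hlow u hu h.lu) (hlow v hv h.lv) huv
    refine ⟨w, ?_, ?_, w2, w3, fun z hz hzl => w4 z (hlow z hz hzl), ?_⟩
    · rw [h1]
      simp only [mem_insert, mem_singleton]
      tauto
    · rcases w1 with rfl | rfl | rfl
      · exact h2
      · exact h3
      · exact h4
    · intro z hz hzt
      have hzl := tw_not_low76 hzt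
      rw [h1] at hz
      simp only [mem_insert, mem_singleton] at hz
      rcases hz with h9 | h9 | h9 | h9 | h9 | h9 | h9
      · exact h9
      · exact absurd h2 (h9 ▸ hzl)
      · exact absurd h3 (h9 ▸ hzl)
      · exact absurd h4 (h9 ▸ hzl)
      · exact absurd hzt (h9 ▸ h5.2)
      · exact absurd hzt (h9 ▸ h6.2)
      · exact absurd hzt (h9 ▸ h8.2)

/-- the third low neighbour of `c` is a private neighbour of a port -/
theorem third_low64 (h : G.LPt Fa K q q' u v c d x y) (hG : G.Gen6 Fa) (ht : G.Tw c d)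
    (hcR : c ∈ R Fa) (hI : G.I Fa c = ∅) {w : V} (hw : w ∈ G.nb c) (hwl : G.Low w) (hwu : w ≠ u)
    (hwv : w ≠ v) (hlow : ∀ z ∈ G.nb c, G.Low z → z = u ∨ z = v ∨ z = w)
    (htw : ∀ z ∈ G.nb c, G.IsTw z → z = d) : w ∈ G.nb u ∨ w ∈ G.nb v := by
  have hwR := nb_R76 hcR hI hw
  have hcl : ¬ G.Low c := tw_not_low76 (tw_of76 ht)
  rcases hG.g5.cov c hcR w hwR hw (m_empty5 hI) with ⟨s, hs, h1, h2, h3⟩ |
    ⟨s, hs, t, ht', h1, h2, h3, h4, h5⟩ | ⟨a, ha, b, hb, h1, h2, h3⟩ |
    ⟨a, ha, b, hb, h1, h2, h3⟩ | ⟨a, ha, b, hb, h1⟩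
  · rcases hlow s (G.sym _ _ h2) h1 with rfl | rfl | rfl
    · exact Or.inl h3
    · exact Or.inr h3
    · exact absurd h3 (G.irr _)
  · exfalso
    have h6 := htw s (G.sym _ _ h2) (tw_of76 h1)
    subst h6
    exact h4 ((stTwHL_5 G).uniq hG.g5.n9 s c t (tw_symm76 ht) h1)
  · exact absurd (hG.g5.sat _ _ _ h1) hcl
  · exfalso
    have h4 : b ∈ G.nb c := G.sym _ _ h2
    rcases hlow b h4 h1.2.1 with rfl | rfl | rfl
    · exact h.no_HL hG ha h1
    · exact h.symm.no_HL hG ha h1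
    · exact h1.2.2.2.1 (mem_insert_self _ _)
  · exfalso
    obtain ⟨a1, a2, a3, a4, a5, a6, a7⟩ := h1
    have hca : c ∈ G.nb a := by
      have h2 : c ∈ insert w (G.cl a) := by rw [a7]; exact mem_insert_self _ _
      rw [mem_insert, cl, mem_insert] at h2
      rcases h2 with h2 | h2 | h2
      · exact absurd h2 a4
      · exact absurd a1 (by rw [← h2]; exact hcl)
      · exact h2
    have hwb : w ∈ G.nb b := by
      have h2 : w ∈ insert c (G.cl b) := by rw [← a7]; exact mem_insert_self _ _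
      rw [mem_insert, cl, mem_insert] at h2
      rcases h2 with h2 | h2 | h2
      · exact absurd h2.symm a4
      · exact absurd (mem_insert_of_mem (h2 ▸ a3)) a6
      · exact h2
    rcases hlow a (G.sym _ _ hca) a1 with rfl | rfl | rfl
    · -- `a = u`: `b ~ q`, so `b = v`, but `v ~ c`
      have h3 : q ∈ insert c (G.cl b) := by
        rw [← a7]
        exact mem_insert_of_mem (mem_insert_of_mem (h.memu.2 (by tauto)))
      have hn := h.nd
      rw [mem_insert, cl, mem_insert] at h3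
      rcases h3 with h3 | h3 | h3
      · exact hn.2.2.1 h3
      · exact (mem_R76.1 hb K h.mem) (h3 ▸ h.qK)
      · rcases h.nbqR hG (G.sym _ _ h3) hb with h5 | h5
        · exact G.irr b (by rw [← h5] at a3; exact a3)
        · exact a5 (mem_insert_of_mem (by rw [h5]; exact h.memv.2 (by tauto)))
    · have h3 : q ∈ insert c (G.cl b) := by
        rw [← a7]
        exact mem_insert_of_mem (mem_insert_of_mem (h.memv.2 (by tauto)))
      have hn := h.nd
      rw [mem_insert, cl, mem_insert] at h3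
      rcases h3 with h3 | h3 | h3
      · exact hn.2.2.1 h3
      · exact (mem_R76.1 hb K h.mem) (h3 ▸ h.qK)
      · rcases h.nbqR hG (G.sym _ _ h3) hb with h5 | h5
        · exact a5 (mem_insert_of_mem (by rw [h5]; exact h.memu.2 (by tauto)))
        · exact G.irr b (by rw [← h5] at a3; exact a3)
    · exact a6 (mem_insert_self _ _)

/-- the structure at the poor pair -/
theorem pqx64 (h : G.LPt Fa K q q' u v c d x y) (hG : G.Gen6 Fa) (ht : G.Tw c d)
    (hp : G.PQ Fa c x) : G.PQx Fa u v c d y := by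
  obtain ⟨w, h1, h2, h3, h4, h5, h6⟩ := h.poor64 hG ht hp
  have hcR := hp.1
  have hI := hp.2.2.1
  have hx := hp.hub
  have hcl : G.IsTw c := tw_of76 ht
  have hcl' : G.IsTw d := tw_of76' ht
  have hq : G.IsTw q := h.k6.2.1 q h.qK
  have hq' : G.IsTw q' := h.k6.2.1 q' h.qK'
  have h7 : w ∈ G.nb v := by
    rcases h.third_low64 hG ht hcR hI h1 h2 h3 h4 h5 h6 with h8 | h8
    · exfalso
      rcases h.memu.1 h8 with h9 | h9 | h9 | h9 | h9 | h9
      · exact tw_not_low76 hq (h9 ▸ h2)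
      · exact tw_not_low76 hq' (h9 ▸ h2)
      · exact h4 h9
      · exact tw_not_low76 hcl (h9 ▸ h2)
      · exact tw_not_low76 hcl' (h9 ▸ h2)
      · exact hx.1 (h9 ▸ h2)
    · exact h8
  have h8 : w = y := by
    rcases h.memv.1 h7 with h9 | h9 | h9 | h9 | h9 | h9
    · exact absurd (h9 ▸ h2) (tw_not_low76 hq)
    · exact absurd (h9 ▸ h2) (tw_not_low76 hq')
    · exact absurd h9 h3
    · exact absurd (h9 ▸ h2) (tw_not_low76 hcl)
    · exact absurd (h9 ▸ h2) (tw_not_low76 hcl')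
    · exact h9
  subst h8
  exact ⟨hcR, hI, ht, h2, h1, h5, h6⟩

/-- `y` is not a port of `K` whose partner is `v` -/
theorem y_port64 (h : G.LPt Fa K q q' u v c d x y) (hG : G.Gen6 Fa) (hyN : y ∈ G.N K)
    (hall : ∀ w ∈ G.nb y, w ∈ G.N K → G.Low w → w ∈ R Fa → w = v) : False := by
  obtain ⟨r, h1, w', h2, h3, h4, h5, h6, h7, h8⟩ := partner hG h.mem h.k6 hyN
  have h9 := hall w' h5 h2 h7 h8
  subst h9
  have hn := h.symm.nd
  have hyv : y ≠ w' := by
    rintro rfl
    exact G.irr _ h5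
  exact hn.2.2.2.2.2.2.2.2.2.2.2.1 (h.symm.partner_eq hG h1 h3 h4 hyN hyv).symm

/-- who asks the twin vertex `c` -/
theorem dn_c64 (h : G.LPt Fa K q q' u v c d x y) (hG : G.Gen6 Fa) (hu : G.I Fa u = {K})
    (hv : G.I Fa v = {K}) (hs : G.PQx Fa u v c d y) (z : V) :
    G.dn5 Fa c z ≤ if z = u ∨ z = v then 1 else 0 := by
  classical
  have h9 := hG.g5.n9
  have hr := hG.g5.reg
  have hI := hs.I0
  have hvR : v ∈ R Fa := h.symm.uR hr
  have hlv := h.lv
  have hyv : v ∈ G.nb y := G.sym _ _ (h.memv.2 (by tauto))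
  -- lows that see `c`
  have hz3 : ∀ l, G.Low l → c ∈ G.nb l → l = u ∨ l = v ∨ l = y := fun l h1 h2 =>
    hs.low l (G.sym _ _ h2) h1
  have hPF : ¬ G.PF Fa z c := by
    rintro ⟨h1, -⟩
    obtain ⟨B, B', h2, -⟩ := h1.blobs
    rw [hI] at h2
    exact absurd h2.symm (singleton_ne_empty B)
  have hPS : ¬ G.PS Fa z c := by
    intro h1
    rcases h1 with ⟨h1, -, h3⟩ | ⟨h1, h2, -⟩
    · rcases hz3 z h1.low (by rw [h1.nb]; simp) with rfl | rfl | rfl
      · have := h1.I0
        rw [hu] at this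
        exact absurd this (singleton_ne_empty K)
      · have := h1.I0
        rw [hv] at this
        exact absurd this (singleton_ne_empty K)
      · have h4 := hyv
        rw [h1.nb] at h4
        simp only [mem_insert, mem_singleton] at h4
        rcases h4 with h4 | h4 | h4 | h4 | h4 | h4
        · rw [← h4, hv] at h3
          exact absurd h3 (singleton_ne_empty K)
        · exact tw_not_low76 (tw_of76 h1.t) (h4 ▸ hlv)
        · exact tw_not_low76 (tw_of76' h1.t) (h4 ▸ hlv)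
        · exact tw_not_low76 (tw_of76 h1.t') (h4 ▸ hlv)
        · exact tw_not_low76 (tw_of76' h1.t') (h4 ▸ hlv)
        · exact h1.hx.1.1 (h4 ▸ hlv)
    · rw [hI] at h2
      simp at h2
  have hPD : G.PD Fa z c → z = u ∨ z = v := by
    intro h1
    rcases h1 with ⟨h1, h2, -⟩ | ⟨h1, h2, -⟩ | ⟨h1, -, -⟩ | ⟨h1, -, -⟩
    · exfalso
      have h3 := hs.twin _ h2 (tw_of76 h1.t')
      have h4 := (stTwHL_5 G).uniq h9 _ _ _ h1.t hs.tw
      have h5 := h1.low
      rw [Low, h1.nb] at h5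
      have h6 := nodup_six87 h5
      exact h6.2.2.2.2.2.2.2.2.2.1 (h4.trans h3.symm)
    · rw [hI] at h2
      simp at h2
    · have h2 : c ∈ G.nb z := (mem_inter.1 ((Finset.ext_iff.1 h1.out _).2 (by simp))).1
      rcases hz3 z h1.low h2 with h3 | h3 | h3
      · exact Or.inl h3
      · exact Or.inr h3
      · exfalso
        subst h3
        have hNF : ∀ w, w ∈ G.nb z → w ∈ R Fa → G.Low w → w = v := by
          have h4 : ∀ w, w ∈ G.nb z → w ∈ R Fa → G.Low w → w ∈ G.NF Fa z := by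
            intro w h5 h6 h7
            rw [NF, mem_filter, nR, mem_inter]
            exact ⟨⟨h5, h6⟩, Or.inl h7⟩
          have h5 := h4 v hyv hvR hlv
          intro w h6 h7 h8
          have h9 := h4 w h6 h7 h8
          rw [h1.nf, mem_singleton] at h5 h9
          exact h9.trans h5.symm
        have h4 := (mem_inter.1 h1.dT)
        have h5 := hNF _ h4.1 (N_sub_R76 hr (mem_I76.1 (h1.I1 ▸ mem_singleton_self _)).1 h4.2) h1.dl
        have h6 := (mem_I76.1 (h1.I1 ▸ mem_singleton_self _ : _ ∈ G.I Fa z))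
        have h7 := mem_I76.2 ⟨h6.1, h5 ▸ h4.2⟩
        rw [hv, mem_singleton] at h7
        rw [h7] at h6
        exact h.y_port64 hG h6.2 fun w h8 _ h9 h10 => hNF w h8 h10 h9
    · have h2 : c ∈ G.nb z := (mem_inter.1 ((Finset.ext_iff.1 h1.out _).2 (by simp))).1
      rcases hz3 z h1.low h2 with h3 | h3 | h3
      · exact Or.inl h3
      · exact Or.inr h3
      · exfalso
        subst h3
        have h6 := (mem_I76.1 (h1.I1 ▸ mem_singleton_self _ : _ ∈ G.I Fa z))
        rename_i B1 v1 p1 y1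
        have h4 : v ∈ G.N B1 := by
          by_contra h4
          have h5 : v ∈ G.pO B1 z := mem_inter.2 ⟨hyv, mem_Co76.2 ⟨mem_R76.1 hvR _ h6.1, h4⟩⟩
          rw [h1.out] at h5
          simp only [mem_insert, mem_singleton] at h5
          rcases h5 with h5 | h5 | h5
          · exact tw_not_low76 (tw_of76 h1.t) (h5 ▸ hlv)
          · exact tw_not_low76 (tw_of76' h1.t) (h5 ▸ hlv)
          · exact h1.hy.1.1 (h5 ▸ hlv)
        have h7 := mem_I76.2 ⟨h6.1, h4⟩
        rw [hv, mem_singleton] at h7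
        have h8 := h1.s0.2.2.2.1
        rw [h7] at h6 h8 h4
        refine h.y_port64 hG h6.2 fun w h10 h11 _ _ => ?_
        have h12 : w ∈ G.pT K z := mem_inter.2 ⟨h10, h11⟩
        have h13 : v ∈ G.pT K z := mem_inter.2 ⟨hyv, h4⟩
        rw [h8, mem_singleton] at h12 h13
        exact h12.trans h13.symm
  rw [dn5_tw76 h9 (tw_of76 hs.tw), if_neg hPF, if_neg hPS]
  by_cases h1 : G.PD Fa z c
  · rw [if_pos h1, if_pos (hPD h1)]
    rcases hPD h1 with rfl | rfl
    · have := (h.ch5_neg hG hu).1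
      omega
    · have := (h.symm.ch5_neg hG hv).1
      omega
  · rw [if_neg h1]
    split_ifs <;> norm_num

/-- what the twin vertex `c` keeps -/
theorem fc_c64 (h : G.LPt Fa K q q' u v c d x y) (hG : G.Gen6 Fa) (hu : G.I Fa u = {K})
    (hv : G.I Fa v = {K}) (ht : G.Tw c d) (hp : G.PQ Fa c x) : 2 ≤ G.fc Fa c := by
  classical
  have h9 := hG.g5.n9
  have hr := hG.g5.reg
  have hs := h.pqx64 hG ht hp
  have hcR := hs.cR
  have hI := hs.I0
  -- the asks
  have h1 : ∑ z ∈ R Fa, G.dn5 Fa c z ≤ 2 := by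
    refine (sum_le_sum fun z _ => h.dn_c64 hG hu hv hs z).trans ?_
    rw [← sum_filter, sum_const, nsmul_eq_mul, mul_one]
    have h2 : (R Fa).filter (fun z => z = u ∨ z = v) ⊆ {u, v} := by
      intro z hz
      rw [mem_insert, mem_singleton]
      exact (mem_filter.1 hz).2
    have h3 := (card_le_card h2).trans card_le_two
    exact_mod_cast h3
  -- the income
  have h2 : 2 * ((G.NH Fa c).card : ℤ) ≤ ∑ z ∈ R Fa, G.dn5 Fa z c := by
    have h3 : G.NH Fa c ⊆ R Fa := fun z hz => (mem_nR76.1 (mem_NH50.1 hz).1).2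
    refine le_trans ?_ (sum_le_sum_of_subset_of_nonneg h3 fun z _ _ => dn5_nonneg76 hG z c)
    rw [mul_comm, ← nsmul_eq_mul, ← sum_const]
    refine sum_le_sum fun z hz => ?_
    have h4 : G.PQ Fa c z := ⟨hp.1, hp.2.1, hp.2.2.1, hp.2.2.2.1, hz⟩
    rw [dn5_hub76 h4.hub, if_pos h4]
    split_ifs <;> norm_num
  -- the charge
  have h3 := (stCh5_28 G).tw0 h9 Fa hr c hcR hp.2.1 hI
  have h4 : 3 ≤ G.tl Fa c := by
    have hn := h.nd
    have hn' := h.symm.nd
    have h5 : ({u, v, y} : Finset V) ⊆ (G.nR Fa c).filter fun z => G.Low z := by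
      have h6 : ∀ z ∈ G.nb c, G.Low z → z ∈ (G.nR Fa c).filter fun z => G.Low z := by
        intro z hz hl
        rw [mem_filter, mem_nR76]
        exact ⟨⟨hz, nb_R76 hcR hI hz⟩, hl⟩
      intro z hz
      simp only [mem_insert, mem_singleton] at hz
      rcases hz with rfl | rfl | rfl
      · exact h6 _ (G.sym _ _ (h.memu.2 (by tauto))) h.lu
      · exact h6 _ (G.sym _ _ (h.memv.2 (by tauto))) h.lv
      · exact h6 _ hs.yc hs.ly
    have h6 : ({u, v, y} : Finset V).card = 3 := by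
      have hyv : y ≠ v := (ne_of_nb5 (h.memv.2 (by tauto))).symm
      rw [card_insert_of_notMem, card_pair hyv.symm]
      rw [mem_insert, mem_singleton, not_or]
      exact ⟨h.uv, hn'.2.2.2.2.2.2.2.2.2.2.2.1⟩
    rw [← h6, tl]
    exact card_le_card h5
  rw [fc]
  omega

/-- both twins keep something -/
theorem fc_pair64 (h : G.LPt Fa K q q' u v c d x y) (hG : G.Gen6 Fa) (hu : G.I Fa u = {K})
    (hv : G.I Fa v = {K}) (ht : G.Tw c d) (hp : G.PQ Fa c x) :
    2 ≤ G.fc Fa c ∧ 2 ≤ G.fc Fa d :=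
  ⟨h.fc_c64 hG hu hv ht hp, h.swap.fc_c64 hG hu hv (tw_symm76 ht) (PQ_tw50 hG ht hp)⟩

/-- the poor pair serves one pair of ports only -/
theorem uniq64 (h : G.LPt Fa K q q' u v c d x y) (hG : G.Gen6 Fa) (hu : G.I Fa u = {K})
    (hv : G.I Fa v = {K}) (ht : G.Tw c d) (hp : G.PQ Fa c x) {K1 : Finset V}
    {q1 q1' u1 v1 d1 x1 y1 : V} (h1 : G.LPt Fa K1 q1 q1' u1 v1 c d1 x1 y1)
    (hu1 : G.I Fa u1 = {K1}) (hv1 : G.I Fa v1 = {K1}) :
    (u1 = u ∧ v1 = v) ∨ (u1 = v ∧ v1 = u) := by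
  have hs := h.pqx64 hG ht hp
  have h2 := hs.low u1 (G.sym _ _ (h1.memu.2 (by tauto))) h1.lu
  have h3 := hs.low v1 (G.sym _ _ (h1.memv.2 (by tauto))) h1.lv
  have h4 := h1.uv
  have hn := h.symm.nd
  have hyu : y ≠ u := fun e => hn.2.2.2.2.2.2.2.2.2.2.2.1 e.symm
  have hyv : y ≠ v := (ne_of_nb5 (h.memv.2 (by tauto))).symm
  have key : ∀ {a b : V}, a = y → (b = u ∨ b = v) → a ∈ G.nb q1 → b ∈ G.nb q1 → a ∈ G.N K1 →
      G.I Fa b = {K1} → False := by
    intro a b e1 e2 e3 e4 e5 e6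
    subst e1
    have hK : K1 = K := by
      rcases e2 with rfl | rfl
      · rw [hu] at e6
        exact (singleton_injective e6).symm
      · rw [hv] at e6
        exact (singleton_injective e6).symm
    subst hK
    rcases e2 with rfl | rfl
    · exact hyv (h.partner_eq hG h1.qK e3 e4 e5 hyu)
    · exact hyu (h.symm.partner_eq hG h1.qK e3 e4 e5 hyv)
  have a1 : u1 ∈ G.nb q1 := G.sym _ _ (h1.memu.2 (by tauto))
  have a2 : v1 ∈ G.nb q1 := G.sym _ _ (h1.memv.2 (by tauto))
  rcases h2 with h2 | h2 | h2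
  · rcases h3 with h3 | h3 | h3
    · exact absurd (h2.trans h3.symm) h4
    · exact Or.inl ⟨h2, h3⟩
    · exact (key h3 (Or.inl h2) a2 a1 h1.symm.uN hu1).elim
  · rcases h3 with h3 | h3 | h3
    · exact Or.inr ⟨h2, h3⟩
    · exact absurd (h2.trans h3.symm) h4
    · exact (key h3 (Or.inr h2) a2 a1 h1.symm.uN hu1).elim
  · rcases h3 with h3 | h3 | h3
    · exact (key h2 (Or.inl h3) a1 a2 h1.uN hv1).elim
    · exact (key h2 (Or.inr h3) a1 a2 h1.uN hv1).elim
    · exact absurd (h2.trans h3.symm) h4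

end LPt

end CG

end Pool.Agent.Lib.MP_e95c01_co.N
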