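import Pool.Agent.Lib.MP_e95c01_co.Y.StPort36
import Pool.Agent.Lib.MP_e95c01_co.Y.PairP64
import Pool.Agent.Lib.MP_e95c01_co.X.C8i_86

/-!
# Hubs in no neighbourhood that are adjacent to an `LL` port and to its pair of twins: there is a
third payer
-/

namespace Pool.Agent.Lib.MP_e95c01_co.N

open Finset

variable {V : Type} [Fintype V] [DecidableEq V]

namespace CG

variable {G : CG V} {Fa : Finset (Finset V)} {K : Finset V} {q q' u v c d x y : V}

/-- a class near the hub `x` that is not in `W` gives a full payer that is not in `W` -/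
theorem third_64 (hG : G.Gen6 Fa) (h8a : G.StC8a) {x : V} (hx : x ∈ R Fa) (hh : G.Hub x)
    (hI : G.I Fa x = ∅) (W : Finset V) (hW : ∀ e f, G.Tw e f → e ∈ W → f ∈ W)
    (hPQ : ∀ e ∈ G.nb x, e ∉ W → G.PQ Fa e x → ∀ e' ∈ G.nb e, e' ∉ W)
    (hHL : ∀ b e, G.HL x b e → b ∉ W)
    (hT4 : ∀ l q p q' p' y, G.T4s Fa l q p q' p' x y → l ∉ W → q ∉ W)
    {e : V} (he : e ∈ G.nb x) (hc : G.Low e ∨ G.IsTw e) (heW : e ∉ W) :
    ∃ e', G.Full Fa e' x ∧ e' ∉ W := by
  classical
  have hk : (G.I Fa x).card ≤ 1 := by rw [hI, card_empty]; omega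
  have hlow : ∀ b, b ∈ G.HPl Fa x → b ∉ W → ∃ e', G.Full Fa e' x ∧ e' ∉ W := by
    intro b hb hbW
    rcases fullow86 hG.g5 hI hb with h | ⟨q, p, q', p', y, h1, h2⟩
    · exact ⟨b, h, hbW⟩
    · exact ⟨q, h2, hT4 _ _ _ _ _ _ h1 hbW⟩
  rcases hc with hc | hc
  · by_cases hHLe : ∃ b, G.HL x b e
    · obtain ⟨b, hb⟩ := hHLe
      refine hlow b (mem_HPl50.2 ⟨mem_nR76.2 ⟨HL_b76 hb, R0_86 hx hI (HL_b76 hb)⟩, hb.2.1, ?_,
        Or.inr (Or.inl (m_empty5 hI))⟩) (hHL b e hb)
      rintro ⟨b', hb'⟩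
      exact (stTwHL_5 G).nomut hG.g5.n9 _ _ _ _ _ hb' hb rfl
    · exact hlow e (mem_HPl50.2 ⟨mem_nR76.2 ⟨he, R0_86 hx hI he⟩, hc, hHLe,
        Or.inr (Or.inl (m_empty5 hI))⟩) heW
  · obtain ⟨f, hf⟩ := hc
    have heR := R0_86 hx hI he
    have hxf : x ≠ f := by
      rintro rfl
      exact hh.2 ⟨e, symm_5 hf⟩
    have hfx : f ∈ G.nb x := G.sym _ _ (Tw_nb5 hf (G.sym _ _ he) hxf)
    have hfW : f ∉ W := fun h => heW (hW f e (symm_5 hf) h)
    have hpq : ∀ g ∈ G.nb x, g ∉ W → G.PQ Fa g x →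
        ∃ e', G.Full Fa e' x ∧ e' ∉ W := by
      intro g h1 h3 h4
      obtain ⟨e', h5, h6⟩ := h8a Fa hG x hx hh hk g h4
      exact ⟨e', h6, hPQ g h1 h3 h4 e' h5⟩
    by_cases h1 : G.PQ Fa e x
    · exact hpq e he heW h1
    by_cases h2 : G.PQ Fa f x
    · exact hpq f hfx hfW h2
    refine ⟨e, Or.inr ⟨f, hf, ?_, ?_⟩, heW⟩
    · rw [FuT, mem_filter, mem_HPt50]
      exact ⟨⟨mem_nR76.2 ⟨he, heR⟩, ⟨f, hf⟩, Or.inr (Or.inl (m_empty5 hI))⟩, h1⟩
    · rw [FuT, mem_filter, mem_HPt50]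
      exact ⟨⟨mem_nR76.2 ⟨hfx, R0_86 hx hI hfx⟩, ⟨e, symm_5 hf⟩,
        Or.inr (Or.inl (m_empty5 hI))⟩, h2⟩

namespace LPt

/-- the low neighbours of `u` -/
theorem low_u64 (h : G.LPt Fa K q q' u v c d x y) (ht : G.Tw c d) (hx : G.Hub x) {w : V}
    (hw : w ∈ G.nb u) (hl : G.Low w) : w = v := by
  have hq : G.IsTw q := h.k6.2.1 q h.qK
  have hq' : G.IsTw q' := h.k6.2.1 q' h.qK'
  rcases h.memu.1 hw with h9 | h9 | h9 | h9 | h9 | h9
  · exact absurd (h9 ▸ hl) (tw_not_low76 hq)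
  · exact absurd (h9 ▸ hl) (tw_not_low76 hq')
  · exact h9
  · exact absurd (h9 ▸ hl) (tw_not_low76 (tw_of76 ht))
  · exact absurd (h9 ▸ hl) (tw_not_low76 (tw_of76' ht))
  · exact absurd (h9 ▸ hl) hx.1

/-- the third payer -/
theorem third9 (h : G.LPt Fa K q q' u v c d x y) (hG : G.Gen6 Fa) (h8a : G.StC8a)
    (ht : G.Tw c d) (hxR : x ∈ R Fa) (hx : G.Hub x)
    (hI : G.I Fa x = ∅) (hxc : x ∈ G.nb c)
    (hPQ : ¬ G.PQ Fa c x) :
    ∃ e, (e ∈ G.FuL Fa x ∧ e ≠ u) ∨ (e ∈ G.FuT Fa x ∧ e ≠ c ∧ e ≠ d) := by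
  classical
  have h9 := hG.g5.n9
  have hr := hG.g5.reg
  have hM := stM1_86 G
  have hn := h.nd
  have huc : u ∈ G.nb c := G.sym _ _ (h.memu.2 (by tauto))
  have hvc : v ∈ G.nb c := G.sym _ _ (h.memv.2 (by tauto))
  have hux : u ∈ G.nb x := G.sym _ _ (h.memu.2 (by tauto))
  have hcx : c ∈ G.nb x := G.sym _ _ hxc
  have hcR : c ∈ R Fa := R0_86 hxR hI hcx
  have hd := (stTwHL_5 G).twI Fa hr c hcR d ht
  have hcd : c ≠ d := ne_of_nb5 ht.1
  have hxd : x ≠ d := fun e => hx.2 (by rw [e]; exact tw_of76' ht)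
  have hdx : d ∈ G.nb x := G.sym _ _ (Tw_nb5 ht hxc hxd)
  have huR := h.uR hr
  have hvR := h.symm.uR hr
  have hvx : v ∉ G.nb x := fun h1 => h.xv (G.sym _ _ h1)
  have htc : G.IsTw c := tw_of76 ht
  have htd : G.IsTw d := tw_of76' ht
  have huv := h.uv
  -- twin neighbours of `u` in the torso
  have hut : ∀ e ∈ R Fa, G.IsTw e → e ∈ G.nb u → e = c ∨ e = d := by
    intro e he het heu
    rcases h.memu.1 heu with h1 | h1 | h1 | h1 | h1 | h1
    · exact absurd (h1 ▸ h.qK) (mem_R76.1 he K h.mem)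
    · exact absurd (h1 ▸ h.qK') (mem_R76.1 he K h.mem)
    · exact absurd h.lv (tw_not_low76 (h1 ▸ het))
    · exact Or.inl h1
    · exact Or.inr h1
    · exact absurd (h1 ▸ het) hx.2
  obtain ⟨W, hWd⟩ : ∃ W : Finset V, W = {u, c, d} := ⟨_, rfl⟩
  have hWm : ∀ e, e ∈ W ↔ e = u ∨ e = c ∨ e = d := by
    intro e
    rw [hWd]
    simp only [mem_insert, mem_singleton]
  -- a class that is not in `W`
  have hcls : ∃ e ∈ G.nb x, (G.Low e ∨ G.IsTw e) ∧ e ∉ W := by
    by_contra hno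
    push Not at hno
    have hlow : ∀ w ∈ G.nb x, G.Low w → w = u := by
      intro w hw hl
      rcases (hWm w).1 (hno w hw (Or.inl hl)) with h1 | h1 | h1
      · exact h1
      · exact absurd (h1 ▸ hl) (tw_not_low76 htc)
      · exact absurd (h1 ▸ hl) (tw_not_low76 htd)
    have hcov : ∀ w ∈ G.nb x, w = c ∨ w = y ∨ w ∈ (G.nb c).erase x := by
      intro w hw
      have hwx : w ≠ x := fun e => G.irr x (by rw [e] at hw; exact hw)
      by_cases hwc : w = c
      · exact Or.inl hwc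
      have key : w ∈ G.nb c → w = c ∨ w = y ∨ w ∈ (G.nb c).erase x := fun h1 =>
        Or.inr (Or.inr (mem_erase.2 ⟨hwx, h1⟩))
      rcases covhub86 hG.g5 hxR hx hI hw with ⟨e, h1, h2, h3⟩ | h1 | ⟨a, h1, b, h2⟩
      · rcases (hWm e).1 (hno e h1 h2) with rfl | rfl | rfl
        · rcases h.memu.1 h3 with h4 | h4 | h4 | h4 | h4 | h4
          · exact absurd (h4 ▸ h.qK) (mem_R76.1 (R0_86 hxR hI hw) K h.mem)
          · exact absurd (h4 ▸ h.qK') (mem_R76.1 (R0_86 hxR hI hw) K h.mem)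
          · exact absurd (h4 ▸ hw) hvx
          · exact absurd h4 hwc
          · exact key (h4 ▸ ht.1)
          · exact absurd h4 hwx
        · exact key h3
        · exact key (Tw_nb5 (symm_5 ht) h3 hwc)
      · exact key (by rw [hlow w hw h1]; exact huc)
      · have h3 := hlow a h1 h2.1
        subst h3
        have h4 : b = v := h.low_u64 ht hx (LL_ab76 h2) h2.2.1
        subst h4
        have h5 : w ∈ insert y (G.cl a) := by
          rw [h.ll.2.2.2.2.2.2, ← h2.2.2.2.2.2.2]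
          exact mem_insert_self _ _
        rcases mem_insert.1 h5 with h6 | h6
        · exact Or.inr (Or.inl h6)
        · exact absurd h6 h2.2.2.2.2.2.1
    have h7 : (G.nb c).card = 7 := ht.2.1
    have hsub : G.nb x ⊆ insert c (insert y (((G.nb c).erase x).erase v)) := by
      intro w hw
      rw [mem_insert, mem_insert]
      rcases hcov w hw with h1 | h1 | h1
      · exact Or.inl h1
      · exact Or.inr (Or.inl h1)
      · exact Or.inr (Or.inr (mem_erase.2 ⟨fun e => hvx (e ▸ hw), h1⟩))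
    have hvx' : v ∈ (G.nb c).erase x := mem_erase.2 ⟨hn.2.2.2.2.2.2.2.2.2.2.2.1, hvc⟩
    have hE : (((G.nb c).erase x).erase v).card = 5 := by
      rw [card_erase_of_mem hvx', card_erase_of_mem hxc, h7]
    have h8 : 7 ≤ (G.nb x).card := by
      have h1 := G.deg x
      have h2 : (G.nb x).card ≠ 6 := hx.1
      omega
    have h10 : (insert c (insert y (((G.nb c).erase x).erase v))).card ≤ 7 := by
      have h1 := card_insert_le c (insert y (((G.nb c).erase x).erase v))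
      have h2 := card_insert_le y (((G.nb c).erase x).erase v)
      omega
    have heq := eq_of_subset_of_card_le hsub (by omega)
    -- all other neighbours of `c` are neighbours of `x`
    have hall : ∀ w ∈ G.nb c, w ≠ x → w ≠ v → w ∈ G.nb x := by
      intro w h1 h2 h3
      rw [heq, mem_insert, mem_insert]
      exact Or.inr (Or.inr (mem_erase.2 ⟨h3, mem_erase.2 ⟨h2, h1⟩⟩))
    by_cases hIc : G.I Fa c = ∅
    · have hxN : x ∈ G.NH Fa c := mem_NH50.2 ⟨mem_nR76.2 ⟨hxc, hxR⟩, hx, by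
        rw [hI, card_empty]; omega⟩
      have h11 : ¬ (G.ch5 Fa c < 0 ∨ (G.tl Fa c = 3 ∧ G.tt Fa c = 0)) := fun h12 =>
        hPQ ⟨hcR, htc, hIc, h12, hxN⟩
      push Not at h11
      have h12 := (stCh5_28 G).tw0 h9 Fa hr c hcR htc hIc
      have h13 : 1 ≤ (G.NH Fa c).card := card_pos.2 ⟨x, hxN⟩
      have h14 : 3 ≤ G.tl Fa c := by
        have := h11.1
        omega
      have h15 : ((G.nR Fa c).filter fun w => G.Low w) ⊆ {u, v} := by
        intro w hw
        obtain ⟨h16, h17⟩ := mem_filter.1 hw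
        rw [mem_insert, mem_singleton]
        by_cases h18 : w = v
        · exact Or.inr h18
        · refine Or.inl (hlow w (hall w (mem_nR76.1 h16).1 ?_ h18) h17)
          rintro rfl
          exact hx.1 h17
      have h16 := (card_le_card h15).trans card_le_two
      rw [tl] at h14
      omega
    · obtain ⟨B, hB⟩ := nonempty_iff_ne_empty.2 hIc
      have h11 := (stTwHL_5 G).hid Fa hr hG.g5.big c hcR htc B hB
      have h12 : 0 < G.d c B := by omega
      rw [CG.d, card_pos] at h12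
      obtain ⟨w, hw⟩ := h12
      obtain ⟨h13, h14⟩ := mem_inter.1 hw
      have hBF := (mem_I76.1 hB).1
      have h15 : ∀ z ∈ R Fa, w ≠ z := fun z hz e => mem_R76.1 hz B hBF (e ▸ h14)
      have h16 := R0_86 hxR hI (hall w h13 (h15 x hxR) (h15 v hvR))
      exact mem_R76.1 h16 B hBF h14
  obtain ⟨e, he, hec, heW⟩ := hcls
  obtain ⟨e', h1, h2⟩ := third_64 hG h8a hxR hx hI W (by
    intro e f hef he
    rw [hWm] at he ⊢
    rcases he with rfl | rfl | rfl
    · exact absurd h.lu (tw_not_low76 (tw_of76 hef))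
    · exact Or.inr (Or.inr ((stTwHL_5 G).uniq h9 _ _ _ hef ht))
    · exact Or.inr (Or.inl ((stTwHL_5 G).uniq h9 _ _ _ hef (symm_5 ht)))) (by
    intro g hg hgW hP e' he' he'W
    have hgR := hP.1
    obtain ⟨g', hgt⟩ := hP.2.1
    have hgc : g ≠ c := fun e => hgW ((hWm g).2 (Or.inr (Or.inl e)))
    have hgd : g ≠ d := fun e => hgW ((hWm g).2 (Or.inr (Or.inr e)))
    have hg'c : g' ≠ c := by
      rintro rfl
      exact hgd ((stTwHL_5 G).uniq h9 _ _ _ (symm_5 hgt) ht)
    have hg'd : g' ≠ d := by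
      rintro rfl
      exact hgc ((stTwHL_5 G).uniq h9 _ _ _ (symm_5 hgt) (symm_5 ht))
    -- `c` is adjacent to `g`
    have hcg : c ∈ G.nb g := by
      rcases (hWm e').1 he'W with rfl | rfl | rfl
      · rcases hut g hgR ⟨g', hgt⟩ (G.sym _ _ he') with h1 | h1
        · exact absurd h1 hgc
        · exact absurd h1 hgd
      · exact he'
      · exact G.sym _ _ (Tw_nb5 (symm_5 ht) (G.sym _ _ he') hgc)
    have hk := hM.cov1 Fa hG g hgR ⟨g', hgt⟩ hP.2.2.1 c d x ht hcg
      (fun h1 => hg'c ((stTwHL_5 G).uniq h9 _ _ _ hgt h1)) hx (G.sym _ _ hg) hxc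
    obtain ⟨B, hB⟩ := card_eq_one.1 hk
    have hBm : B ∈ G.I Fa c := by rw [hB]; exact mem_singleton_self _
    have hBF := (mem_I76.1 hBm).1
    have h11 := (stTwHL_5 G).hid Fa hr hG.g5.big c hcR htc B hBm
    have hg'R := ((stTwHL_5 G).twI Fa hr g hgR g' hgt).1
    have hgc' : g ∈ G.nb c := G.sym _ _ hcg
    have hg'c' : g' ∈ G.nb c := G.sym _ _ (Tw_nb5 hgt hcg (Ne.symm hg'c))
    have h12 : ({d, u, v, x, g, g'} : Finset V) ∪ (G.nb c ∩ B) ⊆ G.nb c := by
      intro w hw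
      rw [mem_union] at hw
      rcases hw with hw | hw
      · simp only [mem_insert, mem_singleton] at hw
        rcases hw with rfl | rfl | rfl | rfl | rfl | rfl
        · exact ht.1
        · exact huc
        · exact hvc
        · exact hxc
        · exact hgc'
        · exact hg'c'
      · exact (mem_inter.1 hw).1
    have h13 : Disjoint ({d, u, v, x, g, g'} : Finset V) (G.nb c ∩ B) := by
      rw [disjoint_left]
      intro w hw hw'
      have h14 := (mem_inter.1 hw').2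
      have h15 : w ∈ R Fa := by
        simp only [mem_insert, mem_singleton] at hw
        rcases hw with rfl | rfl | rfl | rfl | rfl | rfl
        · exact hd.1
        · exact huR
        · exact hvR
        · exact hxR
        · exact hgR
        · exact hg'R
      exact mem_R76.1 h15 B hBF h14
    have htg : G.IsTw g := ⟨g', hgt⟩
    have htg' : G.IsTw g' := tw_of76' hgt
    have h14 : ({d, u, v, x, g, g'} : Finset V).card = 6 := by
      have nlt : ∀ {a b : V}, G.Low a → G.IsTw b → a ≠ b := fun h1 h2 e =>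
        tw_not_low76 h2 (e ▸ h1)
      have nht : ∀ {b : V}, G.IsTw b → x ≠ b := fun h2 e => hx.2 (e ▸ h2)
      have nhl : ∀ {b : V}, G.Low b → b ≠ x := fun h2 e => hx.1 (e ▸ h2)
      rw [card_insert_of_notMem, card_insert_of_notMem, card_insert_of_notMem,
        card_insert_of_notMem, card_pair (ne_of_nb5 hgt.1)]
      · simp only [mem_insert, mem_singleton, not_or]
        exact ⟨nht htg, nht htg'⟩
      · simp only [mem_insert, mem_singleton, not_or]
        exact ⟨nhl h.lv, nlt h.lv htg, nlt h.lv htg'⟩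
      · simp only [mem_insert, mem_singleton, not_or]
        exact ⟨huv, nhl h.lu, nlt h.lu htg, nlt h.lu htg'⟩
      · simp only [mem_insert, mem_singleton, not_or]
        exact ⟨(nlt h.lu htd).symm, (nlt h.lv htd).symm, hxd.symm, Ne.symm hgd, Ne.symm hg'd⟩
    have h15 := card_le_card h12
    rw [card_union_of_disjoint h13, h14, ht.2.1] at h15
    rw [CG.d] at h11
    omega) (by
    intro b e hb hbW
    rcases (hWm b).1 hbW with rfl | rfl | rfl
    · have h1 : v ∈ G.cl x := by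
        rw [hb.2.2.2.2]
        exact mem_insert_of_mem (mem_insert_of_mem (h.memu.2 (by tauto)))
      rcases mem_insert.1 h1 with h2 | h2
      · exact hx.1 (h2 ▸ h.lv)
      · exact hvx h2
    · exact tw_not_low76 htc hb.2.1
    · exact tw_not_low76 htd hb.2.1) (by
    intro l q1 p1 q1' p1' y1 hT hlW hqW
    have hlu : l ≠ u := fun e => hlW ((hWm l).2 (Or.inl e))
    have hq1 : G.IsTw q1 := ⟨_, hT.t⟩
    have hu1 : u ∈ G.nR Fa q1 := by
      refine mem_nR76.2 ⟨?_, huR⟩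
      rcases (hWm q1).1 hqW with rfl | rfl | rfl
      · exact absurd h.lu (tw_not_low76 hq1)
      · exact huc
      · exact Tw_nb5 ht huc (fun e => tw_not_low76 htd (e ▸ h.lu))
    rw [hT.nq] at hu1
    simp only [mem_insert, mem_singleton] at hu1
    rcases hu1 with h2 | h2 | h2 | h2 | h2
    · exact tw_not_low76 (tw_of76' hT.t) (h2 ▸ h.lu)
    · exact hlu h2.symm
    · exact tw_not_low76 (tw_of76 hT.t') (h2 ▸ h.lu)
    · exact tw_not_low76 (tw_of76' hT.t') (h2 ▸ h.lu)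
    · exact hx.1 (h2 ▸ h.lu)) he hec heW
  refine ⟨e', ?_⟩
  rw [hWm, not_or, not_or] at h2
  rcases h1 with h1 | ⟨f, -, h1, -⟩
  · exact Or.inl ⟨h1, h2.1⟩
  · exact Or.inr ⟨h1, h2.2⟩

end LPt

end CG

end Pool.Agent.Lib.MP_e95c01_co.N
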