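import Pool.Agent.Lib.MP_e95c01_co.X.All76
import Pool.Agent.Lib.MP_e95c01_co.Y.Thd64

/-!
# Row 9: a hub pays for all the ports that it sponsors
-/

namespace Pool.Agent.Lib.MP_e95c01_co.N

open Finset

variable {V : Type} [Fintype V] [DecidableEq V]

namespace CG

variable {G : CG V} {Fa : Finset (Finset V)} {K : Finset V} {q q' u v c d x y : V}

namespace LPt

/-- twin vertices are not in the neighbourhood of `K` -/
theorem twN11 (h : G.LPt Fa K q q' u v c d x y) (hG : G.Gen6 Fa) {w : V} (hw : G.IsTw w) :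
    w ∉ G.N K := by
  intro h1
  obtain ⟨r, -, w', -, -, -, -, h7, -⟩ := partner hG h.mem h.k6 h1
  exact tw_not_low76 hw h7

/-- the hub `x` is in no `HL` -/
theorem noHLx11 (h : G.LPt Fa K q q' u v c d x y) (ht : G.Tw c d) (hx : G.Hub x)
    (hHL : ¬ ∃ b, G.HL x b u) (b e : V) : ¬ G.HL x b e := by
  intro hb
  have hux : u ∈ G.nb x := G.sym _ _ (h.memu.2 (by tauto))
  have h1 : u ∈ G.cl x := mem_insert_of_mem hux
  rw [hb.2.2.2.2] at h1
  rcases mem_insert.1 h1 with h2 | h2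
  · exact hHL ⟨b, h2 ▸ hb⟩
  · have hv : v ∈ G.cl x := by
      rw [hb.2.2.2.2]
      refine mem_insert_of_mem ?_
      rcases mem_insert.1 h2 with h3 | h3
      · rw [← h3]
        exact mem_insert_of_mem (h.memu.2 (by tauto))
      · have h4 : b = v := h.low_u64 ht hx (G.sym _ _ h3) hb.2.1
        rw [h4]
        exact mem_insert_self _ _
    rcases mem_insert.1 hv with h3 | h3
    · exact hx.1 (h3 ▸ h.lv)
    · exact h.xv (G.sym _ _ h3)

theorem cR11 (h : G.LPt Fa K q q' u v c d x y) (hG : G.Gen6 Fa) (hu : G.I Fa u = {K}) :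
    c ∈ R Fa :=
  (mem_nR76.1 (nR_of5 (h.uR hG.g5.reg) (h.memu.2 (by tauto)) (by
    intro B hB
    rw [hu, mem_singleton] at hB
    rw [hB]
    exact h.cK hG))).2

/-- the port vertex does not skip a hub -/
theorem notSK11 (h : G.LPt Fa K q q' u v c d x y) (hG : G.Gen6 Fa) (hu : G.I Fa u = {K})
    (ht : G.Tw c d) {g : V} : ¬ G.SK Fa u g := by
  intro hS
  have hne : G.I Fa u ≠ ∅ := by rw [hu]; exact singleton_ne_empty _
  have hc : c ∈ G.pO K u := by
    refine mem_inter.2 ⟨h.memu.2 (by tauto), mem_Co76.2 ⟨h.cK hG, h.twN11 hG (tw_of76 ht)⟩⟩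
  have key : ∀ B z w, G.I Fa u = {B} → G.pO B u = {z, w} → G.Hub z → G.Hub w → False := by
    intro B z w h1 h2 h3 h4
    have h5 : B = K := singleton_injective (h1.symm.trans hu)
    subst h5
    rw [h2, mem_insert, mem_singleton] at hc
    rcases hc with rfl | rfl
    · exact h3.2 (tw_of76 ht)
    · exact h4.2 (tw_of76 ht)
  rcases hS with ⟨h1, h2⟩ | ⟨_, h1, h2, h3, h4, h5, h6⟩ | ⟨_, h1, h2, h3⟩ |
    ⟨_, h1, h2, h3, h4, h5, h6⟩ | ⟨_, h1, h2, h3, h4⟩
  · exact hne h1.I0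
  · exact hne h1.I0
  · exact hne h1.I0
  · exact key _ _ _ h1.I1 h1.out h1.hx.1 h1.hy.1
  · exact key _ _ _ h1.I1 h1.out h1.hx.1 h1.hy.1

theorem fuL11 (h : G.LPt Fa K q q' u v c d x y) (hG : G.Gen6 Fa) (hu : G.I Fa u = {K})
    (ht : G.Tw c d) (hHL : ¬ ∃ b, G.HL x b u) : u ∈ G.FuL Fa x := by
  classical
  rw [FuL, mem_filter, mem_HPl50, mem_nR76]
  exact ⟨⟨⟨G.sym _ _ (h.memu.2 (by tauto)), h.uR hG.g5.reg⟩, h.lu, hHL,
    Or.inl (by rw [hu, card_singleton])⟩, h.notSK11 hG hu ht⟩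

theorem fuT11 (h : G.LPt Fa K q q' u v c d x y) (hG : G.Gen6 Fa) (hu : G.I Fa u = {K})
    (ht : G.Tw c d) (hx : G.Hub x) (hxN : x ∉ G.N K) (hxc : x ∈ G.nb c)
    (hPQ : ¬ G.PQ Fa c x) : c ∈ G.FuT Fa x ∧ d ∈ G.FuT Fa x := by
  classical
  have hcR := h.cR11 hG hu
  have hdR := ((stTwHL_5 G).twI Fa hG.g5.reg c hcR d ht).1
  have hxd : x ≠ d := fun e => hx.2 (by rw [e]; exact tw_of76' ht)
  have hdx : x ∈ G.nb d := Tw_nb5 ht hxc hxd
  have huc : u ∈ G.nb c := G.sym _ _ (h.memu.2 (by tauto))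
  have hud : u ∈ G.nb d := G.sym _ _ (h.memu.2 (by tauto))
  have hux : u ∈ G.nR Fa x :=
    mem_nR76.2 ⟨G.sym _ _ (h.memu.2 (by tauto)), h.uR hG.g5.reg⟩
  have hm : G.m Fa x u = 0 := by
    rw [m, hu, card_eq_zero, eq_empty_iff_forall_notMem]
    intro B hB
    obtain ⟨h1, h2⟩ := mem_inter.1 hB
    rw [mem_singleton] at h2
    rw [h2] at h1
    exact hxN (mem_I76.1 h1).2
  constructor <;> rw [FuT, mem_filter, mem_HPt50, mem_nR76]
  · exact ⟨⟨⟨G.sym _ _ hxc, hcR⟩, tw_of76 ht, Or.inr (Or.inr ⟨u, hux, hm, Or.inl huc⟩)⟩, hPQ⟩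
  · exact ⟨⟨⟨G.sym _ _ hdx, hdR⟩, tw_of76' ht, Or.inr (Or.inr ⟨u, hux, hm, Or.inl hud⟩)⟩,
      fun h1 => hPQ (PQ_tw50 hG (symm_5 ht) h1)⟩

/-- the twins are rich if they are in one neighbourhood -/
theorem rich11 (h : G.LPt Fa K q q' u v c d x y) (hG : G.Gen6 Fa) (hu : G.I Fa u = {K})
    (hv : G.I Fa v = {K}) (ht : G.Tw c d) (hk : (G.I Fa c).card = 1) : 1 ≤ G.ch5 Fa c := by
  classical
  have hcR := h.cR11 hG hu
  have hcN := h.twN11 hG (tw_of76 ht)
  have hm : ∀ w, G.I Fa w = {K} → G.m Fa w c = 0 := by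
    intro w hw
    rw [m, hw, card_eq_zero, eq_empty_iff_forall_notMem]
    intro B hB
    obtain ⟨h1, h2⟩ := mem_inter.1 hB
    rw [mem_singleton] at h1
    rw [h1] at h2
    exact hcN (mem_I76.1 h2).2
  obtain ⟨B, hB⟩ := card_eq_one.1 hk
  have h1 := tw_lb53 hG.g5 hcR ⟨d, ht⟩ hB
  have h2 := e1q_86 hG.g5 ht hcR hB
  have h3 : 2 ≤ (G.NO Fa c).card := by
    refine two_le5 (a := u) (b := v) ?_ ?_ h.uv <;> rw [NO, mem_filter, mem_nR76]
    · exact ⟨⟨G.sym _ _ (h.memu.2 (by tauto)), h.uR hG.g5.reg⟩, h.lu, hm u hu⟩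
    · exact ⟨⟨G.sym _ _ (h.memv.2 (by tauto)), h.symm.uR hG.g5.reg⟩, h.lv, hm v hv⟩
  obtain ⟨h4, h5⟩ := fg_tw53 (G := G) ⟨d, ht⟩ hB
  by_cases h7 : G.RF (G.Co B) c
  · have h9 : G.d c (G.Co B) = 4 := (RF_type16 h7).2.2.1
    omega
  · have h8 : 0 ≤ G.fg5 Fa c := by
      by_contra h0
      exact h7 (h5 (by omega))
    omega

end LPt

/-- row 9: a hub pays for all the ports that it sponsors -/
theorem stP9h_11 (G : CG V) : G.StP9h := by
  classical
  intro Fa hG x hxR hx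
  have hg5 := hG.g5
  have h9 := hg5.n9
  have hC8 := G.stC8_all76 Fa hG x hxR hx
  have hin : 0 ≤ ∑ w ∈ R Fa, G.dn5 Fa w x := sum_nonneg fun w _ => dn5_nonneg76 hG w x
  rw [fc]
  set E := univ.filter fun e : Finset V => G.SpH Fa e x with hE
  rcases E.eq_empty_or_nonempty with h0 | ⟨e0, he0⟩
  · rw [h0, card_empty]
    push_cast
    omega
  have hmE : ∀ e, e ∈ E ↔ G.SpH Fa e x := fun e => by simp [hE]
  obtain ⟨K, q, q', u, v, c, d, y, h, hu, hv, ht, -, -, hk, hxc, hxN, hHL, hPQ, -⟩ :=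
    (hmE e0).1 he0
  -- the port vertices
  have : Nonempty V := ⟨x⟩
  have hfe : ∀ e, e ∈ E → ∃ w, ∃ K q q' v c d y, G.LPt Fa K q q' w v c d x y ∧
      G.I Fa w = {K} ∧ G.Tw c d ∧ (¬ ∃ b, G.HL x b w) ∧ e = {w, v} := by
    intro e he
    obtain ⟨K, q, q', u, v, c, d, y, h, hu, hv, ht, -, -, -, -, -, hHL, -, he⟩ := (hmE e).1 he
    exact ⟨u, K, q, q', v, c, d, y, h, hu, ht, hHL, he⟩
  choose! f hf using hfe
  obtain ⟨U, hU⟩ : ∃ U, U = E.image f := ⟨_, rfl⟩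
  have hUc : U.card = E.card := by
    rw [hU]
    refine card_image_of_injOn ?_
    intro e he e' he' hee
    obtain ⟨K1, q1, q1', v1, c1, d1, y1, h1, h2, -, -, h3⟩ := hf e he
    obtain ⟨K2, q2, q2', v2, c2, d2, y2, k1, k2, -, -, k3⟩ := hf e' he'
    rw [← hee] at k1 k2 k3
    have h4 : K2 = K1 := singleton_injective (k2.symm.trans h2)
    subst h4
    have h5 : v2 = v1 := h1.partner_eq hG k1.qK (G.sym _ _ (k1.memv.2 (by tauto)))
      (G.sym _ _ (k1.memu.2 (by tauto))) k1.symm.uN k1.uv.symm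
    rw [h3, k3, h5]
  have hUm : ∀ w ∈ U, G.I Fa w ≠ ∅ ∧ w ∈ G.FuL Fa x := by
    intro w hw
    rw [hU, mem_image] at hw
    obtain ⟨e, he, rfl⟩ := hw
    obtain ⟨K1, q1, q1', v1, c1, d1, y1, h1, h2, h3, h4, -⟩ := hf e he
    exact ⟨by rw [h2]; exact singleton_ne_empty _, h1.fuL11 hG h2 h3 h4⟩
  have hE1 : 1 ≤ E.card := card_pos.2 ⟨e0, he0⟩
  -- the claimants
  have hHD : ∀ l, G.HD Fa l x → ∃ l' q p x1 y1 z1, G.T6s Fa l l' q p x1 y1 z1 ∧
      (G.I Fa q).card = 1 ∧ G.NoQ Fa l q ∧ x ∈ G.nb l ∧ x ∈ G.nb q ∧ G.I Fa x = ∅ := by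
    intro l hl
    rcases hl with ⟨h1, h2, h3⟩ | ⟨_, h0, h1, h2, h3, h4, h5, h6, h7, h8⟩
    · exact absurd h1.hl (h.noHLx11 ht hx hHL _ _)
    · exact ⟨_, _, _, _, _, _, h0, h1, h2, h5, h6, h8⟩
  have hacc := hub_acc76 (G := G) (Fa := Fa) hxR hx hk
  rw [ask] at hacc
  set HDs := (R Fa).filter fun l => G.HD Fa l x with hHDs
  set HSs := (R Fa).filter fun l => G.HS Fa l x with hHSs
  have f1 : HDs ⊆ G.FuL Fa x := by
    intro l hl
    obtain ⟨l', q, p, x1, y1, z1, h, -, -, h5, -, h7⟩ := hHD l (mem_filter.1 hl).2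
    exact h.fuL86 hG (Or.inl (by rw [h7, card_empty]; omega)) h5 hx
  have f2 : HSs ⊆ G.FuL Fa x := by
    intro l hl
    obtain ⟨l', q, p, x1, y1, z1, -, -, -, -, -, -, -, -, -, -, h8, -⟩ :=
      hs86 hG (mem_filter.1 hl).2
    exact h8
  have f3 : Disjoint HDs HSs := by
    rw [disjoint_left]
    intro l hl hl'
    obtain ⟨l', q, p, x1, y1, z1, h, h1, h2, -, -, -⟩ := hHD l (mem_filter.1 hl).2
    obtain ⟨k', q2, p2, x2, y2, z2, x3, y3, z3, k, kk, k1, -, -, -, -, -, -⟩ :=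
      hs86 hG (mem_filter.1 hl').2
    have hqR : q ∈ R Fa := R0_86 h.lR h.I0 h.mem86.2.1
    have e1 : k' = l' := (h.only86 k.mem86.1).1 k.low'
    subst e1
    have hqk : q ∈ G.nb k' := by
      rcases (h.only86 k.mem86.2.1).2.1 ⟨p2, k.t⟩ with e2 | e2
      · subst e2
        exact kk.mem86.2.1
      · subst e2
        have e3 := uniq_5 hg5.n9 k.t (symm_5 h.t)
        subst e3
        exact kk.mem86.2.2.1
    have h3 := rich86 hg5 hqR h.t h1 (G.sym _ _ h.mem86.2.1) h.low h.lR h.I0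
      (G.sym _ _ hqk) kk.low kk.lR kk.I0 (ne_of_nb5 h.mem86.1)
    rcases h2.2 with h4 | h4
    · rw [h4, card_empty] at h1
      omega
    · omega
  have f6 : Disjoint U (HDs ∪ HSs) := by
    rw [disjoint_left]
    intro l hl hl'
    have h1 := (hUm l hl).1
    rcases mem_union.1 hl' with h2 | h2
    · obtain ⟨l', q, p, x1, y1, z1, h, -⟩ := hHD l (mem_filter.1 h2).2
      exact h1 h.I0
    · obtain ⟨l', q, p, x1, y1, z1, -, -, -, h, -⟩ := hs86 hG (mem_filter.1 h2).2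
      exact h1 h.I0
  have f4 : E.card + (HDs.card + HSs.card) ≤ (G.FuL Fa x).card := by
    rw [← hUc, ← card_union_of_disjoint f3, ← card_union_of_disjoint f6]
    exact card_le_card (union_subset (fun w hw => (hUm w hw).2) (union_subset f1 f2))
  obtain ⟨hcF, hdF⟩ := h.fuT11 hG hu ht hx hxN hxc hPQ
  have hcd : c ≠ d := ne_of_nb5 ht.1
  have f5 : 2 + 2 * HDs.card ≤ (G.FuT Fa x).card := by
    obtain ⟨T, hT⟩ : ∃ T, T = HDs.biUnion (fun l => (G.nb l).filter fun u => G.IsTw u) :=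
      ⟨_, rfl⟩
    have hTm : ∀ w ∈ T, w ∈ G.FuT Fa x ∧ w ≠ c ∧ w ≠ d := by
      intro w hw
      rw [hT, mem_biUnion] at hw
      obtain ⟨l, hl, hw⟩ := hw
      obtain ⟨l', q1, p1, x1, y1, z1, k, h1, h2, -, h6, -⟩ := hHD l (mem_filter.1 hl).2
      obtain ⟨h7, h8⟩ := k.fuT86 hG h1 h6 hx
      have hch : G.ch5 Fa q1 ≤ 0 := by
        rcases h2.2 with h3 | h3
        · rw [h3, card_empty] at h1
          omega
        · exact h3
      have hnc : q1 ≠ c := by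
        rintro rfl
        have := h.rich11 hG hu hv ht h1
        omega
      have hnd : q1 ≠ d := by
        rintro rfl
        have := h.swap.rich11 hG hu hv (symm_5 ht) h1
        omega
      rcases (k.only86 (mem_filter.1 hw).1).2.1 (mem_filter.1 hw).2 with e | e
      · rw [e]
        exact ⟨h7, hnc, hnd⟩
      · rw [e]
        refine ⟨h8, ?_, ?_⟩
        · rintro rfl
          exact hnd (uniq_5 h9 (symm_5 k.t) ht)
        · rintro rfl
          exact hnc (uniq_5 h9 (symm_5 k.t) (symm_5 ht))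
    have h2 : T.card = ∑ l ∈ HDs, ((G.nb l).filter fun u => G.IsTw u).card := by
      rw [hT, card_biUnion]
      intro l hl l2 hl2 hne
      refine disjoint_left.2 ?_
      intro u hu hu2
      obtain ⟨l', q, p, x1, y1, z1, h, h1, h2, -, -, -⟩ := hHD l (mem_filter.1 hl).2
      obtain ⟨l2', q2, p2, x2, y2, z2, k, k1, k2, -, -, -⟩ := hHD l2 (mem_filter.1 hl2).2
      have hqR : q ∈ R Fa := R0_86 h.lR h.I0 h.mem86.2.1
      have hql2 : q ∈ G.nb l2 := by
        rcases (h.only86 (mem_filter.1 hu).1).2.1 (mem_filter.1 hu).2 with e | e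
        · subst e
          exact (mem_filter.1 hu2).1
        · subst e
          exact G.sym _ _ (Tw_nb5 (symm_5 h.t) (G.sym _ _ (mem_filter.1 hu2).1)
            (low_ne86 h.t k.low).2)
      have h3 := rich86 hg5 hqR h.t h1 (G.sym _ _ h.mem86.2.1) h.low h.lR h.I0
        (G.sym _ _ hql2) k.low k.lR k.I0 hne
      rcases h2.2 with h4 | h4
      · rw [h4, card_empty] at h1
        omega
      · omega
    have h3 : ∑ _l ∈ HDs, 2 ≤ ∑ l ∈ HDs, ((G.nb l).filter fun u => G.IsTw u).card := by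
      refine sum_le_sum ?_
      intro l hl
      obtain ⟨l', q, p, x1, y1, z1, h, -⟩ := hHD l (mem_filter.1 hl).2
      exact two_le5 (mem_filter.2 ⟨h.mem86.2.1, ⟨p, h.t⟩⟩)
        (mem_filter.2 ⟨h.mem86.2.2.1, ⟨q, symm_5 h.t⟩⟩) (ne_of_nb5 h.t.1)
    rw [sum_const, smul_eq_mul] at h3
    have h4 : Disjoint ({c, d} : Finset V) T := by
      rw [disjoint_left]
      intro w hw hw'
      rw [mem_insert, mem_singleton] at hw
      have h5 := hTm w hw'
      rcases hw with rfl | rfl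
      · exact h5.2.1 rfl
      · exact h5.2.2 rfl
    have h5 : ({c, d} : Finset V) ∪ T ⊆ G.FuT Fa x := by
      refine union_subset ?_ fun w hw => (hTm w hw).1
      intro w hw
      rw [mem_insert, mem_singleton] at hw
      rcases hw with rfl | rfl
      · exact hcF
      · exact hdF
    have h6 := card_le_card h5
    rw [card_union_of_disjoint h4, card_pair hcd] at h6
    omega
  suffices hs : 2 * (E.card : ℤ) ≤ 4 * ((G.I Fa x).card : ℤ) - 8 +
      4 * ((G.FuL Fa x).card : ℤ) + 2 * ((G.FuT Fa x).card : ℤ) - 4 * (HDs.card : ℤ) -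
      2 * (HSs.card : ℤ) by
    omega
  by_cases hc : (G.I Fa x).card = 0 ∧ E.card = 1 ∧ HDs.card = 0 ∧ HSs.card = 0
  · obtain ⟨hc1, hc2, hc3, hc4⟩ := hc
    obtain ⟨e, he⟩ := h.third9 hG (stC8a_50 (stM1_86 G) G.stT6_76) ht hxR hx
      (card_eq_zero.1 hc1) hxc hPQ
    rcases he with ⟨h1, h2⟩ | ⟨h1, h2, h3⟩
    · have := two_le5 (h.fuL11 hG hu ht hHL) h1 (Ne.symm h2)
      omega
    · have h4 : ({c, d, e} : Finset V) ⊆ G.FuT Fa x := by
        intro w hw
        simp only [mem_insert, mem_singleton] at hw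
        rcases hw with rfl | rfl | rfl
        exacts [hcF, hdF, h1]
      have h5 := card_le_card h4
      rw [card_insert_of_notMem, card_pair (Ne.symm h3)] at h5
      · omega
      · simp only [mem_insert, mem_singleton, not_or]
        exact ⟨hcd, Ne.symm h2⟩
  · omega

end CG

end Pool.Agent.Lib.MP_e95c01_co.N
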