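import Pool.Agent.Lib.MP_e95c01_co.Y.Thd64
import Pool.Agent.Lib.MP_e95c01_co.X.Acc76

/-!
# Row 9: a hub pays for all the ports that it sponsors
-/

namespace Pool.Agent.Lib.MP_e95c01_co.N

open Finset

variable {V : Type} [Fintype V] [DecidableEq V]

namespace CG

variable {G : CG V} {Fa : Finset (Finset V)} {K : Finset V} {q q' u v c d x y : V}

namespace LPt

/-- no `HL x b l` if the port `u` pays `x` -/
theorem no_HLx64 (h : G.LPt Fa K q q' u v c d x y) (ht : G.Tw c d) (hx : G.Hub x)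
    (hHL : ¬ ∃ b, G.HL x b u) {b l : V} (hb : G.HL x b l) : False := by
  have hvx : v ∉ G.nb x := fun h1 => h.xv (G.sym _ _ h1)
  have hux : u ∈ G.nb x := G.sym _ _ (h.memu.2 (by tauto))
  have h1 : u ∈ G.cl x := mem_insert_of_mem hux
  rw [hb.2.2.2.2] at h1
  rcases mem_insert.1 h1 with h2 | h2
  · exact hHL ⟨b, h2 ▸ hb⟩
  · rcases mem_insert.1 h2 with h3 | h3
    · have h4 : v ∈ G.cl x := by
        rw [hb.2.2.2.2, ← h3]
        exact mem_insert_of_mem (mem_insert_of_mem (h.memu.2 (by tauto)))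
      rcases mem_insert.1 h4 with h5 | h5
      · exact hx.1 (h5 ▸ h.lv)
      · exact hvx h5
    · have h4 := h.low_u64 ht hx (G.sym _ _ h3) hb.2.1
      exact hvx (h4 ▸ hb.2.2.1)

/-- the port `u` is a full payer of `x` -/
theorem u_FuL64 (h : G.LPt Fa K q q' u v c d x y) (hG : G.Gen6 Fa) (hu : G.I Fa u = {K})
    (ht : G.Tw c d) (hxR : x ∈ R Fa) (hx : G.Hub x) (hxK : x ∉ G.N K)
    (hHL : ¬ ∃ b, G.HL x b u) : u ∈ G.FuL Fa x := by
  classical
  have hr := hG.g5.reg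
  have hn := h.nd
  have huR := h.uR hr
  have hux : u ∈ G.nb x := G.sym _ _ (h.memu.2 (by tauto))
  rw [FuL, mem_filter, mem_HPl50, mem_nR76]
  refine ⟨⟨⟨hux, huR⟩, h.lu, hHL, Or.inl (by rw [hu, card_singleton])⟩, fun hS => ?_⟩
  -- three neighbours in `Co K`
  have hcN : ∀ z, G.IsTw z → z ∉ G.N K := by
    intro z hz hzN
    obtain ⟨r, -, w', -, -, -, -, h7, -⟩ := partner hG h.mem h.k6 hzN
    exact tw_not_low76 hz h7
  have hin : ∀ z ∈ G.nb u, z ∉ K → z ∉ G.N K → z ∈ G.pO K u := fun z h1 h2 h3 =>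
    mem_inter.2 ⟨h1, mem_Co76.2 ⟨h2, h3⟩⟩
  have hcO := hin c (h.memu.2 (by tauto)) (h.cK hG) (hcN c (tw_of76 ht))
  have hdO := hin d (h.memu.2 (by tauto)) (h.swap.cK hG) (hcN d (tw_of76' ht))
  have hxO := hin x (h.memu.2 (by tauto)) (h.xK hG) hxK
  have hout : ∀ B a b, G.I Fa u = {B} → G.pO B u = {a, b} → False := by
    intro B a b h1 h2
    rw [hu] at h1
    rw [← singleton_injective h1] at h2
    have h3 : ({c, d, x} : Finset V) ⊆ {a, b} := by
      rw [← h2]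
      intro z hz
      simp only [mem_insert, mem_singleton] at hz
      rcases hz with rfl | rfl | rfl
      · exact hcO
      · exact hdO
      · exact hxO
    have h4 := (card_le_card h3).trans card_le_two
    rw [card_insert_of_notMem (by
      simp only [mem_insert, mem_singleton, not_or]
      exact ⟨hn.2.2.2.2.2.2.2.2.2.2.2.2.1, hn.2.2.2.2.2.2.2.2.2.2.2.2.2.1⟩),
      card_pair hn.2.2.2.2.2.2.2.2.2.2.2.2.2.2] at h4
    omega
  have hI0 : G.I Fa u ≠ ∅ := by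
    rw [hu]
    exact singleton_ne_empty K
  rcases hS with ⟨h1, -⟩ | ⟨_, h1, -⟩ | ⟨_, h1, -⟩ | ⟨_, h1, -⟩ | ⟨_, h1, -⟩
  · exact hI0 h1.I0
  · exact hI0 h1.I0
  · exact hI0 h1.I0
  · exact hout _ _ _ h1.I1 h1.out
  · exact hout _ _ _ h1.I1 h1.out

/-- the twins `c`, `d` are full payers of `x` -/
theorem c_FuT64 (h : G.LPt Fa K q q' u v c d x y) (hG : G.Gen6 Fa) (hu : G.I Fa u = {K})
    (ht : G.Tw c d) (hx : G.Hub x) (hxc : x ∈ G.nb c)
    (hxK : x ∉ G.N K) (hPQ : ¬ G.PQ Fa c x) : c ∈ G.FuT Fa x ∧ d ∈ G.FuT Fa x := by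
  classical
  have hr := hG.g5.reg
  have huR := h.uR hr
  have huc : u ∈ G.nb c := G.sym _ _ (h.memu.2 (by tauto))
  have hux : u ∈ G.nb x := G.sym _ _ (h.memu.2 (by tauto))
  have hcR : c ∈ R Fa := by
    by_contra h1
    rw [R, mem_compl, not_not, mem_biUnion] at h1
    obtain ⟨B, hB, hcB⟩ := h1
    have h2 : B ∈ G.I Fa u := mem_I76.2 ⟨hB, mem_N76.2 ⟨mem_R76.1 huR B hB, c, hcB, huc⟩⟩
    rw [hu, mem_singleton] at h2
    rw [h2] at hcB
    exact h.cK hG hcB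
  have hd := (stTwHL_5 G).twI Fa hr c hcR d ht
  have hxd : x ≠ d := fun e => hx.2 (by rw [e]; exact tw_of76' ht)
  have hmx : G.m Fa x u = 0 := by
    rw [CG.m, card_eq_zero, hu, eq_empty_iff_forall_notMem]
    intro B hB
    rw [mem_inter, mem_singleton] at hB
    obtain ⟨h1, rfl⟩ := hB
    exact hxK (mem_I76.1 h1).2
  have hud : u ∈ G.nb d := Tw_nb5 ht huc (fun e => tw_not_low76 (tw_of76' ht) (e ▸ h.lu))
  constructor
  · rw [FuT, mem_filter, mem_HPt50]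
    exact ⟨⟨mem_nR76.2 ⟨G.sym _ _ hxc, hcR⟩, tw_of76 ht,
      Or.inr (Or.inr ⟨u, mem_nR76.2 ⟨hux, huR⟩, hmx, Or.inl huc⟩)⟩, hPQ⟩
  · rw [FuT, mem_filter, mem_HPt50]
    exact ⟨⟨mem_nR76.2 ⟨G.sym _ _ (Tw_nb5 ht hxc hxd), hd.1⟩, tw_of76' ht,
      Or.inr (Or.inr ⟨u, mem_nR76.2 ⟨hux, huR⟩, hmx, Or.inl hud⟩)⟩,
      fun h1 => hPQ (PQ_tw50 hG (symm_5 ht) h1)⟩

/-- the pair of twins of the port is not the pair of a claim -/
theorem claim64 (h : G.LPt Fa K q q' u v c d x y) (hG : G.Gen6 Fa) (hu : G.I Fa u = {K})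
    (hv : G.I Fa v = {K}) (ht : G.Tw c d) {l l' p1 x1 y1 z1 q1 : V}
    (hT : G.T6s Fa l l' q1 p1 x1 y1 z1) (hk : (G.I Fa q1).card = 1) (hN : G.NoQ Fa l q1) :
    q1 ≠ c ∧ q1 ≠ d := by
  classical
  have hg5 := hG.g5
  have hr := hG.g5.reg
  obtain ⟨m1, m2, m3, m4, m5, m6⟩ := hT.mem86
  have hqR : q1 ∈ R Fa := R0_86 hT.lR hT.I0 m2
  suffices hkey : u ∈ G.nb q1 → v ∈ G.nb q1 → False by
    have huc : u ∈ G.nb c := G.sym _ _ (h.memu.2 (by tauto))
    have hvc : v ∈ G.nb c := G.sym _ _ (h.memv.2 (by tauto))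
    have htd := tw_of76' ht
    constructor
    · rintro rfl
      exact hkey huc hvc
    · rintro rfl
      exact hkey (Tw_nb5 ht huc (fun e => tw_not_low76 htd (e ▸ h.lu)))
        (Tw_nb5 ht hvc (fun e => tw_not_low76 htd (e ▸ h.lv)))
  intro huq hvq
  obtain ⟨B, hB⟩ := card_eq_one.1 hk
  have hBK : B ≠ K := by
    rintro rfl
    have h1 : q1 ∈ G.N B := (mem_I76.1 (hB ▸ mem_singleton_self B : B ∈ G.I Fa q1)).2
    obtain ⟨r, -, w', -, -, -, -, h7, -⟩ := partner hG h.mem h.k6 h1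
    exact tw_not_low76 ⟨_, hT.t⟩ h7
  have hm : ∀ w, G.I Fa w = {K} → G.m Fa w q1 = 0 := by
    intro w hw
    rw [CG.m, card_eq_zero, hw, hB, eq_empty_iff_forall_notMem]
    intro C hC
    rw [mem_inter, mem_singleton, mem_singleton] at hC
    exact hBK (hC.2.symm.trans hC.1)
  have h3 : 3 ≤ (G.NO Fa q1).card := by
    have h4 : ({u, v, l} : Finset V) ⊆ G.NO Fa q1 := by
      intro w hw
      simp only [mem_insert, mem_singleton] at hw
      rw [NO, mem_filter, mem_nR76]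
      rcases hw with rfl | rfl | rfl
      · exact ⟨⟨huq, h.uR hr⟩, h.lu, hm _ hu⟩
      · exact ⟨⟨hvq, h.symm.uR hr⟩, h.lv, hm _ hv⟩
      · exact ⟨⟨G.sym _ _ m2, hT.lR⟩, hT.low, m_empty5 hT.I0⟩
    have h5 : ({u, v, l} : Finset V).card = 3 := by
      have hlu : ∀ w, G.I Fa w = {K} → w ≠ l := by
        rintro w hw rfl
        rw [hT.I0] at hw
        exact singleton_ne_empty K hw.symm
      rw [card_insert_of_notMem, card_pair (hlu v hv)]
      rw [mem_insert, mem_singleton, not_or]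
      exact ⟨h.uv, hlu u hu⟩
    rw [← h5]
    exact card_le_card h4
  have h1 := tw_lb53 hg5 hqR ⟨p1, hT.t⟩ hB
  have h2 := e1q_86 hg5 hT.t hqR hB
  obtain ⟨h4, -⟩ := fg_tw53 (G := G) ⟨p1, hT.t⟩ hB
  rcases hN.2 with h5 | h5
  · rw [h5, card_empty] at hk
    omega
  · omega

end LPt

/-- the port of a low vertex in one neighbourhood -/
theorem same_port64 (hG : G.Gen6 Fa) {K1 : Finset V} {q1 q1' v1 c1 d1 x1 y1 : V}
    (h : G.LPt Fa K q q' u v c d x y) (h1 : G.LPt Fa K1 q1 q1' u v1 c1 d1 x1 y1)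
    (hu : G.I Fa u = {K}) : v1 = v := by
  have h2 := h1.KI
  rw [hu, mem_singleton] at h2
  subst h2
  have h3 : v1 ∈ G.nb q1 := G.sym _ _ (h1.memv.2 (by tauto))
  have h4 : u ∈ G.nb q1 := G.sym _ _ (h1.memu.2 (by tauto))
  have h5 : v1 ≠ u := h1.uv.symm
  exact h.partner_eq hG h1.qK h3 h4 h1.symm.uN h5

/-- row 9 -/
theorem stP9h_64 (G : CG V) (h8a : G.StC8a) (h8 : G.StC8) : G.StP9h := by
  classical
  intro Fa hG x hx hh
  have hg5 := hG.g5
  have hr := hg5.reg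
  obtain ⟨E, hE⟩ : ∃ E : Finset (Finset V), E = univ.filter fun e : Finset V =>
    G.SpH Fa e x := ⟨_, rfl⟩
  have hEm : ∀ e, e ∈ E ↔ G.SpH Fa e x := by
    intro e
    rw [hE, mem_filter]
    exact ⟨fun h => h.2, fun h => ⟨mem_univ _, h⟩⟩
  rw [← hE]
  have hin : 0 ≤ ∑ z ∈ R Fa, G.dn5 Fa z x := sum_nonneg fun z _ => dn5_nonneg76 hG z x
  have hfc : 2 * G.ch5 Fa x - G.ask Fa x ≤ G.fc Fa x := by
    rw [fc, ask]
    omega
  rcases E.eq_empty_or_nonempty with hE0 | ⟨e0, he0⟩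
  · have h1 := h8 Fa hG x hx hh
    rw [hE0, card_empty]
    rw [ask] at hfc
    push_cast
    omega
  -- a low vertex for every port
  have hch : ∀ e : Finset V, ∃ w, e ∈ E → ∃ K q q' v c d y,
      G.LPt Fa K q q' w v c d x y ∧ G.I Fa w = {K} ∧ G.I Fa v = {K} ∧ G.Tw c d ∧
      (G.I Fa x).card ≤ 1 ∧ x ∈ G.nb c ∧ x ∉ G.N K ∧ (¬ ∃ b, G.HL x b w) ∧
      ¬ G.PQ Fa c x ∧ e = {w, v} := by
    intro e
    by_cases he : e ∈ E
    · obtain ⟨K, q, q', u, v, c, d, y, h, hu, hv, ht, -, -, hk, hxc, hxK, hHL, hPQ, he'⟩ :=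
        (hEm e).1 he
      exact ⟨u, fun _ => ⟨K, q, q', v, c, d, y, h, hu, hv, ht, hk, hxc, hxK, hHL, hPQ, he'⟩⟩
    · exact ⟨x, fun h => absurd h he⟩
  choose f hf using hch
  obtain ⟨u, hfu⟩ : ∃ u, u = f e0 := ⟨_, rfl⟩
  obtain ⟨K, q, q', v, c, d, y, h, hu, hv, ht, hk, hxc, hxK, hHL, hPQ, he⟩ := hf e0 he0
  rw [← hfu] at h hu hHL he
  have hacc := hub_acc76 (G := G) (Fa := Fa) hx hh hk
  obtain ⟨HDs, hHDs⟩ : ∃ S, S = (R Fa).filter fun l => G.HD Fa l x := ⟨_, rfl⟩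
  obtain ⟨HSs, hHSs⟩ : ∃ S, S = (R Fa).filter fun l => G.HS Fa l x := ⟨_, rfl⟩
  rw [← hHDs, ← hHSs] at hacc
  -- the claims
  have hHD : ∀ l, G.HD Fa l x → ∃ l' q p x1 y1 z1, G.T6s Fa l l' q p x1 y1 z1 ∧
      (G.I Fa q).card = 1 ∧ G.NoQ Fa l q ∧ x ∈ G.nb l ∧ x ∈ G.nb q ∧ G.I Fa x = ∅ := by
    intro l hl
    rcases hl with ⟨k, k1, k2⟩ | ⟨_, k, k1, k2, k3, k4, k5, k6, k7, k8⟩
    · exact (h.no_HLx64 ht hh hHL k.hl).elim
    · exact ⟨_, _, _, _, _, _, k, k1, k2, k5, k6, k8⟩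
  have f1 : HDs ⊆ G.FuL Fa x := by
    intro l hl
    rw [hHDs] at hl
    obtain ⟨l', q, p, x1, y1, z1, k, -, -, k5, -, k7⟩ := hHD l (mem_filter.1 hl).2
    exact k.fuL86 hG (Or.inl (by rw [k7, card_empty]; omega)) k5 hh
  have f2 : HSs ⊆ G.FuL Fa x := by
    intro l hl
    rw [hHSs] at hl
    obtain ⟨l', q, p, x1, y1, z1, -, -, -, -, -, -, -, -, -, -, k8, -⟩ :=
      hs86 hG (mem_filter.1 hl).2
    exact k8
  have i1 : ∀ l ∈ HDs, G.I Fa l = ∅ := by
    intro l hl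
    rw [hHDs] at hl
    obtain ⟨l', q, p, x1, y1, z1, k, -⟩ := hHD l (mem_filter.1 hl).2
    exact k.I0
  have i2 : ∀ l ∈ HSs, G.I Fa l = ∅ := by
    intro l hl
    rw [hHSs] at hl
    obtain ⟨l', q, p, x1, y1, z1, x2, y2, z2, k, -⟩ := hs86 hG (mem_filter.1 hl).2
    exact k.I0
  have f3 : Disjoint HDs HSs := by
    rw [disjoint_left]
    intro l hl hl'
    rw [hHDs] at hl
    rw [hHSs] at hl'
    obtain ⟨l', q, p, x1, y1, z1, h, h1, h2, -, -, -⟩ := hHD l (mem_filter.1 hl).2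
    obtain ⟨k', q2, p2, x2, y2, z2, x3, y3, z3, k, kk, k1, -, -, -, -, -, -⟩ :=
      hs86 hG (mem_filter.1 hl').2
    have hqR : q ∈ R Fa := R0_86 h.lR h.I0 h.mem86.2.1
    have e1 : k' = l' := (h.only86 k.mem86.1).1 k.low'
    subst e1
    have hqk : q ∈ G.nb k' := by
      rcases (h.only86 k.mem86.2.1).2.1 ⟨p2, k.t⟩ with e2 | e2
      · subst e2
        exact kk.mem86.2.1
      · subst e2
        have e3 := uniq_5 hg5.n9 k.t (symm_5 h.t)
        subst e3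
        exact kk.mem86.2.2.1
    have h3 := rich86 hg5 hqR h.t h1 (G.sym _ _ h.mem86.2.1) h.low h.lR h.I0
      (G.sym _ _ hqk) kk.low kk.lR kk.I0 (ne_of_nb5 h.mem86.1)
    rcases h2.2 with h4 | h4
    · rw [h4, card_empty] at h1
      omega
    · omega
  have hinj : Set.InjOn f (E : Set (Finset V)) := by
    intro e1 he1 e2 he2 he12
    obtain ⟨K1, q1, q1', v1, c1, d1, y1, a1, a2, -, -, -, -, -, -, -, a3⟩ := hf e1 he1
    obtain ⟨K2, q2, q2', v2, c2, d2, y2, b1, b2, -, -, -, -, -, -, -, b3⟩ := hf e2 he2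
    rw [← he12] at b1 b2 b3
    rw [a3, b3, same_port64 hG a1 b1 a2]
  obtain ⟨U, hU⟩ : ∃ U : Finset V, U = E.image f := ⟨_, rfl⟩
  have hUc : U.card = E.card := by
    rw [hU, card_image_of_injOn hinj]
  have hUm : ∀ w ∈ U, w ∈ G.FuL Fa x ∧ G.I Fa w ≠ ∅ := by
    intro w hw
    rw [hU, mem_image] at hw
    obtain ⟨e, he, rfl⟩ := hw
    obtain ⟨K1, q1, q1', v1, c1, d1, y1, a1, a2, -, a4, -, -, a5, a6, -, -⟩ := hf e he
    refine ⟨a1.u_FuL64 hG a2 a4 hx hh a5 a6, ?_⟩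
    rw [a2]
    exact singleton_ne_empty _
  have hUd : Disjoint U (HDs ∪ HSs) := by
    rw [disjoint_left]
    intro w hw hw'
    have h1 := (hUm w hw).2
    rcases mem_union.1 hw' with h2 | h2
    · exact h1 (i1 w h2)
    · exact h1 (i2 w h2)
  have hsub : U ∪ (HDs ∪ HSs) ⊆ G.FuL Fa x :=
    union_subset (fun w hw => (hUm w hw).1) (union_subset f1 f2)
  have hcard : (U ∪ (HDs ∪ HSs)).card = E.card + (HDs.card + HSs.card) := by
    rw [card_union_of_disjoint hUd, card_union_of_disjoint f3, hUc]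
  have hL := card_le_card hsub
  rw [hcard] at hL
  obtain ⟨hcT, hdT⟩ := h.c_FuT64 hG hu ht hh hxc hxK hPQ
  have hcd : c ≠ d := ne_of_nb5 ht.1
  have hT : 2 ≤ (G.FuT Fa x).card := by
    rw [← card_pair hcd]
    refine card_le_card ?_
    intro w hw
    rw [mem_insert, mem_singleton] at hw
    rcases hw with rfl | rfl
    · exact hcT
    · exact hdT
  have hE1 : 1 ≤ E.card := card_pos.2 ⟨e0, he0⟩
  by_cases hk1 : (G.I Fa x).card = 1
  · rw [hk1] at hacc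
    push_cast at hacc
    omega
  have hk0 : G.I Fa x = ∅ := card_eq_zero.1 (by omega)
  rw [hk0, card_empty] at hacc
  push_cast at hacc
  by_cases hr2 : 2 ≤ E.card
  · omega
  by_cases hS0 : HSs = ∅
  swap
  · have h1 : 1 ≤ HSs.card := card_pos.2 (nonempty_iff_ne_empty.2 hS0)
    omega
  -- the third payer
  have hT3 : ∀ w, w ∈ G.FuT Fa x → w ≠ c → w ≠ d → 3 ≤ (G.FuT Fa x).card := by
    intro w h1 h2 h3
    have h4 : ({w, c, d} : Finset V) ⊆ G.FuT Fa x := by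
      intro z hz
      simp only [mem_insert, mem_singleton] at hz
      rcases hz with rfl | rfl | rfl
      · exact h1
      · exact hcT
      · exact hdT
    have h5 : ({w, c, d} : Finset V).card = 3 := by
      rw [card_insert_of_notMem, card_pair hcd]
      rw [mem_insert, mem_singleton, not_or]
      exact ⟨h2, h3⟩
    rw [← h5]
    exact card_le_card h4
  obtain ⟨e, h1 | h1⟩ := h.third9 hG h8a ht hx hh hk0 hxc hPQ
  · by_cases h2 : e ∈ HDs
    · rw [hHDs] at h2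
      obtain ⟨l', q1, p1, x1, y1, z1, k, k1, k2, -, k4, -⟩ := hHD e (mem_filter.1 h2).2
      obtain ⟨h3, h4⟩ := h.claim64 hG hu hv ht k k1 k2
      have h5 := hT3 q1 (k.fuT86 hG k1 k4 hh).1 h3 h4
      omega
    · -- `e` is a new low payer
      have hUe : U = {u} := by
        obtain ⟨w, hw⟩ := card_eq_one.1 (by omega : U.card = 1)
        have h3 : u ∈ U := by
          rw [hU, hfu]
          exact mem_image_of_mem f he0
        rw [hw, mem_singleton] at h3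
        rw [hw, h3]
      have heU : e ∉ U ∪ (HDs ∪ HSs) := by
        rw [mem_union, mem_union, hS0]
        rintro (h3 | h3 | h3)
        · rw [hUe, mem_singleton] at h3
          exact h1.2 h3
        · exact h2 h3
        · exact notMem_empty _ h3
      have h3 : insert e (U ∪ (HDs ∪ HSs)) ⊆ G.FuL Fa x := insert_subset h1.1 hsub
      have h4 := card_le_card h3
      rw [card_insert_of_notMem heU, hcard] at h4
      omega
  · have h2 := hT3 e h1.1 h1.2.1 h1.2.2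
    omega

end CG

end Pool.Agent.Lib.MP_e95c01_co.N
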