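import Pool.Agent.Lib.MP_e95c01_co.Y.StPort36
import Pool.Agent.Lib.MP_e95c01_co.Y.PairP64

/-!
# Row 9: the poor pairs of twins
-/

namespace Pool.Agent.Lib.MP_e95c01_co.N

open Finset

variable {V : Type} [Fintype V] [DecidableEq V]

namespace CG

theorem stP9p_64 (G : CG V) : G.StP9p := by
  rintro Fa hG e c ⟨K, q, q', u, v, d, x, y, h, hu, hv, ht, -, -, -, -, -, -, hp, rfl⟩
  refine ⟨(h.fc_pair64 hG hu hv ht hp).1, ?_⟩
  rintro e' ⟨K1, q1, q1', u1, v1, d1, x1, y1, h1, hu1, hv1, -, -, -, -, -, -, -, -, rfl⟩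
  rcases h.uniq64 hG hu hv ht hp h1 hu1 hv1 with ⟨rfl, rfl⟩ | ⟨rfl, rfl⟩
  · rfl
  · exact pair_comm _ _

end CG

end Pool.Agent.Lib.MP_e95c01_co.N
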