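import Pool.Agent.Lib.MP_e95c01_co.Y.WS33
import Pool.Agent.Lib.MP_e95c01_co.Y.AlQ11

/-!
# Torsos with two ordinary members and three `K6`'s, all ports covered: the parity of `WS`

`APt K M u v`: the `LL` pair `u v` is a port of the `K6` `K`, all other neighbours are in `K`, `M`,
`N M` or `N K`. If the torso consists of such ports only and the sum of the balances is 0, then
every ordinary member has `WS B` congruent 2 modulo 4.
-/

set_option autoImplicit false

namespace Pool.Agent.Lib.MP_e95c01_co.N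

open Finset

variable {V : Type} [Fintype V] [DecidableEq V]

namespace CG

/-- an `LL` port of the `K6` `K` at `M`, all other neighbours in `K`, `M`, `N M`, `N K` -/
structure APt (G : CG V) (K M : Finset V) (u v : V) : Prop where
  al : G.AlQ K M u v
  ll : ∃ x y, G.LL u v x y

namespace P97

variable {G : CG V} {Fa : Finset (Finset V)} {F : Finset V}

/-! ### flags -/

/-- the flags of a low vertex with a low neighbour in `N S` -/
theorem flv_s5 (h9 : 9 ≤ Fintype.card V) {S : Finset V} {u v : V} (hu : G.Low u) (hv : G.Low v)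
    (h : v ∈ G.pT S u) : G.flv S u = G.s5 S u := by
  classical
  rw [K28.flv_low hu]
  have h1 : ¬ G.U3 S u := fun h1 =>
    tw_not_low11 (K28.PairSet_tw h9 h1.2.2.2 h) hv
  have h2 : ¬ G.T3 S u := fun h1 =>
    tw_not_low11 (K28.PairSet_tw h9 (K28.T3_pair h1) h) hv
  have h3 : ¬ G.HF S u := by
    rintro ⟨-, -, -, a, b, ha, -, -, hp⟩
    rw [hp, mem_singleton] at h
    rw [h] at hv
    have h7 := ha.1
    have h6 : (G.nb a).card = 6 := hv
    omega
  rw [if_neg h1, if_neg h2, if_neg h3]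
  ring

theorem S0_v {S : Finset V} {u v w : V} (h : v ∈ G.pT S u) (h0 : G.S0 S u w) : w = v := by
  have h1 := h0.2.2.2.1
  rw [h1, mem_singleton] at h
  exact h.symm

/-- no flag if `N S` contains another neighbour -/
theorem s5_zero_T {S : Finset V} {u v : V} (h : v ∈ G.pT S u) (hn : G.pT S u ≠ {v}) :
    G.s5 S u = 0 := by
  apply K28.s5_zero
  intro w h0
  have h1 := S0_v h h0
  rw [h1] at h0
  exact hn h0.2.2.2.1

theorem s5_zero_X {S : Finset V} {u : V} (h : (G.pX S u).card ≠ 2) : G.s5 S u = 0 :=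
  K28.s5_zero fun _ h0 => h (K28.S0_card h0).1

/-- an `LL` pair with the same neighbours in `S`: the value is at most 1 -/
theorem s5_le_one {S : Finset V} {u v : V} (h : v ∈ G.pT S u) (hl : ∃ x y, G.LL u v x y)
    (hX : G.pX S v = G.pX S u) : G.s5 S u ≤ 1 := by
  classical
  unfold s5
  rw [if_neg]
  · split_ifs <;> norm_num
  · rintro ⟨w, h0, h1⟩
    have h2 := S0_v h h0
    rw [h2] at h1
    exact h1 ⟨hl, hX⟩

theorem s5_zero_LL {S : Finset V} {u v : V} (h : v ∈ G.pT S u) (hl : ∃ x y, G.LL u v x y)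
    (hX : G.pX S v = G.pX S u) (hT : G.pT S v ≠ {u}) : G.s5 S u = 0 := by
  classical
  unfold s5
  rw [if_neg, if_neg]
  · rintro ⟨w, h0, h1⟩
    have h2 := S0_v h h0
    rw [h2] at h1
    exact hT h1
  · rintro ⟨w, h0, h1⟩
    have h2 := S0_v h h0
    rw [h2] at h1
    exact h1 ⟨hl, hX⟩

theorem s5_ge_one {S : Finset V} {u v : V} (h0 : G.S0 S u v) (hT : G.pT S v = {u}) :
    1 ≤ G.s5 S u := by
  classical
  unfold s5
  split_ifs with h1 h2
  · norm_num
  · norm_num
  · exact absurd ⟨v, h0, hT⟩ h2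

theorem s5_two {S : Finset V} {u v : V} (h0 : G.S0 S u v) (hX : G.pX S v ≠ G.pX S u) :
    G.s5 S u = 2 := by
  classical
  unfold s5
  rw [if_pos ⟨v, h0, fun h => hX h.2⟩]

/-! ### a pair of ports -/

/-- a pair of ports of `K` at `M` -/
structure Pr (G : CG V) (K M : Finset V) (u v : V) : Prop where
  hK : G.IsK6 K
  fK : G.Frag K
  fM : G.Frag M
  dKM : Disjoint K M
  dNK : Disjoint (G.N K) M
  dNM : Disjoint (G.N M) K
  ap : G.APt K M u v
  NN : G.N K ∩ G.N M = {u, v}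

theorem APt_symm {K M : Finset V} {u v : V} (h : G.APt K M u v) : G.APt K M v u := by
  obtain ⟨⟨h1, h2, h3, h4, h5, ⟨q, h6, h7, h8⟩, h9, h10⟩, x, y, h11⟩ := h
  exact ⟨⟨h2, h1, h4, h3, h5.symm, ⟨q, h6, h8, h7⟩, h10, h9⟩, y, x, LL_symm76 h11⟩

theorem Pr.symm {K M : Finset V} {u v : V} (h : Pr G K M u v) : Pr G K M v u :=
  ⟨h.hK, h.fK, h.fM, h.dKM, h.dNK, h.dNM, APt_symm h.ap, by rw [h.NN, pair_comm]⟩

/-- number of neighbours of `u` in `N S` besides `v` -/
def aN (G : CG V) (S : Finset V) (u v : V) : ℕ := ((G.nb u ∩ G.N S).erase v).card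

/-- the balance of `u` -/
noncomputable def Bu (G : CG V) (K M : Finset V) (u v : V) : ℤ :=
  2 * ((aN G K u v : ℤ) + (aN G M u v : ℤ)) + (G.s5 (G.Co K) u - G.s5 K u) +
    (G.s5 (G.Co M) u - G.s5 M u)

/-- the contribution of `u` to `P5 M` -/
noncomputable def Hu (G : CG V) (M : Finset V) (u : V) : ℤ :=
  4 + 2 * ((G.d u M : ℤ) - (G.d u (G.Co M) : ℤ)) + (G.s5 M u - G.s5 (G.Co M) u)

/-- the facts on one vertex of a pair -/
structure Fa1 (G : CG V) (K M : Finset V) (u v q q' : V) : Prop where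
  lu : G.Low u
  vu : v ∈ G.nb u
  t : G.Tw q q'
  pX : G.nb u ∩ K = {q, q'}
  vK : v ∈ G.N K
  vM : v ∈ G.N M
  uK : u ∈ G.N K
  uM : u ∈ G.N M
  cK : (G.nb u ∩ G.N K).card = aN G K u v + 1
  cM : (G.nb u ∩ G.N M).card = aN G M u v + 1
  cCoM : (G.nb u ∩ G.Co M).card = aN G K u v + 2
  cCoK : (G.nb u ∩ G.Co K).card + aN G K u v = 3
  cM' : (G.nb u ∩ M).card + aN G K u v + aN G M u v = 3
  sub : G.nb u ∩ G.Co M = {q, q'} ∪ (G.nb u ∩ G.N K).erase v

theorem twoCard {q q' : V} (h : G.Tw q q') : ({q, q'} : Finset V).card = 2 :=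
  card_pair (K28.tw_ne h)

theorem Pr.fact (hC : G.Crit) (h9 : 9 ≤ Fintype.card V) {K M : Finset V} {u v : V}
    (h : Pr G K M u v) : ∃ q q', Fa1 G K M u v q q' ∧ Fa1 G K M v u q q' := by
  classical
  obtain ⟨q, hq, huq, hvq⟩ := h.ap.al.q
  obtain ⟨q', ht⟩ := h.hK.2.1 q hq
  have hq' := k6_twin16 hC h9 h.hK hq ht
  have key : ∀ u v : V, Pr G K M u v → u ∈ G.nb q → v ∈ G.nb q → Fa1 G K M u v q q' := by
    intro u v h huq hvq
    obtain ⟨x, y, hll⟩ := h.ap.ll
    have hlu : G.Low u := hll.1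
    have hvu : v ∈ G.nb u := hll.2.2.1
    have huK : u ∉ K := h.ap.al.uK
    have hvK : v ∉ K := h.ap.al.vK
    have huNK : u ∈ G.N K := mem_N76.2 ⟨huK, q, hq, huq⟩
    have hvNK : v ∈ G.N K := mem_N76.2 ⟨hvK, q, hq, hvq⟩
    have huq' : u ∈ G.nb q' := Tw_nb5 ht huq (fun e => huK (e ▸ hq'))
    have hqq : q ≠ q' := K28.tw_ne ht
    have hXK : G.nb u ∩ K = {q, q'} := by
      symm
      apply eq_of_subset_of_card_le
      · intro w hw
        rw [mem_insert, mem_singleton] at hw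
        rcases hw with rfl | rfl
        · exact mem_inter.2 ⟨G.sym _ _ huq, hq⟩
        · exact mem_inter.2 ⟨G.sym _ _ huq', hq'⟩
      · rw [K38.two hC h9 h.hK h.fK.2.1 u huNK, card_pair hqq]
    have hNN : ∀ w, w ∈ G.N K → w ∈ G.N M → w = u ∨ w = v := by
      intro w h1 h2
      have h3 : w ∈ G.N K ∩ G.N M := mem_inter.2 ⟨h1, h2⟩
      rw [h.NN, mem_insert, mem_singleton] at h3
      exact h3
    have hsub : G.nb u ∩ G.Co M = {q, q'} ∪ (G.nb u ∩ G.N K).erase v := by
      ext w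
      rw [mem_union, mem_erase, mem_inter, mem_inter, ← hXK, mem_inter]
      constructor
      · rintro ⟨h1, h2⟩
        have h3 := mem_Co76.1 h2
        rcases h.ap.al.hu w h1 with h4 | h4 | h4 | h4
        · exact Or.inl ⟨h1, h4⟩
        · exact absurd h4 h3.1
        · exact absurd h4 h3.2
        · exact Or.inr ⟨fun e => h3.2 (e ▸ h.ap.al.vN), h1, h4⟩
      · rintro (⟨h1, h2⟩ | ⟨h1, h2, h3⟩)
        · exact ⟨h1, mem_Co76.2 ⟨fun h3 => disjoint_left.1 h.dKM h2 h3,
            fun h3 => disjoint_left.1 h.dNM h3 h2⟩⟩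
        · refine ⟨h2, mem_Co76.2 ⟨fun h4 => disjoint_left.1 h.dNK h3 h4, fun h4 => ?_⟩⟩
          rcases hNN w h3 h4 with e | e
          · rw [e] at h2
            exact G.irr u h2
          · exact h1 e
    have c1 : (G.nb u ∩ G.N K).card = aN G K u v + 1 := by
      rw [aN, card_erase_of_mem (mem_inter.2 ⟨hvu, hvNK⟩)]
      have : 0 < (G.nb u ∩ G.N K).card := card_pos.2 ⟨v, mem_inter.2 ⟨hvu, hvNK⟩⟩
      omega
    have c2 : (G.nb u ∩ G.N M).card = aN G M u v + 1 := by
      rw [aN, card_erase_of_mem (mem_inter.2 ⟨hvu, h.ap.al.vN⟩)]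
      have : 0 < (G.nb u ∩ G.N M).card := card_pos.2 ⟨v, mem_inter.2 ⟨hvu, h.ap.al.vN⟩⟩
      omega
    have c3 : (G.nb u ∩ G.Co M).card = aN G K u v + 2 := by
      rw [hsub, card_union_of_disjoint, twoCard ht, aN, add_comm]
      rw [disjoint_left]
      intro w h1 h2
      rw [← hXK] at h1
      exact (mem_N76.1 (mem_inter.1 (mem_erase.1 h2).2).2).1 (mem_inter.1 h1).2
    have c4 := K28.six_low hlu K
    have c5 := K28.six_low hlu M
    rw [hXK, twoCard ht, c1] at c4
    rw [c2, c3] at c5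
    exact ⟨hlu, hvu, ht, hXK, hvNK, h.ap.al.vN, huNK, h.ap.al.uN, c1, c2, c3, by omega, by omega,
      hsub⟩
  exact ⟨q, q', key u v h huq hvq, key v u h.symm hvq huq⟩

theorem pT_one {S : Finset V} {u v : V} (hv : v ∈ G.nb u) (hN : v ∈ G.N S) (h : aN G S u v = 0) :
    G.pT S u = {v} := by
  have h1 : v ∈ G.pT S u := mem_inter.2 ⟨hv, hN⟩
  rw [aN, card_eq_zero] at h
  have h2 : (G.pT S u).erase v = ∅ := h
  rw [erase_eq_empty_iff] at h2
  rcases h2 with h2 | h2
  · rw [h2] at h1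
    exact absurd h1 (notMem_empty _)
  · exact h2

theorem pT_ne {S : Finset V} {u v : V} (h : aN G S u v ≠ 0) : G.pT S u ≠ {v} := by
  intro h1
  apply h
  have h2 : (G.pT S u).erase v = ∅ := by
    rw [h1]
    simp
  rw [aN]
  exact card_eq_zero.2 h2

/-- the two numbers of a pair -/
theorem pair97 (hC : G.Crit) (h9 : 9 ≤ Fintype.card V) {K M : Finset V} {u v : V}
    (h : Pr G K M u v) : 0 ≤ Bu G K M u v + Bu G K M v u ∧
      (Bu G K M u v + Bu G K M v u = 0 → aN G K u v = 0 ∧ aN G K v u = 0 ∧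
        Hu G M u + Hu G M v = 10) := by
  classical
  obtain ⟨q, q', fu, fv⟩ := h.fact hC h9
  have hll := h.ap.ll
  have hll' := (APt_symm h.ap).ll
  have eXK : G.pX K v = G.pX K u := by
    rw [pX, pX, fu.pX, fv.pX]
  have mvK : v ∈ G.pT K u := mem_inter.2 ⟨fu.vu, fu.vK⟩
  have muK : u ∈ G.pT K v := mem_inter.2 ⟨fv.vu, fv.vK⟩
  have mvM : v ∈ G.pT M u := mem_inter.2 ⟨fu.vu, fu.vM⟩
  have muM : u ∈ G.pT M v := mem_inter.2 ⟨fv.vu, fv.vM⟩
  have mvM' : v ∈ G.pT (G.Co M) u := by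
    rw [K28.pT_Co h.fM]
    exact mvM
  have muM' : u ∈ G.pT (G.Co M) v := by
    rw [K28.pT_Co h.fM]
    exact muM
  have hqu : q ∈ G.nb u := by
    have : q ∈ G.nb u ∩ K := by
      rw [fu.pX]
      exact mem_insert_self _ _
    exact (mem_inter.1 this).1
  have hqv : q ∈ G.nb v := by
    have : q ∈ G.nb v ∩ K := by
      rw [fv.pX]
      exact mem_insert_self _ _
    exact (mem_inter.1 this).1
  have n1 := K28.s5_nonneg (G := G) (G.Co K) u
  have n2 := K28.s5_nonneg (G := G) (G.Co K) v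
  have n3 := K28.s5_nonneg (G := G) (G.Co M) u
  have n4 := K28.s5_nonneg (G := G) (G.Co M) v
  have n5 := K28.s5_nonneg (G := G) M u
  have n6 := K28.s5_nonneg (G := G) M v
  have l1 := K28.s5_le (G := G) M u
  have l2 := K28.s5_le (G := G) M v
  have cu := fu.cM'
  have cv := fv.cM'
  have cKu := fu.cCoK
  have cKv := fv.cCoK
  have cCu := fu.cCoM
  have cCv := fv.cCoM
  by_cases hno : aN G K u v = 0 ∧ aN G K v u = 0
  · obtain ⟨a0, a0'⟩ := hno
    have tK : G.pT K u = {v} := pT_one fu.vu fu.vK a0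
    have tK' : G.pT K v = {u} := pT_one fv.vu fv.vK a0'
    -- flags of `K`
    have S0K : ∀ u v : V, Fa1 G K M u v q q' → Fa1 G K M v u q q' → aN G K u v = 0 →
        aN G K v u = 0 → G.pT K u = {v} → G.pT K v = {u} → G.S0 K u v := by
      intro u v fu fv a0 a0' tK tK'
      have hqv : q ∈ G.nb v := by
        have : q ∈ G.nb v ∩ K := by
          rw [fv.pX]
          exact mem_insert_self _ _
        exact (mem_inter.1 this).1
      refine ⟨fu.uK, fu.lu, fv.lu, tK, ⟨q, q', fu.t, fu.pX, hqv⟩, ?_⟩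
      rintro ⟨-, h1⟩
      have h2 : (G.nb v ∩ G.Co K).card = 1 := h1
      have := fv.cCoK
      omega
    have s1 : 1 ≤ G.s5 K u := s5_ge_one (S0K u v fu fv a0 a0' tK tK') tK'
    have s1' : G.s5 K u ≤ 1 := s5_le_one mvK hll eXK
    have s2 : 1 ≤ G.s5 K v := s5_ge_one (S0K v u fv fu a0' a0 tK' tK) tK
    have s2' : G.s5 K v ≤ 1 := s5_le_one muK hll' eXK.symm
    have s3 : G.s5 (G.Co K) u = 0 := by
      apply s5_zero_X
      intro h1
      have h2 : (G.nb u ∩ G.Co K).card = 2 := h1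
      omega
    have s4 : G.s5 (G.Co K) v = 0 := by
      apply s5_zero_X
      intro h1
      have h2 : (G.nb v ∩ G.Co K).card = 2 := h1
      omega
    have sM : ∀ u v : V, Fa1 G K M u v q q' → aN G K u v = 0 → G.s5 M u = 0 := by
      intro u v f a0
      by_cases hb : aN G M u v = 0
      · apply s5_zero_X
        intro h1
        have h2 : (G.nb u ∩ M).card = 2 := h1
        have := f.cM'
        omega
      · exact s5_zero_T (mem_inter.2 ⟨f.vu, f.vM⟩) (pT_ne hb)
    have s5' := sM u v fu a0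
    have s6 := sM v u fv a0'
    have dM : (G.d u M : ℤ) + (aN G M u v : ℤ) = 3 := by
      rw [d]
      exact_mod_cast (by omega : (G.nb u ∩ M).card + aN G M u v = 3)
    have dM' : (G.d v M : ℤ) + (aN G M v u : ℤ) = 3 := by
      rw [d]
      exact_mod_cast (by omega : (G.nb v ∩ M).card + aN G M v u = 3)
    have dC : (G.d u (G.Co M) : ℤ) = 2 := by
      rw [d]
      exact_mod_cast (by omega : (G.nb u ∩ G.Co M).card = 2)
    have dC' : (G.d v (G.Co M) : ℤ) = 2 := by
      rw [d]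
      exact_mod_cast (by omega : (G.nb v ∩ G.Co M).card = 2)
    have hB : Bu G K M u v + Bu G K M v u = 2 * ((aN G M u v : ℤ) + (aN G M v u : ℤ)) - 2 +
        G.s5 (G.Co M) u + G.s5 (G.Co M) v := by
      rw [Bu, Bu, a0, a0', s3, s4, s5', s6]
      push_cast
      linarith
    have hH : Hu G M u + Hu G M v = 12 - 2 * ((aN G M u v : ℤ) + (aN G M v u : ℤ)) -
        G.s5 (G.Co M) u - G.s5 (G.Co M) v := by
      rw [Hu, Hu, s5', s6, dC, dC']
      linarith
    have hpos : 2 ≤ 2 * ((aN G M u v : ℤ) + (aN G M v u : ℤ)) +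
        G.s5 (G.Co M) u + G.s5 (G.Co M) v := by
      by_cases hb : aN G M u v = 0 ∧ aN G M v u = 0
      · obtain ⟨b0, b0'⟩ := hb
        have S0M : ∀ u v : V, Fa1 G K M u v q q' → Fa1 G K M v u q q' → aN G K u v = 0 →
            aN G K v u = 0 → aN G M u v = 0 → aN G M v u = 0 → G.S0 (G.Co M) u v := by
          intro u v fu fv a0 a0' b0 b0'
          have hqv : q ∈ G.nb v := by
            have : q ∈ G.nb v ∩ K := by
              rw [fv.pX]
              exact mem_insert_self _ _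
            exact (mem_inter.1 this).1
          refine ⟨?_, fu.lu, fv.lu, ?_, ⟨q, q', fu.t, ?_, hqv⟩, ?_⟩
          · rw [(G.stCo_37 M h.fM).2.1]
            exact fu.uM
          · rw [K28.pT_Co h.fM]
            exact pT_one fu.vu fu.vM b0
          · rw [pX, fu.sub]
            have : (G.nb u ∩ G.N K).erase v = ∅ := card_eq_zero.1 a0
            rw [this, union_empty]
          · rintro ⟨-, h1⟩
            rw [K28.pO_Co h.fM] at h1
            have := fv.cM'
            omega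
        have T' : G.pT (G.Co M) v = {u} := by
          rw [K28.pT_Co h.fM]
          exact pT_one fv.vu fv.vM b0'
        have T : G.pT (G.Co M) u = {v} := by
          rw [K28.pT_Co h.fM]
          exact pT_one fu.vu fu.vM b0
        have g1 : 1 ≤ G.s5 (G.Co M) u := s5_ge_one (S0M u v fu fv a0 a0' b0 b0') T'
        have g2 : 1 ≤ G.s5 (G.Co M) v := s5_ge_one (S0M v u fv fu a0' a0 b0' b0) T
        have e1 : (0 : ℤ) ≤ (aN G M u v : ℤ) := by positivity
        have e2 : (0 : ℤ) ≤ (aN G M v u : ℤ) := by positivity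
        linarith
      · have : 1 ≤ aN G M u v + aN G M v u := by omega
        have : (1 : ℤ) ≤ (aN G M u v : ℤ) + (aN G M v u : ℤ) := by exact_mod_cast this
        linarith
    refine ⟨by rw [hB]; linarith, fun h0 => ⟨a0, a0', ?_⟩⟩
    rw [hB] at h0
    rw [hH]
    linarith
  · -- a neighbour in `N K`
    have hpos : 1 ≤ Bu G K M u v + Bu G K M v u := by
      -- the flags of `K`
      have kz : ∀ u v : V, v ∈ G.pT K u → (∃ x y, G.LL u v x y) → G.pX K v = G.pX K u →
          ¬ (aN G K u v = 0 ∧ aN G K v u = 0) → G.s5 K u = 0 := by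
        intro u v hm hl hX hno
        by_cases ha : aN G K u v = 0
        · exact s5_zero_LL hm hl hX (pT_ne (fun h => hno ⟨ha, h⟩))
        · exact s5_zero_T hm (pT_ne ha)
      have k1 := kz u v mvK hll eXK hno
      have k2 := kz v u muK hll' eXK.symm (fun h => hno ⟨h.2, h.1⟩)
      -- a flag of `M`
      have mz : ∀ u v : V, Fa1 G K M u v q q' → G.s5 M u ≠ 0 → aN G K u v = 1 ∧ aN G M u v = 0 ∧
          ∃ r r', G.Tw r r' ∧ G.pX M u = {r, r'} ∧ r ∈ G.nb v := by
        intro u v f hs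
        have hm : v ∈ G.pT M u := mem_inter.2 ⟨f.vu, f.vM⟩
        have hb : aN G M u v = 0 := by
          by_contra hb
          exact hs (s5_zero_T hm (pT_ne hb))
        have hX : (G.pX M u).card = 2 := by
          by_contra hX
          exact hs (s5_zero_X hX)
        have hX' : (G.nb u ∩ M).card = 2 := hX
        have := f.cM'
        refine ⟨by omega, hb, ?_⟩
        by_contra hno2
        apply hs
        apply K28.s5_zero
        intro w h0
        have h1 := S0_v hm h0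
        rw [h1] at h0
        obtain ⟨r, r', e1, e2, e3⟩ := h0.2.2.2.2.1
        exact hno2 ⟨r, r', e1, e2, e3⟩
      have tot : 1 ≤ aN G K u v + aN G K v u := by omega
      have tot' : (1 : ℤ) ≤ (aN G K u v : ℤ) + (aN G K v u : ℤ) := by exact_mod_cast tot
      have p1 : (0 : ℤ) ≤ (aN G M u v : ℤ) := by positivity
      have p2 : (0 : ℤ) ≤ (aN G M v u : ℤ) := by positivity
      have p3 : (0 : ℤ) ≤ (aN G K u v : ℤ) := by positivity
      have p4 : (0 : ℤ) ≤ (aN G K v u : ℤ) := by positivity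
      rw [Bu, Bu, k1, k2]
      -- one flag only
      have one : ∀ u v : V, Fa1 G K M u v q q' → Fa1 G K M v u q q' → G.s5 M u ≠ 0 →
          G.s5 M v = 0 → 2 ≤ 2 * ((aN G K v u : ℤ) + (aN G M v u : ℤ)) + G.s5 (G.Co M) v := by
        intro u v fu fv hs hs'
        have n4 := K28.s5_nonneg (G := G) (G.Co M) v
        obtain ⟨x1, x2, r, r', x3, x4, x5⟩ := mz u v fu hs
        by_cases hv : aN G K v u = 0 ∧ aN G M v u = 0
        · obtain ⟨y1, y2⟩ := hv
          have hqu : q ∈ G.nb u := by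
            have : q ∈ G.nb u ∩ K := by
              rw [fu.pX]
              exact mem_insert_self _ _
            exact (mem_inter.1 this).1
          have S0 : G.S0 (G.Co M) v u := by
            refine ⟨?_, fv.lu, fu.lu, ?_, ⟨q, q', fv.t, ?_, hqu⟩, ?_⟩
            · rw [(G.stCo_37 M h.fM).2.1]
              exact fv.uM
            · rw [K28.pT_Co h.fM]
              exact pT_one fv.vu fv.vM y2
            · rw [pX, fv.sub]
              have : (G.nb v ∩ G.N K).erase u = ∅ := card_eq_zero.1 y1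
              rw [this, union_empty]
            · rintro ⟨-, h1⟩
              rw [K28.pO_Co h.fM] at h1
              have h2 : (G.nb u ∩ M).card = 2 := by
                have h3 : G.nb u ∩ M = {r, r'} := x4
                rw [h3, twoCard x3]
              omega
          have := s5_two S0 (by
            intro e
            have e1 : (G.pX (G.Co M) u).card = 3 := by
              have : (G.nb u ∩ G.Co M).card = 3 := by
                have := fu.cCoM
                omega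
              exact this
            have e2 : (G.pX (G.Co M) v).card = 2 := by
              have : (G.nb v ∩ G.Co M).card = 2 := by
                have := fv.cCoM
                omega
              exact this
            rw [e] at e1
            omega)
          rw [this, y1, y2]
          norm_num
        · have : 1 ≤ aN G K v u + aN G M v u := by omega
          have : (1 : ℤ) ≤ (aN G K v u : ℤ) + (aN G M v u : ℤ) := by exact_mod_cast this
          linarith
      by_cases z1 : G.s5 M u = 0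
      · by_cases z2 : G.s5 M v = 0
        · rw [z1, z2]
          linarith
        · have h3 := one v u fv fu z2 z1
          obtain ⟨x1, x2, -⟩ := mz v u fv z2
          rw [z1]
          rw [x1, x2]
          push_cast
          linarith
      · by_cases z2 : G.s5 M v = 0
        · have h3 := one u v fu fv z1 z2
          obtain ⟨x1, x2, -⟩ := mz u v fu z1
          rw [z2]
          rw [x1, x2]
          push_cast
          linarith
        · obtain ⟨x1, x2, r, r', x3, x4, x5⟩ := mz u v fu z1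
          obtain ⟨y1, y2, s, s', y3, y4, y5⟩ := mz v u fv z2
          have hXM : G.pX M v = G.pX M u := by
            have hrM : r ∈ M := by
              have : r ∈ G.pX M u := by
                rw [x4]
                exact mem_insert_self _ _
              exact (mem_inter.1 this).2
            have hr : r ∈ G.pX M v := mem_inter.2 ⟨x5, hrM⟩
            rw [y4, mem_insert, mem_singleton] at hr
            rw [x4, y4]
            rcases hr with hr | hr
            · rw [hr] at x3 ⊢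
              rw [uniq_5 h9 x3 y3]
            · rw [hr] at x3 ⊢
              rw [uniq_5 h9 x3 (symm_5 y3), pair_comm]
          have m1 := s5_le_one mvM hll hXM
          have m2 := s5_le_one muM hll' hXM.symm
          rw [x1, y1, x2, y2]
          push_cast
          linarith
    refine ⟨by linarith, fun h0 => ?_⟩
    rw [h0] at hpos
    norm_num at hpos

/-- the balance of a port of `K` and `M` -/
theorem bal_port (h9 : 9 ≤ Fintype.card V) {K M : Finset V} {u v q q' : V} (hKM : K ≠ M)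
    (f : Fa1 G K M u v q q') (fK : G.Frag K) (fM : G.Frag M) (hlv : G.Low v)
    (hI : G.I Fa u = {K, M}) (hIv : G.I Fa v = {K, M})
    (hR : ∀ w ∈ G.nR Fa u, w = v ∨ (w ∈ G.N K ∧ w ∉ G.N M) ∨ (w ∉ G.N K ∧ w ∈ G.N M))
    (hN : ∀ w, w ∈ G.N K ∨ w ∈ G.N M → w ∈ R Fa) (hK : K ∈ Fa) (hM : M ∈ Fa) :
    G.bal5 Fa u = Bu G K M u v := by
  classical
  have hmem : ∀ w ∈ G.nb u, w ∈ G.N K ∨ w ∈ G.N M → w ∈ G.nR Fa u := fun w h1 h2 =>
    mem_inter.2 ⟨h1, hN w h2⟩
  have hdisj : Disjoint ((G.nb u ∩ G.N K).erase v) ((G.nb u ∩ G.N M).erase v) := by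
    rw [disjoint_left]
    intro w h1 h2
    rw [mem_erase, mem_inter] at h1 h2
    rcases hR w (hmem w h1.2.1 (Or.inl h1.2.2)) with h3 | h3 | h3
    · exact h1.1 h3
    · exact h3.2 h2.2.2
    · exact h3.1 h1.2.2
  have hnR : G.nR Fa u = insert v ((G.nb u ∩ G.N K).erase v ∪ (G.nb u ∩ G.N M).erase v) := by
    ext w
    rw [mem_insert, mem_union, mem_erase, mem_erase, mem_inter, mem_inter]
    constructor
    · intro h1
      have h2 := (mem_inter.1 h1).1
      by_cases hw : w = v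
      · exact Or.inl hw
      · rcases hR w h1 with h3 | h3 | h3
        · exact Or.inl h3
        · exact Or.inr (Or.inl ⟨hw, h2, h3.1⟩)
        · exact Or.inr (Or.inr ⟨hw, h2, h3.2⟩)
    · rintro (rfl | ⟨-, h1, h2⟩ | ⟨-, h1, h2⟩)
      · exact hmem _ f.vu (Or.inl f.vK)
      · exact hmem _ h1 (Or.inl h2)
      · exact hmem _ h1 (Or.inr h2)
  have hm : ∀ w ∈ ((G.nb u ∩ G.N K).erase v ∪ (G.nb u ∩ G.N M).erase v),
      (2 - (G.m Fa w u : ℤ)) = 1 := by
    intro w hw
    have hw1 : w ∈ G.nR Fa u := by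
      rw [hnR]
      exact mem_insert_of_mem hw
    have hwv : w ≠ v := by
      rw [mem_union, mem_erase, mem_erase] at hw
      rcases hw with hw | hw
      · exact hw.1
      · exact hw.1
    have h1 : G.m Fa w u = 1 := by
      rw [m, hI]
      rcases hR w hw1 with h3 | h3 | h3
      · exact absurd h3 hwv
      · have : G.I Fa w ∩ {K, M} = {K} := by
          ext B
          rw [mem_inter, mem_I76, mem_insert, mem_singleton, mem_singleton]
          constructor
          · rintro ⟨⟨-, h4⟩, h5 | h5⟩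
            · exact h5
            · rw [h5] at h4
              exact absurd h4 h3.2
          · rintro rfl
            exact ⟨⟨hK, h3.1⟩, Or.inl rfl⟩
        rw [this, card_singleton]
      · have : G.I Fa w ∩ {K, M} = {M} := by
          ext B
          rw [mem_inter, mem_I76, mem_insert, mem_singleton]
          constructor
          · rintro ⟨⟨-, h4⟩, h5 | h5⟩
            · rw [h5] at h4
              exact absurd h4 h3.1
            · exact h5
          · rintro rfl
            exact ⟨⟨hM, h3.2⟩, Or.inr rfl⟩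
        rw [this, card_singleton]
    rw [h1]
    norm_num
  have hmv : (G.m Fa v u : ℤ) = 2 := by
    rw [m, hI, hIv, inter_self, card_pair hKM]
    norm_num
  have hvn : v ∉ ((G.nb u ∩ G.N K).erase v ∪ (G.nb u ∩ G.N M).erase v) := by
    rw [mem_union, mem_erase, mem_erase]
    rintro (h | h)
    · exact h.1 rfl
    · exact h.1 rfl
  have mvK : v ∈ G.pT K u := mem_inter.2 ⟨f.vu, f.vK⟩
  have mvM : v ∈ G.pT M u := mem_inter.2 ⟨f.vu, f.vM⟩
  have mvK' : v ∈ G.pT (G.Co K) u := by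
    rw [K28.pT_Co fK]
    exact mvK
  have mvM' : v ∈ G.pT (G.Co M) u := by
    rw [K28.pT_Co fM]
    exact mvM
  have hlu := f.lu
  have hc : c5 G u = 2 := by
    rw [c5, if_pos hlu]
  rw [bal5, hI, card_pair hKM, sum_pair hKM, hnR, sum_insert hvn, sum_congr rfl hm, hmv, hc,
    sum_const, card_union_of_disjoint hdisj, flv_s5 h9 hlu hlv mvK, flv_s5 h9 hlu hlv mvM,
    flv_s5 h9 hlu hlv mvK', flv_s5 h9 hlu hlv mvM', Bu, aN, aN, nsmul_eq_mul]
  push_cast
  ring

/-! ### the whole torso -/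

/-- the data of a torso which consists of ports -/
structure Dt (G : CG V) (Fb Ks Ms : Finset (Finset V)) (Q : Finset V → Finset V → V × V) :
    Prop where
  reg : G.Reg Fb
  un : Fb = Ks ∪ Ms
  dj : Disjoint Ks Ms
  k3 : Ks.card = 3
  m3 : Ms.card = 3
  k6 : ∀ K ∈ Ks, G.IsK6 K
  ap : ∀ K ∈ Ks, ∀ M ∈ Ms, G.APt K M (Q K M).1 (Q K M).2

namespace Dt

variable {Fb Ks Ms : Finset (Finset V)} {Q : Finset V → Finset V → V × V}

theorem Km (D : Dt G Fb Ks Ms Q) {K : Finset V} (h : K ∈ Ks) : K ∈ Fb := by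
  rw [D.un]
  exact mem_union_left _ h

theorem Mm (D : Dt G Fb Ks Ms Q) {M : Finset V} (h : M ∈ Ms) : M ∈ Fb := by
  rw [D.un]
  exact mem_union_right _ h

theorem ne (D : Dt G Fb Ks Ms Q) {K M : Finset V} (h : K ∈ Ks) (h' : M ∈ Ms) : K ≠ M :=
  fun e => disjoint_left.1 D.dj h (e ▸ h')

theorem I_port (D : Dt G Fb Ks Ms Q) {K M : Finset V} (hK : K ∈ Ks) (hM : M ∈ Ms) {u v : V}
    (h : G.APt K M u v) : G.I Fb u = {K, M} := by
  obtain ⟨q, hq, huq, -⟩ := h.al.q
  ext B
  rw [mem_I76, mem_insert, mem_singleton]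
  constructor
  · rintro ⟨hB, hu⟩
    obtain ⟨-, w, hw, hwu⟩ := mem_N76.1 hu
    by_contra hno
    push Not at hno
    rcases h.al.hu w (G.sym _ _ hwu) with h1 | h1 | h1 | h1
    · exact disjoint_left.1 (D.reg.dis B hB K (D.Km hK) hno.1).1 hw h1
    · exact disjoint_left.1 (D.reg.dis B hB M (D.Mm hM) hno.2).1 hw h1
    · exact disjoint_left.1 (D.reg.dis M (D.Mm hM) B hB hno.2.symm).2 h1 hw
    · exact disjoint_left.1 (D.reg.dis K (D.Km hK) B hB hno.1.symm).2 h1 hw
  · rintro (rfl | rfl)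
    · exact ⟨D.Km hK, mem_N76.2 ⟨h.al.uK, q, hq, huq⟩⟩
    · exact ⟨D.Mm hM, h.al.uN⟩

/-- the set of the two ports -/
def P (Q : Finset V → Finset V → V × V) (K M : Finset V) : Finset V := {(Q K M).1, (Q K M).2}

theorem I_P (D : Dt G Fb Ks Ms Q) {K M : Finset V} (hK : K ∈ Ks) (hM : M ∈ Ms) {w : V}
    (h : w ∈ P Q K M) : G.I Fb w = {K, M} := by
  rw [P, mem_insert, mem_singleton] at h
  rcases h with rfl | rfl
  · exact D.I_port hK hM (D.ap K hK M hM)
  · exact D.I_port hK hM (APt_symm (D.ap K hK M hM))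

theorem card_P (D : Dt G Fb Ks Ms Q) {K M : Finset V} (hK : K ∈ Ks) (hM : M ∈ Ms) :
    (P Q K M).card = 2 := card_pair (D.ap K hK M hM).al.ne

theorem P_eq (D : Dt G Fb Ks Ms Q) {K M K' M' : Finset V} (hK : K ∈ Ks) (hM : M ∈ Ms)
    (hK' : K' ∈ Ks) (hM' : M' ∈ Ms) {w : V} (h : w ∈ P Q K M) (h' : w ∈ P Q K' M') :
    K = K' ∧ M = M' := by
  have h1 := D.I_P hK hM h
  rw [D.I_P hK' hM' h'] at h1
  have h2 : K ∈ ({K', M'} : Finset (Finset V)) := by
    rw [h1]
    exact mem_insert_self _ _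
  have h3 : M ∈ ({K', M'} : Finset (Finset V)) := by
    rw [h1]
    exact mem_insert_of_mem (mem_singleton_self _)
  rw [mem_insert, mem_singleton] at h2 h3
  refine ⟨?_, ?_⟩
  · rcases h2 with h2 | h2
    · exact h2
    · exact absurd h2 (D.ne hK hM')
  · rcases h3 with h3 | h3
    · exact absurd h3.symm (D.ne hK' hM)
    · exact h3

theorem N_K (D : Dt G Fb Ks Ms Q) {K : Finset V} (hK : K ∈ Ks) :
    Ms.biUnion (fun M => P Q K M) = G.N K := by
  classical
  apply eq_of_subset_of_card_le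
  · intro w hw
    obtain ⟨M, hM, h1⟩ := mem_biUnion.1 hw
    have h2 : K ∈ G.I Fb w := by
      rw [D.I_P hK hM h1]
      exact mem_insert_self _ _
    exact (mem_I76.1 h2).2
  · rw [card_biUnion]
    · rw [sum_congr rfl fun M hM => D.card_P hK hM, sum_const, D.m3,
        (D.reg.frag K (D.Km hK)).2.1]
      norm_num
    · intro M hM M' hM' hne
      rw [Function.onFun, disjoint_left]
      intro w h1 h2
      exact hne (D.P_eq hK hM hK hM' h1 h2).2

theorem N_M (D : Dt G Fb Ks Ms Q) {M : Finset V} (hM : M ∈ Ms) :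
    Ks.biUnion (fun K => P Q K M) = G.N M := by
  classical
  apply eq_of_subset_of_card_le
  · intro w hw
    obtain ⟨K, hK, h1⟩ := mem_biUnion.1 hw
    have h2 : M ∈ G.I Fb w := by
      rw [D.I_P hK hM h1]
      exact mem_insert_of_mem (mem_singleton_self _)
    exact (mem_I76.1 h2).2
  · rw [card_biUnion]
    · rw [sum_congr rfl fun K hK => D.card_P hK hM, sum_const, D.k3,
        (D.reg.frag M (D.Mm hM)).2.1]
      norm_num
    · intro K hK K' hK' hne
      rw [Function.onFun, disjoint_left]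
      intro w h1 h2
      exact hne (D.P_eq hK hM hK' hM h1 h2).1

/-- every vertex in a neighbourhood is a port -/
theorem port_of_I (D : Dt G Fb Ks Ms Q) {B : Finset V} (hB : B ∈ Fb) {w : V} (h : w ∈ G.N B) :
    ∃ K ∈ Ks, ∃ M ∈ Ms, w ∈ P Q K M := by
  rw [D.un, mem_union] at hB
  rcases hB with hB | hB
  · rw [← D.N_K hB] at h
    obtain ⟨M, hM, h1⟩ := mem_biUnion.1 h
    exact ⟨B, hB, M, hM, h1⟩
  · rw [← D.N_M hB] at h
    obtain ⟨K, hK, h1⟩ := mem_biUnion.1 h
    exact ⟨K, hK, B, hB, h1⟩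

theorem ap' (D : Dt G Fb Ks Ms Q) {K M : Finset V} (hK : K ∈ Ks) (hM : M ∈ Ms) {w : V}
    (h : w ∈ P Q K M) : ∃ w', G.APt K M w w' ∧ w' ∈ P Q K M := by
  rw [P, mem_insert, mem_singleton] at h
  rcases h with rfl | rfl
  · exact ⟨_, D.ap K hK M hM, by rw [P]; exact mem_insert_of_mem (mem_singleton_self _)⟩
  · exact ⟨_, APt_symm (D.ap K hK M hM), by rw [P]; exact mem_insert_self _ _⟩

/-- `R` consists of the ports -/
theorem R_port (D : Dt G Fb Ks Ms Q) {w : V} (h : w ∈ R Fb) :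
    ∃ K ∈ Ks, ∃ M ∈ Ms, w ∈ P Q K M := by
  classical
  by_contra hno
  set Z : Finset V := (R Fb).filter fun z => G.I Fb z = ∅ with hZ
  have hwZ : w ∈ Z := by
    rw [hZ, mem_filter]
    refine ⟨h, ?_⟩
    rw [eq_empty_iff_forall_notMem]
    intro B hB
    obtain ⟨h1, h2⟩ := mem_I76.1 hB
    exact hno (D.port_of_I h1 h2)
  have hcl : ∀ z ∈ Z, G.nb z ⊆ Z ∪ ∅ := by
    intro z hz y hy
    rw [union_empty, hZ, mem_filter]
    rw [hZ, mem_filter] at hz
    have hyR : y ∈ R Fb := by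
      rw [mem_R76]
      intro B hB hyB
      have h1 : B ∈ G.I Fb z := mem_I76.2 ⟨hB, mem_N76.2 ⟨mem_R76.1 hz.1 B hB, y, hyB,
        G.sym _ _ hy⟩⟩
      rw [hz.2] at h1
      exact absurd h1 (notMem_empty _)
    refine ⟨hyR, ?_⟩
    by_contra hne
    obtain ⟨B, hB⟩ := nonempty_iff_ne_empty.2 hne
    obtain ⟨h1, h2⟩ := mem_I76.1 hB
    obtain ⟨K, hK, M, hM, h3⟩ := D.port_of_I h1 h2
    obtain ⟨y', h4, -⟩ := D.ap' hK hM h3
    have hz' : ∀ B ∈ Fb, z ∉ G.N B := by
      intro B hB hzB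
      have : B ∈ G.I Fb z := mem_I76.2 ⟨hB, hzB⟩
      rw [hz.2] at this
      exact absurd this (notMem_empty _)
    have hzR := mem_R76.1 hz.1
    rcases h4.al.hu z (G.sym _ _ hy) with h5 | h5 | h5 | h5
    · exact hzR K (D.Km hK) h5
    · exact hzR M (D.Mm hM) h5
    · exact hz' M (D.Mm hM) h5
    · exact hz' K (D.Km hK) h5
  have hK0 : Ks.Nonempty := by
    rw [← card_pos, D.k3]
    norm_num
  obtain ⟨K, hK⟩ := hK0
  obtain ⟨k, hk⟩ := (D.reg.frag K (D.Km hK)).1
  have h6 := G.conn Z ∅ ⟨w, hwZ⟩ (disjoint_empty_right _) hcl ⟨k, by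
    rw [union_empty, hZ, mem_filter]
    rintro ⟨h1, -⟩
    exact mem_R76.1 h1 K (D.Km hK) hk⟩
  simp at h6

theorem NN (D : Dt G Fb Ks Ms Q) {K M : Finset V} (hK : K ∈ Ks) (hM : M ∈ Ms) :
    G.N K ∩ G.N M = {(Q K M).1, (Q K M).2} := by
  ext w
  constructor
  · intro h
    rw [mem_inter] at h
    obtain ⟨K', hK', M', hM', h1⟩ := D.port_of_I (D.Km hK) h.1
    have h2 := D.I_P hK' hM' h1
    have h3 : K ∈ G.I Fb w := mem_I76.2 ⟨D.Km hK, h.1⟩
    have h4 : M ∈ G.I Fb w := mem_I76.2 ⟨D.Mm hM, h.2⟩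
    rw [h2, mem_insert, mem_singleton] at h3 h4
    have h5 : K = K' := by
      rcases h3 with h3 | h3
      · exact h3
      · exact absurd h3 (D.ne hK hM')
    have h6 : M = M' := by
      rcases h4 with h4 | h4
      · exact absurd h4.symm (D.ne hK' hM)
      · exact h4
    rw [h5, h6]
    exact h1
  · intro h
    have h1 : w ∈ P Q K M := h
    have h2 := D.I_P hK hM h1
    have h3 : K ∈ G.I Fb w := by
      rw [h2]
      exact mem_insert_self _ _
    have h4 : M ∈ G.I Fb w := by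
      rw [h2]
      exact mem_insert_of_mem (mem_singleton_self _)
    exact mem_inter.2 ⟨(mem_I76.1 h3).2, (mem_I76.1 h4).2⟩

theorem pr (D : Dt G Fb Ks Ms Q) {K M : Finset V} (hK : K ∈ Ks) (hM : M ∈ Ms) :
    Pr G K M (Q K M).1 (Q K M).2 :=
  ⟨D.k6 K hK, D.reg.frag K (D.Km hK), D.reg.frag M (D.Mm hM),
    (D.reg.dis K (D.Km hK) M (D.Mm hM) (D.ne hK hM)).1,
    (D.reg.dis K (D.Km hK) M (D.Mm hM) (D.ne hK hM)).2,
    (D.reg.dis M (D.Mm hM) K (D.Km hK) (D.ne hK hM).symm).2, D.ap K hK M hM, D.NN hK hM⟩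

theorem bal (D : Dt G Fb Ks Ms Q) (hC : G.Crit) (h9 : 9 ≤ Fintype.card V) {K M : Finset V}
    (hK : K ∈ Ks) (hM : M ∈ Ms) :
    G.bal5 Fb (Q K M).1 = Bu G K M (Q K M).1 (Q K M).2 ∧
      G.bal5 Fb (Q K M).2 = Bu G K M (Q K M).2 (Q K M).1 := by
  have hp := D.pr hK hM
  obtain ⟨q, q', fu, fv⟩ := hp.fact hC h9
  have h1 : (Q K M).1 ∈ P Q K M := mem_insert_self _ _
  have h2 : (Q K M).2 ∈ P Q K M := mem_insert_of_mem (mem_singleton_self _)
  have hN : ∀ w, w ∈ G.N K ∨ w ∈ G.N M → w ∈ R Fb := by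
    rintro w (h | h)
    · exact N_sub_R76 D.reg (D.Km hK) h
    · exact N_sub_R76 D.reg (D.Mm hM) h
  have key : ∀ u v : V, G.APt K M u v → P Q K M = {u, v} → ∀ w ∈ G.nR Fb u,
      w = v ∨ (w ∈ G.N K ∧ w ∉ G.N M) ∨ (w ∉ G.N K ∧ w ∈ G.N M) := by
    intro u v ha hP w hw
    obtain ⟨hwu, hwR⟩ := mem_inter.1 hw
    by_cases hb : w ∈ G.N K ∧ w ∈ G.N M
    · left
      have h3 : w ∈ G.N K ∩ G.N M := mem_inter.2 hb
      have h4 : w ∈ P Q K M := by
        rw [D.NN hK hM] at h3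
        exact h3
      rw [hP, mem_insert, mem_singleton] at h4
      rcases h4 with h4 | h4
      · rw [h4] at hwu
        exact absurd hwu (G.irr u)
      · exact h4
    · right
      have hR := mem_R76.1 hwR
      rcases ha.al.hu w hwu with h3 | h3 | h3 | h3
      · exact absurd h3 (hR K (D.Km hK))
      · exact absurd h3 (hR M (D.Mm hM))
      · exact Or.inr ⟨fun h4 => hb ⟨h4, h3⟩, h3⟩
      · exact Or.inl ⟨h3, fun h4 => hb ⟨h3, h4⟩⟩
  have ha := D.ap K hK M hM
  refine ⟨bal_port h9 (D.ne hK hM) fu hp.fK hp.fM fv.lu (D.I_P hK hM h1) (D.I_P hK hM h2)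
    (key _ _ ha rfl) hN (D.Km hK) (D.Mm hM), bal_port h9 (D.ne hK hM) fv hp.fK hp.fM fu.lu
    (D.I_P hK hM h2) (D.I_P hK hM h1) (key _ _ (APt_symm ha) (pair_comm _ _)) hN (D.Km hK)
    (D.Mm hM)⟩

/-- the sum of the balances -/
theorem sumR (D : Dt G Fb Ks Ms Q) (f : V → ℤ) :
    ∑ z ∈ R Fb, f z = ∑ p ∈ Ks ×ˢ Ms, (f (Q p.1 p.2).1 + f (Q p.1 p.2).2) := by
  classical
  have hR : R Fb = (Ks ×ˢ Ms).biUnion (fun p => P Q p.1 p.2) := by
    ext w
    rw [mem_biUnion]
    constructor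
    · intro h
      obtain ⟨K, hK, M, hM, h1⟩ := D.R_port h
      exact ⟨(K, M), mem_product.2 ⟨hK, hM⟩, h1⟩
    · rintro ⟨⟨K, M⟩, hp, h1⟩
      rw [mem_product] at hp
      have h3 : K ∈ G.I Fb w := by
        rw [D.I_P hp.1 hp.2 h1]
        exact mem_insert_self _ _
      exact N_sub_R76 D.reg (D.Km hp.1) (mem_I76.1 h3).2
  rw [hR, sum_biUnion]
  · refine sum_congr rfl fun p hp => ?_
    rw [mem_product] at hp
    exact sum_pair (D.ap _ hp.1 _ hp.2).al.ne
  · intro p hp p' hp' hne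
    rw [mem_coe, mem_product] at hp hp'
    rw [Function.onFun, disjoint_left]
    intro w h1 h2
    obtain ⟨e1, e2⟩ := D.P_eq hp.1 hp.2 hp'.1 hp'.2 h1 h2
    exact hne (Prod.ext e1 e2)

/-- the sum over `N M` -/
theorem sumN (D : Dt G Fb Ks Ms Q) {M : Finset V} (hM : M ∈ Ms) (f : V → ℤ) :
    ∑ z ∈ G.N M, f z = ∑ K ∈ Ks, (f (Q K M).1 + f (Q K M).2) := by
  classical
  rw [← D.N_M hM, sum_biUnion]
  · refine sum_congr rfl fun K hK => ?_
    exact sum_pair (D.ap _ hK _ hM).al.ne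
  · intro K hK K' hK' hne
    rw [Function.onFun, disjoint_left]
    intro w h1 h2
    exact hne (D.P_eq hK hM hK' hM h1 h2).1

/-- the sum of the balances is 0: all pairs are regular -/
theorem all0 (D : Dt G Fb Ks Ms Q) (hC : G.Crit) (h9 : 9 ≤ Fintype.card V)
    (h0 : ∑ z ∈ R Fb, G.bal5 Fb z = 0) : ∀ K ∈ Ks, ∀ M ∈ Ms,
      aN G K (Q K M).1 (Q K M).2 = 0 ∧ aN G K (Q K M).2 (Q K M).1 = 0 ∧
        Hu G M (Q K M).1 + Hu G M (Q K M).2 = 10 := by
  rw [D.sumR] at h0
  have hnn : ∀ p ∈ Ks ×ˢ Ms, 0 ≤ G.bal5 Fb (Q p.1 p.2).1 + G.bal5 Fb (Q p.1 p.2).2 := by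
    intro p hp
    rw [mem_product] at hp
    obtain ⟨e1, e2⟩ := D.bal hC h9 hp.1 hp.2
    rw [e1, e2]
    exact (pair97 hC h9 (D.pr hp.1 hp.2)).1
  intro K hK M hM
  have h1 := (sum_eq_zero_iff_of_nonneg hnn).1 h0 (K, M) (mem_product.2 ⟨hK, hM⟩)
  obtain ⟨e1, e2⟩ := D.bal hC h9 hK hM
  refine (pair97 hC h9 (D.pr hK hM)).2 ?_
  rw [← e1, ← e2]
  exact h1

/-- `P5` of a member is 2 modulo 4 -/
theorem P5_mod (D : Dt G Fb Ks Ms Q) (hC : G.Crit) (h9 : 9 ≤ Fintype.card V)
    (h0 : ∑ z ∈ R Fb, G.bal5 Fb z = 0) {M : Finset V} (hM : M ∈ Ms) :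
    ∃ k : ℤ, G.P5 M = 4 * k + 30 := by
  classical
  have h1 := D.all0 hC h9 h0
  have hsum : ∑ w ∈ G.N M, (G.a5 w + G.c5 w * ((G.d w M : ℤ) - (G.d w (G.Co M) : ℤ)) +
      (G.flv M w - G.flv (G.Co M) w)) = 30 := by
    rw [D.sumN hM]
    have h2 : ∀ K ∈ Ks, (G.a5 (Q K M).1 + G.c5 (Q K M).1 * ((G.d (Q K M).1 M : ℤ) -
        (G.d (Q K M).1 (G.Co M) : ℤ)) + (G.flv M (Q K M).1 - G.flv (G.Co M) (Q K M).1)) +
        (G.a5 (Q K M).2 + G.c5 (Q K M).2 * ((G.d (Q K M).2 M : ℤ) -
        (G.d (Q K M).2 (G.Co M) : ℤ)) + (G.flv M (Q K M).2 - G.flv (G.Co M) (Q K M).2)) =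
        10 := by
      intro K hK
      obtain ⟨-, -, h3⟩ := h1 K hK M hM
      have hp := D.pr hK hM
      obtain ⟨q, q', fu, fv⟩ := hp.fact hC h9
      have mvM : (Q K M).2 ∈ G.pT M (Q K M).1 := mem_inter.2 ⟨fu.vu, fu.vM⟩
      have muM : (Q K M).1 ∈ G.pT M (Q K M).2 := mem_inter.2 ⟨fv.vu, fv.vM⟩
      have mvM' : (Q K M).2 ∈ G.pT (G.Co M) (Q K M).1 := by
        rw [K28.pT_Co hp.fM]
        exact mvM
      have muM' : (Q K M).1 ∈ G.pT (G.Co M) (Q K M).2 := by
        rw [K28.pT_Co hp.fM]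
        exact muM
      rw [flv_s5 h9 fu.lu fv.lu mvM, flv_s5 h9 fu.lu fv.lu mvM', flv_s5 h9 fv.lu fu.lu muM,
        flv_s5 h9 fv.lu fu.lu muM', a5, c5, a5, c5, if_pos fu.lu, if_pos fu.lu, if_pos fv.lu,
        if_pos fv.lu]
      rw [Hu, Hu] at h3
      exact h3
    rw [sum_congr rfl h2, sum_const, D.k3]
    norm_num
  have h4 : ∃ k : ℤ, ∑ v ∈ M, 2 * G.a5 v = 4 * k := by
    refine ⟨∑ v ∈ M, (if G.Low v then 2 else -1), ?_⟩
    rw [mul_sum]
    refine sum_congr rfl fun v _ => ?_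
    rw [a5]
    split_ifs <;> norm_num
  obtain ⟨k, hk⟩ := h4
  exact ⟨k, by rw [P5, hsum, hk]⟩

end Dt

end P97

open P97

variable {G : CG V} {Fa : Finset (Finset V)} {F : Finset V}

/-- two ordinary members, three `K6`'s, all ports regular, balance 0: the ordinary members have at
least 6 -/
theorem k33_97 (hC : G.Crit) (h9 : 9 ≤ Fintype.card V) (T : G.Tor F Fa)
    (hF : G.Frag F) (hb : (G.ordS Fa).card = 2) (hk : (G.k6S Fa).card = 3)
    (hA : ∀ K ∈ G.k6S Fa, ∀ M ∈ insert (G.Co F) (G.ordS Fa), ∃ u v, G.APt K M u v)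
    (hV : ∑ z ∈ R (insert (G.Co F) Fa), G.bal5 (insert (G.Co F) Fa) z = 0)
    (hW : ∀ B ∈ G.ordS Fa, 4 ≤ G.WS B) : ∀ B ∈ G.ordS Fa, 6 ≤ G.WS B := by
  classical
  obtain ⟨v0, hv0⟩ := hF.1
  have : Nonempty V := ⟨v0⟩
  have hA' : ∀ K M, ∃ p : V × V, K ∈ G.k6S Fa → M ∈ insert (G.Co F) (G.ordS Fa) →
      G.APt K M p.1 p.2 := by
    intro K M
    by_cases h : K ∈ G.k6S Fa ∧ M ∈ insert (G.Co F) (G.ordS Fa)
    · obtain ⟨u, v, h1⟩ := hA K h.1 M h.2
      exact ⟨(u, v), fun _ _ => h1⟩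
    · exact ⟨(v0, v0), fun h1 h2 => absurd ⟨h1, h2⟩ h⟩
  choose Q hQ using hA'
  have hdj : Disjoint (G.k6S Fa) (insert (G.Co F) (G.ordS Fa)) := by
    rw [disjoint_left]
    intro K h1 h2
    rw [mem_insert] at h2
    rcases h2 with h2 | h2
    · exact T.notin (h2 ▸ (mem_k6S.1 h1).1)
    · exact (mem_ordS.1 h2).2 (mem_k6S.1 h1).2
  have hun : insert (G.Co F) Fa = G.k6S Fa ∪ insert (G.Co F) (G.ordS Fa) := by
    ext B
    rw [mem_insert, mem_union, mem_insert, mem_k6S, mem_ordS]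
    tauto
  have D : Dt G (insert (G.Co F) Fa) (G.k6S Fa) (insert (G.Co F) (G.ordS Fa)) Q := by
    refine ⟨T.reg, hun, hdj, hk, ?_, fun K h => (mem_k6S.1 h).2, fun K h M h' => hQ K M h h'⟩
    rw [card_insert_of_notMem, hb]
    intro h
    exact T.notin (mem_ordS.1 h).1
  intro B hB
  have hM : B ∈ insert (G.Co F) (G.ordS Fa) := mem_insert_of_mem hB
  obtain ⟨k, hk5⟩ := D.P5_mod hC h9 hV hM
  have hgood := (T.good B (mem_ordS.1 hB).1).1
  -- the weights
  have hbad : ∀ w ∈ G.N B, G.thS B w = 0 := by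
    intro w hw
    have hw' := hw
    rw [← D.N_M hM] at hw
    obtain ⟨K, hK, h1⟩ := mem_biUnion.1 hw
    obtain ⟨w', ha, h2⟩ := D.ap' hK hM h1
    unfold thS
    rw [if_pos]
    have hp := D.pr hK hM
    obtain ⟨a1, a2, -⟩ := D.all0 hC h9 hV K hK B hM
    obtain ⟨q, hq, hwq, hwq'⟩ := ha.al.q
    obtain ⟨x, y, hll⟩ := ha.ll
    have hpos : aN G K w w' = 0 := by
      rw [Dt.P, mem_insert, mem_singleton] at h1 h2
      have hne := ha.al.ne
      rcases h1 with e | e
      · rcases h2 with e' | e'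
        · exact absurd (e.trans e'.symm) hne
        · rw [e, e']
          exact a1
      · rcases h2 with e' | e'
        · rw [e, e']
          exact a2
        · exact absurd (e.trans e'.symm) hne
    rw [aN, card_eq_zero] at hpos
    have hno : ∀ z, z ∈ G.nb w → z ∈ G.N K → z = w' := by
      intro z hz hzN
      by_contra hne
      have : z ∈ (G.nb w ∩ G.N K).erase w' := mem_erase.2 ⟨hne, mem_inter.2 ⟨hz, hzN⟩⟩
      rw [hpos] at this
      exact absurd this (notMem_empty _)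
    refine ⟨K, ⟨q, ⟨hp.hK, hq, w, w', x, y, hwq, hwq', ha.al.uK, ha.al.vK, hll, ?_, ?_⟩, hwq,
      ha.al.uK⟩, ?_⟩
    · rintro ⟨hx, -⟩
      have hxw : x ∈ G.nb w := LL_t76 hll
      have hxw' : x ≠ w' := by
        intro e
        exact hll.2.2.2.2.1 (by rw [cl, e]; exact mem_insert_self _ _)
      exact hxw' (hno x hxw hx)
    · rw [disjoint_left]
      intro z hz hzN
      obtain ⟨hz1, hz2⟩ := mem_inter.1 hz
      exact G.irr w' (by have := hno z hz1 hzN; rwa [this] at hz2)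
    · refine ⟨q, mem_inter.2 ⟨hq, mem_Co76.2 ⟨fun h => ?_, fun h => ?_⟩⟩⟩
      · exact disjoint_left.1 hp.dKM hq h
      · exact disjoint_left.1 hp.dNM h hq
  have hsum : ∑ w ∈ univ.filter (fun w => G.Low w), G.thS B w = 4 * (G.l B : ℤ) := by
    have h1 : ∀ w ∈ univ.filter (fun w => G.Low w), G.thS B w = if w ∈ B then 4 else 0 := by
      intro w _
      by_cases h : w ∈ B
      · rw [if_pos h, thS_in33 hgood.2 h]
      · rw [if_neg h]
        by_cases h' : w ∈ G.N B
        · exact hbad w h'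
        · exact thS_out33 h h'
    rw [sum_congr rfl h1, ← sum_filter, filter_filter, sum_const, nsmul_eq_mul, l]
    have h2 : (univ.filter fun a => G.Low a ∧ a ∈ B) = B.filter fun v => G.Low v := by
      ext a
      rw [mem_filter, mem_filter]
      constructor
      · rintro ⟨-, h3, h4⟩
        exact ⟨h4, h3⟩
      · rintro ⟨h3, h4⟩
        exact ⟨mem_univ _, h4, h3⟩
    rw [h2]
    ring
  have h4 := hW B hB
  rw [WS, hk5, hsum] at h4 ⊢
  omega

end CG

end Pool.Agent.Lib.MP_e95c01_co.N
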