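import Pool.Agent.Lib.MP_e95c01_co.Y.Fc6
import Pool.Agent.Lib.MP_e95c01_co.Y.K6P38

/-!
# `LL` ports of a `K6` that is a member of a thick torso: structure, charges, who asks
-/

namespace Pool.Agent.Lib.MP_e95c01_co.N

open Finset

variable {V : Type} [Fintype V] [DecidableEq V]

namespace CG

/-- an `LL` port of the member `K` -/
structure LPt (G : CG V) (Fa : Finset (Finset V)) (K : Finset V) (q q' u v c d x y : V) :
    Prop where
  mem : K ∈ Fa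
  k6 : G.IsK6 K
  qK : q ∈ K
  qK' : q' ∈ K
  ne : q ≠ q'
  uK : u ∉ K
  vK : v ∉ K
  nu : G.nb u = {q, q', v, c, d, x}
  nv : G.nb v = {q, q', u, c, d, y}
  ll : G.LL u v x y

variable {G : CG V} {Fa : Finset (Finset V)} {K : Finset V} {q q' u v c d x y : V}

theorem card_le_six87 (a b c d e f : V) : ({a, b, c, d, e, f} : Finset V).card ≤ 6 := by
  refine (card_insert_le _ _).trans ?_
  have h1 := card_insert_le b ({c, d, e, f} : Finset V)
  have h2 := card_insert_le c ({d, e, f} : Finset V)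
  have h3 := card_insert_le d ({e, f} : Finset V)
  have h4 := card_insert_le e ({f} : Finset V)
  rw [card_singleton] at h4
  omega

/-- six different vertices -/
theorem nodup_six87 {a b c d e f : V} (h : ({a, b, c, d, e, f} : Finset V).card = 6) :
    a ≠ b ∧ a ≠ c ∧ a ≠ d ∧ a ≠ e ∧ a ≠ f ∧ b ≠ c ∧ b ≠ d ∧ b ≠ e ∧ b ≠ f ∧ c ≠ d ∧ c ≠ e ∧
      c ≠ f ∧ d ≠ e ∧ d ≠ f ∧ e ≠ f := by
  have key : ([a, b, c, d, e, f] : List V).Nodup := by
    rw [← Multiset.coe_nodup, ← Multiset.toFinset_card_eq_card_iff_nodup]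
    have h1 : (↑([a, b, c, d, e, f] : List V) : Multiset V).toFinset = {a, b, c, d, e, f} := by
      ext z
      simp
    rw [h1, h]
    rfl
  simp only [List.nodup_cons, List.mem_cons, List.not_mem_nil, or_false, not_or, List.nodup_nil,
    and_true, not_false_eq_true] at key
  tauto

namespace LPt

theorem symm (h : G.LPt Fa K q q' u v c d x y) : G.LPt Fa K q q' v u c d y x :=
  ⟨h.mem, h.k6, h.qK, h.qK', h.ne, h.vK, h.uK, h.nv, h.nu, LL_symm76 h.ll⟩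

theorem swap (h : G.LPt Fa K q q' u v c d x y) : G.LPt Fa K q q' u v d c x y := by
  refine ⟨h.mem, h.k6, h.qK, h.qK', h.ne, h.uK, h.vK, ?_, ?_, h.ll⟩
  · rw [h.nu]
    ext z
    simp only [mem_insert, mem_singleton]
    tauto
  · rw [h.nv]
    ext z
    simp only [mem_insert, mem_singleton]
    tauto

theorem lu (h : G.LPt Fa K q q' u v c d x y) : G.Low u := h.ll.1

theorem lv (h : G.LPt Fa K q q' u v c d x y) : G.Low v := h.ll.2.1

theorem memu (h : G.LPt Fa K q q' u v c d x y) {z : V} :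
    z ∈ G.nb u ↔ z = q ∨ z = q' ∨ z = v ∨ z = c ∨ z = d ∨ z = x := by
  rw [h.nu]
  simp only [mem_insert, mem_singleton]

theorem memv (h : G.LPt Fa K q q' u v c d x y) {z : V} :
    z ∈ G.nb v ↔ z = q ∨ z = q' ∨ z = u ∨ z = c ∨ z = d ∨ z = y := h.symm.memu

theorem nd (h : G.LPt Fa K q q' u v c d x y) :
    q ≠ q' ∧ q ≠ v ∧ q ≠ c ∧ q ≠ d ∧ q ≠ x ∧ q' ≠ v ∧ q' ≠ c ∧ q' ≠ d ∧ q' ≠ x ∧ v ≠ c ∧ v ≠ d ∧
      v ≠ x ∧ c ≠ d ∧ c ≠ x ∧ d ≠ x := by
  have h1 := h.lu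
  rw [Low, h.nu] at h1
  exact nodup_six87 h1

theorem uv (h : G.LPt Fa K q q' u v c d x y) : u ≠ v := ne_of_nb5 (h.memu.2 (by tauto))

theorem xv (h : G.LPt Fa K q q' u v c d x y) : x ∉ G.nb v := by
  intro h1
  exact h.ll.2.2.2.2.1 (mem_insert_of_mem h1)

theorem xy (h : G.LPt Fa K q q' u v c d x y) : x ≠ y := h.ll.2.2.2.1

/-- the ports of `K` -/
theorem uN (h : G.LPt Fa K q q' u v c d x y) : u ∈ G.N K :=
  mem_N76.2 ⟨h.uK, q, h.qK, G.sym _ _ (h.memu.2 (by tauto))⟩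

theorem uR (h : G.LPt Fa K q q' u v c d x y) (hr : G.Reg Fa) : u ∈ R Fa :=
  N_sub_R76 hr h.mem h.uN

theorem KI (h : G.LPt Fa K q q' u v c d x y) : K ∈ G.I Fa u := mem_I76.2 ⟨h.mem, h.uN⟩

theorem NK (h : G.LPt Fa K q q' u v c d x y) (hr : G.Reg Fa) : (G.N K).card = 6 :=
  (hr.frag K h.mem).2.1

/-- the neighbours of `u` in `K` -/
theorem nbK (h : G.LPt Fa K q q' u v c d x y) (hG : G.Gen6 Fa) {z : V} (hz : z ∈ G.nb u)
    (hK : z ∈ K) : z = q ∨ z = q' := by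
  have h1 := K38.two hG.g5.crit hG.g5.n9 h.k6 (h.NK hG.g5.reg) u h.uN
  have h2 : ({q, q'} : Finset V) ⊆ G.nb u ∩ K := by
    intro w hw
    rw [mem_insert, mem_singleton] at hw
    rcases hw with rfl | rfl
    · exact mem_inter.2 ⟨h.memu.2 (by tauto), h.qK⟩
    · exact mem_inter.2 ⟨h.memu.2 (by tauto), h.qK'⟩
  have h3 := eq_of_subset_of_card_le h2 (by rw [h1, card_pair h.ne])
  have h4 : z ∈ ({q, q'} : Finset V) := by
    rw [h3]
    exact mem_inter.2 ⟨hz, hK⟩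
  rw [mem_insert, mem_singleton] at h4
  exact h4

theorem cK (h : G.LPt Fa K q q' u v c d x y) (hG : G.Gen6 Fa) : c ∉ K := by
  intro h1
  have h2 := h.nd
  rcases h.nbK hG (h.memu.2 (by tauto)) h1 with h3 | h3
  · exact h2.2.2.1 h3.symm
  · exact h2.2.2.2.2.2.2.1 h3.symm

theorem xK (h : G.LPt Fa K q q' u v c d x y) (hG : G.Gen6 Fa) : x ∉ K := by
  intro h1
  have h2 := h.nd
  rcases h.nbK hG (h.memu.2 (by tauto)) h1 with h3 | h3
  · exact h2.2.2.2.2.1 h3.symm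
  · exact h2.2.2.2.2.2.2.2.2.1 h3.symm

/-- the neighbours of `q` outside of `K` -/
theorem nbq (h : G.LPt Fa K q q' u v c d x y) (hG : G.Gen6 Fa) {z : V} (hz : z ∈ G.nb q)
    (hK : z ∉ K) : z = u ∨ z = v := by
  obtain ⟨a, b, -, -, -, -, -, -, -, -, h1⟩ := K38.ports hG.g5.crit hG.g5.n9 h.k6 h.qK
  have h2 := h1 u (G.sym _ _ (h.memu.2 (by tauto))) h.uK
  have h3 := h1 v (G.sym _ _ (h.memv.2 (by tauto))) h.vK
  have h4 := h1 z hz hK
  have h5 := h.uv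
  rcases h2 with rfl | rfl <;> rcases h3 with rfl | rfl <;> tauto

/-- a vertex of the torso adjacent to `q` is `u` or `v` -/
theorem nbqR (h : G.LPt Fa K q q' u v c d x y) (hG : G.Gen6 Fa) {z : V} (hz : z ∈ G.nb q)
    (hR : z ∈ R Fa) : z = u ∨ z = v :=
  h.nbq hG hz (mem_R76.1 hR K h.mem)

/-- the low port partner of a port `w` of `K` -/
theorem partner (hG : G.Gen6 Fa) (hF : K ∈ Fa) (hK : G.IsK6 K) {w : V} (hw : w ∈ G.N K) :
    ∃ r ∈ K, ∃ w' ∈ G.N K, w ∈ G.nb r ∧ w' ∈ G.nb r ∧ w' ∈ G.nb w ∧ G.Low w ∧ G.Low w' ∧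
      w' ∈ R Fa := by
  obtain ⟨h1, r, h2, h3⟩ := mem_N76.1 hw
  obtain ⟨h4, w', h5, h6, h7, h8, h9, -⟩ := stPort_16 G hG.g5.crit hG.g5.n9 K hK r h2 w h3 h1
  have h10 : w' ∈ G.N K := mem_N76.2 ⟨h6, r, h2, h5⟩
  exact ⟨r, h2, w', h10, h3, h5, h9, h4, h8, N_sub_R76 hG.g5.reg hF h10⟩

/-- if `u` is the partner of a port `w`, then `w = v` -/
theorem partner_eq (h : G.LPt Fa K q q' u v c d x y) (hG : G.Gen6 Fa) {r w : V} (hr : r ∈ K)
    (hw : w ∈ G.nb r) (hu : u ∈ G.nb r) (hwN : w ∈ G.N K) (hne : w ≠ u) : w = v := by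
  have h1 : r = q ∨ r = q' := h.nbK hG (G.sym _ _ hu) hr
  have hwK : w ∉ K := (mem_N76.1 hwN).1
  rcases h1 with rfl | rfl
  · rcases h.nbq hG hw hwK with h2 | h2
    · exact absurd h2 hne
    · exact h2
  · obtain ⟨a, b, -, -, -, -, -, -, -, -, h3⟩ := K38.ports hG.g5.crit hG.g5.n9 h.k6 h.qK'
    have h4 := h3 u (G.sym _ _ (h.memu.2 (by tauto))) h.uK
    have h5 := h3 v (G.sym _ _ (h.memv.2 (by tauto))) h.vK
    have h6 := h3 w hw hwK
    have h7 := h.uv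
    rcases h4 with rfl | rfl <;> rcases h5 with rfl | rfl <;> tauto

/-! ### who asks the port vertex `u` -/

/-- no `HL a u z` with `a` in the torso -/
theorem no_HL (h : G.LPt Fa K q q' u v c d x y) (hG : G.Gen6 Fa) {a z : V} (ha : a ∈ R Fa)
    (h1 : G.HL a u z) : False := by
  have h2 : q ∈ G.cl a := by
    rw [h1.2.2.2.2]
    exact mem_insert_of_mem (mem_insert_of_mem (h.memu.2 (by tauto)))
  rcases mem_insert.1 h2 with h3 | h3
  · exact mem_R76.1 ha K h.mem (h3 ▸ h.qK)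
  · have h4 := h1.1
    rcases h.nbqR hG (G.sym _ _ h3) ha with h5 | h5
    · have := h.lu
      rw [h5] at h4
      rw [Low] at this
      omega
    · have := h.lv
      rw [h5] at h4
      rw [Low] at this
      omega

/-- who asks `u`: the partner, a low vertex in no neighbourhood, or a low vertex that has a common
member of the family with `u` other than `K` -/
theorem asks (h : G.LPt Fa K q q' u v c d x y) (hG : G.Gen6 Fa) {z : V} (h1 : G.DL Fa z u) :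
    z = v ∨ G.I Fa z = ∅ ∨ ∃ B ∈ G.I Fa z, B ∈ G.I Fa u ∧ B ≠ K ∧ u ∈ G.nb z := by
  have key : ∀ B, z ∈ R Fa → B ∈ G.I Fa z → u ∈ G.pT B z →
      (∀ w ∈ G.nb z, w ∈ R Fa → w ∈ G.N B → G.Low w → w = u) →
      z = v ∨ G.I Fa z = ∅ ∨ ∃ B ∈ G.I Fa z, B ∈ G.I Fa u ∧ B ≠ K ∧ u ∈ G.nb z := by
    intro B hzR hB hu hall
    have hu' := mem_inter.1 hu
    by_cases hBK : B = K
    · subst hBK
      left
      have hzN := (mem_I76.1 hB).2
      obtain ⟨r, h2, w', h3, h4, h5, h6, h7, h8, h9⟩ := partner hG h.mem h.k6 hzN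
      have h10 := hall w' h6 h9 h3 h8
      rw [h10] at h5
      exact h.partner_eq hG h2 h4 h5 hzN (ne_of_nb5 hu'.1)
    · right; right
      exact ⟨B, hB, mem_I76.2 ⟨(mem_I76.1 hB).1, hu'.2⟩, hBK, hu'.1⟩
  rcases h1 with ⟨h1, h2, h3⟩ | ⟨h1, h2, h3, h4⟩ | ⟨h1, h2, h3⟩ | ⟨h1, h2, h3⟩ | ⟨h1, h2, h3⟩ |
    ⟨h1, h2, h3⟩ | ⟨h1, h2, h3, h4⟩ | ⟨h1, h2, h3, h4⟩
  · refine key _ h1.lR (h1.I1 ▸ mem_singleton_self _) h1.dT ?_
    intro w hw hwR _ hwl
    have h5 : w ∈ G.NF Fa z := by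
      classical
      rw [NF, mem_filter, nR, mem_inter]
      exact ⟨⟨hw, hwR⟩, Or.inl hwl⟩
    rw [h1.nf, mem_singleton] at h5
    exact h5
  · exact absurd h1.hl fun h5 => h.no_HL hG (N_sub_R76 hG.g5.reg
      (mem_I76.1 (h1.I1 ▸ mem_singleton_self _)).1 (mem_inter.1 h1.aT).2) h5
  · refine key _ h1.lR (h1.I1 ▸ mem_singleton_self _) h1.dT ?_
    intro w hw hwR _ hwl
    have h5 : w ∈ G.NF Fa z := by
      classical
      rw [NF, mem_filter, nR, mem_inter]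
      exact ⟨⟨hw, hwR⟩, Or.inl hwl⟩
    rw [h1.nf, mem_singleton] at h5
    exact h5
  · exact absurd h1.hl fun h5 => h.no_HL hG (N_sub_R76 hG.g5.reg
      (mem_I76.1 (h1.I1 ▸ mem_singleton_self _)).1 (mem_inter.1 h1.aT).2) h5
  · have h5 := h1.s0.2.2.2.1
    refine key _ h1.lR (h1.I1 ▸ mem_singleton_self _) (by rw [h5]; exact mem_singleton_self _) ?_
    intro w hw hwR hwN _
    have h6 : w ∈ G.pT _ z := mem_inter.2 ⟨hw, hwN⟩
    rw [h5, mem_singleton] at h6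
    exact h6
  · exact Or.inr (Or.inl h1.I0)
  · exact Or.inr (Or.inl h1.I0)
  · have h5 := h3.2.2.2.1
    refine key _ (N_sub_R76 hG.g5.reg (mem_I76.1 h2).1 h3.1) h2
      (by rw [h5]; exact mem_singleton_self _) ?_
    intro w hw hwR hwN _
    have h6 : w ∈ G.pT _ z := mem_inter.2 ⟨hw, hwN⟩
    rw [h5, mem_singleton] at h6
    exact h6

/-- nobody asks `u` for the type ALPHA -/
theorem no_AL (h : G.LPt Fa K q q' u v c d x y) (hG : G.Gen6 Fa) (hI : G.I Fa u = {K}) {z : V} :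
    ¬ G.AL Fa z u := by
  rintro ⟨B, p, e, f, g, h1⟩
  have h2 : u ∈ G.pT B z := by
    rw [h1.nT]
    simp
  have hB : B ∈ Fa := (mem_I76.1 (h1.I1 ▸ mem_singleton_self _ : B ∈ G.I Fa z)).1
  have h3 : B ∈ G.I Fa u := mem_I76.2 ⟨hB, (mem_inter.1 h2).2⟩
  rw [hI, mem_singleton] at h3
  subst h3
  have h4 : z ∈ G.N B := (mem_I76.1 (h1.I1 ▸ mem_singleton_self _ : B ∈ G.I Fa z)).2
  obtain ⟨r, -, w', -, -, -, -, h7, -⟩ := partner hG h.mem h.k6 h4
  exact tw_not_low76 ⟨_, h1.t⟩ h7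

end LPt

end CG

end Pool.Agent.Lib.MP_e95c01_co.N
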