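import Pool.Agent.Lib.MP_e95c01_co.Y.PortB87

/-!
# Direct necks: an `LL` port of two members `K` and `K'` of a thick torso
-/

namespace Pool.Agent.Lib.MP_e95c01_co.N

open Finset

variable {V : Type} [Fintype V] [DecidableEq V]

namespace CG

variable {G : CG V} {Fa : Finset (Finset V)} {K K' : Finset V} {q q' p p' u v c d x y : V}

/-- the cases of `DL` -/
theorem DL_cases87 (hG : G.Gen6 Fa) {z : V} (h1 : G.DL Fa z u)
    (hno : ∀ a ∈ R Fa, ¬ G.HL a u z) : G.I Fa z = ∅ ∨ ∃ B ∈ G.I Fa z, u ∈ G.pT B z ∧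
      ∀ w ∈ G.nb z, w ∈ R Fa → w ∈ G.N B → G.Low w → w = u := by
  classical
  have key : ∀ w ∈ G.nb z, w ∈ R Fa → G.Low w → w ∈ G.NF Fa z := by
    intro w hw hwR hwl
    rw [NF, mem_filter, nR, mem_inter]
    exact ⟨⟨hw, hwR⟩, Or.inl hwl⟩
  rcases h1 with ⟨h1, h2, h3⟩ | ⟨h1, h2, h3, h4⟩ | ⟨h1, h2, h3⟩ | ⟨h1, h2, h3⟩ | ⟨h1, h2, h3⟩ |
    ⟨h1, h2, h3⟩ | ⟨h1, h2, h3, h4⟩ | ⟨h1, h2, h3, h4⟩
  · refine Or.inr ⟨_, h1.I1 ▸ mem_singleton_self _, h1.dT, ?_⟩
    intro w hw hwR _ hwl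
    have h5 := key w hw hwR hwl
    rw [h1.nf, mem_singleton] at h5
    exact h5
  · exact absurd h1.hl (hno _ (N_sub_R76 hG.g5.reg
      (mem_I76.1 (h1.I1 ▸ mem_singleton_self _)).1 (mem_inter.1 h1.aT).2))
  · refine Or.inr ⟨_, h1.I1 ▸ mem_singleton_self _, h1.dT, ?_⟩
    intro w hw hwR _ hwl
    have h5 := key w hw hwR hwl
    rw [h1.nf, mem_singleton] at h5
    exact h5
  · exact absurd h1.hl (hno _ (N_sub_R76 hG.g5.reg
      (mem_I76.1 (h1.I1 ▸ mem_singleton_self _)).1 (mem_inter.1 h1.aT).2))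
  · have h5 := h1.s0.2.2.2.1
    refine Or.inr ⟨_, h1.I1 ▸ mem_singleton_self _, by rw [h5]; exact mem_singleton_self _, ?_⟩
    intro w hw hwR hwN _
    have h6 : w ∈ G.pT _ z := mem_inter.2 ⟨hw, hwN⟩
    rw [h5, mem_singleton] at h6
    exact h6
  · exact Or.inl h1.I0
  · exact Or.inl h1.I0
  · have h5 := h3.2.2.2.1
    refine Or.inr ⟨_, h2, by rw [h5]; exact mem_singleton_self _, ?_⟩
    intro w hw hwR hwN _
    have h6 : w ∈ G.pT _ z := mem_inter.2 ⟨hw, hwN⟩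
    rw [h5, mem_singleton] at h6
    exact h6

/-- a low vertex receives nothing by the first payments -/
theorem pay5_low87 (w z : V) (hz : G.Low z) : G.pay5 Fa w z = 0 := by
  have h1 : ¬ G.Hub z := fun h => h.1 hz
  unfold pay5
  split_ifs <;> rfl

namespace LPt

/-- if `c` lies in the member `K'`, the port is a port of `K'` -/
theorem other (h : G.LPt Fa K q q' u v c d x y) (hG : G.Gen6 Fa) (hK : K' ∈ Fa)
    (hK6 : G.IsK6 K') (hne : K ≠ K') (hc : c ∈ K') : G.LPt Fa K' c d u v q q' x y := by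
  have hr := hG.g5.reg
  have huR := mem_R76.1 (h.uR hr) K' hK
  have hvR := mem_R76.1 (h.symm.uR hr) K' hK
  obtain ⟨c', ht⟩ := hK6.2.1 c hc
  have hc' := k6_twin16 hG.g5.crit hG.g5.n9 hK6 hc ht
  have hnd := h.nd
  have hcu : u ∈ G.nb c := G.sym _ _ (h.memu.2 (by tauto))
  have hcv : v ∈ G.nb c := G.sym _ _ (h.memv.2 (by tauto))
  have hdis := (hr.dis K h.mem K' hK hne).1
  have hcl : ∀ w, w ∈ G.nb c → w ≠ c' → w ∈ G.nb c' := by
    intro w hw hwc
    have h1 : w ∈ G.cl c' := by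
      rw [← ht.2.2]
      exact mem_insert_of_mem hw
    rcases mem_insert.1 h1 with h2 | h2
    · exact absurd h2 hwc
    · exact h2
  have hu' : u ∈ G.nb c' := hcl u hcu (fun h1 => huR (h1 ▸ hc'))
  have hv' : v ∈ G.nb c' := hcl v hcv (fun h1 => hvR (h1 ▸ hc'))
  have h1 := h.memu.1 (G.sym _ _ hu')
  have hcd : c' = d := by
    rcases h1 with h2 | h2 | h2 | h2 | h2 | h2
    · exact absurd (h2 ▸ hc') (disjoint_left.1 hdis h.qK)
    · exact absurd (h2 ▸ hc') (disjoint_left.1 hdis h.qK')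
    · exact absurd (h2 ▸ hc') hvR
    · exact absurd h2.symm (ne_of_nb5 ht.1)
    · exact h2
    · exact absurd (G.sym _ _ (h2 ▸ hv')) h.xv
  subst hcd
  refine ⟨hK, hK6, hc, hc', ne_of_nb5 ht.1, huR, hvR, ?_, ?_, h.ll⟩
  · rw [h.nu]
    ext z
    simp only [mem_insert, mem_singleton]
    tauto
  · rw [h.nv]
    ext z
    simp only [mem_insert, mem_singleton]
    tauto

/-- a member with `u` in its neighbourhood contains a neighbour of `u` -/
theorem nbM {B : Finset V} (hB : B ∈ G.I Fa u) : ∃ z ∈ G.nb u, z ∈ B := by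
  obtain ⟨-, w, hw, hu⟩ := mem_N76.1 (mem_I76.1 hB).2
  exact ⟨w, G.sym _ _ hu, hw⟩

theorem I_vis (h : G.LPt Fa K q q' u v p p' x y) (h' : G.LPt Fa K' p p' u v q q' x y)
    (hG : G.Gen6 Fa) (hx : x ∈ R Fa) : G.I Fa u = {K, K'} := by
  have hr := hG.g5.reg
  have hv := mem_R76.1 (h.symm.uR hr)
  have hx' := mem_R76.1 hx
  ext B
  rw [mem_insert, mem_singleton]
  constructor
  · intro hB
    obtain ⟨z, hz, hzB⟩ := nbM hB
    have hBF := (mem_I76.1 hB).1
    by_contra hno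
    push Not at hno
    rcases h.memu.1 hz with rfl | rfl | rfl | rfl | rfl | rfl
    · exact disjoint_left.1 (hr.dis B hBF K h.mem hno.1).1 hzB h.qK
    · exact disjoint_left.1 (hr.dis B hBF K h.mem hno.1).1 hzB h.qK'
    · exact hv B hBF hzB
    · exact disjoint_left.1 (hr.dis B hBF K' h'.mem hno.2).1 hzB h'.qK
    · exact disjoint_left.1 (hr.dis B hBF K' h'.mem hno.2).1 hzB h'.qK'
    · exact hx' B hBF hzB
  · rintro (rfl | rfl)
    · exact h.KI
    · exact h'.KI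

theorem I_hid (h : G.LPt Fa K q q' u v p p' x y) (h' : G.LPt Fa K' p p' u v q q' x y)
    (hG : G.Gen6 Fa) {M : Finset V} (hM : M ∈ Fa) (hx : x ∈ M) : G.I Fa u = {K, K', M} := by
  have hr := hG.g5.reg
  have hv := mem_R76.1 (h.symm.uR hr)
  ext B
  rw [mem_insert, mem_insert, mem_singleton]
  constructor
  · intro hB
    obtain ⟨z, hz, hzB⟩ := nbM hB
    have hBF := (mem_I76.1 hB).1
    by_contra hno
    push Not at hno
    rcases h.memu.1 hz with rfl | rfl | rfl | rfl | rfl | rfl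
    · exact disjoint_left.1 (hr.dis B hBF K h.mem hno.1).1 hzB h.qK
    · exact disjoint_left.1 (hr.dis B hBF K h.mem hno.1).1 hzB h.qK'
    · exact hv B hBF hzB
    · exact disjoint_left.1 (hr.dis B hBF K' h'.mem hno.2.1).1 hzB h'.qK
    · exact disjoint_left.1 (hr.dis B hBF K' h'.mem hno.2.1).1 hzB h'.qK'
    · exact disjoint_left.1 (hr.dis B hBF M hM hno.2.2).1 hzB hx
  · rintro (rfl | rfl | rfl)
    · exact h.KI
    · exact h'.KI
    · exact mem_I76.2 ⟨hM, mem_N76.2 ⟨mem_R76.1 (h.uR hr) _ hM, x, hx,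
        G.sym _ _ (h.memu.2 (by tauto))⟩⟩

theorem nR_sub (h : G.LPt Fa K q q' u v p p' x y) (h' : G.LPt Fa K' p p' u v q q' x y) {z : V}
    (hz : z ∈ G.nR Fa u) : z = v ∨ z = x := by
  obtain ⟨h1, h2⟩ := mem_nR76.1 hz
  have h3 := mem_R76.1 h2
  rcases h.memu.1 h1 with rfl | rfl | rfl | rfl | rfl | rfl
  · exact absurd h.qK (h3 _ h.mem)
  · exact absurd h.qK' (h3 _ h.mem)
  · exact Or.inl rfl
  · exact absurd h'.qK (h3 _ h'.mem)
  · exact absurd h'.qK' (h3 _ h'.mem)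
  · exact Or.inr rfl

/-- the edge `u x` has no small cover -/
theorem m_pos (h : G.LPt Fa K q q' u v p p' x y) (h' : G.LPt Fa K' p p' u v q q' x y)
    (hG : G.Gen6 Fa) (hx : x ∈ R Fa) : G.m Fa u x ≠ 0 := by
  intro hm
  have hr := hG.g5.reg
  have hxu : x ∈ G.nR Fa u := mem_nR76.2 ⟨h.memu.2 (by tauto), hx⟩
  rcases cov3_76 (qs16 G) (tor86 hG.g5) (h.uR hr) hxu hm with h1 | h1 | h1 | h1 | h1
  · obtain ⟨w, h1, h2, h3, h4⟩ := h1
    rcases h.nR_sub h' h1 with rfl | rfl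
    · exact h.xv h4
    · exact G.irr _ h4
  · obtain ⟨a, b, h1, h2, h3, h4, h5⟩ := h1
    rcases h.nR_sub h' h1 with rfl | rfl
    · exact h.xv h4
    · exact G.irr _ h4
  · obtain ⟨a, b, h1, h2, h3, h4, h5, h6⟩ := h1
    rcases h.nR_sub h' h1 with rfl | rfl
    · have h7 := h4.1
      have h8 := h.lv
      rw [Low] at h8
      omega
    · exact h6 rfl
  · obtain ⟨a, b, h1, h2, h3, h4, h5⟩ := h1
    rcases h.nR_sub h' h1 with rfl | rfl
    · exact h.symm.no_HL hG h2 h4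
    · exact h4.2.2.2.1 (mem_insert_self _ _)
  · obtain ⟨a, b, h1, h2, h3, h4⟩ := h1
    rcases h.nR_sub h' h1 with rfl | rfl
    · have h5 : q ∈ insert u (G.cl b) := by
        rw [← h4.2.2.2.2.2.2]
        exact mem_insert_of_mem (mem_insert_of_mem (h.memv.2 (by tauto)))
      have hqu : q ≠ u := fun h6 => h.uK (h6 ▸ h.qK)
      rcases mem_insert.1 ((mem_insert.1 h5).resolve_left hqu) with h6 | h6
      · exact mem_R76.1 h2 _ h.mem (h6 ▸ h.qK)
      · rcases h.nbqR hG (G.sym _ _ h6) h2 with h7 | h7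
        · exact h4.2.2.2.2.1 (h7 ▸ mem_insert_self _ _)
        · exact ne_of_nb5 h4.2.2.1 h7.symm
    · exact h4.2.2.2.2.2.1 (mem_insert_self _ _)

/-- flags seen from `K`, with the second neighbour of the partner -/
theorem flvK' (h : G.LPt Fa K q q' u v c d x y) (hG : G.Gen6 Fa) :
    (∃ z ∈ G.nb v, z ∈ G.N K ∧ z ≠ u) → G.flv K u ≤ 0 := by
  classical
  rintro ⟨z, hz, hzN, hzu⟩
  have h1 : ¬ G.U3 K u := by
    rintro ⟨-, -, h2, -⟩
    rw [h.pXK hG, card_pair h.ne] at h2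
    omega
  have h2 : G.s5 K u ≤ 0 := by
    rw [s5, if_neg, if_neg]
    · rintro ⟨v', h3, h4⟩
      have h5 := h.vT
      rw [h3.2.2.2.1, mem_singleton] at h5
      have h6 : z ∈ G.pT K v' := h5 ▸ mem_inter.2 ⟨hz, hzN⟩
      rw [h4, mem_singleton] at h6
      exact hzu h6
    · rintro ⟨v', h3, h4⟩
      have h5 := h.vT
      rw [h3.2.2.2.1, mem_singleton] at h5
      rw [← h5] at h4
      exact h4 (h.LLsK hG)
  have h3 : G.flv K u ≤ G.s5 K u := by
    rw [flv, if_neg h1]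
    split_ifs <;> omega
  omega

/-- flags of a member that contains only `x` -/
theorem flvM (h : G.LPt Fa K q q' u v p p' x y) (h' : G.LPt Fa K' p p' u v q q' x y)
    (hG : G.Gen6 Fa) {M : Finset V} (hM : M ∈ Fa) (hx : x ∈ M) :
    0 ≤ G.flv (G.Co M) u - G.flv M u := by
  classical
  have hr := hG.g5.reg
  have hN : G.N (G.Co M) = G.N M := (G.stCo_37 M (hr.frag M hM)).2.1
  have hxR : x ∉ R Fa := fun h1 => mem_R76.1 h1 M hM hx
  have hT : ∀ z, z ∈ G.nb u → z ∈ G.N M → z = v := by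
    intro z hz hzN
    rcases h.nR_sub h' (mem_nR76.2 ⟨hz, N_sub_R76 hr hM hzN⟩) with h1 | h1
    · exact h1
    · exact absurd (N_sub_R76 hr hM hzN) (h1 ▸ hxR)
  have hX : G.pX M u ⊆ {x} := by
    intro z hz
    obtain ⟨h1, h2⟩ := mem_inter.1 hz
    rw [mem_singleton]
    have hMK : M ≠ K := by
      rintro rfl
      exact h.xK hG hx
    have hMK' : M ≠ K' := by
      rintro rfl
      exact h'.xK hG hx
    rcases h.memu.1 h1 with rfl | rfl | rfl | rfl | rfl | rfl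
    · exact absurd h.qK (disjoint_left.1 (hr.dis M hM K h.mem hMK).1 h2)
    · exact absurd h.qK' (disjoint_left.1 (hr.dis M hM K h.mem hMK).1 h2)
    · exact absurd h2 (mem_R76.1 (h.symm.uR hr) M hM)
    · exact absurd h'.qK (disjoint_left.1 (hr.dis M hM K' h'.mem hMK').1 h2)
    · exact absurd h'.qK' (disjoint_left.1 (hr.dis M hM K' h'.mem hMK').1 h2)
    · rfl
  have hXc := card_le_card hX
  rw [card_singleton] at hXc
  have h1 : ¬ G.U3 M u := fun h2 => by have := h2.2.2.1; omega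
  have h2 : G.s5 M u ≤ 0 := by
    have h3 : ∀ v', ¬ G.S0 M u v' := by
      rintro v' ⟨-, -, -, -, ⟨r, r', ht, h4, -⟩, -⟩
      rw [h4, card_pair (ne_of_nb5 ht.1)] at hXc
      omega
    rw [s5, if_neg (by rintro ⟨v', h5, -⟩; exact h3 v' h5),
      if_neg (by rintro ⟨v', h5, -⟩; exact h3 v' h5)]
  have h3 : G.flv M u ≤ G.s5 M u := by
    rw [flv, if_neg h1]
    split_ifs <;> omega
  have g1 : ¬ G.T3 (G.Co M) u := by
    rintro ⟨-, -, -, Q, Q', r, r', g, ht, -, -, hT', -⟩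
    have h4 : Q ∈ G.pT (G.Co M) u := by rw [hT']; exact mem_insert_self _ _
    obtain ⟨h5, h6⟩ := mem_inter.1 h4
    rw [hN] at h6
    exact tw_not_low76 ⟨_, ht⟩ ((hT Q h5 h6).symm ▸ h.lv)
  have g2 : ¬ G.HF (G.Co M) u := by
    rintro ⟨-, -, -, a, b, hl, -, -, hT'⟩
    have h4 : a ∈ G.pT (G.Co M) u := by rw [hT']; exact mem_singleton_self _
    obtain ⟨h5, h6⟩ := mem_inter.1 h4
    rw [hN] at h6
    have h7 := hl.1
    have h8 := h.lv
    rw [hT a h5 h6] at h7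
    rw [Low] at h8
    omega
  have g3 : ¬ G.RF (G.Co M) u := by
    rintro ⟨-, p', m, m', ht, -⟩
    exact tw_not_low76 ⟨_, ht⟩ h.lu
  have g4 : 0 ≤ G.flv (G.Co M) u := by
    rw [flv, if_neg g1, if_neg g2, if_neg g3]
    have h4 := K38.s5_nonneg (G := G) (G.Co M) u
    split_ifs <;> omega
  omega

end LPt

end CG

end Pool.Agent.Lib.MP_e95c01_co.N
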