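import Pool.Agent.Lib.MP_e95c01_co.Y.Prt16

/-!
# Port pairs of `K6` members: a common neighbour hidden in another member

If the common neighbour `c` of the ports `u`, `v` of `K` is in the member `M`, and `u`, `v` do not
only see `K`, `M`, `N M`, `N K`, then `2 ≤ ch5 u + ch5 v`.
-/

set_option autoImplicit false

namespace Pool.Agent.Lib.MP_e95c01_co.N

open Finset

variable {V : Type} [Fintype V] [DecidableEq V]

namespace CG

variable {G : CG V} {Fa : Finset (Finset V)}

theorem uniq16 (hr : G.Reg Fa) {A B : Finset V} (hA : A ∈ Fa) (hB : B ∈ Fa) {w : V} (h1 : w ∈ A)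
    (h2 : w ∈ B) : A = B := by
  by_contra h
  exact disjoint_left.1 (hr.dis A hA B hB h).1 h1 h2

theorem notR16 {A : Finset V} (hA : A ∈ Fa) {w : V} (h : w ∈ A) : w ∉ R Fa :=
  fun h1 => mem_R76.1 h1 A hA h

theorem hidR16 {w : V} (h : w ∉ R Fa) : ∃ A ∈ Fa, w ∈ A := by
  by_contra h1
  push Not at h1
  exact h (mem_R76.2 h1)

namespace Prt

variable {K M : Finset V} {u v q q' c c' x y : V}

/-- the members at `u` -/
theorem I_cases (P : G.Prt Fa K u v q q' c c' x y) (hr : G.Reg Fa) {B : Finset V}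
    (hB : B ∈ G.I Fa u) : B = K ∨ c ∈ B ∨ c' ∈ B ∨ x ∈ B := by
  obtain ⟨hBF, hN⟩ := mem_I76.1 hB
  obtain ⟨-, w, hw, hwu⟩ := mem_N76.1 hN
  rcases P.mem.1 (G.sym _ _ hwu) with h | h | h | h | h | h
  · exact Or.inl (uniq16 hr hBF P.hK hw (h ▸ P.hq))
  · exact Or.inl (uniq16 hr hBF P.hK hw (h ▸ P.hq'))
  · exact absurd (h ▸ P.vR) (notR16 hBF hw)
  · exact Or.inr (Or.inl (h ▸ hw))
  · exact Or.inr (Or.inr (Or.inl (h ▸ hw)))
  · exact Or.inr (Or.inr (Or.inr (h ▸ hw)))

theorem nR_cases (P : G.Prt Fa K u v q q' c c' x y) {w : V} (h : w ∈ G.nR Fa u) :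
    w = v ∨ w = c ∨ w = c' ∨ w = x := by
  obtain ⟨h1, h2⟩ := mem_nR76.1 h
  rcases P.mem.1 h1 with h | h | h | h | h | h
  · exact absurd h2 (notR16 P.hK (h ▸ P.hq))
  · exact absurd h2 (notR16 P.hK (h ▸ P.hq'))
  · exact Or.inl h
  · exact Or.inr (Or.inl h)
  · exact Or.inr (Or.inr (Or.inl h))
  · exact Or.inr (Or.inr (Or.inr h))

theorem MN (P : G.Prt Fa K u v q q' c c' x y) (hM : M ∈ Fa) (hc : c ∈ M) : u ∈ G.N M :=
  mem_N76.2 ⟨mem_R76.1 P.uR M hM, c, hc, G.sym _ _ P.cu⟩

theorem MI (P : G.Prt Fa K u v q q' c c' x y) (hM : M ∈ Fa) (hc : c ∈ M) : M ∈ G.I Fa u :=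
  mem_I76.2 ⟨hM, P.MN hM hc⟩

theorem McK (P : G.Prt Fa K u v q q' c c' x y) (hc : c ∈ M) : M ≠ K := fun h => P.cK (h ▸ hc)

/-- two members at `u` -/
theorem I_two (P : G.Prt Fa K u v q q' c c' x y) (hM : M ∈ Fa) (hc : c ∈ M)
    (h2 : (G.I Fa u).card = 2) : G.I Fa u = {K, M} := by
  symm
  apply eq_of_subset_of_card_le
  · intro B hB
    rw [mem_insert, mem_singleton] at hB
    rcases hB with rfl | rfl
    · exact P.KI
    · exact P.MI hM hc
  · rw [h2, card_pair (P.McK hc).symm]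

/-- the charge with two members -/
theorem ch_two (P : G.Prt Fa K u v q q' c c' x y) (h9 : 9 ≤ Fintype.card V) (hr : G.Reg Fa)
    (hM : M ∈ Fa) (hc : c ∈ M) (h2 : (G.I Fa u).card = 2) :
    G.ch5 Fa u = ∑ z ∈ G.nR Fa u, G.w5 Fa z u + ((G.flv (G.Co K) u - G.flv K u) +
      (G.flv (G.Co M) u - G.flv M u)) := by
  rw [(stCh5_28 G).low2 h9 Fa hr u P.uR P.lu, fg5, P.I_two hM hc h2,
    card_pair (P.McK hc).symm, sum_pair (P.McK hc).symm]
  push_cast
  ring

/-- in the case of two members a vertex of `nb u` outside of `K` and `M` is in `R` -/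
theorem vis_two (P : G.Prt Fa K u v q q' c c' x y) (hM : M ∈ Fa) (hc : c ∈ M)
    (h2 : (G.I Fa u).card = 2) {w : V} (hw : w ∈ G.nb u) (hwK : w ∉ K) (hwM : w ∉ M) :
    w ∈ R Fa := by
  by_contra h
  obtain ⟨A, hA, hwA⟩ := hidR16 h
  have h1 : A ∈ G.I Fa u := in_I16 hA hwA (mem_R76.1 P.uR A hA) hw
  rw [P.I_two hM hc h2, mem_insert, mem_singleton] at h1
  rcases h1 with rfl | rfl
  · exact hwK hwA
  · exact hwM hwA

theorem m_zero (P : G.Prt Fa K u v q q' c c' x y) (hM : M ∈ Fa) (hc : c ∈ M)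
    (h2 : (G.I Fa u).card = 2) {w : V} (hwK : w ∉ G.N K) (hwM : w ∉ G.N M) :
    G.m Fa w u = 0 := by
  rw [m, card_eq_zero, eq_empty_iff_forall_notMem]
  intro B hB
  obtain ⟨h3, h4⟩ := mem_inter.1 hB
  rw [P.I_two hM hc h2, mem_insert, mem_singleton] at h4
  rcases h4 with rfl | rfl
  · exact hwK (mem_I76.1 h3).2
  · exact hwM (mem_I76.1 h3).2

theorem m_one (P : G.Prt Fa K u v q q' c c' x y) (hM : M ∈ Fa) (hc : c ∈ M)
    (h2 : (G.I Fa u).card = 2) {w : V} (h : w ∉ G.N K ∨ w ∉ G.N M) : G.m Fa w u ≤ 1 := by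
  rw [m, card_le_one]
  intro B hB B' hB'
  obtain ⟨h3, h4⟩ := mem_inter.1 hB
  obtain ⟨h5, h6⟩ := mem_inter.1 hB'
  rw [P.I_two hM hc h2, mem_insert, mem_singleton] at h4 h6
  rcases h4 with rfl | rfl <;> rcases h6 with rfl | rfl
  · rfl
  · rcases h with h | h
    · exact absurd (mem_I76.1 h3).2 h
    · exact absurd (mem_I76.1 h5).2 h
  · rcases h with h | h
    · exact absurd (mem_I76.1 h5).2 h
    · exact absurd (mem_I76.1 h3).2 h
  · rfl

/-- one visible neighbour -/
theorem sum_one (P : G.Prt Fa K u v q q' c c' x y) (h2 : (G.I Fa u).card ≤ 2) {w : V}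
    (hw : w ∈ G.nR Fa u) : G.w5 Fa w u ≤ ∑ z ∈ G.nR Fa u, G.w5 Fa z u :=
  single_le_sum (f := fun z => G.w5 Fa z u) (fun z _ => w5_nonneg16 P.lu h2 z) hw

/-- two visible neighbours -/
theorem sum_two (P : G.Prt Fa K u v q q' c c' x y) (h2 : (G.I Fa u).card ≤ 2) {w z : V}
    (hw : w ∈ G.nR Fa u) (hz : z ∈ G.nR Fa u) (hne : w ≠ z) :
    G.w5 Fa w u + G.w5 Fa z u ≤ ∑ z ∈ G.nR Fa u, G.w5 Fa z u := by
  rw [← sum_pair hne (f := fun z => G.w5 Fa z u)]
  apply sum_le_sum_of_subset_of_nonneg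
  · intro t ht
    rw [mem_insert, mem_singleton] at ht
    rcases ht with rfl | rfl
    · exact hw
    · exact hz
  · exact fun t _ _ => w5_nonneg16 P.lu h2 t

theorem sum_nn (P : G.Prt Fa K u v q q' c c' x y) (h2 : (G.I Fa u).card ≤ 2) :
    0 ≤ ∑ z ∈ G.nR Fa u, G.w5 Fa z u :=
  sum_nonneg fun z _ => w5_nonneg16 P.lu h2 z

/-- a port in `N K` is low -/
theorem NK_low (P : G.Prt Fa K u v q q' c c' x y) (hG : G.Gen5 Fa) {w : V} (h : w ∈ G.N K) :
    G.Low w := (k6_low16 hG.crit hG.n9 P.hS h).1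

/-- two members: the charge is at least `-1` -/
theorem ge_m1 (P : G.Prt Fa K u v q q' c c' x y) (hG : G.Gen5 Fa) (hM : M ∈ Fa) (hc : c ∈ M)
    (h2 : (G.I Fa u).card = 2) : -1 ≤ G.ch5 Fa u := by
  have h9 := hG.n9
  have hr := hG.reg
  have hMK := P.McK hc
  have hv : v ∈ G.N M := P.swap.MN hM hc
  have e := P.ch_two h9 hr hM hc h2
  obtain ⟨k1, k2⟩ := P.fl_K hr
  obtain ⟨m1, m2, m3, m4, m5⟩ := P.fl_M hr hM hMK hv
  have s0 := P.sum_nn (le_of_eq h2)
  by_cases hc' : c' ∈ M
  · by_cases hxM : x ∈ M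
    · have := m5 hxM
      omega
    · have hxR := P.vis_two hM hc h2 P.xu P.xK hxM
      have hxn : x ∈ G.nR Fa u := mem_nR76.2 ⟨P.xu, hxR⟩
      have hxv : x ≠ v := (P.neU.2.2.1.2.2).symm
      have s1 := P.sum_one (le_of_eq h2) hxn
      by_cases hxN : x ∈ G.N M
      · have := m4 ⟨x, P.xu, hxv, hxN⟩
        omega
      · by_cases hxK : x ∈ G.N K
        · have h3 := k2 ⟨x, P.xu, hxv, hxK⟩
          have h4 := w5_free16 (Fa := Fa) h9 P.lu (Or.inl (P.NK_low hG hxK))
          have h5 := P.m_one hM hc h2 (Or.inr hxN)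
          omega
        · have h3 := w5_two16 (Fa := Fa) P.lu (P.m_zero hM hc h2 hxK hxN)
          omega
  · have := m2 (fun h => hc' h.2)
    omega

/-- two members, `c'` visible and not in their neighbourhoods -/
theorem ge_1 (P : G.Prt Fa K u v q q' c c' x y) (hG : G.Gen5 Fa) (hM : M ∈ Fa) (hc : c ∈ M)
    (h2 : (G.I Fa u).card = 2) (hM' : c' ∉ M) (hN : c' ∉ G.N M) (hK : c' ∉ G.N K) :
    1 ≤ G.ch5 Fa u := by
  have h9 := hG.n9
  have hr := hG.reg
  have hMK := P.McK hc
  have hv : v ∈ G.N M := P.swap.MN hM hc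
  have e := P.ch_two h9 hr hM hc h2
  obtain ⟨k1, k2⟩ := P.fl_K hr
  obtain ⟨m1, m2, m3, m4, m5⟩ := P.fl_M hr hM hMK hv
  have h3 := m2 (fun h => hM' h.2)
  have hR := P.vis_two hM hc h2 P.cu' P.cK' hM'
  have s1 := P.sum_one (le_of_eq h2) (mem_nR76.2 ⟨P.cu', hR⟩)
  have h4 := w5_two16 (Fa := Fa) P.lu (P.m_zero hM hc h2 hK hN)
  omega

/-- two members, the private neighbour `x` visible outside, `c'` a port of `K` -/
theorem ge_2 (P : G.Prt Fa K u v q q' c c' x y) (hG : G.Gen5 Fa) (hM : M ∈ Fa) (hc : c ∈ M)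
    (h2 : (G.I Fa u).card = 2) (hM' : c' ∉ M) (hK : c' ∈ G.N K) :
    0 ≤ G.ch5 Fa u ∧ (x ∉ M → x ∉ G.N M → x ∉ G.N K → 2 ≤ G.ch5 Fa u) := by
  have h9 := hG.n9
  have hr := hG.reg
  have hMK := P.McK hc
  have hv : v ∈ G.N M := P.swap.MN hM hc
  have e := P.ch_two h9 hr hM hc h2
  obtain ⟨k1, k2⟩ := P.fl_K hr
  obtain ⟨m1, m2, m3, m4, m5⟩ := P.fl_M hr hM hMK hv
  have h3 := m2 (fun h => hM' h.2)
  have h4 := k2 ⟨c', P.cu', (P.neU.2.2.1.2.1).symm, hK⟩
  have s0 := P.sum_nn (le_of_eq h2)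
  refine ⟨by omega, fun hxM hxN hxK => ?_⟩
  have hR := P.vis_two hM hc h2 P.xu P.xK hxM
  have s1 := P.sum_one (le_of_eq h2) (mem_nR76.2 ⟨P.xu, hR⟩)
  have h5 := w5_two16 (Fa := Fa) P.lu (P.m_zero hM hc h2 hxK hxN)
  omega

/-- two members, the private neighbour `x` visible outside, `c'` in `N M` and not paid -/
theorem ge_3 (P : G.Prt Fa K u v q q' c c' x y) (hG : G.Gen5 Fa) (hM : M ∈ Fa) (hc : c ∈ M)
    (h2 : (G.I Fa u).card = 2) (hM' : c' ∉ M) (hK : c' ∉ G.N K) (hl : G.Low c' ∨ ∃ b, G.HL c' b u)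
    (hxM : x ∉ M) (hxN : x ∉ G.N M) (hxK : x ∉ G.N K) : 3 ≤ G.ch5 Fa u := by
  have h9 := hG.n9
  have hr := hG.reg
  have hMK := P.McK hc
  have hv : v ∈ G.N M := P.swap.MN hM hc
  have e := P.ch_two h9 hr hM hc h2
  obtain ⟨k1, k2⟩ := P.fl_K hr
  obtain ⟨m1, m2, m3, m4, m5⟩ := P.fl_M hr hM hMK hv
  have h3 := m2 (fun h => hM' h.2)
  have hR := P.vis_two hM hc h2 P.xu P.xK hxM
  have hR' := P.vis_two hM hc h2 P.cu' P.cK' hM'
  have s1 := P.sum_two (le_of_eq h2) (mem_nR76.2 ⟨P.xu, hR⟩) (mem_nR76.2 ⟨P.cu', hR'⟩)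
    P.neU.2.2.2.2.symm
  have h5 := w5_two16 (Fa := Fa) P.lu (P.m_zero hM hc h2 hxK hxN)
  have h6 := w5_free16 (Fa := Fa) h9 P.lu hl
  have h7 := P.m_one hM hc h2 (Or.inl hK)
  omega

/-- a private neighbour without a common member needs a special `c'` -/
theorem cover_x (P : G.Prt Fa K u v q q' c c' x y) (hG : G.Gen5 Fa) (hM : M ∈ Fa) (hc : c ∈ M)
    (hxR : x ∈ R Fa) (hm : G.m Fa x u = 0) : c' ∈ R Fa ∧ (G.Low c' ∨ ∃ b, G.HL c' b u) := by
  have h9 := hG.n9
  have hcR := notR16 hM hc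
  have hqR := notR16 P.hK P.hq
  have hqR' := notR16 P.hK P.hq'
  have hux : u ∈ G.nb x := G.sym _ _ P.xu
  have hport : ∀ w ∈ R Fa, w ∈ G.nb q → w = u ∨ w = v := fun w hw h =>
    P.ports w h (fun h2 => notR16 P.hK h2 hw)
  have hqu : q ∈ G.nb u := P.mem.2 (Or.inl rfl)
  have hqv : q ∈ G.nb v := P.memv.2 (Or.inl rfl)
  have hxv : x ∉ G.nb v := P.xv
  have huv : u ≠ v := fun h => G.irr v (by have := P.vu; rwa [h] at this)
  have hvis : ∀ w ∈ R Fa, w ∈ G.nb u → w = v ∨ w = c' ∨ w = x := by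
    intro w hw h
    rcases P.nR_cases (mem_nR76.2 ⟨h, hw⟩) with h1 | h1 | h1 | h1
    · exact Or.inl h1
    · exact absurd (h1 ▸ hw) hcR
    · exact Or.inr (Or.inl h1)
    · exact Or.inr (Or.inr h1)
  have hcov := hG.cov x hxR u P.uR hux hm
  rcases hcov with ⟨w, hw, hwl, h1, h2⟩ | ⟨a, ha, b, hb, ht, h1, h2, h3, h4⟩ |
    ⟨a, ha, b, hb, hH, h1, h2⟩ | ⟨a, ha, b, hb, hH, h1, h2⟩ | ⟨a, ha, b, hb, hL⟩
  · rcases hvis w hw (G.sym _ _ h2) with rfl | rfl | rfl
    · exact absurd h1 hxv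
    · exact ⟨hw, Or.inl hwl⟩
    · exact absurd h1 (G.irr _)
  · rcases hvis a ha (G.sym _ _ h2) with rfl | rfl | rfl
    · exact absurd h1 hxv
    · have h5 : u ∈ G.nb b := by
        have h6 : u ∈ G.cl b := by
          rw [← ht.2.2]
          exact mem_insert_of_mem h2
        rcases mem_insert.1 h6 with h7 | h7
        · exact absurd h7 h4
        · exact h7
      rcases hvis b hb (G.sym _ _ h5) with h6 | h6 | h6
      · exact absurd P.lv (tw_not_low76 (h6 ▸ tw_of76' ht))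
      · exact absurd h6.symm (Tw_ne87 ht)
      · exact absurd h6.symm h3
    · exact absurd h1 (G.irr _)
  · -- `HL a b x`, `u` adjacent to `b`
    rcases hvis b hb (G.sym _ _ h1) with rfl | rfl | rfl
    · have h5 : q ∈ G.nb a := HL_sub76 hH hqv (fun h => hqR (h ▸ ha))
      rcases hport a ha (G.sym _ _ h5) with h6 | h6
      · exact absurd h6.symm h2
      · have h7 := HL_b76 hH
        rw [h6] at h7
        exact absurd h7 (G.irr _)
    · exact ⟨hb, Or.inl hH.2.1⟩
    · exact absurd rfl (HL_bt76 hH).2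
  · -- `HL a b u`, `x` adjacent to `b`
    rcases hvis a ha (G.sym _ _ (HL_t76 hH)) with rfl | rfl | rfl
    · exact absurd P.lv (HL_not_low76 hH)
    · exact ⟨ha, Or.inr ⟨b, hH⟩⟩
    · exact absurd rfl h2
  · -- `LL a b x u`
    have h1 : u ∈ G.nb b := LL_u76 hL
    rcases hvis b hb (G.sym _ _ h1) with rfl | rfl | rfl
    · have h2 : a = u ∨ a = b := by
        rcases LL_from76 hL hqv (fun h => hqR (h ▸ P.uR)) with h3 | h3
        · exact absurd (h3 ▸ ha) hqR
        · exact hport a ha (G.sym _ _ h3)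
      rcases h2 with rfl | rfl
      · exact absurd rfl (LL_ua76 hL).2
      · exact absurd (LL_ab76 hL) (G.irr _)
    · exact ⟨hb, Or.inl hL.2.1⟩
    · exact absurd rfl (LL_tb76 hL).2

/-- three or more members at `u`: every visible neighbour has weight at least `4 - 2 k` -/
theorem sum_ge (P : G.Prt Fa K u v q q' c c' x y) (h2 : 2 ≤ (G.I Fa u).card) {n : ℕ}
    (hn : (G.nR Fa u).card ≤ n) :
    (n : ℤ) * (4 - 2 * ((G.I Fa u).card : ℤ)) ≤ ∑ z ∈ G.nR Fa u, G.w5 Fa z u := by
  have h1 := card_nsmul_le_sum (G.nR Fa u) (fun z => G.w5 Fa z u)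
    (4 - 2 * ((G.I Fa u).card : ℤ)) (fun z _ => w5_ge16 P.lu h2 z)
  rw [nsmul_eq_mul] at h1
  have h3 : ((G.nR Fa u).card : ℤ) ≤ n := by exact_mod_cast hn
  have h4 : 4 - 2 * ((G.I Fa u).card : ℤ) ≤ 0 := by
    have : (2 : ℤ) ≤ ((G.I Fa u).card : ℤ) := by exact_mod_cast h2
    linarith
  nlinarith

/-- lower bound for the flags at any other member -/
theorem fl_any (P : G.Prt Fa K u v q q' c c' x y) (hr : G.Reg Fa) {B : Finset V}
    (hB : B ∈ G.I Fa u) (hBK : B ≠ K) : -2 ≤ G.flv (G.Co B) u - G.flv B u := by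
  obtain ⟨h1, h2⟩ := mem_I76.1 hB
  by_cases hv : v ∈ G.N B
  · exact (P.fl_M hr h1 hBK hv).1
  · exact (P.fl_x hr h1 hBK h2 hv).2.2.2.1

/-- three or more members: `c` in `M`, `c'` in another member -/
theorem big_cc (P : G.Prt Fa K u v q q' c c' x y) (hG : G.Gen5 Fa) {M' : Finset V} (hM : M ∈ Fa)
    (hc : c ∈ M) (hM' : M' ∈ Fa) (hc' : c' ∈ M') (hne : M ≠ M') : 3 ≤ G.ch5 Fa u := by
  classical
  have h9 := hG.n9
  have hr := hG.reg
  have hMK := P.McK hc
  have hMK' := P.sw.McK hc'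
  have hv : v ∈ G.N M := P.swap.MN hM hc
  have hv' : v ∈ G.N M' := P.swap.sw.MN hM' hc'
  obtain ⟨k1, k2⟩ := P.fl_K hr
  have m2 := (P.fl_M hr hM hMK hv).2.1 (fun h => hne (uniq16 hr hM hM' h.2 hc'))
  have m2' := (P.fl_M hr hM' hMK' hv').2.1 (fun h => hne (uniq16 hr hM hM' hc h.1))
  have e := (stCh5_28 G).low2 h9 Fa hr u P.uR P.lu
  rw [fg5] at e
  have hcR := notR16 hM hc
  have hcR' := notR16 hM' hc'
  by_cases hx : ∃ B ∈ Fa, x ∈ B ∧ B ≠ M ∧ B ≠ M'
  · obtain ⟨B, hB, hxB, hB1, hB2⟩ := hx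
    have hBK : B ≠ K := fun h => P.xK (h ▸ hxB)
    have hBI : B ∈ G.I Fa u := in_I16 hB hxB (mem_R76.1 P.uR B hB) P.xu
    have hI : G.I Fa u = {K, M, M', B} := by
      ext A
      simp only [mem_insert, mem_singleton]
      constructor
      · intro hA
        have hAF := (mem_I76.1 hA).1
        rcases P.I_cases hr hA with h | h | h | h
        · exact Or.inl h
        · exact Or.inr (Or.inl (uniq16 hr hAF hM h hc))
        · exact Or.inr (Or.inr (Or.inl (uniq16 hr hAF hM' h hc')))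
        · exact Or.inr (Or.inr (Or.inr (uniq16 hr hAF hB h hxB)))
      · rintro (rfl | rfl | rfl | rfl)
        · exact P.KI
        · exact P.MI hM hc
        · exact P.sw.MI hM' hc'
        · exact hBI
    have hcard : (G.I Fa u).card = 4 := by
      rw [hI, card_insert_of_notMem, card_insert_of_notMem, card_pair hB2.symm]
      · simp only [mem_insert, mem_singleton, not_or]
        exact ⟨hne, hB1.symm⟩
      · simp only [mem_insert, mem_singleton, not_or]
        exact ⟨hMK.symm, hMK'.symm, hBK.symm⟩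
    have hR : (G.nR Fa u).card ≤ 1 := by
      rw [card_le_one]
      have : ∀ w ∈ G.nR Fa u, w = v := by
        intro w hw
        rcases P.nR_cases hw with h | h | h | h
        · exact h
        · exact absurd (h ▸ (mem_nR76.1 hw).2) hcR
        · exact absurd (h ▸ (mem_nR76.1 hw).2) hcR'
        · exact absurd (h ▸ (mem_nR76.1 hw).2) (notR16 hB hxB)
      exact fun a ha b hb => (this a ha).trans (this b hb).symm
    have h1 := P.sum_ge (by omega) hR
    have h2 := P.fl_any hr hBI hBK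
    rw [hI] at e
    rw [sum_insert, sum_insert, sum_pair hB2.symm] at e
    · rw [← hI, hcard] at e
      rw [hcard] at h1
      push_cast at e h1
      omega
    · simp only [mem_insert, mem_singleton, not_or]
      exact ⟨hne, hB1.symm⟩
    · simp only [mem_insert, mem_singleton, not_or]
      exact ⟨hMK.symm, hMK'.symm, hBK.symm⟩
  · push Not at hx
    have hI : G.I Fa u = {K, M, M'} := by
      ext A
      simp only [mem_insert, mem_singleton]
      constructor
      · intro hA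
        have hAF := (mem_I76.1 hA).1
        rcases P.I_cases hr hA with h | h | h | h
        · exact Or.inl h
        · exact Or.inr (Or.inl (uniq16 hr hAF hM h hc))
        · exact Or.inr (Or.inr (uniq16 hr hAF hM' h hc'))
        · by_cases h3 : A = M
          · exact Or.inr (Or.inl h3)
          · exact Or.inr (Or.inr (hx A hAF h h3))
      · rintro (rfl | rfl | rfl)
        · exact P.KI
        · exact P.MI hM hc
        · exact P.sw.MI hM' hc'
    have hcard : (G.I Fa u).card = 3 := by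
      rw [hI, card_insert_of_notMem, card_pair hne]
      simp only [mem_insert, mem_singleton, not_or]
      exact ⟨hMK.symm, hMK'.symm⟩
    have hR : (G.nR Fa u).card ≤ 2 := by
      have h1 : G.nR Fa u ⊆ {v, x} := by
        intro w hw
        rw [mem_insert, mem_singleton]
        rcases P.nR_cases hw with h | h | h | h
        · exact Or.inl h
        · exact absurd (h ▸ (mem_nR76.1 hw).2) hcR
        · exact absurd (h ▸ (mem_nR76.1 hw).2) hcR'
        · exact Or.inr h
      exact (card_le_card h1).trans card_le_two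
    have h1 := P.sum_ge (by omega) hR
    rw [hI] at e
    rw [sum_insert, sum_pair hne] at e
    · rw [← hI, hcard] at e
      rw [hcard] at h1
      push_cast at e h1
      omega
    · simp only [mem_insert, mem_singleton, not_or]
      exact ⟨hMK.symm, hMK'.symm⟩

/-- three members: `c` in `M`, `c'` in `M` or visible, `x` in a third member -/
theorem big_x (P : G.Prt Fa K u v q q' c c' x y) (hG : G.Gen5 Fa) {B : Finset V} (hM : M ∈ Fa)
    (hc : c ∈ M) (hcc : c' ∈ M ∨ c' ∈ R Fa) (hB : B ∈ Fa) (hxB : x ∈ B) (hB1 : B ≠ M) :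
    3 ≤ G.ch5 Fa u ∧ (c' ∈ M → y ∉ M → 4 ≤ G.ch5 Fa u) ∧
      (c' ∈ M → v ∉ G.N B → 5 ≤ G.ch5 Fa u) := by
  classical
  have h9 := hG.n9
  have hr := hG.reg
  have hMK := P.McK hc
  have hv : v ∈ G.N M := P.swap.MN hM hc
  have hBK : B ≠ K := fun h => P.xK (h ▸ hxB)
  have hBI : B ∈ G.I Fa u := in_I16 hB hxB (mem_R76.1 P.uR B hB) P.xu
  obtain ⟨k1, k2⟩ := P.fl_K hr
  obtain ⟨m1, m2, m3, m4, m5⟩ := P.fl_M hr hM hMK hv
  have e := (stCh5_28 G).low2 h9 Fa hr u P.uR P.lu
  rw [fg5] at e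
  have hcR := notR16 hM hc
  have hxR := notR16 hB hxB
  have hI : G.I Fa u = {K, M, B} := by
    ext A
    simp only [mem_insert, mem_singleton]
    constructor
    · intro hA
      have hAF := (mem_I76.1 hA).1
      rcases P.I_cases hr hA with h | h | h | h
      · exact Or.inl h
      · exact Or.inr (Or.inl (uniq16 hr hAF hM h hc))
      · rcases hcc with h3 | h3
        · exact Or.inr (Or.inl (uniq16 hr hAF hM h h3))
        · exact absurd h3 (notR16 hAF h)
      · exact Or.inr (Or.inr (uniq16 hr hAF hB h hxB))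
    · rintro (rfl | rfl | rfl)
      · exact P.KI
      · exact P.MI hM hc
      · exact hBI
  have hcard : (G.I Fa u).card = 3 := by
    rw [hI, card_insert_of_notMem, card_pair hB1.symm]
    simp only [mem_insert, mem_singleton, not_or]
    exact ⟨hMK.symm, hBK.symm⟩
  have e' : G.ch5 Fa u = 8 + ∑ z ∈ G.nR Fa u, G.w5 Fa z u + ((G.flv (G.Co K) u - G.flv K u) +
      ((G.flv (G.Co M) u - G.flv M u) + (G.flv (G.Co B) u - G.flv B u))) := by
    rw [hI] at e
    rw [sum_insert, sum_pair hB1.symm] at e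
    · rw [← hI, hcard] at e
      push_cast at e
      omega
    · simp only [mem_insert, mem_singleton, not_or]
      exact ⟨hMK.symm, hBK.symm⟩
  have hvw := w5_free16 (Fa := Fa) h9 P.lu (Or.inl P.lv : G.Low v ∨ ∃ b, G.HL v b u)
  have hvn : v ∈ G.nR Fa u := mem_nR76.2 ⟨P.vu, P.vR⟩
  -- `v` is not in `N B`
  have hvB : v ∉ G.N B → 0 ≤ G.w5 Fa v u := by
    intro h
    have h1 : G.m Fa v u ≤ 2 := by
      have h2 : G.I Fa v ∩ G.I Fa u ⊆ {K, M} := by
        intro A hA
        obtain ⟨h3, h4⟩ := mem_inter.1 hA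
        rw [hI, mem_insert, mem_insert, mem_singleton] at h4
        rw [mem_insert, mem_singleton]
        rcases h4 with h5 | h5 | h5
        · exact Or.inl h5
        · exact Or.inr h5
        · exact absurd (h5 ▸ (mem_I76.1 h3).2) h
      exact (card_le_card h2).trans card_le_two
    omega
  have hflB : v ∈ G.N B → 0 ≤ G.flv (G.Co B) u - G.flv B u := fun h =>
    (P.fl_M hr hB hBK h).2.1 (fun h2 => hB1 (uniq16 hr hB hM h2.1 hc))
  rcases hcc with hc' | hc'
  · have hcR' := notR16 hM hc'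
    have hnR : G.nR Fa u = {v} := by
      ext w
      rw [mem_singleton]
      constructor
      · intro hw
        rcases P.nR_cases hw with h | h | h | h
        · exact h
        · exact absurd (h ▸ (mem_nR76.1 hw).2) hcR
        · exact absurd (h ▸ (mem_nR76.1 hw).2) hcR'
        · exact absurd (h ▸ (mem_nR76.1 hw).2) hxR
      · rintro rfl
        exact hvn
    rw [hnR, sum_singleton] at e'
    have h3 : -2 ≤ G.w5 Fa v u := by
      have := w5_ge16 (Fa := Fa) P.lu (by omega : 2 ≤ (G.I Fa u).card) v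
      rw [hcard] at this
      push_cast at this
      omega
    by_cases hvN : v ∈ G.N B
    · have h4 := hflB hvN
      exact ⟨by omega, fun _ hy => by have := m3 hy; omega, fun _ h => absurd hvN h⟩
    · have h4 : 0 ≤ G.flv (G.Co B) u - G.flv B u := by
        apply (P.fl_x hr hB hBK (mem_I76.1 hBI).2 hvN).2.2.2.2
        intro hH
        have h5 := ((stTy5_87 G).hf _ u hH).1
        have h6 : ({q, q', v, c, c'} : Finset V) ⊆ G.pX (G.Co B) u := by
          have hMB : ∀ w ∈ M, w ∈ G.Co B := fun w hw => mem_Co76.2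
            ⟨fun h7 => hB1 (uniq16 hr hB hM h7 hw),
              fun h7 => disjoint_left.1 (hr.dis B hB M hM hB1).2 h7 hw⟩
          intro w hw
          simp only [mem_insert, mem_singleton] at hw
          rcases hw with rfl | rfl | rfl | rfl | rfl
          · exact mem_inter.2 ⟨P.mem.2 (Or.inl rfl), P.KCo hr hB hBK P.hq⟩
          · exact mem_inter.2 ⟨P.mem.2 (Or.inr (Or.inl rfl)), P.KCo hr hB hBK P.hq'⟩
          · exact mem_inter.2 ⟨P.vu, mem_Co76.2 ⟨mem_R76.1 P.vR B hB, hvN⟩⟩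
          · exact mem_inter.2 ⟨P.cu, hMB _ hc⟩
          · exact mem_inter.2 ⟨P.cu', hMB _ hc'⟩
        have h7 : ({q, q', v, c, c'} : Finset V).card = 5 := by
          obtain ⟨⟨n1, n2, n3, n4, -⟩, ⟨n5, n6, n7, -⟩, ⟨n8, n9, -⟩, ⟨n10, -⟩, -⟩ := P.neU
          rw [card_insert_of_notMem, card_insert_of_notMem, card_insert_of_notMem, card_pair n10]
          · simp only [mem_insert, mem_singleton, not_or]
            exact ⟨n8, n9⟩
          · simp only [mem_insert, mem_singleton, not_or]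
            exact ⟨n5, n6, n7⟩
          · simp only [mem_insert, mem_singleton, not_or]
            exact ⟨n1, n2, n3, n4⟩
        have h8 := card_le_card h6
        omega
      have h5 := hvB hvN
      exact ⟨by omega, fun _ hy => by omega, fun _ _ => by omega⟩
  · have hc'M : c' ∉ M := fun h => notR16 hM h hc'
    have h2 := m2 (fun h => hc'M h.2)
    have hne := P.neU.2.2.1.2.1
    have hnR : G.nR Fa u = {v, c'} := by
      ext w
      rw [mem_insert, mem_singleton]
      constructor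
      · intro hw
        rcases P.nR_cases hw with h | h | h | h
        · exact Or.inl h
        · exact absurd (h ▸ (mem_nR76.1 hw).2) hcR
        · exact Or.inr h
        · exact absurd (h ▸ (mem_nR76.1 hw).2) hxR
      · rintro (rfl | rfl)
        · exact hvn
        · exact mem_nR76.2 ⟨P.cu', hc'⟩
    rw [hnR, sum_pair hne] at e'
    have h3 : ∀ w, -2 ≤ G.w5 Fa w u := fun w => by
      have := w5_ge16 (Fa := Fa) P.lu (by omega : 2 ≤ (G.I Fa u).card) w
      rw [hcard] at this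
      push_cast at this
      omega
    have h4 := h3 v
    have h5 := h3 c'
    refine ⟨?_, fun h => absurd h hc'M, fun h => absurd h hc'M⟩
    by_cases hvN : v ∈ G.N B
    · have := hflB hvN
      omega
    · have h6 := hvB hvN
      have h7 := P.fl_any hr hBI hBK
      omega

/-- three or more members at `u` -/
theorem ge_big (P : G.Prt Fa K u v q q' c c' x y) (hG : G.Gen5 Fa) (hM : M ∈ Fa) (hc : c ∈ M)
    (h3 : (G.I Fa u).card ≠ 2) : 3 ≤ G.ch5 Fa u := by
  have hr := hG.reg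
  by_cases h1 : ∃ M' ∈ Fa, c' ∈ M' ∧ M ≠ M'
  · obtain ⟨M', hM', hc', hne⟩ := h1
    exact P.big_cc hG hM hc hM' hc' hne
  · push Not at h1
    have hcc : c' ∈ M ∨ c' ∈ R Fa := by
      by_cases h2 : c' ∈ R Fa
      · exact Or.inr h2
      · obtain ⟨A, hA, hA'⟩ := hidR16 h2
        exact Or.inl (h1 A hA hA' ▸ hA')
    by_cases h2 : ∃ B ∈ Fa, x ∈ B ∧ B ≠ M
    · obtain ⟨B, hB, hxB, hB1⟩ := h2
      exact (P.big_x hG hM hc hcc hB hxB hB1).1
    · push Not at h2
      exfalso
      apply h3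
      have : G.I Fa u = {K, M} := by
        ext A
        rw [mem_insert, mem_singleton]
        constructor
        · intro hA
          have hAF := (mem_I76.1 hA).1
          rcases P.I_cases hr hA with h | h | h | h
          · exact Or.inl h
          · exact Or.inr (uniq16 hr hAF hM h hc)
          · exact Or.inr (h1 A hAF h).symm
          · exact Or.inr (h2 A hAF h)
        · rintro (rfl | rfl)
          · exact P.KI
          · exact P.MI hM hc
      rw [this, card_pair (P.McK hc).symm]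

/-- **P1.** A common neighbour in another member, the ports do not only see `K`, `M`, `N M`, `N K` -/
theorem P1 (P : G.Prt Fa K u v q q' c c' x y) (hG : G.Gen5 Fa) (hM : M ∈ Fa) (hc : c ∈ M)
    (hn : ¬ G.AlQ K M u v) : 2 ≤ G.ch5 Fa u + G.ch5 Fa v := by
  have hr := hG.reg
  have PS := P.swap
  by_cases hu : (G.I Fa u).card = 2
  · have hu1 := P.ge_m1 hG hM hc hu
    by_cases hv : (G.I Fa v).card = 2
    · have hv1 := PS.ge_m1 hG hM hc hv
      by_cases h1 : c' ∉ M ∧ c' ∉ G.N M ∧ c' ∉ G.N K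
      · have h2 := P.ge_1 hG hM hc hu h1.1 h1.2.1 h1.2.2
        have h3 := PS.ge_1 hG hM hc hv h1.1 h1.2.1 h1.2.2
        omega
      · by_cases h2 : x ∉ M ∧ x ∉ G.N M ∧ x ∉ G.N K
        · obtain ⟨hxM, hxN, hxK⟩ := h2
          have hxR := P.vis_two hM hc hu P.xu P.xK hxM
          obtain ⟨hR, hl⟩ := P.cover_x hG hM hc hxR (P.m_zero hM hc hu hxK hxN)
          have hM' : c' ∉ M := fun h => notR16 hM h hR
          by_cases hK : c' ∈ G.N K
          · have h3 := (P.ge_2 hG hM hc hu hM' hK).2 hxM hxN hxK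
            have h4 := (PS.ge_2 hG hM hc hv hM' hK).1
            omega
          · have h3 := P.ge_3 hG hM hc hu hM' hK hl hxM hxN hxK
            omega
        · by_cases h3 : y ∉ M ∧ y ∉ G.N M ∧ y ∉ G.N K
          · obtain ⟨hyM, hyN, hyK⟩ := h3
            have hyR := PS.vis_two hM hc hv PS.xu PS.xK hyM
            obtain ⟨hR, hl⟩ := PS.cover_x hG hM hc hyR (PS.m_zero hM hc hv hyK hyN)
            have hM' : c' ∉ M := fun h => notR16 hM h hR
            by_cases hK : c' ∈ G.N K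
            · have h3 := (PS.ge_2 hG hM hc hv hM' hK).2 hyM hyN hyK
              have h4 := (P.ge_2 hG hM hc hu hM' hK).1
              omega
            · have h3 := PS.ge_3 hG hM hc hv hM' hK hl hyM hyN hyK
              omega
          · exfalso
            apply hn
            have hside : ∀ w, ¬ (w ∉ M ∧ w ∉ G.N M ∧ w ∉ G.N K) →
                w ∈ K ∨ w ∈ M ∨ w ∈ G.N M ∨ w ∈ G.N K := by
              intro w hw
              tauto
            refine ⟨P.MN hM hc, PS.MN hM hc, P.uK, P.vK, ?_, ⟨q, P.hq, G.sym _ _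
              (P.mem.2 (Or.inl rfl)), G.sym _ _ (P.memv.2 (Or.inl rfl))⟩, ?_, ?_⟩
            · intro h
              have := P.vu
              rw [h] at this
              exact G.irr _ this
            · intro w hw
              rcases P.mem.1 hw with h | h | h | h | h | h
              · exact Or.inl (h ▸ P.hq)
              · exact Or.inl (h ▸ P.hq')
              · exact Or.inr (Or.inr (Or.inr (h ▸ P.vN)))
              · exact Or.inr (Or.inl (h ▸ hc))
              · exact h ▸ hside c' h1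
              · exact h ▸ hside x h2
            · intro w hw
              rcases P.memv.1 hw with h | h | h | h | h | h
              · exact Or.inl (h ▸ P.hq)
              · exact Or.inl (h ▸ P.hq')
              · exact Or.inr (Or.inr (Or.inr (h ▸ P.uN)))
              · exact Or.inr (Or.inl (h ▸ hc))
              · exact h ▸ hside c' h1
              · exact h ▸ hside y h3
    · have := PS.ge_big hG hM hc hv
      omega
  · have h1 := P.ge_big hG hM hc hu
    by_cases hv : (G.I Fa v).card = 2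
    · have := PS.ge_m1 hG hM hc hv
      omega
    · have := PS.ge_big hG hM hc hv
      omega

/-- nobody else asks `u` and `v` -/
theorem fc_pair (P : G.Prt Fa K u v q q' c c' x y) (hG : G.Gen6 Fa)
    (hu : ∀ z ∈ R Fa, z ≠ v → G.dn5 Fa u z = 0) (hv : ∀ z ∈ R Fa, z ≠ u → G.dn5 Fa v z = 0) :
    2 * (G.ch5 Fa u + G.ch5 Fa v) ≤ G.fc Fa u + G.fc Fa v := by
  have h1 : ∑ z ∈ R Fa, G.dn5 Fa u z = G.dn5 Fa u v :=
    sum_eq_single_of_mem v P.vR hu
  have h2 : ∑ z ∈ R Fa, G.dn5 Fa v z = G.dn5 Fa v u :=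
    sum_eq_single_of_mem u P.uR hv
  have h3 : G.dn5 Fa v u ≤ ∑ z ∈ R Fa, G.dn5 Fa z u :=
    single_le_sum (f := fun z => G.dn5 Fa z u) (fun z _ => dn5_nonneg76 hG z u) P.vR
  have h4 : G.dn5 Fa u v ≤ ∑ z ∈ R Fa, G.dn5 Fa z v :=
    single_le_sum (f := fun z => G.dn5 Fa z v) (fun z _ => dn5_nonneg76 hG z v) P.uR
  rw [fc, fc, h1, h2]
  linarith

end Prt

end CG

end Pool.Agent.Lib.MP_e95c01_co.N
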