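import Pool.Agent.Lib.MP_e95c01_co.Y.Prt16
import Pool.Agent.Lib.MP_e95c01_co.Y.StPort36
import Pool.Agent.Lib.MP_e95c01_co.X.K3a_28

/-!
# Port pairs of the `K6` members of a thick torso: both common neighbours in the torso, one of the
two ports in a second neighbourhood
-/

set_option autoImplicit false

namespace Pool.Agent.Lib.MP_e95c01_co.N

open Finset

variable {V : Type} [Fintype V] [DecidableEq V]

namespace CG

variable {G : CG V} {Fa : Finset (Finset V)}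

/-- the names of `Prt` from the names of `LPt` -/
theorem LPt.toP53 {K : Finset V} {q q' u v c d x y : V} (h : G.LPt Fa K q q' u v c d x y)
    (hG : G.Gen6 Fa) : G.Prt Fa K u v q q' c d x y where
  hK := h.mem
  hS := h.k6
  hq := h.qK
  hq' := h.qK'
  tw := by
    obtain ⟨r, hr⟩ := h.k6.2.1 q h.qK
    have h1 := k6_twin16 hG.g5.crit hG.g5.n9 h.k6 h.qK hr
    have h2 : u ∈ G.nb r := by
      have h3 : u ∈ G.cl r := by
        rw [← hr.2.2]
        exact mem_insert_of_mem (G.sym _ _ (h.memu.2 (by tauto)))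
      rcases mem_insert.1 h3 with h4 | h4
      · exact absurd (h4 ▸ h1) h.uK
      · exact h4
    rcases h.nbK hG (G.sym _ _ h2) h1 with h3 | h3
    · exact absurd h3.symm (ne_of_nb5 hr.1)
    · exact h3 ▸ hr
  uR := h.uR hG.g5.reg
  vR := h.symm.uR hG.g5.reg
  ll := h.ll
  nbu := h.nu
  nbv := h.nv
  inK := by
    rintro w hw (h1 | h1)
    · exact h.nbK hG h1 hw
    · exact h.symm.nbK hG h1 hw
  ports := fun w hw hwK => h.nbq hG hw hwK

namespace Prt

variable {K M M' : Finset V} {u v q q' c c' x y : V}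

/-- the neighbours in the torso if `c`, `c'` are visible and `x` is hidden -/
theorem nR_x53 (P : G.Prt Fa K u v q q' c c' x y) (hc : c ∈ R Fa) (hc' : c' ∈ R Fa)
    (hM : M ∈ Fa) (hx : x ∈ M) : G.nR Fa u = {v, c, c'} := by
  ext w
  rw [mem_nR76, P.mem]
  simp only [mem_insert, mem_singleton]
  constructor
  · rintro ⟨rfl | rfl | rfl | rfl | rfl | rfl, h2⟩
    · exact absurd P.hq (mem_R76.1 h2 K P.hK)
    · exact absurd P.hq' (mem_R76.1 h2 K P.hK)
    · exact Or.inl rfl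
    · exact Or.inr (Or.inl rfl)
    · exact Or.inr (Or.inr rfl)
    · exact absurd hx (mem_R76.1 h2 M hM)
  · rintro (rfl | rfl | rfl)
    · exact ⟨by tauto, P.vR⟩
    · exact ⟨by tauto, hc⟩
    · exact ⟨by tauto, hc'⟩

/-- only the member with `x` can be a second neighbourhood -/
theorem I_x53 (P : G.Prt Fa K u v q q' c c' x y) (hr : G.Reg Fa) (hc : c ∈ R Fa)
    (hc' : c' ∈ R Fa) (hM : M ∈ G.I Fa u) (hMK : M ≠ K) : x ∈ M := by
  obtain ⟨hM1, hM2⟩ := mem_I76.1 hM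
  obtain ⟨-, w, hw, hwu⟩ := mem_N76.1 hM2
  rcases P.mem.1 (G.sym _ _ hwu) with rfl | rfl | rfl | rfl | rfl | rfl
  · exact absurd P.hq (P.dis hr hM1 hMK hw)
  · exact absurd P.hq' (P.dis hr hM1 hMK hw)
  · exact absurd hw (mem_R76.1 P.vR M hM1)
  · exact absurd hw (mem_R76.1 hc M hM1)
  · exact absurd hw (mem_R76.1 hc' M hM1)
  · exact hw

/-- the members at `u` -/
theorem I_eq53 (P : G.Prt Fa K u v q q' c c' x y) (hr : G.Reg Fa) (hc : c ∈ R Fa)
    (hc' : c' ∈ R Fa) (hM : M ∈ Fa) (hMK : M ≠ K) (hx : x ∈ M) : G.I Fa u = {K, M} := by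
  ext B
  rw [mem_insert, mem_singleton]
  constructor
  · intro hB
    by_cases hBK : B = K
    · exact Or.inl hBK
    · right
      by_contra hBM
      exact disjoint_left.1 (hr.dis B (mem_I76.1 hB).1 M hM hBM).1
        (P.I_x53 hr hc hc' hB hBK) hx
  · rintro (rfl | rfl)
    · exact P.KI
    · exact I_of_nb76 P.uR hM P.xu hx

/-- the flag of `u` at `K` if `u` or `v` has a third neighbour in `N K` -/
theorem fl_K53 (P : G.Prt Fa K u v q q' c c' x y) (hr : G.Reg Fa)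
    (hz : c ∈ G.N K ∨ c' ∈ G.N K ∨ y ∈ G.N K) : 0 ≤ G.flv (G.Co K) u - G.flv K u := by
  classical
  have n := P.neU
  rcases hz with h | h | hy
  · exact (P.fl_K hr).2 ⟨c, P.cu, Ne.symm n.2.2.1.1, h⟩
  · exact (P.fl_K hr).2 ⟨c', P.cu', Ne.symm n.2.2.1.2.1, h⟩
  have hF := hr.frag K P.hK
  obtain ⟨e1, e2, e3⟩ := (stTy5_87 G).co K hF u
  have hvT : v ∈ G.pT K u := mem_inter.2 ⟨P.vu, P.vN⟩
  have hvT' : v ∈ G.pT (G.Co K) u := by rw [e2]; exact hvT
  have h1 := flv_up16 P.lu (no_U3 P.lv hvT)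
  have h2 := flv_lo16 P.lu (no_T3 P.lv hvT') (no_HF P.lv hvT')
  have hXv := P.pXK
  have hXu := P.swap.pXK
  suffices G.s5 K u ≤ 0 by omega
  unfold s5
  rw [if_neg, if_neg]
  · rintro ⟨v', h3, h4⟩
    obtain rfl := S0_eq hvT h3
    have h5 : y ∈ G.pT K v' := mem_inter.2 ⟨P.swap.xu, hy⟩
    rw [h4, mem_singleton] at h5
    exact P.swap.neU.2.2.1.2.2 h5.symm
  · rintro ⟨v', h3, h4⟩
    obtain rfl := S0_eq hvT h3
    exact h4 ⟨⟨x, y, P.ll⟩, by rw [hXv, hXu]⟩

/-- the weight of a common neighbour at `u` -/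
theorem w_c53 (P : G.Prt Fa K u v q q' c c' x y) (hG : G.Gen5 Fa) (hMK : M ≠ K)
    (hI : G.I Fa u = {K, M}) :
    0 ≤ G.w5 Fa c u ∧ (G.IsTw c → 1 ≤ G.w5 Fa c u) ∧ (G.Low c → c ∉ G.N K → 2 ≤ G.w5 Fa c u) ∧
      (c ∉ G.N M → 2 ≤ G.w5 Fa c u) ∧ (¬ G.Low c → G.pay5 Fa u c = 0 → 2 ≤ G.w5 Fa c u) := by
  have h0 : G.m Fa c u ≤ 2 := by
    have e : (G.I Fa u).card = 2 := by rw [hI, card_pair (Ne.symm hMK)]
    rw [← e]
    exact card_le_card inter_subset_right
  have hl : c ∈ G.N K → G.Low c := fun h => (k6_low16 hG.crit hG.n9 P.hS h).1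
  have h1 : c ∉ G.N K → G.m Fa c u ≤ 1 := by
    intro hc
    have h1 : G.I Fa c ∩ G.I Fa u ⊆ {M} := by
      intro B hB
      obtain ⟨hB1, hB2⟩ := mem_inter.1 hB
      rw [hI, mem_insert, mem_singleton] at hB2
      rcases hB2 with rfl | rfl
      · exact absurd (mem_I76.1 hB1).2 hc
      · exact mem_singleton_self _
    exact (card_le_card h1).trans (card_singleton M).le
  have h2 : c ∉ G.N M → G.m Fa c u ≤ 1 := by
    intro hc
    have h1 : G.I Fa c ∩ G.I Fa u ⊆ {K} := by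
      intro B hB
      obtain ⟨hB1, hB2⟩ := mem_inter.1 hB
      rw [hI, mem_insert, mem_singleton] at hB2
      rcases hB2 with rfl | rfl
      · exact mem_singleton_self _
      · exact absurd (mem_I76.1 hB1).2 hc
    exact (card_le_card h1).trans (card_singleton K).le
  have h3 : c ∉ G.N K → c ∉ G.N M → G.m Fa c u = 0 := by
    intro hc hc'
    rw [m, card_eq_zero, eq_empty_iff_forall_notMem]
    intro B hB
    obtain ⟨hB1, hB2⟩ := mem_inter.1 hB
    rw [hI, mem_insert, mem_singleton] at hB2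
    rcases hB2 with rfl | rfl
    · exact hc (mem_I76.1 hB1).2
    · exact hc' (mem_I76.1 hB1).2
  refine ⟨K28.w5_nonneg h0, fun h => K28.w5_tw h (h1 fun h4 => tw_not_low76 h (hl h4)),
    fun h h4 => ?_, fun h => ?_, fun h h4 => ?_⟩
  · have := h1 h4
    rw [K28.w5_low h]
    omega
  · by_cases hc : c ∈ G.N K
    · have := h2 h
      rw [K28.w5_low (hl hc)]
      omega
    · exact K28.w5_zero (h3 hc h)
  · exact K28.w5_unpaid (h1 fun h5 => h (hl h5)) h4

/-- the weights of the common neighbours if `u` has a flag `HF` -/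
theorem HF_w53 (P : G.Prt Fa K u v q q' c c' x y) (hG : G.Gen5 Fa)
    (hM : M ∈ Fa) (hMK : M ≠ K) (hI : G.I Fa u = {K, M})
    (hx : x ∈ M) (h : G.HF (G.Co M) u) : 4 ≤ G.w5 Fa c u + G.w5 Fa c' u := by
  have hr := hG.reg
  obtain ⟨-, -, -, a, b, h1, h2, h3, h4⟩ := h
  obtain ⟨-, e2, -⟩ := (stTy5_87 G).co M (hr.frag M hM) u
  rw [e2] at h4
  have h5 : a ∈ G.pT M u := by
    rw [h4]
    exact mem_singleton_self _
  obtain ⟨h6, h7⟩ := mem_inter.1 h5
  have n := P.neU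
  have w := P.w_c53 hG hMK hI
  have w' := P.sw.w_c53 hG hMK hI
  rcases P.mem.1 h6 with rfl | rfl | rfl | rfl | rfl | rfl
  · exact absurd P.hq (disjoint_left.1 (hr.dis M hM K P.hK hMK).2 h7)
  · exact absurd P.hq' (disjoint_left.1 (hr.dis M hM K P.hK hMK).2 h7)
  · exact absurd P.lv (HL_not_low76 h1)
  · have e3 := w.2.2.2.2 (HL_not_low76 h1) (K28.pay_HL hG.n9 P.lu h1)
    have e4 : c' ∉ G.N M := fun h8 => by
      have h9 : c' ∈ G.pT M u := mem_inter.2 ⟨P.cu', h8⟩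
      rw [h4, mem_singleton] at h9
      exact n.2.2.2.1.1 h9.symm
    have e5 := w'.2.2.2.1 e4
    omega
  · have e3 := w'.2.2.2.2 (HL_not_low76 h1) (K28.pay_HL hG.n9 P.lu h1)
    have e4 : c ∉ G.N M := fun h8 => by
      have h9 : c ∈ G.pT M u := mem_inter.2 ⟨P.cu, h8⟩
      rw [h4, mem_singleton] at h9
      exact n.2.2.2.1.1 h9
    have e5 := w.2.2.2.1 e4
    omega
  · exact absurd hx (mem_N76.1 h7).1

/-- the charge of a port in two neighbourhoods, the common neighbours visible; `e = 1` if `u` or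
`v` has a third neighbour in `N K` -/
theorem ch_two53 (P : G.Prt Fa K u v q q' c c' x y) (hG : G.Gen5 Fa) (hc : c ∈ R Fa)
    (hc' : c' ∈ R Fa) (hM : M ∈ Fa) (hMK : M ≠ K) (hx : x ∈ M) :
    (v ∈ G.N M → G.w5 Fa c u + G.w5 Fa c' u - 1 ≤ G.ch5 Fa u) ∧
    (v ∉ G.N M → (G.w5 Fa c u + G.w5 Fa c' u + 1 ≤ G.ch5 Fa u ∨ 3 ≤ G.ch5 Fa u) ∧
      (c ∈ G.N K ∨ c' ∈ G.N K ∨ y ∈ G.N K →
        G.w5 Fa c u + G.w5 Fa c' u + 2 ≤ G.ch5 Fa u ∨ 3 ≤ G.ch5 Fa u)) := by
  classical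
  have hr := hG.reg
  have hI := P.I_eq53 hr hc hc' hM hMK hx
  have e0 := (stCh5_28 G).low2 hG.n9 Fa hr u P.uR P.lu
  have ek : (G.I Fa u).card = 2 := by rw [hI, card_pair (Ne.symm hMK)]
  have n := P.neU
  have es : ∑ w ∈ G.nR Fa u, G.w5 Fa w u = G.w5 Fa v u + (G.w5 Fa c u + G.w5 Fa c' u) := by
    rw [P.nR_x53 hc hc' hM hx, sum_insert, sum_pair n.2.2.2.1.1]
    rw [mem_insert, mem_singleton, not_or]
    exact ⟨n.2.2.1.1, n.2.2.1.2.1⟩
  have ef : G.fg5 Fa u = (G.flv (G.Co K) u - G.flv K u) + (G.flv (G.Co M) u - G.flv M u) := by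
    rw [fg5, hI, sum_pair (Ne.symm hMK)]
  have f1 := P.fl_K hr
  have huM : u ∈ G.N M := (mem_I76.1 (show M ∈ G.I Fa u by rw [hI]; simp)).2
  have hvl := K28.w5_low (G := G) (Fa := Fa) (x := v) (z := u) P.lv
  have hm2 : G.m Fa v u ≤ 2 := by
    rw [← ek]
    exact card_le_card inter_subset_right
  have hm1 : v ∉ G.N M → G.m Fa v u ≤ 1 := by
    intro hv
    have h1 : G.I Fa v ∩ G.I Fa u ⊆ {K} := by
      intro B hB
      obtain ⟨hB1, hB2⟩ := mem_inter.1 hB
      rw [hI, mem_insert, mem_singleton] at hB2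
      rcases hB2 with rfl | rfl
      · exact mem_singleton_self _
      · exact absurd (mem_I76.1 hB1).2 hv
    exact (card_le_card h1).trans (card_singleton K).le
  rw [es, ek, ef, hvl] at e0
  push_cast at e0
  by_cases hv : v ∈ G.N M
  · have f2 := (P.fl_M hr hM hMK hv).2.2.2.2 hx
    exact ⟨fun _ => by omega, fun h => absurd hv h⟩
  · have f2 := P.fl_x hr hM hMK huM hv
    have h1 := hm1 hv
    refine ⟨fun h => absurd h hv, fun _ => ?_⟩
    by_cases hH : G.HF (G.Co M) u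
    · have h2 := P.HF_w53 hG hM hMK hI hx hH
      have f3 := f2.2.2.2.1
      exact ⟨by omega, fun _ => by omega⟩
    · have f3 := f2.2.2.2.2 hH
      refine ⟨by omega, fun hy => ?_⟩
      have f4 := P.fl_K53 hr hy
      omega

/-- the charge of a port in one neighbourhood, everything visible -/
theorem ch_one53 (P : G.Prt Fa K u v q q' c c' x y) (hG : G.Gen5 Fa) (hc : c ∈ R Fa)
    (hc' : c' ∈ R Fa) (hx : x ∈ R Fa) :
    -1 ≤ G.ch5 Fa u ∧ (c ∈ G.N K ∨ c' ∈ G.N K ∨ x ∈ G.N K ∨ y ∈ G.N K → 0 ≤ G.ch5 Fa u) ∧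
      ((∃ z ∈ G.NF Fa u, z ∉ G.N K) → 1 ≤ G.ch5 Fa u) := by
  classical
  have hr := hG.reg
  have hI : G.I Fa u = {K} := by
    ext B
    rw [mem_singleton]
    constructor
    · intro hB
      by_contra hBK
      exact mem_R76.1 hx B (mem_I76.1 hB).1 (P.I_x53 hr hc hc' hB hBK)
    · rintro rfl
      exact P.KI
  have h1 := (stCh5_28 G).low1 hG.n9 Fa hr u P.uR P.lu K hI
  have h2 := G.d_split76 u K
  have h3 : (G.nb u).card = 6 := P.lu
  have h4 : G.d u K = 2 := by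
    have h5 := P.pXK
    rw [pX] at h5
    rw [CG.d, h5, card_pair P.neU.1.1]
  have h5 : G.pT K u ⊆ G.NF Fa u := by
    intro z hz
    obtain ⟨hz1, hz2⟩ := mem_inter.1 hz
    exact mem_NF53.2 ⟨mem_nR76.2 ⟨hz1, N_sub_R76 hr P.hK hz2⟩,
      Or.inl (k6_low16 hG.crit hG.n9 P.hS hz2).1⟩
  have h6 := card_le_card h5
  have h8 : (∃ z ∈ G.NF Fa u, z ∉ G.N K) → (G.pT K u).card + 1 ≤ (G.NF Fa u).card := by
    rintro ⟨z, hz, hzN⟩
    rw [← card_insert_of_notMem (show z ∉ G.pT K u from fun h => hzN (mem_inter.1 h).2)]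
    exact card_le_card (insert_subset hz h5)
  rw [pT] at h6 h8
  have h9 : (0 : ℤ) ≤ ((G.NP Fa u).card : ℤ) := by positivity
  have f1 := P.fl_K hr
  have ef : G.fg5 Fa u = G.flv (G.Co K) u - G.flv K u := by
    rw [fg5, hI, sum_singleton]
  rw [ef] at h1
  have n := P.neU
  refine ⟨by omega, fun h => ?_, fun h => ?_⟩
  · have f2 : 0 ≤ G.flv (G.Co K) u - G.flv K u := by
      rcases h with h | h | h | h
      · exact P.fl_K53 hr (Or.inl h)
      · exact P.fl_K53 hr (Or.inr (Or.inl h))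
      · exact f1.2 ⟨x, P.xu, Ne.symm n.2.2.1.2.2, h⟩
      · exact P.fl_K53 hr (Or.inr (Or.inr h))
    omega
  · have := h8 h
    omega

/-- the edge `u x`, `x` visible, `y` hidden, `x` no port of `K` -/
theorem cov_x53 (P : G.Prt Fa K u v q q' c c' x y) (hG : G.Gen5 Fa) (hc : c ∈ R Fa)
    (hc' : c' ∈ R Fa) (hx : x ∈ R Fa) (hxK : x ∉ G.N K) (hy : y ∉ R Fa) :
    G.Low x ∨ G.Low c ∨ G.Low c' ∨ G.Tw c c' := by
  classical
  have hr := hG.reg
  by_cases hxl : G.Low x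
  · exact Or.inl hxl
  right
  have hI : ∀ B ∈ G.I Fa u, B = K := by
    intro B hB
    by_contra hBK
    exact mem_R76.1 hx B (mem_I76.1 hB).1 (P.I_x53 hr hc hc' hB hBK)
  have hm : G.m Fa u x = 0 := by
    rw [m, card_eq_zero, eq_empty_iff_forall_notMem]
    intro B hB
    obtain ⟨hB1, hB2⟩ := mem_inter.1 hB
    exact hxK (hI B hB1 ▸ (mem_I76.1 hB2).2)
  have n := P.neU
  have key : ∀ w, w ∈ G.nR Fa u → w ≠ v → w ≠ x → w = c ∨ w = c' := by
    intro w hw h1 h2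
    obtain ⟨h3, h4⟩ := mem_nR76.1 hw
    rcases P.mem.1 h3 with h | h | h | h | h | h
    · exact absurd P.hq (h ▸ mem_R76.1 h4 K P.hK)
    · exact absurd P.hq' (h ▸ mem_R76.1 h4 K P.hK)
    · exact absurd h h1
    · exact Or.inl h
    · exact Or.inr h
    · exact absurd h h2
  have hvx : v ∉ G.nb x := fun h => P.xv (G.sym _ _ h)
  rcases cov_lh86 hG P.uR (mem_nR76.2 ⟨P.xu, hx⟩) hm hxl with
    (⟨w, h1, h2, h3⟩ | ⟨e, f, h1, h2, h3, h4, h5⟩) | ⟨a, b, h1, h2, h3, h4, h5, h6⟩ |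
    ⟨a, b, h1, h2, h3, h4⟩
  · have h4 : w ≠ v := fun h => hvx (h ▸ (mem_nR76.1 h2).1)
    have h5 : w ≠ x := fun h => G.irr x (by
      have := (mem_nR76.1 h2).1
      rw [h] at this
      exact this)
    rcases key w h1 h4 h5 with rfl | rfl
    · exact Or.inl h3
    · exact Or.inr (Or.inl h3)
  · have e1 : ∀ w, w ∈ G.nR Fa u → w ∈ G.nR Fa x → w = c ∨ w = c' := by
      intro w hw hw'
      refine key w hw (fun h => hvx (h ▸ (mem_nR76.1 hw').1)) (fun h => G.irr x (by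
        have := (mem_nR76.1 hw').1
        rw [h] at this
        exact this))
    have hne : e ≠ f := ne_of_nb5 h5.1
    rcases e1 e h1 h3 with rfl | rfl <;> rcases e1 f h2 h4 with h7 | h7
    · exact absurd h7.symm hne
    · subst h7
      exact Or.inr (Or.inr h5)
    · subst h7
      exact Or.inr (Or.inr ((stTwHL_5 G).symm _ _ h5))
    · exact absurd h7.symm hne
  · exfalso
    have hau : a ∈ G.nb u := (mem_nR76.1 h1).1
    have haR := (mem_nR76.1 h1).2
    have hva : v ∈ G.cl a := by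
      rcases P.mem.1 hau with h | h | h | h | h | h
      · exact absurd P.hq (h ▸ mem_R76.1 haR K P.hK)
      · exact absurd P.hq' (h ▸ mem_R76.1 haR K P.hK)
      · rw [h]
        exact mem_insert_self _ _
      · rw [h]
        exact mem_insert_of_mem (G.sym _ _ P.cv)
      · rw [h]
        exact mem_insert_of_mem (G.sym _ _ P.cv')
      · exact absurd h.symm h6
    rw [h3.2.2.2.2] at hva
    rcases mem_insert.1 hva with h7 | h7
    · exact ne_of_nb5 P.vu h7.symm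
    rcases mem_insert.1 h7 with h8 | h8
    · exact h3.2.2.2.1 (mem_insert_of_mem (h8 ▸ G.sym _ _ P.vu))
    rcases P.memv.1 (G.sym _ _ h8) with h | h | h | h | h | h
    · exact absurd P.hq (h ▸ mem_R76.1 h2 K P.hK)
    · exact absurd P.hq' (h ▸ mem_R76.1 h2 K P.hK)
    · exact h3.2.2.2.1 (by rw [h]; exact mem_insert_self _ _)
    · exact h3.2.2.2.1 (by rw [h]; exact mem_insert_of_mem (G.sym _ _ P.cu))
    · exact h3.2.2.2.1 (by rw [h]; exact mem_insert_of_mem (G.sym _ _ P.cu'))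
    · exact hy (h ▸ h2)
  · by_cases hav : a = v
    · exfalso
      subst hav
      rcases P.memv.1 h4.2.2.1 with h | h | h | h | h | h
      · exact absurd P.hq (h ▸ mem_R76.1 h2 K P.hK)
      · exact absurd P.hq' (h ▸ mem_R76.1 h2 K P.hK)
      · exact h4.2.2.2.2.1 (by rw [h]; exact mem_insert_self _ _)
      · exact h4.2.2.2.2.1 (by rw [h]; exact mem_insert_of_mem (G.sym _ _ P.cu))
      · exact h4.2.2.2.2.1 (by rw [h]; exact mem_insert_of_mem (G.sym _ _ P.cu'))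
      · exact hy (h ▸ h2)
    · have h5 : a ≠ x := fun h => hxl (h ▸ h4.1)
      rcases key a h1 hav h5 with rfl | rfl
      · exact Or.inl h4.1
      · exact Or.inr (Or.inl h4.1)

/-- the port is not `AlQ` at the member `M` with `u`, `v` in `N M` and `x` in `M`: `c` or `c'` is
neither in `N M` nor in `N K` -/
theorem not_al53 (P : G.Prt Fa K u v q q' c c' x y) (hx : x ∈ M) (hy : y ∈ M)
    (hu : u ∈ G.N M) (hv : v ∈ G.N M) (hA : ¬ G.AlQ K M u v) :
    (c ∉ G.N M ∧ c ∉ G.N K) ∨ (c' ∉ G.N M ∧ c' ∉ G.N K) := by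
  by_contra hno
  push Not at hno
  have h1 : c ∈ G.N M ∨ c ∈ G.N K := by
    by_cases h : c ∈ G.N M
    · exact Or.inl h
    · exact Or.inr (hno.1 h)
  have h2 : c' ∈ G.N M ∨ c' ∈ G.N K := by
    by_cases h : c' ∈ G.N M
    · exact Or.inl h
    · exact Or.inr (hno.2 h)
  refine hA ⟨hu, hv, P.uK, P.vK, ne_of_nb5 P.vu, ⟨q, P.hq, G.sym _ _ (P.mem.2 (Or.inl rfl)),
    G.sym _ _ (P.memv.2 (Or.inl rfl))⟩, ?_, ?_⟩
  · intro w hw
    rcases P.mem.1 hw with rfl | rfl | rfl | rfl | rfl | rfl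
    · exact Or.inl P.hq
    · exact Or.inl P.hq'
    · exact Or.inr (Or.inr (Or.inl hv))
    · exact Or.inr (Or.inr h1)
    · exact Or.inr (Or.inr h2)
    · exact Or.inr (Or.inl hx)
  · intro w hw
    rcases P.memv.1 hw with rfl | rfl | rfl | rfl | rfl | rfl
    · exact Or.inl P.hq
    · exact Or.inl P.hq'
    · exact Or.inr (Or.inr (Or.inl hu))
    · exact Or.inr (Or.inr h1)
    · exact Or.inr (Or.inr h2)
    · exact Or.inr (Or.inl hy)

/-- row 7, `c` and `c'` visible, `x` hidden in another member -/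
theorem P2_53 (P : G.Prt Fa K u v q q' c c' x y) (hG : G.Gen5 Fa) (hc : c ∈ R Fa)
    (hc' : c' ∈ R Fa) (hM : M ∈ Fa) (hMK : M ≠ K) (hx : x ∈ M) (hA : ¬ G.AlQ K M u v) :
    2 ≤ G.ch5 Fa u + G.ch5 Fa v := by
  classical
  have hr := hG.reg
  have hI := P.I_eq53 hr hc hc' hM hMK hx
  have huM : u ∈ G.N M := (mem_I76.1 (show M ∈ G.I Fa u by rw [hI]; simp)).2
  have w := P.w_c53 hG hMK hI
  have w' := P.sw.w_c53 hG hMK hI
  have e := P.ch_two53 hG hc hc' hM hMK hx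
  have hxR : x ∉ R Fa := fun h => mem_R76.1 h M hM hx
  by_cases hv : v ∈ G.N M
  · -- `y` is in `M`
    have hvI : M ∈ G.I Fa v := mem_I76.2 ⟨hM, hv⟩
    have hy : y ∈ M := P.swap.I_x53 hr hc hc' hvI hMK
    have e' := P.swap.ch_two53 hG hc hc' hM hMK hy
    have hIv := P.swap.I_eq53 hr hc hc' hM hMK hy
    have t := P.swap.w_c53 hG hMK hIv
    have t' := P.swap.sw.w_c53 hG hMK hIv
    have e1 := e.1 hv
    have e2 := e'.1 huM
    rcases P.not_al53 hx hy huM hv hA with h | h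
    · have w1 := w.2.2.2.1 h.1
      have t1 := t.2.2.2.1 h.1
      omega
    · have w1 := w'.2.2.2.1 h.1
      have t1 := t'.2.2.2.1 h.1
      omega
  have e1 := e.2 hv
  by_cases hy : y ∈ R Fa
  · -- `v` is in `N K` only
    have f := P.swap.ch_one53 hG hc hc' hy
    by_cases hK : c ∈ G.N K ∨ c' ∈ G.N K ∨ y ∈ G.N K
    · have f1 : 0 ≤ G.ch5 Fa v := by
        apply f.2.1
        rcases hK with h | h | h
        · exact Or.inl h
        · exact Or.inr (Or.inl h)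
        · exact Or.inr (Or.inr (Or.inl h))
      have e2 := e1.2 hK
      omega
    · push Not at hK
      rcases P.swap.cov_x53 hG hc hc' hy hK.2.2 hxR with h | h | h | h
      · have f1 := f.2.2 ⟨y, mem_NF53.2 ⟨mem_nR76.2 ⟨P.swap.xu, hy⟩, Or.inl h⟩, hK.2.2⟩
        omega
      · have f1 := f.2.2 ⟨c, mem_NF53.2 ⟨mem_nR76.2 ⟨P.cv, hc⟩, Or.inl h⟩, hK.1⟩
        omega
      · have f1 := f.2.2 ⟨c', mem_NF53.2 ⟨mem_nR76.2 ⟨P.cv', hc'⟩, Or.inl h⟩, hK.2.1⟩
        omega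
      · have w1 := w.2.1 ⟨_, h⟩
        have w2 := w'.2.1 ⟨_, (stTwHL_5 G).symm _ _ h⟩
        omega
  · -- `v` is in a second neighbourhood
    obtain ⟨M', hM', hyM'⟩ : ∃ M' ∈ Fa, y ∈ M' := by
      by_contra hno
      push Not at hno
      exact hy (mem_R76.2 hno)
    have hM'K : M' ≠ K := fun h => P.swap.xK (h ▸ hyM')
    have e' := P.swap.ch_two53 hG hc hc' hM' hM'K hyM'
    have hIv := P.swap.I_eq53 hr hc hc' hM' hM'K hyM'
    have t := P.swap.w_c53 hG hM'K hIv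
    have t' := P.swap.sw.w_c53 hG hM'K hIv
    have huM' : u ∉ G.N M' := by
      intro h
      have h1 : M' ∈ G.I Fa u := mem_I76.2 ⟨hM', h⟩
      rw [hI, mem_insert, mem_singleton] at h1
      rcases h1 with h2 | h2
      · exact hM'K h2
      · subst h2
        exact hv (mem_I76.1 (show M' ∈ G.I Fa v by rw [hIv]; simp)).2
    have e2 := e'.2 huM'
    omega

end Prt

/-- row 7, `c` and `d` visible, `x` hidden -/
theorem stPx_53 (G : CG V) : G.StPx := by
  intro Fa hG K q q' u v c d x y h _ hA hc hd hM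
  obtain ⟨M, hM, hMK, hx⟩ := hM
  exact (h.toP53 hG).P2_53 hG.g5 hc hd hM hMK hx (hA M hM hMK)

end CG

end Pool.Agent.Lib.MP_e95c01_co.N
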