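import Pool.Agent.Lib.MP_e95c01_co.Y.Ask67
import Pool.Agent.Lib.MP_e95c01_co.Y.StPort36

/-!
# Row 6: who asks the lows of an `LL` port of a member `K6`
-/

namespace Pool.Agent.Lib.MP_e95c01_co.N

open Finset

variable {V : Type} [Fintype V] [DecidableEq V]

namespace CG

theorem stAsk36_67 (G : CG V) : G.StAsk36 :=
  fun _ hG _ _ _ _ _ _ _ _ _ h => h.fc_pair6 hG

theorem stAsk1_67 (G : CG V) : G.StAsk1 :=
  fun _ hG _ _ _ _ _ _ _ _ _ h hI _ _ hz => h.dn_zero6 hG (h.no_exc6 hI) hz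

end CG

end Pool.Agent.Lib.MP_e95c01_co.N
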