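import Pool.Agent.Lib.MP_e95c01_co.X.All76
import Pool.Agent.Lib.MP_e95c01_co.Y.Asm33
import Pool.Agent.Lib.MP_e95c01_co.Y.StAsk67
import Pool.Agent.Lib.MP_e95c01_co.Y.Hs6
import Pool.Agent.Lib.MP_e95c01_co.Y.P8n97
import Pool.Agent.Lib.MP_e95c01_co.Y.P8t28
import Pool.Agent.Lib.MP_e95c01_co.Y.P9h64
import Pool.Agent.Lib.MP_e95c01_co.Y.P9p64
import Pool.Agent.Lib.MP_e95c01_co.Y.KK31
import Pool.Agent.Lib.MP_e95c01_co.Y.PortP2_53

/-!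
# The remaining statements, up to the leaves
-/

set_option autoImplicit false

namespace Pool.Agent.Lib.MP_e95c01_co.N

open Finset

variable {V : Type} [Fintype V] [DecidableEq V]

namespace CG

theorem stP8n_all76 (G : CG V) : G.StP8n := by
  intro Fa hG K q q' u v c d x y h _ hu hv hcd
  exact p8n_97 G.stAsk1_67 Fa hG K q q' u v c d x y h hu hv hcd

/-- the bonus -/
theorem hs_all76 (G : CG V) (hcr : G.Crit) : ∀ F Fa, G.GoodK F → G.Tor F Fa →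
    G.Gen6 (insert (G.Co F) Fa) → ∃ hx, G.Hx31 (insert (G.Co F) Fa) hx ∧
      ∑ w ∈ G.ptS Fa, hx w ≤ ∑ z ∈ R (insert (G.Co F) Fa) \ G.ptS Fa, G.valS Fa F z := by
  intro F Fa hF T hG
  obtain ⟨hx, ⟨h1, h2⟩, h3⟩ := hs6 hcr G.stP8n_all76 (stP8t_28 G.stAsk36_67)
    (stP9h_64 G (stC8a_50 (stM1_86 G) G.stT6_76) G.stC8_all76) (stP9p_64 G) hF T hG
  exact ⟨hx, ⟨h1, h2⟩, h3⟩

/-- the remaining statements from the leaves -/
theorem rest310_76 {G : CG V} (hcr : G.Crit)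
    (leaf : ∀ F, G.GoodK F → ¬ G.IsK6 F → G.Tor F ∅ → G.Gen6 (insert (G.Co F) ∅) →
      6 ≤ F.card → 4 ≤ G.WS F)
    (light : ∀ F, G.GoodK F → ¬ G.IsK6 F → G.Tor F ∅ → F.card ≤ 5 → 4 ≤ G.WS F) :
    G.Rest33 where
  ask := G.stAsk36_67
  px := G.stPx_53
  hs := G.hs_all76 hcr
  kk := fun _ _ hF T hG => stKK31 hF T hG
  leaf := leaf
  light := light

/-- all 6-contraction-critical graphs, from the leaves -/
theorem c310_leaf76
    (leaf : ∀ G : CG V, G.Crit → G.Sat → ∀ F, G.GoodK F → ¬ G.IsK6 F → G.Tor F ∅ →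
      G.Gen6 (insert (G.Co F) ∅) → 6 ≤ F.card → 4 ≤ G.WS F)
    (light : ∀ G : CG V, G.Crit → G.Sat → ∀ F, G.GoodK F → ¬ G.IsK6 F → G.Tor F ∅ →
      F.card ≤ 5 → 4 ≤ G.WS F) (G : CG V) (hcr : G.Crit) :
    3 * Fintype.card V ≤ 10 * G.l univ :=
  c310_33 (fun G h1 h2 => rest310_76 h1 (leaf G h1 h2) (light G h1 h2)) G hcr

end CG

end Pool.Agent.Lib.MP_e95c01_co.N
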