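import Pool.Agent.Lib.MP_e95c01_co.Y.StP7_16
import Pool.Agent.Lib.MP_e95c01_co.Y.PortB87

/-!
# Ports of a `K6` with visible common neighbours and a hidden private neighbour
-/

set_option autoImplicit false

namespace Pool.Agent.Lib.MP_e95c01_co.N

open Finset

variable {V : Type} [Fintype V] [DecidableEq V]

namespace CG

variable {G : CG V} {Fa : Finset (Finset V)}

namespace Prt

variable {K M : Finset V} {u v q q' c c' x y : V}

/-- the members at `u` -/
theorem I_px (P : G.Prt Fa K u v q q' c c' x y) (hr : G.Reg Fa) (hc : c ∈ R Fa) (hc' : c' ∈ R Fa)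
    (hM : M ∈ Fa) (hx : x ∈ M) : G.I Fa u = {K, M} := by
  ext A
  rw [mem_insert, mem_singleton]
  constructor
  · intro hA
    have hAF := (mem_I76.1 hA).1
    rcases P.I_cases hr hA with h | h | h | h
    · exact Or.inl h
    · exact absurd hc (notR16 hAF h)
    · exact absurd hc' (notR16 hAF h)
    · exact Or.inr (uniq16 hr hAF hM h hx)
  · rintro (rfl | rfl)
    · exact P.KI
    · exact in_I16 hM hx (mem_R76.1 P.uR _ hM) P.xu

theorem xMK (P : G.Prt Fa K u v q q' c c' x y) (hx : x ∈ M) : M ≠ K := fun h => P.xK (h ▸ hx)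

/-- the charge of `u` -/
theorem ch_px (P : G.Prt Fa K u v q q' c c' x y) (hG : G.Gen6 Fa) (hc : c ∈ R Fa)
    (hc' : c' ∈ R Fa) (hM : M ∈ Fa) (hx : x ∈ M) :
    G.ch5 Fa u = G.w5 Fa v u + (G.w5 Fa c u + G.w5 Fa c' u) +
      ((G.flv (G.Co K) u - G.flv K u) + (G.flv (G.Co M) u - G.flv M u)) := by
  have hr := hG.g5.reg
  have hI := P.I_px hr hc hc' hM hx
  have hKM : K ≠ M := (P.xMK hx).symm
  have hnR : G.nR Fa u = {v, c, c'} := by
    ext w
    simp only [mem_insert, mem_singleton]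
    constructor
    · intro hw
      rcases P.nR_cases hw with h | h | h | h
      · exact Or.inl h
      · exact Or.inr (Or.inl h)
      · exact Or.inr (Or.inr h)
      · exact absurd (h ▸ (mem_nR76.1 hw).2) (notR16 hM hx)
    · rintro (rfl | rfl | rfl)
      · exact mem_nR76.2 ⟨P.vu, P.vR⟩
      · exact mem_nR76.2 ⟨P.cu, hc⟩
      · exact mem_nR76.2 ⟨P.cu', hc'⟩
  have hne := P.neU
  rw [(stCh5_28 G).low2 hG.g5.n9 Fa hr u P.uR P.lu, fg5, hI, card_pair hKM, sum_pair hKM, hnR,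
    sum_insert, sum_pair hne.2.2.2.1.1]
  · push_cast
    ring
  · simp only [mem_insert, mem_singleton, not_or]
    exact ⟨hne.2.2.1.1, hne.2.2.1.2.1⟩

theorem m0_px (hI : G.I Fa u = {K, M}) {w : V} (hwK : w ∉ G.N K) (hwM : w ∉ G.N M) :
    G.m Fa w u = 0 := by
  rw [m, card_eq_zero, eq_empty_iff_forall_notMem]
  intro B hB
  obtain ⟨h3, h4⟩ := mem_inter.1 hB
  rw [hI, mem_insert, mem_singleton] at h4
  rcases h4 with rfl | rfl
  · exact hwK (mem_I76.1 h3).2
  · exact hwM (mem_I76.1 h3).2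

theorem m1_px (hI : G.I Fa u = {K, M}) {w : V} (h : w ∉ G.N K ∨ w ∉ G.N M) :
    G.m Fa w u ≤ 1 := by
  rw [m, card_le_one]
  intro B hB B' hB'
  obtain ⟨h3, h4⟩ := mem_inter.1 hB
  obtain ⟨h5, h6⟩ := mem_inter.1 hB'
  rw [hI, mem_insert, mem_singleton] at h4 h6
  rcases h4 with rfl | rfl <;> rcases h6 with rfl | rfl
  · rfl
  · rcases h with h | h
    · exact absurd (mem_I76.1 h3).2 h
    · exact absurd (mem_I76.1 h5).2 h
  · rcases h with h | h
    · exact absurd (mem_I76.1 h5).2 h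
    · exact absurd (mem_I76.1 h3).2 h
  · rfl

/-- weights of the neighbours of `u` -/
theorem wt_px (P : G.Prt Fa K u v q q' c c' x y) (hG : G.Gen6 Fa) (hI : G.I Fa u = {K, M})
    (w : V) : 0 ≤ G.w5 Fa w u ∧ (w ∉ G.N K → w ∉ G.N M → 2 ≤ G.w5 Fa w u) ∧
      (G.Low w ∨ (∃ b, G.HL w b u) → w ∉ G.N K ∨ w ∉ G.N M → 2 ≤ G.w5 Fa w u) ∧
      (G.IsTw w → w ∉ G.N K → 1 ≤ G.w5 Fa w u) := by
  have h2 : (G.I Fa u).card ≤ 2 := by
    rw [hI]
    exact card_le_two
  refine ⟨w5_nonneg16 P.lu h2 w, fun h3 h4 => w5_two16 P.lu (m0_px hI h3 h4), ?_, ?_⟩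
  · intro h3 h4
    have h5 := w5_free16 (Fa := Fa) hG.g5.n9 P.lu h3
    have h6 := m1_px (Fa := Fa) hI h4
    omega
  · intro h3 h4
    have h6 := m1_px (Fa := Fa) hI (Or.inl h4)
    by_cases h7 : G.m Fa w u = 0
    · have := w5_two16 (Fa := Fa) P.lu h7
      omega
    · have h8 : G.pay5 Fa u w ≤ 1 := by
        rw [pay5]
        have h9 : ¬ G.Low w := fun h => tw_not_low76 h3 h
        rw [if_neg h9, if_pos h3, if_neg h7, if_pos P.lu]
        split_ifs <;> norm_num
      rw [w5]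
      omega

/-- the flags at `K` vanish also if `v` has another neighbour in `N K` -/
theorem fl_K' (P : G.Prt Fa K u v q q' c c' x y) (hr : G.Reg Fa)
    (h : ∃ w ∈ G.nb v, w ≠ u ∧ w ∈ G.N K) : 0 ≤ G.flv (G.Co K) u - G.flv K u := by
  classical
  have hF := hr.frag K P.hK
  obtain ⟨e1, e2, e3⟩ := (stTy5_87 G).co K hF u
  have hvT : v ∈ G.pT K u := mem_inter.2 ⟨P.vu, P.vN⟩
  have hvT' : v ∈ G.pT (G.Co K) u := by rw [e2]; exact hvT
  have h1 := flv_up16 P.lu (no_U3 P.lv hvT)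
  have h2 := flv_lo16 P.lu (no_T3 P.lv hvT') (no_HF P.lv hvT')
  suffices G.s5 K u = 0 by omega
  unfold s5
  rw [if_neg, if_neg]
  · rintro ⟨v', h3, h4⟩
    obtain rfl := S0_eq hvT h3
    obtain ⟨w, hw, hwu, hwN⟩ := h
    have h5 : w ∈ G.pT K v' := mem_inter.2 ⟨hw, hwN⟩
    rw [h4, mem_singleton] at h5
    exact hwu h5
  · rintro ⟨v', h3, h4⟩
    obtain rfl := S0_eq hvT h3
    exact h4 ⟨⟨x, y, P.ll⟩, by rw [P.pXK, P.swap.pXK]⟩

/-- `v` is not in `N M`: the charge of `u` is at least 1 -/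
theorem A_px (P : G.Prt Fa K u v q q' c c' x y) (hG : G.Gen6 Fa) (hc : c ∈ R Fa)
    (hc' : c' ∈ R Fa) (hM : M ∈ Fa) (hx : x ∈ M) (hv : v ∉ G.N M) :
    3 ≤ G.ch5 Fa u ∨ (2 + (G.w5 Fa c u + G.w5 Fa c' u) + (G.flv (G.Co K) u - G.flv K u) ≤
      G.ch5 Fa u) := by
  classical
  have hr := hG.g5.reg
  have hI := P.I_px hr hc hc' hM hx
  have hMK := P.xMK hx
  have e := P.ch_px hG hc hc' hM hx
  have hu : u ∈ G.N M := (mem_I76.1 (by rw [hI]; simp : M ∈ G.I Fa u)).2
  obtain ⟨-, -, -, f1, f2⟩ := P.fl_x hr hM hMK hu hv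
  obtain ⟨k1, -⟩ := P.fl_K hr
  have wv := (P.wt_px hG hI v).2.2.1 (Or.inl P.lv) (Or.inr hv)
  by_cases hH : G.HF (G.Co M) u
  · left
    obtain ⟨-, -, -, a, b, hHL, -, -, hT⟩ := hH
    have haT : a ∈ G.pT (G.Co M) u := by rw [hT]; exact mem_singleton_self _
    obtain ⟨e1, e2, e3⟩ := (stTy5_87 G).co M (hr.frag M hM) u
    rw [e2] at haT hT
    obtain ⟨ha, haN⟩ := mem_inter.1 haT
    have haL : ¬ G.Low a := fun h => HL_not_low76 hHL h
    have key : ∀ s t : V, a = s → t ≠ a → t ∈ G.nb u → t ∈ R Fa →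
        2 ≤ G.w5 Fa s u ∧ 2 ≤ G.w5 Fa t u := by
      intro s t has hta htu htR
      subst has
      refine ⟨(P.wt_px hG hI a).2.2.1 (Or.inr ⟨b, hHL⟩) (Or.inl fun h => haL (P.NK_low hG.g5 h)),
        ?_⟩
      have htM : t ∉ G.N M := by
        intro h
        have h1 : t ∈ G.pT M u := mem_inter.2 ⟨htu, h⟩
        rw [hT, mem_singleton] at h1
        exact hta h1
      by_cases htK : t ∈ G.N K
      · exact (P.wt_px hG hI t).2.2.1 (Or.inl (P.NK_low hG.g5 htK)) (Or.inr htM)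
      · exact (P.wt_px hG hI t).2.1 htK htM
    have haM : a ∉ M := (mem_N76.1 haN).1
    rcases P.mem.1 ha with h | h | h | h | h | h
    · exact absurd (h ▸ haN) (mem_Co76.1 (P.KCo hr hM hMK P.hq)).2
    · exact absurd (h ▸ haN) (mem_Co76.1 (P.KCo hr hM hMK P.hq')).2
    · exact absurd (h ▸ P.lv) haL
    · obtain ⟨h1, h2⟩ := key c c' h (fun h3 => P.neU.2.2.2.1.1 (h.symm.trans h3.symm)) P.cu' hc'
      omega
    · obtain ⟨h1, h2⟩ := key c' c h (fun h3 => P.neU.2.2.2.1.1 (h3.trans h)) P.cu hc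
      omega
    · exact absurd (h ▸ hx) haM
  · right
    have := f2 hH
    omega

/-- hubs `c`, `c'` and an edge to a visible private neighbour: something is not paid -/
theorem hub_px (P : G.Prt Fa K u v q q' c c' x y) (hG : G.Gen6 Fa) (hI : G.I Fa u = {K})
    (hc : c ∈ R Fa) (hc' : c' ∈ R Fa) (hl : ¬ G.Low c) (hl' : ¬ G.Low c') (ht : ¬ G.IsTw c)
    (ht' : ¬ G.IsTw c') (hxR : x ∈ R Fa) (hxK : x ∉ G.N K) : ∃ z ∈ G.NF Fa u, z ∉ G.N K := by
  classical
  have h9 := hG.g5.n9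
  have hm : G.m Fa x u = 0 := by
    rw [m, card_eq_zero, eq_empty_iff_forall_notMem]
    intro B hB
    obtain ⟨h3, h4⟩ := mem_inter.1 hB
    rw [hI, mem_singleton] at h4
    subst h4
    exact hxK (mem_I76.1 h3).2
  have hqR := notR16 P.hK P.hq
  have hux : u ∈ G.nb x := G.sym _ _ P.xu
  have hport : ∀ w ∈ R Fa, w ∈ G.nb q → w = u ∨ w = v := fun w hw h =>
    P.ports w h (fun h2 => notR16 P.hK h2 hw)
  have hqu : q ∈ G.nb u := P.mem.2 (Or.inl rfl)
  have hqv : q ∈ G.nb v := P.memv.2 (Or.inl rfl)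
  have hxv : x ∉ G.nb v := P.xv
  have hvis : ∀ w ∈ R Fa, w ∈ G.nb u → w = v ∨ w = c ∨ w = c' ∨ w = x := fun w hw h =>
    P.nR_cases (mem_nR76.2 ⟨h, hw⟩)
  have hcov := hG.g5.cov x hxR u P.uR hux hm
  rcases hcov with ⟨w, hw, hwl, h1, h2⟩ | ⟨a, ha, b, hb, ht1, h1, h2, h3, h4⟩ |
    ⟨a, ha, b, hb, hH, h1, h2⟩ | ⟨a, ha, b, hb, hH, h1, h2⟩ | ⟨a, ha, b, hb, hL⟩
  · rcases hvis w hw (G.sym _ _ h2) with rfl | rfl | rfl | rfl
    · exact absurd h1 hxv
    · exact absurd hwl hl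
    · exact absurd hwl hl'
    · exact absurd h1 (G.irr _)
  · rcases hvis a ha (G.sym _ _ h2) with rfl | rfl | rfl | rfl
    · exact absurd h1 hxv
    · exact absurd (tw_of76 ht1) ht
    · exact absurd (tw_of76 ht1) ht'
    · exact absurd h1 (G.irr _)
  · -- `HL a b x`, `u` adjacent to `b`
    rcases hvis b hb (G.sym _ _ h1) with rfl | rfl | rfl | rfl
    · have h5 : q ∈ G.nb a := HL_sub76 hH hqv (fun h => hqR (h ▸ ha))
      rcases hport a ha (G.sym _ _ h5) with h6 | h6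
      · exact absurd h6.symm h2
      · have h7 := HL_b76 hH
        rw [h6] at h7
        exact absurd h7 (G.irr _)
    · exact absurd hH.2.1 hl
    · exact absurd hH.2.1 hl'
    · exact absurd rfl (HL_bt76 hH).2
  · -- `HL a b u`, `x` adjacent to `b`
    have hau := G.sym _ _ (HL_t76 hH)
    have key : ∀ w ∈ R Fa, w ∈ G.nb u → w = a → ∃ z ∈ G.NF Fa u, z ∉ G.N K := by
      intro w hw hwu hwa
      subst hwa
      refine ⟨w, ?_, fun h => HL_not_low76 hH (P.NK_low hG.g5 h)⟩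
      rw [NF, mem_filter]
      exact ⟨mem_nR76.2 ⟨hwu, hw⟩, Or.inr (Or.inr ⟨b, hH⟩)⟩
    exact key a ha hau rfl
  · -- `LL a b x u`
    have h1 : u ∈ G.nb b := LL_u76 hL
    rcases hvis b hb (G.sym _ _ h1) with rfl | rfl | rfl | rfl
    · have h2 : a = u ∨ a = b := by
        rcases LL_from76 hL hqv (fun h => hqR (h ▸ P.uR)) with h3 | h3
        · exact absurd (h3 ▸ ha) hqR
        · exact hport a ha (G.sym _ _ h3)
      rcases h2 with rfl | rfl
      · exact absurd rfl (LL_ua76 hL).2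
      · exact absurd (LL_ab76 hL) (G.irr _)
    · exact absurd hL.2.1 hl
    · exact absurd hL.2.1 hl'
    · exact absurd rfl (LL_tb76 hL).2

/-- the structure of 87 -/
theorem toL16 (P : G.Prt Fa K u v q q' c c' x y) : G.LPt Fa K q q' u v c c' x y :=
  ⟨P.hK, P.hS, P.hq, P.hq', P.neU.1.1, P.uK, P.vK, P.nbu, P.nbv, P.ll⟩

/-- a twin among `c`, `c'` has the other one as its partner -/
theorem tw_px (P : G.Prt Fa K u v q q' c c' x y) (h : G.IsTw c) : G.IsTw c' := by
  obtain ⟨p, hp⟩ := h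
  have hup : u ∈ G.nb p := by
    have h1 : u ∈ G.cl p := by
      rw [← hp.2.2]
      exact mem_insert_of_mem (G.sym _ _ P.cu)
    rcases mem_insert.1 h1 with h2 | h2
    · exact absurd P.lu (tw_not_low76 (h2 ▸ tw_of76' hp))
    · exact h2
  have hvp : v ∈ G.nb p := by
    have h1 : v ∈ G.cl p := by
      rw [← hp.2.2]
      exact mem_insert_of_mem (G.sym _ _ P.cv)
    rcases mem_insert.1 h1 with h2 | h2
    · exact absurd P.lv (tw_not_low76 (h2 ▸ tw_of76' hp))
    · exact h2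
  have hcp : c ∈ G.nb p := G.sym _ _ hp.1
  rcases P.mem.1 (G.sym _ _ hup) with h | h | h | h | h | h
  · exfalso
    rcases P.ports c (h ▸ hcp) P.cK with h1 | h1
    · exact G.irr u (by have := P.cu; rwa [h1] at this)
    · exact G.irr v (by have := P.cv; rwa [h1] at this)
  · exfalso
    have h2 : c ∈ G.cl q := by
      rw [P.tw.2.2]
      exact mem_insert_of_mem (h ▸ hcp)
    rcases mem_insert.1 h2 with h3 | h3
    · exact P.cK (h3 ▸ P.hq)
    · rcases P.ports c h3 P.cK with h1 | h1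
      · exact G.irr u (by have := P.cu; rwa [h1] at this)
      · exact G.irr v (by have := P.cv; rwa [h1] at this)
  · exact absurd (h ▸ hvp) (G.irr _)
  · exact absurd (h ▸ hcp) (G.irr _)
  · exact h ▸ tw_of76' hp
  · exact absurd (h ▸ G.sym _ _ hvp) P.xv

/-- row 7: `c`, `c'` visible, `x` hidden in `M` -/
theorem px16 (P : G.Prt Fa K u v q q' c c' x y) (hG : G.Gen6 Fa) (hc : c ∈ R Fa)
    (hc' : c' ∈ R Fa) (hM : M ∈ Fa) (hx : x ∈ M) (hn : ¬ G.AlQ K M u v) :
    2 ≤ G.ch5 Fa u + G.ch5 Fa v := by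
  classical
  have hr := hG.g5.reg
  have hMK := P.xMK hx
  have PS := P.swap
  have hI := P.I_px hr hc hc' hM hx
  have hu : u ∈ G.N M := (mem_I76.1 (by rw [hI]; simp : M ∈ G.I Fa u)).2
  obtain ⟨k1, k2⟩ := P.fl_K hr
  obtain ⟨k1', k2'⟩ := PS.fl_K hr
  by_cases hv : v ∈ G.N M
  · -- `v` in `N M`
    have hy : y ∈ M := by
      obtain ⟨-, w, hw, hwv⟩ := mem_N76.1 hv
      rcases P.memv.1 (G.sym _ _ hwv) with h | h | h | h | h | h
      · exact absurd (h ▸ P.hq) (P.dis hr hM hMK hw)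
      · exact absurd (h ▸ P.hq') (P.dis hr hM hMK hw)
      · exact absurd (h ▸ P.uR) (notR16 hM hw)
      · exact absurd (h ▸ hc) (notR16 hM hw)
      · exact absurd (h ▸ hc') (notR16 hM hw)
      · exact h ▸ hw
    have hI' := PS.I_px hr hc hc' hM hy
    have e := P.ch_px hG hc hc' hM hx
    have e' := PS.ch_px hG hc hc' hM hy
    have f := (P.fl_M hr hM hMK hv).2.2.2.2 hx
    have f' := (PS.fl_M hr hM hMK hu).2.2.2.2 hy
    have key : ∀ s : V, s ∉ G.N M → s ∉ G.N K → 2 ≤ G.w5 Fa s u ∧ 2 ≤ G.w5 Fa s v := fun s h1 h2 =>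
      ⟨(P.wt_px hG hI s).2.1 h2 h1, (PS.wt_px hG hI' s).2.1 h2 h1⟩
    have w1 := (P.wt_px hG hI c).1
    have w2 := (P.wt_px hG hI c').1
    have w3 := (P.wt_px hG hI v).1
    have w4 := (PS.wt_px hG hI' c).1
    have w5 := (PS.wt_px hG hI' c').1
    have w6 := (PS.wt_px hG hI' u).1
    by_cases h1 : c ∉ G.N M ∧ c ∉ G.N K
    · obtain ⟨a, b⟩ := key c h1.1 h1.2
      omega
    by_cases h2 : c' ∉ G.N M ∧ c' ∉ G.N K
    · obtain ⟨a, b⟩ := key c' h2.1 h2.2
      omega
    exfalso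
    apply hn
    have hside : ∀ w, ¬ (w ∉ G.N M ∧ w ∉ G.N K) → w ∈ K ∨ w ∈ M ∨ w ∈ G.N M ∨ w ∈ G.N K := by
      intro w hw
      tauto
    refine ⟨hu, hv, P.uK, P.vK, ?_, ⟨q, P.hq, G.sym _ _ (P.mem.2 (Or.inl rfl)),
      G.sym _ _ (P.memv.2 (Or.inl rfl))⟩, ?_, ?_⟩
    · intro h
      have := P.vu
      rw [h] at this
      exact G.irr _ this
    · intro w hw
      rcases P.mem.1 hw with h | h | h | h | h | h
      · exact Or.inl (h ▸ P.hq)
      · exact Or.inl (h ▸ P.hq')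
      · exact Or.inr (Or.inr (Or.inr (h ▸ P.vN)))
      · exact h ▸ hside c h1
      · exact h ▸ hside c' h2
      · exact Or.inr (Or.inl (h ▸ hx))
    · intro w hw
      rcases P.memv.1 hw with h | h | h | h | h | h
      · exact Or.inl (h ▸ P.hq)
      · exact Or.inl (h ▸ P.hq')
      · exact Or.inr (Or.inr (Or.inr (h ▸ P.uN)))
      · exact h ▸ hside c h1
      · exact h ▸ hside c' h2
      · exact Or.inr (Or.inl (h ▸ hy))
  · have hA := P.A_px hG hc hc' hM hx hv
    have w1 := P.wt_px hG hI c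
    have w2 := P.wt_px hG hI c'
    by_cases hyR : y ∈ R Fa
    · -- `v` in one neighbourhood
      have hI' : G.I Fa v = {K} := by
        ext A
        rw [mem_singleton]
        constructor
        · intro hA'
          have hAF := (mem_I76.1 hA').1
          rcases PS.I_cases hr hA' with h | h | h | h
          · exact h
          · exact absurd hc (notR16 hAF h)
          · exact absurd hc' (notR16 hAF h)
          · exact absurd hyR (notR16 hAF h)
        · rintro rfl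
          exact PS.KI
      obtain ⟨g1, g2, g3, -⟩ := PS.toL16.ch5_neg hG hI'
      rcases hA with hA | hA
      · omega
      by_cases hcK : c ∈ G.N K
      · have h1 := k2 ⟨c, P.cu, P.neU.2.2.1.1.symm, hcK⟩
        have h2 := g3 ⟨c, P.cv, hcK, fun h => G.irr u (by have := P.cu; rwa [h] at this)⟩
        omega
      by_cases hcK' : c' ∈ G.N K
      · have h1 := k2 ⟨c', P.cu', P.neU.2.2.1.2.1.symm, hcK'⟩
        have h2 := g3 ⟨c', P.cv', hcK', fun h => G.irr u (by have := P.cu'; rwa [h] at this)⟩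
        omega
      by_cases hyK : y ∈ G.N K
      · have hyu : y ≠ u := fun h => G.irr v (by
          have := P.swap.xu
          rw [h] at this
          exact absurd (h ▸ P.swap.xv) (by
            intro h2
            exact h2 (by
              exact absurd (h ▸ rfl : y = u) (LL_ua76 P.ll).2)))
        have h1 := P.fl_K' hr ⟨y, PS.xu, hyu, hyK⟩
        have h2 := g3 ⟨y, PS.xu, hyK, hyu⟩
        omega
      by_cases hs : 3 ≤ 2 + (G.w5 Fa c u + G.w5 Fa c' u) - 1 + 0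
      · have : 2 + (G.w5 Fa c u + G.w5 Fa c' u) - 1 ≤ G.ch5 Fa u := by omega
        omega
      · have hl : ¬ G.Low c := fun h => by
          have := w1.2.2.1 (Or.inl h) (Or.inl hcK)
          have := w2.1
          omega
        have hl' : ¬ G.Low c' := fun h => by
          have := w2.2.2.1 (Or.inl h) (Or.inl hcK')
          have := w1.1
          omega
        have ht : ¬ G.IsTw c := fun h => by
          have h1 := w1.2.2.2 h hcK
          have h2 := w2.2.2.2 (P.tw_px h) hcK'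
          omega
        have ht' : ¬ G.IsTw c' := fun h => ht (P.sw.tw_px h)
        have h1 := g2 (PS.hub_px hG hI' hc hc' hl hl' ht ht' hyR hyK)
        have h2 := w1.1
        have h3 := w2.1
        omega
    · -- `y` is hidden in another member
      obtain ⟨M', hM', hy⟩ := hidR16 hyR
      have hne : M' ≠ M := by
        intro h
        exact hv (mem_N76.2 ⟨mem_R76.1 P.vR M hM, y, h ▸ hy, G.sym _ _ PS.xu⟩)
      have hI' := PS.I_px hr hc hc' hM' hy
      have hu' : u ∉ G.N M' := by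
        intro h
        have h1 : M' ∈ G.I Fa u := mem_I76.2 ⟨hM', h⟩
        rw [hI, mem_insert, mem_singleton] at h1
        rcases h1 with h1 | h1
        · exact PS.xMK hy h1
        · exact hne h1
      have hB := PS.A_px hG hc hc' hM' hy hu'
      have w3 := (PS.wt_px hG hI' c).1
      have w4 := (PS.wt_px hG hI' c').1
      have w5 := w1.1
      have w6 := w2.1
      omega

end Prt

/-- row 7, `c` and `d` visible, `x` hidden -/
theorem stPx16 (G : CG V) : G.StPx := by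
  rintro Fa hG K q q' u v c d x y h - hn hc hd ⟨M, hM, hMK, hx⟩
  exact (h.toPrt16 hG).px16 hG hc hd hM hx (hn M hM hMK)

end CG

end Pool.Agent.Lib.MP_e95c01_co.N
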