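import Pool.Agent.Lib.MP_e95c01_co.X.All76
import Pool.Agent.Lib.MP_e95c01_co.Y.Fc6

/-!
# The rows M5 - M8 hold
-/

namespace Pool.Agent.Lib.MP_e95c01_co.N

variable {V : Type} [Fintype V] [DecidableEq V]

namespace CG

theorem rows6 (G : CG V) : G.Rows6 :=
  ⟨G.stM5_57 (G.stM3_33 G.stM3b_76) G.stT6_76, G.stM6_57 G.stM4_53, G.stK3_28, G.stC6_all76,
    G.stC7_all76, G.stC8_all76⟩

end CG

end Pool.Agent.Lib.MP_e95c01_co.N
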