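import Pool.Agent.Lib.MP_e95c01_co.Y.K6P38
import Pool.Agent.Lib.MP_e95c01_co.Y.Par11

/-!
# Fragments that consist of a `K6` and at most three of its ports
-/

set_option autoImplicit false

namespace Pool.Agent.Lib.MP_e95c01_co.N

open Finset

variable {V : Type} [Fintype V] [DecidableEq V]

namespace CG

/-- `F` is the `K6` `K` together with at most three ports of `K` -/
structure Sm (G : CG V) (K F : Finset V) : Prop where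
  k6 : G.IsK6 K
  fr : G.Frag F
  sub : K ⊆ F
  por : ∀ w ∈ F, w ∉ K → w ∈ G.N K
  c3 : (F \ K).card ≤ 3
  low : ∀ w ∈ G.N K, G.Low w
  two : ∀ w ∈ G.N K, (G.nb w ∩ K).card = 2

open Classical in
/-- the term of `w` in the formula for `P5 F` -/
noncomputable def vSm (G : CG V) (F : Finset V) (w : V) : ℤ :=
  (if G.Low w then 4 * (G.d w F : ℤ) + 2 * (G.d w (G.N F) : ℤ) - 6 else 0) +
    (if G.IsTw w then 2 * (G.d w F : ℤ) + (G.d w (G.N F) : ℤ) - 7 else 0) +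
    (G.flv F w - G.flv (G.Co F) w)

/-- P3: the vertices of `N F` that are no ports of `K` -/
def StSmZ (G : CG V) : Prop := ∀ K F, G.Sm K F → ∀ z ∈ G.N F, z ∉ G.N K →
  1 ≤ G.d z (F \ K) ∧ 2 * (G.d z (F \ K) : ℤ) - 6 ≤ G.vSm F z ∧
  (¬ G.IsTw z → G.d z (F \ K) ≤ 2 → 2 * (G.d z (F \ K) : ℤ) - 5 ≤ G.vSm F z) ∧
  (G.Low z → 2 * (G.d z (F \ K) : ℤ) - 5 ≤ G.vSm F z) ∧
  (∀ z', G.Tw z z' → z' ∈ G.N F ∧ z' ∉ G.N K)

/-- P1: a port in `N F` whose partner is in `F` -/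
def StSmS (G : CG V) : Prop := ∀ K F, G.Sm K F → ∀ q ∈ K, ∀ u ∈ G.nb q, ∀ v ∈ G.nb q, u ∉ K →
  v ∉ K → u ≠ v → u ∈ G.N F → v ∈ F → 4 + 2 * (G.d u (F \ K) : ℤ) ≤ G.vSm F u

/-- P2: a pair of ports in `N F` -/
def StSmP (G : CG V) : Prop := ∀ K F, G.Sm K F → ∀ q ∈ K, ∀ u ∈ G.nb q, ∀ v ∈ G.nb q, u ∉ K →
  v ∉ K → u ≠ v → u ∈ G.N F → v ∈ G.N F →
  10 + 2 * (G.d u (F \ K) : ℤ) + 2 * (G.d v (F \ K) : ℤ) ≤ G.vSm F u + G.vSm F v

end CG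

end Pool.Agent.Lib.MP_e95c01_co.N
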