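import Pool.Agent.Lib.MP_e95c01_co.Y.SmP11

/-!
# Fragments that consist of a `K6` and at most three of its ports: the functional
-/

set_option autoImplicit false

namespace Pool.Agent.Lib.MP_e95c01_co.N

open Finset

variable {V : Type} [Fintype V] [DecidableEq V]

namespace CG

variable {G : CG V} {K F : Finset V}

/-- the ports outside of `F` whose partner is in `F` -/
noncomputable def T11 (G : CG V) (K F : Finset V) : Finset V :=
  open Classical in (G.N K).filter fun w => w ∉ F ∧ ∃ q ∈ K, w ∈ G.nb q ∧ ∃ v ∈ G.nb q, v ∈ F \ K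

namespace Sm11

theorem swap11 (A B : Finset V) : ∑ w ∈ A, (G.d w B : ℤ) = ∑ b ∈ B, (G.d b A : ℤ) := by
  have h1 : ∀ S : Finset V, ∀ w, (G.d w S : ℤ) = ∑ b ∈ S, if b ∈ G.nb w then (1 : ℤ) else 0 := by
    intro S w
    rw [d, ← sum_filter, sum_const, nsmul_eq_mul, mul_one]
    congr 2
    ext x
    rw [mem_inter, mem_filter, and_comm]
  rw [sum_congr rfl fun w _ => h1 B w, sum_congr rfl fun w _ => h1 A w, sum_comm]
  refine sum_congr rfl fun b _ => sum_congr rfl fun w _ => ?_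
  by_cases h : b ∈ G.nb w
  · rw [if_pos h, if_pos (G.sym _ _ h)]
  · rw [if_neg h, if_neg fun h2 => h (G.sym _ _ h2)]

theorem P5_sum (h : G.Sm K F) : G.P5 F = 12 * (G.l F : ℤ) - 4 * (F.card : ℤ) - 12 +
    ∑ w ∈ G.N F, G.vSm F w := by
  classical
  rw [stP5F_50 G F h.fr]
  have h1 : ∑ w ∈ G.N F, G.vSm F w =
      (∑ w ∈ G.N F, if G.Low w then 4 * (G.d w F : ℤ) + 2 * (G.d w (G.N F) : ℤ) - 6 else 0) +
      (∑ w ∈ G.N F, if G.IsTw w then 2 * (G.d w F : ℤ) + (G.d w (G.N F) : ℤ) - 7 else 0) +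
      ∑ w ∈ G.N F, (G.flv F w - G.flv (G.Co F) w) := by
    rw [← sum_add_distrib, ← sum_add_distrib]
    refine sum_congr rfl fun w _ => ?_
    unfold vSm
    congr
  rw [h1, ← sum_filter, ← sum_filter]
  have h7 : ∀ p : V → Prop, ∀ i1 i2 : DecidablePred p, ∀ f : V → ℤ,
      ∑ w ∈ @Finset.filter V p i1 (G.N F), f w = ∑ w ∈ @Finset.filter V p i2 (G.N F), f w := by
    intro p i1 i2 f
    congr
  rw [h7 (fun w => G.IsTw w) _ (fun a => Classical.propDecidable _)]
  ring

theorem lF (h : G.Sm K F) : G.l F = (F \ K).card := by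
  rw [l]
  congr 1
  ext w
  rw [mem_filter, mem_sdiff]
  constructor
  · rintro ⟨h1, h2⟩
    exact ⟨h1, fun h3 => tw_not_low11 (h.k6.2.1 w h3) h2⟩
  · rintro ⟨h1, h2⟩
    exact ⟨h1, h.low w (h.por w h1 h2)⟩

theorem cF (h : G.Sm K F) : F.card = 6 + (F \ K).card := by
  have h1 := card_sdiff_add_card_inter F K
  rw [inter_eq_right.2 h.sub, h.k6.1] at h1
  omega

/-- ports outside of `F` -/
theorem port_out (h : G.Sm K F) {w : V} (hw : w ∈ G.N K) (hwF : w ∉ F) : w ∈ G.N F := by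
  obtain ⟨-, q, hq, hwq⟩ := mem_N76.1 hw
  exact mem_N76.2 ⟨hwF, q, h.sub hq, hwq⟩

/-- neighbours of a port inside `F` -/
theorem dA (h : G.Sm K F) {a : V} (ha : a ∈ F \ K) : G.d a (F \ K) + G.d a (G.N F) = 4 := by
  rw [mem_sdiff] at ha
  have h1 := sum6 h (h.por a ha.1 ha.2)
  have h2 : G.d a (G.Co F) = 0 := by
    rw [d, card_eq_zero, eq_empty_iff_forall_notMem]
    intro x hx
    rw [mem_inter] at hx
    have h3 := mem_Co76.1 hx.2
    exact h3.2 (mem_N76.2 ⟨h3.1, a, ha.1, hx.1⟩)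
  omega

/-- the sum over the ports outside of `F` -/
theorem sumP (hC : G.Crit) (h9 : 9 ≤ Fintype.card V) (h : G.Sm K F) (hN : (G.N K).card = 6)
    (hS : G.StSmS) (hP : G.StSmP) :
    5 * (((G.N K) \ F).card : ℤ) + 2 * ∑ w ∈ (G.N K) \ F, (G.d w (F \ K) : ℤ) ≤
      ∑ w ∈ (G.N K) \ F, G.vSm F w + ((G.T11 K F).card : ℤ) := by
  classical
  set f : V → ℤ := fun w => if w ∈ F then 0 else
    G.vSm F w - 2 * (G.d w (F \ K) : ℤ) - 5 + (if w ∈ G.T11 K F then 1 else 0) with hf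
  have h1 := K38.swap hC h9 h.k6 hN f
  have h2 : ∀ q ∈ K, 0 ≤ ∑ w ∈ (G.N K).filter (fun w => w ∈ G.nb q), f w := by
    intro q hq
    obtain ⟨u, v, huv, huS, hvS, hul, hvl, hvu, hu, hv, hall⟩ := K38.ports hC h9 h.k6 hq
    have h3 : (G.N K).filter (fun w => w ∈ G.nb q) = {u, v} := by
      ext w
      rw [mem_filter, mem_insert, mem_singleton, mem_N76]
      constructor
      · rintro ⟨⟨h4, -⟩, h5⟩
        exact hall w h5 h4
      · rintro (rfl | rfl)
        · exact ⟨⟨huS, q, hq, hu⟩, hu⟩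
        · exact ⟨⟨hvS, q, hq, hv⟩, hv⟩
    have huN : u ∈ G.N K := mem_N76.2 ⟨huS, q, hq, hu⟩
    have hvN : v ∈ G.N K := mem_N76.2 ⟨hvS, q, hq, hv⟩
    rw [h3, sum_pair huv]
    have key : ∀ a b, a ∈ G.nb q → b ∈ G.nb q → a ∉ K → b ∉ K → a ≠ b → a ∉ F → b ∈ F →
        a ∈ G.N K → 0 ≤ f a + f b := by
      intro a b ha hb haK hbK hab haF hbF haN
      have h4 := hS K F h q hq a ha b hb haK hbK hab (port_out h haN haF) hbF
      have h5 : a ∈ G.T11 K F := by
        rw [T11, mem_filter]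
        exact ⟨haN, haF, q, hq, ha, b, hb, mem_sdiff.2 ⟨hbF, hbK⟩⟩
      simp only [hf]
      rw [if_neg haF, if_pos hbF, if_pos h5]
      linarith
    by_cases huF : u ∈ F
    · by_cases hvF : v ∈ F
      · simp only [hf]
        rw [if_pos huF, if_pos hvF]
        norm_num
      · have := key v u hv hu hvS huS huv.symm hvF huF hvN
        linarith
    · by_cases hvF : v ∈ F
      · exact key u v hu hv huS hvS huv huF hvF huN
      · have h4 := hP K F h q hq u hu v hv huS hvS huv (port_out h huN huF) (port_out h hvN hvF)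
        simp only [hf]
        rw [if_neg huF, if_neg hvF]
        have h5 : (0 : ℤ) ≤ if u ∈ G.T11 K F then 1 else 0 := by split_ifs <;> norm_num
        have h6 : (0 : ℤ) ≤ if v ∈ G.T11 K F then 1 else 0 := by split_ifs <;> norm_num
        linarith
  have h3 := sum_nonneg h2
  rw [← h1] at h3
  have h4 : ∑ w ∈ G.N K, f w = ∑ w ∈ (G.N K) \ F,
      (G.vSm F w - 2 * (G.d w (F \ K) : ℤ) - 5 + (if w ∈ G.T11 K F then 1 else 0)) := by
    rw [← sum_sdiff (s₁ := (G.N K) \ F) (s₂ := G.N K) sdiff_subset]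
    rw [sum_eq_zero (s := (G.N K) \ ((G.N K) \ F)), zero_add]
    · refine sum_congr rfl fun w hw => ?_
      simp only [hf]
      rw [if_neg (mem_sdiff.1 hw).2]
    · intro w hw
      rw [mem_sdiff, mem_sdiff, not_and, not_not] at hw
      simp only [hf]
      rw [if_pos (hw.2 hw.1)]
  have h5 : ∑ w ∈ (G.N K) \ F, (if w ∈ G.T11 K F then (1 : ℤ) else 0) = ((G.T11 K F).card : ℤ) := by
    rw [← sum_filter, sum_const, nsmul_eq_mul, mul_one]
    congr 2
    ext w
    rw [mem_filter]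
    constructor
    · exact fun h => h.2
    · intro h
      refine ⟨?_, h⟩
      rw [T11, mem_filter] at h
      exact mem_sdiff.2 ⟨h.1, h.2.1⟩
  rw [h4, sum_add_distrib, h5, sum_sub_distrib, sum_sub_distrib, sum_const, nsmul_eq_mul,
    ← mul_sum] at h3
  linarith

/-- not more single ports outside than ports inside -/
theorem T_le (hC : G.Crit) (h9 : 9 ≤ Fintype.card V) (h : G.Sm K F) (hN : (G.N K).card = 6) :
    (G.T11 K F).card ≤ (F \ K).card := by
  classical
  set f : V → ℤ := fun w => (if w ∈ F \ K then 1 else 0) - (if w ∈ G.T11 K F then 1 else 0)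
    with hf
  have h1 := K38.swap hC h9 h.k6 hN f
  have h2 : ∀ q ∈ K, 0 ≤ ∑ w ∈ (G.N K).filter (fun w => w ∈ G.nb q), f w := by
    intro q hq
    obtain ⟨u, v, huv, huS, hvS, hul, hvl, hvu, hu, hv, hall⟩ := K38.ports hC h9 h.k6 hq
    have h3 : (G.N K).filter (fun w => w ∈ G.nb q) = {u, v} := by
      ext w
      rw [mem_filter, mem_insert, mem_singleton, mem_N76]
      constructor
      · rintro ⟨⟨h4, -⟩, h5⟩
        exact hall w h5 h4
      · rintro (rfl | rfl)
        · exact ⟨⟨huS, q, hq, hu⟩, hu⟩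
        · exact ⟨⟨hvS, q, hq, hv⟩, hv⟩
    have huN : u ∈ G.N K := mem_N76.2 ⟨huS, q, hq, hu⟩
    have hvN : v ∈ G.N K := mem_N76.2 ⟨hvS, q, hq, hv⟩
    rw [h3, sum_pair huv]
    -- a single port has its partner in `F`
    have key : ∀ a b, a ∈ G.nb q → b ∈ G.nb q → a ∉ K → b ∉ K → a ≠ b → a ∈ G.T11 K F →
        b ∈ F \ K := by
      intro a b ha hb haK hbK hab haT
      rw [T11, mem_filter] at haT
      obtain ⟨haN, haF, r, hr, har, c, hcr, hcF⟩ := haT
      have hac : a ≠ c := fun e => haF (e ▸ (mem_sdiff.1 hcF).1)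
      have pr : Pr G K r a c := ⟨hr, har, hcr, haK, (mem_sdiff.1 hcF).2, hac⟩
      have pq : Pr G K q a b := ⟨hq, ha, hb, haK, hbK, hab⟩
      -- `q` is `r` or its partner
      obtain ⟨q', t⟩ := h.k6.2.1 q hq
      have h5 := pq.nbK h t
      have h6 : r ∈ G.nb a ∩ K := mem_inter.2 ⟨G.sym _ _ har, hr⟩
      rw [h5, mem_insert, mem_singleton] at h6
      have h7 : c ∈ G.nb q := by
        rcases h6 with h6 | h6
        · rw [← h6]
          exact hcr
        · have t' := (stTwHL_5 G).symm _ _ t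
          refine Tw_nb5 t' (h6 ▸ hcr) ?_
          intro e
          exact (mem_sdiff.1 hcF).2 (e ▸ hq)
      rcases pq.nbq h c h7 with h8 | h8 | h8
      · exact absurd h8 (mem_sdiff.1 hcF).2
      · exact absurd h8.symm hac
      · rw [← h8]
        exact hcF
    have hTn : ∀ a, a ∈ F \ K → a ∉ G.T11 K F := by
      intro a ha hT
      rw [T11, mem_filter] at hT
      exact hT.2.1 (mem_sdiff.1 ha).1
    simp only [hf]
    by_cases huT : u ∈ G.T11 K F
    · have hv' := key u v hu hv huS hvS huv huT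
      rw [if_pos huT, if_pos hv', if_neg (hTn v hv')]
      split_ifs <;> norm_num
    · by_cases hvT : v ∈ G.T11 K F
      · have hu' := key v u hv hu hvS huS huv.symm hvT
        rw [if_neg huT, if_pos hvT, if_pos hu']
        split_ifs <;> norm_num
      · rw [if_neg huT, if_neg hvT]
        split_ifs <;> norm_num
  have h3 := sum_nonneg h2
  rw [← h1] at h3
  simp only [hf] at h3
  rw [sum_sub_distrib, ← sum_filter, ← sum_filter, sum_const, sum_const, nsmul_eq_mul,
    nsmul_eq_mul, mul_one, mul_one] at h3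
  have h4 : (G.N K).filter (fun w => w ∈ F \ K) = F \ K := by
    ext w
    rw [mem_filter]
    exact ⟨fun h => h.2, fun hw => ⟨h.por w (mem_sdiff.1 hw).1 (mem_sdiff.1 hw).2, hw⟩⟩
  have h5 : (G.N K).filter (fun w => w ∈ G.T11 K F) = G.T11 K F := by
    ext w
    rw [mem_filter]
    refine ⟨fun h => h.2, fun hw => ⟨?_, hw⟩⟩
    rw [T11, mem_filter] at hw
    exact hw.1
  rw [h4, h5] at h3
  omega

/-- the vertices of `N F` that are no ports -/
theorem cards (h : G.Sm K F) (hN : (G.N K).card = 6) :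
    ((G.N K) \ F).card + (F \ K).card = 6 ∧ (G.N F \ G.N K).card = (F \ K).card ∧
      ∀ f : V → ℤ, ∑ w ∈ G.N F, f w = ∑ w ∈ (G.N K) \ F, f w + ∑ w ∈ G.N F \ G.N K, f w := by
  classical
  have h1 : (G.N K) \ F = G.N F ∩ G.N K := by
    ext w
    rw [mem_sdiff, mem_inter]
    exact ⟨fun hw => ⟨port_out h hw.1 hw.2, hw.1⟩, fun hw => ⟨hw.2, (mem_N76.1 hw.1).1⟩⟩
  have h2 : (G.N K) ∩ F = F \ K := by
    ext w
    rw [mem_sdiff, mem_inter]
    exact ⟨fun hw => ⟨hw.2, (mem_N76.1 hw.1).1⟩, fun hw => ⟨h.por w hw.1 hw.2, hw.1⟩⟩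
  have h3 := card_sdiff_add_card_inter (G.N K) F
  rw [h2, hN] at h3
  have h4 := card_sdiff_add_card_inter (G.N F) (G.N K)
  rw [← h1, h.fr.2.1] at h4
  refine ⟨h3, by omega, fun f => ?_⟩
  have h5 : G.N F \ (G.N F ∩ G.N K) = G.N F \ G.N K := sdiff_inter_self_left _ _
  rw [h1, add_comm, ← h5, sum_sdiff inter_subset_left]

/-- lower bound -/
theorem P5_low (hC : G.Crit) (h9 : 9 ≤ Fintype.card V) (h : G.Sm K F) (hN : (G.N K).card = 6)
    (hS : G.StSmS) (hP : G.StSmP) (hZ : G.StSmZ) (e : ℤ)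
    (he : 2 * ∑ w ∈ G.N F \ G.N K, (G.d w (F \ K) : ℤ) - 6 * ((F \ K).card : ℤ) + e ≤
      ∑ w ∈ G.N F \ G.N K, G.vSm F w) :
    5 * ((F \ K).card : ℤ) - 6 - ((G.T11 K F).card : ℤ) -
      2 * ∑ a ∈ F \ K, (G.d a (F \ K) : ℤ) + e ≤ G.P5 F := by
  obtain ⟨h1, h2, h3⟩ := cards h hN
  have h4 := sumP hC h9 h hN hS hP
  have h5 : ∑ w ∈ G.N F, (G.d w (F \ K) : ℤ) = 4 * ((F \ K).card : ℤ) -
      ∑ a ∈ F \ K, (G.d a (F \ K) : ℤ) := by
    rw [swap11]
    have h6 : ∀ a ∈ F \ K, (G.d a (G.N F) : ℤ) = 4 - (G.d a (F \ K) : ℤ) := by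
      intro a ha
      have := dA h ha
      omega
    rw [sum_congr rfl h6, sum_sub_distrib, sum_const, nsmul_eq_mul]
    ring
  rw [h3 fun w => (G.d w (F \ K) : ℤ)] at h5
  rw [P5_sum h, h3, lF h, cF h]
  push_cast
  have h7 : (((G.N K) \ F).card : ℤ) = 6 - ((F \ K).card : ℤ) := by omega
  rw [h7] at h4
  linarith

theorem dle (a : V) (D : Finset V) (ha : a ∈ D) : G.d a D + 1 ≤ D.card := by
  have h1 : G.nb a ∩ D ⊆ D.erase a := by
    intro x hx
    rw [mem_inter] at hx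
    rw [mem_erase]
    exact ⟨fun e => G.irr a (e ▸ hx.1), hx.2⟩
  have h2 := card_le_card h1
  rw [card_erase_of_mem ha] at h2
  have h3 : 0 < D.card := card_pos.2 ⟨a, ha⟩
  have h4 : (G.nb a ∩ D).card = G.d a D := rfl
  omega

/-- one of the new vertices of `N F` is better than a twin -/
theorem exZ (h9 : 9 ≤ Fintype.card V) (h : G.Sm K F) (hN : (G.N K).card = 6) (hZ : G.StSmZ)
    (hc : (F \ K).card = 1 ∨ ((F \ K).card = 3 ∧ ∑ a ∈ F \ K, G.d a (F \ K) = 6)) :
    ∃ z ∈ G.N F \ G.N K, 2 * (G.d z (F \ K) : ℤ) - 5 ≤ G.vSm F z := by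
  classical
  by_contra hno
  push Not at hno
  obtain ⟨-, hZc, -⟩ := cards h hN
  have hx : ∀ z ∈ G.N F \ G.N K, 1 ≤ G.d z (F \ K) ∧ (¬ G.IsTw z → 3 ≤ G.d z (F \ K)) ∧
      ∀ z', G.Tw z z' → z' ∈ G.N F \ G.N K := by
    intro z hz
    have h1 := hno z hz
    rw [mem_sdiff] at hz
    obtain ⟨a1, -, a2, -, a3⟩ := hZ K F h z hz.1 hz.2
    refine ⟨a1, fun hnt => ?_, fun z' t => mem_sdiff.2 (a3 z' t)⟩
    by_contra h3
    exact absurd (a2 hnt (by omega)) (not_le.2 h1)
  have hT := stTwHL_5 G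
  rcases hc with hc | ⟨hc, hs⟩
  · rw [hc] at hZc
    obtain ⟨z, hz⟩ := card_eq_one.1 hZc
    have hzm : z ∈ G.N F \ G.N K := by rw [hz]; exact mem_singleton_self _
    obtain ⟨a1, a2, a3⟩ := hx z hzm
    by_cases ht : G.IsTw z
    · obtain ⟨z', t⟩ := ht
      have h1 := a3 z' t
      rw [hz, mem_singleton] at h1
      exact ne_tw t h1.symm
    · have h1 := a2 ht
      have h2 : G.d z (F \ K) ≤ (F \ K).card := card_le_card inter_subset_right
      omega
  · -- all vertices of `F \ K` are adjacent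
    have hd : ∀ a ∈ F \ K, G.d a (F \ K) = 2 := by
      have h1 : ∀ a ∈ F \ K, G.d a (F \ K) ≤ 2 := by
        intro a ha
        have := dle (G := G) a _ ha
        omega
      have h2 : ∑ a ∈ F \ K, G.d a (F \ K) = ∑ _a ∈ F \ K, 2 := by
        rw [hs, sum_const, hc]
        rfl
      exact (sum_eq_sum_iff_of_le h1).1 h2
    have hd2 : ∀ a ∈ F \ K, G.d a (G.N F) = 2 := by
      intro a ha
      have h1 := dA h ha
      have h2 := hd a ha
      omega
    rw [hc] at hZc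
    -- three different neighbours in `N F` are too many
    have h3 : ∀ a ∈ F \ K, ∀ z1 z2 z3, z1 ∈ G.N F → z2 ∈ G.N F → z3 ∈ G.N F → z1 ≠ z2 →
        z1 ≠ z3 → z2 ≠ z3 → z1 ∈ G.nb a → z2 ∈ G.nb a → z3 ∈ G.nb a → False := by
      intro a ha z1 z2 z3 b1 b2 b3 e1 e2 e3 c1 c2 c3
      have h4 : ({z1, z2, z3} : Finset V) ⊆ G.nb a ∩ G.N F := by
        intro x hx
        simp only [mem_insert, mem_singleton] at hx
        rw [mem_inter]
        rcases hx with rfl | rfl | rfl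
        · exact ⟨c1, b1⟩
        · exact ⟨c2, b2⟩
        · exact ⟨c3, b3⟩
      have h5 := card_le_card h4
      have h6 : ({z1, z2, z3} : Finset V).card = 3 := card_eq_three.2 ⟨z1, z2, z3, e1, e2, e3, rfl⟩
      have h7 : (G.nb a ∩ G.N F).card = 2 := hd2 a ha
      omega
    -- a vertex adjacent to all of `F \ K`
    have hfull : ∀ z ∈ G.N F \ G.N K, ¬ G.IsTw z → ∀ a ∈ F \ K, z ∈ G.nb a := by
      intro z hz ht a ha
      have h4 := (hx z hz).2.1 ht
      have h5 : G.nb z ∩ (F \ K) = F \ K :=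
        eq_of_subset_of_card_le inter_subset_right (by rw [hc]; exact h4)
      have h6 : a ∈ G.nb z ∩ (F \ K) := by rw [h5]; exact ha
      exact G.sym _ _ (mem_inter.1 h6).1
    obtain ⟨z1, z2, z3, e12, e13, e23, hZe⟩ := card_eq_three.1 hZc
    have m1 : z1 ∈ G.N F \ G.N K := by rw [hZe]; simp
    have m2 : z2 ∈ G.N F \ G.N K := by rw [hZe]; simp
    have m3 : z3 ∈ G.N F \ G.N K := by rw [hZe]; simp
    have hZm : ∀ z ∈ G.N F \ G.N K, z = z1 ∨ z = z2 ∨ z = z3 := by
      intro z hz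
      rw [hZe] at hz
      simpa only [mem_insert, mem_singleton] using hz
    -- a vertex that is not a twin and two others
    have key : ∀ a b c, a ∈ G.N F \ G.N K → b ∈ G.N F \ G.N K → c ∈ G.N F \ G.N K →
        a ≠ b → a ≠ c → b ≠ c → (∀ z ∈ G.N F \ G.N K, z = a ∨ z = b ∨ z = c) → ¬ G.IsTw a →
        False := by
      intro a b c ha hb hc' hab hac hbc hall hta
      have ha' := (mem_sdiff.1 ha).1
      have hb' := (mem_sdiff.1 hb).1
      have hc'' := (mem_sdiff.1 hc').1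
      by_cases htb : G.IsTw b
      · obtain ⟨b', t⟩ := htb
        have h4 := (hx b hb).2.2 b' t
        have h5 : b' = c := by
          rcases hall b' h4 with h5 | h5 | h5
          · exact absurd ⟨b, hT.symm _ _ (h5 ▸ t)⟩ hta
          · exact absurd h5.symm (ne_tw t)
          · exact h5
        obtain ⟨s, hs'⟩ := card_pos.1 (lt_of_lt_of_le Nat.zero_lt_one (hx b hb).1)
        rw [mem_inter] at hs'
        have h6 : b ∈ G.nb s := G.sym _ _ hs'.1
        have h7 : s ≠ b' := by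
          intro e
          have h8 := (mem_N76.1 (mem_sdiff.1 h4).1).1
          exact h8 (e ▸ (mem_sdiff.1 hs'.2).1)
        have h8 : s ∈ G.nb b' := Tw_nb5 t hs'.1 h7
        rw [h5] at h8
        exact h3 s hs'.2 a b c ha' hb' hc'' hab hac hbc (hfull a ha hta s hs'.2) h6
          (G.sym _ _ h8)
      · obtain ⟨s, hs'⟩ := card_pos.1 (lt_of_lt_of_le Nat.zero_lt_one (hx c hc').1)
        rw [mem_inter] at hs'
        exact h3 s hs'.2 a b c ha' hb' hc'' hab hac hbc (hfull a ha hta s hs'.2)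
          (hfull b hb htb s hs'.2) (G.sym _ _ hs'.1)
    by_cases t1 : G.IsTw z1
    · by_cases t2 : G.IsTw z2
      · by_cases t3 : G.IsTw z3
        · obtain ⟨y1, s1⟩ := t1
          obtain ⟨y2, s2⟩ := t2
          obtain ⟨y3, s3⟩ := t3
          have n1 := (hx z1 m1).2.2 y1 s1
          have n2 := (hx z2 m2).2.2 y2 s2
          have n3 := (hx z3 m3).2.2 y3 s3
          have u := hT.uniq h9
          rcases hZm y1 n1 with h4 | h4 | h4
          · exact ne_tw s1 h4.symm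
          · subst h4
            rcases hZm y3 n3 with h5 | h5 | h5
            · subst h5
              exact e23 (u _ _ _ s1 (hT.symm _ _ s3))
            · subst h5
              exact e13 (u _ _ _ (hT.symm _ _ s1) (hT.symm _ _ s3))
            · exact ne_tw s3 h5.symm
          · subst h4
            rcases hZm y2 n2 with h5 | h5 | h5
            · subst h5
              exact e23 (u _ _ _ (hT.symm _ _ s2) s1)
            · exact ne_tw s2 h5.symm
            · subst h5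
              exact e12 (u _ _ _ (hT.symm _ _ s1) (hT.symm _ _ s2))
        · exact key z3 z1 z2 m3 m1 m2 e13.symm e23.symm e12 (fun z hz => by
            rcases hZm z hz with h4 | h4 | h4
            · exact Or.inr (Or.inl h4)
            · exact Or.inr (Or.inr h4)
            · exact Or.inl h4) t3
      · exact key z2 z1 z3 m2 m1 m3 e12.symm e23 e13 (fun z hz => by
          rcases hZm z hz with h4 | h4 | h4
          · exact Or.inr (Or.inl h4)
          · exact Or.inl h4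
          · exact Or.inr (Or.inr h4)) t2
    · exact key z1 z2 z3 m1 m2 m3 e12 e13 e23 hZm t1

/-- the numbers -/
theorem small_num (hC : G.Crit) (h9 : 9 ≤ Fintype.card V) (h : G.Sm K F) (hN : (G.N K).card = 6)
    (hne : F ≠ K) (hS : G.StSmS) (hP : G.StSmP) (hZ : G.StSmZ) :
    4 ≤ 3 * G.P5 F + 4 * ((F \ K).card : ℤ) + 2 * ((G.T11 K F).card : ℤ) := by
  classical
  have hD1 : 1 ≤ (F \ K).card := by
    rw [Nat.one_le_iff_ne_zero, card_ne_zero, nonempty_iff_ne_empty]
    intro e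
    exact hne (Subset.antisymm (sdiff_eq_empty_iff_subset.1 e) h.sub)
  have hD3 := h.c3
  have hT := T_le hC h9 h hN
  obtain ⟨k, hk⟩ := P5_even11 h9 h.fr
  obtain ⟨-, hZc, -⟩ := cards h hN
  have hsum : ∑ a ∈ F \ K, G.d a (F \ K) ≤ (F \ K).card * ((F \ K).card - 1) := by
    rw [← smul_eq_mul]
    apply sum_le_card_nsmul
    intro a ha
    have := dle (G := G) a _ ha
    omega
  have hz : ∀ z ∈ G.N F \ G.N K, 2 * (G.d z (F \ K) : ℤ) - 6 ≤ G.vSm F z := by
    intro z hz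
    rw [mem_sdiff] at hz
    exact (hZ K F h z hz.1 hz.2).2.1
  have hsz : ∑ z ∈ G.N F \ G.N K, (2 * (G.d z (F \ K) : ℤ) - 6) =
      2 * ∑ w ∈ G.N F \ G.N K, (G.d w (F \ K) : ℤ) - 6 * ((F \ K).card : ℤ) := by
    rw [sum_sub_distrib, ← mul_sum, sum_const, hZc, nsmul_eq_mul]
    ring
  have hS0 : (∑ a ∈ F \ K, (G.d a (F \ K) : ℤ)) = ((∑ a ∈ F \ K, G.d a (F \ K) : ℕ) : ℤ) := by
    push_cast
    rfl
  by_cases hc : (F \ K).card = 1 ∨ ((F \ K).card = 3 ∧ ∑ a ∈ F \ K, G.d a (F \ K) = 6)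
  · obtain ⟨z, hzm, hz1⟩ := exZ h9 h hN hZ hc
    have h1 : ∑ z ∈ G.N F \ G.N K, (2 * (G.d z (F \ K) : ℤ) - 6) <
        ∑ w ∈ G.N F \ G.N K, G.vSm F w := sum_lt_sum hz ⟨z, hzm, by linarith⟩
    rw [hsz] at h1
    have h2 := P5_low hC h9 h hN hS hP hZ 1 (by linarith)
    rw [hS0] at h2
    generalize (∑ a ∈ F \ K, G.d a (F \ K) : ℕ) = S at *
    rcases hc with hc | ⟨hc, hs⟩
    · rw [hc] at hsum
      simp only [Nat.sub_self, mul_zero, Nat.le_zero] at hsum
      omega
    · omega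
  · have h1 := sum_le_sum hz
    rw [hsz] at h1
    have h2 := P5_low hC h9 h hN hS hP hZ 0 (by linarith)
    rw [hS0] at h2
    generalize (∑ a ∈ F \ K, G.d a (F \ K) : ℕ) = S at *
    have h3 : (F \ K).card = 2 ∨ (F \ K).card = 3 := by omega
    rcases h3 with h3 | h3
    · rw [h3] at hsum
      omega
    · rw [h3] at hsum
      have h4 : S ≠ 6 := fun e => hc (Or.inr ⟨h3, e⟩)
      omega

end Sm11

end CG

end Pool.Agent.Lib.MP_e95c01_co.N
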