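import Pool.Agent.Lib.MP_e95c01_co.Y.Sm11

/-!
# Fragments that consist of a `K6` and at most three of its ports: the ports in `N F`
-/

set_option autoImplicit false

namespace Pool.Agent.Lib.MP_e95c01_co.N

open Finset

variable {V : Type} [Fintype V] [DecidableEq V]

namespace CG

variable {G : CG V}

namespace Sm11

theorem dF {K F : Finset V} (h : G.Sm K F) {w : V} (hw : w ∈ G.N K) :
    G.d w F = 2 + G.d w (F \ K) := by
  have h1 : G.nb w ∩ F = (G.nb w ∩ K) ∪ (G.nb w ∩ (F \ K)) := by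
    ext x
    rw [mem_union, mem_inter, mem_inter, mem_inter, mem_sdiff]
    constructor
    · rintro ⟨a, b⟩
      by_cases hx : x ∈ K
      · exact Or.inl ⟨a, hx⟩
      · exact Or.inr ⟨a, b, hx⟩
    · rintro (⟨a, b⟩ | ⟨a, b, -⟩)
      · exact ⟨a, h.sub b⟩
      · exact ⟨a, b⟩
  have h2 : Disjoint (G.nb w ∩ K) (G.nb w ∩ (F \ K)) := by
    rw [disjoint_left]
    intro x a b
    exact (mem_sdiff.1 (mem_inter.1 b).2).2 (mem_inter.1 a).2
  rw [d, d, h1, card_union_of_disjoint h2, h.two w hw]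

theorem sum6 {K F : Finset V} (h : G.Sm K F) {w : V} (hw : w ∈ G.N K) :
    G.d w (F \ K) + G.d w (G.N F) + G.d w (G.Co F) = 4 := by
  have h1 := d_split76 (G := G) w F
  have h2 : (G.nb w).card = 6 := h.low w hw
  have h3 := dF h hw
  have h4 : (G.nb w ∩ G.N F).card = G.d w (G.N F) := rfl
  omega

theorem le3 {K F : Finset V} (h : G.Sm K F) (w : V) : G.d w (F \ K) ≤ 3 :=
  (card_le_card inter_subset_right).trans h.c3

/-- the ports of a pair -/
structure Pr (G : CG V) (K : Finset V) (q u v : V) : Prop where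
  qK : q ∈ K
  uq : u ∈ G.nb q
  vq : v ∈ G.nb q
  uK : u ∉ K
  vK : v ∉ K
  ne : u ≠ v

variable {K F : Finset V} {q u v : V}

theorem Pr.symm (p : Pr G K q u v) : Pr G K q v u :=
  ⟨p.qK, p.vq, p.uq, p.vK, p.uK, p.ne.symm⟩

theorem Pr.uN (p : Pr G K q u v) : u ∈ G.N K := mem_N76.2 ⟨p.uK, q, p.qK, p.uq⟩

theorem Pr.vN (p : Pr G K q u v) : v ∈ G.N K := mem_N76.2 ⟨p.vK, q, p.qK, p.vq⟩

/-- neighbours of `q` -/
theorem Pr.nbq (h : G.Sm K F) (p : Pr G K q u v) : ∀ w ∈ G.nb q, w ∈ K ∨ w = u ∨ w = v := by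
  intro w hw
  by_contra hno
  push Not at hno
  obtain ⟨h1, h2, h3⟩ := hno
  have h7 := isTw_card16 (h.k6.2.1 q p.qK)
  have h4 : insert w (insert u (insert v (K.erase q))) ⊆ G.nb q := by
    intro x hx
    rw [mem_insert, mem_insert, mem_insert, mem_erase] at hx
    rcases hx with rfl | rfl | rfl | hx
    · exact hw
    · exact p.uq
    · exact p.vq
    · exact h.k6.2.2 q p.qK x hx.2 (Ne.symm hx.1)
  have h5 := card_le_card h4
  rw [card_insert_of_notMem, card_insert_of_notMem, card_insert_of_notMem,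
    card_erase_of_mem p.qK, h.k6.1] at h5
  · omega
  · rw [mem_erase]
    exact fun h => p.vK h.2
  · rw [mem_insert, mem_erase, not_or]
    exact ⟨p.ne, fun h => p.uK h.2⟩
  · rw [mem_insert, mem_insert, mem_erase, not_or, not_or]
    exact ⟨h2, h3, fun h => h1 h.2⟩

theorem ne_tw {q q' : V} (h : G.Tw q q') : q ≠ q' := fun h1 =>
  G.irr q (by have := h.1; rw [← h1] at this; exact this)

/-- the partner of `q` is in `K`, neighbours of both ports -/
theorem Pr.tw (h : G.Sm K F) (p : Pr G K q u v) {q' : V} (t : G.Tw q q') :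
    q' ∈ K ∧ u ∈ G.nb q' ∧ v ∈ G.nb q' := by
  have hu : u ≠ q' ∧ v ≠ q' := by
    constructor
    · intro h1
      have h2 := h.low u p.uN
      rw [h1] at h2
      have h3 : (G.nb q').card = 7 := by
        have h4 := (stTwHL_5 G).symm _ _ t
        exact h4.2.1
      have h5 : (G.nb q').card = 6 := h2
      omega
    · intro h1
      have h2 := h.low v p.vN
      rw [h1] at h2
      have h3 : (G.nb q').card = 7 := by
        have h4 := (stTwHL_5 G).symm _ _ t
        exact h4.2.1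
      have h5 : (G.nb q').card = 6 := h2
      omega
  refine ⟨?_, Tw_nb5 t p.uq hu.1, Tw_nb5 t p.vq hu.2⟩
  rcases p.nbq h q' t.1 with h1 | h1 | h1
  · exact h1
  · exact absurd h1.symm hu.1
  · exact absurd h1.symm hu.2

/-- the neighbours of `u` in `K` -/
theorem Pr.nbK (h : G.Sm K F) (p : Pr G K q u v) {q' : V} (t : G.Tw q q') :
    G.nb u ∩ K = {q, q'} := by
  symm
  obtain ⟨h1, h2, -⟩ := p.tw h t
  apply eq_of_subset_of_card_le
  · intro x hx
    rw [mem_insert, mem_singleton] at hx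
    rw [mem_inter]
    rcases hx with rfl | rfl
    · exact ⟨G.sym _ _ p.uq, p.qK⟩
    · exact ⟨G.sym _ _ h2, h1⟩
  · rw [card_pair (ne_tw t), h.two u p.uN]

theorem low_notTw {w : V} (h : G.Low w) : ¬ G.IsTw w := fun h1 => tw_not_low11 h1 h

theorem s5_nn (S : Finset V) (w : V) : 0 ≤ G.s5 S w := by
  unfold s5
  split_ifs <;> norm_num

theorem s5_le (S : Finset V) (w : V) : G.s5 S w ≤ 2 := by
  unfold s5
  split_ifs <;> norm_num

theorem s5_zero {S : Finset V} {w : V} (h : ∀ z, ¬ G.S0 S w z) : G.s5 S w = 0 := by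
  unfold s5
  rw [if_neg, if_neg]
  · rintro ⟨v, h1, -⟩
    exact h v h1
  · rintro ⟨v, h1, -⟩
    exact h v h1

/-- `S0` seen from the other side -/
theorem s5C (h : G.Sm K F) {w : V} (hw : w ∈ G.N K)
    (h1 : G.d w (F \ K) ≠ 1 ∨ G.d w (G.N F) ≠ 1) : G.s5 (G.Co F) w = 0 := by
  apply s5_zero
  rintro z ⟨-, -, -, h2, ⟨a, a', t, h3, -⟩, -⟩
  obtain ⟨hCo, hCN, hCC⟩ := stCo_37 G F h.fr
  have h4 : G.d w (G.N F) = 1 := by
    have h5 : G.d w (G.N F) = (G.pT (G.Co F) w).card := by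
      rw [pT, hCN]
      rfl
    rw [h5, h2, card_singleton]
  have h6 : G.d w (G.Co F) = 2 := by
    have h5 : G.d w (G.Co F) = (G.pX (G.Co F) w).card := rfl
    rw [h5, h3, card_pair (ne_tw t)]
  have h7 := sum6 h hw
  omega

/-- the value of a low vertex -/
theorem v_low {w : V} (hw : G.Low w) : G.vSm F w =
    4 * (G.d w F : ℤ) + 2 * (G.d w (G.N F) : ℤ) - 6 + (G.flv F w - G.flv (G.Co F) w) := by
  unfold vSm
  rw [if_pos hw, if_neg (low_notTw hw)]
  ring

/-- the flags of a port -/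
theorem flags (h : G.Sm K F) {w : V} (hw : w ∈ G.N K) (hT : ¬ G.T3 F w)
    (hU : ¬ G.U3 (G.Co F) w) : G.s5 F w - G.s5 (G.Co F) w - 2 ≤ G.flv F w - G.flv (G.Co F) w ∧
    (¬ G.HF F w → G.s5 F w - G.s5 (G.Co F) w ≤ G.flv F w - G.flv (G.Co F) w) := by
  have g3 : ¬ G.RF F w := by
    rintro ⟨-, p', m, m', h1, -⟩
    exact tw_not_low11 ⟨p', h1⟩ (h.low w hw)
  have g3' : ¬ G.RF (G.Co F) w := by
    rintro ⟨-, p', m, m', h1, -⟩
    exact tw_not_low11 ⟨p', h1⟩ (h.low w hw)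
  unfold flv
  rw [if_neg hT, if_neg hU, if_neg g3, if_neg g3']
  constructor
  · split_ifs <;> linarith
  · intro hH
    rw [if_neg hH]
    split_ifs <;> linarith

/-- P1 -/
theorem single (h : G.Sm K F) (p : Pr G K q u v) (hvu : v ∈ G.nb u) (hvF : v ∈ F) :
    4 + 2 * (G.d u (F \ K) : ℤ) ≤ G.vSm F u := by
  obtain ⟨hCo, hCN, hCC⟩ := stCo_37 G F h.fr
  have hx1 : 1 ≤ G.d u (F \ K) :=
    card_pos.2 ⟨v, mem_inter.2 ⟨hvu, mem_sdiff.2 ⟨hvF, p.vK⟩⟩⟩
  have hd := dF h p.uN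
  have hs := sum6 h p.uN
  have h3 := le3 h u
  have hT : ¬ G.T3 F u := by
    rintro ⟨-, -, h4, -⟩
    have h5 : (G.pX F u).card = G.d u F := rfl
    omega
  have hU : ¬ G.U3 (G.Co F) u := by
    rintro ⟨-, -, h4, a, a', h6, h7⟩
    have h5 : (G.pX (G.Co F) u).card = G.d u (G.Co F) := rfl
    have h8 : G.d u (G.N F) = 2 := by
      have h9 : G.d u (G.N F) = (G.pT (G.Co F) u).card := by
        rw [pT, hCN]
        rfl
      rw [h9, h7, card_pair (ne_tw h6)]
    omega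
  rw [v_low (h.low u p.uN), hd]
  obtain ⟨f1, f2⟩ := flags h p.uN hT hU
  have f3 := s5_nn (G := G) F u
  have f4 := s5_le (G := G) (G.Co F) u
  by_cases hH : G.HF F u
  · have h5 : G.d u F = 4 := hH.2.2.1
    have h6 : G.d u (F \ K) = 2 := by omega
    rw [s5C h p.uN (by omega)] at f1
    push_cast [h6]
    have : (0 : ℤ) ≤ (G.d u (G.N F) : ℤ) := Int.natCast_nonneg _
    linarith
  · have f5 := f2 hH
    by_cases h7 : G.d u (F \ K) = 1 ∧ G.d u (G.N F) = 1
    · push_cast [h7.1, h7.2]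
      linarith
    · rw [s5C h p.uN (by omega)] at f5
      push_cast
      have : (0 : ℤ) ≤ (G.d u (G.N F) : ℤ) := Int.natCast_nonneg _
      have h8 : (1 : ℤ) ≤ (G.d u (F \ K) : ℤ) := by exact_mod_cast hx1
      linarith

/-- a port with its partner in `N F`: only `S0` matters -/
theorem flags2 (h : G.Sm K F) (p : Pr G K q u v) (hvu : v ∈ G.nb u) (hvN : v ∈ G.N F) :
    G.s5 F u - G.s5 (G.Co F) u ≤ G.flv F u - G.flv (G.Co F) u := by
  obtain ⟨hCo, hCN, hCC⟩ := stCo_37 G F h.fr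
  have hvT : v ∈ G.pT F u := mem_inter.2 ⟨hvu, hvN⟩
  have hvT' : v ∈ G.pT (G.Co F) u := by
    rw [pT, hCN]
    exact mem_inter.2 ⟨hvu, hvN⟩
  have hvl := h.low v p.vN
  have hT : ¬ G.T3 F u := by
    rintro ⟨-, -, -, Q, Q', r, r', z, h1, -, -, h4, -⟩
    rw [h4, mem_insert, mem_singleton] at hvT
    rcases hvT with h5 | h5
    · exact tw_not_low11 ⟨Q', h1⟩ (by rw [← h5]; exact hvl)
    · exact tw_not_low11 ⟨Q, (stTwHL_5 G).symm _ _ h1⟩ (by rw [← h5]; exact hvl)
  have hU : ¬ G.U3 (G.Co F) u := by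
    rintro ⟨-, -, -, Q, Q', h1, h4⟩
    rw [h4, mem_insert, mem_singleton] at hvT'
    rcases hvT' with h5 | h5
    · exact tw_not_low11 ⟨Q', h1⟩ (by rw [← h5]; exact hvl)
    · exact tw_not_low11 ⟨Q, (stTwHL_5 G).symm _ _ h1⟩ (by rw [← h5]; exact hvl)
  have hH : ¬ G.HF F u := by
    rintro ⟨-, -, -, a, b, h1, -, -, h4⟩
    rw [h4, mem_singleton] at hvT
    have h5 : (G.nb a).card = 7 := h1.1
    have h6 : (G.nb v).card = 6 := hvl
    rw [hvT] at h6
    omega
  exact (flags h p.uN hT hU).2 hH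

/-- `S0` for a port with no neighbour in `F` outside of `K` and no other neighbour in `N F` -/
theorem s0F (h : G.Sm K F) (p : Pr G K q u v) (hvu : v ∈ G.nb u) (huN : u ∈ G.N F)
    (hvN : v ∈ G.N F) (h0 : G.d v (F \ K) = 0) (h1 : G.d v (G.N F) = 1)
    (hu : G.d u (F \ K) ≤ 1) : G.S0 F v u := by
  have huv : u ∈ G.nb v := G.sym _ _ hvu
  obtain ⟨q', t⟩ := h.k6.2.1 q p.qK
  have hTv : G.pT F v = {u} := by
    obtain ⟨z, hz⟩ := card_eq_one.1 (show (G.pT F v).card = 1 from h1)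
    have h2 : u ∈ G.pT F v := mem_inter.2 ⟨huv, huN⟩
    rw [hz, mem_singleton] at h2
    rw [hz, h2]
  have hXv : G.pX F v = {q, q'} := by
    rw [← p.symm.nbK h t]
    ext x
    rw [pX, mem_inter, mem_inter]
    constructor
    · rintro ⟨a, b⟩
      refine ⟨a, ?_⟩
      by_contra hx
      have h2 : x ∈ G.nb v ∩ (F \ K) := mem_inter.2 ⟨a, mem_sdiff.2 ⟨b, hx⟩⟩
      rw [card_eq_zero.1 h0] at h2
      exact notMem_empty _ h2
    · rintro ⟨a, b⟩
      exact ⟨a, h.sub b⟩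
  refine ⟨hvN, h.low v p.vN, h.low u p.uN, hTv, ⟨q, q', t, hXv, G.sym _ _ p.uq⟩, ?_⟩
  rintro ⟨h2, h3⟩
  have h4 := sum6 h p.uN
  have h5 : G.d u (G.N F) = 1 := by
    have h6 : G.d u (G.N F) = (G.pT F u).card := rfl
    rw [h6, h2, card_singleton]
  have h7 : G.d u (G.Co F) = (G.pO F u).card := rfl
  omega

theorem pXdiff (h0 : G.d v (F \ K) = 0) (h1 : G.d u (F \ K) ≠ 0) :
    G.pX F u ≠ G.pX F v := by
  intro he
  apply h1
  rw [d, card_eq_zero]
  rw [d, card_eq_zero] at h0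
  rw [eq_empty_iff_forall_notMem]
  intro x hx
  rw [mem_inter] at hx
  have h2 : x ∈ G.pX F u := mem_inter.2 ⟨hx.1, (mem_sdiff.1 hx.2).1⟩
  rw [he, pX, mem_inter] at h2
  have h3 : x ∈ G.nb v ∩ (F \ K) := mem_inter.2 ⟨h2.1, hx.2⟩
  rw [h0] at h3
  exact notMem_empty _ h3

/-- both ports see one vertex of `F` outside of `K` and a pair of twins in `Co F` -/
theorem s5CC (h : G.Sm K F) (p : Pr G K q u v) (hvu : v ∈ G.nb u) (huN : u ∈ G.N F)
    (hvN : v ∈ G.N F) (hxu : G.d u (F \ K) = 1) (hxv : G.d v (F \ K) = 1) :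
    G.s5 (G.Co F) u + G.s5 (G.Co F) v ≤ 2 := by
  classical
  obtain ⟨hCo, hCN, hCC⟩ := stCo_37 G F h.fr
  have huv : u ∈ G.nb v := G.sym _ _ hvu
  have l1 := s5_le (G := G) (G.Co F) u
  have l2 := s5_le (G := G) (G.Co F) v
  by_cases hu0 : ∀ z, ¬ G.S0 (G.Co F) u z
  · rw [s5_zero hu0]
    linarith
  by_cases hv0 : ∀ z, ¬ G.S0 (G.Co F) v z
  · rw [s5_zero hv0]
    linarith
  push Not at hu0 hv0
  obtain ⟨z, hz⟩ := hu0
  obtain ⟨z', hz'⟩ := hv0
  have hzv : z = v := by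
    have h1 := hz.2.2.2.1
    have h2 : v ∈ G.pT (G.Co F) u := by
      rw [pT, hCN]
      exact mem_inter.2 ⟨hvu, hvN⟩
    rw [h1, mem_singleton] at h2
    exact h2.symm
  have hzu : z' = u := by
    have h1 := hz'.2.2.2.1
    have h2 : u ∈ G.pT (G.Co F) v := by
      rw [pT, hCN]
      exact mem_inter.2 ⟨huv, huN⟩
    rw [h1, mem_singleton] at h2
    exact h2.symm
  subst hzv hzu
  -- now z = v, z' = u
  obtain ⟨-, -, -, hTu, ⟨a, a', ta, hXu, haz⟩, -⟩ := hz
  obtain ⟨-, -, -, hTv, ⟨b, b', tb, hXv, -⟩, -⟩ := hz'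
  have hle1 : G.pX (G.Co F) z' = G.pX (G.Co F) z := by
    apply eq_of_subset_of_card_le
    · intro x hx
      have hx' : x ∈ G.Co F := (mem_inter.1 hx).2
      rw [hXu, mem_insert, mem_singleton] at hx
      refine mem_inter.2 ⟨?_, hx'⟩
      rcases hx with rfl | rfl
      · exact haz
      · refine G.sym _ _ (Tw_nb5 ta (G.sym _ _ haz) ?_)
        rintro rfl
        exact (mem_Co76.1 hx').2 hvN
    · rw [hXu, hXv, card_pair (ne_tw ta), card_pair (ne_tw tb)]
  obtain ⟨q', t⟩ := h.k6.2.1 q p.qK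
  obtain ⟨x, hx⟩ := card_eq_one.1 hxu
  obtain ⟨y, hy⟩ := card_eq_one.1 hxv
  have nbu : G.nb z' = insert x (insert z (insert q (insert q' (G.pX (G.Co F) z')))) := by
    ext w
    have hKw : w ∈ G.nb z' ∧ w ∈ K ↔ w = q ∨ w = q' := by
      rw [← mem_inter, p.nbK h t, mem_insert, mem_singleton]
    have hDw : w ∈ G.nb z' ∧ w ∈ F \ K ↔ w = x := by
      rw [← mem_inter, hx, mem_singleton]
    have hTw : w ∈ G.nb z' ∧ w ∈ G.N F ↔ w = z := by
      rw [← mem_inter, ← hCN]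
      change w ∈ G.pT (G.Co F) z' ↔ _
      rw [hTu, mem_singleton]
    simp only [mem_insert]
    rw [pX, mem_inter]
    constructor
    · intro hw
      by_cases h1 : w ∈ K
      · rcases hKw.1 ⟨hw, h1⟩ with h2 | h2
        · exact Or.inr (Or.inr (Or.inl h2))
        · exact Or.inr (Or.inr (Or.inr (Or.inl h2)))
      by_cases h2 : w ∈ F
      · exact Or.inl (hDw.1 ⟨hw, mem_sdiff.2 ⟨h2, h1⟩⟩)
      by_cases h3 : w ∈ G.N F
      · exact Or.inr (Or.inl (hTw.1 ⟨hw, h3⟩))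
      · exact Or.inr (Or.inr (Or.inr (Or.inr ⟨hw, mem_Co76.2 ⟨h2, h3⟩⟩)))
    · rintro (h1 | h1 | h1 | h1 | h1)
      · exact (hDw.2 h1).1
      · exact (hTw.2 h1).1
      · exact (hKw.2 (Or.inl h1)).1
      · exact (hKw.2 (Or.inr h1)).1
      · exact h1.1
  have nbv : G.nb z = insert y (insert z' (insert q (insert q' (G.pX (G.Co F) z)))) := by
    ext w
    have hKw : w ∈ G.nb z ∧ w ∈ K ↔ w = q ∨ w = q' := by
      rw [← mem_inter, p.symm.nbK h t, mem_insert, mem_singleton]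
    have hDw : w ∈ G.nb z ∧ w ∈ F \ K ↔ w = y := by
      rw [← mem_inter, hy, mem_singleton]
    have hTw : w ∈ G.nb z ∧ w ∈ G.N F ↔ w = z' := by
      rw [← mem_inter, ← hCN]
      change w ∈ G.pT (G.Co F) z ↔ _
      rw [hTv, mem_singleton]
    simp only [mem_insert]
    rw [pX, mem_inter]
    constructor
    · intro hw
      by_cases h1 : w ∈ K
      · rcases hKw.1 ⟨hw, h1⟩ with h2 | h2
        · exact Or.inr (Or.inr (Or.inl h2))
        · exact Or.inr (Or.inr (Or.inr (Or.inl h2)))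
      by_cases h2 : w ∈ F
      · exact Or.inl (hDw.1 ⟨hw, mem_sdiff.2 ⟨h2, h1⟩⟩)
      by_cases h3 : w ∈ G.N F
      · exact Or.inr (Or.inl (hTw.1 ⟨hw, h3⟩))
      · exact Or.inr (Or.inr (Or.inr (Or.inr ⟨hw, mem_Co76.2 ⟨h2, h3⟩⟩)))
    · rintro (h1 | h1 | h1 | h1 | h1)
      · exact (hDw.2 h1).1
      · exact (hTw.2 h1).1
      · exact (hKw.2 (Or.inl h1)).1
      · exact (hKw.2 (Or.inr h1)).1
      · exact h1.1
  have hxm : x ∈ G.nb z' ∩ (F \ K) := by rw [hx]; exact mem_singleton_self _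
  have hym : y ∈ G.nb z ∩ (F \ K) := by rw [hy]; exact mem_singleton_self _
  have hxF := mem_sdiff.1 (mem_inter.1 hxm).2
  have hyF := mem_sdiff.1 (mem_inter.1 hym).2
  have hzF : z ∉ F := (mem_N76.1 hvN).1
  have hz'F : z' ∉ F := (mem_N76.1 huN).1
  have hxy : x ≠ y := by
    intro he
    -- the closed neighbourhoods agree: five neighbours
    have h1 : G.N {z', z} ⊆ (G.nb z').erase z := by
      intro w hw
      obtain ⟨h2, s, hs, hws⟩ := mem_N76.1 hw
      rw [mem_insert, mem_singleton, not_or] at h2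
      rw [mem_insert, mem_singleton] at hs
      refine mem_erase.2 ⟨h2.2, ?_⟩
      rcases hs with rfl | rfl
      · exact hws
      · rw [nbv] at hws
        rw [nbu]
        simp only [mem_insert] at hws ⊢
        rcases hws with h3 | h3 | h3 | h3 | h3
        · exact Or.inl (h3.trans he.symm)
        · exact absurd h3 h2.1
        · exact Or.inr (Or.inr (Or.inl h3))
        · exact Or.inr (Or.inr (Or.inr (Or.inl h3)))
        · exact Or.inr (Or.inr (Or.inr (Or.inr (by rw [hle1]; exact h3))))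
    have h2 := card_le_card h1
    rw [card_erase_of_mem hvu] at h2
    have h3 : (G.nb z').card = 6 := h.low z' p.uN
    have h4 := stN6_37 G {z', z} (insert_nonempty _ _) (by
      obtain ⟨s, hs⟩ := h.fr.1
      -- a vertex of `K` different from `q`, `q'`
      obtain ⟨s, hs, hsn⟩ : ∃ s ∈ K, s ∉ ({q, q'} : Finset V) := by
        by_contra hno
        push Not at hno
        have h5 := card_le_card (fun x hx => hno x hx : K ⊆ ({q, q'} : Finset V))
        rw [h.k6.1] at h5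
        have h6 := card_le_two (a := q) (b := q')
        omega
      refine ⟨s, mem_Co76.2 ⟨?_, ?_⟩⟩
      · rw [mem_insert, mem_singleton, not_or]
        exact ⟨fun e => hz'F (e ▸ h.sub hs), fun e => hzF (e ▸ h.sub hs)⟩
      · intro hsN
        have h7 := (mem_erase.1 (h1 hsN)).2
        have h8 : s ∈ G.nb z' ∩ K := mem_inter.2 ⟨h7, hs⟩
        rw [p.nbK h t] at h8
        exact hsn h8)
    omega
  have hLL : G.LL z' z x y := by
    refine ⟨h.low _ p.uN, h.low _ p.vN, hvu, hxy, ?_, ?_, ?_⟩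
    · rw [mem_clT76, not_or]
      refine ⟨fun e => hzF (e ▸ hxF.1), fun e => ?_⟩
      have h1 : x ∈ G.nb z ∩ (F \ K) := mem_inter.2 ⟨e, mem_sdiff.2 hxF⟩
      rw [hy, mem_singleton] at h1
      exact hxy h1
    · rw [mem_clT76, not_or]
      refine ⟨fun e => hz'F (e ▸ hyF.1), fun e => ?_⟩
      have h1 : y ∈ G.nb z' ∩ (F \ K) := mem_inter.2 ⟨e, mem_sdiff.2 hyF⟩
      rw [hx, mem_singleton] at h1
      exact hxy h1.symm
    · rw [cl, cl, nbu, nbv, hle1]
      ext w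
      simp only [mem_insert]
      tauto
  have hLs : G.LLs (G.Co F) z' z := ⟨⟨x, y, hLL⟩, hle1.symm⟩
  have hLs' : G.LLs (G.Co F) z z' := ⟨⟨y, x, LL_symm76 hLL⟩, hle1⟩
  have e1 : G.s5 (G.Co F) z' ≤ 1 := by
    unfold s5
    rw [if_neg]
    · split_ifs <;> norm_num
    · rintro ⟨w, h1, h2⟩
      have h3 := h1.2.2.2.1
      rw [hTu, singleton_inj] at h3
      exact h2 (h3 ▸ hLs)
  have e2 : G.s5 (G.Co F) z ≤ 1 := by
    unfold s5
    rw [if_neg]
    · split_ifs <;> norm_num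
    · rintro ⟨w, h1, h2⟩
      have h3 := h1.2.2.2.1
      rw [hTv, singleton_inj] at h3
      exact h2 (h3 ▸ hLs')
  linarith

/-- P2 with the first port having at least as many neighbours in `F \ K` -/
theorem pair (h : G.Sm K F) (p : Pr G K q u v) (hvu : v ∈ G.nb u) (huN : u ∈ G.N F)
    (hvN : v ∈ G.N F) (hle : G.d v (F \ K) ≤ G.d u (F \ K)) :
    10 + 2 * (G.d u (F \ K) : ℤ) + 2 * (G.d v (F \ K) : ℤ) ≤ G.vSm F u + G.vSm F v := by
  have huv : u ∈ G.nb v := G.sym _ _ hvu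
  have hdu := dF h p.uN
  have hdv := dF h p.vN
  have hsu := sum6 h p.uN
  have hsv := sum6 h p.vN
  have fu := flags2 h p hvu hvN
  have fv := flags2 h p.symm huv huN
  have yu : 1 ≤ G.d u (G.N F) := card_pos.2 ⟨v, mem_inter.2 ⟨hvu, hvN⟩⟩
  have yv : 1 ≤ G.d v (G.N F) := card_pos.2 ⟨u, mem_inter.2 ⟨huv, huN⟩⟩
  have n1 := s5_nn (G := G) F u
  have n2 := s5_nn (G := G) F v
  have c1 := s5_le (G := G) (G.Co F) u
  have c2 := s5_le (G := G) (G.Co F) v
  rw [v_low (h.low u p.uN), v_low (h.low v p.vN), hdu, hdv]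
  have zyu : (1 : ℤ) ≤ (G.d u (G.N F) : ℤ) := by exact_mod_cast yu
  have zyv : (1 : ℤ) ≤ (G.d v (G.N F) : ℤ) := by exact_mod_cast yv
  have s5two : ∀ a b, G.S0 F a b → ¬ G.LLs F a b → G.s5 F a = 2 := by
    intro a b h1 h2
    unfold s5
    rw [if_pos ⟨b, h1, h2⟩]
  have s5one : ∀ a b, G.S0 F a b → G.pT F b = {a} → 1 ≤ G.s5 F a := by
    intro a b h1 h2
    unfold s5
    split_ifs with h3 h4
    · norm_num
    · norm_num
    · exact absurd ⟨b, h1, h2⟩ h4
  have pTs : ∀ {a b : V}, b ∈ G.nb a → b ∈ G.N F → G.d a (G.N F) = 1 → G.pT F a = {b} := by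
    intro a b h1 h2 h3
    obtain ⟨z, hz⟩ := card_eq_one.1 (show (G.pT F a).card = 1 from h3)
    have h4 : b ∈ G.pT F a := mem_inter.2 ⟨h1, h2⟩
    rw [hz, mem_singleton] at h4
    rw [hz, h4]
  by_cases hv0 : G.d v (F \ K) = 0
  · -- no neighbour of `v`
    rw [s5C h p.vN (by omega)] at fv
    by_cases hu0 : G.d u (F \ K) = 0
    · rw [s5C h p.uN (by omega)] at fu
      by_cases e1 : G.d u (G.N F) = 1
      · by_cases e2 : G.d v (G.N F) = 1
        · have a1 := s5one v u (s0F h p hvu huN hvN hv0 e2 (by omega)) (pTs hvu hvN e1)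
          have a2 := s5one u v (s0F h p.symm huv hvN huN hu0 e1 (by omega)) (pTs huv huN e2)
          push_cast [hu0, hv0, e1, e2]
          linarith
        · have e2' : (2 : ℤ) ≤ (G.d v (G.N F) : ℤ) := by exact_mod_cast (by omega : 2 ≤ G.d v (G.N F))
          have a2 := s0F h p.symm huv hvN huN hu0 e1 (by omega)
          push_cast [hu0, hv0, e1]
          linarith
      · by_cases e2 : G.d v (G.N F) = 1
        · have e1' : (2 : ℤ) ≤ (G.d u (G.N F) : ℤ) := by exact_mod_cast (by omega : 2 ≤ G.d u (G.N F))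
          push_cast [hu0, hv0, e2]
          linarith
        · have e1' : (2 : ℤ) ≤ (G.d u (G.N F) : ℤ) := by exact_mod_cast (by omega : 2 ≤ G.d u (G.N F))
          have e2' : (2 : ℤ) ≤ (G.d v (G.N F) : ℤ) := by exact_mod_cast (by omega : 2 ≤ G.d v (G.N F))
          push_cast [hu0, hv0]
          linarith
    · by_cases hu1 : G.d u (F \ K) = 1
      · by_cases e1 : G.d u (G.N F) = 1
        · by_cases e2 : G.d v (G.N F) = 1
          · have a1 := s5two v u (s0F h p hvu huN hvN hv0 e2 (by omega)) (fun hL =>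
              pXdiff hv0 hu0 hL.2)
            push_cast [hu1, hv0, e1, e2]
            linarith
          · have e2' : (2 : ℤ) ≤ (G.d v (G.N F) : ℤ) := by
              exact_mod_cast (by omega : 2 ≤ G.d v (G.N F))
            push_cast [hu1, hv0, e1]
            linarith
        · have e1' : (2 : ℤ) ≤ (G.d u (G.N F) : ℤ) := by exact_mod_cast (by omega : 2 ≤ G.d u (G.N F))
          rw [s5C h p.uN (by omega)] at fu
          push_cast [hu1, hv0]
          linarith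
      · rw [s5C h p.uN (by omega)] at fu
        have e3 : (2 : ℤ) ≤ (G.d u (F \ K) : ℤ) := by exact_mod_cast (by omega : 2 ≤ G.d u (F \ K))
        push_cast [hv0]
        linarith
  · have e4 : (1 : ℤ) ≤ (G.d v (F \ K) : ℤ) := by exact_mod_cast (by omega : 1 ≤ G.d v (F \ K))
    by_cases hu1 : G.d u (F \ K) = 1
    · have hv1 : G.d v (F \ K) = 1 := by omega
      have a1 := s5CC h p hvu huN hvN hu1 hv1
      push_cast [hu1, hv1]
      linarith
    · rw [s5C h p.uN (by omega)] at fu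
      have e3 : (2 : ℤ) ≤ (G.d u (F \ K) : ℤ) := by exact_mod_cast (by omega : 2 ≤ G.d u (F \ K))
      push_cast
      linarith

end Sm11

open Sm11

theorem port_adj11 (hC : G.Crit) (h9 : 9 ≤ Fintype.card V) {K : Finset V} (hK : G.IsK6 K)
    {q u v : V} (hq : q ∈ K) (hu : u ∈ G.nb q) (hv : v ∈ G.nb q) (huK : u ∉ K) (hvK : v ∉ K)
    (hne : u ≠ v) : v ∈ G.nb u := by
  obtain ⟨-, w, h1, h2, h3, -, h4, h5⟩ := stPort_16 G hC h9 K hK q hq u hu huK
  rw [h5, mem_insert, mem_insert, mem_erase] at hv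
  rcases hv with h6 | h6 | h6
  · exact absurd h6.symm hne
  · rw [h6]
    exact h4
  · exact absurd h6.2 hvK

theorem stSmS_11 (G : CG V) (hC : G.Crit) (h9 : 9 ≤ Fintype.card V) : G.StSmS := by
  intro K F h q hq u hu v hv huK hvK hne huN hvF
  have p : Pr G K q u v := ⟨hq, hu, hv, huK, hvK, hne⟩
  exact single h p (port_adj11 hC h9 h.k6 hq hu hv huK hvK hne) hvF

theorem stSmP_11 (G : CG V) (hC : G.Crit) (h9 : 9 ≤ Fintype.card V) : G.StSmP := by
  intro K F h q hq u hu v hv huK hvK hne huN hvN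
  have p : Pr G K q u v := ⟨hq, hu, hv, huK, hvK, hne⟩
  have hvu := port_adj11 hC h9 h.k6 hq hu hv huK hvK hne
  rcases Nat.le_total (G.d v (F \ K)) (G.d u (F \ K)) with h1 | h1
  · exact pair h p hvu huN hvN h1
  · have := pair h p.symm (G.sym _ _ hvu) hvN huN h1
    linarith

end CG

end Pool.Agent.Lib.MP_e95c01_co.N
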