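import Pool.Agent.Lib.MP_e95c01_co.Y.SmP11

/-!
# Fragments that consist of a `K6` and at most three of its ports: the other vertices of `N F`
-/

set_option autoImplicit false

namespace Pool.Agent.Lib.MP_e95c01_co.N

open Finset

variable {V : Type} [Fintype V] [DecidableEq V]

namespace CG

variable {G : CG V}

namespace Sm11

theorem flv_notLow {S : Finset V} {z : V} (h : ¬ G.Low z) :
    G.flv S z = - (open Classical in if G.RF S z then 1 else 0) := by
  have h1 : G.s5 S z = 0 := s5_zero fun v h2 => h h2.2.1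
  have h2 : ¬ G.U3 S z := fun h3 => h h3.2.1
  have h3 : ¬ G.T3 S z := fun h3 => h h3.2.1
  have h4 : ¬ G.HF S z := fun h3 => h h3.2.1
  unfold flv
  rw [h1, if_neg h2, if_neg h3, if_neg h4]
  ring

theorem flv_low_ge {S : Finset V} {z : V} (h : G.Low z) :
    G.s5 S z - 2 * (open Classical in if G.T3 S z then 1 else 0) -
      2 * (open Classical in if G.HF S z then 1 else 0) ≤ G.flv S z := by
  have h1 : ¬ G.RF S z := by
    rintro ⟨-, p', m, m', h1, -⟩
    exact tw_not_low11 ⟨p', h1⟩ h
  unfold flv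
  rw [if_neg h1]
  split_ifs <;> linarith

theorem flv_low_le {S : Finset V} {z : V} :
    G.flv S z ≤ G.s5 S z + 2 * (open Classical in if G.U3 S z then 1 else 0) := by
  unfold flv
  split_ifs <;> linarith

end Sm11

open Sm11

theorem stSmZ_11 (G : CG V) : G.StSmZ := by
  classical
  intro K F h z hzN hzK
  obtain ⟨hzF, s, hsF, hzs⟩ := mem_N76.1 hzN
  obtain ⟨hCo, hCN, hCC⟩ := stCo_37 G F h.fr
  have hz0 : z ∉ K := fun e => hzF (h.sub e)
  have hK0 : ∀ q ∈ K, q ∉ G.nb z := fun q hq e => hzK (mem_N76.2 ⟨hz0, q, hq, G.sym _ _ e⟩)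
  have hsK : s ∉ K := fun e => hK0 s e (G.sym _ _ hzs)
  have hx : G.d z F = G.d z (F \ K) := by
    rw [d, d]
    congr 1
    ext x
    rw [mem_inter, mem_inter, mem_sdiff]
    exact ⟨fun a => ⟨a.1, a.2, fun e => hK0 x e a.1⟩, fun a => ⟨a.1, a.2.1⟩⟩
  have hx1 : 1 ≤ G.d z (F \ K) :=
    card_pos.2 ⟨s, mem_inter.2 ⟨G.sym _ _ hzs, mem_sdiff.2 ⟨hsF, hsK⟩⟩⟩
  have hx3 : G.d z (F \ K) ≤ 3 := le3 h z
  have hsl : G.Low s := h.low s (h.por s hsF hsK)
  -- the partner
  have hpart : ∀ z', G.Tw z z' → z' ∈ G.N F ∧ z' ∉ G.N K := by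
    intro z' t
    have t' := (stTwHL_5 G).symm _ _ t
    have hz'l : ¬ G.Low z' := fun e => tw_not_low11 ⟨z, t'⟩ e
    have hsz' : s ≠ z' := fun e => hz'l (e ▸ hsl)
    have h1 : s ∈ G.nb z' := Tw_nb5 t (G.sym _ _ hzs) hsz'
    have h2 : z' ∉ G.N K := fun e => hz'l (h.low z' e)
    refine ⟨mem_N76.2 ⟨fun e => ?_, s, hsF, G.sym _ _ h1⟩, h2⟩
    by_cases e2 : z' ∈ K
    · exact hK0 z' e2 t.1
    · exact h2 (h.por z' e e2)
  refine ⟨hx1, ?_⟩
  by_cases hl : G.Low z
  · have hnt : ¬ G.IsTw z := fun e => tw_not_low11 e hl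
    have main : 2 * (G.d z (F \ K) : ℤ) - 5 ≤ G.vSm F z := by
      have hy : (0 : ℤ) ≤ (G.d z (G.N F) : ℤ) := Int.natCast_nonneg _
      rw [v_low hl, hx]
      have f1 := flv_low_ge (S := F) hl
      have f2 := flv_low_le (G := G) (S := G.Co F) (z := z)
      have hH : ¬ G.HF F z := by
        rintro ⟨-, -, e, -⟩
        have e2 : (G.pX F z).card = G.d z F := rfl
        omega
      rw [if_neg hH] at f1
      have n1 := s5_nn (G := G) F z
      have l1 := s5_le (G := G) (G.Co F) z
      have h6 := d_split76 (G := G) z F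
      have h7 : (G.nb z).card = 6 := hl
      have h8 : (G.nb z ∩ G.N F).card = G.d z (G.N F) := rfl
      have e3 : (G.pX (G.Co F) z).card = G.d z (G.Co F) := rfl
      have e4 : (G.pT (G.Co F) z).card = G.d z (G.N F) := by
        rw [pT, hCN]
        rfl
      have hT3 : G.T3 F z → G.d z (F \ K) = 2 := by
        intro e
        have e2 : (G.pX F z).card = G.d z F := rfl
        have e3 := e.2.2.1
        omega
      have hU3 : G.U3 (G.Co F) z → G.d z (F \ K) = 1 ∧ G.d z (G.N F) = 2 := by
        rintro ⟨-, -, g1, a, a', g2, g3⟩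
        rw [g3, card_pair (ne_tw g2)] at e4
        omega
      have hS0 : G.d z (F \ K) ≠ 3 → G.s5 (G.Co F) z = 0 := by
        intro hne
        apply s5_zero
        rintro v ⟨-, -, -, g1, ⟨a, a', g2, g3, -⟩, -⟩
        rw [g1, card_singleton] at e4
        rw [g3, card_pair (ne_tw g2)] at e3
        omega
      by_cases x1 : G.d z (F \ K) = 1
      · have hT : ¬ G.T3 F z := fun e => by
          have := hT3 e
          omega
        rw [if_neg hT] at f1
        rw [hS0 (by omega)] at f2
        by_cases hU : G.U3 (G.Co F) z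
        · have hy2 := (hU3 hU).2
          rw [if_pos hU] at f2
          push_cast [x1, hy2]
          linarith
        · rw [if_neg hU] at f2
          push_cast [x1]
          linarith
      · have hU : ¬ G.U3 (G.Co F) z := fun e => x1 (hU3 e).1
        rw [if_neg hU] at f2
        by_cases x2 : G.d z (F \ K) = 2
        · rw [hS0 (by omega)] at f2
          push_cast [x2]
          split_ifs at f1 <;> linarith
        · have x3 : G.d z (F \ K) = 3 := by omega
          have hT : ¬ G.T3 F z := fun e => x2 (hT3 e)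
          rw [if_neg hT] at f1
          push_cast [x3]
          linarith
    exact ⟨by linarith, fun _ _ => main, fun _ => main, hpart⟩
  · have f1 := flv_notLow (S := F) hl
    have f2 := flv_notLow (S := G.Co F) hl
    have hR : ¬ G.RF F z := by
      rintro ⟨-, p', m, m', -, -, -, e, -⟩
      have e2 : (G.pX F z).card = G.d z F := rfl
      omega
    rw [if_neg hR] at f1
    by_cases ht : G.IsTw z
    · obtain ⟨z', t⟩ := ht
      have hy : 1 ≤ G.d z (G.N F) := card_pos.2 ⟨z', mem_inter.2 ⟨t.1, (hpart z' t).1⟩⟩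
      have hy' : (1 : ℤ) ≤ (G.d z (G.N F) : ℤ) := by exact_mod_cast hy
      have main : 2 * (G.d z (F \ K) : ℤ) - 6 ≤ G.vSm F z := by
        unfold vSm
        rw [if_neg hl, if_pos ⟨z', t⟩, f1, f2, hx]
        split_ifs <;> linarith
      exact ⟨main, fun e => absurd ⟨z', t⟩ e, fun e => absurd e hl, hpart⟩
    · have hR2 : ¬ G.RF (G.Co F) z := by
        rintro ⟨-, p', m, m', e, -⟩
        exact ht ⟨p', e⟩
      rw [if_neg hR2] at f2
      have main : G.vSm F z = 0 := by
        unfold vSm
        rw [if_neg hl, if_neg ht, f1, f2]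
        norm_num
      rw [main]
      refine ⟨?_, fun _ e => ?_, fun e => absurd e hl, hpart⟩
      · have : (G.d z (F \ K) : ℤ) ≤ 3 := by exact_mod_cast hx3
        linarith
      · have : (G.d z (F \ K) : ℤ) ≤ 2 := by exact_mod_cast e
        linarith

end CG

end Pool.Agent.Lib.MP_e95c01_co.N
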