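import Pool.Agent.Lib.MP_e95c01_co.X.Fin5_76
import Pool.Agent.Lib.MP_e95c01_co.Y.Good57

/-!
# Torsos of good fragments: the sum of the balances is not negative
-/

set_option autoImplicit false

namespace Pool.Agent.Lib.MP_e95c01_co.N

open Finset

variable {V : Type} [Fintype V] [DecidableEq V]

namespace CG

/-- the family inside the good fragment `F` together with `Co F` -/
structure Tor (G : CG V) (F : Finset V) (Fa : Finset (Finset V)) : Prop where
  good : ∀ B ∈ Fa, G.GoodK B ∧ B ⊂ F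
  dis : ∀ B ∈ Fa, ∀ B' ∈ Fa, B ≠ B' → Disjoint B B' ∧ Disjoint (G.N B) B'
  reg : G.Reg (insert (G.Co F) Fa)
  notin : G.Co F ∉ Fa
  sum : 0 ≤ ∑ z ∈ R (insert (G.Co F) Fa), G.bal5 (insert (G.Co F) Fa) z
  id : G.P5 F = (∑ B ∈ Fa, G.P5 B) +
    ∑ z ∈ R (insert (G.Co F) Fa), G.bal5 (insert (G.Co F) Fa) z
  k6 : ∀ S, G.IsK6 S → S ⊆ F → ∃ A ∈ Fa, S ⊆ A
  noK : ∀ z ∈ R (insert (G.Co F) Fa), ¬ G.InK z
  cov : 4 ≤ F.card → ∀ z ∈ F, (∀ A ∈ Fa, z ∉ A) → ∀ v ∈ G.nb z, ¬ G.SCov z v →
    ∃ A ∈ Fa, z ∈ G.N A ∧ (v ∈ A ∨ v ∈ G.N A)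
  exp : ∀ B ∈ Fa, ∀ Z : Finset V, Z.Nonempty → Z ⊆ F → Z ⊆ G.N B →
    (∀ z ∈ Z, ∀ A ∈ Fa, A ≠ B → z ∉ G.N A) →
    Z.card < (G.N Z ∩ G.Co B).card ∨ (Fa = {B} ∧ Z = F \ B)
  expF : Fa.Nonempty → ∀ Z : Finset V, Z.Nonempty → Z ⊆ G.N F →
    (∀ z ∈ Z, ∀ A ∈ Fa, z ∉ G.N A) →
    Z.card < (G.N Z ∩ F).card ∨ ∃ B, Fa = {B} ∧ G.N Z ∩ F = F \ B ∧ (F \ B).card = Z.card
  leaf : Fa = ∅ → ∀ B, G.Big B → ¬ B ⊂ F
  max : Fa.Nonempty → ∀ B, G.GoodK B → B ⊆ F → ∃ A ∈ Fa, ¬ Disjoint B (A ∪ G.N A)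
  /-- thick torso, strip or small leaf -/
  cases : (G.Gen6 (insert (G.Co F) Fa) ∧ G.cen (insert (G.Co F) Fa) = 0) ∨
    (∃ B1, Fa = {B1} ∧ F \ B1 = G.N B1 ∩ F ∧ (F \ B1).card ≤ 3) ∨ (Fa = ∅ ∧ F.card ≤ 5)

namespace T38

variable {G : CG V}

/-- no `K6` inside `F`: big subfragments are good -/
theorem big_good {F : Finset V} (hF : G.GoodK F) (hno : ∀ S, G.IsK6 S → ¬ S ⊆ F) {B : Finset V}
    (hB : G.Big B) (hBF : B ⊆ F) : G.GoodK B := by
  refine ⟨hB, fun v hv hK => ?_⟩
  obtain ⟨S, hS, hvS⟩ := hK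
  rcases mem_union.1 (N_subset37 hBF hv) with h | h
  · exact hno S hS (Gd57.k6_sub hF.2 hS hvS h)
  · exact hF.2 v h ⟨S, hS, hvS⟩

/-- a leaf among the good fragments which is not a `K6` is a leaf -/
theorem leaf_all (hC : G.Crit) (h9 : 9 ≤ Fintype.card V) {F : Finset V} (hF : G.GoodK F)
    (hK : ¬ G.IsK6 F) (h : ∀ B, G.GoodK B → ¬ B ⊂ F) :
    (∀ S, G.IsK6 S → ¬ S ⊆ F) ∧ ∀ B, G.Big B → ¬ B ⊂ F := by
  have hno : ∀ S, G.IsK6 S → ¬ S ⊆ F := by
    intro S hS hSF
    have h1 := Gd57.k6_good hC h9 hF.1 hS hSF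
    exact h S h1 (lt_of_le_of_ne hSF (fun h2 => hK (by rw [← h2]; exact hS)))
  exact ⟨hno, fun B hB hBF => h B (big_good hF hno hB hBF.1) hBF⟩

end T38

open T38

/-- the torso of a good fragment -/
theorem tor38 (G : CG V) (hM : G.StM9) (hcr : G.Crit) (hsat : G.Sat) {F : Finset V}
    (hFG : G.GoodK F) (hFK : ¬ G.IsK6 F) : ∃ Fa : Finset (Finset V), G.Tor F Fa := by
  classical
  have hF := hFG.1
  have hsm := G.stSmall_76
  have hst := G.stStruct_53 G.stN6_37 G.stCo_37
  have hcovU := G.stCovU_1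
  have hid := G.stId5_50
  have hps := G.stPs5_50
  have ht1 := G.stTh1_5_50
  have ht23 := G.stTh23_50
  have h3 := G.stF5_all76
  have h4' := G.stF6_all76
  have h5' := G.stF7_all76
  have hLs := G.stLSit_11
  have hLB := G.stLBas_11
  have hK4 := G.stK4k_16
  have h6 := G.stN6_37
  have hco := G.stCo_37
  have hcardV := G.card_V37 hF.1
  have hF3 := hF.2.1
  have hCF3 := hF.2.2
  have hn9 : 9 ≤ Fintype.card V := by omega
  obtain ⟨hCf, hCN, hCC⟩ := hco F hF.1
  -- facts on families of good proper subfragments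
  have hReg : ∀ Fa : Finset (Finset V), (∀ B ∈ Fa, G.GoodK B ∧ B ⊂ F) →
      (∀ B ∈ Fa, ∀ B' ∈ Fa, B ≠ B' → Disjoint B B' ∧ Disjoint (G.N B) B') →
      G.Reg (insert (G.Co F) Fa) ∧ G.Co F ∉ Fa ∧ (∀ A ∈ Fa, G.Co F ≠ A) := by
    intro Fa a1 a2
    have hCoF : ∀ A ∈ Fa, Disjoint (G.Co F) A := by
      intro A hA
      rw [disjoint_left]
      intro v hv hvA
      exact (mem_Co37.1 hv).1 ((a1 A hA).2.1 hvA)
    have hCne : ∀ A ∈ Fa, G.Co F ≠ A := by
      intro A hA h
      obtain ⟨v, hv⟩ := (a1 A hA).1.1.1.1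
      exact (disjoint_left.1 (hCoF A hA)) (by rw [h]; exact hv) hv
    have hNCo : ∀ A ∈ Fa, Disjoint (G.N A) (G.Co F) := by
      intro A hA
      rw [disjoint_left]
      intro v hv hvC
      rcases mem_union.1 (N_subset37 (a1 A hA).2.1 hv) with h | h
      · exact (mem_Co37.1 hvC).1 h
      · exact (mem_Co37.1 hvC).2 h
    refine ⟨?_, fun h => hCne _ h rfl, hCne⟩
    constructor
    · intro B hB
      rcases mem_insert.1 hB with rfl | hB
      · exact hCf
      · exact (a1 B hB).1.1.1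
    · intro B hB B' hB' hne
      rcases mem_insert.1 hB with h1 | h1
      · rcases mem_insert.1 hB' with h2 | h2
        · exact absurd (h1.trans h2.symm) hne
        · rw [h1, hCN]
          refine ⟨hCoF B' h2, ?_⟩
          rw [disjoint_left]
          intro v hv hvB
          exact (mem_N37.1 hv).1 ((a1 B' h2).2.1 hvB)
      · rcases mem_insert.1 hB' with h2 | h2
        · rw [h2]
          exact ⟨(hCoF B h1).symm, hNCo B h1⟩
        · exact a2 B h1 B' h2 hne
  -- the identity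
  have hIdF : ∀ Fa : Finset (Finset V), G.Reg (insert (G.Co F) Fa) → G.Co F ∉ Fa →
      G.P5 F = (∑ B ∈ Fa, G.P5 B) +
        ∑ z ∈ R (insert (G.Co F) Fa), G.bal5 (insert (G.Co F) Fa) z := by
    intro Fa hreg hnot
    have h1 := hid _ hreg
    rw [sum_insert hnot] at h1
    have h2 := hps F hF.1
    linarith
  -- leaves with at most five vertices
  have hsmallleaf : (∀ B, G.Big B → ¬ B ⊂ F) → (∀ S, G.IsK6 S → ¬ S ⊆ F) → 0 ≤ G.P5 F →
      F.card ≤ 5 →
      (4 ≤ F.card → ∀ z ∈ F, ∀ v ∈ G.nb z, G.SCov z v) → ∃ Fa : Finset (Finset V), G.Tor F Fa := by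
    intro hl hno hP h5 hcov
    have hr := hReg ∅ (by simp) (by simp)
    have hi := hIdF ∅ hr.1 hr.2.1
    rw [sum_empty, zero_add] at hi
    refine ⟨∅, by simp, by simp, hr.1, hr.2.1, by rw [← hi]; exact hP, by rw [sum_empty, zero_add]; exact hi, ?_, ?_, ?_, ?_, ?_, ?_, ?_, Or.inr (Or.inr ⟨rfl, h5⟩)⟩
    · intro S hS hSF
      exact absurd hSF (hno S hS)
    · rintro z hz ⟨S, hS, hzS⟩
      rw [R, mem_compl, mem_biUnion] at hz
      by_cases hzF : z ∈ F
      · exact hno S hS (Gd57.k6_sub hFG.2 hS hzS hzF)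
      · by_cases hzN : z ∈ G.N F
        · exact hFG.2 z hzN ⟨S, hS, hzS⟩
        · exact hz ⟨G.Co F, mem_insert_self _ _, mem_Co37.2 ⟨hzF, hzN⟩⟩
    · intro h4 z hz _ v hv hns
      exact absurd (hcov h4 z hz v hv) hns
    · simp
    · simp
    · exact fun _ => hl
    · intro h
      exact absurd h (by simp)
  by_cases hc3 : F.card = 3
  · have hl : ∀ B, G.Big B → ¬ B ⊂ F := by
      intro B hB hBF
      have h1 := card_lt_card hBF
      have h2 := hB.2.1
      omega
    have h := h3 hsat F hF hc3 (by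
      intro z hz v hv hvF
      by_contra hcov
      rcases hst hcr F hF z hz v hv hcov with ⟨B, hB, hBF, -⟩ | ⟨-, h⟩
      · exact hl B hB hBF
      · exact hvF h)
    refine hsmallleaf hl ?_ h (by omega) (by omega)
    intro S hS hSF
    have h1 := card_le_card hSF
    have h2 := hS.1
    omega
  have h4 : 4 ≤ F.card := by omega
  have h13 : 13 ≤ Fintype.card V := by omega
  obtain ⟨Fa, a1, a2, a3, a4, a5, a6, a7⟩ := G.stFamG_57 hcr hn9 F hFG h4
  have b6 : Fa = ∅ → (∀ S, G.IsK6 S → ¬ S ⊆ F) ∧ ∀ B, G.Big B → ¬ B ⊂ F :=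
    fun h => leaf_all hcr hn9 hFG hFK (a6 h)
  have hcovL : Fa = ∅ → ∀ z ∈ F, ∀ v ∈ G.nb z, G.SCov z v := by
    intro hFa z hz v hv
    by_contra hcov
    obtain ⟨A, hA, -⟩ := a3 z hz (by simp [hFa]) v hv hcov
    simp [hFa] at hA
  by_cases hsml : Fa = ∅ ∧ F.card ≤ 5
  · obtain ⟨hFa, h5⟩ := hsml
    have hcov := hcovL hFa
    obtain ⟨hno, hl⟩ := b6 hFa
    rcases (by omega : F.card = 4 ∨ F.card = 5) with h | h
    · rcases h4' hsat F hF h hl hcov with h7 | ⟨h7, -⟩
      · exact hsmallleaf hl hno h7 h5 (fun _ => hcov)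
      · exfalso
        have h8 := hK4 hn9 F hF.1 h7
        rw [kap, Nat.one_le_iff_ne_zero, card_ne_zero] at h8
        obtain ⟨S, hS⟩ := h8
        rw [mem_filter] at hS
        obtain ⟨s, hs⟩ : (S ∩ F).Nonempty := by
          rw [← card_pos]
          have := hS.2.2
          omega
        rw [mem_inter] at hs
        exact hno S hS.2.1 (Gd57.k6_sub hFG.2 hS.2.1 hs.1 hs.2)
    · exact hsmallleaf hl hno (h5' hsat F hF h hl hcov) h5 (fun _ => hcov)
  have hlf : Fa = ∅ → 6 ≤ F.card ∧ G.Lf F := by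
    intro hFa
    refine ⟨?_, hLs hsat F hF h4 (b6 hFa).2 (hcovL hFa)⟩
    by_contra h
    exact hsml ⟨hFa, by omega⟩
  -- the family with the opposite side
  obtain ⟨hreg, hCnot, hCne⟩ := hReg Fa a1 a2
  have hNCo : ∀ A ∈ Fa, Disjoint (G.N A) (G.Co F) := by
    intro A hA
    rw [disjoint_left]
    intro v hv hvC
    rcases mem_union.1 (N_subset37 (a1 A hA).2.1 hv) with h | h
    · exact (mem_Co37.1 hvC).1 h
    · exact (mem_Co37.1 hvC).2 h
  set Fb := insert (G.Co F) Fa with hFb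
  have hbig3 : ∀ B ∈ Fb, 3 ≤ B.card := by
    intro B hB
    rcases mem_insert.1 hB with rfl | hB
    · exact hCF3
    · exact (a1 B hB).1.1.2.1
  have hR : ∀ z, z ∈ R Fb ↔ z ∉ G.Co F ∧ ∀ A ∈ Fa, z ∉ A := by
    intro z
    rw [R, mem_compl, mem_biUnion]
    constructor
    · intro h
      refine ⟨fun h1 => h ⟨G.Co F, mem_insert_self _ _, h1⟩, fun A hA h1 => ?_⟩
      exact h ⟨A, mem_insert_of_mem hA, h1⟩
    · rintro ⟨h1, h2⟩ ⟨A, hA, h3⟩
      rcases mem_insert.1 hA with rfl | hA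
      · exact h1 h3
      · exact h2 A hA h3
  have hIC : ∀ z, G.Co F ∈ G.I Fb z ↔ z ∈ G.N F := by
    intro z
    rw [I, mem_filter, hCN]
    simp [hFb]
  have hIA : ∀ z, ∀ A ∈ Fa, (A ∈ G.I Fb z ↔ z ∈ G.N A) := by
    intro z A hA
    rw [I, mem_filter]
    simp [hFb, hA]
  have hinF : ∀ z ∈ R Fb, G.Co F ∉ G.I Fb z → z ∈ F := by
    intro z hz h
    rw [hIC] at h
    by_contra hzF
    exact ((hR z).1 hz).1 (mem_Co37.2 ⟨hzF, h⟩)
  -- the `K6`'s
  have hk6 : ∀ S, G.IsK6 S → S ⊆ F → ∃ A ∈ Fa, S ⊆ A := by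
    intro S hS hSF
    have hne : Fa.Nonempty := by
      rw [nonempty_iff_ne_empty]
      intro h
      exact (b6 h).1 S hS hSF
    obtain ⟨A, hA, h1⟩ := a7 hne S (Gd57.k6_good hcr hn9 hF hS hSF) hSF
    refine ⟨A, hA, ?_⟩
    rw [not_disjoint_iff] at h1
    obtain ⟨s, hs, hsA⟩ := h1
    rcases mem_union.1 hsA with h2 | h2
    · exact Gd57.k6_sub (a1 A hA).1.2 hS hs h2
    · exact absurd ⟨S, hS, hs⟩ ((a1 A hA).1.2 s h2)
  have hnoK : ∀ z ∈ R Fb, ¬ G.InK z := by
    rintro z hz ⟨S, hS, hzS⟩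
    obtain ⟨h1, h2⟩ := (hR z).1 hz
    by_cases hzF : z ∈ F
    · obtain ⟨A, hA, hSA⟩ := hk6 S hS (Gd57.k6_sub hFG.2 hS hzS hzF)
      exact h2 A hA (hSA hzS)
    · by_cases hzN : z ∈ G.N F
      · exact hFG.2 z hzN ⟨S, hS, hzS⟩
      · exact h1 (mem_Co37.2 ⟨hzF, hzN⟩)
  have hcen : G.cen Fb = 0 := by
    rw [cen, card_eq_zero, filter_eq_empty_iff]
    rintro S - ⟨hS, hSR, -⟩
    obtain ⟨s, hs⟩ : S.Nonempty := by
      rw [← card_pos, hS.1]
      omega
    exact hnoK s (hSR hs) ⟨S, hS, hs⟩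
  -- what remains to be proved
  have hfin : 0 ≤ ∑ z ∈ R Fb, G.bal5 Fb z →
      ((G.Gen6 Fb ∧ G.cen Fb = 0) ∨
        (∃ B1, Fa = {B1} ∧ F \ B1 = G.N B1 ∩ F ∧ (F \ B1).card ≤ 3) ∨
        (Fa = ∅ ∧ F.card ≤ 5)) → ∃ Fa : Finset (Finset V), G.Tor F Fa := by
    intro h1 h2
    exact ⟨Fa, a1, a2, hreg, hCnot, h1, hIdF Fa hreg hCnot, hk6, hnoK, fun _ => a3, a4, a5,
      fun h => (b6 h).2, a7, h2⟩
  -- expansion, with one exception
  have hexp : ∀ B ∈ Fb, ∀ Z : Finset V, Z.Nonempty → Z.card ≤ 3 →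
      (∀ y ∈ Z, y ∈ R Fb ∧ G.I Fb y = {B}) →
      Z.card < (G.N Z ∩ G.Co B).card ∨
        ∃ B1, Fa = {B1} ∧ F \ B1 = G.N B1 ∩ F ∧ Z.card = (F \ B1).card := by
    intro B hB Z hZ hZ3 hK
    rcases mem_insert.1 hB with h1 | h1
    · rw [h1, hCC]
      have hZF : Z ⊆ G.N F := by
        intro z hz
        rw [← hIC z, (hK z hz).2, h1]
        exact mem_singleton_self _
      by_cases hFa : Fa = ∅
      · -- a leaf
        left
        obtain ⟨hF6, hL⟩ := hlf hFa
        by_cases hne : (G.FZ F Z).Nonempty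
        · obtain ⟨e1, e2⟩ := hLB.exp F hL Z hZF hZ hne
          rcases Nat.lt_or_ge Z.card (G.N Z ∩ F).card with e3 | e3
          · exact e3
          · exfalso
            have e4 : Z.card = (G.N Z ∩ F).card := le_antisymm e1 e3
            obtain ⟨e5, -, -⟩ := e2 e4
            have e6 : (F \ G.N Z).card + (F ∩ G.N Z).card = F.card :=
              card_sdiff_add_card_inter _ _
            have e7 : (F ∩ G.N Z).card = (G.N Z ∩ F).card := by rw [inter_comm]
            have e8 : (G.FZ F Z).card = (F \ G.N Z).card := rfl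
            omega
        · have e1 : F \ G.N Z = ∅ := not_nonempty_iff_eq_empty.1 hne
          have e2 : F ⊆ G.N Z ∩ F := fun v hv =>
            mem_inter.2 ⟨sdiff_eq_empty_iff_subset.1 e1 hv, hv⟩
          have e3 := card_le_card e2
          omega
      have hFane : Fa.Nonempty := nonempty_iff_ne_empty.2 hFa
      have hZA : ∀ z ∈ Z, ∀ A ∈ Fa, z ∉ G.N A := by
        intro z hz A hA h
        have h2 := (hIA z A hA).2 h
        rw [(hK z hz).2, h1, mem_singleton] at h2
        exact hCne A hA h2.symm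
      rcases a5 hFane Z hZ hZF hZA with h2 | ⟨B1, hB1, h2, h3⟩
      · exact Or.inl h2
      right
      refine ⟨B1, hB1, ?_, h3.symm⟩
      have hB1m : B1 ∈ Fa := by rw [hB1]; exact mem_singleton_self _
      symm
      apply eq_of_subset_of_card_le
      · intro v hv
        rw [mem_inter] at hv
        exact mem_sdiff.2 ⟨hv.2, (mem_N37.1 hv.1).1⟩
      · rw [h3]
        have h4 : Z ⊆ G.N F \ G.N B1 := fun z hz =>
          mem_sdiff.2 ⟨hZF hz, hZA z hz B1 hB1m⟩
        have h5 := card_le_card h4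
        have h7 : (G.N F \ G.N B1).card + (G.N F ∩ G.N B1).card = 6 := by
          rw [← hF.1.2.1]
          exact card_sdiff_add_card_inter _ _
        have h8 : (G.N B1 ∩ F).card + (G.N F ∩ G.N B1).card = 6 := by
          rw [← (a1 B1 hB1m).1.1.1.2.1, ← card_union_of_disjoint]
          · congr 1
            ext v
            rw [mem_union, mem_inter, mem_inter]
            constructor
            · rintro (h | h)
              · exact h.1
              · exact h.2
            · intro h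
              rcases mem_union.1 (N_subset37 (a1 B1 hB1m).2.1 h) with h9 | h9
              · exact Or.inl ⟨h, h9⟩
              · exact Or.inr ⟨h9, h⟩
          · rw [disjoint_left]
            intro v hv hv'
            rw [mem_inter] at hv hv'
            exact (mem_N37.1 hv'.1).1 hv.2
        omega
    · have hzF : Z ⊆ F := by
        intro z hz
        apply hinF z (hK z hz).1
        rw [(hK z hz).2, mem_singleton]
        exact hCne B h1
      have hzB : Z ⊆ G.N B := by
        intro z hz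
        rw [← hIA z B h1, (hK z hz).2]
        exact mem_singleton_self _
      have hzA : ∀ z ∈ Z, ∀ A ∈ Fa, A ≠ B → z ∉ G.N A := by
        intro z hz A hA hAB h
        have h2 := (hIA z A hA).2 h
        rw [(hK z hz).2, mem_singleton] at h2
        exact hAB h2
      rcases a4 B h1 Z hZ hzF hzB hzA with h2 | ⟨h2, h3⟩
      · exact Or.inl h2
      right
      refine ⟨B, h2, ?_, by rw [h3]⟩
      ext v
      rw [mem_inter, ← h3]
      constructor
      · intro h
        exact ⟨hzB h, hzF h⟩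
      · rintro ⟨h5, h7⟩
        rw [h3, mem_sdiff]
        exact ⟨h7, (mem_N37.1 h5).1⟩
  -- every edge of `R` with `m = 0` is small-covered
  have hscov : ∀ x ∈ R Fb, ∀ z ∈ R Fb, z ∈ G.nb x → G.m Fb x z = 0 → G.SCov x z := by
    intro x hx z hz hxz hm
    rw [m, card_eq_zero] at hm
    have key : ∀ x' ∈ R Fb, ∀ z' ∈ R Fb, z' ∈ G.nb x' → G.I Fb x' ∩ G.I Fb z' = ∅ → x' ∈ F →
        G.SCov x' z' := by
      intro x' hx' z' hz' hxz' hm' hxF
      by_contra hc
      obtain ⟨A, hA, h1, h2⟩ := a3 x' hxF ((hR x').1 hx').2 z' hxz' hc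
      rcases h2 with h2 | h2
      · exact ((hR z').1 hz').2 A hA h2
      · have h3 : A ∈ G.I Fb x' ∩ G.I Fb z' :=
          mem_inter.2 ⟨(hIA x' A hA).2 h1, (hIA z' A hA).2 h2⟩
        rw [hm'] at h3
        exact notMem_empty _ h3
    by_cases hxF : x ∈ F
    · exact key x hx z hz hxz hm hxF
    by_cases hzF : z ∈ F
    · have hs := key z hz x hx (G.sym _ _ hxz) (by rw [inter_comm]; exact hm) hzF
      obtain ⟨E, h1, h2, h3, h4⟩ := hs
      exact ⟨E, h1, h2, h4, h3⟩
    · exfalso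
      have h1 : G.Co F ∈ G.I Fb x ∩ G.I Fb z := by
        refine mem_inter.2 ⟨?_, ?_⟩
        · by_contra h
          exact hxF (hinF x hx h)
        · by_contra h
          exact hzF (hinF z hz h)
      rw [hm] at h1
      exact notMem_empty _ h1
  have hIB : ∀ z, ∀ B, G.I Fb z = {B} → B ∈ Fb := by
    intro z B hI
    have : B ∈ G.I Fb z := by rw [hI]; exact mem_singleton_self _
    exact (mem_filter.1 this).1
  -- the generic case
  by_cases hthin : ∃ B1, Fa = {B1} ∧ F \ B1 = G.N B1 ∩ F ∧ (F \ B1).card ≤ 3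
  swap
  · have hall : ∀ B ∈ Fb, ∀ Z : Finset V, Z.Nonempty → Z.card ≤ 3 →
        (∀ y ∈ Z, y ∈ R Fb ∧ G.I Fb y = {B}) → Z.card < (G.N Z ∩ G.Co B).card := by
      intro B hB Z hZ hZ3 hK
      rcases hexp B hB Z hZ hZ3 hK with h | ⟨B1, h1, h2, h3'⟩
      · exact h
      · exact absurd ⟨B1, h1, h2, by omega⟩ hthin
    have hw : ∀ z ∈ R Fb, ∀ B, G.I Fb z = {B} → 2 ≤ G.d z (G.Co B) := by
      intro z hz B hI
      have h1 := hall B (hIB z B hI) {z} (singleton_nonempty _) (by simp) (by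
        intro y hy
        rw [mem_singleton] at hy
        rw [hy]
        exact ⟨hz, hI⟩)
      rw [card_singleton, N_single37] at h1
      exact h1
    have hG : G.Gen5 Fb := by
      refine ⟨hreg, hbig3, hn9, hcr, hsat, fun x hx z hz hxz hm =>
        hcovU hsm Fb hreg hw x hx z hz hxz hm (hscov x hx z hz hxz hm), hall, ?_⟩
      intro B hB hBI
      have hBF : B ⊆ F := by
        intro z hz
        obtain ⟨h1, h2⟩ := hBI z hz
        apply hinF z h1
        rw [h2]
        exact notMem_empty _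
      by_cases hFa : Fa = ∅
      · have hBe : B = F := by
          by_contra hne
          exact (b6 hFa).2 B hB (hBF.ssubset_of_ne hne)
        refine ⟨by rw [hBe]; exact (hlf hFa).1, G.Co F, mem_insert_self _ _, ?_⟩
        rw [hCC]
        exact hBe
      · exfalso
        -- `B` is good
        have hBG : G.GoodK B := by
          refine ⟨hB, fun v hv hK => ?_⟩
          obtain ⟨S, hS, hvS⟩ := hK
          rcases mem_union.1 (N_subset37 hBF hv) with h | h
          · obtain ⟨A, hA, hSA⟩ := hk6 S hS (Gd57.k6_sub hFG.2 hS hvS h)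
            obtain ⟨-, b, hb, hvb⟩ := mem_N37.1 hv
            obtain ⟨h2, h3'⟩ := hBI b hb
            have hbA : b ∉ A := ((hR b).1 h2).2 A hA
            have hbN : b ∈ G.N A := mem_N37.2 ⟨hbA, v, hSA hvS, G.sym _ _ hvb⟩
            have h8 := (hIA b A hA).2 hbN
            rw [h3'] at h8
            exact notMem_empty _ h8
          · exact hFG.2 v h ⟨S, hS, hvS⟩
        obtain ⟨A, hA, h1⟩ := a7 (nonempty_iff_ne_empty.2 hFa) B hBG hBF
        apply h1
        rw [disjoint_left]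
        intro v hv hv'
        obtain ⟨h2, h3'⟩ := hBI v hv
        rcases mem_union.1 hv' with h7 | h7
        · exact ((hR v).1 h2).2 A hA h7
        · have h8 := (hIA v A hA).2 h7
          rw [h3'] at h8
          exact notMem_empty _ h8
    have h := hM Fb ⟨hG, h13⟩
    rw [hcen] at h
    exact hfin (by simpa using h) (Or.inl ⟨⟨hG, h13⟩, hcen⟩)
  have hthin' := hthin
  obtain ⟨B1, hB1, hth, hth3⟩ := hthin
  apply hfin _ (Or.inr (Or.inl hthin'))
  have hB1m : B1 ∈ Fa := by rw [hB1]; exact mem_singleton_self _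
  have hFb2 : Fb = {G.Co F, B1} := by rw [hFb, hB1]
  have hexp' : ∀ B ∈ Fb, ∀ Z : Finset V, Z.Nonempty → Z.card < (F \ B1).card →
      (∀ y ∈ Z, y ∈ R Fb ∧ G.I Fb y = {B}) → Z.card < (G.N Z ∩ G.Co B).card := by
    intro B hB Z hZ hlt hK
    rcases hexp B hB Z hZ (by omega) hK with h | ⟨B2, h1, h2, h3'⟩
    · exact h
    · exfalso
      have : B2 = B1 := by
        have h5 : B1 ∈ ({B2} : Finset (Finset V)) := by rw [← h1]; exact hB1m
        exact (mem_singleton.1 h5).symm
      rw [this] at h3'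
      omega
  have h7 : (G.N F \ G.N B1).card + (G.N F ∩ G.N B1).card = 6 := by
    rw [← hF.1.2.1]
    exact card_sdiff_add_card_inter _ _
  have h8 : (G.N B1 ∩ F).card + (G.N F ∩ G.N B1).card = 6 := by
    rw [← (a1 B1 hB1m).1.1.1.2.1, ← card_union_of_disjoint]
    · congr 1
      ext v
      rw [mem_union, mem_inter, mem_inter]
      constructor
      · rintro (h | h)
        · exact h.1
        · exact h.2
      · intro h
        rcases mem_union.1 (N_subset37 (a1 B1 hB1m).2.1 h) with h9 | h9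
        · exact Or.inl ⟨h, h9⟩
        · exact Or.inr ⟨h9, h⟩
    · rw [disjoint_left]
      intro v hv hv'
      rw [mem_inter] at hv hv'
      exact (mem_N37.1 hv'.1).1 hv.2
  have hstrip : G.Strip (G.Co F) B1 := by
    refine ⟨hCne B1 hB1m, by rw [← hFb2]; exact hreg, hCF3, (a1 B1 hB1m).1.1.2.1, hn9, hsat, ?_⟩
    intro z hz
    rw [← hFb2, hR] at hz
    rw [hCN, mem_union]
    by_cases hzF : z ∈ F
    · right
      have : z ∈ F \ B1 := mem_sdiff.2 ⟨hzF, hz.2 B1 hB1m⟩
      rw [hth] at this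
      exact (mem_inter.1 this).1
    · left
      by_contra h
      exact hz.1 (mem_Co37.2 ⟨hzF, h⟩)
  have hane : (F \ B1).card ≠ 0 := by
    intro h
    rw [card_eq_zero, sdiff_eq_empty_iff_subset] at h
    exact (a1 B1 hB1m).2.2 h
  have ha : (G.N (G.Co F) \ G.N B1).card = (F \ B1).card := by
    rw [hCN, hth]
    omega
  rw [hFb2]
  -- the two sides
  have hK0A : ∀ y, y ∈ G.K0 (G.Co F) B1 ↔ y ∈ G.N F ∧ y ∉ G.N B1 := by
    intro y
    rw [K0, mem_sdiff, hCN]
  have hK0B : ∀ y, y ∈ G.K0 B1 (G.Co F) ↔ y ∈ F ∧ y ∉ B1 := by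
    intro y
    rw [K0, mem_sdiff, hCN]
    constructor
    · rintro ⟨h1, h2⟩
      rcases mem_union.1 (N_subset37 (a1 B1 hB1m).2.1 h1) with h9 | h9
      · exact ⟨h9, (mem_N37.1 h1).1⟩
      · exact absurd h9 h2
    · rintro ⟨h1, h2⟩
      have h3' : y ∈ F \ B1 := mem_sdiff.2 ⟨h1, h2⟩
      rw [hth, mem_inter] at h3'
      exact ⟨h3'.1, fun h => (mem_N37.1 h).1 h1⟩
  have hIa : ∀ y ∈ G.K0 (G.Co F) B1, y ∈ R Fb ∧ G.I Fb y = {G.Co F} := by
    intro y hy
    obtain ⟨h1, h2⟩ := (hK0A y).1 hy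
    refine ⟨(hR y).2 ⟨fun h => (mem_Co37.1 h).2 h1, fun A hA h => ?_⟩, ?_⟩
    · exact (mem_N37.1 h1).1 ((a1 A hA).2.1 h)
    · ext A
      rw [mem_singleton]
      constructor
      · intro h
        rcases mem_insert.1 (mem_filter.1 h).1 with h9 | h9
        · exact h9
        · have h10 : A = B1 := by
            rw [hB1, mem_singleton] at h9
            exact h9
          exact absurd ((hIA y B1 hB1m).1 (by rw [← h10]; exact h)) h2
      · rintro rfl
        exact (hIC y).2 h1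
  have hIb : ∀ y ∈ G.K0 B1 (G.Co F), y ∈ R Fb ∧ G.I Fb y = {B1} := by
    intro y hy
    obtain ⟨h1, h2⟩ := (hK0B y).1 hy
    have h3' : y ∈ F \ B1 := mem_sdiff.2 ⟨h1, h2⟩
    rw [hth, mem_inter] at h3'
    refine ⟨(hR y).2 ⟨fun h => (mem_Co37.1 h).1 h1, fun A hA h => ?_⟩, ?_⟩
    · rw [hB1, mem_singleton] at hA
      rw [hA] at h
      exact h2 h
    · ext A
      rw [mem_singleton]
      constructor
      · intro h
        rcases mem_insert.1 (mem_filter.1 h).1 with h9 | h9
        · exfalso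
          rw [h9] at h
          exact (mem_N37.1 ((hIC y).1 h)).1 h1
        · rw [hB1, mem_singleton] at h9
          exact h9
      · rintro rfl
        exact (hIA y _ hB1m).2 h3'.1
  have hNa : ∀ Z : Finset V, Z ⊆ G.K0 (G.Co F) B1 → G.N Z ∩ G.Co (G.Co F) ⊆
      G.K0 B1 (G.Co F) := by
    intro Z hZ v hv
    rw [mem_inter, hCC] at hv
    rw [hK0B]
    refine ⟨hv.2, fun hvB => ?_⟩
    obtain ⟨-, u, hu, hvu⟩ := mem_N37.1 hv.1
    obtain ⟨h1, h2⟩ := (hK0A u).1 (hZ hu)
    exact h2 (mem_N37.2 ⟨fun h => (mem_N37.1 h1).1 ((a1 B1 hB1m).2.1 h), v, hvB,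
      G.sym _ _ hvu⟩)
  have hNb : ∀ Z : Finset V, Z ⊆ G.K0 B1 (G.Co F) → G.N Z ∩ G.Co B1 ⊆
      G.K0 (G.Co F) B1 := by
    intro Z hZ v hv
    rw [mem_inter] at hv
    rw [hK0A]
    obtain ⟨h1, h2⟩ := mem_Co37.1 hv.2
    refine ⟨?_, h2⟩
    obtain ⟨-, u, hu, hvu⟩ := mem_N37.1 hv.1
    obtain ⟨h5, h9⟩ := (hK0B u).1 (hZ hu)
    refine mem_N37.2 ⟨fun hvF => ?_, u, h5, hvu⟩
    have h10 : v ∈ F \ B1 := mem_sdiff.2 ⟨hvF, h1⟩
    rw [hth, mem_inter] at h10
    exact h2 h10.1
  rcases (by omega : (F \ B1).card = 1 ∨ 2 ≤ (F \ B1).card) with hc | hc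
  · -- one vertex
    have hcov1 : ∀ y ∈ G.N B1 \ G.N (G.Co F), ∀ s ∈ G.N (G.Co F) \ G.N B1, s ∈ G.nb y →
        G.SCov y s := by
      intro y hy s hs hys
      obtain ⟨hyR, hyI⟩ := hIb y hy
      obtain ⟨hsR, hsI⟩ := hIa s hs
      apply hscov y hyR s hsR hys
      rw [m, hyI, hsI, card_eq_zero, eq_empty_iff_forall_notMem]
      intro A hA
      rw [mem_inter, mem_singleton, mem_singleton] at hA
      exact hCne B1 hB1m (hA.2.symm.trans hA.1)
    exact ht1 (G.Co F) B1 hstrip (by rw [ha]; exact hc) hcov1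
  · -- two or three vertices
    have hcA : (G.K0 (G.Co F) B1).card = (F \ B1).card := ha
    have hcB : (G.K0 B1 (G.Co F)).card = (F \ B1).card := by
      congr 1
      ext y
      rw [hK0B, mem_sdiff]
    have e1 : G.Exps (G.Co F) B1 := by
      constructor
      · intro x hx
        have h1 := hexp' _ (mem_insert_self _ _) {x} (singleton_nonempty _) (by simp; omega) (by
          intro y hy
          rw [mem_singleton] at hy
          rw [hy]
          exact hIa x hx)
        rw [card_singleton] at h1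
        refine le_trans h1 (card_le_card ?_)
        intro v hv
        have h2 := hNa {x} (by simpa using hx) hv
        rw [N_single37] at hv
        exact mem_inter.2 ⟨(mem_inter.1 hv).1, h2⟩
      · intro hc3' x hx x' hx' hne
        have h1 := hexp' _ (mem_insert_self _ _) {x, x'} (insert_nonempty _ _)
          (by rw [card_pair hne]; omega) (by
          intro y hy
          rw [mem_insert, mem_singleton] at hy
          rcases hy with rfl | rfl
          · exact hIa _ hx
          · exact hIa _ hx')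
        rw [card_pair hne] at h1
        have h2 : G.N {x, x'} ∩ G.Co (G.Co F) = G.K0 B1 (G.Co F) := by
          apply eq_of_subset_of_card_le
          · apply hNa
            intro y hy
            rw [mem_insert, mem_singleton] at hy
            rcases hy with rfl | rfl
            · exact hx
            · exact hx'
          · omega
        intro v hv
        rw [← h2, mem_inter] at hv
        obtain ⟨-, u, hu, hvu⟩ := mem_N37.1 hv.1
        rw [mem_insert, mem_singleton] at hu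
        rw [mem_union]
        rcases hu with rfl | rfl
        · exact Or.inl hvu
        · exact Or.inr hvu
    have e2 : G.Exps B1 (G.Co F) := by
      constructor
      · intro x hx
        have h1 := hexp' B1 (mem_insert_of_mem hB1m) {x} (singleton_nonempty _)
          (by simp; omega) (by
          intro y hy
          rw [mem_singleton] at hy
          rw [hy]
          exact hIb x hx)
        rw [card_singleton] at h1
        refine le_trans h1 (card_le_card ?_)
        intro v hv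
        have h2 := hNb {x} (by simpa using hx) hv
        rw [N_single37] at hv
        exact mem_inter.2 ⟨(mem_inter.1 hv).1, h2⟩
      · intro hc3' x hx x' hx' hne
        have h1 := hexp' B1 (mem_insert_of_mem hB1m) {x, x'} (insert_nonempty _ _)
          (by rw [card_pair hne]; omega) (by
          intro y hy
          rw [mem_insert, mem_singleton] at hy
          rcases hy with rfl | rfl
          · exact hIb _ hx
          · exact hIb _ hx')
        rw [card_pair hne] at h1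
        have h2 : G.N {x, x'} ∩ G.Co B1 = G.K0 (G.Co F) B1 := by
          apply eq_of_subset_of_card_le
          · apply hNb
            intro y hy
            rw [mem_insert, mem_singleton] at hy
            rcases hy with rfl | rfl
            · exact hx
            · exact hx'
          · omega
        intro v hv
        rw [← h2, mem_inter] at hv
        obtain ⟨-, u, hu, hvu⟩ := mem_N37.1 hv.1
        rw [mem_insert, mem_singleton] at hu
        rw [mem_union]
        rcases hu with rfl | rfl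
        · exact Or.inl hvu
        · exact Or.inr hvu
    have hk : ∀ z ∈ R Fb, ∀ B, G.I Fb z = {B} → 2 ≤ G.d z (G.Co B) := by
      intro z hz B hI
      have h1 := hexp' B (hIB z B hI) {z} (singleton_nonempty _) (by simp; omega) (by
        intro y hy
        rw [mem_singleton] at hy
        rw [hy]
        exact ⟨hz, hI⟩)
      rw [card_singleton, N_single37] at h1
      exact h1
    refine ht23 (G.Co F) B1 ⟨hstrip, ?_, e1, e2⟩ (by omega)
    rw [← hFb2]
    intro x hx z hz hxz hm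
    exact hcovU hsm Fb hreg hk x hx z hz hxz hm (hscov x hx z hz hxz hm)

end CG

end Pool.Agent.Lib.MP_e95c01_co.N
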