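import Pool.Agent.Lib.MP_e95c01_co.Y.Rows6
import Pool.Agent.Lib.MP_e95c01_co.Y.Tor38
import Pool.Agent.Lib.MP_e95c01_co.Y.K6P38

/-!
# The functional `WS`: the weights `theta` without the ports of the `K6`'s on the other side

`WS F = 3 P5 F + Σ thS F w`, where `thS F w = 0` if `w` is a low vertex of a port pair of a `K6` in
`Co F` that costs something (an `LL` pair whose private neighbours are not both ports of the `K6`,
and which has no common neighbour among the ports), and `thS F w = theta F w` otherwise. Claim: `4 ≤ WS F` for every good fragment which is not a `K6`.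
-/

set_option autoImplicit false

namespace Pool.Agent.Lib.MP_e95c01_co.N

open Finset

variable {V : Type} [Fintype V] [DecidableEq V]

namespace CG

/-- `q` is a vertex of the `K6` `S` whose two ports form an `LL` pair; the private neighbours are not
both ports of `S`, and no common neighbour is a port of `S` -/
def PLb (G : CG V) (S : Finset V) (q : V) : Prop := G.IsK6 S ∧ q ∈ S ∧ ∃ u v x y, u ∈ G.nb q ∧
  v ∈ G.nb q ∧ u ∉ S ∧ v ∉ S ∧ G.LL u v x y ∧ ¬ (x ∈ G.N S ∧ y ∈ G.N S) ∧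
  Disjoint (G.nb u ∩ G.nb v) (G.N S)

/-- `w` is a port of the `K6` `S` which costs something -/
def Bad (G : CG V) (S : Finset V) (w : V) : Prop := ∃ q, G.PLb S q ∧ w ∈ G.nb q ∧ w ∉ S

/-- `w` is a costly port of a `K6` with a vertex in `C` -/
def BadC (G : CG V) (C : Finset V) (w : V) : Prop := ∃ S, G.Bad S w ∧ (S ∩ C).Nonempty

open Classical in
/-- weight of a low vertex -/
noncomputable def thS (G : CG V) (F : Finset V) (w : V) : ℤ :=
  if G.BadC (G.Co F) w then 0 else G.theta F w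

/-- the functional -/
noncomputable def WS (G : CG V) (F : Finset V) : ℤ :=
  3 * G.P5 F + ∑ w ∈ univ.filter (fun w => G.Low w), G.thS F w

open Classical in
/-- the ordinary members -/
noncomputable def ordS (G : CG V) (Fa : Finset (Finset V)) : Finset (Finset V) :=
  Fa.filter fun B => ¬ G.IsK6 B

open Classical in
/-- the `K6`'s among the members -/
noncomputable def k6S (G : CG V) (Fa : Finset (Finset V)) : Finset (Finset V) :=
  Fa.filter fun B => G.IsK6 B

/-- what a low vertex brings in a torso -/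
noncomputable def gamS (G : CG V) (Fa : Finset (Finset V)) (F : Finset V) (w : V) : ℤ :=
  G.thS F w - ∑ B ∈ G.ordS Fa, G.thS B w

open Classical in
/-- the `K6` members for which `w` is a costly port -/
noncomputable def badS (G : CG V) (Fa : Finset (Finset V)) (w : V) : Finset (Finset V) :=
  (G.k6S Fa).filter fun K => G.Bad K w

/-- the value of a vertex of the torso -/
noncomputable def valS (G : CG V) (Fa : Finset (Finset V)) (F : Finset V) (z : V) : ℤ :=
  3 * G.fc (insert (G.Co F) Fa) z +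
    (if G.Low z then 2 * (G.gamS Fa F z - 3 * ((G.badS Fa z).card : ℤ)) else 0)

variable {G : CG V} {Fa : Finset (Finset V)} {F : Finset V}

theorem Co_anti33 {A B : Finset V} (h : A ⊆ B) : G.Co B ⊆ G.Co A := by
  intro v hv
  have h1 := mem_Co76.1 hv
  refine mem_Co76.2 ⟨fun h2 => h1.1 (h h2), fun h2 => ?_⟩
  rcases mem_union.1 (N_subset37 h h2) with h3 | h3
  · exact h1.1 h3
  · exact h1.2 h3

theorem BadC.mono {C C' : Finset V} {w : V} (h : G.BadC C w) (hC : C ⊆ C') : G.BadC C' w := by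
  obtain ⟨S, h1, h2⟩ := h
  exact ⟨S, h1, h2.mono (inter_subset_inter_left hC)⟩

theorem Bad.low (hC : G.Crit) (h9 : 9 ≤ Fintype.card V) {S : Finset V} {w : V}
    (h : G.Bad S w) : G.Low w ∧ w ∈ G.N S := by
  obtain ⟨q, ⟨hS, hq, -⟩, h1, h2⟩ := h
  have h3 : w ∈ G.N S := mem_N76.2 ⟨h2, q, hq, h1⟩
  exact ⟨(k6_low16 hC h9 hS h3).1, h3⟩

theorem thS_nonneg33 (F : Finset V) (w : V) : 0 ≤ G.thS F w := by
  unfold thS
  split_ifs
  · norm_num
  · exact theta_nonneg6 F w

theorem thS_le33 (F : Finset V) (w : V) : G.thS F w ≤ G.theta F w := by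
  unfold thS
  split_ifs
  · exact theta_nonneg6 F w
  · exact le_rfl

theorem thS_le4_33 (F : Finset V) (w : V) : G.thS F w ≤ 4 :=
  (thS_le33 F w).trans (theta_le6 F w)

/-- a costly port of a `K6` with a vertex in `C` is in `C` or in `N C`, so not in `F` -/
theorem badC_notin {F : Finset V} {w : V} (h : G.BadC (G.Co F) w) (hS : ∀ S, G.IsK6 S →
    (S ∩ G.Co F).Nonempty → S ⊆ G.Co F) : w ∉ F := by
  intro hw
  obtain ⟨S, ⟨q, ⟨h1, hq, -⟩, h2, -⟩, h3⟩ := h
  have h4 := hS S h1 h3 hq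
  have h5 := mem_Co76.1 h4
  exact h5.2 (mem_N76.2 ⟨h5.1, w, hw, G.sym _ _ h2⟩)

/-- `K6`'s and the opposite side of a good fragment -/
theorem good_k6_Co {F : Finset V} (hF : ∀ v ∈ G.N F, ¬ G.InK v) : ∀ S, G.IsK6 S →
    (S ∩ G.Co F).Nonempty → S ⊆ G.Co F := by
  rintro S hS ⟨q, hq⟩
  exact Gd57.k6_sub_Co hF hS (mem_inter.1 hq).1 (mem_inter.1 hq).2

theorem thS_in33 {w : V} (hF : ∀ v ∈ G.N F, ¬ G.InK v) (hw : w ∈ F) : G.thS F w = 4 := by
  unfold thS
  rw [if_neg, theta_in6 hw]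
  intro h
  exact badC_notin h (good_k6_Co hF) hw

theorem thS_out33 {w : V} (h : w ∉ F) (h' : w ∉ G.N F) : G.thS F w = 0 := by
  unfold thS
  rw [theta_out6 h h', ite_self]

/-- monotonicity of the zeros -/
theorem thS_zero33 {B : Finset V} {w : V} (h : G.BadC (G.Co F) w) (hB : B ⊆ F) :
    G.thS B w = 0 := by
  unfold thS
  rw [if_pos (h.mono (Co_anti33 hB))]

/-- two parts of the family -/
theorem sum_parts33 (f : Finset V → ℤ) : ∑ B ∈ Fa, f B =
    ∑ B ∈ G.ordS Fa, f B + ∑ B ∈ G.k6S Fa, f B := by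
  classical
  rw [ordS, k6S, add_comm]
  exact (sum_filter_add_sum_filter_not Fa (fun B => G.IsK6 B) f).symm

theorem mem_ordS {B : Finset V} : B ∈ G.ordS Fa ↔ B ∈ Fa ∧ ¬ G.IsK6 B := by
  classical
  rw [ordS, mem_filter]

theorem mem_k6S {B : Finset V} : B ∈ G.k6S Fa ↔ B ∈ Fa ∧ G.IsK6 B := by
  classical
  rw [k6S, mem_filter]

/-- the identity of a torso -/
theorem WS_inner33 (hF : G.GoodK F) (T : G.Tor F Fa) :
    G.WS F = ∑ B ∈ G.ordS Fa, G.WS B + 3 * ∑ K ∈ G.k6S Fa, G.P5 K +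
      3 * ∑ z ∈ R (insert (G.Co F) Fa), G.bal5 (insert (G.Co F) Fa) z +
      ∑ z ∈ (R (insert (G.Co F) Fa)).filter (fun z => G.Low z), G.gamS Fa F z := by
  classical
  have h := T.reg
  have hn := T.notin
  have h5 : ∑ B ∈ G.ordS Fa, G.WS B = 3 * ∑ B ∈ G.ordS Fa, G.P5 B +
      ∑ w ∈ univ.filter (fun w => G.Low w), ∑ B ∈ G.ordS Fa, G.thS B w := by
    rw [sum_comm, mul_sum, ← sum_add_distrib]
    rfl
  have h6 : ∑ w ∈ univ.filter (fun w => G.Low w), G.gamS Fa F w =
      ∑ z ∈ (R (insert (G.Co F) Fa)).filter (fun z => G.Low z), G.gamS Fa F z := by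
    symm
    apply sum_subset (filter_subset_filter _ (subset_univ _))
    intro w hw hw'
    have hl : G.Low w := (mem_filter.1 hw).2
    have hR : w ∉ R (insert (G.Co F) Fa) := fun h => hw' (mem_filter.2 ⟨h, hl⟩)
    rw [mem_R76] at hR
    push Not at hR
    obtain ⟨B0, hB0, hwB⟩ := hR
    rw [gamS]
    rcases mem_insert.1 hB0 with rfl | hB0'
    · have c1 := mem_Co76.1 hwB
      rw [thS_out33 c1.1 c1.2, sum_eq_zero, sub_zero]
      intro B hB
      have hB' := (mem_ordS.1 hB).1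
      have hne : B ≠ G.Co F := fun h => hn (h ▸ hB')
      obtain ⟨a, b⟩ := h.dis B (mem_insert_of_mem hB') _ hB0 hne
      exact thS_out33 (fun h => disjoint_left.1 a h hwB) (fun h => disjoint_left.1 b h hwB)
    · have hord : B0 ∈ G.ordS Fa := mem_ordS.2 ⟨hB0', fun hK =>
        tw_not_low11 (hK.2.1 w hwB) hl⟩
      rw [thS_in33 hF.2 ((T.good B0 hB0').2.1 hwB), sum_eq_single_of_mem B0 hord,
        thS_in33 (T.good B0 hB0').1.2 hwB, sub_self]
      intro B hB hne
      have hB' := (mem_ordS.1 hB).1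
      obtain ⟨a, b⟩ := h.dis B (mem_insert_of_mem hB') _ hB0 hne
      exact thS_out33 (fun h => disjoint_left.1 a h hwB) (fun h => disjoint_left.1 b h hwB)
  have h7 : ∑ w ∈ univ.filter (fun w => G.Low w), G.gamS Fa F w =
      ∑ w ∈ univ.filter (fun w => G.Low w), G.thS F w -
      ∑ w ∈ univ.filter (fun w => G.Low w), ∑ B ∈ G.ordS Fa, G.thS B w := by
    rw [← sum_sub_distrib]
    rfl
  have h8 := T.id
  rw [sum_parts33 (G := G) (Fa := Fa) (fun B => G.P5 B)] at h8
  rw [h5, ← h6, h7, WS, h8]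
  ring

end CG

end Pool.Agent.Lib.MP_e95c01_co.N
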