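import Pool.Agent.Lib.MP_e95c01_co.Y.SmC11
import Pool.Agent.Lib.MP_e95c01_co.Y.SmZ11
import Pool.Agent.Lib.MP_e95c01_co.Y.AlQ11
import Pool.Agent.Lib.MP_e95c01_co.Y.WS33

/-!
# The functional `WS` of a `K6` together with at most three of its ports; `AlQ` ports
-/

set_option autoImplicit false

namespace Pool.Agent.Lib.MP_e95c01_co.N

open Finset

variable {V : Type} [Fintype V] [DecidableEq V]

namespace CG

variable {G : CG V}

namespace Sm11

/-- a good fragment that contains a `K6` -/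
theorem mkSm (hC : G.Crit) (h9 : 9 ≤ Fintype.card V) {K F : Finset V} (hF : G.GoodK F)
    (hK : G.IsK6 K) (hKF : K ⊆ F) (hD : F \ K ⊆ G.N K) (hc : (F \ K).card ≤ 3) :
    G.Sm K F ∧ (G.N K).card = 6 := by
  have hfr : G.Frag F := hF.1.1
  have hne : (G.Co K).Nonempty := hfr.2.2.mono (Co_anti33 hKF)
  have hN : (G.N K).card = 6 := (Gd57.k6_N hC h9 hK hne).2.1
  exact ⟨⟨hK, hfr, hKF, fun w hw hwK => hD (mem_sdiff.2 ⟨hw, hwK⟩), hc,
    fun w hw => (k6_low16 hC h9 hK hw).1, K38.two hC h9 hK hN⟩, hN⟩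

/-- a port outside of `F` whose partner is in `F` is not costly for a `K6` in `Co F` -/
theorem T_bad (hC : G.Crit) (h9 : 9 ≤ Fintype.card V) {K F : Finset V} (hF : G.GoodK F)
    (h : G.Sm K F) {w : V} (hw : w ∈ G.T11 K F) : ¬ G.BadC (G.Co F) w := by
  classical
  rw [T11, mem_filter] at hw
  obtain ⟨hwN, hwF, q, hq, hwq, v, hvq, hvF⟩ := hw
  have hvK := (mem_sdiff.1 hvF).2
  have hwK := (mem_N76.1 hwN).1
  have hwv : w ≠ v := fun e => hwF (e ▸ (mem_sdiff.1 hvF).1)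
  have pr : Pr G K q w v := ⟨hq, hwq, hvq, hwK, hvK, hwv⟩
  obtain ⟨q', t⟩ := h.k6.2.1 q hq
  obtain ⟨hq'K, hwq', hvq'⟩ := pr.tw h t
  rintro ⟨S, ⟨r, hP, hwr, hwS⟩, hne⟩
  obtain ⟨hS, hr, u1, u2, x, y, hu1, hu2, hu1S, hu2S, hLL, -⟩ := hP
  have hSC : S ⊆ G.Co F := good_k6_Co hF.2 S hS hne
  have hr7 : (G.nb r).card = 7 := isTw_card16 (hS.2.1 r hr)
  have hneu : u1 ≠ u2 := fun e => G.irr u1 (by have := hLL.2.2.1; rwa [← e] at this)
  have hnbr := k6_nb11 hC h9 hS hr hu1 hu2 hu1S hu2S hneu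
  have hw12 : w = u1 ∨ w = u2 := by
    rw [hnbr, mem_insert, mem_insert, mem_erase] at hwr
    rcases hwr with e | e | e
    · exact Or.inl e
    · exact Or.inr e
    · exact absurd e.2 hwS
  -- `w''` is the other port of `r`
  have main : ∀ w'' x y, G.LL w w'' x y → w'' ∈ G.nb r → False := by
    intro w'' x y hL hw''r
    have hw''l : G.Low w'' := hL.2.1
    have hqq : q ≠ q' := ne_tw t
    -- a neighbour of `w` different from `x` is a neighbour of `w''`
    have hcom : ∀ a, a ∈ G.nb w → a ≠ x → a ≠ w'' → a ∈ G.nb w'' := by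
      intro a ha hax haw
      have h1 : a ∈ insert y (G.cl w) := mem_insert_of_mem (mem_insert_of_mem ha)
      rw [hL.2.2.2.2.2.2, mem_insert] at h1
      rcases h1 with h1 | h1
      · exact absurd h1 hax
      · rcases mem_insert.1 h1 with h2 | h2
        · exact absurd h2 haw
        · exact h2
    have hnl : ∀ a ∈ K, a ≠ w'' := by
      intro a ha e
      exact tw_not_low11 (h.k6.2.1 a ha) (e ▸ hw''l)
    have hqw : q ∈ G.nb w'' ∨ q' ∈ G.nb w'' := by
      by_cases e : q = x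
      · exact Or.inr (hcom q' (G.sym _ _ hwq') (fun e2 => hqq (e.trans e2.symm)) (hnl q' hq'K))
      · exact Or.inl (hcom q (G.sym _ _ hwq) e (hnl q hq))
    have hw''K : w'' ∉ K := fun e => hnl w'' e rfl
    have hw''w : w'' ≠ w := fun e => G.irr w (by have := hL.2.2.1; rwa [e] at this)
    have hq2 : w'' ∈ G.nb q := by
      rcases hqw with e | e
      · exact G.sym _ _ e
      · have e2 := G.sym _ _ e
        exact Tw_nb5 ((stTwHL_5 G).symm _ _ t) e2 (fun e3 => hw''K (e3 ▸ hq))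
    have hw''v : w'' = v := by
      rcases pr.nbq h w'' hq2 with e | e | e
      · exact absurd e hw''K
      · exact absurd e hw''w
      · exact e
    have hrC := mem_Co76.1 (hSC hr)
    refine hrC.2 (mem_N76.2 ⟨hrC.1, v, (mem_sdiff.1 hvF).1, ?_⟩)
    rw [← hw''v]
    exact G.sym _ _ hw''r
  rcases hw12 with e | e
  · rw [← e] at hLL
    exact main u2 x y hLL hu2
  · rw [← e] at hLL
    exact main u1 y x (LL_symm76 hLL) hu1

end Sm11

open Sm11

/-- W14 -/
theorem small_WS11 (hC : G.Crit) (h9 : 9 ≤ Fintype.card V) {K F : Finset V} (hF : G.GoodK F)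
    (hK : G.IsK6 K) (hKF : K ⊆ F) (hne : F ≠ K) (hD : F \ K ⊆ G.N K) (hc : (F \ K).card ≤ 3) :
    4 ≤ G.WS F := by
  classical
  obtain ⟨h, hN⟩ := mkSm hC h9 hF hK hKF hD hc
  have h1 := small_num hC h9 h hN hne (G.stSmS_11 hC h9) (G.stSmP_11 hC h9) G.stSmZ_11
  have hdis : Disjoint (F \ K) (G.T11 K F) := by
    rw [disjoint_left]
    intro w hw hw2
    rw [T11, mem_filter] at hw2
    exact hw2.2.1 (mem_sdiff.1 hw).1
  have hlow : (F \ K) ∪ G.T11 K F ⊆ univ.filter (fun w => G.Low w) := by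
    intro w hw
    rw [mem_filter]
    refine ⟨mem_univ _, ?_⟩
    rcases mem_union.1 hw with h2 | h2
    · exact h.low w (hD h2)
    · rw [T11, mem_filter] at h2
      exact h.low w h2.1
  have h2 : 4 * ((F \ K).card : ℤ) + 2 * ((G.T11 K F).card : ℤ) ≤
      ∑ w ∈ univ.filter (fun w => G.Low w), G.thS F w := by
    have h3 : ∑ w ∈ (F \ K) ∪ G.T11 K F, G.thS F w ≤
        ∑ w ∈ univ.filter (fun w => G.Low w), G.thS F w :=
      sum_le_sum_of_subset_of_nonneg hlow fun w _ _ => thS_nonneg33 F w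
    rw [sum_union hdis] at h3
    have h4 : 4 * ((F \ K).card : ℤ) ≤ ∑ w ∈ F \ K, G.thS F w := by
      have h5 : ∑ w ∈ F \ K, G.thS F w = ∑ _w ∈ F \ K, 4 :=
        sum_congr rfl fun w hw => thS_in33 hF.2 (mem_sdiff.1 hw).1
      rw [h5, sum_const, nsmul_eq_mul]
      linarith
    have h6 : 2 * ((G.T11 K F).card : ℤ) ≤ ∑ w ∈ G.T11 K F, G.thS F w := by
      have h5 : ∑ _w ∈ G.T11 K F, (2 : ℤ) ≤ ∑ w ∈ G.T11 K F, G.thS F w := by
        refine sum_le_sum fun w hw => ?_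
        have h7 := T_bad hC h9 hF h hw
        rw [T11, mem_filter] at hw
        have hwN : w ∈ G.N F := port_out h hw.1 hw.2.1
        have h8 := dF h hw.1
        unfold thS
        rw [if_neg h7]
        unfold theta
        rw [if_neg hw.2.1, if_pos hwN]
        split_ifs <;> omega
      rw [sum_const, nsmul_eq_mul] at h5
      linarith
    linarith
  unfold WS
  linarith

/-- W13 for `Co F` and a subset of `F` -/
theorem alQ_uniq11 (hC : G.Crit) (h9 : 9 ≤ Fintype.card V) {K F S : Finset V} (hF : G.GoodK F)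
    (hK : G.IsK6 K) (hKF : K ⊆ F) (hno : ¬ (F \ K ⊆ G.N K ∧ (F \ K).card ≤ 3))
    (hS : G.Frag S) (hSF : S = G.Co F ∨ S ⊆ F) {u1 v1 u2 v2 : V} (h1 : G.AlQ K S u1 v1)
    (h2 : G.AlQ K S u2 v2) : (u2 = u1 ∧ v2 = v1) ∨ (u2 = v1 ∧ v2 = u1) := by
  classical
  obtain ⟨q1, hq1, hu1, hv1⟩ := h1.q
  obtain ⟨q2, hq2, hu2, hv2⟩ := h2.q
  obtain ⟨r1, t1⟩ := hK.2.1 q1 hq1
  -- a common vertex: the same pair
  have hcom : ∀ a b c d, (∃ q ∈ K, a ∈ G.nb q ∧ b ∈ G.nb q) → (∃ q ∈ K, c ∈ G.nb q ∧ d ∈ G.nb q) →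
      a ∉ K → b ∉ K → c ∉ K → d ∉ K → a ≠ b → c ≠ d → a = c → b = d := by
    rintro a b c d ⟨q, hq, ha, hb⟩ ⟨r, hr, hc, hd⟩ haK hbK hcK hdK hab hcd rfl
    obtain ⟨q', t⟩ := hK.2.1 q hq
    have haN : a ∈ G.N K := mem_N76.2 ⟨haK, q, hq, ha⟩
    have hfr : G.Frag F := hF.1.1
    have hN : (G.N K).card = 6 := (Gd57.k6_N hC h9 hK (hfr.2.2.mono (Co_anti33 hKF))).2.1
    have h2 := K38.two hC h9 hK hN a haN
    have hq'K := k6_twin16 hC h9 hK hq t
    have hal := (k6_low16 hC h9 hK haN).1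
    have haq' : a ∈ G.nb q' := Tw_nb5 t ha (fun e => haK (e ▸ hq'K))
    have h3 : G.nb a ∩ K = {q, q'} := by
      symm
      apply eq_of_subset_of_card_le
      · intro x hx
        rw [mem_insert, mem_singleton] at hx
        rw [mem_inter]
        rcases hx with rfl | rfl
        · exact ⟨G.sym _ _ ha, hq⟩
        · exact ⟨G.sym _ _ haq', hq'K⟩
      · rw [card_pair (ne_tw t), h2]
    have h4 : r ∈ G.nb a ∩ K := mem_inter.2 ⟨G.sym _ _ hc, hr⟩
    rw [h3, mem_insert, mem_singleton] at h4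
    have h5 : d ∈ G.nb q := by
      rcases h4 with e | e
      · exact e ▸ hd
      · exact Tw_nb5 ((stTwHL_5 G).symm _ _ t) (e ▸ hd) (fun e2 => hdK (e2 ▸ hq))
    rw [k6_nb11 hC h9 hK hq ha hb haK hbK hab, mem_insert, mem_insert, mem_erase] at h5
    rcases h5 with e | e | e
    · exact absurd e.symm hcd
    · exact e.symm
    · exact absurd e.2 hdK
  by_cases e1 : u1 = u2
  · left
    exact ⟨e1.symm, (hcom u1 v1 u2 v2 h1.q h2.q h1.uK h1.vK h2.uK h2.vK h1.ne h2.ne e1).symm⟩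
  by_cases e2 : u1 = v2
  · right
    have e3 := hcom u1 v1 v2 u2 h1.q (by
      obtain ⟨q, a, b, c⟩ := h2.q
      exact ⟨q, a, c, b⟩) h1.uK h1.vK h2.vK h2.uK h1.ne h2.ne.symm e2
    exact ⟨e3.symm, e2.symm⟩
  by_cases e3 : v1 = u2
  · exfalso
    have e4 := hcom v1 u1 u2 v2 (by
      obtain ⟨q, a, b, c⟩ := h1.q
      exact ⟨q, a, c, b⟩) h2.q h1.vK h1.uK h2.uK h2.vK h1.ne.symm h2.ne e3
    exact e2 e4
  by_cases e4 : v1 = v2
  · exfalso
    have e5 := hcom v1 u1 v2 u2 (by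
      obtain ⟨q, a, b, c⟩ := h1.q
      exact ⟨q, a, c, b⟩) (by
      obtain ⟨q, a, b, c⟩ := h2.q
      exact ⟨q, a, c, b⟩) h1.vK h1.uK h2.vK h2.uK h1.ne.symm h2.ne.symm e4
    exact e1 e5
  exfalso
  obtain ⟨q, q', a, b, hq, hq', haK, hbK, hab, n1, n2, hN, -, hCo⟩ :=
    al2_cover11 hC h9 hK hS h1 h2 ⟨e1, e2, e3, e4⟩
  have haN : a ∈ G.N K := mem_N76.2 ⟨haK, q, hq, by rw [n1]; exact mem_insert_self _ _⟩
  have hbN : b ∈ G.N K := mem_N76.2 ⟨hbK, q, hq, by
    rw [n1]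
    exact mem_insert_of_mem (mem_insert_self _ _)⟩
  have hfr : G.Frag F := hF.1.1
  obtain ⟨hCf, hCN, hCC⟩ := stCo_37 G F hfr
  rcases hSF with e | e
  · apply hno
    rw [e, hCC] at hCo
    have hsub : F \ K ⊆ {a, b} := by
      intro x hx
      rw [mem_sdiff] at hx
      rw [mem_insert, mem_singleton]
      rcases hCo x hx.1 with e | e | e
      · exact absurd e hx.2
      · exact Or.inl e
      · exact Or.inr e
    refine ⟨fun x hx => ?_, (card_le_card hsub).trans ((card_le_two).trans (by norm_num))⟩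
    have h3 := hsub hx
    rw [mem_insert, mem_singleton] at h3
    rcases h3 with e | e
    · rw [e]
      exact haN
    · rw [e]
      exact hbN
  · obtain ⟨c, hc⟩ := hfr.2.2
    have hcS : c ∈ G.Co S := Co_anti33 e hc
    have hcF := mem_Co76.1 hc
    have hNK : ∀ w ∈ G.N K, w ∈ F ∨ w ∈ G.N F := fun w hw => mem_union.1 (N_subset37 hKF hw)
    rcases hCo c hcS with e | e | e
    · exact hcF.1 (hKF e)
    · rcases hNK a haN with e2 | e2
      · exact hcF.1 (e ▸ e2)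
      · exact hcF.2 (e ▸ e2)
    · rcases hNK b hbN with e2 | e2
      · exact hcF.1 (e ▸ e2)
      · exact hcF.2 (e ▸ e2)

end CG

end Pool.Agent.Lib.MP_e95c01_co.N
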