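import Pool.Agent.Lib.MP_e95c01_co.X.Text5_76
import Pool.Agent.Lib.MP_e95c01_co.Tube.Upper33

/-!
# Transfer to graphs of the bound `3 n ≤ 10 n_6`
-/

namespace Pool.Agent.Lib.MP_e95c01_co

namespace N

namespace Text310

/-- transfer of the bound for all graphs -/
theorem all (hF : ∀ (V : Type) [Fintype V] [DecidableEq V] (C : CG V), C.Crit →
      3 * Fintype.card V ≤ 10 * C.l Finset.univ)
    {V : Type} [Finite V] (G : SimpleGraph V) (hG : Critical 6 G) :
    3 * Nat.card V ≤ 10 * numDeg 6 G := by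
  classical
  have := Fintype.ofFinite V
  by_cases hn : Nat.card V ≤ 7
  · rw [Transfer53.seven G hG.1 hn]; omega
  · have h3 := hF V (Transfer53.cg G hG.1) (Transfer53.crit G hG (by omega))
    rw [Transfer53.l_univ, ← Nat.card_eq_fintype_card] at h3
    exact h3

/-- the lower bound for `c_6` -/
theorem bound (h : ∀ (V : Type) [Finite V] (G : SimpleGraph V), Critical 6 G →
    3 * Nat.card V ≤ 10 * numDeg 6 G) : 3 / 10 ≤ cc 6 := by
  have hb : ∀ c ∈ {c : ℝ | 0 ≤ c ∧ Admissible 6 c}, c ≤ 1 / 3 := by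
    rintro c ⟨-, hc⟩
    have hn : NeZero (3 * 3) := ⟨by omega⟩
    have h3 := hc (ZMod (3 * 3)) (G6 3) (critical6 (le_refl _))
    rw [Nat.card_zmod, numDeg6 (le_refl _)] at h3
    push_cast at h3
    linarith
  apply le_csSup ⟨1 / 3, hb⟩
  refine ⟨by norm_num, ?_⟩
  intro V _ G hG
  have h1 := h V G hG
  have h2 : 3 * (Nat.card V : ℝ) ≤ 10 * (numDeg 6 G : ℝ) := by exact_mod_cast h1
  linarith

/-- the exact value -/
theorem exact310 (hF : ∀ (V : Type) [Fintype V] [DecidableEq V] (C : CG V), C.Crit →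
      3 * Fintype.card V ≤ 10 * C.l Finset.univ) :
    (∀ (V : Type) [Finite V] (G : SimpleGraph V), Critical 6 G →
      3 * Nat.card V ≤ 10 * numDeg 6 G) ∧
    (∀ m : ℕ, 5 ≤ m → ∃ (V : Type) (_ : Finite V) (G : SimpleGraph V),
      Nat.card V = 10 * m + 7 ∧ Critical 6 G ∧ numDeg 6 G = 3 * m + 9) ∧
    cc 6 = 3 / 10 := by
  have h : ∀ (V : Type) [Finite V] (G : SimpleGraph V), Critical 6 G →
      3 * Nat.card V ≤ 10 * numDeg 6 G := fun V _ G hG => all hF G hG
  exact ⟨h, fun m hm => ⟨Tube.V m, inferInstance, Tube.G m, Tube.card_V m, Tube.critical hm,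
    Tube.stDeg38 hm⟩, le_antisymm Tube.upper (bound h)⟩

end Text310

end N

end Pool.Agent.Lib.MP_e95c01_co
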