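import Pool.Agent.Lib.MP_e95c01_co.Y.Par97
import Pool.Agent.Lib.MP_e95c01_co.Y.Val33
import Pool.Agent.Lib.MP_e95c01_co.Y.Cnt31

/-!
# Three full `K6` members and two ordinary members: `4 ≤ WS F`
-/

set_option autoImplicit false

namespace Pool.Agent.Lib.MP_e95c01_co.N

open Finset

variable {V : Type} [Fintype V] [DecidableEq V]

namespace CG

namespace X97

variable {G : CG V} {Fa : Finset (Finset V)} {F : Finset V}

/-- the data: three `K6`'s, three other members, a pair of ports for each of the nine -/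
structure Dq (G : CG V) (Fb Ks Ms : Finset (Finset V)) (Q : Finset V → Finset V → V × V) :
    Prop where
  reg : G.Reg Fb
  sub : Ks ∪ Ms ⊆ Fb
  dj : Disjoint Ks Ms
  k3 : Ks.card = 3
  m3 : Ms.card = 3
  al : ∀ K ∈ Ks, ∀ M ∈ Ms, G.AlQ K M (Q K M).1 (Q K M).2

namespace Dq

variable {Fb Ks Ms : Finset (Finset V)} {Q : Finset V → Finset V → V × V}

theorem Km (D : Dq G Fb Ks Ms Q) {K : Finset V} (h : K ∈ Ks) : K ∈ Fb :=
  D.sub (mem_union_left _ h)

theorem Mm (D : Dq G Fb Ks Ms Q) {M : Finset V} (h : M ∈ Ms) : M ∈ Fb :=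
  D.sub (mem_union_right _ h)

theorem ne (D : Dq G Fb Ks Ms Q) {K M : Finset V} (h : K ∈ Ks) (h' : M ∈ Ms) : K ≠ M :=
  fun e => disjoint_left.1 D.dj h (e ▸ h')

theorem I_port (D : Dq G Fb Ks Ms Q) {K M : Finset V} (hK : K ∈ Ks) (hM : M ∈ Ms) {u v : V}
    (h : G.AlQ K M u v) : G.I Fb u = {K, M} := by
  obtain ⟨q, hq, huq, -⟩ := h.q
  ext B
  rw [mem_I76, mem_insert, mem_singleton]
  constructor
  · rintro ⟨hB, hu⟩
    obtain ⟨-, w, hw, hwu⟩ := mem_N76.1 hu
    by_contra hno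
    push Not at hno
    rcases h.hu w (G.sym _ _ hwu) with h1 | h1 | h1 | h1
    · exact disjoint_left.1 (D.reg.dis B hB K (D.Km hK) hno.1).1 hw h1
    · exact disjoint_left.1 (D.reg.dis B hB M (D.Mm hM) hno.2).1 hw h1
    · exact disjoint_left.1 (D.reg.dis M (D.Mm hM) B hB hno.2.symm).2 h1 hw
    · exact disjoint_left.1 (D.reg.dis K (D.Km hK) B hB hno.1.symm).2 h1 hw
  · rintro (rfl | rfl)
    · exact ⟨D.Km hK, mem_N76.2 ⟨h.uK, q, hq, huq⟩⟩
    · exact ⟨D.Mm hM, h.uN⟩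

/-- the set of the two ports -/
def P (Q : Finset V → Finset V → V × V) (K M : Finset V) : Finset V := {(Q K M).1, (Q K M).2}

theorem al' (D : Dq G Fb Ks Ms Q) {K M : Finset V} (hK : K ∈ Ks) (hM : M ∈ Ms) {w : V}
    (h : w ∈ P Q K M) : ∃ w', G.AlQ K M w w' := by
  rw [P, mem_insert, mem_singleton] at h
  rcases h with rfl | rfl
  · exact ⟨_, D.al K hK M hM⟩
  · exact ⟨_, Pr.al_symm (D.al K hK M hM)⟩

theorem I_P (D : Dq G Fb Ks Ms Q) {K M : Finset V} (hK : K ∈ Ks) (hM : M ∈ Ms) {w : V}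
    (h : w ∈ P Q K M) : G.I Fb w = {K, M} := by
  obtain ⟨w', h1⟩ := D.al' hK hM h
  exact D.I_port hK hM h1

theorem card_P (D : Dq G Fb Ks Ms Q) {K M : Finset V} (hK : K ∈ Ks) (hM : M ∈ Ms) :
    (P Q K M).card = 2 := card_pair (D.al K hK M hM).ne

theorem P_eq (D : Dq G Fb Ks Ms Q) {K M K' M' : Finset V} (hK : K ∈ Ks) (hM : M ∈ Ms)
    (hK' : K' ∈ Ks) (hM' : M' ∈ Ms) {w : V} (h : w ∈ P Q K M) (h' : w ∈ P Q K' M') :
    K = K' ∧ M = M' := by
  have h1 := D.I_P hK hM h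
  rw [D.I_P hK' hM' h'] at h1
  have h2 : K ∈ ({K', M'} : Finset (Finset V)) := by
    rw [h1]
    exact mem_insert_self _ _
  have h3 : M ∈ ({K', M'} : Finset (Finset V)) := by
    rw [h1]
    exact mem_insert_of_mem (mem_singleton_self _)
  rw [mem_insert, mem_singleton] at h2 h3
  refine ⟨?_, ?_⟩
  · rcases h2 with h2 | h2
    · exact h2
    · exact absurd h2 (D.ne hK hM')
  · rcases h3 with h3 | h3
    · exact absurd h3.symm (D.ne hK' hM)
    · exact h3

theorem N_K (D : Dq G Fb Ks Ms Q) {K : Finset V} (hK : K ∈ Ks) :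
    Ms.biUnion (fun M => P Q K M) = G.N K := by
  classical
  apply eq_of_subset_of_card_le
  · intro w hw
    obtain ⟨M, hM, h1⟩ := mem_biUnion.1 hw
    have h2 : K ∈ G.I Fb w := by
      rw [D.I_P hK hM h1]
      exact mem_insert_self _ _
    exact (mem_I76.1 h2).2
  · rw [card_biUnion]
    · rw [sum_congr rfl fun M hM => D.card_P hK hM, sum_const, D.m3,
        (D.reg.frag K (D.Km hK)).2.1]
      norm_num
    · intro M hM M' hM' hne
      rw [Function.onFun, disjoint_left]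
      intro w h1 h2
      exact hne (D.P_eq hK hM hK hM' h1 h2).2

theorem N_M (D : Dq G Fb Ks Ms Q) {M : Finset V} (hM : M ∈ Ms) :
    Ks.biUnion (fun K => P Q K M) = G.N M := by
  classical
  apply eq_of_subset_of_card_le
  · intro w hw
    obtain ⟨K, hK, h1⟩ := mem_biUnion.1 hw
    have h2 : M ∈ G.I Fb w := by
      rw [D.I_P hK hM h1]
      exact mem_insert_of_mem (mem_singleton_self _)
    exact (mem_I76.1 h2).2
  · rw [card_biUnion]
    · rw [sum_congr rfl fun K hK => D.card_P hK hM, sum_const, D.k3,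
        (D.reg.frag M (D.Mm hM)).2.1]
      norm_num
    · intro K hK K' hK' hne
      rw [Function.onFun, disjoint_left]
      intro w h1 h2
      exact hne (D.P_eq hK hM hK' hM h1 h2).1

theorem port_of_N (D : Dq G Fb Ks Ms Q) {B : Finset V} (hB : B ∈ Ks ∪ Ms) {w : V}
    (h : w ∈ G.N B) : ∃ K ∈ Ks, ∃ M ∈ Ms, w ∈ P Q K M := by
  rw [mem_union] at hB
  rcases hB with hB | hB
  · rw [← D.N_K hB] at h
    obtain ⟨M, hM, h1⟩ := mem_biUnion.1 h
    exact ⟨B, hB, M, hM, h1⟩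
  · rw [← D.N_M hB] at h
    obtain ⟨K, hK, h1⟩ := mem_biUnion.1 h
    exact ⟨K, hK, B, hB, h1⟩

/-- the six members and the ports are the whole graph -/
theorem all (D : Dq G Fb Ks Ms Q) (w : V) :
    (∃ B ∈ Ks ∪ Ms, w ∈ B) ∨ ∃ K ∈ Ks, ∃ M ∈ Ms, w ∈ P Q K M := by
  classical
  by_contra hw
  set Z : Finset V := univ.filter fun w => ¬ ((∃ B ∈ Ks ∪ Ms, w ∈ B) ∨
    ∃ K ∈ Ks, ∃ M ∈ Ms, w ∈ P Q K M) with hZ
  have hwZ : w ∈ Z := mem_filter.2 ⟨mem_univ _, hw⟩
  have hcl : ∀ z ∈ Z, G.nb z ⊆ Z ∪ ∅ := by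
    intro z hz y hy
    rw [union_empty, hZ, mem_filter]
    refine ⟨mem_univ _, ?_⟩
    have hz' := (mem_filter.1 hz).2
    have hN : ∀ B ∈ Ks ∪ Ms, z ∉ G.N B := fun B hB h => hz' (Or.inr (D.port_of_N hB h))
    rintro (⟨B, hB, hyB⟩ | ⟨K, hK, M, hM, h1⟩)
    · exact hN B hB (mem_N76.2 ⟨fun h => hz' (Or.inl ⟨B, hB, h⟩), y, hyB, G.sym _ _ hy⟩)
    · obtain ⟨y', h2⟩ := D.al' hK hM h1
      rcases h2.hu z (G.sym _ _ hy) with h5 | h5 | h5 | h5
      · exact hz' (Or.inl ⟨K, mem_union_left _ hK, h5⟩)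
      · exact hz' (Or.inl ⟨M, mem_union_right _ hM, h5⟩)
      · exact hN M (mem_union_right _ hM) h5
      · exact hN K (mem_union_left _ hK) h5
  have hK0 : Ks.Nonempty := by
    rw [← card_pos, D.k3]
    norm_num
  obtain ⟨K, hK⟩ := hK0
  obtain ⟨k, hk⟩ := (D.reg.frag K (D.Km hK)).1
  have h6 := G.conn Z ∅ ⟨w, hwZ⟩ (disjoint_empty_right _) hcl ⟨k, by
    rw [union_empty, hZ, mem_filter]
    rintro ⟨-, h1⟩
    exact h1 (Or.inl ⟨K, mem_union_left _ hK, hk⟩)⟩
  simp at h6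

theorem eq (D : Dq G Fb Ks Ms Q) : Fb = Ks ∪ Ms := by
  apply Subset.antisymm _ D.sub
  intro A hA
  by_contra hno
  obtain ⟨a, ha⟩ := (D.reg.frag A hA).1
  rcases D.all a with ⟨B, hB, h1⟩ | ⟨K, hK, M, hM, h1⟩
  · exact disjoint_left.1 (D.reg.dis B (D.sub hB) A hA (fun e => hno (e ▸ hB))).1 h1 ha
  · have h2 := D.I_P hK hM h1
    have h3 : K ∈ G.I Fb a := by
      rw [h2]
      exact mem_insert_self _ _
    exact disjoint_left.1 (D.reg.dis K (D.Km hK) A hA
      (fun e => hno (e ▸ mem_union_left _ hK))).2 (mem_I76.1 h3).2 ha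

theorem R_port (D : Dq G Fb Ks Ms Q) {w : V} (h : w ∈ R Fb) :
    ∃ K ∈ Ks, ∃ M ∈ Ms, w ∈ P Q K M := by
  rcases D.all w with ⟨B, hB, h1⟩ | h1
  · exact absurd h1 (mem_R76.1 h B (D.sub hB))
  · exact h1

/-- the sum over `R` -/
theorem sumR (D : Dq G Fb Ks Ms Q) (f : V → ℤ) :
    ∑ z ∈ R Fb, f z = ∑ p ∈ Ks ×ˢ Ms, (f (Q p.1 p.2).1 + f (Q p.1 p.2).2) := by
  classical
  have hR : R Fb = (Ks ×ˢ Ms).biUnion (fun p => P Q p.1 p.2) := by
    ext w
    rw [mem_biUnion]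
    constructor
    · intro h
      obtain ⟨K, hK, M, hM, h1⟩ := D.R_port h
      exact ⟨(K, M), mem_product.2 ⟨hK, hM⟩, h1⟩
    · rintro ⟨⟨K, M⟩, hp, h1⟩
      rw [mem_product] at hp
      have h3 : K ∈ G.I Fb w := by
        rw [D.I_P hp.1 hp.2 h1]
        exact mem_insert_self _ _
      exact N_sub_R76 D.reg (D.Km hp.1) (mem_I76.1 h3).2
  rw [hR, sum_biUnion]
  · refine sum_congr rfl fun p hp => ?_
    rw [mem_product] at hp
    exact sum_pair (D.al _ hp.1 _ hp.2).ne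
  · intro p hp p' hp' hne
    rw [mem_coe, mem_product] at hp hp'
    rw [Function.onFun, disjoint_left]
    intro w h1 h2
    obtain ⟨e1, e2⟩ := D.P_eq hp.1 hp.2 hp'.1 hp'.2 h1 h2
    exact hne (Prod.ext e1 e2)

end Dq

/-- a costly port of a `K6`: the partner is costly and they are an `LL` pair -/
theorem bad_pair (hC : G.Crit) (h9 : 9 ≤ Fintype.card V) {K : Finset V} (hK : G.IsK6 K)
    (hN : (G.N K).card = 6) {q u v : V} (p : G.Pr K q u v) (h : G.Bad K u) :
    G.Bad K v ∧ ∃ x y, G.LL u v x y := by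
  obtain ⟨q0, ⟨-, hq0, u', v', x, y, hu', hv', huK', hvK', hll, hxy⟩, huq0, -⟩ := h
  have huq : u ∈ G.nb q := by
    rw [p.nb]
    exact mem_insert_self _ _
  have hvq : v ∈ G.nb q := by
    rw [p.nb]
    exact mem_insert_of_mem (mem_insert_self _ _)
  -- `q0` is `q` or its twin
  obtain ⟨q', ht⟩ := hK.2.1 q p.qK
  have hq' := k6_twin16 hC h9 hK p.qK ht
  have hqq : q ≠ q' := K28.tw_ne ht
  have huq' : u ∈ G.nb q' := Tw_nb5 ht huq (fun e => p.uK (e ▸ hq'))
  have hvq' : v ∈ G.nb q' := Tw_nb5 ht hvq (fun e => p.vK (e ▸ hq'))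
  have huN : u ∈ G.N K := mem_N76.2 ⟨p.uK, q, p.qK, huq⟩
  have hX : ({q, q'} : Finset V) = G.nb u ∩ K := by
    apply eq_of_subset_of_card_le
    · intro w hw
      rw [mem_insert, mem_singleton] at hw
      rcases hw with rfl | rfl
      · exact mem_inter.2 ⟨G.sym _ _ huq, p.qK⟩
      · exact mem_inter.2 ⟨G.sym _ _ huq', hq'⟩
    · rw [K38.two hC h9 hK hN u huN, card_pair hqq]
  have h0 : q0 ∈ ({q, q'} : Finset V) := by
    rw [hX]
    exact mem_inter.2 ⟨G.sym _ _ huq0, hq0⟩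
  have hvq0 : v ∈ G.nb q0 := by
    rw [mem_insert, mem_singleton] at h0
    rcases h0 with rfl | rfl
    · exact hvq
    · exact hvq'
  have hne' : u' ≠ v' := ne_of_nb5 hll.2.2.1
  have h1 := k6_nb11 hC h9 hK hq0 hu' hv' huK' hvK' hne'
  have h2 : u = u' ∨ u = v' := by
    have := huq0
    rw [h1, mem_insert, mem_insert, mem_erase] at this
    rcases this with h | h | h
    · exact Or.inl h
    · exact Or.inr h
    · exact absurd h.2 p.uK
  have h3 : v = u' ∨ v = v' := by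
    have := hvq0
    rw [h1, mem_insert, mem_insert, mem_erase] at this
    rcases this with h | h | h
    · exact Or.inl h
    · exact Or.inr h
    · exact absurd h.2 p.vK
  refine ⟨⟨q0, ⟨hK, hq0, u', v', x, y, hu', hv', huK', hvK', hll, hxy⟩, hvq0, p.vK⟩, ?_⟩
  rcases h2 with rfl | rfl
  · rcases h3 with e | rfl
    · exact absurd e.symm p.ne
    · exact ⟨x, y, hll⟩
  · rcases h3 with rfl | e
    · exact ⟨y, x, LL_symm76 hll⟩
    · exact absurd e.symm p.ne

theorem pr_symm {K : Finset V} {q u v : V} (p : G.Pr K q u v) : G.Pr K q v u :=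
  ⟨p.qK, p.vK, p.uK, p.ne.symm, by rw [p.nb, insert_comm]⟩

end X97

open X97

variable {G : CG V} {Fa : Finset (Finset V)} {F : Finset V}

/-- row (x2): the hypothesis `hx2` of the count -/
theorem hx2_97 (hC : G.Crit) (h9 : 9 ≤ Fintype.card V) (hF : G.GoodK F) (T : G.Tor F Fa)
    (hG : G.Gen6 (insert (G.Co F) Fa)) (hIH : ∀ B ∈ G.ordS Fa, 4 ≤ G.WS B) :
    ∀ B B', B ≠ B' → G.ordS Fa = {B, B'} → ∀ K1 ∈ G.k6S Fa, ∀ K2 ∈ G.k6S Fa,
      ∀ K3 ∈ G.k6S Fa, K1 ≠ K2 → K1 ≠ K3 → K2 ≠ K3 → G.Full31 F B B' K1 → G.Full31 F B B' K2 →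
      G.Full31 F B B' K3 → 4 ≤ G.WS F := by
  classical
  intro B B' hBB hord K1 hK1 K2 hK2 K3 hK3 h12 h13 h23 f1 f2 f3
  obtain ⟨v0, hv0⟩ := hF.1.1.1
  have : Nonempty V := ⟨v0⟩
  obtain ⟨hCf, hCN, hCC⟩ := G.stCo_37 F hF.1.1
  set Ks : Finset (Finset V) := {K1, K2, K3} with hKs
  set Ms : Finset (Finset V) := insert (G.Co F) (G.ordS Fa) with hMs
  have hKsub : Ks ⊆ G.k6S Fa := by
    intro K hK
    rw [hKs, mem_insert, mem_insert, mem_singleton] at hK
    rcases hK with rfl | rfl | rfl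
    · exact hK1
    · exact hK2
    · exact hK3
  have hA : ∀ K ∈ Ks, ∀ M ∈ Ms, ∃ q u v, G.Pr K q u v ∧ G.AlQ K M u v := by
    intro K hK M hM
    have hf : G.Full31 F B B' K := by
      rw [hKs, mem_insert, mem_insert, mem_singleton] at hK
      rcases hK with rfl | rfl | rfl
      · exact f1
      · exact f2
      · exact f3
    obtain ⟨q1, u1, v1, q2, u2, v2, q3, u3, v3, p1, p2, p3, -, a1, -, a2, a3⟩ := hf
    rw [hMs, hord, mem_insert, mem_insert, mem_singleton] at hM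
    rcases hM with rfl | rfl | rfl
    · exact ⟨q1, u1, v1, p1, a1⟩
    · exact ⟨q2, u2, v2, p2, a2⟩
    · exact ⟨q3, u3, v3, p3, a3⟩
  have hA' : ∀ K M, ∃ t : V × V × V, K ∈ Ks → M ∈ Ms →
      G.Pr K t.1 t.2.1 t.2.2 ∧ G.AlQ K M t.2.1 t.2.2 := by
    intro K M
    by_cases h : K ∈ Ks ∧ M ∈ Ms
    · obtain ⟨q, u, v, h1⟩ := hA K h.1 M h.2
      exact ⟨(q, u, v), fun _ _ => h1⟩
    · exact ⟨(v0, v0, v0), fun h1 h2 => absurd ⟨h1, h2⟩ h⟩
  choose t ht using hA'
  have hdj' : Disjoint (G.k6S Fa) Ms := by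
    rw [disjoint_left]
    intro K h1 h2
    rw [hMs, mem_insert] at h2
    rcases h2 with h2 | h2
    · exact T.notin (h2 ▸ (mem_k6S.1 h1).1)
    · exact (mem_ordS.1 h2).2 (mem_k6S.1 h1).2
  have hcm : Ms.card = 3 := by
    rw [hMs, card_insert_of_notMem, hord, card_pair hBB]
    intro h
    exact T.notin (mem_ordS.1 h).1
  have hun : insert (G.Co F) Fa = G.k6S Fa ∪ Ms := by
    ext A
    rw [mem_insert, mem_union, hMs, mem_insert, mem_k6S, mem_ordS]
    tauto
  have D : Dq G (insert (G.Co F) Fa) Ks Ms (fun K M => (t K M).2) := by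
    refine ⟨T.reg, ?_, disjoint_of_subset_left hKsub hdj', ?_, hcm,
      fun K h M h' => (ht K M h h').2⟩
    · rw [hun]
      exact union_subset_union_left hKsub
    · rw [hKs]
      exact card_eq_three.2 ⟨K1, K2, K3, h12, h13, h23, rfl⟩
  have hKeq : G.k6S Fa = Ks := by
    apply Subset.antisymm _ hKsub
    intro K hK
    have h1 : K ∈ insert (G.Co F) Fa := mem_insert_of_mem (mem_k6S.1 hK).1
    rw [D.eq, mem_union] at h1
    rcases h1 with h1 | h1
    · exact h1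
    · exact absurd h1 (disjoint_left.1 hdj' hK)
  have hKN : ∀ K ∈ Ks, (G.N K).card = 6 := fun K hK => (T.reg.frag K (D.Km hK)).2.1
  have hRw : ∀ K ∈ Ks, ∀ M ∈ Ms, ∀ w ∈ Dq.P (fun K M => (t K M).2) K M,
      w ∈ R (insert (G.Co F) Fa) := by
    intro K hK M hM w hw
    have h3 : K ∈ G.I (insert (G.Co F) Fa) w := by
      rw [D.I_P hK hM hw]
      exact mem_insert_self _ _
    exact N_sub_R76 T.reg (D.Km hK) (mem_I76.1 h3).2
  -- the costly members at a port
  have hbad : ∀ K ∈ Ks, ∀ M ∈ Ms, ∀ w ∈ Dq.P (fun K M => (t K M).2) K M,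
      (G.Bad K w → G.badS Fa w = {K}) ∧ (¬ G.Bad K w → G.badS Fa w = ∅) := by
    intro K hK M hM w hw
    have hI := D.I_P hK hM hw
    have h1 : ∀ K' ∈ G.badS Fa w, K' = K := by
      intro K' hK'
      obtain ⟨⟨a, b⟩, c⟩ := mem_badS.1 hK'
      have h2 : K' ∈ G.I (insert (G.Co F) Fa) w :=
        mem_I76.2 ⟨mem_insert_of_mem a, (c.low hC h9).2⟩
      rw [hI, mem_insert, mem_singleton] at h2
      rcases h2 with h2 | h2
      · exact h2
      · exact absurd (h2 ▸ hM) (disjoint_left.1 hdj' (mem_k6S.2 ⟨a, b⟩))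
    have hKm := mem_k6S.1 (hKsub hK)
    refine ⟨fun h => ?_, fun h => ?_⟩
    · apply Subset.antisymm
      · intro K' hK'
        exact mem_singleton.2 (h1 K' hK')
      · intro K' hK'
        rw [mem_singleton.1 hK']
        exact mem_badS.2 ⟨hKm, h⟩
    · rw [eq_empty_iff_forall_notMem]
      intro K' hK'
      have := h1 K' hK'
      rw [this] at hK'
      exact h (mem_badS.1 hK').2
  have hlow : ∀ K ∈ Ks, ∀ M ∈ Ms, ∀ w ∈ Dq.P (fun K M => (t K M).2) K M,
      G.Low w ∧ w ∈ G.N K := by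
    intro K hK M hM w hw
    have h3 : K ∈ G.I (insert (G.Co F) Fa) w := by
      rw [D.I_P hK hM hw]
      exact mem_insert_self _ _
    have h4 := (mem_I76.1 h3).2
    exact ⟨(k6_low16 hC h9 (mem_k6S.1 (hKsub hK)).2 h4).1, h4⟩
  -- the ports at an ordinary member are in `F`
  have hinF : ∀ K ∈ Ks, ∀ M ∈ G.ordS Fa, ∀ w ∈ Dq.P (fun K M => (t K M).2) K M, w ∈ F := by
    intro K hK M hM w hw
    have hM' : M ∈ Ms := mem_insert_of_mem hM
    have hI := D.I_P hK hM' hw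
    have h4 := (hlow K hK M hM' w hw).2
    rcases mem_union.1 (N_subset37 (T.good K (mem_k6S.1 (hKsub hK)).1).2.1 h4) with h5 | h5
    · exact h5
    · exfalso
      have h6 : G.Co F ∈ G.I (insert (G.Co F) Fa) w :=
        mem_I76.2 ⟨mem_insert_self _ _, by rw [hCN]; exact h5⟩
      rw [hI, mem_insert, mem_singleton] at h6
      rcases h6 with h6 | h6
      · exact T.notin (h6 ▸ (mem_k6S.1 (hKsub hK)).1)
      · exact T.notin (h6 ▸ (mem_ordS.1 hM).1)
  -- values at an ordinary member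
  have vB : ∀ K ∈ Ks, ∀ M ∈ G.ordS Fa, ∀ w ∈ Dq.P (fun K M => (t K M).2) K M,
      (G.Bad K w → G.valS Fa F w = 3 * G.fc (insert (G.Co F) Fa) w + 2) ∧
      (¬ G.Bad K w → 4 ≤ G.valS Fa F w) := by
    intro K hK M hM w hw
    have hM' : M ∈ Ms := mem_insert_of_mem hM
    have hb := hbad K hK M hM' w hw
    refine ⟨fun h => ?_, fun h => ?_⟩
    · rw [val_in33 hC h9 hF T (by rw [hb.1 h]; exact singleton_nonempty _)
        (hinF K hK M hM w hw), hb.1 h, card_singleton]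
      push_cast
      ring
    · have h1 := valS_four33 hF T hG (hRw K hK M hM' w hw) (hlow K hK M hM' w hw).1 (hb.2 h)
        (fun h2 => badC_notin h2 (good_k6_Co hF.2) (hinF K hK M hM w hw))
      have h2 : 1 ≤ (G.atS Fa w).card := by
        rw [Nat.one_le_iff_ne_zero]
        intro h3
        have h4 : K ∈ G.atS Fa w := mem_atS.2 ⟨mem_k6S.1 (hKsub hK), (hlow K hK M hM' w hw).2⟩
        rw [card_eq_zero] at h3
        rw [h3] at h4
        exact absurd h4 (notMem_empty _)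
      have h2' : (1 : ℤ) ≤ ((G.atS Fa w).card : ℤ) := by exact_mod_cast h2
      linarith
  -- values at the opposite side
  have vC : ∀ K ∈ Ks, ∀ w ∈ Dq.P (fun K M => (t K M).2) K (G.Co F),
      (G.Bad K w → 3 * G.fc (insert (G.Co F) Fa) w - 6 ≤ G.valS Fa F w) ∧
      (¬ G.Bad K w → 0 ≤ G.valS Fa F w) := by
    intro K hK w hw
    have hM' : G.Co F ∈ Ms := mem_insert_self _ _
    have hb := hbad K hK _ hM' w hw
    refine ⟨fun h => ?_, fun h => ?_⟩
    · by_cases hc : G.BadC (G.Co F) w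
      · rw [val_C33 T (hlow K hK _ hM' w hw).1 hc, hb.1 h, card_singleton]
        push_cast
        linarith
      · have hN : w ∈ G.N F := by
          have h3 : G.Co F ∈ G.I (insert (G.Co F) Fa) w := by
            rw [D.I_P hK hM' hw]
            exact mem_insert_of_mem (mem_singleton_self _)
          have h4 := (mem_I76.1 h3).2
          rw [hCN] at h4
          exact h4
        rw [val_N33 hC h9 T (by rw [hb.1 h]; exact singleton_nonempty _) hN hc, hb.1 h,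
          card_singleton]
        push_cast
        split_ifs <;> linarith
    · exact valS_nonneg33 hF T hG (hRw K hK _ hM' w hw) (hb.2 h)
  have hfc : ∀ K ∈ Ks, ∀ M ∈ Ms, ∀ w ∈ Dq.P (fun K M => (t K M).2) K M,
      0 ≤ G.fc (insert (G.Co F) Fa) w := fun K hK M hM w hw =>
    fc_nonneg33 T hG (hRw K hK M hM w hw)
  have m1 : ∀ K M, (t K M).2.1 ∈ Dq.P (fun K M => (t K M).2) K M := fun K M =>
    mem_insert_self _ _
  have m2 : ∀ K M, (t K M).2.2 ∈ Dq.P (fun K M => (t K M).2) K M := fun K M =>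
    mem_insert_of_mem (mem_singleton_self _)
  -- the two ports of a pair are both costly or both not
  have hboth : ∀ K ∈ Ks, ∀ M ∈ Ms, (G.Bad K (t K M).2.1 ↔ G.Bad K (t K M).2.2) := by
    intro K hK M hM
    have p := (ht K M hK hM).1
    have hk6 := (mem_k6S.1 (hKsub hK)).2
    exact ⟨fun h => (bad_pair hC h9 hk6 (hKN K hK) p h).1,
      fun h => (bad_pair hC h9 hk6 (hKN K hK) (pr_symm p) h).1⟩
  have hid := sum_valS33 hC h9 hF T
  have hsumB : ∑ A ∈ G.ordS Fa, G.WS A = G.WS B + G.WS B' := by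
    rw [hord, sum_pair hBB]
  have hWB := hIH B (by rw [hord]; simp)
  have hWB' := hIH B' (by rw [hord]; simp)
  -- the sum of the constants
  have hv : ∑ p ∈ Ks ×ˢ Ms, (if p.2 = G.Co F then (-12 : ℤ) else 4) = -12 := by
    rw [sum_product]
    have h1 : ∀ K ∈ Ks, ∑ M ∈ Ms, (if M = G.Co F then (-12 : ℤ) else 4) = -4 := by
      intro K _
      rw [hMs, sum_insert (fun h => T.notin (mem_ordS.1 h).1), if_pos rfl]
      have h2 : ∀ M ∈ G.ordS Fa, (if M = G.Co F then (-12 : ℤ) else 4) = 4 := by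
        intro M hM
        rw [if_neg]
        intro h
        exact T.notin (h ▸ (mem_ordS.1 hM).1)
      rw [sum_congr rfl h2, sum_const, hord, card_pair hBB]
      norm_num
    rw [sum_congr rfl h1, sum_const, D.k3]
    norm_num
  have hMcase : ∀ M ∈ Ms, M = G.Co F ∨ (M ≠ G.Co F ∧ M ∈ G.ordS Fa) := by
    intro M hM
    rw [hMs, mem_insert] at hM
    rcases hM with h | h
    · exact Or.inl h
    · exact Or.inr ⟨fun e => T.notin (e ▸ (mem_ordS.1 h).1), h⟩
  -- a costly pair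
  have hcost : ∀ K ∈ Ks, ∀ M ∈ Ms, G.Bad K (t K M).2.1 →
      3 * (G.fc (insert (G.Co F) Fa) (t K M).2.1 + G.fc (insert (G.Co F) Fa) (t K M).2.2) +
        (if M = G.Co F then (-12 : ℤ) else 4) ≤
      G.valS Fa F (t K M).2.1 + G.valS Fa F (t K M).2.2 := by
    intro K hK M hM hb
    have hb' := (hboth K hK M hM).1 hb
    rcases hMcase M hM with h | ⟨h, h'⟩
    · subst h
      have e1 := (vC K hK _ (m1 K _)).1 hb
      have e2 := (vC K hK _ (m2 K _)).1 hb'
      rw [if_pos rfl]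
      linarith
    · have e1 := (vB K hK M h' _ (m1 K _)).1 hb
      have e2 := (vB K hK M h' _ (m2 K _)).1 hb'
      rw [if_neg h]
      linarith
  have hfree : ∀ K ∈ Ks, ∀ M ∈ Ms, ¬ G.Bad K (t K M).2.1 →
      (if M = G.Co F then (-12 : ℤ) else 4) + 4 ≤
      G.valS Fa F (t K M).2.1 + G.valS Fa F (t K M).2.2 := by
    intro K hK M hM hb
    have hb' : ¬ G.Bad K (t K M).2.2 := fun h => hb ((hboth K hK M hM).2 h)
    rcases hMcase M hM with h | ⟨h, h'⟩
    · subst h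
      have e1 := (vC K hK _ (m1 K _)).2 hb
      have e2 := (vC K hK _ (m2 K _)).2 hb'
      rw [if_pos rfl]
      linarith
    · have e1 := (vB K hK M h' _ (m1 K _)).2 hb
      have e2 := (vB K hK M h' _ (m2 K _)).2 hb'
      rw [if_neg h]
      linarith
  by_cases hall : ∀ K ∈ Ks, ∀ M ∈ Ms, G.Bad K (t K M).2.1
  · -- all pairs costly
    have h1 : ∑ p ∈ Ks ×ˢ Ms, (3 * (G.fc (insert (G.Co F) Fa) (t p.1 p.2).2.1 +
        G.fc (insert (G.Co F) Fa) (t p.1 p.2).2.2) +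
        (if p.2 = G.Co F then (-12 : ℤ) else 4)) ≤
        ∑ p ∈ Ks ×ˢ Ms, (G.valS Fa F (t p.1 p.2).2.1 + G.valS Fa F (t p.1 p.2).2.2) :=
      sum_le_sum fun p hp => by
        rw [mem_product] at hp
        exact hcost p.1 hp.1 p.2 hp.2 (hall p.1 hp.1 p.2 hp.2)
    rw [sum_add_distrib, ← mul_sum, hv] at h1
    have e1 := D.sumR (fun z => G.fc (insert (G.Co F) Fa) z)
    have e2 := D.sumR (fun z => G.valS Fa F z)
    have e3 := sum_fc6 (G := G) (Fa := insert (G.Co F) Fa)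
    have e4 := T.sum
    by_cases hV : ∑ z ∈ R (insert (G.Co F) Fa), G.bal5 (insert (G.Co F) Fa) z = 0
    · have h6 := k33_97 hC h9 T hF.1.1 (by rw [hord, card_pair hBB])
        (by rw [hKeq]; exact D.k3) (by
          intro K hK M hM
          rw [hKeq] at hK
          have p := ht K M hK hM
          exact ⟨_, _, p.2, (bad_pair hC h9 (mem_k6S.1 (hKsub hK)).2 (hKN K hK) p.1
            (hall K hK M hM)).2⟩) hV hIH
      have h7 := h6 B (by rw [hord]; simp)
      have h8 := h6 B' (by rw [hord]; simp)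
      rw [hV] at e3
      rw [← e1, ← e2, e3] at h1
      rw [hsumB] at hid
      linarith
    · have e5 : 1 ≤ ∑ z ∈ R (insert (G.Co F) Fa), G.bal5 (insert (G.Co F) Fa) z := by
        omega
      rw [← e1, ← e2, e3] at h1
      rw [hsumB] at hid
      linarith
  · push Not at hall
    obtain ⟨K0, hK0, M0, hM0, hb0⟩ := hall
    have h1 : ∑ p ∈ Ks ×ˢ Ms, ((if p.2 = G.Co F then (-12 : ℤ) else 4) +
        (if p = (K0, M0) then 4 else 0)) ≤
        ∑ p ∈ Ks ×ˢ Ms, (G.valS Fa F (t p.1 p.2).2.1 + G.valS Fa F (t p.1 p.2).2.2) :=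
      sum_le_sum fun p hp => by
        rw [mem_product] at hp
        by_cases hp0 : p = (K0, M0)
        · rw [hp0, if_pos rfl]
          exact hfree K0 hK0 M0 hM0 hb0
        · rw [if_neg hp0, add_zero]
          by_cases hb : G.Bad p.1 (t p.1 p.2).2.1
          · have e1 := hcost p.1 hp.1 p.2 hp.2 hb
            have e2 := hfc p.1 hp.1 p.2 hp.2 _ (m1 _ _)
            have e3 := hfc p.1 hp.1 p.2 hp.2 _ (m2 _ _)
            linarith
          · have e1 := hfree p.1 hp.1 p.2 hp.2 hb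
            linarith
    have hp0 : (K0, M0) ∈ Ks ×ˢ Ms := mem_product.2 ⟨hK0, hM0⟩
    rw [sum_add_distrib, hv, sum_ite_eq' (Ks ×ˢ Ms) (K0, M0) (fun _ => (4 : ℤ)),
      if_pos hp0] at h1
    have e2 := D.sumR (fun z => G.valS Fa F z)
    rw [← e2] at h1
    rw [hsumB] at hid
    linarith

end CG

end Pool.Agent.Lib.MP_e95c01_co.N
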