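import Pool.Agent.Lib.MP_e95c01_co.Y.ValI31
import Pool.Agent.Lib.MP_e95c01_co.Y.Small11
import Pool.Agent.Lib.MP_e95c01_co.Y.X2_97

/-!
# Thick torsos with a `K6` member
-/

set_option autoImplicit false

namespace Pool.Agent.Lib.MP_e95c01_co.N

open Finset

variable {V : Type} [Fintype V] [DecidableEq V]

namespace CG

variable {G : CG V} {Fa : Finset (Finset V)} {F : Finset V}

/-- the functional is even -/
theorem WS_even31 (h9 : 9 ≤ Fintype.card V) (hF : G.Frag F) : Even (G.WS F) := by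
  classical
  rw [WS]
  refine Even.add ((P5_even11 h9 hF).mul_left _) (Finset.even_sum _ fun w _ => ?_)
  unfold thS theta
  split_ifs
  · exact Even.zero
  · exact ⟨2, rfl⟩
  · exact Even.zero
  · exact ⟨2, rfl⟩
  · exact ⟨1, rfl⟩
  · exact Even.zero

/-- thick torsos with a `K6` member, from the rows -/
theorem thickK31 (hcr : G.Crit) (hP7 : G.StP7) (hPd : G.StPd)
    (hHs : ∀ F Fa, G.GoodK F → G.Tor F Fa → G.Gen6 (insert (G.Co F) Fa) →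
      ∃ hx, G.Hx31 (insert (G.Co F) Fa) hx ∧ ∑ w ∈ G.ptS Fa, hx w ≤
        ∑ z ∈ R (insert (G.Co F) Fa) \ G.ptS Fa, G.valS Fa F z)
    (hKK : ∀ F Fa, G.GoodK F → G.Tor F Fa → G.Gen6 (insert (G.Co F) Fa) → G.StKK31 F Fa) :
    ∀ F Fa, G.GoodK F → ¬ G.IsK6 F → G.Tor F Fa → G.Gen6 (insert (G.Co F) Fa) →
      (G.k6S Fa).Nonempty → (∀ B ∈ G.ordS Fa, 4 ≤ G.WS B) → 4 ≤ G.WS F := by
  intro F Fa hF hFK T hG hne hIH
  have h9 := hG.g5.n9
  by_cases hsm : ∃ K ∈ G.k6S Fa, F \ K ⊆ G.N K ∧ (F \ K).card ≤ 3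
  · obtain ⟨K, hK, h1, h2⟩ := hsm
    obtain ⟨h3, h4⟩ := mem_k6S.1 hK
    have h5 := T.good K h3
    exact small_WS11 hcr h9 hF h4 h5.2.1 (fun h => hFK (h ▸ h4)) h1 h2
  · push Not at hsm
    obtain ⟨hx, H, hsum⟩ := hHs F Fa hF T hG
    have hal : ∀ K ∈ G.k6S Fa, ∀ u1 v1 u2 v2, G.AlQ K (G.Co F) u1 v1 →
        G.AlQ K (G.Co F) u2 v2 → ¬ (u1 ≠ u2 ∧ u1 ≠ v2 ∧ v1 ≠ u2 ∧ v1 ≠ v2) := by
      intro K hK u1 v1 u2 v2 a1 a2 hd
      obtain ⟨h3, h4⟩ := mem_k6S.1 hK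
      have h5 := T.good K h3
      have h6 := alQ_uniq11 hcr h9 hF h4 h5.2.1 (fun h => absurd h.2 (by
        have := hsm K hK h.1
        omega)) (G.stCo_37 F hF.1.1).1 (Or.inl rfl) a1 a2
      rcases h6 with h6 | h6
      · exact hd.1 h6.1.symm
      · exact hd.2.1 h6.2.symm
    exact count31 hcr h9 hF T (valRow31 hP7 hPd hF T hG H (hKK F Fa hF T hG)) hne hsum
      (sum_valS33 hcr h9 hF T) hIH (WS_even31 h9 hF.1.1) hal (hx2_97 hcr h9 hF T hG hIH)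

end CG

end Pool.Agent.Lib.MP_e95c01_co.N
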