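import Pool.Agent.Lib.MP_e95c01_co.Y.Cnt31
import Pool.Agent.Lib.MP_e95c01_co.Y.Val33
import Pool.Agent.Lib.MP_e95c01_co.Y.Val6

/-!
# Values of the port pairs that face the opposite side or an ordinary member
-/

set_option autoImplicit false

namespace Pool.Agent.Lib.MP_e95c01_co.N

open Finset

variable {V : Type} [Fintype V] [DecidableEq V]

namespace CG

variable {G : CG V} {Fa : Finset (Finset V)} {F : Finset V}

namespace VC31

/-- a port is a vertex of the torso -/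
theorem port_R (T : G.Tor F Fa) {K : Finset V} (hK : K ∈ G.k6S Fa) {u : V} (hu : u ∈ G.N K) :
    u ∈ R (insert (G.Co F) Fa) :=
  N_sub_R76 T.reg (mem_insert_of_mem (mem_k6S.1 hK).1) hu

/-- a vertex of the torso is in `F` or in `N F` -/
theorem in_F_or {u : V} (hu : u ∈ R (insert (G.Co F) Fa)) :
    u ∈ F ∨ u ∈ G.N F := by
  have h1 : u ∉ G.Co F := mem_R76.1 hu _ (mem_insert_self _ _)
  by_contra hno
  push Not at hno
  exact h1 (mem_Co76.2 hno)

/-- all neighbours in `K`, `M`, `N M`, `N K`: a port of no other member -/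
theorem al_other (T : G.Tor F Fa) {K M K' : Finset V} (hK : K ∈ Fa)
    (hM : M ∈ insert (G.Co F) Fa) (hK' : K' ∈ Fa) (h1 : K' ≠ K) (h2 : K' ≠ M) {u : V}
    (ha : ∀ w ∈ G.nb u, w ∈ K ∨ w ∈ M ∨ w ∈ G.N M ∨ w ∈ G.N K) : u ∉ G.N K' := by
  intro hu
  obtain ⟨-, z, hz, hzu⟩ := mem_N76.1 hu
  obtain ⟨a, b⟩ := T.reg.dis K (mem_insert_of_mem hK) K' (mem_insert_of_mem hK') (Ne.symm h1)
  obtain ⟨c, d⟩ := T.reg.dis M hM K' (mem_insert_of_mem hK') (Ne.symm h2)
  rcases ha z (G.sym _ _ hzu) with h | h | h | h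
  · exact disjoint_left.1 a h hz
  · exact disjoint_left.1 c h hz
  · exact disjoint_left.1 d h hz
  · exact disjoint_left.1 b h hz

/-- the ports of a pair that faces `M` belong to no other `K6` member -/
theorem al_kp (T : G.Tor F Fa) {K M : Finset V} (hK : K ∈ G.k6S Fa)
    (hM : M ∈ insert (G.Co F) (G.ordS Fa)) {u : V}
    (ha : ∀ w ∈ G.nb u, w ∈ K ∨ w ∈ M ∨ w ∈ G.N M ∨ w ∈ G.N K) : G.kpS Fa u ≤ 1 := by
  classical
  rw [kpS, card_le_one]
  have hM' : M ∈ insert (G.Co F) Fa := by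
    rcases mem_insert.1 hM with rfl | h
    · exact mem_insert_self _ _
    · exact mem_insert_of_mem (mem_ordS.1 h).1
  have hMk : ∀ K' ∈ G.k6S Fa, K' ≠ M := by
    rintro K' hK' rfl
    rcases mem_insert.1 hM with h | h
    · exact T.notin (h ▸ (mem_k6S.1 hK').1)
    · exact (mem_ordS.1 h).2 (mem_k6S.1 hK').2
  have key : ∀ K' ∈ (G.k6S Fa).filter (fun K => u ∈ G.N K), K' = K := by
    intro K' hK'
    obtain ⟨h1, h2⟩ := mem_filter.1 hK'
    by_contra hne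
    exact al_other T (mem_k6S.1 hK).1 hM' (mem_k6S.1 h1).1 hne (hMk K' h1) ha h2
  intro a ha' b hb'
  rw [key a ha', key b hb']

/-- the number of costly members -/
theorem bad_le (hC : G.Crit) (h9 : 9 ≤ Fintype.card V) {u : V} (h : G.kpS Fa u ≤ 1) :
    (G.badS Fa u).card ≤ 1 := by
  classical
  refine le_trans (card_le_card ?_) h
  intro K hK
  obtain ⟨h1, h2⟩ := mem_badS.1 hK
  exact mem_filter.2 ⟨mem_k6S.2 h1, (h2.low hC h9).2⟩

/-- general lower bounds -/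
theorem val_ge (hF : G.GoodK F) (T : G.Tor F Fa) (hG : G.Gen6 (insert (G.Co F) Fa)) {K : Finset V}
    (hK : K ∈ G.k6S Fa) {u : V} (hu : u ∈ G.N K) (h1 : (G.badS Fa u).card ≤ 1) :
    -6 ≤ G.valS Fa F u ∧ (¬ G.BadC (G.Co F) u → -2 ≤ G.valS Fa F u) ∧
      (u ∈ F → 2 ≤ G.valS Fa F u) := by
  classical
  have hC := hG.g5.crit
  have h9 := hG.g5.n9
  have hR := port_R T hK hu
  have hl : G.Low u := (k6_low16 hC h9 (mem_k6S.1 hK).2 hu).1
  have hfc := fc_nonneg33 T hG hR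
  have hc : ((G.badS Fa u).card : ℤ) ≤ 1 := by exact_mod_cast h1
  by_cases h0 : (G.badS Fa u).Nonempty
  · refine ⟨?_, ?_, ?_⟩
    · by_cases hb : G.BadC (G.Co F) u
      · rw [val_C33 T hl hb]
        linarith
      · rcases in_F_or hR with h | h
        · rw [val_in33 hC h9 hF T h0 h]
          linarith
        · rw [val_N33 hC h9 T h0 h hb]
          split_ifs <;> linarith
    · intro hb
      rcases in_F_or hR with h | h
      · rw [val_in33 hC h9 hF T h0 h]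
        linarith
      · rw [val_N33 hC h9 T h0 h hb]
        split_ifs <;> linarith
    · intro h
      rw [val_in33 hC h9 hF T h0 h]
      linarith
  · have h2 : G.badS Fa u = ∅ := not_nonempty_iff_eq_empty.1 h0
    have h3 := valS_nonneg33 hF T hG hR h2
    refine ⟨by linarith, fun _ => by linarith, fun h => ?_⟩
    have hb : ¬ G.BadC (G.Co F) u := fun hb => badC_notin hb (good_k6_Co hF.2) h
    have h4 := valS_four33 hF T hG hR hl h2 hb
    have h5 : 1 ≤ (G.atS Fa u).card := card_pos.2 ⟨K, mem_atS.2 ⟨mem_k6S.1 hK, hu⟩⟩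
    have h6 : (1 : ℤ) ≤ ((G.atS Fa u).card : ℤ) := by exact_mod_cast h5
    linarith

/-- the ports of a pair that faces an ordinary member are in `F` -/
theorem al_in (hF : G.GoodK F) (T : G.Tor F Fa) {K B : Finset V} (hK : K ∈ G.k6S Fa)
    (hB : B ∈ G.ordS Fa) {u : V} (hu : u ∈ G.N K)
    (ha : ∀ w ∈ G.nb u, w ∈ K ∨ w ∈ B ∨ w ∈ G.N B ∨ w ∈ G.N K) : u ∈ F := by
  rcases in_F_or (port_R T hK hu) with h | h
  · exact h
  · exfalso
    obtain ⟨-, hCN, -⟩ := G.stCo_37 F hF.1.1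
    rw [← hCN] at h
    obtain ⟨-, z, hz, hzu⟩ := mem_N76.1 h
    have hK' : K ∈ insert (G.Co F) Fa := mem_insert_of_mem (mem_k6S.1 hK).1
    have hB' : B ∈ insert (G.Co F) Fa := mem_insert_of_mem (mem_ordS.1 hB).1
    have n1 : K ≠ G.Co F := fun h => T.notin (h ▸ (mem_k6S.1 hK).1)
    have n2 : B ≠ G.Co F := fun h => T.notin (h ▸ (mem_ordS.1 hB).1)
    obtain ⟨a, b⟩ := T.reg.dis K hK' _ (mem_insert_self _ _) n1
    obtain ⟨c, d⟩ := T.reg.dis B hB' _ (mem_insert_self _ _) n2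
    rcases ha z (G.sym _ _ hzu) with h | h | h | h
    · exact disjoint_left.1 a h hz
    · exact disjoint_left.1 c h hz
    · exact disjoint_left.1 d h hz
    · exact disjoint_left.1 b h hz

theorem pr_N {K : Finset V} {q u v : V} (p : G.Pr K q u v) : u ∈ G.N K ∧ v ∈ G.N K :=
  ⟨mem_N76.2 ⟨p.uK, q, p.qK, by rw [p.nb]; exact mem_insert_self _ _⟩,
    mem_N76.2 ⟨p.vK, q, p.qK, by rw [p.nb]; exact mem_insert_of_mem (mem_insert_self _ _)⟩⟩

/-- rows `c1`, `c2` -/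
theorem c12 (hF : G.GoodK F) (T : G.Tor F Fa) (hG : G.Gen6 (insert (G.Co F) Fa)) {hx : V → ℤ}
    (hx0 : ∀ z, 0 ≤ hx z) {K : Finset V} (hK : K ∈ G.k6S Fa) {q u v : V} (p : G.Pr K q u v)
    (a : G.AlQ K (G.Co F) u v) : -24 ≤ G.shS Fa F hx u + G.shS Fa F hx v ∧
      (¬ G.Rch F u v → -8 ≤ G.shS Fa F hx u + G.shS Fa F hx v) := by
  have hC := hG.g5.crit
  have h9 := hG.g5.n9
  obtain ⟨hu, hv⟩ := pr_N p
  have ku := al_kp T hK (mem_insert_self _ _) a.hu
  have kv := al_kp T hK (mem_insert_self _ _) a.hv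
  obtain ⟨u1, u2, -⟩ := val_ge hF T hG hK hu (bad_le hC h9 ku)
  obtain ⟨v1, v2, -⟩ := val_ge hF T hG hK hv (bad_le hC h9 kv)
  rw [shS, shS, if_pos ku, if_pos kv]
  have e1 := hx0 u
  have e2 := hx0 v
  refine ⟨by linarith, fun h => ?_⟩
  rw [Rch, not_or] at h
  have := u2 h.1
  have := v2 h.2
  linarith

/-- row `b` -/
theorem b (hF : G.GoodK F) (T : G.Tor F Fa) (hG : G.Gen6 (insert (G.Co F) Fa)) {hx : V → ℤ}
    (hx0 : ∀ z, 0 ≤ hx z) {K B : Finset V} (hK : K ∈ G.k6S Fa) (hB : B ∈ G.ordS Fa) {q u v : V}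
    (p : G.Pr K q u v) (a : G.AlQ K B u v) : 8 ≤ G.shS Fa F hx u + G.shS Fa F hx v := by
  have hC := hG.g5.crit
  have h9 := hG.g5.n9
  obtain ⟨hu, hv⟩ := pr_N p
  have ku := al_kp T hK (mem_insert_of_mem hB) a.hu
  have kv := al_kp T hK (mem_insert_of_mem hB) a.hv
  obtain ⟨-, -, u1⟩ := val_ge hF T hG hK hu (bad_le hC h9 ku)
  obtain ⟨-, -, v1⟩ := val_ge hF T hG hK hv (bad_le hC h9 kv)
  have u2 := u1 (al_in hF T hK hB hu a.hu)
  have v2 := v1 (al_in hF T hK hB hv a.hv)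
  rw [shS, shS, if_pos ku, if_pos kv]
  have e1 := hx0 u
  have e2 := hx0 v
  linarith

end VC31

end CG

end Pool.Agent.Lib.MP_e95c01_co.N
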