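import Pool.Agent.Lib.MP_e95c01_co.X.Ident50

/-!
# The functional `W` and its identities

`W F = 3 P5 F + 4 l F + 2 l (N F)`. The sum of `W` over the two sides of a fragment is
`4 (10 n_6 - 3 n)`.
-/

namespace Pool.Agent.Lib.MP_e95c01_co.N

open Finset

variable {V : Type} [Fintype V] [DecidableEq V]

namespace CG

variable {G : CG V} {Fa : Finset (Finset V)}

/-- the functional `W` -/
noncomputable def W (G : CG V) (F : Finset V) : ℤ :=
  3 * G.P5 F + 4 * (G.l F : ℤ) + 2 * (G.l (G.N F) : ℤ)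

/-- lows as a sum -/
theorem l_sum6 (G : CG V) (S : Finset V) :
    (G.l S : ℤ) = ∑ v ∈ S, (if G.Low v then (1 : ℤ) else 0) := by
  rw [l, card_filter]
  push_cast
  rfl

/-- W1: the two sides of a fragment -/
theorem W_add_Co6 {F : Finset V} (hF : G.Frag F) :
    G.W F + G.W (G.Co F) = 40 * (G.l univ : ℤ) - 12 * (Fintype.card V : ℤ) := by
  obtain ⟨-, h2, -⟩ := G.stCo_37 F hF
  have h1 := G.stPs5_50 F hF
  rw [G.stTot5_50] at h1
  have h3 : (G.l univ : ℤ) = G.l F + G.l (G.N F) + G.l (G.Co F) := by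
    simp only [l_sum6]
    exact G.part11 F _
  rw [W, W, h2]
  linarith

/-- W2: the identity of a torso -/
theorem W_torso6 (h : G.Reg Fa) :
    40 * (G.l univ : ℤ) - 12 * (Fintype.card V : ℤ) - ∑ B ∈ Fa, G.W B =
      3 * ∑ z ∈ R Fa, G.bal5 Fa z +
        2 * ∑ z ∈ R Fa, (if G.Low z then (2 : ℤ) - ((G.I Fa z).card : ℤ) else 0) := by
  have h1 := G.stId5_50 Fa h
  rw [G.stTot5_50] at h1
  have h2 := sum_split76 h (fun v => (if G.Low v then (1 : ℤ) else 0))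
  rw [← l_sum6] at h2
  have h3 := sum_N76 (G := G) h (fun _ w => (if G.Low w then (1 : ℤ) else 0))
  have h4 : ∑ B ∈ Fa, G.W B = 3 * ∑ B ∈ Fa, G.P5 B +
      4 * ∑ B ∈ Fa, ∑ v ∈ B, (if G.Low v then (1 : ℤ) else 0) +
      2 * ∑ B ∈ Fa, ∑ v ∈ G.N B, (if G.Low v then (1 : ℤ) else 0) := by
    rw [mul_sum, mul_sum, mul_sum, ← sum_add_distrib, ← sum_add_distrib]
    refine sum_congr rfl fun B _ => ?_
    rw [W, l_sum6, l_sum6]
  have h5 : ∑ z ∈ R Fa, (if G.Low z then (2 : ℤ) - ((G.I Fa z).card : ℤ) else 0) =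
      2 * ∑ z ∈ R Fa, (if G.Low z then (1 : ℤ) else 0) -
        ∑ z ∈ R Fa, ∑ _B ∈ G.I Fa z, (if G.Low z then (1 : ℤ) else 0) := by
    rw [mul_sum, ← sum_sub_distrib]
    refine sum_congr rfl fun z _ => ?_
    rw [sum_const, nsmul_eq_mul]
    split_ifs <;> ring
  rw [h4, h5, ← h3]
  linarith

/-- W2': the torso of a fragment `F` with a family inside `F` -/
theorem W_inner6 {F : Finset V} (hF : G.Frag F) (h : G.Reg (insert (G.Co F) Fa))
    (hn : G.Co F ∉ Fa) :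
    G.W F = ∑ B ∈ Fa, G.W B + 3 * ∑ z ∈ R (insert (G.Co F) Fa), G.bal5 (insert (G.Co F) Fa) z +
      2 * ∑ z ∈ R (insert (G.Co F) Fa),
        (if G.Low z then (2 : ℤ) - ((G.I (insert (G.Co F) Fa) z).card : ℤ) else 0) := by
  have h1 := W_torso6 h
  rw [sum_insert hn] at h1
  have h2 := W_add_Co6 hF
  linarith

end CG

end Pool.Agent.Lib.MP_e95c01_co.N
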